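import Pool.Agent.Lib_MP_cb5629.App3

/-! Section 5 of the paper text: translation to configurations. -/

namespace MCC

universe u

/-- `I` is the incidence relation of a symmetric configuration `v_3` with the points `P` and the lines `L`: every line
has exactly three points, every point is on exactly three lines, two distinct points are on at most one common line. -/
structure IsV3 {P L : Type u} (I : P → L → Prop) : Prop where
  pts : ∀ l, {p | I p l}.ncard = 3
  lns : ∀ p, {l | I p l}.ncard = 3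
  lin : ∀ p q, p ≠ q → ∀ l m, I p l → I q l → I p m → I q m → l = m

/-- there is a strong colouring with `k` colours: the points of every line have different colours -/
def StrongCol {P L : Type u} (I : P → L → Prop) (k : ℕ) : Prop :=
  ∃ c : P → Fin k, ∀ l p q, I p l → I q l → p ≠ q → c p ≠ c q

/-- there is a weak colouring with `k` colours: no line has all its points in one colour -/
def WeakCol {P L : Type u} (I : P → L → Prop) (k : ℕ) : Prop :=
  ∃ c : P → Fin k, ∀ l, ∃ p q, I p l ∧ I q l ∧ c p ≠ c q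

/-- the strong chromatic number -/
noncomputable def chiS {P L : Type u} (I : P → L → Prop) : ℕ := sInf {k | StrongCol I k}

/-- the weak chromatic number -/
noncomputable def chiW {P L : Type u} (I : P → L → Prop) : ℕ := sInf {k | WeakCol I k}

/-- `S` meets every line and contains no line -/
def Blocking {P L : Type u} (I : P → L → Prop) (S : Set P) : Prop :=
  ∀ l, (∃ p ∈ S, I p l) ∧ ∃ p, p ∉ S ∧ I p l

/-- the signed graph of an incidence relation, rows are the lines -/
noncomputable def App_s {P L : Type} (I : P → L → Prop) : L → P → ℤ := by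
  classical
  exact fun l p => if I p l then 1 else 0

lemma App_s_ne {P L : Type} (I : P → L → Prop) (l : L) (p : P) : App_s I l p ≠ 0 ↔ I p l := by
  unfold App_s
  by_cases h : I p l <;> simp [h]

lemma App_s_pos {P L : Type} (I : P → L → Prop) (l : L) (p : P) : App_s I l p ≠ -1 := by
  unfold App_s
  by_cases h : I p l <;> simp [h]

lemma App_s_cubic {P L : Type} [Fintype P] [Fintype L] [DecidableEq P] [DecidableEq L] {I : P → L → Prop}
    (h1 : ∀ l, {p | I p l}.ncard = 3) (h2 : ∀ p, {l | I p l}.ncard = 3) : Cubic (App_s I) where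
  val l p := by
    unfold App_s
    by_cases h : I p l <;> simp [h]
  row l := by
    rw [← h1 l, ← Set.ncard_coe_finset]
    congr 1
    ext p
    simp [nbA, App_s_ne]
  col p := by
    rw [← h2 p, ← Set.ncard_coe_finset]
    congr 1
    ext l
    simp [nbB, App_s_ne]

/-- blocking set from a strong 5-colouring, universe 0 -/
lemma App_block0 (hP : ∀ n, P n) {X L : Type} [Fintype X] [Fintype L] {I : X → L → Prop}
    (h1 : ∀ l, {p | I p l}.ncard = 3) (h2 : ∀ p, {l | I p l}.ncard = 3) (h5 : StrongCol I 5) :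
    ∃ S, Blocking I S := by
  classical
  obtain ⟨c, hc⟩ := h5
  obtain ⟨x, hx⟩ := App_main hP (Fintype.card L + 1) L X (App_s I) (Nat.lt_succ_self _) (App_s_cubic h1 h2)
    (App_s_pos I) ⟨c, fun l p q h3 h4 h5 => hc l p q ((App_s_ne I l p).1 h3) ((App_s_ne I l q).1 h4) h5⟩
  refine ⟨{p | x p = true}, fun l => ?_⟩
  obtain ⟨p, hp, hp1⟩ := hx l true
  obtain ⟨q, hq, hq1⟩ := hx l false
  refine ⟨⟨p, hp1, (App_s_ne I l p).1 hp⟩, q, ?_, (App_s_ne I l q).1 hq⟩
  rw [Set.mem_ofPred_eq, hq1]
  simp

lemma App_ncard {α β : Type*} (e : α ≃ β) (p : β → Prop) : {a | p (e a)}.ncard = {b | p b}.ncard := by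
  rw [← Set.ncard_image_of_injective {a | p (e a)} e.injective]
  congr 1
  ext b
  simp only [Set.mem_image, Set.mem_ofPred_eq]
  constructor
  · rintro ⟨a, ha, rfl⟩
    exact ha
  · intro hb
    exact ⟨e.symm b, by rw [e.apply_symm_apply]; exact hb, e.apply_symm_apply b⟩

/-- Every finite 3-uniform 3-regular incidence relation with a strong 5-colouring has a blocking set. -/
theorem App_block (hP : ∀ n, P n) {X L : Type u} [Finite X] [Finite L] {I : X → L → Prop}
    (h1 : ∀ l, {p | I p l}.ncard = 3) (h2 : ∀ p, {l | I p l}.ncard = 3) (h5 : StrongCol I 5) :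
    ∃ S, Blocking I S := by
  obtain ⟨n, ⟨e⟩⟩ := Finite.exists_equiv_fin X
  obtain ⟨m, ⟨f⟩⟩ := Finite.exists_equiv_fin L
  obtain ⟨S, hS⟩ := App_block0 hP (I := fun (a : Fin n) (b : Fin m) => I (e.symm a) (f.symm b))
    (fun l => by
      rw [App_ncard e.symm (fun p => I p (f.symm l))]
      exact h1 _)
    (fun p => by
      rw [App_ncard f.symm (fun l => I (e.symm p) l)]
      exact h2 _) (by
      obtain ⟨c, hc⟩ := h5
      exact ⟨fun a => c (e.symm a), fun l p q h3 h4 h6 =>
        hc (f.symm l) _ _ h3 h4 (fun h7 => h6 (e.symm.injective h7))⟩)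
  refine ⟨{p | e p ∈ S}, fun l => ?_⟩
  obtain ⟨⟨p, hp, hp1⟩, q, hq, hq1⟩ := hS (f l)
  rw [f.symm_apply_apply] at hp1 hq1
  refine ⟨⟨e.symm p, ?_, hp1⟩, e.symm q, ?_, hq1⟩
  · rw [Set.mem_ofPred_eq, e.apply_symm_apply]
    exact hp
  · rw [Set.mem_ofPred_eq, e.apply_symm_apply]
    exact hq

lemma WeakCol_of_blocking {X L : Type u} {I : X → L → Prop} {S : Set X} (h : Blocking I S) : WeakCol I 2 := by
  classical
  refine ⟨fun p => if p ∈ S then 1 else 0, fun l => ?_⟩
  obtain ⟨⟨p, hp, hp1⟩, q, hq, hq1⟩ := h l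
  refine ⟨p, q, hp1, hq1, ?_⟩
  simp only [hp, hq, if_true, if_false]
  decide

lemma StrongCol.mono {X L : Type u} {I : X → L → Prop} {k m : ℕ} (hkm : k ≤ m) (h : StrongCol I k) :
    StrongCol I m := by
  obtain ⟨c, hc⟩ := h
  exact ⟨fun p => Fin.castLE hkm (c p), fun l p q h1 h2 h3 h4 =>
    hc l p q h1 h2 h3 (Fin.castLE_injective hkm h4)⟩

lemma StrongCol_chiS {X L : Type u} [Finite X] (I : X → L → Prop) : StrongCol I (chiS I) := by
  obtain ⟨n, ⟨e⟩⟩ := Finite.exists_equiv_fin X
  have hne : {k | StrongCol I k}.Nonempty := ⟨n, e, fun _ _ _ _ _ h h' => h (e.injective h')⟩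
  exact Nat.sInf_mem hne

/-- `χ_s ≤ 5` implies `χ_w = 2` (if there is a point) -/
theorem App_chi (hP : ∀ n, P n) {X L : Type u} [Finite X] [Finite L] [Nonempty X] {I : X → L → Prop}
    (h1 : ∀ l, {p | I p l}.ncard = 3) (h2 : ∀ p, {l | I p l}.ncard = 3) (h5 : chiS I ≤ 5) : chiW I = 2 := by
  obtain ⟨S, hS⟩ := App_block hP h1 h2 ((StrongCol_chiS I).mono h5)
  have hx := WeakCol_of_blocking hS
  obtain ⟨x0⟩ := ‹Nonempty X›
  have hl : {l | I x0 l}.Nonempty := by
    rw [Set.nonempty_iff_ne_empty]
    intro h0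
    have := h2 x0
    rw [h0, Set.ncard_empty] at this
    exact absurd this (by norm_num)
  obtain ⟨l, -⟩ := hl
  apply le_antisymm
  · exact Nat.sInf_le hx
  · apply le_csInf (show Set.Nonempty {k | WeakCol I k} from ⟨2, hx⟩)
    rintro k ⟨y, hy⟩
    by_contra hk
    obtain ⟨p, q, _, _, hpq⟩ := hy l
    apply hpq
    have h3 := (y p).2
    have h4 := (y q).2
    apply Fin.ext
    omega

/-- THE APPLICATION. (1) Every finite 3-uniform 3-regular incidence relation (two points may be on several common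
lines) with a strong 5-colouring has a blocking set. (2) Every symmetric configuration `v_3` with `χ_s ≤ 5` has
`χ_w = 2`. (3) There is no symmetric configuration `v_3` with `χ_s = 5` and `χ_w = 3`. -/
theorem app_final (hP : ∀ n, P n) :
    (∀ (X L : Type u) [Finite X] [Finite L] (I : X → L → Prop), (∀ l, {p | I p l}.ncard = 3) →
      (∀ p, {l | I p l}.ncard = 3) → StrongCol I 5 → ∃ S, Blocking I S) ∧
    (∀ (X L : Type u) [Finite X] [Finite L] [Nonempty X] (I : X → L → Prop), IsV3 I → chiS I ≤ 5 → chiW I = 2) ∧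
    ∀ (X L : Type u) [Finite X] [Finite L] (I : X → L → Prop), IsV3 I → ¬ (chiS I = 5 ∧ chiW I = 3) := by
  refine ⟨fun X L _ _ I h1 h2 h5 => App_block hP h1 h2 h5, fun X L _ _ _ I h h5 => App_chi hP h.pts h.lns h5,
    fun X L _ _ I h => ?_⟩
  rintro ⟨h5, h3⟩
  have hne : Nonempty X := by
    by_contra hcon
    rw [not_nonempty_iff] at hcon
    have h0 : chiS I ≤ 0 := Nat.sInf_le ⟨fun p => (hcon.false p).elim, fun _ p => (hcon.false p).elim⟩
    omega
  have := App_chi hP h.pts h.lns h5.le
  omega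

end MCC
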