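import Pool.Agent.Lib_MP_cb5629.Base

set_option linter.unusedSectionVars false

namespace MCC

open Finset

variable {A B : Type} [Fintype A] [Fintype B] [DecidableEq A] [DecidableEq B]

/-- double counting of the common neighbours of a row with the other rows -/
private lemma FanoNeg_count {s : A → B → ℤ} (hc : Cubic s) (a : A) :
    ∑ a' ∈ univ.erase a, ((nbA s a).filter fun b => s a' b ≠ 0).card = 6 := by
  have h1 := Finset.sum_card_bipartiteAbove_eq_sum_card_bipartiteBelow
    (fun (a' : A) (b : B) => s a' b ≠ 0) (s := univ.erase a) (t := nbA s a)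
  unfold Finset.bipartiteAbove Finset.bipartiteBelow at h1
  rw [h1]
  have h2 : ∀ b ∈ nbA s a, ((univ.erase a).filter fun a' => s a' b ≠ 0).card = 2 := by
    intro b hb
    have h3 : ((univ.erase a).filter fun a' => s a' b ≠ 0) = (nbB s b).erase a := by
      ext a'
      simp [and_comm]
    rw [h3, card_erase_of_mem (by simpa using hb), hc.col b]
  rw [Finset.sum_congr rfl h2, Finset.sum_const, hc.row a]
  rfl

/-- Piece FAN1. In a cubic Fano graph two different rows have exactly one common neighbour (count: the three columns at `a` have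
`3 * 2` further incidences, and each of the six other rows is on at least one of them). In particular there is no square. -/
theorem Fano.uniq {s : A → B → ℤ} (hc : Cubic s) (hF : Fano s) {a a' : A} (h : a ≠ a') {b b' : B} (h1 : s a b ≠ 0)
    (h2 : s a' b ≠ 0) (h3 : s a b' ≠ 0) (h4 : s a' b' ≠ 0) : b = b' := by
  by_contra hne
  have hcount := FanoNeg_count hc a
  have h5 : ∑ a' ∈ univ.erase a, 1 < ∑ a' ∈ univ.erase a, ((nbA s a).filter fun b => s a' b ≠ 0).card := by
    apply Finset.sum_lt_sum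
    · intro a'' _
      obtain ⟨b'', hb1, hb2⟩ := hF.2 a a''
      exact card_pos.2 ⟨b'', mem_filter.2 ⟨mem_nbA.2 hb1, hb2⟩⟩
    · refine ⟨a', mem_erase.2 ⟨h.symm, mem_univ _⟩, ?_⟩
      exact one_lt_card.2 ⟨b, mem_filter.2 ⟨mem_nbA.2 h1, h2⟩, b', mem_filter.2 ⟨mem_nbA.2 h3, h4⟩, hne⟩
  rw [hcount, Finset.sum_const, card_erase_of_mem (mem_univ _), card_univ, hF.1] at h5
  simp at h5

/-- Piece FAN1. Dually: any two columns have a common neighbour (two different columns have at most one common neighbour by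
`Fano.uniq`; count again). So `Fano (tr s)`. -/
theorem Fano.tr {s : A → B → ℤ} (hc : Cubic s) (hF : Fano s) : Fano (tr s) := by
  refine ⟨hc.card_eq ▸ hF.1, fun b b' => ?_⟩
  by_cases hbb : b = b'
  · subst hbb
    have h1 : (nbB s b).Nonempty := by rw [← card_pos, hc.col b]; norm_num
    obtain ⟨a, ha⟩ := h1
    exact ⟨a, by simpa using ha, by simpa using ha⟩
  by_contra hcon
  push Not at hcon
  have hcount := FanoNeg_count hc.tr b
  have h5 : ∑ b'' ∈ univ.erase b, ((nbA (MCC.tr s) b).filter fun a => MCC.tr s b'' a ≠ 0).card <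
      ∑ b'' ∈ univ.erase b, 1 := by
    apply Finset.sum_lt_sum
    · intro b'' hb''
      rw [mem_erase] at hb''
      apply card_le_one.2
      intro a ha a' ha'
      rw [mem_filter, mem_nbA] at ha ha'
      by_contra hne
      exact hb''.1 (Fano.uniq hc hF hne (b := b'') (b' := b) ha.2 ha'.2 ha.1 ha'.1)
    · refine ⟨b', mem_erase.2 ⟨fun h => hbb h.symm, mem_univ _⟩, ?_⟩
      rw [Nat.lt_one_iff, card_eq_zero, filter_eq_empty_iff]
      intro a ha
      rw [mem_nbA] at ha
      exact not_not.2 (hcon a ha)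
  rw [hcount, Finset.sum_const, card_erase_of_mem (mem_univ _), card_univ, ← hc.card_eq, hF.1] at h5
  simp at h5

/-- the vector `1` on the columns through `p`, `-1` elsewhere -/
private noncomputable def FanoNeg_x (s : A → B → ℤ) (p : A) (b : B) : ℝ := if s p b ≠ 0 then 1 else -1

private lemma FanoNeg_x1 {s : A → B → ℤ} {p : A} {b : B} (h : s p b ≠ 0) : FanoNeg_x s p b = 1 := by
  unfold FanoNeg_x; rw [if_pos h]

private lemma FanoNeg_x2 {s : A → B → ℤ} {p : A} {b : B} (h : ¬ s p b ≠ 0) : FanoNeg_x s p b = -1 := by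
  unfold FanoNeg_x; rw [if_neg h]

/-- rows different from the center with positive entries only -/
private lemma FanoNeg_row {s : A → B → ℤ} (hc : Cubic s) (hF : Fano s) {p a : A} (hap : a ≠ p)
    (hpos : ∀ b, s a b ≠ 0 → s a b = 1) : Bal s (FanoNeg_x s p) a := by
  obtain ⟨m, hm1, hm2⟩ := hF.2 p a
  have h1 : 1 < (nbA s a).card := by rw [hc.row a]; norm_num
  obtain ⟨b, hb, hbm⟩ := exists_mem_ne h1 m
  rw [mem_nbA] at hb
  have hpb : ¬ s p b ≠ 0 := fun h => hbm (Fano.uniq hc hF hap hb h hm2 hm1)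
  refine Or.inr ⟨⟨m, ?_⟩, ⟨b, ?_⟩⟩
  · rw [hpos m hm2, FanoNeg_x1 hm1]; norm_num
  · rw [hpos b hb, FanoNeg_x2 hpb]; norm_num

/-- the center, with exactly one negative entry -/
private lemma FanoNeg_center {s : A → B → ℤ} (hc : Cubic s) {p : A} {l : B} (hl : s p l = -1)
    (hpos : ∀ b, s p b ≠ 0 → b ≠ l → s p b = 1) : Bal s (FanoNeg_x s p) p := by
  have h1 : 1 < (nbA s p).card := by rw [hc.row p]; norm_num
  obtain ⟨b, hb, hbl⟩ := exists_mem_ne h1 l
  rw [mem_nbA] at hb
  have hl0 : s p l ≠ 0 := by rw [hl]; norm_num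
  refine Or.inr ⟨⟨b, ?_⟩, ⟨l, ?_⟩⟩
  · rw [hpos b hb hbl, FanoNeg_x1 hb]; norm_num
  · rw [hl, FanoNeg_x1 hl0]; norm_num

private lemma FanoNeg_contra {s : A → B → ℤ} (hc : Cubic s) (hs : SNS s) (hF : Fano s) (p : A)
    (h : ∀ a, Bal s (FanoNeg_x s p) a) : False := by
  have h0 := hs _ h
  obtain ⟨b, hb, _⟩ := hF.2 p p
  have h1 := congrFun h0 b
  rw [FanoNeg_x1 hb] at h1
  exact one_ne_zero h1

/-- Piece FAN2. No SNS signing of the Fano plane has exactly one negative edge `(p,l)`: `x = 1` on the columns through `p`, `-1` on the others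
balances every row: another row `p'` is on exactly one column through `p` (`Fano.uniq`), so it sees `+,-,-`; row `p` sees
`-,+,+`. -/
theorem Fano.neg_ne_one {s : A → B → ℤ} (hc : Cubic s) (hs : SNS s) (hF : Fano s) : (neg s).card ≠ 1 := by
  intro h
  obtain ⟨⟨p, l⟩, hpl⟩ := card_eq_one.1 h
  have hmem : ∀ a b, s a b = -1 ↔ a = p ∧ b = l := by
    intro a b
    have : (a, b) ∈ neg s ↔ (a, b) ∈ ({(p, l)} : Finset (A × B)) := by rw [hpl]
    simpa using this
  have hpos : ∀ a b, s a b ≠ 0 → ¬ (a = p ∧ b = l) → s a b = 1 := by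
    intro a b h1 h2
    rcases hc.val a b with h3 | h3 | h3
    · exact absurd h3 h1
    · exact h3
    · exact absurd ((hmem a b).1 h3) h2
  apply FanoNeg_contra hc hs hF p
  intro a
  by_cases ha : a = p
  · subst ha
    exact FanoNeg_center hc ((hmem a l).2 ⟨rfl, rfl⟩) fun b hb hbl => hpos a b hb fun h => hbl h.2
  · exact FanoNeg_row hc hF ha fun b hb => hpos a b hb fun h => ha h.1

private lemma FanoNeg_two {s : A → B → ℤ} (hc : Cubic s) (hs : SNS s) (hF : Fano s) {p p' : A} {l l' m : B}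
    (hp : p ≠ p') (hm1 : s p m ≠ 0) (hm2 : s p' m ≠ 0) (hlm : l' ≠ m)
    (h : ∀ a b, s a b = -1 ↔ (a = p ∧ b = l) ∨ (a = p' ∧ b = l')) : False := by
  have hpos : ∀ a b, s a b ≠ 0 → ¬ (a = p ∧ b = l) → ¬ (a = p' ∧ b = l') → s a b = 1 := by
    intro a b h1 h2 h3
    rcases hc.val a b with h4 | h4 | h4
    · exact absurd h4 h1
    · exact h4
    · rcases (h a b).1 h4 with h5 | h5
      · exact absurd h5 h2
      · exact absurd h5 h3
  apply FanoNeg_contra hc hs hF p
  intro a
  by_cases ha : a = p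
  · subst ha
    exact FanoNeg_center hc ((h a l).2 (Or.inl ⟨rfl, rfl⟩)) fun b hb hbl =>
      hpos a b hb (fun h => hbl h.2) fun h => hp h.1
  by_cases ha' : a = p'
  · subst ha'
    have hl' : s a l' = -1 := (h a l').2 (Or.inr ⟨rfl, rfl⟩)
    have h1 : 0 < ((nbA s a) \ {m, l'}).card := by
      have h2 := le_card_sdiff ({m, l'} : Finset B) (nbA s a)
      rw [hc.row a] at h2
      have h3 : ({m, l'} : Finset B).card ≤ 2 := card_le_two
      omega
    obtain ⟨b, hb⟩ := card_pos.1 h1
    rw [mem_sdiff, mem_nbA, mem_insert, mem_singleton, not_or] at hb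
    obtain ⟨hb0, hbm, hbl⟩ := hb
    have hpb : ¬ s p b ≠ 0 := fun h => hbm (Fano.uniq hc hF ha hb0 h hm2 hm1)
    refine Or.inr ⟨⟨m, ?_⟩, ⟨b, ?_⟩⟩
    · rw [hpos a m hm2 (fun h => ha h.1) fun h => hlm h.2.symm, FanoNeg_x1 hm1]; norm_num
    · rw [hpos a b hb0 (fun h => ha h.1) fun h => hbl h.2, FanoNeg_x2 hpb]; norm_num
  · exact FanoNeg_row hc hF ha fun b hb => hpos a b hb (fun h => ha h.1) fun h => ha' h.1

/-- Piece FAN2. The same for two disjoint negative edges `(p,l)`, `(p',l')`. If `l'` is not the column joining `p` and `p'`, the vector of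
`neg_ne_one` (center `p`) works: row `p'` sees `+` on the joining column `m`, and on its two other columns `-1`, one of which (`l'`) is
negated. If `l' = m` then `l` is not the joining column (as `l ≠ l'`), so exchange the roles. -/
theorem Fano.not_two_neg {s : A → B → ℤ} (hc : Cubic s) (hs : SNS s) (hF : Fano s) {p p' : A} {l l' : B} (hp : p ≠ p')
    (hl : l ≠ l') (h : neg s = {(p, l), (p', l')}) : False := by
  have hmem : ∀ a b, s a b = -1 ↔ (a = p ∧ b = l) ∨ (a = p' ∧ b = l') := by
    intro a b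
    have : (a, b) ∈ neg s ↔ (a, b) ∈ ({(p, l), (p', l')} : Finset (A × B)) := by rw [h]
    simpa using this
  obtain ⟨m, hm1, hm2⟩ := hF.2 p p'
  by_cases hlm : l' = m
  · exact FanoNeg_two hc hs hF (p := p') (p' := p) (l := l') (l' := l) hp.symm hm2 hm1
      (fun h => hl (h.trans hlm.symm)) fun a b => (hmem a b).trans or_comm
  · exact FanoNeg_two hc hs hF hp hm1 hm2 hlm hmem

end MCC
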