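import Pool.Agent.Lib_MP_cb5629.Base

set_option linter.unusedSectionVars false

namespace MCC

open Finset

variable {A B : Type} [Fintype A] [Fintype B] [DecidableEq A] [DecidableEq B]

/-- a weighted sum with positive weights which vanishes is balanced -/
private theorem BL2_bal (w t : B → ℝ) (hw : ∀ b, 0 < w b) (h : ∑ b, w b * t b = 0) :
    (∀ b, t b = 0) ∨ ((∃ b, 0 < t b) ∧ ∃ b, t b < 0) := by
  by_cases h1 : ∃ b, 0 < t b
  · by_cases h2 : ∃ b, t b < 0
    · exact Or.inr ⟨h1, h2⟩
    · push Not at h2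
      obtain ⟨b, hb⟩ := h1
      have : 0 < ∑ b, w b * t b :=
        Finset.sum_pos' (fun b _ => mul_nonneg (hw b).le (h2 b)) ⟨b, mem_univ _, mul_pos (hw b) hb⟩
      rw [h] at this
      exact absurd this (lt_irrefl _)
  · push Not at h1
    left
    have h3 : ∀ b ∈ (univ : Finset B), w b * (-t b) = 0 := by
      rw [← Finset.sum_eq_zero_iff_of_nonneg (fun b _ => mul_nonneg (hw b).le (by linarith [h1 b]))]
      simp only [mul_neg, Finset.sum_neg_distrib, h, neg_zero]
    intro b
    have h4 := h3 b (mem_univ _)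
    rcases mul_eq_zero.1 h4 with h5 | h5
    · exact absurd h5 (hw b).ne'
    · linarith

/-- the path of matrices -/
private noncomputable def BL2_M (s : A → B → ℤ) (σ τ : A ≃ B) (ε t : ℝ) : Matrix A A ℝ :=
  Matrix.of fun a a' => (ε + (1 - t) * (if a' = a then 1 else 0) + t * (if σ a' = τ a then 1 else 0)) *
    (s a (σ a') : ℝ)

private theorem BL2_cont1 (s : A → B → ℤ) (σ τ : A ≃ B) (t : ℝ) :
    Continuous fun ε => (BL2_M s σ τ ε t).det := by
  apply Continuous.matrix_det
  refine continuous_matrix fun a a' => ?_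
  show Continuous fun ε : ℝ => (ε + (1 - t) * (if a' = a then 1 else 0) + t * (if σ a' = τ a then 1 else 0)) *
    (s a (σ a') : ℝ)
  fun_prop

private theorem BL2_cont2 (s : A → B → ℤ) (σ τ : A ≃ B) (ε : ℝ) :
    Continuous fun t => (BL2_M s σ τ ε t).det := by
  apply Continuous.matrix_det
  refine continuous_matrix fun a a' => ?_
  show Continuous fun t : ℝ => (ε + (1 - t) * (if a' = a then 1 else 0) + t * (if σ a' = τ a then 1 else 0)) *
    (s a (σ a') : ℝ)
  fun_prop

private theorem BL2_det0 (s : A → B → ℤ) (σ τ : A ≃ B) :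
    (BL2_M s σ τ 0 0).det = ∏ a, (s a (σ a) : ℝ) := by
  have h : BL2_M s σ τ 0 0 = Matrix.diagonal fun a => (s a (σ a) : ℝ) := by
    ext a a'
    rw [Matrix.diagonal_apply]
    show (0 + (1 - 0) * (if a' = a then 1 else 0) + 0 * (if σ a' = τ a then 1 else 0)) *
      (s a (σ a') : ℝ) = _
    by_cases haa : a = a'
    · subst haa
      simp
    · rw [if_neg haa, if_neg (Ne.symm haa)]
      ring
  rw [h, Matrix.det_diagonal]

private theorem BL2_det1 (s : A → B → ℤ) (σ τ : A ≃ B) :
    (BL2_M s σ τ 0 1).det = ((Equiv.Perm.sign (σ.trans τ.symm) : ℤ) : ℝ) * ∏ a, (s a (τ a) : ℝ) := by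
  have h : BL2_M s σ τ 0 1 = (Matrix.diagonal fun a => (s a (τ a) : ℝ)).submatrix id (σ.trans τ.symm) := by
    ext a a'
    rw [Matrix.submatrix_apply, Matrix.diagonal_apply]
    show (0 + (1 - 1) * (if a' = a then 1 else 0) + 1 * (if σ a' = τ a then 1 else 0)) *
      (s a (σ a') : ℝ) = _
    by_cases haa : σ a' = τ a
    · have h1 : id a = (σ.trans τ.symm) a' := by
        simp [haa]
      rw [if_pos haa, if_pos h1, haa]
      simp
    · have h1 : ¬ id a = (σ.trans τ.symm) a' := by
        intro h2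
        apply haa
        have h3 : τ a = τ ((σ.trans τ.symm) a') := congrArg τ h2
        rw [h3]
        simp
      rw [if_neg haa, if_neg h1]
      ring
  rw [h, Matrix.det_permute', Matrix.det_diagonal]

private theorem BL2_ker {s : A → B → ℤ} (hs : SNS s) (σ τ : A ≃ B) {ε t : ℝ} (hε : 0 < ε)
    (ht : t ∈ Set.Icc (0 : ℝ) 1) : (BL2_M s σ τ ε t).det ≠ 0 := by
  intro h0
  rw [← Matrix.exists_mulVec_eq_zero_iff] at h0
  obtain ⟨v, hv, hv0⟩ := h0
  apply hv
  have h1 : (fun b => v (σ.symm b)) = 0 := by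
    apply hs
    intro a
    refine BL2_bal (fun b => ε + (1 - t) * (if σ.symm b = a then 1 else 0) + t * (if b = τ a then 1 else 0))
      (fun b => (s a b : ℝ) * v (σ.symm b)) (fun b => ?_) ?_
    · have e1 : 0 ≤ (1 - t) * (if σ.symm b = a then 1 else 0) :=
        mul_nonneg (by linarith [ht.2]) (by split_ifs <;> norm_num)
      have e2 : 0 ≤ t * (if b = τ a then 1 else 0) :=
        mul_nonneg ht.1 (by split_ifs <;> norm_num)
      show 0 < ε + (1 - t) * (if σ.symm b = a then 1 else 0) + t * (if b = τ a then 1 else 0)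
      linarith
    · have h2 := congrFun hv0 a
      rw [← Equiv.sum_comp σ]
      refine Eq.trans ?_ h2
      show _ = ∑ a', ((ε + (1 - t) * (if a' = a then 1 else 0) + t * (if σ a' = τ a then 1 else 0)) *
        (s a (σ a') : ℝ)) * v a'
      refine Finset.sum_congr rfl fun a' _ => ?_
      rw [Equiv.symm_apply_apply]
      ring
  funext a
  have := congrFun h1 (σ a)
  simpa using this

/-- Piece BL2. If no nonzero vector balances all rows, then all perfect matchings have the same sign.

Proof. Let `σ, τ` be perfect matchings with `relSign s univ σ τ ≠ 1`; as the values are `±1` it is `-1`. For `ε > 0`, `t ∈ [0,1]` let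
`M_{ε,t} a a' := (ε + (1-t) * [a' = a] + t * [σ a' = τ a]) * s a (σ a')` (real `A × A` matrix; the weights are positive for `ε > 0`).
If `det M_{ε,t} = 0` with `ε > 0` there is `v ≠ 0` with `M v = 0`; then `x = v ∘ σ.symm` balances all rows of `s` (a sum
of terms `weight * s a b * x b` with positive weights vanishes: `Bal.of_sum`-argument), so `x = 0`: contradiction. Hence `t ↦ det M_{ε,t}` is
continuous without zero on `[0,1]`, so it has the same sign at `0` and `1`. For `ε = 0`: `det M_{0,0} = ∏ a, s a (σ a)` (diagonal matrix) and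
`det M_{0,1}` is the determinant of a monomial matrix: only the permutation `π` with `σ (π.symm a) = τ a` contributes,
`det M_{0,1} = sign π * ∏ a, s a (τ a)`. The product of the two is `relSign s univ σ τ = -1 < 0` (as `π` or its inverse is `σ.trans τ.symm`).
By continuity in `ε` the product is still negative for small `ε > 0`: contradiction. -/
theorem sameSign_of_sns {s : A → B → ℤ} (hval : ∀ a b, s a b = 0 ∨ s a b = 1 ∨ s a b = -1) (hs : SNS s)
    (hpm : ∃ σ : A ≃ B, IsPM s σ) : SameSign s := by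
  refine ⟨hpm, fun σ τ hσ hτ => ?_⟩
  by_contra hne
  have hu : ∀ ρ : A ≃ B, IsPM s ρ → ∀ a, s a (ρ a) = 1 ∨ s a (ρ a) = -1 := by
    intro ρ hρ a
    rcases hval a (ρ a) with h | h
    · exact absurd h (hρ a)
    · exact h
  have hpr : ∀ D : Finset A, ∏ a ∈ D, (s a (σ a) * s a (τ a)) = 1 ∨
      ∏ a ∈ D, (s a (σ a) * s a (τ a)) = -1 := by
    intro D
    induction D using Finset.induction_on with
    | empty => left; rfl
    | insert a D ha ih =>
      rw [Finset.prod_insert ha]
      rcases hu σ hσ a with h1 | h1 <;> rcases hu τ hτ a with h2 | h2 <;> rcases ih with h3 | h3 <;>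
        rw [h1, h2, h3] <;> norm_num
  have hneg : relSign s univ σ τ = -1 := by
    unfold relSign at hne ⊢
    rcases Int.units_eq_one_or (Equiv.Perm.sign (σ.trans τ.symm)) with h1 | h1 <;>
      rcases hpr univ with h2 | h2 <;> rw [h1, h2] at hne ⊢ <;> simp_all
  have hprod : (BL2_M s σ τ 0 0).det * (BL2_M s σ τ 0 1).det < 0 := by
    have e1 : (BL2_M s σ τ 0 0).det * (BL2_M s σ τ 0 1).det = ((relSign s univ σ τ : ℤ) : ℝ) := by
      rw [BL2_det0, BL2_det1, relSign, Finset.prod_mul_distrib]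
      push_cast
      ring
    rw [e1, hneg]
    norm_num
  have hc : Continuous fun ε => (BL2_M s σ τ ε 0).det * (BL2_M s σ τ ε 1).det :=
    (BL2_cont1 s σ τ 0).mul (BL2_cont1 s σ τ 1)
  have hev : ∀ᶠ ε in nhds (0 : ℝ), (BL2_M s σ τ ε 0).det * (BL2_M s σ τ ε 1).det < 0 :=
    hc.tendsto 0 (Iio_mem_nhds hprod)
  have hev' : ∀ᶠ ε in nhdsWithin (0 : ℝ) (Set.Ioi 0),
      (BL2_M s σ τ ε 0).det * (BL2_M s σ τ ε 1).det < 0 := nhdsWithin_le_nhds hev
  obtain ⟨ε, hε, hε0⟩ := (hev'.and self_mem_nhdsWithin).exists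
  have hε0' : 0 < ε := hε0
  have hct := BL2_cont2 s σ τ ε
  have hex : ∃ t ∈ Set.Icc (0 : ℝ) 1, (BL2_M s σ τ ε t).det = 0 := by
    rcases mul_neg_iff.1 hε with ⟨h1, h2⟩ | ⟨h1, h2⟩
    · exact intermediate_value_Icc' (zero_le_one) hct.continuousOn ⟨h2.le, h1.le⟩
    · exact intermediate_value_Icc (zero_le_one) hct.continuousOn ⟨h1.le, h2.le⟩
  obtain ⟨t, ht, ht0⟩ := hex
  exact BL2_ker hs σ τ hε0' ht ht0

end MCC
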