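import Pool.Agent.Lib_MP_cb5629.BL1
import Pool.Agent.Lib_MP_cb5629.BL2

set_option linter.unusedSectionVars false

namespace MCC

open Finset

variable {A B : Type} [Fintype A] [Fintype B] [DecidableEq A] [DecidableEq B]

/-- Piece SPL. A subgraph (on the same vertex set) of an SNS graph which has a perfect matching is SNS.

Proof. A perfect matching of `s'` is one of `s`, and `s' a (σ a) = s a (σ a)` for it, so relSign is the same for `s` and
`s'`. `sameSign_of_sns` for `s`, then `sns_of_sameSign` for `s'`. -/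
theorem sns_sub {s s' : A → B → ℤ} (hval : ∀ a b, s a b = 0 ∨ s a b = 1 ∨ s a b = -1) (hs : SNS s)
    (hsub : ∀ a b, s' a b = 0 ∨ s' a b = s a b) (hpm : ∃ σ : A ≃ B, IsPM s' σ) : SNS s' := by
  have heq : ∀ σ : A ≃ B, IsPM s' σ → ∀ a, s' a (σ a) = s a (σ a) := by
    intro σ hσ a
    rcases hsub a (σ a) with h | h
    · exact absurd h (hσ a)
    · exact h
  have hpm' : ∀ σ : A ≃ B, IsPM s' σ → IsPM s σ := by
    intro σ hσ a
    rw [← heq σ hσ a]
    exact hσ a
  obtain ⟨σ₀, hσ₀⟩ := hpm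
  have h1 := sameSign_of_sns hval hs ⟨σ₀, hpm' σ₀ hσ₀⟩
  refine sns_of_sameSign ⟨⟨σ₀, hσ₀⟩, fun σ τ hσ hτ => ?_⟩
  rw [← h1.2 σ τ (hpm' σ hσ) (hpm' τ hτ)]
  unfold relSign
  congr 1
  refine Finset.prod_congr rfl fun a _ => ?_
  rw [heq σ hσ a, heq τ hτ a]

private theorem SPL_hall {s : A → B → ℤ} (hc : Cubic s) : ∃ σ : A ≃ B, IsPM s σ := by
  have h1 : ∀ S : Finset A, S.card ≤ (S.biUnion (nbA s)).card := by
    intro S
    have e1 : (S.biUnion (nbA s)) = NA s S := by
      ext b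
      simp
    rw [e1]
    have e2 := hc.card_edges S
    have e3 := hc.tr.card_edges (NA s S)
    have e4 : ((univ : Finset (A × B)).filter fun p => p.1 ∈ S ∧ s p.1 p.2 ≠ 0).card ≤
        ((univ : Finset (B × A)).filter fun p => p.1 ∈ NA s S ∧ MCC.tr s p.1 p.2 ≠ 0).card := by
      apply Finset.card_le_card_of_injOn (fun p => (p.2, p.1))
      · rintro ⟨a, b⟩ h
        have h' := (Finset.mem_filter.1 (Finset.mem_coe.1 h)).2
        refine Finset.mem_coe.2 (Finset.mem_filter.2 ⟨mem_univ _, ?_, ?_⟩)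
        · exact mem_NA.2 ⟨a, h'.1, h'.2⟩
        · exact h'.2
      · rintro ⟨a, b⟩ _ ⟨a', b'⟩ _ h
        simp only [Prod.mk.injEq] at h ⊢
        exact ⟨h.2, h.1⟩
    rw [e2, e3] at e4
    omega
  obtain ⟨f, hf, hf1⟩ := (Finset.all_card_le_biUnion_card_iff_exists_injective (nbA s)).1 h1
  have hb : Function.Bijective f := (Fintype.bijective_iff_injective_and_card f).2 ⟨hf, hc.card_eq⟩
  refine ⟨Equiv.ofBijective f hb, fun a => ?_⟩
  exact mem_nbA.1 (hf1 a)

/-- Piece TR. SNS is invariant under transposition.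

Proof. `SameSign s → SameSign (tr s)`: to a perfect matching `σ` of `tr s` (a bijection `B ≃ A`) belongs `σ.symm` of `s`, and
`relSign (tr s) univ σ τ = relSign s univ σ.symm τ.symm`: the products agree after reindexing by `σ` resp. `τ`, and
`sign (σ.trans τ.symm)` (on `B`) `= sign (σ.symm.trans τ)` (on `A`): the permutations `τ⁻¹σ` and `(τ σ⁻¹)` are conjugate by `τ`. -/
theorem SNS.tr {s : A → B → ℤ} (hc : Cubic s) (hs : SNS s) : SNS (tr s) := by
  have h1 := sameSign_of_sns hc.val hs (SPL_hall hc)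
  have hpm : ∀ σ : B ≃ A, IsPM (MCC.tr s) σ → IsPM s σ.symm := by
    intro σ hσ a
    have h2 := hσ (σ.symm a)
    rw [tr_apply, Equiv.apply_symm_apply] at h2
    exact h2
  refine sns_of_sameSign ⟨SPL_hall hc.tr, fun σ τ hσ hτ => ?_⟩
  rw [← h1.2 σ.symm τ.symm (hpm σ hσ) (hpm τ hτ)]
  unfold relSign
  have e1 : Equiv.Perm.sign (σ.trans τ.symm) = Equiv.Perm.sign (σ.symm.trans τ.symm.symm) := by
    have e2 : σ.symm.trans τ.symm.symm = (σ.symm.trans (σ.trans τ.symm)⁻¹).trans σ := by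
      ext a
      simp
    rw [e2, Equiv.Perm.sign_symm_trans_trans, Equiv.Perm.sign_inv]
  rw [e1]
  congr 1
  rw [Finset.prod_mul_distrib, Finset.prod_mul_distrib]
  have e3 : ∀ ρ : B ≃ A, ∏ b, MCC.tr s b (ρ b) = ∏ a, s a (ρ.symm a) := by
    intro ρ
    rw [← Equiv.prod_comp ρ (fun a => s a (ρ.symm a))]
    refine Finset.prod_congr rfl fun b _ => ?_
    rw [Equiv.symm_apply_apply, tr_apply]
  rw [e3 σ, e3 τ]

end MCC
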