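import Pool.Agent.Lib_MP_cb5629.Base

set_option linter.unusedSectionVars false

namespace MCC

open Finset

variable {A B : Type} [Fintype A] [Fintype B] [DecidableEq A] [DecidableEq B]

/-- Piece TOOLS (5 small lemmas). An injective choice of neighbours is a perfect matching. -/
lemma pm_of_inj {s : A → B → ℤ} (hcard : Fintype.card A = Fintype.card B) (f : A → B)
    (hf : Function.Injective f) (h : ∀ a, s a (f a) ≠ 0) : ∃ σ : A ≃ B, IsPM s σ ∧ ∀ a, σ a = f a := by
  have hb : Function.Bijective f := (Fintype.bijective_iff_injective_and_card f).2 ⟨hf, hcard⟩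
  exact ⟨Equiv.ofBijective f hb, fun a => h a, fun a => rfl⟩

/-- Hall's theorem for the rows in `RA` into the columns in `RB`
(`Finset.all_card_le_biUnion_card_iff_exists_injective` on the subtype of `RA`). -/
lemma hall_on {s : A → B → ℤ} (RA : Finset A) (RB : Finset B) [Nonempty B]
    (h : ∀ S ⊆ RA, S.card ≤ (NA s S ∩ RB).card) :
    ∃ f : A → B, Set.InjOn f RA ∧ ∀ a ∈ RA, f a ∈ RB ∧ s a (f a) ≠ 0 := by
  have h1 : ∀ S' : Finset {a // a ∈ RA},
      S'.card ≤ (S'.biUnion (fun a => nbA s a.1 ∩ RB)).card := by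
    intro S'
    have h2 := h (S'.map (Function.Embedding.subtype _)) (by
      intro a ha
      rw [mem_map] at ha
      obtain ⟨b, -, rfl⟩ := ha
      exact b.2)
    rw [card_map] at h2
    refine h2.trans (card_le_card ?_)
    intro b hb
    rw [mem_inter, mem_NA] at hb
    obtain ⟨⟨a, ha, hab⟩, hbR⟩ := hb
    rw [mem_map] at ha
    obtain ⟨c, hc, rfl⟩ := ha
    rw [mem_biUnion]
    exact ⟨c, hc, mem_inter.2 ⟨mem_nbA.2 hab, hbR⟩⟩
  obtain ⟨g, hg, hgm⟩ := (Finset.all_card_le_biUnion_card_iff_exists_injective _).1 h1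
  refine ⟨fun a => if ha : a ∈ RA then g ⟨a, ha⟩ else Classical.arbitrary B, ?_, ?_⟩
  · intro a ha a' ha' hE
    have ha1 : a ∈ RA := ha
    have ha2 : a' ∈ RA := ha'
    simp only [dif_pos ha1, dif_pos ha2] at hE
    exact congrArg Subtype.val (hg hE)
  · intro a ha
    simp only [dif_pos ha]
    have h3 := hgm ⟨a, ha⟩
    rw [mem_inter, mem_nbA] at h3
    exact ⟨h3.2, h3.1⟩

/-- Hall's theorem from the side of the columns: if `|RA| = |RB|` and every `T ⊆ RB` has at least `|T|` neighbours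
in `RA`, then there is a matching of `RA` with `RB`. (Hall on the columns gives an injection `RB → RA`, which is
bijective by cardinality; invert it.) -/
lemma hall_on' {s : A → B → ℤ} (RA : Finset A) (RB : Finset B) [Nonempty B] (hc : RA.card = RB.card)
    (h : ∀ T ⊆ RB, T.card ≤ (NB s T ∩ RA).card) :
    ∃ f : A → B, Set.InjOn f RA ∧ ∀ a ∈ RA, f a ∈ RB ∧ s a (f a) ≠ 0 := by
  rcases RA.eq_empty_or_nonempty with hE | hE
  · refine ⟨fun _ => Classical.arbitrary B, ?_, ?_⟩
    · rw [hE]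
      intro a ha
      simp at ha
    · intro a ha
      rw [hE] at ha
      simp at ha
  · have : Nonempty A := ⟨hE.choose⟩
    obtain ⟨g, hg, hgm⟩ := hall_on (s := tr s) RB RA h
    have himg : RB.image g = RA := by
      apply Finset.eq_of_subset_of_card_le
      · intro a ha
        rw [mem_image] at ha
        obtain ⟨b, hb, rfl⟩ := ha
        exact (hgm b hb).1
      · rw [card_image_of_injOn hg, hc]
    have hpre : ∀ a ∈ RA, ∃ b ∈ RB, g b = a := by
      intro a ha
      rw [← himg, mem_image] at ha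
      exact ha
    refine ⟨fun a => if ha : a ∈ RA then (hpre a ha).choose else Classical.arbitrary B, ?_, ?_⟩
    · intro a ha a' ha' hE'
      have ha1 : a ∈ RA := ha
      have ha2 : a' ∈ RA := ha'
      simp only [dif_pos ha1, dif_pos ha2] at hE'
      rw [← (hpre a ha1).choose_spec.2, ← (hpre a' ha2).choose_spec.2, hE']
    · intro a ha
      simp only [dif_pos ha]
      have h1 := (hpre a ha).choose_spec
      refine ⟨h1.1, ?_⟩
      have h2 := (hgm _ h1.1).2
      rw [tr_apply, h1.2] at h2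
      exact h2

/-- A cubic graph has a perfect matching (Hall: `3|S| ≤ 3|N(S)|`). -/
lemma Cubic.exists_pm {s : A → B → ℤ} (hc : Cubic s) : ∃ σ : A ≃ B, IsPM s σ := by
  have hcard := hc.card_eq
  rcases isEmpty_or_nonempty B with hB | hB
  · have hA : IsEmpty A := by
      rw [← Fintype.card_eq_zero_iff, hcard, Fintype.card_eq_zero_iff]
      exact hB
    obtain ⟨σ, hσ, -⟩ := pm_of_inj (s := s) hcard (fun a => (hA.false a).elim)
      (fun a => (hA.false a).elim) (fun a => (hA.false a).elim)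
    exact ⟨σ, hσ⟩
  · obtain ⟨f, hf, hfm⟩ := hall_on (s := s) univ univ (by
      intro S _
      rw [inter_univ]
      have h1 := hc.card_edges S
      have h2 := hc.tr.card_edges (NA s S)
      have h3 : ((univ : Finset (A × B)).filter fun p => p.1 ∈ S ∧ s p.1 p.2 ≠ 0).card ≤
          ((univ : Finset (B × A)).filter fun p => p.1 ∈ NA s S ∧ MCC.tr s p.1 p.2 ≠ 0).card := by
        apply Finset.card_le_card_of_injOn (fun p => (p.2, p.1))
        · rintro ⟨a, b⟩ hp
          rw [Finset.mem_coe, mem_filter] at hp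
          rw [Finset.mem_coe, mem_filter]
          exact ⟨mem_univ _, mem_NA.2 ⟨a, hp.2.1, hp.2.2⟩, hp.2.2⟩
        · rintro ⟨a, b⟩ _ ⟨a', b'⟩ _ hE
          simp only [Prod.mk.injEq] at hE ⊢
          exact ⟨hE.2, hE.1⟩
      omega)
    obtain ⟨σ, hσ, -⟩ := pm_of_inj (s := s) hcard f
      (fun a a' hE => hf (by simp) (by simp) hE) (fun a => (hfm a (mem_univ _)).2)
    exact ⟨σ, hσ⟩

private lemma Tools_sign {s : ℤ} {x x' : ℝ}
    (h : s ≠ 0 → (0 < x ↔ 0 < x') ∧ (x < 0 ↔ x' < 0)) :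
    (0 < (s : ℝ) * x ↔ 0 < (s : ℝ) * x') ∧ ((s : ℝ) * x < 0 ↔ (s : ℝ) * x' < 0) := by
  rcases lt_trichotomy s 0 with hs | hs | hs
  · have hs' : (s : ℝ) < 0 := by exact_mod_cast hs
    obtain ⟨h1, h2⟩ := h hs.ne
    rw [mul_pos_iff, mul_pos_iff, mul_neg_iff, mul_neg_iff]
    simp only [hs', not_lt.2 hs'.le, false_and, true_and, false_or]
    exact ⟨h2, h1⟩
  · subst hs
    simp
  · have hs' : (0 : ℝ) < (s : ℝ) := by exact_mod_cast hs
    obtain ⟨h1, h2⟩ := h hs.ne'
    rw [mul_pos_iff, mul_pos_iff, mul_neg_iff, mul_neg_iff]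
    simp only [hs', not_lt.2 hs'.le, false_and, true_and, or_false]
    exact ⟨h1, h2⟩

/-- `Bal` depends only on the signs of `x` at the neighbours of the row. -/
lemma Bal.congr {s : A → B → ℤ} {x x' : B → ℝ} {a : A} (h : Bal s x a)
    (hx : ∀ b, s a b ≠ 0 → (0 < x b ↔ 0 < x' b) ∧ (x b < 0 ↔ x' b < 0)) : Bal s x' a := by
  have key : ∀ b, (0 < (s a b : ℝ) * x b ↔ 0 < (s a b : ℝ) * x' b) ∧
      ((s a b : ℝ) * x b < 0 ↔ (s a b : ℝ) * x' b < 0) := fun b => Tools_sign (hx b)
  rcases h with h | ⟨⟨b, hb⟩, c, hc⟩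
  · refine Or.inl fun b => ?_
    have h1 : ¬ 0 < (s a b : ℝ) * x' b := by
      rw [← (key b).1, h b]
      exact lt_irrefl _
    have h2 : ¬ (s a b : ℝ) * x' b < 0 := by
      rw [← (key b).2, h b]
      exact lt_irrefl _
    exact le_antisymm (not_lt.1 h1) (not_lt.1 h2)
  · exact Or.inr ⟨⟨b, (key b).1.1 hb⟩, c, (key c).2.1 hc⟩

/-- A row with vanishing real sum is balanced. -/
lemma Bal.of_sum {s : A → B → ℤ} {x : B → ℝ} {a : A} (h : ∑ b, (s a b : ℝ) * x b = 0) : Bal s x a := by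
  by_cases hz : ∀ b, (s a b : ℝ) * x b = 0
  · exact Or.inl hz
  · push Not at hz
    obtain ⟨b, hb⟩ := hz
    refine Or.inr ⟨?_, ?_⟩
    · obtain ⟨c, -, hc⟩ := Finset.exists_pos_of_sum_zero_of_exists_nonzero
        (fun b => (s a b : ℝ) * x b) h ⟨b, mem_univ _, hb⟩
      exact ⟨c, hc⟩
    · obtain ⟨c, -, hc⟩ := Finset.exists_pos_of_sum_zero_of_exists_nonzero
        (fun b => -((s a b : ℝ) * x b)) (by rw [sum_neg_distrib, h, neg_zero])
        ⟨b, mem_univ _, neg_ne_zero.2 hb⟩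
      exact ⟨c, neg_pos.1 hc⟩

end MCC
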