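import Pool.Agent.Lib_MP_cb5629.Ext
import Pool.Agent.Lib_MP_cb5629.SPL
import Pool.Agent.Lib_MP_cb5629.FanoNeg
import Pool.Agent.Lib_MP_cb5629.Tools

/-! Section 5 of the paper text (the application), preliminaries: counting, comparison of matchings. -/

set_option linter.unusedSectionVars false

namespace MCC

open Finset

variable {A B : Type} [Fintype A] [Fintype B] [DecidableEq A] [DecidableEq B]

lemma App_card_inter (s : A → B → ℤ) (a : A) (T : Finset B) :
    (nbA s a ∩ T).card = ∑ b ∈ T, if s a b ≠ 0 then 1 else 0 := by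
  rw [← card_filter]
  congr 1
  ext b
  simp [and_comm]

/-- counting the edges between two sets in two ways -/
lemma App_double (s : A → B → ℤ) (RA : Finset A) (RB : Finset B) :
    ∑ a ∈ RA, (nbA s a ∩ RB).card = ∑ b ∈ RB, (nbB s b ∩ RA).card := by
  have h1 : ∀ b, (nbB s b ∩ RA).card = ∑ a ∈ RA, if s a b ≠ 0 then 1 else 0 := by
    intro b
    exact App_card_inter (tr s) b RA
  simp only [App_card_inter, h1]
  exact sum_comm

lemma App_sdiff_card (s : A → B → ℤ) (hc : Cubic s) (a : A) (T : Finset B) :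
    (nbA s a ∩ T).card + (nbA s a \ T).card = 3 := by
  rw [← hc.row a]
  exact card_inter_add_card_sdiff _ _

lemma App_sum_sdiff (s : A → B → ℤ) (hc : Cubic s) (RA : Finset A) (RB : Finset B) :
    ∑ a ∈ RA, (nbA s a ∩ RB).card + ∑ a ∈ RA, (nbA s a \ RB).card = 3 * RA.card := by
  rw [← sum_add_distrib, sum_congr rfl (fun a _ => App_sdiff_card s hc a RB), sum_const, smul_eq_mul, mul_comm]

/-- `∑ = 1` in `ℕ` -/
lemma App_sum_one {ι : Type} [DecidableEq ι] {R : Finset ι} {f : ι → ℕ} (h : ∑ i ∈ R, f i = 1) :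
    ∃ p ∈ R, f p = 1 ∧ ∀ i ∈ R, i ≠ p → f i = 0 := by
  have h0 : ∃ p ∈ R, f p ≠ 0 := by
    by_contra hcon
    push Not at hcon
    rw [sum_eq_zero hcon] at h
    exact absurd h (by norm_num)
  obtain ⟨p, hp, hfp⟩ := h0
  have h1 := add_sum_erase R f hp
  rw [h] at h1
  have h2 : f p = 1 := by omega
  have h3 : ∑ i ∈ R.erase p, f i = 0 := by omega
  refine ⟨p, hp, h2, fun i hi hne => ?_⟩
  exact (sum_eq_zero_iff.1 h3) i (mem_erase.2 ⟨hne, hi⟩)

/-- comparison of two matchings with their extensions -/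
lemma App_sign_ext {B1 : Type} (RA : Finset A) (σ τ : {a // a ∈ RA} ≃ B1) (σ' τ' : A ≃ B)
    (h1 : ∀ a, a ∉ RA → σ' a = τ' a) (h2 : ∀ a a' : {a // a ∈ RA}, σ a = τ a' → σ' a.1 = τ' a'.1) :
    Equiv.Perm.sign (σ'.trans τ'.symm) = Equiv.Perm.sign (σ.trans τ.symm) := by
  have h : σ'.trans τ'.symm = Equiv.Perm.ofSubtype (σ.trans τ.symm) := by
    ext a
    by_cases ha : a ∈ RA
    · rw [Equiv.Perm.ofSubtype_apply_of_mem _ ha]
      simp only [Equiv.trans_apply]
      rw [Equiv.symm_apply_eq]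
      exact h2 ⟨a, ha⟩ (τ.symm (σ ⟨a, ha⟩)) (by simp)
    · rw [Equiv.Perm.ofSubtype_apply_of_not_mem _ ha]
      simp only [Equiv.trans_apply]
      rw [Equiv.symm_apply_eq]
      exact h1 a ha
  rw [h, Equiv.Perm.sign_ofSubtype]

lemma App_sign_trans (σ τ ρ : A ≃ B) :
    Equiv.Perm.sign (σ.trans τ.symm) = Equiv.Perm.sign (σ.trans ρ.symm) * Equiv.Perm.sign (τ.trans ρ.symm) := by
  have h : σ.trans τ.symm = (σ.trans ρ.symm).trans (τ.trans ρ.symm).symm := by
    ext a
    simp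
  rw [h, Equiv.Perm.sign_trans, Equiv.Perm.sign_symm, mul_comm]

/-- if matchings of the same class have the same sign then the sign is a function of the class -/
lemma App_class {ι : Type} (PM : (A ≃ B) → Prop) (cl : (A ≃ B) → ι)
    (h : ∀ σ τ, PM σ → PM τ → cl σ = cl τ → Equiv.Perm.sign (σ.trans τ.symm) = 1) :
    ∃ δ : ι → ℤˣ, ∀ σ τ, PM σ → PM τ → Equiv.Perm.sign (σ.trans τ.symm) = δ (cl σ) * δ (cl τ) := by
  classical
  by_cases hex : ∃ σ0 : A ≃ B, PM σ0
  · obtain ⟨σ0, h0⟩ := hex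
    refine ⟨fun i => if hi : ∃ σ, PM σ ∧ cl σ = i then Equiv.Perm.sign (hi.choose.trans σ0.symm) else 1, ?_⟩
    have key : ∀ ρ, PM ρ → (if hi : ∃ σ, PM σ ∧ cl σ = cl ρ then Equiv.Perm.sign (hi.choose.trans σ0.symm)
        else 1) = Equiv.Perm.sign (ρ.trans σ0.symm) := by
      intro ρ hρ
      have hi : ∃ σ, PM σ ∧ cl σ = cl ρ := ⟨ρ, hρ, rfl⟩
      rw [dif_pos hi]
      have h1 := h _ _ hi.choose_spec.1 hρ hi.choose_spec.2
      rw [App_sign_trans hi.choose ρ σ0] at h1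
      have h2 := Int.units_mul_self (Equiv.Perm.sign (ρ.trans σ0.symm))
      exact mul_right_cancel (h1.trans h2.symm)
    intro σ τ hσ hτ
    simp only []
    rw [key σ hσ, key τ hτ]
    exact App_sign_trans σ τ σ0
  · push Not at hex
    exact ⟨fun _ => 1, fun σ τ hσ _ => absurd hσ (hex σ)⟩

/-- with no negative edge all perfect matchings have the same permutation sign -/
lemma App_sign_of_sameSign {s : A → B → ℤ} (hc : Cubic s) (hpos : ∀ a b, s a b ≠ -1) (h : SameSign s)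
    {σ τ : A ≃ B} (hσ : IsPM s σ) (hτ : IsPM s τ) : Equiv.Perm.sign (σ.trans τ.symm) = 1 := by
  have h1 := h.2 σ τ hσ hτ
  unfold relSign at h1
  have h2 : ∀ ρ : A ≃ B, IsPM s ρ → ∀ a, s a (ρ a) = 1 := by
    intro ρ hρ a
    rcases hc.val a (ρ a) with h3 | h3 | h3
    · exact absurd h3 (hρ a)
    · exact h3
    · exact absurd h3 (hpos _ _)
  have h3 : ∏ a, (s a (σ a) * s a (τ a)) = 1 := by
    apply prod_eq_one
    intro a _
    rw [h2 σ hσ, h2 τ hτ, mul_one]
  rw [h3, mul_one] at h1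
  exact Units.val_eq_one.1 h1

end MCC
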