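import Pool.Agent.Lib_MP_cb5629.App0

/-! Section 5 of the paper text: the closing of a minimal shore `(3,0)` by one new column. -/

set_option linter.unusedSectionVars false

namespace MCC

open Finset

variable {A B : Type} [Fintype A] [Fintype B] [DecidableEq A] [DecidableEq B]

/-- the closing of the shore `(N(T), T)` by one new column -/
def cl3 (s : A → B → ℤ) (T : Finset B) (ε : A → ℤ) : {a : A // a ∈ NB s T} → Option {b : B // b ∈ T} → ℤ :=
  fun a b => match b with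
  | some b => s a.1 b.1
  | none => if nbA s a.1 ⊆ T then 0 else ε a.1

/-- a shore of type `(3,0)` without double legs -/
structure Sh3b (s : A → B → ℤ) (T : Finset B) : Prop where
  hc : Cubic s
  card : (NB s T).card = T.card + 1
  leg : ∀ a ∈ NB s T, (nbA s a \ T).card ≤ 1

/-- a minimal shore of type `(3,0)` without double legs -/
structure Sh3 (s : A → B → ℤ) (T : Finset B) : Prop extends Sh3b s T where
  pos : ∀ a b, s a b ≠ -1
  ss : SameSign s
  hallA : ∀ S : Finset A, S.Nonempty → S ≠ univ → S.card + 1 ≤ (NA s S).card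
  ne : T.Nonempty
  minA : ∀ S : Finset A, S.Nonempty → S.card < T.card → S.card + 2 ≤ (NA s S).card
  minB : ∀ T' : Finset B, T'.Nonempty → T'.card < T.card → T'.card + 2 ≤ (NB s T').card

lemma cl3_some (s : A → B → ℤ) (T : Finset B) (ε : A → ℤ) (a : {a : A // a ∈ NB s T}) (b : {b : B // b ∈ T}) :
    cl3 s T ε a (some b) = s a.1 b.1 := rfl

lemma cl3_none (s : A → B → ℤ) (T : Finset B) (ε : A → ℤ) (a : {a : A // a ∈ NB s T}) :
    cl3 s T ε a none = if nbA s a.1 ⊆ T then 0 else ε a.1 := rfl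

lemma cl3_none_ne {s : A → B → ℤ} {T : Finset B} {ε : A → ℤ} (hε : ∀ a, ε a = 1 ∨ ε a = -1)
    (a : {a : A // a ∈ NB s T}) : cl3 s T ε a none ≠ 0 ↔ ¬ nbA s a.1 ⊆ T := by
  rw [cl3_none]
  have h : ε a.1 ≠ 0 := by
    rcases hε a.1 with h | h <;> rw [h] <;> norm_num
  split_ifs with h1
  · simp [h1]
  · simp [h1, h]

lemma cl3_leg {s : A → B → ℤ} {T : Finset B} (h : Sh3b s T) {a : A} (ha : a ∈ NB s T) :
    (nbA s a \ T).card = if nbA s a ⊆ T then 0 else 1 := by
  split_ifs with h1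
  · rw [sdiff_eq_empty_iff_subset.2 h1, card_empty]
  · have h2 := h.leg a ha
    have h3 : (nbA s a \ T).Nonempty := by
      rw [nonempty_iff_ne_empty]
      exact fun e => h1 (sdiff_eq_empty_iff_subset.1 e)
    have h4 := card_pos.2 h3
    omega

lemma cl3_legs {s : A → B → ℤ} {T : Finset B} (h : Sh3b s T) :
    ∑ a ∈ NB s T, (if nbA s a ⊆ T then 0 else 1) = 3 := by
  rw [← sum_congr rfl (fun a ha => cl3_leg h ha)]
  have h1 := App_sum_sdiff s h.hc (NB s T) T
  have h2 : ∑ b ∈ T, (nbB s b ∩ NB s T).card = 3 * T.card := by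
    rw [sum_congr rfl (g := fun _ => 3), sum_const, smul_eq_mul, mul_comm]
    intro b hb
    rw [inter_eq_left.2, h.hc.col b]
    intro a ha
    exact mem_NB.2 ⟨b, hb, mem_nbB.1 ha⟩
  rw [App_double, h2, h.card] at h1
  omega

lemma cl3_cubic {s : A → B → ℤ} {T : Finset B} (h : Sh3b s T) {ε : A → ℤ} (hε : ∀ a, ε a = 1 ∨ ε a = -1) :
    Cubic (cl3 s T ε) where
  val a b := by
    rcases b with _ | b
    · rw [cl3_none]
      split_ifs
      · left; rfl
      · right; exact hε a.1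
    · exact h.hc.val a.1 b.1
  row a := by
    have e : (nbA (cl3 s T ε) a).card = (if nbA s a.1 ⊆ T then 0 else 1) + (nbA s a.1 ∩ T).card := by
      rw [nbA, card_filter, Fintype.sum_option, App_card_inter, ← sum_coe_sort T]
      congr 1
      have := cl3_none_ne hε a
      by_cases h1 : nbA s a.1 ⊆ T
      · rw [if_pos h1, if_neg (fun h2 => this.1 h2 h1)]
      · rw [if_neg h1, if_pos (this.2 h1)]
    rw [e, ← cl3_leg h a.2, add_comm]
    exact App_sdiff_card s h.hc a.1 T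
  col b := by
    rcases b with _ | b
    · rw [nbB, card_filter, ← cl3_legs h, ← sum_coe_sort (NB s T)]
      apply sum_congr rfl
      intro a _
      have := cl3_none_ne hε a
      by_cases h1 : nbA s a.1 ⊆ T
      · rw [if_pos h1, if_neg (fun h2 => this.1 h2 h1)]
      · rw [if_neg h1, if_pos (this.2 h1)]
    · have e : (nbB s b.1 ∩ NB s T).card = 3 := by
        rw [inter_eq_left.2, h.hc.col b.1]
        intro a ha
        exact mem_NB.2 ⟨b.1, b.2, mem_nbB.1 ha⟩
      rw [nbB, card_filter, ← e]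
      exact ((App_card_inter (tr s) b.1 (NB s T)).trans (sum_coe_sort (NB s T) _).symm).symm

lemma cl3_NA_card {s : A → B → ℤ} {T : Finset B} {ε : A → ℤ} (hε : ∀ a, ε a = 1 ∨ ε a = -1)
    (S : Finset {a : A // a ∈ NB s T}) :
    (NA (cl3 s T ε) S).card = (if ∃ a ∈ S, ¬ nbA s a.1 ⊆ T then 1 else 0) +
      (NA s (S.map (Function.Embedding.subtype _)) ∩ T).card := by
  classical
  have e1 : (NA s (S.map (Function.Embedding.subtype _)) ∩ T).card =
      ∑ b ∈ T, if ∃ a ∈ S, s a.1 b ≠ 0 then 1 else 0 := by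
    rw [← card_filter]
    congr 1
    ext b
    rw [mem_inter, mem_NA, mem_filter, and_comm]
    apply and_congr_right
    intro _
    constructor
    · rintro ⟨a, ha, hab⟩
      obtain ⟨a', ha', rfl⟩ := mem_map.1 ha
      exact ⟨a', ha', hab⟩
    · rintro ⟨a, ha, hab⟩
      exact ⟨a.1, mem_map.2 ⟨a, ha, rfl⟩, hab⟩
  rw [NA, card_filter, Fintype.sum_option, e1, ← sum_coe_sort T]
  congr 1
  by_cases h1 : ∃ a ∈ S, ¬ nbA s a.1 ⊆ T
  · rw [if_pos h1, if_pos]
    obtain ⟨a, ha, h2⟩ := h1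
    exact ⟨a, ha, (cl3_none_ne hε a).2 h2⟩
  · rw [if_neg h1, if_neg]
    rintro ⟨a, ha, h2⟩
    exact h1 ⟨a, ha, (cl3_none_ne hε a).1 h2⟩

lemma cl3_card (s : A → B → ℤ) (T : Finset B) : Fintype.card {a : A // a ∈ NB s T} = (NB s T).card :=
  Fintype.card_coe _

lemma cl3_brace {s : A → B → ℤ} {T : Finset B} (h : Sh3 s T) {ε : A → ℤ} (hε : ∀ a, ε a = 1 ∨ ε a = -1) :
    Brace (cl3 s T ε) where
  three := by
    rw [cl3_card]
    obtain ⟨b, hb⟩ := h.ne
    rw [← h.hc.col b]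
    apply card_le_card
    intro a ha
    exact mem_NB.2 ⟨b, hb, mem_nbB.1 ha⟩
  hall := by
    classical
    intro S hS hS2
    rw [cl3_card, h.card] at hS2
    rw [cl3_NA_card hε]
    obtain ⟨S', hS'⟩ : ∃ S' : Finset A, S' = S.map (Function.Embedding.subtype _) := ⟨_, rfl⟩
    rw [← hS']
    have hcard : S'.card = S.card := by rw [hS', card_map]
    have hsub : S' ⊆ NB s T := by
      intro a ha
      rw [hS', mem_map] at ha
      obtain ⟨a', -, rfl⟩ := ha
      exact a'.2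
    have hSne : S'.Nonempty := by rw [← card_pos, hcard]; exact card_pos.2 hS
    split_ifs with h1
    · by_contra hlt
      push Not at hlt
      obtain ⟨T1, hT1⟩ : ∃ T1 : Finset B, T1 = T \ NA s S' := ⟨_, rfl⟩
      have h2 : T1.card + (NA s S' ∩ T).card = T.card := by
        rw [hT1, inter_comm]
        exact card_sdiff_add_card_inter T (NA s S')
      have h3 : 0 < (NA s S' ∩ T).card := by
        rw [card_pos]
        obtain ⟨a, ha⟩ := hSne
        obtain ⟨b, hb, hab⟩ := mem_NB.1 (hsub ha)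
        exact ⟨b, mem_inter.2 ⟨mem_NA.2 ⟨a, ha, hab⟩, hb⟩⟩
      have h4 : NB s T1 ⊆ NB s T \ S' := by
        intro a ha
        obtain ⟨b, hb, hab⟩ := mem_NB.1 ha
        rw [hT1, mem_sdiff] at hb
        refine mem_sdiff.2 ⟨mem_NB.2 ⟨b, hb.1, hab⟩, fun haS => hb.2 (mem_NA.2 ⟨a, haS, hab⟩)⟩
      have h5 := card_le_card h4
      rw [card_sdiff_of_subset hsub, h.card] at h5
      have h6 := h.minB T1 (by rw [← card_pos]; omega) (by omega)
      omega
    · have h2 : NA s S' ∩ T = NA s S' := by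
        rw [inter_eq_left]
        intro b hb
        obtain ⟨a, ha, hab⟩ := mem_NA.1 hb
        rw [hS', mem_map] at ha
        obtain ⟨a', ha', rfl⟩ := ha
        by_contra hbT
        exact h1 ⟨a', ha', fun hsub' => hbT (hsub' (mem_nbA.2 hab))⟩
      rw [h2]
      have h3 := h.minA S' hSne (by omega)
      omega

/-- matchings of the other shore minus one column -/
lemma cl3_K {s : A → B → ℤ} {T : Finset B} (h : Sh3 s T) (b0 : B) :
    ∃ f : A → B, Set.InjOn f (univ \ NB s T : Finset A) ∧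
      ∀ a ∈ univ \ NB s T, f a ∈ (univ \ T).erase b0 ∧ s a (f a) ≠ 0 := by
  have : Nonempty B := ⟨b0⟩
  apply hall_on
  intro S hS
  rcases S.eq_empty_or_nonempty with rfl | hne
  · simp
  · have h1 : S ≠ univ := by
      rintro rfl
      obtain ⟨b, hb⟩ := h.ne
      have h2 : (nbB s b).Nonempty := by rw [← card_pos, h.hc.col b]; norm_num
      obtain ⟨a, ha⟩ := h2
      exact (mem_sdiff.1 (hS (mem_univ a))).2 (mem_NB.2 ⟨b, hb, mem_nbB.1 ha⟩)
    have h2 := h.hallA S hne h1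
    have h3 : (NA s S).erase b0 ⊆ NA s S ∩ (univ \ T).erase b0 := by
      intro b hb
      rw [mem_erase] at hb
      rw [mem_inter, mem_erase, mem_sdiff]
      refine ⟨hb.2, hb.1, mem_univ _, fun hbT => ?_⟩
      obtain ⟨a, ha, hab⟩ := mem_NA.1 hb.2
      exact (mem_sdiff.1 (hS ha)).2 (mem_NB.2 ⟨b, hbT, hab⟩)
    have h4 := card_le_card h3
    have h5 := pred_card_le_card_erase (s := NA s S) (a := b0)
    omega

/-- extension of a perfect matching of the closing -/
lemma cl3_ext {s : A → B → ℤ} {T : Finset B} (h : Sh3 s T) {ε : A → ℤ} (hε : ∀ a, ε a = 1 ∨ ε a = -1)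
    {κ : A → B} (hκ : ∀ a, ¬ nbA s a ⊆ T → κ a ∉ T ∧ s a (κ a) ≠ 0) {N : B → A → B}
    (hN : ∀ b0, Set.InjOn (N b0) (univ \ NB s T : Finset A) ∧
      ∀ a ∈ univ \ NB s T, N b0 a ∈ (univ \ T).erase b0 ∧ s a (N b0 a) ≠ 0)
    (σ : {a : A // a ∈ NB s T} ≃ Option {b : B // b ∈ T}) (hσ : IsPM (cl3 s T ε) σ) :
    ∃ σ' : A ≃ B, IsPM s σ' ∧ (∀ a, a ∉ NB s T → σ' a = N (κ (σ.symm none).1) a) ∧
      ∀ a : {a : A // a ∈ NB s T}, σ' a.1 = (σ a).elim (κ a.1) Subtype.val := by
  classical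
  obtain ⟨f, hf⟩ : ∃ f : A → B, ∀ a, f a = if ha : a ∈ NB s T then (σ ⟨a, ha⟩).elim (κ a) Subtype.val
      else N (κ (σ.symm none).1) a := ⟨_, fun _ => rfl⟩
  have f1 : ∀ a : {a : A // a ∈ NB s T}, f a.1 = (σ a).elim (κ a.1) Subtype.val := by
    intro a
    rw [hf, dif_pos a.2]
  have f2 : ∀ a, a ∉ NB s T → f a = N (κ (σ.symm none).1) a := by
    intro a ha
    rw [hf, dif_neg ha]
  have hn : ∀ a : {a : A // a ∈ NB s T}, σ a = none → ¬ nbA s a.1 ⊆ T := by
    intro a ha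
    have := hσ a
    rw [ha] at this
    exact (cl3_none_ne hε a).1 this
  have hin : ∀ a : {a : A // a ∈ NB s T}, f a.1 ∈ T ∨ f a.1 = κ (σ.symm none).1 := by
    intro a
    rw [f1]
    rcases hσa : σ a with _ | b
    · right
      rw [← hσa, Equiv.symm_apply_apply]
      rw [hσa]; rfl
    · left; exact b.2
  have hout : ∀ a, a ∉ NB s T → f a ∉ T ∧ f a ≠ κ (σ.symm none).1 := by
    intro a ha
    rw [f2 a ha]
    have h1 := ((hN (κ (σ.symm none).1)).2 a (mem_sdiff.2 ⟨mem_univ _, ha⟩)).1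
    rw [mem_erase, mem_sdiff] at h1
    exact ⟨h1.2.2, h1.1⟩
  have hinj : Function.Injective f := by
    intro a a' e
    by_cases ha : a ∈ NB s T
    · by_cases ha' : a' ∈ NB s T
      · have e1 := f1 ⟨a, ha⟩
        have e2 := f1 ⟨a', ha'⟩
        simp only at e1 e2
        rw [e1, e2] at e
        rcases h1 : σ ⟨a, ha⟩ with _ | b
        · rcases h2 : σ ⟨a', ha'⟩ with _ | b'
          · have := σ.injective (h1.trans h2.symm)
            exact congrArg Subtype.val this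
          · rw [h1, h2] at e
            exact absurd b'.2 (by
              have : κ a = b'.1 := e
              rw [← this]
              exact (hκ a (hn ⟨a, ha⟩ h1)).1)
        · rcases h2 : σ ⟨a', ha'⟩ with _ | b'
          · rw [h1, h2] at e
            exact absurd b.2 (by
              have : b.1 = κ a' := e
              rw [this]
              exact (hκ a' (hn ⟨a', ha'⟩ h2)).1)
          · rw [h1, h2] at e
            have e3 : b = b' := Subtype.ext e
            rw [e3] at h1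
            have := σ.injective (h1.trans h2.symm)
            exact congrArg Subtype.val this
      · exfalso
        have h1 := hin ⟨a, ha⟩
        have h2 := hout a' ha'
        rw [← e] at h2
        rcases h1 with h1 | h1
        · exact h2.1 h1
        · exact h2.2 h1
    · by_cases ha' : a' ∈ NB s T
      · exfalso
        have h1 := hin ⟨a', ha'⟩
        have h2 := hout a ha
        rw [e] at h2
        rcases h1 with h1 | h1
        · exact h2.1 h1
        · exact h2.2 h1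
      · rw [f2 a ha, f2 a' ha'] at e
        exact (hN _).1 (by simpa using ha) (by simpa using ha') e
  have hed : ∀ a, s a (f a) ≠ 0 := by
    intro a
    by_cases ha : a ∈ NB s T
    · have e1 := f1 ⟨a, ha⟩
      simp only at e1
      rw [e1]
      rcases h1 : σ ⟨a, ha⟩ with _ | b
      · exact (hκ a (hn ⟨a, ha⟩ h1)).2
      · have h2 := hσ ⟨a, ha⟩
        rw [h1] at h2
        exact h2
    · rw [f2 a ha]
      exact ((hN _).2 a (mem_sdiff.2 ⟨mem_univ _, ha⟩)).2
  obtain ⟨σ', h1, h2⟩ := pm_of_inj h.hc.card_eq f hinj hed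
  exact ⟨σ', h1, fun a ha => by rw [h2, f2 a ha], fun a => by rw [h2, f1 a]⟩

lemma cl3_sign {s : A → B → ℤ} {T : Finset B} (h : Sh3 s T) {ε : A → ℤ} (hε : ∀ a, ε a = 1 ∨ ε a = -1) :
    ∃ δ : {a : A // a ∈ NB s T} → ℤˣ, ∀ σ τ : {a : A // a ∈ NB s T} ≃ Option {b : B // b ∈ T},
      IsPM (cl3 s T ε) σ → IsPM (cl3 s T ε) τ →
      Equiv.Perm.sign (σ.trans τ.symm) = δ (σ.symm none) * δ (τ.symm none) := by
  classical
  have hκ0 : ∀ a, ∃ b, ¬ nbA s a ⊆ T → b ∉ T ∧ s a b ≠ 0 := by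
    intro a
    by_cases h1 : nbA s a ⊆ T
    · obtain ⟨b, _⟩ := h.ne
      exact ⟨b, fun h2 => absurd h1 h2⟩
    · obtain ⟨b, hb, hbT⟩ := not_subset.1 h1
      exact ⟨b, fun _ => ⟨hbT, mem_nbA.1 hb⟩⟩
  choose κ hκ using hκ0
  have hN0 := fun b0 => cl3_K h b0
  choose N hN using hN0
  apply App_class (fun σ => IsPM (cl3 s T ε) σ) (fun σ => σ.symm none)
  intro σ τ hσ hτ hcl
  obtain ⟨σ', h1, h2, h3⟩ := cl3_ext h hε hκ hN σ hσ
  obtain ⟨τ', h4, h5, h6⟩ := cl3_ext h hε hκ hN τ hτ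
  rw [← App_sign_ext (NB s T) σ τ σ' τ']
  · exact App_sign_of_sameSign h.hc h.pos h.ss h1 h4
  · intro a ha
    rw [h2 a ha, h5 a ha, hcl]
  · intro a a' e
    rw [h3, h6, e]
    rcases h7 : τ a' with _ | b
    · have e1 : a = σ.symm none := by rw [← h7, ← e, Equiv.symm_apply_apply]
      have e2 : a' = τ.symm none := by rw [← h7, Equiv.symm_apply_apply]
      rw [e1, e2, hcl]
    · rfl

lemma cl3_prod {s : A → B → ℤ} {T : Finset B} (h : Sh3 s T) {ε : A → ℤ}
    (σ : {a : A // a ∈ NB s T} ≃ Option {b : B // b ∈ T}) (hσ : IsPM (cl3 s T ε) σ) :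
    ∏ a, cl3 s T ε a (σ a) = ε (σ.symm none).1 := by
  rw [prod_eq_single (σ.symm none)]
  · rw [Equiv.apply_symm_apply, cl3_none]
    rw [if_neg]
    intro h1
    have h2 := hσ (σ.symm none)
    rw [Equiv.apply_symm_apply, cl3_none, if_pos h1] at h2
    exact h2 rfl
  · intro a _ ha
    rcases h1 : σ a with _ | b
    · exact absurd (by rw [← h1, Equiv.symm_apply_apply]) ha
    · have h2 := hσ a
      rw [h1, cl3_some] at h2
      rw [cl3_some]
      rcases h.hc.val a.1 b.1 with h3 | h3 | h3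
      · exact absurd h3 h2
      · exact h3
      · exact absurd h3 (h.pos _ _)
  · intro h1
    exact absurd (mem_univ _) h1

lemma cl3_pm_iff {s : A → B → ℤ} {T : Finset B} {ε ε' : A → ℤ} (hε : ∀ a, ε a = 1 ∨ ε a = -1)
    (hε' : ∀ a, ε' a = 1 ∨ ε' a = -1) (σ : {a : A // a ∈ NB s T} ≃ Option {b : B // b ∈ T}) :
    IsPM (cl3 s T ε) σ → IsPM (cl3 s T ε') σ := by
  intro hσ a
  have h1 := hσ a
  rcases h2 : σ a with _ | b
  · rw [h2] at h1
    exact (cl3_none_ne hε' a).2 ((cl3_none_ne hε a).1 h1)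
  · rw [h2] at h1
    exact h1

lemma cl3_sameSign {s : A → B → ℤ} {T : Finset B} (h : Sh3 s T) :
    ∃ δ : A → ℤˣ, ∀ η : ℤˣ, SameSign (cl3 s T fun a => ((η * δ a : ℤˣ) : ℤ)) := by
  classical
  have h1 : ∀ a : A, (fun _ : A => (1 : ℤ)) a = 1 ∨ (fun _ : A => (1 : ℤ)) a = -1 := fun a => Or.inl rfl
  obtain ⟨δ, hδ⟩ := cl3_sign h h1
  refine ⟨fun a => if ha : a ∈ NB s T then δ ⟨a, ha⟩ else 1, fun η => ?_⟩
  have h2 : ∀ a : A, (fun a => ((η * (if ha : a ∈ NB s T then δ ⟨a, ha⟩ else 1) : ℤˣ) : ℤ)) a = 1 ∨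
      (fun a => ((η * (if ha : a ∈ NB s T then δ ⟨a, ha⟩ else 1) : ℤˣ) : ℤ)) a = -1 := by
    intro a
    rcases Int.units_eq_one_or (η * (if ha : a ∈ NB s T then δ ⟨a, ha⟩ else 1)) with h3 | h3
    · left; simp only [h3]; rfl
    · right; simp only [h3]; rfl
  refine ⟨(cl3_cubic h.toSh3b h2).exists_pm, fun σ τ hσ hτ => ?_⟩
  have h3 := hδ σ τ (cl3_pm_iff h2 h1 σ hσ) (cl3_pm_iff h2 h1 τ hτ)
  unfold relSign
  rw [h3, prod_mul_distrib, cl3_prod h σ hσ, cl3_prod h τ hτ]
  simp only []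
  rw [dif_pos (σ.symm none).2, dif_pos (τ.symm none).2]
  have h4 : (δ (σ.symm none) * δ (τ.symm none)) * ((η * δ (σ.symm none)) * (η * δ (τ.symm none))) = 1 := by
    rcases Int.units_eq_one_or (δ (σ.symm none)) with h5 | h5 <;>
    rcases Int.units_eq_one_or (δ (τ.symm none)) with h6 | h6 <;>
    rcases Int.units_eq_one_or η with h7 | h7 <;> rw [h5, h6, h7] <;> decide
  have h5 := congrArg Units.val h4
  simpa only [Units.val_mul, Subtype.coe_eta, Units.val_one] using h5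

/-- the closing of a minimal shore is the Fano plane -/
theorem close3 (hP : ∀ n, P n) {s : A → B → ℤ} {T : Finset B} (h : Sh3 s T) :
    ∃ ε : A → ℤ, (∀ a, ε a = 1 ∨ ε a = -1) ∧ Fano (cl3 s T ε) := by
  classical
  obtain ⟨δ, hδ⟩ := cl3_sameSign h
  have hu : ∀ η : ℤˣ, ∀ a, ((η * δ a : ℤˣ) : ℤ) = 1 ∨ ((η * δ a : ℤˣ) : ℤ) = -1 := by
    intro η a
    rcases Int.units_eq_one_or (η * δ a) with h3 | h3
    · left; rw [h3]; rfl
    · right; rw [h3]; rfl
  -- one of the two signings has at most one negative edge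
  have hex : ∃ η : ℤˣ, (neg (cl3 s T fun a => ((η * δ a : ℤˣ) : ℤ))).card ≤ 1 := by
    by_contra hcon
    push Not at hcon
    have h1 := hcon 1
    have h2 := hcon (-1)
    obtain ⟨N1, hN1⟩ : ∃ N1, N1 = neg (cl3 s T fun a => (((1 : ℤˣ) * δ a : ℤˣ) : ℤ)) := ⟨_, rfl⟩
    obtain ⟨N2, hN2⟩ : ∃ N2, N2 = neg (cl3 s T fun a => (((-1 : ℤˣ) * δ a : ℤˣ) : ℤ)) := ⟨_, rfl⟩
    rw [← hN1] at h1
    rw [← hN2] at h2
    have hnone : ∀ η : ℤˣ, ∀ p ∈ neg (cl3 s T fun a => ((η * δ a : ℤˣ) : ℤ)), p.2 = none ∧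
        ¬ nbA s p.1.1 ⊆ T ∧ ((η * δ p.1.1 : ℤˣ) : ℤ) = -1 := by
      rintro η ⟨a, b⟩ hp
      rw [mem_neg] at hp
      simp only at hp
      rcases b with _ | b
      · rw [cl3_none] at hp
        by_cases h3 : nbA s a.1 ⊆ T
        · rw [if_pos h3] at hp
          exact absurd hp (by norm_num)
        · rw [if_neg h3] at hp
          exact ⟨rfl, h3, hp⟩
      · exact absurd hp (h.pos _ _)
    have hdis : Disjoint N1 N2 := by
      rw [disjoint_left]
      intro p hp1 hp2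
      rw [hN1] at hp1
      rw [hN2] at hp2
      have e1 := (hnone 1 p hp1).2.2
      have e2 := (hnone (-1) p hp2).2.2
      rcases Int.units_eq_one_or (δ p.1.1) with h3 | h3
      · rw [h3] at e1
        exact absurd e1 (by decide)
      · rw [h3] at e2
        exact absurd e2 (by decide)
    have hsub : (N1 ∪ N2) ⊆ (nbB (cl3 s T fun _ => 1) none).image (fun a => (a, (none : Option {b : B // b ∈ T}))) := by
      intro p hp
      have h3 : p.2 = none ∧ ¬ nbA s p.1.1 ⊆ T := by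
        rcases mem_union.1 hp with h4 | h4
        · rw [hN1] at h4
          exact ⟨(hnone _ p h4).1, (hnone _ p h4).2.1⟩
        · rw [hN2] at h4
          exact ⟨(hnone _ p h4).1, (hnone _ p h4).2.1⟩
      rw [mem_image]
      refine ⟨p.1, ?_, ?_⟩
      · rw [mem_nbB]
        exact (cl3_none_ne (ε := fun _ => 1) (fun _ => Or.inl rfl) p.1).2 h3.2
      · rw [← h3.1]
    have h3 := (card_le_card hsub).trans card_image_le
    rw [card_union_of_disjoint hdis, (cl3_cubic h.toSh3b (ε := fun _ => 1) (fun _ => Or.inl rfl)).col none] at h3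
    omega
  obtain ⟨η, hη⟩ := hex
  have hcub := cl3_cubic h.toSh3b (hu η)
  have hbr := cl3_brace h (hu η)
  have hsns : SNS (cl3 s T fun a => ((η * δ a : ℤˣ) : ℤ)) := sns_of_sameSign (hδ η)
  have hp := hP _ _ _ _ rfl hcub hbr hsns
  have h0 : neg (cl3 s T fun a => ((η * δ a : ℤˣ) : ℤ)) = ∅ := by
    rw [← card_eq_zero]
    have := hp.1
    omega
  exact ⟨_, hu η, hp.2.1 h0⟩

end MCC
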