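import Pool.Agent.Lib_MP_cb5629.App0

/-! Section 5 of the paper text: the closing of a minimal shore `(1,1)` by one new edge. -/

set_option linter.unusedSectionVars false

namespace MCC

open Finset

variable {A B : Type} [Fintype A] [Fintype B] [DecidableEq A] [DecidableEq B]

/-- the closing of the shore `(RA, RB)` by the new edge `(p,q)` -/
def cl2 (s : A → B → ℤ) (RA : Finset A) (RB : Finset B) (p : A) (q : B) (ε : ℤ) :
    {a : A // a ∈ RA} → {b : B // b ∈ RB} → ℤ :=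
  fun a b => if a.1 = p ∧ b.1 = q then ε else s a.1 b.1

/-- a minimal shore of type `(1,1)` -/
structure Sh2 (s : A → B → ℤ) (RA : Finset A) (RB : Finset B) (p ka : A) (q kb : B) : Prop where
  hc : Cubic s
  pos : ∀ a b, s a b ≠ -1
  ss : SameSign s
  hallA : ∀ S : Finset A, S.Nonempty → S ≠ univ → S.card + 1 ≤ (NA s S).card
  card : RA.card = RB.card
  hp : p ∈ RA
  hq : q ∈ RB
  hka : ka ∉ RA
  hkb : kb ∉ RB
  ep : s p kb ≠ 0
  eq : s ka q ≠ 0
  rowleg : ∀ a ∈ RA, ∀ b, b ∉ RB → s a b ≠ 0 → a = p ∧ b = kb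
  colleg : ∀ b ∈ RB, ∀ a, a ∉ RA → s a b ≠ 0 → a = ka ∧ b = q
  minA : ∀ S : Finset A, S.Nonempty → S.card < RA.card → S.card + 2 ≤ (NA s S).card
  minB : ∀ T' : Finset B, T'.Nonempty → T'.card < RA.card → T'.card + 2 ≤ (NB s T').card
  nadj : s p q = 0

lemma cl2_ne {s : A → B → ℤ} {RA : Finset A} {RB : Finset B} {p : A} {q : B} {ε : ℤ} (hε : ε = 1 ∨ ε = -1)
    (a : {a : A // a ∈ RA}) (b : {b : B // b ∈ RB}) :
    cl2 s RA RB p q ε a b ≠ 0 ↔ (a.1 = p ∧ b.1 = q) ∨ s a.1 b.1 ≠ 0 := by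
  have h : ε ≠ 0 := by rcases hε with h | h <;> rw [h] <;> norm_num
  unfold cl2
  split_ifs with h1
  · simp [h, h1]
  · simp [h1]

lemma cl2_NA {s : A → B → ℤ} {RA : Finset A} {RB : Finset B} {p : A} {q : B} (hp : p ∈ RA) (hq : q ∈ RB) {ε : ℤ}
    (hε : ε = 1 ∨ ε = -1) (S : Finset {a : A // a ∈ RA}) :
    (NA (cl2 s RA RB p q ε) S).map (Function.Embedding.subtype _) =
      if (⟨p, hp⟩ : {a : A // a ∈ RA}) ∈ S then insert q (NA s (S.map (Function.Embedding.subtype _)) ∩ RB)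
      else NA s (S.map (Function.Embedding.subtype _)) ∩ RB := by
  classical
  have h0 : ∀ b : B, b ∈ (NA (cl2 s RA RB p q ε) S).map (Function.Embedding.subtype _) ↔
      b ∈ RB ∧ ∃ a ∈ S, (a.1 = p ∧ b = q) ∨ s a.1 b ≠ 0 := by
    intro b
    rw [mem_map]
    constructor
    · rintro ⟨b', hb', rfl⟩
      obtain ⟨a, ha, hab⟩ := mem_NA.1 hb'
      exact ⟨b'.2, a, ha, (cl2_ne hε a b').1 hab⟩
    · rintro ⟨hb, a, ha, hab⟩
      exact ⟨⟨b, hb⟩, mem_NA.2 ⟨a, ha, (cl2_ne hε a ⟨b, hb⟩).2 hab⟩, rfl⟩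
  have h1 : ∀ b : B, b ∈ NA s (S.map (Function.Embedding.subtype _)) ∩ RB ↔
      b ∈ RB ∧ ∃ a ∈ S, s a.1 b ≠ 0 := by
    intro b
    rw [mem_inter, mem_NA, and_comm]
    apply and_congr_right
    intro _
    constructor
    · rintro ⟨a, ha, hab⟩
      obtain ⟨a', ha', rfl⟩ := mem_map.1 ha
      exact ⟨a', ha', hab⟩
    · rintro ⟨a, ha, hab⟩
      exact ⟨a.1, mem_map.2 ⟨a, ha, rfl⟩, hab⟩
  split_ifs with h2
  · ext b
    rw [h0, mem_insert, h1]
    constructor
    · rintro ⟨hb, a, ha, ⟨rfl, rfl⟩ | hab⟩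
      · exact Or.inl rfl
      · exact Or.inr ⟨hb, a, ha, hab⟩
    · rintro (rfl | ⟨hb, a, ha, hab⟩)
      · exact ⟨hq, ⟨p, hp⟩, h2, Or.inl ⟨rfl, rfl⟩⟩
      · exact ⟨hb, a, ha, Or.inr hab⟩
  · ext b
    rw [h0, h1]
    apply and_congr_right
    intro _
    constructor
    · rintro ⟨a, ha, ⟨h3, rfl⟩ | hab⟩
      · exact absurd (by rw [← Subtype.coe_eta a a.2] at ha; simpa only [h3] using ha) h2
      · exact ⟨a, ha, hab⟩
    · rintro ⟨a, ha, hab⟩
      exact ⟨a, ha, Or.inr hab⟩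

lemma cl2_row {s : A → B → ℤ} {RA : Finset A} {RB : Finset B} {p ka : A} {q kb : B}
    (h : Sh2 s RA RB p ka q kb) {ε : ℤ} (hε : ε = 1 ∨ ε = -1) (a : {a : A // a ∈ RA}) :
    (nbA (cl2 s RA RB p q ε) a).card = 3 := by
  classical
  have h1 := cl2_NA h.hp h.hq hε (s := s) {a}
  rw [NA_singleton] at h1
  have h2 : (nbA (cl2 s RA RB p q ε) a).card =
      ((nbA (cl2 s RA RB p q ε) a).map (Function.Embedding.subtype _)).card := by rw [card_map]
  rw [h2, h1, map_singleton, Function.Embedding.coe_subtype, NA_singleton]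
  split_ifs with h3
  · rw [mem_singleton] at h3
    have ha : a.1 = p := by rw [← h3]
    rw [ha, card_insert_of_notMem]
    · have h4 := App_sdiff_card s h.hc p RB
      have h5 : nbA s p \ RB = {kb} := by
        ext b
        rw [mem_sdiff, mem_nbA, mem_singleton]
        constructor
        · rintro ⟨hb, hbR⟩
          exact (h.rowleg p h.hp b hbR hb).2
        · rintro rfl
          exact ⟨h.ep, h.hkb⟩
      rw [h5, card_singleton] at h4
      omega
    · rw [mem_inter, mem_nbA, h.nadj]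
      simp
  · have ha : a.1 ≠ p := by
      intro e
      apply h3
      rw [mem_singleton]
      exact Subtype.ext e.symm
    rw [inter_eq_left.2, h.hc.row]
    intro b hb
    by_contra hbR
    exact ha (h.rowleg a.1 a.2 b hbR (mem_nbA.1 hb)).1

/-- the transposed shore -/
lemma Sh2.tr {s : A → B → ℤ} {RA : Finset A} {RB : Finset B} {p ka : A} {q kb : B}
    (h : Sh2 s RA RB p ka q kb) (hss : SameSign (tr s))
    (hallB : ∀ T : Finset B, T.Nonempty → T ≠ univ → T.card + 1 ≤ (NB s T).card) :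
    Sh2 (tr s) RB RA q kb p ka where
  hc := h.hc.tr
  pos b a := h.pos a b
  ss := hss
  hallA := hallB
  card := h.card.symm
  hp := h.hq
  hq := h.hp
  hka := h.hkb
  hkb := h.hka
  ep := h.eq
  eq := h.ep
  rowleg b hb a ha hab := (h.colleg b hb a ha hab).symm
  colleg a ha b hb hab := (h.rowleg a ha b hb hab).symm
  minA T hT hc := h.minB T hT (by rw [h.card]; exact hc)
  minB T hT hc := h.minA T hT (by rw [h.card]; exact hc)
  nadj := h.nadj

lemma cl2_tr (s : A → B → ℤ) (RA : Finset A) (RB : Finset B) (p : A) (q : B) (ε : ℤ) :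
    tr (cl2 s RA RB p q ε) = cl2 (tr s) RB RA q p ε := by
  funext b a
  simp only [tr, cl2, and_comm]

lemma cl2_cubic {s : A → B → ℤ} {RA : Finset A} {RB : Finset B} {p ka : A} {q kb : B}
    (h : Sh2 s RA RB p ka q kb) (hss : SameSign (tr s))
    (hallB : ∀ T : Finset B, T.Nonempty → T ≠ univ → T.card + 1 ≤ (NB s T).card)
    {ε : ℤ} (hε : ε = 1 ∨ ε = -1) : Cubic (cl2 s RA RB p q ε) where
  val a b := by
    unfold cl2
    split_ifs
    · exact Or.inr hε
    · exact h.hc.val _ _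
  row a := cl2_row h hε a
  col b := by
    rw [← nbA_tr, cl2_tr]
    exact cl2_row (h.tr hss hallB) hε b

lemma cl2_brace {s : A → B → ℤ} {RA : Finset A} {RB : Finset B} {p ka : A} {q kb : B}
    (h : Sh2 s RA RB p ka q kb) {ε : ℤ} (hε : ε = 1 ∨ ε = -1) : Brace (cl2 s RA RB p q ε) where
  three := by
    have h1 := cl2_row h hε ⟨p, h.hp⟩
    rw [Fintype.card_coe, h.card, ← Fintype.card_coe, ← h1]
    exact card_le_univ _
  hall := by
    classical
    intro S hS hS2
    rw [Fintype.card_coe] at hS2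
    have h2 : (NA (cl2 s RA RB p q ε) S).card =
        ((NA (cl2 s RA RB p q ε) S).map (Function.Embedding.subtype _)).card := by rw [card_map]
    rw [h2, cl2_NA h.hp h.hq hε]
    obtain ⟨S', hS'⟩ : ∃ S' : Finset A, S' = S.map (Function.Embedding.subtype _) := ⟨_, rfl⟩
    rw [← hS']
    have hcard : S'.card = S.card := by rw [hS', card_map]
    have hsub : S' ⊆ RA := by
      intro a ha
      rw [hS', mem_map] at ha
      obtain ⟨a', -, rfl⟩ := ha
      exact a'.2
    have hSne : S'.Nonempty := by rw [← card_pos, hcard]; exact card_pos.2 hS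
    split_ifs with h1
    · by_contra hlt
      push Not at hlt
      obtain ⟨T1, hT1⟩ : ∃ T1 : Finset B, T1 = RB \ insert q (NA s S' ∩ RB) := ⟨_, rfl⟩
      have h3 : insert q (NA s S' ∩ RB) ⊆ RB := by
        intro b hb
        rw [mem_insert] at hb
        rcases hb with rfl | hb
        · exact h.hq
        · exact (mem_inter.1 hb).2
      have h4 : T1.card = RB.card - (insert q (NA s S' ∩ RB)).card := by
        rw [hT1, card_sdiff_of_subset h3]
      have h5 := card_le_card h3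
      have h6 : 0 < (insert q (NA s S' ∩ RB)).card := card_pos.2 ⟨q, mem_insert_self _ _⟩
      have h7 : NB s T1 ⊆ RA \ S' := by
        intro a ha
        obtain ⟨b, hb, hab⟩ := mem_NB.1 ha
        rw [hT1, mem_sdiff, mem_insert, not_or] at hb
        refine mem_sdiff.2 ⟨?_, fun haS => hb.2.2 (mem_inter.2 ⟨mem_NA.2 ⟨a, haS, hab⟩, hb.1⟩)⟩
        by_contra haR
        exact hb.2.1 (h.colleg b hb.1 a haR hab).2
      have h8 := card_le_card h7
      rw [card_sdiff_of_subset hsub] at h8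
      have hcc := h.card
      have h9 := h.minB T1 (by rw [← card_pos]; omega) (by omega)
      omega
    · have h3 : NA s S' ∩ RB = NA s S' := by
        rw [inter_eq_left]
        intro b hb
        obtain ⟨a, ha, hab⟩ := mem_NA.1 hb
        have haR := hsub ha
        rw [hS', mem_map] at ha
        obtain ⟨a', ha', rfl⟩ := ha
        by_contra hbT
        have h4 := (h.rowleg _ haR b hbT hab).1
        apply h1
        have h5 : a' = ⟨p, h.hp⟩ := Subtype.ext h4
        rw [← h5]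
        exact ha'
      rw [h3]
      have h4 := h.minA S' hSne (by omega)
      omega

/-- matchings of the other shore -/
lemma cl2_K0 {s : A → B → ℤ} {RA : Finset A} {RB : Finset B} {p ka : A} {q kb : B}
    (h : Sh2 s RA RB p ka q kb) :
    ∃ f : A → B, Set.InjOn f (univ \ RA : Finset A) ∧ ∀ a ∈ univ \ RA, f a ∈ univ \ RB ∧ s a (f a) ≠ 0 := by
  have : Nonempty B := ⟨q⟩
  apply hall_on
  intro S hS
  rcases S.eq_empty_or_nonempty with rfl | hne
  · simp
  · have h1 : S ≠ univ := by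
      rintro rfl
      exact (mem_sdiff.1 (hS (mem_univ p))).2 h.hp
    have h2 := h.hallA S hne h1
    have h3 : (NA s S).erase q ⊆ NA s S ∩ (univ \ RB) := by
      intro b hb
      rw [mem_erase] at hb
      rw [mem_inter, mem_sdiff]
      refine ⟨hb.2, mem_univ _, fun hbT => ?_⟩
      obtain ⟨a, ha, hab⟩ := mem_NA.1 hb.2
      exact hb.1 (h.colleg b hbT a (mem_sdiff.1 (hS ha)).2 hab).2
    have h4 := card_le_card h3
    have h5 := pred_card_le_card_erase (s := NA s S) (a := q)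
    omega

/-- matchings of the other shore minus the ends of the legs -/
lemma cl2_K1 {s : A → B → ℤ} {RA : Finset A} {RB : Finset B} {p ka : A} {q kb : B}
    (h : Sh2 s RA RB p ka q kb) :
    ∃ f : A → B, Set.InjOn f ((univ \ RA).erase ka : Finset A) ∧
      ∀ a ∈ (univ \ RA).erase ka, f a ∈ (univ \ RB).erase kb ∧ s a (f a) ≠ 0 := by
  have : Nonempty B := ⟨q⟩
  apply hall_on
  intro S hS
  rcases S.eq_empty_or_nonempty with rfl | hne
  · simp
  · have h1 : S ≠ univ := by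
      rintro rfl
      exact (mem_sdiff.1 (mem_erase.1 (hS (mem_univ p))).2).2 h.hp
    have h2 := h.hallA S hne h1
    have h3 : (NA s S).erase kb ⊆ NA s S ∩ (univ \ RB).erase kb := by
      intro b hb
      rw [mem_erase] at hb
      rw [mem_inter, mem_erase, mem_sdiff]
      refine ⟨hb.2, hb.1, mem_univ _, fun hbT => ?_⟩
      obtain ⟨a, ha, hab⟩ := mem_NA.1 hb.2
      have h4 := mem_erase.1 (hS ha)
      exact h4.1 (h.colleg b hbT a (mem_sdiff.1 h4.2).2 hab).1
    have h4 := card_le_card h3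
    have h5 := pred_card_le_card_erase (s := NA s S) (a := kb)
    omega

/-- extension of a perfect matching of the closing that does not use the new edge -/
lemma cl2_ext0 {s : A → B → ℤ} {RA : Finset A} {RB : Finset B} {p ka : A} {q kb : B}
    (h : Sh2 s RA RB p ka q kb) {ε : ℤ} (hε : ε = 1 ∨ ε = -1) {N : A → B}
    (hN : Set.InjOn N (univ \ RA : Finset A) ∧ ∀ a ∈ univ \ RA, N a ∈ univ \ RB ∧ s a (N a) ≠ 0)
    (σ : {a : A // a ∈ RA} ≃ {b : B // b ∈ RB}) (hσ : IsPM (cl2 s RA RB p q ε) σ)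
    (hcl : σ ⟨p, h.hp⟩ ≠ ⟨q, h.hq⟩) :
    ∃ σ' : A ≃ B, IsPM s σ' ∧ (∀ a, a ∉ RA → σ' a = N a) ∧ ∀ a : {a : A // a ∈ RA}, σ' a.1 = (σ a).1 := by
  classical
  obtain ⟨f, hf⟩ : ∃ f : A → B, ∀ a, f a = if ha : a ∈ RA then (σ ⟨a, ha⟩).1 else N a := ⟨_, fun _ => rfl⟩
  have f1 : ∀ a : {a : A // a ∈ RA}, f a.1 = (σ a).1 := by
    intro a
    rw [hf, dif_pos a.2]
  have f2 : ∀ a, a ∉ RA → f a = N a := by
    intro a ha
    rw [hf, dif_neg ha]
  have hin : ∀ a, a ∈ RA → f a ∈ RB := by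
    intro a ha
    have := f1 ⟨a, ha⟩
    simp only at this
    rw [this]
    exact (σ ⟨a, ha⟩).2
  have hout : ∀ a, a ∉ RA → f a ∉ RB := by
    intro a ha
    rw [f2 a ha]
    exact (mem_sdiff.1 (hN.2 a (mem_sdiff.2 ⟨mem_univ _, ha⟩)).1).2
  have hinj : Function.Injective f := by
    intro a a' e
    by_cases ha : a ∈ RA
    · by_cases ha' : a' ∈ RA
      · have e1 := f1 ⟨a, ha⟩
        have e2 := f1 ⟨a', ha'⟩
        simp only at e1 e2
        rw [e1, e2] at e
        exact congrArg Subtype.val (σ.injective (Subtype.ext e))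
      · exact absurd (e ▸ hin a ha) (hout a' ha')
    · by_cases ha' : a' ∈ RA
      · exact absurd (e ▸ hin a' ha') (hout a ha)
      · rw [f2 a ha, f2 a' ha'] at e
        exact hN.1 (by simpa using ha) (by simpa using ha') e
  have hed : ∀ a, s a (f a) ≠ 0 := by
    intro a
    by_cases ha : a ∈ RA
    · have e1 := f1 ⟨a, ha⟩
      simp only at e1
      rw [e1]
      rcases (cl2_ne hε ⟨a, ha⟩ (σ ⟨a, ha⟩)).1 (hσ ⟨a, ha⟩) with ⟨h1, h2⟩ | h1
      · exfalso
        apply hcl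
        apply Subtype.ext
        simp only at h1
        subst h1
        exact h2
      · exact h1
    · rw [f2 a ha]
      exact (hN.2 a (mem_sdiff.2 ⟨mem_univ _, ha⟩)).2
  obtain ⟨σ', h1, h2⟩ := pm_of_inj h.hc.card_eq f hinj hed
  exact ⟨σ', h1, fun a ha => by rw [h2, f2 a ha], fun a => by rw [h2, f1 a]⟩

/-- extension of a perfect matching of the closing that uses the new edge -/
lemma cl2_ext1 {s : A → B → ℤ} {RA : Finset A} {RB : Finset B} {p ka : A} {q kb : B}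
    (h : Sh2 s RA RB p ka q kb) {ε : ℤ} (hε : ε = 1 ∨ ε = -1) {N : A → B}
    (hN : Set.InjOn N ((univ \ RA).erase ka : Finset A) ∧
      ∀ a ∈ (univ \ RA).erase ka, N a ∈ (univ \ RB).erase kb ∧ s a (N a) ≠ 0)
    (σ : {a : A // a ∈ RA} ≃ {b : B // b ∈ RB}) (hσ : IsPM (cl2 s RA RB p q ε) σ)
    (hcl : σ ⟨p, h.hp⟩ = ⟨q, h.hq⟩) :
    ∃ σ' : A ≃ B, IsPM s σ' ∧ (∀ a, a ∉ RA → σ' a = if a = ka then q else N a) ∧
      ∀ a : {a : A // a ∈ RA}, σ' a.1 = if a.1 = p then kb else (σ a).1 := by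
  classical
  obtain ⟨f, hf⟩ : ∃ f : A → B, ∀ a, f a = if ha : a ∈ RA then (if a = p then kb else (σ ⟨a, ha⟩).1)
      else (if a = ka then q else N a) := ⟨_, fun _ => rfl⟩
  have f1 : ∀ a : {a : A // a ∈ RA}, f a.1 = if a.1 = p then kb else (σ a).1 := by
    intro a
    rw [hf, dif_pos a.2]
  have f2 : ∀ a, a ∉ RA → f a = if a = ka then q else N a := by
    intro a ha
    rw [hf, dif_neg ha]
  have hin : ∀ a, a ∈ RA → f a = kb ∨ (f a ∈ RB ∧ f a ≠ q) := by
    intro a ha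
    have h1 := f1 ⟨a, ha⟩
    simp only at h1
    by_cases hap : a = p
    · rw [if_pos hap] at h1
      exact Or.inl h1
    · rw [if_neg hap] at h1
      rw [h1]
      refine Or.inr ⟨(σ ⟨a, ha⟩).2, fun e => hap ?_⟩
      have h2 : σ ⟨a, ha⟩ = σ ⟨p, h.hp⟩ := by rw [hcl]; exact Subtype.ext e
      exact congrArg Subtype.val (σ.injective h2)
  have hout : ∀ a, a ∉ RA → f a = q ∨ (f a ∉ RB ∧ f a ≠ kb) := by
    intro a ha
    rw [f2 a ha]
    split_ifs with h1
    · exact Or.inl rfl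
    · have h2 := (hN.2 a (mem_erase.2 ⟨h1, mem_sdiff.2 ⟨mem_univ _, ha⟩⟩)).1
      rw [mem_erase, mem_sdiff] at h2
      exact Or.inr ⟨h2.2.2, h2.1⟩
  have hio : ∀ a, a ∈ RA → ∀ a', a' ∉ RA → f a ≠ f a' := by
    intro a ha a' ha' e
    have h1 := hin a ha
    have h2 := hout a' ha'
    rw [← e] at h2
    rcases h1 with h1 | h1
    · rcases h2 with h2 | h2
      · exact h.hkb (by rw [← h1, h2]; exact h.hq)
      · exact h2.2 h1
    · rcases h2 with h2 | h2
      · exact h1.2 h2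
      · exact h2.1 h1.1
  have hinj : Function.Injective f := by
    intro a a' e
    by_cases ha : a ∈ RA
    · by_cases ha' : a' ∈ RA
      · have e1 := f1 ⟨a, ha⟩
        have e2 := f1 ⟨a', ha'⟩
        simp only at e1 e2
        rw [e1, e2] at e
        by_cases hap : a = p
        · by_cases hap' : a' = p
          · rw [hap, hap']
          · rw [if_pos hap, if_neg hap'] at e
            exact absurd (σ ⟨a', ha'⟩).2 (by rw [← e]; exact h.hkb)
        · by_cases hap' : a' = p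
          · rw [if_neg hap, if_pos hap'] at e
            exact absurd (σ ⟨a, ha⟩).2 (by rw [e]; exact h.hkb)
          · rw [if_neg hap, if_neg hap'] at e
            exact congrArg Subtype.val (σ.injective (Subtype.ext e))
      · exact absurd e (hio a ha a' ha')
    · by_cases ha' : a' ∈ RA
      · exact absurd e.symm (hio a' ha' a ha)
      · have hNq : ∀ x, x ∉ RA → x ≠ ka → N x ≠ q := by
          intro x hx hxk hxq
          have h1 := (hN.2 x (mem_erase.2 ⟨hxk, mem_sdiff.2 ⟨mem_univ _, hx⟩⟩)).1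
          rw [mem_erase, mem_sdiff, hxq] at h1
          exact h1.2.2 h.hq
        rw [f2 a ha, f2 a' ha'] at e
        by_cases hak : a = ka
        · by_cases hak' : a' = ka
          · rw [hak, hak']
          · rw [if_pos hak, if_neg hak'] at e
            exact absurd e.symm (hNq a' ha' hak')
        · by_cases hak' : a' = ka
          · rw [if_neg hak, if_pos hak'] at e
            exact absurd e (hNq a ha hak)
          · rw [if_neg hak, if_neg hak'] at e
            exact hN.1 (mem_coe.2 (mem_erase.2 ⟨hak, mem_sdiff.2 ⟨mem_univ _, ha⟩⟩))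
              (mem_coe.2 (mem_erase.2 ⟨hak', mem_sdiff.2 ⟨mem_univ _, ha'⟩⟩)) e
  have hed : ∀ a, s a (f a) ≠ 0 := by
    intro a
    by_cases ha : a ∈ RA
    · have e1 := f1 ⟨a, ha⟩
      simp only at e1
      rw [e1]
      split_ifs with hap
      · rw [hap]; exact h.ep
      · rcases (cl2_ne hε ⟨a, ha⟩ (σ ⟨a, ha⟩)).1 (hσ ⟨a, ha⟩) with ⟨h1, h2⟩ | h1
        · exact absurd h1 hap
        · exact h1
    · rw [f2 a ha]
      split_ifs with hak
      · rw [hak]; exact h.eq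
      · exact (hN.2 a (mem_erase.2 ⟨hak, mem_sdiff.2 ⟨mem_univ _, ha⟩⟩)).2
  obtain ⟨σ', h1, h2⟩ := pm_of_inj h.hc.card_eq f hinj hed
  exact ⟨σ', h1, fun a ha => by rw [h2, f2 a ha], fun a => by rw [h2, f1 a]⟩

lemma cl2_sign {s : A → B → ℤ} {RA : Finset A} {RB : Finset B} {p ka : A} {q kb : B}
    (h : Sh2 s RA RB p ka q kb) {ε : ℤ} (hε : ε = 1 ∨ ε = -1) :
    ∃ δ : Bool → ℤˣ, ∀ σ τ : {a : A // a ∈ RA} ≃ {b : B // b ∈ RB},
      IsPM (cl2 s RA RB p q ε) σ → IsPM (cl2 s RA RB p q ε) τ →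
      Equiv.Perm.sign (σ.trans τ.symm) = δ (decide (σ ⟨p, h.hp⟩ = ⟨q, h.hq⟩)) *
        δ (decide (τ ⟨p, h.hp⟩ = ⟨q, h.hq⟩)) := by
  classical
  obtain ⟨N0, hN0⟩ := cl2_K0 h
  obtain ⟨N1, hN1⟩ := cl2_K1 h
  apply App_class (fun σ => IsPM (cl2 s RA RB p q ε) σ)
    (fun σ => decide (σ (⟨p, h.hp⟩ : {a : A // a ∈ RA}) = (⟨q, h.hq⟩ : {b : B // b ∈ RB})))
  intro σ τ hσ hτ hcl
  simp only [decide_eq_decide] at hcl
  by_cases hcs : σ ⟨p, h.hp⟩ = ⟨q, h.hq⟩
  · obtain ⟨σ', h1, h2, h3⟩ := cl2_ext1 h hε hN1 σ hσ hcs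
    obtain ⟨τ', h4, h5, h6⟩ := cl2_ext1 h hε hN1 τ hτ (hcl.1 hcs)
    rw [← App_sign_ext RA σ τ σ' τ']
    · exact App_sign_of_sameSign h.hc h.pos h.ss h1 h4
    · intro a ha
      rw [h2 a ha, h5 a ha]
    · intro a a' e
      rw [h3, h6, e]
      have h7 : a.1 = p ↔ a'.1 = p := by
        constructor
        · intro h8
          have h9 : a = ⟨p, h.hp⟩ := Subtype.ext h8
          have h10 : τ a' = τ ⟨p, h.hp⟩ := by rw [← e, h9, hcs, hcl.1 hcs]
          rw [τ.injective h10]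
        · intro h8
          have h9 : a' = ⟨p, h.hp⟩ := Subtype.ext h8
          have h10 : σ a = σ ⟨p, h.hp⟩ := by rw [e, h9, hcs, hcl.1 hcs]
          rw [σ.injective h10]
      by_cases h8 : a.1 = p
      · rw [if_pos h8, if_pos (h7.1 h8)]
      · rw [if_neg h8, if_neg (fun h9 => h8 (h7.2 h9))]
  · obtain ⟨σ', h1, h2, h3⟩ := cl2_ext0 h hε hN0 σ hσ hcs
    obtain ⟨τ', h4, h5, h6⟩ := cl2_ext0 h hε hN0 τ hτ (fun h7 => hcs (hcl.2 h7))
    rw [← App_sign_ext RA σ τ σ' τ']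
    · exact App_sign_of_sameSign h.hc h.pos h.ss h1 h4
    · intro a ha
      rw [h2 a ha, h5 a ha]
    · intro a a' e
      rw [h3, h6, e]

lemma cl2_prod {s : A → B → ℤ} {RA : Finset A} {RB : Finset B} {p ka : A} {q kb : B}
    (h : Sh2 s RA RB p ka q kb) {ε : ℤ}
    (σ : {a : A // a ∈ RA} ≃ {b : B // b ∈ RB}) (hσ : IsPM (cl2 s RA RB p q ε) σ) :
    ∏ a, cl2 s RA RB p q ε a (σ a) = if σ ⟨p, h.hp⟩ = ⟨q, h.hq⟩ then ε else 1 := by
  have hone : ∀ a, ¬ (a.1 = p ∧ (σ a).1 = q) → cl2 s RA RB p q ε a (σ a) = 1 := by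
    intro a ha
    have h1 := hσ a
    unfold cl2 at h1 ⊢
    rw [if_neg ha] at h1 ⊢
    rcases h.hc.val a.1 (σ a).1 with h3 | h3 | h3
    · exact absurd h3 h1
    · exact h3
    · exact absurd h3 (h.pos _ _)
  rw [prod_eq_single (⟨p, h.hp⟩ : {a : A // a ∈ RA})]
  · split_ifs with h1
    · rw [h1]
      unfold cl2
      rw [if_pos ⟨rfl, rfl⟩]
    · apply hone
      rintro ⟨-, h2⟩
      exact h1 (Subtype.ext h2)
  · intro a _ ha
    apply hone
    rintro ⟨h1, -⟩
    exact ha (Subtype.ext h1)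
  · intro h1
    exact absurd (mem_univ _) h1

lemma cl2_pm {s : A → B → ℤ} {RA : Finset A} {RB : Finset B} {p : A} {q : B} {ε ε' : ℤ}
    (hε : ε = 1 ∨ ε = -1) (hε' : ε' = 1 ∨ ε' = -1) (σ : {a : A // a ∈ RA} ≃ {b : B // b ∈ RB})
    (hσ : IsPM (cl2 s RA RB p q ε) σ) : IsPM (cl2 s RA RB p q ε') σ :=
  fun a => (cl2_ne hε' a (σ a)).2 ((cl2_ne hε a (σ a)).1 (hσ a))

/-- the closing of a minimal shore of type `(1,1)` is the Fano plane -/
theorem close2 (hP : ∀ n, P n) {s : A → B → ℤ} {RA : Finset A} {RB : Finset B} {p ka : A} {q kb : B}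
    (h : Sh2 s RA RB p ka q kb) (hss : SameSign (tr s))
    (hallB : ∀ T : Finset B, T.Nonempty → T ≠ univ → T.card + 1 ≤ (NB s T).card) :
    ∃ ε : ℤ, (ε = 1 ∨ ε = -1) ∧ Cubic (cl2 s RA RB p q ε) ∧ Fano (cl2 s RA RB p q ε) := by
  classical
  obtain ⟨δ, hδ⟩ := cl2_sign h (ε := 1) (Or.inl rfl)
  obtain ⟨ε, hε⟩ : ∃ ε : ℤˣ, ε = δ true * δ false := ⟨_, rfl⟩
  have hu : (ε : ℤ) = 1 ∨ (ε : ℤ) = -1 := by
    rcases Int.units_eq_one_or ε with h3 | h3
    · left; rw [h3]; rfl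
    · right; rw [h3]; rfl
  have hcub := cl2_cubic h hss hallB hu
  have hbr := cl2_brace h hu
  have hsame : SameSign (cl2 s RA RB p q ε) := by
    refine ⟨hcub.exists_pm, fun σ τ hσ hτ => ?_⟩
    have h3 := hδ σ τ (cl2_pm hu (Or.inl rfl) σ hσ) (cl2_pm hu (Or.inl rfl) τ hτ)
    unfold relSign
    rw [h3, prod_mul_distrib, cl2_prod h σ hσ, cl2_prod h τ hτ]
    have h4 : ∀ x y : Bool, ((δ x * δ y : ℤˣ) : ℤ) * ((if x = true then (ε : ℤ) else 1) *
        (if y = true then (ε : ℤ) else 1)) = 1 := by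
      intro x y
      rw [hε]
      rcases Int.units_eq_one_or (δ true) with h5 | h5 <;>
      rcases Int.units_eq_one_or (δ false) with h6 | h6 <;>
      cases x <;> cases y <;> simp [h5, h6]
    have h5 := h4 (decide (σ ⟨p, h.hp⟩ = ⟨q, h.hq⟩)) (decide (τ ⟨p, h.hp⟩ = ⟨q, h.hq⟩))
    simp only [decide_eq_true_eq] at h5
    exact h5
  have hsns : SNS (cl2 s RA RB p q ε) := sns_of_sameSign hsame
  have hp := hP _ _ _ _ rfl hcub hbr hsns
  have hle : (neg (cl2 s RA RB p q ε)).card ≤ 1 := by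
    have hsub : neg (cl2 s RA RB p q ε) ⊆ {((⟨p, h.hp⟩ : {a : A // a ∈ RA}), (⟨q, h.hq⟩ : {b : B // b ∈ RB}))} := by
      rintro ⟨a, b⟩ hab
      rw [mem_neg] at hab
      simp only [cl2] at hab
      rw [mem_singleton]
      by_cases h1 : a.1 = p ∧ b.1 = q
      · exact Prod.ext (Subtype.ext h1.1) (Subtype.ext h1.2)
      · rw [if_neg h1] at hab
        exact absurd hab (h.pos _ _)
    exact (card_le_card hsub).trans (by rw [card_singleton])
  have h0 : neg (cl2 s RA RB p q ε) = ∅ := by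
    rw [← card_eq_zero]
    have := hp.1
    omega
  exact ⟨ε, hu, hcub, hp.2.1 h0⟩

end MCC
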