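import Pool.Agent.Lib_MP_cb5629.App1
import Pool.Agent.Lib_MP_cb5629.App2

/-! Section 5 of the paper text: every cubic bipartite graph with a strong 5-colouring of `B` has a 2-colouring. -/

set_option linter.unusedSectionVars false

namespace MCC

open Finset

variable {A B : Type} [Fintype A] [Fintype B] [DecidableEq A] [DecidableEq B]

/-- a strong colouring of the columns with five colours -/
def Strong5 (s : A → B → ℤ) : Prop :=
  ∃ c : B → Fin 5, ∀ a b b', s a b ≠ 0 → s a b' ≠ 0 → b ≠ b' → c b ≠ c b'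

/-- a weak 2-colouring of the columns -/
def Two (s : A → B → ℤ) : Prop :=
  ∃ x : B → Bool, ∀ a, ∀ v : Bool, ∃ b, s a b ≠ 0 ∧ x b = v

/-- the induction hypothesis -/
def AppIH (n : ℕ) : Prop :=
  ∀ (A B : Type) [Fintype A] [Fintype B] [DecidableEq A] [DecidableEq B] (s : A → B → ℤ),
    Fintype.card A < n → Cubic s → (∀ a b, s a b ≠ -1) → Strong5 s → Two s

/-- the columns of a closed part can be coloured -/
lemma App_part {n : ℕ} (ih : AppIH n) {s : A → B → ℤ} (hc : Cubic s)
    (hpos : ∀ a b, s a b ≠ -1) (h5 : Strong5 s) (RA : Finset A) (RB : Finset B)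
    (hcl : ∀ a b, s a b ≠ 0 → (a ∈ RA ↔ b ∈ RB)) (hlt : RA.card < n) :
    ∃ x : B → Bool, ∀ a ∈ RA, ∀ v : Bool, ∃ b, s a b ≠ 0 ∧ x b = v := by
  classical
  obtain ⟨c, hcc⟩ := h5
  obtain ⟨x, hx⟩ := ih {a // a ∈ RA} {b // b ∈ RB} (fun a b => s a.1 b.1) (by rw [Fintype.card_coe]; exact hlt)
    ⟨fun a b => hc.val a.1 b.1, fun a => by
      have h1 : nbA s a.1 ∩ RB = nbA s a.1 := inter_eq_left.2 (fun b hb => (hcl a.1 b (mem_nbA.1 hb)).1 a.2)
      have h2 := App_card_inter s a.1 RB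
      rw [h1, hc.row] at h2
      rw [h2, nbA, card_filter, ← sum_coe_sort RB], fun b => by
      have h1 : nbB s b.1 ∩ RA = nbB s b.1 := inter_eq_left.2 (fun a ha => (hcl a b.1 (mem_nbB.1 ha)).2 b.2)
      have h2 := App_card_inter (tr s) b.1 RA
      rw [nbA_tr, h1, hc.col] at h2
      rw [h2, nbB, card_filter, ← sum_coe_sort RA]; rfl⟩
    (fun a b => hpos a.1 b.1)
    ⟨fun b => c b.1, fun a b b' h1 h2 h3 => hcc a.1 b.1 b'.1 h1 h2 (fun e => h3 (Subtype.ext e))⟩
  refine ⟨fun b => if hb : b ∈ RB then x ⟨b, hb⟩ else true, fun a ha v => ?_⟩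
  obtain ⟨b, hb, hxb⟩ := hx ⟨a, ha⟩ v
  refine ⟨b.1, hb, ?_⟩
  simp only [b.2, dif_pos, hxb]

lemma App_hallB {n : ℕ} (ih : AppIH n) {s : A → B → ℤ} (hn : Fintype.card A = n) (hc : Cubic s)
    (hpos : ∀ a b, s a b ≠ -1) (h5 : Strong5 s) (hno : ¬ Two s) (T : Finset B) (hT : T.Nonempty)
    (hT' : T ≠ univ) : T.card + 1 ≤ (NB s T).card := by
  classical
  by_contra hlt
  push Not at hlt
  have h1 := App_sum_sdiff s hc (NB s T) T
  have h2 : ∑ b ∈ T, (nbB s b ∩ NB s T).card = 3 * T.card := by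
    rw [sum_congr rfl (g := fun _ => 3), sum_const, smul_eq_mul, mul_comm]
    intro b hb
    rw [inter_eq_left.2, hc.col b]
    intro a ha
    exact mem_NB.2 ⟨b, hb, mem_nbB.1 ha⟩
  rw [App_double, h2] at h1
  have h3 : ∑ a ∈ NB s T, (nbA s a \ T).card = 0 := by omega
  have h4 : ∀ a ∈ NB s T, nbA s a ⊆ T := by
    intro a ha
    have := sum_eq_zero_iff.1 h3 a ha
    rw [card_eq_zero, sdiff_eq_empty_iff_subset] at this
    exact this
  have hcl : ∀ a b, s a b ≠ 0 → (a ∈ NB s T ↔ b ∈ T) := by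
    intro a b hab
    exact ⟨fun ha => h4 a ha (mem_nbA.2 hab), fun hb => mem_NB.2 ⟨b, hb, hab⟩⟩
  have hTlt : T.card < Fintype.card B := by
    rw [← card_univ]
    exact card_lt_card (ssubset_univ_iff.2 hT')
  have hcard := hc.card_eq
  have hne : 0 < (NB s T).card := by
    rw [card_pos]
    obtain ⟨b, hb⟩ := hT
    have h5 : (nbB s b).Nonempty := by rw [← card_pos, hc.col b]; norm_num
    obtain ⟨a, ha⟩ := h5
    exact ⟨a, mem_NB.2 ⟨b, hb, mem_nbB.1 ha⟩⟩
  obtain ⟨x1, hx1⟩ := App_part ih hc hpos h5 (NB s T) T hcl (by omega)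
  obtain ⟨x2, hx2⟩ := App_part ih hc hpos h5 (univ \ NB s T) (univ \ T)
    (fun a b hab => by
      rw [mem_sdiff, mem_sdiff]
      simp only [mem_univ, true_and, hcl a b hab]) (by
      rw [card_sdiff_of_subset (subset_univ _), card_univ]; omega)
  apply hno
  refine ⟨fun b => if b ∈ T then x1 b else x2 b, fun a v => ?_⟩
  by_cases ha : a ∈ NB s T
  · obtain ⟨b, hb, hxb⟩ := hx1 a ha v
    refine ⟨b, hb, ?_⟩
    simp only [(hcl a b hb).1 ha, if_true, hxb]
  · obtain ⟨b, hb, hxb⟩ := hx2 a (mem_sdiff.2 ⟨mem_univ _, ha⟩) v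
    refine ⟨b, hb, ?_⟩
    have hbT : b ∉ T := fun h6 => ha ((hcl a b hb).2 h6)
    simp only [hbT, if_false, hxb]

lemma App_hallA {s : A → B → ℤ} (hc : Cubic s)
    (hB : ∀ T : Finset B, T.Nonempty → T ≠ univ → T.card + 1 ≤ (NB s T).card)
    (S : Finset A) (hS : S.Nonempty) (hS' : S ≠ univ) : S.card + 1 ≤ (NA s S).card := by
  classical
  by_contra hlt
  push Not at hlt
  have hcard := hc.card_eq
  have hSlt : S.card < Fintype.card A := by
    rw [← card_univ]
    exact card_lt_card (ssubset_univ_iff.2 hS')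
  have hne : 0 < (NA s S).card := by
    rw [card_pos]
    obtain ⟨a, ha⟩ := hS
    have h5 : (nbA s a).Nonempty := by rw [← card_pos, hc.row a]; norm_num
    obtain ⟨b, hb⟩ := h5
    exact ⟨b, mem_NA.2 ⟨a, ha, mem_nbA.1 hb⟩⟩
  have h1 : (univ \ NA s S).card = Fintype.card B - (NA s S).card := by
    rw [card_sdiff_of_subset (subset_univ _), card_univ]
  have h2 : NB s (univ \ NA s S) ⊆ univ \ S := by
    intro a ha
    obtain ⟨b, hb, hab⟩ := mem_NB.1 ha
    refine mem_sdiff.2 ⟨mem_univ _, fun haS => (mem_sdiff.1 hb).2 (mem_NA.2 ⟨a, haS, hab⟩)⟩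
  have h3 := card_le_card h2
  rw [card_sdiff_of_subset (subset_univ _), card_univ] at h3
  have h4 := hB (univ \ NA s S) (by rw [← card_pos]; omega) (by
    intro e
    rw [e, card_univ] at h1
    omega)
  omega

/-- a graph without 2-colouring is sign-nonsingular -/
lemma App_sns {s : A → B → ℤ} (hc : Cubic s) (hpos : ∀ a b, s a b ≠ -1)
    (hB : ∀ T : Finset B, T.Nonempty → T ≠ univ → T.card + 1 ≤ (NB s T).card) (hno : ¬ Two s) : SNS s := by
  classical
  apply sns_of_no_pm1 hc.card_eq hB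
  intro x hx
  by_contra hcon
  push Not at hcon
  have h1 : ∀ a b, s a b ≠ 0 → s a b = 1 := by
    intro a b hab
    rcases hc.val a b with h | h | h
    · exact absurd h hab
    · exact h
    · exact absurd h (hpos a b)
  apply hno
  refine ⟨fun b => decide (0 < x b), fun a v => ?_⟩
  have h2 : (nbA s a).Nonempty := by rw [← card_pos, hc.row a]; norm_num
  obtain ⟨b0, hb0⟩ := h2
  rw [mem_nbA] at hb0
  rcases hcon a with h3 | ⟨⟨b, hb⟩, b', hb'⟩
  · exfalso
    have h4 := h3 b0
    rw [h1 a b0 hb0] at h4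
    rcases hx b0 with h5 | h5 <;> rw [h5] at h4 <;> norm_num at h4
  · rcases v with _ | _
    · have h4 : s a b' ≠ 0 := by
        intro e
        rw [e] at hb'
        norm_num at hb'
      refine ⟨b', h4, ?_⟩
      rw [h1 a b' h4, Int.cast_one, one_mul] at hb'
      exact decide_eq_false (not_lt.2 hb'.le)
    · have h4 : s a b ≠ 0 := by
        intro e
        rw [e] at hb
        norm_num at hb
      refine ⟨b, h4, ?_⟩
      rw [h1 a b h4, Int.cast_one, one_mul] at hb
      exact decide_eq_true hb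

/-- a shore of type `(1,1)` with `m` rows -/
def Bad11 (s : A → B → ℤ) (m : ℕ) : Prop :=
  ∃ (RA : Finset A) (RB : Finset B), RA.card = m ∧ RB.card = m ∧ 1 ≤ m ∧ ∑ a ∈ RA, (nbA s a ∩ RB).card + 1 = 3 * m

/-- a shore of type `(0,3)` with `m` rows -/
def Bad03 (s : A → B → ℤ) (m : ℕ) : Prop :=
  ∃ S : Finset A, S.Nonempty ∧ S.card = m ∧ m + 2 ≤ Fintype.card A ∧ (NA s S).card = m + 1

lemma Bad11.tr {s : A → B → ℤ} {m : ℕ} (h : Bad11 (tr s) m) : Bad11 s m := by
  obtain ⟨RB, RA, h1, h2, h3, h4⟩ := h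
  refine ⟨RA, RB, h2, h1, h3, ?_⟩
  rw [App_double]
  exact h4

/-- no double leg in a minimal shore of type `(3,0)` -/
lemma App_leg {s : A → B → ℤ} (hc : Cubic s) {T : Finset B} (hT : T.Nonempty) (hcard : (NB s T).card = T.card + 1)
    (hno : ¬ Bad11 s T.card) : ∀ a ∈ NB s T, (nbA s a \ T).card ≤ 1 := by
  classical
  intro a ha
  by_contra hlt
  push Not at hlt
  have h1 := App_sdiff_card s hc a T
  have h2 : 0 < (nbA s a ∩ T).card := by
    rw [card_pos]
    obtain ⟨b, hb, hab⟩ := mem_NB.1 ha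
    exact ⟨b, mem_inter.2 ⟨mem_nbA.2 hab, hb⟩⟩
  have h3 : ∑ b ∈ T, (nbB s b ∩ NB s T).card = 3 * T.card := by
    rw [sum_congr rfl (g := fun _ => 3), sum_const, smul_eq_mul, mul_comm]
    intro b hb
    rw [inter_eq_left.2, hc.col b]
    intro a ha
    exact mem_NB.2 ⟨b, hb, mem_nbB.1 ha⟩
  rw [← App_double, ← add_sum_erase _ _ ha] at h3
  apply hno
  refine ⟨(NB s T).erase a, T, by rw [card_erase_of_mem ha]; omega, rfl, card_pos.2 hT, ?_⟩
  omega

/-- the data of a minimal counterexample -/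
structure Cex (n m : ℕ) (s : A → B → ℤ) : Prop where
  ih : AppIH n
  hn : Fintype.card A = n
  hc : Cubic s
  pos : ∀ a b, s a b ≠ -1
  hallA : ∀ S : Finset A, S.Nonempty → S ≠ univ → S.card + 1 ≤ (NA s S).card
  hallB : ∀ T : Finset B, T.Nonempty → T ≠ univ → T.card + 1 ≤ (NB s T).card
  ss : SameSign s
  sst : SameSign (tr s)
  mlt : m + 1 ≤ n
  no03 : ∀ m' < m, ¬ Bad03 s m'
  no30 : ∀ m' < m, ¬ Bad03 (tr s) m'
  no11 : ∀ m' < m, ¬ Bad11 s m'

lemma Cex.minA {n m : ℕ} {s : A → B → ℤ} (h : Cex n m s) (S : Finset A) (hS : S.Nonempty) (hlt : S.card < m) :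
    S.card + 2 ≤ (NA s S).card := by
  have h1 := h.hn
  have h2 := h.mlt
  have h3 := h.hallA S hS (by
    rintro rfl
    rw [card_univ] at hlt
    omega)
  by_contra hcon
  exact h.no03 S.card hlt ⟨S, hS, rfl, by omega, by omega⟩

lemma Cex.minB {n m : ℕ} {s : A → B → ℤ} (h : Cex n m s) (T : Finset B) (hT : T.Nonempty) (hlt : T.card < m) :
    T.card + 2 ≤ (NB s T).card := by
  have h1 := h.hn
  have h2 := h.mlt
  have h0 := h.hc.card_eq
  have h3 := h.hallB T hT (by
    rintro rfl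
    rw [card_univ] at hlt
    omega)
  by_contra hcon
  exact h.no30 T.card hlt ⟨T, hT, rfl, by omega, by rw [NA_tr]; omega⟩

/-- more than five pairwise collinear points are impossible -/
lemma App_pigeon {s : A → B → ℤ} (h5 : Strong5 s) (T : Finset B)
    (h : ∀ b ∈ T, ∀ b' ∈ T, b ≠ b' → ∃ a, s a b ≠ 0 ∧ s a b' ≠ 0) : T.card ≤ 5 := by
  obtain ⟨c, hc⟩ := h5
  have h1 : T.card ≤ (univ : Finset (Fin 5)).card := by
    apply card_le_card_of_injOn c (fun _ _ => mem_coe.2 (mem_univ _))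
    intro b hb b' hb' e
    by_contra hne
    obtain ⟨a, h2, h3⟩ := h b hb b' hb' hne
    exact hc a b b' h2 h3 hne e
  simpa using h1

lemma App_case11 (hP : ∀ n, P n) {n m : ℕ} {s : A → B → ℤ} (h : Cex n m s) (h5 : Strong5 s)
    (hb : Bad11 s m) : False := by
  classical
  obtain ⟨RA, RB, hRA, hRB, hm, hsum⟩ := hb
  have hlegA := App_sum_sdiff s h.hc RA RB
  have hlegB := App_sum_sdiff (tr s) h.hc.tr RB RA
  rw [App_double] at hlegB
  simp only [nbA_tr, nbB_tr] at hlegB
  obtain ⟨p, hp, hp1, hp0⟩ := App_sum_one (R := RA) (f := fun a => (nbA s a \ RB).card) (by omega)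
  obtain ⟨q, hq, hq1, hq0⟩ := App_sum_one (R := RB) (f := fun b => (nbB s b \ RA).card) (by omega)
  obtain ⟨kb, hkb⟩ := card_eq_one.1 hp1
  obtain ⟨ka, hka⟩ := card_eq_one.1 hq1
  have hkb' : kb ∈ nbA s p \ RB := by rw [hkb]; exact mem_singleton_self _
  have hka' : ka ∈ nbB s q \ RA := by rw [hka]; exact mem_singleton_self _
  rw [mem_sdiff, mem_nbA] at hkb'
  rw [mem_sdiff, mem_nbB] at hka'
  have hcp := App_sdiff_card s h.hc p RB
  have hcq := App_sdiff_card (tr s) h.hc.tr q RA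
  rw [nbA_tr] at hcq
  have hp1' : (nbA s p \ RB).card = 1 := hp1
  have hq1' : (nbB s q \ RA).card = 1 := hq1
  have hnadj : s p q = 0 := by
    by_contra hpq
    have h2 : (nbA s p ∩ RB).card ≤ RB.card := card_le_card inter_subset_right
    have e1 := add_sum_erase RA (fun a => (nbA s a ∩ RB).card) hp
    have e2 := add_sum_erase RB (fun b => (nbB s b ∩ RA.erase p).card) hq
    rw [← App_double, ← App_double] at e2
    have e3 : (nbB s q ∩ RA.erase p).card + 1 = (nbB s q ∩ RA).card := by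
      have : nbB s q ∩ RA.erase p = (nbB s q ∩ RA).erase p := by
        ext a
        simp only [mem_inter, mem_erase]
        tauto
      rw [this, card_erase_of_mem (mem_inter.2 ⟨mem_nbB.2 hpq, hp⟩)]
      have : 0 < (nbB s q ∩ RA).card := card_pos.2 ⟨p, mem_inter.2 ⟨mem_nbB.2 hpq, hp⟩⟩
      omega
    apply h.no11 (m - 1) (by omega)
    refine ⟨RA.erase p, RB.erase q, by rw [card_erase_of_mem hp]; omega, by rw [card_erase_of_mem hq]; omega,
      by omega, ?_⟩
    omega
  have hsh : Sh2 s RA RB p ka q kb := by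
    refine ⟨h.hc, h.pos, h.ss, h.hallA, by omega, hp, hq, hka'.2, hkb'.2, hkb'.1, hka'.1, ?_, ?_, ?_, ?_, hnadj⟩
    · intro a ha b hb hab
      have hmem : b ∈ nbA s a \ RB := mem_sdiff.2 ⟨mem_nbA.2 hab, hb⟩
      by_cases hap : a = p
      · subst hap
        rw [hkb, mem_singleton] at hmem
        exact ⟨rfl, hmem⟩
      · have := hp0 a ha hap
        rw [card_eq_zero] at this
        rw [this] at hmem
        simp at hmem
    · intro b hb a ha hab
      have hmem : a ∈ nbB s b \ RA := mem_sdiff.2 ⟨mem_nbB.2 hab, ha⟩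
      by_cases hbq : b = q
      · subst hbq
        rw [hka, mem_singleton] at hmem
        exact ⟨hmem, rfl⟩
      · have := hq0 b hb hbq
        rw [card_eq_zero] at this
        rw [this] at hmem
        simp at hmem
    · intro S hS hlt
      exact h.minA S hS (by omega)
    · intro T hT hlt
      exact h.minB T hT (by omega)
  obtain ⟨ε, hε, hcub, hF⟩ := close2 hP hsh h.sst h.hallB
  have h7 : RB.card = 7 := by
    have := hF.1
    rw [Fintype.card_coe] at this
    omega
  have h6 : (RB.erase q).card ≤ 5 := by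
    apply App_pigeon h5
    intro b hb b' hb' _
    rw [mem_erase] at hb hb'
    obtain ⟨a, h1, h2⟩ := (hF.tr hcub).2 ⟨b, hb.2⟩ ⟨b', hb'.2⟩
    rw [tr_apply, cl2_ne hε] at h1 h2
    refine ⟨a.1, ?_, ?_⟩
    · rcases h1 with h1 | h1
      · exact absurd h1.2 hb.1
      · exact h1
    · rcases h2 with h2 | h2
      · exact absurd h2.2 hb'.1
      · exact h2
  rw [card_erase_of_mem hq] at h6
  omega

lemma App_case30 (hP : ∀ n, P n) {n m : ℕ} {s : A → B → ℤ} (h : Cex n m s) (h5 : Strong5 s)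
    (hn11 : ¬ Bad11 s m) (hb : Bad03 (tr s) m) : False := by
  classical
  obtain ⟨T, hT, hTm, hm, hNT⟩ := hb
  rw [NA_tr] at hNT
  have hleg := App_leg h.hc hT (by omega) (by rw [hTm]; exact hn11)
  have hsh : Sh3 s T := by
    refine ⟨⟨h.hc, by omega, hleg⟩, h.pos, h.ss, h.hallA, hT, ?_, ?_⟩
    · intro S hS hlt
      exact h.minA S hS (by omega)
    · intro T hT hlt
      exact h.minB T hT (by omega)
  obtain ⟨ε, hε, hF⟩ := close3 hP hsh
  have h7 : (NB s T).card = 7 := by
    have := hF.1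
    rw [Fintype.card_coe] at this
    omega
  have h6 : T.card ≤ 5 := by
    apply App_pigeon h5
    intro b hb b' hb' _
    obtain ⟨a, h1, h2⟩ := (hF.tr (cl3_cubic hsh.toSh3b hε)).2 (some ⟨b, hb⟩) (some ⟨b', hb'⟩)
    exact ⟨a.1, h1, h2⟩
  omega

lemma App_case03 (hP : ∀ n, P n) {n m : ℕ} {s : A → B → ℤ} (h : Cex n m s) (h5 : Strong5 s)
    (hn11 : ¬ Bad11 s m) (hb : Bad03 s m) : Two s := by
  classical
  obtain ⟨S, hS, hSm, hm, hNS⟩ := hb
  have hcard := h.hc.card_eq
  have hleg := App_leg h.hc.tr hS (by rw [NB_tr]; omega) (fun h1 => hn11 (by rw [← hSm]; exact h1.tr))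
  have hsh : Sh3 (tr s) S := by
    refine ⟨⟨h.hc.tr, by rw [NB_tr]; omega, hleg⟩, fun b a => h.pos a b, h.sst, h.hallB, hS, ?_, ?_⟩
    · intro T hT hlt
      exact h.minB T hT (by omega)
    · intro S hS hlt
      exact h.minA S hS (by omega)
  obtain ⟨ε, hε, hF⟩ := close3 hP hsh
  have hcub := cl3_cubic hsh.toSh3b hε
  have hFt := hF.tr hcub
  have h7 : (NA s S).card = 7 := by
    have := hF.1
    rw [Fintype.card_coe, NB_tr] at this
    omega
  obtain ⟨c, hc⟩ := h5
  -- legs and inner points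
  obtain ⟨O, hO⟩ : ∃ O : Finset B, O = (NA s S).filter fun b => nbB s b ⊆ S := ⟨_, rfl⟩
  have hO4 : O.card = 4 := by
    have h1 := cl3_legs hsh.toSh3b
    rw [NB_tr] at h1
    simp only [nbA_tr] at h1
    have h2 := card_filter_add_card_filter_not (s := NA s S) (fun b => nbB s b ⊆ S)
    have h3 : ((NA s S).filter fun b => ¬ nbB s b ⊆ S).card = ∑ b ∈ NA s S, if nbB s b ⊆ S then 0 else 1 := by
      rw [card_filter]
      apply sum_congr rfl
      intro b _
      by_cases h4 : nbB s b ⊆ S <;> simp [h4]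
    have h5 : ((NA s S).filter fun b => ¬ nbB s b ⊆ S).card = 3 := h3.trans h1
    rw [h5, h7, ← hO] at h2
    omega
  have hcol : ∀ b ∈ O, ∀ b' ∈ NA s S, b ≠ b' → c b ≠ c b' := by
    intro b hb b' hb' hne
    rw [hO, mem_filter] at hb
    obtain ⟨o, h1, h2⟩ := hF.2 ⟨b, hb.1⟩ ⟨b', hb'⟩
    rcases o with _ | a
    · exact absurd hb.2 ((cl3_none_ne hε _).1 h1)
    · exact hc a.1 b b' h1 h2 hne
  have himg : (O.image c).card = 4 := by
    rw [card_image_of_injOn, hO4]
    intro b hb b' hb' e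
    by_contra hne
    exact hcol b hb b' (by rw [mem_coe, hO, mem_filter] at hb'; exact hb'.1) hne e
  have hcompl : (univ \ O.image c).card = 1 := by
    rw [card_sdiff_of_subset (subset_univ _), himg, card_univ, Fintype.card_fin]
  obtain ⟨γ, hγ⟩ := card_eq_one.1 hcompl
  have hQ : ∀ q ∈ NA s S, ¬ nbB s q ⊆ S → c q = γ := by
    intro q hq hqS
    have h1 : c q ∈ univ \ O.image c := by
      rw [mem_sdiff]
      refine ⟨mem_univ _, fun h2 => ?_⟩
      obtain ⟨b, hb, e⟩ := mem_image.1 h2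
      have hne : b ≠ q := by
        rintro rfl
        rw [hO, mem_filter] at hb
        exact hqS hb.2
      exact hcol b hb q hq hne e
    rw [hγ, mem_singleton] at h1
    exact h1
  -- the other shore
  obtain ⟨T, hT⟩ : ∃ T : Finset B, T = univ \ NA s S := ⟨_, rfl⟩
  have hTc : T.card + (m + 1) = n := by
    have h1 : T.card = Fintype.card B - (NA s S).card := by
      rw [hT, card_sdiff_of_subset (subset_univ _), card_univ]
    have := h.hn
    have h2 := card_le_univ (NA s S)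
    omega
  have hNT : NB s T = univ \ S := by
    have h2 : NB s T ⊆ univ \ S := by
      intro a ha
      obtain ⟨b, hb, hab⟩ := mem_NB.1 ha
      rw [hT, mem_sdiff] at hb
      exact mem_sdiff.2 ⟨mem_univ _, fun haS => hb.2 (mem_NA.2 ⟨a, haS, hab⟩)⟩
    apply eq_of_subset_of_card_le h2
    rw [card_sdiff_of_subset (subset_univ _), card_univ, h.hn, hSm]
    have hmn := h.hn
    have h3 := h.hallB T (by rw [← card_pos]; omega) (by
      intro e
      rw [e, card_univ] at hTc
      omega)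
    omega
  have hTn : ∀ b, b ∉ T ↔ b ∈ NA s S := by
    intro b
    rw [hT, mem_sdiff]
    simp
  have hqleg : ∀ a, a ∉ S → ∀ q, q ∉ T → s a q ≠ 0 → q ∈ NA s S ∧ ¬ nbB s q ⊆ S := by
    intro a ha q hq haq
    exact ⟨(hTn q).1 hq, fun h1 => ha (h1 (mem_nbB.2 haq))⟩
  have hshT : Sh3b s T := by
    refine ⟨h.hc, ?_, ?_⟩
    · rw [hNT, card_sdiff_of_subset (subset_univ _), card_univ, h.hn, hSm]
      omega
    · intro a ha
      rw [hNT, mem_sdiff] at ha
      rw [card_le_one]
      intro b hb b' hb'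
      rw [mem_sdiff, mem_nbA] at hb hb'
      by_contra hne
      apply hc a b b' hb.1 hb'.1 hne
      rw [hQ b (hqleg a ha.2 b hb.2 hb.1).1 (hqleg a ha.2 b hb.2 hb.1).2,
        hQ b' (hqleg a ha.2 b' hb'.2 hb'.1).1 (hqleg a ha.2 b' hb'.2 hb'.1).2]
  have h1 : ∀ a : A, (fun _ : A => (1 : ℤ)) a = 1 ∨ (fun _ : A => (1 : ℤ)) a = -1 := fun a => Or.inl rfl
  have hSnn : S.card ≠ 0 := by
    have := card_pos.2 hS
    omega
  obtain ⟨x, hx⟩ := h.ih _ _ (cl3 s T fun _ => 1) (by
      rw [Fintype.card_coe, hNT, card_sdiff_of_subset (subset_univ _), card_univ, h.hn]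
      omega) (cl3_cubic hshT h1) (by
      intro a b
      rcases b with _ | b
      · rw [cl3_none]
        split_ifs <;> norm_num
      · exact h.pos a.1 b.1) (by
      refine ⟨fun b => b.elim γ (fun b => c b.1), ?_⟩
      have key : ∀ (a : {a : A // a ∈ NB s T}) (b : {b : B // b ∈ T}), cl3 s T (fun _ => 1) a none ≠ 0 →
          s a.1 b.1 ≠ 0 → c b.1 ≠ γ := by
        intro a b h2 h3
        rw [cl3_none_ne h1, not_subset] at h2
        obtain ⟨q, hq, hqT⟩ := h2
        rw [mem_nbA] at hq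
        have haS : a.1 ∉ S := (mem_sdiff.1 ((Finset.ext_iff.1 hNT a.1).1 a.2)).2
        have h4 := hqleg a.1 haS q hqT hq
        rw [← hQ q h4.1 h4.2]
        exact hc a.1 b.1 q h3 hq (fun e => hqT (e ▸ b.2))
      intro a b b' h2 h3 hne
      rcases b with _ | b
      · rcases b' with _ | b'
        · exact absurd rfl hne
        · exact (key a b' h2 h3).symm
      · rcases b' with _ | b'
        · exact key a b h3 h2
        · exact hc a.1 b.1 b'.1 h2 h3 (fun e => hne (congrArg some (Subtype.ext e))))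
  refine ⟨fun b => if hb : b ∈ T then x (some ⟨b, hb⟩) else if nbB s b ⊆ S then !(x none) else x none,
    fun a v => ?_⟩
  by_cases ha : a ∈ S
  · -- rows of `S`
    have hexQ : ∃ b, s a b ≠ 0 ∧ b ∉ T ∧ ¬ nbB s b ⊆ S := by
      obtain ⟨b, h2, h3⟩ := hFt.2 none (some ⟨a, ha⟩)
      exact ⟨b.1, h3, (hTn b.1).2 b.2, (cl3_none_ne hε b).1 h2⟩
    have hexO : ∃ b, s a b ≠ 0 ∧ b ∉ T ∧ nbB s b ⊆ S := by
      by_contra hcon
      push Not at hcon
      have h2 : 1 < (nbA s a).card := by rw [h.hc.row a]; norm_num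
      obtain ⟨b, hb, b', hb', hne⟩ := one_lt_card.1 h2
      rw [mem_nbA] at hb hb'
      have hbN : b ∈ NA s S := mem_NA.2 ⟨a, ha, hb⟩
      have hbN' : b' ∈ NA s S := mem_NA.2 ⟨a, ha, hb'⟩
      have h3 := hcon b hb ((hTn b).2 hbN)
      have h4 := hcon b' hb' ((hTn b').2 hbN')
      have h5 := Fano.uniq hcub.tr hFt (a := none) (a' := some ⟨a, ha⟩) (by simp)
        (b := ⟨b, hbN⟩) (b' := ⟨b', hbN'⟩) ((cl3_none_ne hε ⟨b, hbN⟩).2 h3) hb
        ((cl3_none_ne hε ⟨b', hbN'⟩).2 h4) hb'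
      exact hne (congrArg Subtype.val h5)
    by_cases hv : v = x none
    · obtain ⟨b, h2, h3, h4⟩ := hexQ
      refine ⟨b, h2, ?_⟩
      beta_reduce
      rw [dif_neg h3, if_neg h4, hv]
    · obtain ⟨b, h2, h3, h4⟩ := hexO
      refine ⟨b, h2, ?_⟩
      beta_reduce
      rw [dif_neg h3, if_pos h4]
      revert hv
      cases v <;> cases x none <;> simp
  · have haT : a ∈ NB s T := by rw [hNT]; exact mem_sdiff.2 ⟨mem_univ _, ha⟩
    obtain ⟨o, h2, h3⟩ := hx ⟨a, haT⟩ v
    rcases o with _ | b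
    · rw [cl3_none_ne h1, not_subset] at h2
      obtain ⟨q, hq, hqT⟩ := h2
      rw [mem_nbA] at hq
      refine ⟨q, hq, ?_⟩
      beta_reduce
      rw [dif_neg hqT, if_neg (hqleg a ha q hqT hq).2, h3]
    · refine ⟨b.1, h2, ?_⟩
      beta_reduce
      rw [dif_pos b.2]
      exact h3

theorem App_step (hP : ∀ n, P n) {n : ℕ} (ih : AppIH n) {s : A → B → ℤ} (hn : Fintype.card A = n) (hc : Cubic s)
    (hpos : ∀ a b, s a b ≠ -1) (h5 : Strong5 s) : Two s := by
  classical
  by_contra hno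
  have hB := App_hallB ih hn hc hpos h5 hno
  have hA := App_hallA hc hB
  have hs := App_sns hc hpos hB hno
  have hss := sameSign_of_sns hc.val hs hc.exists_pm
  have hst := sameSign_of_sns hc.tr.val (hs.tr hc) hc.tr.exists_pm
  have hcard := hc.card_eq
  have hneg : neg s = ∅ := by
    rw [eq_empty_iff_forall_notMem]
    rintro ⟨a, b⟩ h
    exact hpos a b (mem_neg.1 h)
  by_cases hbr : Brace s
  · have hF := (hP n A B s hn hc hbr hs).2.1 hneg
    have h1 := App_pigeon h5 univ (fun b _ b' _ _ => (hF.tr hc).2 b b')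
    rw [card_univ, ← hcard, hF.1] at h1
    omega
  · have hne : Nonempty A := by
      by_contra hcon
      rw [not_nonempty_iff] at hcon
      exact hno ⟨fun _ => true, fun a => (hcon.false a).elim⟩
    obtain ⟨a0⟩ := hne
    have h3 : 3 ≤ Fintype.card A := by
      rw [hcard, ← hc.row a0]
      exact card_le_univ _
    have hex : ∃ m, Bad03 s m := by
      by_contra hcon
      push Not at hcon
      apply hbr
      refine ⟨h3, fun S hS hS2 => ?_⟩
      have h4 := hA S hS (by
        rintro rfl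
        rw [card_univ] at hS2
        omega)
      by_contra h6
      exact hcon S.card ⟨S, hS, rfl, hS2, by omega⟩
    have hexQ : ∃ m, Bad03 s m ∨ Bad03 (tr s) m ∨ Bad11 s m := by
      obtain ⟨m, hm⟩ := hex
      exact ⟨m, Or.inl hm⟩
    obtain ⟨m, hm⟩ : ∃ m, m = Nat.find hexQ := ⟨_, rfl⟩
    have hspec := Nat.find_spec hexQ
    have hmin : ∀ m' < m, ¬ (Bad03 s m' ∨ Bad03 (tr s) m' ∨ Bad11 s m') := by
      intro m' hm'
      exact Nat.find_min hexQ (by rw [← hm]; exact hm')
    rw [← hm] at hspec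
    have hmlt : m + 1 ≤ n := by
      rcases hspec with ⟨S, _, _, h7, _⟩ | ⟨T, _, _, h7, _⟩ | ⟨RA, RB, h7, h8, h9, h10⟩
      · omega
      · omega
      · have h11 := card_le_univ RA
        by_contra hcon
        have h12 : RA = univ := eq_univ_of_card RA (by omega)
        have h13 : RB = univ := eq_univ_of_card RB (by omega)
        rw [h12, h13] at h10
        have h14 := App_sum_sdiff s hc (univ : Finset A) (univ : Finset B)
        have h15 : ∑ a : A, (nbA s a \ univ).card = 0 := by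
          apply sum_eq_zero
          intro a _
          simp
        rw [h15, card_univ] at h14
        rw [h12, card_univ] at h7
        omega
    have hcex : Cex n m s := ⟨ih, hn, hc, hpos, hA, hB, hss, hst, hmlt,
      fun m' hm' h => hmin m' hm' (Or.inl h), fun m' hm' h => hmin m' hm' (Or.inr (Or.inl h)),
      fun m' hm' h => hmin m' hm' (Or.inr (Or.inr h))⟩
    by_cases h11 : Bad11 s m
    · exact App_case11 hP hcex h5 h11
    · rcases hspec with h7 | h7 | h7
      · exact hno (App_case03 hP hcex h5 h11 h7)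
      · exact App_case30 hP hcex h5 h11 h7
      · exact h11 h7

/-- Section 5: a cubic bipartite graph with a strong 5-colouring of the columns has a 2-colouring of the columns. -/
theorem App_main (hP : ∀ n, P n) (n : ℕ) : AppIH n := by
  induction n with
  | zero =>
    intro A B _ _ _ _ s h
    omega
  | succ n ih =>
    intro A B _ _ _ _ s h hc hpos h5
    rcases Nat.lt_succ_iff_lt_or_eq.1 h with h1 | h1
    · exact ih A B s h1 hc hpos h5
    · exact App_step hP ih h1 hc hpos h5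

end MCC
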