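import Pool.Agent.Lib_MP_cb5629.Base

set_option linter.unusedSectionVars false

namespace MCC

open Finset

variable {A B : Type} [Fintype A] [Fintype B] [DecidableEq A] [DecidableEq B]

/-- positive weights with weighted sum zero -/
private theorem BL1_weights (t : B → ℝ) (h : (∀ b, t b = 0) ∨ ((∃ b, 0 < t b) ∧ ∃ b, t b < 0)) :
    ∃ w : B → ℝ, (∀ b, 0 < w b) ∧ ∑ b, w b * t b = 0 := by
  rcases h with h | ⟨⟨b1, h1⟩, ⟨b2, h2⟩⟩
  · exact ⟨fun _ => 1, fun _ => one_pos, Finset.sum_eq_zero fun b _ => by rw [h b, mul_zero]⟩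
  · obtain ⟨S, hS⟩ : ∃ S, S = ∑ b, t b := ⟨_, rfl⟩
    refine ⟨fun b => 1 + (if b = b2 then max S 0 / (-t b2) else 0) +
      (if b = b1 then max (-S) 0 / t b1 else 0), fun b => ?_, ?_⟩
    · have e1 : 0 ≤ (if b = b2 then max S 0 / (-t b2) else 0) := by
        split_ifs
        · exact div_nonneg (le_max_right _ _) (by linarith)
        · exact le_rfl
      have e2 : 0 ≤ (if b = b1 then max (-S) 0 / t b1 else 0) := by
        split_ifs
        · exact div_nonneg (le_max_right _ _) h1.le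
        · exact le_rfl
      show 0 < 1 + (if b = b2 then max S 0 / (-t b2) else 0) + (if b = b1 then max (-S) 0 / t b1 else 0)
      linarith
    · have e0 : ∑ b, (1 + (if b = b2 then max S 0 / (-t b2) else 0) +
          (if b = b1 then max (-S) 0 / t b1 else 0)) * t b =
          S + max S 0 / (-t b2) * t b2 + max (-S) 0 / t b1 * t b1 := by
        simp only [add_mul, one_mul, ite_mul, zero_mul, Finset.sum_add_distrib]
        rw [Finset.sum_ite_eq' univ b2, if_pos (mem_univ _), Finset.sum_ite_eq' univ b1,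
          if_pos (mem_univ _), hS]
      rw [e0, div_mul_cancel₀ _ h1.ne']
      have e3 : max S 0 / (-t b2) * t b2 = - max S 0 := by
        rw [div_neg, neg_mul, div_mul_cancel₀ _ h2.ne]
      rw [e3]
      rcases le_total 0 S with hs | hs
      · rw [max_eq_left hs, max_eq_right (by linarith)]
        ring
      · rw [max_eq_right hs, max_eq_left (by linarith)]
        ring

/-- Piece BL1. If all perfect matchings of `s` have the same sign (and there is one), then no nonzero vector balances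
all rows.

Proof. Let `x ≠ 0` balance all rows. Put positive weights `w a b`: in a row where all `s a b * x b = 0` put `w = 1`; otherwise let
`P > 0` be the sum of the positive and `-N < 0` the sum of the negative terms `s a b * x b`, and put `w a b = N` on the positive terms,
`P` on the negative terms, `1` on the zero terms. Then `∑ b, w a b * s a b * x b = N P - P N = 0`. Let `σ₀` be a perfect
matching and `M a a' := w a (σ₀ a') * s a (σ₀ a')` (a real `A × A` matrix). `M.mulVec (x ∘ σ₀) = 0` and `x ∘ σ₀ ≠ 0`, so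
`det M = 0` (`Matrix.exists_mulVec_eq_zero_iff`). On the other hand let `κ = ∏ a, s a (σ₀ a) ≠ 0`. In `det M = ∑ π, sign π * ∏ a, M (π a) a`
the term of `π` is `sign π * ∏ a', w a' (τ a') * s a' (τ a')` with `τ = π⁻¹.trans σ₀`; if it is nonzero then `τ` is a perfect matching,
`σ₀.trans τ.symm = π`, and `relSign s univ σ₀ τ = 1` says `sign π * κ * ∏ s a (τ a) = 1`; so `κ *` (term) `= ∏ w > 0`. Hence
`κ * det M` is a sum of nonnegative terms, and the term `π = 1` is positive (`κ^2 ∏ w > 0`). Contradiction. -/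
theorem sns_of_sameSign {s : A → B → ℤ} (h : SameSign s) : SNS s := by
  intro x hx
  by_contra hx0
  obtain ⟨⟨σ₀, hσ₀⟩, hall⟩ := h
  have hw : ∀ a, ∃ w : B → ℝ, (∀ b, 0 < w b) ∧ ∑ b, w b * ((s a b : ℝ) * x b) = 0 := fun a =>
    BL1_weights _ (hx a)
  choose w hw0 hw1 using hw
  obtain ⟨M, hM⟩ : ∃ M : Matrix A A ℝ, M = Matrix.of fun a a' => w a (σ₀ a') * (s a (σ₀ a') : ℝ) :=
    ⟨_, rfl⟩
  have hdet : M.det = 0 := by
    rw [← Matrix.exists_mulVec_eq_zero_iff]
    refine ⟨fun a => x (σ₀ a), ?_, ?_⟩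
    · intro h0
      apply hx0
      funext b
      have := congrFun h0 (σ₀.symm b)
      simpa using this
    · funext a
      rw [hM]
      show ∑ a', (w a (σ₀ a') * (s a (σ₀ a') : ℝ)) * x (σ₀ a') = 0
      rw [← hw1 a, ← Equiv.sum_comp σ₀ (fun b => w a b * ((s a b : ℝ) * x b))]
      refine Finset.sum_congr rfl fun a' _ => ?_
      ring
  -- the terms
  have hterm : ∀ π : Equiv.Perm A, (∏ a, (s a (σ₀ a) : ℝ)) *
      (((Equiv.Perm.sign π : ℤ) : ℝ) * ∏ a, M (π a) a) =
      ((relSign s univ σ₀ (π.symm.trans σ₀) : ℤ) : ℝ) * ∏ a, w a ((π.symm.trans σ₀) a) := by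
    intro π
    have e1 : ∏ a, M (π a) a = ∏ a, (w a ((π.symm.trans σ₀) a) * (s a ((π.symm.trans σ₀) a) : ℝ)) := by
      rw [← Equiv.prod_comp π (fun a => w a ((π.symm.trans σ₀) a) * (s a ((π.symm.trans σ₀) a) : ℝ))]
      refine Finset.prod_congr rfl fun a _ => ?_
      rw [hM]
      simp
    have e2 : σ₀.trans (π.symm.trans σ₀).symm = π := by
      ext a
      simp
    rw [e1, relSign, e2, Finset.prod_mul_distrib, Finset.prod_mul_distrib]
    push_cast
    ring
  have hpos : ∀ π : Equiv.Perm A, 0 ≤ (∏ a, (s a (σ₀ a) : ℝ)) *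
      (((Equiv.Perm.sign π : ℤ) : ℝ) * ∏ a, M (π a) a) := by
    intro π
    rw [hterm π]
    by_cases hp : IsPM s (π.symm.trans σ₀)
    · rw [hall _ _ hσ₀ hp]
      have : 0 < ∏ a, w a ((π.symm.trans σ₀) a) := Finset.prod_pos fun a _ => hw0 a _
      simpa using this.le
    · unfold IsPM at hp
      push Not at hp
      obtain ⟨a, ha⟩ := hp
      have : relSign s univ σ₀ (π.symm.trans σ₀) = 0 := by
        unfold relSign
        rw [Finset.prod_eq_zero (mem_univ a), mul_zero]
        rw [ha, mul_zero]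
      rw [this]
      simp
  have hone : 0 < (∏ a, (s a (σ₀ a) : ℝ)) *
      (((Equiv.Perm.sign (1 : Equiv.Perm A) : ℤ) : ℝ) * ∏ a, M ((1 : Equiv.Perm A) a) a) := by
    rw [hterm 1]
    have e3 : (1 : Equiv.Perm A).symm.trans σ₀ = σ₀ := by
      ext a
      rfl
    rw [e3, hall _ _ hσ₀ hσ₀]
    have : 0 < ∏ a, w a (σ₀ a) := Finset.prod_pos fun a _ => hw0 a _
    simpa using this
  have hsum : (∏ a, (s a (σ₀ a) : ℝ)) * M.det = ∑ π : Equiv.Perm A, (∏ a, (s a (σ₀ a) : ℝ)) *
      (((Equiv.Perm.sign π : ℤ) : ℝ) * ∏ a, M (π a) a) := by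
    rw [Matrix.det_apply', Finset.mul_sum]
  have : 0 < (∏ a, (s a (σ₀ a) : ℝ)) * M.det := by
    rw [hsum]
    exact Finset.sum_pos' (fun π _ => hpos π) ⟨1, mem_univ _, hone⟩
  rw [hdet, mul_zero] at this
  exact lt_irrefl _ this

end MCC
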