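import Pool.Agent.Lib_MP_cb5629.Defs

/-!
# Elementary facts (membership, monotonicity, cardinalities, duality)
-/

set_option linter.unusedSectionVars false

namespace MCC

open Finset

variable {A B : Type} [Fintype A] [Fintype B] [DecidableEq A] [DecidableEq B]

@[simp] lemma mem_nbA {s : A → B → ℤ} {a : A} {b : B} : b ∈ nbA s a ↔ s a b ≠ 0 := by simp [nbA]
@[simp] lemma mem_nbB {s : A → B → ℤ} {a : A} {b : B} : a ∈ nbB s b ↔ s a b ≠ 0 := by simp [nbB]
@[simp] lemma mem_NA {s : A → B → ℤ} {S : Finset A} {b : B} : b ∈ NA s S ↔ ∃ a ∈ S, s a b ≠ 0 := by simp [NA]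
@[simp] lemma mem_NB {s : A → B → ℤ} {T : Finset B} {a : A} : a ∈ NB s T ↔ ∃ b ∈ T, s a b ≠ 0 := by simp [NB]
@[simp] lemma mem_neg {s : A → B → ℤ} {p : A × B} : p ∈ neg s ↔ s p.1 p.2 = -1 := by simp [neg]
@[simp] lemma mem_squares {s : A → B → ℤ} {a : A} {b : B} {p : A × B} :
    p ∈ squares s a b ↔ p.1 ≠ a ∧ p.2 ≠ b ∧ s p.1 b ≠ 0 ∧ s a p.2 ≠ 0 ∧ s p.1 p.2 ≠ 0 := by simp [squares]
@[simp] lemma mem_aLegs {s : A → B → ℤ} {RA : Finset A} {RB : Finset B} {p : A × B} :
    p ∈ aLegs s RA RB ↔ p.1 ∈ RA ∧ p.2 ∉ RB ∧ s p.1 p.2 ≠ 0 := by simp [aLegs]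
@[simp] lemma mem_bLegs {s : A → B → ℤ} {RA : Finset A} {RB : Finset B} {p : A × B} :
    p ∈ bLegs s RA RB ↔ p.1 ∉ RA ∧ p.2 ∈ RB ∧ s p.1 p.2 ≠ 0 := by simp [bLegs]

@[simp] lemma tr_tr (s : A → B → ℤ) : tr (tr s) = s := rfl
@[simp] lemma tr_apply (s : A → B → ℤ) (a : A) (b : B) : tr s b a = s a b := rfl
@[simp] lemma nbA_tr (s : A → B → ℤ) (b : B) : nbA (tr s) b = nbB s b := rfl
@[simp] lemma nbB_tr (s : A → B → ℤ) (a : A) : nbB (tr s) a = nbA s a := rfl
@[simp] lemma NA_tr (s : A → B → ℤ) (T : Finset B) : NA (tr s) T = NB s T := rfl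
@[simp] lemma NB_tr (s : A → B → ℤ) (S : Finset A) : NB (tr s) S = NA s S := rfl

lemma NA_mono {s : A → B → ℤ} {S S' : Finset A} (h : S ⊆ S') : NA s S ⊆ NA s S' := by
  intro b hb
  rw [mem_NA] at hb ⊢
  obtain ⟨a, ha, hab⟩ := hb
  exact ⟨a, h ha, hab⟩

lemma NA_union (s : A → B → ℤ) (S S' : Finset A) : NA s (S ∪ S') = NA s S ∪ NA s S' := by
  ext b
  simp only [mem_NA, mem_union]
  constructor
  · rintro ⟨a, ha | ha, h⟩
    · exact Or.inl ⟨a, ha, h⟩
    · exact Or.inr ⟨a, ha, h⟩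
  · rintro (⟨a, ha, h⟩ | ⟨a, ha, h⟩)
    · exact ⟨a, Or.inl ha, h⟩
    · exact ⟨a, Or.inr ha, h⟩

lemma NA_insert (s : A → B → ℤ) (a : A) (S : Finset A) : NA s (insert a S) = nbA s a ∪ NA s S := by
  ext b
  simp only [mem_NA, mem_insert, mem_union, mem_nbA]
  constructor
  · rintro ⟨a', rfl | ha, h⟩
    · exact Or.inl h
    · exact Or.inr ⟨a', ha, h⟩
  · rintro (h | ⟨a', ha, h⟩)
    · exact ⟨a, Or.inl rfl, h⟩
    · exact ⟨a', Or.inr ha, h⟩

lemma NA_singleton (s : A → B → ℤ) (a : A) : NA s {a} = nbA s a := by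
  ext b; simp

lemma Cubic.tr {s : A → B → ℤ} (hc : Cubic s) : Cubic (tr s) where
  val b a := hc.val a b
  row b := hc.col b
  col a := hc.row a

/-- counting the edges from a set of rows -/
lemma Cubic.card_edges {s : A → B → ℤ} (hc : Cubic s) (S : Finset A) :
    ((univ : Finset (A × B)).filter fun p => p.1 ∈ S ∧ s p.1 p.2 ≠ 0).card = 3 * S.card := by
  classical
  rw [card_filter, Fintype.sum_prod_type]
  have : ∀ a, (∑ b, if (a, b).1 ∈ S ∧ s (a, b).1 (a, b).2 ≠ 0 then 1 else 0) = if a ∈ S then 3 else 0 := by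
    intro a
    by_cases ha : a ∈ S
    · simp only [ha, true_and, if_true]
      rw [← card_filter]
      exact hc.row a
    · simp [ha]
  rw [Finset.sum_congr rfl (fun a _ => this a), ← Finset.sum_filter]
  simp [mul_comm]

lemma Cubic.card_eq {s : A → B → ℤ} (hc : Cubic s) : Fintype.card A = Fintype.card B := by
  classical
  have h1 := hc.card_edges univ
  have h2 := hc.tr.card_edges univ
  have h3 : ((univ : Finset (A × B)).filter fun p => p.1 ∈ (univ : Finset A) ∧ s p.1 p.2 ≠ 0).card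
      = ((univ : Finset (B × A)).filter fun p => p.1 ∈ (univ : Finset B) ∧ MCC.tr s p.1 p.2 ≠ 0).card := by
    apply Finset.card_bij (fun p _ => (p.2, p.1))
    · rintro ⟨a, b⟩ h; simpa using h
    · rintro ⟨a, b⟩ _ ⟨a', b'⟩ _ h
      simp only [Prod.mk.injEq] at h ⊢
      exact ⟨h.2, h.1⟩
    · rintro ⟨b, a⟩ h; exact ⟨(a, b), by simpa using h, rfl⟩
  rw [h1, h2] at h3
  simp only [card_univ] at h3
  omega

/-- a column all of whose neighbours avoid `S` is not in `NA s S` -/
lemma not_mem_NA {s : A → B → ℤ} {S : Finset A} {b : B} : b ∉ NA s S ↔ ∀ a ∈ S, s a b = 0 := by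
  simp

/-- Dual brace property. -/
lemma Brace.tr {s : A → B → ℤ} (hc : Cubic s) (hb : Brace s) : Brace (tr s) where
  three := hc.card_eq ▸ hb.three
  hall := by
    classical
    intro T hT hT2
    by_contra hlt
    push Not at hlt
    have hcard := hc.card_eq
    set S : Finset A := univ \ NB s T with hS
    have hNT : (NB s T).card < T.card + 2 := hlt
    have hSc : S.card = Fintype.card A - (NB s T).card := by
      rw [hS, card_sdiff_of_subset (subset_univ _), card_univ]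
    have hNS : NA s S ⊆ univ \ T := by
      intro b hb
      rw [mem_NA] at hb
      obtain ⟨a, ha, hab⟩ := hb
      rw [mem_sdiff]
      refine ⟨mem_univ _, fun hbT => ?_⟩
      rw [hS, mem_sdiff] at ha
      exact ha.2 (mem_NB.2 ⟨b, hbT, hab⟩)
    have hNS' := card_le_card hNS
    rw [card_sdiff_of_subset (subset_univ _), card_univ] at hNS'
    obtain ⟨b0, hb0⟩ := hT
    have h3 : 3 ≤ (NB s T).card := by
      rw [← hc.col b0]
      apply card_le_card
      intro a ha
      exact mem_NB.2 ⟨b0, hb0, by simpa using ha⟩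
    have hSne : S.Nonempty := by
      rw [← card_pos]; omega
    have := hb.hall S hSne (by omega)
    omega

/-- In a cubic brace `|N(S)| ≥ |S| + 1` for every nonempty `S ≠ A`. -/
lemma Brace.one {s : A → B → ℤ} (hc : Cubic s) (hb : Brace s) {S : Finset A} (hS : S.Nonempty)
    (hS' : S.card < Fintype.card A) : S.card + 1 ≤ (NA s S).card := by
  classical
  by_cases h : S.card + 2 ≤ Fintype.card A
  · have := hb.hall S hS h; omega
  · have hn : NA s S = univ := by
      ext b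
      simp only [mem_NA, mem_univ, iff_true]
      by_contra hcon
      push Not at hcon
      have : nbB s b ⊆ univ \ S := by
        intro a ha
        rw [mem_sdiff]
        exact ⟨mem_univ _, fun haS => (mem_nbB.1 ha) (hcon a haS)⟩
      have h1 := card_le_card this
      rw [hc.col b, card_sdiff_of_subset (subset_univ _), card_univ] at h1
      omega
    rw [hn, card_univ, ← hc.card_eq]; omega

end MCC
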