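import Mathlib

/-!
# MP_cb5629_co: shared definitions (signed cubic bipartite graphs)

Paper text: /team-store/MP_cb5629_P_helper79.md (read it first).  A signed bipartite graph on the finite types
`A` (points / rows) and `B` (lines / columns) is a function `s : A → B → ℤ` with values `0` (no edge), `1`, `-1`.
-/

namespace MCC

open Finset

section
variable {A B : Type} [Fintype A] [Fintype B] [DecidableEq A] [DecidableEq B]

/-- neighbours of the row `a` -/
def nbA (s : A → B → ℤ) (a : A) : Finset B := univ.filter fun b => s a b ≠ 0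

/-- neighbours of the column `b` -/
def nbB (s : A → B → ℤ) (b : B) : Finset A := univ.filter fun a => s a b ≠ 0

/-- neighbours of a set of rows -/
def NA (s : A → B → ℤ) (S : Finset A) : Finset B := univ.filter fun b => ∃ a ∈ S, s a b ≠ 0

/-- neighbours of a set of columns -/
def NB (s : A → B → ℤ) (T : Finset B) : Finset A := univ.filter fun a => ∃ b ∈ T, s a b ≠ 0

/-- cubic signed bipartite graph (no multiple edges) -/
structure Cubic (s : A → B → ℤ) : Prop where
  val : ∀ a b, s a b = 0 ∨ s a b = 1 ∨ s a b = -1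
  row : ∀ a, (nbA s a).card = 3
  col : ∀ b, (nbB s b).card = 3

/-- brace: `|N(S)| ≥ |S| + 2` for all sets `S` of rows with `1 ≤ |S| ≤ n - 2` -/
structure Brace (s : A → B → ℤ) : Prop where
  three : 3 ≤ Fintype.card A
  hall : ∀ S : Finset A, S.Nonempty → S.card + 2 ≤ Fintype.card A → S.card + 2 ≤ (NA s S).card

/-- the vector `x` balances the row `a`: all terms vanish, or both signs occur -/
def Bal (s : A → B → ℤ) (x : B → ℝ) (a : A) : Prop :=
  (∀ b, (s a b : ℝ) * x b = 0) ∨ ((∃ b, 0 < (s a b : ℝ) * x b) ∧ ∃ b, (s a b : ℝ) * x b < 0)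

/-- sign-nonsingular: no nonzero vector balances all rows -/
def SNS (s : A → B → ℤ) : Prop := ∀ x : B → ℝ, (∀ a, Bal s x a) → x = 0

/-- the set of negative edges -/
def neg (s : A → B → ℤ) : Finset (A × B) := univ.filter fun p => s p.1 p.2 = -1

/-- `n = 7` and any two rows have a common neighbour: with `Cubic` this is the Heawood graph (Fano plane) -/
def Fano (s : A → B → ℤ) : Prop :=
  Fintype.card A = 7 ∧ ∀ a a', ∃ b, s a b ≠ 0 ∧ s a' b ≠ 0

/-- the squares (4-cycles) through the edge `(a,b)`, given by the two other vertices -/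
def squares (s : A → B → ℤ) (a : A) (b : B) : Finset (A × B) :=
  univ.filter fun p => p.1 ≠ a ∧ p.2 ≠ b ∧ s p.1 b ≠ 0 ∧ s a p.2 ≠ 0 ∧ s p.1 p.2 ≠ 0

/-- perfect matching -/
def IsPM (s : A → B → ℤ) (σ : A ≃ B) : Prop := ∀ a, s a (σ a) ≠ 0

/-- relative sign of two bijections, the edge signs being taken over the rows in `D` -/
def relSign (s : A → B → ℤ) (D : Finset A) (σ τ : A ≃ B) : ℤ :=
  (Equiv.Perm.sign (σ.trans τ.symm) : ℤ) * ∏ a ∈ D, (s a (σ a) * s a (τ a))

/-- all perfect matchings have the same sign, and there is one -/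
def SameSign (s : A → B → ℤ) : Prop :=
  (∃ σ : A ≃ B, IsPM s σ) ∧ ∀ σ τ : A ≃ B, IsPM s σ → IsPM s τ → relSign s univ σ τ = 1

/-- The edge `(x,y)` is of type II: `G - (N(y) ∪ N(x))` has two perfect matchings of opposite signs.
They are encoded by two bijections that agree on the three rows `N(y)` and map them to the three columns `N(x)`. -/
def TypeII (s : A → B → ℤ) (x : A) (y : B) : Prop :=
  s x y ≠ 0 ∧ ∃ σ τ : A ≃ B, (∀ a ∈ nbB s y, τ a = σ a ∧ σ a ∈ nbA s x) ∧
    (∀ a, a ∉ nbB s y → s a (σ a) ≠ 0 ∧ s a (τ a) ≠ 0) ∧ relSign s (univ \ nbB s y) σ τ = -1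

/-- condition (T) of THEOREM II -/
def CondT (s : A → B → ℤ) (x : A) (y : B) : Prop :=
  ∀ S : Finset A, 2 ≤ S.card → S.card + 4 ≤ Fintype.card A → x ∉ S → (∀ a ∈ nbB s y, a ≠ x → a ∈ S) →
    (∀ b ∈ nbA s x, b ≠ y → b ∉ NA s S) → (NA s S).card ≠ S.card + 2

/-- switching -/
def sw (s : A → B → ℤ) (α : A → ℤˣ) (β : B → ℤˣ) : A → B → ℤ := fun a b => (α a : ℤ) * s a b * (β b : ℤ)

/-- transposition -/
def tr (s : A → B → ℤ) : B → A → ℤ := fun b a => s a b

/-- edges from `RA` to the complement of `RB` -/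
def aLegs (s : A → B → ℤ) (RA : Finset A) (RB : Finset B) : Finset (A × B) :=
  univ.filter fun p => p.1 ∈ RA ∧ p.2 ∉ RB ∧ s p.1 p.2 ≠ 0

/-- edges from `RB` to the complement of `RA` -/
def bLegs (s : A → B → ℤ) (RA : Finset A) (RB : Finset B) : Finset (A × B) :=
  univ.filter fun p => p.1 ∉ RA ∧ p.2 ∈ RB ∧ s p.1 p.2 ≠ 0

/-- a shore of type `(2+2d, 2-d)`, `d ≤ 2` (the types with `d < 0` are the transposed ones); the number `2 + 2d` of
A-legs follows (`shore_aLegs`) -/
structure Shore (s : A → B → ℤ) (RA : Finset A) (RB : Finset B) (d : ℕ) : Prop where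
  card : RA.card = RB.card + d
  legs : (bLegs s RA RB).card + d = 2

/-- nontrivial: `2 + d ≤ |RA| ≤ n - 2` -/
structure Nontriv (s : A → B → ℤ) (RA : Finset A) (RB : Finset B) (d : ℕ) : Prop extends Shore s RA RB d where
  low : d + 2 ≤ RA.card
  upp : RA.card + 2 ≤ Fintype.card A

/-- clean without switching: no negative edge inside, every outside vertex has edges of one sign only to `R` -/
structure Clean0 (s : A → B → ℤ) (RA : Finset A) (RB : Finset B) : Prop where
  ins : ∀ a ∈ RA, ∀ b ∈ RB, 0 ≤ s a b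
  outB : ∀ b, b ∉ RB → ∀ a ∈ RA, ∀ a' ∈ RA, 0 ≤ s a b * s a' b
  outA : ∀ a, a ∉ RA → ∀ b ∈ RB, ∀ b' ∈ RB, 0 ≤ s a b * s a b'

/-- clean: after some switching -/
def Clean (s : A → B → ℤ) (RA : Finset A) (RB : Finset B) : Prop :=
  ∃ (α : A → ℤˣ) (β : B → ℤˣ), Clean0 (sw s α β) RA RB

end

/-- The inductive statement `P(n)`. -/
def P (n : ℕ) : Prop :=
  ∀ (A B : Type) [Fintype A] [Fintype B] [DecidableEq A] [DecidableEq B] (s : A → B → ℤ),
    Fintype.card A = n → Cubic s → Brace s → SNS s →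
      (neg s).card ≠ 1 ∧ (neg s = ∅ → Fano s) ∧
      ((neg s).card = 2 → ∀ p ∈ neg s, 2 ≤ (squares s p.1 p.2).card)

end MCC
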