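import Pool.Agent.Lib_MP_cb5629.Base

set_option linter.unusedSectionVars false

namespace MCC

open Finset

variable {A B : Type} [Fintype A] [Fintype B] [DecidableEq A] [DecidableEq B]

private lemma ext_of_sum {s : A → B → ℤ} {y : B → ℝ} {a : A} (h : ∑ b, (s a b : ℝ) * y b = 0) : Bal s y a := by
  by_cases h0 : ∀ b, (s a b : ℝ) * y b = 0
  · exact Or.inl h0
  · right
    refine ⟨?_, ?_⟩
    · by_contra hc
      push Not at hc
      apply h0
      have h1 := (Finset.sum_eq_zero_iff_of_nonpos (s := univ) (f := fun b => (s a b : ℝ) * y b) fun b _ => hc b).1 h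
      exact fun b => h1 b (mem_univ b)
    · by_contra hc
      push Not at hc
      apply h0
      have h1 := (Finset.sum_eq_zero_iff_of_nonneg (s := univ) (f := fun b => (s a b : ℝ) * y b) fun b _ => hc b).1 h
      exact fun b => h1 b (mem_univ b)

private lemma ext_kernel (s : A → B → ℤ) (hcard : Fintype.card A = Fintype.card B) (L : Finset B) (N : Finset A)
    (h : L.card + 1 ≤ N.card) : ∃ z : B → ℝ, (∀ b ∈ L, z b = 0) ∧ (∃ b, b ∉ L ∧ z b ≠ 0) ∧
      ∀ a, a ∉ N → ∑ b, (s a b : ℝ) * z b = 0 := by
  classical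
  let f := Matrix.mulVecLin (Matrix.of fun (a : {a // a ∉ N}) (b : {b // b ∉ L}) => (s a.1 b.1 : ℝ))
  have hN := N.card_le_univ
  have hL := L.card_le_univ
  have c1 : Fintype.card {a // a ∉ N} = Fintype.card A - N.card := by
    rw [Fintype.card_subtype_compl, Fintype.card_coe]
  have c2 : Fintype.card {b // b ∉ L} = Fintype.card B - L.card := by
    rw [Fintype.card_subtype_compl, Fintype.card_coe]
  have hker : LinearMap.ker f ≠ ⊥ := by
    apply LinearMap.ker_ne_bot_of_finrank_lt
    rw [Module.finrank_fintype_fun_eq_card, Module.finrank_fintype_fun_eq_card, c1, c2]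
    omega
  obtain ⟨v, hv, hv0⟩ := Submodule.exists_mem_ne_zero_of_ne_bot hker
  rw [LinearMap.mem_ker] at hv
  refine ⟨fun b => if h : b ∈ L then 0 else v ⟨b, h⟩, fun b hb => by simp [hb], ?_, fun a ha => ?_⟩
  · by_contra hc
    push Not at hc
    apply hv0
    funext ⟨b, hb⟩
    have := hc b hb
    simp only [hb, dif_neg, not_false_eq_true] at this
    simpa using this
  · have h1 := congrFun hv ⟨a, ha⟩
    have h2 : ∑ b : {b // b ∉ L}, (s a b.1 : ℝ) * v b = 0 := by
      simpa [f, Matrix.mulVec, dotProduct] using h1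
    rw [← Finset.sum_filter_add_sum_filter_not univ (fun b => b ∈ L)]
    have h3 : ∑ b ∈ univ.filter (fun b => b ∈ L), (s a b : ℝ) * (if h : b ∈ L then 0 else v ⟨b, h⟩) = 0 := by
      refine sum_eq_zero fun b hb => ?_
      rw [mem_filter] at hb
      rw [dif_pos hb.2, mul_zero]
    rw [h3, zero_add]
    refine Eq.trans ?_ h2
    have h4 : ∑ b ∈ univ.filter (fun b => b ∉ L), (s a b : ℝ) * (if h : b ∈ L then 0 else v ⟨b, h⟩) =
        ∑ b : {b // b ∉ L}, (s a b.1 : ℝ) * (if h : b.1 ∈ L then 0 else v ⟨b.1, h⟩) :=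
      Finset.sum_subtype (F := inferInstance) (univ.filter (fun b => b ∉ L)) (p := fun b => b ∉ L) (fun b => by simp) _
    rw [h4]
    refine sum_congr rfl fun b _ => ?_
    rw [dif_neg b.2]

/-- Piece EXT (extension lemma). If `|N(T)| ≥ |T| + 1` for all nonempty proper sets `T` of columns and no `±1` vector balances all
rows, then `s` is SNS.

Proof. Suppose some nonzero `x` balances all rows; choose one with support `L1 = {b | x b ≠ 0}` of maximal cardinality. If `L1` is everything, then
`x' = sign x` is a `±1` vector balancing all rows (`Bal` only depends on signs): contradiction. Otherwise let `P1 = NB s L1` (rows adjacent to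
`L1`), `P0` the other rows; `|P1| ≥ |L1| + 1`, so `|P0| < |B \ L1|`. The real matrix `(s a b)` with rows `P0` and columns `B \ L1` has
fewer rows than columns, so there is a nonzero `z : B → ℝ`, zero on `L1`, with `∑ b, s a b * z b = 0` for all `a ∈ P0` (dimension count,
e.g. `LinearMap.exists_ne_zero...`/`Matrix.exists_mulVec_eq_zero_iff` after adding zero rows, or `LinearMap.ker_ne_bot_of_finrank_lt`).
`x + z` balances all rows: a row of `P1` has a nonzero term `s a b * x b`, hence (Bal) terms of both signs with `b ∈ L1`, where `z b = 0`; a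
row of `P0` has `s a b * x b = 0` for all `b`, and the sum of `s a b * z b` is `0` (`Bal.of_sum`). Its support is larger: contradiction. -/
theorem sns_of_no_pm1 {s : A → B → ℤ} (hcard : Fintype.card A = Fintype.card B)
    (hN : ∀ T : Finset B, T.Nonempty → T ≠ univ → T.card + 1 ≤ (NB s T).card)
    (h : ∀ x : B → ℝ, (∀ b, x b = 1 ∨ x b = -1) → ∃ a, ¬ Bal s x a) : SNS s := by
  classical
  by_contra hcon
  unfold SNS at hcon
  push Not at hcon
  obtain ⟨x0, hx0, hx0n⟩ := hcon
  obtain ⟨L, hL, hmax⟩ := exists_max_image (univ.filter fun L : Finset B => ∃ x : B → ℝ, (∀ a, Bal s x a) ∧ x ≠ 0 ∧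
    ∀ b, b ∈ L ↔ x b ≠ 0) card ⟨univ.filter (fun b => x0 b ≠ 0), by
      rw [mem_filter]
      exact ⟨mem_univ _, x0, hx0, hx0n, fun b => by simp⟩⟩
  rw [mem_filter] at hL
  obtain ⟨-, x, hx, hxn, hxL⟩ := hL
  have hLne : L.Nonempty := by
    by_contra hc
    rw [not_nonempty_iff_eq_empty] at hc
    apply hxn
    funext b
    by_contra hb
    have := (hxL b).2 hb
    rw [hc] at this
    exact absurd this (notMem_empty b)
  by_cases hLu : L = univ
  · have hxb : ∀ b, x b ≠ 0 := fun b => (hxL b).1 (by rw [hLu]; exact mem_univ b)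
    obtain ⟨a, ha⟩ := h (fun b => x b / |x b|) (fun b => by
      rcases lt_or_gt_of_ne (hxb b) with h1 | h1
      · right
        rw [abs_of_neg h1, div_neg, div_self (hxb b)]
      · left
        rw [abs_of_pos h1, div_self (hxb b)])
    apply ha
    have e : ∀ b, (s a b : ℝ) * (x b / |x b|) = ((s a b : ℝ) * x b) / |x b| := fun b => by ring
    rcases hx a with h1 | ⟨⟨b, hb⟩, b', hb'⟩
    · left
      intro b
      simp only
      rw [e, h1 b, zero_div]
    · right
      refine ⟨⟨b, ?_⟩, b', ?_⟩
      · rw [e]
        exact div_pos hb (abs_pos.2 (hxb b))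
      · rw [e]
        exact div_neg_of_neg_of_pos hb' (abs_pos.2 (hxb b'))
  · obtain ⟨z, hz1, ⟨b1, hb1, hb1z⟩, hz3⟩ := ext_kernel s hcard L (NB s L) (hN L hLne hLu)
    have hxz : ∀ b, b ∉ L → x b = 0 := by
      intro b hb
      by_contra hc
      exact hb ((hxL b).2 hc)
    have hbal : ∀ a, Bal s (fun b => x b + z b) a := by
      intro a
      by_cases ha : a ∈ NB s L
      · rw [mem_NB] at ha
        obtain ⟨b0, hb0, hab0⟩ := ha
        rcases hx a with h1 | ⟨⟨b, hb⟩, b', hb'⟩
        · exfalso
          have h2 := h1 b0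
          rw [mul_eq_zero] at h2
          rcases h2 with h2 | h2
          · exact hab0 (by exact_mod_cast h2)
          · exact (hxL b0).1 hb0 h2
        · right
          refine ⟨⟨b, ?_⟩, b', ?_⟩
          · have hbL : b ∈ L := (hxL b).2 (fun h0 => by rw [h0, mul_zero] at hb; exact lt_irrefl _ hb)
            simp only
            rw [hz1 b hbL, add_zero]
            exact hb
          · have hbL : b' ∈ L := (hxL b').2 (fun h0 => by rw [h0, mul_zero] at hb'; exact lt_irrefl _ hb')
            simp only
            rw [hz1 b' hbL, add_zero]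
            exact hb'
      · apply ext_of_sum
        rw [← hz3 a ha]
        refine sum_congr rfl fun b _ => ?_
        by_cases hb : b ∈ L
        · have h0 : s a b = 0 := by
            by_contra hc
            exact ha (mem_NB.2 ⟨b, hb, hc⟩)
          rw [h0]
          simp
        · rw [hxz b hb, zero_add]
    have hxz1 : ∀ b ∈ L, x b + z b ≠ 0 := fun b hb => by
      rw [hz1 b hb, add_zero]
      exact (hxL b).1 hb
    have hb1' : x b1 + z b1 ≠ 0 := by
      rw [hxz b1 hb1, zero_add]
      exact hb1z
    have hsup := hmax (univ.filter fun b => x b + z b ≠ 0) (by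
      rw [mem_filter]
      refine ⟨mem_univ _, fun b => x b + z b, hbal, fun h0 => hb1' (congrFun h0 b1), fun b => by simp⟩)
    have hsub : insert b1 L ⊆ univ.filter (fun b => x b + z b ≠ 0) := by
      intro b hb
      rw [mem_insert] at hb
      rw [mem_filter]
      refine ⟨mem_univ _, ?_⟩
      rcases hb with rfl | hb
      · exact hb1'
      · exact hxz1 b hb
    have hc := card_le_card hsub
    rw [card_insert_of_notMem hb1] at hc
    omega

end MCC
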