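import Pool.Agent.Lib_MP_cb5629.FFDefs

set_option linter.unusedSectionVars false

namespace MCC

open Finset

variable {A B : Type} [Fintype A] [Fintype B] [DecidableEq A] [DecidableEq B]

/-- Piece FCOUNT. Counting the edges inside `(RA,RB)`: `3 |RA| = e + aLegs`, `3 |RB| = e + bLegs`. So a shore has `2 + 2d` A-legs. -/
theorem Shore.aLegs {s : A → B → ℤ} (hc : Cubic s) {RA : Finset A} {RB : Finset B} {d : ℕ} (h : Shore s RA RB d) :
    (aLegs s RA RB).card = 2 + 2 * d := by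
  classical
  set E : Finset (A × B) := univ.filter fun p => p.1 ∈ RA ∧ p.2 ∈ RB ∧ s p.1 p.2 ≠ 0 with hE
  have h1 : ((univ : Finset (A × B)).filter fun p => p.1 ∈ RA ∧ s p.1 p.2 ≠ 0).card
      = E.card + (MCC.aLegs s RA RB).card := by
    rw [← card_union_of_disjoint]
    · congr 1
      ext p
      simp only [mem_filter, mem_univ, true_and, mem_union, mem_aLegs, hE]
      tauto
    · rw [disjoint_left]
      intro p hp hp'
      rw [hE, mem_filter] at hp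
      exact (mem_aLegs.1 hp').2.1 hp.2.2.1
  have h2 : ((univ : Finset (B × A)).filter fun p => p.1 ∈ RB ∧ MCC.tr s p.1 p.2 ≠ 0).card
      = E.card + (bLegs s RA RB).card := by
    rw [← card_union_of_disjoint]
    · apply card_bij (fun p _ => (p.2, p.1))
      · rintro ⟨b, a⟩ hp
        simp only [mem_filter, mem_univ, true_and, tr_apply] at hp
        simp only [mem_union, mem_filter, mem_univ, true_and, mem_bLegs, hE]
        tauto
      · rintro ⟨b, a⟩ _ ⟨b', a'⟩ _ hh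
        simp only [Prod.mk.injEq] at hh ⊢
        exact ⟨hh.2, hh.1⟩
      · rintro ⟨a, b⟩ hp
        refine ⟨(b, a), ?_, rfl⟩
        simp only [mem_union, mem_filter, mem_univ, true_and, mem_bLegs, hE] at hp
        simp only [mem_filter, mem_univ, true_and, tr_apply]
        tauto
    · rw [disjoint_left]
      intro p hp hp'
      rw [hE, mem_filter] at hp
      exact (mem_bLegs.1 hp').1 hp.2.1
  rw [hc.card_edges RA] at h1
  rw [hc.tr.card_edges RB] at h2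
  have h3 := h.card
  have h4 := h.legs
  omega

/-- every row of `RA` has at most one A-leg, so `|PA| = |aLegs|` -/
theorem Core.cardPA {s : A → B → ℤ} (hc : Cubic s) {RA : Finset A} {RB : Finset B} {d : ℕ} (h : Core s RA RB d) :
    (PA s RA RB).card = 2 + 2 * d := by
  classical
  rw [← h.toNontriv.toShore.aLegs hc]
  have himg : PA s RA RB = (MCC.aLegs s RA RB).image Prod.fst := by
    ext a
    simp only [PA, mem_filter, mem_image, Prod.exists, exists_and_right, exists_eq_right, mem_aLegs]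
    constructor
    · rintro ⟨ha, b, hb⟩
      rw [mem_sdiff, mem_nbA] at hb
      exact ⟨b, ha, hb.2, hb.1⟩
    · rintro ⟨b, ha, hb, hs⟩
      exact ⟨ha, b, by rw [mem_sdiff, mem_nbA]; exact ⟨hs, hb⟩⟩
  rw [himg, card_image_of_injOn]
  rintro ⟨a, b⟩ hp ⟨a', b'⟩ hp' hh
  have hp1 := mem_aLegs.1 (mem_coe.1 hp)
  have hp2 := mem_aLegs.1 (mem_coe.1 hp')
  simp only at hh hp1 hp2
  subst hh
  have hu := card_le_one.1 (h.uA a hp1.1) b (by rw [mem_sdiff, mem_nbA]; exact ⟨hp1.2.2, hp1.2.1⟩)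
    b' (by rw [mem_sdiff, mem_nbA]; exact ⟨hp2.2.2, hp2.2.1⟩)
  rw [hu]

theorem Core.cardQB {s : A → B → ℤ} (hc : Cubic s) {RA : Finset A} {RB : Finset B} {d : ℕ} (h : Core s RA RB d) :
    (QB s RA RB).card + d = 2 := by
  classical
  have hl := h.legs
  have himg : QB s RA RB = (MCC.bLegs s RA RB).image Prod.snd := by
    ext b
    simp only [QB, mem_filter, mem_image, Prod.exists, exists_eq_right, mem_bLegs]
    constructor
    · rintro ⟨hb, a, ha⟩
      rw [mem_sdiff, mem_nbB] at ha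
      exact ⟨a, ha.2, hb, ha.1⟩
    · rintro ⟨a, ha, hb, hs⟩
      exact ⟨hb, a, by rw [mem_sdiff, mem_nbB]; exact ⟨hs, ha⟩⟩
  rw [himg, card_image_of_injOn]
  · exact hl
  rintro ⟨a, b⟩ hp ⟨a', b'⟩ hp' hh
  have hp1 := mem_bLegs.1 (mem_coe.1 hp)
  have hp2 := mem_bLegs.1 (mem_coe.1 hp')
  simp only at hh hp1 hp2
  subst hh
  have hu := card_le_one.1 (h.uB b hp1.2.1) a (by rw [mem_sdiff, mem_nbB]; exact ⟨hp1.2.2, hp1.1⟩)
    a' (by rw [mem_sdiff, mem_nbB]; exact ⟨hp2.2.2, hp2.1⟩)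
  rw [hu]

/-- the outer end `π a` of the A-leg of `a ∈ PA`; the map `π` is injective on `PA` by `oB` -/
theorem Core.exists_pi {s : A → B → ℤ} {RA : Finset A} {RB : Finset B} {d : ℕ} (h : Core s RA RB d) [Nonempty B] :
    ∃ π : A → B, (∀ a ∈ PA s RA RB, π a ∉ RB ∧ s a (π a) ≠ 0 ∧ ∀ b, b ∉ RB → s a b ≠ 0 → b = π a) ∧
      Set.InjOn π (PA s RA RB) := by
  classical
  have hex : ∀ a, ∃ b, a ∈ PA s RA RB → b ∉ RB ∧ s a b ≠ 0 := by
    intro a
    by_cases ha : a ∈ PA s RA RB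
    · obtain ⟨_, b, hb⟩ := mem_filter.1 ha
      rw [mem_sdiff, mem_nbA] at hb
      exact ⟨b, fun _ => ⟨hb.2, hb.1⟩⟩
    · exact ⟨Classical.arbitrary B, fun ha' => absurd ha' ha⟩
  choose π hπ using hex
  refine ⟨π, fun a ha => ⟨(hπ a ha).1, (hπ a ha).2, fun b hb hs => ?_⟩, ?_⟩
  · have haR : a ∈ RA := (mem_filter.1 ha).1
    exact card_le_one.1 (h.uA a haR) b (by rw [mem_sdiff, mem_nbA]; exact ⟨hs, hb⟩) (π a)
      (by rw [mem_sdiff, mem_nbA]; exact ⟨(hπ a ha).2, (hπ a ha).1⟩)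
  · intro a ha a' ha' hh
    have ha1 := mem_coe.1 ha
    have ha2 := mem_coe.1 ha'
    refine card_le_one.1 (h.oB (π a) (hπ a ha1).1) a ?_ a' ?_
    · rw [mem_inter, mem_nbB]
      exact ⟨(hπ a ha1).2, (mem_filter.1 ha1).1⟩
    · rw [mem_inter, mem_nbB, hh]
      exact ⟨(hπ a' ha2).2, (mem_filter.1 ha2).1⟩

/-- the outer end `κ b` of the B-leg of `b ∈ QB`; injective on `QB` by `oA`; rows outside `RA` meet `RB` only here -/
theorem Core.exists_ka {s : A → B → ℤ} {RA : Finset A} {RB : Finset B} {d : ℕ} (h : Core s RA RB d) [Nonempty A] :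
    ∃ κ : B → A, (∀ b ∈ QB s RA RB, κ b ∉ RA ∧ s (κ b) b ≠ 0 ∧ ∀ a, a ∉ RA → s a b ≠ 0 → a = κ b) ∧
      Set.InjOn κ (QB s RA RB) ∧ ∀ a, a ∉ RA → ∀ b ∈ RB, s a b ≠ 0 → b ∈ QB s RA RB ∧ a = κ b := by
  classical
  have hex : ∀ b, ∃ a, b ∈ QB s RA RB → a ∉ RA ∧ s a b ≠ 0 := by
    intro b
    by_cases hb : b ∈ QB s RA RB
    · obtain ⟨_, a, ha⟩ := mem_filter.1 hb
      rw [mem_sdiff, mem_nbB] at ha
      exact ⟨a, fun _ => ⟨ha.2, ha.1⟩⟩
    · exact ⟨Classical.arbitrary A, fun hb' => absurd hb' hb⟩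
  choose κ hκ using hex
  have huniq : ∀ b ∈ QB s RA RB, ∀ a, a ∉ RA → s a b ≠ 0 → a = κ b := by
    intro b hb a ha hs
    have hbR : b ∈ RB := (mem_filter.1 hb).1
    exact card_le_one.1 (h.uB b hbR) a (by rw [mem_sdiff, mem_nbB]; exact ⟨hs, ha⟩) (κ b)
      (by rw [mem_sdiff, mem_nbB]; exact ⟨(hκ b hb).2, (hκ b hb).1⟩)
  refine ⟨κ, fun b hb => ⟨(hκ b hb).1, (hκ b hb).2, huniq b hb⟩, ?_, ?_⟩
  · intro b hb b' hb' hh
    have hb1 := mem_coe.1 hb
    have hb2 := mem_coe.1 hb'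
    refine card_le_one.1 (h.oA (κ b) (hκ b hb1).1) b ?_ b' ?_
    · rw [mem_inter, mem_nbA]
      exact ⟨(hκ b hb1).2, (mem_filter.1 hb1).1⟩
    · rw [mem_inter, mem_nbA, hh]
      exact ⟨(hκ b' hb2).2, (mem_filter.1 hb2).1⟩
  · intro a ha b hb hs
    have hbQ : b ∈ QB s RA RB :=
      mem_filter.2 ⟨hb, a, by rw [mem_sdiff, mem_nbB]; exact ⟨hs, ha⟩⟩
    exact ⟨hbQ, huniq b hbQ a ha hs⟩

end MCC
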