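import Pool.Agent.Lib_MP_cb5629.FCount
import Pool.Agent.Lib_MP_cb5629.Ext
import Pool.Agent.Lib_MP_cb5629.Tools

set_option linter.unusedSectionVars false

namespace MCC

open Finset

variable {A B : Type} [Fintype A] [Fintype B] [DecidableEq A] [DecidableEq B]

private lemma FDSns_sign {c p q : ℝ} (h : 0 < p * q) (hc : 0 < c * q) : 0 < c * p := by
  have h1 : 0 < (c * q) * (p * q) := mul_pos hc h
  have h2 : (c * q) * (p * q) = (c * p) * (q * q) := by ring
  rw [h2] at h1
  rcases lt_trichotomy (c * p) 0 with h3 | h3 | h3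
  · have := mul_nonpos_of_nonpos_of_nonneg h3.le (mul_self_nonneg q)
    linarith
  · rw [h3] at h1; simp at h1
  · exact h3

private lemma FDSns_sign' {c p q : ℝ} (h : 0 < p * q) (hc : c * q < 0) : c * p < 0 := by
  have h1 := FDSns_sign (c := -c) h (by linarith)
  linarith

/-- Piece DSNS. The direct closing is SNS. (The proof of `zcl_sns` in FZSns.lean without the new row and columns: for a `±1` vector `x` balancing
the closing let `Y b = x b` (`b ∈ QB`), `y, u` from `hsg`, `ξ` from `hpl`, `Ξ = x` on `RB \ QB`, `Ξ = ξ` elsewhere. A row `a ∈ PA` has the leg term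
`vA s RB ξ a` of the sign of `t a * Y (m a)`, the new term of the closing; `s a (m a) = 0` by `npq`.) -/
theorem dcl_sns {s : A → B → ℤ} (hc : Cubic s) (hs : SNS s) {RA : Finset A} {RB : Finset B}
    (h : Core s RA RB 0) {α β : A → ℝ} {γ δ : B → ℝ}
    (hpl : ∀ y u : ℝ, ∃ ξ : B → ℝ, InW s RA RB ξ ∧ (∀ a ∈ PA s RA RB, vA s RB ξ a = α a * y + β a * u) ∧
        ∀ b ∈ QB s RA RB, ξ b = γ b * y + δ b * u)
    {m : A → B} {t : A → ℤ} (hd : DData (PA s RA RB) (QB s RA RB) m t)
    (hsg : DSgn (PA s RA RB) (QB s RA RB) α β γ δ m t)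
    (hcl : Cubic (dcl s RA RB m t)) (hbr : Brace (dcl s RA RB m t)) : SNS (dcl s RA RB m t) := by
  classical
  have hQsub : QB s RA RB ⊆ RB := filter_subset _ _
  apply sns_of_no_pm1 hcl.card_eq
  · intro T hT hTu
    have hlt : T.card < Fintype.card {b : B // b ∈ RB} := by
      rw [← card_univ]
      exact card_lt_card (ssubset_univ_iff.2 hTu)
    exact Brace.one hcl.tr (Brace.tr hcl hbr) hT hlt
  · intro x hx
    by_contra hcon
    push Not at hcon
    set Y : B → ℝ := fun b => if hb : b ∈ RB then x ⟨b, hb⟩ else 1 with hY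
    have hYx : ∀ b (hb : b ∈ RB), Y b = x ⟨b, hb⟩ := by
      intro b hb
      rw [hY]
      simp only [dif_pos hb]
    obtain ⟨y, u, hP, hQ⟩ := hsg Y (fun b hb => by rw [hYx b (hQsub hb)]; exact hx _)
    obtain ⟨ξ, hW, hv, hq⟩ := hpl y u
    set Ξ : B → ℝ := fun b => if b ∈ RB ∧ b ∉ QB s RA RB then Y b else ξ b with hΞ
    have hbal : ∀ a, Bal s Ξ a := by
      intro a
      by_cases ha : a ∈ RA
      · -- both signs occur in the closing
        have hboth : (∃ b, 0 < ((dcl s RA RB m t ⟨a, ha⟩ b : ℤ) : ℝ) * x b) ∧
            ∃ b, ((dcl s RA RB m t ⟨a, ha⟩ b : ℤ) : ℝ) * x b < 0 := by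
          rcases hcon ⟨a, ha⟩ with h0 | h0
          · exfalso
            have hne : (nbA (dcl s RA RB m t) ⟨a, ha⟩).Nonempty := by
              rw [← card_pos, hcl.row]; norm_num
            obtain ⟨b, hb⟩ := hne
            rw [mem_nbA] at hb
            have h1 := h0 b
            rcases mul_eq_zero.1 h1 with h2 | h2
            · exact hb (by exact_mod_cast h2)
            · rcases hx b with h3 | h3 <;> rw [h3] at h2 <;> norm_num at h2
          · exact h0
        have hval : ∀ b' : {b : B // b ∈ RB}, ¬ (a ∈ PA s RA RB ∧ m a = b'.1) →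
            dcl s RA RB m t ⟨a, ha⟩ b' = s a b'.1 := by
          intro b' hb'
          unfold dcl
          exact if_neg hb'
        have hval2 : ∀ b' : {b : B // b ∈ RB}, (a ∈ PA s RA RB ∧ m a = b'.1) →
            dcl s RA RB m t ⟨a, ha⟩ b' = t a := by
          intro b' hb'
          unfold dcl
          exact if_pos hb'
        have hΞout : ∀ b, b ∉ RB → Ξ b = ξ b := by
          intro b hb
          rw [hΞ]
          exact if_neg (fun hh => hb hh.1)
        have hΞin : ∀ (b : B) (hb : b ∈ RB), 0 < Ξ b * x ⟨b, hb⟩ := by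
          intro b hb
          by_cases hbq : b ∈ QB s RA RB
          · have e1 : Ξ b = ξ b := by
              rw [hΞ]
              exact if_neg (fun hh => hh.2 hbq)
            rw [e1, hq b hbq, ← hYx b hb]
            exact hQ b hbq
          · have e1 : Ξ b = Y b := by
              rw [hΞ]
              exact if_pos ⟨hb, hbq⟩
            rw [e1, hYx b hb]
            rcases hx ⟨b, hb⟩ with h3 | h3 <;> rw [h3] <;> norm_num
        refine Or.inr ⟨?_, ?_⟩
        · obtain ⟨⟨b', hb'⟩, hb1⟩ := hboth.1
          by_cases hcase : a ∈ PA s RA RB ∧ m a = b'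
          · rw [hval2 ⟨b', hb'⟩ hcase] at hb1
            have h1 := hP a hcase.1
            rw [hcase.2, hYx b' hb'] at h1
            have h2 : 0 < vA s RB ξ a := by
              rw [hv a hcase.1]
              have := FDSns_sign (c := 1) h1 (by linarith)
              linarith
            unfold vA at h2
            obtain ⟨b, hbm, hb⟩ : ∃ b ∈ univ \ RB, 0 < (s a b : ℝ) * ξ b := by
              by_contra hno
              push Not at hno
              exact absurd (sum_nonpos hno) (not_le.2 h2)
            rw [mem_sdiff] at hbm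
            exact ⟨b, by rw [hΞout b hbm.2]; exact hb⟩
          · rw [hval ⟨b', hb'⟩ hcase] at hb1
            exact ⟨b', FDSns_sign (hΞin b' hb') hb1⟩
        · obtain ⟨⟨b', hb'⟩, hb1⟩ := hboth.2
          by_cases hcase : a ∈ PA s RA RB ∧ m a = b'
          · rw [hval2 ⟨b', hb'⟩ hcase] at hb1
            have h1 := hP a hcase.1
            rw [hcase.2, hYx b' hb'] at h1
            have h2 : vA s RB ξ a < 0 := by
              rw [hv a hcase.1]
              have := FDSns_sign' (c := 1) h1 (by linarith)
              linarith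
            unfold vA at h2
            obtain ⟨b, hbm, hb⟩ : ∃ b ∈ univ \ RB, (s a b : ℝ) * ξ b < 0 := by
              by_contra hno
              push Not at hno
              exact absurd (sum_nonneg hno) (not_le.2 h2)
            rw [mem_sdiff] at hbm
            exact ⟨b, by rw [hΞout b hbm.2]; exact hb⟩
          · rw [hval ⟨b', hb'⟩ hcase] at hb1
            exact ⟨b', FDSns_sign' (hΞin b' hb') hb1⟩
      · apply Bal.of_sum
        rw [← hW.2 a ha]
        apply sum_congr rfl
        intro b _
        by_cases hb : b ∈ RB ∧ b ∉ QB s RA RB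
        · have h0 : s a b = 0 := by
            by_contra hne
            apply hb.2
            unfold QB
            rw [mem_filter]
            refine ⟨hb.1, a, ?_⟩
            rw [mem_sdiff, mem_nbB]
            exact ⟨hne, ha⟩
          rw [h0]; simp
        · rw [hΞ]
          simp only [if_neg hb]
    have hzero := hs Ξ hbal
    have hQc := Core.cardQB hc h
    have hex : (RB \ QB s RA RB).Nonempty := by
      rw [← card_pos, card_sdiff_of_subset hQsub]
      have := h.rb3
      omega
    obtain ⟨b, hb⟩ := hex
    rw [mem_sdiff] at hb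
    have h1 : Ξ b = 0 := congrFun hzero b
    have e1 : Ξ b = Y b := by
      rw [hΞ]
      exact if_pos hb
    rw [e1, hYx b hb.1] at h1
    rcases hx ⟨b, hb.1⟩ with h3 | h3 <;> rw [h3] at h1 <;> norm_num at h1

end MCC
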