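import Pool.Agent.Lib_MP_cb5629.FCount

/-! (2.5) of the paper text: the direct closing, `d = 0`. -/

set_option linter.unusedSectionVars false

namespace MCC

open Finset

variable {A B : Type} [Fintype A] [Fintype B] [DecidableEq A] [DecidableEq B]

lemma FDir_mem_PA {s : A → B → ℤ} {RA : Finset A} {RB : Finset B} {a : A} :
    a ∈ PA s RA RB ↔ a ∈ RA ∧ (nbA s a \ RB).Nonempty := by
  simp only [PA, mem_filter]

lemma FDir_mem_QB {s : A → B → ℤ} {RA : Finset A} {RB : Finset B} {b : B} :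
    b ∈ QB s RA RB ↔ b ∈ RB ∧ (nbB s b \ RA).Nonempty := by
  simp only [QB, mem_filter]

/-- a row of `RA` without A-leg sees only columns of `RB` -/
lemma FDir_notPA {s : A → B → ℤ} {RA : Finset A} {RB : Finset B} {a : A} (ha : a ∈ RA)
    (hn : a ∉ PA s RA RB) {b : B} (hb : s a b ≠ 0) : b ∈ RB := by
  by_contra hcon
  exact hn (FDir_mem_PA.2 ⟨ha, b, by simp [hb, hcon]⟩)

lemma FDir_notQB {s : A → B → ℤ} {RA : Finset A} {RB : Finset B} {b : B} (hb : b ∈ RB)
    (hn : b ∉ QB s RA RB) {a : A} (ha : s a b ≠ 0) : a ∈ RA := by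
  by_contra hcon
  exact hn (FDir_mem_QB.2 ⟨hb, a, by simp [ha, hcon]⟩)

lemma FDir_image {s : A → B → ℤ} (hc : Cubic s) {RA : Finset A} {RB : Finset B} (h : Core s RA RB 0)
    {m : A → B} {t : A → ℤ} (hd : DData (PA s RA RB) (QB s RA RB) m t) :
    (PA s RA RB).image m = QB s RA RB := by
  apply Finset.eq_of_subset_of_card_le
  · intro b hb
    obtain ⟨a, ha, rfl⟩ := mem_image.1 hb
    exact hd.maps a ha
  · rw [card_image_of_injOn (fun a ha a' ha' e => hd.inj a ha a' ha' e), h.cardPA hc]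
    have := h.cardQB hc
    omega

lemma FDir_t_ne {s : A → B → ℤ} {RA : Finset A} {RB : Finset B} {m : A → B} {t : A → ℤ}
    (hd : DData (PA s RA RB) (QB s RA RB) m t) {a : A} (ha : a ∈ PA s RA RB) : t a ≠ 0 := by
  rcases hd.t1 a ha with h | h <;> rw [h] <;> norm_num

/-- nonzero entries of the direct closing -/
lemma FDir_ne {s : A → B → ℤ} {RA : Finset A} {RB : Finset B} {m : A → B} {t : A → ℤ}
    (hd : DData (PA s RA RB) (QB s RA RB) m t) (a : {a : A // a ∈ RA}) (b : {b : B // b ∈ RB}) :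
    dcl s RA RB m t a b ≠ 0 ↔ (a.1 ∈ PA s RA RB ∧ m a.1 = b.1) ∨ s a.1 b.1 ≠ 0 := by
  unfold dcl
  split_ifs with hab
  · simp [hab, FDir_t_ne hd hab.1]
  · simp [hab]

lemma FDir_rowmap {s : A → B → ℤ} {RA : Finset A} {RB : Finset B} {m : A → B} {t : A → ℤ}
    (hd : DData (PA s RA RB) (QB s RA RB) m t) (a : {a : A // a ∈ RA}) :
    (nbA (dcl s RA RB m t) a).map (Function.Embedding.subtype _) =
      if a.1 ∈ PA s RA RB then insert (m a.1) (nbA s a.1 ∩ RB) else nbA s a.1 ∩ RB := by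
  ext b
  simp only [mem_map, mem_nbA, Function.Embedding.subtype_apply, Subtype.exists, exists_and_right,
    exists_eq_right, FDir_ne hd]
  split_ifs with ha
  · simp only [ha, true_and, mem_insert, mem_inter, mem_nbA]
    constructor
    · rintro ⟨hb, h1 | h1⟩
      · exact Or.inl h1.symm
      · exact Or.inr ⟨h1, hb⟩
    · rintro (h1 | ⟨h1, hb⟩)
      · exact ⟨h1 ▸ (FDir_mem_QB.1 (hd.maps _ ha)).1, Or.inl h1.symm⟩
      · exact ⟨hb, Or.inr h1⟩
  · simp only [ha, false_and, false_or, mem_inter, mem_nbA]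
    constructor
    · rintro ⟨hb, h1⟩; exact ⟨h1, hb⟩
    · rintro ⟨h1, hb⟩; exact ⟨hb, h1⟩

/-- the columns seen by a set of rows of the direct closing -/
lemma FDir_NAmap {s : A → B → ℤ} {RA : Finset A} {RB : Finset B} {m : A → B} {t : A → ℤ}
    (hd : DData (PA s RA RB) (QB s RA RB) m t) (S : Finset {a : A // a ∈ RA}) :
    (NA (dcl s RA RB m t) S).map (Function.Embedding.subtype _) =
      (NA s (S.map (Function.Embedding.subtype _)) ∩ RB) ∪
        (S.map (Function.Embedding.subtype _) ∩ PA s RA RB).image m := by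
  ext b
  simp only [mem_map, mem_NA, Function.Embedding.subtype_apply, Subtype.exists, exists_and_right,
    exists_eq_right, FDir_ne hd, mem_union, mem_inter, mem_image]
  constructor
  · rintro ⟨hb, a, ⟨ha, haS⟩, ⟨h1, h2⟩ | h1⟩
    · exact Or.inr ⟨a, ⟨⟨ha, haS⟩, h1⟩, h2⟩
    · exact Or.inl ⟨⟨a, ⟨ha, haS⟩, h1⟩, hb⟩
  · rintro (⟨⟨a, ⟨ha, haS⟩, h1⟩, hb⟩ | ⟨a, ⟨⟨ha, haS⟩, h1⟩, h2⟩)
    · exact ⟨hb, a, ⟨ha, haS⟩, Or.inr h1⟩
    · exact ⟨h2 ▸ (FDir_mem_QB.1 (hd.maps _ h1)).1, a, ⟨ha, haS⟩, Or.inl ⟨h1, h2⟩⟩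

/-- Piece DCUB. The direct closing is cubic (the entries `(a, m a)` are `0` in `s` by `npq`; `m` is a bijection `PA → QB`). -/
theorem dcl_cubic {s : A → B → ℤ} (hc : Cubic s) {RA : Finset A} {RB : Finset B} (h : Core s RA RB 0)
    {m : A → B} {t : A → ℤ} (hd : DData (PA s RA RB) (QB s RA RB) m t) : Cubic (dcl s RA RB m t) := by
  refine ⟨fun a b => ?_, fun a => ?_, fun b => ?_⟩
  · unfold dcl
    split_ifs with hab
    · exact Or.inr (hd.t1 a.1 hab.1)
    · exact hc.val _ _
  · rw [← card_map (Function.Embedding.subtype _), FDir_rowmap hd]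
    split_ifs with ha
    · have h1 : m a.1 ∉ nbA s a.1 ∩ RB := by
        simp [h.npq a.1 ha (m a.1) (hd.maps a.1 ha)]
      rw [card_insert_of_notMem h1]
      have h2 := h.uA a.1 a.2
      have h3 := card_pos.2 (FDir_mem_PA.1 ha).2
      have h4 := card_sdiff_add_card_inter (nbA s a.1) RB
      have h5 := hc.row a.1
      omega
    · have h1 : nbA s a.1 ∩ RB = nbA s a.1 := by
        rw [inter_eq_left]
        intro b hb
        exact FDir_notPA a.2 ha (mem_nbA.1 hb)
      rw [h1, hc.row]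
  · have e : (nbB (dcl s RA RB m t) b).map (Function.Embedding.subtype _) =
        (nbB s b.1 ∩ RA) ∪ (PA s RA RB).filter fun a => m a = b.1 := by
      ext a
      simp only [mem_map, mem_nbB, Function.Embedding.subtype_apply, Subtype.exists, exists_and_right,
        exists_eq_right, FDir_ne hd, mem_union, mem_inter, mem_filter]
      constructor
      · rintro ⟨ha, h1 | h1⟩
        · exact Or.inr h1
        · exact Or.inl ⟨h1, ha⟩
      · rintro (⟨h1, ha⟩ | h1)
        · exact ⟨ha, Or.inr h1⟩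
        · exact ⟨(FDir_mem_PA.1 h1.1).1, Or.inl h1⟩
    rw [← card_map (Function.Embedding.subtype _), e]
    by_cases hb : b.1 ∈ QB s RA RB
    · obtain ⟨a0, ha0, hm⟩ := mem_image.1 ((FDir_image hc h hd).symm ▸ hb)
      have h1 : ((PA s RA RB).filter fun a => m a = b.1) = {a0} := by
        ext a
        simp only [mem_filter, mem_singleton]
        constructor
        · rintro ⟨h1, h2⟩
          exact hd.inj _ h1 _ ha0 (h2.trans hm.symm)
        · rintro rfl
          exact ⟨ha0, hm⟩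
      have h2 : a0 ∉ nbB s b.1 ∩ RA := by
        simp [h.npq a0 ha0 b.1 hb]
      rw [h1, union_comm, ← insert_eq, card_insert_of_notMem h2]
      have h3 := h.uB b.1 b.2
      have h4 := card_pos.2 (FDir_mem_QB.1 hb).2
      have h5 := card_sdiff_add_card_inter (nbB s b.1) RA
      have h6 := hc.col b.1
      omega
    · have h1 : ((PA s RA RB).filter fun a => m a = b.1) = ∅ := by
        rw [filter_eq_empty_iff]
        intro a ha hm
        exact hb (hm ▸ hd.maps a ha)
      have h2 : nbB s b.1 ∩ RA = nbB s b.1 := by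
        rw [inter_eq_left]
        intro a ha
        exact FDir_notQB b.2 hb (mem_nbB.1 ha)
      rw [h1, union_empty, h2, hc.col]

/-- Piece DCUB. Its negative edges are the new ones. -/
theorem dcl_neg {s : A → B → ℤ} {RA : Finset A} {RB : Finset B} (h : Core s RA RB 0)
    {m : A → B} {t : A → ℤ} (hd : DData (PA s RA RB) (QB s RA RB) m t) :
    (neg (dcl s RA RB m t)).card = ((PA s RA RB).filter fun a => t a = -1).card := by
  have key : ∀ (a : {a : A // a ∈ RA}) (b : {b : B // b ∈ RB}), dcl s RA RB m t a b = -1 ↔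
      a.1 ∈ PA s RA RB ∧ m a.1 = b.1 ∧ t a.1 = -1 := by
    intro a b
    unfold dcl
    split_ifs with hab
    · simp [hab]
    · constructor
      · intro h1
        have := h.pos a.1 a.2 b.1 b.2
        omega
      · rintro ⟨h1, h2, -⟩
        exact absurd ⟨h1, h2⟩ hab
  apply Finset.card_bij (fun p _ => p.1.1)
  · rintro ⟨a, b⟩ hp
    rw [mem_neg, key] at hp
    rw [mem_filter]
    exact ⟨hp.1, hp.2.2⟩
  · rintro ⟨a, b⟩ hp ⟨a', b'⟩ hp' e
    rw [mem_neg, key] at hp hp'
    have e1 : a = a' := Subtype.ext e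
    subst e1
    have e2 : b = b' := Subtype.ext (hp.2.1.symm.trans hp'.2.1)
    rw [e2]
  · intro a ha
    rw [mem_filter] at ha
    refine ⟨(⟨a, (FDir_mem_PA.1 ha.1).1⟩, ⟨m a, (FDir_mem_QB.1 (hd.maps a ha.1)).1⟩), ?_, rfl⟩
    rw [mem_neg, key]
    exact ⟨ha.1, rfl, ha.2⟩

/-- Piece DBRA. The direct closing is a brace.

Proof. `PA = {p1,p2}`, `QB = {q1,q2}`, `q_i = m p_i`. Let `S ⊆ RA` be nonempty, `|S| + 2 ≤ |RA|`, `N_R = NA s S ∩ RB`; suppose `|N'(S)| ≤ |S| + 1`.
`p1, p2 ∉ S`: `N'(S) = NA s S` (no A-leg at `S`), against the brace property. `p1 ∈ S`, `p2 ∉ S` (or conversely): `N'(S) = N_R ∪ {q1}` and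
`|NA s S| = |N_R| + 1 ≥ |S| + 2`; so `|N_R| = |S| + 1` and `q1 ∈ N_R`. Then `(S, N_R)` is a shore of type `(1,4)`: its only A-leg is that of
`p1` (as `3 |S| = E + 1`, `3 |N_R| = E + 4`), so it is `Nontriv (tr s) N_R S 1` as soon as `|S| ≥ 2` (`|N_R| = |S| + 1 ≥ 3`, `|N_R| + 2 ≤ |RA| + 1 ≤ n - 1`);
`|S| = 1` would mean `S = {p1}`, `p1 ~ q1`, against `npq`. This contradicts `min'`. `p1, p2 ∈ S`: `T` = columns of `RB` not in `N'(S)`; `q1, q2 ∉ T`, so
`NB s T ⊆ RA \ S`. If `T = ∅`, `|N'(S)| = |RB| = |RA| ≥ |S| + 2`. Otherwise `|T| + 2 ≤ |NB s T| ≤ |RA| - |S|`, `|T| = |RA| - |N'(S)|`: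
`|N'(S)| ≥ |S| + 2`. -/
theorem dcl_brace {s : A → B → ℤ} (hc : Cubic s) (hb : Brace s) {RA : Finset A} {RB : Finset B}
    (h : Core s RA RB 0) {m : A → B} {t : A → ℤ} (hd : DData (PA s RA RB) (QB s RA RB) m t) :
    Brace (dcl s RA RB m t) := by
  have hcard : Fintype.card {a : A // a ∈ RA} = RA.card := Fintype.card_coe RA
  have hAB : RA.card = RB.card := by simpa using h.card
  have hn := hc.card_eq
  have hupp := h.upp
  refine ⟨by rw [hcard, hAB]; exact h.rb3, fun S hS hS2 => ?_⟩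
  rw [hcard] at hS2
  set S' : Finset A := S.map (Function.Embedding.subtype _) with hS'
  have hSc : S'.card = S.card := card_map _
  have hSsub : S' ⊆ RA := by
    intro a ha
    rw [hS', mem_map] at ha
    obtain ⟨a', -, rfl⟩ := ha
    exact a'.2
  have hSne : S'.Nonempty := by rw [← card_pos, hSc]; exact card_pos.2 hS
  have hN := FDir_NAmap hd S
  rw [← hS'] at hN
  have hNc : (NA (dcl s RA RB m t) S).card =
      ((NA s S' ∩ RB) ∪ (S' ∩ PA s RA RB).image m).card := by
    rw [← hN, card_map]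
  rw [hNc]
  clear hN hNc
  have hbr : S'.card + 2 ≤ (NA s S').card := hb.hall S' hSne (by omega)
  have hP := h.cardPA hc
  by_contra hcon
  push Not at hcon
  have hle : (S' ∩ PA s RA RB).card ≤ 2 := by
    have := card_le_card (inter_subset_right (s₁ := S') (s₂ := PA s RA RB))
    omega
  have hcases : (S' ∩ PA s RA RB).card = 0 ∨ (S' ∩ PA s RA RB).card = 1 ∨ (S' ∩ PA s RA RB).card = 2 := by
    omega
  rcases hcases with h0 | h1 | h2
  · -- no A-leg at `S`
    rw [card_eq_zero] at h0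
    rw [h0, image_empty, union_empty] at hcon
    have e : NA s S' ∩ RB = NA s S' := by
      rw [inter_eq_left]
      intro b hb
      obtain ⟨a, ha, hab⟩ := mem_NA.1 hb
      refine FDir_notPA (hSsub ha) (fun hP => ?_) hab
      have : a ∈ S' ∩ PA s RA RB := mem_inter.2 ⟨ha, hP⟩
      rw [h0] at this
      simp at this
    rw [e] at hcon
    omega
  · rw [card_eq_one] at h1
    obtain ⟨p, hp⟩ := h1
    have hpm : p ∈ S' ∩ PA s RA RB := by rw [hp]; simp
    rw [mem_inter] at hpm
    have huni : ∀ a ∈ S', ∀ b, b ∉ RB → s a b ≠ 0 → a = p := by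
      intro a ha b hb hab
      have : a ∈ S' ∩ PA s RA RB :=
        mem_inter.2 ⟨ha, FDir_mem_PA.2 ⟨hSsub ha, b, by simp [hb, hab]⟩⟩
      rw [hp] at this
      simpa using this
    rw [hp, image_singleton] at hcon
    -- the A-leg of `p`
    have hleg1 := h.uA p (hSsub hpm.1)
    have hleg2 := card_pos.2 (FDir_mem_PA.1 hpm.2).2
    have hleg : (nbA s p \ RB).card = 1 := by omega
    have hsub : NA s S' ⊆ (NA s S' ∩ RB) ∪ (nbA s p \ RB) := by
      intro b hb
      rw [mem_union, mem_inter, mem_sdiff]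
      by_cases hbR : b ∈ RB
      · exact Or.inl ⟨hb, hbR⟩
      · obtain ⟨a, ha, hab⟩ := mem_NA.1 hb
        have := huni a ha b hbR hab
        subst this
        exact Or.inr ⟨mem_nbA.2 hab, hbR⟩
    have h3 := card_le_card hsub
    have h4 := card_union_le (NA s S' ∩ RB) (nbA s p \ RB)
    have h5 : (NA s S' ∩ RB).card ≤ ((NA s S' ∩ RB) ∪ {m p}).card := card_le_card subset_union_left
    have h6 : (NA s S' ∩ RB).card = S'.card + 1 := by omega
    have h7 : m p ∈ NA s S' ∩ RB := by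
      by_contra hmp
      have : ((NA s S' ∩ RB) ∪ {m p}).card = (NA s S' ∩ RB).card + 1 := by
        rw [union_comm, ← insert_eq, card_insert_of_notMem hmp]
      omega
    rcases Nat.lt_or_ge S'.card 2 with h8 | h8
    · -- `S = {p}`
      have h9 : S'.card = 1 := by
        have := card_pos.2 hSne
        omega
      obtain ⟨a, ha⟩ := card_eq_one.1 h9
      have h10 : p = a := by simpa [ha] using hpm.1
      subst h10
      rw [ha, NA_singleton, mem_inter, mem_nbA] at h7
      exact h7.1 (h.npq p hpm.2 (m p) (hd.maps p hpm.2))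
    · refine h.min' S' hSsub (by omega) ⟨⟨h6, ?_⟩, by omega, by omega⟩
      have e : bLegs (tr s) (NA s S' ∩ RB) S' = (nbA s p \ RB).image fun b => (b, p) := by
        ext ⟨b, a⟩
        simp only [mem_bLegs, mem_inter, mem_NA, tr_apply, mem_image, mem_sdiff, mem_nbA, Prod.mk.injEq]
        constructor
        · rintro ⟨h9, h10, h11⟩
          have hbR : b ∉ RB := fun hbR => h9 ⟨⟨a, h10, h11⟩, hbR⟩
          have := huni a h10 b hbR h11
          subst this
          exact ⟨b, ⟨h11, hbR⟩, rfl, rfl⟩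
        · rintro ⟨b', ⟨h9, h10⟩, rfl, rfl⟩
          exact ⟨fun h11 => h10 h11.2, hpm.1, h9⟩
      rw [e, card_image_of_injective _ (fun b b' hb => by simpa using hb), hleg]
  · have e : S' ∩ PA s RA RB = PA s RA RB :=
      eq_of_subset_of_card_le inter_subset_right (by omega)
    rw [e, FDir_image hc h hd] at hcon
    set N := (NA s S' ∩ RB) ∪ QB s RA RB with hNdef
    have hNsub : N ⊆ RB := by
      rw [hNdef]
      apply union_subset inter_subset_right
      intro b hb
      exact (FDir_mem_QB.1 hb).1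
    have hT : (RB \ N).card = RB.card - N.card := card_sdiff_of_subset hNsub
    have hNle := card_le_card hNsub
    rcases (RB \ N).eq_empty_or_nonempty with hE | hE
    · rw [hE, card_empty] at hT
      omega
    · have h3 := (hb.tr hc).hall (RB \ N) hE (by omega)
      rw [NA_tr] at h3
      have h4 : NB s (RB \ N) ⊆ RA \ S' := by
        intro a ha
        obtain ⟨b, hb1, hb2⟩ := mem_NB.1 ha
        rw [mem_sdiff, hNdef, mem_union, mem_inter] at hb1
        rw [mem_sdiff]
        constructor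
        · exact FDir_notQB hb1.1 (fun h5 => hb1.2 (Or.inr h5)) hb2
        · intro h5
          exact hb1.2 (Or.inl ⟨mem_NA.2 ⟨a, h5, hb2⟩, hb1.1⟩)
      have h5 := card_le_card h4
      rw [card_sdiff_of_subset hSsub] at h5
      have h6 := card_le_card hSsub
      omega

end MCC
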