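import Pool.Agent.Lib_MP_cb5629.FGeo

set_option linter.unusedSectionVars false

namespace MCC

open Finset

variable {A B : Type} [Fintype A] [Fintype B] [DecidableEq A] [DecidableEq B]

private theorem FGeo0_A (a b c e S S' Y Z : ℝ) (h1 : 0 < a * Y * S) (h2 : 0 < c * Y * S') (hY : Y ≠ 0)
    (hZ : Z ≠ 0) : ∃ f g : ℝ, 0 < (a * f + b * g) * S ∧ 0 < (c * f + e * g) * S' ∧ 0 < f * Y ∧ 0 < g * Z := by
  have hM1 : 0 ≤ |b * Z * S| / (a * Y * S) := div_nonneg (abs_nonneg _) h1.le
  have hM2 : 0 ≤ |e * Z * S'| / (c * Y * S') := div_nonneg (abs_nonneg _) h2.le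
  have e1 : |b * Z * S| / (a * Y * S) * (a * Y * S) = |b * Z * S| := div_mul_cancel₀ _ h1.ne'
  have e2 : |e * Z * S'| / (c * Y * S') * (c * Y * S') = |e * Z * S'| := div_mul_cancel₀ _ h2.ne'
  have a1 := neg_abs_le (b * Z * S)
  have a2 := neg_abs_le (e * Z * S')
  generalize |b * Z * S| / (a * Y * S) = M1 at *
  generalize |e * Z * S'| / (c * Y * S') = M2 at *
  refine ⟨Y * (1 + M1 + M2), Z, ?_, ?_, ?_, ?_⟩
  · have p1 : 0 ≤ M2 * (a * Y * S) := mul_nonneg hM2 h1.le
    have : (a * (Y * (1 + M1 + M2)) + b * Z) * S =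
      a * Y * S + M1 * (a * Y * S) + M2 * (a * Y * S) + b * Z * S := by ring
    rw [this]
    linarith
  · have p1 : 0 ≤ M1 * (c * Y * S') := mul_nonneg hM1 h2.le
    have : (c * (Y * (1 + M1 + M2)) + e * Z) * S' =
      c * Y * S' + M2 * (c * Y * S') + M1 * (c * Y * S') + e * Z * S' := by ring
    rw [this]
    linarith
  · have : Y * (1 + M1 + M2) * Y = (Y * Y) * (1 + M1 + M2) := by ring
    rw [this]
    exact mul_pos (mul_self_pos.2 hY) (by linarith)
  · exact mul_self_pos.2 hZ

private theorem FGeo0_core (α1 β1 α2 β2 γ1 δ1 γ2 δ2 S1 S2 Y1 Y2 T11 T12 T21 T22 : ℝ)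
    (hD : γ1 * δ2 - γ2 * δ1 ≠ 0) (h11 : T11 = (α1 * δ2 - γ2 * β1) / (γ1 * δ2 - γ2 * δ1))
    (h12 : T12 = -(α1 * δ1 - γ1 * β1) / (γ1 * δ2 - γ2 * δ1))
    (h21 : T21 = (α2 * δ2 - γ2 * β2) / (γ1 * δ2 - γ2 * δ1))
    (h22 : T22 = -(α2 * δ1 - γ1 * β2) / (γ1 * δ2 - γ2 * δ1))
    (hY1 : Y1 ≠ 0) (hY2 : Y2 ≠ 0)
    (h : (0 < T11 * Y1 * S1 ∧ 0 < T21 * Y1 * S2) ∨ (0 < T12 * Y2 * S1 ∧ 0 < T22 * Y2 * S2)) :
    ∃ y u : ℝ, 0 < (α1 * y + β1 * u) * S1 ∧ 0 < (α2 * y + β2 * u) * S2 ∧ 0 < (γ1 * y + δ1 * u) * Y1 ∧
      0 < (γ2 * y + δ2 * u) * Y2 := by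
  have key : ∃ f g : ℝ, 0 < (T11 * f + T12 * g) * S1 ∧ 0 < (T21 * f + T22 * g) * S2 ∧ 0 < f * Y1 ∧
      0 < g * Y2 := by
    rcases h with h | h
    · exact FGeo0_A _ _ _ _ _ _ _ _ h.1 h.2 hY1 hY2
    · obtain ⟨f, g, k1, k2, k3, k4⟩ := FGeo0_A T12 T11 T22 T21 S1 S2 Y2 Y1 h.1 h.2 hY2 hY1
      exact ⟨g, f, by rw [add_comm]; exact k1, by rw [add_comm]; exact k2, k4, k3⟩
  obtain ⟨f, g, k1, k2, k3, k4⟩ := key
  refine ⟨(f * δ2 - g * δ1) / (γ1 * δ2 - γ2 * δ1), (γ1 * g - γ2 * f) / (γ1 * δ2 - γ2 * δ1), ?_, ?_, ?_, ?_⟩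
  · convert k1 using 2
    rw [h11, h12]
    field_simp
    ring
  · convert k2 using 2
    rw [h21, h22]
    field_simp
    ring
  · convert k3 using 2
    rw [mul_div_assoc', mul_div_assoc', ← add_div, div_eq_iff hD]
    ring
  · convert k4 using 2
    rw [mul_div_assoc', mul_div_assoc', ← add_div, div_eq_iff hD]
    ring

private theorem FGeo0_sgn (x : ℝ) (hx : x ≠ 0) : ∃ t : ℤ, (t = 1 ∨ t = -1) ∧ 0 < x * (t : ℝ) := by
  rcases lt_or_gt_of_ne hx with h | h
  · exact ⟨-1, Or.inr rfl, by push_cast; linarith⟩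
  · exact ⟨1, Or.inl rfl, by push_cast; linarith⟩

private theorem FGeo0_sq {t : ℤ} (h : t = 1 ∨ t = -1) : (t : ℝ) * t = 1 := by
  rcases h with rfl | rfl <;> norm_num

private theorem FGeo0_sqr {t : ℝ} (h : t = 1 ∨ t = -1) : t * t = 1 := by
  rcases h with rfl | rfl <;> norm_num

private theorem FGeo0_ne {t : ℝ} (h : t = 1 ∨ t = -1) : t ≠ 0 := by
  rcases h with rfl | rfl <;> norm_num

private theorem FGeo0_fin (w w' : Fin (0 + 1)) : w = w' := by
  apply Fin.ext
  omega

private theorem FGeo0_F1 {x y z e : ℝ} (hx : x = 1 ∨ x = -1) (hy : y = 1 ∨ y = -1) (hz : z = 1 ∨ z = -1)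
    (he : e = 1 ∨ e = -1) (k1 : 0 < -x ∨ 0 < y ∨ 0 < e * z) (k2 : -x < 0 ∨ y < 0 ∨ e * z < 0) :
    x = y ∨ x = e * z := by
  revert k1 k2
  rcases hx with rfl | rfl <;> rcases hy with rfl | rfl <;> rcases hz with rfl | rfl <;>
    rcases he with rfl | rfl <;> norm_num

private theorem FGeo0_F2 {u v : ℤ} (hu : u = 1 ∨ u = -1) (hv : v = 1 ∨ v = -1) (h : ¬ u = v) : u = -v := by
  revert h
  rcases hu with rfl | rfl <;> rcases hv with rfl | rfl <;> norm_num

private theorem FGeo0_F2r {u v : ℝ} (hu : u = 1 ∨ u = -1) (hv : v = 1 ∨ v = -1) (h : ¬ u = v) : u = -v := by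
  revert h
  rcases hu with rfl | rfl <;> rcases hv with rfl | rfl <;> norm_num

private theorem FGeo0_mul {u v : ℤ} (hu : u = 1 ∨ u = -1) (hv : v = 1 ∨ v = -1) : u * v = 1 ∨ u * v = -1 := by
  rcases hu with rfl | rfl <;> rcases hv with rfl | rfl <;> simp

private theorem FGeo0_mulr {u : ℤ} {v : ℝ} (hu : u = 1 ∨ u = -1) (hv : v = 1 ∨ v = -1) :
    (u : ℝ) * v = 1 ∨ (u : ℝ) * v = -1 := by
  rcases hu with rfl | rfl <;> rcases hv with rfl | rfl <;> simp

private theorem FGeo0_F3 {a b c d y z : ℝ} (s11 : a * a = 1) (s21 : c * c = 1) (hN : a * b = -(c * d))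
    (hc : c * y = -(d * z)) : a * y = b * z := by
  have e1 : a * y = a * c * (c * y) := by
    have : a * c * (c * y) = (c * c) * (a * y) := by ring
    rw [this, s21, one_mul]
  rw [e1, hc]
  have e2 : a * c * -(d * z) = a * (-(c * d)) * z := by ring
  rw [e2, ← hN]
  have e3 : a * (a * b) * z = (a * a) * (b * z) := by ring
  rw [e3, s11, one_mul]

private theorem FGeo0_F4 {a b c d : ℤ} (ha : a = 1 ∨ a = -1) (hb : b = 1 ∨ b = -1) (hc : c = 1 ∨ c = -1)
    (hd : d = 1 ∨ d = -1) (hN : a * b = -(c * d)) (hs : ¬ a * d = -1) : b * c = -1 := by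
  revert hN hs
  rcases ha with rfl | rfl <;> rcases hb with rfl | rfl <;> rcases hc with rfl | rfl <;>
    rcases hd with rfl | rfl <;> norm_num

private theorem FGeo0_F5 {a d : ℤ} (ha : a = 1 ∨ a = -1) (hd : d = 1 ∨ d = -1) (hs : a * d = -1) :
    (a = -1 ∧ d = 1) ∨ (a = 1 ∧ d = -1) := by
  revert hs
  rcases ha with rfl | rfl <;> rcases hd with rfl | rfl <;> norm_num

/-- Piece GEO0 (`d = 0`).

Proof. `P = {p1,p2}`, `Q = {q1,q2}`. Let `f_j = γ_j y + δ_j u`; by `bb` every pair of real values of `(f_1,f_2)` is realised by a unique `(y,u)`, and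
`α_i y + β_i u = T_i1 f_1 + T_i2 f_2` with `T_ij ≠ 0` (Cramer: `T_i1 = (α_i δ_2 - γ_2 β_i)/(γ_1 δ_2 - γ_2 δ_1)`, nonzero by `ab`). `t_ij = sign T_ij`.
(N) `t_11 t_12 t_21 t_22 = 1`. z-closing with `g = 0`, `ε p_i = t_i1`, `ζ = -1`, `η q1 = 1`, `η q2 = t_11 t_12 = t_21 t_22 =: e`. Check of ZSgn: given
`X, Y1, Y2 = ±1` such that `-X, Y1, e Y2` are not all equal. We need `f_j` with the signs `Y_j` and `T_i1 f_1 + T_i2 f_2` of the sign
`t_i1 X`, i.e. `|T_i1| f_1 + e |T_i2| f_2` of the sign `X` for `i = 1,2`. If `Y1 = e Y2` then `X = Y1` and every choice works. If `Y1 = - e Y2`: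
for `X = Y1` take `|f_1|` large, for `X = e Y2` take `|f_2|` large. Then use `znorm`.
(C) `t_11 t_12 t_21 t_22 = -1`. Direct closings `m p_i = q_i`, `t p_i = t_ii` and `m p_1 = q_2`, `m p_2 = q_1`, `t p_1 = t_12`, `t p_2 = t_21`. Check of DSgn for the
first: given `Y1, Y2`; the terms of `T_11 f_1 + T_12 f_2` have the signs `t_11 Y1`, `t_12 Y2`, those of `T_21 f_1 + T_22 f_2` the signs `t_21 Y1`,
`t_22 Y2`. If `t_11 Y1 = t_12 Y2` take `|f_2|` large; if `t_21 Y1 = t_22 Y2` take `|f_1|` large; otherwise the product of the four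
`t` would be `(Y1 Y2)^2 = 1`. The second direct closing is the first after renaming `q1, q2`. The product of the four signs is `-1`, so
exactly one of `t_11 t_22`, `t_12 t_21` is `-1`: take that closing; it has exactly one negative sign. -/
theorem geo0 {P : Finset A} {Q : Finset B} {α β : A → ℝ} {γ δ : B → ℝ} (hP : P.card = 2) (hQ : Q.card = 2)
    (h : Plane P Q α β γ δ) :
    (∃ (g : A → Fin (0 + 1)) (ε : A → ℤ) (ζ : Fin (0 + 1) → ℤ) (η : B → ℤ), ZData P Q 0 g ε ζ η ∧
      ZSgn P Q α β γ δ 0 g ε ζ η ∧ zneg P Q 0 ε ζ η ≤ 2 ∧ (zneg P Q 0 ε ζ η = 2 → ∃ a ∈ P, ε a = -1)) ∨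
    (∃ (m : A → B) (t : A → ℤ), DData P Q m t ∧ DSgn P Q α β γ δ m t ∧ (P.filter fun a => t a = -1).card = 1) := by
  obtain ⟨p1, p2, hp, rfl⟩ := Finset.card_eq_two.1 hP
  obtain ⟨q1, q2, hq, rfl⟩ := Finset.card_eq_two.1 hQ
  have hD : γ q1 * δ q2 - γ q2 * δ q1 ≠ 0 := h.bb q1 (by simp) q2 (by simp) hq
  have n11 : (α p1 * δ q2 - γ q2 * β p1) / (γ q1 * δ q2 - γ q2 * δ q1) ≠ 0 :=
    div_ne_zero (h.ab p1 (by simp) q2 (by simp)) hD
  have n12 : -(α p1 * δ q1 - γ q1 * β p1) / (γ q1 * δ q2 - γ q2 * δ q1) ≠ 0 :=
    div_ne_zero (neg_ne_zero.2 (h.ab p1 (by simp) q1 (by simp))) hD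
  have n21 : (α p2 * δ q2 - γ q2 * β p2) / (γ q1 * δ q2 - γ q2 * δ q1) ≠ 0 :=
    div_ne_zero (h.ab p2 (by simp) q2 (by simp)) hD
  have n22 : -(α p2 * δ q1 - γ q1 * β p2) / (γ q1 * δ q2 - γ q2 * δ q1) ≠ 0 :=
    div_ne_zero (neg_ne_zero.2 (h.ab p2 (by simp) q1 (by simp))) hD
  have core := fun (S1 S2 Y1 Y2 : ℝ) => FGeo0_core (α p1) (β p1) (α p2) (β p2) (γ q1) (δ q1) (γ q2) (δ q2)
    S1 S2 Y1 Y2 _ _ _ _ hD rfl rfl rfl rfl
  obtain ⟨t11, u11, v11⟩ := FGeo0_sgn _ n11
  obtain ⟨t12, u12, v12⟩ := FGeo0_sgn _ n12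
  obtain ⟨t21, u21, v21⟩ := FGeo0_sgn _ n21
  obtain ⟨t22, u22, v22⟩ := FGeo0_sgn _ n22
  generalize (α p1 * δ q2 - γ q2 * β p1) / (γ q1 * δ q2 - γ q2 * δ q1) = T11 at *
  generalize -(α p1 * δ q1 - γ q1 * β p1) / (γ q1 * δ q2 - γ q2 * δ q1) = T12 at *
  generalize (α p2 * δ q2 - γ q2 * β p2) / (γ q1 * δ q2 - γ q2 * δ q1) = T21 at *
  generalize -(α p2 * δ q1 - γ q1 * β p2) / (γ q1 * δ q2 - γ q2 * δ q1) = T22 at *
  have s11 := FGeo0_sq u11
  have s12 := FGeo0_sq u12
  have s21 := FGeo0_sq u21
  have s22 := FGeo0_sq u22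
  by_cases hN : t11 * t12 = t21 * t22
  · left
    have hNr : (t11 : ℝ) * t12 = t21 * t22 := by exact_mod_cast hN
    have hz1 : ZData ({p1, p2} : Finset A) ({q1, q2} : Finset B) 0 (fun _ => 0)
        (fun a => if a = p1 then t11 else t21) (fun _ => -1) (fun b => if b = q1 then 1 else t11 * t12) := by
      constructor
      · intro w
        rw [Finset.filter_true_of_mem]
        · exact hP
        · intro a _
          exact FGeo0_fin _ _
      · intro a _
        try dsimp only
        split
        · exact u11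
        · exact u21
      · intro w
        exact Or.inr rfl
      · intro b _
        try dsimp only
        split
        · exact Or.inl rfl
        · exact FGeo0_mul u11 u12
    have hz2 : ZSgn ({p1, p2} : Finset A) ({q1, q2} : Finset B) α β γ δ 0 (fun _ => 0)
        (fun a => if a = p1 then t11 else t21) (fun _ => -1) (fun b => if b = q1 then 1 else t11 * t12) := by
      intro X Y hX hY h1 h2
      have hX0 := hX 0
      have hY1 := hY q1 (by simp)
      have hY2 := hY q2 (by simp)
      have k1 : 0 < -X 0 ∨ 0 < Y q1 ∨ 0 < (t11 : ℝ) * t12 * Y q2 := by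
        rcases h1 with ⟨w, hw⟩ | ⟨b, hb, hw⟩
        · left
          have : w = 0 := FGeo0_fin _ _
          rw [this] at hw
          push_cast at hw
          linarith
        · right
          rw [Finset.mem_insert, Finset.mem_singleton] at hb
          rcases hb with rfl | rfl
          · left
            simpa using hw
          · right
            try dsimp only at hw
            rw [if_neg hq.symm] at hw
            push_cast at hw
            exact hw
      have k2 : -X 0 < 0 ∨ Y q1 < 0 ∨ (t11 : ℝ) * t12 * Y q2 < 0 := by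
        rcases h2 with ⟨w, hw⟩ | ⟨b, hb, hw⟩
        · left
          have : w = 0 := FGeo0_fin _ _
          rw [this] at hw
          push_cast at hw
          linarith
        · right
          rw [Finset.mem_insert, Finset.mem_singleton] at hb
          rcases hb with rfl | rfl
          · left
            simpa using hw
          · right
            try dsimp only at hw
            rw [if_neg hq.symm] at hw
            push_cast at hw
            exact hw
      have hcase : X 0 = Y q1 ∨ X 0 = (t11 : ℝ) * t12 * Y q2 := by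
        have e0 : (t11 : ℝ) * t12 = 1 ∨ (t11 : ℝ) * t12 = -1 := by
          rcases FGeo0_mul u11 u12 with h | h
          · exact Or.inl (by exact_mod_cast h)
          · exact Or.inr (by exact_mod_cast h)
        exact FGeo0_F1 hX0 hY1 hY2 e0 k1 k2
      have hr : (0 < T11 * Y q1 * (t11 * X 0) ∧ 0 < T21 * Y q1 * (t21 * X 0)) ∨
          (0 < T12 * Y q2 * (t11 * X 0) ∧ 0 < T22 * Y q2 * (t21 * X 0)) := by
        rcases hcase with hc | hc
        · left
          have q := FGeo0_sqr hY1
          rw [hc]
          constructor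
          · have : T11 * Y q1 * (t11 * Y q1) = T11 * t11 * (Y q1 * Y q1) := by ring
            rw [this, q, mul_one]
            exact v11
          · have : T21 * Y q1 * (t21 * Y q1) = T21 * t21 * (Y q1 * Y q1) := by ring
            rw [this, q, mul_one]
            exact v21
        · right
          have q := FGeo0_sqr hY2
          rw [hc]
          constructor
          · have : T12 * Y q2 * (t11 * ((t11 : ℝ) * t12 * Y q2)) =
              T12 * t12 * ((t11 : ℝ) * t11) * (Y q2 * Y q2) := by ring
            rw [this, q, s11, mul_one, mul_one]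
            exact v12
          · rw [hNr]
            have : T22 * Y q2 * (t21 * ((t21 : ℝ) * t22 * Y q2)) =
              T22 * t22 * ((t21 : ℝ) * t21) * (Y q2 * Y q2) := by ring
            rw [this, q, s21, mul_one, mul_one]
            exact v22
      obtain ⟨y, u, m1, m2, m3, m4⟩ := core _ _ _ _ (FGeo0_ne hY1) (FGeo0_ne hY2) hr
      refine ⟨y, u, ?_, ?_⟩
      · intro a ha
        rw [Finset.mem_insert, Finset.mem_singleton] at ha
        rcases ha with rfl | rfl
        · try dsimp only
          rw [if_pos rfl]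
          exact m1
        · try dsimp only
          rw [if_neg hp.symm]
          exact m2
      · intro b hb
        rw [Finset.mem_insert, Finset.mem_singleton] at hb
        rcases hb with rfl | rfl
        · exact m3
        · exact m4
    obtain ⟨ε', ζ', η', r1, r2, r3, r4⟩ := znorm hz1 hz2 (by rw [hQ]) (Or.inl (by norm_num))
    exact ⟨_, ε', ζ', η', r1, r2, r3, r4⟩
  · right
    have hN' : t11 * t12 = -(t21 * t22) := FGeo0_F2 (FGeo0_mul u11 u12) (FGeo0_mul u21 u22) hN
    have hNr' : (t11 : ℝ) * t12 = -(t21 * t22) := by exact_mod_cast hN'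
    have hNr'' : (t21 : ℝ) * t22 = -(t11 * t12) := by rw [hNr', neg_neg]
    by_cases hs : t11 * t22 = -1
    · -- the first closing
      refine ⟨fun a => if a = p1 then q1 else q2, fun a => if a = p1 then t11 else t22, ?_, ?_, ?_⟩
      · constructor
        · intro a _
          try dsimp only
          split <;> simp
        · intro a ha a' ha'
          rw [Finset.mem_insert, Finset.mem_singleton] at ha ha'
          rcases ha with rfl | rfl <;> rcases ha' with rfl | rfl <;>
            simp [hp.symm, hq, hq.symm]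
        · intro a _
          try dsimp only
          split
          · exact u11
          · exact u22
      · intro Y hY
        have hY1 := hY q1 (by simp)
        have hY2 := hY q2 (by simp)
        have r1 := FGeo0_sqr hY1
        have r2 := FGeo0_sqr hY2
        have hr : (0 < T11 * Y q1 * (t11 * Y q1) ∧ 0 < T21 * Y q1 * (t22 * Y q2)) ∨
            (0 < T12 * Y q2 * (t11 * Y q1) ∧ 0 < T22 * Y q2 * (t22 * Y q2)) := by
          by_cases hc : (t21 : ℝ) * Y q1 = t22 * Y q2
          · left
            constructor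
            · have : T11 * Y q1 * (t11 * Y q1) = T11 * t11 * (Y q1 * Y q1) := by ring
              rw [this, r1, mul_one]
              exact v11
            · rw [← hc]
              have : T21 * Y q1 * (t21 * Y q1) = T21 * t21 * (Y q1 * Y q1) := by ring
              rw [this, r1, mul_one]
              exact v21
          · right
            have hc' : (t11 : ℝ) * Y q1 = t12 * Y q2 :=
              FGeo0_F3 s11 s21 hNr' (FGeo0_F2r (FGeo0_mulr u21 hY1) (FGeo0_mulr u22 hY2) hc)
            constructor
            · rw [hc']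
              have : T12 * Y q2 * (t12 * Y q2) = T12 * t12 * (Y q2 * Y q2) := by ring
              rw [this, r2, mul_one]
              exact v12
            · have : T22 * Y q2 * (t22 * Y q2) = T22 * t22 * (Y q2 * Y q2) := by ring
              rw [this, r2, mul_one]
              exact v22
        obtain ⟨y, u, m1, m2, m3, m4⟩ := core _ _ _ _ (FGeo0_ne hY1) (FGeo0_ne hY2) hr
        refine ⟨y, u, ?_, ?_⟩
        · intro a ha
          rw [Finset.mem_insert, Finset.mem_singleton] at ha
          rcases ha with rfl | rfl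
          · try dsimp only
            rw [if_pos rfl, if_pos rfl]
            exact m1
          · try dsimp only
            rw [if_neg hp.symm, if_neg hp.symm]
            exact m2
        · intro b hb
          rw [Finset.mem_insert, Finset.mem_singleton] at hb
          rcases hb with rfl | rfl
          · exact m3
          · exact m4
      · have h3 : (t11 = -1 ∧ t22 = 1) ∨ (t11 = 1 ∧ t22 = -1) := FGeo0_F5 u11 u22 hs
        rcases h3 with ⟨h4, h5⟩ | ⟨h4, h5⟩
        · have : (({p1, p2} : Finset A).filter fun a => (if a = p1 then t11 else t22) = -1) = {p1} := by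
            ext a
            simp only [Finset.mem_filter, Finset.mem_insert, Finset.mem_singleton]
            constructor
            · rintro ⟨rfl | rfl, h6⟩
              · rfl
              · rw [if_neg hp.symm, h5] at h6
                norm_num at h6
            · rintro rfl
              exact ⟨Or.inl rfl, by rw [if_pos rfl, h4]⟩
          rw [this, Finset.card_singleton]
        · have : (({p1, p2} : Finset A).filter fun a => (if a = p1 then t11 else t22) = -1) = {p2} := by
            ext a
            simp only [Finset.mem_filter, Finset.mem_insert, Finset.mem_singleton]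
            constructor
            · rintro ⟨rfl | rfl, h6⟩
              · rw [if_pos rfl, h4] at h6
                norm_num at h6
              · rfl
            · rintro rfl
              exact ⟨Or.inr rfl, by rw [if_neg hp.symm, h5]⟩
          rw [this, Finset.card_singleton]
    · -- the second closing
      have hs' : t12 * t21 = -1 := FGeo0_F4 u11 u12 u21 u22 hN' hs
      refine ⟨fun a => if a = p1 then q2 else q1, fun a => if a = p1 then t12 else t21, ?_, ?_, ?_⟩
      · constructor
        · intro a _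
          try dsimp only
          split <;> simp
        · intro a ha a' ha'
          rw [Finset.mem_insert, Finset.mem_singleton] at ha ha'
          rcases ha with rfl | rfl <;> rcases ha' with rfl | rfl <;>
            simp [hp.symm, hq, hq.symm]
        · intro a _
          try dsimp only
          split
          · exact u12
          · exact u21
      · intro Y hY
        have hY1 := hY q1 (by simp)
        have hY2 := hY q2 (by simp)
        have r1 := FGeo0_sqr hY1
        have r2 := FGeo0_sqr hY2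
        have hr : (0 < T11 * Y q1 * (t12 * Y q2) ∧ 0 < T21 * Y q1 * (t21 * Y q1)) ∨
            (0 < T12 * Y q2 * (t12 * Y q2) ∧ 0 < T22 * Y q2 * (t21 * Y q1)) := by
          by_cases hc : (t11 : ℝ) * Y q1 = t12 * Y q2
          · left
            constructor
            · rw [← hc]
              have : T11 * Y q1 * (t11 * Y q1) = T11 * t11 * (Y q1 * Y q1) := by ring
              rw [this, r1, mul_one]
              exact v11
            · have : T21 * Y q1 * (t21 * Y q1) = T21 * t21 * (Y q1 * Y q1) := by ring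
              rw [this, r1, mul_one]
              exact v21
          · right
            have hc' : (t21 : ℝ) * Y q1 = t22 * Y q2 :=
              FGeo0_F3 s21 s11 hNr'' (FGeo0_F2r (FGeo0_mulr u11 hY1) (FGeo0_mulr u12 hY2) hc)
            constructor
            · have : T12 * Y q2 * (t12 * Y q2) = T12 * t12 * (Y q2 * Y q2) := by ring
              rw [this, r2, mul_one]
              exact v12
            · rw [hc']
              have : T22 * Y q2 * (t22 * Y q2) = T22 * t22 * (Y q2 * Y q2) := by ring
              rw [this, r2, mul_one]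
              exact v22
        obtain ⟨y, u, m1, m2, m3, m4⟩ := core _ _ _ _ (FGeo0_ne hY1) (FGeo0_ne hY2) hr
        refine ⟨y, u, ?_, ?_⟩
        · intro a ha
          rw [Finset.mem_insert, Finset.mem_singleton] at ha
          rcases ha with rfl | rfl
          · try dsimp only
            rw [if_pos rfl, if_pos rfl]
            exact m1
          · try dsimp only
            rw [if_neg hp.symm, if_neg hp.symm]
            exact m2
        · intro b hb
          rw [Finset.mem_insert, Finset.mem_singleton] at hb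
          rcases hb with rfl | rfl
          · exact m3
          · exact m4
      · have h3 : (t12 = -1 ∧ t21 = 1) ∨ (t12 = 1 ∧ t21 = -1) := FGeo0_F5 u12 u21 hs'
        rcases h3 with ⟨h4, h5⟩ | ⟨h4, h5⟩
        · have : (({p1, p2} : Finset A).filter fun a => (if a = p1 then t12 else t21) = -1) = {p1} := by
            ext a
            simp only [Finset.mem_filter, Finset.mem_insert, Finset.mem_singleton]
            constructor
            · rintro ⟨rfl | rfl, h6⟩
              · rfl
              · rw [if_neg hp.symm, h5] at h6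
                norm_num at h6
            · rintro rfl
              exact ⟨Or.inl rfl, by rw [if_pos rfl, h4]⟩
          rw [this, Finset.card_singleton]
        · have : (({p1, p2} : Finset A).filter fun a => (if a = p1 then t12 else t21) = -1) = {p2} := by
            ext a
            simp only [Finset.mem_filter, Finset.mem_insert, Finset.mem_singleton]
            constructor
            · rintro ⟨rfl | rfl, h6⟩
              · rw [if_pos rfl, h4] at h6
                norm_num at h6
              · rfl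
            · rintro rfl
              exact ⟨Or.inr rfl, by rw [if_neg hp.symm, h5]⟩
          rw [this, Finset.card_singleton]

end MCC
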