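import Pool.Agent.Lib_MP_cb5629.FFDefs

/-! Auxiliary lemmas for the pieces GEO1 and GEO2: sorting, coordinates, counting of fibres. -/

set_option linter.unusedSectionVars false

namespace MCC

open Finset

variable {A B : Type} [Fintype A] [Fintype B] [DecidableEq A] [DecidableEq B]

/-- sorting a finite set by a real function with different values -/
lemma FGeoAux_sort {P : Finset A} {n : ℕ} (hP : P.card = n) (θ : A → ℝ)
    (hθ : ∀ a ∈ P, ∀ a' ∈ P, a ≠ a' → θ a ≠ θ a') :
    ∃ p : Fin n → A, Function.Injective p ∧ (∀ i, p i ∈ P) ∧ (∀ a ∈ P, ∃ i, p i = a) ∧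
      ∀ i j, i < j → θ (p i) < θ (p j) := by
  classical
  have hI : (P.image θ).card = n := by
    rw [card_image_of_injOn, hP]
    intro a ha a' ha' h
    by_contra hne
    exact hθ a ha a' ha' hne h
  have he : ∀ i, ∃ a ∈ P, θ a = (P.image θ).orderEmbOfFin hI i := by
    intro i
    exact mem_image.1 ((P.image θ).orderEmbOfFin_mem hI i)
  choose p hp1 hp2 using he
  have hinj : Function.Injective p := by
    intro i j hij
    apply ((P.image θ).orderEmbOfFin hI).injective
    rw [← hp2, ← hp2, hij]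
  refine ⟨p, hinj, hp1, ?_, ?_⟩
  · intro a ha
    have h1 : (univ : Finset (Fin n)).image p ⊆ P := by
      intro x hx
      rw [mem_image] at hx
      obtain ⟨i, _, rfl⟩ := hx
      exact hp1 i
    have h2 : ((univ : Finset (Fin n)).image p).card = n := by
      rw [card_image_of_injective _ hinj, card_univ, Fintype.card_fin]
    have h3 := eq_of_subset_of_card_le h1 (by rw [h2, hP])
    rw [← h3, mem_image] at ha
    obtain ⟨i, _, hi⟩ := ha
    exact ⟨i, hi⟩
  · intro i j hij
    rw [hp2, hp2]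
    exact ((P.image θ).orderEmbOfFin hI).strictMono hij

/-- coordinates `(v, f)` of the plane -/
lemma FGeoAux_coord {S : Finset A} {α β : A → ℝ} {c e : ℝ} (h0 : c ≠ 0 ∨ e ≠ 0)
    (h1 : ∀ a ∈ S, α a * e - c * β a ≠ 0)
    (h2 : ∀ a ∈ S, ∀ a' ∈ S, a ≠ a' → α a * β a' - α a' * β a ≠ 0) :
    ∃ l θ : A → ℝ, (∀ a ∈ S, l a ≠ 0) ∧ (∀ a ∈ S, ∀ a' ∈ S, a ≠ a' → θ a ≠ θ a') ∧
      ∀ v f : ℝ, ∃ y u : ℝ, c * y + e * u = f ∧ ∀ a ∈ S, α a * y + β a * u = l a * (v - θ a * f) := by
  have hD : 0 < c ^ 2 + e ^ 2 := by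
    rcases h0 with h | h
    · have := sq_pos_of_ne_zero h; nlinarith [sq_nonneg e]
    · have := sq_pos_of_ne_zero h; nlinarith [sq_nonneg c]
  have hD' : c ^ 2 + e ^ 2 ≠ 0 := ne_of_gt hD
  refine ⟨fun a => (β a * c - α a * e) / (c ^ 2 + e ^ 2),
    fun a => -(α a * c + β a * e) / (β a * c - α a * e), ?_, ?_, ?_⟩
  · intro a ha
    refine div_ne_zero ?_ hD'
    intro h
    exact h1 a ha (by linarith)
  · intro a ha a' ha' hne heq
    have e1 : β a * c - α a * e ≠ 0 := fun h => h1 a ha (by linarith)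
    have e2 : β a' * c - α a' * e ≠ 0 := fun h => h1 a' ha' (by linarith)
    simp only at heq
    rw [div_eq_div_iff e1 e2] at heq
    have h3 : (c ^ 2 + e ^ 2) * (α a * β a' - α a' * β a) = 0 := by linarith
    rcases mul_eq_zero.1 h3 with h | h
    · exact hD' h
    · exact h2 a ha a' ha' hne h
  · intro v f
    refine ⟨(c * f - e * v) / (c ^ 2 + e ^ 2), (e * f + c * v) / (c ^ 2 + e ^ 2), ?_, ?_⟩
    · field_simp
      ring
    · intro a ha
      have e1 : β a * c - α a * e ≠ 0 := fun h => h1 a ha (by linarith)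
      have e3 : (β a * c - α a * e) * (-(α a * c + β a * e) / (β a * c - α a * e)) = -(α a * c + β a * e) :=
        mul_div_cancel₀ _ e1
      simp only
      calc α a * ((c * f - e * v) / (c ^ 2 + e ^ 2)) + β a * ((e * f + c * v) / (c ^ 2 + e ^ 2))
          = ((β a * c - α a * e) * v + (α a * c + β a * e) * f) / (c ^ 2 + e ^ 2) := by ring
        _ = _ := by
          rw [div_mul_eq_mul_div, mul_sub, ← mul_assoc, e3]
          ring

/-- the fibres of a function given on an enumeration of `P` -/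
lemma FGeoAux_fib {P : Finset A} {n d : ℕ} {p : Fin n → A} (hinj : Function.Injective p) (hp : ∀ i, p i ∈ P)
    (hp' : ∀ a ∈ P, ∃ i, p i = a) (G : Fin n → Fin d) (g : A → Fin d) (hg : ∀ i, g (p i) = G i) (w : Fin d) :
    (P.filter fun a => g a = w) = (univ.filter fun i => G i = w).map ⟨p, hinj⟩ := by
  classical
  ext a
  simp only [mem_filter, mem_map, mem_univ, true_and, Function.Embedding.coeFn_mk]
  constructor
  · rintro ⟨ha, hw⟩
    obtain ⟨i, rfl⟩ := hp' a ha
    exact ⟨i, by rw [← hg, hw], rfl⟩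
  · rintro ⟨i, hi, rfl⟩
    exact ⟨hp i, by rw [hg, hi]⟩

/-- the sign of a real number as an integer -/
noncomputable def FGeoAux_sg (x : ℝ) : ℤ := if 0 < x then 1 else -1

lemma FGeoAux_sg1 (x : ℝ) : FGeoAux_sg x = 1 ∨ FGeoAux_sg x = -1 := by
  unfold FGeoAux_sg; split_ifs <;> simp

lemma FGeoAux_sgmul {x : ℝ} (hx : x ≠ 0) : 0 < x * (FGeoAux_sg x : ℝ) := by
  unfold FGeoAux_sg
  split_ifs with h
  · simpa using h
  · have : x < 0 := lt_of_le_of_ne (not_lt.1 h) hx
    push_cast
    linarith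

end MCC
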