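import Pool.Agent.Lib_MP_cb5629.FGeo
import Pool.Agent.Lib_MP_cb5629.FGeoAux

set_option linter.unusedSectionVars false

namespace MCC

open Finset

variable {A B : Type} [Fintype A] [Fintype B] [DecidableEq A] [DecidableEq B]

private lemma FGeo1_v {t0 t1 t2 t3 : ℝ} (h01 : t0 < t1) (h12 : t1 < t2) (h23 : t2 < t3) {X0 X1 Y : ℝ}
    (hX0 : X0 = 1 ∨ X0 = -1) (hX1 : X1 = 1 ∨ X1 = -1) (hY : Y = 1 ∨ Y = -1)
    (hp : 0 < X0 ∨ X1 < 0 ∨ Y < 0) (hn : X0 < 0 ∨ 0 < X1 ∨ 0 < Y) :
    ∃ v : ℝ, 0 < (v - t0 * Y) * X0 ∧ 0 < (v - t1 * Y) * X0 ∧ 0 < (v - t2 * Y) * X1 ∧ 0 < (v - t3 * Y) * X1 := by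
  rcases hY with rfl | rfl <;> rcases hX0 with rfl | rfl <;> rcases hX1 with rfl | rfl
  · exact ⟨t3 + 1, by linarith, by linarith, by linarith, by linarith⟩
  · exact ⟨(t1 + t2) / 2, by linarith, by linarith, by linarith, by linarith⟩
  · exfalso
    rcases hp with h | h | h <;> linarith
  · exact ⟨t0 - 1, by linarith, by linarith, by linarith, by linarith⟩
  · exact ⟨-t0 + 1, by linarith, by linarith, by linarith, by linarith⟩
  · exfalso
    rcases hn with h | h | h <;> linarith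
  · exact ⟨-(t1 + t2) / 2, by linarith, by linarith, by linarith, by linarith⟩
  · exact ⟨-t3 - 1, by linarith, by linarith, by linarith, by linarith⟩

/-- Piece GEO1 (`d = 1`).

Proof. `Q = {q}`. Put `f = γ_q y + δ_q u` and choose a second linear form `v` in `(y,u)` such that `(v,f)` are coordinates (e.g. `v = - δ_q y + γ_q u`
has determinant `-(γ_q² + δ_q²) ≠ 0`; `(γ_q,δ_q) ≠ 0` by `ab`). Then `α_a y + β_a u = λ_a (v - θ_a f)` with `λ_a ≠ 0` (by `ab`) and the
`θ_a`, `a ∈ P`, are pairwise different (by `aa`). Let `p1,p2` be the two elements of `P` with the smallest `θ`, `p3,p4` the other two, `s_a = sign λ_a`. Data: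
`g p1 = g p2 = 0`, `g p3 = g p4 = 1`, `ε a = s_a`, `ζ 0 = 1`, `ζ 1 = -1`, `η q = -1`. Check of ZSgn: given `X0, X1, Y = ±1` such that `X0, -X1, -Y` are not
all equal. For `Y = 1` take `f = 1`; we need `v - θ_a` of the sign `X0` for `p1,p2` and `X1` for `p3,p4`: `(1,1)`: `v` larger than all `θ`;
`(1,-1)`: `v` between; `(-1,-1)`: `v` smaller than all `θ`; `(-1,1)` is excluded by the hypothesis. For `Y = -1` take the negative
of the solution for `(-X0,-X1,1)`. Then `znorm` (`d ≤ 1`). -/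
theorem geo1 {P : Finset A} {Q : Finset B} {α β : A → ℝ} {γ δ : B → ℝ} (hP : P.card = 4) (hQ : Q.card = 1)
    (h : Plane P Q α β γ δ) :
    ∃ (g : A → Fin (1 + 1)) (ε : A → ℤ) (ζ : Fin (1 + 1) → ℤ) (η : B → ℤ), ZData P Q 1 g ε ζ η ∧
      ZSgn P Q α β γ δ 1 g ε ζ η ∧ zneg P Q 1 ε ζ η ≤ 2 ∧ (zneg P Q 1 ε ζ η = 2 → ∃ a ∈ P, ε a = -1) := by
  classical
  obtain ⟨q, rfl⟩ := card_eq_one.1 hQ
  have hq : q ∈ ({q} : Finset B) := mem_singleton_self q
  have h0 : γ q ≠ 0 ∨ δ q ≠ 0 := by
    by_contra hcon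
    push Not at hcon
    obtain ⟨a, ha⟩ : P.Nonempty := by rw [← card_pos]; omega
    apply h.ab a ha q hq
    rw [hcon.1, hcon.2]
    ring
  obtain ⟨l, θ, hl, hθ, hco⟩ := FGeoAux_coord h0 (fun a ha => h.ab a ha q hq) h.aa
  obtain ⟨p, hinj, hp, hp', hlt⟩ := FGeoAux_sort hP θ hθ
  have hg : ∀ i, Function.extend p ![0, 0, 1, 1] (fun _ => (0 : Fin (1 + 1))) (p i)
      = (![0, 0, 1, 1] : Fin 4 → Fin (1 + 1)) i := fun i => hinj.extend_apply _ _ i
  set g : A → Fin (1 + 1) := Function.extend p ![0, 0, 1, 1] (fun _ => (0 : Fin (1 + 1))) with hgdef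
  refine (fun hz => ?_ : (ZData P {q} 1 g (fun a => FGeoAux_sg (l a)) ![1, -1] (fun _ => -1) ∧
    ZSgn P {q} α β γ δ 1 g (fun a => FGeoAux_sg (l a)) ![1, -1] (fun _ => -1)) → _) ⟨?_, ?_⟩
  · obtain ⟨ε', ζ', η', z⟩ := znorm hz.1 hz.2 (by simp) (Or.inl le_rfl)
    exact ⟨g, ε', ζ', η', z⟩
  · refine ⟨fun w => ?_, fun a _ => FGeoAux_sg1 _, fun w => ?_, fun b _ => Or.inr rfl⟩
    · rw [FGeoAux_fib hinj hp hp' _ g hg w, card_map]
      fin_cases w <;> decide
    · fin_cases w <;> simp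
  · intro X Y hX hY h1 h2
    have hYq := hY q hq
    obtain ⟨v, v0, v1, v2, v3⟩ := FGeo1_v (hlt 0 1 (by decide)) (hlt 1 2 (by decide)) (hlt 2 3 (by decide))
      (hX 0) (hX 1) hYq (by
        rcases h1 with ⟨w, hw⟩ | ⟨b, hb, hw⟩
        · fin_cases w
          · left; simpa using hw
          · right; left
            have : (0 : ℝ) < ((-1 : ℤ) : ℝ) * X 1 := hw
            push_cast at this
            linarith
        · rw [mem_singleton] at hb
          subst hb
          right; right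
          push_cast at hw
          linarith) (by
        rcases h2 with ⟨w, hw⟩ | ⟨b, hb, hw⟩
        · fin_cases w
          · left; simpa using hw
          · right; left
            have : ((-1 : ℤ) : ℝ) * X 1 < 0 := hw
            push_cast at this
            linarith
        · rw [mem_singleton] at hb
          subst hb
          right; right
          push_cast at hw
          linarith)
    obtain ⟨y, u, e1, e2⟩ := hco v (Y q)
    refine ⟨y, u, fun a ha => ?_, fun b hb => ?_⟩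
    · rw [e2 a ha]
      have hs := FGeoAux_sgmul (hl a ha)
      have key : 0 < (v - θ a * Y q) * X (g a) := by
        obtain ⟨i, rfl⟩ := hp' a ha
        rw [hg i]
        fin_cases i
        · exact v0
        · exact v1
        · exact v2
        · exact v3
      have := mul_pos hs key
      calc (0 : ℝ) < _ := this
        _ = _ := by ring
    · rw [mem_singleton] at hb
      subst hb
      rw [e1]
      rcases hYq with h | h <;> rw [h] <;> norm_num

end MCC
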