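import Pool.Agent.Lib_MP_cb5629.FGeo
import Pool.Agent.Lib_MP_cb5629.FGeoAux

set_option linter.unusedSectionVars false

namespace MCC

open Finset

variable {A B : Type} [Fintype A] [Fintype B] [DecidableEq A] [DecidableEq B]

private lemma FGeo2_val {t0 t1 t2 t3 t4 : ℝ} (h01 : t0 < t1) (h12 : t1 < t2) (h23 : t2 < t3) (h34 : t3 < t4)
    {X0 X1 X2 : ℝ} (hX0 : X0 = 1 ∨ X0 = -1) (hX1 : X1 = 1 ∨ X1 = -1) (hX2 : X2 = 1 ∨ X2 = -1)
    (hp : 0 < X0 ∨ X1 < 0 ∨ X2 < 0) (hn : X0 < 0 ∨ 0 < X1 ∨ 0 < X2) :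
    ∃ v : ℝ, 0 < (v - t0 * X2) * X0 ∧ 0 < (v - t1 * X2) * X0 ∧ 0 < (v - t2 * X2) * X1 ∧ 0 < (v - t3 * X2) * X1 ∧
      0 < -((v - t4 * X2) * X2) := by
  rcases hX2 with rfl | rfl <;> rcases hX0 with rfl | rfl <;> rcases hX1 with rfl | rfl
  · exact ⟨(t3 + t4) / 2, by linarith, by linarith, by linarith, by linarith, by linarith⟩
  · exact ⟨(t1 + t2) / 2, by linarith, by linarith, by linarith, by linarith, by linarith⟩
  · exfalso
    rcases hp with h | h | h <;> linarith
  · exact ⟨t0 - 1, by linarith, by linarith, by linarith, by linarith, by linarith⟩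
  · exact ⟨-t0 + 1, by linarith, by linarith, by linarith, by linarith, by linarith⟩
  · exfalso
    rcases hn with h | h | h <;> linarith
  · exact ⟨-(t1 + t2) / 2, by linarith, by linarith, by linarith, by linarith, by linarith⟩
  · exact ⟨-(t3 + t4) / 2, by linarith, by linarith, by linarith, by linarith, by linarith⟩

private lemma FGeo2_vbe {t0 t1 t2 t3 t4 : ℝ} (h01 : t0 < t1) (h12 : t1 < t2) (h23 : t2 < t3) (h34 : t3 < t4)
    {X0 X1 X2 : ℝ} (hX0 : X0 = 1 ∨ X0 = -1) (hX1 : X1 = 1 ∨ X1 = -1) (hX2 : X2 = 1 ∨ X2 = -1)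
    (hp : 0 < X0 ∨ X1 < 0 ∨ X2 < 0) (hn : X0 < 0 ∨ 0 < X1 ∨ 0 < X2) :
    ∃ v : ℝ, 0 < (v - t0 * X2) * X2 ∧ 0 < (v - t1 * X2) * X0 ∧ 0 < (v - t2 * X2) * X0 ∧ 0 < (v - t3 * X2) * X1 ∧
      0 < (v - t4 * X2) * X1 := by
  rcases hX2 with rfl | rfl <;> rcases hX0 with rfl | rfl <;> rcases hX1 with rfl | rfl
  · exact ⟨t4 + 1, by linarith, by linarith, by linarith, by linarith, by linarith⟩
  · exact ⟨(t2 + t3) / 2, by linarith, by linarith, by linarith, by linarith, by linarith⟩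
  · exfalso
    rcases hp with h | h | h <;> linarith
  · exact ⟨(t0 + t1) / 2, by linarith, by linarith, by linarith, by linarith, by linarith⟩
  · exact ⟨-(t0 + t1) / 2, by linarith, by linarith, by linarith, by linarith, by linarith⟩
  · exfalso
    rcases hn with h | h | h <;> linarith
  · exact ⟨-(t2 + t3) / 2, by linarith, by linarith, by linarith, by linarith, by linarith⟩
  · exact ⟨-t4 - 1, by linarith, by linarith, by linarith, by linarith, by linarith⟩

private lemma FGeo2_fin {P : Finset A} {α β : A → ℝ} {γ δ : B → ℝ} {r : Fin 6 → A} (hinj : Function.Injective r)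
    (hr : ∀ i, r i ∈ P) (hr' : ∀ a ∈ P, ∃ i, r i = a) (G : Fin 6 → Fin (2 + 1)) (E : Fin 6 → ℤ)
    (hE : ∀ i, E i = 1 ∨ E i = -1) (hG : ∀ w, ((univ : Finset (Fin 6)).filter fun i => G i = w).card = 2)
    (hodd : ∃ w, ∏ i ∈ (univ : Finset (Fin 6)).filter (fun i => G i = w), E i = 1)
    (hchk : ∀ X : Fin (2 + 1) → ℝ, (∀ w, X w = 1 ∨ X w = -1) → (0 < X 0 ∨ X 1 < 0 ∨ X 2 < 0) →
      (X 0 < 0 ∨ 0 < X 1 ∨ 0 < X 2) →
      ∃ y u : ℝ, ∀ i, 0 < (α (r i) * y + β (r i) * u) * ((E i : ℝ) * X (G i))) :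
    ∃ (g : A → Fin (2 + 1)) (ε : A → ℤ) (ζ : Fin (2 + 1) → ℤ) (η : B → ℤ), ZData P (∅ : Finset B) 2 g ε ζ η ∧
      ZSgn P (∅ : Finset B) α β γ δ 2 g ε ζ η ∧ zneg P (∅ : Finset B) 2 ε ζ η ≤ 2 ∧
      (zneg P (∅ : Finset B) 2 ε ζ η = 2 → ∃ a ∈ P, ε a = -1) := by
  classical
  have hg : ∀ i, Function.extend r G (fun _ => (0 : Fin (2 + 1))) (r i) = G i := fun i => hinj.extend_apply _ _ i
  set g : A → Fin (2 + 1) := Function.extend r G (fun _ => (0 : Fin (2 + 1))) with hgdef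
  have he : ∀ i, Function.extend r E (fun _ => (1 : ℤ)) (r i) = E i := fun i => hinj.extend_apply _ _ i
  set ε : A → ℤ := Function.extend r E (fun _ => (1 : ℤ)) with hedef
  refine (fun hz => ?_ : (ZData P (∅ : Finset B) 2 g ε ![1, -1, -1] (fun _ => 1) ∧
    ZSgn P (∅ : Finset B) α β γ δ 2 g ε ![1, -1, -1] (fun _ => 1)) → _) ⟨?_, ?_⟩
  · obtain ⟨ε', ζ', η', z⟩ := znorm hz.1 hz.2 (by simp) (Or.inr (by
      obtain ⟨w, hw⟩ := hodd
      refine ⟨w, ?_⟩
      rw [FGeoAux_fib hinj hr hr' G g hg w, prod_map]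
      rw [← hw]
      exact prod_congr rfl fun i _ => he i))
    exact ⟨g, ε', ζ', η', z⟩
  · refine ⟨fun w => ?_, fun a ha => ?_, fun w => ?_, fun b _ => Or.inl rfl⟩
    · rw [FGeoAux_fib hinj hr hr' G g hg w, card_map]
      exact hG w
    · obtain ⟨i, rfl⟩ := hr' a ha
      rw [he]
      exact hE i
    · fin_cases w <;> simp
  · intro X Y hX _ h1 h2
    obtain ⟨y, u, hyu⟩ := hchk X hX (by
        rcases h1 with ⟨w, hw⟩ | ⟨b, hb, hw⟩
        · fin_cases w
          · left; simpa using hw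
          · right; left
            have : (0 : ℝ) < ((-1 : ℤ) : ℝ) * X 1 := hw
            push_cast at this
            linarith
          · right; right
            have : (0 : ℝ) < ((-1 : ℤ) : ℝ) * X 2 := hw
            push_cast at this
            linarith
        · simp at hb) (by
        rcases h2 with ⟨w, hw⟩ | ⟨b, hb, hw⟩
        · fin_cases w
          · left; simpa using hw
          · right; left
            have : ((-1 : ℤ) : ℝ) * X 1 < 0 := hw
            push_cast at this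
            linarith
          · right; right
            have : ((-1 : ℤ) : ℝ) * X 2 < 0 := hw
            push_cast at this
            linarith
        · simp at hb)
    refine ⟨y, u, fun a ha => ?_, fun b hb => ?_⟩
    · obtain ⟨i, rfl⟩ := hr' a ha
      rw [he, hg]
      exact hyu i
    · simp at hb

/-- Piece GEO2 (`d = 2`).

Proof. `Q = ∅`. Choose `p6 ∈ P`, `f = α_6 y + β_6 u` and a second linear form `v` such that `(v,f)` are coordinates
(`(α_6,β_6) ≠ 0` by `aa`). For the five other `a`: `α_a y + β_a u = λ_a (v - θ_a f)` with `λ_a ≠ 0` and pairwise different `θ_a`. Name them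
`p1,...,p5` with `θ_1 < ... < θ_5`, `s_i = sign λ_i`. In both cases `ζ = (1,-1,-1)`.
Case (al): `g p1 = g p2 = 0` (`ε = s_1, s_2`), `g p3 = g p4 = 1` (`ε = s_3, s_4`), `g p5 = g p6 = 2` (`ε = - s_5, 1`).
Case (be): `g p2 = g p3 = 0` (`ε = s_2, s_3`), `g p4 = g p5 = 1` (`ε = s_4, s_5`), `g p1 = g p6 = 2` (`ε = s_1, 1`).
Check of ZSgn: given `X0, X1, X2 = ±1` with `X0, -X1, -X2` not all equal. For `X2 = 1` take `f = 1`. (al): we need `v - θ_i` of the sign
`X0` (`i = 1,2`), `X1` (`i = 3,4`), and `- (v - θ_5) > 0`. `(X0,X1) = (1,1)`: `θ_4 < v < θ_5`; `(1,-1)`: `θ_2 < v < θ_3`; `(-1,-1)`: `v < θ_1`; `(-1,1)` is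
excluded. (be): `v - θ_i` of the sign `X0` (`i = 2,3`), `X1` (`i = 4,5`), and `v - θ_1 > 0`: `(1,1)`: `v > θ_5`; `(1,-1)`: `θ_3 < v < θ_4`; `(-1,-1)`:
`θ_1 < v < θ_2`. For `X2 = -1` take the negative of the solution for `-X`.
At least one of the two data has a `w` with product of `ε` equal to `1`: otherwise `s_1 s_2 = s_3 s_4 = -1`, `- s_5 = -1` and `s_2 s_3 = s_4 s_5 = -1`,
`s_1 = -1`; but `s_5 = 1` gives `s_4 = -1, s_3 = 1, s_2 = -1, s_1 = 1`. Apply `znorm` to that one. -/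
theorem geo2 {P : Finset A} {Q : Finset B} {α β : A → ℝ} {γ δ : B → ℝ} (hP : P.card = 6) (hQ : Q.card = 0)
    (h : Plane P Q α β γ δ) :
    ∃ (g : A → Fin (2 + 1)) (ε : A → ℤ) (ζ : Fin (2 + 1) → ℤ) (η : B → ℤ), ZData P Q 2 g ε ζ η ∧
      ZSgn P Q α β γ δ 2 g ε ζ η ∧ zneg P Q 2 ε ζ η ≤ 2 ∧ (zneg P Q 2 ε ζ η = 2 → ∃ a ∈ P, ε a = -1) := by
  classical
  rw [card_eq_zero] at hQ
  subst hQ
  obtain ⟨z, hz⟩ : P.Nonempty := by rw [← card_pos]; omega
  have hS : (P.erase z).card = 5 := by rw [card_erase_of_mem hz, hP]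
  have hSP : ∀ a ∈ P.erase z, a ∈ P ∧ a ≠ z := fun a ha => ⟨mem_of_mem_erase ha, ne_of_mem_erase ha⟩
  have h1 : ∀ a ∈ P.erase z, α a * β z - α z * β a ≠ 0 := fun a ha => h.aa a (hSP a ha).1 z hz (hSP a ha).2
  have h0 : α z ≠ 0 ∨ β z ≠ 0 := by
    by_contra hcon
    push Not at hcon
    obtain ⟨a, ha⟩ : (P.erase z).Nonempty := by rw [← card_pos]; omega
    apply h1 a ha
    rw [hcon.1, hcon.2]
    ring
  obtain ⟨l, θ, hl, hθ, hco⟩ := FGeoAux_coord h0 h1
    (fun a ha a' ha' hne => h.aa a (hSP a ha).1 a' (hSP a' ha').1 hne)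
  obtain ⟨p, hinj, hp, hp', hlt⟩ := FGeoAux_sort hS θ hθ
  have rinj : Function.Injective (Fin.cons z p : Fin 6 → A) := by
    rw [Fin.cons_injective_iff]
    refine ⟨?_, hinj⟩
    rintro ⟨i, hi⟩
    exact (hSP _ (hp i)).2 hi
  have hr : ∀ i, (Fin.cons z p : Fin 6 → A) i ∈ P := by
    intro i
    refine Fin.cases ?_ (fun j => ?_) i
    · simpa using hz
    · simpa using (hSP _ (hp j)).1
  have hr' : ∀ a ∈ P, ∃ i, (Fin.cons z p : Fin 6 → A) i = a := by
    intro a ha
    by_cases haz : a = z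
    · exact ⟨0, by simp [haz]⟩
    · obtain ⟨i, hi⟩ := hp' a (mem_erase.2 ⟨haz, ha⟩)
      exact ⟨i.succ, by simpa using hi⟩
  set s : Fin 5 → ℤ := fun i => FGeoAux_sg (l (p i)) with hs
  have hs1 : ∀ i, s i = 1 ∨ s i = -1 := fun i => FGeoAux_sg1 _
  have hsl : ∀ i, 0 < l (p i) * (s i : ℝ) := fun i => FGeoAux_sgmul (hl _ (hp i))
  have hsq : ∀ x : ℝ, x = 1 ∨ x = -1 → 0 < x * x := by
    rintro x (rfl | rfl) <;> norm_num
  by_cases hcase : s 0 * s 1 = 1 ∨ s 2 * s 3 = 1 ∨ s 4 = -1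
  · refine FGeo2_fin rinj hr hr' ![2, 0, 0, 1, 1, 2] ![1, s 0, s 1, s 2, s 3, -s 4] ?_ (by decide) ?_ ?_
    · intro i
      fin_cases i
      · exact Or.inl rfl
      · exact hs1 0
      · exact hs1 1
      · exact hs1 2
      · exact hs1 3
      · rcases hs1 4 with h | h
        · exact Or.inr (congrArg Neg.neg h)
        · left
          show -s 4 = 1
          rw [h]; norm_num
    · rcases hcase with h | h | h
      · refine ⟨0, ?_⟩
        have : ((univ : Finset (Fin 6)).filter fun i => (![2, 0, 0, 1, 1, 2] : Fin 6 → Fin (2 + 1)) i = 0) = {1, 2} := by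
          decide
        rw [this, prod_pair (by decide)]
        exact h
      · refine ⟨1, ?_⟩
        have : ((univ : Finset (Fin 6)).filter fun i => (![2, 0, 0, 1, 1, 2] : Fin 6 → Fin (2 + 1)) i = 1) = {3, 4} := by
          decide
        rw [this, prod_pair (by decide)]
        exact h
      · refine ⟨2, ?_⟩
        have : ((univ : Finset (Fin 6)).filter fun i => (![2, 0, 0, 1, 1, 2] : Fin 6 → Fin (2 + 1)) i = 2) = {0, 5} := by
          decide
        rw [this, prod_pair (by decide)]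
        show 1 * -s 4 = 1
        rw [h]; norm_num
    · intro X hX hX1 hX2
      obtain ⟨v, v0, v1, v2, v3, v4⟩ := FGeo2_val (hlt 0 1 (by decide)) (hlt 1 2 (by decide)) (hlt 2 3 (by decide))
        (hlt 3 4 (by decide)) (hX 0) (hX 1) (hX 2) hX1 hX2
      obtain ⟨y, u, e1, e2⟩ := hco v (X 2)
      refine ⟨y, u, fun i => ?_⟩
      fin_cases i
      · show 0 < (α z * y + β z * u) * (((1 : ℤ) : ℝ) * X 2)
        rw [e1]
        have := hsq _ (hX 2)
        push_cast
        linarith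
      · show 0 < (α (p 0) * y + β (p 0) * u) * ((s 0 : ℝ) * X 0)
        rw [e2 _ (hp 0)]
        have := mul_pos (hsl 0) v0
        calc (0 : ℝ) < _ := this
          _ = _ := by ring
      · show 0 < (α (p 1) * y + β (p 1) * u) * ((s 1 : ℝ) * X 0)
        rw [e2 _ (hp 1)]
        have := mul_pos (hsl 1) v1
        calc (0 : ℝ) < _ := this
          _ = _ := by ring
      · show 0 < (α (p 2) * y + β (p 2) * u) * ((s 2 : ℝ) * X 1)
        rw [e2 _ (hp 2)]
        have := mul_pos (hsl 2) v2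
        calc (0 : ℝ) < _ := this
          _ = _ := by ring
      · show 0 < (α (p 3) * y + β (p 3) * u) * ((s 3 : ℝ) * X 1)
        rw [e2 _ (hp 3)]
        have := mul_pos (hsl 3) v3
        calc (0 : ℝ) < _ := this
          _ = _ := by ring
      · show 0 < (α (p 4) * y + β (p 4) * u) * (((-s 4 : ℤ) : ℝ) * X 2)
        rw [e2 _ (hp 4)]
        have := mul_pos (hsl 4) v4
        push_cast
        calc (0 : ℝ) < _ := this
          _ = _ := by ring
  · refine FGeo2_fin rinj hr hr' ![2, 2, 0, 0, 1, 1] ![1, s 0, s 1, s 2, s 3, s 4] ?_ (by decide) ?_ ?_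
    · intro i
      fin_cases i
      · exact Or.inl rfl
      · exact hs1 0
      · exact hs1 1
      · exact hs1 2
      · exact hs1 3
      · exact hs1 4
    · have hcase' : s 1 * s 2 = 1 ∨ s 3 * s 4 = 1 ∨ s 0 = 1 := by
        push Not at hcase
        obtain ⟨c1, c2, c3⟩ := hcase
        rcases hs1 0 with h0 | h0 <;> rcases hs1 1 with h1 | h1 <;> rcases hs1 2 with h2 | h2 <;>
          rcases hs1 3 with h3 | h3 <;> rcases hs1 4 with h4 | h4 <;> simp [h0, h1, h2, h3, h4] at c1 c2 c3 ⊢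
      rcases hcase' with h | h | h
      · refine ⟨0, ?_⟩
        have : ((univ : Finset (Fin 6)).filter fun i => (![2, 2, 0, 0, 1, 1] : Fin 6 → Fin (2 + 1)) i = 0) = {2, 3} := by
          decide
        rw [this, prod_pair (by decide)]
        exact h
      · refine ⟨1, ?_⟩
        have : ((univ : Finset (Fin 6)).filter fun i => (![2, 2, 0, 0, 1, 1] : Fin 6 → Fin (2 + 1)) i = 1) = {4, 5} := by
          decide
        rw [this, prod_pair (by decide)]
        exact h
      · refine ⟨2, ?_⟩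
        have : ((univ : Finset (Fin 6)).filter fun i => (![2, 2, 0, 0, 1, 1] : Fin 6 → Fin (2 + 1)) i = 2) = {0, 1} := by
          decide
        rw [this, prod_pair (by decide)]
        show 1 * s 0 = 1
        rw [h]; norm_num
    · intro X hX hX1 hX2
      obtain ⟨v, v0, v1, v2, v3, v4⟩ := FGeo2_vbe (hlt 0 1 (by decide)) (hlt 1 2 (by decide)) (hlt 2 3 (by decide))
        (hlt 3 4 (by decide)) (hX 0) (hX 1) (hX 2) hX1 hX2
      obtain ⟨y, u, e1, e2⟩ := hco v (X 2)
      refine ⟨y, u, fun i => ?_⟩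
      fin_cases i
      · show 0 < (α z * y + β z * u) * (((1 : ℤ) : ℝ) * X 2)
        rw [e1]
        have := hsq _ (hX 2)
        push_cast
        linarith
      · show 0 < (α (p 0) * y + β (p 0) * u) * ((s 0 : ℝ) * X 2)
        rw [e2 _ (hp 0)]
        have := mul_pos (hsl 0) v0
        calc (0 : ℝ) < _ := this
          _ = _ := by ring
      · show 0 < (α (p 1) * y + β (p 1) * u) * ((s 1 : ℝ) * X 0)
        rw [e2 _ (hp 1)]
        have := mul_pos (hsl 1) v1
        calc (0 : ℝ) < _ := this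
          _ = _ := by ring
      · show 0 < (α (p 2) * y + β (p 2) * u) * ((s 2 : ℝ) * X 0)
        rw [e2 _ (hp 2)]
        have := mul_pos (hsl 2) v2
        calc (0 : ℝ) < _ := this
          _ = _ := by ring
      · show 0 < (α (p 3) * y + β (p 3) * u) * ((s 3 : ℝ) * X 1)
        rw [e2 _ (hp 3)]
        have := mul_pos (hsl 3) v3
        calc (0 : ℝ) < _ := this
          _ = _ := by ring
      · show 0 < (α (p 4) * y + β (p 4) * u) * ((s 4 : ℝ) * X 1)
        rw [e2 _ (hp 4)]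
        have := mul_pos (hsl 4) v4
        calc (0 : ℝ) < _ := this
          _ = _ := by ring

end MCC
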