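import Pool.Agent.Lib_MP_cb5629.FPair

set_option linter.unusedSectionVars false

namespace MCC

open Finset

variable {A B : Type} [Fintype A] [Fintype B] [DecidableEq A] [DecidableEq B]

/-- the linear map whose kernel is the plane `W` -/
private def FPlane_L (s : A → B → ℤ) (RA : Finset A) (RB : Finset B) :
    (B → ℝ) →ₗ[ℝ] ({b : B // b ∈ RB \ QB s RA RB} → ℝ) × ({a : A // a ∈ univ \ RA} → ℝ) where
  toFun ξ := (fun b => ξ b.1, fun a => ∑ b, (s a.1 b : ℝ) * ξ b)
  map_add' ξ ξ' := by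
    ext a
    · rfl
    · simp [mul_add, Finset.sum_add_distrib]
  map_smul' c ξ := by
    ext a
    · rfl
    · simp only [Pi.smul_apply, smul_eq_mul, RingHom.id_apply, Prod.smul_snd, Finset.mul_sum]
      exact Finset.sum_congr rfl fun b _ => by ring

private lemma FPlane_mem {s : A → B → ℤ} {RA : Finset A} {RB : Finset B} {ξ : B → ℝ} :
    ξ ∈ LinearMap.ker (FPlane_L s RA RB) ↔ InW s RA RB ξ := by
  rw [LinearMap.mem_ker]
  constructor
  · intro h
    have h1 : (fun b : {b : B // b ∈ RB \ QB s RA RB} => ξ b.1) = 0 := congrArg Prod.fst h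
    have h2 : (fun a : {a : A // a ∈ univ \ RA} => ∑ b, (s a.1 b : ℝ) * ξ b) = 0 := congrArg Prod.snd h
    refine ⟨fun b hb hb' => ?_, fun a ha => ?_⟩
    · exact congrFun h1 ⟨b, by simp [hb, hb']⟩
    · exact congrFun h2 ⟨a, by simp [ha]⟩
  · rintro ⟨h1, h2⟩
    refine Prod.ext ?_ ?_
    · funext b
      have := b.2
      rw [mem_sdiff] at this
      exact h1 b.1 this.1 this.2
    · funext a
      have := a.2
      rw [mem_sdiff] at this
      exact h2 a.1 this.2

private lemma FPlane_dim {s : A → B → ℤ} (hc : Cubic s) {RA : Finset A} {RB : Finset B} {d : ℕ}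
    (h : Core s RA RB d) : 1 < Module.finrank ℝ (LinearMap.ker (FPlane_L s RA RB)) := by
  have h1 := LinearMap.finrank_range_add_finrank_ker (FPlane_L s RA RB)
  have h2 : Module.finrank ℝ (LinearMap.range (FPlane_L s RA RB)) ≤
      Module.finrank ℝ (({b : B // b ∈ RB \ QB s RA RB} → ℝ) × ({a : A // a ∈ univ \ RA} → ℝ)) :=
    Submodule.finrank_le _
  rw [Module.finrank_prod, Module.finrank_fintype_fun_eq_card, Module.finrank_fintype_fun_eq_card,
    Fintype.card_coe, Fintype.card_coe] at h2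
  rw [Module.finrank_fintype_fun_eq_card] at h1
  have h3 := hc.card_eq
  have h4 : (RB \ QB s RA RB).card = RB.card - (QB s RA RB).card :=
    card_sdiff_of_subset (filter_subset _ _)
  have h4' : (QB s RA RB).card ≤ RB.card := card_le_card (filter_subset _ _)
  have h5 : (univ \ RA).card = Fintype.card A - RA.card := by
    rw [card_sdiff_of_subset (subset_univ _), card_univ]
  have h5' : RA.card ≤ Fintype.card A := by rw [← card_univ]; exact card_le_card (subset_univ _)
  have h6 := h.cardQB hc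
  have h7 := h.card
  omega

private lemma FPlane_vA (s : A → B → ℤ) (RB : Finset B) (ξ1 ξ2 : B → ℝ) (y u : ℝ) (a : A) :
    vA s RB (y • ξ1 + u • ξ2) a = vA s RB ξ1 a * y + vA s RB ξ2 a * u := by
  unfold vA
  rw [Finset.sum_mul, Finset.sum_mul, ← Finset.sum_add_distrib]
  refine Finset.sum_congr rfl fun b _ => ?_
  simp only [Pi.add_apply, Pi.smul_apply, smul_eq_mul]
  ring

/-- a homogeneous system of two equations with zero determinant has a nonzero solution -/
private lemma FPlane_sol {p q r t : ℝ} (h : p * t - r * q = 0) :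
    ∃ y u : ℝ, (y ≠ 0 ∨ u ≠ 0) ∧ p * y + q * u = 0 ∧ r * y + t * u = 0 := by
  by_cases hp : p = 0 ∧ q = 0
  · by_cases hr : r = 0 ∧ t = 0
    · exact ⟨1, 0, Or.inl one_ne_zero, by rw [hp.1]; ring, by rw [hr.1]; ring⟩
    · refine ⟨t, -r, ?_, by rw [hp.1, hp.2]; ring, by ring⟩
      by_contra hcon
      push Not at hcon
      exact hr ⟨by simpa using hcon.2, hcon.1⟩
  · refine ⟨q, -p, ?_, by ring, by linarith⟩
    by_contra hcon
    push Not at hcon
    exact hp ⟨by simpa using hcon.2, hcon.1⟩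

/-- Piece PLANE.

Proof. `W = {ξ | InW s RA RB ξ}` is a subspace of `B → ℝ` given by `|RB \ QB| + |A \ RA|` linear equations, so its dimension is at least
`n - (|RB| - |QB|) - (n - |RA|) = |RA| - |RB| + |QB| = d + (2 - d) = 2` (`n = |A| = |B|`). Take two linearly independent `ξ1, ξ2 ∈ W` and put
`α a = vA ξ1 a`, `β a = vA ξ2 a`, `γ b = ξ1 b`, `δ b = ξ2 b`; `ξ = y ξ1 + u ξ2`. If for instance `α a * β a' - α a' * β a = 0` with `a ≠ a' ∈ PA`, there is
`(y,u) ≠ 0` with `α a y + β a u = 0 = α a' y + β a' u`; then `ξ = y ξ1 + u ξ2 = 0` by `pair_aa`, against independence. The same for `bb`, `ab` with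
`pair_bb`, `pair_ab`. -/
theorem Core.plane {s : A → B → ℤ} (hc : Cubic s) (hb : Brace s) (hs : SNS s) {RA : Finset A} {RB : Finset B} {d : ℕ}
    (h : Core s RA RB d) : ∃ (α β : A → ℝ) (γ δ : B → ℝ), Plane (PA s RA RB) (QB s RA RB) α β γ δ ∧
      ∀ y u : ℝ, ∃ ξ : B → ℝ, InW s RA RB ξ ∧ (∀ a ∈ PA s RA RB, vA s RB ξ a = α a * y + β a * u) ∧
        ∀ b ∈ QB s RA RB, ξ b = γ b * y + δ b * u := by
  classical
  have hd := FPlane_dim hc h
  have : Nontrivial (LinearMap.ker (FPlane_L s RA RB)) := by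
    by_contra hcon
    rw [not_nontrivial_iff_subsingleton] at hcon
    rw [Module.finrank_zero_of_subsingleton] at hd
    omega
  obtain ⟨x1, hx1⟩ := exists_ne (0 : LinearMap.ker (FPlane_L s RA RB))
  obtain ⟨x2, hx2⟩ := exists_linearIndependent_pair_of_one_lt_finrank hd hx1
  rw [LinearIndependent.pair_iff] at hx2
  have hW : ∀ y u : ℝ, InW s RA RB (y • x1.1 + u • x2.1) := by
    intro y u
    rw [← FPlane_mem]
    exact (y • x1 + u • x2).2
  have hind : ∀ y u : ℝ, (y ≠ 0 ∨ u ≠ 0) → y • x1.1 + u • x2.1 = 0 → False := by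
    intro y u hyu h0
    have := hx2 y u (Subtype.ext h0)
    rcases hyu with h1 | h1
    · exact h1 this.1
    · exact h1 this.2
  refine ⟨vA s RB x1.1, vA s RB x2.1, x1.1, x2.1, ⟨?_, ?_, ?_⟩, fun y u => ⟨y • x1.1 + u • x2.1, hW y u,
    fun a _ => FPlane_vA s RB _ _ y u a, fun b _ => ?_⟩⟩
  · intro a ha a' ha' hne h0
    obtain ⟨y, u, hyu, e1, e2⟩ := FPlane_sol h0
    exact hind y u hyu (h.pair_aa hc hb hs ha ha' hne (hW y u) (by rw [FPlane_vA]; exact e1)
      (by rw [FPlane_vA]; exact e2))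
  · intro b hb' b' hb'' hne h0
    obtain ⟨y, u, hyu, e1, e2⟩ := FPlane_sol h0
    refine hind y u hyu (h.pair_bb hc hb hs hb' hb'' hne (hW y u) ?_ ?_)
    · simp only [Pi.add_apply, Pi.smul_apply, smul_eq_mul]
      linarith
    · simp only [Pi.add_apply, Pi.smul_apply, smul_eq_mul]
      linarith
  · intro a ha b hb' h0
    obtain ⟨y, u, hyu, e1, e2⟩ := FPlane_sol h0
    refine hind y u hyu (h.pair_ab hc hb hs ha hb' (hW y u) (by rw [FPlane_vA]; exact e1) ?_)
    simp only [Pi.add_apply, Pi.smul_apply, smul_eq_mul]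
    linarith
  · simp only [Pi.add_apply, Pi.smul_apply, smul_eq_mul]
    ring

end MCC
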