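import Pool.Agent.Lib_MP_cb5629.FCount

set_option linter.unusedSectionVars false

namespace MCC

open Finset

variable {A B : Type} [Fintype A] [Fintype B] [DecidableEq A] [DecidableEq B]

section FZBraPre

variable {s : A → B → ℤ} {RA : Finset A} {RB : Finset B} {d : ℕ} {g : A → Fin (d + 1)} {ε : A → ℤ}
  {ζ : Fin (d + 1) → ℤ} {η : B → ℤ}

lemma FZBra_count {X Y : Type} [Fintype X] [Fintype Y] (P : X ⊕ Y → Prop) [DecidablePred P] {m n : ℕ}
    (h1 : (univ.filter fun a => P (Sum.inl a)).card = m) (h2 : (univ.filter fun b => P (Sum.inr b)).card = n) :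
    (univ.filter P).card = m + n := by
  rw [card_filter, Fintype.sum_sum_type, ← card_filter, ← card_filter, h1, h2]

lemma FZBra_sub {X : Type} (R : Finset X) (P : X → Prop) [DecidablePred P] :
    (univ.filter fun a : {a : X // a ∈ R} => P a.1).card = (R.filter P).card := by
  rw [card_filter, card_filter]
  exact Finset.sum_coe_sort R fun a => if P a then 1 else 0

lemma FZBra_mem_PA {a : A} : a ∈ PA s RA RB ↔ a ∈ RA ∧ ∃ b, b ∉ RB ∧ s a b ≠ 0 := by
  unfold PA
  rw [mem_filter]
  constructor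
  · rintro ⟨h1, b, hb⟩
    rw [mem_sdiff, mem_nbA] at hb
    exact ⟨h1, b, hb.2, hb.1⟩
  · rintro ⟨h1, b, hb1, hb2⟩
    exact ⟨h1, b, by rw [mem_sdiff, mem_nbA]; exact ⟨hb2, hb1⟩⟩

lemma FZBra_mem_QB {b : B} : b ∈ QB s RA RB ↔ b ∈ RB ∧ ∃ a, a ∉ RA ∧ s a b ≠ 0 := by
  unfold QB
  rw [mem_filter]
  constructor
  · rintro ⟨h1, a, ha⟩
    rw [mem_sdiff, mem_nbB] at ha
    exact ⟨h1, a, ha.2, ha.1⟩
  · rintro ⟨h1, a, ha1, ha2⟩
    exact ⟨h1, a, by rw [mem_sdiff, mem_nbB]; exact ⟨ha2, ha1⟩⟩

/-- the legs of a set of rows, counted by rows -/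
lemma FZBra_legs (h : Core s RA RB d) {S : Finset A} (hS : S ⊆ RA) :
    (aLegs s S RB).card = (S ∩ PA s RA RB).card := by
  classical
  apply card_bij (fun p _ => p.1)
  · intro p hp
    rw [mem_aLegs] at hp
    exact mem_inter.2 ⟨hp.1, FZBra_mem_PA.2 ⟨hS hp.1, p.2, hp.2.1, hp.2.2⟩⟩
  · rintro ⟨a, b⟩ hp ⟨a', b'⟩ hp' hE
    rw [mem_aLegs] at hp hp'
    dsimp only at hE hp hp'
    subst hE
    have h1 := card_le_one.1 (h.uA a (hS hp.1)) b (by rw [mem_sdiff, mem_nbA]; exact ⟨hp.2.2, hp.2.1⟩) b'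
      (by rw [mem_sdiff, mem_nbA]; exact ⟨hp'.2.2, hp'.2.1⟩)
    rw [h1]
  · intro a ha
    rw [mem_inter] at ha
    obtain ⟨_, b, hb1, hb2⟩ := FZBra_mem_PA.1 ha.2
    exact ⟨(a, b), mem_aLegs.2 ⟨ha.1, hb1, hb2⟩, rfl⟩

/-- the legs of a set of rows, counted by columns -/
lemma FZBra_legs' (h : Core s RA RB d) {S : Finset A} (hS : S ⊆ RA) :
    (aLegs s S RB).card = (NA s S \ RB).card := by
  classical
  apply card_bij (fun p _ => p.2)
  · intro p hp
    rw [mem_aLegs] at hp
    exact mem_sdiff.2 ⟨mem_NA.2 ⟨p.1, hp.1, hp.2.2⟩, hp.2.1⟩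
  · rintro ⟨a, b⟩ hp ⟨a', b'⟩ hp' hE
    rw [mem_aLegs] at hp hp'
    dsimp only at hE hp hp'
    subst hE
    have h1 := card_le_one.1 (h.oB b hp.2.1) a (by rw [mem_inter, mem_nbB]; exact ⟨hp.2.2, hS hp.1⟩) a'
      (by rw [mem_inter, mem_nbB]; exact ⟨hp'.2.2, hS hp'.1⟩)
    rw [h1]
  · intro b hb
    rw [mem_sdiff, mem_NA] at hb
    obtain ⟨⟨a, ha, hab⟩, hbR⟩ := hb
    exact ⟨(a, b), mem_aLegs.2 ⟨ha, hbR, hab⟩, rfl⟩

/-- counting the edges between `S` and `N_R(S)` from both sides -/
lemma FZBra_edges (hc : Cubic s) (S : Finset A) (RB : Finset B) :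
    3 * S.card + (bLegs s S (NA s S ∩ RB)).card = 3 * (NA s S ∩ RB).card + (aLegs s S RB).card := by
  classical
  set E : Finset (A × B) := univ.filter fun p => p.1 ∈ S ∧ p.2 ∈ RB ∧ s p.1 p.2 ≠ 0 with hE
  have h1 : ((univ : Finset (A × B)).filter fun p => p.1 ∈ S ∧ s p.1 p.2 ≠ 0) = E ∪ aLegs s S RB := by
    ext p
    simp only [hE, mem_filter, mem_univ, true_and, mem_union, mem_aLegs]
    tauto
  have d1 : Disjoint E (aLegs s S RB) := by
    rw [disjoint_left]
    intro p hp hp'
    rw [hE, mem_filter] at hp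
    rw [mem_aLegs] at hp'
    exact hp'.2.1 hp.2.2.1
  have h2 : ((univ : Finset (A × B)).filter fun p => p.2 ∈ NA s S ∩ RB ∧ s p.1 p.2 ≠ 0) =
      E ∪ bLegs s S (NA s S ∩ RB) := by
    ext p
    simp only [hE, mem_filter, mem_univ, true_and, mem_union, mem_bLegs, mem_inter, mem_NA]
    constructor
    · rintro ⟨⟨h3, h4⟩, h5⟩
      by_cases hp : p.1 ∈ S
      · exact Or.inl ⟨hp, h4, h5⟩
      · exact Or.inr ⟨hp, ⟨h3, h4⟩, h5⟩
    · rintro (⟨h3, h4, h5⟩ | ⟨h3, h4, h5⟩)
      · exact ⟨⟨⟨p.1, h3, h5⟩, h4⟩, h5⟩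
      · exact ⟨h4, h5⟩
  have d2 : Disjoint E (bLegs s S (NA s S ∩ RB)) := by
    rw [disjoint_left]
    intro p hp hp'
    rw [hE, mem_filter] at hp
    rw [mem_bLegs] at hp'
    exact hp'.1 hp.2.1
  have c1 := hc.card_edges S
  rw [h1, card_union_of_disjoint d1] at c1
  have c2 := hc.tr.card_edges (NA s S ∩ RB)
  have c3 : ((univ : Finset (B × A)).filter fun p => p.1 ∈ NA s S ∩ RB ∧ MCC.tr s p.1 p.2 ≠ 0).card =
      ((univ : Finset (A × B)).filter fun p => p.2 ∈ NA s S ∩ RB ∧ s p.1 p.2 ≠ 0).card := by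
    apply card_bij (fun p _ => (p.2, p.1))
    · rintro ⟨b, a⟩ hp
      rw [mem_filter] at hp ⊢
      exact ⟨mem_univ _, hp.2⟩
    · rintro ⟨b, a⟩ _ ⟨b', a'⟩ _ hE'
      simp only [Prod.mk.injEq] at hE' ⊢
      exact ⟨hE'.2, hE'.1⟩
    · rintro ⟨a, b⟩ hp
      rw [mem_filter] at hp
      exact ⟨(b, a), mem_filter.2 ⟨mem_univ _, hp.2⟩, rfl⟩
  rw [c3, h2, card_union_of_disjoint d2] at c2
  omega

end FZBraPre

lemma FZBra_card {RA : Finset A} : Fintype.card ({a : A // a ∈ RA} ⊕ Unit) = RA.card + 1 := by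
  simp

/-- Piece ZBRA ((2.4) of the paper text). The z-closing is a brace.

Proof. Let `S` be a nonempty set of rows of the closing with `|S| + 2 ≤ |RA| + 1`; suppose `|N'(S)| ≤ |S| + 1`.
(1) `z ∉ S`: regard `S ⊆ RA`, `|S| < |RA|`. `N_R = NA s S ∩ RB`, `m = |S ∩ PA|`, `t` = number of `w` with both rows of the fibre in `S`. Every row of
`S ∩ PA` sees one new column, two of them the same one exactly for the `t` fibres: `|N'(S)| = |N_R| + m - t`. In `s`: the legs of the rows
of `S ∩ PA` end in different columns (`oB`), so `|NA s S| = |N_R| + m ≥ |S| + 2`. So with `e = |S| - |N_R|` (an integer)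
`m - 1 - t ≤ e ≤ m - 2`. Counting the edges between `S` and `N_R`: `3 |S| = E + m`, `3 |N_R| = E + L` with `L = |bLegs s S N_R|`, so `L = m - 3 e ≥ 0`.
With `2 t ≤ m ≤ 2 d + 2` this leaves `(m,t,e) = (2,1,0), (3,1,1), (4,2,1), (6,3,2)`. In the cases `(2,1,0), (4,2,1), (6,3,2)` the pair `(S, N_R)` is
`Nontriv s S N_R e` (`|S| ≥ m ≥ 2 + e`, `|S| + 2 ≤ |RA| + 1 ≤ n - 1`), against `h.min`. In the case `(3,1,1)`: `L = 0`, so `NB s N_R ⊆ S`, `|S| = |N_R| + 1`,
`N_R ≠ ∅` (`|S| ≥ m = 3`), against the dual brace property.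
(2) `z ∈ S`: let `T` be the set of columns of the closing not in `N'(S)`; they are in `RB \ QB` (all new columns and all `QB` are adjacent to `z`), so
`NB s T ⊆ RA` and `NB s T` avoids `S`: `|NB s T| ≤ |RA| + 1 - |S|`. If `T = ∅`: `|N'(S)| = |RB| + d + 1 = |RA| + 1 ≥ |S| + 2`. Otherwise
`|T| + 2 ≤ |NB s T| ≤ |RA| + 1 - |S|` with `|T| = |RA| + 1 - |N'(S)|` gives `|N'(S)| ≥ |S| + 2`. Contradiction in both cases. -/
theorem zcl_brace {s : A → B → ℤ} (hc : Cubic s) (hb : Brace s) {RA : Finset A} {RB : Finset B} {d : ℕ}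
    (h : Core s RA RB d) {g : A → Fin (d + 1)} {ε : A → ℤ} {ζ : Fin (d + 1) → ℤ} {η : B → ℤ}
    (hz : ZData (PA s RA RB) (QB s RA RB) d g ε ζ η) : Brace (zcl s RA RB d g ε ζ η) := by
  classical
  have hRAn := h.upp
  have hlow := h.low
  have hcardR := h.card
  have hABc := hc.card_eq
  have hzlr : ∀ (a : {a : A // a ∈ RA}) (w : Fin (d + 1)),
      zcl s RA RB d g ε ζ η (Sum.inl a) (Sum.inr w) ≠ 0 ↔ a.1 ∈ PA s RA RB ∧ g a.1 = w := by
    intro a w
    have e : zcl s RA RB d g ε ζ η (Sum.inl a) (Sum.inr w) =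
        if a.1 ∈ PA s RA RB ∧ g a.1 = w then ε a.1 else 0 := rfl
    rw [e]
    constructor
    · intro hh
      by_contra hcon
      exact hh (if_neg hcon)
    · intro hh
      rw [if_pos hh]
      rcases hz.ε1 a.1 hh.1 with h1 | h1 <;> rw [h1] <;> norm_num
  refine ⟨?_, ?_⟩
  · rw [FZBra_card]
    omega
  · intro S hS hS2
    rw [FZBra_card] at hS2
    set G1 := zcl s RA RB d g ε ζ η with hG1
    set S0 : Finset A := RA.filter fun a => ∃ ha : a ∈ RA, (Sum.inl ⟨a, ha⟩ : {a : A // a ∈ RA} ⊕ Unit) ∈ S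
      with hS0
    have hS0R : S0 ⊆ RA := filter_subset _ _
    have hS0m : ∀ (a : {a : A // a ∈ RA}), a.1 ∈ S0 ↔ Sum.inl a ∈ S := by
      intro a
      rw [hS0, mem_filter]
      constructor
      · rintro ⟨_, _, h2⟩
        exact h2
      · intro h2
        exact ⟨a.2, a.2, h2⟩
    have hScard : S.card = S0.card + (if (Sum.inr () : {a : A // a ∈ RA} ⊕ Unit) ∈ S then 1 else 0) := by
      have e1 : S = univ.filter fun r => r ∈ S := by
        ext r
        simp
      conv_lhs => rw [e1]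
      refine FZBra_count _ ?_ ?_
      · have e2 : (univ.filter fun a : {a : A // a ∈ RA} => (Sum.inl a : {a : A // a ∈ RA} ⊕ Unit) ∈ S) =
            univ.filter fun a : {a : A // a ∈ RA} => a.1 ∈ S0 := by
          ext a
          rw [mem_filter, mem_filter, hS0m]
        rw [e2, FZBra_sub RA (fun a => a ∈ S0)]
        apply congrArg
        ext a
        rw [mem_filter]
        exact ⟨fun hh => hh.2, fun hh => ⟨hS0R hh, hh⟩⟩
      · rw [card_filter]
        exact Fintype.sum_unique _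
    have hNinl : ∀ b : {b : B // b ∈ RB}, Sum.inl b ∈ NA G1 S ↔
        b.1 ∈ NA s S0 ∨ ((Sum.inr () : {a : A // a ∈ RA} ⊕ Unit) ∈ S ∧ b.1 ∈ QB s RA RB) := by
      intro b
      rw [mem_NA, mem_NA]
      constructor
      · rintro ⟨r, hr, hrb⟩
        rcases r with a | z
        · exact Or.inl ⟨a.1, (hS0m a).2 hr, hrb⟩
        · refine Or.inr ⟨hr, ?_⟩
          by_contra hQ
          exact hrb (if_neg hQ)
      · rintro (⟨a, ha, hab⟩ | ⟨hz', hQ⟩)
        · exact ⟨Sum.inl ⟨a, hS0R ha⟩, (hS0m ⟨a, hS0R ha⟩).1 ha, hab⟩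
        · refine ⟨Sum.inr (), hz', ?_⟩
          have e : G1 (Sum.inr ()) (Sum.inl b) = if b.1 ∈ QB s RA RB then η b.1 else 0 := rfl
          rw [e, if_pos hQ]
          rcases hz.η1 b.1 hQ with h1 | h1 <;> rw [h1] <;> norm_num
    have hNinr : ∀ w : Fin (d + 1), Sum.inr w ∈ NA G1 S ↔
        w ∈ (S0 ∩ PA s RA RB).image g ∨ (Sum.inr () : {a : A // a ∈ RA} ⊕ Unit) ∈ S := by
      intro w
      rw [mem_NA, mem_image]
      constructor
      · rintro ⟨r, hr, hrb⟩
        rcases r with a | z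
        · have h1 := (hzlr a w).1 hrb
          exact Or.inl ⟨a.1, mem_inter.2 ⟨(hS0m a).2 hr, h1.1⟩, h1.2⟩
        · exact Or.inr hr
      · rintro (⟨a, ha, hab⟩ | hz')
        · rw [mem_inter] at ha
          exact ⟨Sum.inl ⟨a, hS0R ha.1⟩, (hS0m ⟨a, hS0R ha.1⟩).1 ha.1, (hzlr ⟨a, hS0R ha.1⟩ w).2 ⟨ha.2, hab⟩⟩
        · refine ⟨Sum.inr (), hz', ?_⟩
          have e : G1 (Sum.inr ()) (Sum.inr w) = ζ w := rfl
          rw [e]
          rcases hz.ζ1 w with h1 | h1 <;> rw [h1] <;> norm_num
    have eN : NA G1 S = univ.filter fun c => c ∈ NA G1 S := by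
      ext c
      simp
    by_cases hzS : (Sum.inr () : {a : A // a ∈ RA} ⊕ Unit) ∈ S
    · -- case 2
      rw [if_pos hzS] at hScard
      set T0 : Finset B := RB.filter fun b => ¬ (b ∈ NA s S0 ∨ b ∈ QB s RA RB) with hT0
      have hNcard : (NA G1 S).card = (RB.card - T0.card) + (d + 1) := by
        rw [eN]
        refine FZBra_count _ ?_ ?_
        · have e2 : (univ.filter fun b : {b : B // b ∈ RB} => (Sum.inl b : {b : B // b ∈ RB} ⊕ Fin (d + 1)) ∈
              NA G1 S) = univ.filter fun b : {b : B // b ∈ RB} => (b.1 ∈ NA s S0 ∨ b.1 ∈ QB s RA RB) := by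
            ext b
            rw [mem_filter, mem_filter, hNinl]
            tauto
          rw [e2, FZBra_sub RB (fun b => b ∈ NA s S0 ∨ b ∈ QB s RA RB)]
          have h3 := card_filter_add_card_filter_not (s := RB) (fun b => b ∈ NA s S0 ∨ b ∈ QB s RA RB)
          rw [← hT0] at h3
          omega
        · have hall : ∀ w ∈ (univ : Finset (Fin (d + 1))),
              (Sum.inr w : {b : B // b ∈ RB} ⊕ Fin (d + 1)) ∈ NA G1 S := fun w _ => (hNinr w).2 (Or.inr hzS)
          rw [filter_true_of_mem hall, card_univ, Fintype.card_fin]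
      have hT0R : T0 ⊆ RB := filter_subset _ _
      have hT0c := card_le_card hT0R
      rcases T0.eq_empty_or_nonempty with hTe | hTn
      · rw [hTe, card_empty] at hNcard
        omega
      · have hbt := (hb.tr hc).hall T0 hTn (by rw [← hABc]; omega)
        rw [NA_tr] at hbt
        have hsub : NB s T0 ⊆ RA \ S0 := by
          intro a ha
          rw [mem_NB] at ha
          obtain ⟨b, hb0, hab⟩ := ha
          rw [hT0, mem_filter, not_or] at hb0
          rw [mem_sdiff]
          constructor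
          · by_contra haR
            exact hb0.2.2 (FZBra_mem_QB.2 ⟨hb0.1, a, haR, hab⟩)
          · intro haS
            exact hb0.2.1 (mem_NA.2 ⟨a, haS, hab⟩)
        have h3 := card_le_card hsub
        rw [card_sdiff_of_subset hS0R] at h3
        have h4 := card_le_card hS0R
        omega
    · -- case 1
      rw [if_neg hzS] at hScard
      have hNcard : (NA G1 S).card = (NA s S0 ∩ RB).card + ((S0 ∩ PA s RA RB).image g).card := by
        rw [eN]
        refine FZBra_count _ ?_ ?_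
        · have e2 : (univ.filter fun b : {b : B // b ∈ RB} => (Sum.inl b : {b : B // b ∈ RB} ⊕ Fin (d + 1)) ∈
              NA G1 S) = univ.filter fun b : {b : B // b ∈ RB} => b.1 ∈ NA s S0 := by
            ext b
            rw [mem_filter, mem_filter, hNinl]
            tauto
          rw [e2, FZBra_sub RB (fun b => b ∈ NA s S0)]
          apply congrArg
          ext b
          rw [mem_filter, mem_inter]
          tauto
        · apply congrArg
          ext w
          rw [mem_filter, hNinr]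
          have := mem_univ w
          tauto
      set m := (S0 ∩ PA s RA RB).card with hm
      set NR := NA s S0 ∩ RB with hNR
      have hleg := FZBra_legs h hS0R
      have hleg' := FZBra_legs' h hS0R
      have hedge := FZBra_edges hc S0 RB
      rw [← hNR] at hedge
      have hsplit : NR.card + (NA s S0 \ RB).card = (NA s S0).card := by
        rw [hNR, add_comm]
        exact card_sdiff_add_card_inter _ _
      have hS0n : S0.Nonempty := by
        rw [← card_pos]
        have := card_pos.2 hS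
        omega
      have hbr := hb.hall S0 hS0n (by omega)
      have hW : m ≤ 2 * ((S0 ∩ PA s RA RB).image g).card := by
        apply card_le_mul_card_image
        intro w _
        rw [← hz.fib w]
        apply card_le_card
        intro a ha
        rw [mem_filter, mem_inter] at ha
        exact mem_filter.2 ⟨ha.1.2, ha.2⟩
      have hmS : m ≤ S0.card := card_le_card inter_subset_left
      by_contra hlt
      push Not at hlt
      have hltR : S0.card < RA.card := by omega
      -- no smaller shore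
      have nomin : ∀ e, S0.card = NR.card + e → (bLegs s S0 NR).card + e = 2 → e + 2 ≤ S0.card → False := by
        intro e h1 h2 h3
        exact h.min S0 hS0R hltR e
          { card := h1
            legs := h2
            low := h3
            upp := by omega }
      have c1 : m ≤ 6 := by omega
      have c2 : 2 ≤ m := by omega
      have c5 : m ≠ 5 := by omega
      have hcases : m = 2 ∨ m = 3 ∨ m = 4 ∨ m = 6 := by omega
      rcases hcases with hm2 | hm3 | hm4 | hm6
      · exact nomin 0 (by omega) (by omega) (by omega)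
      · have hL : (bLegs s S0 NR).card = 0 := by omega
        have hNRn : NR.Nonempty := by
          rw [← card_pos]
          omega
        have hbt := (hb.tr hc).hall NR hNRn (by rw [← hABc]; omega)
        rw [NA_tr] at hbt
        have hsub : NB s NR ⊆ S0 := by
          intro a ha
          rw [mem_NB] at ha
          obtain ⟨b, hb0, hab⟩ := ha
          by_contra haS
          rw [card_eq_zero, eq_empty_iff_forall_notMem] at hL
          exact hL (a, b) (mem_bLegs.2 ⟨haS, hb0, hab⟩)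
        have h3 := card_le_card hsub
        omega
      · exact nomin 1 (by omega) (by omega) (by omega)
      · exact nomin 2 (by omega) (by omega) (by omega)

end MCC
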