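import Pool.Agent.Lib_MP_cb5629.FCount

set_option linter.unusedSectionVars false

namespace MCC

open Finset

variable {A B : Type} [Fintype A] [Fintype B] [DecidableEq A] [DecidableEq B]

section FZCubPre

variable {s : A → B → ℤ} {RA : Finset A} {RB : Finset B} {d : ℕ} {g : A → Fin (d + 1)} {ε : A → ℤ}
  {ζ : Fin (d + 1) → ℤ} {η : B → ℤ}

lemma FZCub_ll (a : {a : A // a ∈ RA}) (b : {b : B // b ∈ RB}) :
    zcl s RA RB d g ε ζ η (Sum.inl a) (Sum.inl b) = s a.1 b.1 := rfl

lemma FZCub_lr (a : {a : A // a ∈ RA}) (w : Fin (d + 1)) :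
    zcl s RA RB d g ε ζ η (Sum.inl a) (Sum.inr w) = if a.1 ∈ PA s RA RB ∧ g a.1 = w then ε a.1 else 0 :=
  rfl

lemma FZCub_rl (z : Unit) (b : {b : B // b ∈ RB}) :
    zcl s RA RB d g ε ζ η (Sum.inr z) (Sum.inl b) = if b.1 ∈ QB s RA RB then η b.1 else 0 := rfl

lemma FZCub_rr (z : Unit) (w : Fin (d + 1)) :
    zcl s RA RB d g ε ζ η (Sum.inr z) (Sum.inr w) = ζ w := rfl

lemma FZCub_mem_PA {a : A} : a ∈ PA s RA RB ↔ a ∈ RA ∧ (nbA s a \ RB).Nonempty := by
  simp [PA]

lemma FZCub_mem_QB {b : B} : b ∈ QB s RA RB ↔ b ∈ RB ∧ (nbB s b \ RA).Nonempty := by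
  simp [QB]

/-- number of A-legs of a row of `RA` -/
lemma FZCub_legA (h : Core s RA RB d) {a : A} (ha : a ∈ RA) :
    (nbA s a \ RB).card = if a ∈ PA s RA RB then 1 else 0 := by
  by_cases hP : a ∈ PA s RA RB
  · rw [if_pos hP]
    have h1 := h.uA a ha
    have h2 : 0 < (nbA s a \ RB).card := card_pos.2 (FZCub_mem_PA.1 hP).2
    omega
  · rw [if_neg hP, card_eq_zero, ← not_nonempty_iff_eq_empty]
    exact fun hne => hP (FZCub_mem_PA.2 ⟨ha, hne⟩)

/-- number of B-legs of a column of `RB` -/
lemma FZCub_legB (h : Core s RA RB d) {b : B} (hb : b ∈ RB) :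
    (nbB s b \ RA).card = if b ∈ QB s RA RB then 1 else 0 := by
  by_cases hQ : b ∈ QB s RA RB
  · rw [if_pos hQ]
    have h1 := h.uB b hb
    have h2 : 0 < (nbB s b \ RA).card := card_pos.2 (FZCub_mem_QB.1 hQ).2
    omega
  · rw [if_neg hQ, card_eq_zero, ← not_nonempty_iff_eq_empty]
    exact fun hne => hQ (FZCub_mem_QB.2 ⟨hb, hne⟩)

lemma FZCub_eps_ne {P : Finset A} {Q : Finset B} (hz : ZData P Q d g ε ζ η) {a : A} (ha : a ∈ P) : ε a ≠ 0 := by
  rcases hz.ε1 a ha with h | h <;> rw [h] <;> norm_num

lemma FZCub_zeta_ne {P : Finset A} {Q : Finset B} (hz : ZData P Q d g ε ζ η) (w : Fin (d + 1)) : ζ w ≠ 0 := by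
  rcases hz.ζ1 w with h | h <;> rw [h] <;> norm_num

lemma FZCub_eta_ne {P : Finset A} {Q : Finset B} (hz : ZData P Q d g ε ζ η) {b : B} (hb : b ∈ Q) : η b ≠ 0 := by
  rcases hz.η1 b hb with h | h <;> rw [h] <;> norm_num

lemma FZCub_filter_split (X Y : Finset A) : (X ∩ Y).card + (X \ Y).card = X.card := by
  rw [add_comm]
  exact card_sdiff_add_card_inter X Y

lemma FZCub_lr_ne (hz : ZData (PA s RA RB) (QB s RA RB) d g ε ζ η) (a : {a : A // a ∈ RA}) (w : Fin (d + 1)) :
    zcl s RA RB d g ε ζ η (Sum.inl a) (Sum.inr w) ≠ 0 ↔ a.1 ∈ PA s RA RB ∧ g a.1 = w := by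
  rw [FZCub_lr]
  constructor
  · intro hh
    by_contra hcon
    exact hh (if_neg hcon)
  · intro hh
    rw [if_pos hh]
    exact FZCub_eps_ne hz hh.1

lemma FZCub_rl_ne (hz : ZData (PA s RA RB) (QB s RA RB) d g ε ζ η) (z : Unit) (b : {b : B // b ∈ RB}) :
    zcl s RA RB d g ε ζ η (Sum.inr z) (Sum.inl b) ≠ 0 ↔ b.1 ∈ QB s RA RB := by
  rw [FZCub_rl]
  constructor
  · intro hh
    by_contra hcon
    exact hh (if_neg hcon)
  · intro hh
    rw [if_pos hh]
    exact FZCub_eta_ne hz hh

end FZCubPre

lemma FZCub_count {X Y : Type} [Fintype X] [Fintype Y] (P : X ⊕ Y → Prop) [DecidablePred P] {m n : ℕ}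
    (h1 : (univ.filter fun a => P (Sum.inl a)).card = m) (h2 : (univ.filter fun b => P (Sum.inr b)).card = n) :
    (univ.filter P).card = m + n := by
  rw [card_filter, Fintype.sum_sum_type, ← card_filter, ← card_filter, h1, h2]

lemma FZCub_sub {X : Type} (R : Finset X) (P : X → Prop) [DecidablePred P] :
    (univ.filter fun a : {a : X // a ∈ R} => P a.1).card = (R.filter P).card := by
  rw [card_filter, card_filter]
  exact Finset.sum_coe_sort R fun a => if P a then 1 else 0

lemma FZCub_unit (P : Unit → Prop) [DecidablePred P] (h : P ()) : (univ.filter P).card = 1 := by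
  rw [card_filter]
  simp [h]

lemma FZCub_unit0 (P : Unit → Prop) [DecidablePred P] (h : ¬ P ()) : (univ.filter P).card = 0 := by
  rw [card_filter]
  simp [h]

/-- Piece ZCUB. The z-closing is cubic: a row `a ∈ RA` outside `PA` has its three neighbours in `RB`, a row of `PA` has exactly one leg (`uA`), replaced by
the edge to `g a`; a column `b ∈ RB` outside `QB` has its three neighbours in `RA`, a column of `QB` has exactly one outside (`uB`),
replaced by `z`; a new column `w` has `z` and the two rows of its fibre; `z` has `d + 1` new columns and `|QB| = 2 - d`. -/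
theorem zcl_cubic {s : A → B → ℤ} (hc : Cubic s) {RA : Finset A} {RB : Finset B} {d : ℕ} (h : Core s RA RB d)
    {g : A → Fin (d + 1)} {ε : A → ℤ} {ζ : Fin (d + 1) → ℤ} {η : B → ℤ}
    (hz : ZData (PA s RA RB) (QB s RA RB) d g ε ζ η) : Cubic (zcl s RA RB d g ε ζ η) := by
  classical
  refine ⟨?_, ?_, ?_⟩
  · rintro (a | z) (b | w)
    · rw [FZCub_ll]
      exact hc.val _ _
    · rw [FZCub_lr]
      split_ifs with hh
      · rcases hz.ε1 _ hh.1 with h1 | h1
        · exact Or.inr (Or.inl h1)
        · exact Or.inr (Or.inr h1)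
      · exact Or.inl rfl
    · rw [FZCub_rl]
      split_ifs with hh
      · rcases hz.η1 _ hh with h1 | h1
        · exact Or.inr (Or.inl h1)
        · exact Or.inr (Or.inr h1)
      · exact Or.inl rfl
    · rw [FZCub_rr]
      rcases hz.ζ1 w with h1 | h1
      · exact Or.inr (Or.inl h1)
      · exact Or.inr (Or.inr h1)
  · rintro (a | z)
    · have e3 := FZCub_filter_split (nbA s a.1) RB
      have e4 := hc.row a.1
      have e5 := FZCub_legA h a.2
      have e6 : (nbA (zcl s RA RB d g ε ζ η) (Sum.inl a)).card =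
          (nbA s a.1 ∩ RB).card + (if a.1 ∈ PA s RA RB then 1 else 0) := by
        refine FZCub_count _ ?_ ?_
        · refine (FZCub_sub RB (fun b => s a.1 b ≠ 0)).trans ?_
          apply congrArg
          ext b
          simp only [mem_filter, mem_inter, mem_nbA]
          tauto
        · by_cases hP : a.1 ∈ PA s RA RB
          · rw [if_pos hP, card_eq_one]
            refine ⟨g a.1, ?_⟩
            ext w
            rw [mem_filter, mem_singleton, FZCub_lr_ne hz]
            constructor
            · rintro ⟨_, _, hh⟩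
              exact hh.symm
            · intro hh
              exact ⟨mem_univ _, hP, hh.symm⟩
          · rw [if_neg hP, card_eq_zero, filter_eq_empty_iff]
            intro w _ hne
            exact hP ((FZCub_lr_ne hz a w).1 hne).1
      omega
    · have e6 : (nbA (zcl s RA RB d g ε ζ η) (Sum.inr z)).card = (QB s RA RB).card + (d + 1) := by
        refine FZCub_count _ ?_ ?_
        · refine (FZCub_sub RB (fun b => (if b ∈ QB s RA RB then η b else 0) ≠ 0)).trans ?_
          apply congrArg
          ext b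
          rw [mem_filter]
          constructor
          · rintro ⟨h1, h2⟩
            by_contra hQ
            exact h2 (if_neg hQ)
          · intro hQ
            refine ⟨(FZCub_mem_QB.1 hQ).1, ?_⟩
            rw [if_pos hQ]
            exact FZCub_eta_ne hz hQ
        · have hall : ∀ w ∈ (univ : Finset (Fin (d + 1))),
              zcl s RA RB d g ε ζ η (Sum.inr z) (Sum.inr w) ≠ 0 := fun w _ => FZCub_zeta_ne hz w
          rw [filter_true_of_mem hall, card_univ, Fintype.card_fin]
      have e3 := h.cardQB hc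
      omega
  · rintro (b | w)
    · have e3 := FZCub_filter_split (nbB s b.1) RA
      have e4 := hc.col b.1
      have e5 := FZCub_legB h b.2
      have e6 : (nbB (zcl s RA RB d g ε ζ η) (Sum.inl b)).card =
          (nbB s b.1 ∩ RA).card + (if b.1 ∈ QB s RA RB then 1 else 0) := by
        refine FZCub_count _ ?_ ?_
        · refine (FZCub_sub RA (fun a => s a b.1 ≠ 0)).trans ?_
          apply congrArg
          ext a
          simp only [mem_filter, mem_inter, mem_nbB]
          tauto
        · by_cases hQ : b.1 ∈ QB s RA RB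
          · rw [if_pos hQ]
            exact FZCub_unit _ ((FZCub_rl_ne hz () b).2 hQ)
          · rw [if_neg hQ]
            exact FZCub_unit0 _ (fun hh => hQ ((FZCub_rl_ne hz () b).1 hh))
      omega
    · have e6 : (nbB (zcl s RA RB d g ε ζ η) (Sum.inr w)).card = 2 + 1 := by
        refine FZCub_count _ ?_ ?_
        · refine (FZCub_sub RA (fun a => (if a ∈ PA s RA RB ∧ g a = w then ε a else 0) ≠ 0)).trans ?_
          rw [← hz.fib w]
          apply congrArg
          ext a
          rw [mem_filter, mem_filter]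
          constructor
          · rintro ⟨h1, h2⟩
            by_contra hQ
            exact h2 (if_neg hQ)
          · intro hQ
            refine ⟨(FZCub_mem_PA.1 hQ.1).1, ?_⟩
            rw [if_pos hQ]
            exact FZCub_eps_ne hz hQ.1
        · exact FZCub_unit _ (FZCub_zeta_ne hz w)
      omega

/-- the z-closing has `|RA| + 1` rows -/
theorem zcl_card {RA : Finset A} : Fintype.card ({a : A // a ∈ RA} ⊕ Unit) = RA.card + 1 := by
  simp

/-- Piece ZNEG. The negative edges of the z-closing are new edges (`pos`). -/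
theorem zcl_neg {s : A → B → ℤ} {RA : Finset A} {RB : Finset B} {d : ℕ} (h : Core s RA RB d)
    {g : A → Fin (d + 1)} {ε : A → ℤ} {ζ : Fin (d + 1) → ℤ} {η : B → ℤ} :
    (neg (zcl s RA RB d g ε ζ η)).card = zneg (PA s RA RB) (QB s RA RB) d ε ζ η := by
  classical
  have hz2 : (neg (zcl s RA RB d g ε ζ η)).card =
      (∑ r : {a : A // a ∈ RA} ⊕ Unit, (univ.filter fun c => zcl s RA RB d g ε ζ η r c = -1).card) := by
    rw [neg, card_filter, Fintype.sum_prod_type]
    apply Finset.sum_congr rfl
    intro r _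
    rw [card_filter]
  have hl : ∀ a : {a : A // a ∈ RA}, (univ.filter fun c => zcl s RA RB d g ε ζ η (Sum.inl a) c = -1).card =
      if a.1 ∈ PA s RA RB ∧ ε a.1 = -1 then 1 else 0 := by
    intro a
    rw [← zero_add (if a.1 ∈ PA s RA RB ∧ ε a.1 = -1 then 1 else 0)]
    refine FZCub_count _ ?_ ?_
    · rw [card_eq_zero, filter_eq_empty_iff]
      intro b _
      rw [FZCub_ll]
      have := h.pos a.1 a.2 b.1 b.2
      omega
    · by_cases hP : a.1 ∈ PA s RA RB ∧ ε a.1 = -1
      · rw [if_pos hP, card_eq_one]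
        refine ⟨g a.1, ?_⟩
        ext w
        rw [mem_filter, mem_singleton, FZCub_lr]
        constructor
        · rintro ⟨_, hh⟩
          by_contra hcon
          rw [if_neg (fun h3 => hcon h3.2.symm)] at hh
          omega
        · intro hh
          refine ⟨mem_univ _, ?_⟩
          rw [if_pos ⟨hP.1, hh.symm⟩]
          exact hP.2
      · rw [if_neg hP, card_eq_zero, filter_eq_empty_iff]
        intro w _ hh
        rw [FZCub_lr] at hh
        apply hP
        by_cases h3 : a.1 ∈ PA s RA RB ∧ g a.1 = w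
        · rw [if_pos h3] at hh
          exact ⟨h3.1, hh⟩
        · rw [if_neg h3] at hh
          omega
  have hr : (univ.filter fun c => zcl s RA RB d g ε ζ η (Sum.inr ()) c = -1).card =
      ((QB s RA RB).filter fun b => η b = -1).card + (univ.filter fun w => ζ w = -1).card := by
    refine FZCub_count _ ?_ rfl
    refine (FZCub_sub RB (fun b => (if b ∈ QB s RA RB then η b else 0) = -1)).trans ?_
    apply congrArg
    ext b
    rw [mem_filter, mem_filter]
    constructor
    · rintro ⟨h1, h2⟩
      by_cases hQ : b ∈ QB s RA RB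
      · rw [if_pos hQ] at h2
        exact ⟨hQ, h2⟩
      · rw [if_neg hQ] at h2
        omega
    · rintro ⟨hQ, h2⟩
      refine ⟨(FZCub_mem_QB.1 hQ).1, ?_⟩
      rw [if_pos hQ]
      exact h2
  rw [hz2, Fintype.sum_sum_type, Finset.sum_congr rfl (fun a _ => hl a)]
  have hs1 : (∑ a : {a : A // a ∈ RA}, if a.1 ∈ PA s RA RB ∧ ε a.1 = -1 then (1 : ℕ) else 0) =
      ((PA s RA RB).filter fun a => ε a = -1).card := by
    rw [← card_filter]
    refine (FZCub_sub RA (fun a => a ∈ PA s RA RB ∧ ε a = -1)).trans ?_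
    apply congrArg
    ext a
    rw [mem_filter, mem_filter]
    constructor
    · rintro ⟨_, h2⟩
      exact h2
    · intro hQ
      exact ⟨(FZCub_mem_PA.1 hQ.1).1, hQ⟩
  have hs2 : (∑ z : Unit, (univ.filter fun c => zcl s RA RB d g ε ζ η (Sum.inr z) c = -1).card) =
      ((QB s RA RB).filter fun b => η b = -1).card + (univ.filter fun w => ζ w = -1).card := by
    rw [← hr]
    simp
  rw [hs1, hs2]
  unfold zneg
  omega

end MCC
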