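import Pool.Agent.Lib_MP_cb5629.FCount
import Pool.Agent.Lib_MP_cb5629.Tools

/-! (2.1) of the paper text: perfect matchings of three subgraphs. -/

set_option linter.unusedSectionVars false

namespace MCC

open Finset

variable {A B : Type} [Fintype A] [Fintype B] [DecidableEq A] [DecidableEq B]

/-- the rows `a0`, `a0'` keep their A-legs, the other rows of `RA` keep their edges to `RB \ Q` -/
def H1 (s : A → B → ℤ) (RA : Finset A) (RB : Finset B) (a0 a0' : A) : A → B → ℤ := fun a b =>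
  if a ∈ RA then (if a = a0 ∨ a = a0' then (if b ∈ RB then 0 else s a b)
    else (if b ∈ RB ∧ b ∉ QB s RA RB then s a b else 0)) else s a b

/-- the row `a0` keeps its A-leg, the other rows of `RA` keep their edges to `RB \ (Q \ {b0})` -/
def H2 (s : A → B → ℤ) (RA : Finset A) (RB : Finset B) (a0 : A) (b0 : B) : A → B → ℤ := fun a b =>
  if a ∈ RA then (if a = a0 then (if b ∈ RB then 0 else s a b)
    else (if b ∈ RB ∧ (b ∉ QB s RA RB ∨ b = b0) then s a b else 0)) else s a b

/-- the rows of `RA` keep their edges to `RB` -/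
def H3 (s : A → B → ℤ) (RA : Finset A) (RB : Finset B) : A → B → ℤ := fun a b =>
  if a ∈ RA then (if b ∈ RB then s a b else 0) else s a b

/-- Piece M1.

Proof. It suffices to give an injective `f : A → B` with `H1 a (f a) ≠ 0` (`pm_of_inj`, `hc.card_eq`). Let `π`, `κ` be as in `exists_pi`, `exists_ka`.
(1) `RA \ {a0,a0'}` is matched with `RB \ QB` (`hall_on'`): both have `|RA| - 2` elements (`|RB| = |RA| - d`, `|QB| = 2 - d`); for `∅ ≠ T ⊆ RB \ QB` all
neighbours are in `RA`, and `|NB T| ≥ |T| + 2` (dual brace, `|T| ≤ |RA| ≤ n - 2`), so `|NB T ∩ (RA \ {a0,a0'})| ≥ |T|`.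
(2) `a0 ↦ π a0`, `a0' ↦ π a0'`. (3) `κ b ↦ b` for `b ∈ QB`. (4) `KA \ κ(QB)` (`KA = ` rows outside `RA`) is mapped injectively into
`(B \ RB) \ {π a0, π a0'}` (`hall_on`): a nonempty subset `U` has `|NA U| ≥ |U| + 2` (`|U| ≤ n - |RA| ≤ n - 2`), and `NA U ∩ RB = ∅` by `exists_ka`.
The four images are disjoint. -/
theorem Core.m1 {s : A → B → ℤ} (hc : Cubic s) (hb : Brace s) {RA : Finset A} {RB : Finset B} {d : ℕ}
    (h : Core s RA RB d) {a0 a0' : A} (h0 : a0 ∈ PA s RA RB) (h0' : a0' ∈ PA s RA RB) (hne : a0 ≠ a0') :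
    ∃ σ : A ≃ B, IsPM (H1 s RA RB a0 a0') σ := by
  classical
  have hcard := hc.card_eq
  have hAne : Nonempty A := ⟨a0⟩
  have hBne : Nonempty B := by
    obtain ⟨_, b, _⟩ := mem_filter.1 h0
    exact ⟨b⟩
  obtain ⟨π, hπ, hπinj⟩ := h.exists_pi
  obtain ⟨κ, hκ, hκinj, hκout⟩ := h.exists_ka
  have ha0R : a0 ∈ RA := (mem_filter.1 h0).1
  have ha0R' : a0' ∈ RA := (mem_filter.1 h0').1
  have hQR : QB s RA RB ⊆ RB := filter_subset _ _
  have hlow := h.low
  have hupp := h.upp
  have hsc := h.card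
  have hQc := h.cardQB hc
  have hpp : π a0 ≠ π a0' := fun e => hne (hπinj (mem_coe.2 h0) (mem_coe.2 h0') e)
  have hpair : ({a0, a0'} : Finset A).card = 2 := card_pair hne
  have hpair' : ({π a0, π a0'} : Finset B).card = 2 := card_pair hpp
  -- the first part
  have hsub : ({a0, a0'} : Finset A) ⊆ RA := by
    intro a ha
    rcases mem_insert.1 ha with rfl | ha
    · exact ha0R
    · rw [mem_singleton.1 ha]; exact ha0R'
  have hc1 : (RA \ {a0, a0'}).card = (RB \ QB s RA RB).card := by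
    rw [card_sdiff_of_subset hsub, card_sdiff_of_subset hQR, hpair]
    omega
  have hRBq : (RB \ QB s RA RB).card = RA.card - 2 := by
    rw [← hc1, card_sdiff_of_subset hsub, hpair]
  obtain ⟨f1, hf1i, hf1⟩ := hall_on' (s := s) (RA \ {a0, a0'}) (RB \ QB s RA RB) hc1 (by
    intro T hT
    rcases T.eq_empty_or_nonempty with rfl | hTne
    · simp
    · have hTc := card_le_card hT
      have h2 : T.card + 2 ≤ (NB s T).card := by
        have := (hb.tr hc).hall T hTne (by rw [← hcard]; omega)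
        simpa using this
      have hsubR : NB s T ⊆ RA := by
        intro a ha
        obtain ⟨b, hbT, hab⟩ := mem_NB.1 ha
        by_contra haR
        have hbR := mem_sdiff.1 (hT hbT)
        exact hbR.2 (hκout a haR b hbR.1 hab).1
      have h3 : NB s T \ {a0, a0'} ⊆ NB s T ∩ (RA \ {a0, a0'}) := by
        intro a ha
        rw [mem_sdiff] at ha
        rw [mem_inter, mem_sdiff]
        exact ⟨ha.1, hsubR ha.1, ha.2⟩
      have h4 := card_le_card h3
      have h5 := le_card_sdiff ({a0, a0'} : Finset A) (NB s T)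
      omega)
  -- the inverse of `κ`
  have hg : ∀ a, ∃ b, a ∈ (QB s RA RB).image κ → b ∈ QB s RA RB ∧ κ b = a := by
    intro a
    by_cases ha : a ∈ (QB s RA RB).image κ
    · obtain ⟨b, hb1, hb2⟩ := mem_image.1 ha
      exact ⟨b, fun _ => ⟨hb1, hb2⟩⟩
    · exact ⟨π a, fun h' => absurd h' ha⟩
  choose g hg using hg
  -- the fourth part
  obtain ⟨f4, hf4i, hf4⟩ := hall_on (s := s) ((univ \ RA) \ (QB s RA RB).image κ)
    ((univ \ RB) \ {π a0, π a0'}) (by
    intro S hS
    rcases S.eq_empty_or_nonempty with rfl | hSne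
    · simp
    · have hSR : S ⊆ univ \ RA := hS.trans sdiff_subset
      have hSc := card_le_card hSR
      rw [card_sdiff_of_subset (subset_univ _), card_univ] at hSc
      have hRn : RA.card ≤ Fintype.card A := by omega
      have h2 := hb.hall S hSne (by omega)
      have h3 : NA s S \ {π a0, π a0'} ⊆ NA s S ∩ ((univ \ RB) \ {π a0, π a0'}) := by
        intro b hb'
        rw [mem_sdiff] at hb'
        rw [mem_inter, mem_sdiff, mem_sdiff]
        refine ⟨hb'.1, ⟨mem_univ _, fun hbR => ?_⟩, hb'.2⟩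
        obtain ⟨a, haS, hab⟩ := mem_NA.1 hb'.1
        have haK := mem_sdiff.1 (hS haS)
        have haR : a ∉ RA := (mem_sdiff.1 haK.1).2
        obtain ⟨h6, h7⟩ := hκout a haR b hbR hab
        exact haK.2 (mem_image.2 ⟨b, h6, h7.symm⟩)
      have h4 := card_le_card h3
      have h5 := le_card_sdiff ({π a0, π a0'} : Finset B) (NA s S)
      omega)
  -- the injection
  let f : A → B := fun a => if a ∈ RA then (if a = a0 then π a0 else if a = a0' then π a0' else f1 a)
    else if a ∈ (QB s RA RB).image κ then g a else f4 a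
  have hfa0 : f a0 = π a0 := by simp only [f, if_pos ha0R, if_true]
  have hfa0' : f a0' = π a0' := by simp only [f, if_pos ha0R', if_neg hne.symm, if_true]
  have hfc : ∀ a,
      (a ∈ RA \ {a0, a0'} ∧ f a = f1 a ∧ f a ∈ RB ∧ f a ∉ QB s RA RB) ∨
      (a = a0 ∧ f a = π a0) ∨ (a = a0' ∧ f a = π a0') ∨
      (a ∉ RA ∧ a ∈ (QB s RA RB).image κ ∧ f a = g a ∧ f a ∈ QB s RA RB ∧ f a ∈ RB) ∨
      (a ∈ (univ \ RA) \ (QB s RA RB).image κ ∧ f a = f4 a ∧ f a ∉ RB ∧ f a ≠ π a0 ∧ f a ≠ π a0') := by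
    intro a
    by_cases haR : a ∈ RA
    · by_cases e0 : a = a0
      · exact Or.inr (Or.inl ⟨e0, by rw [e0, hfa0]⟩)
      · by_cases e0' : a = a0'
        · exact Or.inr (Or.inr (Or.inl ⟨e0', by rw [e0', hfa0']⟩))
        · have hm : a ∈ RA \ {a0, a0'} := by
            rw [mem_sdiff, mem_insert, mem_singleton]
            exact ⟨haR, by tauto⟩
          have hfa : f a = f1 a := by simp only [f, if_pos haR, if_neg e0, if_neg e0']
          refine Or.inl ⟨hm, hfa, ?_⟩
          rw [hfa]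
          exact mem_sdiff.1 (hf1 a hm).1
    · by_cases hk : a ∈ (QB s RA RB).image κ
      · have hfa : f a = g a := by simp only [f, if_neg haR, if_pos hk]
        refine Or.inr (Or.inr (Or.inr (Or.inl ⟨haR, hk, hfa, ?_, ?_⟩)))
        · rw [hfa]; exact (hg a hk).1
        · rw [hfa]; exact hQR (hg a hk).1
      · have hm : a ∈ (univ \ RA) \ (QB s RA RB).image κ := by
          rw [mem_sdiff, mem_sdiff]
          exact ⟨⟨mem_univ _, haR⟩, hk⟩
        have hfa : f a = f4 a := by simp only [f, if_neg haR, if_neg hk]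
        refine Or.inr (Or.inr (Or.inr (Or.inr ⟨hm, hfa, ?_⟩)))
        have h8 := mem_sdiff.1 (hf4 a hm).1
        rw [mem_sdiff, mem_insert, mem_singleton] at h8
        rw [hfa]
        exact ⟨h8.1.2, fun e => h8.2 (Or.inl e), fun e => h8.2 (Or.inr e)⟩
  have hπ0 : π a0 ∉ RB := (hπ a0 h0).1
  have hπ0' : π a0' ∉ RB := (hπ a0' h0').1
  have hinj : Function.Injective f := by
    intro a a' hh
    rcases hfc a with ⟨u1, u2, u3, u4⟩ | ⟨u1, u2⟩ | ⟨u1, u2⟩ | ⟨u0, u1, u2, u3, u4⟩ | ⟨u1, u2, u3, u4, u5⟩ <;>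
    rcases hfc a' with ⟨v1, v2, v3, v4⟩ | ⟨v1, v2⟩ | ⟨v1, v2⟩ | ⟨v0, v1, v2, v3, v4⟩ | ⟨v1, v2, v3, v4, v5⟩
    · exact hf1i (mem_coe.2 u1) (mem_coe.2 v1) (by rw [← u2, ← v2, hh])
    · exact absurd (by rw [← v2, ← hh]; exact u3) hπ0
    · exact absurd (by rw [← v2, ← hh]; exact u3) hπ0'
    · exact absurd (hh ▸ v3) u4
    · exact absurd (hh ▸ u3) v3
    · exact absurd (by rw [← u2, hh]; exact v3) hπ0
    · rw [u1, v1]
    · exact absurd (by rw [← u2, ← v2, hh]) hpp
    · exact absurd (by rw [← u2, hh]; exact v4) hπ0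
    · exact absurd (by rw [← hh, u2]) v4
    · exact absurd (by rw [← u2, hh]; exact v3) hπ0'
    · exact absurd (by rw [← u2, ← v2, hh]) hpp.symm
    · rw [u1, v1]
    · exact absurd (by rw [← u2, hh]; exact v4) hπ0'
    · exact absurd (by rw [← hh, u2]) v5
    · exact absurd (by rw [← hh]; exact u3) v4
    · exact absurd (by rw [← v2, ← hh]; exact u4) hπ0
    · exact absurd (by rw [← v2, ← hh]; exact u4) hπ0'
    · rw [← (hg a u1).2, ← (hg a' v1).2, ← u2, ← v2, hh]
    · exact absurd (by rw [← hh]; exact u4) v3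
    · exact absurd (by rw [hh]; exact v3) u3
    · exact absurd (by rw [hh, v2]) u4
    · exact absurd (by rw [hh, v2]) u5
    · exact absurd (by rw [hh]; exact v4) u3
    · exact hf4i (mem_coe.2 u1) (mem_coe.2 v1) (by rw [← u2, ← v2, hh])
  have hval : ∀ a, H1 s RA RB a0 a0' a (f a) ≠ 0 := by
    intro a
    rcases hfc a with ⟨u1, u2, u3, u4⟩ | ⟨u1, u2⟩ | ⟨u1, u2⟩ | ⟨u0, u1, u2, u3, u4⟩ | ⟨u1, u2, u3, u4, u5⟩
    · have h9 := (hf1 a u1).2
      rw [← u2] at h9
      rw [mem_sdiff, mem_insert, mem_singleton] at u1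
      have hn' : ¬ (a = a0 ∨ a = a0') := u1.2
      unfold H1
      rw [if_pos u1.1, if_neg hn', if_pos ⟨u3, u4⟩]
      exact h9
    · subst u1
      unfold H1
      rw [if_pos ha0R, if_pos (Or.inl rfl), u2, if_neg hπ0]
      exact (hπ _ h0).2.1
    · subst u1
      unfold H1
      rw [if_pos ha0R', if_pos (Or.inr rfl), u2, if_neg hπ0']
      exact (hπ _ h0').2.1
    · unfold H1
      rw [if_neg u0, u2]
      have h9 := (hκ (g a) (hg a u1).1).2.1
      rw [(hg a u1).2] at h9
      exact h9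
    · unfold H1
      rw [if_neg (mem_sdiff.1 (mem_sdiff.1 u1).1).2, u2]
      exact (hf4 a u1).2
  obtain ⟨σ, hσ, _⟩ := pm_of_inj hcard f hinj hval
  exact ⟨σ, hσ⟩

end MCC
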