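import Pool.Agent.Lib_MP_cb5629.FZCub
import Pool.Agent.Lib_MP_cb5629.FMat
import Pool.Agent.Lib_MP_cb5629.SPL
import Pool.Agent.Lib_MP_cb5629.FanoNeg

/-! (2.7) of the paper text. -/

set_option linter.unusedSectionVars false

namespace MCC

open Finset

variable {A B : Type} [Fintype A] [Fintype B] [DecidableEq A] [DecidableEq B]

/-- Piece ZFIN2. A leg edge of the z-closing is in at most one square.

Proof. Let `a ∈ PA`, `w = g a`; `w` has the neighbours `z, a, a'` (`a'` the other row of the fibre). A square through `(a,w)` has the other row `z` or `a'`.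
With `z`: the other column `b` is adjacent to `z` and to `a` and `≠ w`: `b ∈ QB` is impossible by `npq`, a new column `w' ≠ w` is not
adjacent to `a`. With `a'`: `b ∈ RB` is a common neighbour of `a, a'`; two such columns `b, b'` would give `N'({a,a'}) = {w,b,b'}`, three elements, against
the brace property of the closing (it has `|RA| + 1 ≥ 4` rows). -/
theorem zcl_squares {s : A → B → ℤ} (hc : Cubic s) {RA : Finset A} {RB : Finset B} {d : ℕ} (h : Core s RA RB d)
    {g : A → Fin (d + 1)} {ε : A → ℤ} {ζ : Fin (d + 1) → ℤ} {η : B → ℤ}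
    (hz : ZData (PA s RA RB) (QB s RA RB) d g ε ζ η) (hcl : Cubic (zcl s RA RB d g ε ζ η))
    (hbr : Brace (zcl s RA RB d g ε ζ η)) (a : A) (ha : a ∈ PA s RA RB) (haR : a ∈ RA) :
    (squares (zcl s RA RB d g ε ζ η) (Sum.inl ⟨a, haR⟩) (Sum.inr (g a))).card ≤ 1 := by
  classical
  have hfib := hz.fib (g a)
  have haf : a ∈ (PA s RA RB).filter fun x => g x = g a := mem_filter.2 ⟨ha, rfl⟩
  -- the shape of a square
  have shape : ∀ p ∈ squares (zcl s RA RB d g ε ζ η) (Sum.inl ⟨a, haR⟩) (Sum.inr (g a)),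
      ∃ (a' : A) (ha' : a' ∈ RA) (b : B) (hb : b ∈ RB), p = (Sum.inl ⟨a', ha'⟩, Sum.inl ⟨b, hb⟩) ∧
        a' ∈ PA s RA RB ∧ g a' = g a ∧ a' ≠ a ∧ s a b ≠ 0 ∧ s a' b ≠ 0 := by
    rintro ⟨r, c⟩ hp
    rw [mem_squares] at hp
    obtain ⟨h1, h2, h3, h4, h5⟩ := hp
    rcases c with b | w
    · rcases r with a' | z
      · have h3' : (if a'.1 ∈ PA s RA RB ∧ g a'.1 = g a then ε a'.1 else 0) ≠ 0 := h3
        have h6 : a'.1 ∈ PA s RA RB ∧ g a'.1 = g a := by
          by_contra hcon
          exact h3' (if_neg hcon)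
        refine ⟨a'.1, a'.2, b.1, b.2, rfl, h6.1, h6.2, ?_, h4, h5⟩
        intro hE
        apply h1
        exact congrArg Sum.inl (Subtype.ext hE)
      · exfalso
        have h5' : (if b.1 ∈ QB s RA RB then η b.1 else 0) ≠ 0 := h5
        have h6 : b.1 ∈ QB s RA RB := by
          by_contra hcon
          exact h5' (if_neg hcon)
        exact h4 (h.npq a ha b.1 h6)
    · exfalso
      have h4' : (if a ∈ PA s RA RB ∧ g a = w then ε a else 0) ≠ 0 := h4
      have h6 : a ∈ PA s RA RB ∧ g a = w := by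
        by_contra hcon
        exact h4' (if_neg hcon)
      apply h2
      rw [h6.2]
  rw [card_le_one]
  intro p hp q hq
  obtain ⟨a1, ha1, b1, hb1, rfl, hP1, hg1, hne1, hs1, hs1'⟩ := shape p hp
  obtain ⟨a2, ha2, b2, hb2, rfl, hP2, hg2, hne2, hs2, hs2'⟩ := shape q hq
  have e12 : a1 = a2 := by
    by_contra hne
    have hsub : ({a, a1, a2} : Finset A) ⊆ (PA s RA RB).filter fun x => g x = g a := by
      intro z hz'
      simp only [mem_insert, mem_singleton] at hz'
      rcases hz' with rfl | rfl | rfl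
      · exact haf
      · exact mem_filter.2 ⟨hP1, hg1⟩
      · exact mem_filter.2 ⟨hP2, hg2⟩
    have h3 := card_le_card hsub
    rw [hfib] at h3
    have h4 : ({a, a1, a2} : Finset A).card = 3 := by
      rw [card_eq_three]
      exact ⟨a, a1, a2, hne1.symm, hne2.symm, hne, rfl⟩
    omega
  subst e12
  have eb : b1 = b2 := by
    by_contra hne
    set G1 := zcl s RA RB d g ε ζ η with hG1
    set ra : {a : A // a ∈ RA} ⊕ Unit := Sum.inl ⟨a, haR⟩ with hra
    set ra1 : {a : A // a ∈ RA} ⊕ Unit := Sum.inl ⟨a1, ha1⟩ with hra1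
    have hεa : ε a ≠ 0 := by
      rcases hz.ε1 a ha with h1 | h1 <;> rw [h1] <;> norm_num
    have hεa1 : ε a1 ≠ 0 := by
      rcases hz.ε1 a1 hP1 with h1 | h1 <;> rw [h1] <;> norm_num
    set cs : Finset ({b : B // b ∈ RB} ⊕ Fin (d + 1)) :=
      {Sum.inr (g a), Sum.inl ⟨b1, hb1⟩, Sum.inl ⟨b2, hb2⟩} with hcs
    have hcs3 : cs.card = 3 := by
      rw [card_eq_three]
      refine ⟨Sum.inr (g a), Sum.inl ⟨b1, hb1⟩, Sum.inl ⟨b2, hb2⟩, ?_, ?_, ?_, rfl⟩
      · simp
      · simp
      · intro hE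
        apply hne
        have := Sum.inl.inj hE
        exact congrArg Subtype.val this
    have n1 : nbA G1 ra = cs := by
      symm
      apply eq_of_subset_of_card_le
      · intro c hc'
        rw [hcs] at hc'
        simp only [mem_insert, mem_singleton] at hc'
        rw [mem_nbA]
        rcases hc' with rfl | rfl | rfl
        · have : G1 ra (Sum.inr (g a)) = if a ∈ PA s RA RB ∧ g a = g a then ε a else 0 := rfl
          rw [this, if_pos ⟨ha, rfl⟩]
          exact hεa
        · exact hs1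
        · exact hs2
      · rw [hcl.row, hcs3]
    have n2 : nbA G1 ra1 = cs := by
      symm
      apply eq_of_subset_of_card_le
      · intro c hc'
        rw [hcs] at hc'
        simp only [mem_insert, mem_singleton] at hc'
        rw [mem_nbA]
        rcases hc' with rfl | rfl | rfl
        · have : G1 ra1 (Sum.inr (g a)) = if a1 ∈ PA s RA RB ∧ g a1 = g a then ε a1 else 0 := rfl
          rw [this, if_pos ⟨hP1, hg1⟩]
          exact hεa1
        · exact hs1'
        · exact hs2'
      · rw [hcl.row, hcs3]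
    have hR3 : 3 ≤ RA.card := by
      have h1 := h.rb3
      have h2 := h.card
      omega
    have hrne : ra ≠ ra1 := by
      intro hE
      have := Sum.inl.inj hE
      exact hne1 (congrArg Subtype.val this).symm
    have h2 : ({ra, ra1} : Finset ({a : A // a ∈ RA} ⊕ Unit)).card = 2 := card_pair hrne
    have h3 := hbr.hall {ra, ra1} ⟨ra, by simp⟩ (by
      rw [h2, zcl_card]
      omega)
    rw [h2, NA_insert, NA_singleton, n1, n2, union_self, hcs3] at h3
    omega
  subst eb
  rfl

/-- Piece ZFIN0. The z-closing is not Fano.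

Proof. Let `G1` be the closing, Fano, and let `w = 0` be a new column with the neighbours `z, p, p'` (`p, p' ∈ PA` its fibre). `|RA| = 6`.
Consider `H1 s RA RB p p'`: it has a perfect matching (`Core.m1`) and is SNS (`sns_sub`). The vector `x` with `x b = 1` for `b ∈ RB \ QB` adjacent to `p`,
`x b = -1` for `b ∈ RB \ QB` adjacent to `p'`, `0` otherwise balances `H1`: rows outside `RA` have no neighbour in `RB \ QB`; the rows `p, p'` only keep edges
to `B \ RB`; let `a ∈ RA`, `a ≠ p, p'`. In the Fano plane `G1` the row `a` has exactly one common neighbour with each of `z, p, p'`; these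
three columns are different (a column adjacent to `a` and to two of `z,p,p'` would be `w`, by `Fano.uniq`, but `w` is adjacent only to
`z,p,p'`), so they are the three neighbours of `a`. The one adjacent to `z` is a new column or in `QB`; the other two are not adjacent to `z`, so
they are in `RB \ QB`; one is adjacent to `p`, the other to `p'`. So the row `a` of `H1` has exactly these two entries (positive, by `pos`), with `x = 1, -1`:
balanced. (A column adjacent to both `p` and `p'` is `w`, so `x` is well defined.) `x ≠ 0` (take `a ∈ RA \ {p,p'}`). Contradiction. -/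
theorem zcl_not_fano {s : A → B → ℤ} (hc : Cubic s) (hb : Brace s) (hs : SNS s) {RA : Finset A} {RB : Finset B} {d : ℕ}
    (h : Core s RA RB d) {g : A → Fin (d + 1)} {ε : A → ℤ} {ζ : Fin (d + 1) → ℤ} {η : B → ℤ}
    (hz : ZData (PA s RA RB) (QB s RA RB) d g ε ζ η) (hcl : Cubic (zcl s RA RB d g ε ζ η)) :
    ¬ Fano (zcl s RA RB d g ε ζ η) := by
  classical
  intro hF
  set G1 := zcl s RA RB d g ε ζ η with hG1
  obtain ⟨p, p', hpp, hfib⟩ := card_eq_two.1 (hz.fib 0)
  have hp : p ∈ PA s RA RB ∧ g p = 0 := by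
    have : p ∈ (PA s RA RB).filter fun a => g a = 0 := by rw [hfib]; simp
    exact mem_filter.1 this
  have hp' : p' ∈ PA s RA RB ∧ g p' = 0 := by
    have : p' ∈ (PA s RA RB).filter fun a => g a = 0 := by rw [hfib]; simp
    exact mem_filter.1 this
  have hfib' : ∀ a, a ∈ PA s RA RB → g a = 0 → a = p ∨ a = p' := by
    intro a ha hg
    have : a ∈ (PA s RA RB).filter fun a => g a = 0 := mem_filter.2 ⟨ha, hg⟩
    rw [hfib] at this
    simpa using this
  have hPR : ∀ a ∈ PA s RA RB, a ∈ RA := fun a ha => (mem_filter.1 ha).1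
  have hpR := hPR p hp.1
  have hpR' := hPR p' hp'.1
  have hsn : SNS (H1 s RA RB p p') := by
    refine sns_sub hc.val hs ?_ (h.m1 hc hb hp.1 hp'.1 hpp)
    intro a b
    unfold H1
    split_ifs <;> simp
  -- a common column of a third row with `q`
  have common : ∀ a, a ∈ RA → a ≠ p → a ≠ p' → ∀ q, q ∈ PA s RA RB → g q = 0 →
      ∃ b, ∃ hb : b ∈ RB, b ∉ QB s RA RB ∧ s a b ≠ 0 ∧ s q b ≠ 0 := by
    intro a ha h1 h2 q hq hgq
    obtain ⟨c, hc1, hc2⟩ := hF.2 (Sum.inl ⟨a, ha⟩) (Sum.inl ⟨q, hPR q hq⟩)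
    rcases c with b | w
    · have hc1' : s a b.1 ≠ 0 := hc1
      have hc2' : s q b.1 ≠ 0 := hc2
      refine ⟨b.1, b.2, ?_, hc1', hc2'⟩
      intro hQ
      exact hc2' (h.npq q hq b.1 hQ)
    · exfalso
      have hc1' : (if a ∈ PA s RA RB ∧ g a = w then ε a else 0) ≠ 0 := hc1
      have hc2' : (if q ∈ PA s RA RB ∧ g q = w then ε q else 0) ≠ 0 := hc2
      have h5 : a ∈ PA s RA RB ∧ g a = w := by
        by_contra hcon
        exact hc1' (if_neg hcon)
      have h6 : q ∈ PA s RA RB ∧ g q = w := by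
        by_contra hcon
        exact hc2' (if_neg hcon)
      have h7 : w = 0 := by rw [← h6.2, hgq]
      rcases hfib' a h5.1 (h5.2.trans h7) with h8 | h8
      · exact h1 h8
      · exact h2 h8
  -- no column of `RB` is adjacent to both `p` and `p'`
  have noboth : ∀ b ∈ RB, s p b ≠ 0 → s p' b ≠ 0 → False := by
    intro b hb' h1 h2
    have hne : (Sum.inl ⟨p, hpR⟩ : {a : A // a ∈ RA} ⊕ Unit) ≠ Sum.inl ⟨p', hpR'⟩ := by
      intro hE
      exact hpp (congrArg Subtype.val (Sum.inl.inj hE))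
    have e1 : G1 (Sum.inl ⟨p, hpR⟩) (Sum.inl ⟨b, hb'⟩) ≠ 0 := h1
    have e2 : G1 (Sum.inl ⟨p', hpR'⟩) (Sum.inl ⟨b, hb'⟩) ≠ 0 := h2
    have e3 : G1 (Sum.inl ⟨p, hpR⟩) (Sum.inr 0) ≠ 0 := by
      have : G1 (Sum.inl ⟨p, hpR⟩) (Sum.inr 0) = if p ∈ PA s RA RB ∧ g p = 0 then ε p else 0 := rfl
      rw [this, if_pos hp]
      exact FZCub_eps_ne hz hp.1
    have e4 : G1 (Sum.inl ⟨p', hpR'⟩) (Sum.inr 0) ≠ 0 := by
      have : G1 (Sum.inl ⟨p', hpR'⟩) (Sum.inr 0) = if p' ∈ PA s RA RB ∧ g p' = 0 then ε p' else 0 := rfl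
      rw [this, if_pos hp']
      exact FZCub_eps_ne hz hp'.1
    have := Fano.uniq hcl hF hne e1 e2 e3 e4
    exact Sum.inl_ne_inr this
  set x : B → ℝ := fun b => if b ∈ RB ∧ b ∉ QB s RA RB then
    (if s p b ≠ 0 then 1 else if s p' b ≠ 0 then -1 else 0) else 0 with hx
  have hx1 : ∀ b, b ∈ RB → b ∉ QB s RA RB → s p b ≠ 0 → x b = 1 := by
    intro b h1 h2 h3
    rw [hx]
    simp only
    rw [if_pos ⟨h1, h2⟩, if_pos h3]
  have hx2 : ∀ b, b ∈ RB → b ∉ QB s RA RB → s p' b ≠ 0 → x b = -1 := by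
    intro b h1 h2 h3
    rw [hx]
    simp only
    rw [if_pos ⟨h1, h2⟩, if_neg (fun h4 => noboth b h1 h4 h3), if_pos h3]
  have hx0 : ∀ b, ¬ (b ∈ RB ∧ b ∉ QB s RA RB) → x b = 0 := by
    intro b h1
    rw [hx]
    simp only
    rw [if_neg h1]
  have hbal : ∀ a, Bal (H1 s RA RB p p') x a := by
    intro a
    by_cases ha : a ∈ RA
    · by_cases hap : a = p ∨ a = p'
      · left
        intro b
        by_cases hbR : b ∈ RB
        · have : H1 s RA RB p p' a b = 0 := by
            unfold H1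
            rw [if_pos ha, if_pos hap, if_pos hbR]
          rw [this]
          simp
        · rw [hx0 b (fun hh => hbR hh.1)]
          simp
      · right
        push Not at hap
        have hH : ∀ b, b ∈ RB → b ∉ QB s RA RB → H1 s RA RB p p' a b = s a b := by
          intro b h1 h2
          unfold H1
          rw [if_pos ha, if_neg (by rintro (h3 | h3); exacts [hap.1 h3, hap.2 h3]), if_pos ⟨h1, h2⟩]
        obtain ⟨b1, hb1, hq1, hs1, ht1⟩ := common a ha hap.1 hap.2 p hp.1 hp.2
        obtain ⟨b2, hb2, hq2, hs2, ht2⟩ := common a ha hap.1 hap.2 p' hp'.1 hp'.2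
        refine ⟨⟨b1, ?_⟩, ⟨b2, ?_⟩⟩
        · rw [hH b1 hb1 hq1, hx1 b1 hb1 hq1 ht1, mul_one]
          have h1 := h.pos a ha b1 hb1
          have h2 : 0 < s a b1 := lt_of_le_of_ne h1 (Ne.symm hs1)
          exact_mod_cast h2
        · rw [hH b2 hb2 hq2, hx2 b2 hb2 hq2 ht2]
          have h1 := h.pos a ha b2 hb2
          have h2 : 0 < s a b2 := lt_of_le_of_ne h1 (Ne.symm hs2)
          have h3 : (0 : ℝ) < (s a b2 : ℝ) := by exact_mod_cast h2
          linarith
    · left
      intro b
      by_cases hbR : b ∈ RB ∧ b ∉ QB s RA RB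
      · have h0 : s a b = 0 := by
          by_contra hne
          apply hbR.2
          exact mem_filter.2 ⟨hbR.1, a, mem_sdiff.2 ⟨mem_nbB.2 hne, ha⟩⟩
        have : H1 s RA RB p p' a b = 0 := by
          unfold H1
          rw [if_neg ha, h0]
        rw [this]
        simp
      · rw [hx0 b hbR]
        simp
  have h0 := hsn x hbal
  -- a third row
  have hR3 : 3 ≤ RA.card := by
    have h1 := h.rb3
    have h2 := h.card
    omega
  have hne : (RA \ {p, p'}).Nonempty := by
    rw [← card_pos]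
    have h1 := le_card_sdiff ({p, p'} : Finset A) RA
    have h2 : ({p, p'} : Finset A).card = 2 := card_pair hpp
    omega
  obtain ⟨a, ha⟩ := hne
  rw [mem_sdiff] at ha
  simp only [mem_insert, mem_singleton, not_or] at ha
  obtain ⟨b1, hb1, hq1, hs1, ht1⟩ := common a ha.1 ha.2.1 ha.2.2 p hp.1 hp.2
  have h5 := hx1 b1 hb1 hq1 ht1
  rw [h0] at h5
  simp at h5

end MCC
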