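import Pool.Agent.Lib_MP_cb5629.FCount
import Pool.Agent.Lib_MP_cb5629.Ext
import Pool.Agent.Lib_MP_cb5629.Tools

set_option linter.unusedSectionVars false

namespace MCC

open Finset

variable {A B : Type} [Fintype A] [Fintype B] [DecidableEq A] [DecidableEq B]

/-- Piece ZSNS ((2.3) of the paper text). The z-closing is SNS.

Proof. `sns_of_no_pm1` for the closing (`hN` from `Brace.one` for the transposed brace `Brace.tr`). Let `x` be a `±1` vector balancing all rows of
the closing. `X w = x (inr w)`, `Y b = x (inl b)` for `b ∈ QB`. The row `z` has only nonzero terms (`ζ w * X w`, `η b * Y b`), so both signs occur: these are the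
hypotheses of `hsg`; let `y, u` be as there and `ξ ∈ W` the vector of `hpl` for `(y,u)`. Put `Ξ b = x (inl b)` for `b ∈ RB \ QB`, `Ξ b = ξ b`
otherwise. `Ξ` balances all rows of `s`: a row `a ∉ RA` has no neighbour in `RB \ QB`, so `∑ b, s a b * Ξ b = ∑ b, s a b * ξ b = 0` (both `Ξ` and `ξ`
contribute `0` there); `Bal.of_sum`. A row `a ∈ RA`: for `b ∈ RB` the signs of `Ξ b` and `x (inl b)` agree (`b ∈ QB`: `0 < ξ b * Y b`); if `a ∈ PA` it has exactly one
leg `b0 ∉ RB`, with the term `s a b0 * ξ b0 = vA s RB ξ a = α a * y + β a * u` of the same sign as `ε a * X (g a)`, the term at the new column `g a`. So the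
signs of the terms of row `a` in `s` and in the closing correspond and `Bal` transfers. `Ξ ≠ 0`, because `RB \ QB ≠ ∅` (`rb3`, `|QB| ≤ 2`). This
contradicts SNS of `s`. -/
theorem zcl_sns {s : A → B → ℤ} (hc : Cubic s) (hs : SNS s) {RA : Finset A} {RB : Finset B} {d : ℕ}
    (h : Core s RA RB d) {α β : A → ℝ} {γ δ : B → ℝ}
    (hpl : ∀ y u : ℝ, ∃ ξ : B → ℝ, InW s RA RB ξ ∧ (∀ a ∈ PA s RA RB, vA s RB ξ a = α a * y + β a * u) ∧
        ∀ b ∈ QB s RA RB, ξ b = γ b * y + δ b * u)
    {g : A → Fin (d + 1)} {ε : A → ℤ} {ζ : Fin (d + 1) → ℤ} {η : B → ℤ}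
    (hz : ZData (PA s RA RB) (QB s RA RB) d g ε ζ η) (hsg : ZSgn (PA s RA RB) (QB s RA RB) α β γ δ d g ε ζ η)
    (hcl : Cubic (zcl s RA RB d g ε ζ η)) (hbr : Brace (zcl s RA RB d g ε ζ η)) : SNS (zcl s RA RB d g ε ζ η) := by
  classical
  have hcard : Fintype.card ({a : A // a ∈ RA} ⊕ Unit) = Fintype.card ({b : B // b ∈ RB} ⊕ Fin (d + 1)) := by
    have := h.card
    simp
    omega
  refine sns_of_no_pm1 hcard ?_ ?_
  · intro T hT hT'
    have hb' := hbr.tr hcl
    have h1 : T.card < Fintype.card ({b : B // b ∈ RB} ⊕ Fin (d + 1)) := by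
      rw [← card_univ]
      exact card_lt_card (Finset.ssubset_univ_iff.2 hT')
    exact hb'.one hcl.tr hT h1
  · intro x hx
    by_contra hcon
    push Not at hcon
    have hx0 : ∀ c, x c ≠ 0 := by
      intro c
      rcases hx c with h1 | h1 <;> rw [h1] <;> norm_num
    set Y : B → ℝ := fun b => if hb : b ∈ RB then x (Sum.inl ⟨b, hb⟩) else 1 with hY
    have hYb : ∀ (b : B) (hb : b ∈ RB), Y b = x (Sum.inl ⟨b, hb⟩) := fun b hb => dif_pos hb
    have hQR : ∀ b ∈ QB s RA RB, b ∈ RB := fun b hb => (mem_filter.1 hb).1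
    -- the row z
    have hrz := hcon (Sum.inr ())
    have hterm : ∀ c, (0 < (zcl s RA RB d g ε ζ η (Sum.inr ()) c : ℝ) * x c →
        ((∃ w, 0 < (ζ w : ℝ) * x (Sum.inr w)) ∨ ∃ b ∈ QB s RA RB, 0 < (η b : ℝ) * Y b)) ∧
        ((zcl s RA RB d g ε ζ η (Sum.inr ()) c : ℝ) * x c < 0 →
        ((∃ w, (ζ w : ℝ) * x (Sum.inr w) < 0) ∨ ∃ b ∈ QB s RA RB, (η b : ℝ) * Y b < 0)) := by
      rintro (b | w)
      · have e : zcl s RA RB d g ε ζ η (Sum.inr ()) (Sum.inl b) = if b.1 ∈ QB s RA RB then η b.1 else 0 := rfl
        rw [e]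
        by_cases hQ : b.1 ∈ QB s RA RB
        · rw [if_pos hQ]
          refine ⟨fun hh => Or.inr ⟨b.1, hQ, ?_⟩, fun hh => Or.inr ⟨b.1, hQ, ?_⟩⟩
          · rw [hYb b.1 b.2]
            exact hh
          · rw [hYb b.1 b.2]
            exact hh
        · rw [if_neg hQ]
          simp
      · exact ⟨fun hh => Or.inl ⟨w, hh⟩, fun hh => Or.inl ⟨w, hh⟩⟩
    have hz1 : ((∃ w, 0 < (ζ w : ℝ) * x (Sum.inr w)) ∨ ∃ b ∈ QB s RA RB, 0 < (η b : ℝ) * Y b) ∧
        ((∃ w, (ζ w : ℝ) * x (Sum.inr w) < 0) ∨ ∃ b ∈ QB s RA RB, (η b : ℝ) * Y b < 0) := by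
      rcases hrz with h0 | ⟨⟨c, hc1⟩, ⟨c', hc2⟩⟩
      · exfalso
        have h1 := h0 (Sum.inr 0)
        have e : zcl s RA RB d g ε ζ η (Sum.inr ()) (Sum.inr 0) = ζ 0 := rfl
        rw [e] at h1
        rcases mul_eq_zero.1 h1 with h2 | h2
        · have h3 : ζ 0 = 0 := by exact_mod_cast h2
          rcases hz.ζ1 0 with h4 | h4 <;> omega
        · exact hx0 _ h2
      · exact ⟨(hterm c).1 hc1, (hterm c').2 hc2⟩
    obtain ⟨y, u, hA, hB⟩ := hsg (fun w => x (Sum.inr w)) Y (fun w => hx _)
      (fun b hb => by rw [hYb b (hQR b hb)]; exact hx _) hz1.1 hz1.2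
    obtain ⟨ξ, hW, hv, hξ⟩ := hpl y u
    set Ξ : B → ℝ := fun b => if hb : b ∈ RB ∧ b ∉ QB s RA RB then x (Sum.inl ⟨b, hb.1⟩) else ξ b with hΞ
    have hΞ1 : ∀ (b : B) (hb : b ∈ RB), b ∉ QB s RA RB → Ξ b = x (Sum.inl ⟨b, hb⟩) := fun b hb hQ =>
      dif_pos ⟨hb, hQ⟩
    have hΞ2 : ∀ b : B, (b ∉ RB ∨ b ∈ QB s RA RB) → Ξ b = ξ b := by
      intro b hb
      rw [hΞ]
      apply dif_neg
      rintro ⟨h1, h2⟩
      rcases hb with hb | hb
      · exact hb h1
      · exact h2 hb
    have hbal : ∀ a, Bal s Ξ a := by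
      intro a
      by_cases ha : a ∈ RA
      · -- the terms of the closing at `inl a`
        have key : ∀ c, (0 < (zcl s RA RB d g ε ζ η (Sum.inl ⟨a, ha⟩) c : ℝ) * x c →
            ∃ b, 0 < (s a b : ℝ) * Ξ b) ∧
            ((zcl s RA RB d g ε ζ η (Sum.inl ⟨a, ha⟩) c : ℝ) * x c < 0 →
            ∃ b, (s a b : ℝ) * Ξ b < 0) := by
          rintro (b | w)
          · have e : zcl s RA RB d g ε ζ η (Sum.inl ⟨a, ha⟩) (Sum.inl b) = s a b.1 := rfl
            rw [e]
            by_cases hQ : b.1 ∈ QB s RA RB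
            · have h1 : Ξ b.1 = ξ b.1 := hΞ2 b.1 (Or.inr hQ)
              have h2 := hB b.1 hQ
              rw [← hξ b.1 hQ, hYb b.1 b.2] at h2
              have h3 : x (Sum.inl b) * x (Sum.inl b) = 1 := by
                rcases hx (Sum.inl b) with h4 | h4 <;> rw [h4] <;> norm_num
              refine ⟨fun hh => ⟨b.1, ?_⟩, fun hh => ⟨b.1, ?_⟩⟩
              · rw [h1]
                have h5 := mul_pos hh h2
                have h6 : (s a b.1 : ℝ) * x (Sum.inl b) * (ξ b.1 * x (Sum.inl b)) =
                    (s a b.1 : ℝ) * ξ b.1 * (x (Sum.inl b) * x (Sum.inl b)) := by ring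
                rw [h6, h3, mul_one] at h5
                exact h5
              · rw [h1]
                have h5 := mul_neg_of_neg_of_pos hh h2
                have h6 : (s a b.1 : ℝ) * x (Sum.inl b) * (ξ b.1 * x (Sum.inl b)) =
                    (s a b.1 : ℝ) * ξ b.1 * (x (Sum.inl b) * x (Sum.inl b)) := by ring
                rw [h6, h3, mul_one] at h5
                exact h5
            · refine ⟨fun hh => ⟨b.1, ?_⟩, fun hh => ⟨b.1, ?_⟩⟩
              · rw [hΞ1 b.1 b.2 hQ]
                exact hh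
              · rw [hΞ1 b.1 b.2 hQ]
                exact hh
          · have e : zcl s RA RB d g ε ζ η (Sum.inl ⟨a, ha⟩) (Sum.inr w) =
                if a ∈ PA s RA RB ∧ g a = w then ε a else 0 := rfl
            rw [e]
            by_cases hP : a ∈ PA s RA RB ∧ g a = w
            · rw [if_pos hP]
              obtain ⟨hP, rfl⟩ := hP
              have h2 := hA a hP
              rw [← hv a hP] at h2
              have hsum : ∀ b ∈ univ \ RB, (s a b : ℝ) * Ξ b = (s a b : ℝ) * ξ b := by
                intro b hb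
                rw [hΞ2 b (Or.inl (mem_sdiff.1 hb).2)]
              refine ⟨fun hh => ?_, fun hh => ?_⟩
              · have h3 : 0 < vA s RB ξ a := by
                  by_contra h4
                  push Not at h4
                  have := mul_nonpos_of_nonpos_of_nonneg h4 hh.le
                  linarith
                by_contra h4
                push Not at h4
                have h5 : vA s RB ξ a ≤ 0 := by
                  unfold vA
                  apply Finset.sum_nonpos
                  intro b hb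
                  rw [← hsum b hb]
                  exact h4 b
                linarith
              · have h3 : vA s RB ξ a < 0 := by
                  by_contra h4
                  push Not at h4
                  have := mul_nonpos_of_nonneg_of_nonpos h4 hh.le
                  linarith
                by_contra h4
                push Not at h4
                have h5 : 0 ≤ vA s RB ξ a := by
                  unfold vA
                  apply Finset.sum_nonneg
                  intro b hb
                  rw [← hsum b hb]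
                  exact h4 b
                linarith
            · rw [if_neg hP]
              simp
        rcases hcon (Sum.inl ⟨a, ha⟩) with h0 | ⟨⟨c, hc1⟩, ⟨c', hc2⟩⟩
        · exfalso
          have h1 := hcl.row (Sum.inl ⟨a, ha⟩)
          have h2 : nbA (zcl s RA RB d g ε ζ η) (Sum.inl ⟨a, ha⟩) = ∅ := by
            rw [eq_empty_iff_forall_notMem]
            intro c hc'
            rw [mem_nbA] at hc'
            rcases mul_eq_zero.1 (h0 c) with h3 | h3
            · exact hc' (by exact_mod_cast h3)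
            · exact hx0 c h3
          rw [h2] at h1
          simp at h1
        · exact Or.inr ⟨(key c).1 hc1, (key c').2 hc2⟩
      · apply Bal.of_sum
        rw [← hW.2 a ha]
        apply Finset.sum_congr rfl
        intro b _
        by_cases hb : b ∈ RB ∧ b ∉ QB s RA RB
        · have h0 : s a b = 0 := by
            by_contra hne
            apply hb.2
            refine mem_filter.2 ⟨hb.1, a, mem_sdiff.2 ⟨mem_nbB.2 hne, ha⟩⟩
          rw [h0]
          simp
        · rw [hΞ2 b]
          by_contra hcc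
          push Not at hcc
          exact hb hcc
    have h0 := hs Ξ hbal
    have hne : (RB \ QB s RA RB).Nonempty := by
      rw [← card_pos, card_sdiff_of_subset (fun b hb => hQR b hb)]
      have h1 := h.rb3
      have h2 := h.cardQB hc
      omega
    obtain ⟨b, hb⟩ := hne
    rw [mem_sdiff] at hb
    have h1 := hΞ1 b hb.1 hb.2
    rw [h0] at h1
    exact hx0 _ h1.symm

end MCC
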