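import Pool.Agent.Lib_MP_cb5629.FMin3
import Pool.Agent.Lib_MP_cb5629.FPlane
import Pool.Agent.Lib_MP_cb5629.FGeo0
import Pool.Agent.Lib_MP_cb5629.FGeo1
import Pool.Agent.Lib_MP_cb5629.FGeo2
import Pool.Agent.Lib_MP_cb5629.FZCub
import Pool.Agent.Lib_MP_cb5629.FZBra
import Pool.Agent.Lib_MP_cb5629.FZSns
import Pool.Agent.Lib_MP_cb5629.FZFin
import Pool.Agent.Lib_MP_cb5629.FDir
import Pool.Agent.Lib_MP_cb5629.FDSns

set_option linter.unusedSectionVars false

namespace MCC

open Finset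

variable {A B : Type} [Fintype A] [Fintype B] [DecidableEq A] [DecidableEq B]

private lemma FF_sw_sw (s : A → B → ℤ) (α : A → ℤˣ) (β : B → ℤˣ) : sw (sw s α β) α β = s := by
  funext a b
  unfold sw
  have h1 : ((α a : ℤˣ) : ℤ) * ((α a : ℤˣ) : ℤ) = 1 := by
    rcases Int.units_eq_one_or (α a) with h | h <;> rw [h] <;> norm_num
  have h2 : ((β b : ℤˣ) : ℤ) * ((β b : ℤˣ) : ℤ) = 1 := by
    rcases Int.units_eq_one_or (β b) with h | h <;> rw [h] <;> norm_num
  calc ((α a : ℤˣ) : ℤ) * (((α a : ℤˣ) : ℤ) * s a b * ((β b : ℤˣ) : ℤ)) * ((β b : ℤˣ) : ℤ)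
      = (((α a : ℤˣ) : ℤ) * ((α a : ℤˣ) : ℤ)) * s a b * (((β b : ℤˣ) : ℤ) * ((β b : ℤˣ) : ℤ)) := by ring
    _ = s a b := by rw [h1, h2]; ring

/-- Piece FFCORE. There is no core. Proof. `Core.plane`; `geo0`, `geo1`, `geo2` according to `d` (`cardPA`, `cardQB`). z-closing: cubic, brace, SNS by
`zcl_cubic`, `zcl_brace`, `zcl_sns`; it has `|RA| + 1 < n` rows, so `P (|RA| + 1)` applies: `zneg ≠ 1`; `zneg = 2`: the negative edge `(a, g a)` with `ε a = -1` would be in two
squares, against `zcl_squares`; `zneg = 0`: Fano, against `zcl_not_fano`. Direct closing (`|RA| < n` rows): exactly one negative edge, against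
`P |RA|`. -/
theorem no_core {n : ℕ} (hP : ∀ m < n, P m) {s : A → B → ℤ} (hn : Fintype.card A = n) (hc : Cubic s) (hb : Brace s)
    (hs : SNS s) {RA : Finset A} {RB : Finset B} {d : ℕ} (h : Core s RA RB d) : False := by
  classical
  obtain ⟨α, β, γ, δ, hpl, hW⟩ := h.plane hc hb hs
  have cP := h.cardPA hc
  have cQ := h.cardQB hc
  have hup := h.upp
  rw [hn] at hup
  have hPsub : PA s RA RB ⊆ RA := filter_subset _ _
  have zc : ∀ (g : A → Fin (d + 1)) (ε : A → ℤ) (ζ : Fin (d + 1) → ℤ) (η : B → ℤ),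
      ZData (PA s RA RB) (QB s RA RB) d g ε ζ η → ZSgn (PA s RA RB) (QB s RA RB) α β γ δ d g ε ζ η →
      zneg (PA s RA RB) (QB s RA RB) d ε ζ η ≤ 2 →
      (zneg (PA s RA RB) (QB s RA RB) d ε ζ η = 2 → ∃ a ∈ PA s RA RB, ε a = -1) → False := by
    intro g ε ζ η hz hsg hle h2
    have c1 := zcl_cubic hc h hz
    have b1 := zcl_brace hc hb h hz
    have s1 := zcl_sns hc hs h hW hz hsg c1 b1
    obtain ⟨p1, p2, p3⟩ := hP (RA.card + 1) (by omega) _ _ (zcl s RA RB d g ε ζ η) zcl_card c1 b1 s1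
    rw [zcl_neg h] at p1 p3
    have hcases : zneg (PA s RA RB) (QB s RA RB) d ε ζ η = 0 ∨ zneg (PA s RA RB) (QB s RA RB) d ε ζ η = 2 := by
      omega
    rcases hcases with h0 | h0
    · have hemp : neg (zcl s RA RB d g ε ζ η) = ∅ := by
        rw [← card_eq_zero, zcl_neg h]
        exact h0
      exact zcl_not_fano hc hb hs h hz c1 (p2 hemp)
    · obtain ⟨a, haP, ha⟩ := h2 h0
      have hmem : ((Sum.inl ⟨a, hPsub haP⟩, Sum.inr (g a)) :
          ({a : A // a ∈ RA} ⊕ Unit) × ({b : B // b ∈ RB} ⊕ Fin (d + 1))) ∈ neg (zcl s RA RB d g ε ζ η) := by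
        rw [mem_neg]
        show (if a ∈ PA s RA RB ∧ g a = g a then ε a else 0) = -1
        rw [if_pos ⟨haP, rfl⟩, ha]
      have h3 := p3 h0 _ hmem
      have h4 := zcl_squares hc h hz c1 b1 a haP (hPsub haP)
      simp only at h3
      omega
  have hd2 : d = 0 ∨ d = 1 ∨ d = 2 := by omega
  rcases hd2 with rfl | rfl | rfl
  · rcases geo0 (by omega) (by omega) hpl with ⟨g, ε, ζ, η, hz, hsg, hle, h2⟩ | ⟨m, t, hd, hsg, h1⟩
    · exact zc g ε ζ η hz hsg hle h2
    · have c1 := dcl_cubic hc h hd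
      have b1 := dcl_brace hc hb h hd
      have s1 := dcl_sns hc hs h hW hd hsg c1 b1
      obtain ⟨p1, -, -⟩ := hP RA.card (by omega) _ _ (dcl s RA RB m t) (by simp) c1 b1 s1
      rw [dcl_neg h hd] at p1
      exact p1 h1
  · obtain ⟨g, ε, ζ, η, hz, hsg, hle, h2⟩ := geo1 (by omega) (by omega) hpl
    exact zc g ε ζ η hz hsg hle h2
  · obtain ⟨g, ε, ζ, η, hz, hsg, hle, h2⟩ := geo2 (by omega) (by omega) hpl
    exact zc g ε ζ η hz hsg hle h2

private lemma FF_of_min {n : ℕ} (hP : ∀ m < n, P m) {s : A → B → ℤ} (hn : Fintype.card A = n) (hc : Cubic s)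
    (hb : Brace s) (hs : SNS s) {RA : Finset A} {RB : Finset B} {d : ℕ} (hR : Nontriv s RA RB d)
    (hcl : Clean s RA RB) (hmin : MinHyp s (3 * RA.card + d)) : False := by
  obtain ⟨α, β, h0⟩ := hcl
  have hctx : MinCtx (sw s α β) RA RB d := by
    refine ⟨hc.sw α β, hb.sw α β, hs.sw α β, hR.sw α β, h0, ?_, ?_⟩
    · intro SA SB e hN hC
      have hN' := hN.sw α β
      rw [FF_sw_sw] at hN'
      exact hmin.1 SA SB e hN' hC.of_sw
    · intro SA SB e hN hC
      rw [tr_sw] at hN hC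
      have hN' := hN.sw β α
      rw [FF_sw_sw] at hN'
      exact hmin.2 SA SB e hN' hC.of_sw
  exact no_core hP hn (hc.sw α β) (hb.sw α β) (hs.sw α β) hctx.core

/-- Piece FFASM. LEMMA FF. Proof. Suppose there is a nontrivial clean shore, of `s` or of `tr s`. Choose one with minimal `3 |RA| + d`. If it is a shore of `tr s`, replace `s` by
`tr s` (`Cubic.tr`, `Brace.tr`, `SNS.tr`, `hc.card_eq`). So it is a shore of `s`; let `α, β` be the switching of `Clean`. `sw s α β` is again an SNS cubic brace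
(`Cubic.sw`, `Brace.sw`, `SNS.sw`), the shore is nontrivial (`Nontriv.sw`) and `Clean0`, and `MinHyp` holds (`Clean.of_sw`, and `Nontriv` of the switched
graph is `Nontriv` of `s`: switch back; `tr_sw` for the transposed ones). `MinCtx.core`, `no_core`. -/
theorem FF {n : ℕ} (hP : ∀ m < n, P m) {s : A → B → ℤ} (hn : Fintype.card A = n) (hc : Cubic s) (hb : Brace s)
    (hs : SNS s) {RA : Finset A} {RB : Finset B} {d : ℕ} (hR : Nontriv s RA RB d) (hcl : Clean s RA RB) : False := by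
  classical
  let Q : ℕ → Prop := fun m =>
    (∃ (SA : Finset A) (SB : Finset B) (e : ℕ), Nontriv s SA SB e ∧ Clean s SA SB ∧ m = 3 * SA.card + e) ∨
    (∃ (SA : Finset A) (SB : Finset B) (e : ℕ), Nontriv (tr s) SB SA e ∧ Clean (tr s) SB SA ∧
      m = 3 * SB.card + e)
  have hex : ∃ m, Q m := ⟨3 * RA.card + d, Or.inl ⟨RA, RB, d, hR, hcl, rfl⟩⟩
  have hspec : Q (Nat.find hex) := Nat.find_spec hex
  have hmin : MinHyp s (Nat.find hex) := by
    refine ⟨?_, ?_⟩
    · intro SA SB e hN hC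
      exact Nat.find_min' hex (Or.inl ⟨SA, SB, e, hN, hC, rfl⟩)
    · intro SA SB e hN hC
      exact Nat.find_min' hex (Or.inr ⟨SA, SB, e, hN, hC, rfl⟩)
  rcases hspec with ⟨SA, SB, e, hN, hC, he⟩ | ⟨SA, SB, e, hN, hC, he⟩
  · rw [he] at hmin
    exact FF_of_min hP hn hc hb hs hN hC hmin
  · rw [he] at hmin
    refine FF_of_min (s := tr s) hP (hc.card_eq ▸ hn) hc.tr (Brace.tr hc hb) (SNS.tr hc hs) hN hC ?_
    refine ⟨?_, ?_⟩
    · intro TA TB f hN' hC'
      exact hmin.2 TB TA f hN' hC'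
    · intro TA TB f hN' hC'
      exact hmin.1 TB TA f hN' hC'

/-- LEMMA FF for the transposed types (part of FFASM): `FF` applied to `tr s`. -/
theorem FFtr {n : ℕ} (hP : ∀ m < n, P m) {s : A → B → ℤ} (hn : Fintype.card A = n) (hc : Cubic s) (hb : Brace s)
    (hs : SNS s) {RA : Finset A} {RB : Finset B} {d : ℕ} (hR : Nontriv (tr s) RB RA d) (hcl : Clean (tr s) RB RA) :
    False :=
  FF (s := tr s) hP (hc.card_eq ▸ hn) hc.tr (Brace.tr hc hb) (SNS.tr hc hs) hR hcl

/-- Convenient form (part of FFASM): a shore is clean if no negative edge is inside and every negative edge that leaves it has an outside end with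
only one neighbour in the shore. -/
theorem clean_of {s : A → B → ℤ} (hval : ∀ a b, s a b = 0 ∨ s a b = 1 ∨ s a b = -1) {RA : Finset A} {RB : Finset B}
    (h1 : ∀ a ∈ RA, ∀ b ∈ RB, s a b ≠ -1)
    (h2 : ∀ a ∈ RA, ∀ b, b ∉ RB → s a b = -1 → ∀ a' ∈ RA, s a' b ≠ 0 → a' = a)
    (h3 : ∀ a, a ∉ RA → ∀ b ∈ RB, s a b = -1 → ∀ b' ∈ RB, s a b' ≠ 0 → b' = b) : Clean s RA RB := by
  have hone : sw s (fun _ => 1) (fun _ => 1) = s := by
    funext a b
    simp [sw]
  refine ⟨fun _ => 1, fun _ => 1, ?_⟩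
  rw [hone]
  refine ⟨?_, ?_, ?_⟩
  · intro a ha b hb
    rcases hval a b with h | h | h
    · rw [h]
    · rw [h]; norm_num
    · exact absurd h (h1 a ha b hb)
  · intro b hb a ha a' ha'
    rcases hval a b with h | h | h
    · rw [h]; simp
    · rcases hval a' b with h' | h' | h'
      · rw [h']; simp
      · rw [h, h']; norm_num
      · have := h2 a' ha' b hb h' a ha (by rw [h]; norm_num)
        subst this
        rw [h] at h'; norm_num at h'
    · rcases hval a' b with h' | h' | h'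
      · rw [h']; simp
      · have := h2 a ha b hb h a' ha' (by rw [h']; norm_num)
        subst this
        rw [h] at h'; norm_num at h'
      · rw [h, h']; norm_num
  · intro a ha b hb b' hb'
    rcases hval a b with h | h | h
    · rw [h]; simp
    · rcases hval a b' with h' | h' | h'
      · rw [h']; simp
      · rw [h, h']; norm_num
      · have := h3 a ha b' hb' h' b hb (by rw [h]; norm_num)
        subst this
        rw [h] at h'; norm_num at h'
    · rcases hval a b' with h' | h' | h'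
      · rw [h']; simp
      · have := h3 a ha b hb h b' hb' (by rw [h']; norm_num)
        subst this
        rw [h] at h'; norm_num at h'
      · rw [h, h']; norm_num

end MCC
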