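import Pool.Agent.Lib_MP_cb5629.Base

/-! LEMMA FF (section 2 of the paper text): definitions. -/

set_option linter.unusedSectionVars false

namespace MCC

open Finset

variable {A B : Type} [Fintype A] [Fintype B] [DecidableEq A] [DecidableEq B]

/-- Minimality of a nontrivial clean shore, among the shores of `s` and of `tr s` (measure `3 |RA| + d`). -/
def MinHyp (s : A → B → ℤ) (m : ℕ) : Prop :=
  (∀ (SA : Finset A) (SB : Finset B) (e : ℕ), Nontriv s SA SB e → Clean s SA SB → m ≤ 3 * SA.card + e) ∧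
  (∀ (SA : Finset A) (SB : Finset B) (e : ℕ), Nontriv (tr s) SB SA e → Clean (tr s) SB SA → m ≤ 3 * SB.card + e)

/-- the rows of `RA` with an A-leg -/
def PA (s : A → B → ℤ) (RA : Finset A) (RB : Finset B) : Finset A := RA.filter fun a => (nbA s a \ RB).Nonempty

/-- the columns of `RB` with a B-leg -/
def QB (s : A → B → ℤ) (RA : Finset A) (RB : Finset B) : Finset B := RB.filter fun b => (nbB s b \ RA).Nonempty

/-- The properties (c0)-(c3) of a minimal nontrivial clean shore, after switching. -/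
structure Core (s : A → B → ℤ) (RA : Finset A) (RB : Finset B) (d : ℕ) : Prop extends Nontriv s RA RB d where
  pos : ∀ a ∈ RA, ∀ b ∈ RB, 0 ≤ s a b
  rb3 : 3 ≤ RB.card
  uA : ∀ a ∈ RA, (nbA s a \ RB).card ≤ 1
  uB : ∀ b ∈ RB, (nbB s b \ RA).card ≤ 1
  oB : ∀ b, b ∉ RB → (nbB s b ∩ RA).card ≤ 1
  oA : ∀ a, a ∉ RA → (nbA s a ∩ RB).card ≤ 1
  npq : ∀ a ∈ PA s RA RB, ∀ b ∈ QB s RA RB, s a b = 0
  /-- no smaller shore `(S, N_R(S))` -/
  min : ∀ S ⊆ RA, S.card < RA.card → ∀ e, ¬ Nontriv s S (NA s S ∩ RB) e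
  /-- no smaller shore `(S, N_R(S))` of type `(1,4)` -/
  min' : ∀ S ⊆ RA, S.card + 2 ≤ RA.card → ¬ Nontriv (tr s) (NA s S ∩ RB) S 1

/-- The plane `W`: real vectors that vanish on the columns of `RB` without B-leg and have zero sum in all rows
outside `RA`. -/
def InW (s : A → B → ℤ) (RA : Finset A) (RB : Finset B) (ξ : B → ℝ) : Prop :=
  (∀ b ∈ RB, b ∉ QB s RA RB → ξ b = 0) ∧ ∀ a, a ∉ RA → ∑ b, (s a b : ℝ) * ξ b = 0

/-- the value that the row `a` sees on its A-leg -/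
def vA (s : A → B → ℤ) (RB : Finset B) (ξ : B → ℝ) (a : A) : ℝ := ∑ b ∈ univ \ RB, (s a b : ℝ) * ξ b

/-- Pairwise independence of the `4 + d` vectors `(α a, β a)`, `a ∈ P`, and `(γ b, δ b)`, `b ∈ Q`. -/
structure Plane (P : Finset A) (Q : Finset B) (α β : A → ℝ) (γ δ : B → ℝ) : Prop where
  aa : ∀ a ∈ P, ∀ a' ∈ P, a ≠ a' → α a * β a' - α a' * β a ≠ 0
  bb : ∀ b ∈ Q, ∀ b' ∈ Q, b ≠ b' → γ b * δ b' - γ b' * δ b ≠ 0
  ab : ∀ a ∈ P, ∀ b ∈ Q, α a * δ b - γ b * β a ≠ 0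

/-- Data of the z-closing: every `a ∈ P` gets a new line `g a` with sign `ε a`, the new point `z` has the sign `ζ w` on
the new line `w` and `η b` on `b ∈ Q`. -/
structure ZData (P : Finset A) (Q : Finset B) (d : ℕ) (g : A → Fin (d + 1)) (ε : A → ℤ) (ζ : Fin (d + 1) → ℤ)
    (η : B → ℤ) : Prop where
  fib : ∀ w, (P.filter fun a => g a = w).card = 2
  ε1 : ∀ a ∈ P, ε a = 1 ∨ ε a = -1
  ζ1 : ∀ w, ζ w = 1 ∨ ζ w = -1
  η1 : ∀ b ∈ Q, η b = 1 ∨ η b = -1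

/-- The sign condition (2.3) for the z-closing: every `±1` assignment of the slots that balances the row `z` is realised in the
plane. -/
def ZSgn (P : Finset A) (Q : Finset B) (α β : A → ℝ) (γ δ : B → ℝ) (d : ℕ) (g : A → Fin (d + 1)) (ε : A → ℤ)
    (ζ : Fin (d + 1) → ℤ) (η : B → ℤ) : Prop :=
  ∀ (X : Fin (d + 1) → ℝ) (Y : B → ℝ), (∀ w, X w = 1 ∨ X w = -1) → (∀ b ∈ Q, Y b = 1 ∨ Y b = -1) →
    ((∃ w, 0 < (ζ w : ℝ) * X w) ∨ ∃ b ∈ Q, 0 < (η b : ℝ) * Y b) →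
    ((∃ w, (ζ w : ℝ) * X w < 0) ∨ ∃ b ∈ Q, (η b : ℝ) * Y b < 0) →
    ∃ y u : ℝ, (∀ a ∈ P, 0 < (α a * y + β a * u) * ((ε a : ℝ) * X (g a))) ∧
      ∀ b ∈ Q, 0 < (γ b * y + δ b * u) * Y b

/-- number of negative new edges -/
def zneg (P : Finset A) (Q : Finset B) (d : ℕ) (ε : A → ℤ) (ζ : Fin (d + 1) → ℤ) (η : B → ℤ) : ℕ :=
  (P.filter fun a => ε a = -1).card + (univ.filter fun w => ζ w = -1).card + (Q.filter fun b => η b = -1).card

/-- the z-closing -/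
def zcl (s : A → B → ℤ) (RA : Finset A) (RB : Finset B) (d : ℕ) (g : A → Fin (d + 1)) (ε : A → ℤ)
    (ζ : Fin (d + 1) → ℤ) (η : B → ℤ) : {a : A // a ∈ RA} ⊕ Unit → {b : B // b ∈ RB} ⊕ Fin (d + 1) → ℤ
  | Sum.inl a, Sum.inl b => s a.1 b.1
  | Sum.inl a, Sum.inr w => if a.1 ∈ PA s RA RB ∧ g a.1 = w then ε a.1 else 0
  | Sum.inr _, Sum.inl b => if b.1 ∈ QB s RA RB then η b.1 else 0
  | Sum.inr _, Sum.inr w => ζ w

/-- Data of the direct closing (`d = 0`): a bijection `m` from `P` to `Q` and signs `t`. -/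
structure DData (P : Finset A) (Q : Finset B) (m : A → B) (t : A → ℤ) : Prop where
  maps : ∀ a ∈ P, m a ∈ Q
  inj : ∀ a ∈ P, ∀ a' ∈ P, m a = m a' → a = a'
  t1 : ∀ a ∈ P, t a = 1 ∨ t a = -1

/-- the sign condition for the direct closing -/
def DSgn (P : Finset A) (Q : Finset B) (α β : A → ℝ) (γ δ : B → ℝ) (m : A → B) (t : A → ℤ) : Prop :=
  ∀ Y : B → ℝ, (∀ b ∈ Q, Y b = 1 ∨ Y b = -1) →
    ∃ y u : ℝ, (∀ a ∈ P, 0 < (α a * y + β a * u) * ((t a : ℝ) * Y (m a))) ∧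
      ∀ b ∈ Q, 0 < (γ b * y + δ b * u) * Y b

/-- the direct closing -/
def dcl (s : A → B → ℤ) (RA : Finset A) (RB : Finset B) (m : A → B) (t : A → ℤ) :
    {a : A // a ∈ RA} → {b : B // b ∈ RB} → ℤ :=
  fun a b => if a.1 ∈ PA s RA RB ∧ m a.1 = b.1 then t a.1 else s a.1 b.1

end MCC
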