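import Pool.Agent.Lib_MP_cb5629.FFDefs

/-! (2.6) of the paper text: the sign patterns, elementary plane geometry. -/

set_option linter.unusedSectionVars false

namespace MCC

open Finset

variable {A B : Type} [Fintype A] [Fintype B] [DecidableEq A] [DecidableEq B]

private lemma FGeo_pm {x : ℤ} (h : x = 1 ∨ x = -1) : x * x = 1 := by
  rcases h with rfl | rfl <;> norm_num

private lemma FGeo_mul {x y : ℤ} (h : x = 1 ∨ x = -1) (h' : y = 1 ∨ y = -1) : x * y = 1 ∨ x * y = -1 := by
  rcases h with rfl | rfl <;> rcases h' with rfl | rfl <;> norm_num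

private lemma FGeo_one {x y c : ℤ} (hx : x = 1 ∨ x = -1) (hy : y = 1 ∨ y = -1) (hc : c = 1 ∨ c = -1)
    (h : x * y ≠ 1) : (if c * x = -1 then 1 else 0) + (if c * y = -1 then 1 else 0) = (1 : ℕ) := by
  rcases hx with rfl | rfl <;> rcases hy with rfl | rfl <;> rcases hc with rfl | rfl <;> simp at h ⊢

private lemma FGeo_eq {x y : ℤ} (hx : x = 1 ∨ x = -1) (hy : y = 1 ∨ y = -1) (h : x * y = 1) : x = y := by
  rcases hx with rfl | rfl <;> rcases hy with rfl | rfl <;> simp at h ⊢

/-- the sign condition for the switched data -/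
private lemma FGeo_sgn {P : Finset A} {Q : Finset B} {α β : A → ℝ} {γ δ : B → ℝ} {d : ℕ} {g : A → Fin (d + 1)}
    {ε : A → ℤ} {ζ : Fin (d + 1) → ℤ} {η : B → ℤ} (h2 : ZSgn P Q α β γ δ d g ε ζ η) {c : Fin (d + 1) → ℤ} {e : ℤ}
    (hc : ∀ w, c w = 1 ∨ c w = -1) (he : e = 1 ∨ e = -1) :
    ZSgn P Q α β γ δ d g (fun a => c (g a) * ε a) (fun w => e * c w * ζ w) (fun b => e * η b) := by
  intro X Y hX hY hp hn
  have hX' : ∀ w, (c w : ℝ) * X w = 1 ∨ (c w : ℝ) * X w = -1 := by
    intro w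
    rcases hc w with h | h <;> rcases hX w with h' | h' <;> rw [h, h'] <;> norm_num
  have h3 : ((∃ w, 0 < (ζ w : ℝ) * ((c w : ℝ) * X w)) ∨ ∃ b ∈ Q, 0 < (η b : ℝ) * Y b) ∧
      ((∃ w, (ζ w : ℝ) * ((c w : ℝ) * X w) < 0) ∨ ∃ b ∈ Q, (η b : ℝ) * Y b < 0) := by
    rcases he with rfl | rfl
    · constructor
      · rcases hp with ⟨w, hw⟩ | ⟨b, hb, hw⟩
        · left; refine ⟨w, ?_⟩; push_cast at hw; linarith
        · right; refine ⟨b, hb, ?_⟩; push_cast at hw; linarith
      · rcases hn with ⟨w, hw⟩ | ⟨b, hb, hw⟩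
        · left; refine ⟨w, ?_⟩; push_cast at hw; linarith
        · right; refine ⟨b, hb, ?_⟩; push_cast at hw; linarith
    · constructor
      · rcases hn with ⟨w, hw⟩ | ⟨b, hb, hw⟩
        · left; refine ⟨w, ?_⟩; push_cast at hw; linarith
        · right; refine ⟨b, hb, ?_⟩; push_cast at hw; linarith
      · rcases hp with ⟨w, hw⟩ | ⟨b, hb, hw⟩
        · left; refine ⟨w, ?_⟩; push_cast at hw; linarith
        · right; refine ⟨b, hb, ?_⟩; push_cast at hw; linarith
  obtain ⟨y, u, h4, h5⟩ := h2 (fun w => (c w : ℝ) * X w) Y hX' hY h3.1 h3.2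
  refine ⟨y, u, fun a ha => ?_, h5⟩
  have h6 := h4 a ha
  have h7 : ((c (g a) * ε a : ℤ) : ℝ) * X (g a) = (ε a : ℝ) * ((c (g a) : ℝ) * X (g a)) := by
    push_cast; ring
  show 0 < (α a * y + β a * u) * (((c (g a) * ε a : ℤ) : ℝ) * X (g a))
  rw [h7]
  exact h6

/-- Piece NORM. Normalisation of the signs of the z-closing.

Proof. For `c : Fin (d+1) → {±1}` and `e = ±1` the data `ε' a = c (g a) * ε a`, `ζ' w = e * c w * ζ w`, `η' b = e * η b` again satisfy `ZData`, `ZSgn`
(apply `ZSgn` to `X w = c w * X' w` and the same `Y`; multiplying by `e = -1` exchanges the two hypotheses on signs).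
Call `w` even if the product of the two `ε a`, `g a = w`, is `1`, odd otherwise. For even `w` let `c w` be the common value of `ε`, so `ε' = 1` there. The fixed
slots are the even `w` (value `c w * ζ w`) and the `b ∈ Q` (value `η b`). The number of slots is `(d + 1) + |Q| = 3`; let `j` be the number
of odd `w`, so there are `3 - j` fixed slots. Choose `e` such that at most half of the fixed slots have the value `- e`, and `c w = e * ζ w` for odd
`w`, so `ζ' w = 1` there. Every odd `w` gives exactly one `a` with `ε' a = -1`. So `zneg = j + k` with `k ≤ (3 - j)/2`, and `j ≤ 2` by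
hypothesis (for `d ≤ 1` there are at most two `w`): `zneg ≤ 2`, and `zneg = 2` implies `j ≥ 1`. -/
theorem znorm {P : Finset A} {Q : Finset B} {α β : A → ℝ} {γ δ : B → ℝ} {d : ℕ} {g : A → Fin (d + 1)} {ε : A → ℤ}
    {ζ : Fin (d + 1) → ℤ} {η : B → ℤ} (h1 : ZData P Q d g ε ζ η) (h2 : ZSgn P Q α β γ δ d g ε ζ η)
    (hq : Q.card + d = 2) (hodd : d ≤ 1 ∨ ∃ w, ∏ a ∈ P.filter (fun a => g a = w), ε a = 1) :
    ∃ (ε' : A → ℤ) (ζ' : Fin (d + 1) → ℤ) (η' : B → ℤ), ZData P Q d g ε' ζ' η' ∧ ZSgn P Q α β γ δ d g ε' ζ' η' ∧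
      zneg P Q d ε' ζ' η' ≤ 2 ∧ (zneg P Q d ε' ζ' η' = 2 → ∃ a ∈ P, ε' a = -1) := by
  classical
  choose a1 a2 hne hfib using fun w => card_eq_two.1 (h1.fib w)
  have m1 : ∀ w, a1 w ∈ P ∧ g (a1 w) = w := by
    intro w
    have : a1 w ∈ P.filter (fun a => g a = w) := by rw [hfib w]; simp
    exact mem_filter.1 this
  have m2 : ∀ w, a2 w ∈ P ∧ g (a2 w) = w := by
    intro w
    have : a2 w ∈ P.filter (fun a => g a = w) := by rw [hfib w]; simp
    exact mem_filter.1 this
  have e1 : ∀ w, ε (a1 w) = 1 ∨ ε (a1 w) = -1 := fun w => h1.ε1 _ (m1 w).1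
  have e2 : ∀ w, ε (a2 w) = 1 ∨ ε (a2 w) = -1 := fun w => h1.ε1 _ (m2 w).1
  have hpr : ∀ w, ∏ a ∈ P.filter (fun a => g a = w), ε a = ε (a1 w) * ε (a2 w) := by
    intro w
    rw [hfib w, prod_pair (hne w)]
  -- the number of odd `w`
  set O : Finset (Fin (d + 1)) := univ.filter fun w => ε (a1 w) * ε (a2 w) ≠ 1 with hO
  set E : Finset (Fin (d + 1)) := univ.filter fun w => ε (a1 w) * ε (a2 w) = 1 with hE
  have hOE : O.card + E.card = d + 1 := by
    have := card_filter_add_card_filter_not (s := (univ : Finset (Fin (d + 1))))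
      (fun w => ε (a1 w) * ε (a2 w) = 1)
    rw [card_univ, Fintype.card_fin, add_comm] at this
    exact this
  have hj : O.card ≤ 2 := by
    rcases hodd with h | ⟨w, hw⟩
    · omega
    · rw [hpr w] at hw
      have : 0 < E.card := card_pos.2 ⟨w, by rw [hE, mem_filter]; exact ⟨mem_univ _, hw⟩⟩
      omega
  -- the fixed slots
  let k : ℤ → ℕ := fun e => (E.filter fun w => e * ε (a1 w) * ζ w = -1).card + (Q.filter fun b => e * η b = -1).card
  have hk : k 1 + k (-1) = 3 - O.card := by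
    have h3 : (E.filter fun w => 1 * ε (a1 w) * ζ w = -1).card
        + (E.filter fun w => (-1) * ε (a1 w) * ζ w = -1).card = E.card := by
      rw [← card_filter_add_card_filter_not (s := E) (fun w => 1 * ε (a1 w) * ζ w = -1)]
      congr 2
      refine filter_congr fun w _ => ?_
      rcases e1 w with h | h <;> rcases h1.ζ1 w with h' | h' <;> rw [h, h'] <;> norm_num
    have h4 : (Q.filter fun b => 1 * η b = -1).card + (Q.filter fun b => (-1) * η b = -1).card = Q.card := by
      rw [← card_filter_add_card_filter_not (s := Q) (fun b => 1 * η b = -1)]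
      congr 2
      refine filter_congr fun b hb => ?_
      rcases h1.η1 b hb with h | h <;> rw [h] <;> norm_num
    show (_ + _) + (_ + _) = 3 - O.card
    omega
  obtain ⟨e, he, hke⟩ : ∃ e : ℤ, (e = 1 ∨ e = -1) ∧ 2 * k e ≤ 3 - O.card := by
    rcases le_total (k 1) (k (-1)) with h | h
    · exact ⟨1, Or.inl rfl, by omega⟩
    · exact ⟨-1, Or.inr rfl, by omega⟩
  let c : Fin (d + 1) → ℤ := fun w => if ε (a1 w) * ε (a2 w) = 1 then ε (a1 w) else e * ζ w
  have hc : ∀ w, c w = 1 ∨ c w = -1 := by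
    intro w
    by_cases h : ε (a1 w) * ε (a2 w) = 1
    · simp only [c, h, if_true]; exact e1 w
    · simp only [c, h, if_false]; exact FGeo_mul he (h1.ζ1 w)
  have hcE : ∀ w, ε (a1 w) * ε (a2 w) = 1 → c w = ε (a1 w) := fun w h => by simp [c, h]
  have hcO : ∀ w, ε (a1 w) * ε (a2 w) ≠ 1 → c w = e * ζ w := fun w h => by simp [c, h]
  have hee : e * e = 1 := FGeo_pm he
  -- counting
  have n1 : (P.filter fun a => c (g a) * ε a = -1).card = O.card := by
    rw [card_eq_sum_card_fiberwise (f := g) (t := univ) (fun a _ => mem_coe.2 (mem_univ _)), hO, card_filter]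
    refine sum_congr rfl fun w _ => ?_
    have h3 : (P.filter fun a => c (g a) * ε a = -1).filter (fun a => g a = w)
        = (P.filter fun a => g a = w).filter fun a => c w * ε a = -1 := by
      ext a
      simp only [mem_filter]
      constructor
      · rintro ⟨⟨h3, h4⟩, rfl⟩
        exact ⟨⟨h3, rfl⟩, h4⟩
      · rintro ⟨⟨h3, rfl⟩, h4⟩
        exact ⟨⟨h3, h4⟩, rfl⟩
    rw [h3, hfib w, card_filter, sum_pair (hne w)]
    by_cases h : ε (a1 w) * ε (a2 w) = 1
    · rw [hcE w h, FGeo_pm (e1 w), h]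
      simp
    · rw [FGeo_one (e1 w) (e2 w) (hc w) h]
      simp [h]
  have n2 : (univ.filter fun w => e * c w * ζ w = -1) = E.filter fun w => e * ε (a1 w) * ζ w = -1 := by
    ext w
    simp only [mem_filter, mem_univ, true_and, hE]
    constructor
    · intro h3
      by_cases h : ε (a1 w) * ε (a2 w) = 1
      · rw [hcE w h] at h3
        exact ⟨h, h3⟩
      · exfalso
        rw [hcO w h] at h3
        have h5 : e * (e * ζ w) * ζ w = 1 := by
          calc e * (e * ζ w) * ζ w = (e * e) * (ζ w * ζ w) := by ring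
            _ = 1 := by rw [hee, FGeo_pm (h1.ζ1 w)]; norm_num
        rw [h5] at h3
        norm_num at h3
    · rintro ⟨h, h3⟩
      rw [hcE w h]
      exact h3
  have hz : zneg P Q d (fun a => c (g a) * ε a) (fun w => e * c w * ζ w) (fun b => e * η b) = O.card + k e := by
    unfold zneg
    rw [n1, n2, add_assoc]
  refine ⟨fun a => c (g a) * ε a, fun w => e * c w * ζ w, fun b => e * η b, ?_, FGeo_sgn h2 hc he, ?_, ?_⟩
  · exact ⟨h1.fib, fun a ha => FGeo_mul (hc _) (h1.ε1 a ha), fun w => FGeo_mul (FGeo_mul he (hc w)) (h1.ζ1 w),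
      fun b hb => FGeo_mul he (h1.η1 b hb)⟩
  · rw [hz]
    omega
  · intro h3
    rw [hz] at h3
    have h4 : 0 < O.card := by omega
    rw [← n1] at h4
    obtain ⟨a, ha⟩ := card_pos.1 h4
    rw [mem_filter] at ha
    exact ⟨a, ha.1, ha.2⟩

end MCC
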