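import Pool.Agent.Lib_MP_cb5629.FMat

set_option linter.unusedSectionVars false

namespace MCC

open Finset

variable {A B : Type} [Fintype A] [Fintype B] [DecidableEq A] [DecidableEq B]

/-- an injective choice of `H`-neighbours in `T` on the rows of `S` -/
private def FMat2_M (H : A → B → ℤ) (S : Finset A) (T : Finset B) : Prop :=
  ∃ f : A → B, Set.InjOn f S ∧ ∀ a ∈ S, f a ∈ T ∧ H a (f a) ≠ 0

private lemma FMat2_union {H : A → B → ℤ} {S S' : Finset A} {T T' : Finset B} (h : FMat2_M H S T)
    (h' : FMat2_M H S' T') (hd : Disjoint T T') : FMat2_M H (S ∪ S') (T ∪ T') := by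
  classical
  obtain ⟨f, hf, hfT⟩ := h
  obtain ⟨g, hg, hgT⟩ := h'
  refine ⟨fun a => if a ∈ S then f a else g a, ?_, ?_⟩
  · intro a ha a' ha' he
    simp only [coe_union, Set.mem_union, mem_coe] at ha ha'
    by_cases h1 : a ∈ S <;> by_cases h2 : a' ∈ S
    · simp only [h1, h2, if_true] at he
      exact hf (mem_coe.2 h1) (mem_coe.2 h2) he
    · simp only [h1, h2, if_true, if_false] at he
      have h3 := ha'.resolve_left h2
      exact absurd (hgT a' h3).1 (he ▸ disjoint_left.1 hd (hfT a h1).1)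
    · simp only [h1, h2, if_true, if_false] at he
      have h3 := ha.resolve_left h1
      exact absurd (hgT a h3).1 (he ▸ disjoint_left.1 hd (hfT a' h2).1)
    · simp only [h1, h2, if_false] at he
      exact hg (mem_coe.2 (ha.resolve_left h1)) (mem_coe.2 (ha'.resolve_left h2)) he
  · intro a ha
    simp only [mem_union] at ha ⊢
    by_cases h1 : a ∈ S
    · simp only [h1, if_true]
      exact ⟨Or.inl (hfT a h1).1, (hfT a h1).2⟩
    · simp only [h1, if_false]
      have h3 := ha.resolve_left h1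
      exact ⟨Or.inr (hgT a h3).1, (hgT a h3).2⟩

private lemma FMat2_fin {H : A → B → ℤ} (hcard : Fintype.card A = Fintype.card B) {S : Finset A} {T : Finset B}
    (h : FMat2_M H S T) (hS : ∀ a, a ∈ S) : ∃ σ : A ≃ B, IsPM H σ := by
  obtain ⟨f, hf, hfT⟩ := h
  obtain ⟨σ, hσ, -⟩ := pm_of_inj (s := H) hcard f
    (fun a a' he => hf (mem_coe.2 (hS a)) (mem_coe.2 (hS a')) he) (fun a => (hfT a (hS a)).2)
  exact ⟨σ, hσ⟩

private lemma FMat2_single {H : A → B → ℤ} {a : A} {b : B} (h : H a b ≠ 0) : FMat2_M H {a} {b} := by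
  refine ⟨fun _ => b, ?_, ?_⟩
  · intro x hx y hy _
    simp only [coe_singleton, Set.mem_singleton_iff] at hx hy
    rw [hx, hy]
  · intro x hx
    rw [mem_singleton] at hx
    subst hx
    exact ⟨mem_singleton_self _, h⟩

private lemma FMat2_image {H : A → B → ℤ} [Nonempty B] {Q : Finset B} {κ : B → A}
    (h : ∀ b ∈ Q, H (κ b) b ≠ 0) : FMat2_M H (Q.image κ) Q := by
  classical
  have key : ∀ a : A, ∃ b : B, a ∈ Q.image κ → b ∈ Q ∧ κ b = a := by
    intro a
    by_cases ha : a ∈ Q.image κ
    · obtain ⟨b, hb, hba⟩ := mem_image.1 ha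
      exact ⟨b, fun _ => ⟨hb, hba⟩⟩
    · exact ⟨Classical.arbitrary B, fun h => absurd h ha⟩
  choose f hf using key
  refine ⟨f, ?_, ?_⟩
  · intro a ha a' ha' he
    rw [← (hf a (mem_coe.1 ha)).2, ← (hf a' (mem_coe.1 ha')).2, he]
  · intro a ha
    obtain ⟨h1, h2⟩ := hf a ha
    refine ⟨h1, ?_⟩
    have := h (f a) h1
    rwa [h2] at this

/-- Piece M2 (as M1; read the proof of `Core.m1` in FMat.lean).
(1) `RA \ {a0}` is matched with `RB \ (QB \ {b0})` (`hall_on'`): both have `|RA| - 1` elements; for a nonempty subset `T` of the second set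
the neighbours of `T` are in `RA ∪ {κ b0}`, `|NB T| ≥ |T| + 2`, so at least `|T|` of them are in `RA \ {a0}`. (2) `a0 ↦ π a0`. (3) `κ b ↦ b` for
`b ∈ QB \ {b0}`. (4) `KA \ κ(QB \ {b0})` is mapped injectively into `(B \ RB) \ {π a0}` (`hall_on`): for a nonempty subset `U`,
`|NA U| ≥ |U| + 2`, `NA U ∩ RB ⊆ {b0}`. -/
theorem Core.m2 {s : A → B → ℤ} (hc : Cubic s) (hb : Brace s) {RA : Finset A} {RB : Finset B} {d : ℕ}
    (h : Core s RA RB d) {a0 : A} {b0 : B} (h0 : a0 ∈ PA s RA RB) (h0' : b0 ∈ QB s RA RB) :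
    ∃ σ : A ≃ B, IsPM (H2 s RA RB a0 b0) σ := by
  classical
  have : Nonempty A := ⟨a0⟩
  have : Nonempty B := ⟨b0⟩
  obtain ⟨π, hπ, -⟩ := h.exists_pi
  obtain ⟨κ, hκ, -, hκo⟩ := h.exists_ka
  obtain ⟨hπ1, hπ2, hπ3⟩ := hπ a0 h0
  have hcardQ := h.cardQB hc
  have hcard := h.card
  have hlow := h.low
  have hupp := h.upp
  have ha0R : a0 ∈ RA := (mem_filter.1 h0).1
  have hQR : QB s RA RB ⊆ RB := filter_subset _ _
  have hb0R : b0 ∈ RB := hQR h0'
  set Q := QB s RA RB with hQ
  have hQe : (Q.erase b0).card + 1 = Q.card := by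
    rw [card_erase_of_mem h0']
    have : 0 < Q.card := card_pos.2 ⟨b0, h0'⟩
    omega
  have hQeR : Q.erase b0 ⊆ RB := (erase_subset _ _).trans hQR
  -- (1)
  have m1 : FMat2_M (H2 s RA RB a0 b0) (RA.erase a0) (RB \ Q.erase b0) := by
    apply hall_on'
    · rw [card_erase_of_mem ha0R, card_sdiff_of_subset hQeR]
      have := card_le_card hQR
      omega
    · intro T hT
      rcases T.eq_empty_or_nonempty with rfl | hne
      · simp
      have hTc : T.card ≤ (RB \ Q.erase b0).card := card_le_card hT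
      rw [card_sdiff_of_subset hQeR] at hTc
      have h1 := (hb.tr hc).hall T hne (by rw [← hc.card_eq]; omega)
      rw [NA_tr] at h1
      have h2 : NB s T ⊆ (NB (H2 s RA RB a0 b0) T ∩ RA.erase a0) ∪ {κ b0, a0} := by
        intro a ha
        obtain ⟨b, hbT, hab⟩ := mem_NB.1 ha
        have hbb := mem_sdiff.1 (hT hbT)
        have hb3 : b ∉ Q ∨ b = b0 := by
          by_contra hcon
          push Not at hcon
          exact hbb.2 (mem_erase.2 ⟨hcon.2, hcon.1⟩)
        by_cases haR : a ∈ RA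
        · by_cases ha0 : a = a0
          · simp [ha0]
          · apply mem_union_left
            refine mem_inter.2 ⟨mem_NB.2 ⟨b, hbT, ?_⟩, mem_erase.2 ⟨ha0, haR⟩⟩
            simp only [H2, haR, if_true, ha0, if_false, hbb.1, true_and]
            rw [if_pos hb3]
            exact hab
        · obtain ⟨h4, h5⟩ := hκo a haR b hbb.1 hab
          have h6 : b = b0 := hb3.resolve_left (fun hn => hn h4)
          rw [h6] at h5
          simp [h5]
      have h3 := (card_le_card h2).trans (card_union_le _ _)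
      have h4 : ({κ b0, a0} : Finset A).card ≤ 2 := card_le_two
      omega
  -- (2)
  have m2 : FMat2_M (H2 s RA RB a0 b0) {a0} {π a0} := by
    apply FMat2_single
    simp only [H2, ha0R, if_true, hπ1, if_false]
    exact hπ2
  -- (3)
  have m3 : FMat2_M (H2 s RA RB a0 b0) ((Q.erase b0).image κ) (Q.erase b0) := by
    apply FMat2_image
    intro b hbe
    obtain ⟨h1, h2, -⟩ := hκ b (mem_of_mem_erase hbe)
    simp only [H2, h1, if_false]
    exact h2
  -- (4)
  have m4 : FMat2_M (H2 s RA RB a0 b0) (univ \ (RA ∪ (Q.erase b0).image κ)) ((univ \ RB).erase (π a0)) := by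
    apply hall_on
    intro U hU
    rcases U.eq_empty_or_nonempty with rfl | hne
    · simp
    have hU1 : ∀ a ∈ U, a ∉ RA ∧ a ∉ (Q.erase b0).image κ := by
      intro a ha
      have := (mem_sdiff.1 (hU ha)).2
      rw [mem_union] at this
      push Not at this
      exact this
    have hUc : U.card + RA.card ≤ Fintype.card A := by
      rw [← card_union_of_disjoint (disjoint_left.2 fun a ha => (hU1 a ha).1)]
      exact card_le_univ _
    have h1 := hb.hall U hne (by omega)
    have h2 : NA s U ⊆ (NA (H2 s RA RB a0 b0) U ∩ (univ \ RB).erase (π a0)) ∪ {b0, π a0} := by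
      intro b hbU
      obtain ⟨a, ha, hab⟩ := mem_NA.1 hbU
      obtain ⟨h3, h4⟩ := hU1 a ha
      by_cases hbR : b ∈ RB
      · obtain ⟨h5, h6⟩ := hκo a h3 b hbR hab
        by_cases h7 : b = b0
        · simp [h7]
        · exact absurd (mem_image.2 ⟨b, mem_erase.2 ⟨h7, h5⟩, h6.symm⟩) h4
      · by_cases h7 : b = π a0
        · simp [h7]
        · apply mem_union_left
          refine mem_inter.2 ⟨mem_NA.2 ⟨a, ha, ?_⟩, mem_erase.2 ⟨h7, mem_sdiff.2 ⟨mem_univ _, hbR⟩⟩⟩
          simp only [H2, h3, if_false]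
          exact hab
    have h3 := (card_le_card h2).trans (card_union_le _ _)
    have h4 : ({b0, π a0} : Finset B).card ≤ 2 := card_le_two
    omega
  -- glue
  have d12 : Disjoint (RB \ Q.erase b0) {π a0} := by
    rw [disjoint_singleton_right]
    exact fun hm => hπ1 (mem_sdiff.1 hm).1
  have g12 := FMat2_union m1 m2 d12
  have d123 : Disjoint ((RB \ Q.erase b0) ∪ {π a0}) (Q.erase b0) := by
    rw [disjoint_union_left]
    refine ⟨sdiff_disjoint, ?_⟩
    rw [disjoint_singleton_left]
    exact fun hm => hπ1 (hQeR hm)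
  have g123 := FMat2_union g12 m3 d123
  have d1234 : Disjoint (((RB \ Q.erase b0) ∪ {π a0}) ∪ (Q.erase b0)) ((univ \ RB).erase (π a0)) := by
    rw [disjoint_left]
    intro b hb1 hb2
    obtain ⟨h3, h4⟩ := mem_erase.1 hb2
    have h5 := (mem_sdiff.1 h4).2
    rcases mem_union.1 hb1 with h6 | h6
    · rcases mem_union.1 h6 with h7 | h7
      · exact h5 (mem_sdiff.1 h7).1
      · exact h3 (mem_singleton.1 h7)
    · exact h5 (hQeR h6)
  have g := FMat2_union g123 m4 d1234
  refine FMat2_fin hc.card_eq g ?_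
  intro a
  simp only [mem_union, mem_sdiff, mem_univ, true_and, mem_erase, mem_singleton]
  by_cases h1 : a = a0
  · exact Or.inl (Or.inl (Or.inr h1))
  by_cases h2 : a ∈ RA
  · exact Or.inl (Or.inl (Or.inl ⟨h1, h2⟩))
  by_cases h3 : a ∈ (Q.erase b0).image κ
  · exact Or.inl (Or.inr h3)
  · exact Or.inr (by push Not; exact ⟨h2, h3⟩)

/-- Piece M2 (second part), `d = 0`: (1) `RA` is matched with `RB` (`hall_on'`: for `∅ ≠ T ⊆ RB` at most two (`|bLegs| = 2`) of the
`≥ |T| + 2` neighbours are outside `RA`); (2) the rows outside `RA` are mapped injectively into `B \ RB` (`hall_on`: `NA U ∩ RB ⊆ QB` has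
at most two elements). -/
theorem Core.m3 {s : A → B → ℤ} (hc : Cubic s) (hb : Brace s) {RA : Finset A} {RB : Finset B}
    (h : Core s RA RB 0) : ∃ σ : A ≃ B, IsPM (H3 s RA RB) σ := by
  classical
  have hcard := h.card
  have hlow := h.low
  have hupp := h.upp
  have hcardQ := h.cardQB hc
  have : Nonempty A := by
    have : 0 < RA.card := by omega
    obtain ⟨a, -⟩ := card_pos.1 this
    exact ⟨a⟩
  have : Nonempty B := by
    have : 0 < RB.card := by omega
    obtain ⟨b, -⟩ := card_pos.1 this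
    exact ⟨b⟩
  obtain ⟨κ, hκ, -, hκo⟩ := h.exists_ka
  have m1 : FMat2_M (H3 s RA RB) RA RB := by
    apply hall_on' _ _ (by omega)
    intro T hT
    rcases T.eq_empty_or_nonempty with rfl | hne
    · simp
    have hTc : T.card ≤ RB.card := card_le_card hT
    have h1 := (hb.tr hc).hall T hne (by rw [← hc.card_eq]; omega)
    rw [NA_tr] at h1
    have h2 : NB s T ⊆ (NB (H3 s RA RB) T ∩ RA) ∪ (QB s RA RB).image κ := by
      intro a ha
      obtain ⟨b, hbT, hab⟩ := mem_NB.1 ha
      have hbb := hT hbT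
      by_cases haR : a ∈ RA
      · apply mem_union_left
        refine mem_inter.2 ⟨mem_NB.2 ⟨b, hbT, ?_⟩, haR⟩
        simp only [H3, haR, if_true, hbb]
        exact hab
      · obtain ⟨h4, h5⟩ := hκo a haR b hbb hab
        exact mem_union_right _ (mem_image.2 ⟨b, h4, h5.symm⟩)
    have h3 := (card_le_card h2).trans (card_union_le _ _)
    have h4 : ((QB s RA RB).image κ).card ≤ (QB s RA RB).card := card_image_le
    omega
  have m2 : FMat2_M (H3 s RA RB) (univ \ RA) (univ \ RB) := by
    apply hall_on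
    intro U hU
    rcases U.eq_empty_or_nonempty with rfl | hne
    · simp
    have hU1 : ∀ a ∈ U, a ∉ RA := fun a ha => (mem_sdiff.1 (hU ha)).2
    have hUc : U.card + RA.card ≤ Fintype.card A := by
      rw [← card_union_of_disjoint (disjoint_left.2 hU1)]
      exact card_le_univ _
    have h1 := hb.hall U hne (by omega)
    have h2 : NA s U ⊆ (NA (H3 s RA RB) U ∩ (univ \ RB)) ∪ QB s RA RB := by
      intro b hbU
      obtain ⟨a, ha, hab⟩ := mem_NA.1 hbU
      have h3 := hU1 a ha
      by_cases hbR : b ∈ RB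
      · exact mem_union_right _ (hκo a h3 b hbR hab).1
      · apply mem_union_left
        refine mem_inter.2 ⟨mem_NA.2 ⟨a, ha, ?_⟩, mem_sdiff.2 ⟨mem_univ _, hbR⟩⟩
        simp only [H3, h3, if_false]
        exact hab
    have h3 := (card_le_card h2).trans (card_union_le _ _)
    omega
  have g := FMat2_union m1 m2 disjoint_sdiff
  refine FMat2_fin hc.card_eq g ?_
  intro a
  simp only [mem_union, mem_sdiff, mem_univ, true_and]
  exact em _

end MCC
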