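import Pool.Agent.Lib_MP_cb5629.SPL
import Pool.Agent.Lib_MP_cb5629.Tools

set_option linter.unusedSectionVars false

namespace MCC

open Finset

variable {A B : Type} [Fintype A] [Fintype B] [DecidableEq A] [DecidableEq B]

private lemma Square_sq {x : ℤ} (h : x = 0 ∨ x = 1 ∨ x = -1) (h0 : x ≠ 0) : x = 1 ∨ x = -1 := by
  rcases h with h | h | h
  · exact absurd h h0
  · exact Or.inl h
  · exact Or.inr h

/-- the subgraph of the proof of `square_odd` -/
private def Square_sub (s : A → B → ℤ) (a c : A) (b d : B) (κ : A → B) (a' : A) (b' : B) : ℤ :=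
  if a' = a ∨ a' = c then (if b' = b ∨ b' = d then s a' b' else 0) else if b' = κ a' then s a' b' else 0

/-- Piece SQ1. In an SNS cubic brace every square has an odd number of negative edges.

Proof. The rows `U ⊆ A \ {a,c}`, `U ≠ ∅`, have `|U| ≤ n - 2`, so `|N(U)| ≥ |U| + 2` and `|N(U) \ {b,d}| ≥ |U|`: by `hall_on` there is a matching
`κ` of `A \ {a,c}` into `B \ {b,d}`. Let `H` be the subgraph: rows `a, c` keep only their edges to `b, d`, every other row `a'` keeps only
the edge to `κ a'`. `H` has the perfect matching `a ↦ b, c ↦ d, κ`, so it is SNS (`sns_sub`). If the product were `+1`, the vector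
`x b = s a b, x d = - s a d`, `0` elsewhere, balances `H`: row `a`: `1, -1`; row `c`: `s c b * s a b` and `- s c d * s a d` are
opposite because `s c b * s a b = s c d * s a d`; the other rows see only `κ a' ∉ {b,d}`. Contradiction. -/
theorem square_odd {s : A → B → ℤ} (hc : Cubic s) (hb : Brace s) (hs : SNS s) {a c : A} {b d : B} (hac : a ≠ c)
    (hbd : b ≠ d) (h1 : s a b ≠ 0) (h2 : s a d ≠ 0) (h3 : s c b ≠ 0) (h4 : s c d ≠ 0) :
    s a b * s a d * s c b * s c d = -1 := by
  classical
  have : Nonempty B := ⟨b⟩
  -- the matching of the other rows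
  obtain ⟨κ, hκi, hκ⟩ := hall_on (s := s) (univ \ {a, c}) (univ \ {b, d}) (by
    intro S hS
    rcases S.eq_empty_or_nonempty with rfl | hne
    · simp
    have hcS : S.card + 2 ≤ Fintype.card A := by
      have h5 := card_le_card hS
      rw [card_sdiff_of_subset (subset_univ _), card_univ, card_pair hac] at h5
      have h6 : 2 ≤ Fintype.card A := by
        rw [← card_pair hac, ← card_univ]; exact card_le_card (subset_univ _)
      omega
    have h7 := hb.hall S hne hcS
    have h8 : NA s S ∩ (univ \ {b, d}) = NA s S \ {b, d} := by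
      ext x; simp
    rw [h8]
    have h9 := le_card_sdiff ({b, d} : Finset B) (NA s S)
    have h10 : ({b, d} : Finset B).card ≤ 2 := card_le_two
    omega)
  have hκ1 : ∀ a', a' ≠ a → a' ≠ c → κ a' ≠ b ∧ κ a' ≠ d ∧ s a' (κ a') ≠ 0 := by
    intro a' ha hc'
    have h5 := hκ a' (by simp [ha, hc'])
    have h6 := h5.1
    rw [mem_sdiff, mem_insert, mem_singleton, not_or] at h6
    exact ⟨h6.2.1, h6.2.2, h5.2⟩
  have hκ2 : ∀ a' a'', a' ≠ a → a' ≠ c → a'' ≠ a → a'' ≠ c → κ a' = κ a'' → a' = a'' := by
    intro a' a'' g1 g2 g3 g4 h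
    exact hκi (by simp [g1, g2]) (by simp [g3, g4]) h
  set s' : A → B → ℤ := Square_sub s a c b d κ with hs'
  have ea : ∀ b', s' a b' = if b' = b ∨ b' = d then s a b' else 0 := by
    intro b'
    rw [hs']
    unfold Square_sub
    rw [if_pos (Or.inl rfl)]
  have ec : ∀ b', s' c b' = if b' = b ∨ b' = d then s c b' else 0 := by
    intro b'
    rw [hs']
    unfold Square_sub
    rw [if_pos (Or.inr rfl)]
  have eo : ∀ a' b', a' ≠ a → a' ≠ c → s' a' b' = if b' = κ a' then s a' b' else 0 := by
    intro a' b' g1 g2
    rw [hs']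
    unfold Square_sub
    rw [if_neg (by simp [g1, g2])]
  have hSNS : SNS s' := by
    apply sns_sub hc.val hs
    · intro a' b'
      by_cases g1 : a' = a
      · subst g1
        rw [ea]
        split_ifs
        · exact Or.inr rfl
        · exact Or.inl rfl
      by_cases g2 : a' = c
      · subst g2
        rw [ec]
        split_ifs
        · exact Or.inr rfl
        · exact Or.inl rfl
      rw [eo a' b' g1 g2]
      split_ifs
      · exact Or.inr rfl
      · exact Or.inl rfl
    · obtain ⟨σ, hσ, _⟩ := pm_of_inj (s := s') hc.card_eq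
        (fun a' => if a' = a then b else if a' = c then d else κ a') (by
          intro x y hxy'
          have hxy : (if x = a then b else if x = c then d else κ x) =
            (if y = a then b else if y = c then d else κ y) := hxy'
          by_cases x1 : x = a
          · by_cases y1 : y = a
            · rw [x1, y1]
            · by_cases y2 : y = c
              · rw [if_pos x1, if_neg y1, if_pos y2] at hxy
                exact absurd hxy hbd
              · rw [if_pos x1, if_neg y1, if_neg y2] at hxy
                exact absurd hxy.symm (hκ1 y y1 y2).1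
          · by_cases x2 : x = c
            · by_cases y1 : y = a
              · rw [if_neg x1, if_pos x2, if_pos y1] at hxy
                exact absurd hxy.symm hbd
              · by_cases y2 : y = c
                · rw [x2, y2]
                · rw [if_neg x1, if_pos x2, if_neg y1, if_neg y2] at hxy
                  exact absurd hxy.symm (hκ1 y y1 y2).2.1
            · by_cases y1 : y = a
              · rw [if_neg x1, if_neg x2, if_pos y1] at hxy
                exact absurd hxy (hκ1 x x1 x2).1
              · by_cases y2 : y = c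
                · rw [if_neg x1, if_neg x2, if_neg y1, if_pos y2] at hxy
                  exact absurd hxy (hκ1 x x1 x2).2.1
                · rw [if_neg x1, if_neg x2, if_neg y1, if_neg y2] at hxy
                  exact hκ2 x y x1 x2 y1 y2 hxy) (by
          intro a'
          show s' a' (if a' = a then b else if a' = c then d else κ a') ≠ 0
          by_cases g1 : a' = a
          · subst g1
            rw [if_pos rfl, ea, if_pos (Or.inl rfl)]
            exact h1
          by_cases g2 : a' = c
          · subst g2
            rw [if_neg g1, if_pos rfl, ec, if_pos (Or.inr rfl)]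
            exact h4
          rw [if_neg g1, if_neg g2, eo _ _ g1 g2, if_pos rfl]
          exact (hκ1 a' g1 g2).2.2)
      exact ⟨σ, hσ⟩
  have v1 := Square_sq (hc.val a b) h1
  have v2 := Square_sq (hc.val a d) h2
  have v3 := Square_sq (hc.val c b) h3
  have v4 := Square_sq (hc.val c d) h4
  by_contra hne
  have hprod : s a b * s a d * s c b * s c d = 1 := by
    rcases v1 with e1 | e1 <;> rcases v2 with e2 | e2 <;> rcases v3 with e3 | e3 <;>
      rcases v4 with e4 | e4 <;> rw [e1, e2, e3, e4] at hne ⊢ <;>
      (revert hne; norm_num)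
  set x : B → ℝ := fun b' => if b' = b then (s a b : ℝ) else if b' = d then -(s a d : ℝ) else 0 with hx
  have xb : x b = (s a b : ℝ) := by rw [hx]; simp
  have xd : x d = -(s a d : ℝ) := by rw [hx]; simp [hbd.symm]
  have xo : ∀ b', b' ≠ b → b' ≠ d → x b' = 0 := by
    intro b' g1 g2
    rw [hx]; simp [g1, g2]
  have hzero : x = 0 := by
    apply hSNS
    intro a'
    by_cases g1 : a' = a
    · subst g1
      refine Or.inr ⟨⟨b, ?_⟩, ⟨d, ?_⟩⟩
      · rw [ea, if_pos (Or.inl rfl), xb]
        rcases v1 with e1 | e1 <;> rw [e1] <;> norm_num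
      · rw [ea, if_pos (Or.inr rfl), xd]
        rcases v2 with e2 | e2 <;> rw [e2] <;> norm_num
    by_cases g2 : a' = c
    · subst g2
      have key : (0 < (s a' b : ℝ) * (s a b : ℝ) ∧ (s a' d : ℝ) * -(s a d : ℝ) < 0) ∨
          ((s a' b : ℝ) * (s a b : ℝ) < 0 ∧ 0 < (s a' d : ℝ) * -(s a d : ℝ)) := by
        rcases v1 with e1 | e1 <;> rcases v2 with e2 | e2 <;> rcases v3 with e3 | e3 <;>
          rcases v4 with e4 | e4 <;> rw [e1, e2, e3, e4] at hprod ⊢ <;>
          (revert hprod; norm_num)
      rcases key with ⟨k1, k2⟩ | ⟨k1, k2⟩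
      · refine Or.inr ⟨⟨b, ?_⟩, ⟨d, ?_⟩⟩
        · rw [ec, if_pos (Or.inl rfl), xb]; exact k1
        · rw [ec, if_pos (Or.inr rfl), xd]; exact k2
      · refine Or.inr ⟨⟨d, ?_⟩, ⟨b, ?_⟩⟩
        · rw [ec, if_pos (Or.inr rfl), xd]; exact k2
        · rw [ec, if_pos (Or.inl rfl), xb]; exact k1
    · refine Or.inl fun b' => ?_
      rw [eo a' b' g1 g2]
      split_ifs with hb'
      · rw [hb', xo _ (hκ1 a' g1 g2).1 (hκ1 a' g1 g2).2.1, mul_zero]
      · simp
  have := congrFun hzero b
  rw [xb] at this
  have h5 : (s a b : ℝ) = 0 := this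
  exact h1 (by exact_mod_cast h5)

/-- two rows do not have three common neighbours -/
private lemma Square_no23 {s : A → B → ℤ} (hc : Cubic s) (hb : Brace s) (hs : SNS s) {a c : A} (hac : a ≠ c)
    {b1 b2 b3 : B} (h12 : b1 ≠ b2) (h13 : b1 ≠ b3) (h23 : b2 ≠ b3) (a1 : s a b1 ≠ 0) (a2 : s a b2 ≠ 0)
    (a3 : s a b3 ≠ 0) (c1 : s c b1 ≠ 0) (c2 : s c b2 ≠ 0) (c3 : s c b3 ≠ 0) : False := by
  have e1 := square_odd hc hb hs hac h12 a1 a2 c1 c2
  have e2 := square_odd hc hb hs hac h13 a1 a3 c1 c3
  have e3 := square_odd hc hb hs hac h23 a2 a3 c2 c3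
  have h : (s a b1 * s a b2 * s c b1 * s c b2) * (s a b1 * s a b3 * s c b1 * s c b3) *
      (s a b2 * s a b3 * s c b2 * s c b3) = (s a b1 * s a b2 * s a b3 * s c b1 * s c b2 * s c b3) ^ 2 := by
    ring
  rw [e1, e2, e3] at h
  have := sq_nonneg (s a b1 * s a b2 * s a b3 * s c b1 * s c b2 * s c b3)
  rw [← h] at this
  norm_num at this

/-- `n ≠ 3` for every SNS cubic brace (part of SQ2). -/
theorem card_ne_three {s : A → B → ℤ} (hc : Cubic s) (hb : Brace s) (hs : SNS s) : Fintype.card A ≠ 3 := by
  intro h3
  have hB : Fintype.card B = 3 := by rw [← hc.card_eq]; exact h3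
  have hall : ∀ a b, s a b ≠ 0 := by
    intro a b
    have h1 : nbA s a = univ := by
      apply eq_univ_of_card
      rw [hc.row a, hB]
    rw [← mem_nbA, h1]
    exact mem_univ b
  obtain ⟨a, c, hac⟩ : ∃ a c : A, a ≠ c := by
    have : 1 < Fintype.card A := by omega
    exact Fintype.exists_pair_of_one_lt_card this
  have h4 : 2 < (univ : Finset B).card := by rw [card_univ]; omega
  obtain ⟨b1, b2, b3, _, _, _, h12, h13, h23⟩ := two_lt_card_iff.1 h4
  exact Square_no23 hc hb hs hac h12 h13 h23 (hall _ _) (hall _ _) (hall _ _) (hall _ _) (hall _ _) (hall _ _)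

/-- Piece SQ2. `n = 3` is impossible (`K_{3,3}`), and `n = 4` (cube) needs at least three negative edges: so an SNS cubic
brace with at most two negative edges has `n ≥ 5`.

Proof. `n = 3`: all entries are nonzero. With rows `a1,a2,a3` and columns `b1,b2,b3` multiply `square_odd` for the
`9` pairs (pair of rows, pair of columns): every entry occurs in `4` squares, so the product of all `9` numbers is `+1`, but it is `(-1)^9`.
`n = 4`: any two rows have at least two common neighbours (3 + 3 - 4) and by the brace property at most two (`|N({a,a'})| ≥ 4`). So every edge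
`(a,b)` is in exactly two squares: for each of the two other rows `a'` adjacent to `b` exactly one. There are `6` pairs of rows, each
giving one square with at least one negative edge; a negative edge is in two squares only, so there are at least three negative edges. -/
theorem five_le_card {s : A → B → ℤ} (hc : Cubic s) (hb : Brace s) (hs : SNS s) (hneg : (neg s).card ≤ 2) :
    5 ≤ Fintype.card A := by
  classical
  have h3 := card_ne_three hc hb hs
  have h3' := hb.three
  by_contra hlt
  have h4 : Fintype.card A = 4 := by omega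
  have hB : Fintype.card B = 4 := by rw [← hc.card_eq]; exact h4
  have hsub : powersetCard 2 (univ : Finset A) ⊆ (neg s).biUnion fun p =>
      ((nbB s p.2).erase p.1).image fun a' => ({p.1, a'} : Finset A) := by
    intro S hS
    rw [mem_powersetCard] at hS
    obtain ⟨a, c, hac, rfl⟩ := card_eq_two.1 hS.2
    have h5 : 2 ≤ (nbA s a ∩ nbA s c).card := by
      have h6 := card_union_add_card_inter (nbA s a) (nbA s c)
      have h7 : (nbA s a ∪ nbA s c).card ≤ 4 := by
        rw [← hB, ← card_univ]; exact card_le_card (subset_univ _)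
      rw [hc.row a, hc.row c] at h6
      omega
    obtain ⟨b, hb', d, hd', hbd⟩ := one_lt_card.1 h5
    rw [mem_inter, mem_nbA, mem_nbA] at hb' hd'
    have hprod := square_odd hc hb hs hac hbd hb'.1 hd'.1 hb'.2 hd'.2
    have mk : ∀ x y : A, ∀ z : B, x ≠ y → s x z = -1 → s y z ≠ 0 → ({x, y} : Finset A) ∈
        (neg s).biUnion fun p => ((nbB s p.2).erase p.1).image fun a' => ({p.1, a'} : Finset A) := by
      intro x y z hxy e1 e2
      rw [mem_biUnion]
      refine ⟨(x, z), mem_neg.2 e1, ?_⟩
      rw [mem_image]
      exact ⟨y, mem_erase.2 ⟨hxy.symm, mem_nbB.2 e2⟩, rfl⟩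
    rcases Square_sq (hc.val a b) hb'.1 with e1 | e1
    · rcases Square_sq (hc.val a d) hd'.1 with e2 | e2
      · rcases Square_sq (hc.val c b) hb'.2 with e3 | e3
        · rcases Square_sq (hc.val c d) hd'.2 with e4 | e4
          · rw [e1, e2, e3, e4] at hprod
            norm_num at hprod
          · rw [pair_comm]
            exact mk c a d hac.symm e4 hd'.1
        · rw [pair_comm]
          exact mk c a b hac.symm e3 hb'.1
      · exact mk a c d hac e2 hd'.2
    · exact mk a c b hac e1 hb'.2
  have h8 := card_le_card hsub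
  rw [card_powersetCard, card_univ, h4] at h8
  have h9 : ((neg s).biUnion fun p =>
      ((nbB s p.2).erase p.1).image fun a' => ({p.1, a'} : Finset A)).card ≤ ∑ p ∈ neg s, 2 := by
    refine card_biUnion_le.trans (sum_le_sum fun p hp => ?_)
    refine card_image_le.trans ?_
    rw [mem_neg] at hp
    rw [card_erase_of_mem (by rw [mem_nbB, hp]; norm_num), hc.col]
  rw [sum_const, smul_eq_mul] at h9
  have h10 : (4 : ℕ).choose 2 = 6 := by decide
  omega

end MCC
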