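import Pool.Agent.Lib_MP_cb5629.Base

set_option linter.unusedSectionVars false

namespace MCC

open Finset

variable {A B : Type} [Fintype A] [Fintype B] [DecidableEq A] [DecidableEq B]

/-! Piece SWI: switching changes nothing. (All short: the units are `±1`.) -/

lemma sw_ne_zero {s : A → B → ℤ} {α : A → ℤˣ} {β : B → ℤˣ} {a : A} {b : B} : sw s α β a b ≠ 0 ↔ s a b ≠ 0 := by
  simp [sw]
lemma nbA_sw (s : A → B → ℤ) (α : A → ℤˣ) (β : B → ℤˣ) (a : A) : nbA (sw s α β) a = nbA s a := by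
  ext b; simp [sw_ne_zero]
lemma nbB_sw (s : A → B → ℤ) (α : A → ℤˣ) (β : B → ℤˣ) (b : B) : nbB (sw s α β) b = nbB s b := by
  ext b; simp [sw_ne_zero]
lemma NA_sw (s : A → B → ℤ) (α : A → ℤˣ) (β : B → ℤˣ) (S : Finset A) : NA (sw s α β) S = NA s S := by
  ext b; simp [sw_ne_zero]
lemma NB_sw (s : A → B → ℤ) (α : A → ℤˣ) (β : B → ℤˣ) (T : Finset B) : NB (sw s α β) T = NB s T := by
  ext b; simp [sw_ne_zero]
lemma squares_sw (s : A → B → ℤ) (α : A → ℤˣ) (β : B → ℤˣ) (a : A) (b : B) :
    squares (sw s α β) a b = squares s a b := by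
  ext p; simp only [mem_squares, sw_ne_zero]
lemma Cubic.sw {s : A → B → ℤ} (hc : Cubic s) (α : A → ℤˣ) (β : B → ℤˣ) : Cubic (sw s α β) := by
  refine ⟨fun a b => ?_, fun a => ?_, fun b => ?_⟩
  · rcases hc.val a b with h | h | h <;> rcases Int.units_eq_one_or (α a) with h1 | h1 <;>
      rcases Int.units_eq_one_or (β b) with h2 | h2 <;> simp [MCC.sw, h, h1, h2]
  · rw [nbA_sw]; exact hc.row a
  · rw [nbB_sw]; exact hc.col b
lemma Brace.sw {s : A → B → ℤ} (hb : Brace s) (α : A → ℤˣ) (β : B → ℤˣ) : Brace (sw s α β) := by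
  refine ⟨hb.three, fun S h1 h2 => ?_⟩
  rw [NA_sw]; exact hb.hall S h1 h2
/-- if `x` balances the rows of `sw s α β` then `β x` balances those of `s` -/
lemma SNS.sw {s : A → B → ℤ} (hs : SNS s) (α : A → ℤˣ) (β : B → ℤˣ) : SNS (sw s α β) := by
  intro x hx
  have key : (fun b => ((β b : ℤ) : ℝ) * x b) = 0 := by
    apply hs
    intro a
    have hxa := hx a
    rcases Int.units_eq_one_or (α a) with h1 | h1
    · have e : ∀ b, (s a b : ℝ) * (((β b : ℤ) : ℝ) * x b) = ((MCC.sw s α β a b : ℤ) : ℝ) * x b := by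
        intro b; simp only [MCC.sw, h1]; push_cast; ring
      rcases hxa with h | ⟨⟨b, hb⟩, ⟨b', hb'⟩⟩
      · exact Or.inl (fun b => by rw [e]; exact h b)
      · exact Or.inr ⟨⟨b, by rw [e]; exact hb⟩, ⟨b', by rw [e]; exact hb'⟩⟩
    · have e : ∀ b, (s a b : ℝ) * (((β b : ℤ) : ℝ) * x b) = -(((MCC.sw s α β a b : ℤ) : ℝ) * x b) := by
        intro b; simp only [MCC.sw, h1]; push_cast; ring
      rcases hxa with h | ⟨⟨b, hb⟩, ⟨b', hb'⟩⟩
      · exact Or.inl (fun b => by rw [e, h b, neg_zero])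
      · exact Or.inr ⟨⟨b', by rw [e]; linarith⟩, ⟨b, by rw [e]; linarith⟩⟩
  funext b
  have hb := congrFun key b
  simp only [Pi.zero_apply, mul_eq_zero] at hb
  rcases hb with hb | hb
  · exfalso
    rcases Int.units_eq_one_or (β b) with h2 | h2 <;> simp [h2] at hb
  · exact hb
lemma Fano.of_sw {s : A → B → ℤ} {α : A → ℤˣ} {β : B → ℤˣ} (h : Fano (sw s α β)) : Fano s := by
  refine ⟨h.1, fun a a' => ?_⟩
  obtain ⟨b, h1, h2⟩ := h.2 a a'
  exact ⟨b, sw_ne_zero.1 h1, sw_ne_zero.1 h2⟩
lemma Nontriv.sw {s : A → B → ℤ} {RA : Finset A} {RB : Finset B} {d : ℕ} (h : Nontriv s RA RB d) (α : A → ℤˣ)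
    (β : B → ℤˣ) : Nontriv (sw s α β) RA RB d := by
  have e : bLegs (MCC.sw s α β) RA RB = bLegs s RA RB := by
    ext p; simp only [mem_bLegs, sw_ne_zero]
  exact ⟨⟨h.card, by rw [e]; exact h.legs⟩, h.low, h.upp⟩
/-- two switchings compose -/
lemma Switch_sw_sw (s : A → B → ℤ) (α α' : A → ℤˣ) (β β' : B → ℤˣ) :
    sw (sw s α β) α' β' = sw s (fun a => α' a * α a) (fun b => β b * β' b) := by
  funext a b
  simp only [sw]
  push_cast
  ring

lemma Clean.sw {s : A → B → ℤ} {RA : Finset A} {RB : Finset B} (h : Clean s RA RB) (α : A → ℤˣ) (β : B → ℤˣ) :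
    Clean (sw s α β) RA RB := by
  obtain ⟨α', β', hc⟩ := h
  refine ⟨fun a => α' a * α a, fun b => β b * β' b, ?_⟩
  rw [Switch_sw_sw]
  have e1 : (fun a => α' a * α a * α a) = α' := by
    funext a; rw [mul_assoc, Int.units_mul_self, mul_one]
  have e2 : (fun b => β b * (β b * β' b)) = β' := by
    funext b; rw [← mul_assoc, Int.units_mul_self, one_mul]
  rw [e1, e2]
  exact hc
lemma Clean.of_sw {s : A → B → ℤ} {RA : Finset A} {RB : Finset B} {α : A → ℤˣ} {β : B → ℤˣ}
    (h : Clean (MCC.sw s α β) RA RB) : Clean s RA RB := by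
  obtain ⟨α', β', hc⟩ := h
  refine ⟨fun a => α' a * α a, fun b => β b * β' b, ?_⟩
  rw [Switch_sw_sw] at hc
  exact hc
/-- `tr (sw s α β) = sw (tr s) β α` -/
lemma tr_sw (s : A → B → ℤ) (α : A → ℤˣ) (β : B → ℤˣ) : tr (sw s α β) = sw (tr s) β α := by
  funext b a
  simp only [tr, sw]
  ring

lemma Switch_neg_tr (s : A → B → ℤ) : (neg (tr s)).card = (neg s).card := by
  symm
  apply Finset.card_bij (fun p _ => (p.2, p.1))
  · rintro ⟨a, b⟩ h; simpa using h
  · rintro ⟨a, b⟩ _ ⟨a', b'⟩ _ h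
    simp only [Prod.mk.injEq] at h ⊢
    exact ⟨h.2, h.1⟩
  · rintro ⟨b, a⟩ h; exact ⟨(a, b), by simpa using h, rfl⟩

lemma Switch_row {A B : Type} [Fintype A] [Fintype B] [DecidableEq A] [DecidableEq B] {s : A → B → ℤ}
    (hc : Cubic s) {p : A} {l l' : B} (hne : l ≠ l') (h : neg s = {(p, l), (p, l')}) :
    ∃ α : A → ℤˣ, (neg (sw s α fun _ => 1)).card = 1 := by
  refine ⟨fun a => if a = p then -1 else 1, ?_⟩
  have hl : s p l = -1 := by
    have : (p, l) ∈ neg s := by rw [h]; simp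
    simpa using this
  have hl' : s p l' = -1 := by
    have : (p, l') ∈ neg s := by rw [h]; simp
    simpa using this
  have hcard : (nbA s p \ {l, l'}).card = 1 := by
    rw [card_sdiff_of_subset, hc.row, card_pair hne]
    intro b hb
    simp only [mem_insert, mem_singleton] at hb
    rcases hb with rfl | rfl
    · simp [hl]
    · simp [hl']
  have e : neg (sw s (fun a => if a = p then -1 else 1) fun _ => 1) =
      (nbA s p \ {l, l'}).image fun b => (p, b) := by
    ext ⟨a, b⟩
    have h1 := Finset.ext_iff.1 h (a, b)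
    simp only [mem_neg, mem_insert, mem_singleton, Prod.mk.injEq] at h1
    simp only [mem_neg, mem_image, mem_sdiff, mem_nbA, mem_insert, mem_singleton, Prod.mk.injEq, sw]
    by_cases ha : a = p
    · subst ha
      simp only [true_and] at h1
      simp only [if_true, Units.val_neg, Units.val_one, mul_one]
      constructor
      · intro h2
        have h3 : s a b = 1 := by linarith
        refine ⟨b, ⟨by rw [h3]; norm_num, fun h4 => ?_⟩, trivial, rfl⟩
        have := h1.2 h4
        omega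
      · rintro ⟨b', ⟨h2, h3⟩, -, rfl⟩
        rcases hc.val a b' with h4 | h4 | h4
        · exact absurd h4 h2
        · rw [h4]; norm_num
        · exact absurd (h1.1 h4) h3
    · simp only [ha, if_false, Units.val_one, mul_one, one_mul]
      constructor
      · intro h2
        have := h1.1 h2
        tauto
      · rintro ⟨b', -, h3, -⟩
        exact absurd h3.symm ha
  rw [e, card_image_of_injective _ (fun b b' hb => by simpa using hb)]
  exact hcard

/-- If exactly two edges are negative and they share a vertex, switching there gives a cubic brace with exactly one negative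
edge. -/
lemma switch_two {s : A → B → ℤ} (hc : Cubic s) {p p' : A} {l l' : B} (hne : (p, l) ≠ (p', l'))
    (h : neg s = {(p, l), (p', l')}) (hsh : p = p' ∨ l = l') :
    ∃ (α : A → ℤˣ) (β : B → ℤˣ), (neg (sw s α β)).card = 1 := by
  rcases hsh with rfl | rfl
  · obtain ⟨α, hα⟩ := Switch_row hc (fun e => hne (by rw [e])) h
    exact ⟨α, _, hα⟩
  · have h' : neg (tr s) = {(l, p), (l, p')} := by
      ext ⟨b, a⟩
      have := Finset.ext_iff.1 h (a, b)
      simp only [mem_neg, mem_insert, mem_singleton, Prod.mk.injEq, tr_apply] at this ⊢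
      rw [this]
      tauto
    obtain ⟨β, hβ⟩ := Switch_row hc.tr (fun e => hne (by rw [e])) h'
    refine ⟨fun _ => 1, β, ?_⟩
    rw [← Switch_neg_tr, tr_sw]
    exact hβ

end MCC
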