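import Pool.Agent.Lib_MP_cb5629.FCount
import Pool.Agent.Lib_MP_cb5629.Switch
import Pool.Agent.Lib_MP_cb5629.Square

/-! (c0)-(c3) of the paper text: a minimal nontrivial clean shore. All with the hypotheses: `s` is an SNS cubic brace, `(RA,RB)` is
nontrivial of type `d` and `Clean0` (no switching needed), and it is minimal (`MinHyp`). -/

set_option linter.unusedSectionVars false

namespace MCC

open Finset

variable {A B : Type} [Fintype A] [Fintype B] [DecidableEq A] [DecidableEq B]

/-- the common hypotheses -/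
structure MinCtx (s : A → B → ℤ) (RA : Finset A) (RB : Finset B) (d : ℕ) : Prop where
  hc : Cubic s
  hb : Brace s
  hs : SNS s
  hR : Nontriv s RA RB d
  hcl : Clean0 s RA RB
  hmin : MinHyp s (3 * RA.card + d)

/-- Piece FC0. Otherwise `|RB| = 2`, `|RA| = 2 + d`, and there are `3 * 2 - (2 - d) = 4 + d` edges between `RB = {b,b'}` and `RA`, so `b, b'` have
two common neighbours in `RA`: a square with all signs `+1` (`Clean0.ins`), against `square_odd`. -/
theorem MinCtx.rb3 {s : A → B → ℤ} {RA : Finset A} {RB : Finset B} {d : ℕ} (h : MinCtx s RA RB d) : 3 ≤ RB.card := by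
  by_contra hlt
  have hcard := h.hR.card
  have hlow := h.hR.low
  have hlegs := h.hR.legs
  have h2 : RB.card = 2 := by omega
  obtain ⟨b, b', hne, rfl⟩ := card_eq_two.1 h2
  have e1 := h.hc.col b
  have e2 := h.hc.col b'
  have f1 := card_inter_add_card_sdiff (nbB s b) RA
  have f2 := card_inter_add_card_sdiff (nbB s b') RA
  have hsub : ((nbB s b \ RA).image fun a => (a, b)) ∪ ((nbB s b' \ RA).image fun a => (a, b')) ⊆
      bLegs s RA {b, b'} := by
    intro p hp
    simp only [mem_union, mem_image, mem_sdiff, mem_nbB] at hp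
    rcases hp with ⟨a, ⟨h1, h3⟩, rfl⟩ | ⟨a, ⟨h1, h3⟩, rfl⟩
    · simp [h1, h3]
    · simp [h1, h3]
  have hdis : Disjoint ((nbB s b \ RA).image fun a => (a, b))
      ((nbB s b' \ RA).image fun a => (a, b')) := by
    rw [disjoint_left]
    intro p hp hp'
    simp only [mem_image] at hp hp'
    obtain ⟨a, -, rfl⟩ := hp
    obtain ⟨a', -, h3⟩ := hp'
    exact hne (Prod.ext_iff.1 h3).2.symm
  have g1 := card_le_card hsub
  rw [card_union_of_disjoint hdis, card_image_of_injective _ (fun a a' e => (Prod.ext_iff.1 e).1),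
    card_image_of_injective _ (fun a a' e => (Prod.ext_iff.1 e).1)] at g1
  have g2 := card_union_add_card_inter (nbB s b ∩ RA) (nbB s b' ∩ RA)
  have g3 : ((nbB s b ∩ RA) ∪ (nbB s b' ∩ RA)).card ≤ RA.card :=
    card_le_card (union_subset inter_subset_right inter_subset_right)
  have g4 : 1 < ((nbB s b ∩ RA) ∩ (nbB s b' ∩ RA)).card := by omega
  obtain ⟨a, ha, a', ha', haa⟩ := one_lt_card.1 g4
  simp only [mem_inter, mem_nbB] at ha ha'
  have hsq := square_odd h.hc h.hb h.hs haa hne ha.1.1 ha.2.1 ha'.1.1 ha'.2.1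
  have p1 := h.hcl.ins a ha.1.2 b (by simp)
  have p2 := h.hcl.ins a ha.1.2 b' (by simp)
  have p3 := h.hcl.ins a' ha'.1.2 b (by simp)
  have p4 := h.hcl.ins a' ha'.1.2 b' (by simp)
  have p5 : 0 ≤ s a b * s a b' * s a' b * s a' b' := by positivity
  omega

/-- Clean shores are inherited by subshores (vertices of `R \ R'` send positive edges only). -/
theorem Clean0.mono {s : A → B → ℤ} {RA SA : Finset A} {RB SB : Finset B} (h : Clean0 s RA RB) (hA : SA ⊆ RA)
    (hB : SB ⊆ RB) : Clean0 s SA SB := by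
  refine ⟨fun a ha b hb => h.ins a (hA ha) b (hB hb), fun b _ a ha a' ha' => ?_,
    fun a _ b hb b' hb' => ?_⟩
  · by_cases hb : b ∈ RB
    · exact mul_nonneg (h.ins a (hA ha) b hb) (h.ins a' (hA ha') b hb)
    · exact h.outB b hb a (hA ha) a' (hA ha')
  · by_cases ha : a ∈ RA
    · exact mul_nonneg (h.ins a ha b (hB hb)) (h.ins a ha b' (hB hb'))
    · exact h.outA a ha b (hB hb) b' (hB hb')

/-- `Clean0` is symmetric under transposition. -/
theorem Clean0.tr {s : A → B → ℤ} {RA : Finset A} {RB : Finset B} (h : Clean0 s RA RB) : Clean0 (tr s) RB RA :=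
  ⟨fun b hb a ha => h.ins a ha b hb, fun a ha b hb b' hb' => h.outA a ha b hb b' hb',
    fun b hb a ha a' ha' => h.outB b hb a ha a' ha'⟩

end MCC
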