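import Pool.Agent.Lib_MP_cb5629.FMin

set_option linter.unusedSectionVars false

namespace MCC

open Finset

variable {A B : Type} [Fintype A] [Fintype B] [DecidableEq A] [DecidableEq B]

/-- the neighbours of `S` outside `RB` are ends of A-legs -/
lemma FMin1_NA_card (s : A → B → ℤ) (S : Finset A) (RB : Finset B) :
    (NA s S).card ≤ RB.card + (aLegs s S RB).card := by
  have h1 : NA s S ⊆ RB ∪ (aLegs s S RB).image Prod.snd := by
    intro b hb
    rw [mem_NA] at hb
    obtain ⟨a, ha, hab⟩ := hb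
    rw [mem_union, mem_image]
    by_cases hbR : b ∈ RB
    · exact Or.inl hbR
    · exact Or.inr ⟨(a, b), mem_aLegs.2 ⟨ha, hbR, hab⟩, rfl⟩
  calc (NA s S).card ≤ (RB ∪ (aLegs s S RB).image Prod.snd).card := card_le_card h1
    _ ≤ RB.card + ((aLegs s S RB).image Prod.snd).card := card_union_le _ _
    _ ≤ RB.card + (aLegs s S RB).card := by
        have := card_image_le (s := aLegs s S RB) (f := Prod.snd)
        omega

/-- A-legs after removing the row `a` -/
lemma FMin1_aLegs_erase (s : A → B → ℤ) {RA : Finset A} (RB : Finset B) {a : A} (ha : a ∈ RA) :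
    (aLegs s RA RB).card = (aLegs s (RA.erase a) RB).card + (nbA s a \ RB).card := by
  have h1 : aLegs s RA RB = aLegs s (RA.erase a) RB ∪ (nbA s a \ RB).image (fun b => (a, b)) := by
    ext ⟨x, b⟩
    simp only [mem_aLegs, mem_union, mem_image, mem_sdiff, mem_nbA, mem_erase, Prod.mk.injEq]
    constructor
    · rintro ⟨hx, hb, hs⟩
      by_cases hxa : x = a
      · subst hxa
        exact Or.inr ⟨b, ⟨hs, hb⟩, rfl, rfl⟩
      · exact Or.inl ⟨⟨hxa, hx⟩, hb, hs⟩
    · rintro (⟨⟨_, hx⟩, hb, hs⟩ | ⟨b', ⟨hs, hb⟩, rfl, rfl⟩)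
      · exact ⟨hx, hb, hs⟩
      · exact ⟨ha, hb, hs⟩
  rw [h1, card_union_of_disjoint, card_image_of_injective]
  · intro x y hxy
    exact (Prod.mk.inj hxy).2
  · rw [disjoint_left]
    rintro ⟨x, b⟩ hx hx'
    rw [mem_aLegs] at hx
    rw [mem_image] at hx'
    obtain ⟨_, _, e⟩ := hx'
    exact (ne_of_mem_erase hx.1) (Prod.mk.inj e).1.symm

/-- B-legs after removing the row `a` -/
lemma FMin1_bLegs_erase (s : A → B → ℤ) {RA : Finset A} (RB : Finset B) {a : A} (ha : a ∈ RA) :
    (bLegs s (RA.erase a) RB).card = (bLegs s RA RB).card + (nbA s a ∩ RB).card := by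
  have h1 : bLegs s (RA.erase a) RB = bLegs s RA RB ∪ (nbA s a ∩ RB).image (fun b => (a, b)) := by
    ext ⟨x, b⟩
    simp only [mem_bLegs, mem_union, mem_image, mem_inter, mem_nbA, mem_erase, Prod.mk.injEq]
    constructor
    · rintro ⟨hx, hb, hs⟩
      by_cases hxa : x = a
      · subst hxa
        exact Or.inr ⟨b, ⟨hs, hb⟩, rfl, rfl⟩
      · exact Or.inl ⟨fun h => hx ⟨hxa, h⟩, hb, hs⟩
    · rintro (⟨hx, hb, hs⟩ | ⟨b', ⟨hs, hb⟩, rfl, rfl⟩)
      · exact ⟨fun h => hx h.2, hb, hs⟩
      · exact ⟨fun h => h.1 rfl, hb, hs⟩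
  rw [h1, card_union_of_disjoint, card_image_of_injective]
  · intro x y hxy
    exact (Prod.mk.inj hxy).2
  · rw [disjoint_left]
    rintro ⟨x, b⟩ hx hx'
    rw [mem_bLegs] at hx
    rw [mem_image] at hx'
    obtain ⟨_, _, e⟩ := hx'
    exact hx.1 ((Prod.mk.inj e).1 ▸ ha)

lemma FMin1_clean {s : A → B → ℤ} {RA : Finset A} {RB : Finset B} (h : Clean0 s RA RB) :
    Clean s RA RB := by
  refine ⟨fun _ => 1, fun _ => 1, ?_⟩
  have : sw s (fun _ => 1) (fun _ => 1) = s := by
    funext a b
    simp [sw]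
  rw [this]
  exact h

/-- Piece FC1a. Proof. Suppose `a ∈ RA` has `j ≥ 2` A-legs (`j = 2` or `3`). `RA' = RA \ {a}`, `|RA'| = |RB| + d - 1`. `(RA',RB)` has `2 + 2d - j` A-legs and
`2 - d + (3 - j)` B-legs.
`j = 2`, `d ≥ 1`: `Nontriv s RA' RB (d-1)` (`|RA'| = |RA| - 1 ≥ d - 1 + 2`, by `rb3`), clean (`Clean0.mono`, then `Clean` with trivial switching), and
`3 |RA'| + (d-1) < 3 |RA| + d`: against minimality.
`j = 2`, `d = 0`: no A-leg is left: `NA s RA' ⊆ RB`, `|NA s RA'| ≤ |RB| = |RA'| + 1`, `|RA'| ≥ 2`: against the brace property.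
`j = 3`: `d = 0` is impossible (`2 + 2d ≥ 3`). `d = 1`: one A-leg is left, `|NA s RA'| ≤ |RB| + 1 = |RA'| + 1`: against the brace property. `d = 2`: no B-legs and `a` has
no neighbour in `RB`: `NB s RB ⊆ RA'`, `|RA'| = |RB| + 1`: against the dual brace property. -/
theorem MinCtx.uA {s : A → B → ℤ} {RA : Finset A} {RB : Finset B} {d : ℕ} (h : MinCtx s RA RB d) :
    ∀ a ∈ RA, (nbA s a \ RB).card ≤ 1 := by
  intro a ha
  by_contra hj
  push Not at hj
  have hAB := h.hc.card_eq
  have hcard := h.hR.card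
  have hlegs := h.hR.legs
  have hlow := h.hR.low
  have hupp := h.hR.upp
  have haL : (aLegs s RA RB).card = 2 + 2 * d := Shore.aLegs h.hc h.hR.toShore
  have e1 := FMin1_aLegs_erase s RB ha
  have e2 := FMin1_bLegs_erase s RB ha
  have e3 : (nbA s a \ RB).card + (nbA s a ∩ RB).card = 3 := by
    rw [card_sdiff_add_card_inter]
    exact h.hc.row a
  have hcA : (RA.erase a).card = RA.card - 1 := card_erase_of_mem ha
  have hne : (RA.erase a).Nonempty := by
    rw [← card_pos]; omega
  have hN := FMin1_NA_card s (RA.erase a) RB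
  have hbr := h.hb.hall (RA.erase a) hne (by omega)
  have hd2 : d ≤ 2 := by omega
  rcases Nat.lt_or_ge (nbA s a \ RB).card 3 with hj3 | hj3
  · -- `j = 2`
    rcases Nat.eq_zero_or_pos d with hd | hd
    · omega
    · have hnt : Nontriv s (RA.erase a) RB (d - 1) :=
        { card := by omega, legs := by omega, low := by omega, upp := by omega }
      have := h.hmin.1 (RA.erase a) RB (d - 1) hnt
        (FMin1_clean (h.hcl.mono (erase_subset _ _) (Subset.refl _)))
      omega
  · -- `j = 3`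
    have hj3' : (nbA s a ∩ RB).card = 0 := by omega
    rcases Nat.lt_or_ge d 2 with hd | hd
    · omega
    · have hd2' : d = 2 := by omega
      have hb0 : bLegs s RA RB = ∅ := by
        rw [← card_eq_zero]; omega
      have ha0 : nbA s a ∩ RB = ∅ := card_eq_zero.1 hj3'
      have hsub : NB s RB ⊆ RA.erase a := by
        intro x hx
        rw [mem_NB] at hx
        obtain ⟨b, hb, hxb⟩ := hx
        rw [mem_erase]
        refine ⟨?_, ?_⟩
        · rintro rfl
          have : b ∈ nbA s x ∩ RB := mem_inter.2 ⟨mem_nbA.2 hxb, hb⟩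
          rw [ha0] at this
          exact notMem_empty _ this
        · by_contra hxR
          have : (x, b) ∈ bLegs s RA RB := mem_bLegs.2 ⟨hxR, hb, hxb⟩
          rw [hb0] at this
          exact notMem_empty _ this
      have hle := card_le_card hsub
      have hRBne : RB.Nonempty := by
        rw [← card_pos]; omega
      have hdual := (h.hb.tr h.hc).hall RB hRBne (by omega)
      rw [NA_tr] at hdual
      omega

/-- B-legs at one column -/
lemma FMin1_legs_col (s : A → B → ℤ) {RA : Finset A} {RB : Finset B} {b : B} (hb : b ∈ RB) :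
    (nbB s b \ RA).image (fun a => (a, b)) ⊆ bLegs s RA RB := by
  intro p hp
  rw [mem_image] at hp
  obtain ⟨a, ha, rfl⟩ := hp
  rw [mem_sdiff, mem_nbB] at ha
  exact mem_bLegs.2 ⟨ha.2, hb, ha.1⟩

/-- B-legs at one row -/
lemma FMin1_legs_row (s : A → B → ℤ) {RA : Finset A} {RB : Finset B} {a : A} (ha : a ∉ RA) :
    (nbA s a ∩ RB).image (fun b => (a, b)) ⊆ bLegs s RA RB := by
  intro p hp
  rw [mem_image] at hp
  obtain ⟨b, hb, rfl⟩ := hp
  rw [mem_inter, mem_nbA] at hb
  exact mem_bLegs.2 ⟨ha, hb.2, hb.1⟩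

/-- Piece FC1b. Proof. `b ∈ RB` with two B-legs: `2 ≤ |bLegs| = 2 - d`, so `d = 0` and these are all B-legs. Then `NB s (RB \ {b}) ⊆ RA`, and `|RA| = |RB| =
|RB \ {b}| + 1`: against the dual brace property (`|RB \ {b}| ≥ 2`, `≤ n - 3`). -/
theorem MinCtx.uB {s : A → B → ℤ} {RA : Finset A} {RB : Finset B} {d : ℕ} (h : MinCtx s RA RB d) :
    ∀ b ∈ RB, (nbB s b \ RA).card ≤ 1 := by
  intro b hb
  by_contra hj
  push Not at hj
  have hAB := h.hc.card_eq
  have hcard := h.hR.card
  have hlegs := h.hR.legs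
  have hlow := h.hR.low
  have hupp := h.hR.upp
  have hsub := FMin1_legs_col s (RA := RA) hb
  have hci : ((nbB s b \ RA).image (fun a => (a, b))).card = (nbB s b \ RA).card :=
    card_image_of_injective _ (fun x y hxy => (Prod.mk.inj hxy).1)
  have hle := card_le_card hsub
  have heq : (nbB s b \ RA).image (fun a => (a, b)) = bLegs s RA RB :=
    eq_of_subset_of_card_le hsub (by omega)
  have hT : NB s (RB.erase b) ⊆ RA := by
    intro x hx
    rw [mem_NB] at hx
    obtain ⟨b', hb', hxb⟩ := hx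
    rw [mem_erase] at hb'
    by_contra hxR
    have : (x, b') ∈ bLegs s RA RB := mem_bLegs.2 ⟨hxR, hb'.2, hxb⟩
    rw [← heq, mem_image] at this
    obtain ⟨_, _, e⟩ := this
    exact hb'.1 (Prod.mk.inj e).2.symm
  have hcT : (RB.erase b).card = RB.card - 1 := card_erase_of_mem hb
  have hTle := card_le_card hT
  have hne : (RB.erase b).Nonempty := by
    rw [← card_pos]; omega
  have hdual := (h.hb.tr h.hc).hall (RB.erase b) hne (by omega)
  rw [NA_tr] at hdual
  omega

/-- Piece FC2a. Proof. A row `a ∉ RA` with two neighbours in `RB` gives two B-legs, so `d = 0` and `NB s RB ⊆ RA ∪ {a}`, `|RA ∪ {a}| = |RB| + 1`: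
against the dual brace property (`|RB| = |RA| ≤ n - 2`). -/
theorem MinCtx.oA {s : A → B → ℤ} {RA : Finset A} {RB : Finset B} {d : ℕ} (h : MinCtx s RA RB d) :
    ∀ a, a ∉ RA → (nbA s a ∩ RB).card ≤ 1 := by
  intro a ha
  by_contra hj
  push Not at hj
  have hAB := h.hc.card_eq
  have hcard := h.hR.card
  have hlegs := h.hR.legs
  have hlow := h.hR.low
  have hupp := h.hR.upp
  have hsub := FMin1_legs_row s (RB := RB) ha
  have hci : ((nbA s a ∩ RB).image (fun b => (a, b))).card = (nbA s a ∩ RB).card :=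
    card_image_of_injective _ (fun x y hxy => (Prod.mk.inj hxy).2)
  have hle := card_le_card hsub
  have heq : (nbA s a ∩ RB).image (fun b => (a, b)) = bLegs s RA RB :=
    eq_of_subset_of_card_le hsub (by omega)
  have hT : NB s RB ⊆ insert a RA := by
    intro x hx
    rw [mem_NB] at hx
    obtain ⟨b', hb', hxb⟩ := hx
    rw [mem_insert]
    by_contra hxR
    rw [not_or] at hxR
    have : (x, b') ∈ bLegs s RA RB := mem_bLegs.2 ⟨hxR.2, hb', hxb⟩
    rw [← heq, mem_image] at this
    obtain ⟨_, _, e⟩ := this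
    exact hxR.1 (Prod.mk.inj e).1.symm
  have hTle := card_le_card hT
  have hins := card_insert_le a RA
  have hne : RB.Nonempty := by
    rw [← card_pos]; omega
  have hdual := (h.hb.tr h.hc).hall RB hne (by omega)
  rw [NA_tr] at hdual
  omega

end MCC
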