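import Pool.Agent.Lib_MP_cb5629.FMin

set_option linter.unusedSectionVars false

namespace MCC

open Finset

variable {A B : Type} [Fintype A] [Fintype B] [DecidableEq A] [DecidableEq B]

/-- counting: neighbours of `RA` outside `insert b RB` -/
private lemma FMin2_cnt {s : A → B → ℤ} (RA : Finset A) (RB : Finset B) {b : B} (hb : b ∉ RB) :
    (NA s RA \ insert b RB).card + (nbB s b ∩ RA).card ≤ (aLegs s RA RB).card := by
  classical
  have h1 : ((aLegs s RA RB).filter fun p => p.2 = b).card = (nbB s b ∩ RA).card := by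
    symm
    apply card_bij (fun a _ => (a, b))
    · intro a ha
      rw [mem_inter, mem_nbB] at ha
      simp [ha.1, ha.2, hb]
    · intro a _ a' _ h
      exact (Prod.ext_iff.1 h).1
    · rintro ⟨a, b'⟩ h
      simp only [mem_filter, mem_aLegs] at h
      obtain ⟨⟨h1, h2, h3⟩, h4⟩ := h
      rw [h4] at h3
      exact ⟨a, by simp [h1, h3], by rw [h4]⟩
  have h2 : (NA s RA \ insert b RB).card ≤ ((aLegs s RA RB).filter fun p => ¬ p.2 = b).card := by
    refine (card_le_card ?_).trans (card_image_le (f := Prod.snd))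
    intro b' hb'
    simp only [mem_sdiff, mem_NA, mem_insert, not_or] at hb'
    obtain ⟨⟨a, ha, hab⟩, h3, h4⟩ := hb'
    exact mem_image.2 ⟨(a, b'), by simp [ha, hab, h3, h4], rfl⟩
  have h3 := card_filter_add_card_filter_not (s := aLegs s RA RB) (fun p => p.2 = b)
  omega

private lemma FMin2_bl {s : A → B → ℤ} (RA : Finset A) (RB : Finset B) {b : B} (hb : b ∉ RB) :
    (bLegs s RA (insert b RB)).card = (bLegs s RA RB).card + (nbB s b \ RA).card := by
  classical
  have e : bLegs s RA (insert b RB) = bLegs s RA RB ∪ (nbB s b \ RA).image fun a => (a, b) := by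
    ext ⟨a, b'⟩
    simp only [mem_bLegs, mem_insert, mem_union, mem_image, mem_sdiff, mem_nbB, Prod.mk.injEq]
    constructor
    · rintro ⟨h1, h2 | h2, h3⟩
      · rw [h2] at h3
        exact Or.inr ⟨a, ⟨h3, h1⟩, rfl, h2.symm⟩
      · exact Or.inl ⟨h1, h2, h3⟩
    · rintro (⟨h1, h2, h3⟩ | ⟨a', ⟨h3, h1⟩, h4, h5⟩)
      · exact ⟨h1, Or.inr h2, h3⟩
      · rw [h4] at h3 h1
        rw [h5] at h3
        exact ⟨h1, Or.inl h5.symm, h3⟩
  rw [e, card_union_of_disjoint, card_image_of_injective _ (fun a a' h => (Prod.ext_iff.1 h).1)]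
  rw [disjoint_left]
  rintro ⟨a, b'⟩ h1 h2
  simp only [mem_bLegs, mem_image, Prod.mk.injEq] at h1 h2
  obtain ⟨_, _, _, h3⟩ := h2
  rw [← h3] at h1
  exact hb h1.2.1

/-- Piece FC2b. Proof. Suppose `b ∉ RB` has `j ≥ 2` neighbours in `RA`. `RB' = RB ∪ {b}`.
`j = 3`: the number of A-legs is `2 + 2d ≥ 3`, so `d ≥ 1`. `d = 1`: `4` A-legs, one of them not at `b`: `|NA s RA| ≤ |RB| + 2 = |RA| + 1`: against the brace property
(`|RA| ≤ n - 2`). `d = 2`: no B-legs, so `NB s RB' ⊆ RA`, `|RA| = |RB| + 2 = |RB'| + 1`: against the dual brace property (`|RB'| = |RA| - 1 ≤ n - 3`).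
`j = 2`, `d = 0`: `2` A-legs, both at `b`: `NA s RA ⊆ RB'`, `|RB'| = |RA| + 1`: against the brace property.
`j = 2`, `d ≥ 1`: `(RA, RB')` has `2 - d + 1` B-legs and `|RA| = |RB'| + (d-1)`, so `Nontriv s RA RB' (d-1)`; if it is clean, it contradicts minimality
(`3 |RA| + (d-1) < 3 |RA| + d`). It is clean: by `outB` the two edges from `b` to `RA` have the same sign; switch at `b` (`β b` = that sign, everything else `1`);
then all edges inside `(RA,RB')` are `≥ 0`; a column outside `RB'` still sends edges of one sign only to `RA`; a row `a ∉ RA` is not adjacent both to `b`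
and to a column of `RB`: for `d = 2` there are no B-legs at `RB`; for `d = 1` there is exactly one B-leg `(a,b1)`, `b1 ∈ RB`, and if `a ~ b` then
`NB s RB' ⊆ RA ∪ {a}` (the neighbours of `b` are its two neighbours in `RA` and `a`), `|RA ∪ {a}| = |RB'| + 1`, against the dual brace property. So its edges to
`RB'` have one sign (two edges to `RB` are excluded in the same way, or by `outA`). -/
theorem MinCtx.oB {s : A → B → ℤ} {RA : Finset A} {RB : Finset B} {d : ℕ} (h : MinCtx s RA RB d) :
    ∀ b, b ∉ RB → (nbB s b ∩ RA).card ≤ 1 := by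
  classical
  intro b hbR
  by_contra hj
  push Not at hj
  have hcard := h.hR.card
  have hlow := h.hR.low
  have hupp := h.hR.upp
  have hlegs := h.hR.legs
  have hal := h.hR.toShore.aLegs h.hc
  have h3 := h.rb3
  have hn := h.hc.card_eq
  have hcol := h.hc.col b
  have hsplit := card_inter_add_card_sdiff (nbB s b) RA
  have hcnt := FMin2_cnt (s := s) RA RB hbR
  have hRAne : RA.Nonempty := by rw [← card_pos]; omega
  have hbr := h.hb.hall RA hRAne hupp
  have hNA : (NA s RA).card ≤ (NA s RA \ insert b RB).card + (insert b RB).card :=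
    card_le_card_sdiff_add_card
  have hins : (insert b RB).card = RB.card + 1 := card_insert_of_notMem hbR
  have hjd : (nbB s b ∩ RA).card ≤ d + 1 := by omega
  have hdual := (Brace.tr h.hc h.hb).hall (insert b RB) ⟨b, mem_insert_self _ _⟩ (by omega)
  rw [NA_tr] at hdual
  have hj2 : (nbB s b ∩ RA).card = 2 := by
    by_contra hne
    have hsub : NB s (insert b RB) ⊆ RA := by
      intro a ha
      rw [mem_NB] at ha
      obtain ⟨b', hb', hab⟩ := ha
      by_contra haR
      rcases mem_insert.1 hb' with h4 | h4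
      · rw [h4] at hab
        have h5 : (nbB s b \ RA).card = 0 := by omega
        have h6 : a ∈ nbB s b \ RA := by simp [hab, haR]
        have := card_pos.2 ⟨_, h6⟩
        omega
      · have h6 : (a, b') ∈ bLegs s RA RB := by simp [hab, haR, h4]
        have := card_pos.2 ⟨_, h6⟩
        omega
    have := card_le_card hsub
    omega
  have hone : (nbB s b \ RA).card = 1 := by omega
  have hnt : Nontriv s RA (insert b RB) (d - 1) := by
    refine ⟨⟨by omega, ?_⟩, by omega, hupp⟩
    rw [FMin2_bl RA RB hbR]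
    omega
  have key : ∀ a, a ∉ RA → ∀ b' ∈ RB, s a b = 0 ∨ s a b' = 0 := by
    intro a ha b' hb'
    by_contra hcon
    push Not at hcon
    obtain ⟨h5, h6⟩ := hcon
    have m1 : (a, b') ∈ bLegs s RA RB := by simp [ha, hb', h6]
    have m2 : a ∈ nbB s b \ RA := by simp [ha, h5]
    have c1 := card_pos.2 ⟨_, m1⟩
    have c2 : (bLegs s RA RB).card = 1 := by omega
    have hsub : NB s (insert b RB) ⊆ insert a RA := by
      intro a' ha'
      rw [mem_NB] at ha'
      obtain ⟨b1, hb1, hab⟩ := ha'
      rw [mem_insert]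
      by_contra hcon
      push Not at hcon
      obtain ⟨h7, h8⟩ := hcon
      rcases mem_insert.1 hb1 with h9 | h9
      · rw [h9] at hab
        exact h7 (card_le_one.1 hone.le a' (by simp [hab, h8]) a m2)
      · have h10 := card_le_one.1 c2.le (a', b1) (by simp [hab, h8, h9]) (a, b') m1
        exact h7 (Prod.ext_iff.1 h10).1
    have c3 := card_le_card hsub
    rw [card_insert_of_notMem ha] at c3
    omega
  obtain ⟨ε, hε⟩ : ∃ ε : ℤˣ, ∀ a ∈ RA, 0 ≤ s a b * (ε : ℤ) := by
    by_cases hall : ∀ a ∈ RA, 0 ≤ s a b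
    · exact ⟨1, fun a ha => by simpa using hall a ha⟩
    · push Not at hall
      obtain ⟨a0, ha0, hneg⟩ := hall
      refine ⟨-1, fun a ha => ?_⟩
      have h5 := h.hcl.outB b hbR a ha a0 ha0
      have h6 : s a b ≤ 0 := by
        by_contra hpos
        push Not at hpos
        have h7 := mul_neg_of_pos_of_neg hpos hneg
        omega
      simp only [Units.val_neg, Units.val_one]
      omega
  have hclean : Clean s RA (insert b RB) := by
    refine ⟨fun _ => 1, fun b' => if b' = b then ε else 1, ?_, ?_, ?_⟩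
    · intro a ha b' hb'
      by_cases e : b' = b
      · rw [e]; simpa [sw] using hε a ha
      · have hb2 : b' ∈ RB := (mem_insert.1 hb').resolve_left e
        simpa [sw, e] using h.hcl.ins a ha b' hb2
    · intro b' hb' a ha a' ha'
      rw [mem_insert, not_or] at hb'
      simpa [sw, hb'.1] using h.hcl.outB b' hb'.2 a ha a' ha'
    · intro a ha b1 hb1 b2 hb2
      by_cases e1 : b1 = b
      · by_cases e2 : b2 = b
        · rw [e1, e2]; exact mul_self_nonneg _
        · have hb3 : b2 ∈ RB := (mem_insert.1 hb2).resolve_left e2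
          rcases key a ha b2 hb3 with h5 | h5
          · simp [sw, e1, h5]
          · simp [sw, h5]
      · have hb4 : b1 ∈ RB := (mem_insert.1 hb1).resolve_left e1
        by_cases e2 : b2 = b
        · rcases key a ha b1 hb4 with h5 | h5
          · simp [sw, e2, h5]
          · simp [sw, h5]
        · have hb3 : b2 ∈ RB := (mem_insert.1 hb2).resolve_left e2
          simpa [sw, e1, e2] using h.hcl.outA a ha b1 hb4 b2 hb3
  have hfin := h.hmin.1 RA (insert b RB) (d - 1) hnt hclean
  omega

end MCC
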