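import Pool.Agent.Lib_MP_cb5629.FMin1
import Pool.Agent.Lib_MP_cb5629.FMin2

set_option linter.unusedSectionVars false

namespace MCC

open Finset

variable {A B : Type} [Fintype A] [Fintype B] [DecidableEq A] [DecidableEq B]

/-- no switching is needed -/
theorem FMin3_clean {A B : Type} {s : A → B → ℤ} {RA : Finset A} {RB : Finset B}
    (h : Clean0 s RA RB) : Clean s RA RB := by
  refine ⟨fun _ => 1, fun _ => 1, ?_⟩
  have : sw s (fun _ => 1) (fun _ => 1) = s := by
    funext a b
    simp [sw]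
  rw [this]
  exact h

/-- Piece FC3. Proof. Let `a ∈ PA`, `b ∈ QB`, `s a b ≠ 0`; by `uA`, `uB` both have exactly one leg, and `d ≤ 1` (`QB ≠ ∅`). `R' = (RA \ {a}, RB \ {b})`: the B-legs of
`R'` are the B-legs of `R` except the one at `b` (`2 - d - 1`), and the edges from `RB \ {b}` to `a`: `a` has three neighbours, its leg, `b` and exactly one
in `RB \ {b}`. So `2 - d` B-legs, `Nontriv s (RA \ {a}) (RB \ {b}) d`: `|RA| - 1 ≥ d + 2` because `|RA| = |RB| + d ≥ 3 + d` (`rb3`). Clean by `mono`, smaller: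
contradiction. -/
theorem MinCtx.npq {s : A → B → ℤ} {RA : Finset A} {RB : Finset B} {d : ℕ} (h : MinCtx s RA RB d) :
    ∀ a ∈ PA s RA RB, ∀ b ∈ QB s RA RB, s a b = 0 := by
  classical
  intro a ha b hb
  by_contra hab
  obtain ⟨haR, hane⟩ := mem_filter.1 ha
  obtain ⟨hbR, hbne⟩ := mem_filter.1 hb
  have hR := h.hR
  have hrb3 := h.rb3
  have hcard := hR.card
  have hlegs := hR.legs
  have hlow := hR.low
  have hupp := hR.upp
  have hA1 : (nbA s a \ RB).card = 1 := le_antisymm (h.uA a haR) (card_pos.2 hane)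
  have hB1 : (nbB s b \ RA).card = 1 := le_antisymm (h.uB b hbR) (card_pos.2 hbne)
  have hA2 : (nbA s a ∩ RB).card = 2 := by
    have h1 := card_sdiff_add_card_inter (nbA s a) RB
    rw [h.hc.row a, hA1] at h1
    omega
  have hnew : Nontriv s (RA.erase a) (RB.erase b) d := by
    have hc1 : (RA.erase a).card = RA.card - 1 := card_erase_of_mem haR
    have hc2 : (RB.erase b).card = RB.card - 1 := card_erase_of_mem hbR
    have hl1 : (bLegs s RA RB).card
        = ((bLegs s RA RB).filter fun p => p.2 ≠ b).card + (nbB s b \ RA).card := by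
      have h2 := card_filter_add_card_filter_not (s := bLegs s RA RB) (fun p => p.2 ≠ b)
      have h3 : ((bLegs s RA RB).filter fun p => ¬ p.2 ≠ b).card = (nbB s b \ RA).card := by
        apply card_bij (fun p _ => p.1)
        · rintro ⟨x, y⟩ hp
          rw [mem_filter, mem_bLegs] at hp
          simp only [not_not] at hp
          rw [mem_sdiff, mem_nbB]
          rw [hp.2] at hp
          exact ⟨hp.1.2.2, hp.1.1⟩
        · rintro ⟨x, y⟩ hp ⟨x', y'⟩ hp' hh
          rw [mem_filter] at hp hp'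
          simp only [not_not] at hp hp' hh
          rw [hp.2, hp'.2, hh]
        · intro x hx
          rw [mem_sdiff, mem_nbB] at hx
          refine ⟨(x, b), ?_, rfl⟩
          rw [mem_filter, mem_bLegs]
          exact ⟨⟨hx.2, hbR, hx.1⟩, by simp⟩
      rw [h3] at h2
      omega
    have hl2 : (bLegs s (RA.erase a) (RB.erase b)).card
        = ((bLegs s RA RB).filter fun p => p.2 ≠ b).card + ((nbA s a ∩ RB).erase b).card := by
      have h2 := card_filter_add_card_filter_not (s := bLegs s (RA.erase a) (RB.erase b))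
        (fun p => p.1 ≠ a)
      have h3 : (bLegs s (RA.erase a) (RB.erase b)).filter (fun p => p.1 ≠ a)
          = (bLegs s RA RB).filter fun p => p.2 ≠ b := by
        ext ⟨x, y⟩
        simp only [mem_filter, mem_bLegs, mem_erase, ne_eq, not_and]
        constructor
        · rintro ⟨⟨h4, h5, h6⟩, h7⟩
          exact ⟨⟨h4 h7, h5.2, h6⟩, h5.1⟩
        · rintro ⟨⟨h4, h5, h6⟩, h7⟩
          exact ⟨⟨fun _ => h4, ⟨h7, h5⟩, h6⟩, fun e => h4 (e ▸ haR)⟩
      have h4 : ((bLegs s (RA.erase a) (RB.erase b)).filter fun p => ¬ p.1 ≠ a).card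
          = ((nbA s a ∩ RB).erase b).card := by
        apply card_bij (fun p _ => p.2)
        · rintro ⟨x, y⟩ hp
          rw [mem_filter, mem_bLegs] at hp
          simp only [not_not] at hp
          rw [mem_erase, mem_inter, mem_nbA]
          have h5 := mem_erase.1 hp.1.2.1
          refine ⟨h5.1, ?_, h5.2⟩
          have h6 := hp.1.2.2
          rw [hp.2] at h6
          exact h6
        · rintro ⟨x, y⟩ hp ⟨x', y'⟩ hp' hh
          rw [mem_filter] at hp hp'
          simp only [not_not] at hp hp' hh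
          rw [hp.2, hp'.2, hh]
        · intro y hy
          rw [mem_erase, mem_inter, mem_nbA] at hy
          refine ⟨(a, y), ?_, rfl⟩
          rw [mem_filter, mem_bLegs]
          refine ⟨⟨by simp, mem_erase.2 ⟨hy.1, hy.2.2⟩, hy.2.1⟩, by simp⟩
      rw [h3, h4] at h2
      omega
    have hl3 : ((nbA s a ∩ RB).erase b).card = 1 := by
      rw [card_erase_of_mem (by rw [mem_inter, mem_nbA]; exact ⟨hab, hbR⟩), hA2]
    refine ⟨⟨?_, ?_⟩, ?_, ?_⟩
    · omega
    · omega
    · omega
    · omega
  have hcl : Clean s (RA.erase a) (RB.erase b) := FMin3_clean (h.hcl.mono (erase_subset _ _) (erase_subset _ _))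
  have hfin := h.hmin.1 _ _ _ hnew hcl
  rw [card_erase_of_mem haR] at hfin
  omega

/-- Piece FCORE. A minimal nontrivial `Clean0` shore is a core: `uA`, `uB`, `oA`, `oB`, `npq`, `rb3` above; `pos` is `Clean0.ins`; `min`: a shore `(S, N_R(S))`, `S ⊆ RA`,
`|S| < |RA|`, of type `e` is clean (`mono`) and `3 |S| + e ≤ 3 |RA| - 3 + 2 < 3 |RA| + d`; `min'`: a transposed shore has the measure `3 |N_R(S)| + 1 =
3 (|S| + 1) + 1 ≤ 3 (|RA| - 1) + 1 < 3 |RA| + d` (`Nontriv (tr s) N S 1` contains `|N| = |S| + 1`), clean by `Clean0.tr` and `mono`. -/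
theorem MinCtx.core {s : A → B → ℤ} {RA : Finset A} {RB : Finset B} {d : ℕ} (h : MinCtx s RA RB d) :
    Core s RA RB d := by
  classical
  refine ⟨h.hR, h.hcl.ins, h.rb3, h.uA, h.uB, h.oB, h.oA, h.npq, ?_, ?_⟩
  · intro S hS hlt e hN
    have hfin := h.hmin.1 _ _ _ hN (FMin3_clean (h.hcl.mono hS inter_subset_right))
    have hl := hN.legs
    omega
  · intro S hS hlt hN
    have hfin := h.hmin.2 _ _ _ hN
      (FMin3_clean ((h.hcl.mono hS (inter_subset_right (s₁ := NA s S))).tr))
    have hl := hN.card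
    omega

end MCC
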