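import Pool.Agent.Lib_MP_cb5629.FMat2
import Pool.Agent.Lib_MP_cb5629.SPL

/-! (2.2) of the paper text: two different functionals have no common zero in the plane `W`. -/

set_option linter.unusedSectionVars false

namespace MCC

open Finset

variable {A B : Type} [Fintype A] [Fintype B] [DecidableEq A] [DecidableEq B]

/-- the row `a` keeps only the edges to the columns outside `RB` -/
private lemma FPair_sum_out {s : A → B → ℤ} {RB : Finset B} {ξ : B → ℝ} {a : A} (h : vA s RB ξ a = 0)
    (r : B → ℤ) (hr : ∀ b, r b = if b ∈ RB then 0 else s a b) : ∑ b, (r b : ℝ) * ξ b = 0 := by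
  rw [← h]
  unfold vA
  symm
  apply Finset.sum_subset_zero_on_sdiff (subset_univ _)
  · intro b hb
    have hb' : b ∈ RB := by
      by_contra hcon
      simp [hcon] at hb
    rw [hr b, if_pos hb']
    simp
  · intro b hb
    rw [mem_sdiff] at hb
    rw [hr b, if_neg hb.2]

/-- Piece PAIR. `H1` is SNS by `sns_sub` and `Core.m1`, and `ξ` balances it: a row `a ∈ RA \ {a0,a0'}` keeps only edges to `RB \ QB`, where `ξ = 0`;
the row `a0` keeps its edges to `B \ RB`: there is only one (`uA`), and its term is `vA s RB ξ a0 = 0`; a row outside `RA` has real sum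
zero (`Bal.of_sum`). So `ξ = 0`. -/
theorem Core.pair_aa {s : A → B → ℤ} (hc : Cubic s) (hb : Brace s) (hs : SNS s) {RA : Finset A} {RB : Finset B} {d : ℕ}
    (h : Core s RA RB d) {a0 a0' : A} (h0 : a0 ∈ PA s RA RB) (h0' : a0' ∈ PA s RA RB) (hne : a0 ≠ a0') {ξ : B → ℝ}
    (hξ : InW s RA RB ξ) (h1 : vA s RB ξ a0 = 0) (h2 : vA s RB ξ a0' = 0) : ξ = 0 := by
  have hsns : SNS (H1 s RA RB a0 a0') := by
    refine sns_sub hc.val hs ?_ (h.m1 hc hb h0 h0' hne)
    intro a b
    unfold H1
    split_ifs <;> simp
  refine hsns ξ fun a => Bal.of_sum ?_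
  by_cases ha : a ∈ RA
  · by_cases ha0 : a = a0 ∨ a = a0'
    · have hv : vA s RB ξ a = 0 := by
        rcases ha0 with rfl | rfl
        · exact h1
        · exact h2
      exact FPair_sum_out hv (fun b => H1 s RA RB a0 a0' a b) (fun b => by
        unfold H1
        rw [if_pos ha, if_pos ha0])
    · apply Finset.sum_eq_zero
      intro b _
      unfold H1
      rw [if_pos ha, if_neg ha0]
      split_ifs with hbb
      · rw [hξ.1 b hbb.1 hbb.2, mul_zero]
      · simp
  · rw [← hξ.2 a ha]
    apply Finset.sum_congr rfl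
    intro b _
    unfold H1
    rw [if_neg ha]

/-- Piece PAIR: the same with `H2` (`Core.m2`). -/
theorem Core.pair_ab {s : A → B → ℤ} (hc : Cubic s) (hb : Brace s) (hs : SNS s) {RA : Finset A} {RB : Finset B} {d : ℕ}
    (h : Core s RA RB d) {a0 : A} {b0 : B} (h0 : a0 ∈ PA s RA RB) (h0' : b0 ∈ QB s RA RB) {ξ : B → ℝ}
    (hξ : InW s RA RB ξ) (h1 : vA s RB ξ a0 = 0) (h2 : ξ b0 = 0) : ξ = 0 := by
  have hsns : SNS (H2 s RA RB a0 b0) := by
    refine sns_sub hc.val hs ?_ (h.m2 hc hb h0 h0')
    intro a b
    unfold H2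
    split_ifs <;> simp
  refine hsns ξ fun a => Bal.of_sum ?_
  by_cases ha : a ∈ RA
  · by_cases ha0 : a = a0
    · have hv : vA s RB ξ a = 0 := by
        subst ha0
        exact h1
      exact FPair_sum_out hv (fun b => H2 s RA RB a0 b0 a b) (fun b => by
        unfold H2
        rw [if_pos ha, if_pos ha0])
    · apply Finset.sum_eq_zero
      intro b _
      unfold H2
      rw [if_pos ha, if_neg ha0]
      split_ifs with hbb
      · have : ξ b = 0 := by
          rcases hbb.2 with hq | rfl
          · exact hξ.1 b hbb.1 hq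
          · exact h2
        rw [this, mul_zero]
      · simp
  · rw [← hξ.2 a ha]
    apply Finset.sum_congr rfl
    intro b _
    unfold H2
    rw [if_neg ha]

/-- Piece PAIR: the same with `H3` (`Core.m3`): two different elements of `QB` force `d = 0` (`Core.cardQB`) and `QB = {b0,b0'}`, so `ξ = 0` on `RB`. -/
theorem Core.pair_bb {s : A → B → ℤ} (hc : Cubic s) (hb : Brace s) (hs : SNS s) {RA : Finset A} {RB : Finset B} {d : ℕ}
    (h : Core s RA RB d) {b0 b0' : B} (h0 : b0 ∈ QB s RA RB) (h0' : b0' ∈ QB s RA RB) (hne : b0 ≠ b0') {ξ : B → ℝ}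
    (hξ : InW s RA RB ξ) (h1 : ξ b0 = 0) (h2 : ξ b0' = 0) : ξ = 0 := by
  have hcard := h.cardQB hc
  have hsub : ({b0, b0'} : Finset B) ⊆ QB s RA RB := by
    intro b hb
    rw [mem_insert, mem_singleton] at hb
    rcases hb with rfl | rfl
    · exact h0
    · exact h0'
  have h2c : ({b0, b0'} : Finset B).card = 2 := card_pair hne
  have hle := card_le_card hsub
  obtain rfl : d = 0 := by omega
  have heq : ({b0, b0'} : Finset B) = QB s RA RB := eq_of_subset_of_card_le hsub (by omega)
  have hsns : SNS (H3 s RA RB) := by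
    refine sns_sub hc.val hs ?_ (h.m3 hc hb)
    intro a b
    unfold H3
    split_ifs <;> simp
  refine hsns ξ fun a => Bal.of_sum ?_
  by_cases ha : a ∈ RA
  · apply Finset.sum_eq_zero
    intro b _
    unfold H3
    rw [if_pos ha]
    split_ifs with hbb
    · have : ξ b = 0 := by
        by_cases hq : b ∈ QB s RA RB
        · rw [← heq, mem_insert, mem_singleton] at hq
          rcases hq with rfl | rfl
          · exact h1
          · exact h2
        · exact hξ.1 b hbb hq
      rw [this, mul_zero]
    · simp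
  · rw [← hξ.2 a ha]
    apply Finset.sum_congr rfl
    intro b _
    unfold H3
    rw [if_neg ha]

end MCC
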