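import Pool.Agent.Lib_MP_cb5629.RedDefs

set_option linter.unusedSectionVars false

namespace MCC

open Finset

variable {A B : Type} [Fintype A] [Fintype B] [DecidableEq A] [DecidableEq B]

private lemma Red1_three {α : Type} [DecidableEq α] {F : Finset α} (h : F.card = 3) {a b : α}
    (ha : a ∈ F) (hb : b ∈ F) (hab : a ≠ b) : ∃ c, F = {a, b, c} ∧ a ≠ c ∧ b ≠ c := by
  have h1 : ((F.erase a).erase b).card = 1 := by
    rw [card_erase_of_mem (mem_erase.2 ⟨hab.symm, hb⟩), card_erase_of_mem ha, h]
  obtain ⟨c, hc⟩ := card_eq_one.1 h1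
  have hc' : c ∈ (F.erase a).erase b := by rw [hc]; exact mem_singleton_self c
  rw [mem_erase, mem_erase] at hc'
  refine ⟨c, ?_, hc'.2.1.symm, hc'.1.symm⟩
  rw [← hc, insert_erase (mem_erase.2 ⟨hab.symm, hb⟩), insert_erase ha]

private lemma Red1_two {α : Type} [DecidableEq α] {F : Finset α} (h : F.card = 3) {a : α}
    (ha : a ∈ F) : ∃ b c, F = {a, b, c} ∧ a ≠ b ∧ a ≠ c ∧ b ≠ c := by
  have h1 : (F.erase a).card = 2 := by rw [card_erase_of_mem ha, h]
  obtain ⟨b, c, hbc, hF⟩ := card_eq_two.1 h1
  have hb : b ∈ F.erase a := by rw [hF]; simp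
  have hc : c ∈ F.erase a := by rw [hF]; simp
  rw [mem_erase] at hb hc
  exact ⟨b, c, by rw [← hF, insert_erase ha], hb.1.symm, hc.1.symm, hbc⟩

/-- Piece RED1. Local data at an edge in no square, with prescribed `y1`. (`nbA s x` has three elements, two of them
are `y`, `y1`; `s x_i y_j ≠ 0` would give the element `(x_i, y_j)` of `squares s x y`.) -/
lemma exists_edgeData {s : A → B → ℤ} (hc : Cubic s) {x : A} {y y1 : B} (hxy : s x y ≠ 0) (hxy1 : s x y1 ≠ 0)
    (hne : y ≠ y1) (hsq : squares s x y = ∅) : ∃ x1 x2 y2, EdgeData s x y x1 x2 y1 y2 := by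
  obtain ⟨y2, hy, hy2, hy12⟩ := Red1_three (hc.row x) (mem_nbA.2 hxy) (mem_nbA.2 hxy1) hne
  obtain ⟨x1, x2, hx, hx1, hx2, hx12⟩ := Red1_two (hc.col y) (mem_nbB.2 hxy)
  have hxy2 : s x y2 ≠ 0 := by
    rw [← mem_nbA, hy]; simp
  have h1y : s x1 y ≠ 0 := by
    rw [← mem_nbB, hx]; simp
  have h2y : s x2 y ≠ 0 := by
    rw [← mem_nbB, hx]; simp
  have key : ∀ (a : A) (b : B), a ≠ x → b ≠ y → s a y ≠ 0 → s x b ≠ 0 → s a b = 0 := by
    intro a b ha hb h1 h2
    by_contra hcon
    have h3 : ((a, b) : A × B) ∈ squares s x y := mem_squares.2 ⟨ha, hb, h1, h2, hcon⟩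
    rw [hsq] at h3
    simp at h3
  exact ⟨x1, x2, y2, hxy, hy, hx, hne, hy2, hy12, hx1, hx2, hx12,
    key _ _ hx1.symm hne.symm h1y hxy1, key _ _ hx1.symm hy2.symm h1y hxy2,
    key _ _ hx2.symm hne.symm h2y hxy1, key _ _ hx2.symm hy2.symm h2y hxy2⟩

lemma EdgeData.swapx {s : A → B → ℤ} {x : A} {y : B} {x1 x2 : A} {y1 y2 : B} (h : EdgeData s x y x1 x2 y1 y2) :
    EdgeData s x y x2 x1 y1 y2 := by
  refine ⟨h.xy, h.nx, ?_, h.yy1, h.yy2, h.y12, h.xx2, h.xx1, h.x12.symm, h.s21, h.s22, h.s11, h.s12⟩
  rw [h.ny, pair_comm x1 x2]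

lemma EdgeData.swapy {s : A → B → ℤ} {x : A} {y : B} {x1 x2 : A} {y1 y2 : B} (h : EdgeData s x y x1 x2 y1 y2) :
    EdgeData s x y x1 x2 y2 y1 := by
  refine ⟨h.xy, ?_, h.ny, h.yy2, h.yy1, h.y12.symm, h.xx1, h.xx2, h.x12, h.s12, h.s11, h.s22, h.s21⟩
  rw [h.nx, pair_comm y1 y2]

private lemma Red1_tr {s : A → B → ℤ} {x : A} {y : B} {x1 x2 : A} {y1 y2 : B} (h : EdgeData s x y x1 x2 y1 y2) :
    EdgeData (tr s) y x y1 y2 x1 x2 :=
  ⟨h.xy, h.ny, h.nx, h.xx1, h.xx2, h.x12, h.yy1, h.yy2, h.y12, h.s11, h.s21, h.s12, h.s22⟩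

private lemma Red1_pm {s : A → B → ℤ} (hc : Cubic s) {x : A} {y : B} {x1 x2 : A} {y1 y2 : B}
    (h : EdgeData s x y x1 x2 y1 y2) :
    (s x y * s x y1 * s x1 y = 1 ∨ s x y * s x y1 * s x1 y = -1) ∧
    (s x y * s x y2 * s x2 y = 1 ∨ s x y * s x y2 * s x2 y = -1) := by
  have hy1 : s x y1 ≠ 0 := by rw [← mem_nbA, h.nx]; simp
  have hy2 : s x y2 ≠ 0 := by rw [← mem_nbA, h.nx]; simp
  have hx1 : s x1 y ≠ 0 := by rw [← mem_nbB, h.ny]; simp
  have hx2 : s x2 y ≠ 0 := by rw [← mem_nbB, h.ny]; simp
  have e0 := (hc.val x y).resolve_left h.xy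
  have e1 := (hc.val x y1).resolve_left hy1
  have e2 := (hc.val x y2).resolve_left hy2
  have e3 := (hc.val x1 y).resolve_left hx1
  have e4 := (hc.val x2 y).resolve_left hx2
  constructor
  · rcases e0 with e0 | e0 <;> rcases e1 with e1 | e1 <;> rcases e3 with e3 | e3 <;>
      rw [e0, e1, e3] <;> norm_num
  · rcases e0 with e0 | e0 <;> rcases e2 with e2 | e2 <;> rcases e4 with e4 | e4 <;>
      rw [e0, e2, e4] <;> norm_num

private lemma Red1_row {s : A → B → ℤ} (hc : Cubic s) {x : A} {y : B} {x1 x2 : A} {y1 y2 : B}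
    (h : EdgeData s x y x1 x2 y1 y2) (a : {a : A // a ≠ x}) :
    (nbA (red s x y x1 x2 y1 y2) a).card = 3 := by
  obtain ⟨hp1, hp2⟩ := Red1_pm hc h
  have hp1' : -(s x y * s x y1 * s x1 y) ≠ 0 := by rcases hp1 with e | e <;> rw [e] <;> norm_num
  have hp2' : -(s x y * s x y2 * s x2 y) ≠ 0 := by rcases hp2 with e | e <;> rw [e] <;> norm_num
  obtain ⟨a, ha⟩ := a
  have himg : (nbA (red s x y x1 x2 y1 y2) ⟨a, ha⟩).map (Function.Embedding.subtype _)
      = ((if a = x1 then {y1} else ∅) ∪ (if a = x2 then {y2} else ∅)) ∪ (nbA s a).erase y := by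
    ext b
    simp only [mem_map, mem_nbA, Function.Embedding.subtype_apply, Subtype.exists, mem_union,
      mem_erase, ne_eq, exists_and_right, exists_eq_right]
    constructor
    · rintro ⟨hb, h1⟩
      unfold red at h1
      simp only at h1
      by_cases c1 : a = x1 ∧ b = y1
      · left; left; rw [if_pos c1.1, c1.2]; exact mem_singleton_self _
      · rw [if_neg c1] at h1
        by_cases c2 : a = x2 ∧ b = y2
        · left; right; rw [if_pos c2.1, c2.2]; exact mem_singleton_self _
        · rw [if_neg c2] at h1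
          right; exact ⟨hb, h1⟩
    · rintro ((h1 | h1) | h1)
      · split_ifs at h1 with c
        · rw [mem_singleton] at h1
          subst h1
          refine ⟨h.yy1.symm, ?_⟩
          unfold red
          simp only
          rw [if_pos ⟨c, by trivial⟩]
          exact hp1'
        · simp at h1
      · split_ifs at h1 with c
        · rw [mem_singleton] at h1
          subst h1
          refine ⟨h.yy2.symm, ?_⟩
          unfold red
          simp only
          rw [if_neg (fun hh => h.y12 hh.2.symm), if_pos ⟨c, by trivial⟩]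
          exact hp2'
        · simp at h1
      · refine ⟨h1.1, ?_⟩
        unfold red
        simp only
        split_ifs
        · exact hp1'
        · exact hp2'
        · exact h1.2
  have hcard := congrArg Finset.card himg
  rw [card_map] at hcard
  rw [hcard]
  by_cases c1 : a = x1
  · have c2 : a ≠ x2 := fun h2 => h.x12 (c1.symm.trans h2)
    rw [if_pos c1, if_neg c2, union_empty, card_union_of_disjoint, card_singleton, card_erase_of_mem,
      hc.row]
    · rw [mem_nbA, ← mem_nbB, h.ny, c1]; simp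
    · rw [disjoint_singleton_left, mem_erase, mem_nbA, c1]
      exact fun hh => hh.2 h.s11
  · by_cases c2 : a = x2
    · rw [if_neg c1, if_pos c2, empty_union, card_union_of_disjoint, card_singleton, card_erase_of_mem,
        hc.row]
      · rw [mem_nbA, ← mem_nbB, h.ny, c2]; simp
      · rw [disjoint_singleton_left, mem_erase, mem_nbA, c2]
        exact fun hh => hh.2 h.s22
    · rw [if_neg c1, if_neg c2, empty_union, empty_union, erase_eq_of_notMem, hc.row]
      rw [mem_nbA, ← mem_nbB, h.ny]
      simp only [mem_insert, mem_singleton]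
      rintro (hh | hh | hh)
      · exact ha hh
      · exact c1 hh
      · exact c2 hh

private lemma Red1_red_tr (s : A → B → ℤ) (x : A) (y : B) (x1 x2 : A) (y1 y2 : B) :
    tr (red s x y x1 x2 y1 y2) = red (tr s) y x y1 y2 x1 x2 := by
  funext b a
  simp only [tr_apply, red]
  rw [mul_right_comm (s x y) (s x y1), mul_right_comm (s x y) (s x y2)]
  simp only [and_comm]

/-- The reduced graph is cubic: `x1` loses `y` and gets `y1`, `y1` loses `x` and gets `x1`, etc.; the new entries were `0`
in `s` (`s11`, `s22`), and the values are `±1`. -/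
theorem red_cubic {s : A → B → ℤ} (hc : Cubic s) {x : A} {y : B} {x1 x2 : A} {y1 y2 : B}
    (h : EdgeData s x y x1 x2 y1 y2) : Cubic (red s x y x1 x2 y1 y2) := by
  obtain ⟨hp1, hp2⟩ := Red1_pm hc h
  refine ⟨?_, Red1_row hc h, ?_⟩
  · intro a b
    unfold red
    split_ifs
    · right
      rcases hp1 with e | e <;> rw [e] <;> norm_num
    · right
      rcases hp2 with e | e <;> rw [e] <;> norm_num
    · exact hc.val _ _
  · intro b
    have h1 := Red1_row hc.tr (Red1_tr h) b
    rw [← Red1_red_tr, nbA_tr] at h1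
    exact h1

/-- Number of negative edges of the reduced graph. -/
theorem neg_red_card {s : A → B → ℤ} (hc : Cubic s) {x : A} {y : B} {x1 x2 : A} {y1 y2 : B}
    (h : EdgeData s x y x1 x2 y1 y2) :
    (neg (red s x y x1 x2 y1 y2)).card = ((neg s).filter fun p => p.1 ≠ x ∧ p.2 ≠ y).card
      + (if s x y * s x y1 * s x1 y = 1 then 1 else 0) + (if s x y * s x y2 * s x2 y = 1 then 1 else 0) := by
  have himg : (neg (red s x y x1 x2 y1 y2)).map
        (Function.Embedding.prodMap (Function.Embedding.subtype _) (Function.Embedding.subtype _))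
      = (((neg s).filter fun p => p.1 ≠ x ∧ p.2 ≠ y)
          ∪ (if s x y * s x y1 * s x1 y = 1 then {(x1, y1)} else ∅))
          ∪ (if s x y * s x y2 * s x2 y = 1 then {(x2, y2)} else ∅) := by
    ext ⟨a, b⟩
    simp only [mem_map, mem_neg, mem_union, mem_filter]
    constructor
    · rintro ⟨⟨⟨a', ha⟩, ⟨b', hb⟩⟩, h1, h2⟩
      simp only [Function.Embedding.prodMap, Function.Embedding.subtype_apply, Function.Embedding.coeFn_mk,
        Prod.map_apply, Prod.mk.injEq] at h2
      obtain ⟨rfl, rfl⟩ := h2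
      unfold red at h1
      simp only at h1
      by_cases c1 : a' = x1 ∧ b' = y1
      · rw [if_pos c1] at h1
        left; right
        rw [if_pos (by linarith), c1.1, c1.2]
        exact mem_singleton_self _
      · rw [if_neg c1] at h1
        by_cases c2 : a' = x2 ∧ b' = y2
        · rw [if_pos c2] at h1
          right
          rw [if_pos (by linarith), c2.1, c2.2]
          exact mem_singleton_self _
        · rw [if_neg c2] at h1
          left; left
          exact ⟨h1, ha, hb⟩
    · rintro ((h1 | h1) | h1)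
      · obtain ⟨h1, ha, hb⟩ := h1
        refine ⟨(⟨a, ha⟩, ⟨b, hb⟩), ?_, rfl⟩
        unfold red
        simp only
        rw [if_neg, if_neg]
        · exact h1
        · rintro ⟨rfl, rfl⟩
          rw [h.s22] at h1
          norm_num at h1
        · rintro ⟨rfl, rfl⟩
          rw [h.s11] at h1
          norm_num at h1
      · split_ifs at h1 with c
        · rw [mem_singleton, Prod.mk.injEq] at h1
          obtain ⟨rfl, rfl⟩ := h1
          refine ⟨(⟨a, h.xx1.symm⟩, ⟨b, h.yy1.symm⟩), ?_, rfl⟩
          unfold red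
          simp only
          rw [if_pos ⟨by trivial, by trivial⟩, c]
        · simp at h1
      · split_ifs at h1 with c
        · rw [mem_singleton, Prod.mk.injEq] at h1
          obtain ⟨rfl, rfl⟩ := h1
          refine ⟨(⟨a, h.xx2.symm⟩, ⟨b, h.yy2.symm⟩), ?_, rfl⟩
          unfold red
          simp only
          rw [if_neg (fun hh => h.x12 hh.1.symm), if_pos ⟨by trivial, by trivial⟩, c]
        · simp at h1
  have hcard := congrArg Finset.card himg
  rw [card_map] at hcard
  rw [hcard, card_union_of_disjoint, card_union_of_disjoint]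
  · congr 1
    · congr 1
      split_ifs <;> simp
    · split_ifs <;> simp
  · split_ifs
    · rw [disjoint_singleton_right, mem_filter, mem_neg]
      rintro ⟨h1, -⟩
      rw [h.s11] at h1
      norm_num at h1
    · exact disjoint_empty_right _
  · split_ifs with c1 c2 c2
    · rw [disjoint_singleton_right, mem_union, mem_filter, mem_neg]
      rintro (⟨h1, -⟩ | h1)
      · rw [h.s22] at h1
        norm_num at h1
      · rw [mem_singleton, Prod.mk.injEq] at h1
        exact h.x12 h1.1.symm
    · exact disjoint_empty_right _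
    · rw [disjoint_singleton_right, union_empty, mem_filter, mem_neg]
      rintro ⟨h1, -⟩
      rw [h.s22] at h1
      norm_num at h1
    · exact disjoint_empty_right _

lemma red_card {x : A} : Fintype.card {a : A // a ≠ x} = Fintype.card A - 1 := by
  simp

end MCC
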