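import Pool.Agent.Lib_MP_cb5629.RedDefs

set_option linter.unusedSectionVars false

namespace MCC

open Finset

variable {A B : Type} [Fintype A] [Fintype B] [DecidableEq A] [DecidableEq B]

private lemma Red2_swap {s : A → B → ℤ} {x : A} {y : B} {x1 x2 : A} {y1 y2 : B}
    (h : EdgeData s x y x1 x2 y1 y2) : EdgeData s x y x2 x1 y2 y1 where
  xy := h.xy
  nx := by rw [h.nx, Finset.pair_comm]
  ny := by rw [h.ny, Finset.pair_comm]
  yy1 := h.yy2
  yy2 := h.yy1
  y12 := h.y12.symm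
  xx1 := h.xx2
  xx2 := h.xx1
  x12 := h.x12.symm
  s11 := h.s22
  s12 := h.s21
  s21 := h.s12
  s22 := h.s11

private lemma Red2_core {s : A → B → ℤ} (hc : Cubic s) (hb : Brace s) {x : A} {y : B} {x1 x2 : A} {y1 y2 : B}
    (h : EdgeData s x y x1 x2 y1 y2) (S : Finset A) (N' : Finset B) (hx : x ∉ S) (h1 : x1 ∈ S) (h2 : x2 ∉ S)
    (hN : ∀ b, b ∈ N' ↔ b ≠ y ∧ (b ∈ NA s S ∨ b = y1)) (hSn : S.card + 3 ≤ Fintype.card A)
    (hlt : N'.card ≤ S.card + 1) : BadSet s x x1 x2 y1 y2 S := by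
  classical
  have hy : y ∈ NA s S := by
    rw [mem_NA]
    refine ⟨x1, h1, ?_⟩
    have : x1 ∈ nbB s y := by rw [h.ny]; simp
    exact mem_nbB.1 this
  have hge : S.card + 2 ≤ (NA s S).card := hb.hall S ⟨x1, h1⟩ (by omega)
  have hsub : (NA s S).erase y ⊆ N' := by
    intro b hbm
    rw [mem_erase] at hbm
    exact (hN b).2 ⟨hbm.1, Or.inl hbm.2⟩
  have hce : ((NA s S).erase y).card + 1 = (NA s S).card := card_erase_add_one hy
  have hle := card_le_card hsub
  have htight : (NA s S).card = S.card + 2 := by omega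
  have heq : (NA s S).erase y = N' := eq_of_subset_of_card_le hsub (by omega)
  have hy1 : y1 ∈ NA s S := by
    have : y1 ∈ N' := (hN y1).2 ⟨h.yy1.symm, Or.inr rfl⟩
    rw [← heq] at this
    exact mem_of_mem_erase this
  have hy2 : y2 ∉ NA s S := by
    intro hy2
    have hins : NA s (insert x S) = NA s S := by
      rw [NA_insert, h.nx, union_eq_right]
      intro b hbm
      simp only [mem_insert, mem_singleton] at hbm
      rcases hbm with rfl | rfl | rfl
      exacts [hy, hy1, hy2]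
    have hcard : (insert x S).card = S.card + 1 := card_insert_of_notMem hx
    have := hb.hall (insert x S) ⟨x, mem_insert_self _ _⟩ (by omega)
    rw [hins] at this
    omega
  refine ⟨h1, hx, h2, htight, hy1, hy2, ?_, ?_⟩
  · by_contra hlow
    have hpos : 0 < S.card := card_pos.2 ⟨x1, h1⟩
    have h1c : S.card = 1 := by omega
    obtain ⟨a, ha⟩ := card_eq_one.1 h1c
    rw [ha, mem_singleton] at h1
    subst h1
    rw [ha, NA_singleton, mem_nbA] at hy1
    exact hy1 h.s11
  · by_contra hup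
    have hcard : (univ \ S).card = Fintype.card A - S.card := by
      rw [card_sdiff_of_subset (subset_univ _), card_univ]
    have hsub2 : nbB s y2 ⊆ univ \ S := by
      intro a ha
      rw [mem_sdiff]
      exact ⟨mem_univ _, fun haS => hy2 (mem_NA.2 ⟨a, haS, mem_nbB.1 ha⟩)⟩
    have h3 := hc.col y2
    have heq2 : nbB s y2 = univ \ S := eq_of_subset_of_card_le hsub2 (by omega)
    have : x2 ∈ nbB s y2 := by
      rw [heq2, mem_sdiff]
      exact ⟨mem_univ _, h2⟩
    exact (mem_nbB.1 this) h.s22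

/-- Piece RED2 ((1.2) of the paper text). The reduced graph is a brace unless there is a bad set.

Proof. Let `S` be a nonempty set of rows `≠ x` with `|S| ≤ n - 3` and `|N'(S)| ≤ |S| + 1` (`N'` in the reduced graph, everything
regarded as subsets of `A`, `B`). (1) `x1, x2 ∉ S`: `N'(S) = N(S)` (no element of `S` is adjacent to `y`), against the brace property.
(2) `x1, x2 ∈ S`: `N'(S) = N(S) \ {y} ∪ {y1,y2}`. `T := B \ {y} \ N'(S)` has `|T| = n - 1 - |N'(S)| ≥ n - 2 - |S| ≥ 1`, it contains neither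
`y1` nor `y2`, so `x ∉ N(T)`, and `N(T) ∩ S = ∅`; dual brace (`Brace.tr`): `|T| + 2 ≤ |N(T)| ≤ n - 1 - |S|`: contradiction.
(3) exactly one, say `x1 ∈ S` (else exchange `(x1,y1)` and `(x2,y2)`: the function `red` is symmetric under this exchange):
`N'(S) = N(S) \ {y} ∪ {y1}` and `y ∈ N(S)`, so `|N'(S)| = |N(S)| - 1 + [y1 ∉ N(S)] ≤ |S| + 1` and `|N(S)| ≥ |S| + 2` give
`|N(S)| = |S| + 2` and `y1 ∈ N(S)`. `y2 ∉ N(S)`: otherwise `N(S ∪ {x}) = N(S)` has `|S ∪ {x}| + 1` elements, `|S ∪ {x}| ≤ n - 2`. `|S| ≥ 2`: `S = {x1}` would give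
`x1 ~ y1`. `|S| ≤ n - 4`: if `|S| = n - 3`, then `B \ N(S)` has exactly one element, which is `y2`, all three neighbours of `y2` are in
`A \ S`, which has three elements and contains `x`, `x2`: so `x2 ~ y2`, against `s22`. -/
theorem red_brace {s : A → B → ℤ} (hc : Cubic s) (hb : Brace s) {x : A} {y : B} {x1 x2 : A} {y1 y2 : B}
    (h : EdgeData s x y x1 x2 y1 y2) (h5 : 5 ≤ Fintype.card A) (h1 : ∀ S, ¬ BadSet s x x1 x2 y1 y2 S)
    (h2 : ∀ S, ¬ BadSet s x x2 x1 y2 y1 S) : Brace (red s x y x1 x2 y1 y2) := by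
  classical
  have hcardA : Fintype.card {a : A // a ≠ x} = Fintype.card A - 1 := by simp
  have hxy1 : s x y1 ≠ 0 := by
    have : y1 ∈ nbA s x := by rw [h.nx]; simp
    exact mem_nbA.1 this
  have hxy2 : s x y2 ≠ 0 := by
    have : y2 ∈ nbA s x := by rw [h.nx]; simp
    exact mem_nbA.1 this
  have hx1y : s x1 y ≠ 0 := by
    have : x1 ∈ nbB s y := by rw [h.ny]; simp
    exact mem_nbB.1 this
  have hx2y : s x2 y ≠ 0 := by
    have : x2 ∈ nbB s y := by rw [h.ny]; simp
    exact mem_nbB.1 this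
  refine ⟨by rw [hcardA]; omega, ?_⟩
  intro S' hS' hcard
  rw [hcardA] at hcard
  by_contra hlt
  push Not at hlt
  set S : Finset A := S'.map (Function.Embedding.subtype _) with hS
  set N' : Finset B := (NA (red s x y x1 x2 y1 y2) S').map (Function.Embedding.subtype _) with hN'
  have hSc : S.card = S'.card := card_map _
  have hNc : N'.card = (NA (red s x y x1 x2 y1 y2) S').card := card_map _
  have hmemS : ∀ a, a ∈ S ↔ ∃ ha : a ≠ x, (⟨a, ha⟩ : {a : A // a ≠ x}) ∈ S' := by
    intro a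
    rw [hS, mem_map]
    constructor
    · rintro ⟨⟨a', ha'⟩, hm, rfl⟩
      exact ⟨ha', hm⟩
    · rintro ⟨ha, hm⟩
      exact ⟨⟨a, ha⟩, hm, rfl⟩
  have hxS : x ∉ S := by
    intro hh
    obtain ⟨ha, -⟩ := (hmemS x).1 hh
    exact ha rfl
  have hred : ∀ (a : A) (ha : a ≠ x) (b : B) (hb : b ≠ y), red s x y x1 x2 y1 y2 ⟨a, ha⟩ ⟨b, hb⟩ ≠ 0 ↔
      (s a b ≠ 0 ∨ (a = x1 ∧ b = y1) ∨ (a = x2 ∧ b = y2)) := by
    intro a ha b hb'
    unfold red
    by_cases c1 : a = x1 ∧ b = y1
    · simp only [c1, and_self, if_true, true_or, or_true, iff_true]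
      exact neg_ne_zero.2 (mul_ne_zero (mul_ne_zero h.xy hxy1) hx1y)
    · by_cases c2 : a = x2 ∧ b = y2
      · simp only [if_neg c1, if_pos c2]
        simp only [c2, and_self, or_true, iff_true]
        exact neg_ne_zero.2 (mul_ne_zero (mul_ne_zero h.xy hxy2) hx2y)
      · simp only [if_neg c1, if_neg c2]
        tauto
  have hmemN : ∀ b, b ∈ N' ↔ b ≠ y ∧ (b ∈ NA s S ∨ (x1 ∈ S ∧ b = y1) ∨ (x2 ∈ S ∧ b = y2)) := by
    intro b
    rw [hN', mem_map]
    constructor
    · rintro ⟨⟨b', hb'⟩, hm, rfl⟩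
      rw [mem_NA] at hm
      obtain ⟨⟨a, ha⟩, haS, hab⟩ := hm
      refine ⟨hb', ?_⟩
      have haS' : a ∈ S := (hmemS a).2 ⟨ha, haS⟩
      rcases (hred a ha b' hb').1 hab with h' | ⟨h', h''⟩ | ⟨h', h''⟩
      · exact Or.inl (mem_NA.2 ⟨a, haS', h'⟩)
      · exact Or.inr (Or.inl ⟨h' ▸ haS', h''⟩)
      · exact Or.inr (Or.inr ⟨h' ▸ haS', h''⟩)
    · rintro ⟨hb', hm⟩
      refine ⟨⟨b, hb'⟩, ?_, rfl⟩
      rw [mem_NA]
      rcases hm with hm | ⟨hm, hm'⟩ | ⟨hm, hm'⟩
      · obtain ⟨a, haS, hab⟩ := mem_NA.1 hm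
        obtain ⟨ha, haS'⟩ := (hmemS a).1 haS
        exact ⟨⟨a, ha⟩, haS', (hred a ha b hb').2 (Or.inl hab)⟩
      · obtain ⟨ha, haS'⟩ := (hmemS x1).1 hm
        exact ⟨⟨x1, ha⟩, haS', (hred x1 ha b hb').2 (Or.inr (Or.inl ⟨rfl, hm'⟩))⟩
      · obtain ⟨ha, haS'⟩ := (hmemS x2).1 hm
        exact ⟨⟨x2, ha⟩, haS', (hred x2 ha b hb').2 (Or.inr (Or.inr ⟨rfl, hm'⟩))⟩
  have hSne : S.Nonempty := by
    rw [hS]; exact hS'.map
  have hlt' : N'.card < S.card + 2 := by rw [hNc, hSc]; exact hlt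
  by_cases c1 : x1 ∈ S <;> by_cases c2 : x2 ∈ S
  · -- both
    have hy1N : y1 ∈ N' := (hmemN y1).2 ⟨h.yy1.symm, Or.inr (Or.inl ⟨c1, rfl⟩)⟩
    have hy2N : y2 ∈ N' := (hmemN y2).2 ⟨h.yy2.symm, Or.inr (Or.inr ⟨c2, rfl⟩)⟩
    have hyN : y ∉ N' := fun hh => ((hmemN y).1 hh).1 rfl
    set T : Finset B := univ \ insert y N' with hT
    have hins : (insert y N').card = N'.card + 1 := card_insert_of_notMem hyN
    have hTc : T.card = Fintype.card B - (N'.card + 1) := by
      rw [hT, card_sdiff_of_subset (subset_univ _), card_univ, hins]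
    have hAB := hc.card_eq
    have hTne : T.Nonempty := by
      rw [← card_pos]; omega
    have hN2 : 2 ≤ N'.card := by
      rw [← card_pair h.y12]
      apply card_le_card
      intro b hbm
      simp only [mem_insert, mem_singleton] at hbm
      rcases hbm with rfl | rfl
      exacts [hy1N, hy2N]
    have hall := (Brace.tr hc hb).hall T hTne (by omega)
    rw [NA_tr] at hall
    have hsub : NB s T ⊆ univ \ insert x S := by
      intro a ha
      rw [mem_sdiff]
      refine ⟨mem_univ _, ?_⟩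
      obtain ⟨b, hbT, hab⟩ := mem_NB.1 ha
      rw [hT, mem_sdiff, mem_insert, not_or] at hbT
      rw [mem_insert, not_or]
      constructor
      · rintro rfl
        have : b ∈ nbA s a := mem_nbA.2 hab
        rw [h.nx] at this
        simp only [mem_insert, mem_singleton] at this
        rcases this with rfl | rfl | rfl
        · exact hbT.2.1 rfl
        · exact hbT.2.2 hy1N
        · exact hbT.2.2 hy2N
      · intro haS
        exact hbT.2.2 ((hmemN b).2 ⟨hbT.2.1, Or.inl (mem_NA.2 ⟨a, haS, hab⟩)⟩)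
    have hle := card_le_card hsub
    rw [card_sdiff_of_subset (subset_univ _), card_univ, card_insert_of_notMem hxS] at hle
    omega
  · -- only x1
    refine h1 S (Red2_core hc hb h S N' hxS c1 c2 ?_ (by omega) (by omega))
    intro b
    rw [hmemN b]
    simp [c1, c2]
  · -- only x2
    refine h2 S (Red2_core hc hb (Red2_swap h) S N' hxS c2 c1 ?_ (by omega) (by omega))
    intro b
    rw [hmemN b]
    simp [c1, c2]
  · -- none
    have hNeq : N' = NA s S := by
      ext b
      rw [hmemN b]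
      simp only [c1, c2, false_and, or_false]
      constructor
      · exact fun hh => hh.2
      · intro hh
        refine ⟨?_, hh⟩
        rintro rfl
        obtain ⟨a, haS, hab⟩ := mem_NA.1 hh
        have : a ∈ nbB s b := mem_nbB.2 hab
        rw [h.ny] at this
        simp only [mem_insert, mem_singleton] at this
        rcases this with rfl | rfl | rfl
        exacts [hxS haS, c1 haS, c2 haS]
    have := hb.hall S hSne (by omega)
    rw [hNeq] at hlt'
    omega

end MCC
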