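import Pool.Agent.Lib_MP_cb5629.Red1
import Pool.Agent.Lib_MP_cb5629.SPL
import Pool.Agent.Lib_MP_cb5629.Tools

set_option linter.unusedSectionVars false

namespace MCC

open Finset

variable {A B : Type} [Fintype A] [Fintype B] [DecidableEq A] [DecidableEq B]

/-- the reduced graph on the full vertex sets (without removing `x`, `y`) -/
def Red3_s1 (s : A → B → ℤ) (x : A) (y : B) (x1 x2 : A) (y1 y2 : B) : A → B → ℤ :=
  fun a b => if a = x1 ∧ b = y1 then -(s x y * s x y1 * s x1 y)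
    else if a = x2 ∧ b = y2 then -(s x y * s x y2 * s x2 y) else s a b

lemma Red3_red_eq (s : A → B → ℤ) (x : A) (y : B) (x1 x2 : A) (y1 y2 : B) (a : {a : A // a ≠ x})
    (b : {b : B // b ≠ y}) : red s x y x1 x2 y1 y2 a b = Red3_s1 s x y x1 x2 y1 y2 a.1 b.1 := rfl

lemma Red3_s1_symm (s : A → B → ℤ) (x : A) (y : B) {x1 x2 : A} (hx : x1 ≠ x2) (y1 y2 : B) :
    Red3_s1 s x y x1 x2 y1 y2 = Red3_s1 s x y x2 x1 y2 y1 := by
  funext a b
  unfold Red3_s1
  by_cases h1 : a = x1 ∧ b = y1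
  · rw [if_pos h1, if_neg (fun h2 => hx (h1.1.symm.trans h2.1)), if_pos h1]
  · rw [if_neg h1]
    by_cases h2 : a = x2 ∧ b = y2
    · rw [if_pos h2, if_pos h2]
    · rw [if_neg h2, if_neg h2, if_neg h1]

/-- extension of a bijection of the vertices `≠ x`, `≠ y` by `x ↦ y` -/
def Red3_ext {x : A} {y : B} (σ : {a : A // a ≠ x} ≃ {b : B // b ≠ y}) : A ≃ B where
  toFun a := if h : a = x then y else (σ ⟨a, h⟩).1
  invFun b := if h : b = y then x else (σ.symm ⟨b, h⟩).1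
  left_inv a := by
    by_cases h : a = x
    · simp [h]
    · have h2 : (σ ⟨a, h⟩).1 ≠ y := (σ ⟨a, h⟩).2
      simp [h, h2]
  right_inv b := by
    by_cases h : b = y
    · simp [h]
    · have h2 : (σ.symm ⟨b, h⟩).1 ≠ x := (σ.symm ⟨b, h⟩).2
      simp [h, h2]

lemma Red3_ext_x {x : A} {y : B} (σ : {a : A // a ≠ x} ≃ {b : B // b ≠ y}) : Red3_ext σ x = y := by
  simp [Red3_ext]

lemma Red3_ext_ne {x : A} {y : B} (σ : {a : A // a ≠ x} ≃ {b : B // b ≠ y}) (a : {a : A // a ≠ x}) :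
    Red3_ext σ a.1 = (σ a).1 := by
  simp [Red3_ext, a.2]

lemma Red3_sign {x : A} {y : B} (σ τ : {a : A // a ≠ x} ≃ {b : B // b ≠ y}) :
    Equiv.Perm.sign ((Red3_ext σ).trans (Red3_ext τ).symm) = Equiv.Perm.sign (σ.trans τ.symm) := by
  have h : (Red3_ext σ).trans (Red3_ext τ).symm = Equiv.Perm.ofSubtype (σ.trans τ.symm : Equiv.Perm {a : A // a ≠ x}) := by
    ext a
    rw [Equiv.trans_apply, Equiv.symm_apply_eq]
    by_cases ha : a = x
    · subst ha
      rw [Equiv.Perm.ofSubtype_apply_of_not_mem (p := fun a' => a' ≠ a) (σ.trans τ.symm : Equiv.Perm {a' : A // a' ≠ a}) (fun h => h rfl),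
        Red3_ext_x, Red3_ext_x]
    · rw [Equiv.Perm.ofSubtype_apply_of_mem (p := fun a' => a' ≠ x) _ ha, Red3_ext_ne τ]
      have h3 := Red3_ext_ne σ ⟨a, ha⟩
      simp only at h3
      rw [h3]
      simp
  rw [h, Equiv.Perm.sign_ofSubtype]

lemma Red3_relSign (s : A → B → ℤ) {x : A} {y : B} {x1 x2 : A} {y1 y2 : B} (h : EdgeData s x y x1 x2 y1 y2)
    (hxy : s x y * s x y = 1) (σ τ : {a : A // a ≠ x} ≃ {b : B // b ≠ y}) :
    relSign (red s x y x1 x2 y1 y2) univ σ τ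
      = relSign (Red3_s1 s x y x1 x2 y1 y2) univ (Red3_ext σ) (Red3_ext τ) := by
  unfold relSign
  rw [Red3_sign]
  congr 1
  rw [Fintype.prod_eq_mul_prod_subtype_ne _ x, Red3_ext_x, Red3_ext_x]
  have h1 : Red3_s1 s x y x1 x2 y1 y2 x y = s x y := by
    unfold Red3_s1
    rw [if_neg (fun hh => h.xx1 hh.1), if_neg (fun hh => h.xx2 hh.1)]
  rw [h1, hxy, one_mul]
  apply Finset.prod_congr rfl
  intro a _
  rw [Red3_ext_ne, Red3_ext_ne, Red3_red_eq, Red3_red_eq]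

/-- the value of a matching relative to `ρ` -/
def Red3_V (s t : A → B → ℤ) (ρ σ : A ≃ B) : ℤ :=
  (Equiv.Perm.sign (ρ.trans σ.symm) : ℤ) * ∏ a, (s a (ρ a) * t a (σ a))

lemma Red3_V_mul (s t : A → B → ℤ) (ρ σ τ : A ≃ B) (hρ : ∀ a, s a (ρ a) * s a (ρ a) = 1) :
    Red3_V s t ρ σ * Red3_V s t ρ τ = relSign t univ σ τ := by
  unfold Red3_V relSign
  have h1 : (σ.trans τ.symm : Equiv.Perm A) = (ρ.trans τ.symm : Equiv.Perm A) * (ρ.trans σ.symm : Equiv.Perm A)⁻¹ := by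
    ext a
    rw [Equiv.Perm.mul_apply]
    change τ.symm (σ a) = τ.symm (ρ ((ρ.trans σ.symm).symm a))
    simp
  have h2 : (Equiv.Perm.sign (σ.trans τ.symm) : ℤ)
      = (Equiv.Perm.sign (ρ.trans σ.symm) : ℤ) * (Equiv.Perm.sign (ρ.trans τ.symm) : ℤ) := by
    rw [h1, Equiv.Perm.sign_mul, Equiv.Perm.sign_inv]
    push_cast
    ring
  rw [h2]
  have h3 : ∏ a, (t a (σ a) * t a (τ a))
      = (∏ a, (s a (ρ a) * t a (σ a))) * ∏ a, (s a (ρ a) * t a (τ a)) := by
    rw [← Finset.prod_mul_distrib]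
    apply Finset.prod_congr rfl
    intro a _
    calc t a (σ a) * t a (τ a) = (s a (ρ a) * s a (ρ a)) * (t a (σ a) * t a (τ a)) := by rw [hρ a, one_mul]
      _ = _ := by ring
  rw [h3]
  ring

lemma Red3_relSign_self (t : A → B → ℤ) (σ : A ≃ B) (h : ∀ a, t a (σ a) * t a (σ a) = 1) :
    relSign t univ σ σ = 1 := by
  unfold relSign
  rw [Equiv.self_trans_symm, Finset.prod_congr rfl (fun a _ => h a)]
  simp

lemma Red3_V_swap (s t t' : A → B → ℤ) (ρ σ : A ≃ B) {u v : A} (huv : u ≠ v) (c : ℤ)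
    (h1 : t' u (σ v) * t' v (σ u) = -c * (t u (σ u) * t v (σ v)))
    (h2 : ∀ a, a ≠ u → a ≠ v → t' a (σ a) = t a (σ a)) :
    Red3_V s t' ρ ((Equiv.swap u v).trans σ) = c * Red3_V s t ρ σ := by
  unfold Red3_V
  have hs : (ρ.trans ((Equiv.swap u v).trans σ).symm : Equiv.Perm A)
      = Equiv.swap u v * (ρ.trans σ.symm : Equiv.Perm A) := by
    ext a
    rw [Equiv.Perm.mul_apply]
    simp
  rw [hs, Equiv.Perm.sign_mul, Equiv.Perm.sign_swap huv, Finset.prod_mul_distrib, Finset.prod_mul_distrib]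
  have e1 : ∏ a, t' a (((Equiv.swap u v).trans σ) a) = t' u (σ v) * (t' v (σ u) *
      ∏ a ∈ (univ.erase u).erase v, t' a (σ a)) := by
    rw [← Finset.mul_prod_erase univ _ (Finset.mem_univ u),
      ← Finset.mul_prod_erase (univ.erase u) _ (Finset.mem_erase.2 ⟨huv.symm, Finset.mem_univ v⟩)]
    congr 1
    · simp
    · congr 1
      · simp
      · apply Finset.prod_congr rfl
        intro a ha
        rw [Finset.mem_erase, Finset.mem_erase] at ha
        rw [Equiv.trans_apply, Equiv.swap_apply_of_ne_of_ne ha.2.1 ha.1]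
  have e2 : ∏ a, t a (σ a) = t u (σ u) * (t v (σ v) * ∏ a ∈ (univ.erase u).erase v, t a (σ a)) := by
    rw [← Finset.mul_prod_erase univ _ (Finset.mem_univ u),
      ← Finset.mul_prod_erase (univ.erase u) _ (Finset.mem_erase.2 ⟨huv.symm, Finset.mem_univ v⟩)]
  have e3 : ∏ a ∈ (univ.erase u).erase v, t' a (σ a) = ∏ a ∈ (univ.erase u).erase v, t a (σ a) := by
    apply Finset.prod_congr rfl
    intro a ha
    rw [Finset.mem_erase, Finset.mem_erase] at ha
    exact h2 a ha.2.1 ha.1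
  rw [e1, e2, e3, ← mul_assoc (t' u (σ v)), h1]
  push_cast
  ring

lemma Red3_sq {s : A → B → ℤ} (hval : ∀ a b, s a b = 0 ∨ s a b = 1 ∨ s a b = -1) {a : A} {b : B}
    (h : s a b ≠ 0) : s a b * s a b = 1 := by
  rcases hval a b with h0 | h0 | h0
  · exact absurd h0 h
  · rw [h0]; rfl
  · rw [h0]; rfl

lemma Red3_s1_x {s : A → B → ℤ} {x : A} {y : B} {x1 x2 : A} {y1 y2 : B} (h : EdgeData s x y x1 x2 y1 y2) (b : B) :
    Red3_s1 s x y x1 x2 y1 y2 x b = s x b := by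
  unfold Red3_s1
  rw [if_neg (fun hh => h.xx1 hh.1), if_neg (fun hh => h.xx2 hh.1)]

lemma Red3_s1_1 (s : A → B → ℤ) (x : A) (y : B) (x1 x2 : A) (y1 y2 : B) :
    Red3_s1 s x y x1 x2 y1 y2 x1 y1 = -(s x y * s x y1 * s x1 y) := by
  unfold Red3_s1
  rw [if_pos ⟨rfl, rfl⟩]

lemma Red3_s1_2 (s : A → B → ℤ) (x : A) (y : B) {x1 x2 : A} (hx : x1 ≠ x2) (y1 y2 : B) :
    Red3_s1 s x y x1 x2 y1 y2 x2 y2 = -(s x y * s x y2 * s x2 y) := by
  unfold Red3_s1
  rw [if_neg (fun hh => hx hh.1.symm), if_pos ⟨rfl, rfl⟩]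

/-- the entries used by a matching of the reduced graph are units -/
lemma Red3_s1_sq {s : A → B → ℤ} (hval : ∀ a b, s a b = 0 ∨ s a b = 1 ∨ s a b = -1) {x : A} {y : B} {x1 x2 : A}
    {y1 y2 : B} (h : EdgeData s x y x1 x2 y1 y2) {a : A} {b : B} (hab : Red3_s1 s x y x1 x2 y1 y2 a b ≠ 0) :
    Red3_s1 s x y x1 x2 y1 y2 a b * Red3_s1 s x y x1 x2 y1 y2 a b = 1 := by
  have hy1 : s x y1 ≠ 0 := mem_nbA.1 (by rw [h.nx]; simp)
  have hy2 : s x y2 ≠ 0 := mem_nbA.1 (by rw [h.nx]; simp)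
  have hx1 : s x1 y ≠ 0 := mem_nbB.1 (by rw [h.ny]; simp)
  have hx2 : s x2 y ≠ 0 := mem_nbB.1 (by rw [h.ny]; simp)
  have q := Red3_sq hval h.xy
  have q1 := Red3_sq hval hy1
  have q2 := Red3_sq hval hy2
  have p1 := Red3_sq hval hx1
  have p2 := Red3_sq hval hx2
  by_cases h1 : a = x1 ∧ b = y1
  · rw [h1.1, h1.2, Red3_s1_1]
    calc -(s x y * s x y1 * s x1 y) * -(s x y * s x y1 * s x1 y)
        = (s x y * s x y) * (s x y1 * s x y1) * (s x1 y * s x1 y) := by ring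
      _ = 1 := by rw [q, q1, p1]; norm_num
  · by_cases h2 : a = x2 ∧ b = y2
    · rw [h2.1, h2.2, Red3_s1_2 s x y h.x12]
      calc -(s x y * s x y2 * s x2 y) * -(s x y * s x y2 * s x2 y)
          = (s x y * s x y) * (s x y2 * s x y2) * (s x2 y * s x2 y) := by ring
        _ = 1 := by rw [q, q2, p2]; norm_num
    · have h3 : Red3_s1 s x y x1 x2 y1 y2 a b = s a b := by
        unfold Red3_s1
        rw [if_neg h1, if_neg h2]
      rw [h3] at hab ⊢
      exact Red3_sq hval hab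

/-- a matching that uses `x1 y1` but not `x2 y2` has value `1` -/
lemma Red3_V_one {s : A → B → ℤ} (hval : ∀ a b, s a b = 0 ∨ s a b = 1 ∨ s a b = -1) (hs : SameSign s) {x : A} {y : B}
    {x1 x2 : A} {y1 y2 : B} (h : EdgeData s x y x1 x2 y1 y2) {ρ : A ≃ B} (hρ : IsPM s ρ) {σ : A ≃ B} (hx : σ x = y)
    (hσ : ∀ a, Red3_s1 s x y x1 x2 y1 y2 a (σ a) ≠ 0) (h1 : σ x1 = y1) (h2 : σ x2 ≠ y2) :
    Red3_V s (Red3_s1 s x y x1 x2 y1 y2) ρ σ = 1 := by
  have hy1 : s x y1 ≠ 0 := mem_nbA.1 (by rw [h.nx]; simp)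
  have hx1 : s x1 y ≠ 0 := mem_nbB.1 (by rw [h.ny]; simp)
  have q := Red3_sq hval h.xy
  have hoth : ∀ a, a ≠ x → a ≠ x1 → s a (σ a) = Red3_s1 s x y x1 x2 y1 y2 a (σ a) := by
    intro a _ ha1
    unfold Red3_s1
    rw [if_neg (fun hh => ha1 hh.1), if_neg]
    rintro ⟨rfl, hh⟩
    exact h2 hh
  have e := Red3_V_swap s (Red3_s1 s x y x1 x2 y1 y2) s ρ σ h.xx1 1 (by
    rw [h1, hx, Red3_s1_x h, Red3_s1_1]
    calc s x y1 * s x1 y = (s x y * s x y) * (s x y1 * s x1 y) := by rw [q, one_mul]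
      _ = _ := by ring) hoth
  rw [one_mul] at e
  rw [← e]
  have hpm : IsPM s ((Equiv.swap x x1).trans σ) := by
    intro a
    by_cases ha : a = x
    · rw [ha, Equiv.trans_apply, Equiv.swap_apply_left, h1]; exact hy1
    · by_cases ha1 : a = x1
      · rw [ha1, Equiv.trans_apply, Equiv.swap_apply_right, hx]; exact hx1
      · rw [Equiv.trans_apply, Equiv.swap_apply_of_ne_of_ne ha ha1, hoth a ha ha1]
        exact hσ a
  exact hs.2 ρ _ hρ hpm

/-- a matching of the reduced graph that does not use both new edges has value `1` -/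
lemma Red3_V_good {s : A → B → ℤ} (hval : ∀ a b, s a b = 0 ∨ s a b = 1 ∨ s a b = -1) (hs : SameSign s) {x : A} {y : B}
    {x1 x2 : A} {y1 y2 : B} (h : EdgeData s x y x1 x2 y1 y2) {ρ : A ≃ B} (hρ : IsPM s ρ) {σ : A ≃ B} (hx : σ x = y)
    (hσ : ∀ a, Red3_s1 s x y x1 x2 y1 y2 a (σ a) ≠ 0) (hn : ¬ (σ x1 = y1 ∧ σ x2 = y2)) :
    Red3_V s (Red3_s1 s x y x1 x2 y1 y2) ρ σ = 1 := by
  by_cases h1 : σ x1 = y1
  · exact Red3_V_one hval hs h hρ hx hσ h1 (fun h2 => hn ⟨h1, h2⟩)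
  · by_cases h2 : σ x2 = y2
    · rw [Red3_s1_symm s x y h.x12] at hσ ⊢
      exact Red3_V_one hval hs h.swapx.swapy hρ hx hσ h2 h1
    · have hoth : ∀ a, Red3_s1 s x y x1 x2 y1 y2 a (σ a) = s a (σ a) := by
        intro a
        unfold Red3_s1
        rw [if_neg, if_neg]
        · rintro ⟨rfl, hh⟩
          exact h2 hh
        · rintro ⟨rfl, hh⟩
          exact h1 hh
      have hpm : IsPM s σ := fun a => by rw [← hoth a]; exact hσ a
      have e := hs.2 ρ σ hρ hpm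
      unfold relSign at e
      unfold Red3_V
      rw [← e]
      congr 1
      apply Finset.prod_congr rfl
      intro a _
      rw [hoth a]

/-- if the reduced graph is not SameSign then there is a matching using both new edges with value `-1` -/
lemma Red3_bad {s : A → B → ℤ} (hc : Cubic s) (hs : SameSign s) {x : A} {y : B}
    {x1 x2 : A} {y1 y2 : B} (h : EdgeData s x y x1 x2 y1 y2) {ρ : A ≃ B} (hρ : IsPM s ρ)
    (hn : ¬ SameSign (red s x y x1 x2 y1 y2)) :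
    ∃ σ : A ≃ B, σ x = y ∧ σ x1 = y1 ∧ σ x2 = y2 ∧ (∀ a, Red3_s1 s x y x1 x2 y1 y2 a (σ a) ≠ 0) ∧
      Red3_V s (Red3_s1 s x y x1 x2 y1 y2) ρ σ = -1 := by
  have hval := hc.val
  have hρ2 : ∀ a, s a (ρ a) * s a (ρ a) = 1 := fun a => Red3_sq hval (hρ a)
  -- general facts on a matching of the reduced graph
  have hext : ∀ σ : {a : A // a ≠ x} ≃ {b : B // b ≠ y}, IsPM (red s x y x1 x2 y1 y2) σ →
      ∀ a, Red3_s1 s x y x1 x2 y1 y2 a (Red3_ext σ a) ≠ 0 := by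
    intro σ hσ a
    by_cases ha : a = x
    · rw [ha, Red3_ext_x, Red3_s1_x h]; exact h.xy
    · have h3 := hσ ⟨a, ha⟩
      rw [Red3_red_eq, ← Red3_ext_ne] at h3
      exact h3
  by_contra hcon
  push Not at hcon
  have hall : ∀ σ : {a : A // a ≠ x} ≃ {b : B // b ≠ y}, IsPM (red s x y x1 x2 y1 y2) σ →
      Red3_V s (Red3_s1 s x y x1 x2 y1 y2) ρ (Red3_ext σ) = 1 := by
    intro σ hσ
    by_cases hb : Red3_ext σ x1 = y1 ∧ Red3_ext σ x2 = y2
    · have h4 := hcon (Red3_ext σ) (Red3_ext_x σ) hb.1 hb.2 (hext σ hσ)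
      have h5 := Red3_V_mul s (Red3_s1 s x y x1 x2 y1 y2) ρ (Red3_ext σ) (Red3_ext σ) hρ2
      rw [Red3_relSign_self _ _ (fun a => Red3_s1_sq hval h (hext σ hσ a))] at h5
      rcases mul_self_eq_one_iff.1 h5 with h6 | h6
      · exact h6
      · exact absurd h6 h4
    · exact Red3_V_good hval hs h hρ (Red3_ext_x σ) (hext σ hσ) hb
  apply hn
  refine ⟨(red_cubic hc h).exists_pm, ?_⟩
  intro σ τ hσ hτ
  rw [Red3_relSign s h (Red3_sq hval h.xy), ← Red3_V_mul s (Red3_s1 s x y x1 x2 y1 y2) ρ _ _ hρ2, hall σ hσ, hall τ hτ]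
  rfl

/-- Piece RED3 ((1.1) of the paper text). If `xy` is not of type II, one of the two reduced graphs is SNS.

Proof. `ρ` := a perfect matching of `s`; all perfect matchings of `s` have relSign `1` with `ρ` (`sameSign_of_sns`). Let `s1 : A → B → ℤ` be the
reduced graph `x1y1, x2y2` together with the isolated edge `xy` (`s1 x b = 0` for `b ≠ y`, `s1 a y = 0` for `a ≠ x`, `s1 x y = s x y`,
`s1 x1 y1 = -(s x y)(s x y1)(s x1 y)`, ...), `s2` the same for `x1y2, x2y1`. Perfect matchings of `red ...` correspond to those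
of `s1` (send `x` to `y`), with the same relative signs. For a perfect matching `σ` of `s1` let `V1 σ = sign (ρ.trans σ.symm) * ∏ a, s a (ρ a) * s1 a (σ a)`.
* `σ` uses neither `x1y1` nor `x2y2`: it is a perfect matching of `s`, `V1 σ = 1`.
* `σ` uses `x1y1`, not `x2y2`: `σ' = (swap x x1).trans σ` (so `σ' x = y1`, `σ' x1 = y`) is a perfect matching of `s`; the permutation sign
  changes by `-1`, and `s1 x y * s1 x1 y1 = - s x y1 * s x1 y`; so `V1 σ = relSign s univ ρ σ' = 1`. The same for `x2y2`.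
* `σ` uses both. Then `(swap x1 x2).trans σ` uses both new edges of `s2`, and its value `V2` is `- V1 σ`, because
  `s1 x1 y1 * s1 x2 y2 = s2 x1 y2 * s2 x2 y1`.
If `red ... y1 y2` is not SameSign, some `σ` using both new edges has `V1 σ = -1`; if `red ... y2 y1` is not SameSign, some `τ` (after the swap: a perfect
matching of `s1` using both edges) has `V1 τ = 1`. `σ` and `τ` agree on `x, x1, x2` (values `y, y1, y2`) and match all other rows along edges of `s`,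
and the product `V1 σ * V1 τ = -1` is `relSign s (univ \ nbB s y) σ τ` (the factors at `x,x1,x2` cancel): type II. So one of them is SameSign, hence
SNS by `sns_of_sameSign` (a perfect matching exists by `Cubic.exists_pm`). (The brace hypotheses are not needed.) -/
theorem red_sns {s : A → B → ℤ} (hc : Cubic s) (hs : SNS s) {x : A} {y : B} {x1 x2 : A} {y1 y2 : B}
    (h : EdgeData s x y x1 x2 y1 y2) (hT : ¬ TypeII s x y) :
    SNS (red s x y x1 x2 y1 y2) ∨ SNS (red s x y x1 x2 y2 y1) := by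
  have hval := hc.val
  have hSS : SameSign s := sameSign_of_sns hval hs hc.exists_pm
  obtain ⟨ρ, hρ⟩ := hSS.1
  have hρ2 : ∀ a, s a (ρ a) * s a (ρ a) = 1 := fun a => Red3_sq hval (hρ a)
  by_contra hcon
  push Not at hcon
  have hn1 : ¬ SameSign (red s x y x1 x2 y1 y2) := fun h1 => hcon.1 (sns_of_sameSign h1)
  have hn2 : ¬ SameSign (red s x y x1 x2 y2 y1) := fun h1 => hcon.2 (sns_of_sameSign h1)
  obtain ⟨σ, sx, sx1, sx2, hσ, Vσ⟩ := Red3_bad hc hSS h hρ hn1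
  obtain ⟨τ0, tx, tx1, tx2, hτ0, Vτ0⟩ := Red3_bad hc hSS h.swapy hρ hn2
  have hy1 : s x y1 ≠ 0 := mem_nbA.1 (by rw [h.nx]; simp)
  have hy2 : s x y2 ≠ 0 := mem_nbA.1 (by rw [h.nx]; simp)
  obtain ⟨τ, hτ⟩ : ∃ τ, τ = (Equiv.swap x1 x2).trans τ0 := ⟨_, rfl⟩
  have ux : τ x = y := by
    rw [hτ, Equiv.trans_apply, Equiv.swap_apply_of_ne_of_ne h.xx1 h.xx2, tx]
  have ux1 : τ x1 = y1 := by
    rw [hτ, Equiv.trans_apply, Equiv.swap_apply_left, tx2]
  have ux2 : τ x2 = y2 := by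
    rw [hτ, Equiv.trans_apply, Equiv.swap_apply_right, tx1]
  have hoth : ∀ (z1 z2 : B) (a : A) (b : B), a ≠ x1 → a ≠ x2 → Red3_s1 s x y x1 x2 z1 z2 a b = s a b := by
    intro z1 z2 a b h1 h2
    unfold Red3_s1
    rw [if_neg (fun hh => h1 hh.1), if_neg (fun hh => h2 hh.1)]
  have Vτ : Red3_V s (Red3_s1 s x y x1 x2 y1 y2) ρ τ = 1 := by
    have e := Red3_V_swap s (Red3_s1 s x y x1 x2 y2 y1) (Red3_s1 s x y x1 x2 y1 y2) ρ τ0 h.x12 (-1) (by
      rw [tx1, tx2, Red3_s1_1, Red3_s1_1, Red3_s1_2 s x y h.x12, Red3_s1_2 s x y h.x12]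
      ring) (fun a h1 h2 => by rw [hoth _ _ _ _ h1 h2, hoth _ _ _ _ h1 h2])
    rw [hτ, e, Vτ0]
    rfl
  have hmul := Red3_V_mul s (Red3_s1 s x y x1 x2 y1 y2) ρ σ τ hρ2
  rw [Vσ, Vτ] at hmul
  apply hT
  refine ⟨h.xy, σ, τ, ?_, ?_, ?_⟩
  · intro a ha
    rw [h.ny] at ha
    rw [h.nx]
    simp only [mem_insert, mem_singleton] at ha
    rcases ha with rfl | rfl | rfl
    · exact ⟨ux.trans sx.symm, by rw [sx]; simp⟩
    · exact ⟨ux1.trans sx1.symm, by rw [sx1]; simp⟩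
    · exact ⟨ux2.trans sx2.symm, by rw [sx2]; simp⟩
  · intro a ha
    rw [h.ny] at ha
    simp only [mem_insert, mem_singleton, not_or] at ha
    refine ⟨?_, ?_⟩
    · rw [← hoth y1 y2 a _ ha.2.1 ha.2.2]; exact hσ a
    · have h4 := hτ0 a
      rw [hoth _ _ a _ ha.2.1 ha.2.2] at h4
      rw [hτ, Equiv.trans_apply, Equiv.swap_apply_of_ne_of_ne ha.2.1 ha.2.2]
      exact h4
  · rw [show (-1 : ℤ) = -1 * 1 by norm_num, hmul]
    unfold relSign
    congr 1
    rw [← Finset.prod_sdiff (Finset.subset_univ (nbB s y))]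
    have e1 : ∏ a ∈ nbB s y, (Red3_s1 s x y x1 x2 y1 y2 a (σ a) * Red3_s1 s x y x1 x2 y1 y2 a (τ a)) = 1 := by
      apply Finset.prod_eq_one
      intro a ha
      have e2 : τ a = σ a := by
        rw [h.ny] at ha
        simp only [mem_insert, mem_singleton] at ha
        rcases ha with rfl | rfl | rfl
        · exact ux.trans sx.symm
        · exact ux1.trans sx1.symm
        · exact ux2.trans sx2.symm
      rw [e2]
      exact Red3_s1_sq hval h (hσ a)
    rw [e1, mul_one]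
    apply Finset.prod_congr rfl
    intro a ha
    have ha' : a ≠ x1 ∧ a ≠ x2 := by
      rw [mem_sdiff, h.ny] at ha
      simp only [mem_insert, mem_singleton, not_or] at ha
      exact ⟨ha.2.2.1, ha.2.2.2⟩
    rw [hoth _ _ _ _ ha'.1 ha'.2, hoth _ _ _ _ ha'.1 ha'.2]

end MCC
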