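import Pool.Agent.Lib_MP_cb5629.RedDefs

set_option linter.unusedSectionVars false

namespace MCC

open Finset

variable {A B : Type} [Fintype A] [Fintype B] [DecidableEq A] [DecidableEq B]

/-- Piece RED4a. The shore `R1 = (S, N(S) \ {y})` of type `(1,4)`, i.e. transposed of type `(4,1)`.
`|N(S) \ {y}| = |S| + 1`; the only edge from `S` to a column outside `N(S) \ {y}` is `x1 y` (the neighbours of `y` are `x, x1, x2`). -/
theorem BadSet.shore1 {s : A → B → ℤ} (hc : Cubic s) {x : A} {y : B} {x1 x2 : A} {y1 y2 : B}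
    (h : EdgeData s x y x1 x2 y1 y2) {S : Finset A} (hS : BadSet s x x1 x2 y1 y2 S) :
    Nontriv (tr s) (NA s S \ {y}) S 1 := by
  have hx1y : s x1 y ≠ 0 := by
    have : x1 ∈ nbB s y := by rw [h.ny]; simp
    exact mem_nbB.1 this
  have hy : y ∈ NA s S := mem_NA.2 ⟨x1, hS.mem, hx1y⟩
  have hcard : (NA s S \ {y}).card = S.card + 1 := by
    rw [sdiff_singleton_eq_erase, card_erase_of_mem hy, hS.tight]
    omega
  have hAB := hc.card_eq
  have hlow := hS.low
  have hupp := hS.upp
  refine { card := hcard, legs := ?_, low := by omega, upp := by omega }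
  have hl : bLegs (tr s) (NA s S \ {y}) S = {(y, x1)} := by
    ext ⟨b, a⟩
    rw [mem_bLegs, mem_singleton]
    simp only [tr_apply, mem_sdiff, mem_singleton, not_and, not_not, Prod.mk.injEq]
    constructor
    · rintro ⟨h1, h2, h3⟩
      have hb : b = y := h1 (mem_NA.2 ⟨a, h2, h3⟩)
      subst hb
      refine ⟨rfl, ?_⟩
      have h4 : a ∈ nbB s b := mem_nbB.2 h3
      rw [h.ny] at h4
      simp only [mem_insert, mem_singleton] at h4
      rcases h4 with h4 | h4 | h4
      · exact absurd (h4 ▸ h2) hS.nx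
      · exact h4
      · exact absurd (h4 ▸ h2) hS.nx2
    · rintro ⟨rfl, rfl⟩
      exact ⟨fun _ => rfl, hS.mem, hx1y⟩
  rw [hl, card_singleton]

/-- Piece RED4b. The shore `R2 = (A \ S \ {x}, B \ N(S))` of type `(4,1)`. The only edge from `B \ N(S)` to `S ∪ {x}` is `x y2`. -/
theorem BadSet.shore2 {s : A → B → ℤ} (hc : Cubic s) {x : A} {y : B} {x1 x2 : A} {y1 y2 : B}
    (h : EdgeData s x y x1 x2 y1 y2) {S : Finset A} (hS : BadSet s x x1 x2 y1 y2 S) :
    Nontriv s (univ \ insert x S) (univ \ NA s S) 1 := by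
  have hx1y : s x1 y ≠ 0 := by
    have : x1 ∈ nbB s y := by rw [h.ny]; simp
    exact mem_nbB.1 this
  have hy : y ∈ NA s S := mem_NA.2 ⟨x1, hS.mem, hx1y⟩
  have hxy2 : s x y2 ≠ 0 := by
    have : y2 ∈ nbA s x := by rw [h.nx]; simp
    exact mem_nbA.1 this
  have hAB := hc.card_eq
  have hlow := hS.low
  have hupp := hS.upp
  have ht := hS.tight
  have hc1 : (univ \ insert x S).card = Fintype.card A - (S.card + 1) := by
    rw [card_sdiff_of_subset (subset_univ _), card_univ, card_insert_of_notMem hS.nx]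
  have hc2 : (univ \ NA s S).card = Fintype.card B - (S.card + 2) := by
    rw [card_sdiff_of_subset (subset_univ _), card_univ, ht]
  refine { card := by rw [hc1, hc2]; omega, legs := ?_, low := by rw [hc1]; omega, upp := by rw [hc1]; omega }
  have hl : bLegs s (univ \ insert x S) (univ \ NA s S) = {(x, y2)} := by
    ext ⟨a, b⟩
    rw [mem_bLegs, mem_singleton]
    simp only [mem_sdiff, mem_univ, true_and, not_not, Prod.mk.injEq, mem_insert]
    constructor
    · rintro ⟨h1, h2, h3⟩
      have ha : a = x := by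
        rcases h1 with h1 | h1
        · exact h1
        · exact absurd (mem_NA.2 ⟨a, h1, h3⟩) h2
      subst ha
      refine ⟨rfl, ?_⟩
      have h4 : b ∈ nbA s a := mem_nbA.2 h3
      rw [h.nx] at h4
      simp only [mem_insert, mem_singleton] at h4
      rcases h4 with h4 | h4 | h4
      · exact absurd (h4 ▸ hy) h2
      · exact absurd (h4 ▸ hS.y1) h2
      · exact h4
    · rintro ⟨rfl, rfl⟩
      exact ⟨Or.inl rfl, hS.y2, hxy2⟩
  rw [hl, card_singleton]

end MCC
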