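import Pool.Agent.Lib_MP_cb5629.T2Main

/-! THEOREM II (the proof is assembled from the files T2*.lean). -/

set_option linter.unusedSectionVars false

namespace MCC

variable {A B : Type} [Fintype A] [Fintype B] [DecidableEq A] [DecidableEq B]

/-- THEOREM II. A type II edge with condition (T) exists only in the Heawood graph. -/
theorem typeII_fano (s : A → B → ℤ) (hc : Cubic s) (hb : Brace s) (hs : SNS s) (x : A) (y : B)
    (h2 : TypeII s x y) (hT : CondT s x y) : Fano s :=
  t2main ⟨hc, hb, hs, h2.1⟩ h2 hT

end MCC
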