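import Pool.Agent.Lib_MP_cb5629.FF
import Pool.Agent.Lib_MP_cb5629.Red1
import Pool.Agent.Lib_MP_cb5629.Red2
import Pool.Agent.Lib_MP_cb5629.Red3
import Pool.Agent.Lib_MP_cb5629.Red4
import Pool.Agent.Lib_MP_cb5629.TypeII

/-! Section 4 of the paper text: common context. -/

set_option linter.unusedSectionVars false

namespace MCC

open Finset

variable {A B : Type} [Fintype A] [Fintype B] [DecidableEq A] [DecidableEq B]

/-- `P(m)` for `m < n`, and an SNS cubic brace with `n` rows -/
structure Ctx (n : ℕ) (s : A → B → ℤ) : Prop where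
  hP : ∀ m < n, P m
  hn : Fintype.card A = n
  hc : Cubic s
  hb : Brace s
  hs : SNS s

lemma Ctx.tr {n : ℕ} {s : A → B → ℤ} (h : Ctx n s) : Ctx n (tr s) :=
  ⟨h.hP, h.hc.card_eq ▸ h.hn, h.hc.tr, h.hb.tr h.hc, h.hs.tr h.hc⟩

lemma Ctx.sw {n : ℕ} {s : A → B → ℤ} (h : Ctx n s) (α : A → ℤˣ) (β : B → ℤˣ) : Ctx n (MCC.sw s α β) :=
  ⟨h.hP, h.hn, h.hc.sw α β, h.hb.sw α β, h.hs.sw α β⟩

lemma Ctx.FF {n : ℕ} {s : A → B → ℤ} (h : Ctx n s) {RA : Finset A} {RB : Finset B} {d : ℕ}
    (hR : Nontriv s RA RB d) (hcl : Clean s RA RB) : False := MCC.FF h.hP h.hn h.hc h.hb h.hs hR hcl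

lemma Ctx.FFtr {n : ℕ} {s : A → B → ℤ} (h : Ctx n s) {RA : Finset A} {RB : Finset B} {d : ℕ}
    (hR : Nontriv (MCC.tr s) RB RA d) (hcl : Clean (MCC.tr s) RB RA) : False :=
  MCC.FFtr h.hP h.hn h.hc h.hb h.hs hR hcl

/-- Piece ST1. The complement of a square is a nontrivial shore of type `(2,2)` (`n ≥ 4`): the rows `a`, `c` have exactly one further neighbour
each. -/
theorem square_shore {s : A → B → ℤ} (hc : Cubic s) (h4 : 4 ≤ Fintype.card A) {a c : A} {b d : B} (hac : a ≠ c)
    (hbd : b ≠ d) (h1 : s a b ≠ 0) (h2 : s a d ≠ 0) (h3 : s c b ≠ 0) (h4 : s c d ≠ 0) :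
    Nontriv s (univ \ {a, c}) (univ \ {b, d}) 0 := by
  have hAB := hc.card_eq
  have c1 : (univ \ {a, c} : Finset A).card = Fintype.card A - 2 := by
    rw [card_sdiff_of_subset (subset_univ _), card_univ, card_pair hac]
  have c2 : (univ \ {b, d} : Finset B).card = Fintype.card B - 2 := by
    rw [card_sdiff_of_subset (subset_univ _), card_univ, card_pair hbd]
  have hone : ∀ z : A, s z b ≠ 0 → s z d ≠ 0 → (nbA s z \ {b, d}).card = 1 := by
    intro z hzb hzd
    rw [card_sdiff_of_subset (by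
      intro w hw
      rw [mem_insert, mem_singleton] at hw
      rcases hw with rfl | rfl
      · exact mem_nbA.2 hzb
      · exact mem_nbA.2 hzd), hc.row z, card_pair hbd]
  have hleg : bLegs s (univ \ {a, c}) (univ \ {b, d})
      = (nbA s a \ {b, d}).image (fun w => (a, w)) ∪ (nbA s c \ {b, d}).image (fun w => (c, w)) := by
    ext ⟨z, w⟩
    simp only [mem_bLegs, mem_union, mem_image, mem_sdiff, mem_univ, true_and, mem_insert,
      mem_singleton, not_not, mem_nbA, Prod.mk.injEq]
    constructor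
    · rintro ⟨hz, hw, hs⟩
      rcases hz with rfl | rfl
      · exact Or.inl ⟨w, ⟨hs, hw⟩, rfl, rfl⟩
      · exact Or.inr ⟨w, ⟨hs, hw⟩, rfl, rfl⟩
    · rintro (⟨w', ⟨hs, hw⟩, rfl, rfl⟩ | ⟨w', ⟨hs, hw⟩, rfl, rfl⟩)
      · exact ⟨Or.inl rfl, hw, hs⟩
      · exact ⟨Or.inr rfl, hw, hs⟩
  have hcard : (bLegs s (univ \ {a, c}) (univ \ {b, d})).card = 2 := by
    rw [hleg, card_union_of_disjoint, card_image_of_injective, card_image_of_injective,
      hone a h1 h2, hone c h3 h4]
    · intro x y hxy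
      exact (Prod.mk.inj hxy).2
    · intro x y hxy
      exact (Prod.mk.inj hxy).2
    · rw [disjoint_left]
      rintro ⟨z, w⟩ hz hz'
      rw [mem_image] at hz hz'
      obtain ⟨_, _, e⟩ := hz
      obtain ⟨_, _, e'⟩ := hz'
      exact hac ((Prod.mk.inj e).1.trans (Prod.mk.inj e').1.symm)
  refine { card := ?_, legs := ?_, low := ?_, upp := ?_ }
  · rw [c1, c2]; omega
  · rw [hcard]
  · rw [c1]; omega
  · rw [c1]; omega

/-- Piece ST2. If every negative edge meets `x` or `y`, the shore `(S, N(S) \ {y})` of a bad set is clean (in the transposed graph), so there is no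
bad set. Use `BadSet.shore1`, `clean_of` for `tr s`: no negative edge inside (`x ∉ S`, `y` removed); a negative edge `(x, b)` with `b ∈ N(S) \ {y}`: `b = y1`
(`y2 ∉ N(S)`), and `x` has no other neighbour in `N(S) \ {y}`; a negative edge `(a, y)`, `a ∈ S`: `a = x1` (`x, x2 ∉ S`) is the only neighbour of `y` in `S`. -/
theorem no_badSet_local {n : ℕ} {s : A → B → ℤ} (h : Ctx n s) {x : A} {y : B} {x1 x2 : A} {y1 y2 : B}
    (hE : EdgeData s x y x1 x2 y1 y2) (hneg : ∀ p ∈ neg s, p.1 = x ∨ p.2 = y) (S : Finset A) :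
    ¬ BadSet s x x1 x2 y1 y2 S := by
  intro hS
  have hng : ∀ a b, s a b = -1 → a = x ∨ b = y := fun a b hab => hneg (a, b) (mem_neg.2 hab)
  have hxy1 : ∀ b, b ∈ NA s S → b ≠ y → s x b ≠ 0 → b = y1 := by
    intro b hb hby hxb
    have hb' : b ∈ nbA s x := mem_nbA.2 hxb
    rw [hE.nx, mem_insert, mem_insert, mem_singleton] at hb'
    rcases hb' with e | e | e
    · exact absurd e hby
    · exact e
    · exact absurd (e ▸ hb) hS.y2
  have hyx1 : ∀ a, a ∈ S → s a y ≠ 0 → a = x1 := by
    intro a ha hay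
    have ha' : a ∈ nbB s y := mem_nbB.2 hay
    rw [hE.ny, mem_insert, mem_insert, mem_singleton] at ha'
    rcases ha' with e | e | e
    · exact absurd (e ▸ ha) hS.nx
    · exact e
    · exact absurd (e ▸ ha) hS.nx2
  have hSx : ∀ a ∈ S, a ≠ x := fun a ha e => hS.nx (e ▸ ha)
  refine h.FFtr (hS.shore1 h.hc hE) (clean_of (fun b a => h.hc.val a b) ?_ ?_ ?_)
  · intro b hb a ha hab
    change s a b = -1 at hab
    rw [mem_sdiff, mem_singleton] at hb
    rcases hng a b hab with e | e
    · exact hSx a ha e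
    · exact hb.2 e
  · intro b hb a _ hab b' hb' hb'0
    change s a b = -1 at hab
    change s a b' ≠ 0 at hb'0
    rw [mem_sdiff, mem_singleton] at hb hb'
    rcases hng a b hab with e | e
    · subst e
      rw [hxy1 b hb.1 hb.2 (by rw [hab]; decide), hxy1 b' hb'.1 hb'.2 hb'0]
    · exact absurd e hb.2
  · intro b _ a ha hab a' ha' ha'0
    change s a b = -1 at hab
    change s a' b ≠ 0 at ha'0
    rcases hng a b hab with e | e
    · exact absurd e (hSx a ha)
    · subst e
      rw [hyx1 a ha (by rw [hab]; decide), hyx1 a' ha' ha'0]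

/-- Piece ST3. A tight set `S` gives the transposed shore `(N(S), S)` of type `2`. -/
theorem tight_shore {s : A → B → ℤ} (hc : Cubic s) {S : Finset A} (h2 : 2 ≤ S.card)
    (h4 : S.card + 4 ≤ Fintype.card A) (ht : (NA s S).card = S.card + 2) : Nontriv (tr s) (NA s S) S 2 := by
  have hAB := hc.card_eq
  have hleg : bLegs (tr s) (NA s S) S = ∅ := by
    rw [eq_empty_iff_forall_notMem]
    rintro ⟨b, a⟩ hp
    rw [mem_bLegs] at hp
    exact hp.1 (mem_NA.2 ⟨a, hp.2.1, hp.2.2⟩)
  refine { card := ht, legs := ?_, low := ?_, upp := ?_ }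
  · rw [hleg, card_empty]
  · omega
  · omega

/-- Piece ST3. The complement of a tight set is a shore of type `2` (no edge joins `S` and `B \ N(S)`). -/
theorem tight_coshore {s : A → B → ℤ} (hc : Cubic s) {S : Finset A} (h2 : 2 ≤ S.card)
    (h4 : S.card + 4 ≤ Fintype.card A) (ht : (NA s S).card = S.card + 2) :
    Nontriv s (univ \ S) (univ \ NA s S) 2 := by
  have hAB := hc.card_eq
  have hleg : bLegs s (univ \ S) (univ \ NA s S) = ∅ := by
    rw [eq_empty_iff_forall_notMem]
    rintro ⟨a, b⟩ hp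
    rw [mem_bLegs, mem_sdiff, mem_sdiff] at hp
    obtain ⟨h1, h2, h3⟩ := hp
    have ha : a ∈ S := by
      by_contra hh
      exact h1 ⟨mem_univ _, hh⟩
    exact h2.2 (mem_NA.2 ⟨a, ha, h3⟩)
  have c1 : (univ \ S : Finset A).card = Fintype.card A - S.card := by
    rw [card_sdiff_of_subset (subset_univ _), card_univ]
  have c2 : (univ \ NA s S : Finset B).card = Fintype.card B - (S.card + 2) := by
    rw [card_sdiff_of_subset (subset_univ _), card_univ, ht]
  refine { card := ?_, legs := ?_, low := ?_, upp := ?_ }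
  · rw [c1, c2]; omega
  · rw [hleg, card_empty]
  · rw [c1]; omega
  · rw [c1]; omega

/-- Piece ST4. If every negative edge meets the row `x`, condition (T) holds for every edge `xy`: a set `S` violating (T) gives the shore `(N(S),S)` of
`tr s` (`tight_shore`), which is clean: `x ∉ S`, and a negative edge `(x,b)` with `b ∈ N(S)` has `b = y` and `y` is the only neighbour of `x`
in `N(S)`. -/
theorem condT_local {n : ℕ} {s : A → B → ℤ} (h : Ctx n s) {x : A} {y : B}
    (hneg : ∀ p ∈ neg s, p.1 = x) : CondT s x y := by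
  intro S h2 h4 hxS _ hnb ht
  have hng : ∀ a b, s a b = -1 → a = x := fun a b hab => hneg (a, b) (mem_neg.2 hab)
  have hSx : ∀ a ∈ S, a ≠ x := fun a ha e => hxS (e ▸ ha)
  have hy : ∀ b ∈ NA s S, s x b ≠ 0 → b = y := by
    intro b hb hxb
    by_contra hby
    exact hnb b (mem_nbA.2 hxb) hby hb
  refine h.FFtr (tight_shore h.hc h2 h4 ht) (clean_of (fun b a => h.hc.val a b) ?_ ?_ ?_)
  · intro b _ a ha hab
    change s a b = -1 at hab
    exact hSx a ha (hng a b hab)
  · intro b hb a _ hab b' hb' hb'0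
    change s a b = -1 at hab
    change s a b' ≠ 0 at hb'0
    have e := hng a b hab
    subst e
    rw [hy b hb (by rw [hab]; decide), hy b' hb' hb'0]
  · intro b _ a ha hab
    change s a b = -1 at hab
    exact absurd (hng a b hab) (hSx a ha)

end MCC
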