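import Pool.Agent.Lib_MP_cb5629.QOff
import Pool.Agent.Lib_MP_cb5629.Step

set_option linter.unusedSectionVars false

namespace MCC

open Finset

variable {A B : Type} [Fintype A] [Fintype B] [DecidableEq A] [DecidableEq B]

private theorem QOffFF_card {C : Type} [DecidableEq C] {a c : C} {R : Finset C} (ha : a ∉ R) (hc : c ∉ R) :
    (R.subtype fun x : C => x ≠ a ∧ x ≠ c).card = R.card := by
  have h2 : (R.subtype fun x : C => x ≠ a ∧ x ≠ c).map (Function.Embedding.subtype _) = R := by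
    rw [subtype_map]
    refine filter_true_of_mem fun x hx => ⟨?_, ?_⟩
    · rintro rfl
      exact ha hx
    · rintro rfl
      exact hc hx
  conv_rhs => rw [← h2, card_map]

private theorem QOffFF_legs {g : A → B → ℤ} {a c : A} {b d : B} (h : Off g a c b d) {RA : Finset A} {RB : Finset B}
    (hb : b ∉ RB) (hd : d ∉ RB) :
    (bLegs (rst g a c b d) (RA.subtype fun x : A => x ≠ a ∧ x ≠ c)
      (RB.subtype fun y : B => y ≠ b ∧ y ≠ d)).card = (bLegs g RA RB).card := by
  refine card_bij (fun p _ => (p.1.1, p.2.1)) ?_ ?_ ?_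
  · intro p hp
    obtain ⟨h1, h2, h3⟩ := mem_bLegs.1 hp
    refine mem_bLegs.2 ⟨fun e => h1 (mem_subtype.2 e), mem_subtype.1 h2, h3⟩
  · rintro ⟨x, y⟩ _ ⟨x', y'⟩ _ e
    simp only [Prod.mk.injEq] at e
    exact Prod.ext (Subtype.ext e.1) (Subtype.ext e.2)
  · rintro ⟨x, y⟩ hp
    obtain ⟨h1, h2, h3⟩ := mem_bLegs.1 hp
    have hx : x ≠ a ∧ x ≠ c := by
      constructor
      · rintro rfl
        exact h3 (h.ra _)
      · rintro rfl
        exact h3 (h.rc _)
    have hy : y ≠ b ∧ y ≠ d := by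
      constructor
      · rintro rfl
        exact hb h2
      · rintro rfl
        exact hd h2
    exact ⟨(⟨x, hx⟩, ⟨y, hy⟩), mem_bLegs.2 ⟨fun e => h1 (mem_subtype.1 e), mem_subtype.2 h2, h3⟩, rfl⟩

/-- Piece OFFFF. LEMMA FF in relative form. Apply `FF` (for `n - 2`, `Off.card`) to the restricted graph with
`RA.subtype _`, `RB.subtype _`: their cardinalities are those of `RA`, `RB`, `bLegs` corresponds to `bLegs g RA RB` (rows `a, c` and columns `b, d` have no edges),
and it is clean by `clean_of`. -/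
theorem Off.rff {n : ℕ} {g : A → B → ℤ} {a c : A} {b d : B} (h : Off g a c b d) (hP : ∀ m < n, P m)
    (hn : Fintype.card A = n) (hcu : Cubic (rst g a c b d)) (hbr : Brace (rst g a c b d)) (hs : SNS (rst g a c b d)) :
    RFF g a c b d := by
  intro RA RB e ha hc hb hd hcard hlegs hlow hupp h1 h2 h3
  have hA := h.card
  have cA := QOffFF_card ha hc
  have cB := QOffFF_card hb hd
  have cL := QOffFF_legs h (RA := RA) hb hd
  have hR : Nontriv (rst g a c b d) (RA.subtype fun x : A => x ≠ a ∧ x ≠ c)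
      (RB.subtype fun y : B => y ≠ b ∧ y ≠ d) e := by
    refine { card := ?_, legs := ?_, low := ?_, upp := ?_ }
    · rw [cA, cB]; exact hcard
    · rw [cL]; exact hlegs
    · rw [cA]; omega
    · rw [cA]; omega
  refine FF (n := Fintype.card {x : A // x ≠ a ∧ x ≠ c}) (fun m hm => hP m (by omega)) rfl hcu hbr hs hR
    (clean_of hcu.val ?_ ?_ ?_)
  · intro x hx y hy
    exact h1 x.1 (mem_subtype.1 hx) y.1 (mem_subtype.1 hy)
  · intro x hx y hy hxy x' hx' hx'y
    exact Subtype.ext (h2 x.1 (mem_subtype.1 hx) y.1 (fun e => hy (mem_subtype.2 e)) hxy x'.1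
      (mem_subtype.1 hx') hx'y)
  · intro x hx y hy hxy y' hy' hxy'
    exact Subtype.ext (h3 x.1 (fun e => hx (mem_subtype.2 e)) y.1 (mem_subtype.1 hy) hxy y'.1
      (mem_subtype.1 hy') hxy')

/-- Piece OFFFF (second part). The parity of the squares (`square_odd`) in relative form. -/
theorem Off.odd {g : A → B → ℤ} {a c : A} {b d : B} (h : Off g a c b d) (hcu : Cubic (rst g a c b d))
    (hbr : Brace (rst g a c b d)) (hs : SNS (rst g a c b d)) {x x' : A} {y y' : B} (hx : x ≠ x') (hy : y ≠ y')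
    (h1 : g x y ≠ 0) (h2 : g x y' ≠ 0) (h3 : g x' y ≠ 0) (h4 : g x' y' ≠ 0) :
    g x y * g x y' * g x' y * g x' y' = -1 := by
  have hrow : ∀ u v, g u v ≠ 0 → u ≠ a ∧ u ≠ c := by
    intro u v huv
    constructor
    · rintro rfl
      exact huv (h.ra _)
    · rintro rfl
      exact huv (h.rc _)
  have hcol : ∀ u v, g u v ≠ 0 → v ≠ b ∧ v ≠ d := by
    intro u v huv
    constructor
    · rintro rfl
      exact huv (h.cb _)
    · rintro rfl
      exact huv (h.cd _)
  exact square_odd hcu hbr hs (a := ⟨x, hrow x y h1⟩) (c := ⟨x', hrow x' y h3⟩) (b := ⟨y, hcol x y h1⟩)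
    (d := ⟨y', hcol x y' h2⟩) (fun e => hx (congrArg Subtype.val e)) (fun e => hy (congrArg Subtype.val e))
    h1 h2 h3 h4

end MCC
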