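import Pool.Agent.Lib_MP_cb5629.QRed

set_option linter.unusedSectionVars false

namespace MCC

open Finset

variable {A B : Type} [Fintype A] [Fintype B] [DecidableEq A] [DecidableEq B]

/-! facts on the square -/

private lemma QRed3_a {s : A → B → ℤ} {a c b' d' : A} {b d a' c' : B}
    (h : QData s a c b' d' b d a' c') {y : B} (hy : s a y ≠ 0) : y = b ∨ y = d ∨ y = a' := by
  have h1 : y ∈ nbA s a := mem_nbA.2 hy
  rw [h.na] at h1
  simpa using h1

private lemma QRed3_c {s : A → B → ℤ} {a c b' d' : A} {b d a' c' : B}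
    (h : QData s a c b' d' b d a' c') {y : B} (hy : s c y ≠ 0) : y = b ∨ y = d ∨ y = c' := by
  have h1 : y ∈ nbA s c := mem_nbA.2 hy
  rw [h.nc] at h1
  simpa using h1

private lemma QRed3_b {s : A → B → ℤ} {a c b' d' : A} {b d a' c' : B}
    (h : QData s a c b' d' b d a' c') {x : A} (hx : s x b ≠ 0) : x = a ∨ x = c ∨ x = b' := by
  have h1 : x ∈ nbB s b := mem_nbB.2 hx
  rw [h.nb] at h1
  simpa using h1

private lemma QRed3_d {s : A → B → ℤ} {a c b' d' : A} {b d a' c' : B}
    (h : QData s a c b' d' b d a' c') {x : A} (hx : s x d ≠ 0) : x = a ∨ x = c ∨ x = d' := by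
  have h1 : x ∈ nbB s d := mem_nbB.2 hx
  rw [h.nd] at h1
  simpa using h1

private lemma QRed3_b'b {s : A → B → ℤ} {a c b' d' : A} {b d a' c' : B}
    (h : QData s a c b' d' b d a' c') : s b' b ≠ 0 := by
  have h1 : b' ∈ nbB s b := by rw [h.nb]; simp
  exact mem_nbB.1 h1

private lemma QRed3_d'd {s : A → B → ℤ} {a c b' d' : A} {b d a' c' : B}
    (h : QData s a c b' d' b d a' c') : s d' d ≠ 0 := by
  have h1 : d' ∈ nbB s d := by rw [h.nd]; simp
  exact mem_nbB.1 h1

private lemma QRed3_cc' {s : A → B → ℤ} {a c b' d' : A} {b d a' c' : B}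
    (h : QData s a c b' d' b d a' c') : s c c' ≠ 0 := by
  have h1 : c' ∈ nbA s c := by rw [h.nc]; simp
  exact mem_nbA.1 h1

private lemma QRed3_bN {s : A → B → ℤ} {a c b' d' : A} {b d a' c' : B}
    (h : QData s a c b' d' b d a' c') {S : Finset A} (na : a ∉ S) (nc : c ∉ S) :
    b ∈ NA s S ↔ b' ∈ S := by
  rw [mem_NA]
  constructor
  · rintro ⟨x, hx, hxb⟩
    rcases QRed3_b h hxb with rfl | rfl | rfl
    · exact absurd hx na
    · exact absurd hx nc
    · exact hx
  · intro hb
    exact ⟨b', hb, QRed3_b'b h⟩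

private lemma QRed3_dN {s : A → B → ℤ} {a c b' d' : A} {b d a' c' : B}
    (h : QData s a c b' d' b d a' c') {S : Finset A} (na : a ∉ S) (nc : c ∉ S) :
    d ∈ NA s S ↔ d' ∈ S := by
  rw [mem_NA]
  constructor
  · rintro ⟨x, hx, hxb⟩
    rcases QRed3_d h hxb with rfl | rfl | rfl
    · exact absurd hx na
    · exact absurd hx nc
    · exact hx
  · intro hb
    exact ⟨d', hb, QRed3_d'd h⟩

/-- the number of rows different from `a`, `c` and outside `S` -/
private lemma QRed3_rows {a c : A} (hac : a ≠ c) {S : Finset A} (na : a ∉ S) (nc : c ∉ S) :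
    (univ \ insert a (insert c S)).card = Fintype.card A - (S.card + 2) := by
  rw [card_sdiff_of_subset (subset_univ _), card_univ, card_insert_of_notMem, card_insert_of_notMem nc]
  simp only [mem_insert, not_or]
  exact ⟨hac, na⟩

/-- the dual brace property for a set of columns that avoids the rows `a`, `c` and `S` -/
private lemma QRed3_dual {s : A → B → ℤ} (hc : Cubic s) (hb : Brace s) {a c : A} (hac : a ≠ c)
    {S : Finset A} (na : a ∉ S) (nc : c ∉ S) {T : Finset B} (hT : T.Nonempty)
    (hT2 : T.card + 2 ≤ Fintype.card B) (hS : ∀ x ∈ S, ∀ y ∈ T, s x y = 0)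
    (hTa : ∀ y ∈ T, s a y = 0) (hTc : ∀ y ∈ T, s c y = 0) :
    T.card + 2 ≤ Fintype.card A - (S.card + 2) := by
  have h1 := (hb.tr hc).hall T hT hT2
  rw [NA_tr] at h1
  have h2 : NB s T ⊆ univ \ insert a (insert c S) := by
    intro x hx
    obtain ⟨y, hy, hxy⟩ := mem_NB.1 hx
    simp only [mem_sdiff, mem_univ, true_and, mem_insert, not_or]
    refine ⟨?_, ?_, ?_⟩
    · rintro rfl
      exact hxy (hTa y hy)
    · rintro rfl
      exact hxy (hTc y hy)
    · intro hxS
      exact hxy (hS x hxS y hy)
  have h3 := card_le_card h2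
  rw [QRed3_rows hac na nc] at h3
  omega

/-- Piece QR3 (the last property of `QBad`). Otherwise let `T = univ \ {b,d} \ NA s S`; `b ∈ NA s S`, `d ∉ NA s S` (the neighbours `a, c, d'` of `d` are not in `S`), so `|T| = n - 1 - |NA s S| =
n - |S| - 3 ≥ 1`. No row of `S` and neither `a` (its neighbours `b, d, a'` are not in `T`) nor `c` is adjacent to `T`, so `|NB s T| ≤ n - 2 - |S| = |T| + 1`, against the
dual brace property. -/
theorem QData.last {s : A → B → ℤ} (hc : Cubic s) (hb : Brace s) {a c b' d' : A} {b d a' c' : B}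
    (h : QData s a c b' d' b d a' c') {S : Finset A} (na : a ∉ S) (nc : c ∉ S) (mb : b' ∈ S) (nd : d' ∉ S)
    (ht : (NA s S).card = S.card + 2) (ha : a' ∈ NA s S) (hu : S.card + 4 ≤ Fintype.card A) : c' ∉ NA s S := by
  intro hc'
  have hcard := hc.card_eq
  have hbN : b ∈ NA s S := (QRed3_bN h na nc).2 mb
  have hdN : d ∉ NA s S := fun hd => nd ((QRed3_dN h na nc).1 hd)
  have hT : (univ \ insert d (NA s S)).card = Fintype.card B - (S.card + 3) := by
    rw [card_sdiff_of_subset (subset_univ _), card_univ, card_insert_of_notMem hdN, ht]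
  have hTm : ∀ y ∈ univ \ insert d (NA s S), y ≠ d ∧ y ∉ NA s S := by
    intro y hy
    simpa using hy
  have hT1 : (univ \ insert d (NA s S)).Nonempty := by
    rw [← card_pos, hT]
    omega
  have h1 := QRed3_dual hc hb h.ac na nc hT1 (by rw [hT]; omega)
    (fun x hx y hy => by
      by_contra h0
      exact (hTm y hy).2 (mem_NA.2 ⟨x, hx, h0⟩))
    (fun y hy => by
      by_contra h0
      rcases QRed3_a h h0 with rfl | rfl | rfl
      · exact (hTm _ hy).2 hbN
      · exact (hTm _ hy).1 rfl
      · exact (hTm _ hy).2 ha)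
    (fun y hy => by
      by_contra h0
      rcases QRed3_c h h0 with rfl | rfl | rfl
      · exact (hTm _ hy).2 hbN
      · exact (hTm _ hy).1 rfl
      · exact (hTm _ hy).2 hc')
  rw [hT] at h1
  omega

/-- case (3) -/
private theorem QRed3_three {s : A → B → ℤ} (hc : Cubic s) (hb : Brace s) {a c b' d' : A}
    {b d a' c' : B} (h : QData s a c b' d' b d a' c') {S : Finset A} (na : a ∉ S) (nc : c ∉ S)
    (hu : S.card + 4 ≤ Fintype.card A) (mb : b' ∈ S) (nd : d' ∉ S)
    (hlt : (NA (qf s a c b' d' b d a' c') S).card < S.card + 2) : QBad s a c b' d' a' c' S := by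
  have hbN : b ∈ NA s S := (QRed3_bN h na nc).2 mb
  have hdN : d ∉ NA s S := fun hd => nd ((QRed3_dN h na nc).1 hd)
  have hbr := hb.hall S ⟨b', mb⟩ (by omega)
  rw [h.NA_qf na nc, if_pos mb, if_neg nd, union_empty] at hlt
  have h1 : (NA s S \ {b, d}) = (NA s S).erase b := by
    ext y
    simp only [mem_sdiff, mem_insert, mem_singleton, not_or, mem_erase]
    constructor
    · rintro ⟨e1, e2, -⟩
      exact ⟨e2, e1⟩
    · rintro ⟨e1, e2⟩
      refine ⟨e2, e1, ?_⟩
      rintro rfl
      exact hdN e2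
  rw [h1] at hlt
  have h2 := card_erase_of_mem hbN
  have h3 : ((NA s S).erase b).card ≤ ((NA s S).erase b ∪ {a'}).card :=
    card_le_card subset_union_left
  have ha : a' ∈ NA s S := by
    by_contra ha
    have h4 : Disjoint ((NA s S).erase b) {a'} := by
      rw [disjoint_singleton_right]
      exact fun h5 => ha (mem_of_mem_erase h5)
    rw [card_union_of_disjoint h4, card_singleton] at hlt
    omega
  have ht : (NA s S).card = S.card + 2 := by omega
  exact ⟨na, nc, mb, nd, ht, ha, h.last hc hb na nc mb nd ht ha hu, hu⟩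

/-- Piece QR3 ((Q1) of the paper text). The reduced graph has the brace property unless there is a bad set.

Proof. Let `S` be nonempty, `a, c ∉ S`, `|S| + 4 ≤ n`, and suppose `|N'(S)| ≤ |S| + 1`, where `N'(S) = NA qf S` is given by `QData.NA_qf`. `b ∈ NA s S` iff `b' ∈ S`, `d ∈ NA s S` iff
`d' ∈ S`. (1) `b', d' ∉ S`: `N'(S) = NA s S`, against the brace property. (2) `b', d' ∈ S`: `T = univ \ {b,d} \ N'(S)` has `n - 2 - |N'(S)| ≥ n - 3 - |S| ≥ 1` elements and does
not contain `a', c'`, so neither `a`, `c` nor any row of `S` is adjacent to `T`: `|NB s T| ≤ n - 2 - |S| ≤ |T| + 1`, against the dual brace property. (3) `b' ∈ S`, `d' ∉ S`: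
`N'(S) = (NA s S \ {b}) ∪ {a'}`, `b ∈ NA s S`; `|NA s S| ≥ |S| + 2` gives `|NA s S| = |S| + 2` and `a' ∈ NA s S`; `QData.last` gives `c' ∉ NA s S`: so `h1` is
violated. (4) `d' ∈ S`, `b' ∉ S`: the same with `QData.swap`: `h2` is violated. -/
theorem QData.rhall {s : A → B → ℤ} (hc : Cubic s) (hb : Brace s) {a c b' d' : A} {b d a' c' : B}
    (h : QData s a c b' d' b d a' c') (h5 : 5 ≤ Fintype.card A) (h1 : ∀ S, ¬ QBad s a c b' d' a' c' S)
    (h2 : ∀ S, ¬ QBad s c a d' b' c' a' S) : RHall (qf s a c b' d' b d a' c') a c := by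
  intro S na nc hne hu
  by_contra hlt
  rw [not_le] at hlt
  have hcard := hc.card_eq
  have hbr := hb.hall S hne (by omega)
  by_cases mb : b' ∈ S
  · by_cases md : d' ∈ S
    · have hF := h.NA_qf na nc
      rw [if_pos mb, if_pos md] at hF
      set N := NA (qf s a c b' d' b d a' c') S with hN
      have hmem : ∀ y, y ∈ N ↔ ((y ∈ NA s S ∧ y ≠ b ∧ y ≠ d) ∨ y = a') ∨ y = c' := by
        intro y
        rw [hF]
        simp only [mem_union, mem_sdiff, mem_insert, mem_singleton, not_or]
      have hbN : b ∉ N := by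
        rw [hmem]
        rintro ((⟨-, e, -⟩ | e) | e)
        · exact e rfl
        · exact h.a'b e.symm
        · exact h.c'b e.symm
      have hdN : d ∉ N := by
        rw [hmem]
        rintro ((⟨-, -, e⟩ | e) | e)
        · exact e rfl
        · exact h.a'd e.symm
        · exact h.c'd e.symm
      have hT : (univ \ insert b (insert d N)).card = Fintype.card B - (N.card + 2) := by
        rw [card_sdiff_of_subset (subset_univ _), card_univ, card_insert_of_notMem,
          card_insert_of_notMem hdN]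
        simp only [mem_insert, not_or]
        exact ⟨h.bd, hbN⟩
      have hTm : ∀ y ∈ univ \ insert b (insert d N), y ≠ b ∧ y ≠ d ∧ y ∉ N := by
        intro y hy
        simpa using hy
      have hT1 : (univ \ insert b (insert d N)).Nonempty := by
        rw [← card_pos, hT]
        omega
      have h3 := QRed3_dual hc hb h.ac na nc hT1 (by rw [hT]; omega)
        (fun x hx y hy => by
          by_contra h0
          obtain ⟨e1, e2, e3⟩ := hTm y hy
          exact e3 ((hmem y).2 (Or.inl (Or.inl ⟨mem_NA.2 ⟨x, hx, h0⟩, e1, e2⟩))))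
        (fun y hy => by
          by_contra h0
          obtain ⟨e1, e2, e3⟩ := hTm y hy
          rcases QRed3_a h h0 with e | e | e
          · exact e1 e
          · exact e2 e
          · exact e3 ((hmem y).2 (Or.inl (Or.inr e))))
        (fun y hy => by
          by_contra h0
          obtain ⟨e1, e2, e3⟩ := hTm y hy
          rcases QRed3_c h h0 with e | e | e
          · exact e1 e
          · exact e2 e
          · exact e3 ((hmem y).2 (Or.inr e)))
      rw [hT] at h3
      omega
    · exact h1 S (QRed3_three hc hb h na nc hu mb md hlt)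
  · by_cases md : d' ∈ S
    · rw [← h.qf_swap] at hlt
      exact h2 S (QRed3_three hc hb h.swap nc na hu md mb hlt)
    · rw [h.NA_qf na nc, if_neg mb, if_neg md, union_empty, union_empty] at hlt
      have h3 : NA s S \ {b, d} = NA s S := by
        ext y
        simp only [mem_sdiff, mem_insert, mem_singleton, not_or]
        constructor
        · exact fun e => e.1
        · intro e
          refine ⟨e, ?_, ?_⟩
          · rintro rfl
            exact mb ((QRed3_bN h na nc).1 e)
          · rintro rfl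
            exact md ((QRed3_dN h na nc).1 e)
      rw [h3] at hlt
      omega

/-- Piece QR3. The shore `(S, N(S) \ {b})` of type `(1,4)`; the only edge from `S` to a column outside is `b' b`. -/
theorem QBad.shore1 {s : A → B → ℤ} (hc : Cubic s) {a c b' d' : A} {b d a' c' : B}
    (h : QData s a c b' d' b d a' c') {S : Finset A} (hS : QBad s a c b' d' a' c' S) (h2 : 2 ≤ S.card) :
    Nontriv (tr s) (NA s S \ {b}) S 1 := by
  have hcard := hc.card_eq
  have hbN : b ∈ NA s S := (QRed3_bN h hS.na hS.nc).2 hS.mb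
  have ht := hS.tight
  have hu := hS.upp
  have h1 : (NA s S \ {b}).card = S.card + 1 := by
    rw [card_sdiff_of_subset (singleton_subset_iff.2 hbN), card_singleton, ht]
    omega
  have h3 : bLegs (tr s) (NA s S \ {b}) S = {(b, b')} := by
    ext ⟨y, x⟩
    simp only [mem_bLegs, mem_sdiff, mem_singleton, tr_apply, Prod.mk.injEq]
    constructor
    · rintro ⟨e1, e2, e3⟩
      have e4 : y = b := by
        by_contra hy
        exact e1 ⟨mem_NA.2 ⟨x, e2, e3⟩, hy⟩
      subst e4
      refine ⟨rfl, ?_⟩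
      rcases QRed3_b h e3 with e5 | e5 | e5
      · rw [e5] at e2
        exact absurd e2 hS.na
      · rw [e5] at e2
        exact absurd e2 hS.nc
      · exact e5
    · rintro ⟨rfl, rfl⟩
      exact ⟨fun e => e.2 rfl, hS.mb, QRed3_b'b h⟩
  refine ⟨⟨h1, ?_⟩, ?_, ?_⟩
  · rw [h3, card_singleton]
  · rw [h1]
    omega
  · rw [h1]
    omega

/-- Piece QR3. The shore `(A \ {a,c} \ S, B \ {d} \ N(S))` of type `(4,1)` (`b ∈ N(S)`, `d ∉ N(S)`); the only edge from its columns to a row outside
is `c c'`. -/
theorem QBad.shore2 {s : A → B → ℤ} (hc : Cubic s) {a c b' d' : A} {b d a' c' : B}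
    (h : QData s a c b' d' b d a' c') {S : Finset A} (hS : QBad s a c b' d' a' c' S)
    (h5 : S.card + 5 ≤ Fintype.card A) :
    Nontriv s (univ \ insert a (insert c S)) (univ \ insert d (NA s S)) 1 := by
  have hcard := hc.card_eq
  have hbN : b ∈ NA s S := (QRed3_bN h hS.na hS.nc).2 hS.mb
  have hdN : d ∉ NA s S := fun hd => hS.nd ((QRed3_dN h hS.na hS.nc).1 hd)
  have h1 := QRed3_rows h.ac hS.na hS.nc
  have h2 : (univ \ insert d (NA s S)).card = Fintype.card B - (S.card + 3) := by
    rw [card_sdiff_of_subset (subset_univ _), card_univ, card_insert_of_notMem hdN, hS.tight]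
  have h3 : bLegs s (univ \ insert a (insert c S)) (univ \ insert d (NA s S)) = {(c, c')} := by
    ext ⟨x, y⟩
    simp only [mem_bLegs, mem_sdiff, mem_univ, true_and, mem_insert, not_or, mem_singleton,
      Prod.mk.injEq]
    constructor
    · rintro ⟨e1, ⟨e2, e3⟩, e4⟩
      have e5 : x ∉ S := fun hx => e3 (mem_NA.2 ⟨x, hx, e4⟩)
      have e6 : x ≠ a := by
        rintro rfl
        rcases QRed3_a h e4 with e | e | e
        · rw [e] at e3
          exact e3 hbN
        · exact e2 e
        · rw [e] at e3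
          exact e3 hS.ha
      have e7 : x = c := by
        by_contra hx
        exact e1 ⟨e6, hx, e5⟩
      subst e7
      refine ⟨rfl, ?_⟩
      rcases QRed3_c h e4 with e | e | e
      · rw [e] at e3
        exact absurd hbN e3
      · exact absurd e e2
      · exact e
    · rintro ⟨rfl, rfl⟩
      exact ⟨fun e => e.2.1 rfl, ⟨h.c'd, hS.hc⟩, QRed3_cc' h⟩
  refine ⟨⟨?_, ?_⟩, ?_, ?_⟩
  · rw [h1, h2]
    omega
  · rw [h3, card_singleton]
  · rw [h1]
    omega
  · rw [h1]
    omega

/-- Piece QR3. `|S| = 1`: `S = {b'}`. -/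
theorem QBad.one {s : A → B → ℤ} {a c b' d' : A} {a' c' : B} {S : Finset A} (hS : QBad s a c b' d' a' c' S)
    (h1 : S.card = 1) : s b' a' ≠ 0 := by
  obtain ⟨x, rfl⟩ := card_eq_one.1 h1
  have h2 := hS.mb
  rw [mem_singleton] at h2
  subst h2
  have h3 := hS.ha
  rw [NA_singleton, mem_nbA] at h3
  exact h3

/-- Piece QR3. `|S| = n - 4`: `B \ {d} \ N(S) = {c'}`, and the three neighbours of `c'` are in `{c} ∪ (A \ {a,c} \ S)`, where the second set has two elements, one
of them `d'`. -/
theorem QBad.top {s : A → B → ℤ} (hc : Cubic s) {a c b' d' : A} {b d a' c' : B}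
    (h : QData s a c b' d' b d a' c') {S : Finset A} (hS : QBad s a c b' d' a' c' S)
    (h5 : S.card + 4 = Fintype.card A) : s d' c' ≠ 0 := by
  have h1 : nbB s c' ⊆ univ \ insert a S := by
    intro x hx
    rw [mem_nbB] at hx
    simp only [mem_sdiff, mem_univ, true_and, mem_insert, not_or]
    refine ⟨?_, fun hxS => hS.hc (mem_NA.2 ⟨x, hxS, hx⟩)⟩
    rintro rfl
    rcases QRed3_a h hx with e | e | e
    · exact h.c'b e
    · exact h.c'd e
    · exact h.a'c' e.symm
  have h2 : (univ \ insert a S).card = 3 := by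
    rw [card_sdiff_of_subset (subset_univ _), card_univ, card_insert_of_notMem hS.na]
    omega
  have h3 : nbB s c' = univ \ insert a S := by
    apply eq_of_subset_of_card_le h1
    rw [h2, hc.col c']
  have h4 : d' ∈ nbB s c' := by
    rw [h3]
    simp only [mem_sdiff, mem_univ, true_and, mem_insert, not_or]
    exact ⟨h.d'a, hS.nd⟩
  exact mem_nbB.1 h4

end MCC
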