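import Pool.Agent.Lib_MP_cb5629.QRed2
import Pool.Agent.Lib_MP_cb5629.QRed3
import Pool.Agent.Lib_MP_cb5629.QOffFF
import Pool.Agent.Lib_MP_cb5629.Step

/-! Section 4, (K), case 1 (c)-(g): the configuration `Q ∪ Theta`. Names: rows `a, c, b', d', r1, r2, σ1, σ2, u`, columns `b, d, a', c', t1, t2, ρ1, ρ2, v`
(the paper text writes `s_i` for `t_i`, and `g` for the negative edge `uv`). -/

set_option linter.unusedSectionVars false

namespace MCC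

open Finset

/-- the vertices of the configuration -/
structure KD (A B : Type) where
  (a c b' d' r1 r2 σ1 σ2 : A)
  (b d a' c' t1 t2 ρ1 ρ2 : B)
  (u : A)
  (v : B)

/-- exchange of the indices `1, 2` -/
def KD.swap {A B : Type} (D : KD A B) : KD A B where
  a := D.a
  c := D.c
  b' := D.b'
  d' := D.d'
  r1 := D.r2
  r2 := D.r1
  σ1 := D.σ2
  σ2 := D.σ1
  b := D.b
  d := D.d
  a' := D.a'
  c' := D.c'
  t1 := D.t2
  t2 := D.t1
  ρ1 := D.ρ2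
  ρ2 := D.ρ1
  u := D.u
  v := D.v

/-- transposition -/
def KD.tr {A B : Type} (D : KD A B) : KD B A where
  a := D.b
  c := D.d
  b' := D.a'
  d' := D.c'
  r1 := D.t1
  r2 := D.t2
  σ1 := D.ρ1
  σ2 := D.ρ2
  b := D.a
  d := D.c
  a' := D.b'
  c' := D.d'
  t1 := D.r1
  t2 := D.r2
  ρ1 := D.σ1
  ρ2 := D.σ2
  u := D.v
  v := D.u

variable {A B : Type} [Fintype A] [Fintype B] [DecidableEq A] [DecidableEq B]

/-- the reduced graph `G' = G - Q + b'a' + d'c'` -/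
def KD.g (D : KD A B) (s : A → B → ℤ) : A → B → ℤ := qf s D.a D.c D.b' D.d' D.b D.d D.a' D.c'

/-- the rows of the configuration -/
def KD.VA (D : KD A B) : Finset A := {D.a, D.c, D.d', D.r1, D.r2}

/-- the columns of the configuration -/
def KD.VB (D : KD A B) : Finset B := {D.b, D.d, D.c', D.t1, D.t2}

/-- All facts about the configuration. -/
structure KCtx (n : ℕ) (s : A → B → ℤ) (D : KD A B) : Prop where
  cx : Ctx n s
  n7 : 7 ≤ n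
  q : QData s D.a D.c D.b' D.d' D.b D.d D.a' D.c'
  nc' : nbB s D.c' = {D.c, D.r1, D.r2}
  nd' : nbA s D.d' = {D.d, D.t1, D.t2}
  nr1 : nbA s D.r1 = {D.c', D.t1, D.ρ1}
  nr2 : nbA s D.r2 = {D.c', D.t2, D.ρ2}
  nt1 : nbB s D.t1 = {D.d', D.r1, D.σ1}
  nt2 : nbB s D.t2 = {D.d', D.r2, D.σ2}
  nodA : [D.a, D.c, D.d', D.r1, D.r2].Nodup
  nodB : [D.b, D.d, D.c', D.t1, D.t2].Nodup
  ob' : D.b' ∉ D.VA
  oσ1 : D.σ1 ∉ D.VA
  oσ2 : D.σ2 ∉ D.VA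
  oa' : D.a' ∉ D.VB
  oρ1 : D.ρ1 ∉ D.VB
  oρ2 : D.ρ2 ∉ D.VB
  σσ : D.σ1 ≠ D.σ2
  ρρ : D.ρ1 ≠ D.ρ2
  hab : s D.b' D.a' = 0
  hcd : s D.d' D.c' = 0
  hneg : neg s = {(D.a, D.b), (D.u, D.v)}
  ua : D.u ≠ D.a
  uc : D.u ≠ D.c
  vb : D.v ≠ D.b
  vd : D.v ≠ D.d
  pr1 : s D.r1 D.c' = 1
  pr2 : s D.r2 D.c' = 1
  pt1 : s D.r1 D.t1 = 1
  pt2 : s D.r2 D.t2 = 1
  pd1 : s D.d' D.t1 = 1
  pd2 : s D.d' D.t2 = 1
  gneg : neg (D.g s) = {(D.u, D.v), (D.d', D.c')}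
  gcub : Cubic (rst (D.g s) D.a D.c D.b D.d)
  gbr : Brace (rst (D.g s) D.a D.c D.b D.d)
  gsns : SNS (rst (D.g s) D.a D.c D.b D.d)

/-- `N0 - x - y` has a perfect matching (`x` a row, `y` a column outside the configuration) -/
def KD.Mat (D : KD A B) (s : A → B → ℤ) (x : A) (y : B) : Prop :=
  ∃ f : A → B, Set.InjOn f (univ \ insert x D.VA : Finset A) ∧
    ∀ z ∈ (univ \ insert x D.VA : Finset A), f z ∈ (univ \ insert y D.VB : Finset B) ∧ s z (f z) ≠ 0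

/-- the set `S' = S \ {a,c}` for a set `S` violating condition (T) for the edge `r1 c'` -/
structure KTight (s : A → B → ℤ) (D : KD A B) (S : Finset A) : Prop where
  na : D.a ∉ S
  nc : D.c ∉ S
  r2 : D.r2 ∈ S
  r1 : D.r1 ∉ S
  d' : D.d' ∉ S
  σ1 : D.σ1 ∉ S
  tight : (NA (D.g s) S).card = S.card + 2
  a' : D.a' ∈ NA (D.g s) S
  t1 : D.t1 ∉ NA (D.g s) S
  ρ1 : D.ρ1 ∈ NA (D.g s) S → D.a' = D.ρ1 ∧ D.ρ1 ∉ NA s S
  upp : S.card + 5 ≤ Fintype.card A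

end MCC
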