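import Pool.Agent.Lib_MP_cb5629.KCase1b
import Pool.Agent.Lib_MP_cb5629.KDefs

set_option linter.unusedSectionVars false

namespace MCC

open Finset

variable {A B : Type} [Fintype A] [Fintype B] [DecidableEq A] [DecidableEq B]

private lemma KC_val {s : A → B → ℤ} (hc : Cubic s) {x : A} {y : B} (h0 : s x y ≠ 0) (h1 : s x y ≠ -1) :
    s x y = 1 := by
  rcases hc.val x y with h | h | h
  · exact absurd h h0
  · exact h
  · exact absurd h h1

private lemma KC_row {g : A → B → ℤ} {a c : A} {b d : B} (h : Off g a c b d) (hcu : Cubic (rst g a c b d))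
    {x : A} (hxa : x ≠ a) (hxc : x ≠ c) : (nbA g x).card = 3 := by
  have h1 := h.card_NA {⟨x, hxa, hxc⟩}
  rw [NA_singleton, map_singleton, NA_singleton, hcu.row] at h1
  exact h1.symm

private lemma KC_three {X : Type} [DecidableEq X] {S : Finset X} (h : S.card = 3) {u v : X} (hu : u ∈ S) (hv : v ∈ S)
    (huv : u ≠ v) : ∃ w, w ≠ u ∧ w ≠ v ∧ S = {u, v, w} := by
  have h1 : ((S.erase u).erase v).card = 1 := by
    rw [card_erase_of_mem (mem_erase.2 ⟨huv.symm, hv⟩), card_erase_of_mem hu, h]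
  obtain ⟨w, hw⟩ := card_eq_one.1 h1
  have h2 : w ∈ (S.erase u).erase v := by rw [hw]; exact mem_singleton_self w
  rw [mem_erase, mem_erase] at h2
  refine ⟨w, h2.2.1, h2.1, ?_⟩
  ext x
  rw [mem_insert, mem_insert, mem_singleton]
  constructor
  · intro hx
    by_cases h3 : x = u
    · exact Or.inl h3
    · by_cases h4 : x = v
      · exact Or.inr (Or.inl h4)
      · right
        right
        have : x ∈ (S.erase u).erase v := mem_erase.2 ⟨h4, mem_erase.2 ⟨h3, hx⟩⟩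
        rw [hw, mem_singleton] at this
        exact this
  · rintro (rfl | rfl | rfl)
    · exact hu
    · exact hv
    · exact h2.2.2

private lemma KC_eq3 {X : Type} [DecidableEq X] {S : Finset X} (h : S.card = 3) {u v w : X} (hu : u ∈ S) (hv : v ∈ S)
    (hw : w ∈ S) (huv : u ≠ v) (huw : u ≠ w) (hvw : v ≠ w) : S = {u, v, w} := by
  symm
  apply eq_of_subset_of_card_le
  · intro x hx
    rw [mem_insert, mem_insert, mem_singleton] at hx
    rcases hx with rfl | rfl | rfl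
    · exact hu
    · exact hv
    · exact hw
  · rw [h]
    have : ({u, v, w} : Finset X).card = 3 := by
      rw [card_insert_of_notMem, card_insert_of_notMem, card_singleton]
      · rw [mem_singleton]; exact hvw
      · rw [mem_insert, mem_singleton, not_or]; exact ⟨huv, huw⟩
    rw [this]

/-- two rows of the reduced graph do not have three common neighbours -/
private lemma KC_two {g : A → B → ℤ} {a c : A} {b d : B} (h : Off g a c b d) (hcu : Cubic (rst g a c b d))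
    (rh : RHall g a c) (h6 : 6 ≤ Fintype.card A) {x x' : A} (hx : x ≠ x') {y1 y2 y3 : B} (h12 : y1 ≠ y2)
    (h13 : y1 ≠ y3) (h23 : y2 ≠ y3) (g1 : g x y1 ≠ 0) (g2 : g x y2 ≠ 0) (g3 : g x y3 ≠ 0) (k1 : g x' y1 ≠ 0)
    (k2 : g x' y2 ≠ 0) (k3 : g x' y3 ≠ 0) : False := by
  have hr : ∀ z, g z y1 ≠ 0 → z ≠ a ∧ z ≠ c := by
    intro z hz
    constructor
    · rintro rfl; exact hz (h.ra _)
    · rintro rfl; exact hz (h.rc _)
  have hxr := hr x g1
  have hxr' := hr x' k1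
  have e1 : nbA g x = {y1, y2, y3} := KC_eq3 (KC_row h hcu hxr.1 hxr.2) (mem_nbA.2 g1) (mem_nbA.2 g2)
    (mem_nbA.2 g3) h12 h13 h23
  have e2 : nbA g x' = {y1, y2, y3} := KC_eq3 (KC_row h hcu hxr'.1 hxr'.2) (mem_nbA.2 k1) (mem_nbA.2 k2)
    (mem_nbA.2 k3) h12 h13 h23
  have hc2 : ({x, x'} : Finset A).card = 2 := card_pair hx
  have h1 := rh {x, x'} (by
    rw [mem_insert, mem_singleton, not_or]; exact ⟨hxr.1.symm, hxr'.1.symm⟩) (by
    rw [mem_insert, mem_singleton, not_or]; exact ⟨hxr.2.symm, hxr'.2.symm⟩) (insert_nonempty _ _) (by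
    rw [hc2]; omega)
  rw [NA_insert, NA_singleton, e1, e2, union_self, hc2] at h1
  have h5 : ({y1, y2, y3} : Finset B).card ≤ 3 := card_le_three
  omega

/-- the signs of a square through the negative edge `(p,q)` -/
private lemma KC_sign {g : A → B → ℤ} {a c : A} {b d : B} (h : Off g a c b d) (hcu : Cubic (rst g a c b d))
    (hbr : Brace (rst g a c b d)) (hs : SNS (rst g a c b d)) {u p : A} {v q : B} (hneg : neg g = {(u, v), (p, q)})
    (hv : ∀ x y, g x y = 0 ∨ g x y = 1 ∨ g x y = -1)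
    {r : A} {t : B} (hr : r ≠ p) (ht : t ≠ q) (g1 : g r q ≠ 0) (g2 : g p t ≠ 0) (g3 : g r t ≠ 0) :
    g r q = 1 ∧ g r t = 1 ∧ g p t = 1 := by
  have hpq : g p q = -1 := mem_neg.1 (show (p, q) ∈ neg g by rw [hneg]; simp)
  have hodd := h.odd hcu hbr hs hr.symm ht.symm (by rw [hpq]; norm_num) g2 g1 g3
  rw [hpq] at hodd
  have key : ∀ x y, g x y = -1 → (x, y) ≠ (p, q) → x = u ∧ y = v := by
    intro x y hxy hne
    have h1 : (x, y) ∈ neg g := mem_neg.2 hxy
    rw [hneg, mem_insert, mem_singleton] at h1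
    rcases h1 with h1 | h1
    · exact Prod.mk.inj h1
    · exact absurd h1 hne
  have n1 : (r, q) ≠ (p, q) := fun e => hr (Prod.mk.inj e).1
  have n2 : (p, t) ≠ (p, q) := fun e => ht (Prod.mk.inj e).2
  have n3 : (r, t) ≠ (p, q) := fun e => hr (Prod.mk.inj e).1
  rcases hv r q with e1 | e1 | e1
  · exact absurd e1 g1
  · rcases hv p t with e2 | e2 | e2
    · exact absurd e2 g2
    · rcases hv r t with e3 | e3 | e3
      · exact absurd e3 g3
      · exact ⟨e1, e3, e2⟩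
      · rw [e1, e2, e3] at hodd
        norm_num at hodd
    · rcases hv r t with e3 | e3 | e3
      · exact absurd e3 g3
      · rw [e1, e2, e3] at hodd
        norm_num at hodd
      · exact absurd ((key _ _ e3 n3).1.trans (key _ _ e2 n2).1.symm) hr
  · rcases hv p t with e2 | e2 | e2
    · exact absurd e2 g2
    · rcases hv r t with e3 | e3 | e3
      · exact absurd e3 g3
      · rw [e1, e2, e3] at hodd
        norm_num at hodd
      · exact absurd ((key _ _ e3 n3).2.trans (key _ _ e1 n1).2.symm) ht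
    · exact absurd ((key _ _ e1 n1).1.trans (key _ _ e2 n2).1.symm) hr

private lemma KC_nodup5 {X : Type} {x1 x2 x3 x4 x5 : X} (h12 : x1 ≠ x2) (h13 : x1 ≠ x3) (h14 : x1 ≠ x4)
    (h15 : x1 ≠ x5) (h23 : x2 ≠ x3) (h24 : x2 ≠ x4) (h25 : x2 ≠ x5) (h34 : x3 ≠ x4) (h35 : x3 ≠ x5)
    (h45 : x4 ≠ x5) : [x1, x2, x3, x4, x5].Nodup := by
  simp only [List.nodup_cons, List.mem_cons, List.not_mem_nil, or_false, not_or, not_false_eq_true,
    List.nodup_nil, and_true]
  exact ⟨⟨h12, h13, h14, h15⟩, ⟨h23, h24, h25⟩, ⟨h34, h35⟩, h45⟩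

private lemma KC_nodup5' {X : Type} {x1 x2 x3 x4 x5 : X} (h : [x1, x2, x3, x4, x5].Nodup) :
    x1 ≠ x2 ∧ x1 ≠ x3 ∧ x1 ≠ x4 ∧ x1 ≠ x5 ∧ x2 ≠ x3 ∧ x2 ≠ x4 ∧ x2 ≠ x5 ∧ x3 ≠ x4 ∧ x3 ≠ x5 ∧ x4 ≠ x5 := by
  simp only [List.nodup_cons, List.mem_cons, List.not_mem_nil, or_false, not_or, not_false_eq_true,
    List.nodup_nil, and_true] at h
  obtain ⟨⟨h12, h13, h14, h15⟩, ⟨h23, h24, h25⟩, ⟨h34, h35⟩, h45⟩ := h
  exact ⟨h12, h13, h14, h15, h23, h24, h25, h34, h35, h45⟩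

private lemma KC_val_qf {s : A → B → ℤ} {a c b' d' : A} {b d a' c' : B} (hc : Cubic s) (x : A) (y : B) :
    qf s a c b' d' b d a' c' x y = 0 ∨ qf s a c b' d' b d a' c' x y = 1 ∨ qf s a c b' d' b d a' c' x y = -1 := by
  have key : ∀ u v w : ℤ, (u = 0 ∨ u = 1 ∨ u = -1) → (v = 0 ∨ v = 1 ∨ v = -1) → (w = 0 ∨ w = 1 ∨ w = -1) →
      (-(u * v * w) = 0 ∨ -(u * v * w) = 1 ∨ -(u * v * w) = -1) := by
    rintro u v w (rfl | rfl | rfl) (rfl | rfl | rfl) (rfl | rfl | rfl) <;> norm_num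
  unfold qf
  split_ifs
  · exact Or.inl rfl
  · exact key _ _ _ (hc.val _ _) (hc.val _ _) (hc.val _ _)
  · exact key _ _ _ (hc.val _ _) (hc.val _ _) (hc.val _ _)
  · exact hc.val _ _

/-- entries of `qf` at old edges -/
private lemma KC_qf {s : A → B → ℤ} {a c b' d' : A} {b d a' c' : B} {x : A} {y : B} (xa : x ≠ a) (xc : x ≠ c)
    (yb : y ≠ b) (yd : y ≠ d) (h1 : ¬ (x = b' ∧ y = a')) (h2 : ¬ (x = d' ∧ y = c')) :
    qf s a c b' d' b d a' c' x y = s x y := by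
  unfold qf
  rw [if_neg (by push Not; exact ⟨xa, xc, yb, yd⟩), if_neg h1, if_neg h2]

/-- the third neighbours of `r1`, `r2` are different -/
private lemma KC_rho {s : A → B → ℤ} {a c b' d' : A} {b d a' c' : B} (hq : QData s a c b' d' b d a' c')
    (rh : RHall (qf s a c b' d' b d a' c') a c) (h7 : 7 ≤ Fintype.card A) {r1 r2 : A} {t1 t2 ρ1 ρ2 : B}
    (r1a : r1 ≠ a) (r1c : r1 ≠ c) (r2a : r2 ≠ a) (r2c : r2 ≠ c) (r12 : r1 ≠ r2) (r1d : r1 ≠ d') (r2d : r2 ≠ d')
    (r1b : r1 ≠ b') (r2b : r2 ≠ b') (n1 : nbA s r1 = {c', t1, ρ1}) (n2 : nbA s r2 = {c', t2, ρ2})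
    (nd : nbA s d' = {d, t1, t2}) : ρ1 ≠ ρ2 := by
  intro e
  have hc3 : ({r1, r2, d'} : Finset A).card = 3 := by
    rw [card_insert_of_notMem, card_insert_of_notMem, card_singleton]
    · rw [mem_singleton]; exact r2d
    · rw [mem_insert, mem_singleton, not_or]; exact ⟨r12, r1d⟩
  have h1 := rh {r1, r2, d'} (by
      rw [mem_insert, mem_insert, mem_singleton, not_or, not_or]; exact ⟨r1a.symm, r2a.symm, hq.d'a.symm⟩) (by
      rw [mem_insert, mem_insert, mem_singleton, not_or, not_or]; exact ⟨r1c.symm, r2c.symm, hq.d'c.symm⟩)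
    (insert_nonempty _ _) (by rw [hc3]; omega)
  have hsub : NA (qf s a c b' d' b d a' c') {r1, r2, d'} ⊆ {c', t1, t2, ρ1} := by
    intro y hy
    rw [mem_NA] at hy
    obtain ⟨x, hx, hxy⟩ := hy
    have hyb : y ≠ b := by
      rintro rfl; exact hxy (hq.off.cb _)
    have hyd : y ≠ d := by
      rintro rfl; exact hxy (hq.off.cd _)
    rw [mem_insert, mem_insert, mem_singleton] at hx
    simp only [mem_insert, mem_singleton]
    rcases hx with rfl | rfl | rfl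
    · rw [KC_qf r1a r1c hyb hyd (fun h => r1b h.1) (fun h => r1d h.1)] at hxy
      have h2 := mem_nbA.2 hxy
      rw [n1] at h2
      simp only [mem_insert, mem_singleton] at h2
      tauto
    · rw [KC_qf r2a r2c hyb hyd (fun h => r2b h.1) (fun h => r2d h.1)] at hxy
      have h2 := mem_nbA.2 hxy
      rw [n2, ← e] at h2
      simp only [mem_insert, mem_singleton] at h2
      tauto
    · by_cases hyc : y = c'
      · exact Or.inl hyc
      · rw [KC_qf hq.d'a hq.d'c hyb hyd (fun h => hq.b'd' h.1.symm) (fun h => hyc h.2)] at hxy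
        have h2 := mem_nbA.2 hxy
        rw [nd] at h2
        simp only [mem_insert, mem_singleton] at h2
        tauto
  have h3 := card_le_card hsub
  have h4 : ({c', t1, t2, ρ1} : Finset B).card ≤ 4 := card_le_four
  omega

/-- `r ≠ b'`: otherwise there is a square without negative edge -/
private lemma KC_nb {n : ℕ} {s : A → B → ℤ} (h : Ctx n s) {a c b' d' : A} {b d a' c' : B}
    (hq : QData s a c b' d' b d a' c') {u : A} {v : B} (hneg : neg s = {(a, b), (u, v)}) (uc : u ≠ c)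
    (vb : v ≠ b) (h1 : s b' c' = 1) : False := by
  have key : ∀ x y, s x y = -1 → (x = a ∧ y = b) ∨ (x = u ∧ y = v) := by
    intro x y hxy
    have h1 : (x, y) ∈ neg s := mem_neg.2 hxy
    rw [hneg, mem_insert, mem_singleton] at h1
    rcases h1 with h1 | h1
    · exact Or.inl (Prod.mk.inj h1)
    · exact Or.inr (Prod.mk.inj h1)
  have e1 : s b' b ≠ 0 := mem_nbB.1 (by rw [hq.nb]; simp)
  have e2 : s c b ≠ 0 := mem_nbA.1 (by rw [hq.nc]; simp)
  have e3 : s c c' ≠ 0 := mem_nbA.1 (by rw [hq.nc]; simp)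
  have f1 : s b' b = 1 := KC_val h.hc e1 fun e => by
    rcases key _ _ e with e' | e'
    · exact hq.b'a e'.1
    · exact vb e'.2.symm
  have f2 : s c b = 1 := KC_val h.hc e2 fun e => by
    rcases key _ _ e with e' | e'
    · exact hq.ac e'.1.symm
    · exact uc e'.1.symm
  have f3 : s c c' = 1 := KC_val h.hc e3 fun e => by
    rcases key _ _ e with e' | e'
    · exact hq.ac e'.1.symm
    · exact uc e'.1.symm
  have := square_odd h.hc h.hb h.hs hq.b'c hq.c'b.symm e1 (by rw [h1]; norm_num) e2 e3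
  rw [f1, f2, f3, h1] at this
  norm_num at this

/-- `t ≠ a'`: otherwise there is a square without negative edge -/
private lemma KC_na {n : ℕ} {s : A → B → ℤ} (h : Ctx n s) {a c b' d' : A} {b d a' c' : B}
    (hq : QData s a c b' d' b d a' c') {u : A} {v : B} (hneg : neg s = {(a, b), (u, v)}) (ua : u ≠ a)
    (vd : v ≠ d) (h1 : s d' a' = 1) : False := by
  have key : ∀ x y, s x y = -1 → (x = a ∧ y = b) ∨ (x = u ∧ y = v) := by
    intro x y hxy
    have h1 : (x, y) ∈ neg s := mem_neg.2 hxy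
    rw [hneg, mem_insert, mem_singleton] at h1
    rcases h1 with h1 | h1
    · exact Or.inl (Prod.mk.inj h1)
    · exact Or.inr (Prod.mk.inj h1)
  have e1 : s a a' ≠ 0 := mem_nbA.1 (by rw [hq.na]; simp)
  have e2 : s a d ≠ 0 := mem_nbA.1 (by rw [hq.na]; simp)
  have e3 : s d' d ≠ 0 := mem_nbB.1 (by rw [hq.nd]; simp)
  have f1 : s a a' = 1 := KC_val h.hc e1 fun e => by
    rcases key _ _ e with e' | e'
    · exact hq.a'b e'.2
    · exact ua e'.1.symm
  have f2 : s a d = 1 := KC_val h.hc e2 fun e => by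
    rcases key _ _ e with e' | e'
    · exact hq.bd e'.2.symm
    · exact ua e'.1.symm
  have f3 : s d' d = 1 := KC_val h.hc e3 fun e => by
    rcases key _ _ e with e' | e'
    · exact hq.d'a e'.1
    · exact vd e'.2.symm
  have := square_odd h.hc h.hb h.hs hq.d'a.symm hq.a'd e1 e2 (by rw [h1]; norm_num) e3
  rw [f1, f2, f3, h1] at this
  norm_num at this

/-- Piece KC1. Two squares of `G'` through `h = d'c'`.

Proof. `g = qf ...`. By `case1b_neg` and `Off.neg_card` the restricted graph `rst g` has two negative edges (`(u,v) ≠ (d',c')` because `s d' c' = 0`, `s u v = -1`), so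
`P (n-2)` (`case1b_red`, `Off.card`) gives at least two elements in `squares (rst g) d' c'`, hence (`Off.squares_card`) two different pairs `(r1,t1) ≠ (r2,t2)` in `squares g d' c'`:
`r_i ≠ d'`, `t_i ≠ c'`, `g r_i c', g d' t_i, g r_i t_i ≠ 0`. (`g` vanishes at `a, c, b, d`, so `r_i ≠ a, c`, `t_i ≠ b, d`.) `r1 ≠ r2`: otherwise `{r1, d'}` has the neighbours
`c', t1, t2` only (each row of `g` has three neighbours): against `RHall` (`n ≥ 7`). Dually `t1 ≠ t2`. And `g r1 t2 = 0 = g r2 t1` for the same reason.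
`n ≥ 7`: `rst g` has two negative edges, so `5 ≤ n - 2` by `five_le_card`.
Signs: `g` has the negative edges `(u,v)` and `(d',c')` only. The square `(d',r_i;c',t_i)` contains `(d',c')`, its product is `-1` (`Off.odd`), so the other three entries are not `-1` or two
of them would be negative edges different from `(d',c')`: impossible. So `g r_i c' = g r_i t_i = g d' t_i = 1`. -/
theorem exists_squares {n : ℕ} {s : A → B → ℤ} (h : Ctx n s) {a c b' d' : A} {b d a' c' : B}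
    (hq : QData s a c b' d' b d a' c') {u : A} {v : B} (hneg : neg s = {(a, b), (u, v)}) (ua : u ≠ a) (uc : u ≠ c)
    (vb : v ≠ b) (vd : v ≠ d) (hab : s b' a' = 0) : 7 ≤ n ∧ ∃ (r1 r2 : A) (t1 t2 : B),
      [a, c, d', r1, r2].Nodup ∧ [b, d, c', t1, t2].Nodup ∧
      qf s a c b' d' b d a' c' r1 c' = 1 ∧ qf s a c b' d' b d a' c' r2 c' = 1 ∧
      qf s a c b' d' b d a' c' r1 t1 = 1 ∧ qf s a c b' d' b d a' c' r2 t2 = 1 ∧
      qf s a c b' d' b d a' c' d' t1 = 1 ∧ qf s a c b' d' b d a' c' d' t2 = 1 ∧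
      qf s a c b' d' b d a' c' r1 t2 = 0 ∧ qf s a c b' d' b d a' c' r2 t1 = 0 := by
  classical
  obtain ⟨hcd, gcub, gbr, gsns⟩ := case1b_red h hq hneg ua uc vb vd hab
  have gneg := case1b_neg h hq hneg ua uc vb vd hab hcd
  have hoff := hq.off
  have rh := hoff.rhall gbr
  have gcub' : Cubic (rst (tr (qf s a c b' d' b d a' c')) b d a c) := gcub.tr
  have rh' : RHall (tr (qf s a c b' d' b d a' c')) b d := hoff.tr.rhall (gbr.tr gcub)
  have hsuv : s u v = -1 := mem_neg.1 (show (u, v) ∈ neg s by rw [hneg]; simp)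
  have huv : (u, v) ≠ (d', c') := by
    intro e
    obtain ⟨rfl, rfl⟩ := Prod.mk.inj e
    rw [hcd] at hsuv
    norm_num at hsuv
  have hn2 : (neg (qf s a c b' d' b d a' c')).card = 2 := by rw [gneg, card_pair huv]
  have hn2' := hoff.neg_card
  rw [hn2] at hn2'
  have h5 := five_le_card gcub gbr gsns (by rw [hn2'])
  have hcard := hoff.card
  have hn := h.hn
  have h7 : 7 ≤ Fintype.card A := by omega
  have hB7 : 7 ≤ Fintype.card B := by rw [← h.hc.card_eq]; exact h7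
  refine ⟨by omega, ?_⟩
  have hP := h.hP (Fintype.card {x : A // x ≠ a ∧ x ≠ c}) (by omega) _ _ _ rfl gcub gbr gsns
  have hdc : qf s a c b' d' b d a' c' d' c' = -1 :=
    mem_neg.1 (show (d', c') ∈ neg (qf s a c b' d' b d a' c') by rw [gneg]; simp)
  have hdm : ((⟨d', hq.d'a, hq.d'c⟩, ⟨c', hq.c'b, hq.c'd⟩) :
      {x : A // x ≠ a ∧ x ≠ c} × {y : B // y ≠ b ∧ y ≠ d}) ∈ neg (rst (qf s a c b' d' b d a' c') a c b d) := by
    exact mem_neg.2 hdc
  have hsq := hP.2.2 hn2' _ hdm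
  rw [hoff.squares_card] at hsq
  obtain ⟨⟨r1, t1⟩, hp1, ⟨r2, t2⟩, hp2, hne⟩ := one_lt_card.1 (show 1 < _ from hsq)
  obtain ⟨a1, a2, a3, a4, a5⟩ := mem_squares.1 hp1
  obtain ⟨b1, b2, b3, b4, b5⟩ := mem_squares.1 hp2
  simp only at a1 a2 a3 a4 a5 b1 b2 b3 b4 b5
  have hgd : qf s a c b' d' b d a' c' d' c' ≠ 0 := by
    have : qf s a c b' d' b d a' c' d' c' = -1 :=
      mem_neg.1 (show (d', c') ∈ neg (qf s a c b' d' b d a' c') by rw [gneg]; simp)
    rw [this]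
    norm_num
  have hr12 : r1 ≠ r2 := by
    rintro rfl
    have ht : t1 ≠ t2 := fun e => hne (by rw [e])
    exact KC_two hoff gcub rh (by omega) a1 a2.symm b2.symm ht a3 a5 b5 hgd a4 b4
  have ht12 : t1 ≠ t2 := by
    rintro rfl
    exact KC_two hoff.tr gcub' rh' (by omega) a2 a1.symm b1.symm hr12 a4 a5 b5 hgd a3 b3
  have z12 : qf s a c b' d' b d a' c' r1 t2 = 0 := by
    by_contra hz
    exact KC_two hoff gcub rh (by omega) a1 a2.symm b2.symm ht12 a3 a5 hz hgd a4 b4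
  have z21 : qf s a c b' d' b d a' c' r2 t1 = 0 := by
    by_contra hz
    exact KC_two hoff gcub rh (by omega) b1 a2.symm b2.symm ht12 b3 hz b5 hgd a4 b4
  have s1 := KC_sign hoff gcub gbr gsns gneg (KC_val_qf h.hc) a1 a2 a3 a4 a5
  have s2 := KC_sign hoff gcub gbr gsns gneg (KC_val_qf h.hc) b1 b2 b3 b4 b5
  have hra : ∀ x y, qf s a c b' d' b d a' c' x y ≠ 0 → x ≠ a ∧ x ≠ c ∧ y ≠ b ∧ y ≠ d := by
    intro x y hxy
    refine ⟨?_, ?_, ?_, ?_⟩
    · rintro rfl; exact hxy (hoff.ra _)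
    · rintro rfl; exact hxy (hoff.rc _)
    · rintro rfl; exact hxy (hoff.cb _)
    · rintro rfl; exact hxy (hoff.cd _)
  have k1 := hra _ _ a5
  have k2 := hra _ _ b5
  exact ⟨r1, r2, t1, t2,
    KC_nodup5 hq.ac hq.d'a.symm k1.1.symm k2.1.symm hq.d'c.symm k1.2.1.symm k2.2.1.symm a1.symm b1.symm hr12,
    KC_nodup5 hq.bd hq.c'b.symm k1.2.2.1.symm k2.2.2.1.symm hq.c'd.symm k1.2.2.2.symm k2.2.2.2.symm a2.symm
      b2.symm ht12,
    s1.1, s2.1, s1.2.1, s2.2.1, s1.2.2, s2.2.2, z12, z21⟩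

/-- Piece KC2. The configuration.

Proof. Take `r1, r2, t1, t2` from `exists_squares`, `g = qf ...`. (1) `r_i ≠ b'`: otherwise `s b' c' = g b' c' = 1` (`(b',c')` is not a new edge as `a' ≠ c'`, `b' ≠ d'`), and `(b',c;b,c')` is a square of `s`:
its edges `b'b, b'c', cb, cc'` are none of the negative edges `(a,b)`, `(u,v)` (`s b' c' = 1`, the others touch `Q`: `u ≠ c`, `v ≠ b`): against `square_odd`. Dually `t_i ≠ a'` (square
`(a,d';a',d)`). So `(r_i,t_i)` is not the new edge `(b',a')`, and `s r_i c' = s r_i t_i = s d' t_i = 1`. (2) `N(c') = {c, r1, r2}`, `N(d') = {d, t1, t2}` (three elements). `ρ_i` = third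
neighbour of the row `r_i` (`c' ≠ t_i` are two of them), `σ_i` = third neighbour of the column `t_i` (`d' ≠ r_i`). `ρ1 ∉ {b, d, c', t1, t2}`: `b` is adjacent to `a, c, b'` only, `d` to `a, c, d'`;
`ρ1 ≠ t2` as `g r1 t2 = 0`. The same for the others; `a' ∉ {b,d,c',t1,t2}`, `b' ∉ {a,c,d',r1,r2}`. (3) `ρ1 ≠ ρ2`: `N'({r1,r2,d'}) = {c',t1,t2,ρ1,ρ2}` must have at least five elements (`RHall`,
`3 + 4 ≤ n`); dually `σ1 ≠ σ2`. (4) `case1b_neg`, `case1b_red`. -/
theorem exists_kctx {n : ℕ} {s : A → B → ℤ} (h : Ctx n s) {a c b' d' : A} {b d a' c' : B}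
    (hq : QData s a c b' d' b d a' c') {u : A} {v : B} (hneg : neg s = {(a, b), (u, v)}) (ua : u ≠ a) (uc : u ≠ c)
    (vb : v ≠ b) (vd : v ≠ d) (hab : s b' a' = 0) : ∃ D : KD A B, KCtx n s D := by
  classical
  obtain ⟨hcd, gcub, gbr, gsns⟩ := case1b_red h hq hneg ua uc vb vd hab
  have gneg := case1b_neg h hq hneg ua uc vb vd hab hcd
  obtain ⟨h7, r1, r2, t1, t2, ndA, ndB, g1, g2, g3, g4, g5, g6, z12, z21⟩ :=
    exists_squares h hq hneg ua uc vb vd hab
  obtain ⟨-, -, ar1, ar2, -, cr1, cr2, dr1, dr2, r12⟩ := KC_nodup5' ndA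
  obtain ⟨-, -, bt1, bt2, -, dt1, dt2, ct1, ct2, t12⟩ := KC_nodup5' ndB
  -- the new edges are not used
  have r1b : r1 ≠ b' := by
    rintro rfl
    rw [KC_qf hq.b'a hq.b'c hq.c'b hq.c'd (fun e => hq.a'c' e.2.symm) (fun e => hq.b'd' e.1)] at g1
    exact KC_nb h hq hneg uc vb g1
  have r2b : r2 ≠ b' := by
    rintro rfl
    rw [KC_qf hq.b'a hq.b'c hq.c'b hq.c'd (fun e => hq.a'c' e.2.symm) (fun e => hq.b'd' e.1)] at g2
    exact KC_nb h hq hneg uc vb g2
  have t1a : t1 ≠ a' := by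
    rintro rfl
    rw [KC_qf hq.d'a hq.d'c hq.a'b hq.a'd (fun e => hq.b'd' e.1.symm) (fun e => hq.a'c' e.2)] at g5
    exact KC_na h hq hneg ua vd g5
  have t2a : t2 ≠ a' := by
    rintro rfl
    rw [KC_qf hq.d'a hq.d'c hq.a'b hq.a'd (fun e => hq.b'd' e.1.symm) (fun e => hq.a'c' e.2)] at g6
    exact KC_na h hq hneg ua vd g6
  rw [KC_qf ar1.symm cr1.symm hq.c'b hq.c'd (fun e => r1b e.1) (fun e => dr1 e.1.symm)] at g1
  rw [KC_qf ar2.symm cr2.symm hq.c'b hq.c'd (fun e => r2b e.1) (fun e => dr2 e.1.symm)] at g2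
  rw [KC_qf ar1.symm cr1.symm bt1.symm dt1.symm (fun e => r1b e.1) (fun e => dr1 e.1.symm)] at g3
  rw [KC_qf ar2.symm cr2.symm bt2.symm dt2.symm (fun e => r2b e.1) (fun e => dr2 e.1.symm)] at g4
  rw [KC_qf hq.d'a hq.d'c bt1.symm dt1.symm (fun e => t1a e.2) (fun e => ct1 e.2.symm)] at g5
  rw [KC_qf hq.d'a hq.d'c bt2.symm dt2.symm (fun e => t2a e.2) (fun e => ct2 e.2.symm)] at g6
  rw [KC_qf ar1.symm cr1.symm bt2.symm dt2.symm (fun e => r1b e.1) (fun e => dr1 e.1.symm)] at z12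
  rw [KC_qf ar2.symm cr2.symm bt1.symm dt1.symm (fun e => r2b e.1) (fun e => dr2 e.1.symm)] at z21
  have one_ne : ∀ {x : A} {y : B}, s x y = 1 → s x y ≠ 0 := fun e => by rw [e]; norm_num
  have hcc : s c c' ≠ 0 := mem_nbA.1 (by rw [hq.nc]; simp)
  have hdd : s d' d ≠ 0 := mem_nbB.1 (by rw [hq.nd]; simp)
  have nc' : nbB s c' = {c, r1, r2} := KC_eq3 (h.hc.col c') (mem_nbB.2 hcc) (mem_nbB.2 (one_ne g1))
    (mem_nbB.2 (one_ne g2)) cr1 cr2 r12
  have nd' : nbA s d' = {d, t1, t2} := KC_eq3 (h.hc.row d') (mem_nbA.2 hdd) (mem_nbA.2 (one_ne g5))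
    (mem_nbA.2 (one_ne g6)) dt1 dt2 t12
  obtain ⟨ρ1, ρ1c, ρ1t, nr1⟩ := KC_three (h.hc.row r1) (mem_nbA.2 (one_ne g1)) (mem_nbA.2 (one_ne g3)) ct1
  obtain ⟨ρ2, ρ2c, ρ2t, nr2⟩ := KC_three (h.hc.row r2) (mem_nbA.2 (one_ne g2)) (mem_nbA.2 (one_ne g4)) ct2
  obtain ⟨σ1, σ1d, σ1r, nt1⟩ := KC_three (h.hc.col t1) (mem_nbB.2 (one_ne g5)) (mem_nbB.2 (one_ne g3)) dr1
  obtain ⟨σ2, σ2d, σ2r, nt2⟩ := KC_three (h.hc.col t2) (mem_nbB.2 (one_ne g6)) (mem_nbB.2 (one_ne g4)) dr2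
  have hr1 : s r1 ρ1 ≠ 0 := mem_nbA.1 (by rw [nr1]; simp)
  have hr2 : s r2 ρ2 ≠ 0 := mem_nbA.1 (by rw [nr2]; simp)
  have hs1 : s σ1 t1 ≠ 0 := mem_nbB.1 (by rw [nt1]; simp)
  have hs2 : s σ2 t2 ≠ 0 := mem_nbB.1 (by rw [nt2]; simp)
  -- neighbours of the square
  have na : ∀ y, s a y ≠ 0 → y = b ∨ y = d ∨ y = a' := by
    intro y hy
    have := mem_nbA.2 hy
    rw [hq.na] at this
    simpa using this
  have nc : ∀ y, s c y ≠ 0 → y = b ∨ y = d ∨ y = c' := by
    intro y hy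
    have := mem_nbA.2 hy
    rw [hq.nc] at this
    simpa using this
  have nb : ∀ x, s x b ≠ 0 → x = a ∨ x = c ∨ x = b' := by
    intro x hx
    have := mem_nbB.2 hx
    rw [hq.nb] at this
    simpa using this
  have nd : ∀ x, s x d ≠ 0 → x = a ∨ x = c ∨ x = d' := by
    intro x hx
    have := mem_nbB.2 hx
    rw [hq.nd] at this
    simpa using this
  have oσ : ∀ (σ : A) (t : B), s σ t ≠ 0 → b ≠ t → d ≠ t → t ≠ a' → c' ≠ t → σ ≠ a ∧ σ ≠ c := by
    intro σ t h1 h2 h3 h4 h5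
    constructor
    · rintro rfl
      rcases na t h1 with e | e | e
      exacts [h2 e.symm, h3 e.symm, h4 e]
    · rintro rfl
      rcases nc t h1 with e | e | e
      exacts [h2 e.symm, h3 e.symm, h5 e.symm]
  have oρ : ∀ (r : A) (ρ : B), s r ρ ≠ 0 → a ≠ r → c ≠ r → r ≠ b' → d' ≠ r → ρ ≠ b ∧ ρ ≠ d := by
    intro r ρ h1 h2 h3 h4 h5
    constructor
    · rintro rfl
      rcases nb r h1 with e | e | e
      exacts [h2 e.symm, h3 e.symm, h4 e]
    · rintro rfl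
      rcases nd r h1 with e | e | e
      exacts [h2 e.symm, h3 e.symm, h5 e.symm]
  have p1 := oσ σ1 t1 hs1 bt1 dt1 t1a ct1
  have p2 := oσ σ2 t2 hs2 bt2 dt2 t2a ct2
  have q1 := oρ r1 ρ1 hr1 ar1 cr1 r1b dr1
  have q2 := oρ r2 ρ2 hr2 ar2 cr2 r2b dr2
  have σ1r2 : σ1 ≠ r2 := by rintro rfl; exact hs1 z21
  have σ2r1 : σ2 ≠ r1 := by rintro rfl; exact hs2 z12
  have ρ1t2 : ρ1 ≠ t2 := by rintro rfl; exact hr1 z12
  have ρ2t1 : ρ2 ≠ t1 := by rintro rfl; exact hr2 z21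
  have hcard := h.hc.card_eq
  have hn := h.hn
  have rh := hq.off.rhall gbr
  have rh' : RHall (qf (tr s) b d a' c' a c b' d') b d := by
    rw [← qf_tr]
    exact hq.off.tr.rhall (gbr.tr gcub)
  have hρρ : ρ1 ≠ ρ2 := KC_rho hq rh (by omega) ar1.symm cr1.symm ar2.symm cr2.symm r12 dr1.symm dr2.symm
    r1b r2b nr1 nr2 nd'
  have hσσ : σ1 ≠ σ2 := KC_rho hq.tr rh' (by omega) bt1.symm dt1.symm bt2.symm dt2.symm t12 ct1.symm ct2.symm
    t1a t2a nt1 nt2 nc'
  refine ⟨⟨a, c, b', d', r1, r2, σ1, σ2, b, d, a', c', t1, t2, ρ1, ρ2, u, v⟩, ?_⟩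
  exact {
    cx := h
    n7 := h7
    q := hq
    nc' := nc'
    nd' := nd'
    nr1 := nr1
    nr2 := nr2
    nt1 := nt1
    nt2 := nt2
    nodA := ndA
    nodB := ndB
    ob' := by
      simp only [KD.VA, mem_insert, mem_singleton, not_or]
      exact ⟨hq.b'a, hq.b'c, hq.b'd', r1b.symm, r2b.symm⟩
    oσ1 := by
      simp only [KD.VA, mem_insert, mem_singleton, not_or]
      exact ⟨p1.1, p1.2, σ1d, σ1r, σ1r2⟩
    oσ2 := by
      simp only [KD.VA, mem_insert, mem_singleton, not_or]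
      exact ⟨p2.1, p2.2, σ2d, σ2r1, σ2r⟩
    oa' := by
      simp only [KD.VB, mem_insert, mem_singleton, not_or]
      exact ⟨hq.a'b, hq.a'd, hq.a'c', t1a.symm, t2a.symm⟩
    oρ1 := by
      simp only [KD.VB, mem_insert, mem_singleton, not_or]
      exact ⟨q1.1, q1.2, ρ1c, ρ1t, ρ1t2⟩
    oρ2 := by
      simp only [KD.VB, mem_insert, mem_singleton, not_or]
      exact ⟨q2.1, q2.2, ρ2c, ρ2t1, ρ2t⟩
    σσ := hσσ
    ρρ := hρρ
    hab := hab
    hcd := hcd
    hneg := hneg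
    ua := ua
    uc := uc
    vb := vb
    vd := vd
    pr1 := g1
    pr2 := g2
    pt1 := g3
    pt2 := g4
    pd1 := g5
    pd2 := g6
    gneg := gneg
    gcub := gcub
    gbr := gbr
    gsns := gsns }

end MCC
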