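import Pool.Agent.Lib_MP_cb5629.Step
import Pool.Agent.Lib_MP_cb5629.FanoNeg
import Pool.Agent.Lib_MP_cb5629.Square

/-! Section 4, (K), case 0: the negative edge `xy` is in no square. -/

set_option linter.unusedSectionVars false

namespace MCC

open Finset

variable {A B : Type} [Fintype A] [Fintype B] [DecidableEq A] [DecidableEq B]

private lemma KCase0_neg {s : A → B → ℤ} {x u : A} {y v : B} (hneg : neg s = {(x, y), (u, v)}) {a : A} {b : B}
    (h : s a b = -1) : (a = x ∧ b = y) ∨ (a = u ∧ b = v) := by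
  have h1 : (a, b) ∈ neg s := mem_neg.2 h
  rw [hneg, mem_insert, mem_singleton, Prod.mk.injEq, Prod.mk.injEq] at h1
  exact h1

private lemma KCase0_uv {s : A → B → ℤ} {x u : A} {y v : B} (hneg : neg s = {(x, y), (u, v)}) : s u v = -1 := by
  have h1 : (u, v) ∈ neg s := by rw [hneg]; simp
  exact mem_neg.1 h1

private lemma KCase0_xy {s : A → B → ℤ} {x u : A} {y v : B} (hneg : neg s = {(x, y), (u, v)}) : s x y = -1 := by
  have h1 : (x, y) ∈ neg s := by rw [hneg]; simp
  exact mem_neg.1 h1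

/-- a row outside a tight set with two neighbours in `N(S)` has exactly one neighbour outside `N(S)` -/
private lemma KCase0_out {s : A → B → ℤ} (hc : Cubic s) (hb : Brace s) {S : Finset A} {u : A} (huS : u ∉ S)
    (ht : (NA s S).card = S.card + 2) (h4 : S.card + 4 ≤ Fintype.card A) {v w : B} (hvw : w ≠ v) (hv : s u v ≠ 0)
    (hw : s u w ≠ 0) (hvN : v ∈ NA s S) (hwN : w ∈ NA s S) : ∃ c, nbA s u \ NA s S = {c} := by
  have h1 : (nbA s u \ NA s S).card ≤ 1 := by
    have hsub : nbA s u \ NA s S ⊆ nbA s u \ {v, w} := by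
      refine sdiff_subset_sdiff (Subset.refl _) ?_
      intro b hb
      rw [mem_insert, mem_singleton] at hb
      rcases hb with rfl | rfl
      · exact hvN
      · exact hwN
    have hsub2 : ({v, w} : Finset B) ⊆ nbA s u := by
      intro b hb
      rw [mem_insert, mem_singleton] at hb
      rcases hb with rfl | rfl
      · exact mem_nbA.2 hv
      · exact mem_nbA.2 hw
    have := card_le_card hsub
    rw [card_sdiff_of_subset hsub2, hc.row u, card_pair hvw.symm] at this
    exact this
  have h2 : (nbA s u \ NA s S).Nonempty := by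
    rw [nonempty_iff_ne_empty]
    intro he
    rw [sdiff_eq_empty_iff_subset] at he
    have h3 : NA s (insert u S) = NA s S := by
      rw [NA_insert, union_eq_right]
      exact he
    have h5 := hb.hall (insert u S) ⟨u, mem_insert_self _ _⟩ (by rw [card_insert_of_notMem huS]; omega)
    rw [h3, card_insert_of_notMem huS] at h5
    omega
  exact card_eq_one.1 (le_antisymm h1 (card_pos.2 h2))

/-- Piece K0a. There is no bad set.

Proof. Suppose there is one; choose a bad set `S` with `|S|` maximal (for the same `x, x1, x2, y1, y2`). `y ∈ N(S)` (`x1 ∈ S`); `u ≠ x`, `v ≠ y`.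
(1) `u ∈ S` (so `v ∈ N(S)`): the shore `BadSet.shore2` `(A \ S \ {x}, B \ N(S))` is clean (`clean_of`): neither negative edge has its row in `A \ S \ {x}`, or
its column in `B \ N(S)` (`y, v ∈ N(S)`). Contradiction (`Ctx.FF`).
(2) `u ∉ S`, and `v ∉ N(S)` or `v` is the only neighbour of `u` in `N(S) \ {y}`: the shore `BadSet.shore1` `(N(S) \ {y}, S)` of `tr s` is clean (`clean_of` for `tr s`):
the negative edge `(x,y)` does not touch it (`x ∉ S`, `y` removed), `(u,v)` touches it only in `v`, and the outside end `u` has only this neighbour there.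
Contradiction (`Ctx.FFtr`).
(3) `u ∉ S`, `v ∈ N(S)`, and `u` has two neighbours in `N(S) \ {y}`. `u` has exactly two neighbours in `N(S)`, or `N(insert u S) = N(S)`, against the brace property (`|S| + 1 ≤ n - 3`). So
`|N(insert u S)| = |S| + 3`. `u ≠ x2` (`x2` has the neighbour `y ∈ N(S)`, all three neighbours would be in `N(S)`). `S' = insert u S` satisfies: `x1 ∈ S'`, `x, x2 ∉ S'`, `|N(S')| = |S'| + 2`,
`y1 ∈ N(S')`; `y2 ∉ N(S')`: otherwise `N(insert x S') = N(S')` (`y, y1, y2` are the neighbours of `x`) has `|S'| + 2 = |insert x S'| + 1` elements, `|insert x S'| ≤ n - 2`; and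
`|S'| + 4 ≤ n`: otherwise `|S'| = n - 3`, `B \ N(S')` has one element, `y2`, its three neighbours are in `A \ S'`, which has three elements and contains `x2`: `s x2 y2 ≠ 0`,
against `s22`. So `S'` is a larger bad set: contradiction. -/
theorem no_badSet_case0 {n : ℕ} {s : A → B → ℤ} (h : Ctx n s) {x : A} {y : B} {x1 x2 : A} {y1 y2 : B}
    (hE : EdgeData s x y x1 x2 y1 y2) {u : A} {v : B} (hneg : neg s = {(x, y), (u, v)}) (hu : u ≠ x) (hv : v ≠ y)
    (S : Finset A) : ¬ BadSet s x x1 x2 y1 y2 S := by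
  classical
  have hc := h.hc
  have hb := h.hb
  have huv := KCase0_uv hneg
  have hAB := hc.card_eq
  have hx1y : s x1 y ≠ 0 := by
    have : x1 ∈ nbB s y := by rw [hE.ny]; simp
    exact mem_nbB.1 this
  have hx2y : s x2 y ≠ 0 := by
    have : x2 ∈ nbB s y := by rw [hE.ny]; simp
    exact mem_nbB.1 this
  induction hk : Fintype.card A - S.card using Nat.strong_induction_on generalizing S with
  | _ k ih =>
  intro hS
  have hy : y ∈ NA s S := mem_NA.2 ⟨x1, hS.mem, hx1y⟩
  have hupp := hS.upp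
  have hlow := hS.low
  by_cases h1 : u ∈ S
  · have hvN : v ∈ NA s S := mem_NA.2 ⟨u, h1, by rw [huv]; norm_num⟩
    have hnx : ∀ a ∈ univ \ insert x S, a ≠ x ∧ a ∉ S := by
      intro a ha
      rw [mem_sdiff, mem_insert, not_or] at ha
      exact ha.2
    have hnN : ∀ b ∈ univ \ NA s S, b ∉ NA s S := fun b hb => (mem_sdiff.1 hb).2
    refine h.FF (hS.shore2 hc hE) (clean_of hc.val ?_ ?_ ?_)
    · intro a ha b _ hab
      rcases KCase0_neg hneg hab with ⟨e, -⟩ | ⟨e, -⟩
      · exact (hnx a ha).1 e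
      · exact (hnx a ha).2 (e ▸ h1)
    · intro a ha b _ hab
      rcases KCase0_neg hneg hab with ⟨e, -⟩ | ⟨e, -⟩
      · exact absurd e (hnx a ha).1
      · exact absurd (e ▸ h1) (hnx a ha).2
    · intro a _ b hb hab
      rcases KCase0_neg hneg hab with ⟨-, e⟩ | ⟨-, e⟩
      · exact absurd (e ▸ hy) (hnN b hb)
      · exact absurd (e ▸ hvN) (hnN b hb)
  by_cases h2 : v ∈ NA s S → ∀ b ∈ NA s S, b ≠ y → s u b ≠ 0 → b = v
  · have hxu : ∀ a ∈ S, ∀ b, s a b ≠ -1 := by
      intro a ha b hab
      rcases KCase0_neg hneg hab with ⟨e, -⟩ | ⟨e, -⟩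
      · exact hS.nx (e ▸ ha)
      · exact h1 (e ▸ ha)
    refine h.FFtr (hS.shore1 hc hE) (clean_of (fun b a => hc.val a b) ?_ ?_ ?_)
    · intro b _ a ha hab
      exact hxu a ha b hab
    · intro b hbN a _ hab b' hb' hb'0
      rw [mem_sdiff, mem_singleton] at hbN hb'
      rcases KCase0_neg hneg hab with ⟨-, e⟩ | ⟨e, e'⟩
      · exact absurd e hbN.2
      · subst e e'
        exact h2 hbN.1 b' hb'.1 hb'.2 hb'0
    · intro b _ a ha hab
      exact absurd hab (hxu a ha b)
  push Not at h2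
  obtain ⟨hvN, w, hwN, hwy, huw, hwv⟩ := h2
  have huv0 : s u v ≠ 0 := by rw [huv]; norm_num
  obtain ⟨c, hcc⟩ := KCase0_out hc hb h1 hS.tight hupp hwv huv0 huw hvN hwN
  have hcu : s u c ≠ 0 ∧ c ∉ NA s S := by
    have : c ∈ nbA s u \ NA s S := by rw [hcc]; exact mem_singleton_self c
    rw [mem_sdiff, mem_nbA] at this
    exact this
  have hux2 : u ≠ x2 := by
    rintro rfl
    have hsub : ({y, v, w} : Finset B) ⊆ nbA s u := by
      intro b hb
      rw [mem_insert, mem_insert, mem_singleton] at hb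
      rcases hb with rfl | rfl | rfl
      · exact mem_nbA.2 hx2y
      · exact mem_nbA.2 huv0
      · exact mem_nbA.2 huw
    have h3 : ({y, v, w} : Finset B).card = 3 := by
      rw [card_insert_of_notMem, card_pair hwv.symm]
      rw [mem_insert, mem_singleton, not_or]
      exact ⟨hv.symm, hwy.symm⟩
    have h5 := eq_of_subset_of_card_le hsub (by rw [h3, hc.row u])
    have h6 : c ∈ ({y, v, w} : Finset B) := by rw [h5]; exact mem_nbA.2 hcu.1
    rw [mem_insert, mem_insert, mem_singleton] at h6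
    rcases h6 with rfl | rfl | rfl
    · exact hcu.2 hy
    · exact hcu.2 hvN
    · exact hcu.2 hwN
  have hcS : (insert u S).card = S.card + 1 := card_insert_of_notMem h1
  have hNS : (NA s (insert u S)).card = S.card + 3 := by
    rw [NA_insert, ← sdiff_union_self_eq_union, card_union_of_disjoint sdiff_disjoint, hcc, card_singleton,
      hS.tight]
    omega
  have hmono : NA s S ⊆ NA s (insert u S) := NA_mono (subset_insert _ _)
  have hxS : x ∉ insert u S := by
    rw [mem_insert, not_or]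
    exact ⟨hu.symm, hS.nx⟩
  have hx2S : x2 ∉ insert u S := by
    rw [mem_insert, not_or]
    exact ⟨hux2.symm, hS.nx2⟩
  have hy2 : y2 ∉ NA s (insert u S) := by
    intro hy2
    have hins : NA s (insert x (insert u S)) = NA s (insert u S) := by
      rw [NA_insert s x, hE.nx, union_eq_right]
      intro b hb
      simp only [mem_insert, mem_singleton] at hb
      rcases hb with rfl | rfl | rfl
      · exact hmono hy
      · exact hmono hS.y1
      · exact hy2
    have hcx : (insert x (insert u S)).card = S.card + 2 := by rw [card_insert_of_notMem hxS, hcS]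
    have := hb.hall (insert x (insert u S)) ⟨x, mem_insert_self _ _⟩ (by omega)
    rw [hins, hcx, hNS] at this
    omega
  have hupp' : (insert u S).card + 4 ≤ Fintype.card A := by
    by_contra hup
    have hcard : (univ \ insert u S).card = Fintype.card A - (insert u S).card := by
      rw [card_sdiff_of_subset (subset_univ _), card_univ]
    have hsub2 : nbB s y2 ⊆ univ \ insert u S := by
      intro a ha
      rw [mem_sdiff]
      exact ⟨mem_univ _, fun haS => hy2 (mem_NA.2 ⟨a, haS, mem_nbB.1 ha⟩)⟩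
    have h3 := hc.col y2
    have heq2 : nbB s y2 = univ \ insert u S := eq_of_subset_of_card_le hsub2 (by omega)
    have : x2 ∈ nbB s y2 := by
      rw [heq2, mem_sdiff]
      exact ⟨mem_univ _, hx2S⟩
    exact (mem_nbB.1 this) hE.s22
  refine ih (Fintype.card A - (insert u S).card) (by omega) (insert u S) rfl ?_
  exact ⟨mem_insert_of_mem hS.mem, hxS, hx2S, by rw [hNS, hcS], hmono hS.y1, hy2, by omega, hupp'⟩

/-- Piece K0b. Condition (T) holds for `xy`.

Proof. Let `S` violate it: `2 ≤ |S| ≤ n - 4`, `x ∉ S`, `x1, x2 ∈ S`, `y1, y2 ∉ N(S)`, `|N(S)| = |S| + 2`; `y ∈ N(S)`. The shores: `tight_shore` `(N(S),S)` of `tr s`, `tight_coshore`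
`(A \ S, B \ N(S))`. The edge `(x,y)`: `x` has only the neighbour `y` in `N(S)`, `y` has only the neighbour `x` outside `S`.
(1) `u ∈ S`: then `v ∈ N(S)`; the coshore is clean (`clean_of`): contradiction to `Ctx.FF`. (2) `u ∉ S` and (`v ∉ N(S)` or `v` is the only neighbour of `u` in `N(S)`): the shore
`(N(S),S)` of `tr s` is clean: contradiction to `Ctx.FFtr`. (3) `u ∉ S` has two neighbours in `N(S)`, `v ∈ N(S)`: exactly two (otherwise `N(insert u S) = N(S)`, brace). Then
`(A \ S \ {u}, B \ N(S))` is `Nontriv s _ _ 1`: sizes `n - |S| - 1` and `n - |S| - 2`, one B-leg (the third edge of `u`), `3 ≤ n - |S| - 1`; it is clean: `(u,v)` does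
not touch it, `(x,y)` leaves it from `x` (`x ≠ u`) to `y`, which has only the neighbour `x` in it. Contradiction to `Ctx.FF`. -/
theorem condT_case0 {n : ℕ} {s : A → B → ℤ} (h : Ctx n s) {x : A} {y : B} {x1 x2 : A} {y1 y2 : B}
    (hE : EdgeData s x y x1 x2 y1 y2) {u : A} {v : B} (hneg : neg s = {(x, y), (u, v)}) (hu : u ≠ x) (hv : v ≠ y) :
    CondT s x y := by
  classical
  have hc := h.hc
  have hb := h.hb
  have huv := KCase0_uv hneg
  have huv0 : s u v ≠ 0 := by rw [huv]; norm_num
  have hAB := hc.card_eq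
  have hx1y : s x1 y ≠ 0 := by
    have : x1 ∈ nbB s y := by rw [hE.ny]; simp
    exact mem_nbB.1 this
  intro S hlow hupp hxS hyS hxN ht
  have hy : y ∈ NA s S := mem_NA.2 ⟨x1, hyS x1 (mem_nbB.2 hx1y) hE.xx1.symm, hx1y⟩
  have hyS' : ∀ a, a ∉ S → s a y ≠ 0 → a = x := by
    intro a ha hay
    by_contra hne
    exact ha (hyS a (mem_nbB.2 hay) hne)
  have hxN' : ∀ b, b ∈ NA s S → s x b ≠ 0 → b = y := by
    intro b hb hxb
    by_contra hne
    exact hxN b (mem_nbA.2 hxb) hne hb
  by_cases h1 : u ∈ S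
  · have hvN : v ∈ NA s S := mem_NA.2 ⟨u, h1, huv0⟩
    refine h.FF (tight_coshore hc hlow hupp ht) (clean_of hc.val ?_ ?_ ?_)
    · intro a _ b hb hab
      rw [mem_sdiff] at hb
      rcases KCase0_neg hneg hab with ⟨-, e⟩ | ⟨-, e⟩
      · exact hb.2 (e ▸ hy)
      · exact hb.2 (e ▸ hvN)
    · intro a ha b _ hab a' ha' ha'0
      rw [mem_sdiff] at ha ha'
      rcases KCase0_neg hneg hab with ⟨e, e'⟩ | ⟨e, -⟩
      · subst e e'
        exact hyS' a' ha'.2 ha'0
      · exact absurd (e ▸ h1) ha.2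
    · intro a _ b hb hab
      rw [mem_sdiff] at hb
      rcases KCase0_neg hneg hab with ⟨-, e⟩ | ⟨-, e⟩
      · exact absurd (e ▸ hy) hb.2
      · exact absurd (e ▸ hvN) hb.2
  by_cases h2 : v ∈ NA s S → ∀ b ∈ NA s S, s u b ≠ 0 → b = v
  · have hxu : ∀ a ∈ S, ∀ b, s a b ≠ -1 := by
      intro a ha b hab
      rcases KCase0_neg hneg hab with ⟨e, -⟩ | ⟨e, -⟩
      · exact hxS (e ▸ ha)
      · exact h1 (e ▸ ha)
    refine h.FFtr (tight_shore hc hlow hupp ht) (clean_of (fun b a => hc.val a b) ?_ ?_ ?_)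
    · intro b _ a ha hab
      exact hxu a ha b hab
    · intro b hbN a _ hab b' hb' hb'0
      rcases KCase0_neg hneg hab with ⟨e, e'⟩ | ⟨e, e'⟩
      · subst e e'
        exact hxN' b' hb' hb'0
      · subst e e'
        exact h2 hbN b' hb' hb'0
    · intro b _ a ha hab
      exact absurd hab (hxu a ha b)
  push Not at h2
  obtain ⟨hvN, w, hwN, huw, hwv⟩ := h2
  obtain ⟨c, hcc⟩ := KCase0_out hc hb h1 ht hupp hwv huv0 huw hvN hwN
  have hcS : (insert u S).card = S.card + 1 := card_insert_of_notMem h1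
  have hc1 : (univ \ insert u S).card = Fintype.card A - (S.card + 1) := by
    rw [card_sdiff_of_subset (subset_univ _), card_univ, hcS]
  have hc2 : (univ \ NA s S).card = Fintype.card B - (S.card + 2) := by
    rw [card_sdiff_of_subset (subset_univ _), card_univ, ht]
  have hl : bLegs s (univ \ insert u S) (univ \ NA s S) = {(u, c)} := by
    have hcu : s u c ≠ 0 ∧ c ∉ NA s S := by
      have : c ∈ nbA s u \ NA s S := by rw [hcc]; exact mem_singleton_self c
      rw [mem_sdiff, mem_nbA] at this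
      exact this
    ext ⟨a, b⟩
    rw [mem_bLegs, mem_singleton]
    simp only [mem_sdiff, mem_univ, true_and, not_not, Prod.mk.injEq, mem_insert]
    constructor
    · rintro ⟨h3, h4, h5⟩
      have ha : a = u := by
        rcases h3 with h3 | h3
        · exact h3
        · exact absurd (mem_NA.2 ⟨a, h3, h5⟩) h4
      subst ha
      refine ⟨rfl, ?_⟩
      have h6 : b ∈ nbA s a \ NA s S := mem_sdiff.2 ⟨mem_nbA.2 h5, h4⟩
      rw [hcc, mem_singleton] at h6
      exact h6
    · rintro ⟨rfl, rfl⟩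
      exact ⟨Or.inl rfl, hcu.2, hcu.1⟩
  have hNT : Nontriv s (univ \ insert u S) (univ \ NA s S) 1 := by
    refine { card := by rw [hc1, hc2]; omega, legs := ?_, low := by rw [hc1]; omega, upp := by rw [hc1]; omega }
    rw [hl, card_singleton]
  have hnx : ∀ a ∈ univ \ insert u S, a ≠ u ∧ a ∉ S := by
    intro a ha
    rw [mem_sdiff, mem_insert, not_or] at ha
    exact ha.2
  refine h.FF hNT (clean_of hc.val ?_ ?_ ?_)
  · intro a ha b hb hab
    rw [mem_sdiff] at hb
    rcases KCase0_neg hneg hab with ⟨-, e⟩ | ⟨e, -⟩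
    · exact hb.2 (e ▸ hy)
    · exact (hnx a ha).1 e
  · intro a ha b _ hab a' ha' ha'0
    rcases KCase0_neg hneg hab with ⟨e, e'⟩ | ⟨e, -⟩
    · subst e e'
      exact hyS' a' (hnx a' ha').2 ha'0
    · exact absurd e (hnx a ha).1
  · intro a _ b hb hab
    rw [mem_sdiff] at hb
    rcases KCase0_neg hneg hab with ⟨-, e⟩ | ⟨-, e⟩
    · exact absurd (e ▸ hy) hb.2
    · exact absurd (e ▸ hvN) hb.2

/-- Piece K0c (assembly of case 0). `n ≥ 5` by `five_le_card`. `EdgeData` by `exists_edgeData` (any other neighbour `y1` of `x`). All bad sets are excluded by `no_badSet_case0` (also for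
`swapx`, `swapy`), so both reduced graphs are cubic braces (`red_cubic`, `red_brace`). If `xy` is not of type II one of them is SNS (`red_sns`); it has exactly one negative
edge, `(u,v)` (`neg_red_card`; the new edges are positive because `s x y = -1` and the other edges at `x`, `y` are `1`), against `P (n-1)`. If it is of type II:
`condT_case0`, `typeII_fano`, `Fano.not_two_neg`. -/
theorem stepK_case0 {n : ℕ} {s : A → B → ℤ} (h : Ctx n s) {x : A} {y : B} {u : A} {v : B}
    (hneg : neg s = {(x, y), (u, v)}) (hu : u ≠ x) (hv : v ≠ y) (hsq : squares s x y = ∅) : False := by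
  classical
  have hc := h.hc
  have hb := h.hb
  have hxy := KCase0_xy hneg
  have hxy0 : s x y ≠ 0 := by rw [hxy]; norm_num
  have hn2 : (neg s).card ≤ 2 := by
    rw [hneg]
    exact card_le_two
  have h5 := five_le_card hc hb h.hs hn2
  obtain ⟨y1, hy1, hne⟩ : ∃ y1, y1 ∈ nbA s x ∧ y1 ≠ y := by
    have : 1 < (nbA s x).card := by rw [hc.row x]; norm_num
    obtain ⟨y1, h1, h2⟩ := exists_mem_ne this y
    exact ⟨y1, h1, h2⟩
  obtain ⟨x1, x2, y2, hE⟩ := exists_edgeData hc hxy0 (mem_nbA.1 hy1) hne.symm hsq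
  have hbr : ∀ {x1 x2 : A} {y1 y2 : B}, EdgeData s x y x1 x2 y1 y2 → Brace (red s x y x1 x2 y1 y2) := by
    intro x1 x2 y1 y2 hE
    exact red_brace hc hb hE h5 (no_badSet_case0 h hE hneg hu hv) (no_badSet_case0 h hE.swapx.swapy hneg hu hv)
  have hcard : Fintype.card {a : A // a ≠ x} = n - 1 := by
    rw [← h.hn]
    simp
  have hone : ∀ {x1 x2 : A} {y1 y2 : B}, EdgeData s x y x1 x2 y1 y2 → (neg (red s x y x1 x2 y1 y2)).card = 1 := by
    intro x1 x2 y1 y2 hE
    have hpos : ∀ a b, s a b ≠ 0 → (a = x ∧ b ≠ y) ∨ (a ≠ x ∧ b = y) → s a b = 1 := by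
      intro a b h0 h1
      rcases hc.val a b with e | e | e
      · exact absurd e h0
      · exact e
      · exfalso
        rcases KCase0_neg hneg e with ⟨e1, e2⟩ | ⟨e1, e2⟩ <;> rcases h1 with ⟨h1, h2⟩ | ⟨h1, h2⟩
        · exact h2 e2
        · exact h1 e1
        · exact hu (e1.symm.trans h1)
        · exact hv (e2.symm.trans h2)
    have p1 : s x y1 = 1 := hpos x y1 (by rw [← mem_nbA, hE.nx]; simp) (Or.inl ⟨rfl, hE.yy1.symm⟩)
    have p2 : s x y2 = 1 := hpos x y2 (by rw [← mem_nbA, hE.nx]; simp) (Or.inl ⟨rfl, hE.yy2.symm⟩)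
    have p3 : s x1 y = 1 := hpos x1 y (by rw [← mem_nbB, hE.ny]; simp) (Or.inr ⟨hE.xx1.symm, rfl⟩)
    have p4 : s x2 y = 1 := hpos x2 y (by rw [← mem_nbB, hE.ny]; simp) (Or.inr ⟨hE.xx2.symm, rfl⟩)
    have hf : ((neg s).filter fun p => p.1 ≠ x ∧ p.2 ≠ y) = {(u, v)} := by
      ext ⟨a, b⟩
      rw [hneg, mem_filter, mem_insert, mem_singleton, Prod.mk.injEq, Prod.mk.injEq]
      constructor
      · rintro ⟨⟨e1, -⟩ | e, h1, -⟩
        · exact absurd e1 h1
        · exact e
      · rintro ⟨rfl, rfl⟩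
        exact ⟨Or.inr ⟨rfl, rfl⟩, hu, hv⟩
    rw [neg_red_card hc hE, hf, card_singleton, hxy, p1, p2, p3, p4]
    norm_num
  by_cases hT : TypeII s x y
  · have hF := typeII_fano s hc hb h.hs x y hT (condT_case0 h hE hneg hu hv)
    exact Fano.not_two_neg hc h.hs hF hu.symm hv.symm hneg
  · rcases red_sns hc h.hs hE hT with h1 | h1
    · exact ((h.hP (n - 1) (by have := h.hn; omega)) _ _ _ hcard (red_cubic hc hE) (hbr hE) h1).1 (hone hE)
    · exact ((h.hP (n - 1) (by have := h.hn; omega)) _ _ _ hcard (red_cubic hc hE.swapy) (hbr hE.swapy) h1).1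
        (hone hE.swapy)

end MCC
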