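import Pool.Agent.Lib_MP_cb5629.QRed2
import Pool.Agent.Lib_MP_cb5629.QRed3
import Pool.Agent.Lib_MP_cb5629.QOffFF
import Pool.Agent.Lib_MP_cb5629.Step

/-! Section 4, (K), case 1 (a): the negative edge `ab` is in the square `(a,c;b,d)` and the other negative edge is `c c'`. -/

set_option linter.unusedSectionVars false

namespace MCC

open Finset

variable {A B : Type} [Fintype A] [Fintype B] [DecidableEq A] [DecidableEq B]

private lemma KCase1a_neg {s : A → B → ℤ} {a c : A} {b c' : B} (hneg : neg s = {(a, b), (c, c')})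
    {x : A} {y : B} (hxy : s x y = -1) : (x = a ∧ y = b) ∨ (x = c ∧ y = c') := by
  have h1 : (x, y) ∈ neg s := mem_neg.2 hxy
  rw [hneg, mem_insert, mem_singleton, Prod.mk.injEq, Prod.mk.injEq] at h1
  exact h1

private lemma KCase1a_one {s : A → B → ℤ} (hc : Cubic s) {a c : A} {b c' : B}
    (hneg : neg s = {(a, b), (c, c')}) {x : A} {y : B} (h0 : s x y ≠ 0) (h1 : x = a → y ≠ b)
    (h2 : x = c → y ≠ c') : s x y = 1 := by
  rcases hc.val x y with h | h | h
  · exact absurd h h0
  · exact h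
  · rcases KCase1a_neg hneg h with ⟨e1, e2⟩ | ⟨e1, e2⟩
    · exact absurd e2 (h1 e1)
    · exact absurd e2 (h2 e1)

private lemma KCase1a_zero {n : ℕ} {s : A → B → ℤ} (h : Ctx n s) {a c b' d' : A} {b d a' c' : B}
    (hq : QData s a c b' d' b d a' c') (hneg : neg s = {(a, b), (c, c')}) : s d' a' = 0 := by
  by_contra h0
  have haa : s a a' ≠ 0 := mem_nbA.1 (by rw [hq.na]; simp)
  have had : s a d ≠ 0 := mem_nbA.1 (by rw [hq.na]; simp)
  have hdd : s d' d ≠ 0 := mem_nbB.1 (by rw [hq.nd]; simp)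
  have h1 := square_odd h.hc h.hb h.hs (Ne.symm hq.d'a) hq.a'd haa had h0 hdd
  rw [KCase1a_one h.hc hneg haa (fun _ => hq.a'b) (fun e => absurd e hq.ac),
    KCase1a_one h.hc hneg had (fun _ => Ne.symm hq.bd) (fun e => absurd e hq.ac),
    KCase1a_one h.hc hneg h0 (fun e => absurd e hq.d'a) (fun e => absurd e hq.d'c),
    KCase1a_one h.hc hneg hdd (fun e => absurd e hq.d'a) (fun e => absurd e hq.d'c)] at h1
  norm_num at h1

/-- Piece K1a (first part): bad sets of the pairing `a'd', c'b'` (i.e. of `h.swapcol`) that contain `d'`.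

Proof. `s d' a' ≠ 0` is impossible: `(a,d';a',d)` would be a square without negative edge (`square_odd`: its four entries are `≠ -1`). So `|S| ≥ 2` (`QBad.one` for `hq.swapcol`), and
`QBad.shore1` for `hq.swapcol` gives the shore `(N(S) \ {d}, S)` of `tr s`. No negative edge touches it: `a, c ∉ S`, `b ∉ N(S)` (the neighbours `a, c, b'` of `b` are not in `S`), `c' ∉ N(S)`. So it
is clean (`clean_of` for `tr s`), against `Ctx.FFtr`. -/
theorem no_qbad_a1 {n : ℕ} {s : A → B → ℤ} (h : Ctx n s) {a c b' d' : A} {b d a' c' : B}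
    (hq : QData s a c b' d' b d a' c') (hneg : neg s = {(a, b), (c, c')}) (S : Finset A) :
    ¬ QBad s a c d' b' a' c' S := by
  intro hS
  have h0 := KCase1a_zero h hq hneg
  have hpos : 0 < S.card := card_pos.2 ⟨d', hS.mb⟩
  have h2 : 2 ≤ S.card := by
    by_contra hlt
    exact hS.one (by omega) h0
  have hsh := QBad.shore1 h.hc hq.swapcol hS h2
  refine h.FFtr hsh (clean_of (fun y x => h.hc.val x y) ?_ ?_ ?_)
  · intro y _ x hx hxy
    rcases KCase1a_neg hneg hxy with ⟨e, -⟩ | ⟨e, -⟩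
    · exact hS.na (e ▸ hx)
    · exact hS.nc (e ▸ hx)
  · intro y hy x _ hxy
    exfalso
    rcases KCase1a_neg hneg hxy with ⟨-, e⟩ | ⟨-, e⟩
    · rw [e, mem_sdiff, mem_NA] at hy
      obtain ⟨⟨z, hz, hzb⟩, -⟩ := hy
      have hz' : z ∈ nbB s b := mem_nbB.2 hzb
      rw [hq.nb, mem_insert, mem_insert, mem_singleton] at hz'
      rcases hz' with rfl | rfl | rfl
      · exact hS.na hz
      · exact hS.nc hz
      · exact hS.nd hz
    · rw [e, mem_sdiff] at hy
      exact hS.hc hy.1
  · intro y _ x hx hxy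
    exfalso
    rcases KCase1a_neg hneg hxy with ⟨e, -⟩ | ⟨e, -⟩
    · exact hS.na (e ▸ hx)
    · exact hS.nc (e ▸ hx)

/-- Piece K1a (second part): bad sets of the pairing `a'd', c'b'` that contain `b'`.

Proof. `s d' a' = 0` as in `no_qbad_a1`. So `|S| ≤ n - 5` (`QBad.top` for `hq.swapcol.swap`: it would give `s d' a' ≠ 0`), and `QBad.shore2` for `hq.swapcol.swap` gives the shore
`(A \ {a,c} \ S, B \ {d} \ N(S) ...)` (here `univ \ insert c (insert a S)`, `univ \ insert b ...` resp. `d`, according to the statement). No negative edge touches it: `a, c` are not in it, the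
column `b` is not in it (`b ∈ N(S)`, as `b' ∈ S`; or it is removed), `c' ∈ N(S)`. So it is clean, against `Ctx.FF`. -/
theorem no_qbad_a2 {n : ℕ} {s : A → B → ℤ} (h : Ctx n s) {a c b' d' : A} {b d a' c' : B}
    (hq : QData s a c b' d' b d a' c') (hneg : neg s = {(a, b), (c, c')}) (S : Finset A) :
    ¬ QBad s c a b' d' c' a' S := by
  intro hS
  have h0 := KCase1a_zero h hq hneg
  have hupp := hS.upp
  have h5 : S.card + 5 ≤ Fintype.card A := by
    by_contra hlt
    exact hS.top h.hc hq.swapcol.swap (by omega) h0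
  have hsh := QBad.shore2 h.hc hq.swapcol.swap hS h5
  refine h.FF hsh (clean_of h.hc.val ?_ ?_ ?_)
  · intro x hx y _ hxy
    rw [mem_sdiff, mem_insert, mem_insert, not_or, not_or] at hx
    rcases KCase1a_neg hneg hxy with ⟨e, -⟩ | ⟨e, -⟩
    · exact hx.2.2.1 e
    · exact hx.2.1 e
  · intro x hx y _ hxy
    exfalso
    rw [mem_sdiff, mem_insert, mem_insert, not_or, not_or] at hx
    rcases KCase1a_neg hneg hxy with ⟨e, -⟩ | ⟨e, -⟩
    · exact hx.2.2.1 e
    · exact hx.2.1 e
  · intro x _ y hy hxy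
    exfalso
    rw [mem_sdiff, mem_insert, not_or] at hy
    rcases KCase1a_neg hneg hxy with ⟨-, e⟩ | ⟨-, e⟩
    · apply hy.2.2
      rw [e]
      have hbb : s b' b ≠ 0 := mem_nbB.1 (by rw [hq.nb]; simp)
      exact mem_NA.2 ⟨b', hS.mb, hbb⟩
    · apply hy.2.2
      rw [e]
      exact hS.ha

/-- Piece K1a (assembly). `n ≥ 5` (`five_le_card`). `hq.swapcol` and `no_qbad_a1`, `no_qbad_a2`, `QData.rhall`, `Off.brace`: the reduced graph for the pairing `a'd', c'b'` is a brace; by
`QData.simple` the new edges are not in `s`; so it is cubic (`qf_cubic`) and SNS (`qf_sns`), it has `n - 2` rows, and exactly one negative edge by `qf_neg` (`hq.swapcol`: `s a d * s a a' * s d' d = 1`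
gives one, `s c b * s c c' * s b' b = -1` none; both edges of `neg s` touch `Q`), `Off.neg_card`. This contradicts `P (n-2)`. -/
theorem stepK_case1a {n : ℕ} {s : A → B → ℤ} (h : Ctx n s) {a c b' d' : A} {b d a' c' : B}
    (hq : QData s a c b' d' b d a' c') (hneg : neg s = {(a, b), (c, c')}) : False := by
  have hcard : (neg s).card ≤ 2 := by
    rw [hneg]
    exact card_le_two
  have h5 := five_le_card h.hc h.hb h.hs hcard
  have hH : RHall (qf s a c d' b' d b a' c') a c :=
    hq.swapcol.rhall h.hc h.hb h5 (no_qbad_a1 h hq hneg) (no_qbad_a2 h hq hneg)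
  have hoff : Off (qf s a c d' b' d b a' c') a c d b := hq.swapcol.off
  have hbr := hoff.brace h5 hH
  obtain ⟨hs1, hs2⟩ := hq.swapcol.simple h.hc h5 hH
  have hcub := hq.swapcol.qf_cubic h.hc hs1 hs2
  have hsns := hq.swapcol.qf_sns h.hc h.hs hs1 hs2 hbr
  have hn := hq.swapcol.qf_neg h.hc hs1 hs2
  have haa : s a a' ≠ 0 := mem_nbA.1 (by rw [hq.na]; simp)
  have had : s a d ≠ 0 := mem_nbA.1 (by rw [hq.na]; simp)
  have hdd : s d' d ≠ 0 := mem_nbB.1 (by rw [hq.nd]; simp)
  have hcb : s c b ≠ 0 := mem_nbA.1 (by rw [hq.nc]; simp)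
  have hbb : s b' b ≠ 0 := mem_nbB.1 (by rw [hq.nb]; simp)
  have e1 := KCase1a_one h.hc hneg haa (fun _ => hq.a'b) (fun e => absurd e hq.ac)
  have e2 := KCase1a_one h.hc hneg had (fun _ => Ne.symm hq.bd) (fun e => absurd e hq.ac)
  have e3 := KCase1a_one h.hc hneg hdd (fun e => absurd e hq.d'a) (fun e => absurd e hq.d'c)
  have e4 := KCase1a_one h.hc hneg hcb (fun e => absurd e.symm hq.ac) (fun _ => Ne.symm hq.c'b)
  have e5 := KCase1a_one h.hc hneg hbb (fun e => absurd e hq.b'a) (fun e => absurd e hq.b'c)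
  have e6 : s c c' = -1 := by
    have h1 : (c, c') ∈ neg s := by rw [hneg]; simp
    exact mem_neg.1 h1
  have hfil : (neg s).filter (fun p => p.1 ≠ a ∧ p.1 ≠ c ∧ p.2 ≠ d ∧ p.2 ≠ b) = ∅ := by
    rw [filter_eq_empty_iff]
    rintro ⟨x, y⟩ hxy ⟨h1, h2, -, -⟩
    rcases KCase1a_neg hneg (mem_neg.1 hxy) with ⟨e, -⟩ | ⟨e, -⟩
    · exact h1 e
    · exact h2 e
  rw [hfil, e1, e2, e3, e4, e5, e6] at hn
  norm_num at hn
  have hr := hoff.neg_card
  rw [hn] at hr
  have hca := hoff.card
  have hnn := h.hn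
  exact (h.hP (n - 2) (by omega) _ _ (rst (qf s a c d' b' d b a' c') a c d b) (by omega)
    hcub hbr hsns).1 hr

end MCC
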