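import Pool.Agent.Lib_MP_cb5629.QRed2
import Pool.Agent.Lib_MP_cb5629.QRed3
import Pool.Agent.Lib_MP_cb5629.QOffFF
import Pool.Agent.Lib_MP_cb5629.Step

/-! Section 4, (K), case 1 (b): the negative edge `ab` is in the square `(a,c;b,d)`, the other negative edge `uv` is not incident with the square. -/

set_option linter.unusedSectionVars false

namespace MCC

open Finset

variable {A B : Type} [Fintype A] [Fintype B] [DecidableEq A] [DecidableEq B]

private lemma KCase1b_mem {s : A → B → ℤ} {a u : A} {b v : B} (hneg : neg s = {(a, b), (u, v)}) {x : A} {y : B}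
    (h : s x y = -1) : (x = a ∧ y = b) ∨ (x = u ∧ y = v) := by
  have h1 : (x, y) ∈ neg s := mem_neg.2 h
  rw [hneg, mem_insert, mem_singleton, Prod.mk.injEq, Prod.mk.injEq] at h1
  exact h1

private lemma KCase1b_uv {s : A → B → ℤ} {a u : A} {b v : B} (hneg : neg s = {(a, b), (u, v)}) : s u v = -1 := by
  have h1 : (u, v) ∈ neg s := by rw [hneg]; simp
  exact mem_neg.1 h1

private lemma KCase1b_ab {s : A → B → ℤ} {a u : A} {b v : B} (hneg : neg s = {(a, b), (u, v)}) : s a b = -1 := by
  have h1 : (a, b) ∈ neg s := by rw [hneg]; simp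
  exact mem_neg.1 h1

private lemma KCase1b_one {s : A → B → ℤ} (hc : Cubic s) {a u : A} {b v : B} (hneg : neg s = {(a, b), (u, v)})
    {x : A} {y : B} (h0 : s x y ≠ 0) (h1 : ¬ (x = a ∧ y = b)) (h2 : ¬ (x = u ∧ y = v)) : s x y = 1 := by
  rcases hc.val x y with h | h | h
  · exact absurd h h0
  · exact h
  · rcases KCase1b_mem hneg h with e | e
    · exact absurd e h1
    · exact absurd e h2

private lemma KCase1b_rowa {s : A → B → ℤ} {a c b' d' : A} {b d a' c' : B} (h : QData s a c b' d' b d a' c')
    {y : B} : s a y ≠ 0 ↔ y = b ∨ y = d ∨ y = a' := by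
  rw [← mem_nbA, h.na]; simp

private lemma KCase1b_rowc {s : A → B → ℤ} {a c b' d' : A} {b d a' c' : B} (h : QData s a c b' d' b d a' c')
    {y : B} : s c y ≠ 0 ↔ y = b ∨ y = d ∨ y = c' := by
  rw [← mem_nbA, h.nc]; simp

private lemma KCase1b_colb {s : A → B → ℤ} {a c b' d' : A} {b d a' c' : B} (h : QData s a c b' d' b d a' c')
    {x : A} : s x b ≠ 0 ↔ x = a ∨ x = c ∨ x = b' := by
  rw [← mem_nbB, h.nb]; simp

private lemma KCase1b_cold {s : A → B → ℤ} {a c b' d' : A} {b d a' c' : B} (h : QData s a c b' d' b d a' c')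
    {x : A} : s x d ≠ 0 ↔ x = a ∨ x = c ∨ x = d' := by
  rw [← mem_nbB, h.nd]; simp

private lemma KCase1b_bN {s : A → B → ℤ} {a c b' d' : A} {b d a' c' : B} (h : QData s a c b' d' b d a' c')
    {S : Finset A} (mb : b' ∈ S) : b ∈ NA s S :=
  mem_NA.2 ⟨b', mb, (KCase1b_colb h).2 (Or.inr (Or.inr rfl))⟩

private lemma KCase1b_dN {s : A → B → ℤ} {a c b' d' : A} {b d a' c' : B} (h : QData s a c b' d' b d a' c')
    {S : Finset A} (na : a ∉ S) (nc : c ∉ S) (nd : d' ∉ S) : d ∉ NA s S := by
  intro hd
  obtain ⟨x, hx, hxd⟩ := mem_NA.1 hd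
  rcases (KCase1b_cold h).1 hxd with e | e | e
  · exact na (e ▸ hx)
  · exact nc (e ▸ hx)
  · exact nd (e ▸ hx)

/-- Piece K1b0. If `c' ~ d'` then `uv = d'c'`: the square `(c,d';c',d)` has a negative edge (`square_odd`). -/
theorem case1b_cd {n : ℕ} {s : A → B → ℤ} (h : Ctx n s) {a c b' d' : A} {b d a' c' : B}
    (hq : QData s a c b' d' b d a' c') {u : A} {v : B} (hneg : neg s = {(a, b), (u, v)}) (ua : u ≠ a) (uc : u ≠ c)
    (vb : v ≠ b) (vd : v ≠ d) (hcd : s d' c' ≠ 0) : u = d' ∧ v = c' := by
  have e1 : s c c' ≠ 0 := (KCase1b_rowc hq).2 (Or.inr (Or.inr rfl))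
  have e2 : s c d ≠ 0 := (KCase1b_rowc hq).2 (Or.inr (Or.inl rfl))
  have e3 : s d' d ≠ 0 := (KCase1b_cold hq).2 (Or.inr (Or.inr rfl))
  have h1 := square_odd h.hc h.hb h.hs hq.d'c.symm hq.c'd e1 e2 hcd e3
  have f1 : s c c' = 1 := KCase1b_one h.hc hneg e1 (fun e => hq.ac e.1.symm) (fun e => uc e.1.symm)
  have f2 : s c d = 1 := KCase1b_one h.hc hneg e2 (fun e => hq.ac e.1.symm) (fun e => uc e.1.symm)
  have f3 : s d' d = 1 := KCase1b_one h.hc hneg e3 (fun e => hq.d'a e.1) (fun e => vd e.2.symm)
  rw [f1, f2, f3] at h1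
  have h2 : s d' c' = -1 := by linarith
  rcases KCase1b_mem hneg h2 with e | e
  · exact absurd e.1 hq.d'a
  · exact ⟨e.1.symm, e.2.symm⟩

/-- a larger bad set -/
private lemma KCase1b_step1 {n : ℕ} {s : A → B → ℤ} (h : Ctx n s) {a c b' d' : A} {b d a' c' : B}
    (hq : QData s a c b' d' b d a' c') {u : A} {v : B} (hneg : neg s = {(a, b), (u, v)}) (ua : u ≠ a) (uc : u ≠ c)
    (vb : v ≠ b) (vd : v ≠ d) (hab : s b' a' = 0) {S : Finset A} (hS : QBad s a c b' d' a' c' S) :
    ∃ S', QBad s a c b' d' a' c' S' ∧ S.card < S'.card := by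
  have huv := KCase1b_uv hneg
  have huv0 : s u v ≠ 0 := by rw [huv]; norm_num
  have hpos : 0 < S.card := card_pos.2 ⟨b', hS.mb⟩
  have h2 : 2 ≤ S.card := by
    by_contra hlt
    exact hS.one (by omega) hab
  have hup := hS.upp
  have hbN := KCase1b_bN hq hS.mb
  have hdN := KCase1b_dN hq hS.na hS.nc hS.nd
  have hup5 : u ≠ d' → S.card + 5 ≤ Fintype.card A := by
    intro hud
    by_contra hlt
    exact hud (case1b_cd h hq hneg ua uc vb vd (hS.top h.hc hq (by omega))).1
  by_cases hu : u ∈ S
  · exfalso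
    have hvN : v ∈ NA s S := mem_NA.2 ⟨u, hu, huv0⟩
    have hud : u ≠ d' := fun e => hS.nd (e ▸ hu)
    refine h.FF (hS.shore2 h.hc hq (hup5 hud)) (clean_of h.hc.val ?_ ?_ ?_)
    · intro x hx y hy hxy
      simp only [mem_sdiff, mem_univ, true_and, mem_insert, not_or] at hx
      rcases KCase1b_mem hneg hxy with e | e
      · exact hx.1 e.1
      · exact hx.2.2 (e.1 ▸ hu)
    · intro x hx y hy hxy
      simp only [mem_sdiff, mem_univ, true_and, mem_insert, not_or] at hx
      rcases KCase1b_mem hneg hxy with e | e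
      · exact absurd e.1 hx.1
      · exact absurd (e.1 ▸ hu) hx.2.2
    · intro x hx y hy hxy
      simp only [mem_sdiff, mem_univ, true_and, mem_insert, not_or] at hy
      rcases KCase1b_mem hneg hxy with e | e
      · exact absurd (e.2 ▸ hbN) hy.2
      · exact absurd (e.2 ▸ hvN) hy.2
  by_cases hv : v ∈ NA s S ∧ ∃ y ∈ NA s S, y ≠ b ∧ y ≠ v ∧ s u y ≠ 0
  · obtain ⟨hvN, y, hyN, hyb, hyv, huy⟩ := hv
    have hcard : (insert u S).card = S.card + 1 := card_insert_of_notMem hu
    have hle : (NA s (insert u S)).card ≤ S.card + 3 := by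
      have h3 : NA s (insert u S) = NA s S ∪ (nbA s u \ {v, y}) := by
        rw [NA_insert]
        ext z
        simp only [mem_union, mem_sdiff, mem_insert, mem_singleton, not_or]
        constructor
        · rintro (hz | hz)
          · by_cases e1 : z = v
            · exact Or.inl (e1 ▸ hvN)
            · by_cases e2 : z = y
              · exact Or.inl (e2 ▸ hyN)
              · exact Or.inr ⟨hz, e1, e2⟩
          · exact Or.inl hz
        · rintro (hz | hz)
          · exact Or.inr hz
          · exact Or.inl hz.1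
      rw [h3]
      refine (card_union_le _ _).trans ?_
      have h4 : ({v, y} : Finset B) ⊆ nbA s u := by
        intro z hz
        rw [mem_insert, mem_singleton] at hz
        rcases hz with rfl | rfl
        · exact mem_nbA.2 huv0
        · exact mem_nbA.2 huy
      rw [card_sdiff_of_subset h4, h.hc.row u, card_pair hyv.symm, hS.tight]
    have hud : u ≠ d' := by
      rintro rfl
      have h3 : NA s (insert a (insert u S)) ⊆ insert d (NA s S) := by
        intro z hz
        rw [NA_insert, NA_insert, mem_union, mem_union, mem_nbA, mem_nbA] at hz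
        rw [mem_insert]
        rcases hz with hz | hz | hz
        · rcases (KCase1b_rowa hq).1 hz with e | e | e
          · exact Or.inr (e ▸ hbN)
          · exact Or.inl e
          · exact Or.inr (e ▸ hS.ha)
        · have h4 : nbA s u = {d, v, y} := by
            symm
            apply eq_of_subset_of_card_le
            · intro w hw
              rw [mem_insert, mem_insert, mem_singleton] at hw
              rcases hw with rfl | rfl | rfl
              · exact mem_nbA.2 ((KCase1b_cold hq).2 (Or.inr (Or.inr rfl)))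
              · exact mem_nbA.2 huv0
              · exact mem_nbA.2 huy
            · rw [h.hc.row u, card_insert_of_notMem, card_pair hyv.symm]
              rw [mem_insert, mem_singleton, not_or]
              exact ⟨vd.symm, fun e => hdN (e ▸ hyN)⟩
          rw [← mem_nbA, h4, mem_insert, mem_insert, mem_singleton] at hz
          rcases hz with e | e | e
          · exact Or.inl e
          · exact Or.inr (e ▸ hvN)
          · exact Or.inr (e ▸ hyN)
        · exact Or.inr hz
      have h5 : (insert a (insert u S)).card = S.card + 2 := by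
        rw [card_insert_of_notMem, hcard]
        rw [mem_insert, not_or]
        exact ⟨hq.d'a.symm, hS.na⟩
      have h6 := h.hb.hall (insert a (insert u S)) (insert_nonempty _ _) (by rw [h5]; omega)
      have h7 := card_le_card h3
      rw [card_insert_of_notMem hdN, hS.tight] at h7
      omega
    have h5 := hup5 hud
    have hge := h.hb.hall (insert u S) (insert_nonempty _ _) (by rw [hcard]; omega)
    have hb'S : b' ∈ insert u S := mem_insert_of_mem hS.mb
    have ha' : a' ∈ NA s (insert u S) := NA_mono (subset_insert _ _) hS.ha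
    have haS : a ∉ insert u S := by
      rw [mem_insert, not_or]
      exact ⟨ua.symm, hS.na⟩
    have hcS : c ∉ insert u S := by
      rw [mem_insert, not_or]
      exact ⟨uc.symm, hS.nc⟩
    have hdS : d' ∉ insert u S := by
      rw [mem_insert, not_or]
      exact ⟨hud.symm, hS.nd⟩
    have ht : (NA s (insert u S)).card = (insert u S).card + 2 := by
      rw [hcard] at hge ⊢
      omega
    have hu' : (insert u S).card + 4 ≤ Fintype.card A := by rw [hcard]; omega
    refine ⟨insert u S, ⟨haS, hcS, hb'S, hdS, ht, ha', hq.last h.hc h.hb haS hcS hb'S hdS ht ha' hu', hu'⟩, ?_⟩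
    rw [hcard]
    omega
  · exfalso
    refine h.FFtr (hS.shore1 h.hc hq h2) (clean_of h.hc.tr.val ?_ ?_ ?_)
    · intro y hy x hx hxy
      rw [tr_apply] at hxy
      rcases KCase1b_mem hneg hxy with e | e
      · exact hS.na (e.1 ▸ hx)
      · exact hu (e.1 ▸ hx)
    · intro y hy x hx hxy y2 hy2 hxy2
      rw [tr_apply] at hxy hxy2
      rw [mem_sdiff, mem_singleton] at hy hy2
      rcases KCase1b_mem hneg hxy with e | e
      · exact absurd e.2 hy.2
      · rw [e.2] at hy ⊢
        rw [e.1] at hxy2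
        by_contra hne
        exact hv ⟨hy.1, y2, hy2.1, hy2.2, hne, hxy2⟩
    · intro y hy x hx hxy
      rw [tr_apply] at hxy
      rcases KCase1b_mem hneg hxy with e | e
      · exact absurd (e.1 ▸ hx) hS.na
      · exact absurd (e.1 ▸ hx) hu

/-- Piece K1b1: bad sets that contain `b'`.

Proof. Suppose there is one, choose `S` with `|S|` maximal. `|S| ≥ 2` (`QBad.one`, `hab`).
(1) `u ∈ S`: then `v ∈ N(S)`. `|S| ≤ n - 5`: otherwise `s d' c' ≠ 0` (`QBad.top`), so `u = d'` (`case1b_cd`), but `d' ∉ S`. `QBad.shore2` is clean: `a, u` are not rows of it, `b, v ∈ N(S)`.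
Contradiction (`Ctx.FF`).
(2) `u ∉ S` and (`v ∉ N(S)` or `v` is the only neighbour of `u` in `N(S) \ {b}`): `QBad.shore1` `(N(S) \ {b}, S)` is clean (for `tr s`): `(a,b)` does not touch it, `(u,v)` only in `v`,
and `u` has no other neighbour there. Contradiction (`Ctx.FFtr`).
(3) `u ∉ S`, `v ∈ N(S)` and `u` has two neighbours in `N(S) \ {b}`. `u ≠ a, c`, and `u ≠ b'` (as `b' ∈ S`), so `u` is not adjacent to `b`. `u` has exactly two neighbours in `N(S)`: otherwise `N(insert u S) = N(S)` (brace,
`|S| + 1 ≤ n - 3`). So `|N(insert u S)| = |S| + 3`. `u ≠ d'`: otherwise `N(insert a (insert d' S)) = insert d (N(S))` (the neighbours of `d'` are `d` and two in `N(S)`, those of `a` are `b, d, a'`) has `|S| + 3`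
elements, against the brace property for `|S| + 2 ≤ n - 2` elements. `|S| ≤ n - 5`: otherwise `s d' c' ≠ 0` (`QBad.top`) and `u = d'`. So `S' = insert u S` satisfies `|S'| + 4 ≤ n`, `a, c, d' ∉ S'`,
`b' ∈ S'`, `|N(S')| = |S'| + 2`, `a' ∈ N(S')`, and `c' ∉ N(S')` by `QData.last`: a larger bad set. Contradiction. -/
theorem no_qbad_b1 {n : ℕ} {s : A → B → ℤ} (h : Ctx n s) {a c b' d' : A} {b d a' c' : B}
    (hq : QData s a c b' d' b d a' c') {u : A} {v : B} (hneg : neg s = {(a, b), (u, v)}) (ua : u ≠ a) (uc : u ≠ c)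
    (vb : v ≠ b) (vd : v ≠ d) (hab : s b' a' = 0) (S : Finset A) : ¬ QBad s a c b' d' a' c' S := by
  have key : ∀ k : ℕ, ∀ T : Finset A, Fintype.card A - T.card = k → ¬ QBad s a c b' d' a' c' T := by
    intro k
    induction k using Nat.strong_induction_on with
    | _ k ih =>
      intro T hT hbad
      obtain ⟨T', hT', hlt⟩ := KCase1b_step1 h hq hneg ua uc vb vd hab hbad
      have h1 := hT'.upp
      exact ih (Fintype.card A - T'.card) (by omega) T' rfl hT'
  exact key _ S rfl

/-- a smaller bad set -/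
private lemma KCase1b_step2 {n : ℕ} {s : A → B → ℤ} (h : Ctx n s) {a c b' d' : A} {b d a' c' : B}
    (hq : QData s a c b' d' b d a' c') {u : A} {v : B} (hneg : neg s = {(a, b), (u, v)}) (ua : u ≠ a) (uc : u ≠ c)
    (vb : v ≠ b) (vd : v ≠ d) (hab : s b' a' = 0) {S : Finset A} (hS : QBad s c a d' b' c' a' S) :
    ∃ S', QBad s c a d' b' c' a' S' ∧ S'.card < S.card := by
  have huv := KCase1b_uv hneg
  have huv0 : s u v ≠ 0 := by rw [huv]; norm_num
  have hpos : 0 < S.card := card_pos.2 ⟨d', hS.mb⟩
  have hup := hS.upp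
  have hdN : d ∈ NA s S := KCase1b_bN hq.swap hS.mb
  have hbN : b ∉ NA s S := KCase1b_dN hq.swap hS.na hS.nc hS.nd
  have h5 : S.card + 5 ≤ Fintype.card A := by
    by_contra hlt
    exact hS.top h.hc hq.swap (by omega) hab
  have hcd : u ∉ S → s d' c' = 0 := by
    intro hu
    by_contra h0
    exact hu ((case1b_cd h hq hneg ua uc vb vd h0).1 ▸ hS.mb)
  by_cases hv : v ∈ NA s S
  · by_cases hu : u ∉ S ∧ ∃ x, x ≠ u ∧ x ≠ a ∧ x ≠ c ∧ x ∉ S ∧ s x v ≠ 0
    · obtain ⟨huS, u2, h2u, h2a, h2c, h2S, h2v⟩ := hu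
      obtain ⟨v3, h3S, h3v⟩ := mem_NA.1 hv
      have h3u : v3 ≠ u := fun e => huS (e ▸ h3S)
      have h32 : v3 ≠ u2 := fun e => h2S (e ▸ h3S)
      have hnb : nbB s v = {u, u2, v3} := by
        symm
        apply eq_of_subset_of_card_le
        · intro w hw
          rw [mem_insert, mem_insert, mem_singleton] at hw
          rcases hw with rfl | rfl | rfl
          · exact mem_nbB.2 huv0
          · exact mem_nbB.2 h2v
          · exact mem_nbB.2 h3v
        · rw [h.hc.col v, card_insert_of_notMem, card_pair h32.symm]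
          rw [mem_insert, mem_singleton, not_or]
          exact ⟨h2u.symm, h3u.symm⟩
      have hvmem : ∀ x ∈ S, s x v ≠ 0 → x = v3 := by
        intro x hx hxv
        rw [← mem_nbB, hnb, mem_insert, mem_insert, mem_singleton] at hxv
        rcases hxv with e | e | e
        · exact absurd (e ▸ hx) huS
        · exact absurd (e ▸ hx) h2S
        · exact e
      have hvc : v ≠ c' := by
        rintro rfl
        have h6 : s c v ≠ 0 := (KCase1b_rowc hq).2 (Or.inr (Or.inr rfl))
        rw [← mem_nbB, hnb, mem_insert, mem_insert, mem_singleton] at h6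
        rcases h6 with e | e | e
        · exact uc e.symm
        · exact h2c e.symm
        · exact hS.na (e ▸ h3S)
      have hce := card_erase_add_one h3S
      by_cases h3d : v3 = d'
      · exfalso
        have hne : (S.erase v3).Nonempty := by
          rw [← card_pos]
          by_contra h6
          have h7 : S.card = 1 := by omega
          exact hS.one h7 (hcd huS)
        have hsub : NA s (S.erase v3) ⊆ ((NA s S).erase d).erase v := by
          intro y hy
          obtain ⟨x, hx, hxy⟩ := mem_NA.1 hy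
          rw [mem_erase] at hx
          rw [mem_erase, mem_erase]
          refine ⟨?_, ?_, mem_NA.2 ⟨x, hx.2, hxy⟩⟩
          · rintro rfl
            exact hx.1 (hvmem x hx.2 hxy)
          · rintro rfl
            rcases (KCase1b_cold hq).1 hxy with e | e | e
            · exact hS.nc (e ▸ hx.2)
            · exact hS.na (e ▸ hx.2)
            · exact hx.1 (e.trans h3d.symm)
        have h8 := card_le_card hsub
        have h9 := card_erase_add_one hdN
        have h10 := card_erase_add_one (mem_erase.2 ⟨vd, hv⟩)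
        have h11 := h.hb.hall (S.erase v3) hne (by omega)
        have h12 := hS.tight
        omega
      · have hd'S : d' ∈ S.erase v3 := mem_erase.2 ⟨fun e => h3d e.symm, hS.mb⟩
        have hsub : NA s (S.erase v3) ⊆ (NA s S).erase v := by
          intro y hy
          obtain ⟨x, hx, hxy⟩ := mem_NA.1 hy
          rw [mem_erase] at hx
          rw [mem_erase]
          refine ⟨?_, mem_NA.2 ⟨x, hx.2, hxy⟩⟩
          rintro rfl
          exact hx.1 (hvmem x hx.2 hxy)
        have h8 := card_le_card hsub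
        have h10 := card_erase_add_one hv
        have h11 := h.hb.hall (S.erase v3) ⟨d', hd'S⟩ (by omega)
        have h12 := hS.tight
        have heq : NA s (S.erase v3) = (NA s S).erase v :=
          eq_of_subset_of_card_le hsub (by omega)
        refine ⟨S.erase v3, ⟨?_, ?_, hd'S, ?_, by omega, ?_, ?_, by omega⟩, by omega⟩
        · exact fun e => hS.na (mem_of_mem_erase e)
        · exact fun e => hS.nc (mem_of_mem_erase e)
        · exact fun e => hS.nd (mem_of_mem_erase e)
        · rw [heq, mem_erase]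
          exact ⟨hvc.symm, hS.ha⟩
        · exact fun e => hS.hc (NA_mono (erase_subset _ _) e)
    · exfalso
      refine h.FF (hS.shore2 h.hc hq.swap h5) (clean_of h.hc.val ?_ ?_ ?_)
      · intro x hx y hy hxy
        simp only [mem_sdiff, mem_univ, true_and, mem_insert, not_or] at hx hy
        rcases KCase1b_mem hneg hxy with e | e
        · exact hx.2.1 e.1
        · exact hy.2 (e.2 ▸ hv)
      · intro x hx y hy hxy x2 hx2 hxy2
        simp only [mem_sdiff, mem_univ, true_and, mem_insert, not_or] at hx hx2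
        rcases KCase1b_mem hneg hxy with e | e
        · exact absurd e.1 hx.2.1
        · rw [e.1] at hx ⊢
          rw [e.2] at hxy2
          by_contra hne
          exact hu ⟨hx.2.2, x2, hne, hx2.2.1, hx2.1, hx2.2.2, hxy2⟩
      · intro x hx y hy hxy
        simp only [mem_sdiff, mem_univ, true_and, mem_insert, not_or] at hy
        rcases KCase1b_mem hneg hxy with e | e
        · exact absurd e.2 hy.1
        · exact absurd (e.2 ▸ hv) hy.2
  · exfalso
    have huS : u ∉ S := fun e => hv (mem_NA.2 ⟨u, e, huv0⟩)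
    have h2 : 2 ≤ S.card := by
      by_contra hlt
      exact hS.one (by omega) (hcd huS)
    refine h.FFtr (hS.shore1 h.hc hq.swap h2) (clean_of h.hc.tr.val ?_ ?_ ?_)
    · intro y hy x hx hxy
      rw [tr_apply] at hxy
      rcases KCase1b_mem hneg hxy with e | e
      · exact hS.nc (e.1 ▸ hx)
      · exact huS (e.1 ▸ hx)
    · intro y hy x hx hxy
      rw [tr_apply] at hxy
      rw [mem_sdiff, mem_singleton] at hy
      rcases KCase1b_mem hneg hxy with e | e
      · exact absurd (e.2 ▸ hy.1) hbN
      · exact absurd (e.2 ▸ hy.1) hv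
    · intro y hy x hx hxy
      rw [tr_apply] at hxy
      rcases KCase1b_mem hneg hxy with e | e
      · exact absurd (e.1 ▸ hx) hS.nc
      · exact absurd (e.1 ▸ hx) huS

/-- Piece K1b2: bad sets that contain `d'`.

Proof. Suppose there is one, choose `S` with `|S|` minimal. (`QBad s c a d' b' c' a' S`: `a, c, b' ∉ S`, `d' ∈ S`, `|N(S)| = |S| + 2`, `c' ∈ N(S)`, `a' ∉ N(S)`; `d ∈ N(S)`, `b ∉ N(S)`.) `|S| ≤ n - 5` by
`QBad.top` for `hq.swap` (it would give `s b' a' ≠ 0`). The shore `QBad.shore2` for `hq.swap`: rows `A \ {a,c} \ S`, columns `B \ {b} \ N(S)`.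
(1) `u ∈ S` (then `v ∈ N(S)`), or `u ∉ S`, `v ∈ N(S)` and `v` has no other neighbour than `u` outside `S ∪ {a,c}`: the shore is clean (`clean_of`): `a` is not a row and `b` not a column of it.
Contradiction (`Ctx.FF`).
(2) `u ∉ S`, `v ∉ N(S)`: the shore `QBad.shore1` for `hq.swap`, `(N(S) \ {d}, S)` of `tr s`, is clean: `a, u ∉ S`, `b, v ∉ N(S)`. It needs `|S| ≥ 2`: otherwise `s d' c' ≠ 0` (`QBad.one`), `u = d'`
(`case1b_cd`), but `d' ∈ S`. Contradiction (`Ctx.FFtr`).
(3) `u ∉ S`, `v ∈ N(S)`, `v` has another neighbour `u2 ≠ u` outside `S ∪ {a,c}`. As `v ∈ N(S)` its third neighbour `v3` is in `S`, and it is the only neighbour of `v` in `S`. `v ≠ c'` (otherwise `c` would be a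
fourth neighbour). If `v3 = d'`: `S ≠ {d'}`, because otherwise `c' ∈ N(S)` means `s d' c' ≠ 0`, so `u = d' ∈ S`. `N(S \ {d'}) ⊆ N(S) \ {d, v}` (the only neighbour of `d` in `S` is `d'`) has at most
`|S| = |S \ {d'}| + 1` elements: against the brace property. If `v3 ≠ d'`: `S' = S \ {v3}`; `N(S') ⊆ N(S) \ {v}` has at most `|S'| + 2` elements, so by the brace property exactly, and
`N(S') = N(S) \ {v}`; `c' ∈ N(S')`, `a' ∉ N(S')`, `d' ∈ S'`: a smaller bad set. Contradiction. -/
theorem no_qbad_b2 {n : ℕ} {s : A → B → ℤ} (h : Ctx n s) {a c b' d' : A} {b d a' c' : B}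
    (hq : QData s a c b' d' b d a' c') {u : A} {v : B} (hneg : neg s = {(a, b), (u, v)}) (ua : u ≠ a) (uc : u ≠ c)
    (vb : v ≠ b) (vd : v ≠ d) (hab : s b' a' = 0) (S : Finset A) : ¬ QBad s c a d' b' c' a' S := by
  have key : ∀ k : ℕ, ∀ T : Finset A, T.card = k → ¬ QBad s c a d' b' c' a' T := by
    intro k
    induction k using Nat.strong_induction_on with
    | _ k ih =>
      intro T hT hbad
      obtain ⟨T', hT', hlt⟩ := KCase1b_step2 h hq hneg ua uc vb vd hab hbad
      exact ih T'.card (by omega) T' rfl hT'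
  exact key _ S rfl

/-- Piece K1b3. The reduced graph is a cubic SNS brace: `n ≥ 5` (`five_le_card`), `QData.rhall`, `Off.brace`, `QData.simple`, `qf_cubic`, `qf_sns`. -/
theorem case1b_red {n : ℕ} {s : A → B → ℤ} (h : Ctx n s) {a c b' d' : A} {b d a' c' : B}
    (hq : QData s a c b' d' b d a' c') {u : A} {v : B} (hneg : neg s = {(a, b), (u, v)}) (ua : u ≠ a) (uc : u ≠ c)
    (vb : v ≠ b) (vd : v ≠ d) (hab : s b' a' = 0) : s d' c' = 0 ∧ Cubic (rst (qf s a c b' d' b d a' c') a c b d) ∧
      Brace (rst (qf s a c b' d' b d a' c') a c b d) ∧ SNS (rst (qf s a c b' d' b d a' c') a c b d) := by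
  have h5 : 5 ≤ Fintype.card A := by
    apply five_le_card h.hc h.hb h.hs
    rw [hneg]
    exact card_le_two
  have hR := hq.rhall h.hc h.hb h5 (no_qbad_b1 h hq hneg ua uc vb vd hab) (no_qbad_b2 h hq hneg ua uc vb vd hab)
  obtain ⟨h1, h2⟩ := hq.simple h.hc h5 hR
  have hbr := hq.off.brace h5 hR
  exact ⟨h2, hq.qf_cubic h.hc h1 h2, hbr, hq.qf_sns h.hc h.hs h1 h2 hbr⟩

/-- Piece K1b4. The negative edges of the reduced graph are `uv` and `d'c'`: the new entry at `(b',a')` is `-(-1)(1)(1) = 1`, the new entry at `(d',c')` is `-1`, all other entries are those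
of `s` or `0`. -/
theorem case1b_neg {n : ℕ} {s : A → B → ℤ} (h : Ctx n s) {a c b' d' : A} {b d a' c' : B}
    (hq : QData s a c b' d' b d a' c') {u : A} {v : B} (hneg : neg s = {(a, b), (u, v)}) (ua : u ≠ a) (uc : u ≠ c)
    (vb : v ≠ b) (vd : v ≠ d) (hab : s b' a' = 0) (hcd : s d' c' = 0) :
    neg (qf s a c b' d' b d a' c') = {(u, v), (d', c')} := by
  have huv := KCase1b_uv hneg
  have f1 : s a b = -1 := KCase1b_ab hneg
  have f2 : s a a' = 1 := KCase1b_one h.hc hneg ((KCase1b_rowa hq).2 (Or.inr (Or.inr rfl))) (fun e => hq.a'b e.2)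
    (fun e => ua e.1.symm)
  have f3 : s b' b = 1 := KCase1b_one h.hc hneg ((KCase1b_colb hq).2 (Or.inr (Or.inr rfl))) (fun e => hq.b'a e.1)
    (fun e => vb e.2.symm)
  have f4 : s c d = 1 := KCase1b_one h.hc hneg ((KCase1b_rowc hq).2 (Or.inr (Or.inl rfl))) (fun e => hq.ac e.1.symm)
    (fun e => uc e.1.symm)
  have f5 : s c c' = 1 := KCase1b_one h.hc hneg ((KCase1b_rowc hq).2 (Or.inr (Or.inr rfl))) (fun e => hq.ac e.1.symm)
    (fun e => uc e.1.symm)
  have f6 : s d' d = 1 := KCase1b_one h.hc hneg ((KCase1b_cold hq).2 (Or.inr (Or.inr rfl))) (fun e => hq.d'a e.1)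
    (fun e => vd e.2.symm)
  ext ⟨x, y⟩
  rw [mem_neg, mem_insert, mem_singleton, Prod.mk.injEq, Prod.mk.injEq]
  unfold qf
  by_cases h0 : x = a ∨ x = c ∨ y = b ∨ y = d
  · rw [if_pos h0]
    constructor
    · intro e
      norm_num at e
    · intro e
      exfalso
      rcases e with ⟨rfl, rfl⟩ | ⟨rfl, rfl⟩
      · rcases h0 with e | e | e | e
        exacts [ua e, uc e, vb e, vd e]
      · rcases h0 with e | e | e | e
        exacts [hq.d'a e, hq.d'c e, hq.c'b e, hq.c'd e]
  · rw [if_neg h0]
    by_cases h1 : x = b' ∧ y = a'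
    · rw [if_pos h1, f1, f2, f3]
      constructor
      · intro e
        norm_num at e
      · intro e
        exfalso
        obtain ⟨rfl, rfl⟩ := h1
        rcases e with ⟨e1, e2⟩ | ⟨e1, e2⟩
        · rw [← e1, ← e2, hab] at huv
          norm_num at huv
        · exact hq.b'd' e1
    · rw [if_neg h1]
      by_cases h2 : x = d' ∧ y = c'
      · rw [if_pos h2, f4, f5, f6]
        constructor
        · intro _
          exact Or.inr h2
        · intro _
          norm_num
      · rw [if_neg h2]
        constructor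
        · intro e
          rcases KCase1b_mem hneg e with e | e
          · exact absurd (Or.inl e.1) h0
          · exact Or.inl e
        · rintro (⟨rfl, rfl⟩ | e)
          · exact huv
          · exact absurd e h2

end MCC
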