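import Pool.Agent.Lib_MP_cb5629.KMat

set_option linter.unusedSectionVars false

namespace MCC

open Finset

variable {A B : Type} [Fintype A] [Fintype B] [DecidableEq A] [DecidableEq B]

/-- add one pair to a partial matching -/
private lemma KE_upd {s : A → B → ℤ} {D : Finset A} {E : Finset B} {f : A → B} (hi : Set.InjOn f D)
    (hm : ∀ a ∈ D, f a ∈ E ∧ s a (f a) ≠ 0) {p : A} {q : B} (hp : p ∉ D) (hq : q ∉ E) (hpq : s p q ≠ 0) :
    Set.InjOn (Function.update f p q) (insert p D : Finset A) ∧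
      ∀ a ∈ insert p D, Function.update f p q a ∈ insert q E ∧ s a (Function.update f p q a) ≠ 0 := by
  have h1 : ∀ a ∈ D, Function.update f p q a = f a := fun a ha =>
    Function.update_of_ne (fun e => hp (by rw [← e]; exact ha)) q f
  constructor
  · intro a ha b hb hab
    rw [mem_coe, mem_insert] at ha hb
    rcases ha with rfl | ha <;> rcases hb with rfl | hb
    · rfl
    · rw [Function.update_self, h1 b hb] at hab
      exact absurd (hab ▸ (hm b hb).1) hq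
    · rw [Function.update_self, h1 a ha] at hab
      exact absurd (hab ▸ (hm a ha).1) hq
    · rw [h1 a ha, h1 b hb] at hab
      exact hi ha hb hab
  · intro a ha
    rw [mem_insert] at ha
    rcases ha with rfl | ha
    · rw [Function.update_self]
      exact ⟨mem_insert_self _ _, hpq⟩
    · rw [h1 a ha]
      exact ⟨mem_insert_of_mem (hm a ha).1, (hm a ha).2⟩

/-- extend a partial matching by a list of pairs -/
private lemma KE_ext {s : A → B → ℤ} : ∀ (l : List (A × B)) (D : Finset A) (E : Finset B) (f : A → B),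
    Set.InjOn f D → (∀ a ∈ D, f a ∈ E ∧ s a (f a) ≠ 0) → (l.map Prod.fst).Nodup →
    (l.map Prod.snd).Nodup → (∀ p ∈ l, p.1 ∉ D ∧ p.2 ∉ E ∧ s p.1 p.2 ≠ 0) →
    ∃ g : A → B, Set.InjOn g {a | a ∈ D ∨ a ∈ l.map Prod.fst} ∧
      (∀ a, (a ∈ D ∨ a ∈ l.map Prod.fst) → s a (g a) ≠ 0) ∧ (∀ a ∈ D, g a = f a) ∧
      ∀ p ∈ l, g p.1 = p.2
  | [], D, E, f, hi, hm, _, _, _ => by
    refine ⟨f, ?_, ?_, fun _ _ => rfl, ?_⟩
    · intro a ha b hb hab
      simp only [List.map_nil, List.not_mem_nil, or_false, Set.mem_setOf_eq] at ha hb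
      exact hi (mem_coe.2 ha) (mem_coe.2 hb) hab
    · intro a ha
      simp only [List.map_nil, List.not_mem_nil, or_false] at ha
      exact (hm a ha).2
    · intro p hp
      simp at hp
  | p :: l, D, E, f, hi, hm, h1, h2, h3 => by
    rw [List.map_cons, List.nodup_cons] at h1 h2
    obtain ⟨a1, a2, a3⟩ := h3 p (by simp)
    obtain ⟨i1, m1⟩ := KE_upd hi hm a1 a2 a3
    obtain ⟨g, g1, g2, g3, g4⟩ := KE_ext (s := s) l (insert p.1 D) (insert p.2 E) (Function.update f p.1 p.2)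
      i1 m1 h1.2 h2.2 (by
        intro q hq
        obtain ⟨b1, b2, b3⟩ := h3 q (List.mem_cons_of_mem _ hq)
        refine ⟨?_, ?_, b3⟩
        · rw [mem_insert, not_or]
          exact ⟨fun e => h1.1 (e ▸ List.mem_map_of_mem hq), b1⟩
        · rw [mem_insert, not_or]
          exact ⟨fun e => h2.1 (e ▸ List.mem_map_of_mem hq), b2⟩)
    refine ⟨g, ?_, ?_, ?_, ?_⟩
    · intro a ha b hb hab
      refine g1 ?_ ?_ hab
      · simp only [List.map_cons, List.mem_cons, Set.mem_setOf_eq, mem_insert] at ha ⊢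
        tauto
      · simp only [List.map_cons, List.mem_cons, Set.mem_setOf_eq, mem_insert] at hb ⊢
        tauto
    · intro a ha
      apply g2
      simp only [List.map_cons, List.mem_cons, mem_insert] at ha ⊢
      tauto
    · intro a ha
      rw [g3 a (mem_insert_of_mem ha), Function.update_of_ne (fun e => a1 (by rw [← e]; exact ha))]
    · intro q hq
      rw [List.mem_cons] at hq
      rcases hq with rfl | hq
      · rw [g3 _ (mem_insert_self _ _), Function.update_self]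
      · exact g4 q hq

/-- a perfect matching from a matching of the outside and six pairs -/
private lemma KE_ext6 {s : A → B → ℤ} (hcard : Fintype.card A = Fintype.card B) (f : A → B)
    {p1 p2 p3 p4 p5 p6 : A} {q1 q2 q3 q4 q5 q6 : B} {D : Finset A} {E : Finset B}
    (hi : Set.InjOn f D) (hm : ∀ a ∈ D, f a ∈ E ∧ s a (f a) ≠ 0)
    (hD : ∀ a, a ∈ D ↔ a ≠ p1 ∧ a ≠ p2 ∧ a ≠ p3 ∧ a ≠ p4 ∧ a ≠ p5 ∧ a ≠ p6)
    (hE : ∀ b, b ∈ E ↔ b ≠ q1 ∧ b ≠ q2 ∧ b ≠ q3 ∧ b ≠ q4 ∧ b ≠ q5 ∧ b ≠ q6)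
    (hp : [p1, p2, p3, p4, p5, p6].Nodup) (hq : [q1, q2, q3, q4, q5, q6].Nodup)
    (h1 : s p1 q1 ≠ 0) (h2 : s p2 q2 ≠ 0) (h3 : s p3 q3 ≠ 0) (h4 : s p4 q4 ≠ 0) (h5 : s p5 q5 ≠ 0)
    (h6 : s p6 q6 ≠ 0) :
    ∃ σ : A ≃ B, IsPM s σ ∧ σ p1 = q1 ∧ σ p2 = q2 ∧ σ p3 = q3 ∧ σ p4 = q4 ∧ σ p5 = q5 ∧ σ p6 = q6 := by
  obtain ⟨g, g1, g2, -, g4⟩ := KE_ext (s := s) [(p1, q1), (p2, q2), (p3, q3), (p4, q4), (p5, q5), (p6, q6)]
    D E f hi hm (by simpa using hp) (by simpa using hq) (by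
      intro p hp
      simp only [List.mem_cons, List.not_mem_nil, or_false] at hp
      rw [hD, hE]
      rcases hp with rfl | rfl | rfl | rfl | rfl | rfl
      · exact ⟨by tauto, by tauto, h1⟩
      · exact ⟨by tauto, by tauto, h2⟩
      · exact ⟨by tauto, by tauto, h3⟩
      · exact ⟨by tauto, by tauto, h4⟩
      · exact ⟨by tauto, by tauto, h5⟩
      · exact ⟨by tauto, by tauto, h6⟩)
  have hall : ∀ a, a ∈ D ∨
      a ∈ [(p1, q1), (p2, q2), (p3, q3), (p4, q4), (p5, q5), (p6, q6)].map Prod.fst := by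
    intro a
    rw [hD]
    simp only [List.map_cons, List.map_nil, List.mem_cons, List.not_mem_nil, or_false]
    tauto
  have hinj : Function.Injective g := fun a b hab => g1 (hall a) (hall b) hab
  have hbij : Function.Bijective g := (Fintype.bijective_iff_injective_and_card g).2 ⟨hinj, hcard⟩
  refine ⟨Equiv.ofBijective g hbij, fun a => g2 a (hall a), ?_, ?_, ?_, ?_, ?_, ?_⟩
  · exact g4 (p1, q1) (by simp)
  · exact g4 (p2, q2) (by simp)
  · exact g4 (p3, q3) (by simp)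
  · exact g4 (p4, q4) (by simp)
  · exact g4 (p5, q5) (by simp)
  · exact g4 (p6, q6) (by simp)

/-- Piece KE ((e)). If `N0 - σ2 - ρ1` has a perfect matching, `r1 c'` is of type II.

Proof. Let `f` be the matching `hM` and `f'` that of `KCtx.d1` (`N0 - b' - ρ1`). Bijections `A ≃ B` (injective maps, `|A| = |B|`), all agreeing with `f` resp. `f'` on the rows outside
`VA ∪ {σ2}` resp. `VA ∪ {b'}`:
`σ`   : `σ2 ↦ t2, d' ↦ d, a ↦ b, c ↦ c', r1 ↦ ρ1, r2 ↦ t1` and `f`;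
`τ`   : `b' ↦ b, d' ↦ t2, a ↦ d, c ↦ c', r1 ↦ ρ1, r2 ↦ t1` and `f'`;
`PM1` : `σ2 ↦ t2, d' ↦ t1, a ↦ b, c ↦ d, r1 ↦ ρ1, r2 ↦ c'` and `f`;
`PM2` : `b' ↦ b, d' ↦ t1, a ↦ d, c ↦ c', r1 ↦ ρ1, r2 ↦ t2` and `f'`.
`σ, τ` agree on `nbB s c' = {c, r1, r2}`, with values in `nbA s r1 = {c', t1, ρ1}`, and match all other rows along edges. `PM1`, `PM2` are perfect matchings of `s`, so `relSign s univ PM1 PM2 = 1`
(`sameSign_of_sns`). `PM1 = π.trans σ` with the 3-cycle `π : d' ↦ r2 ↦ c ↦ d'` (even), `PM2 = (swap d' r2).trans τ` (odd). So `sign (PM1.trans PM2.symm) = - sign (σ.trans τ.symm)`. The products: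
over the rows outside `{c, r1, r2, d'}` the factors `s x (PM1 x) * s x (PM2 x)` and `s x (σ x) * s x (τ x)` are equal; `d'`: `s d' t1 * s d' t1 = 1` and `s d' d * s d' t2 = 1` (`(d',d)` is not a
negative edge); `c`: `s c d * s c c' = 1`; `r1`: `(s r1 ρ1)^2 = 1`; `r2`: `s r2 c' * s r2 t2 = 1`. So `relSign s (univ \ nbB s c') σ τ = - relSign s univ PM1 PM2 = -1`. -/
theorem KCtx.e {n : ℕ} {s : A → B → ℤ} {D : KD A B} (h : KCtx n s D) (hM : D.Mat s D.σ2 D.ρ1) :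
    TypeII s D.r1 D.c' := by
  obtain ⟨f, hfi, hf⟩ := hM
  obtain ⟨f', hfi', hf'⟩ := h.d1
  have hcard := h.cx.hc.card_eq
  have hval := h.cx.hc.val
  -- edges
  have e_ab : s D.a D.b ≠ 0 := mem_nbA.1 (by rw [h.q.na]; simp)
  have e_ad : s D.a D.d ≠ 0 := mem_nbA.1 (by rw [h.q.na]; simp)
  have e_cd : s D.c D.d ≠ 0 := mem_nbA.1 (by rw [h.q.nc]; simp)
  have e_cc' : s D.c D.c' ≠ 0 := mem_nbA.1 (by rw [h.q.nc]; simp)
  have e_b'b : s D.b' D.b ≠ 0 := mem_nbB.1 (by rw [h.q.nb]; simp)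
  have e_d'd : s D.d' D.d ≠ 0 := mem_nbB.1 (by rw [h.q.nd]; simp)
  have e_d't1 : s D.d' D.t1 ≠ 0 := by rw [h.pd1]; norm_num
  have e_d't2 : s D.d' D.t2 ≠ 0 := by rw [h.pd2]; norm_num
  have e_r1ρ1 : s D.r1 D.ρ1 ≠ 0 := mem_nbA.1 (by rw [h.nr1]; simp)
  have e_r1c' : s D.r1 D.c' ≠ 0 := by rw [h.pr1]; norm_num
  have e_r1t1 : s D.r1 D.t1 ≠ 0 := by rw [h.pt1]; norm_num
  have e_r2c' : s D.r2 D.c' ≠ 0 := by rw [h.pr2]; norm_num
  have e_r2t2 : s D.r2 D.t2 ≠ 0 := by rw [h.pt2]; norm_num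
  have e_σ2t2 : s D.σ2 D.t2 ≠ 0 := mem_nbB.1 (by rw [h.nt2]; simp)
  -- distinctness
  have nA := h.nodA
  have nB := h.nodB
  have ob' := h.ob'
  have oσ2 := h.oσ2
  have oρ1 := h.oρ1
  simp only [List.nodup_cons, List.mem_cons, List.not_mem_nil, or_false, not_or, not_false_eq_true,
    List.nodup_nil, and_true] at nA nB
  simp only [KD.VA, KD.VB, mem_insert, mem_singleton, not_or] at ob' oσ2 oρ1
  obtain ⟨⟨ac, ad', ar1, ar2⟩, ⟨cd', cr1, cr2⟩, ⟨d'r1, d'r2⟩, r1r2⟩ := nA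
  obtain ⟨⟨bd, bc', bt1, bt2⟩, ⟨dc', dt1, dt2⟩, ⟨c't1, c't2⟩, t1t2⟩ := nB
  obtain ⟨b'a, b'c, b'd', b'r1, b'r2⟩ := ob'
  obtain ⟨σa, σc, σd', σr1, σr2⟩ := oσ2
  obtain ⟨ρb, ρd, ρc', ρt1, ρt2⟩ := oρ1
  -- signs
  have hpos : ∀ x y, s x y ≠ 0 → (x, y) ≠ (D.a, D.b) → (x, y) ≠ (D.u, D.v) → s x y = 1 := by
    intro x y h0 h1 h2
    rcases hval x y with h3 | h3 | h3
    · exact absurd h3 h0
    · exact h3
    · have h4 : (x, y) ∈ neg s := mem_neg.2 h3
      rw [h.hneg, mem_insert, mem_singleton] at h4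
      rcases h4 with h4 | h4
      · exact absurd h4 h1
      · exact absurd h4 h2
  have v_d'd : s D.d' D.d = 1 := hpos _ _ e_d'd (fun e => bd (congrArg Prod.snd e).symm) (by
    intro e
    exact h.vd (congrArg Prod.snd e).symm)
  have v_cd : s D.c D.d = 1 := hpos _ _ e_cd (fun e => bd (congrArg Prod.snd e).symm) (by
    intro e
    exact h.vd (congrArg Prod.snd e).symm)
  have v_cc' : s D.c D.c' = 1 := hpos _ _ e_cc' (fun e => ac (congrArg Prod.fst e).symm) (by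
    intro e
    exact h.uc (congrArg Prod.fst e).symm)
  have hsq : ∀ x y, s x y ≠ 0 → s x y * s x y = 1 := by
    intro x y h0
    rcases hval x y with h3 | h3 | h3
    · exact absurd h3 h0
    · rw [h3]; norm_num
    · rw [h3]; norm_num
  -- the two perfect matchings
  obtain ⟨M1, hM1, m1σ, m1d', m1a, m1c, m1r1, m1r2⟩ := KE_ext6 (s := s) hcard f
    (p1 := D.σ2) (p2 := D.d') (p3 := D.a) (p4 := D.c) (p5 := D.r1) (p6 := D.r2)
    (q1 := D.t2) (q2 := D.t1) (q3 := D.b) (q4 := D.d) (q5 := D.ρ1) (q6 := D.c') hfi hf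
    (by
      intro a
      simp only [KD.VA, mem_sdiff, mem_univ, true_and, mem_insert, mem_singleton, not_or, ne_eq]
      tauto)
    (by
      intro b
      simp only [KD.VB, mem_sdiff, mem_univ, true_and, mem_insert, mem_singleton, not_or, ne_eq]
      tauto)
    (by
      simp only [List.nodup_cons, List.mem_cons, List.not_mem_nil, or_false, not_or, not_false_eq_true,
        List.nodup_nil, and_true]
      exact ⟨⟨σd', σa, σc, σr1, σr2⟩, ⟨Ne.symm ad', Ne.symm cd', d'r1, d'r2⟩, ⟨ac, ar1, ar2⟩, ⟨cr1, cr2⟩, r1r2⟩)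
    (by
      simp only [List.nodup_cons, List.mem_cons, List.not_mem_nil, or_false, not_or, not_false_eq_true,
        List.nodup_nil, and_true]
      exact ⟨⟨Ne.symm t1t2, Ne.symm bt2, Ne.symm dt2, Ne.symm ρt2, Ne.symm c't2⟩,
        ⟨Ne.symm bt1, Ne.symm dt1, Ne.symm ρt1, Ne.symm c't1⟩, ⟨bd, Ne.symm ρb, bc'⟩, ⟨Ne.symm ρd, dc'⟩, ρc'⟩)
    e_σ2t2 e_d't1 e_ab e_cd e_r1ρ1 e_r2c'
  obtain ⟨M2, hM2, m2b', m2d', m2a, m2c, m2r1, m2r2⟩ := KE_ext6 (s := s) hcard f'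
    (p1 := D.b') (p2 := D.d') (p3 := D.a) (p4 := D.c) (p5 := D.r1) (p6 := D.r2)
    (q1 := D.b) (q2 := D.t1) (q3 := D.d) (q4 := D.c') (q5 := D.ρ1) (q6 := D.t2) hfi' hf'
    (by
      intro a
      simp only [KD.VA, mem_sdiff, mem_univ, true_and, mem_insert, mem_singleton, not_or, ne_eq]
      tauto)
    (by
      intro b
      simp only [KD.VB, mem_sdiff, mem_univ, true_and, mem_insert, mem_singleton, not_or, ne_eq]
      tauto)
    (by
      simp only [List.nodup_cons, List.mem_cons, List.not_mem_nil, or_false, not_or, not_false_eq_true,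
        List.nodup_nil, and_true]
      exact ⟨⟨b'd', b'a, b'c, b'r1, b'r2⟩, ⟨Ne.symm ad', Ne.symm cd', d'r1, d'r2⟩, ⟨ac, ar1, ar2⟩, ⟨cr1, cr2⟩, r1r2⟩)
    (by
      simp only [List.nodup_cons, List.mem_cons, List.not_mem_nil, or_false, not_or, not_false_eq_true,
        List.nodup_nil, and_true]
      exact ⟨⟨bt1, bd, bc', Ne.symm ρb, bt2⟩, ⟨Ne.symm dt1, Ne.symm c't1, Ne.symm ρt1, t1t2⟩,
        ⟨dc', Ne.symm ρd, dt2⟩, ⟨Ne.symm ρc', c't2⟩, ρt2⟩)
    e_b'b e_d't1 e_ad e_cc' e_r1ρ1 e_r2t2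
  have hSS := (sameSign_of_sns hval h.cx.hs h.cx.hc.exists_pm).2 M1 M2 hM1 hM2
  unfold relSign at hSS
  -- the permutations
  set c1 : Equiv.Perm A := (Equiv.swap D.d' D.r2).trans (Equiv.swap D.r2 D.c) with hc1
  set c2 : Equiv.Perm A := Equiv.swap D.d' D.r2 with hc2
  have c1d' : c1 D.d' = D.c := by
    rw [hc1, Equiv.trans_apply, Equiv.swap_apply_left, Equiv.swap_apply_left]
  have c1c : c1 D.c = D.r2 := by
    rw [hc1, Equiv.trans_apply, Equiv.swap_apply_of_ne_of_ne cd' cr2, Equiv.swap_apply_right]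
  have c1r2 : c1 D.r2 = D.d' := by
    rw [hc1, Equiv.trans_apply, Equiv.swap_apply_right, Equiv.swap_apply_of_ne_of_ne d'r2 (Ne.symm cd')]
  have c1o : ∀ x, x ≠ D.d' → x ≠ D.c → x ≠ D.r2 → c1 x = x := by
    intro x h1 h2 h3
    rw [hc1, Equiv.trans_apply, Equiv.swap_apply_of_ne_of_ne h1 h3, Equiv.swap_apply_of_ne_of_ne h3 h2]
  have c2d' : c2 D.d' = D.r2 := Equiv.swap_apply_left _ _
  have c2r2 : c2 D.r2 = D.d' := Equiv.swap_apply_right _ _
  have c2o : ∀ x, x ≠ D.d' → x ≠ D.r2 → c2 x = x := fun x h1 h2 => Equiv.swap_apply_of_ne_of_ne h1 h2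
  have hall : ∀ x, x ∈ nbB s D.c' ↔ x = D.c ∨ x = D.r1 ∨ x = D.r2 := by
    intro x
    rw [h.nc']
    simp
  have hout : ∀ x, x ∉ nbB s D.c' → s x ((c1.trans M1) x) ≠ 0 ∧ s x ((c2.trans M2) x) ≠ 0 := by
    intro x hx
    rw [hall, not_or, not_or] at hx
    obtain ⟨xc, xr1, xr2⟩ := hx
    change s x (M1 (c1 x)) ≠ 0 ∧ s x (M2 (c2 x)) ≠ 0
    by_cases e : x = D.d'
    · rw [e, c1d', c2d', m1c, m2r2]
      exact ⟨e_d'd, e_d't2⟩
    · rw [c1o x e xc xr2, c2o x e xr2]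
      exact ⟨hM1 x, hM2 x⟩
  refine ⟨e_r1c', c1.trans M1, c2.trans M2, ?_, hout, ?_⟩
  · intro x hx
    rw [mem_nbA]
    change M2 (c2 x) = M1 (c1 x) ∧ s D.r1 (M1 (c1 x)) ≠ 0
    rcases (hall x).1 hx with e | e | e
    · rw [e, c1c, c2o _ cd' cr2, m1r2, m2c]
      exact ⟨rfl, e_r1c'⟩
    · rw [e, c1o _ (Ne.symm d'r1) (Ne.symm cr1) r1r2, c2o _ (Ne.symm d'r1) r1r2, m1r1, m2r1]
      exact ⟨rfl, e_r1ρ1⟩
    · rw [e, c1r2, c2r2, m1d', m2d']
      exact ⟨rfl, e_r1t1⟩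
  · unfold relSign
    have hprod : ∏ x ∈ univ \ nbB s D.c', (s x ((c1.trans M1) x) * s x ((c2.trans M2) x))
        = ∏ x, (s x (M1 x) * s x (M2 x)) := by
      have h1 : ∏ x ∈ nbB s D.c', (s x (M1 x) * s x (M2 x)) = 1 := by
        apply prod_eq_one
        intro x hx
        rcases (hall x).1 hx with e | e | e
        · rw [e, m1c, m2c, v_cd, v_cc']; norm_num
        · rw [e, m1r1, m2r1]; exact hsq _ _ e_r1ρ1
        · rw [e, m1r2, m2r2, h.pr2, h.pt2]; norm_num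
      rw [← prod_sdiff (subset_univ (nbB s D.c')), h1, mul_one]
      apply prod_congr rfl
      intro x hx
      rw [mem_sdiff, hall, not_or, not_or] at hx
      obtain ⟨-, xc, xr1, xr2⟩ := hx
      change s x (M1 (c1 x)) * s x (M2 (c2 x)) = _
      by_cases e : x = D.d'
      · rw [e, c1d', c2d', m1c, m2r2, m1d', m2d', v_d'd, h.pd2, h.pd1]
      · rw [c1o x e xc xr2, c2o x e xr2]
    rw [hprod]
    have e1 : (c1.trans M1).trans (c2.trans M2).symm = (c1.trans (M1.trans M2.symm)).trans c2.symm := by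
      ext a; rfl
    rw [e1, Equiv.Perm.sign_trans, Equiv.Perm.sign_trans, Equiv.Perm.sign_symm]
    have s2 : Equiv.Perm.sign c2 = -1 := Equiv.Perm.sign_swap d'r2
    have s1 : Equiv.Perm.sign c1 = 1 := by
      rw [hc1, Equiv.Perm.sign_trans, Equiv.Perm.sign_swap d'r2, Equiv.Perm.sign_swap (Ne.symm cr2)]
      rfl
    rw [s1, s2]
    push_cast
    linarith

end MCC
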