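import Pool.Agent.Lib_MP_cb5629.KSym

set_option linter.unusedSectionVars false

namespace MCC

open Finset

variable {A B : Type} [Fintype A] [Fintype B] [DecidableEq A] [DecidableEq B]

/-- Piece F1 (first part of (f)). From a set violating (T) for the edge `r1 c'` to `KTight`.

Proof. Let `S0` violate (T): `2 ≤ |S0|`, `|S0| + 4 ≤ n`, `r1 ∉ S0`, `c, r2 ∈ S0` (`nc'`), `t1, ρ1 ∉ NA s S0` (`nr1`), `|NA s S0| = |S0| + 2`. `d', σ1 ∉ S0` (they are adjacent to `t1`). Put
`S = S0 \ {a, c}`; `r2 ∈ S`, `d' ∉ S`, so `d ∉ NA s S` (its neighbours are `a, c, d'`); `b, d, c' ∈ NA s S0` (`c ∈ S0`), `c' ∈ NA s S`. `NA (D.g s) S = (NA s S \ {b}) ∪ (if b' ∈ S then {a'})` by `NA_g`.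
Case `a ∈ S0`: `|S| = |S0| - 2`, `NA s S0 = {b, d} ∪ (NA s S \ {b}) ∪ {a'}`, so `|(NA s S \ {b}) ∪ {a'}| = |S| + 2`. If `b' ∈ S` this is `NA (D.g s) S`. If `b' ∉ S`, `NA (D.g s) S = NA s S \ {b}` has at
least `|S| + 2` elements (`rhall`), so it is all of `(NA s S \ {b}) ∪ {a'}`. So `tight` and `a' ∈ NA (D.g s) S`. `ρ1 ∉ NA (D.g s) S`, because `NA (D.g s) S ⊆ NA s S0`.
Case `a ∉ S0`: `|S| = |S0| - 1`, `NA s S0 = {b, d} ∪ (NA s S \ {b})`, so `|NA s S \ {b}| = |S| + 1`; by `rhall` `b' ∈ S`, `a' ∉ NA s S`, and `NA (D.g s) S = (NA s S \ {b}) ∪ {a'}` has `|S| + 2` elements. If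
`ρ1` is in it, then `ρ1 = a'` as `ρ1 ∉ NA s S0`.
`t1 ∉ NA (D.g s) S` as `t1 ∉ NA s S0`, `t1 ≠ a'`. `|S| + 5 ≤ n` in both cases. -/
theorem KCtx.f1 {n : ℕ} {s : A → B → ℤ} {D : KD A B} (h : KCtx n s D) (hT : ¬ CondT s D.r1 D.c') :
    ∃ S, KTight s D S := by
  unfold CondT at hT
  push Not at hT
  obtain ⟨S0, h2, h4, hr1, hin, hout, hcard⟩ := hT
  have hA := h.nodA
  have hB := h.nodB
  simp only [List.nodup_cons, List.mem_cons, not_or, List.not_mem_nil, not_false_eq_true,
    List.nodup_nil, and_true] at hA hB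
  obtain ⟨⟨ac, ad', ar1, ar2⟩, ⟨cd', cr1, cr2⟩, ⟨d'r1, d'r2⟩, r12⟩ := hA
  obtain ⟨⟨bd, bc', bt1, bt2⟩, ⟨dc', dt1, dt2⟩, ⟨c't1, c't2⟩, t12⟩ := hB
  have oa' := h.oa'
  have oρ1 := h.oρ1
  simp only [KD.VB, mem_insert, mem_singleton, not_or] at oa' oρ1
  obtain ⟨a'b, a'd, a'c', a't1, a't2⟩ := oa'
  obtain ⟨ρb, ρd, ρc', ρt1, ρt2⟩ := oρ1
  -- members of `S0`
  have hc0 : D.c ∈ S0 := by
    apply hin D.c ?_ cr1
    rw [h.nc']; simp
  have hr20 : D.r2 ∈ S0 := by
    apply hin D.r2 ?_ (Ne.symm r12)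
    rw [h.nc']; simp
  have ht10 : D.t1 ∉ NA s S0 := by
    apply hout D.t1 ?_ (Ne.symm c't1)
    rw [h.nr1]; simp
  have hρ10 : D.ρ1 ∉ NA s S0 := by
    apply hout D.ρ1 ?_ ρc'
    rw [h.nr1]; simp
  have adjt1 : ∀ x, x ∈ nbB s D.t1 → x ∉ S0 := by
    intro x hx hxS
    exact ht10 (mem_NA.2 ⟨x, hxS, mem_nbB.1 hx⟩)
  have hd'0 : D.d' ∉ S0 := adjt1 _ (by rw [h.nt1]; simp)
  have hσ10 : D.σ1 ∉ S0 := adjt1 _ (by rw [h.nt1]; simp)
  set S : Finset A := S0 \ {D.a, D.c} with hS
  have hSa : D.a ∉ S := by simp [hS]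
  have hSc : D.c ∉ S := by simp [hS]
  have hSS0 : S ⊆ S0 := sdiff_subset
  have hSr2 : D.r2 ∈ S := by
    rw [hS, mem_sdiff]
    refine ⟨hr20, ?_⟩
    simp only [mem_insert, mem_singleton, not_or]
    exact ⟨Ne.symm ar2, Ne.symm cr2⟩
  have hSr1 : D.r1 ∉ S := fun h' => hr1 (hSS0 h')
  have hSd' : D.d' ∉ S := fun h' => hd'0 (hSS0 h')
  have hSσ1 : D.σ1 ∉ S := fun h' => hσ10 (hSS0 h')
  have hmono : NA s S ⊆ NA s S0 := NA_mono hSS0
  have hdN : D.d ∉ NA s S := by
    rw [mem_NA]
    rintro ⟨x, hx, hxd⟩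
    have hx' : x ∈ nbB s D.d := mem_nbB.2 hxd
    rw [h.q.nd] at hx'
    simp only [mem_insert, mem_singleton] at hx'
    rcases hx' with rfl | rfl | rfl
    · exact hSa hx
    · exact hSc hx
    · exact hSd' hx
  have hc'N : D.c' ∈ NA s S := by
    have : D.c' ∈ nbA s D.r2 := by rw [h.nr2]; simp
    exact mem_NA.2 ⟨D.r2, hSr2, mem_nbA.1 this⟩
  set X : Finset B := NA s S \ {D.b} with hX
  have hXg : NA (D.g s) S = X ∪ (if D.b' ∈ S then {D.a'} else ∅) := by
    rw [h.NA_g hSa hSc, if_neg hSd', union_empty]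
    congr 1
    ext y
    simp only [hX, mem_sdiff, mem_insert, mem_singleton, not_or]
    constructor
    · rintro ⟨h1, h3, _⟩
      exact ⟨h1, h3⟩
    · rintro ⟨h1, h3⟩
      exact ⟨h1, h3, fun h5 => hdN (h5 ▸ h1)⟩
  have hXN0 : X ⊆ NA s S0 := fun y hy => hmono (mem_sdiff.1 hy).1
  have hbX : D.b ∉ X := by simp [hX]
  have hdX : D.d ∉ X := fun h' => hdN (mem_sdiff.1 h').1
  have hSne : S.Nonempty := ⟨D.r2, hSr2⟩
  by_cases ha0 : D.a ∈ S0
  · -- case `a ∈ S0`
    have hins : S0 = insert D.a (insert D.c S) := by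
      ext x
      simp only [hS, mem_insert, mem_sdiff, mem_singleton, not_or]
      constructor
      · intro hx
        by_cases h1 : x = D.a
        · exact Or.inl h1
        · by_cases h3 : x = D.c
          · exact Or.inr (Or.inl h3)
          · exact Or.inr (Or.inr ⟨hx, h1, h3⟩)
      · rintro (rfl | rfl | h1)
        · exact ha0
        · exact hc0
        · exact h1.1
    have hSc2 : S0.card = S.card + 2 := by
      rw [hins, card_insert_of_notMem, card_insert_of_notMem hSc]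
      simp only [mem_insert, not_or]
      exact ⟨ac, hSa⟩
    have hN0 : NA s S0 = insert D.b (insert D.d (X ∪ {D.a'})) := by
      rw [hins, NA_insert, NA_insert, h.q.na, h.q.nc]
      ext y
      simp only [hX, mem_union, mem_insert, mem_singleton, mem_sdiff]
      constructor
      · rintro ((h1 | h1 | h1) | (h1 | h1 | h1) | h1)
        · exact Or.inl h1
        · exact Or.inr (Or.inl h1)
        · exact Or.inr (Or.inr (Or.inr h1))
        · exact Or.inl h1
        · exact Or.inr (Or.inl h1)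
        · refine Or.inr (Or.inr (Or.inl ⟨h1 ▸ hc'N, ?_⟩))
          rw [h1]; exact Ne.symm bc'
        · by_cases h3 : y = D.b
          · exact Or.inl h3
          · exact Or.inr (Or.inr (Or.inl ⟨h1, h3⟩))
      · rintro (h1 | h1 | ⟨h1, _⟩ | h1)
        · exact Or.inl (Or.inl h1)
        · exact Or.inl (Or.inr (Or.inl h1))
        · exact Or.inr (Or.inr h1)
        · exact Or.inl (Or.inr (Or.inr h1))
    have hXc : (X ∪ {D.a'}).card = S.card + 2 := by
      have h1 : D.d ∉ X ∪ {D.a'} := by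
        simp only [mem_union, mem_singleton, not_or]
        exact ⟨hdX, Ne.symm a'd⟩
      have h3 : D.b ∉ insert D.d (X ∪ {D.a'}) := by
        simp only [mem_insert, mem_union, mem_singleton, not_or]
        exact ⟨bd, hbX, Ne.symm a'b⟩
      rw [hN0, card_insert_of_notMem h3, card_insert_of_notMem h1] at hcard
      omega
    have hgeq : NA (D.g s) S = X ∪ {D.a'} := by
      by_cases hb' : D.b' ∈ S
      · rw [hXg, if_pos hb']
      · rw [hXg, if_neg hb', union_empty]
        apply eq_of_subset_of_card_le subset_union_left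
        have h1 := h.rhall S hSa hSc hSne (by omega)
        rw [hXg, if_neg hb', union_empty] at h1
        omega
    have hsub : NA (D.g s) S ⊆ NA s S0 := by
      rw [hgeq, hN0]
      intro y hy
      exact mem_insert_of_mem (mem_insert_of_mem hy)
    refine ⟨S, hSa, hSc, hSr2, hSr1, hSd', hSσ1, ?_, ?_, ?_, ?_, ?_⟩
    · rw [hgeq, hXc]
    · rw [hgeq]; simp
    · exact fun h' => ht10 (hsub h')
    · exact fun h' => absurd (hsub h') hρ10
    · omega
  · -- case `a ∉ S0`
    have hins : S0 = insert D.c S := by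
      ext x
      simp only [hS, mem_insert, mem_sdiff, mem_singleton, not_or]
      constructor
      · intro hx
        by_cases h3 : x = D.c
        · exact Or.inl h3
        · exact Or.inr ⟨hx, fun h1 => ha0 (h1 ▸ hx), h3⟩
      · rintro (rfl | h1)
        · exact hc0
        · exact h1.1
    have hSc2 : S0.card = S.card + 1 := by
      rw [hins, card_insert_of_notMem hSc]
    have hN0 : NA s S0 = insert D.b (insert D.d X) := by
      rw [hins, NA_insert, h.q.nc]
      ext y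
      simp only [hX, mem_union, mem_insert, mem_singleton, mem_sdiff]
      constructor
      · rintro ((h1 | h1 | h1) | h1)
        · exact Or.inl h1
        · exact Or.inr (Or.inl h1)
        · refine Or.inr (Or.inr ⟨h1 ▸ hc'N, ?_⟩)
          rw [h1]; exact Ne.symm bc'
        · by_cases h3 : y = D.b
          · exact Or.inl h3
          · exact Or.inr (Or.inr ⟨h1, h3⟩)
      · rintro (h1 | h1 | ⟨h1, _⟩)
        · exact Or.inl (Or.inl h1)
        · exact Or.inl (Or.inr (Or.inl h1))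
        · exact Or.inr h1
    have hXc : X.card = S.card + 1 := by
      have h3 : D.b ∉ insert D.d X := by
        simp only [mem_insert, not_or]
        exact ⟨bd, hbX⟩
      rw [hN0, card_insert_of_notMem h3, card_insert_of_notMem hdX] at hcard
      omega
    have h1 := h.rhall S hSa hSc hSne (by omega)
    rw [hXg] at h1
    have hb' : D.b' ∈ S := by
      by_contra hb'
      rw [if_neg hb', union_empty] at h1
      omega
    rw [if_pos hb'] at h1
    have ha'X : D.a' ∉ X := by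
      intro h'
      rw [union_eq_left.2 (singleton_subset_iff.2 h')] at h1
      omega
    have ha'N : D.a' ∉ NA s S := by
      intro h'
      apply ha'X
      rw [hX, mem_sdiff]
      exact ⟨h', by simpa using a'b⟩
    have hgeq : NA (D.g s) S = X ∪ {D.a'} := by rw [hXg, if_pos hb']
    have hgc : (NA (D.g s) S).card = S.card + 2 := by
      rw [hgeq, card_union_of_disjoint (disjoint_singleton_right.2 ha'X), card_singleton, hXc]
    refine ⟨S, hSa, hSc, hSr2, hSr1, hSd', hSσ1, hgc, ?_, ?_, ?_, ?_⟩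
    · rw [hgeq]; simp
    · rw [hgeq, mem_union, mem_singleton]
      rintro (h3 | h3)
      · exact ht10 (hXN0 h3)
      · exact a't1 h3.symm
    · rw [hgeq, mem_union, mem_singleton]
      rintro (h3 | h3)
      · exact absurd (hXN0 h3) hρ10
      · exact ⟨h3.symm, h3 ▸ ha'N⟩
    · omega

end MCC
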