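import Pool.Agent.Lib_MP_cb5629.KSym

/-! (f) of the paper text. `g = D.g s` is `G'`, `N' = NA g S`, `|N'| = |S| + 2`; `n' = n - 2`. The negative edges of `g` are `(u,v)` and `(d',c')`. -/

set_option linter.unusedSectionVars false

namespace MCC

open Finset

variable {A B : Type} [Fintype A] [Fintype B] [DecidableEq A] [DecidableEq B]

private theorem KF2_one {n : ℕ} {s : A → B → ℤ} {D : KD A B} (h : KCtx n s D) {x : A} {y : B}
    (h0 : D.g s x y ≠ 0) (hn : (x, y) ∉ neg (D.g s)) : D.g s x y = 1 := by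
  have xa : x ≠ D.a := by
    rintro rfl
    exact h0 (h.off.ra y)
  have xc : x ≠ D.c := by
    rintro rfl
    exact h0 (h.off.rc y)
  have yb : y ≠ D.b := by
    rintro rfl
    exact h0 (h.off.cb x)
  have yd : y ≠ D.d := by
    rintro rfl
    exact h0 (h.off.cd x)
  have h1 : D.g s x y = 0 ∨ D.g s x y = 1 ∨ D.g s x y = -1 := h.gcub.val ⟨x, xa, xc⟩ ⟨y, yb, yd⟩
  rcases h1 with h1 | h1 | h1
  · exact absurd h1 h0
  · exact h1
  · exact absurd (mem_neg.2 h1) hn

private theorem KF2_nodA {n : ℕ} {s : A → B → ℤ} {D : KD A B} (h : KCtx n s D) :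
    D.a ≠ D.c ∧ D.a ≠ D.d' ∧ D.a ≠ D.r1 ∧ D.c ≠ D.d' ∧ D.c ≠ D.r1 ∧ D.d' ≠ D.r1 ∧ D.d' ≠ D.r2 := by
  have h1 := h.nodA
  simp only [List.nodup_cons, List.mem_cons, List.not_mem_nil, not_or, or_false, not_false_iff,
    List.nodup_nil, and_true] at h1
  obtain ⟨⟨h1, h2, h3, h4⟩, ⟨h5, h6, h7⟩, ⟨h8, h9⟩, h10⟩ := h1
  exact ⟨h1, h2, h3, h5, h6, h8, h9⟩

private theorem KF2_nodB {n : ℕ} {s : A → B → ℤ} {D : KD A B} (h : KCtx n s D) :
    D.b ≠ D.d ∧ D.b ≠ D.t1 ∧ D.d ≠ D.t1 ∧ D.c' ≠ D.t2 := by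
  have h1 := h.nodB
  simp only [List.nodup_cons, List.mem_cons, List.not_mem_nil, not_or, or_false, not_false_iff,
    List.nodup_nil, and_true] at h1
  obtain ⟨⟨h1, h2, h3, h4⟩, ⟨h5, h6, h7⟩, ⟨h8, h9⟩, h10⟩ := h1
  exact ⟨h1, h3, h6, h9⟩

/-- Piece F2. The case in which the shore `Zc = (N' \ {c'}, S \ {r2})` is clean.

Proof. `U = S \ {r2}`. `c' ∈ N'`, and no row of `U` is adjacent to `c'` in `g` (`gc'`: `d', r1 ∉ S`). So `NA g U ⊆ N' \ {c'}`, `|NA g U| ≤ |U| + 2`; if `U ≠ ∅` equality by `rhall`.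
(1) `|S| ≥ 3`: apply `h.rfftr` to `RA = NA g U`, `RB = U`, `e = 2`: `bLegs (tr g) (NA g U) U = ∅`, sizes: `4 ≤ |U| + 2`, `|U| + 2 + 4 = |S| + 5 ≤ n`. Clean: `u, d' ∉ U`; the negative edge `(u,v)`: if
`v ∈ NA g U` (`⊆ N' \ {c'}`), `u` has no other neighbour in `NA g U` by `hZ`; `(d',c')`: `c' ∉ NA g U`. Contradiction.
(2) `|S| = 2`, `S = {r2, w}`: `NA g {w} = N' \ {c'}` contains `t2, ρ2` (neighbours of `r2`), so `(r2,w;t2,ρ2)` is a square of `g`; its rows are in `S`, so it contains neither `(u,v)` nor `(d',c')`: against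
`h.odd` (all four entries would be `1`).
(3) `|S| = 1`, `S = {r2}`: `N' = nbA g r2 = {c', t2, ρ2}` (`gr1` for `D.swap`) contains `a'`, and `a' ≠ c', t2` (`oa'`). -/
theorem KCtx.f2 {n : ℕ} {s : A → B → ℤ} {D : KD A B} (h : KCtx n s D) {S : Finset A} (hS : KTight s D S)
    (hu : D.u ∉ S) (hZ : ∀ y ∈ NA (D.g s) S, y ≠ D.c' → D.v ∈ NA (D.g s) S → D.g s D.u y ≠ 0 → y = D.v) :
    D.a' = D.ρ2 := by
  obtain ⟨-, -, -, -, -, -, dr2⟩ := KF2_nodA h
  obtain ⟨-, -, -, ct2⟩ := KF2_nodB h
  have hA : Fintype.card A = n := h.cx.hn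
  have hB : Fintype.card B = n := by rw [← h.cx.hc.card_eq]; exact hA
  have hupp := hS.upp
  have hr2 : nbA (D.g s) D.r2 = {D.c', D.t2, D.ρ2} := h.swap.gr1
  have gc : D.g s D.r2 D.c' ≠ 0 := mem_nbA.1 (by rw [hr2]; simp)
  have gt2 : D.g s D.r2 D.t2 ≠ 0 := mem_nbA.1 (by rw [hr2]; simp)
  have gρ2 : D.g s D.r2 D.ρ2 ≠ 0 := mem_nbA.1 (by rw [hr2]; simp)
  have hρ2 := h.oρ2
  simp only [KD.VB, mem_insert, mem_singleton, not_or] at hρ2
  obtain ⟨-, -, ρc, -, ρt⟩ := hρ2
  have hc'N : D.c' ∈ NA (D.g s) S := mem_NA.2 ⟨_, hS.r2, gc⟩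
  have hcol : ∀ x ∈ S.erase D.r2, D.g s x D.c' = 0 := by
    intro x hx
    by_contra h0
    have h1 : x ∈ nbB (D.g s) D.c' := mem_nbB.2 h0
    rw [h.gc'] at h1
    simp only [mem_insert, mem_singleton] at h1
    have h2 := mem_erase.1 hx
    rcases h1 with e | e | e
    · rw [e] at h2
      exact hS.d' h2.2
    · rw [e] at h2
      exact hS.r1 h2.2
    · exact h2.1 e
  have hsub : NA (D.g s) (S.erase D.r2) ⊆ (NA (D.g s) S).erase D.c' := by
    intro y hy
    obtain ⟨x, hx, hxy⟩ := mem_NA.1 hy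
    refine mem_erase.2 ⟨?_, mem_NA.2 ⟨x, mem_of_mem_erase hx, hxy⟩⟩
    rintro rfl
    exact hxy (hcol x hx)
  have hcE : ((NA (D.g s) S).erase D.c').card = S.card + 1 := by
    rw [card_erase_of_mem hc'N, hS.tight]
    omega
  have hcU : (S.erase D.r2).card + 1 = S.card := card_erase_add_one hS.r2
  have hnegS : ∀ x ∈ S, ∀ y, (x, y) ∉ neg (D.g s) := by
    intro x hx y hxy
    rw [h.gneg] at hxy
    simp only [mem_insert, mem_singleton, Prod.mk.injEq] at hxy
    rcases hxy with ⟨e, -⟩ | ⟨e, -⟩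
    · rw [e] at hx
      exact hu hx
    · rw [e] at hx
      exact hS.d' hx
  by_cases hU : (S.erase D.r2).Nonempty
  · have hge : (S.erase D.r2).card + 2 ≤ (NA (D.g s) (S.erase D.r2)).card :=
      h.rhall _ (fun e => hS.na (mem_of_mem_erase e)) (fun e => hS.nc (mem_of_mem_erase e)) hU
        (by omega)
    have hle := card_le_card hsub
    have heq : (NA (D.g s) (S.erase D.r2)).card = (S.erase D.r2).card + 2 := by omega
    by_cases h3 : 2 ≤ (S.erase D.r2).card
    · exfalso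
      have hemp : bLegs (MCC.tr (D.g s)) (NA (D.g s) (S.erase D.r2)) (S.erase D.r2) = ∅ := by
        ext ⟨y, x⟩
        simp only [mem_bLegs, tr_apply, notMem_empty, iff_false, not_and]
        intro h1 h2 h4
        exact h1 (mem_NA.2 ⟨x, h2, h4⟩)
      refine h.rfftr (NA (D.g s) (S.erase D.r2)) (S.erase D.r2) 2 ?_ ?_
        (fun e => hS.na (mem_of_mem_erase e)) (fun e => hS.nc (mem_of_mem_erase e)) heq ?_ ?_ ?_ ?_ ?_ ?_
      · intro e
        obtain ⟨x, -, hx⟩ := mem_NA.1 e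
        exact hx (h.off.cb x)
      · intro e
        obtain ⟨x, -, hx⟩ := mem_NA.1 e
        exact hx (h.off.cd x)
      · rw [hemp, card_empty]
      · omega
      · omega
      · intro y _ x hx e
        exact hnegS x (mem_of_mem_erase hx) y (mem_neg.2 e)
      · intro y hy x hx e y' hy' hne
        have hm : (x, y) ∈ neg (D.g s) := mem_neg.2 e
        rw [h.gneg] at hm
        simp only [mem_insert, mem_singleton, Prod.mk.injEq] at hm
        have hy1 := mem_erase.1 (hsub hy)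
        have hy2 := mem_erase.1 (hsub hy')
        rcases hm with ⟨e1, e2⟩ | ⟨e1, e2⟩
        · rw [e2]
          rw [e1] at hne
          rw [e2] at hy1
          exact hZ y' hy2.2 hy2.1 hy1.2 hne
        · exact absurd e2 hy1.1
      · intro y _ x hx e
        exact absurd (mem_neg.2 e) (hnegS x (mem_of_mem_erase hx) y)
    · exfalso
      have h1 : (S.erase D.r2).card = 1 := by
        have := hU.card_pos
        omega
      obtain ⟨w, hw⟩ := card_eq_one.1 h1
      have hN : NA (D.g s) (S.erase D.r2) = (NA (D.g s) S).erase D.c' :=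
        eq_of_subset_of_card_le hsub (by omega)
      have hwU : w ∈ S.erase D.r2 := by rw [hw]; exact mem_singleton_self w
      have hw2 := mem_erase.1 hwU
      have key : ∀ y, D.g s D.r2 y ≠ 0 → y ≠ D.c' → D.g s w y ≠ 0 := by
        intro y hy hyc
        have h2 : y ∈ NA (D.g s) (S.erase D.r2) := by
          rw [hN]
          exact mem_erase.2 ⟨hyc, mem_NA.2 ⟨_, hS.r2, hy⟩⟩
        obtain ⟨x, hx, hxy⟩ := mem_NA.1 h2
        rw [hw, mem_singleton] at hx
        rwa [hx] at hxy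
      have k1 := key _ gt2 (Ne.symm ct2)
      have k2 := key _ gρ2 ρc
      have hodd := h.odd (Ne.symm hw2.1) (Ne.symm ρt) gt2 gρ2 k1 k2
      rw [KF2_one h gt2 (hnegS _ hS.r2 _), KF2_one h gρ2 (hnegS _ hS.r2 _),
        KF2_one h k1 (hnegS _ hw2.2 _), KF2_one h k2 (hnegS _ hw2.2 _)] at hodd
      norm_num at hodd
  · rw [not_nonempty_iff_eq_empty] at hU
    have hSe : S = {D.r2} := by
      have h1 := insert_erase hS.r2
      rw [hU] at h1
      rw [← h1]
      rfl
    have ha := hS.a'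
    rw [hSe, NA_singleton, hr2] at ha
    simp only [mem_insert, mem_singleton] at ha
    have hoa := h.oa'
    simp only [KD.VB, mem_insert, mem_singleton, not_or] at hoa
    rcases ha with e | e | e
    · exact absurd e hoa.2.2.1
    · exact absurd e hoa.2.2.2.2
    · exact e

/-- Piece F6. The small cases: `|S| ≥ n' - 4`.

Proof. (1) `|S| + 6 = n`: `univ \ {b, d, t1} \ N'` has `n - 3 - (|S| + 2) = 1` element `b0` (`t1 ∉ N'`); its neighbours in `g` are in `univ \ {a, c, d'} \ S` (not `d'`: `gd'`, `c', t2 ∈ N'` as `r2 ∈ S`), a set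
with `n - 3 - |S| = 3` elements, which contains `r1`, `σ1`; so (`gcol`) `b0` is adjacent in `g` to `r1` and to `σ1`; by `gr1` `b0 = ρ1`. The entry `(σ1,ρ1)` of `g` is not the new edge `(b',a')`
because `a' ∈ N'`, `ρ1 = b0 ∉ N'`; so `s σ1 ρ1 ≠ 0`.
(2) `|S| + 5 = n`: `univ \ {b, d} \ N' = {t1}`, so `ρ1 ∈ N'`, and `hS.ρ1`: `a' = ρ1`, `ρ1 ∉ NA s S`. The neighbours of `ρ1` in `s` are not in `S`, not `c` (`oρ1`), not `d'` (`nd'`); so they are in
`univ \ S \ {c, d'}`, which has `n - |S| - 2 = 3` elements, `a, r1, σ1`. So `s σ1 ρ1 ≠ 0`.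
Both: `(r1,σ1;t1,ρ1)` is a square of `s`; by `square_odd` one of its entries is `-1`, i.e. it is `(a,b)` (no: `r1, σ1 ≠ a`) or `(u,v)`; `s r1 t1 = 1`. (`n' - 4 ≤ |S|` is `n ≤ |S| + 6`.) -/
theorem KCtx.f6 {n : ℕ} {s : A → B → ℤ} {D : KD A B} (h : KCtx n s D) {S : Finset A} (hS : KTight s D S)
    (hn : n ≤ S.card + 6) : s D.σ1 D.ρ1 ≠ 0 ∧ ((D.u = D.r1 ∧ D.v = D.ρ1) ∨ (D.u = D.σ1 ∧ (D.v = D.t1 ∨ D.v = D.ρ1))) ∧
      (S.card + 5 = n → D.a' = D.ρ1) := by
  obtain ⟨ac, ad', ar1, cd', cr1, d'r1, d'r2⟩ := KF2_nodA h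
  obtain ⟨bd, bt1, dt1, ct2⟩ := KF2_nodB h
  have hA : Fintype.card A = n := h.cx.hn
  have hB : Fintype.card B = n := by rw [← h.cx.hc.card_eq]; exact hA
  have hupp := hS.upp
  have hσ1 := h.oσ1
  simp only [KD.VA, mem_insert, mem_singleton, not_or] at hσ1
  obtain ⟨σa, σc, σd', σr1, -⟩ := hσ1
  have hρ1 := h.oρ1
  simp only [KD.VB, mem_insert, mem_singleton, not_or] at hρ1
  obtain ⟨ρb, ρd, ρc, ρt1, -⟩ := hρ1
  have hr2 : nbA (D.g s) D.r2 = {D.c', D.t2, D.ρ2} := h.swap.gr1
  have hc'N : D.c' ∈ NA (D.g s) S := mem_NA.2 ⟨_, hS.r2, mem_nbA.1 (by rw [hr2]; simp)⟩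
  have ht2N : D.t2 ∈ NA (D.g s) S := mem_NA.2 ⟨_, hS.r2, mem_nbA.1 (by rw [hr2]; simp)⟩
  have hbN : D.b ∉ NA (D.g s) S := fun e => by
    obtain ⟨x, -, hx⟩ := mem_NA.1 e
    exact hx (h.off.cb x)
  have hdN : D.d ∉ NA (D.g s) S := fun e => by
    obtain ⟨x, -, hx⟩ := mem_NA.1 e
    exact hx (h.off.cd x)
  have key : s D.σ1 D.ρ1 ≠ 0 ∧ (S.card + 5 = n → D.a' = D.ρ1) := by
    by_cases h5 : S.card + 5 = n
    · have hM : (insert D.b (insert D.d (NA (D.g s) S))).card = S.card + 4 := by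
        rw [card_insert_of_notMem, card_insert_of_notMem hdN, hS.tight]
        rw [mem_insert, not_or]
        exact ⟨bd, hbN⟩
      have hρN : D.ρ1 ∈ NA (D.g s) S := by
        by_contra hcon
        have h1 : D.ρ1 ∉ insert D.b (insert D.d (NA (D.g s) S)) := by
          simp only [mem_insert, not_or]
          exact ⟨ρb, ρd, hcon⟩
        have h2 : D.t1 ∉ insert D.ρ1 (insert D.b (insert D.d (NA (D.g s) S))) := by
          simp only [mem_insert, not_or]
          exact ⟨Ne.symm ρt1, Ne.symm bt1, Ne.symm dt1, hS.t1⟩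
        have h3 : (insert D.t1 (insert D.ρ1 (insert D.b (insert D.d (NA (D.g s) S))))).card = S.card + 6 := by
          rw [card_insert_of_notMem h2, card_insert_of_notMem h1, hM]
        have h4 := card_le_univ (insert D.t1 (insert D.ρ1 (insert D.b (insert D.d (NA (D.g s) S)))))
        omega
      obtain ⟨e1, e2⟩ := hS.ρ1 hρN
      refine ⟨?_, fun _ => e1⟩
      have hW : (univ \ insert D.c (insert D.d' S)).card = 3 := by
        rw [card_sdiff_of_subset (subset_univ _), card_univ, card_insert_of_notMem,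
          card_insert_of_notMem hS.d']
        · omega
        · rw [mem_insert, not_or]
          exact ⟨cd', hS.nc⟩
      have hsub : nbB s D.ρ1 ⊆ univ \ insert D.c (insert D.d' S) := by
        intro x hx
        rw [mem_nbB] at hx
        rw [mem_sdiff, mem_insert, mem_insert, not_or, not_or]
        refine ⟨mem_univ _, ?_, ?_, ?_⟩
        · intro e
          rw [e] at hx
          have h1 : D.ρ1 ∈ nbA s D.c := mem_nbA.2 hx
          rw [h.q.nc] at h1
          simp only [mem_insert, mem_singleton] at h1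
          rcases h1 with h1 | h1 | h1
          · exact ρb h1
          · exact ρd h1
          · exact ρc h1
        · intro e
          rw [e] at hx
          have h1 : D.ρ1 ∈ nbA s D.d' := mem_nbA.2 hx
          rw [h.nd'] at h1
          simp only [mem_insert, mem_singleton] at h1
          have h2 := h.oρ1
          simp only [KD.VB, mem_insert, mem_singleton, not_or] at h2
          rcases h1 with h1 | h1 | h1
          · exact ρd h1
          · exact ρt1 h1
          · exact h2.2.2.2.2 h1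
        · intro e
          exact e2 (mem_NA.2 ⟨x, e, hx⟩)
      have heq : nbB s D.ρ1 = univ \ insert D.c (insert D.d' S) :=
        eq_of_subset_of_card_le hsub (by rw [hW, h.cx.hc.col])
      have hm : D.σ1 ∈ nbB s D.ρ1 := by
        rw [heq, mem_sdiff, mem_insert, mem_insert, not_or, not_or]
        exact ⟨mem_univ _, σc, σd', hS.σ1⟩
      exact mem_nbB.1 hm
    · have h6 : S.card + 6 = n := by omega
      refine ⟨?_, fun e => absurd e h5⟩
      have hM : (insert D.b (insert D.d (insert D.t1 (NA (D.g s) S)))).card = S.card + 5 := by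
        rw [card_insert_of_notMem, card_insert_of_notMem, card_insert_of_notMem hS.t1, hS.tight]
        · rw [mem_insert, not_or]
          exact ⟨dt1, hdN⟩
        · rw [mem_insert, mem_insert, not_or, not_or]
          exact ⟨bd, bt1, hbN⟩
      have hex : ∃ b0, b0 ∉ insert D.b (insert D.d (insert D.t1 (NA (D.g s) S))) := by
        by_contra hcon
        push Not at hcon
        have h1 : insert D.b (insert D.d (insert D.t1 (NA (D.g s) S))) = univ :=
          eq_univ_of_forall hcon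
        rw [h1, card_univ] at hM
        omega
      obtain ⟨b0, hb0⟩ := hex
      simp only [mem_insert, not_or] at hb0
      obtain ⟨b0b, b0d, b0t, b0N⟩ := hb0
      have hW : (univ \ insert D.a (insert D.c (insert D.d' S))).card = 3 := by
        rw [card_sdiff_of_subset (subset_univ _), card_univ, card_insert_of_notMem,
          card_insert_of_notMem, card_insert_of_notMem hS.d']
        · omega
        · rw [mem_insert, not_or]
          exact ⟨cd', hS.nc⟩
        · rw [mem_insert, mem_insert, not_or, not_or]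
          exact ⟨ac, ad', hS.na⟩
      have hsub : nbB (D.g s) b0 ⊆ univ \ insert D.a (insert D.c (insert D.d' S)) := by
        intro x hx
        rw [mem_nbB] at hx
        rw [mem_sdiff, mem_insert, mem_insert, mem_insert, not_or, not_or, not_or]
        refine ⟨mem_univ _, ?_, ?_, ?_, ?_⟩
        · intro e
          rw [e] at hx
          exact hx (h.off.ra b0)
        · intro e
          rw [e] at hx
          exact hx (h.off.rc b0)
        · intro e
          rw [e] at hx
          have h1 : b0 ∈ nbA (D.g s) D.d' := mem_nbA.2 hx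
          rw [h.gd'] at h1
          simp only [mem_insert, mem_singleton] at h1
          rcases h1 with h1 | h1 | h1
          · rw [h1] at b0N
            exact b0N hc'N
          · exact b0t h1
          · rw [h1] at b0N
            exact b0N ht2N
        · intro e
          exact b0N (mem_NA.2 ⟨x, e, hx⟩)
      have heq : nbB (D.g s) b0 = univ \ insert D.a (insert D.c (insert D.d' S)) :=
        eq_of_subset_of_card_le hsub (by rw [hW, h.gcol b0b b0d])
      have m1 : D.r1 ∈ nbB (D.g s) b0 := by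
        rw [heq, mem_sdiff, mem_insert, mem_insert, mem_insert, not_or, not_or, not_or]
        exact ⟨mem_univ _, Ne.symm ar1, Ne.symm cr1, Ne.symm d'r1, hS.r1⟩
      have m2 : D.σ1 ∈ nbB (D.g s) b0 := by
        rw [heq, mem_sdiff, mem_insert, mem_insert, mem_insert, not_or, not_or, not_or]
        exact ⟨mem_univ _, σa, σc, σd', hS.σ1⟩
      have h1 : b0 ∈ nbA (D.g s) D.r1 := mem_nbA.2 (mem_nbB.1 m1)
      rw [h.gr1] at h1
      simp only [mem_insert, mem_singleton] at h1
      have hb : b0 = D.ρ1 := by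
        rcases h1 with h1 | h1 | h1
        · rw [h1] at b0N
          exact absurd hc'N b0N
        · exact absurd h1 b0t
        · exact h1
      have h2 := mem_nbB.1 m2
      rw [hb] at h2 b0N
      rw [h.g_eq σa σc ρb ρd] at h2
      · exact h2
      · rintro ⟨-, e⟩
        rw [e] at b0N
        exact b0N hS.a'
      · rintro ⟨e, -⟩
        exact σd' e
  obtain ⟨hσρ, h5⟩ := key
  refine ⟨hσρ, ?_, h5⟩
  have q1 : s D.r1 D.t1 ≠ 0 := by rw [h.pt1]; norm_num
  have q2 : s D.r1 D.ρ1 ≠ 0 := mem_nbA.1 (by rw [h.nr1]; simp)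
  have q3 : s D.σ1 D.t1 ≠ 0 := mem_nbB.1 (by rw [h.nt1]; simp)
  have hsq := square_odd h.cx.hc h.cx.hb h.cx.hs (Ne.symm σr1) (Ne.symm ρt1) q1 q2 q3 hσρ
  have hneg : ∀ x y, s x y = -1 → x ≠ D.a → D.u = x ∧ D.v = y := by
    intro x y e hxa
    have h1 : (x, y) ∈ neg s := mem_neg.2 e
    rw [h.hneg] at h1
    simp only [mem_insert, mem_singleton, Prod.mk.injEq] at h1
    rcases h1 with ⟨e1, -⟩ | ⟨e1, e2⟩
    · exact absurd e1 hxa
    · exact ⟨e1.symm, e2.symm⟩
  rcases (h.cx.hc.val D.r1 D.ρ1).resolve_left q2 with v1 | v1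
  · rcases (h.cx.hc.val D.σ1 D.t1).resolve_left q3 with v2 | v2
    · rcases (h.cx.hc.val D.σ1 D.ρ1).resolve_left hσρ with v3 | v3
      · rw [h.pt1, v1, v2, v3] at hsq
        norm_num at hsq
      · have h1 := hneg _ _ v3 σa
        exact Or.inr ⟨h1.1, Or.inr h1.2⟩
    · have h1 := hneg _ _ v2 σa
      exact Or.inr ⟨h1.1, Or.inl h1.2⟩
  · exact Or.inl (hneg _ _ v1 (Ne.symm ar1))

end MCC
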