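import Pool.Agent.Lib_MP_cb5629.KF2

set_option linter.unusedSectionVars false

namespace MCC

open Finset

variable {A B : Type} [Fintype A] [Fintype B] [DecidableEq A] [DecidableEq B]

private theorem KF3_in {n : ℕ} {s : A → B → ℤ} {D : KD A B} (h : KCtx n s D) {S : Finset A} (hS : KTight s D S) :
    D.c' ∈ NA (D.g s) S ∧ D.t2 ∈ NA (D.g s) S ∧ D.b ∉ NA (D.g s) S ∧ D.d ∉ NA (D.g s) S := by
  have hr2 : nbA (D.g s) D.r2 = {D.c', D.t2, D.ρ2} := h.swap.gr1
  refine ⟨mem_NA.2 ⟨D.r2, hS.r2, mem_nbA.1 (by rw [hr2]; simp)⟩,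
    mem_NA.2 ⟨D.r2, hS.r2, mem_nbA.1 (by rw [hr2]; simp)⟩, ?_, ?_⟩
  · rw [mem_NA]
    rintro ⟨x, _, hx⟩
    exact hx (h.off.cb x)
  · rw [mem_NA]
    rintro ⟨x, _, hx⟩
    exact hx (h.off.cd x)

private theorem KF3_neg {n : ℕ} {s : A → B → ℤ} {D : KD A B} (h : KCtx n s D) {x : A} {y : B}
    (hxy : D.g s x y = -1) : (x = D.u ∧ y = D.v) ∨ (x = D.d' ∧ y = D.c') := by
  have h1 : (x, y) ∈ neg (D.g s) := mem_neg.2 hxy
  rw [h.gneg, mem_insert, mem_singleton, Prod.mk.injEq, Prod.mk.injEq] at h1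
  exact h1

private theorem KF3_uv {n : ℕ} {s : A → B → ℤ} {D : KD A B} (h : KCtx n s D) : D.g s D.u D.v = -1 := by
  have h1 : (D.u, D.v) ∈ neg (D.g s) := by rw [h.gneg]; simp
  exact mem_neg.1 h1

private theorem KF3_suv {n : ℕ} {s : A → B → ℤ} {D : KD A B} (h : KCtx n s D) : s D.u D.v = -1 := by
  have h1 : (D.u, D.v) ∈ neg s := by rw [h.hneg]; simp
  exact mem_neg.1 h1

private theorem KF3_dist {n : ℕ} {s : A → B → ℤ} {D : KD A B} (h : KCtx n s D) :
    D.d' ≠ D.a ∧ D.d' ≠ D.c ∧ D.σ1 ≠ D.a ∧ D.σ1 ≠ D.c ∧ D.σ1 ≠ D.d' ∧ D.σ1 ≠ D.r1 ∧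
      D.b ≠ D.t1 ∧ D.d ≠ D.t1 := by
  have h1 := h.nodA
  have h2 := h.nodB
  have h3 := h.oσ1
  simp only [List.nodup_cons, List.mem_cons, List.not_mem_nil, not_or, or_false, not_false_iff,
    List.nodup_nil, and_true] at h1 h2
  simp only [KD.VA, mem_insert, mem_singleton, not_or] at h3
  exact ⟨Ne.symm h1.1.2.1, Ne.symm h1.2.1.1, h3.1, h3.2.1, h3.2.2.1, h3.2.2.2.1, h2.1.2.2.1,
    h2.2.1.2.1⟩

private theorem KF3_rb {n : ℕ} {s : A → B → ℤ} {D : KD A B} (h : KCtx n s D) {S : Finset A} (hS : KTight s D S) :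
    (univ \ insert D.b (insert D.d (insert D.t1 (NA (D.g s) S))) : Finset B).card = n - (S.card + 5) := by
  obtain ⟨-, -, hb, hd⟩ := KF3_in h hS
  obtain ⟨-, -, -, -, -, -, bt, dt⟩ := KF3_dist h
  have h1 : D.t1 ∉ NA (D.g s) S := hS.t1
  have h2 : D.d ∉ insert D.t1 (NA (D.g s) S) := by
    rw [mem_insert]; exact fun e => e.elim dt hd
  have h3 : D.b ∉ insert D.d (insert D.t1 (NA (D.g s) S)) := by
    rw [mem_insert, mem_insert]
    rintro (e | e | e)
    · exact h.q.bd e
    · exact bt e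
    · exact hb e
  rw [card_sdiff_of_subset (subset_univ _), card_univ, card_insert_of_notMem h3, card_insert_of_notMem h2,
    card_insert_of_notMem h1, hS.tight, ← h.cx.hc.card_eq, h.cx.hn]

private theorem KF3_leg {n : ℕ} {s : A → B → ℤ} {D : KD A B} (h : KCtx n s D) {S : Finset A} (hS : KTight s D S)
    {x : A} {y : B} (hx : x = D.a ∨ x = D.c ∨ x = D.d' ∨ x ∈ S)
    (hy : y ∈ (univ \ insert D.b (insert D.d (insert D.t1 (NA (D.g s) S))) : Finset B))
    (hxy : D.g s x y ≠ 0) : False := by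
  obtain ⟨hc', ht2, hb, hd⟩ := KF3_in h hS
  simp only [mem_sdiff, mem_univ, true_and, mem_insert, not_or] at hy
  obtain ⟨y1, y2, y3, y4⟩ := hy
  rcases hx with rfl | rfl | rfl | hx
  · exact hxy (h.off.ra y)
  · exact hxy (h.off.rc y)
  · have h1 : y ∈ nbA (D.g s) D.d' := mem_nbA.2 hxy
    rw [h.gd', mem_insert, mem_insert, mem_singleton] at h1
    rcases h1 with rfl | rfl | rfl
    · exact y4 hc'
    · exact y3 rfl
    · exact y4 ht2
  · exact y4 (mem_NA.2 ⟨x, hx, hxy⟩)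

/-- Piece F3. The negative edge `(u,v)` has its row in `S`: then `Yd = (A \ {a,c,d'} \ S, B \ {b,d,t1} \ N')` is clean.

Proof. `n ≤ |S| + 6` is impossible by `f6` (`r1, σ1 ∉ S`). So `|S| + 7 ≤ n`. Apply `h.rff` to `RA = univ \ {a, c, d'} \ S`, `RB = univ \ {b, d, t1} \ N'`, `e = 2`: `|RA| = n - 3 - |S|`,
`|RB| = n - 3 - (|S| + 2)` (`t1 ∉ N'`; `b, d ∉ N'`); `bLegs g RA RB = ∅`: a column of `RB` is not adjacent to `S`, nor to `a, c`, nor to `d'` (`gd'`: `c', t2 ∈ N'`, `t1` is removed);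
`4 ≤ n - 3 - |S|`, `|RA| + 4 ≤ n`. Clean: `(u,v)`: `u ∉ RA`, `v ∈ N'`, so `v ∉ RB`; `(d',c')`: `d' ∉ RA`, `c' ∈ N'`. -/
theorem KCtx.f3 {n : ℕ} {s : A → B → ℤ} {D : KD A B} (h : KCtx n s D) {S : Finset A} (hS : KTight s D S)
    (hu : D.u ∈ S) : False := by
  have hn := h.cx.hn
  have hbig : S.card + 7 ≤ n := by
    by_contra hcon
    obtain ⟨-, h1, -⟩ := h.f6 hS (by omega)
    rcases h1 with ⟨h1, -⟩ | ⟨h1, -⟩
    · rw [h1] at hu
      exact hS.r1 hu
    · rw [h1] at hu
      exact hS.σ1 hu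
  obtain ⟨hc', ht2, hb, hd⟩ := KF3_in h hS
  obtain ⟨da, dc, -, -, -, -, -, -⟩ := KF3_dist h
  have hS1 : 1 ≤ S.card := card_pos.2 ⟨D.r2, hS.r2⟩
  have i1 : D.c ∉ insert D.d' S := by
    rw [mem_insert]; exact fun e => e.elim (fun e => dc e.symm) hS.nc
  have i2 : D.a ∉ insert D.c (insert D.d' S) := by
    rw [mem_insert, mem_insert]
    rintro (e | e | e)
    · exact h.q.ac e
    · exact da e.symm
    · exact hS.na e
  have cA : (univ \ insert D.a (insert D.c (insert D.d' S)) : Finset A).card = n - (S.card + 3) := by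
    rw [card_sdiff_of_subset (subset_univ _), card_univ, card_insert_of_notMem i2, card_insert_of_notMem i1,
      card_insert_of_notMem hS.d', hn]
  have cB := KF3_rb h hS
  have hleg : bLegs (D.g s) (univ \ insert D.a (insert D.c (insert D.d' S)) : Finset A) (univ \ insert D.b (insert D.d (insert D.t1 (NA (D.g s) S))) : Finset B) = ∅ := by
    rw [eq_empty_iff_forall_notMem]
    rintro ⟨x, y⟩ hp
    rw [mem_bLegs] at hp
    obtain ⟨h1, h2, h3⟩ := hp
    simp only [mem_sdiff, mem_univ, true_and, mem_insert, not_not] at h1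
    exact KF3_leg h hS h1 h2 h3
  have hnoA : ∀ x ∈ (univ \ insert D.a (insert D.c (insert D.d' S)) : Finset A), ∀ y, D.g s x y ≠ -1 := by
    intro x hx y hxy
    simp only [mem_sdiff, mem_univ, true_and, mem_insert, not_or] at hx
    rcases KF3_neg h hxy with ⟨rfl, -⟩ | ⟨rfl, -⟩
    · exact hx.2.2.2 hu
    · exact hx.2.2.1 rfl
  have hnoB : ∀ x, ∀ y ∈ (univ \ insert D.b (insert D.d (insert D.t1 (NA (D.g s) S))) : Finset B), D.g s x y ≠ -1 := by
    intro x y hy hxy
    simp only [mem_sdiff, mem_univ, true_and, mem_insert, not_or] at hy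
    rcases KF3_neg h hxy with ⟨-, rfl⟩ | ⟨-, rfl⟩
    · exact hy.2.2.2 (mem_NA.2 ⟨D.u, hu, by rw [KF3_uv h]; decide⟩)
    · exact hy.2.2.2 hc'
  refine h.rff (univ \ insert D.a (insert D.c (insert D.d' S)) : Finset A) (univ \ insert D.b (insert D.d (insert D.t1 (NA (D.g s) S))) : Finset B) 2 ?_ ?_ ?_ ?_ ?_ ?_ ?_ ?_ ?_ ?_ ?_
  · simp
  · simp
  · simp
  · simp
  · rw [cA, cB]; omega
  · rw [hleg, card_empty]
  · rw [cA]; omega
  · rw [cA, hn]; omega
  · intro x hx y _
    exact hnoA x hx y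
  · intro x hx y _ hxy
    exact absurd hxy (hnoA x hx y)
  · intro x _ y hy hxy
    exact absurd hxy (hnoB x y hy)

/-- Piece F4. `u ∉ S`, and `u` has at least two neighbours `v, y` in `N' \ {c'}`, `u ≠ σ1`.

Proof. `u ≠ d'` (the entries of row `d'` are `s d' t_i = 1`, `(u,v) ≠ (d',c')`), `u ≠ r1` (`gr1`: only `ρ1` can be in `N' \ {c'}`, as `t1 ∉ N'`). So `n ≤ |S| + 6` is impossible by `f6`; `|S| + 7 ≤ n`. `u` has exactly two neighbours
in `N'`: otherwise `NA g (insert u S) = N'` has `|S| + 2` elements, against `rhall`. Let `w` be the third neighbour; `w ≠ t1` (`gt1`), so `w ∈ RB` below. Apply `h.rff` to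
`RA = univ \ {a, c, d', u} \ S`, `RB = univ \ {b, d, t1} \ N'`, `e = 1`: `|RA| = n - 4 - |S|`, `|RB| = n - 5 - |S|`; `bLegs g RA RB = {(u,w)}` (as in `f3`, the only outside row adjacent to `RB` is `u`);
`3 ≤ n - 4 - |S|`. Clean: `(u,v)`: `u ∉ RA`, `v ∈ N'`; `(d',c')` as in `f3`. -/
theorem KCtx.f4 {n : ℕ} {s : A → B → ℤ} {D : KD A B} (h : KCtx n s D) {S : Finset A} (hS : KTight s D S)
    (hu : D.u ∉ S) (hv : D.v ∈ NA (D.g s) S) {y : B} (hy : y ∈ NA (D.g s) S) (hyc : y ≠ D.c') (hyv : y ≠ D.v)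
    (huy : D.g s D.u y ≠ 0) (hσ : D.u ≠ D.σ1) : False := by
  have hn := h.cx.hn
  have hsuv := KF3_suv h
  have hguv := KF3_uv h
  obtain ⟨hc', ht2, hb, hd⟩ := KF3_in h hS
  obtain ⟨da, dc, -, -, -, -, -, -⟩ := KF3_dist h
  have hud : D.u ≠ D.d' := by
    intro e
    rw [e] at hsuv
    have h1 : D.v ∈ nbA s D.d' := mem_nbA.2 (by rw [hsuv]; decide)
    rw [h.nd', mem_insert, mem_insert, mem_singleton] at h1
    rcases h1 with h1 | h1 | h1
    · exact h.vd h1
    · rw [h1, h.pd1] at hsuv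
      exact absurd hsuv (by decide)
    · rw [h1, h.pd2] at hsuv
      exact absurd hsuv (by decide)
  have hur : D.u ≠ D.r1 := by
    intro e
    have h1 : D.v ∈ nbA (D.g s) D.r1 := mem_nbA.2 (by rw [← e, hguv]; decide)
    have h2 : y ∈ nbA (D.g s) D.r1 := mem_nbA.2 (by rw [← e]; exact huy)
    rw [h.gr1, mem_insert, mem_insert, mem_singleton] at h1 h2
    have hy1 : y = D.ρ1 := by
      rcases h2 with h2 | h2 | h2
      · exact absurd h2 hyc
      · rw [h2] at hy
        exact absurd hy hS.t1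
      · exact h2
    rcases h1 with h1 | h1 | h1
    · rw [e, h1, h.pr1] at hsuv
      exact absurd hsuv (by decide)
    · rw [h1] at hv
      exact hS.t1 hv
    · exact hyv (hy1.trans h1.symm)
  have hbig : S.card + 7 ≤ n := by
    by_contra hcon
    obtain ⟨-, h1, -⟩ := h.f6 hS (by omega)
    rcases h1 with ⟨h1, -⟩ | ⟨h1, -⟩
    · exact hur h1
    · exact hσ h1
  have hS1 : 1 ≤ S.card := card_pos.2 ⟨D.r2, hS.r2⟩
  have i1 : D.d' ∉ insert D.u S := by
    rw [mem_insert]; exact fun e => e.elim (fun e => hud e.symm) hS.d'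
  have i2 : D.c ∉ insert D.d' (insert D.u S) := by
    rw [mem_insert, mem_insert]
    rintro (e | e | e)
    · exact dc e.symm
    · exact h.uc e.symm
    · exact hS.nc e
  have i3 : D.a ∉ insert D.c (insert D.d' (insert D.u S)) := by
    rw [mem_insert, mem_insert, mem_insert]
    rintro (e | e | e | e)
    · exact h.q.ac e
    · exact da e.symm
    · exact h.ua e.symm
    · exact hS.na e
  have cA : (univ \ insert D.a (insert D.c (insert D.d' (insert D.u S))) : Finset A).card = n - (S.card + 4) := by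
    rw [card_sdiff_of_subset (subset_univ _), card_univ, card_insert_of_notMem i3, card_insert_of_notMem i2,
      card_insert_of_notMem i1, card_insert_of_notMem hu, hn]
  have cB := KF3_rb h hS
  -- the third neighbour of `u`
  have hvm : D.v ∈ nbA (D.g s) D.u := mem_nbA.2 (by rw [hguv]; decide)
  have hym : y ∈ nbA (D.g s) D.u := mem_nbA.2 huy
  have h3 := h.grow h.ua h.uc
  have h4 : (((nbA (D.g s) D.u).erase D.v).erase y).card = 1 := by
    rw [card_erase_of_mem (mem_erase.2 ⟨hyv, hym⟩), card_erase_of_mem hvm, h3]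
  obtain ⟨w, hw⟩ := card_eq_one.1 h4
  have hwm : w ≠ y ∧ w ≠ D.v ∧ D.g s D.u w ≠ 0 := by
    have h5 : w ∈ ((nbA (D.g s) D.u).erase D.v).erase y := by rw [hw]; exact mem_singleton_self w
    rw [mem_erase, mem_erase, mem_nbA] at h5
    exact h5
  have hall : ∀ z, D.g s D.u z ≠ 0 → z = D.v ∨ z = y ∨ z = w := by
    intro z hz
    by_cases h5 : z = D.v
    · exact Or.inl h5
    · by_cases h6 : z = y
      · exact Or.inr (Or.inl h6)
      · right; right
        have h7 : z ∈ ((nbA (D.g s) D.u).erase D.v).erase y :=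
          mem_erase.2 ⟨h6, mem_erase.2 ⟨h5, mem_nbA.2 hz⟩⟩
        rw [hw, mem_singleton] at h7
        exact h7
  have hwN : w ∉ NA (D.g s) S := by
    intro hwN
    have h5 : NA (D.g s) (insert D.u S) ⊆ NA (D.g s) S := by
      intro z hz
      rw [NA_insert, mem_union, mem_nbA] at hz
      rcases hz with hz | hz
      · rcases hall z hz with rfl | rfl | rfl
        · exact hv
        · exact hy
        · exact hwN
      · exact hz
    have h6 := card_le_card h5
    have h7 := h.rhall (insert D.u S)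
      (by rw [mem_insert]; exact fun e => e.elim (fun e => h.ua e.symm) hS.na)
      (by rw [mem_insert]; exact fun e => e.elim (fun e => h.uc e.symm) hS.nc)
      ⟨D.u, mem_insert_self _ _⟩ (by rw [card_insert_of_notMem hu, hn]; omega)
    rw [card_insert_of_notMem hu] at h7
    have h8 := hS.tight
    omega
  have hwt : w ≠ D.t1 := by
    intro e
    have h5 : D.u ∈ nbB (D.g s) D.t1 := mem_nbB.2 (by rw [← e]; exact hwm.2.2)
    rw [h.gt1, mem_insert, mem_insert, mem_singleton] at h5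
    rcases h5 with h5 | h5 | h5
    · exact hud h5
    · exact hur h5
    · exact hσ h5
  have hwb : w ≠ D.b := by
    intro e
    exact hwm.2.2 (by rw [e]; exact h.off.cb D.u)
  have hwd : w ≠ D.d := by
    intro e
    exact hwm.2.2 (by rw [e]; exact h.off.cd D.u)
  have hwB : w ∈ (univ \ insert D.b (insert D.d (insert D.t1 (NA (D.g s) S))) : Finset B) := by
    simp only [mem_sdiff, mem_univ, true_and, mem_insert, not_or]
    exact ⟨hwb, hwd, hwt, hwN⟩
  have hleg : bLegs (D.g s) (univ \ insert D.a (insert D.c (insert D.d' (insert D.u S))) : Finset A) (univ \ insert D.b (insert D.d (insert D.t1 (NA (D.g s) S))) : Finset B) = {(D.u, w)} := by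
    ext ⟨x, z⟩
    rw [mem_bLegs, mem_singleton, Prod.mk.injEq]
    constructor
    · rintro ⟨h5, h6, h7⟩
      have h6' := h6
      simp only [mem_sdiff, mem_univ, true_and, mem_insert, not_not] at h5
      simp only [mem_sdiff, mem_univ, true_and, mem_insert, not_or] at h6'
      have hxu : x = D.u := by
        by_contra hxu
        exact KF3_leg h hS (by tauto) h6 h7
      refine ⟨hxu, ?_⟩
      change D.g s x z ≠ 0 at h7
      rw [hxu] at h7
      rcases hall z h7 with h8 | h8 | h8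
      · exact absurd (h8 ▸ hv) h6'.2.2.2
      · exact absurd (h8 ▸ hy) h6'.2.2.2
      · exact h8
    · rintro ⟨rfl, rfl⟩
      exact ⟨by simp, hwB, hwm.2.2⟩
  have hnoA : ∀ x ∈ (univ \ insert D.a (insert D.c (insert D.d' (insert D.u S))) : Finset A), ∀ z, D.g s x z ≠ -1 := by
    intro x hx z hxz
    simp only [mem_sdiff, mem_univ, true_and, mem_insert, not_or] at hx
    rcases KF3_neg h hxz with ⟨h5, -⟩ | ⟨h5, -⟩
    · exact hx.2.2.2.1 h5
    · exact hx.2.2.1 h5
  have hnoB : ∀ x, ∀ z ∈ (univ \ insert D.b (insert D.d (insert D.t1 (NA (D.g s) S))) : Finset B), D.g s x z ≠ -1 := by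
    intro x z hz hxz
    simp only [mem_sdiff, mem_univ, true_and, mem_insert, not_or] at hz
    rcases KF3_neg h hxz with ⟨-, h5⟩ | ⟨-, h5⟩
    · exact hz.2.2.2 (h5 ▸ hv)
    · exact hz.2.2.2 (h5 ▸ hc')
  refine h.rff (univ \ insert D.a (insert D.c (insert D.d' (insert D.u S))) : Finset A) (univ \ insert D.b (insert D.d (insert D.t1 (NA (D.g s) S))) : Finset B) 1 ?_ ?_ ?_ ?_ ?_ ?_ ?_ ?_ ?_ ?_ ?_
  · simp
  · simp
  · simp
  · simp
  · rw [cA, cB]; omega
  · rw [hleg, card_singleton]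
  · rw [cA]; omega
  · rw [cA, hn]; omega
  · intro x hx z _
    exact hnoA x hx z
  · intro x hx z _ hxz
    exact absurd hxz (hnoA x hx z)
  · intro x _ z hz hxz
    exact absurd hxz (hnoB x z hz)

/-- Piece F5. The same for `u = σ1`.

Proof. `σ1` is adjacent to `t1`, `v`, `y` in `g` (`v ≠ t1`, `y ≠ t1`, as `t1 ∉ N'`), so `NA g (insert d' (insert σ1 S)) ⊆ insert t1 N'` has at most `|S| + 3` elements, and `rhall` gives
`|S| + 2 + 4 > n`; so `|S| + 5 = n`. `f6`: `a' = ρ1`, `s σ1 ρ1 ≠ 0`, and `v = t1` is excluded, so `v = ρ1` (`σ1 ≠ r1`). -/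
theorem KCtx.f5 {n : ℕ} {s : A → B → ℤ} {D : KD A B} (h : KCtx n s D) {S : Finset A} (hS : KTight s D S)
    (hv : D.v ∈ NA (D.g s) S) {y : B} (hy : y ∈ NA (D.g s) S) (hyc : y ≠ D.c') (hyv : y ≠ D.v)
    (huy : D.g s D.u y ≠ 0) (hσ : D.u = D.σ1) : D.a' = D.ρ1 ∧ s D.σ1 D.ρ1 ≠ 0 ∧ D.v = D.ρ1 := by
  have hn := h.cx.hn
  have hguv := KF3_uv h
  obtain ⟨hc', ht2, hb, hd⟩ := KF3_in h hS
  obtain ⟨da, dc, sa, sc, sd, sr, -, -⟩ := KF3_dist h
  have hvt : D.v ≠ D.t1 := fun e => hS.t1 (e ▸ hv)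
  have hyt : y ≠ D.t1 := fun e => hS.t1 (e ▸ hy)
  have hvm : D.v ∈ nbA (D.g s) D.σ1 := mem_nbA.2 (by rw [← hσ, hguv]; decide)
  have hym : y ∈ nbA (D.g s) D.σ1 := mem_nbA.2 (by rw [← hσ]; exact huy)
  have htm : D.t1 ∈ nbA (D.g s) D.σ1 := by
    have h1 : D.σ1 ∈ nbB (D.g s) D.t1 := by rw [h.gt1]; simp
    exact mem_nbA.2 (mem_nbB.1 h1)
  have h3 := h.grow sa sc
  have hsub : ({D.t1, D.v, y} : Finset B) ⊆ nbA (D.g s) D.σ1 := by
    intro z hz
    rw [mem_insert, mem_insert, mem_singleton] at hz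
    rcases hz with rfl | rfl | rfl
    · exact htm
    · exact hvm
    · exact hym
  have hc3 : ({D.t1, D.v, y} : Finset B).card = 3 := by
    rw [card_insert_of_notMem, card_insert_of_notMem, card_singleton]
    · rw [mem_singleton]; exact hyv.symm
    · rw [mem_insert, mem_singleton]
      rintro (e | e)
      · exact hvt e.symm
      · exact hyt e.symm
  have heq : ({D.t1, D.v, y} : Finset B) = nbA (D.g s) D.σ1 :=
    eq_of_subset_of_card_le hsub (by rw [h3, hc3])
  have h5n : S.card + 5 = n := by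
    by_contra hcon
    have hup := hS.upp
    rw [hn] at hup
    have hT : NA (D.g s) (insert D.d' (insert D.σ1 S)) ⊆ insert D.t1 (NA (D.g s) S) := by
      intro z hz
      rw [NA_insert, NA_insert, mem_union, mem_union, h.gd', ← heq] at hz
      simp only [mem_insert, mem_singleton] at hz
      rw [mem_insert]
      rcases hz with (rfl | rfl | rfl) | (rfl | rfl | rfl) | hz
      · exact Or.inr hc'
      · exact Or.inl rfl
      · exact Or.inr ht2
      · exact Or.inl rfl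
      · exact Or.inr hv
      · exact Or.inr hy
      · exact Or.inr hz
    have h6 := card_le_card hT
    rw [card_insert_of_notMem hS.t1, hS.tight] at h6
    have i1 : D.d' ∉ insert D.σ1 S := by
      rw [mem_insert]; exact fun e => e.elim (fun e => sd e.symm) hS.d'
    have h7 := h.rhall (insert D.d' (insert D.σ1 S))
      (by
        rw [mem_insert, mem_insert]
        rintro (e | e | e)
        · exact da e.symm
        · exact sa e.symm
        · exact hS.na e)
      (by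
        rw [mem_insert, mem_insert]
        rintro (e | e | e)
        · exact dc e.symm
        · exact sc e.symm
        · exact hS.nc e)
      ⟨D.d', mem_insert_self _ _⟩
      (by rw [card_insert_of_notMem i1, card_insert_of_notMem hS.σ1, hn]; omega)
    rw [card_insert_of_notMem i1, card_insert_of_notMem hS.σ1] at h7
    omega
  obtain ⟨h6, h7, h8⟩ := h.f6 hS (by omega)
  refine ⟨h8 h5n, h6, ?_⟩
  rcases h7 with ⟨h7, -⟩ | ⟨-, h7 | h7⟩
  · exact absurd (hσ.symm.trans h7) sr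
  · exact absurd h7 hvt
  · exact h7

end MCC
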