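import Pool.Agent.Lib_MP_cb5629.KE
import Pool.Agent.Lib_MP_cb5629.KF1
import Pool.Agent.Lib_MP_cb5629.KF3

set_option linter.unusedSectionVars false

namespace MCC

open Finset

variable {A B : Type} [Fintype A] [Fintype B] [DecidableEq A] [DecidableEq B]

/-- Piece G1 ((f) of the paper text). `f1` gives `S` with `KTight s D S`. If `u ∈ S`: `f3`. If `u ∉ S`: if `hZ` of `f2` holds, `f2`; otherwise there is `y ∈ N'`, `y ≠ c'`, `v ∈ N'`, `g u y ≠ 0`, `y ≠ v`: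
`f4` (`u ≠ σ1`) or `f5` (`u = σ1`). -/
theorem KCtx.f {n : ℕ} {s : A → B → ℤ} {D : KD A B} (h : KCtx n s D) (hT : ¬ CondT s D.r1 D.c') :
    D.a' = D.ρ2 ∨ (D.a' = D.ρ1 ∧ s D.σ1 D.ρ1 ≠ 0 ∧ D.u = D.σ1 ∧ D.v = D.ρ1) := by
  obtain ⟨S, hS⟩ := h.f1 hT
  by_cases hu : D.u ∈ S
  · exact (h.f3 hS hu).elim
  · by_cases hZ : ∀ y ∈ NA (D.g s) S, y ≠ D.c' → D.v ∈ NA (D.g s) S → D.g s D.u y ≠ 0 → y = D.v
    · exact Or.inl (h.f2 hS hu hZ)
    · push Not at hZ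
      obtain ⟨y, hy, hyc, hv, huy, hyv⟩ := hZ
      by_cases hσ : D.u = D.σ1
      · obtain ⟨h1, h2, h3⟩ := h.f5 hS hv hy hyc hyv huy hσ
        exact Or.inr ⟨h1, h2, hσ, h3⟩
      · exact (h.f4 hS hu hv hy hyc hyv huy hσ).elim

/-- Piece G1. `KCtx.e`, THEOREM II, `not_fano`, `KCtx.f`. -/
theorem KCtx.alt {n : ℕ} {s : A → B → ℤ} {D : KD A B} (h : KCtx n s D) (hM : D.Mat s D.σ2 D.ρ1) :
    D.a' = D.ρ2 ∨ (D.a' = D.ρ1 ∧ s D.σ1 D.ρ1 ≠ 0 ∧ D.u = D.σ1 ∧ D.v = D.ρ1) := by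
  apply h.f
  intro hT
  exact h.not_fano (typeII_fano s h.cx.hc h.cx.hb h.cx.hs D.r1 D.c' (h.e hM) hT)

/-- the dual of `KCtx.alt`, for the same matching -/
theorem KCtx.alt' {n : ℕ} {s : A → B → ℤ} {D : KD A B} (h : KCtx n s D) (hM : D.Mat s D.σ2 D.ρ1) :
    D.b' = D.σ1 ∨ (D.b' = D.σ2 ∧ s D.σ2 D.ρ2 ≠ 0 ∧ D.v = D.ρ2 ∧ D.u = D.σ2) := by
  have h1 : D.tr.Mat (MCC.tr s) D.ρ1 D.σ2 := h.mat_tr h.oσ2 h.oρ1 hM
  have hVA : D.tr.swap.VA = D.tr.VA := by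
    ext x; simp only [KD.VA, KD.swap, mem_insert, mem_singleton]; tauto
  have hVB : D.tr.swap.VB = D.tr.VB := by
    ext x; simp only [KD.VB, KD.swap, mem_insert, mem_singleton]; tauto
  have h2 : D.tr.swap.Mat (MCC.tr s) D.tr.swap.σ2 D.tr.swap.ρ1 := by
    unfold KD.Mat at h1 ⊢
    rw [hVA, hVB]
    exact h1
  exact h.tr.swap.alt h2

/-- Piece G2 ((g) of the paper text): the end of case 1. -/
theorem KCtx.aux {n : ℕ} {s : A → B → ℤ} {D : KD A B} (h : KCtx n s D) (hM : D.Mat s D.σ2 D.ρ1) : False := by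
  have hVA : D.swap.VA = D.VA := by
    ext x; simp only [KD.VA, KD.swap, mem_insert, mem_singleton]; tauto
  have hVB : D.swap.VB = D.VB := by
    ext x; simp only [KD.VB, KD.swap, mem_insert, mem_singleton]; tauto
  rcases h.alt hM with h1 | ⟨h1, h1', h1u, h1v⟩
  · rcases h.alt' hM with h2 | ⟨h2, h2', h2v, h2u⟩
    · -- a' = ρ2, b' = σ1
      have hM2 : D.swap.Mat s D.swap.σ2 D.swap.ρ1 := by
        have := h.d3 h2
        unfold KD.Mat at this ⊢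
        rw [hVA, hVB]
        exact this
      have hu2 : D.u = D.σ2 := by
        rcases h.swap.alt hM2 with h3 | ⟨_, _, h3u, _⟩
        · exact absurd (h3.symm.trans h1) h.ρρ
        · exact h3u
      have hu1 : D.u = D.σ1 := by
        rcases h.swap.alt' hM2 with h3 | ⟨_, _, _, h3u⟩
        · exact absurd (h2.symm.trans h3) h.σσ
        · exact h3u
      exact h.σσ (hu1.symm.trans hu2)
    · -- a' = ρ2, b' = σ2 ~ ρ2
      exact h2' (by rw [← h1, ← h2]; exact h.hab)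
  · rcases h.alt' hM with h2 | ⟨h2, h2', h2v, h2u⟩
    · -- a' = ρ1 ~ σ1 = b'
      exact h1' (by rw [← h1, ← h2]; exact h.hab)
    · exact h.σσ (h1u.symm.trans h2u)

theorem KCtx.false {n : ℕ} {s : A → B → ℤ} {D : KD A B} (h : KCtx n s D) : False := by
  have hVA : D.swap.VA = D.VA := by
    ext x; simp only [KD.VA, KD.swap, mem_insert, mem_singleton]; tauto
  have hVB : D.swap.VB = D.VB := by
    ext x; simp only [KD.VB, KD.swap, mem_insert, mem_singleton]; tauto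
  rcases h.d2 with hM | hM
  · exact h.aux hM
  · apply h.swap.aux
    unfold KD.Mat at hM ⊢
    rw [hVA, hVB]
    exact hM

end MCC
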