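import Pool.Agent.Lib_MP_cb5629.KSym

/-! (d) of the paper text: perfect matchings of `N0` minus two vertices. `N0` = complement of the configuration: rows `univ \ D.VA`, columns
`univ \ D.VB` (`n - 5` each). -/

set_option linter.unusedSectionVars false

namespace MCC

open Finset

variable {A B : Type} [Fintype A] [Fintype B] [DecidableEq A] [DecidableEq B]

private theorem KMat_cardVA {n : ℕ} {s : A → B → ℤ} {D : KD A B} (h : KCtx n s D) : D.VA.card = 5 := by
  have h1 := h.nodA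
  have h2 : D.VA = [D.a, D.c, D.d', D.r1, D.r2].toFinset := by
    simp [KD.VA]
  rw [h2, List.toFinset_card_of_nodup h1]
  rfl

private theorem KMat_cardVB {n : ℕ} {s : A → B → ℤ} {D : KD A B} (h : KCtx n s D) : D.VB.card = 5 := by
  have h1 := h.nodB
  have h2 : D.VB = [D.b, D.d, D.c', D.t1, D.t2].toFinset := by
    simp [KD.VB]
  rw [h2, List.toFinset_card_of_nodup h1]
  rfl

private theorem KMat_cardA {n : ℕ} {s : A → B → ℤ} {D : KD A B} (h : KCtx n s D) {x : A} (hx : x ∉ D.VA) :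
    (univ \ insert x D.VA : Finset A).card + 6 = n := by
  rw [card_sdiff_of_subset (subset_univ _), card_insert_of_notMem hx, KMat_cardVA h, card_univ, h.cx.hn]
  have := h.n7
  omega

private theorem KMat_cardB {n : ℕ} {s : A → B → ℤ} {D : KD A B} (h : KCtx n s D) {y : B} (hy : y ∉ D.VB) :
    (univ \ insert y D.VB : Finset B).card + 6 = n := by
  rw [card_sdiff_of_subset (subset_univ _), card_insert_of_notMem hy, KMat_cardVB h, card_univ,
    ← h.cx.hc.card_eq, h.cx.hn]
  have := h.n7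
  omega

/-- Piece D0. A matching of the rows is a matching of the columns (both sets have `n - 6` elements, invert the injection). -/
theorem KCtx.mat_tr {n : ℕ} {s : A → B → ℤ} {D : KD A B} (h : KCtx n s D) {x : A} {y : B} (hx : x ∉ D.VA) (hy : y ∉ D.VB)
    (hM : D.Mat s x y) : D.tr.Mat (MCC.tr s) y x := by
  obtain ⟨f, hf, hfm⟩ := hM
  have h1 := KMat_cardA h hx
  have h2 := KMat_cardB h hy
  have himg : (univ \ insert x D.VA : Finset A).image f = (univ \ insert y D.VB : Finset B) := by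
    apply Finset.eq_of_subset_of_card_le
    · intro z hz
      obtain ⟨w, hw, rfl⟩ := mem_image.1 hz
      exact (hfm w hw).1
    · rw [card_image_of_injOn hf]
      omega
  have hex : ∀ z : B, ∃ w : A, z ∈ (univ \ insert y D.VB : Finset B) →
      w ∈ (univ \ insert x D.VA : Finset A) ∧ f w = z := by
    intro z
    by_cases hz : z ∈ (univ \ insert y D.VB : Finset B)
    · rw [← himg] at hz
      obtain ⟨w, hw, e⟩ := mem_image.1 hz
      exact ⟨w, fun _ => ⟨hw, e⟩⟩
    · exact ⟨x, fun h => absurd h hz⟩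
  choose g hg using hex
  refine ⟨g, ?_, ?_⟩
  · intro z hz z' hz' e
    have e1 := (hg z hz).2
    have e2 := (hg z' hz').2
    rw [← e1, ← e2, e]
  · intro z hz
    obtain ⟨e1, e2⟩ := hg z hz
    refine ⟨e1, ?_⟩
    have e3 := (hfm _ e1).2
    rw [e2] at e3
    exact e3

/-- columns not adjacent to a set of rows outside the configuration -/
private theorem KMat_out {n : ℕ} {s : A → B → ℤ} {D : KD A B} (h : KCtx n s D) {U : Finset A} (hU : U ⊆ univ \ D.VA) :
    D.d ∉ NA s U ∧ D.c' ∉ NA s U ∧ (D.b ∈ NA s U → D.b' ∈ U) ∧ (D.t1 ∈ NA s U → D.σ1 ∈ U) ∧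
      (D.t2 ∈ NA s U → D.σ2 ∈ U) := by
  have hnot : ∀ z ∈ D.VA, z ∉ U := fun z hz hzU => (mem_sdiff.1 (hU hzU)).2 hz
  have ha : D.a ∉ U := hnot _ (by simp [KD.VA])
  have hc : D.c ∉ U := hnot _ (by simp [KD.VA])
  have hd' : D.d' ∉ U := hnot _ (by simp [KD.VA])
  have hr1 : D.r1 ∉ U := hnot _ (by simp [KD.VA])
  have hr2 : D.r2 ∉ U := hnot _ (by simp [KD.VA])
  refine ⟨?_, ?_, ?_, ?_, ?_⟩
  · rw [mem_NA]
    rintro ⟨x, hx, hxe⟩
    rw [← mem_nbB, h.q.nd] at hxe
    simp only [mem_insert, mem_singleton] at hxe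
    rcases hxe with rfl | rfl | rfl
    exacts [ha hx, hc hx, hd' hx]
  · rw [mem_NA]
    rintro ⟨x, hx, hxe⟩
    rw [← mem_nbB, h.nc'] at hxe
    simp only [mem_insert, mem_singleton] at hxe
    rcases hxe with rfl | rfl | rfl
    exacts [hc hx, hr1 hx, hr2 hx]
  · rw [mem_NA]
    rintro ⟨x, hx, hxe⟩
    rw [← mem_nbB, h.q.nb] at hxe
    simp only [mem_insert, mem_singleton] at hxe
    rcases hxe with rfl | rfl | rfl
    exacts [absurd hx ha, absurd hx hc, hx]
  · rw [mem_NA]
    rintro ⟨x, hx, hxe⟩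
    rw [← mem_nbB, h.nt1] at hxe
    simp only [mem_insert, mem_singleton] at hxe
    rcases hxe with rfl | rfl | rfl
    exacts [absurd hx hd', absurd hx hr1, hx]
  · rw [mem_NA]
    rintro ⟨x, hx, hxe⟩
    rw [← mem_nbB, h.nt2] at hxe
    simp only [mem_insert, mem_singleton] at hxe
    rcases hxe with rfl | rfl | rfl
    exacts [absurd hx hd', absurd hx hr2, hx]

private theorem KMat_hall {s : A → B → ℤ} {D : KD A B} {x : A} {y : B}
    (h : ∀ U ⊆ (univ \ insert x D.VA : Finset A), U.card ≤ (NA s U ∩ (univ \ insert y D.VB)).card) :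
    D.Mat s x y := by
  have : Nonempty B := ⟨y⟩
  exact hall_on _ _ h

/-- Piece D1 ((d1)). `N0 - b' - ρ1` has a perfect matching.

Proof. Hall (`hall_on`, or Hall for `Mat`): suppose `U ⊆ univ \ insert b' VA`, `|NA s U ∩ (univ \ insert ρ1 VB)| < |U|`. The rows of `U` are not adjacent to `b` (neighbours `a, c, b'`), `d` (`a, c, d'`),
`c'` (`c, r1, r2`). So `NA s U ⊆ (NA s U ∩ (univ \ insert ρ1 VB)) ∪ {ρ1, t1, t2}`, `|NA s U| ≤ |U| + 2`, and by the brace property (`U ≠ ∅`, `|U| ≤ n - 6`) equality: `ρ1, t1, t2 ∈ NA s U`.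
In `G'`: `NA (D.g s) (insert d' (insert r1 U)) ⊆ NA s U ∪ {c'}` (`gd'`, `gr1`, `NA_g`: `b', d' ∉ U`) has at most `|U| + 3` elements, against `KCtx.rhall` (`|U| + 2 + 4 ≤ n`). -/
theorem KCtx.d1 {n : ℕ} {s : A → B → ℤ} {D : KD A B} (h : KCtx n s D) : D.Mat s D.b' D.ρ1 := by
  apply KMat_hall
  intro U hU
  by_contra hlt
  push Not at hlt
  have hUV : U ⊆ univ \ D.VA := by
    intro z hz
    have := hU hz
    simp only [mem_sdiff, mem_univ, true_and, mem_insert, not_or] at this ⊢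
    exact this.2
  have hbU : D.b' ∉ U := by
    intro hz
    have := hU hz
    simp at this
  obtain ⟨o1, o2, o3, o4, o5⟩ := KMat_out h hUV
  have hUc : U.card + 6 ≤ n := by
    have h1 := card_le_card hU
    have h2 := KMat_cardA h h.ob'
    omega
  have hUne : U.Nonempty := by
    rw [← card_pos]
    omega
  have hbr := h.cx.hb.hall U hUne (by rw [h.cx.hn]; omega)
  have hob : D.b ∉ NA s U := fun e => hbU (o3 e)
  have hsub : NA s U ⊆ (NA s U ∩ (univ \ insert D.ρ1 D.VB)) ∪ {D.ρ1, D.t1, D.t2} := by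
    intro z hz
    have z1 : z ≠ D.b := fun e => hob (e ▸ hz)
    have z2 : z ≠ D.d := fun e => o1 (e ▸ hz)
    have z3 : z ≠ D.c' := fun e => o2 (e ▸ hz)
    simp only [mem_union, mem_inter, mem_sdiff, mem_univ, true_and, mem_insert, mem_singleton, KD.VB,
      not_or]
    tauto
  have hc3 : ({D.ρ1, D.t1, D.t2} : Finset B).card ≤ 3 := card_le_three
  have hle := (card_le_card hsub).trans (card_union_le _ _)
  have heq : NA s U = (NA s U ∩ (univ \ insert D.ρ1 D.VB)) ∪ {D.ρ1, D.t1, D.t2} := by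
    apply Finset.eq_of_subset_of_card_le hsub
    have := card_union_le (NA s U ∩ (univ \ insert D.ρ1 D.VB)) ({D.ρ1, D.t1, D.t2} : Finset B)
    omega
  have m1 : D.ρ1 ∈ NA s U := by
    rw [heq]; simp
  have m2 : D.t1 ∈ NA s U := by
    rw [heq]; simp
  have m3 : D.t2 ∈ NA s U := by
    rw [heq]; simp
  have hnot : ∀ z ∈ D.VA, z ∉ U := fun z hz hzU => (mem_sdiff.1 (hUV hzU)).2 hz
  have ha : D.a ∉ U := hnot _ (by simp [KD.VA])
  have hc : D.c ∉ U := hnot _ (by simp [KD.VA])
  have hd' : D.d' ∉ U := hnot _ (by simp [KD.VA])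
  have hr1 : D.r1 ∉ U := hnot _ (by simp [KD.VA])
  have hnod := h.nodA
  simp only [List.nodup_cons, List.mem_cons, List.not_mem_nil, not_or, or_false, not_false_iff,
    List.nodup_nil, and_true] at hnod
  obtain ⟨⟨k1, k2, k3, k4⟩, ⟨k5, k6, k7⟩, ⟨k8, k9⟩, k10⟩ := hnod
  have hS : NA (D.g s) (insert D.d' (insert D.r1 U)) ⊆ NA s U ∪ {D.c'} := by
    rw [NA_insert, NA_insert, h.gd', h.gr1, h.NA_g ha hc, if_neg hbU, if_neg hd']
    intro z hz
    simp only [mem_union, mem_insert, mem_singleton, mem_sdiff, notMem_empty, or_false] at hz ⊢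
    rcases hz with (rfl | rfl | rfl) | (rfl | rfl | rfl) | ⟨hz, -⟩
    exacts [Or.inr rfl, Or.inl m2, Or.inl m3, Or.inr rfl, Or.inl m2, Or.inl m1, Or.inl hz]
  have hcS : (insert D.d' (insert D.r1 U)).card = U.card + 2 := by
    rw [card_insert_of_notMem, card_insert_of_notMem hr1]
    simp only [mem_insert, not_or]
    exact ⟨k8, hd'⟩
  have hr := h.rhall (insert D.d' (insert D.r1 U)) (by
      simp only [mem_insert, not_or]
      exact ⟨k2, k3, ha⟩) (by
      simp only [mem_insert, not_or]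
      exact ⟨k5, k6, hc⟩) (insert_nonempty _ _) (by rw [hcS, h.cx.hn]; omega)
  have hl := (card_le_card hS).trans (card_union_le _ _)
  rw [card_singleton] at hl
  rw [hcS] at hr
  omega

/-- Piece D2 (lemma for (d2), (d3)). If `N0 - σ2 - ρ1` has no perfect matching there is a set `U` of rows as follows.

Proof. Hall: `U ⊆ univ \ insert σ2 VA` with `|NA s U ∩ (univ \ insert ρ1 VB)| < |U|`. `t2 ∉ NA s U` (its neighbours `d', r2, σ2`), `d, c' ∉ NA s U`, so `NA s U ⊆ (NA s U ∩ (univ \ insert ρ1 VB)) ∪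
{ρ1, t1, b}` and `|NA s U| ≤ |U| + 2`; by the brace property equality, so `ρ1, t1, b ∈ NA s U`, hence `σ1 ∈ U` (the neighbours of `t1` are `d', r1, σ1`) and `b' ∈ U`, and
`|NA s U \ VB| = |U|`. `a' ∉ NA s U`: otherwise `NA (D.g s) U = NA s U \ {b}` has `|U| + 1` elements, against `KCtx.rhall` (`|U| ≤ n - 6`). -/
theorem KCtx.no_mat {n : ℕ} {s : A → B → ℤ} {D : KD A B} (h : KCtx n s D) (hM : ¬ D.Mat s D.σ2 D.ρ1) :
    ∃ U : Finset A, U ⊆ univ \ D.VA ∧ D.σ2 ∉ U ∧ D.σ1 ∈ U ∧ D.b' ∈ U ∧ D.ρ1 ∈ NA s U ∧ (NA s U \ D.VB).card = U.card ∧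
      D.a' ∉ NA s U := by
  have hex : ∃ U ⊆ (univ \ insert D.σ2 D.VA : Finset A), (NA s U ∩ (univ \ insert D.ρ1 D.VB)).card < U.card := by
    by_contra hcon
    push Not at hcon
    exact hM (KMat_hall hcon)
  obtain ⟨U, hU, hlt⟩ := hex
  have hUV : U ⊆ univ \ D.VA := by
    intro z hz
    have := hU hz
    simp only [mem_sdiff, mem_univ, true_and, mem_insert, not_or] at this ⊢
    exact this.2
  have hσU : D.σ2 ∉ U := by
    intro hz
    have := hU hz
    simp at this
  obtain ⟨o1, o2, o3, o4, o5⟩ := KMat_out h hUV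
  have hUc : U.card + 6 ≤ n := by
    have h1 := card_le_card hU
    have h2 := KMat_cardA h h.oσ2
    omega
  have hUne : U.Nonempty := by
    rw [← card_pos]
    omega
  have hbr := h.cx.hb.hall U hUne (by rw [h.cx.hn]; omega)
  have hot : D.t2 ∉ NA s U := fun e => hσU (o5 e)
  have hsub : NA s U ⊆ (NA s U ∩ (univ \ insert D.ρ1 D.VB)) ∪ {D.ρ1, D.t1, D.b} := by
    intro z hz
    have z1 : z ≠ D.t2 := fun e => hot (e ▸ hz)
    have z2 : z ≠ D.d := fun e => o1 (e ▸ hz)
    have z3 : z ≠ D.c' := fun e => o2 (e ▸ hz)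
    simp only [mem_union, mem_inter, mem_sdiff, mem_univ, true_and, mem_insert, mem_singleton, KD.VB,
      not_or]
    tauto
  have hc3 : ({D.ρ1, D.t1, D.b} : Finset B).card ≤ 3 := card_le_three
  have hle := (card_le_card hsub).trans (card_union_le _ _)
  have heq : NA s U = (NA s U ∩ (univ \ insert D.ρ1 D.VB)) ∪ {D.ρ1, D.t1, D.b} := by
    apply Finset.eq_of_subset_of_card_le hsub
    have := card_union_le (NA s U ∩ (univ \ insert D.ρ1 D.VB)) ({D.ρ1, D.t1, D.b} : Finset B)
    omega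
  have m1 : D.ρ1 ∈ NA s U := by
    rw [heq]; simp
  have m2 : D.t1 ∈ NA s U := by
    rw [heq]; simp
  have m3 : D.b ∈ NA s U := by
    rw [heq]; simp
  have hcard : (NA s U).card = U.card + 2 := by omega
  have hbU := o3 m3
  have hnodB := h.nodB
  simp only [List.nodup_cons, List.mem_cons, List.not_mem_nil, not_or, or_false, not_false_iff,
    List.nodup_nil, and_true] at hnodB
  obtain ⟨⟨j1, j2, j3, j4⟩, ⟨j5, j6, j7⟩, ⟨j8, j9⟩, j10⟩ := hnodB
  have hVB : NA s U \ D.VB = NA s U \ {D.b, D.t1} := by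
    ext z
    simp only [mem_sdiff, KD.VB, mem_insert, mem_singleton, not_or]
    constructor
    · rintro ⟨hz, z1, z2, z3, z4, z5⟩
      exact ⟨hz, z1, z4⟩
    · rintro ⟨hz, z1, z4⟩
      exact ⟨hz, z1, fun e => o1 (e ▸ hz), fun e => o2 (e ▸ hz), z4, fun e => hot (e ▸ hz)⟩
  have hcV : (NA s U \ D.VB).card = U.card := by
    rw [hVB, card_sdiff_of_subset (by
      intro z hz
      simp only [mem_insert, mem_singleton] at hz
      rcases hz with rfl | rfl
      exacts [m3, m2]), hcard, card_pair j3]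
    omega
  refine ⟨U, hUV, hσU, o4 m2, hbU, m1, hcV, ?_⟩
  intro ha'
  have hnot : ∀ z ∈ D.VA, z ∉ U := fun z hz hzU => (mem_sdiff.1 (hUV hzU)).2 hz
  have ha : D.a ∉ U := hnot _ (by simp [KD.VA])
  have hc : D.c ∉ U := hnot _ (by simp [KD.VA])
  have hd' : D.d' ∉ U := hnot _ (by simp [KD.VA])
  have hr := h.rhall U ha hc hUne (by rw [h.cx.hn]; omega)
  have hS : NA (D.g s) U ⊆ (NA s U).erase D.b := by
    rw [h.NA_g ha hc, if_pos hbU, if_neg hd']
    intro z hz
    simp only [mem_union, mem_insert, mem_singleton, mem_sdiff, notMem_empty, or_false, not_or,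
      mem_erase] at hz ⊢
    rcases hz with ⟨hz, z1, -⟩ | rfl
    · exact ⟨z1, hz⟩
    · exact ⟨h.q.a'b, ha'⟩
  have hl := card_le_card hS
  rw [card_erase_of_mem m3, hcard] at hl
  omega

private theorem KMat_swapVA (D : KD A B) : D.swap.VA = D.VA := by
  simp only [KD.VA, KD.swap]
  rw [Finset.pair_comm]

private theorem KMat_swapVB (D : KD A B) : D.swap.VB = D.VB := by
  simp only [KD.VB, KD.swap]
  rw [Finset.pair_comm]

private theorem KMat_swap {s : A → B → ℤ} {D : KD A B} {x : A} {y : B} (h : D.swap.Mat s x y) : D.Mat s x y := by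
  unfold KD.Mat at h ⊢
  rw [KMat_swapVA, KMat_swapVB] at h
  exact h

/-- Piece D2 ((d2)).

Proof. Otherwise let `U1`, `U2` be the sets of `no_mat` for `D` and `D.swap` (`σ1 ∉ U2`, `σ2, b' ∈ U2`, `ρ2 ∈ NA s U2`). `I = U1 ∩ U2` contains `b'`, not `σ1, σ2`; so `NA s I \ VB ⊇ NA s I \ {b}`
(the rows of `I` are not adjacent to `d, c', t1, t2`) and `|NA s I \ VB| ≥ |I| + 1` (brace property). `NA s (U1 ∪ U2) = NA s U1 ∪ NA s U2` and `NA s I ⊆ NA s U1 ∩ NA s U2`, so
`|NA s (U1 ∪ U2) \ VB| ≤ |U1| + |U2| - |I| - 1 = |U1 ∪ U2| - 1`. Let `W = U1 ∪ U2 ∪ {d', r1, r2}` (`a, c ∉ W`). `NA (D.g s) W ⊆ (NA s (U1 ∪ U2) \ VB) ∪ {t1, t2, c', a'}` (`ρ1, ρ2 ∈ NA s (U1 ∪ U2)`; `gd'`, `gr1`, and `gr1` for `D.swap`), at most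
`|U1 ∪ U2| + 3 = |W|` elements. By `Brace.one` for the restricted graph (or directly) `W` consists of all rows `≠ a, c`, i.e. `U1 ∪ U2 = univ \ VA`. But `a'` has a neighbour in `univ \ VA`:
it is not adjacent to `c`, `d'`, not to both `r1` and `r2` (`ρ1 ≠ ρ2`), and it has three neighbours. This contradicts `a' ∉ NA s U1`, `a' ∉ NA s U2`. -/
theorem KCtx.d2 {n : ℕ} {s : A → B → ℤ} {D : KD A B} (h : KCtx n s D) : D.Mat s D.σ2 D.ρ1 ∨ D.Mat s D.σ1 D.ρ2 := by
  by_contra hcon
  push Not at hcon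
  obtain ⟨U1, hU1, a1, b1, c1, e1, f1, g1⟩ := h.no_mat hcon.1
  obtain ⟨U2, hU2, a2, b2, c2, e2, f2, g2⟩ := h.swap.no_mat (fun hM => hcon.2 (KMat_swap hM))
  rw [KMat_swapVA] at hU2
  rw [KMat_swapVB] at f2
  change D.σ1 ∉ U2 at a2
  change D.σ2 ∈ U2 at b2
  change D.b' ∈ U2 at c2
  change D.ρ2 ∈ NA s U2 at e2
  change D.a' ∉ NA s U2 at g2
  have hI : U1 ∩ U2 ⊆ univ \ D.VA := inter_subset_left.trans hU1
  obtain ⟨o1, o2, o3, o4, o5⟩ := KMat_out h hI
  have hIne : (U1 ∩ U2).Nonempty := ⟨D.b', mem_inter.2 ⟨c1, c2⟩⟩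
  have hcN : (univ \ D.VA : Finset A).card + 5 = n := by
    rw [card_sdiff_of_subset (subset_univ _), KMat_cardVA h, card_univ, h.cx.hn]
    have := h.n7
    omega
  have hIc : (U1 ∩ U2).card + 5 ≤ n := by
    have := card_le_card hI
    omega
  have hbr := h.cx.hb.hall _ hIne (by rw [h.cx.hn]; omega)
  have hIV : (NA s (U1 ∩ U2)).erase D.b ⊆ NA s (U1 ∩ U2) \ D.VB := by
    intro z hz
    rw [mem_erase] at hz
    obtain ⟨z1, hz⟩ := hz
    simp only [mem_sdiff, KD.VB, mem_insert, mem_singleton, not_or]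
    refine ⟨hz, z1, fun e => o1 (e ▸ hz), fun e => o2 (e ▸ hz), fun e => ?_, fun e => ?_⟩
    · exact a2 (mem_inter.1 (o4 (e ▸ hz))).2
    · exact a1 (mem_inter.1 (o5 (e ▸ hz))).1
  have hIV2 : (U1 ∩ U2).card + 1 ≤ (NA s (U1 ∩ U2) \ D.VB).card := by
    have k1 := card_le_card hIV
    have k2 := Finset.pred_card_le_card_erase (s := NA s (U1 ∩ U2)) (a := D.b)
    omega
  have hsub2 : NA s (U1 ∩ U2) \ D.VB ⊆ (NA s U1 \ D.VB) ∩ (NA s U2 \ D.VB) := by
    intro z hz
    rw [mem_sdiff] at hz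
    rw [mem_inter, mem_sdiff, mem_sdiff]
    exact ⟨⟨NA_mono inter_subset_left hz.1, hz.2⟩, ⟨NA_mono inter_subset_right hz.1, hz.2⟩⟩
  have hun : NA s (U1 ∪ U2) \ D.VB = (NA s U1 \ D.VB) ∪ (NA s U2 \ D.VB) := by
    rw [NA_union, union_sdiff_distrib]
  have hcu : (NA s (U1 ∪ U2) \ D.VB).card + 1 ≤ (U1 ∪ U2).card := by
    have k1 := card_union_add_card_inter (NA s U1 \ D.VB) (NA s U2 \ D.VB)
    have k2 := card_union_add_card_inter U1 U2
    have k3 := card_le_card hsub2
    rw [hun]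
    omega
  have hU : U1 ∪ U2 ⊆ univ \ D.VA := union_subset hU1 hU2
  have hnot : ∀ z ∈ D.VA, z ∉ U1 ∪ U2 := fun z hz hzU => (mem_sdiff.1 (hU hzU)).2 hz
  have ha : D.a ∉ U1 ∪ U2 := hnot _ (by simp [KD.VA])
  have hc : D.c ∉ U1 ∪ U2 := hnot _ (by simp [KD.VA])
  have hd' : D.d' ∉ U1 ∪ U2 := hnot _ (by simp [KD.VA])
  have hr1 : D.r1 ∉ U1 ∪ U2 := hnot _ (by simp [KD.VA])
  have hr2 : D.r2 ∉ U1 ∪ U2 := hnot _ (by simp [KD.VA])
  have hbU : D.b' ∈ U1 ∪ U2 := mem_union_left _ c1
  have hnod := h.nodA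
  simp only [List.nodup_cons, List.mem_cons, List.not_mem_nil, not_or, or_false, not_false_iff,
    List.nodup_nil, and_true] at hnod
  obtain ⟨⟨k1, k2, k3, k4⟩, ⟨k5, k6, k7⟩, ⟨k8, k9⟩, k10⟩ := hnod
  set W : Finset A := insert D.d' (insert D.r1 (insert D.r2 (U1 ∪ U2))) with hW
  have hWc : W.card = (U1 ∪ U2).card + 3 := by
    rw [hW, card_insert_of_notMem, card_insert_of_notMem, card_insert_of_notMem hr2]
    · simp only [mem_insert, not_or]
      exact ⟨k10, hr1⟩
    · simp only [mem_insert, not_or]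
      exact ⟨k8, k9, hd'⟩
  have haW : D.a ∉ W := by
    rw [hW]
    simp only [mem_insert, not_or]
    exact ⟨k2, k3, k4, ha⟩
  have hcW : D.c ∉ W := by
    rw [hW]
    simp only [mem_insert, not_or]
    exact ⟨k5, k6, k7, hc⟩
  have hρ1 : D.ρ1 ∈ NA s (U1 ∪ U2) \ D.VB := by
    rw [mem_sdiff, NA_union]
    exact ⟨mem_union_left _ e1, h.oρ1⟩
  have hρ2 : D.ρ2 ∈ NA s (U1 ∪ U2) \ D.VB := by
    rw [mem_sdiff, NA_union]
    exact ⟨mem_union_right _ e2, h.oρ2⟩
  have hgr2 : nbA (D.g s) D.r2 = {D.c', D.t2, D.ρ2} := h.swap.gr1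
  have hNW : NA (D.g s) W ⊆ (NA s (U1 ∪ U2) \ D.VB) ∪ {D.t1, D.t2, D.c', D.a'} := by
    rw [hW, NA_insert, NA_insert, NA_insert, h.gd', h.gr1, hgr2, h.NA_g ha hc, if_pos hbU, if_neg hd']
    intro z hz
    rw [mem_union]
    by_cases hz1 : z ∈ NA s (U1 ∪ U2) \ D.VB
    · exact Or.inl hz1
    · right
      have z1 : z ≠ D.ρ1 := fun e => hz1 (e ▸ hρ1)
      have z2 : z ≠ D.ρ2 := fun e => hz1 (e ▸ hρ2)
      simp only [mem_union, mem_insert, mem_singleton, mem_sdiff, notMem_empty, or_false, not_or] at hz ⊢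
      rcases hz with (e | e | e) | (e | e | e) | (e | e | e) | (⟨hz, y1, y2⟩ | e)
      · exact Or.inr (Or.inr (Or.inl e))
      · exact Or.inl e
      · exact Or.inr (Or.inl e)
      · exact Or.inr (Or.inr (Or.inl e))
      · exact Or.inl e
      · exact absurd e z1
      · exact Or.inr (Or.inr (Or.inl e))
      · exact Or.inr (Or.inl e)
      · exact absurd e z2
      · by_cases w1 : z = D.t1
        · exact Or.inl w1
        by_cases w2 : z = D.t2
        · exact Or.inr (Or.inl w2)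
        by_cases w3 : z = D.c'
        · exact Or.inr (Or.inr (Or.inl w3))
        exfalso
        apply hz1
        rw [mem_sdiff]
        refine ⟨hz, ?_⟩
        simp only [KD.VB, mem_insert, mem_singleton, not_or]
        exact ⟨y1, y2, w3, w1, w2⟩
      · exact Or.inr (Or.inr (Or.inr e))
  have hNWc : (NA (D.g s) W).card ≤ W.card := by
    have k11 := (card_le_card hNW).trans (card_union_le _ _)
    have k12 : ({D.t1, D.t2, D.c', D.a'} : Finset B).card ≤ 4 := card_le_four
    omega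
  -- the column `a'` has a neighbour outside the configuration
  have hoa := h.oa'
  simp only [KD.VB, mem_insert, mem_singleton, not_or] at hoa
  obtain ⟨p1, p2, p3, p4, p5⟩ := hoa
  have hz : ∃ z, z ∉ D.VA ∧ s z D.a' ≠ 0 := by
    by_contra hno
    push Not at hno
    have hcz : s D.c D.a' = 0 := by
      by_contra hne
      rw [← ne_eq, ← mem_nbA, h.q.nc] at hne
      simp only [mem_insert, mem_singleton] at hne
      rcases hne with e | e | e
      exacts [p1 e, p2 e, p3 e]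
    have hdz : s D.d' D.a' = 0 := by
      by_contra hne
      rw [← ne_eq, ← mem_nbA, h.nd'] at hne
      simp only [mem_insert, mem_singleton] at hne
      rcases hne with e | e | e
      exacts [p2 e, p4 e, p5 e]
    have hr1z : s D.r1 D.a' ≠ 0 → D.a' = D.ρ1 := by
      intro hne
      rw [← mem_nbA, h.nr1] at hne
      simp only [mem_insert, mem_singleton] at hne
      rcases hne with e | e | e
      exacts [absurd e p3, absurd e p4, e]
    have hr2z : s D.r2 D.a' ≠ 0 → D.a' = D.ρ2 := by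
      intro hne
      rw [← mem_nbA, h.nr2] at hne
      simp only [mem_insert, mem_singleton] at hne
      rcases hne with e | e | e
      exacts [absurd e p3, absurd e p5, e]
    have h3 := h.cx.hc.col D.a'
    have hsub3 : ∀ w ∈ nbB s D.a', w = D.a ∨ w = D.r1 ∨ w = D.r2 := by
      intro w hw
      rw [mem_nbB] at hw
      have hwV : w ∈ D.VA := by
        by_contra hwV
        exact hw (hno w hwV)
      simp only [KD.VA, mem_insert, mem_singleton] at hwV
      rcases hwV with rfl | rfl | rfl | rfl | rfl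
      exacts [Or.inl rfl, absurd hcz hw, absurd hdz hw, Or.inr (Or.inl rfl), Or.inr (Or.inr rfl)]
    have h2 : (nbB s D.a').card ≤ 2 := by
      by_cases hq1 : s D.r1 D.a' = 0
      · have : nbB s D.a' ⊆ {D.a, D.r2} := by
          intro w hw
          rcases hsub3 w hw with e | e | e
          · simp [e]
          · rw [mem_nbB, e] at hw
            exact absurd hq1 hw
          · simp [e]
        exact (card_le_card this).trans card_le_two
      · have hq2 : s D.r2 D.a' = 0 := by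
          by_contra hq2
          exact h.ρρ ((hr1z hq1).symm.trans (hr2z hq2))
        have : nbB s D.a' ⊆ {D.a, D.r1} := by
          intro w hw
          rcases hsub3 w hw with e | e | e
          · simp [e]
          · simp [e]
          · rw [mem_nbB, e] at hw
            exact absurd hq2 hw
        exact (card_le_card this).trans card_le_two
    omega
  obtain ⟨z, hzV, hza⟩ := hz
  have hzU : z ∉ U1 ∪ U2 := by
    rw [mem_union, not_or]
    exact ⟨fun e => g1 (mem_NA.2 ⟨z, e, hza⟩), fun e => g2 (mem_NA.2 ⟨z, e, hza⟩)⟩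
  simp only [KD.VA, mem_insert, mem_singleton, not_or] at hzV
  obtain ⟨q1, q2, q3, q4, q5⟩ := hzV
  have hzW : z ∉ W := by
    rw [hW]
    simp only [mem_insert, not_or]
    exact ⟨q3, q4, q5, hzU⟩
  have hW3 : W.card + 3 ≤ n := by
    have k11 : (insert z (insert D.a (insert D.c W))).card = W.card + 3 := by
      rw [card_insert_of_notMem, card_insert_of_notMem, card_insert_of_notMem hcW]
      · simp only [mem_insert, not_or]
        exact ⟨k1, haW⟩
      · simp only [mem_insert, not_or]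
        exact ⟨q1, q2, hzW⟩
    have k12 := card_le_univ (insert z (insert D.a (insert D.c W)))
    rw [h.cx.hn] at k12
    omega
  have hWne : W.Nonempty := ⟨D.d', by rw [hW]; simp⟩
  by_cases h4 : W.card + 4 ≤ n
  · have hr := h.rhall W haW hcW hWne (by rw [h.cx.hn]; exact h4)
    omega
  · -- `W` misses one row besides `a, c`
    have hall : (univ \ {D.b, D.d} : Finset B) ⊆ NA (D.g s) W := by
      intro y hy
      simp only [mem_sdiff, mem_univ, true_and, mem_insert, mem_singleton, not_or] at hy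
      by_contra hno
      rw [not_mem_NA] at hno
      have h3 := h.gcol hy.1 hy.2
      have hsub4 : nbB (D.g s) y ⊆ univ \ insert D.a (insert D.c W) := by
        intro x hx
        rw [mem_nbB] at hx
        simp only [mem_sdiff, mem_univ, true_and, mem_insert, not_or]
        refine ⟨?_, ?_, fun e => hx (hno x e)⟩
        · rintro rfl
          exact hx (h.off.ra y)
        · rintro rfl
          exact hx (h.off.rc y)
      have k11 : (insert D.a (insert D.c W)).card = W.card + 2 := by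
        rw [card_insert_of_notMem, card_insert_of_notMem hcW]
        simp only [mem_insert, not_or]
        exact ⟨k1, haW⟩
      have k12 := card_le_card hsub4
      rw [card_sdiff_of_subset (subset_univ _), card_univ, h.cx.hn, k11, h3] at k12
      omega
    have k13 := card_le_card hall
    rw [card_sdiff_of_subset (subset_univ _), card_univ, ← h.cx.hc.card_eq, h.cx.hn, card_pair h.q.bd] at k13
    omega

/-- Piece D2 ((d3)): `no_mat` for `D.swap` would give a set containing `b'` but not `σ1`. -/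
theorem KCtx.d3 {n : ℕ} {s : A → B → ℤ} {D : KD A B} (h : KCtx n s D) (hb : D.b' = D.σ1) : D.Mat s D.σ1 D.ρ2 := by
  by_contra hcon
  obtain ⟨U2, hU2, a2, b2, c2, e2, f2, g2⟩ := h.swap.no_mat (fun hM => hcon (KMat_swap hM))
  change D.σ1 ∉ U2 at a2
  change D.b' ∈ U2 at c2
  exact a2 (hb ▸ c2)

end MCC
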