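import Pool.Agent.Lib_MP_cb5629.KDefs

set_option linter.unusedSectionVars false

namespace MCC

open Finset

variable {A B : Type} [Fintype A] [Fintype B] [DecidableEq A] [DecidableEq B]

/-- Piece KSYM. Exchange of the indices (`D.swap.g s = D.g s` by definition). -/
theorem KCtx.swap {n : ℕ} {s : A → B → ℤ} {D : KD A B} (h : KCtx n s D) : KCtx n s D.swap := by
  have e3 : ∀ (x y z : A), ({x, y, z} : Finset A) = {x, z, y} := fun x y z => by rw [Finset.pair_comm]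
  have e3' : ∀ (x y z : B), ({x, y, z} : Finset B) = {x, z, y} := fun x y z => by rw [Finset.pair_comm]
  have eA : D.swap.VA = D.VA := by
    simp only [KD.VA, KD.swap]
    rw [Finset.pair_comm]
  have eB : D.swap.VB = D.VB := by
    simp only [KD.VB, KD.swap]
    rw [Finset.pair_comm]
  have n1 : [D.a, D.c, D.d', D.r2, D.r1].Nodup := by
    have := h.nodA
    simp only [List.nodup_cons, List.mem_cons, List.not_mem_nil, not_or, or_false, not_false_iff,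
      List.nodup_nil, and_true] at this ⊢
    obtain ⟨⟨h1, h2, h3, h4⟩, ⟨h5, h6, h7⟩, ⟨h8, h9⟩, h10⟩ := this
    exact ⟨⟨h1, h2, h4, h3⟩, ⟨h5, h7, h6⟩, ⟨h9, h8⟩, Ne.symm h10⟩
  have n2 : [D.b, D.d, D.c', D.t2, D.t1].Nodup := by
    have := h.nodB
    simp only [List.nodup_cons, List.mem_cons, List.not_mem_nil, not_or, or_false, not_false_iff,
      List.nodup_nil, and_true] at this ⊢
    obtain ⟨⟨h1, h2, h3, h4⟩, ⟨h5, h6, h7⟩, ⟨h8, h9⟩, h10⟩ := this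
    exact ⟨⟨h1, h2, h4, h3⟩, ⟨h5, h7, h6⟩, ⟨h9, h8⟩, Ne.symm h10⟩
  exact
    { cx := h.cx
      n7 := h.n7
      q := h.q
      nc' := h.nc'.trans (e3 _ _ _)
      nd' := h.nd'.trans (e3' _ _ _)
      nr1 := h.nr2
      nr2 := h.nr1
      nt1 := h.nt2
      nt2 := h.nt1
      nodA := n1
      nodB := n2
      ob' := by rw [eA]; exact h.ob'
      oσ1 := by rw [eA]; exact h.oσ2
      oσ2 := by rw [eA]; exact h.oσ1
      oa' := by rw [eB]; exact h.oa'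
      oρ1 := by rw [eB]; exact h.oρ2
      oρ2 := by rw [eB]; exact h.oρ1
      σσ := h.σσ.symm
      ρρ := h.ρρ.symm
      hab := h.hab
      hcd := h.hcd
      hneg := h.hneg
      ua := h.ua
      uc := h.uc
      vb := h.vb
      vd := h.vd
      pr1 := h.pr2
      pr2 := h.pr1
      pt1 := h.pt2
      pt2 := h.pt1
      pd1 := h.pd2
      pd2 := h.pd1
      gneg := h.gneg
      gcub := h.gcub
      gbr := h.gbr
      gsns := h.gsns }

/-- `qf_tr` -/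
theorem KD.g_tr (D : KD A B) (s : A → B → ℤ) : D.tr.g (MCC.tr s) = MCC.tr (D.g s) :=
  (qf_tr s D.a D.c D.b' D.d' D.b D.d D.a' D.c').symm

private theorem KSym_neg_tr {g : A → B → ℤ} {p q : A × B} (h : neg g = {p, q}) :
    neg (MCC.tr g) = {(p.2, p.1), (q.2, q.1)} := by
  ext ⟨y, x⟩
  have h1 : (x, y) ∈ neg g ↔ (x, y) ∈ ({p, q} : Finset (A × B)) := by rw [h]
  simp only [mem_neg, mem_insert, mem_singleton, tr_apply, Prod.ext_iff] at h1 ⊢
  rw [h1]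
  tauto

/-- Transposition (`Ctx.tr`, `QData.tr`, `KD.g_tr`, `tr_rst`, `Cubic.tr`, `Brace.tr`, `SNS.tr`). -/
theorem KCtx.tr {n : ℕ} {s : A → B → ℤ} {D : KD A B} (h : KCtx n s D) : KCtx n (MCC.tr s) D.tr := by
  have hg : D.tr.g (MCC.tr s) = MCC.tr (D.g s) := D.g_tr s
  exact
    { cx := h.cx.tr
      n7 := h.n7
      q := h.q.tr
      nc' := h.nd'
      nd' := h.nc'
      nr1 := h.nt1
      nr2 := h.nt2
      nt1 := h.nr1
      nt2 := h.nr2
      nodA := h.nodB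
      nodB := h.nodA
      ob' := h.oa'
      oσ1 := h.oρ1
      oσ2 := h.oρ2
      oa' := h.ob'
      oρ1 := h.oσ1
      oρ2 := h.oσ2
      σσ := h.ρρ
      ρρ := h.σσ
      hab := h.hab
      hcd := h.hcd
      hneg := KSym_neg_tr h.hneg
      ua := h.vb
      uc := h.vd
      vb := h.ua
      vd := h.uc
      pr1 := h.pd1
      pr2 := h.pd2
      pt1 := h.pt1
      pt2 := h.pt2
      pd1 := h.pr1
      pd2 := h.pr2
      gneg := by rw [hg]; exact KSym_neg_tr h.gneg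
      gcub := by rw [hg]; exact h.gcub.tr
      gbr := by rw [hg]; exact h.gbr.tr h.gcub
      gsns := by rw [hg]; exact h.gsns.tr h.gcub }

theorem KCtx.off {n : ℕ} {s : A → B → ℤ} {D : KD A B} (h : KCtx n s D) : Off (D.g s) D.a D.c D.b D.d :=
  h.q.off

/-- relative brace property of `G'` -/
theorem KCtx.rhall {n : ℕ} {s : A → B → ℤ} {D : KD A B} (h : KCtx n s D) : RHall (D.g s) D.a D.c :=
  h.off.rhall h.gbr

/-- relative dual brace property of `G'` (apply `KCtx.rhall` to `h.tr`) -/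
theorem KCtx.rhall' {n : ℕ} {s : A → B → ℤ} {D : KD A B} (h : KCtx n s D) {T : Finset B} (hb : D.b ∉ T) (hd : D.d ∉ T)
    (hT : T.Nonempty) (h4 : T.card + 4 ≤ n) : T.card + 2 ≤ (NB (D.g s) T).card := by
  have h1 := h.tr.rhall T hb hd hT (by
    have h2 := h.cx.hc.card_eq
    have h3 := h.cx.hn
    omega)
  rw [D.g_tr s] at h1
  exact h1

/-- relative LEMMA FF for `G'` -/
theorem KCtx.rff {n : ℕ} {s : A → B → ℤ} {D : KD A B} (h : KCtx n s D) : RFF (D.g s) D.a D.c D.b D.d :=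
  h.off.rff h.cx.hP h.cx.hn h.gcub h.gbr h.gsns

/-- relative LEMMA FF for the transpose of `G'` -/
theorem KCtx.rfftr {n : ℕ} {s : A → B → ℤ} {D : KD A B} (h : KCtx n s D) :
    RFF (MCC.tr (D.g s)) D.b D.d D.a D.c := by
  have h1 := h.tr.rff
  rw [D.g_tr s] at h1
  exact h1

/-- parity of the squares of `G'` -/
theorem KCtx.odd {n : ℕ} {s : A → B → ℤ} {D : KD A B} (h : KCtx n s D) {x x' : A} {y y' : B} (hx : x ≠ x') (hy : y ≠ y')
    (h1 : D.g s x y ≠ 0) (h2 : D.g s x y' ≠ 0) (h3 : D.g s x' y ≠ 0) (h4 : D.g s x' y' ≠ 0) :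
    D.g s x y * D.g s x y' * D.g s x' y * D.g s x' y' = -1 :=
  h.off.odd h.gcub h.gbr h.gsns hx hy h1 h2 h3 h4

/-- values of `G'` away from the new edges -/
theorem KCtx.g_eq {n : ℕ} {s : A → B → ℤ} {D : KD A B} (h : KCtx n s D) {x : A} {y : B} (xa : x ≠ D.a) (xc : x ≠ D.c)
    (yb : y ≠ D.b) (yd : y ≠ D.d) (h1 : ¬ (x = D.b' ∧ y = D.a')) (h2 : ¬ (x = D.d' ∧ y = D.c')) :
    D.g s x y = s x y := by
  unfold KD.g qf
  rw [if_neg, if_neg h1, if_neg h2]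
  rintro (e | e | e | e)
  exacts [xa e, xc e, yb e, yd e]

/-- the rows of `G'` have three neighbours -/
theorem KCtx.grow {n : ℕ} {s : A → B → ℤ} {D : KD A B} (h : KCtx n s D) {x : A} (xa : x ≠ D.a) (xc : x ≠ D.c) :
    (nbA (D.g s) x).card = 3 := by
  have h1 := h.off.card_NA {⟨x, xa, xc⟩}
  rw [NA_singleton, map_singleton, NA_singleton, h.gcub.row] at h1
  exact h1.symm

/-- the columns of `G'` have three neighbours -/
theorem KCtx.gcol {n : ℕ} {s : A → B → ℤ} {D : KD A B} (h : KCtx n s D) {y : B} (yb : y ≠ D.b) (yd : y ≠ D.d) :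
    (nbB (D.g s) y).card = 3 := by
  have h1 := h.tr.grow (x := y) yb yd
  rw [D.g_tr s] at h1
  exact h1

private theorem KSym_distA {n : ℕ} {s : A → B → ℤ} {D : KD A B} (h : KCtx n s D) :
    D.r1 ≠ D.a ∧ D.r1 ≠ D.c ∧ D.r1 ≠ D.d' ∧ D.r1 ≠ D.b' ∧ D.d' ≠ D.a ∧ D.d' ≠ D.c ∧ D.d' ≠ D.b' := by
  have h1 := h.nodA
  have h2 := h.ob'
  simp only [List.nodup_cons, List.mem_cons, List.not_mem_nil, not_or, or_false, not_false_iff,
    List.nodup_nil, and_true] at h1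
  simp only [KD.VA, mem_insert, mem_singleton, not_or] at h2
  obtain ⟨⟨h1, h2', h3, h4⟩, ⟨h5, h6, h7⟩, ⟨h8, h9⟩, h10⟩ := h1
  obtain ⟨g1, g2, g3, g4, g5⟩ := h2
  exact ⟨Ne.symm h3, Ne.symm h6, Ne.symm h8, Ne.symm g4, Ne.symm h2', Ne.symm h5, Ne.symm g3⟩

private theorem KSym_distB {n : ℕ} {s : A → B → ℤ} {D : KD A B} (h : KCtx n s D) :
    D.c' ≠ D.b ∧ D.c' ≠ D.d ∧ D.t1 ≠ D.b ∧ D.t1 ≠ D.d ∧ D.ρ1 ≠ D.b ∧ D.ρ1 ≠ D.d ∧ D.t2 ≠ D.b ∧
      D.t2 ≠ D.d ∧ D.t1 ≠ D.c' ∧ D.t2 ≠ D.c' := by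
  have h1 := h.nodB
  have h2 := h.oρ1
  simp only [List.nodup_cons, List.mem_cons, List.not_mem_nil, not_or, or_false, not_false_iff,
    List.nodup_nil, and_true] at h1
  simp only [KD.VB, mem_insert, mem_singleton, not_or] at h2
  obtain ⟨⟨h1, h2', h3, h4⟩, ⟨h5, h6, h7⟩, ⟨h8, h9⟩, h10⟩ := h1
  obtain ⟨g1, g2, g3, g4, g5⟩ := h2
  exact ⟨Ne.symm h2', Ne.symm h5, Ne.symm h3, Ne.symm h6, g1, g2, Ne.symm h4, Ne.symm h7,
    Ne.symm h8, Ne.symm h9⟩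

/-- neighbours in `G'` of the vertices of the Theta -/
theorem KCtx.gr1 {n : ℕ} {s : A → B → ℤ} {D : KD A B} (h : KCtx n s D) : nbA (D.g s) D.r1 = {D.c', D.t1, D.ρ1} := by
  obtain ⟨a1, a2, a3, a4, -, -, -⟩ := KSym_distA h
  obtain ⟨b1, b2, b3, b4, b5, b6, -, -, -, -⟩ := KSym_distB h
  ext y
  have h1 : y ∈ nbA s D.r1 ↔ y ∈ ({D.c', D.t1, D.ρ1} : Finset B) := by rw [h.nr1]
  rw [mem_nbA] at h1 ⊢
  unfold KD.g qf
  by_cases hy : y = D.b ∨ y = D.d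
  · rw [if_pos (by tauto)]
    simp only [ne_eq, not_true_eq_false, mem_insert, mem_singleton, false_iff, not_or]
    rcases hy with rfl | rfl
    · exact ⟨b1.symm, b3.symm, b5.symm⟩
    · exact ⟨b2.symm, b4.symm, b6.symm⟩
  · rw [if_neg (by tauto), if_neg (fun e => a4 e.1), if_neg (fun e => a3 e.1)]
    exact h1
theorem KCtx.gd' {n : ℕ} {s : A → B → ℤ} {D : KD A B} (h : KCtx n s D) : nbA (D.g s) D.d' = {D.c', D.t1, D.t2} := by
  obtain ⟨-, -, -, -, a5, a6, a7⟩ := KSym_distA h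
  obtain ⟨b1, b2, b3, b4, -, -, b7, b8, b9, b10⟩ := KSym_distB h
  ext y
  have h1 : y ∈ nbA s D.d' ↔ y ∈ ({D.d, D.t1, D.t2} : Finset B) := by rw [h.nd']
  rw [mem_nbA] at h1 ⊢
  unfold KD.g qf
  by_cases hy : y = D.b ∨ y = D.d
  · rw [if_pos (by tauto)]
    simp only [ne_eq, not_true_eq_false, mem_insert, mem_singleton, false_iff, not_or]
    rcases hy with rfl | rfl
    · exact ⟨b1.symm, b3.symm, b7.symm⟩
    · exact ⟨b2.symm, b4.symm, b8.symm⟩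
  · rw [if_neg (by tauto), if_neg (fun e => a7 e.1)]
    by_cases hc : y = D.c'
    · subst hc
      rw [if_pos ⟨rfl, rfl⟩]
      have e1 : s D.c D.d ≠ 0 := mem_nbA.1 (by rw [h.q.nc]; simp)
      have e2 : s D.c D.c' ≠ 0 := mem_nbA.1 (by rw [h.q.nc]; simp)
      have e3 : s D.d' D.d ≠ 0 := mem_nbA.1 (by rw [h.nd']; simp)
      simp [e1, e2, e3]
    · rw [if_neg (fun e => hc e.2), h1]
      simp only [mem_insert, mem_singleton]
      tauto
theorem KCtx.gt1 {n : ℕ} {s : A → B → ℤ} {D : KD A B} (h : KCtx n s D) : nbB (D.g s) D.t1 = {D.d', D.r1, D.σ1} := by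
  have h1 := h.tr.gr1
  rw [D.g_tr s] at h1
  exact h1
theorem KCtx.gc' {n : ℕ} {s : A → B → ℤ} {D : KD A B} (h : KCtx n s D) : nbB (D.g s) D.c' = {D.d', D.r1, D.r2} := by
  have h1 := h.tr.gd'
  rw [D.g_tr s] at h1
  exact h1

/-- neighbours in `G'` of a set of rows (`QData.NA_qf`) -/
theorem KCtx.NA_g {n : ℕ} {s : A → B → ℤ} {D : KD A B} (h : KCtx n s D) {S : Finset A} (ha : D.a ∉ S) (hc : D.c ∉ S) :
    NA (D.g s) S = (NA s S \ {D.b, D.d}) ∪ (if D.b' ∈ S then {D.a'} else ∅) ∪ (if D.d' ∈ S then {D.c'} else ∅) :=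
  h.q.NA_qf ha hc

/-- `G` has a square, so it is not a Fano plane (`Fano.uniq`) -/
theorem KCtx.not_fano {n : ℕ} {s : A → B → ℤ} {D : KD A B} (h : KCtx n s D) : ¬ Fano s := by
  intro hF
  have e1 : s D.a D.b ≠ 0 := mem_nbA.1 (by rw [h.q.na]; simp)
  have e2 : s D.a D.d ≠ 0 := mem_nbA.1 (by rw [h.q.na]; simp)
  have e3 : s D.c D.b ≠ 0 := mem_nbA.1 (by rw [h.q.nc]; simp)
  have e4 : s D.c D.d ≠ 0 := mem_nbA.1 (by rw [h.q.nc]; simp)
  exact h.q.bd (Fano.uniq h.cx.hc hF h.q.ac e1 e3 e2 e4)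

end MCC
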