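import Pool.Agent.Lib_MP_cb5629.Step

set_option linter.unusedSectionVars false

namespace MCC

open Finset

variable {A B : Type} [Fintype A] [Fintype B] [DecidableEq A] [DecidableEq B]

/-- `u` and `v` are joined by three paths `u - β i - α i - v` -/
structure Theta (s : A → B → ℤ) (u : A) (v : B) (α : Fin 3 → A) (β : Fin 3 → B) : Prop where
  ub : ∀ i, s u (β i) ≠ 0
  ab : ∀ i, s (α i) (β i) ≠ 0
  av : ∀ i, s (α i) v ≠ 0
  αi : Function.Injective α
  βi : Function.Injective β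
  uα : ∀ i, α i ≠ u
  vβ : ∀ i, β i ≠ v

/-- no square in `s` -/
def NoSq (s : A → B → ℤ) : Prop := ∀ a c b d, a ≠ c → b ≠ d → s a b ≠ 0 → s a d ≠ 0 → s c b ≠ 0 → s c d = 0

lemma StepB_pos {s : A → B → ℤ} (hc : Cubic s) (hneg : neg s = ∅) {a : A} {b : B} (h : s a b ≠ 0) :
    s a b = 1 := by
  rcases hc.val a b with h1 | h1 | h1
  · exact absurd h1 h
  · exact h1
  · have h2 : ((a, b) : A × B) ∈ neg s := mem_neg.2 h1
    rw [hneg] at h2
    simp at h2

lemma StepB_third {α : Type} [DecidableEq α] {F : Finset α} (h : F.card = 3) {a b : α} (ha : a ∈ F)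
    (hb : b ∈ F) (hab : a ≠ b) : ∃ c ∈ F, c ≠ a ∧ c ≠ b := by
  have h1 : ((F.erase a).erase b).card = 1 := by
    rw [card_erase_of_mem, card_erase_of_mem ha, h]
    rw [mem_erase]
    exact ⟨hab.symm, hb⟩
  obtain ⟨c, hc⟩ := card_eq_one.1 h1
  have hc' : c ∈ (F.erase a).erase b := by rw [hc]; exact mem_singleton_self c
  rw [mem_erase, mem_erase] at hc'
  exact ⟨c, hc'.2.2, hc'.2.1, hc'.1⟩

/-- three different elements of a set with three elements are all of it -/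
lemma StepB_all {α : Type} [DecidableEq α] {F : Finset α} (h : F.card = 3) {a b c x : α} (ha : a ∈ F)
    (hb : b ∈ F) (hc : c ∈ F) (hab : a ≠ b) (hac : a ≠ c) (hbc : b ≠ c) (hx : x ∈ F) :
    x = a ∨ x = b ∨ x = c := by
  have h1 : ({a, b, c} : Finset α) = F := by
    apply eq_of_subset_of_card_le
    · intro z hz
      rw [mem_insert, mem_insert, mem_singleton] at hz
      rcases hz with rfl | rfl | rfl
      exacts [ha, hb, hc]
    · rw [h, card_eq_three.2 ⟨a, b, c, hab, hac, hbc, rfl⟩]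
  rw [← h1, mem_insert, mem_insert, mem_singleton] at hx
  exact hx

/-- Piece B1. With no negative edge there is no square (`square_odd`: the product of four values `1` is not `-1`). -/
theorem noSq_of_pos {s : A → B → ℤ} (hc : Cubic s) (hb : Brace s) (hs : SNS s) (hneg : neg s = ∅) : NoSq s := by
  intro a c b d hac hbd h1 h2 h3
  by_contra h4
  have h := square_odd hc hb hs hac hbd h1 h2 h3 h4
  rw [StepB_pos hc hneg h1, StepB_pos hc hneg h2, StepB_pos hc hneg h3, StepB_pos hc hneg h4] at h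
  norm_num at h

lemma StepB_inj3 {α : Type} {a b c : α} (hab : a ≠ b) (hac : a ≠ c) (hbc : b ≠ c) :
    Function.Injective ![a, b, c] := by
  intro i j h
  fin_cases i <;> fin_cases j <;> first
    | rfl
    | exact absurd h hab
    | exact absurd h hac
    | exact absurd h hbc
    | exact absurd h.symm hab
    | exact absurd h.symm hac
    | exact absurd h.symm hbc

/-- Piece B2. The Theta from the two squares through the new edge `x1y1`.

Proof. A square through `(x1,y1)` in the reduced graph is given by a row `a ≠ x, x1` and a column `b ≠ y, y1`. `a` is adjacent to `y1` and `b` to `x1` in the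
reduced graph; these are edges of `s` (not new ones, as `b ≠ y1`, `a ≠ x1`, and `(x2,y1)`, `(x1,y2)` are not new), and `a ~ b`; `(a,b)` is not the new edge
`(x2,y2)` because `x2` is not adjacent to `y1` (`s21`). So `b` is one of the two neighbours `≠ y` of `x1`, `a` one of the two neighbours `≠ x` of `y1`, `s a b ≠ 0`.
Two different squares `(a,b) ≠ (a',b')`: if `a = a'` then `x1, a` and `b, b'` form a square of `s`; if `b = b'` then `a, a'` and `y1, b` do. So `a ≠ a'`, `b ≠ b'`.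
`β = (b, b', y)`, `α = (a, a', x)`. -/
theorem theta_of_squares {s : A → B → ℤ} (hc : Cubic s) (hsq : NoSq s) {x : A} {y : B} {x1 x2 : A} {y1 y2 : B}
    (hE : EdgeData s x y x1 x2 y1 y2) (hx1 : x1 ≠ x) (hy1 : y1 ≠ y)
    (h : 2 ≤ (squares (red s x y x1 x2 y1 y2) ⟨x1, hx1⟩ ⟨y1, hy1⟩).card) :
    ∃ (α : Fin 3 → A) (β : Fin 3 → B), Theta s x1 y1 α β := by
  have key : ∀ p ∈ squares (red s x y x1 x2 y1 y2) ⟨x1, hx1⟩ ⟨y1, hy1⟩,
      p.1.1 ≠ x1 ∧ p.2.1 ≠ y1 ∧ s p.1.1 y1 ≠ 0 ∧ s x1 p.2.1 ≠ 0 ∧ s p.1.1 p.2.1 ≠ 0 := by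
    rintro ⟨⟨a, ha⟩, ⟨b, hb⟩⟩ hp
    rw [mem_squares] at hp
    obtain ⟨h1, h2, h3, h4, h5⟩ := hp
    simp only [ne_eq, Subtype.mk.injEq] at h1 h2
    unfold red at h3 h4 h5
    simp only at h3 h4 h5 ⊢
    rw [if_neg (fun e => h1 e.1), if_neg (fun e => hE.y12 e.2)] at h3
    rw [if_neg (fun e => h2 e.2), if_neg (fun e => hE.x12 e.1)] at h4
    rw [if_neg (fun e => h1 e.1), if_neg (by rintro ⟨rfl, rfl⟩; exact h3 hE.s21)] at h5
    exact ⟨h1, h2, h3, h4, h5⟩
  obtain ⟨p, hp, p', hp', hne⟩ := one_lt_card.1 h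
  obtain ⟨a1, a2, a3, a4, a5⟩ := key p hp
  obtain ⟨b1, b2, b3, b4, b5⟩ := key p' hp'
  have hx := p.1.2
  have hx' := p'.1.2
  have hy := p.2.2
  have hy' := p'.2.2
  have hne' : ¬ (p.1.1 = p'.1.1 ∧ p.2.1 = p'.2.1) := by
    rintro ⟨e1, e2⟩
    exact hne (Prod.ext (Subtype.ext e1) (Subtype.ext e2))
  have haa : p.1.1 ≠ p'.1.1 := by
    intro e
    have hbb : p.2.1 ≠ p'.2.1 := fun e' => hne' ⟨e, e'⟩
    exact b4 (hsq p.1.1 x1 p.2.1 p'.2.1 a1 hbb a5 (e ▸ b5) a4)
  have hbb : p.2.1 ≠ p'.2.1 := by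
    intro e
    exact b5 (e ▸ hsq p.1.1 p'.1.1 y1 p.2.1 haa a2.symm a3 a5 b3)
  have hx1y : s x1 y ≠ 0 := mem_nbB.1 (by rw [hE.ny]; simp)
  have hxy1 : s x y1 ≠ 0 := mem_nbA.1 (by rw [hE.nx]; simp)
  refine ⟨![p.1.1, p'.1.1, x], ![p.2.1, p'.2.1, y], ?_, ?_, ?_, ?_, ?_, ?_, ?_⟩
  · intro i; fin_cases i
    exacts [a4, b4, hx1y]
  · intro i; fin_cases i
    exacts [a5, b5, hE.xy]
  · intro i; fin_cases i
    exacts [a3, b3, hxy1]
  · exact StepB_inj3 haa hx hx'
  · exact StepB_inj3 hbb hy hy'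
  · intro i; fin_cases i
    exacts [a1, b1, hE.xx1]
  · intro i; fin_cases i
    exacts [a2, b2, hE.yy1]

/-- Piece B3 ((th1)). `π0` = third neighbour of `β 0`, `λj` = third neighbour of `α j` (`j = 1` or `2`).

Proof. Let `N_A = A \ {u, α 0, α 1, α 2}`, `N_B = B \ {v, β 0, β 1, β 2}`; `π0 ∈ N_A`, `λj ∈ N_B` (no square). Hall (`hall_on`) for the rows `N_A \ {π0}` and the columns
`N_B \ {λj}`: let `U ⊆ N_A \ {π0}`, `U ≠ ∅`, with `|NA s U ∩ (N_B \ {λj})| < |U|`. `v ∉ NA s U` (its neighbours are the `α i`), `β 0 ∉ NA s U` (neighbours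
`u, α 0, π0`). So `NA s U ⊆ (NA s U ∩ (N_B \ {λj})) ∪ {λj, β 1, β 2}`, `|NA s U| ≤ |U| + 2`; the brace property (`|U| ≤ n - 5`) gives equality and
`β 1, β 2 ∈ NA s U`; so `U` contains the third neighbours of `β 1` and `β 2`, which are different (no square), `|U| ≥ 2`. So `(NA s U, U)` is a nontrivial
shore of `tr s` (`tight_shore`), clean because `neg s = ∅`: contradiction to `Ctx.FFtr`. -/
theorem theta_matching {n : ℕ} {s : A → B → ℤ} (h : Ctx n s) (hneg : neg s = ∅) {u : A} {v : B} {α : Fin 3 → A}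
    {β : Fin 3 → B} (hT : Theta s u v α β) {π0 : A} {lj : B} {j : Fin 3} (hj : j ≠ 0)
    (hπ : s π0 (β 0) ≠ 0) (hπ1 : π0 ≠ u) (hπ2 : π0 ≠ α 0) (hl : s (α j) lj ≠ 0) (hl1 : lj ≠ β j) (hl2 : lj ≠ v) :
    ∃ f : A → B, Set.InjOn f (univ \ {u, α 0, α 1, α 2, π0} : Finset A) ∧
      ∀ a ∈ (univ \ {u, α 0, α 1, α 2, π0} : Finset A), f a ∈ (univ \ {v, β 0, β 1, β 2, lj} : Finset B) ∧ s a (f a) ≠ 0 := by
  have hsq : NoSq s := noSq_of_pos h.hc h.hb h.hs hneg
  have : Nonempty B := ⟨v⟩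
  apply hall_on
  intro U hU
  by_contra hlt
  push Not at hlt
  have hUne : U.Nonempty := by
    rw [← card_pos]; omega
  have hUm : ∀ a ∈ U, a ≠ u ∧ a ≠ α 0 ∧ a ≠ α 1 ∧ a ≠ α 2 ∧ a ≠ π0 := by
    intro a ha
    have := hU ha
    simp only [mem_sdiff, mem_univ, true_and, mem_insert, mem_singleton, not_or] at this
    exact this
  have hUc : U.card + 4 ≤ Fintype.card A := by
    have h1 : U ⊆ univ \ ({u, α 0, α 1, α 2} : Finset A) := by
      intro a ha
      obtain ⟨h1, h2, h3, h4, -⟩ := hUm a ha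
      simp only [mem_sdiff, mem_univ, true_and, mem_insert, mem_singleton, not_or]
      exact ⟨h1, h2, h3, h4⟩
    have h2 := card_le_card h1
    have h3 : ({u, α 0, α 1, α 2} : Finset A).card = 4 := by
      rw [card_insert_of_notMem, card_eq_three.2 ⟨α 0, α 1, α 2, hT.αi.ne (by decide), hT.αi.ne (by decide),
        hT.αi.ne (by decide), rfl⟩]
      simp only [mem_insert, mem_singleton, not_or]
      exact ⟨(hT.uα 0).symm, (hT.uα 1).symm, (hT.uα 2).symm⟩
    have h4 : ({u, α 0, α 1, α 2} : Finset A).card ≤ Fintype.card A := card_le_univ _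
    rw [card_sdiff_of_subset (subset_univ _), card_univ] at h2
    omega
  have hv : v ∉ NA s U := by
    intro hv
    obtain ⟨a, ha, hav⟩ := mem_NA.1 hv
    obtain ⟨h1, h2, h3, h4, h5⟩ := hUm a ha
    rcases StepB_all (h.hc.col v) (mem_nbB.2 (hT.av 0)) (mem_nbB.2 (hT.av 1)) (mem_nbB.2 (hT.av 2))
      (hT.αi.ne (by decide)) (hT.αi.ne (by decide)) (hT.αi.ne (by decide)) (mem_nbB.2 hav) with e | e | e
    exacts [h2 e, h3 e, h4 e]
  have hb0 : β 0 ∉ NA s U := by
    intro hv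
    obtain ⟨a, ha, hav⟩ := mem_NA.1 hv
    obtain ⟨h1, h2, h3, h4, h5⟩ := hUm a ha
    rcases StepB_all (h.hc.col (β 0)) (mem_nbB.2 (hT.ub 0)) (mem_nbB.2 (hT.ab 0)) (mem_nbB.2 hπ)
      (hT.uα 0).symm hπ1.symm hπ2.symm (mem_nbB.2 hav) with e | e | e
    exacts [h1 e, h2 e, h5 e]
  have hge : U.card + 2 ≤ (NA s U).card := h.hb.hall U hUne (by omega)
  have hsub : NA s U ⊆ (NA s U ∩ (univ \ {v, β 0, β 1, β 2, lj})) ∪ ({lj, β 1, β 2} : Finset B) := by
    intro b hb
    by_cases hb' : b ∈ (univ \ {v, β 0, β 1, β 2, lj} : Finset B)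
    · exact mem_union_left _ (mem_inter.2 ⟨hb, hb'⟩)
    · apply mem_union_right
      simp only [mem_sdiff, mem_univ, true_and, mem_insert, mem_singleton, not_not] at hb'
      simp only [mem_insert, mem_singleton]
      rcases hb' with e | e | e | e | e
      · exact absurd (e ▸ hb) hv
      · exact absurd (e ▸ hb) hb0
      · exact Or.inr (Or.inl e)
      · exact Or.inr (Or.inr e)
      · exact Or.inl e
  have hle : (NA s U).card ≤ U.card + 2 := by
    have h1 := card_le_card hsub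
    have h2 := card_union_le (NA s U ∩ (univ \ {v, β 0, β 1, β 2, lj})) ({lj, β 1, β 2} : Finset B)
    have h3 : ({lj, β 1, β 2} : Finset B).card ≤ 3 := card_le_three
    omega
  have hin : ∀ w w' : B, ({lj, β 1, β 2} : Finset B) = {w, lj, w'} → w ∈ NA s U := by
    intro w w' hww
    by_contra hw
    have h1 : NA s U ⊆ (NA s U ∩ (univ \ {v, β 0, β 1, β 2, lj})) ∪ ({lj, w'} : Finset B) := by
      intro b hb
      have hb' := hsub hb
      rw [mem_union] at hb' ⊢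
      rcases hb' with hb' | hb'
      · exact Or.inl hb'
      · right
        rw [hww, mem_insert] at hb'
        rcases hb' with e | hb'
        · exact absurd (e ▸ hb) hw
        · exact hb'
    have h2 := card_le_card h1
    have h3 := card_union_le (NA s U ∩ (univ \ {v, β 0, β 1, β 2, lj})) ({lj, w'} : Finset B)
    have h4 : ({lj, w'} : Finset B).card ≤ 2 := card_le_two
    omega
  have h1 : β 1 ∈ NA s U := hin (β 1) (β 2) (by
    ext z
    simp only [mem_insert, mem_singleton]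
    tauto)
  have h2 : β 2 ∈ NA s U := hin (β 2) (β 1) (by
    ext z
    simp only [mem_insert, mem_singleton]
    tauto)
  obtain ⟨a, ha, hab⟩ := mem_NA.1 h1
  obtain ⟨a', ha', hab'⟩ := mem_NA.1 h2
  have hne : a ≠ a' := by
    intro e
    subst e
    exact hab' (hsq u a (β 1) (β 2) (hUm a ha).1.symm (hT.βi.ne (by decide)) (hT.ub 1) (hT.ub 2) hab)
  have hU2 : 2 ≤ U.card := one_lt_card.2 ⟨a, ha, a', ha', hne⟩
  have hnot : ∀ a b, s a b ≠ -1 := by
    intro a b hab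
    have h3 : ((a, b) : A × B) ∈ neg s := mem_neg.2 hab
    rw [hneg] at h3
    simp at h3
  exact h.FFtr (tight_shore h.hc hU2 hUc (by omega)) (clean_of (fun b a => h.hc.val a b)
    (fun b _ a _ => hnot a b) (fun b _ a _ hab => absurd hab (hnot a b))
    (fun b _ a _ hab => absurd hab (hnot a b)))

/-- add one pair to a partial matching -/
lemma StepB_upd {s : A → B → ℤ} {D : Finset A} {E : Finset B} {f : A → B} (hi : Set.InjOn f D)
    (hm : ∀ a ∈ D, f a ∈ E ∧ s a (f a) ≠ 0) {p : A} {q : B} (hp : p ∉ D) (hq : q ∉ E) (hpq : s p q ≠ 0) :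
    Set.InjOn (Function.update f p q) (insert p D : Finset A) ∧
      ∀ a ∈ insert p D, Function.update f p q a ∈ insert q E ∧ s a (Function.update f p q a) ≠ 0 := by
  have h1 : ∀ a ∈ D, Function.update f p q a = f a := fun a ha =>
    Function.update_of_ne (fun e => hp (by rw [← e]; exact ha)) q f
  constructor
  · intro a ha b hb hab
    rw [mem_coe, mem_insert] at ha hb
    rcases ha with rfl | ha <;> rcases hb with rfl | hb
    · rfl
    · rw [Function.update_self, h1 b hb] at hab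
      exact absurd (hab ▸ (hm b hb).1) hq
    · rw [Function.update_self, h1 a ha] at hab
      exact absurd (hab ▸ (hm a ha).1) hq
    · rw [h1 a ha, h1 b hb] at hab
      exact hi ha hb hab
  · intro a ha
    rw [mem_insert] at ha
    rcases ha with rfl | ha
    · rw [Function.update_self]
      exact ⟨mem_insert_self _ _, hpq⟩
    · rw [h1 a ha]
      exact ⟨mem_insert_of_mem (hm a ha).1, (hm a ha).2⟩

/-- add five pairs to a partial matching and get a perfect matching -/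
lemma StepB_ext5 {s : A → B → ℤ} (hcard : Fintype.card A = Fintype.card B) (f : A → B) (D : Finset A)
    (E : Finset B) (hi : Set.InjOn f D) (hm : ∀ a ∈ D, f a ∈ E ∧ s a (f a) ≠ 0)
    {p1 p2 p3 p4 p5 : A} {q1 q2 q3 q4 q5 : B}
    (hD : ∀ a, a ∈ D ∨ a = p1 ∨ a = p2 ∨ a = p3 ∨ a = p4 ∨ a = p5)
    (hp : [p1, p2, p3, p4, p5].Nodup) (hpD : ∀ a ∈ [p1, p2, p3, p4, p5], a ∉ D)
    (hq : [q1, q2, q3, q4, q5].Nodup) (hqE : ∀ b ∈ [q1, q2, q3, q4, q5], b ∉ E)
    (h1 : s p1 q1 ≠ 0) (h2 : s p2 q2 ≠ 0) (h3 : s p3 q3 ≠ 0) (h4 : s p4 q4 ≠ 0) (h5 : s p5 q5 ≠ 0) :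
    ∃ σ : A ≃ B, IsPM s σ ∧ σ p1 = q1 ∧ σ p2 = q2 ∧ σ p3 = q3 ∧ σ p4 = q4 ∧ σ p5 = q5 := by
  simp only [List.nodup_cons, List.mem_cons, List.not_mem_nil, or_false, not_or, not_false_eq_true,
    List.nodup_nil, and_true] at hp hq
  obtain ⟨⟨p12, p13, p14, p15⟩, ⟨p23, p24, p25⟩, ⟨p34, p35⟩, p45⟩ := hp
  obtain ⟨⟨q12, q13, q14, q15⟩, ⟨q23, q24, q25⟩, ⟨q34, q35⟩, q45⟩ := hq
  have d1 := hpD p1 (by simp)
  have d2 := hpD p2 (by simp)
  have d3 := hpD p3 (by simp)
  have d4 := hpD p4 (by simp)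
  have d5 := hpD p5 (by simp)
  have e1 := hqE q1 (by simp)
  have e2 := hqE q2 (by simp)
  have e3 := hqE q3 (by simp)
  have e4 := hqE q4 (by simp)
  have e5 := hqE q5 (by simp)
  obtain ⟨i1, m1⟩ := StepB_upd hi hm d1 e1 h1
  obtain ⟨i2, m2⟩ := StepB_upd i1 m1 (p := p2) (q := q2)
    (by simp only [mem_insert, not_or]; exact ⟨fun e => p12 e.symm, d2⟩)
    (by simp only [mem_insert, not_or]; exact ⟨fun e => q12 e.symm, e2⟩) h2
  obtain ⟨i3, m3⟩ := StepB_upd i2 m2 (p := p3) (q := q3)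
    (by simp only [mem_insert, not_or]; exact ⟨fun e => p23 e.symm, fun e => p13 e.symm, d3⟩)
    (by simp only [mem_insert, not_or]; exact ⟨fun e => q23 e.symm, fun e => q13 e.symm, e3⟩) h3
  obtain ⟨i4, m4⟩ := StepB_upd i3 m3 (p := p4) (q := q4)
    (by
      simp only [mem_insert, not_or]
      exact ⟨fun e => p34 e.symm, fun e => p24 e.symm, fun e => p14 e.symm, d4⟩)
    (by
      simp only [mem_insert, not_or]
      exact ⟨fun e => q34 e.symm, fun e => q24 e.symm, fun e => q14 e.symm, e4⟩) h4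
  obtain ⟨i5, m5⟩ := StepB_upd i4 m4 (p := p5) (q := q5)
    (by
      simp only [mem_insert, not_or]
      exact ⟨fun e => p45 e.symm, fun e => p35 e.symm, fun e => p25 e.symm, fun e => p15 e.symm, d5⟩)
    (by
      simp only [mem_insert, not_or]
      exact ⟨fun e => q45 e.symm, fun e => q35 e.symm, fun e => q25 e.symm, fun e => q15 e.symm, e5⟩) h5
  have hmem : ∀ a, a ∈ insert p5 (insert p4 (insert p3 (insert p2 (insert p1 D)))) := by
    intro a
    simp only [mem_insert]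
    rcases hD a with h | h | h | h | h | h
    · exact Or.inr (Or.inr (Or.inr (Or.inr (Or.inr h))))
    · exact Or.inr (Or.inr (Or.inr (Or.inr (Or.inl h))))
    · exact Or.inr (Or.inr (Or.inr (Or.inl h)))
    · exact Or.inr (Or.inr (Or.inl h))
    · exact Or.inr (Or.inl h)
    · exact Or.inl h
  obtain ⟨σ, hσ, hσf⟩ := pm_of_inj (s := s) hcard _
    (fun a b hab => i5 (mem_coe.2 (hmem a)) (mem_coe.2 (hmem b)) hab) (fun a => (m5 a (hmem a)).2)
  refine ⟨σ, hσ, ?_, ?_, ?_, ?_, ?_⟩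
  · rw [hσf, Function.update_of_ne p15, Function.update_of_ne p14, Function.update_of_ne p13,
      Function.update_of_ne p12, Function.update_self]
  · rw [hσf, Function.update_of_ne p25, Function.update_of_ne p24, Function.update_of_ne p23,
      Function.update_self]
  · rw [hσf, Function.update_of_ne p35, Function.update_of_ne p34, Function.update_self]
  · rw [hσf, Function.update_of_ne p45, Function.update_self]
  · rw [hσf, Function.update_self]

/-- Piece B4 ((th2)). `u (β 0)` is of type II.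

Proof. All values are `0, 1`. Let `f` resp. `f'` be the matchings of `theta_matching` for `j = 1` resp. `j = 2`. Bijections `σ, τ : A ≃ B`:
`σ`: `u ↦ β 1`, `α 0 ↦ β 2`, `π0 ↦ β 0`, `α 1 ↦ λ1`, `α 2 ↦ v`, `f` on the rest; `τ`: `u ↦ β 1`, `α 0 ↦ β 2`, `π0 ↦ β 0`, `α 1 ↦ v`, `α 2 ↦ λ2`, `f'` on the rest.
They agree on `nbB s (β 0) = {u, α 0, π0}` with values in `nbA s u = {β 0, β 1, β 2}`, and match the other rows along edges. `PM1 = (swap (α 0) (α 2)).trans σ`
(`u ↦ β 1, α 0 ↦ v, α 2 ↦ β 2, π0 ↦ β 0, α 1 ↦ λ1`) and `PM2 = (3-cycle u → α 0 → α 1 → u).trans τ` (`u ↦ β 2, α 0 ↦ v, α 1 ↦ β 1, α 2 ↦ λ2`) are perfect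
matchings of `s`, so `sign (PM1.trans PM2.symm) = relSign = 1` (`sameSign_of_sns`); a transposition is odd and a 3-cycle even, so
`sign (σ.trans τ.symm) = -1`, and the product of entries is `1`. -/
theorem theta_typeII {n : ℕ} {s : A → B → ℤ} (h : Ctx n s) (hneg : neg s = ∅) {u : A} {v : B} {α : Fin 3 → A}
    {β : Fin 3 → B} (hT : Theta s u v α β) : TypeII s u (β 0) := by
  have hsq : NoSq s := noSq_of_pos h.hc h.hb h.hs hneg
  have hcard := h.hc.card_eq
  have pos : ∀ {a b}, s a b ≠ 0 → s a b = 1 := fun hab => StepB_pos h.hc hneg hab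
  have α01 : α 0 ≠ α 1 := hT.αi.ne (by decide)
  have α02 : α 0 ≠ α 2 := hT.αi.ne (by decide)
  have α12 : α 1 ≠ α 2 := hT.αi.ne (by decide)
  have β01 : β 0 ≠ β 1 := hT.βi.ne (by decide)
  have β02 : β 0 ≠ β 2 := hT.βi.ne (by decide)
  have β12 : β 1 ≠ β 2 := hT.βi.ne (by decide)
  have u0 := hT.uα 0
  have u1 := hT.uα 1
  have u2 := hT.uα 2
  have v0 := hT.vβ 0
  have v1 := hT.vβ 1
  have v2 := hT.vβ 2
  -- `α i` is not adjacent to `β k` for `k ≠ i`
  have hik : ∀ i k, i ≠ k → s (α i) (β k) = 0 := fun i k hik =>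
    hsq u (α i) (β i) (β k) (hT.uα i).symm (hT.βi.ne hik) (hT.ub i) (hT.ub k) (hT.ab i)
  obtain ⟨π0, hπm, hπ1, hπ2⟩ := StepB_third (h.hc.col (β 0)) (mem_nbB.2 (hT.ub 0)) (mem_nbB.2 (hT.ab 0))
    (hT.uα 0).symm
  have hπ := mem_nbB.1 hπm
  obtain ⟨l1, hl1m, hl11, hl12⟩ := StepB_third (h.hc.row (α 1)) (mem_nbA.2 (hT.ab 1)) (mem_nbA.2 (hT.av 1))
    (hT.vβ 1)
  obtain ⟨l2, hl2m, hl21, hl22⟩ := StepB_third (h.hc.row (α 2)) (mem_nbA.2 (hT.ab 2)) (mem_nbA.2 (hT.av 2))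
    (hT.vβ 2)
  have hl1 := mem_nbA.1 hl1m
  have hl2 := mem_nbA.1 hl2m
  have π1 : π0 ≠ α 1 := fun e => hπ (e ▸ hik 1 0 (by decide))
  have π2 : π0 ≠ α 2 := fun e => hπ (e ▸ hik 2 0 (by decide))
  have l10 : l1 ≠ β 0 := fun e => hl1 (e ▸ hik 1 0 (by decide))
  have l1_2 : l1 ≠ β 2 := fun e => hl1 (e ▸ hik 1 2 (by decide))
  have l20 : l2 ≠ β 0 := fun e => hl2 (e ▸ hik 2 0 (by decide))
  have l2_1 : l2 ≠ β 1 := fun e => hl2 (e ▸ hik 2 1 (by decide))
  obtain ⟨f, hfi, hf⟩ := theta_matching h hneg hT (j := 1) (by decide) hπ hπ1 hπ2 hl1 hl11 hl12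
  obtain ⟨f', hfi', hf'⟩ := theta_matching h hneg hT (j := 2) (by decide) hπ hπ1 hπ2 hl2 hl21 hl22
  -- the two perfect matchings
  have huD : ∀ a : A, a ∈ (univ \ {u, α 0, α 1, α 2, π0} : Finset A) ↔
      a ≠ u ∧ a ≠ α 0 ∧ a ≠ α 1 ∧ a ≠ α 2 ∧ a ≠ π0 := by
    intro a
    simp only [mem_sdiff, mem_univ, true_and, mem_insert, mem_singleton, not_or, ne_eq]
  have hvE : ∀ (l b : B), b ∈ (univ \ {v, β 0, β 1, β 2, l} : Finset B) ↔
      b ≠ v ∧ b ≠ β 0 ∧ b ≠ β 1 ∧ b ≠ β 2 ∧ b ≠ l := by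
    intro l b
    simp only [mem_sdiff, mem_univ, true_and, mem_insert, mem_singleton, not_or, ne_eq]
  obtain ⟨M1, hM1, m1u, m1a0, m1a2, m1π, m1a1⟩ := StepB_ext5 hcard f _ _ hfi hf
    (p1 := u) (p2 := α 0) (p3 := α 2) (p4 := π0) (p5 := α 1)
    (q1 := β 1) (q2 := v) (q3 := β 2) (q4 := β 0) (q5 := l1)
    (by intro a; rw [huD]; tauto)
    (by
      simp only [List.nodup_cons, List.mem_cons, List.not_mem_nil, or_false, not_or, not_false_eq_true,
        List.nodup_nil, and_true]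
      exact ⟨⟨u0.symm, u2.symm, hπ1.symm, u1.symm⟩, ⟨α02, hπ2.symm, α01⟩, ⟨π2.symm, α12.symm⟩, π1⟩)
    (by
      intro a ha
      rw [huD]
      simp only [List.mem_cons, List.not_mem_nil, or_false] at ha
      tauto)
    (by
      simp only [List.nodup_cons, List.mem_cons, List.not_mem_nil, or_false, not_or, not_false_eq_true,
        List.nodup_nil, and_true]
      exact ⟨⟨v1, β12, β01.symm, hl11.symm⟩, ⟨v2.symm, v0.symm, hl12.symm⟩, ⟨β02.symm, l1_2.symm⟩, l10.symm⟩)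
    (by
      intro b hb
      rw [hvE]
      simp only [List.mem_cons, List.not_mem_nil, or_false] at hb
      tauto)
    (hT.ub 1) (hT.av 0) (hT.ab 2) hπ hl1
  obtain ⟨M2, hM2, m2u, m2a0, m2a1, m2π, m2a2⟩ := StepB_ext5 hcard f' _ _ hfi' hf'
    (p1 := u) (p2 := α 0) (p3 := α 1) (p4 := π0) (p5 := α 2)
    (q1 := β 2) (q2 := v) (q3 := β 1) (q4 := β 0) (q5 := l2)
    (by intro a; rw [huD]; tauto)
    (by
      simp only [List.nodup_cons, List.mem_cons, List.not_mem_nil, or_false, not_or, not_false_eq_true,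
        List.nodup_nil, and_true]
      exact ⟨⟨u0.symm, u1.symm, hπ1.symm, u2.symm⟩, ⟨α01, hπ2.symm, α02⟩, ⟨π1.symm, α12⟩, π2⟩)
    (by
      intro a ha
      rw [huD]
      simp only [List.mem_cons, List.not_mem_nil, or_false] at ha
      tauto)
    (by
      simp only [List.nodup_cons, List.mem_cons, List.not_mem_nil, or_false, not_or, not_false_eq_true,
        List.nodup_nil, and_true]
      exact ⟨⟨v2, β12.symm, β02.symm, hl21.symm⟩, ⟨v1.symm, v0.symm, hl22.symm⟩, ⟨β01.symm, l2_1.symm⟩,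
        l20.symm⟩)
    (by
      intro b hb
      rw [hvE]
      simp only [List.mem_cons, List.not_mem_nil, or_false] at hb
      tauto)
    (hT.ub 2) (hT.av 0) (hT.ab 1) hπ hl2
  -- the permutation sign
  have hSS := (sameSign_of_sns h.hc.val h.hs h.hc.exists_pm).2 M1 M2 hM1 hM2
  have prod1 : ∀ (D : Finset A) (σ τ : A ≃ B), (∀ a ∈ D, s a (σ a) ≠ 0 ∧ s a (τ a) ≠ 0) →
      ∏ a ∈ D, (s a (σ a) * s a (τ a)) = 1 := by
    intro D σ τ hστ
    apply prod_eq_one
    intro a ha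
    rw [pos (hστ a ha).1, pos (hστ a ha).2]; norm_num
  unfold relSign at hSS
  rw [prod1 univ M1 M2 (fun a _ => ⟨hM1 a, hM2 a⟩), mul_one] at hSS
  have hall : ∀ a, a ∈ nbB s (β 0) → a = u ∨ a = α 0 ∨ a = π0 := fun a ha =>
    StepB_all (h.hc.col (β 0)) (mem_nbB.2 (hT.ub 0)) (mem_nbB.2 (hT.ab 0)) (mem_nbB.2 hπ)
      u0.symm hπ1.symm hπ2.symm ha
  set c1 : Equiv.Perm A := Equiv.swap (α 0) (α 2) with hc1
  set c2 : Equiv.Perm A := (Equiv.swap u (α 1)).trans (Equiv.swap u (α 0)) with hc2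
  have c1u : c1 u = u := Equiv.swap_apply_of_ne_of_ne u0.symm u2.symm
  have c1a0 : c1 (α 0) = α 2 := Equiv.swap_apply_left _ _
  have c1a2 : c1 (α 2) = α 0 := Equiv.swap_apply_right _ _
  have c1π : c1 π0 = π0 := Equiv.swap_apply_of_ne_of_ne hπ2 π2
  have c2u : c2 u = α 1 := by
    rw [hc2, Equiv.trans_apply, Equiv.swap_apply_left, Equiv.swap_apply_of_ne_of_ne u1 α01.symm]
  have c2a0 : c2 (α 0) = u := by
    rw [hc2, Equiv.trans_apply, Equiv.swap_apply_of_ne_of_ne u0 α01, Equiv.swap_apply_right]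
  have c2a1 : c2 (α 1) = α 0 := by
    rw [hc2, Equiv.trans_apply, Equiv.swap_apply_right, Equiv.swap_apply_left]
  have c2o : ∀ a, a ≠ u → a ≠ α 0 → a ≠ α 1 → c2 a = a := by
    intro a h1 h2 h3
    rw [hc2, Equiv.trans_apply, Equiv.swap_apply_of_ne_of_ne h1 h3, Equiv.swap_apply_of_ne_of_ne h1 h2]
  have hout : ∀ a, a ∉ nbB s (β 0) → s a ((c1.trans M1) a) ≠ 0 ∧ s a ((c2.trans M2) a) ≠ 0 := by
    intro a ha
    have au : a ≠ u := fun e => ha (mem_nbB.2 (e ▸ hT.ub 0))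
    have aa0 : a ≠ α 0 := fun e => ha (mem_nbB.2 (e ▸ hT.ab 0))
    have aπ : a ≠ π0 := fun e => ha (mem_nbB.2 (e ▸ hπ))
    change s a (M1 (c1 a)) ≠ 0 ∧ s a (M2 (c2 a)) ≠ 0
    constructor
    · by_cases e : a = α 2
      · rw [e, c1a2, m1a0]; exact hT.av 2
      · have : c1 a = a := Equiv.swap_apply_of_ne_of_ne aa0 e
        rw [this]; exact hM1 a
    · by_cases e : a = α 1
      · rw [e, c2a1, m2a0]; exact hT.av 1
      · rw [c2o a au aa0 e]; exact hM2 a
  refine ⟨hT.ub 0, c1.trans M1, c2.trans M2, ?_, hout, ?_⟩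
  · intro a ha
    rw [mem_nbA]
    change M2 (c2 a) = M1 (c1 a) ∧ s u (M1 (c1 a)) ≠ 0
    rcases hall a ha with e | e | e
    · rw [e, c1u, c2u, m1u, m2a1]
      exact ⟨rfl, hT.ub 1⟩
    · rw [e, c1a0, c2a0, m1a2, m2u]
      exact ⟨rfl, hT.ub 2⟩
    · rw [e, c1π, c2o _ hπ1 hπ2 π1, m1π, m2π]
      exact ⟨rfl, hT.ub 0⟩
  · unfold relSign
    rw [prod1 (univ \ nbB s (β 0)) (c1.trans M1) (c2.trans M2) (fun a ha => hout a (by
      rw [mem_sdiff] at ha; exact ha.2)), mul_one]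
    have e1 : (c1.trans M1).trans (c2.trans M2).symm = (c1.trans (M1.trans M2.symm)).trans c2.symm := by
      ext a; rfl
    rw [e1, Equiv.Perm.sign_trans, Equiv.Perm.sign_trans, Equiv.Perm.sign_symm]
    have s1 : Equiv.Perm.sign c1 = -1 := Equiv.Perm.sign_swap α02
    have s2 : Equiv.Perm.sign c2 = 1 := by
      rw [hc2, Equiv.Perm.sign_trans, Equiv.Perm.sign_swap u1.symm, Equiv.Perm.sign_swap u0.symm]
      rfl
    rw [s1, s2]
    push_cast
    linarith

/-- the end of the argument once one of the two reduced graphs is known to be an SNS cubic brace -/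
lemma StepB_aux {n : ℕ} {s : A → B → ℤ} (h : Ctx n s) (hneg : neg s = ∅) (h5 : 5 ≤ Fintype.card A)
    {x : A} {y : B} {x1 x2 : A} {y1 y2 : B} (hE : EdgeData s x y x1 x2 y1 y2)
    (hr : SNS (red s x y x1 x2 y1 y2)) : Fano s := by
  have hsq : NoSq s := noSq_of_pos h.hc h.hb h.hs hneg
  have hnoneg : ∀ p : A × B, p ∉ neg s := by
    intro p hp
    rw [hneg] at hp
    simp at hp
  have hbr : Brace (red s x y x1 x2 y1 y2) := red_brace h.hc h.hb hE h5
    (fun S => no_badSet_local h hE (fun p hp => absurd hp (hnoneg p)) S)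
    (fun S => no_badSet_local h hE.swapx.swapy (fun p hp => absurd hp (hnoneg p)) S)
  have hcu := red_cubic h.hc hE
  have hx1y : s x1 y ≠ 0 := mem_nbB.1 (by rw [hE.ny]; simp)
  have hx2y : s x2 y ≠ 0 := mem_nbB.1 (by rw [hE.ny]; simp)
  have hxy1 : s x y1 ≠ 0 := mem_nbA.1 (by rw [hE.nx]; simp)
  have hxy2 : s x y2 ≠ 0 := mem_nbA.1 (by rw [hE.nx]; simp)
  have p0 := StepB_pos h.hc hneg hE.xy
  have p1 := StepB_pos h.hc hneg hx1y
  have p2 := StepB_pos h.hc hneg hx2y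
  have p3 := StepB_pos h.hc hneg hxy1
  have p4 := StepB_pos h.hc hneg hxy2
  have hcard2 : (neg (red s x y x1 x2 y1 y2)).card = 2 := by
    rw [neg_red_card h.hc hE, hneg, p0, p1, p2, p3, p4]
    simp
  have hn := h.hn
  obtain ⟨-, -, hK⟩ := h.hP (n - 1) (by omega) {a : A // a ≠ x} {b : B // b ≠ y} (red s x y x1 x2 y1 y2)
    (by rw [red_card]; omega) hcu hbr hr
  have hmem : ((⟨x1, hE.xx1.symm⟩, ⟨y1, hE.yy1.symm⟩) : {a : A // a ≠ x} × {b : B // b ≠ y})
      ∈ neg (red s x y x1 x2 y1 y2) := by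
    rw [mem_neg]
    unfold red
    simp only
    rw [if_pos ⟨by trivial, by trivial⟩, p0, p1, p3]
    norm_num
  have h2 := hK hcard2 _ hmem
  obtain ⟨α, β, hT⟩ := theta_of_squares h.hc hsq hE hE.xx1.symm hE.yy1.symm h2
  exact typeII_fano s h.hc h.hb h.hs x1 (β 0) (theta_typeII h hneg hT)
    (condT_local h (fun p hp => absurd hp (hnoneg p)))

/-- Piece B5. (B)(n). Proof. `NoSq` (B1), so `squares s a b = ∅` for every edge. Take any edge `xy` and `EdgeData` (`exists_edgeData`). If `xy` is of type II: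
`condT_local`, `typeII_fano`. Otherwise the reduced graphs are cubic braces (`no_badSet_local`, `red_brace`, `n ≥ 5` by `five_le_card`) and one is SNS; by `swapy` we may
assume `red s x y x1 x2 y1 y2`. Its negative edges are exactly the two new ones (`neg_red_card`), so by `P (n-1)` the edge `(x1,y1)` is in two squares;
`theta_of_squares`, `theta_typeII`, `condT_local`, `typeII_fano`. -/
theorem stepB {n : ℕ} {s : A → B → ℤ} (h : Ctx n s) (hneg : neg s = ∅) : Fano s := by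
  have hsq : NoSq s := noSq_of_pos h.hc h.hb h.hs hneg
  have hnoneg : ∀ p : A × B, p ∉ neg s := by
    intro p hp
    rw [hneg] at hp
    simp at hp
  have h3 := h.hb.three
  have hne : 0 < Fintype.card A := by omega
  obtain ⟨x⟩ := Fintype.card_pos_iff.1 hne
  have hrow : 1 < (nbA s x).card := by rw [h.hc.row x]; norm_num
  obtain ⟨y, hy, y1, hy1, hyy⟩ := one_lt_card.1 hrow
  have hsqe : squares s x y = ∅ := by
    rw [eq_empty_iff_forall_notMem]
    intro p hp
    rw [mem_squares] at hp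
    obtain ⟨h1, h2, h3, h4, h5⟩ := hp
    exact h5 (hsq x p.1 y p.2 h1.symm h2.symm (mem_nbA.1 hy) h4 h3)
  obtain ⟨x1, x2, y2, hE⟩ := exists_edgeData h.hc (mem_nbA.1 hy) (mem_nbA.1 hy1) hyy hsqe
  by_cases hT : TypeII s x y
  · exact typeII_fano s h.hc h.hb h.hs x y hT (condT_local h (fun p hp => absurd hp (hnoneg p)))
  · have h5 : 5 ≤ Fintype.card A := five_le_card h.hc h.hb h.hs (by rw [hneg]; simp)
    rcases red_sns h.hc h.hs hE hT with hr | hr
    · exact StepB_aux h hneg h5 hE hr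
    · exact StepB_aux h hneg h5 hE.swapy hr

end MCC
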