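import Pool.Agent.Lib_MP_cb5629.StepK
import Pool.Agent.Lib_MP_cb5629.StepB

namespace MCC

/-- THEOREM P: the characterisation of the cubic sign-nonsingular braces with at most two negative edges. -/
theorem P_all (n : ℕ) : P n := by
  induction n using Nat.strong_induction_on with
  | _ n ih =>
    intro A B _ _ _ _ s hn hc hb hs
    have h : Ctx n s := ⟨ih, hn, hc, hb, hs⟩
    exact ⟨stepA h, fun h0 => stepB h h0, fun h2 => stepK h h2⟩

end MCC
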