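import Pool.Agent.Lib_MP_cb5629.Base

/-! Reduction of a square `Q = (a,c;b,d)` (section 4, case 1, of the paper text): definitions.
Rows `a, c, b', d'`, columns `b, d, a', c'`; `a'`, `c'` (columns) are the third neighbours of the rows `a`, `c`, and `b'`, `d'` (rows) those of the
columns `b`, `d`. -/

set_option linter.unusedSectionVars false

namespace MCC

open Finset

variable {A B : Type} [Fintype A] [Fintype B] [DecidableEq A] [DecidableEq B]

/-- local data at a square -/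
structure QData (s : A → B → ℤ) (a c b' d' : A) (b d a' c' : B) : Prop where
  na : nbA s a = {b, d, a'}
  nc : nbA s c = {b, d, c'}
  nb : nbB s b = {a, c, b'}
  nd : nbB s d = {a, c, d'}
  ac : a ≠ c
  bd : b ≠ d
  a'b : a' ≠ b
  a'd : a' ≠ d
  c'b : c' ≠ b
  c'd : c' ≠ d
  b'a : b' ≠ a
  b'c : b' ≠ c
  d'a : d' ≠ a
  d'c : d' ≠ c
  a'c' : a' ≠ c'
  b'd' : b' ≠ d'

/-- `G - Q + a'b' + c'd'`, as a function on all rows and columns which vanishes at `a, c, b, d` -/
def qf (s : A → B → ℤ) (a c b' d' : A) (b d a' c' : B) : A → B → ℤ := fun x y =>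
  if x = a ∨ x = c ∨ y = b ∨ y = d then 0
  else if x = b' ∧ y = a' then -(s a b * s a a' * s b' b)
  else if x = d' ∧ y = c' then -(s c d * s c c' * s d' d)
  else s x y

/-- restriction to the rows `≠ a, c` and the columns `≠ b, d` -/
def rst (g : A → B → ℤ) (a c : A) (b d : B) : {x : A // x ≠ a ∧ x ≠ c} → {y : B // y ≠ b ∧ y ≠ d} → ℤ :=
  fun x y => g x.1 y.1

/-- `g` vanishes at the rows `a ≠ c` and the columns `b ≠ d` -/
structure Off (g : A → B → ℤ) (a c : A) (b d : B) : Prop where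
  ac : a ≠ c
  bd : b ≠ d
  ra : ∀ y, g a y = 0
  rc : ∀ y, g c y = 0
  cb : ∀ x, g x b = 0
  cd : ∀ x, g x d = 0

/-- the sets of rows that show that `G - Q + a'b' + c'd'` is not a brace (those that contain `b'`) -/
structure QBad (s : A → B → ℤ) (a c b' d' : A) (a' c' : B) (S : Finset A) : Prop where
  na : a ∉ S
  nc : c ∉ S
  mb : b' ∈ S
  nd : d' ∉ S
  tight : (NA s S).card = S.card + 2
  ha : a' ∈ NA s S
  hc : c' ∉ NA s S
  upp : S.card + 4 ≤ Fintype.card A

/-- the brace property of the restricted graph, relative form -/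
def RHall (g : A → B → ℤ) (a c : A) : Prop :=
  ∀ S : Finset A, a ∉ S → c ∉ S → S.Nonempty → S.card + 4 ≤ Fintype.card A → S.card + 2 ≤ (NA g S).card

/-- LEMMA FF for the restricted graph, relative form: no nontrivial clean shore -/
def RFF (g : A → B → ℤ) (a c : A) (b d : B) : Prop :=
  ∀ (RA : Finset A) (RB : Finset B) (e : ℕ), a ∉ RA → c ∉ RA → b ∉ RB → d ∉ RB → RA.card = RB.card + e →
    (bLegs g RA RB).card + e = 2 → e + 2 ≤ RA.card → RA.card + 4 ≤ Fintype.card A →
    (∀ x ∈ RA, ∀ y ∈ RB, g x y ≠ -1) →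
    (∀ x ∈ RA, ∀ y, y ∉ RB → g x y = -1 → ∀ x' ∈ RA, g x' y ≠ 0 → x' = x) →
    (∀ x, x ∉ RA → ∀ y ∈ RB, g x y = -1 → ∀ y' ∈ RB, g x y' ≠ 0 → y' = y) → False

end MCC
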