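import Pool.Agent.Lib_MP_cb5629.QDefs

/-! Transfer between a function `g` on `A × B` that vanishes at two rows and two columns and its restriction. -/

set_option linter.unusedSectionVars false

namespace MCC

open Finset

variable {A B : Type} [Fintype A] [Fintype B] [DecidableEq A] [DecidableEq B]

/-- Piece OFF (all statements of this file: the columns `b`, `d` never belong to `NA g S`, and the rows `a`, `c` never to `NB g T`; use
`Finset.subtype`, `Finset.map`/`Finset.card_map`, `Finset.card_subtype`). -/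
theorem Off.tr {g : A → B → ℤ} {a c : A} {b d : B} (h : Off g a c b d) : Off (tr g) b d a c :=
  ⟨h.bd, h.ac, h.cb, h.cd, h.ra, h.rc⟩

theorem Off.card {g : A → B → ℤ} {a c : A} {b d : B} (h : Off g a c b d) :
    Fintype.card {x : A // x ≠ a ∧ x ≠ c} + 2 = Fintype.card A := by
  have h1 : (univ.filter fun x : A => x ≠ a ∧ x ≠ c) = (univ.erase a).erase c := by
    ext x
    simp only [mem_filter, mem_univ, true_and, mem_erase, and_true]
    exact and_comm
  have h2 : c ∈ (univ : Finset A).erase a := mem_erase.2 ⟨h.ac.symm, mem_univ c⟩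
  have h3 := card_erase_add_one h2
  have h4 := card_erase_add_one (mem_univ a)
  rw [Fintype.card_subtype, h1, ← card_univ]
  omega

/-- `tr (rst g a c b d) = rst (tr g) b d a c` -/
theorem tr_rst (g : A → B → ℤ) (a c : A) (b d : B) : tr (rst g a c b d) = rst (tr g) b d a c := rfl

private theorem QOff_NA {g : A → B → ℤ} {a c : A} {b d : B} (h : Off g a c b d)
    (S : Finset {x : A // x ≠ a ∧ x ≠ c}) :
    NA g (S.map (Function.Embedding.subtype _)) =
      (NA (rst g a c b d) S).map (Function.Embedding.subtype _) := by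
  ext y
  simp only [mem_NA, mem_map, Function.Embedding.coe_subtype]
  constructor
  · rintro ⟨_, ⟨x, hx, rfl⟩, hxy⟩
    refine ⟨⟨y, fun hy => hxy ?_, fun hy => hxy ?_⟩, ⟨x, hx, hxy⟩, rfl⟩
    · rw [hy]
      exact h.cb _
    · rw [hy]
      exact h.cd _
  · rintro ⟨y, ⟨x, hx, hxy⟩, rfl⟩
    exact ⟨x, ⟨x, hx, rfl⟩, hxy⟩

/-- the size of `NA` and `S` does not change under restriction -/
theorem Off.card_NA {g : A → B → ℤ} {a c : A} {b d : B} (h : Off g a c b d) (S : Finset {x : A // x ≠ a ∧ x ≠ c}) :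
    (NA (rst g a c b d) S).card = (NA g (S.map (Function.Embedding.subtype _))).card := by
  rw [QOff_NA h, card_map]

private theorem QOff_nbA {g : A → B → ℤ} {a c : A} {b d : B} (h : Off g a c b d)
    (x : {x : A // x ≠ a ∧ x ≠ c}) : (nbA (rst g a c b d) x).card = (nbA g x.1).card := by
  have h1 := h.card_NA {x}
  rw [NA_singleton, map_singleton, NA_singleton] at h1
  exact h1

theorem Off.cubic {g : A → B → ℤ} {a c : A} {b d : B} (h : Off g a c b d)
    (hval : ∀ x y, g x y = 0 ∨ g x y = 1 ∨ g x y = -1) (hr : ∀ x, x ≠ a → x ≠ c → (nbA g x).card = 3)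
    (hk : ∀ y, y ≠ b → y ≠ d → (nbB g y).card = 3) : Cubic (rst g a c b d) where
  val x y := hval x.1 y.1
  row x := by
    rw [QOff_nbA h]
    exact hr x.1 x.2.1 x.2.2
  col y := by
    have h1 := QOff_nbA h.tr y
    rw [← tr_rst, nbA_tr, nbA_tr] at h1
    rw [h1]
    exact hk y.1 y.2.1 y.2.2

theorem Off.brace {g : A → B → ℤ} {a c : A} {b d : B} (h : Off g a c b d) (h5 : 5 ≤ Fintype.card A)
    (hH : RHall g a c) : Brace (rst g a c b d) where
  three := by
    have := h.card
    omega
  hall := by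
    intro S hS hS2
    have h1 := h.card
    rw [h.card_NA, ← card_map (Function.Embedding.subtype fun x : A => x ≠ a ∧ x ≠ c)]
    refine hH _ ?_ ?_ ((map_nonempty).2 hS) ?_
    · intro ha
      obtain ⟨x, _, hx⟩ := mem_map.1 ha
      exact x.2.1 hx
    · intro hc
      obtain ⟨x, _, hx⟩ := mem_map.1 hc
      exact x.2.2 hx
    · rw [card_map]
      omega

theorem Off.rhall {g : A → B → ℤ} {a c : A} {b d : B} (h : Off g a c b d) (hb : Brace (rst g a c b d)) :
    RHall g a c := by
  intro S ha hc hS hS4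
  have h1 := h.card
  have h2 : (S.subtype fun x : A => x ≠ a ∧ x ≠ c).map (Function.Embedding.subtype _) = S := by
    rw [subtype_map]
    refine filter_true_of_mem fun x hx => ⟨?_, ?_⟩
    · rintro rfl
      exact ha hx
    · rintro rfl
      exact hc hx
  have h3 : (S.subtype fun x : A => x ≠ a ∧ x ≠ c).card = S.card := by
    conv_rhs => rw [← h2, card_map]
  have h4 := hb.hall (S.subtype fun x : A => x ≠ a ∧ x ≠ c)
    (by rw [← card_pos, h3]; exact card_pos.2 hS) (by rw [h3]; omega)
  rw [h.card_NA, h2, h3] at h4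
  exact h4

theorem Off.neg_card {g : A → B → ℤ} {a c : A} {b d : B} (h : Off g a c b d) :
    (neg (rst g a c b d)).card = (neg g).card := by
  refine card_bij (fun p _ => (p.1.1, p.2.1)) ?_ ?_ ?_
  · intro p hp
    have h1 : rst g a c b d p.1 p.2 = -1 := mem_neg.1 hp
    exact mem_neg.2 h1
  · rintro ⟨x, y⟩ _ ⟨x', y'⟩ _ e
    simp only [Prod.mk.injEq] at e
    exact Prod.ext (Subtype.ext e.1) (Subtype.ext e.2)
  · rintro ⟨x, y⟩ hp
    have hp' : g x y = -1 := mem_neg.1 hp
    have hx : x ≠ a ∧ x ≠ c := by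
      constructor
      · rintro rfl
        rw [h.ra] at hp'
        omega
      · rintro rfl
        rw [h.rc] at hp'
        omega
    have hy : y ≠ b ∧ y ≠ d := by
      constructor
      · rintro rfl
        rw [h.cb] at hp'
        omega
      · rintro rfl
        rw [h.cd] at hp'
        omega
    exact ⟨(⟨x, hx⟩, ⟨y, hy⟩), mem_neg.2 hp', rfl⟩

theorem Off.squares_card {g : A → B → ℤ} {a c : A} {b d : B} (h : Off g a c b d) {x : A} {y : B}
    (hx : x ≠ a ∧ x ≠ c) (hy : y ≠ b ∧ y ≠ d) :
    (squares (rst g a c b d) ⟨x, hx⟩ ⟨y, hy⟩).card = (squares g x y).card := by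
  refine card_bij (fun p _ => (p.1.1, p.2.1)) ?_ ?_ ?_
  · intro p hp
    obtain ⟨h1, h2, h3, h4, h5⟩ := mem_squares.1 hp
    exact mem_squares.2 ⟨fun e => h1 (Subtype.ext e), fun e => h2 (Subtype.ext e), h3, h4, h5⟩
  · rintro ⟨u, v⟩ _ ⟨u', v'⟩ _ e
    simp only [Prod.mk.injEq] at e
    exact Prod.ext (Subtype.ext e.1) (Subtype.ext e.2)
  · rintro ⟨u, v⟩ hp
    obtain ⟨h1, h2, h3, h4, h5⟩ := mem_squares.1 hp
    have hu : u ≠ a ∧ u ≠ c := by
      constructor
      · rintro rfl
        exact h3 (h.ra _)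
      · rintro rfl
        exact h3 (h.rc _)
    have hv : v ≠ b ∧ v ≠ d := by
      constructor
      · rintro rfl
        exact h4 (h.cb _)
      · rintro rfl
        exact h4 (h.cd _)
    refine ⟨(⟨u, hu⟩, ⟨v, hv⟩), mem_squares.2 ⟨fun e => h1 (congrArg Subtype.val e),
      fun e => h2 (congrArg Subtype.val e), h3, h4, h5⟩, rfl⟩

end MCC
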