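import Pool.Agent.Lib_MP_cb5629.QOff
import Pool.Agent.Lib_MP_cb5629.Ext

set_option linter.unusedSectionVars false

namespace MCC

open Finset

variable {A B : Type} [Fintype A] [Fintype B] [DecidableEq A] [DecidableEq B]

private lemma qred_three {X : Type} [DecidableEq X] {S : Finset X} (h : S.card = 3) {u v : X} (hu : u ∈ S) (hv : v ∈ S)
    (huv : u ≠ v) : ∃ w, w ≠ u ∧ w ≠ v ∧ S = {u, v, w} := by
  have h1 : ((S.erase u).erase v).card = 1 := by
    rw [card_erase_of_mem (mem_erase.2 ⟨huv.symm, hv⟩), card_erase_of_mem hu, h]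
  obtain ⟨w, hw⟩ := card_eq_one.1 h1
  have h2 : w ∈ (S.erase u).erase v := by rw [hw]; exact mem_singleton_self w
  rw [mem_erase, mem_erase] at h2
  refine ⟨w, h2.2.1, h2.1, ?_⟩
  ext x
  rw [mem_insert, mem_insert, mem_singleton]
  constructor
  · intro hx
    by_cases h3 : x = u
    · exact Or.inl h3
    · by_cases h4 : x = v
      · exact Or.inr (Or.inl h4)
      · right
        right
        have : x ∈ (S.erase u).erase v := mem_erase.2 ⟨h4, mem_erase.2 ⟨h3, hx⟩⟩
        rw [hw, mem_singleton] at this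
        exact this
  · rintro (rfl | rfl | rfl)
    · exact hu
    · exact hv
    · exact h2.2.2

private lemma qred_ne {s : A → B → ℤ} (hb : Brace s) (h4 : 4 ≤ Fintype.card A) {a c : A} {b d a' c' : B}
    (hac : a ≠ c) (na : nbA s a = {b, d, a'}) (nc : nbA s c = {b, d, c'}) : a' ≠ c' := by
  rintro rfl
  have h1 : ({a, c} : Finset A).card = 2 := card_pair hac
  have h2 := hb.hall {a, c} (insert_nonempty _ _) (by rw [h1]; omega)
  have h3 : NA s {a, c} = {b, d, a'} := by
    rw [NA_insert, NA_singleton, na, nc, union_self]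
  rw [h1, h3] at h2
  have h5 : ({b, d, a'} : Finset B).card ≤ 3 := card_le_three
  omega

/-- Piece QR1. The local data at a square: `nbA s a` has three elements, two of them are `b, d`; etc. `a' = c'` would give `N({a,c}) = {b,d,a'}`, three
elements, against the brace property; dually `b' ≠ d'` (`Brace.tr`). -/
theorem exists_qdata {s : A → B → ℤ} (hc : Cubic s) (hb : Brace s) (h4 : 4 ≤ Fintype.card A) {a c : A} {b d : B}
    (hac : a ≠ c) (hbd : b ≠ d) (h1 : s a b ≠ 0) (h2 : s a d ≠ 0) (h3 : s c b ≠ 0) (h4' : s c d ≠ 0) :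
    ∃ a' c' b' d', QData s a c b' d' b d a' c' := by
  obtain ⟨a', ha1, ha2, ha⟩ := qred_three (hc.row a) (mem_nbA.2 h1) (mem_nbA.2 h2) hbd
  obtain ⟨c', hc1, hc2, hc'⟩ := qred_three (hc.row c) (mem_nbA.2 h3) (mem_nbA.2 h4') hbd
  obtain ⟨b', hb1, hb2, hb'⟩ := qred_three (hc.col b) (mem_nbB.2 h1) (mem_nbB.2 h3) hac
  obtain ⟨d', hd1, hd2, hd'⟩ := qred_three (hc.col d) (mem_nbB.2 h2) (mem_nbB.2 h4') hac
  exact ⟨a', c', b', d', ha, hc', hb', hd', hac, hbd, ha1, ha2, hc1, hc2, hb1, hb2, hd1, hd2,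
    qred_ne hb h4 hac ha hc', qred_ne (hb.tr hc) (hc.card_eq ▸ h4) hbd hb' hd'⟩

/-- transposition -/
theorem QData.tr {s : A → B → ℤ} {a c b' d' : A} {b d a' c' : B} (h : QData s a c b' d' b d a' c') :
    QData (tr s) b d a' c' a c b' d' := by
  exact ⟨h.nb, h.nd, h.na, h.nc, h.bd, h.ac, h.b'a, h.b'c, h.d'a, h.d'c, h.a'b, h.a'd, h.c'b, h.c'd, h.b'd', h.a'c'⟩

/-- exchange of `(a,b,a',b')` and `(c,d,c',d')` -/
theorem QData.swap {s : A → B → ℤ} {a c b' d' : A} {b d a' c' : B} (h : QData s a c b' d' b d a' c') :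
    QData s c a d' b' d b c' a' := by
  exact ⟨by rw [h.nc, Finset.insert_comm], by rw [h.na, Finset.insert_comm], by rw [h.nd, Finset.insert_comm],
    by rw [h.nb, Finset.insert_comm], h.ac.symm, h.bd.symm, h.c'd, h.c'b, h.a'd, h.a'b, h.d'c, h.d'a, h.b'c, h.b'a,
    h.a'c'.symm, h.b'd'.symm⟩

/-- exchange of `(b,b')` and `(d,d')` -/
theorem QData.swapcol {s : A → B → ℤ} {a c b' d' : A} {b d a' c' : B} (h : QData s a c b' d' b d a' c') :
    QData s a c d' b' d b a' c' := by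
  exact ⟨by rw [h.na, Finset.insert_comm], by rw [h.nc, Finset.insert_comm], h.nd, h.nb, h.ac, h.bd.symm, h.a'd, h.a'b,
    h.c'd, h.c'b, h.d'a, h.d'c, h.b'a, h.b'c, h.a'c', h.b'd'.symm⟩

theorem qf_tr (s : A → B → ℤ) (a c b' d' : A) (b d a' c' : B) :
    MCC.tr (qf s a c b' d' b d a' c') = qf (MCC.tr s) b d a' c' a c b' d' := by
  funext y x
  simp only [tr_apply, qf]
  have e1 : (y = b ∨ y = d ∨ x = a ∨ x = c) ↔ (x = a ∨ x = c ∨ y = b ∨ y = d) := by tauto
  have e2 : (y = a' ∧ x = b') ↔ (x = b' ∧ y = a') := and_comm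
  have e3 : (y = c' ∧ x = d') ↔ (x = d' ∧ y = c') := and_comm
  simp only [e1, e2, e3]
  split_ifs <;> ring

theorem QData.qf_swap {s : A → B → ℤ} {a c b' d' : A} {b d a' c' : B} (h : QData s a c b' d' b d a' c') :
    qf s c a d' b' d b c' a' = qf s a c b' d' b d a' c' := by
  funext x y
  simp only [qf]
  have e1 : (x = c ∨ x = a ∨ y = d ∨ y = b) ↔ (x = a ∨ x = c ∨ y = b ∨ y = d) := by tauto
  simp only [e1]
  by_cases h0 : x = a ∨ x = c ∨ y = b ∨ y = d
  · rw [if_pos h0, if_pos h0]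
  · rw [if_neg h0, if_neg h0]
    by_cases h1 : x = b' ∧ y = a'
    · have h2 : ¬ (x = d' ∧ y = c') := fun h3 => h.b'd' (h1.1.symm.trans h3.1)
      rw [if_neg h2, if_pos h1, if_pos h1]
    · by_cases h2 : x = d' ∧ y = c'
      · rw [if_pos h2, if_neg h1, if_pos h2]
      · rw [if_neg h2, if_neg h1, if_neg h1, if_neg h2]

theorem QData.off {s : A → B → ℤ} {a c b' d' : A} {b d a' c' : B} (h : QData s a c b' d' b d a' c') :
    Off (qf s a c b' d' b d a' c') a c b d := by
  refine ⟨h.ac, h.bd, fun y => ?_, fun y => ?_, fun x => ?_, fun x => ?_⟩ <;> simp [qf]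

/-- neighbours in the reduced graph -/
theorem QData.NA_qf {s : A → B → ℤ} {a c b' d' : A} {b d a' c' : B} (h : QData s a c b' d' b d a' c')
    {S : Finset A} (ha : a ∉ S) (hc : c ∉ S) :
    NA (qf s a c b' d' b d a' c') S = (NA s S \ {b, d}) ∪ (if b' ∈ S then {a'} else ∅) ∪ (if d' ∈ S then {c'} else ∅) := by
  have hab : s a b ≠ 0 := mem_nbA.1 (by rw [h.na]; simp)
  have haa : s a a' ≠ 0 := mem_nbA.1 (by rw [h.na]; simp)
  have hbb : s b' b ≠ 0 := mem_nbB.1 (by rw [h.nb]; simp)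
  have hcd : s c d ≠ 0 := mem_nbA.1 (by rw [h.nc]; simp)
  have hcc : s c c' ≠ 0 := mem_nbA.1 (by rw [h.nc]; simp)
  have hdd : s d' d ≠ 0 := mem_nbB.1 (by rw [h.nd]; simp)
  have hP : -(s a b * s a a' * s b' b) ≠ 0 := neg_ne_zero.2 (mul_ne_zero (mul_ne_zero hab haa) hbb)
  have hR : -(s c d * s c c' * s d' d) ≠ 0 := neg_ne_zero.2 (mul_ne_zero (mul_ne_zero hcd hcc) hdd)
  ext y
  rw [mem_NA, mem_union, mem_union, mem_sdiff, mem_NA]
  constructor
  · rintro ⟨x, hx, hxy⟩
    have hxa : x ≠ a := fun e => ha (e ▸ hx)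
    have hxc : x ≠ c := fun e => hc (e ▸ hx)
    unfold qf at hxy
    by_cases h0 : x = a ∨ x = c ∨ y = b ∨ y = d
    · rw [if_pos h0] at hxy
      exact absurd rfl hxy
    · rw [if_neg h0] at hxy
      push Not at h0
      by_cases h1 : x = b' ∧ y = a'
      · left
        right
        rw [if_pos (h1.1 ▸ hx), mem_singleton]
        exact h1.2
      · rw [if_neg h1] at hxy
        by_cases h2 : x = d' ∧ y = c'
        · right
          rw [if_pos (h2.1 ▸ hx), mem_singleton]
          exact h2.2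
        · rw [if_neg h2] at hxy
          left
          left
          refine ⟨⟨x, hx, hxy⟩, ?_⟩
          rw [mem_insert, mem_singleton]
          push Not
          exact ⟨h0.2.2.1, h0.2.2.2⟩
  · rintro ((⟨⟨x, hx, hxy⟩, hy⟩ | hy) | hy)
    · have hxa : x ≠ a := fun e => ha (e ▸ hx)
      have hxc : x ≠ c := fun e => hc (e ▸ hx)
      rw [mem_insert, mem_singleton] at hy
      push Not at hy
      refine ⟨x, hx, ?_⟩
      unfold qf
      rw [if_neg (by push Not; exact ⟨hxa, hxc, hy.1, hy.2⟩)]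
      split_ifs
      · exact hP
      · exact hR
      · exact hxy
    · split_ifs at hy with hb
      · rw [mem_singleton] at hy
        refine ⟨b', hb, ?_⟩
        rw [hy]
        unfold qf
        rw [if_neg (by push Not; exact ⟨h.b'a, h.b'c, h.a'b, h.a'd⟩), if_pos ⟨rfl, rfl⟩]
        exact hP
      · exact absurd hy (notMem_empty y)
    · split_ifs at hy with hd
      · rw [mem_singleton] at hy
        refine ⟨d', hd, ?_⟩
        rw [hy]
        unfold qf
        rw [if_neg (by push Not; exact ⟨h.d'a, h.d'c, h.c'b, h.c'd⟩), if_neg (fun h1 => h.b'd' h1.1.symm), if_pos ⟨rfl, rfl⟩]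
        exact hR
      · exact absurd hy (notMem_empty y)

end MCC
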