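import Pool.Agent.Lib_MP_cb5629.QRed

set_option linter.unusedSectionVars false

namespace MCC

open Finset

variable {A B : Type} [Fintype A] [Fintype B] [DecidableEq A] [DecidableEq B]

private lemma QRed2_ab {s : A → B → ℤ} {a c b' d' : A} {b d a' c' : B}
    (h : QData s a c b' d' b d a' c') : s a b ≠ 0 := by
  have : b ∈ nbA s a := by rw [h.na]; simp
  exact mem_nbA.1 this

private lemma QRed2_ad {s : A → B → ℤ} {a c b' d' : A} {b d a' c' : B}
    (h : QData s a c b' d' b d a' c') : s a d ≠ 0 := by
  have : d ∈ nbA s a := by rw [h.na]; simp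
  exact mem_nbA.1 this

private lemma QRed2_aa {s : A → B → ℤ} {a c b' d' : A} {b d a' c' : B}
    (h : QData s a c b' d' b d a' c') : s a a' ≠ 0 := by
  have : a' ∈ nbA s a := by rw [h.na]; simp
  exact mem_nbA.1 this

private lemma QRed2_cd {s : A → B → ℤ} {a c b' d' : A} {b d a' c' : B}
    (h : QData s a c b' d' b d a' c') : s c d ≠ 0 := by
  have : d ∈ nbA s c := by rw [h.nc]; simp
  exact mem_nbA.1 this

private lemma QRed2_cc {s : A → B → ℤ} {a c b' d' : A} {b d a' c' : B}
    (h : QData s a c b' d' b d a' c') : s c c' ≠ 0 := by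
  have : c' ∈ nbA s c := by rw [h.nc]; simp
  exact mem_nbA.1 this

private lemma QRed2_bb {s : A → B → ℤ} {a c b' d' : A} {b d a' c' : B}
    (h : QData s a c b' d' b d a' c') : s b' b ≠ 0 := by
  have : b' ∈ nbB s b := by rw [h.nb]; simp
  exact mem_nbB.1 this

private lemma QRed2_dd {s : A → B → ℤ} {a c b' d' : A} {b d a' c' : B}
    (h : QData s a c b' d' b d a' c') : s d' d ≠ 0 := by
  have : d' ∈ nbB s d := by rw [h.nd]; simp
  exact mem_nbB.1 this

private lemma QRed2_xb {s : A → B → ℤ} {a c b' d' : A} {b d a' c' : B}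
    (h : QData s a c b' d' b d a' c') {x : A} (h1 : x ≠ a) (h2 : x ≠ c) (h3 : x ≠ b') : s x b = 0 := by
  by_contra hne
  have : x ∈ nbB s b := mem_nbB.2 hne
  rw [h.nb] at this
  simp only [mem_insert, mem_singleton] at this
  tauto

private lemma QRed2_xd {s : A → B → ℤ} {a c b' d' : A} {b d a' c' : B}
    (h : QData s a c b' d' b d a' c') {x : A} (h1 : x ≠ a) (h2 : x ≠ c) (h3 : x ≠ d') : s x d = 0 := by
  by_contra hne
  have : x ∈ nbB s d := mem_nbB.2 hne
  rw [h.nd] at this
  simp only [mem_insert, mem_singleton] at this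
  tauto

private lemma QRed2_row {s : A → B → ℤ} (hc : Cubic s) {a c b' d' : A} {b d a' c' : B}
    (h : QData s a c b' d' b d a' c') (h1 : s b' a' = 0) (h2 : s d' c' = 0) {x : A} (hxa : x ≠ a)
    (hxc : x ≠ c) : (nbA (qf s a c b' d' b d a' c') x).card = 3 := by
  classical
  rw [← NA_singleton, h.NA_qf (S := {x}) (by simpa using hxa.symm) (by simpa using hxc.symm), NA_singleton]
  have h3 := hc.row x
  by_cases hb : x = b'
  · subst hb
    have hd : ¬ d' = x := fun e => h.b'd' e.symm
    have e1 : nbA s x \ {b, d} = (nbA s x).erase b := by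
      ext y
      simp only [mem_sdiff, mem_insert, mem_singleton, mem_erase, not_or]
      constructor
      · rintro ⟨hy, hyb, hyd⟩; exact ⟨hyb, hy⟩
      · rintro ⟨hyb, hy⟩
        refine ⟨hy, hyb, ?_⟩
        rintro rfl
        exact mem_nbA.1 hy (QRed2_xd h hxa hxc h.b'd')
    have hbm : b ∈ nbA s x := mem_nbA.2 (QRed2_bb h)
    have e2 : ((nbA s x).erase b).card + 1 = (nbA s x).card := card_erase_add_one hbm
    have e3 : a' ∉ (nbA s x).erase b := by
      intro hh
      exact mem_nbA.1 (mem_of_mem_erase hh) h1
    rw [if_pos (mem_singleton_self x), if_neg (by simpa using hd), union_empty, e1, union_comm, ← insert_eq,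
      card_insert_of_notMem e3]
    omega
  · by_cases hd : x = d'
    · subst hd
      have hb' : ¬ b' = x := fun e => hb e.symm
      have e1 : nbA s x \ {b, d} = (nbA s x).erase d := by
        ext y
        simp only [mem_sdiff, mem_insert, mem_singleton, mem_erase, not_or]
        constructor
        · rintro ⟨hy, hyb, hyd⟩; exact ⟨hyd, hy⟩
        · rintro ⟨hyd, hy⟩
          refine ⟨hy, ?_, hyd⟩
          rintro rfl
          exact mem_nbA.1 hy (QRed2_xb h hxa hxc hb)
      have hdm : d ∈ nbA s x := mem_nbA.2 (QRed2_dd h)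
      have e2 : ((nbA s x).erase d).card + 1 = (nbA s x).card := card_erase_add_one hdm
      have e3 : c' ∉ (nbA s x).erase d := by
        intro hh
        exact mem_nbA.1 (mem_of_mem_erase hh) h2
      rw [if_neg (by simpa using hb'), if_pos (mem_singleton_self x), union_empty, e1, union_comm, ← insert_eq,
        card_insert_of_notMem e3]
      omega
    · have hb' : ¬ b' = x := fun e => hb e.symm
      have hd' : ¬ d' = x := fun e => hd e.symm
      have e1 : nbA s x \ {b, d} = nbA s x := by
        apply Finset.sdiff_eq_self_of_disjoint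
        rw [Finset.disjoint_left]
        intro y hy hy2
        simp only [mem_insert, mem_singleton] at hy2
        rcases hy2 with rfl | rfl
        · exact mem_nbA.1 hy (QRed2_xb h hxa hxc hb)
        · exact mem_nbA.1 hy (QRed2_xd h hxa hxc hd)
      rw [if_neg (by simpa using hb'), if_neg (by simpa using hd'), union_empty, union_empty, e1]
      exact h3

private lemma QRed2_val {s : A → B → ℤ} (hc : Cubic s) {a c b' d' : A} {b d a' c' : B}
    (h : QData s a c b' d' b d a' c') (x : A) (y : B) :
    qf s a c b' d' b d a' c' x y = 0 ∨ qf s a c b' d' b d a' c' x y = 1 ∨ qf s a c b' d' b d a' c' x y = -1 := by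
  have key : ∀ u v w : ℤ, (u = 0 ∨ u = 1 ∨ u = -1) → (v = 0 ∨ v = 1 ∨ v = -1) → (w = 0 ∨ w = 1 ∨ w = -1) →
      (-(u * v * w) = 0 ∨ -(u * v * w) = 1 ∨ -(u * v * w) = -1) := by
    rintro u v w (rfl | rfl | rfl) (rfl | rfl | rfl) (rfl | rfl | rfl) <;> norm_num
  unfold qf
  split_ifs
  · exact Or.inl rfl
  · exact key _ _ _ (hc.val _ _) (hc.val _ _) (hc.val _ _)
  · exact key _ _ _ (hc.val _ _) (hc.val _ _) (hc.val _ _)
  · exact hc.val _ _

/-- Piece QR2. The reduced graph is cubic if the new edges are not edges of `s` (`Off.cubic`): the row `b'` loses `b` and gets `a'`, the row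
`d'` loses `d` and gets `c'`, the column `a'` loses `a` and gets `b'`, the column `c'` loses `c` and gets `d'`; no other row or column is adjacent to `Q`. -/
theorem QData.qf_cubic {s : A → B → ℤ} (hc : Cubic s) {a c b' d' : A} {b d a' c' : B}
    (h : QData s a c b' d' b d a' c') (h1 : s b' a' = 0) (h2 : s d' c' = 0) :
    Cubic (rst (qf s a c b' d' b d a' c') a c b d) := by
  apply h.off.cubic (QRed2_val hc h)
  · intro x hx1 hx2
    exact QRed2_row hc h h1 h2 hx1 hx2
  · intro y hy1 hy2
    have := QRed2_row (s := MCC.tr s) hc.tr h.tr (x := y) h1 h2 hy1 hy2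
    rw [← qf_tr] at this
    exact this

/-- Piece QR2. Number of negative edges of the reduced graph. -/
theorem QData.qf_neg {s : A → B → ℤ} (hc : Cubic s) {a c b' d' : A} {b d a' c' : B}
    (h : QData s a c b' d' b d a' c') (h1 : s b' a' = 0) (h2 : s d' c' = 0) :
    (neg (qf s a c b' d' b d a' c')).card =
      ((neg s).filter fun p => p.1 ≠ a ∧ p.1 ≠ c ∧ p.2 ≠ b ∧ p.2 ≠ d).card
      + (if s a b * s a a' * s b' b = 1 then 1 else 0) + (if s c d * s c c' * s d' d = 1 then 1 else 0) := by
  classical
  have hdec : neg (qf s a c b' d' b d a' c') =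
      (((neg s).filter fun p => p.1 ≠ a ∧ p.1 ≠ c ∧ p.2 ≠ b ∧ p.2 ≠ d) ∪
        (if s a b * s a a' * s b' b = 1 then {(b', a')} else ∅)) ∪
        (if s c d * s c c' * s d' d = 1 then {(d', c')} else ∅) := by
    ext ⟨x, y⟩
    simp only [mem_neg, mem_union, mem_filter]
    unfold qf
    by_cases c0 : x = a ∨ x = c ∨ y = b ∨ y = d
    · rw [if_pos c0]
      constructor
      · intro hh; norm_num at hh
      · intro hh
        exfalso
        rcases hh with (⟨-, hh⟩ | hh) | hh
        · tauto
        · split_ifs at hh with hi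
          · rw [mem_singleton, Prod.mk.injEq] at hh
            obtain ⟨rfl, rfl⟩ := hh
            rcases c0 with e | e | e | e
            exacts [h.b'a e, h.b'c e, h.a'b e, h.a'd e]
          · simp at hh
        · split_ifs at hh with hi
          · rw [mem_singleton, Prod.mk.injEq] at hh
            obtain ⟨rfl, rfl⟩ := hh
            rcases c0 with e | e | e | e
            exacts [h.d'a e, h.d'c e, h.c'b e, h.c'd e]
          · simp at hh
    · rw [if_neg c0]
      have c0' : x ≠ a ∧ x ≠ c ∧ y ≠ b ∧ y ≠ d := by tauto
      by_cases c1 : x = b' ∧ y = a'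
      · obtain ⟨rfl, rfl⟩ := c1
        rw [if_pos ⟨rfl, rfl⟩]
        have e1 : ¬ (x = d' ∧ y = c') := fun e => h.b'd' e.1
        have e2 : (x, y) ∉ (if s c d * s c c' * s d' d = 1 then ({(d', c')} : Finset (A × B)) else ∅) := by
          split_ifs
          · rw [mem_singleton, Prod.mk.injEq]; exact e1
          · simp
        constructor
        · intro hh
          refine Or.inl (Or.inr ?_)
          rw [if_pos (by linarith)]
          exact mem_singleton_self _
        · rintro ((⟨hh, -⟩ | hh) | hh)
          · rw [h1] at hh; norm_num at hh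
          · split_ifs at hh with hi
            · rw [hi]
            · simp at hh
          · exact absurd hh e2
      · rw [if_neg c1]
        have e3 : (x, y) ∉ (if s a b * s a a' * s b' b = 1 then ({(b', a')} : Finset (A × B)) else ∅) := by
          split_ifs
          · rw [mem_singleton, Prod.mk.injEq]; exact c1
          · simp
        by_cases c2 : x = d' ∧ y = c'
        · obtain ⟨rfl, rfl⟩ := c2
          rw [if_pos ⟨rfl, rfl⟩]
          constructor
          · intro hh
            refine Or.inr ?_
            rw [if_pos (by linarith)]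
            exact mem_singleton_self _
          · rintro ((⟨hh, -⟩ | hh) | hh)
            · rw [h2] at hh; norm_num at hh
            · exact absurd hh e3
            · split_ifs at hh with hi
              · rw [hi]
              · simp at hh
        · rw [if_neg c2]
          have e4 : (x, y) ∉ (if s c d * s c c' * s d' d = 1 then ({(d', c')} : Finset (A × B)) else ∅) := by
            split_ifs
            · rw [mem_singleton, Prod.mk.injEq]; exact c2
            · simp
          constructor
          · intro hh
            exact Or.inl (Or.inl ⟨hh, c0'⟩)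
          · rintro ((⟨hh, -⟩ | hh) | hh)
            · exact hh
            · exact absurd hh e3
            · exact absurd hh e4
  rw [hdec, card_union_of_disjoint, card_union_of_disjoint]
  · congr 1
    · congr 1
      split_ifs <;> simp
    · split_ifs <;> simp
  · rw [Finset.disjoint_left]
    rintro ⟨x, y⟩ hp hq
    split_ifs at hq with hi
    · rw [mem_singleton, Prod.mk.injEq] at hq
      obtain ⟨rfl, rfl⟩ := hq
      rw [mem_filter, mem_neg] at hp
      have := hp.1
      simp only at this
      rw [h1] at this
      norm_num at this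
    · simp at hq
  · rw [Finset.disjoint_left]
    rintro ⟨x, y⟩ hp hq
    split_ifs at hq with hi
    · rw [mem_singleton, Prod.mk.injEq] at hq
      obtain ⟨rfl, rfl⟩ := hq
      rw [mem_union] at hp
      rcases hp with hp | hp
      · rw [mem_filter, mem_neg] at hp
        have := hp.1
        simp only at this
        rw [h2] at this
        norm_num at this
      · split_ifs at hp with hj
        · rw [mem_singleton, Prod.mk.injEq] at hp
          exact h.b'd' hp.1.symm
        · simp at hp
    · simp at hq

/-- Piece QR2. The reduced graph is SNS if it is a cubic brace.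

Proof. `sns_of_no_pm1` (`hN` from `Brace.one` for the transposed brace). Let `x` be a `±1` vector balancing all rows of the reduced graph. Extend it to `B` by
`x b = -(s a b * s a a') * x a'`, `x d = -(s c d * s c c') * x c'`. All rows of `s` are balanced: row `a`: the terms at `b` and `a'` are opposite (and
nonzero); row `c`: the terms at `d` and `c'` are opposite; row `b'`: its term at `b` is `s b' b * x b = -(s a b * s a a' * s b' b) * x a'`, the term of the new edge
`(b',a')` (and `s b' a' = 0`); row `d'` in the same way; other rows have the same terms in both graphs. So `x = 0` by `hs`: contradiction. -/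
theorem QData.qf_sns {s : A → B → ℤ} (hc : Cubic s) (hs : SNS s) {a c b' d' : A} {b d a' c' : B}
    (h : QData s a c b' d' b d a' c') (h1 : s b' a' = 0) (h2 : s d' c' = 0)
    (hbr : Brace (rst (qf s a c b' d' b d a' c') a c b d)) :
    SNS (rst (qf s a c b' d' b d a' c') a c b d) := by
  classical
  have hcl : Cubic (rst (qf s a c b' d' b d a' c') a c b d) := h.qf_cubic hc h1 h2
  apply sns_of_no_pm1 hcl.card_eq
  · intro T hT hTu
    have hlt : T.card < Fintype.card {y : B // y ≠ b ∧ y ≠ d} := by
      rw [← card_univ]
      exact card_lt_card (ssubset_univ_iff.2 hTu)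
    exact Brace.one hcl.tr (Brace.tr hcl hbr) hT hlt
  · intro x hx
    by_contra hcon
    push Not at hcon
    set X0 : B → ℝ := fun y => if hy : y ≠ b ∧ y ≠ d then x ⟨y, hy⟩ else 0 with hX0
    have hX0x : ∀ y (hy : y ≠ b ∧ y ≠ d), X0 y = x ⟨y, hy⟩ := by
      intro y hy
      rw [hX0]
      simp only [dif_pos hy]
    have hX0a : X0 a' = 1 ∨ X0 a' = -1 := by
      rw [hX0x a' ⟨h.a'b, h.a'd⟩]; exact hx _
    have hX0c : X0 c' = 1 ∨ X0 c' = -1 := by
      rw [hX0x c' ⟨h.c'b, h.c'd⟩]; exact hx _
    set X : B → ℝ := fun y => if y = b then -((s a b : ℝ) * s a a') * X0 a'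
      else if y = d then -((s c d : ℝ) * s c c') * X0 c' else X0 y with hX
    have hXb : X b = -((s a b : ℝ) * s a a') * X0 a' := by
      rw [hX]; simp only [if_true]
    have hXd : X d = -((s c d : ℝ) * s c c') * X0 c' := by
      rw [hX]; simp only [if_true, if_neg h.bd.symm]
    have hXy : ∀ y, y ≠ b → y ≠ d → X y = X0 y := by
      intro y hyb hyd
      rw [hX]; simp only [if_neg hyb, if_neg hyd]
    have hsq : ∀ (u : A) (v : B), s u v ≠ 0 → (s u v : ℝ) * (s u v : ℝ) = 1 := by
      intro u v huv
      rcases hc.val u v with e | e | e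
      · exact absurd e huv
      · rw [e]; norm_num
      · rw [e]; norm_num
    have hpm : ∀ (t : ℝ), (t = 1 ∨ t = -1) → ∀ (p q : B) (r : A), (s r p : ℝ) * X p = -t → (s r q : ℝ) * X q = t →
        Bal s X r := by
      intro t ht p q r hp hq
      rcases ht with ht | ht
      · exact Or.inr ⟨⟨q, by rw [hq, ht]; norm_num⟩, ⟨p, by rw [hp, ht]; norm_num⟩⟩
      · exact Or.inr ⟨⟨p, by rw [hp, ht]; norm_num⟩, ⟨q, by rw [hq, ht]; norm_num⟩⟩
    have hbal : ∀ r, Bal s X r := by
      intro r
      by_cases hra : r = a
      · subst hra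
        refine hpm ((s r a' : ℝ) * X0 a') ?_ b a' r ?_ ?_
        · rcases hc.val r a' with e | e | e
          · exact absurd e (QRed2_aa h)
          · rw [e]; rcases hX0a with e' | e' <;> rw [e'] <;> norm_num
          · rw [e]; rcases hX0a with e' | e' <;> rw [e'] <;> norm_num
        · rw [hXb]
          have := hsq r b (QRed2_ab h)
          calc (s r b : ℝ) * (-((s r b : ℝ) * s r a') * X0 a')
              = -(((s r b : ℝ) * s r b) * (s r a' * X0 a')) := by ring
            _ = -((s r a' : ℝ) * X0 a') := by rw [this]; ring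
        · rw [hXy a' h.a'b h.a'd]
      · by_cases hrc : r = c
        · subst hrc
          refine hpm ((s r c' : ℝ) * X0 c') ?_ d c' r ?_ ?_
          · rcases hc.val r c' with e | e | e
            · exact absurd e (QRed2_cc h)
            · rw [e]; rcases hX0c with e' | e' <;> rw [e'] <;> norm_num
            · rw [e]; rcases hX0c with e' | e' <;> rw [e'] <;> norm_num
          · rw [hXd]
            have := hsq r d (QRed2_cd h)
            calc (s r d : ℝ) * (-((s r d : ℝ) * s r c') * X0 c')
                = -(((s r d : ℝ) * s r d) * (s r c' * X0 c')) := by ring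
              _ = -((s r c' : ℝ) * X0 c') := by rw [this]; ring
          · rw [hXy c' h.c'b h.c'd]
        · -- transfer of the terms
          have htr : ∀ y : {y : B // y ≠ b ∧ y ≠ d}, ∃ y' : B,
              (s r y' : ℝ) * X y' = ((rst (qf s a c b' d' b d a' c') a c b d ⟨r, hra, hrc⟩ y : ℤ) : ℝ) * x y := by
            rintro ⟨y, hy⟩
            have hval : rst (qf s a c b' d' b d a' c') a c b d ⟨r, hra, hrc⟩ ⟨y, hy⟩ =
                qf s a c b' d' b d a' c' r y := rfl
            rw [hval]
            have c0 : ¬ (r = a ∨ r = c ∨ y = b ∨ y = d) := by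
              rintro (e | e | e | e)
              exacts [hra e, hrc e, hy.1 e, hy.2 e]
            by_cases c1 : r = b' ∧ y = a'
            · obtain ⟨rfl, rfl⟩ := c1
              refine ⟨b, ?_⟩
              unfold qf
              rw [if_neg c0, if_pos ⟨rfl, rfl⟩, hXb, hX0x y hy]
              push_cast
              ring
            · by_cases c2 : r = d' ∧ y = c'
              · obtain ⟨rfl, rfl⟩ := c2
                refine ⟨d, ?_⟩
                unfold qf
                rw [if_neg c0, if_neg c1, if_pos ⟨rfl, rfl⟩, hXd, hX0x y hy]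
                push_cast
                ring
              · refine ⟨y, ?_⟩
                unfold qf
                rw [if_neg c0, if_neg c1, if_neg c2, hXy y hy.1 hy.2, hX0x y hy]
          rcases hcon ⟨r, hra, hrc⟩ with h0 | ⟨⟨y1, hy1⟩, ⟨y2, hy2⟩⟩
          · exfalso
            have hne : (nbA (rst (qf s a c b' d' b d a' c') a c b d) ⟨r, hra, hrc⟩).Nonempty := by
              rw [← card_pos, hcl.row]; norm_num
            obtain ⟨y, hy⟩ := hne
            rw [mem_nbA] at hy
            have h3 := h0 y
            rcases mul_eq_zero.1 h3 with h4 | h4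
            · exact hy (by exact_mod_cast h4)
            · rcases hx y with h5 | h5 <;> rw [h5] at h4 <;> norm_num at h4
          · obtain ⟨z1, hz1⟩ := htr y1
            obtain ⟨z2, hz2⟩ := htr y2
            exact Or.inr ⟨⟨z1, by rw [hz1]; exact hy1⟩, ⟨z2, by rw [hz2]; exact hy2⟩⟩
    have hzero := hs X hbal
    have h3 : X a' = 0 := congrFun hzero a'
    rw [hXy a' h.a'b h.a'd] at h3
    rcases hX0a with e | e <;> rw [e] at h3 <;> norm_num at h3

private lemma QRed2_simple {s : A → B → ℤ} (hc : Cubic s) {a c b' d' : A} {b d a' c' : B}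
    (h : QData s a c b' d' b d a' c') (h5 : 5 ≤ Fintype.card A) (hH : RHall (qf s a c b' d' b d a' c') a c) :
    s b' a' = 0 := by
  classical
  by_contra hne
  have hb'a : a ∉ ({b'} : Finset A) := by simpa using h.b'a.symm
  have hb'c : c ∉ ({b'} : Finset A) := by simpa using h.b'c.symm
  have h3 := hH {b'} hb'a hb'c (singleton_nonempty _) (by rw [card_singleton]; omega)
  rw [h.NA_qf hb'a hb'c, if_pos (mem_singleton_self _), if_neg (by simpa using h.b'd'.symm), union_empty,
    NA_singleton, card_singleton] at h3
  have hsub : (nbA s b' \ {b, d}) ∪ {a'} ⊆ (nbA s b').erase b := by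
    intro y hy
    simp only [mem_union, mem_sdiff, mem_insert, mem_singleton, not_or] at hy
    rw [mem_erase]
    rcases hy with ⟨hy, hyb, -⟩ | rfl
    · exact ⟨hyb, hy⟩
    · exact ⟨h.a'b, mem_nbA.2 hne⟩
  have h4 := card_le_card hsub
  have hbm : b ∈ nbA s b' := mem_nbA.2 (QRed2_bb h)
  have e2 : ((nbA s b').erase b).card + 1 = (nbA s b').card := card_erase_add_one hbm
  have e3 := hc.row b'
  omega

/-- Piece QR2. If the reduced graph has the (relative) brace property, the new edges are not edges of `s`: apply `RHall` to `{b'}`; the set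
`NA qf {b'} = (nbA s b' \ {b,d}) ∪ {a'}` has only two elements if `a' ∈ nbA s b'` (`b ∈ nbA s b'`). The same for `d'`. -/
theorem QData.simple {s : A → B → ℤ} (hc : Cubic s) {a c b' d' : A} {b d a' c' : B}
    (h : QData s a c b' d' b d a' c') (h5 : 5 ≤ Fintype.card A) (hH : RHall (qf s a c b' d' b d a' c') a c) :
    s b' a' = 0 ∧ s d' c' = 0 := by
  refine ⟨QRed2_simple hc h h5 hH, ?_⟩
  refine QRed2_simple hc h.swap h5 ?_
  rw [h.qf_swap]
  intro S hSc hSa
  exact hH S hSa hSc

end MCC
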