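import Pool.Agent.Lib_MP_cb5629.Base

/-! Reduction of an edge `xy` (section 1 of the paper text): definitions. -/

set_option linter.unusedSectionVars false

namespace MCC

open Finset

variable {A B : Type} [Fintype A] [Fintype B] [DecidableEq A] [DecidableEq B]

/-- local data at an edge `xy` that lies in no square -/
structure EdgeData (s : A → B → ℤ) (x : A) (y : B) (x1 x2 : A) (y1 y2 : B) : Prop where
  xy : s x y ≠ 0
  nx : nbA s x = {y, y1, y2}
  ny : nbB s y = {x, x1, x2}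
  yy1 : y ≠ y1
  yy2 : y ≠ y2
  y12 : y1 ≠ y2
  xx1 : x ≠ x1
  xx2 : x ≠ x2
  x12 : x1 ≠ x2
  s11 : s x1 y1 = 0
  s12 : s x1 y2 = 0
  s21 : s x2 y1 = 0
  s22 : s x2 y2 = 0

/-- `G - x - y + x1y1 + x2y2` with signs `-(s x y)(s x y_i)(s x_i y)` -/
def red (s : A → B → ℤ) (x : A) (y : B) (x1 x2 : A) (y1 y2 : B) : {a : A // a ≠ x} → {b : B // b ≠ y} → ℤ :=
  fun a b => if a.1 = x1 ∧ b.1 = y1 then -(s x y * s x y1 * s x1 y)
    else if a.1 = x2 ∧ b.1 = y2 then -(s x y * s x y2 * s x2 y) else s a.1 b.1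

/-- the sets of rows that show that `G - x - y + x1y1 + x2y2` is not a brace (version containing `x1`, `y1`) -/
structure BadSet (s : A → B → ℤ) (x : A) (x1 x2 : A) (y1 y2 : B) (S : Finset A) : Prop where
  mem : x1 ∈ S
  nx : x ∉ S
  nx2 : x2 ∉ S
  tight : (NA s S).card = S.card + 2
  y1 : y1 ∈ NA s S
  y2 : y2 ∉ NA s S
  low : 2 ≤ S.card
  upp : S.card + 4 ≤ Fintype.card A

end MCC
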