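import Pool.Agent.Lib_MP_cb5629.Step

set_option linter.unusedSectionVars false

namespace MCC

open Finset

variable {A B : Type} [Fintype A] [Fintype B] [DecidableEq A] [DecidableEq B]

/-- Piece A1. With exactly one negative edge there is no square: the negative edge lies in every square (`square_odd`), so the complement of the square
(`square_shore`) has no negative edge, and none leaves it: it is clean (`clean_of`), against `Ctx.FF`. (`n ≥ 5` by `five_le_card`.) -/
theorem stepA_nosq {n : ℕ} {s : A → B → ℤ} (h : Ctx n s) (hneg : (neg s).card = 1) {a c : A} {b d : B} (hac : a ≠ c)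
    (hbd : b ≠ d) (h1 : s a b ≠ 0) (h2 : s a d ≠ 0) (h3 : s c b ≠ 0) (h4 : s c d ≠ 0) : False := by
  obtain ⟨p, hp⟩ := card_eq_one.1 hneg
  have hodd := square_odd h.hc h.hb h.hs hac hbd h1 h2 h3 h4
  have h5 := five_le_card h.hc h.hb h.hs (by omega)
  have hmem : ∀ a' b', s a' b' = -1 → (a', b') = p := by
    intro a' b' hab
    have : ((a', b') : A × B) ∈ neg s := mem_neg.2 hab
    rw [hp, mem_singleton] at this
    exact this
  have hval : ∀ a' b', s a' b' ≠ 0 → s a' b' ≠ -1 → s a' b' = 1 := by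
    intro a' b' e1 e2
    rcases h.hc.val a' b' with e | e | e
    · exact absurd e e1
    · exact e
    · exact absurd e e2
  -- the negative edge is in the square
  have hin : (p.1 = a ∨ p.1 = c) ∧ (p.2 = b ∨ p.2 = d) := by
    by_cases c1 : s a b = -1
    · rw [← hmem _ _ c1]; exact ⟨Or.inl rfl, Or.inl rfl⟩
    by_cases c2 : s a d = -1
    · rw [← hmem _ _ c2]; exact ⟨Or.inl rfl, Or.inr rfl⟩
    by_cases c3 : s c b = -1
    · rw [← hmem _ _ c3]; exact ⟨Or.inr rfl, Or.inl rfl⟩
    by_cases c4 : s c d = -1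
    · rw [← hmem _ _ c4]; exact ⟨Or.inr rfl, Or.inr rfl⟩
    rw [hval _ _ h1 c1, hval _ _ h2 c2, hval _ _ h3 c3, hval _ _ h4 c4] at hodd
    norm_num at hodd
  have hA : ∀ a' ∈ (univ \ {a, c} : Finset A), ∀ b', s a' b' ≠ -1 := by
    intro a' ha' b' hab
    have e := hmem _ _ hab
    rw [mem_sdiff, mem_insert, mem_singleton] at ha'
    apply ha'.2
    rw [← e] at hin
    exact hin.1
  have hB : ∀ b' ∈ (univ \ {b, d} : Finset B), ∀ a', s a' b' ≠ -1 := by
    intro b' hb' a' hab
    have e := hmem _ _ hab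
    rw [mem_sdiff, mem_insert, mem_singleton] at hb'
    apply hb'.2
    rw [← e] at hin
    exact hin.2
  refine h.FF (square_shore h.hc (by omega) hac hbd h1 h2 h3 h4) (clean_of h.hc.val ?_ ?_ ?_)
  · intro a' ha' b' _
    exact hA a' ha' b'
  · intro a' ha' b' _ hab
    exact absurd hab (hA a' ha' b')
  · intro a' _ b' hb' hab
    exact absurd hab (hB b' hb' a')

/-- Piece A2. (A)(n). Proof. Let `neg s = {(x,y1)}`, `y` another neighbour of `x`; `squares s x y = ∅` by `stepA_nosq`; `EdgeData s x y x1 x2 y1 y2`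
(`exists_edgeData`). `n ≥ 5` (`five_le_card`). All bad sets are excluded by `no_badSet_local` (for the data and their exchanges `swapx`, `swapy`), so both reduced
graphs are braces (`red_brace`) and cubic (`red_cubic`). If `xy` is not of type II, one of them is SNS (`red_sns`); it has exactly one negative edge
(`neg_red_card`: the negative edge `(x,y1)` is removed; `s x y * s x y1 * s x1 y = -1`, `s x y * s x y2 * s x2 y = 1`, and similarly for the other
pairing), against `P (n-1)`. If it is of type II: `condT_local`, `typeII_fano`, `Fano.neg_ne_one`. -/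
theorem stepA {n : ℕ} {s : A → B → ℤ} (h : Ctx n s) : (neg s).card ≠ 1 := by
  intro hneg
  have hc := h.hc
  have hb := h.hb
  have hs := h.hs
  have h5 := five_le_card hc hb hs (by omega)
  obtain ⟨⟨x, y1⟩, hp⟩ := card_eq_one.1 hneg
  have hsxy1 : s x y1 = -1 := by
    have : ((x, y1) : A × B) ∈ neg s := by rw [hp]; exact mem_singleton_self _
    exact mem_neg.1 this
  have hmem : ∀ a' b', s a' b' = -1 → a' = x ∧ b' = y1 := by
    intro a' b' hab
    have : ((a', b') : A × B) ∈ neg s := mem_neg.2 hab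
    rw [hp, mem_singleton, Prod.mk.injEq] at this
    exact this
  have hval : ∀ a' b', s a' b' ≠ 0 → ¬ (a' = x ∧ b' = y1) → s a' b' = 1 := by
    intro a' b' e1 e2
    rcases hc.val a' b' with e | e | e
    · exact absurd e e1
    · exact e
    · exact absurd (hmem _ _ e) e2
  have hneg' : ∀ p ∈ neg s, p.1 = x := by
    intro p hpm
    rw [hp, mem_singleton] at hpm
    rw [hpm]
  -- another neighbour of `x`
  obtain ⟨y, hy, hyy1⟩ : ∃ y ∈ nbA s x, y ≠ y1 := by
    by_contra hcon
    push Not at hcon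
    have h1 : nbA s x ⊆ {y1} := fun b hb => mem_singleton.2 (hcon b hb)
    have h2 := card_le_card h1
    rw [hc.row x, card_singleton] at h2
    omega
  have hxy : s x y ≠ 0 := mem_nbA.1 hy
  have hxy1 : s x y1 ≠ 0 := by rw [hsxy1]; norm_num
  have hsq : squares s x y = ∅ := by
    rw [eq_empty_iff_forall_notMem]
    intro p hpm
    obtain ⟨q1, q2, q3, q4, q5⟩ := mem_squares.1 hpm
    exact stepA_nosq h hneg q1.symm q2.symm hxy q4 q3 q5
  obtain ⟨x1, x2, y2, E⟩ := exists_edgeData hc hxy hxy1 hyy1 hsq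
  by_cases hT : TypeII s x y
  · exact Fano.neg_ne_one hc hs (typeII_fano s hc hb hs x y hT (condT_local h hneg')) hneg
  · have nb : ∀ {x1 x2 : A} {y1 y2 : B}, EdgeData s x y x1 x2 y1 y2 → ∀ S,
        ¬ BadSet s x x1 x2 y1 y2 S :=
      fun E S => no_badSet_local h E (fun p hpm => Or.inl (hneg' p hpm)) S
    have hn1 : Fintype.card {a : A // a ≠ x} = n - 1 := by
      rw [red_card, h.hn]
    have hn5 : 5 ≤ n := by rw [← h.hn]; exact h5
    have hPn := h.hP (n - 1) (by omega)
    have hfil : ((neg s).filter fun p => p.1 ≠ x ∧ p.2 ≠ y).card = 0 := by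
      rw [card_eq_zero, filter_eq_empty_iff]
      intro p hpm hh
      exact hh.1 (hneg' p hpm)
    have hx1y : s x1 y ≠ 0 := by rw [← mem_nbB, E.ny]; simp
    have hx2y : s x2 y ≠ 0 := by rw [← mem_nbB, E.ny]; simp
    have hxy2 : s x y2 ≠ 0 := by rw [← mem_nbA, E.nx]; simp
    have v0 : s x y = 1 := hval _ _ hxy (fun hh => hyy1 hh.2)
    have v1 : s x1 y = 1 := hval _ _ hx1y (fun hh => hyy1 hh.2)
    have v2 : s x2 y = 1 := hval _ _ hx2y (fun hh => hyy1 hh.2)
    have v3 : s x y2 = 1 := hval _ _ hxy2 (fun hh => E.y12 hh.2.symm)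
    rcases red_sns hc hs E hT with hS | hS
    · have hbr := red_brace hc hb E h5 (nb E) (nb E.swapx.swapy)
      have hcount := neg_red_card hc E
      rw [hfil, v0, v1, v2, v3, hsxy1] at hcount
      exact (hPn _ _ _ hn1 (red_cubic hc E) hbr hS).1 (by rw [hcount]; norm_num)
    · have hbr := red_brace hc hb E.swapy h5 (nb E.swapy) (nb E.swapx)
      have hcount := neg_red_card hc E.swapy
      rw [hfil, v0, v1, v2, v3, hsxy1] at hcount
      exact (hPn _ _ _ hn1 (red_cubic hc E.swapy) hbr hS).1 (by rw [hcount]; norm_num)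

end MCC
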