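import Pool.Agent.Lib_MP_cb5629.KG
import Pool.Agent.Lib_MP_cb5629.KC
import Pool.Agent.Lib_MP_cb5629.KCase0
import Pool.Agent.Lib_MP_cb5629.KCase1a
import Pool.Agent.Lib_MP_cb5629.StepA

set_option linter.unusedSectionVars false

namespace MCC

open Finset

variable {A B : Type} [Fintype A] [Fintype B] [DecidableEq A] [DecidableEq B]

/-- (K)(n) for the negative edge `(a,b)`, the other one being `(u,v)`. -/
theorem stepK_pair {n : ℕ} {s : A → B → ℤ} (h : Ctx n s) {a u : A} {b v : B} (hneg : neg s = {(a, b), (u, v)})
    (hne : (a, b) ≠ (u, v)) : 2 ≤ (squares s a b).card := by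
  by_contra hlt
  push Not at hlt
  have hval : ∀ x y, s x y = -1 ↔ (x = a ∧ y = b) ∨ (x = u ∧ y = v) := by
    intro x y
    have : (x, y) ∈ neg s ↔ (x, y) ∈ ({(a, b), (u, v)} : Finset (A × B)) := by rw [hneg]
    simpa using this
  have hcard : (neg s).card = 2 := by rw [hneg]; exact card_pair hne
  have hab : s a b = -1 := (hval a b).2 (Or.inl ⟨rfl, rfl⟩)
  have huv : s u v = -1 := (hval u v).2 (Or.inr ⟨rfl, rfl⟩)
  -- disjoint
  have hdis : u ≠ a ∧ v ≠ b := by
    by_contra hcon
    have hsh : a = u ∨ b = v := by
      by_contra h'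
      push Not at h'
      exact hcon ⟨fun e => h'.1 e.symm, fun e => h'.2 e.symm⟩
    obtain ⟨α, β, h1⟩ := switch_two h.hc hne hneg hsh
    exact stepA (h.sw α β) h1
  obtain ⟨hua, hvb⟩ := hdis
  rcases Finset.eq_empty_or_nonempty (squares s a b) with h0 | ⟨⟨c, d⟩, hcd⟩
  · exact stepK_case0 h hneg hua hvb h0
  · obtain ⟨hca, hdb, h1, h2, h3⟩ := mem_squares.1 hcd
    simp only at hca hdb h1 h2 h3
    have hab0 : s a b ≠ 0 := by rw [hab]; norm_num
    have h5 : 5 ≤ Fintype.card A := five_le_card h.hc h.hb h.hs (by rw [hcard])
    obtain ⟨a', c', b', d', hq⟩ := exists_qdata h.hc h.hb (by omega) hca.symm hdb.symm hab0 h2 h1 h3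
    have hba' : s b' a' = 0 := by
      by_contra hcon
      have hm : (b', a') ∈ squares s a b := by
        rw [mem_squares]
        refine ⟨hq.b'a, hq.a'b, ?_, ?_, hcon⟩
        · have : b' ∈ nbB s b := by rw [hq.nb]; simp
          simpa using this
        · have : a' ∈ nbA s a := by rw [hq.na]; simp
          simpa using this
      have hne' : (c, d) ≠ (b', a') := by
        intro e
        exact hq.b'c (Prod.mk.inj e).1.symm
      have : 2 ≤ (squares s a b).card := by
        rw [← card_pair hne']
        apply card_le_card
        intro x hx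
        rw [mem_insert, mem_singleton] at hx
        rcases hx with rfl | rfl
        · exact hcd
        · exact hm
      omega
    -- (u,v) is not (c,d)
    have hpar := square_odd h.hc h.hb h.hs hca.symm hdb.symm hab0 h2 h1 h3
    have had : s a d = 1 := by
      rcases h.hc.val a d with h' | h' | h'
      · exact absurd h' h2
      · exact h'
      · rcases (hval a d).1 h' with ⟨_, e⟩ | ⟨e, _⟩
        · exact absurd e hdb
        · exact absurd e.symm hua
    have hcb : s c b = 1 := by
      rcases h.hc.val c b with h' | h' | h'
      · exact absurd h' h1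
      · exact h'
      · rcases (hval c b).1 h' with ⟨e, _⟩ | ⟨_, e⟩
        · exact absurd e hca
        · exact absurd e.symm hvb
    have hcd1 : s c d = 1 := by
      rcases h.hc.val c d with h' | h' | h'
      · exact absurd h' h3
      · exact h'
      · rw [hab, had, hcb, h'] at hpar; norm_num at hpar
    have hnot : ¬ (u = c ∧ v = d) := by
      rintro ⟨rfl, rfl⟩
      rw [huv] at hcd1; norm_num at hcd1
    by_cases huc : u = c
    · have hv : v = c' := by
        have : v ∈ nbA s c := by rw [mem_nbA, ← huc, huv]; norm_num
        rw [hq.nc] at this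
        simp only [mem_insert, mem_singleton] at this
        rcases this with e | e | e
        · exact absurd e hvb
        · exact absurd ⟨huc, e⟩ hnot
        · exact e
      subst huc; subst hv
      exact stepK_case1a h hq hneg
    · by_cases hvd : v = d
      · have hu : u = d' := by
          have : u ∈ nbB s d := by rw [mem_nbB, ← hvd, huv]; norm_num
          rw [hq.nd] at this
          simp only [mem_insert, mem_singleton] at this
          rcases this with e | e | e
          · exact absurd e hua
          · exact absurd e huc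
          · exact e
        subst hvd; subst hu
        apply stepK_case1a h.tr hq.tr
        ext ⟨y, x⟩
        rw [mem_neg]
        simp only [tr_apply, mem_insert, mem_singleton, Prod.mk.injEq]
        rw [hval]
        tauto
      · obtain ⟨D, hD⟩ := exists_kctx h hq hneg hua huc hvb hvd hba'
        exact hD.false

/-- (K)(n). -/
theorem stepK {n : ℕ} {s : A → B → ℤ} (h : Ctx n s) (hneg : (neg s).card = 2) :
    ∀ p ∈ neg s, 2 ≤ (squares s p.1 p.2).card := by
  intro p hp
  obtain ⟨q, q', hne, hqq⟩ := card_eq_two.1 hneg
  rw [hqq, mem_insert, mem_singleton] at hp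
  obtain ⟨a, b⟩ := q
  obtain ⟨u, v⟩ := q'
  rcases hp with rfl | rfl
  · exact stepK_pair h hqq hne
  · apply stepK_pair h (u := a) (v := b) _ hne.symm
    rw [hqq]
    exact pair_comm _ _

end MCC
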