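import Pool.Agent.Lib_MP_cb5629.T2Defs

set_option linter.unusedSectionVars false

namespace MCC

open Finset Relation

variable {A B : Type} [Fintype A] [Fintype B] [DecidableEq A] [DecidableEq B]
variable {s : A → B → ℤ} {x : A} {y : B}

/-! Piece T2B1: elementary facts about states. All short. -/

lemma mem_snk {c : B} : c ∈ snk s x y ↔ c ≠ y ∧ s x c ≠ 0 := by
  simp [snk, nbA]

/-- `x` has three neighbours, one is `y` -/
lemma card_snk (h : T2Ctx s x y) : (snk s x y).card = 2 := by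
  have h1 : y ∈ nbA s x := by simp [nbA, h.xy]
  rw [snk, card_erase_of_mem h1, h.hc.row]

/-- structure eta and `neg_neg` -/
lemma St.T_T (σ : St s x y) : σ.T.T = σ := by
  cases σ
  simp only [St.T, neg_neg]
  rfl

/-- `σ.T.O c` is `s x c = 0 ∧ ∀ i, σ.b i ≠ c` -/
lemma St.TO_iff (σ : St s x y) {c : B} : σ.T.O c ↔ s x c = 0 ∧ ∀ i, σ.b i ≠ c := by
  constructor
  · rintro ⟨h1, h2⟩
    exact ⟨h1, fun i => by have := h2 (-i); simpa [St.T] using this⟩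
  · rintro ⟨h1, h2⟩
    exact ⟨h1, fun i => h2 (-i)⟩

/-- `N1` in terms of `O` -/
lemma St.N_O (σ : St s x y) {r : A} (hr : σ.O r) : σ.T.O (σ.N r) ∧ s r (σ.N r) ≠ 0 ∧ σ.M (σ.N r) = r := by
  obtain ⟨h1, h2, h3, h4⟩ := σ.N1 r hr.1 hr.2
  exact ⟨σ.TO_iff.2 ⟨h1, h2⟩, h3, h4⟩

lemma St.M_O (σ : St s x y) {c : B} (hc : σ.T.O c) : σ.O (σ.M c) ∧ s (σ.M c) c ≠ 0 ∧ σ.N (σ.M c) = c := by
  rw [St.TO_iff] at hc
  obtain ⟨h1, h2, h3, h4⟩ := σ.M1 c hc.1 hc.2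
  exact ⟨⟨h1, h2⟩, h3, h4⟩

private theorem T2B1_WT {A B : Type} [Fintype A] [Fintype B] [DecidableEq A] [DecidableEq B]
    {s : A → B → ℤ} {x : A} {y : B} (σ : St s x y) {r : A} {c : B} (h : σ.W r c) : σ.T.W c r := by
  obtain ⟨r', h1, h2⟩ := h
  induction h1 using ReflTransGen.head_induction_on with
  | refl => exact ⟨c, ReflTransGen.refl, h2⟩
  | @head r r1 h3 h4 ih =>
    obtain ⟨c', h5, h6⟩ := ih
    obtain ⟨h7, h8, h9⟩ := σ.N_O h3.1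
    refine ⟨σ.N r1, ReflTransGen.tail h5 ⟨h7, ?_⟩, h3.2⟩
    show tr s c' (σ.M (σ.N r1)) ≠ 0
    rw [h9]
    exact h6

/-- A walk from `r` to `c` read backwards. Proof. It suffices to prove one direction for every state (use `T_T`). Induction on the
walk `r → r'` (`ReflTransGen.head_induction_on`): `r = r'`: the walk of `σ.T` from `c` has length `0`. `r → r1`, `r1 →* r'`: by induction a
walk of `σ.T` from `c` to a column `c'` adjacent to `r1`; the next step leads to the column `σ.N r1` (`σ.T.N = σ.M`, `σ.M (σ.N r1) = r1`),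
which is adjacent to `r`. -/
theorem St.W_T (σ : St s x y) {r : A} {c : B} : σ.T.W c r ↔ σ.W r c := by
  constructor
  · intro h
    have h' := T2B1_WT σ.T h
    rwa [σ.T_T] at h'
  · exact T2B1_WT σ

lemma St.mem_U (σ : St s x y) {r : A} : r ∈ σ.U ↔ σ.O r ∧ σ.Ex r := by
  simp [St.U]

lemma St.mem_V (σ : St s x y) {c : B} : c ∈ σ.V ↔ (∃ r ∈ σ.U, σ.N r = c) ∨ c ∈ snk s x y := by
  simp [St.V]

lemma St.mem_XR (σ : St s x y) {r : A} : r ∈ σ.XR ↔ (∃ i, σ.a i = r) ∧ σ.Ex r := by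
  simp [St.XR]

/-- `σ.N` is injective on `σ.U` (by `M`), and its values are no neighbours of `x` -/
theorem St.card_V (h : T2Ctx s x y) (σ : St s x y) : σ.V.card = σ.U.card + 2 := by
  rw [St.V, card_union_of_disjoint, card_image_of_injOn, card_snk h]
  · intro r hr r' hr' he
    have h1 := (σ.N_O (σ.mem_U.1 hr).1).2.2
    have h2 := (σ.N_O (σ.mem_U.1 hr').1).2.2
    rw [← h1, ← h2]
    exact congrArg σ.M he
  · rw [Finset.disjoint_left]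
    intro c hc hc'
    obtain ⟨r, hr, rfl⟩ := mem_image.1 hc
    have h1 := (σ.N_O (σ.mem_U.1 hr).1).1
    rw [St.TO_iff] at h1
    exact (mem_snk.1 hc').2 h1.1

/-- from `r` to `r'` to a sink -/
lemma St.Ex_of_step (σ : St s x y) {r r' : A} (h : σ.step r r') (h' : σ.Ex r') : σ.Ex r := by
  obtain ⟨c, hc, r2, h2, h3⟩ := h'
  exact ⟨c, hc, r2, ReflTransGen.head h h2, h3⟩

lemma St.Ex_of_reach (σ : St s x y) {r r' : A} (h : ReflTransGen σ.step r r') (h' : σ.Ex r') : σ.Ex r := by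
  obtain ⟨c, hc, r2, h2, h3⟩ := h'
  exact ⟨c, hc, r2, h.trans h2, h3⟩

/-- Either the first step goes to `r1 ∈ σ.U` (`c = σ.N r1`), or `r` is adjacent to a sink. Conversely `c = σ.N r1` with `r1 ∈ σ.U` is a
step to `r1`. -/
theorem St.Ex_iff (σ : St s x y) {r : A} : σ.Ex r ↔ ∃ c ∈ σ.V, s r c ≠ 0 := by
  constructor
  · rintro ⟨c, hc, r', h1, h2⟩
    rcases ReflTransGen.cases_head h1 with rfl | ⟨r1, h3, h4⟩
    · exact ⟨c, σ.mem_V.2 (Or.inr hc), h2⟩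
    · exact ⟨σ.N r1, σ.mem_V.2 (Or.inl ⟨r1, σ.mem_U.2 ⟨h3.1, c, hc, r', h4, h2⟩, rfl⟩), h3.2⟩
  · rintro ⟨c, hc, h1⟩
    rcases σ.mem_V.1 hc with ⟨r1, h2, rfl⟩ | h2
    · exact σ.Ex_of_step ⟨(σ.mem_U.1 h2).1, h1⟩ (σ.mem_U.1 h2).2
    · exact ⟨c, h2, r, ReflTransGen.refl, h1⟩

lemma St.mem_U_of_adj (σ : St s x y) {r : A} {c : B} (hr : σ.O r) (hc : c ∈ σ.V) (hrc : s r c ≠ 0) : r ∈ σ.U := by
  exact σ.mem_U.2 ⟨hr, σ.Ex_iff.2 ⟨c, hc, hrc⟩⟩

lemma St.a_not_U (σ : St s x y) (i : ℤ) : σ.a i ∉ σ.U := by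
  exact fun h => (σ.mem_U.1 h).1.2 i rfl

lemma St.b_not_V (σ : St s x y) (i : ℤ) : σ.b i ∉ σ.V := by
  intro h
  rcases σ.mem_V.1 h with ⟨r, h1, h2⟩ | h1
  · have h3 := (σ.N_O (σ.mem_U.1 h1).1).1
    rw [St.TO_iff] at h3
    exact h3.2 i h2.symm
  · exact (mem_snk.1 h1).2 (σ.bx i)

lemma St.y_not_V (h : T2Ctx s x y) (σ : St s x y) : y ∉ σ.V := by
  intro h0
  rcases σ.mem_V.1 h0 with ⟨r, h1, h2⟩ | h1
  · have h3 := (σ.N_O (σ.mem_U.1 h1).1).1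
    rw [St.TO_iff] at h3
    rw [h2] at h3
    exact h.xy h3.1
  · exact (mem_snk.1 h1).1 rfl

lemma St.x_not_U (h : T2Ctx s x y) (σ : St s x y) : x ∉ σ.U := by
  exact fun h1 => h.xy (σ.mem_U.1 h1).1.1

/-- `s (a i) y = 0` -/
lemma St.a_ne_x (h : T2Ctx s x y) (σ : St s x y) (i : ℤ) : σ.a i ≠ x := by
  intro h1
  have h2 := σ.ay i
  rw [h1] at h2
  exact h.xy h2

lemma St.s_ab (σ : St s x y) (i : ℤ) : s (σ.a i) (σ.b i) ≠ 0 := by
  intro h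
  have h1 := σ.e1 i
  rw [h] at h1
  simp at h1

lemma St.s_ab' (σ : St s x y) (i : ℤ) : s (σ.a i) (σ.b (i + 1)) ≠ 0 := by
  intro h
  have h1 := σ.e2 i
  rw [h] at h1
  simp at h1

end MCC
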