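import Pool.Agent.Lib_MP_cb5629.T2B1

set_option linter.unusedSectionVars false

namespace MCC

open Finset Relation

variable {A B : Type} [Fintype A] [Fintype B] [DecidableEq A] [DecidableEq B]
variable {s : A → B → ℤ} {x : A} {y : B}

/-! Piece T2B2: more elementary facts about states. -/

/-- `k = 1` would give `b 1 = b 0` and contradictory signs in `e1`, `e2` -/
theorem St.two_le_k (σ : St s x y) : 2 ≤ σ.k := by
  by_contra hk
  have h1 : σ.k = 1 := by have := σ.kpos; omega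
  have hb : σ.b (0 + 1) = σ.b 0 := by
    have := σ.pb 0
    rwa [h1] at this
  have e1 := σ.e1 0
  have e2 := σ.e2 0
  rw [hb, e1] at e2
  norm_num at e2

/-- periodicity for all multiples -/
lemma St.a_add (σ : St s x y) (i n : ℤ) : σ.a (i + n * σ.k) = σ.a i := by
  induction n using Int.induction_on with
  | zero => rw [zero_mul, add_zero]
  | succ n ih =>
    rw [← ih, show i + ((n : ℤ) + 1) * σ.k = (i + (n : ℤ) * σ.k) + σ.k by ring, σ.pa]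
  | pred n ih =>
    rw [← ih, show i + (-(n : ℤ)) * σ.k = (i + (-(n : ℤ) - 1) * σ.k) + σ.k by ring, σ.pa]

lemma St.b_add (σ : St s x y) (i n : ℤ) : σ.b (i + n * σ.k) = σ.b i := by
  induction n using Int.induction_on with
  | zero => rw [zero_mul, add_zero]
  | succ n ih =>
    rw [← ih, show i + ((n : ℤ) + 1) * σ.k = (i + (n : ℤ) * σ.k) + σ.k by ring, σ.pb]
  | pred n ih =>
    rw [← ih, show i + (-(n : ℤ)) * σ.k = (i + (-(n : ℤ) - 1) * σ.k) + σ.k by ring, σ.pb]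

/-- every index has a representative in the window `[p, p + k)` (`Int.emod`) -/
lemma St.window (σ : St s x y) (p i : ℤ) : ∃ j n, p ≤ j ∧ j < p + σ.k ∧ i = j + n * σ.k := by
  refine ⟨p + (i - p) % σ.k, (i - p) / σ.k, ?_, ?_, ?_⟩
  · have := Int.emod_nonneg (i - p) σ.kpos.ne'
    omega
  · have := Int.emod_lt_of_pos (i - p) σ.kpos
    omega
  · have := Int.emod_add_mul_ediv (i - p) σ.k
    rw [mul_comm ((i - p) / σ.k) σ.k]
    omega

lemma St.a_window (σ : St s x y) (p i : ℤ) : ∃ j, p ≤ j ∧ j < p + σ.k ∧ σ.a j = σ.a i := by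
  obtain ⟨j, n, h1, h2, h3⟩ := σ.window p i
  exact ⟨j, h1, h2, by rw [h3, σ.a_add]⟩

lemma St.b_window (σ : St s x y) (p i : ℤ) : ∃ j, p ≤ j ∧ j < p + σ.k ∧ σ.b j = σ.b i := by
  obtain ⟨j, n, h1, h2, h3⟩ := σ.window p i
  exact ⟨j, h1, h2, by rw [h3, σ.b_add]⟩

/-- The row `a i` has exactly one neighbour besides `b i`, `b (i+1)` (three neighbours, `b i ≠ b (i+1)` as `k ≥ 2`). -/
theorem St.third (h : T2Ctx s x y) (σ : St s x y) (i : ℤ) :
    ∃ c, c ≠ σ.b i ∧ c ≠ σ.b (i + 1) ∧ s (σ.a i) c ≠ 0 ∧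
      ∀ c', s (σ.a i) c' ≠ 0 → c' = σ.b i ∨ c' = σ.b (i + 1) ∨ c' = c := by
  have hne : σ.b i ≠ σ.b (i + 1) := by
    intro he
    have hk := σ.two_le_k
    have := σ.ib i (i + 1) (by omega) (by omega) he
    omega
  have hm1 : σ.b i ∈ nbA s (σ.a i) := by rw [mem_nbA]; exact σ.s_ab i
  have hm2 : σ.b (i + 1) ∈ (nbA s (σ.a i)).erase (σ.b i) := by
    rw [mem_erase, mem_nbA]; exact ⟨hne.symm, σ.s_ab' i⟩
  have hcard : (((nbA s (σ.a i)).erase (σ.b i)).erase (σ.b (i + 1))).card = 1 := by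
    rw [card_erase_of_mem hm2, card_erase_of_mem hm1, h.hc.row]
  obtain ⟨c, hcc⟩ := card_eq_one.mp hcard
  have hcm : c ∈ ((nbA s (σ.a i)).erase (σ.b i)).erase (σ.b (i + 1)) := by
    rw [hcc]; exact mem_singleton_self c
  rw [mem_erase, mem_erase, mem_nbA] at hcm
  refine ⟨c, hcm.2.1, hcm.1, hcm.2.2, ?_⟩
  intro c' hc'
  by_cases h1 : c' = σ.b i
  · exact Or.inl h1
  by_cases h2 : c' = σ.b (i + 1)
  · exact Or.inr (Or.inl h2)
  refine Or.inr (Or.inr ?_)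
  have : c' ∈ ((nbA s (σ.a i)).erase (σ.b i)).erase (σ.b (i + 1)) := by
    rw [mem_erase, mem_erase, mem_nbA]; exact ⟨h2, h1, hc'⟩
  rw [hcc] at this
  exact mem_singleton.mp this

/-- An exit row has exactly one neighbour in `V` (`third`, `b_not_V`, `Ex_iff`). -/
theorem St.exit_unique (h : T2Ctx s x y) (σ : St s x y) {i : ℤ} (hi : σ.Ex (σ.a i)) :
    ∃ c ∈ σ.V, s (σ.a i) c ≠ 0 ∧ ∀ c' ∈ σ.V, s (σ.a i) c' ≠ 0 → c' = c := by
  obtain ⟨c, hcV, hc⟩ := σ.Ex_iff.mp hi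
  obtain ⟨d, _, _, _, hd⟩ := σ.third h i
  have key : ∀ c' ∈ σ.V, s (σ.a i) c' ≠ 0 → c' = d := by
    intro c' hV hs
    rcases hd c' hs with h1 | h1 | h1
    · exact absurd (h1 ▸ hV) (σ.b_not_V i)
    · exact absurd (h1 ▸ hV) (σ.b_not_V (i + 1))
    · exact h1
  refine ⟨c, hcV, hc, ?_⟩
  intro c' hV hs
  rw [key c' hV hs, key c hcV hc]

/-- The rows `Z` are the rows reachable from the sources. Proof. `r ∈ σ.T.V` iff `r` is a source or `r = σ.M c` with `σ.T.O c` and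
`σ.T.Ex c`, i.e. (`W_T`) `σ.W r0 c` for a source `r0`; the last step of the walk goes to `σ.M c`. Conversely the last step of a walk
`r0 →* r`, `r ≠ r0`, goes to `r` with `σ.O r`, and `c = σ.N r`. -/
theorem St.mem_TV (σ : St s x y) {r : A} :
    r ∈ σ.T.V ↔ ∃ r0 ∈ snk (tr s) y x, ReflTransGen σ.step r0 r := by
  rw [σ.T.mem_V]
  constructor
  · rintro (⟨c, hcU, hcr⟩ | hr)
    · obtain ⟨hO, r0, hr0, hW⟩ := σ.T.mem_U.mp hcU
      obtain ⟨r', hw, hs⟩ := σ.W_T.mp hW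
      obtain ⟨g1, _, g3⟩ := σ.M_O hO
      have hMr : σ.M c = r := hcr
      refine ⟨r0, hr0, hw.tail ⟨?_, ?_⟩⟩
      · rw [← hMr]; exact g1
      · rw [← hMr, g3]; exact hs
    · exact ⟨r, hr, ReflTransGen.refl⟩
  · rintro ⟨r0, hr0, hw⟩
    rcases ReflTransGen.cases_tail hw with h | ⟨r', hw', hO, hs⟩
    · right; rw [h]; exact hr0
    · left
      obtain ⟨g1, _, g3⟩ := σ.N_O hO
      exact ⟨σ.N r, σ.T.mem_U.mpr ⟨g1, r0, hr0, σ.W_T.mpr ⟨r', hw', hs⟩⟩, g3⟩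

/-- `Z` is closed under steps -/
lemma St.TV_step (σ : St s x y) {r r' : A} (hr : r ∈ σ.T.V) (h : σ.step r r') : r' ∈ σ.T.V := by
  obtain ⟨r0, hr0, hw⟩ := σ.mem_TV.mp hr
  exact σ.mem_TV.mpr ⟨r0, hr0, hw.tail h⟩

/-- a row of `Z` off the sources is off `C`; its partner is in `σ.T.U` -/
lemma St.TV_O (σ : St s x y) {r : A} (hr : r ∈ σ.T.V) (hr' : r ∉ snk (tr s) y x) : σ.O r ∧ σ.N r ∈ σ.T.U := by
  rcases σ.T.mem_V.mp hr with ⟨c, hcU, hcr⟩ | h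
  · have hMr : σ.M c = r := hcr
    obtain ⟨g1, _, g3⟩ := σ.M_O (σ.T.mem_U.mp hcU).1
    rw [← hMr]
    exact ⟨g1, by rw [g3]; exact hcU⟩
  · exact absurd h hr'

/-- The columns adjacent to a row `r` of `Z` are `y` (if `r` is a source), columns of `σ.T.U`, entries, or sinks. (Sinks are excluded
later by `f1`.) Proof. `s r c ≠ 0`: if `s x c ≠ 0` then `c = y` or `c` is a sink; if `c = b i` it is an entry; otherwise `σ.T.O c` and
the step from `r` goes to `σ.M c`. -/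
theorem St.TV_adj (σ : St s x y) {r : A} (hr : r ∈ σ.T.V) {c : B} (hc : s r c ≠ 0) :
    c = y ∨ c ∈ σ.T.U ∨ c ∈ σ.T.XR ∨ c ∈ snk s x y := by
  by_cases hy : c = y
  · exact Or.inl hy
  by_cases hx : s x c = 0
  · obtain ⟨r0, hr0, hw⟩ := σ.mem_TV.mp hr
    have hEx : σ.T.Ex c := ⟨r0, hr0, σ.W_T.mpr ⟨r, hw, hc⟩⟩
    by_cases hb : ∃ i, σ.b i = c
    · obtain ⟨i, hi⟩ := hb
      refine Or.inr (Or.inr (Or.inl (σ.T.mem_XR.mpr ⟨⟨-i, ?_⟩, hEx⟩)))
      change σ.b (- -i) = c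
      rw [neg_neg]; exact hi
    · refine Or.inr (Or.inl (σ.T.mem_U.mpr ⟨σ.TO_iff.mpr ⟨hx, fun i hi => hb ⟨i, hi⟩⟩, hEx⟩))
  · exact Or.inr (Or.inr (Or.inr (mem_snk.mpr ⟨hy, hx⟩)))

end MCC
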