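import Pool.Agent.Lib_MP_cb5629.T2B2

set_option linter.unusedSectionVars false

namespace MCC

open Finset Relation

variable {A B : Type} [Fintype A] [Fintype B] [DecidableEq A] [DecidableEq B]
variable {s : A → B → ℤ} {x : A} {y : B}

/-! Piece T2D: deficient sets. `NB s T ∩ σ.U` contains the partners `σ.M c` of the columns `c ∈ T` that are not sinks. -/

/-- the partners -/
lemma St.partner_mem (σ : St s x y) {T : Finset B} (hT : T ⊆ σ.V) {c : B} (hc : c ∈ T) (hs : c ∉ snk s x y) :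
    σ.M c ∈ NB s T ∩ σ.U ∧ σ.N (σ.M c) = c := by
  rcases σ.mem_V.1 (hT hc) with ⟨r, hr, hrc⟩ | h1
  · obtain ⟨h2, h3, h4⟩ := σ.N_O (σ.mem_U.1 hr).1
    rw [hrc] at h3 h4
    rw [h4]
    exact ⟨mem_inter.2 ⟨mem_NB.2 ⟨c, hc, h3⟩, hr⟩, hrc⟩
  · exact absurd h1 hs

private lemma T2D_image (σ : St s x y) {T : Finset B} (hT : T ⊆ σ.V) :
    ((T \ snk s x y).image σ.M) ⊆ NB s T ∩ σ.U ∧ ((T \ snk s x y).image σ.M).card = (T \ snk s x y).card := by
  constructor
  · intro r hr
    obtain ⟨c, hc, rfl⟩ := mem_image.1 hr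
    rw [mem_sdiff] at hc
    exact (σ.partner_mem hT hc.1 hc.2).1
  · apply card_image_of_injOn
    intro c hc c' hc' hcc
    have h1 := mem_sdiff.1 (mem_coe.1 hc)
    have h2 := mem_sdiff.1 (mem_coe.1 hc')
    rw [← (σ.partner_mem hT h1.1 h1.2).2, ← (σ.partner_mem hT h2.1 h2.2).2]
    exact congrArg σ.N hcc

private lemma T2D_split (T S : Finset B) : (T \ S).card + (T ∩ S).card = T.card := by
  have := card_sdiff_add_card_inter T S
  omega

lemma St.d1 (h : T2Ctx s x y) (σ : St s x y) {T : Finset B} (hT : T ⊆ σ.V) :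
    T.card ≤ (NB s T ∩ σ.U).card + (T ∩ snk s x y).card := by
  obtain ⟨h1, h2⟩ := T2D_image σ hT
  have h3 := card_le_card h1
  have h4 := T2D_split T (snk s x y)
  omega

/-- Proof. Otherwise by `d1` both sinks are in `T` and `NB s T ∩ U` consists exactly of the partners of the other columns of `T`. No row
`r'` reachable from `f` is in `NB s T`: `f` is not; if `r ∉ NB s T` and `r → r'` then `σ.N r' ∉ T`, and if `r' ∈ NB s T` then `r' ∈ U`
(`mem_U_of_adj`), so `r' = σ.M c`, `c ∈ T`, `σ.N r' = c ∈ T`: contradiction. But `f` reaches a row adjacent to a sink. -/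
lemma St.d2 (h : T2Ctx s x y) (σ : St s x y) {T : Finset B} (hT : T ⊆ σ.V) {f : A} (hf : σ.Ex f) (hn : f ∉ NB s T) :
    T.card ≤ (NB s T ∩ σ.U).card + 1 := by
  by_contra hcon
  push Not at hcon
  obtain ⟨h1, h2⟩ := T2D_image σ hT
  have h3 := card_le_card h1
  have h4 := T2D_split T (snk s x y)
  have h5 : (T ∩ snk s x y).card ≤ 2 := by
    rw [← card_snk h]
    exact card_le_card inter_subset_right
  have h6 : snk s x y ⊆ T := by
    have h7 : T ∩ snk s x y = snk s x y := by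
      apply eq_of_subset_of_card_le inter_subset_right
      rw [card_snk h]
      omega
    rw [← h7]
    exact inter_subset_left
  have h8 : (T \ snk s x y).image σ.M = NB s T ∩ σ.U := by
    apply eq_of_subset_of_card_le h1
    omega
  have h9 : ∀ r, ReflTransGen σ.step f r → r ∉ NB s T := by
    intro r hr
    induction hr with
    | refl => exact hn
    | @tail r r1 _ hst ih =>
      intro hcontra
      obtain ⟨hO, hst2⟩ := hst
      have h10 : σ.N r1 ∉ T := fun h11 => ih (mem_NB.2 ⟨σ.N r1, h11, hst2⟩)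
      obtain ⟨c, hc, hc2⟩ := mem_NB.1 hcontra
      have h12 : r1 ∈ σ.U := σ.mem_U_of_adj hO (hT hc) hc2
      have h13 : r1 ∈ (T \ snk s x y).image σ.M := by
        rw [h8]
        exact mem_inter.2 ⟨hcontra, h12⟩
      obtain ⟨c', hc', hc3⟩ := mem_image.1 h13
      rw [mem_sdiff] at hc'
      have h14 := (σ.partner_mem hT hc'.1 hc'.2).2
      rw [hc3] at h14
      rw [h14] at h10
      exact h10 hc'.1
  obtain ⟨c, hc, r', hr', hrc⟩ := hf
  exact h9 r' hr' (mem_NB.2 ⟨c, h6 hc, hrc⟩)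

private lemma T2D_ins {X U : Finset A} {f g : A} (hfg : f ≠ g) (hf : f ∉ U) (hg : g ∉ U) :
    (X ∩ insert f (insert g U)).card = (X ∩ U).card + (if f ∈ X then 1 else 0) + (if g ∈ X then 1 else 0) := by
  have hf' : f ∉ insert g U := by
    rw [mem_insert]
    push Not
    exact ⟨hfg, hf⟩
  have h1 : ∀ (W : Finset A) (e : A), e ∉ W → (X ∩ insert e W).card = (X ∩ W).card + (if e ∈ X then 1 else 0) := by
    intro W e he
    by_cases heX : e ∈ X
    · rw [inter_insert_of_mem heX, card_insert_of_notMem (fun h => he (mem_inter.1 h).2), if_pos heX]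
    · rw [inter_insert_of_notMem heX, if_neg heX, add_zero]
  rw [h1 _ _ hf', h1 _ _ hg]
  omega

/-- Hall's theorem (`hall_on'`; `|U + f + g| = |V|`) -/
theorem St.lk_iff (h : T2Ctx s x y) (σ : St s x y) {f g : A} (hfg : f ≠ g) (hf : f ∉ σ.U) (hg : g ∉ σ.U) :
    σ.Lk f g ↔ ∀ T ⊆ σ.V, T.card ≤ (NB s T ∩ insert f (insert g σ.U)).card := by
  have : Nonempty B := ⟨y⟩
  have hcard : (insert f (insert g σ.U)).card = σ.V.card := by
    rw [card_insert_of_notMem, card_insert_of_notMem hg, σ.card_V h]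
    rw [mem_insert]
    push Not
    exact ⟨hfg, hf⟩
  constructor
  · rintro ⟨κ, hi, hm⟩ T hT
    have h1 : (insert f (insert g σ.U)).image κ = σ.V := by
      apply eq_of_subset_of_card_le
      · intro c hc
        obtain ⟨r, hr, rfl⟩ := mem_image.1 hc
        exact (hm r hr).1
      · rw [card_image_of_injOn hi, hcard]
    have h2 : T ⊆ (NB s T ∩ insert f (insert g σ.U)).image κ := by
      intro c hc
      have h3 : c ∈ (insert f (insert g σ.U)).image κ := by
        rw [h1]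
        exact hT hc
      obtain ⟨r, hr, hrc⟩ := mem_image.1 h3
      have h4 := (hm r hr).2
      rw [hrc] at h4
      exact mem_image.2 ⟨r, mem_inter.2 ⟨mem_NB.2 ⟨c, hc, h4⟩, hr⟩, hrc⟩
    exact (card_le_card h2).trans card_image_le
  · intro hH
    obtain ⟨κ, hi, hm⟩ := hall_on' (s := s) (insert f (insert g σ.U)) σ.V hcard hH
    exact ⟨κ, hi, hm⟩

/-- an exit row and `x` are linkable. `lk_iff`: let `T ⊆ V`. If `T` contains no sink, `d1`. If it contains a sink then `x ∈ NB s T`; one sink: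
`d1`; two sinks: if `f ∈ NB s T` then `f` and `x` count, otherwise `d2`. -/
theorem St.lkx (h : T2Ctx s x y) (σ : St s x y) {f : A} (hf : σ.Ex f) (hU : f ∉ σ.U) (hx : f ≠ x) : σ.Lk f x := by
  rw [σ.lk_iff h hx hU (σ.x_not_U h)]
  intro T hT
  rw [T2D_ins hx hU (σ.x_not_U h)]
  have h1 := σ.d1 h hT
  have h5 : (T ∩ snk s x y).card ≤ 2 := by
    rw [← card_snk h]
    exact card_le_card inter_subset_right
  rcases (T ∩ snk s x y).eq_empty_or_nonempty with h2 | ⟨c, hc⟩
  · rw [h2, card_empty] at h1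
    omega
  · have h3 : x ∈ NB s T := by
      rw [mem_inter] at hc
      exact mem_NB.2 ⟨c, hc.1, (mem_snk.1 hc.2).2⟩
    rw [if_pos h3]
    by_cases h4 : f ∈ NB s T
    · rw [if_pos h4]
      omega
    · rw [if_neg h4]
      have := σ.d2 h hT hf h4
      omega

/-- Proof. `lk_iff`: a set `T` with `|NB s T ∩ (U + f + g)| < |T|`. If `f ∈ NB s T`, `g ∉ NB s T`: `|NB s T ∩ U| ≤ |T| - 2` against `d2` for `g`. Same for
`g`. If both are in `NB s T`: `|NB s T ∩ U| ≤ |T| - 3` against `d1`. -/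
theorem St.d3 (h : T2Ctx s x y) (σ : St s x y) {f g : A} (hfg : f ≠ g) (hf : σ.Ex f) (hg : σ.Ex g) (hfU : f ∉ σ.U)
    (hgU : g ∉ σ.U) (hL : ¬ σ.Lk f g) :
    ∃ T ⊆ σ.V, (NB s T ∩ σ.U).card < T.card ∧ f ∉ NB s T ∧ g ∉ NB s T := by
  rw [σ.lk_iff h hfg hfU hgU] at hL
  push Not at hL
  obtain ⟨T, hT, hc⟩ := hL
  rw [T2D_ins hfg hfU hgU] at hc
  have h1 := σ.d1 h hT
  have h5 : (T ∩ snk s x y).card ≤ 2 := by
    rw [← card_snk h]
    exact card_le_card inter_subset_right
  refine ⟨T, hT, ?_, ?_, ?_⟩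
  · omega
  · intro h2
    rw [if_pos h2] at hc
    by_cases h3 : g ∈ NB s T
    · rw [if_pos h3] at hc
      omega
    · have := σ.d2 h hT hg h3
      omega
  · intro h2
    rw [if_pos h2] at hc
    by_cases h3 : f ∈ NB s T
    · rw [if_pos h3] at hc
      omega
    · have := σ.d2 h hT hf h3
      omega

/-- `lk_iff` -/
theorem St.d4 (h : T2Ctx s x y) (σ : St s x y) {f g : A} (hfg : f ≠ g) (hfU : f ∉ σ.U) (hgU : g ∉ σ.U) {T : Finset B}
    (hT : T ⊆ σ.V) (hc : (NB s T ∩ σ.U).card < T.card) (hf : f ∉ NB s T) (hg : g ∉ NB s T) : ¬ σ.Lk f g := by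
  rw [σ.lk_iff h hfg hfU hgU]
  intro hL
  have h1 := hL T hT
  rw [T2D_ins hfg hfU hgU, if_neg hf, if_neg hg] at h1
  omega

end MCC
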