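import Pool.Agent.Lib_MP_cb5629.T2F1
import Pool.Agent.Lib_MP_cb5629.T2D

set_option linter.unusedSectionVars false

namespace MCC

open Finset Relation

variable {A B : Type} [Fintype A] [Fintype B] [DecidableEq A] [DecidableEq B]
variable {s : A → B → ℤ} {x : A} {y : B}

/-- The rows adjacent to `V`: `x`, rows of `U`, exits. (`s r y ≠ 0`: `x` or a source, excluded by `f1_s`; `σ.O r`: `mem_U_of_adj`; `r = a i`: `Ex_iff`.) -/
theorem St.NB_V (h : T2Ctx s x y) (σ : St s x y) {T : Finset B} (hT : T ⊆ σ.V) {r : A} (hr : r ∈ NB s T) :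
    r = x ∨ r ∈ σ.U ∨ r ∈ σ.XR := by
  rw [mem_NB] at hr
  obtain ⟨c, hc, hrc⟩ := hr
  have hcV := hT hc
  have hE : σ.Ex r := σ.Ex_iff.2 ⟨c, hcV, hrc⟩
  by_cases hx : r = x
  · exact Or.inl hx
  right
  by_cases hy : s r y = 0
  · by_cases hi : ∃ i, σ.a i = r
    · exact Or.inr (σ.mem_XR.2 ⟨hi, hE⟩)
    · left
      rw [σ.mem_U]
      exact ⟨⟨hy, fun i h1 => hi ⟨i, h1⟩⟩, hE⟩
  · exfalso
    exact σ.f1 h (mem_snk.2 ⟨hx, by rw [tr_apply]; exact hy⟩) hE

/-- `V` misses `y`, `b 0`, `b 1` -/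
lemma St.card_V_le (h : T2Ctx s x y) (σ : St s x y) : σ.V.card + 3 ≤ Fintype.card B := by
  have hb01 : σ.b 0 ≠ σ.b 1 := by
    intro hE
    have h2 := σ.two_le_k
    have := σ.ib 0 1 (by norm_num) (by omega) hE
    omega
  have hyb : ∀ i, y ≠ σ.b i := by
    intro i hE
    exact h.xy (by rw [hE]; exact σ.bx i)
  have hdis : Disjoint σ.V {y, σ.b 0, σ.b 1} := by
    rw [disjoint_left]
    intro c hc hc2
    rw [mem_insert, mem_insert, mem_singleton] at hc2
    rcases hc2 with rfl | rfl | rfl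
    · exact σ.y_not_V h hc
    · exact σ.b_not_V 0 hc
    · exact σ.b_not_V 1 hc
  have h3 : ({y, σ.b 0, σ.b 1} : Finset B).card = 3 := by
    rw [card_insert_of_notMem, card_insert_of_notMem, card_singleton]
    · rw [mem_singleton]; exact hb01
    · rw [mem_insert, mem_singleton]
      rintro (h1 | h1)
      · exact hyb 0 h1
      · exact hyb 1 h1
  have h4 := card_union_of_disjoint hdis
  have h5 := card_le_univ (σ.V ∪ {y, σ.b 0, σ.b 1})
  omega

/-- The dual brace property for `T ⊆ V`. -/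
lemma St.brace_V (h : T2Ctx s x y) (σ : St s x y) {T : Finset B} (hT : T ⊆ σ.V) (hne : T.Nonempty) :
    T.card + 2 ≤ (NB s T).card := by
  have h1 := σ.card_V_le h
  have h2 := card_le_card hT
  have h3 := (Brace.tr h.hc h.hb).hall T hne (by omega)
  rwa [NA_tr] at h3

/-- Piece T2CNT. `NB s V ⊆ insert x (U ∪ XR)`, `|V| = |U| + 2`. -/
theorem St.card_XR (h : T2Ctx s x y) (σ : St s x y) : 3 ≤ σ.XR.card := by
  have hne : σ.V.Nonempty := by
    rw [← card_pos, σ.card_V h]
    omega
  have h1 := σ.brace_V h (Subset.refl σ.V) hne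
  have h2 : NB s σ.V ⊆ insert x (σ.U ∪ σ.XR) := by
    intro r hr
    rw [mem_insert, mem_union]
    exact σ.NB_V h (Subset.refl σ.V) hr
  have h3 := card_le_card h2
  have h4 := card_insert_le x (σ.U ∪ σ.XR)
  have h5 := card_union_le σ.U σ.XR
  have h6 := σ.card_V h
  omega

/-- With (T) there are at least four entries. Proof. `S = σ.T.V` (contains the sources, not `x`; `NA s S` contains no sink by `f1_s`). By `TV_adj`
`NA s S ⊆ insert y (σ.T.U ∪ σ.T.XR)`, `|S| = |σ.T.U| + 2`. `|S| + 4 ≤ n`: `x` and the at least three exit rows (`card_XR`) are not in `S`. The brace property gives `|NA s S| ≥ |S| + 2`,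
`CondT` excludes equality. -/
theorem St.card_TXR (h : T2Ctx s x y) (hT : CondT s x y) (σ : St s x y) : 4 ≤ σ.T.XR.card := by
  have hV := σ.T.card_V h.tr
  have hxV : x ∉ σ.T.V := σ.T.y_not_V h.tr
  have hxX : x ∉ σ.XR := by
    intro hx
    obtain ⟨⟨i, hi⟩, -⟩ := σ.mem_XR.1 hx
    exact σ.a_ne_x h i hi
  have hdis : Disjoint σ.T.V (insert x σ.XR) := by
    rw [disjoint_left]
    intro r hr hr2
    rw [mem_insert] at hr2
    rcases hr2 with rfl | hr2
    · exact hxV hr
    · exact σ.f1_V h hr (σ.mem_XR.1 hr2).2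
  have h1 := card_union_of_disjoint hdis
  have h2 := card_le_univ (σ.T.V ∪ insert x σ.XR)
  have h3 := card_insert_of_notMem hxX
  have h4 := σ.card_XR h
  have hsub : NA s σ.T.V ⊆ insert y (σ.T.U ∪ σ.T.XR) := by
    intro c hc
    rw [mem_NA] at hc
    obtain ⟨r, hr, hrc⟩ := hc
    rw [mem_insert, mem_union]
    rcases σ.TV_adj hr hrc with h5 | h5 | h5 | h5
    · exact Or.inl h5
    · exact Or.inr (Or.inl h5)
    · exact Or.inr (Or.inr h5)
    · exact absurd (σ.f1_s h hr (σ.mem_V.2 (Or.inr h5))) hrc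
  have h6 := card_le_card hsub
  have h7 := card_insert_le y (σ.T.U ∪ σ.T.XR)
  have h8 := card_union_le σ.T.U σ.T.XR
  have h9 := h.hb.hall σ.T.V (by rw [← card_pos]; omega) (by omega)
  have h10 := hT σ.T.V (by omega) (by omega) hxV (fun a ha hne => by
      rw [mem_nbB] at ha
      exact σ.T.mem_V.2 (Or.inr (mem_snk.2 ⟨hne, by rw [tr_apply]; exact ha⟩)))
    (fun b hb hne hN => by
      rw [mem_nbA] at hb
      rw [mem_NA] at hN
      obtain ⟨r, hr, hrb⟩ := hN
      exact hrb (σ.f1_s h hr (σ.mem_V.2 (Or.inr (mem_snk.2 ⟨hne, hb⟩)))))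
  omega

/-- Piece T2LV. Two linkable exits different from `f1`. Proof. Let `E = XR.erase f1` (`|E| ≥ 2`), `d = |E| - 2`. Hall's theorem
(`Finset.all_card_le_biUnion_card_iff_exists_injective`) for the index type `{c // c ∈ V} ⊕ Fin d`, the column `c` having the neighbours `nbB s c ∩ (U ∪ E)`, the dummies
having the neighbours `E`: a set without dummies, `T ⊆ V`: `|NB s T ∩ (U ∪ E)| ≥ |NB s T| - 2 ≥ |T|` (`NB_V`, `brace_V`); with dummies: `|NB s T ∩ U| + |E| ≥ |T| - 2 + |E| = |T| + d`
(`d1`). Since `|V| + d = |U| + |E|`, the injection is onto `U ∪ E`; so the columns of `V` cover `U` and exactly two rows `f, g` of `E`. Invert (`match_tr`). -/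
theorem St.lv (h : T2Ctx s x y) (σ : St s x y) (f1 : A) :
    ∃ f g, f ∈ σ.XR ∧ g ∈ σ.XR ∧ f ≠ f1 ∧ g ≠ f1 ∧ f ≠ g ∧ σ.Lk f g := by
  classical
  have hXR := σ.card_XR h
  have hV := σ.card_V h
  have hE2 : σ.XR.card ≤ (σ.XR.erase f1).card + 1 := by
    have := pred_card_le_card_erase (s := σ.XR) (a := f1)
    omega
  have hUE : Disjoint σ.U (σ.XR.erase f1) := by
    rw [disjoint_left]
    intro r hr hr2
    obtain ⟨⟨i, hi⟩, -⟩ := σ.mem_XR.1 (mem_of_mem_erase hr2)
    rw [← hi] at hr
    exact σ.a_not_U i hr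
  have hUEc := card_union_of_disjoint hUE
  let d : ℕ := (σ.XR.erase f1).card - 2
  have hd : d + 2 = (σ.XR.erase f1).card := by
    simp only [d]
    omega
  let t : {c // c ∈ σ.V} ⊕ Fin d → Finset A :=
    Sum.elim (fun c => nbB s c.1 ∩ (σ.U ∪ σ.XR.erase f1)) (fun _ => σ.XR.erase f1)
  have hHall : ∀ S : Finset ({c // c ∈ σ.V} ⊕ Fin d), S.card ≤ (S.biUnion t).card := by
    intro S
    let T : Finset B := (S.toLeft).map (Function.Embedding.subtype _)
    have hTc : T.card = S.toLeft.card := card_map _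
    have hSc : S.toLeft.card + S.toRight.card = S.card := card_toLeft_add_card_toRight
    have hTV : T ⊆ σ.V := by
      intro c hc
      simp only [T, mem_map] at hc
      obtain ⟨c', -, rfl⟩ := hc
      exact c'.2
    have hTm : ∀ c (hc : c ∈ T), ∃ hV : c ∈ σ.V, Sum.inl ⟨c, hV⟩ ∈ S := by
      intro c hc
      simp only [T, mem_map] at hc
      obtain ⟨c', hc', rfl⟩ := hc
      exact ⟨c'.2, mem_toLeft.1 hc'⟩
    have hsub1 : NB s T ∩ (σ.U ∪ σ.XR.erase f1) ⊆ S.biUnion t := by
      intro r hr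
      rw [mem_inter, mem_NB] at hr
      obtain ⟨⟨c, hc, hrc⟩, hr2⟩ := hr
      obtain ⟨hcV, hcS⟩ := hTm c hc
      rw [mem_biUnion]
      exact ⟨_, hcS, mem_inter.2 ⟨mem_nbB.2 hrc, hr2⟩⟩
    rcases S.toRight.eq_empty_or_nonempty with hR | hR
    · rw [hR, card_empty] at hSc
      rcases T.eq_empty_or_nonempty with hT | hT
      · rw [hT, card_empty] at hTc
        omega
      · have h1 := σ.brace_V h hTV hT
        have h2 : NB s T ⊆ insert x (insert f1 (NB s T ∩ (σ.U ∪ σ.XR.erase f1))) := by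
          intro r hr
          rw [mem_insert, mem_insert, mem_inter, mem_union, mem_erase]
          rcases σ.NB_V h hTV hr with h3 | h3 | h3
          · exact Or.inl h3
          · exact Or.inr (Or.inr ⟨hr, Or.inl h3⟩)
          · by_cases h4 : r = f1
            · exact Or.inr (Or.inl h4)
            · exact Or.inr (Or.inr ⟨hr, Or.inr ⟨h4, h3⟩⟩)
        have h3 := card_le_card h2
        have h4 := card_insert_le x (insert f1 (NB s T ∩ (σ.U ∪ σ.XR.erase f1)))
        have h5 := card_insert_le f1 (NB s T ∩ (σ.U ∪ σ.XR.erase f1))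
        have h6 := card_le_card hsub1
        omega
    · obtain ⟨j, hj⟩ := hR
      have hsub2 : (NB s T ∩ σ.U) ∪ σ.XR.erase f1 ⊆ S.biUnion t := by
        intro r hr
        rw [mem_union] at hr
        rcases hr with hr | hr
        · apply hsub1
          rw [mem_inter] at hr ⊢
          exact ⟨hr.1, mem_union_left _ hr.2⟩
        · rw [mem_biUnion]
          exact ⟨Sum.inr j, mem_toRight.1 hj, hr⟩
      have hdis : Disjoint (NB s T ∩ σ.U) (σ.XR.erase f1) := by
        rw [disjoint_left]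
        intro r hr hr2
        exact disjoint_left.1 hUE (mem_inter.1 hr).2 hr2
      have h1 := card_le_card hsub2
      have h2 := card_union_of_disjoint hdis
      have h3 := σ.d1 h hTV
      have h4 : (T ∩ snk s x y).card ≤ 2 := by
        rw [← card_snk h]
        exact card_le_card inter_subset_right
      have h5 : S.toRight.card ≤ d := by
        have := card_le_univ S.toRight
        rwa [Fintype.card_fin] at this
      omega
  obtain ⟨e, he, hem⟩ := (Finset.all_card_le_biUnion_card_iff_exists_injective t).1 hHall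
  have hmem : ∀ i, e i ∈ σ.U ∪ σ.XR.erase f1 := by
    intro i
    have h1 := hem i
    rcases i with c | j
    · exact (mem_inter.1 h1).2
    · exact mem_union_right _ h1
  have hcard : Fintype.card ({c // c ∈ σ.V} ⊕ Fin d) = (σ.U ∪ σ.XR.erase f1).card := by
    rw [Fintype.card_sum, Fintype.card_fin, Fintype.card_coe]
    omega
  have himg : (univ : Finset ({c // c ∈ σ.V} ⊕ Fin d)).image e = σ.U ∪ σ.XR.erase f1 := by
    apply Finset.eq_of_subset_of_card_le
    · intro r hr
      rw [mem_image] at hr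
      obtain ⟨i, -, rfl⟩ := hr
      exact hmem i
    · rw [card_image_of_injective _ he, card_univ, hcard]
  let I : Finset A := (univ : Finset {c // c ∈ σ.V}).image fun c => e (Sum.inl c)
  have hIc : I.card = σ.V.card := by
    simp only [I]
    rw [card_image_of_injective, card_univ, Fintype.card_coe]
    intro c c' hE
    exact Sum.inl_injective (he hE)
  have hUI : σ.U ⊆ I := by
    intro r hr
    have h1 : r ∈ (univ : Finset ({c // c ∈ σ.V} ⊕ Fin d)).image e := by
      rw [himg]
      exact mem_union_left _ hr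
    rw [mem_image] at h1
    obtain ⟨i, -, hi⟩ := h1
    rcases i with c | j
    · exact mem_image.2 ⟨c, mem_univ _, hi⟩
    · exfalso
      have h2 := hem (Sum.inr j)
      rw [hi] at h2
      exact disjoint_left.1 hUE hr h2
  have hIU : (I \ σ.U).card = 2 := by
    rw [card_sdiff_of_subset hUI]
    omega
  obtain ⟨f, g, hfg, hfgI⟩ := card_eq_two.1 hIU
  have hfI : f ∈ I \ σ.U := by rw [hfgI]; exact mem_insert_self _ _
  have hgI : g ∈ I \ σ.U := by rw [hfgI]; exact mem_insert_of_mem (mem_singleton_self _)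
  have hIE : ∀ r ∈ I \ σ.U, r ∈ σ.XR ∧ r ≠ f1 := by
    intro r hr
    rw [mem_sdiff] at hr
    obtain ⟨c, -, hc⟩ := mem_image.1 hr.1
    have h1 := hmem (Sum.inl c)
    rw [hc, mem_union] at h1
    rcases h1 with h1 | h1
    · exact absurd h1 hr.2
    · exact ⟨mem_of_mem_erase h1, ne_of_mem_erase h1⟩
  have hIall : ∀ r ∈ (insert f (insert g σ.U) : Finset A), ∃ c : {c // c ∈ σ.V}, e (Sum.inl c) = r := by
    intro r hr
    rw [mem_insert, mem_insert] at hr
    have h1 : r ∈ I := by
      rcases hr with rfl | rfl | hr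
      · exact (mem_sdiff.1 hfI).1
      · exact (mem_sdiff.1 hgI).1
      · exact hUI hr
    obtain ⟨c, -, hc⟩ := mem_image.1 h1
    exact ⟨c, hc⟩
  refine ⟨f, g, (hIE f hfI).1, (hIE g hgI).1, (hIE f hfI).2, (hIE g hgI).2, hfg,
    fun r => if hr : r ∈ (insert f (insert g σ.U) : Finset A) then ((hIall r hr).choose : {c // c ∈ σ.V}).1
      else y, ?_, ?_⟩
  · intro r hr r' hr' hE
    rw [mem_coe] at hr hr'
    simp only [dif_pos hr, dif_pos hr'] at hE
    have h1 := (hIall r hr).choose_spec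
    have h2 := (hIall r' hr').choose_spec
    rw [← h1, ← h2, Subtype.ext hE]
  · intro r hr
    simp only [dif_pos hr]
    have h1 := (hIall r hr).choose_spec
    refine ⟨((hIall r hr).choose).2, ?_⟩
    have h2 := hem (Sum.inl (hIall r hr).choose)
    rw [h1] at h2
    exact mem_nbB.1 (mem_inter.1 h2).1

end MCC
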