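import Pool.Agent.Lib_MP_cb5629.T2S1

set_option linter.unusedSectionVars false

namespace MCC

open Finset Relation

variable {A B : Type} [Fintype A] [Fintype B] [DecidableEq A] [DecidableEq B]
variable {s : A → B → ℤ} {x : A} {y : B}

/-- Piece T2CV. Exits at different positions are linkable. Proof. Suppose not. `lk_iff`: a set `T ⊆ V` with `|NB s T ∩ (U + a j + a m)| < |T|`. `la_exists`: `z ≠ 0` on `T`
killing these rows, hence all rows of `U`, `a j`, `a m` (the others see nothing of `T`). Let `τ = vl s x z` and `t = - τ γ(a j)`. The vector `z - t ψ - τ ω` lives on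
`V`, kills `U`, `x` and `a j` (`vl s (a j) (t ψ + τ ω) = vl s (a j) ψ * (t + τ γ(a j)) = 0`), so `z = t ψ + τ ω` by `ind`. The row `a m`:
`0 = vl s (a m) ψ * τ * (γ(a m) - γ(a j))`, so `τ = 0`, `t = 0`, `z = 0`. (If `a j = a m` the hypothesis is false.) -/
theorem St.cv (h : T2Ctx s x y) (σ : St s x y) {ψ ω : B → ℝ} (hψ : σ.SV ψ ω) {i j m : ℤ} (hen : σ.T.Ex (σ.b i))
    (hj : σ.Ex (σ.a j)) (hm : σ.Ex (σ.a m)) (hne : gam s ψ ω (σ.a j) ≠ gam s ψ ω (σ.a m)) :
    σ.Lk (σ.a j) (σ.a m) := by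
  classical
  by_contra hL
  have hfg : σ.a j ≠ σ.a m := fun e => hne (by rw [e])
  have hL' := fun hh => hL ((σ.lk_iff h hfg (σ.a_not_U j) (σ.a_not_U m)).2 hh)
  have hL'' : ¬ ∀ T ⊆ σ.V, T.card ≤ (NB s T ∩ insert (σ.a j) (insert (σ.a m) σ.U)).card := hL'
  push Not at hL''
  obtain ⟨T, hT, hcard⟩ := hL''
  obtain ⟨z, hz0, hzT, hzr⟩ := la_exists s _ T hcard
  have hzV : ∀ c, c ∉ σ.V → z c = 0 := fun c hc => hzT c fun h1 => hc (hT h1)
  have hrow : ∀ r ∈ insert (σ.a j) (insert (σ.a m) σ.U), vl s r z = 0 := by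
    intro r hr
    by_cases h1 : r ∈ NB s T
    · exact hzr r (mem_inter.2 ⟨h1, hr⟩)
    · unfold vl
      refine Finset.sum_eq_zero fun c _ => ?_
      by_cases h2 : c ∈ T
      · have h3 : s r c = 0 := by
          by_contra h3
          exact h1 (mem_NB.2 ⟨c, h2, h3⟩)
        rw [h3]; simp
      · rw [hzT c h2, mul_zero]
  have hpsi : ∀ n, σ.Ex (σ.a n) → vl s (σ.a n) ψ ≠ 0 := by
    intro n hn e
    have h1 := hψ.pos n hn
    rw [e, mul_zero] at h1
    exact lt_irrefl _ h1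
  have hgam : ∀ n, σ.Ex (σ.a n) → vl s (σ.a n) ω = gam s ψ ω (σ.a n) * vl s (σ.a n) ψ := by
    intro n hn
    unfold gam
    rw [div_mul_cancel₀ _ (hpsi n hn)]
  set τ : ℝ := vl s x z with hτ
  set gj : ℝ := gam s ψ ω (σ.a j) with hgj
  set gm : ℝ := gam s ψ ω (σ.a m) with hgm
  set w : B → ℝ := fun c => 1 * z c + (-1) * ((-τ * gj) * ψ c + τ * ω c) with hw
  have hvw : ∀ r, vl s r w = vl s r z - ((-τ * gj) * vl s r ψ + τ * vl s r ω) := by
    intro r
    have h1 := vl_lin s r 1 (-1) z (fun c => (-τ * gj) * ψ c + τ * ω c)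
    have h2 := vl_lin s r (-τ * gj) τ ψ ω
    rw [h2] at h1
    rw [hw, h1]
    ring
  have hw0 : w = 0 := by
    refine σ.ind h hen hj (z := w) ?_ ?_ ?_ ?_
    · intro c hc
      simp only [hw, hzV c hc, hψ.z1 c hc, hψ.z2 c hc]
      ring
    · intro r hr
      rw [hvw, hrow r (mem_insert_of_mem (mem_insert_of_mem hr)), hψ.u1 r hr, hψ.u2 r hr]
      ring
    · rw [hvw, hψ.x1, hψ.x2, ← hτ]
      ring
    · rw [hvw, hrow _ (mem_insert_self _ _), hgam j hj, ← hgj]
      ring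
  have hm0 := hvw (σ.a m)
  have hvl0 : vl s (σ.a m) w = 0 := by
    rw [hw0]
    unfold vl
    simp
  rw [hvl0, hrow _ (mem_insert_of_mem (mem_insert_self _ _)), hgam m hm, ← hgm] at hm0
  have h1 : vl s (σ.a m) ψ * (τ * (gm - gj)) = 0 := by
    have e : vl s (σ.a m) ψ * (τ * (gm - gj)) = (-τ * gj) * vl s (σ.a m) ψ + τ * (gm * vl s (σ.a m) ψ) := by ring
    rw [e]
    linarith
  have h2 : τ = 0 := by
    rcases mul_eq_zero.1 h1 with h3 | h3
    · exact absurd h3 (hpsi m hm)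
    · rcases mul_eq_zero.1 h3 with h4 | h4
      · exact h4
      · exact absurd (sub_eq_zero.1 h4).symm hne
  apply hz0
  funext c
  have h3 := congrFun hw0 c
  simp only [hw, h2, Pi.zero_apply] at h3
  rw [Pi.zero_apply]
  linarith

end MCC
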