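import Pool.Agent.Lib_MP_cb5629.T2D

set_option linter.unusedSectionVars false

namespace MCC

open Finset Relation

variable {A B : Type} [Fintype A] [Fintype B] [DecidableEq A] [DecidableEq B]
variable {s : A → B → ℤ} {x : A} {y : B}

lemma T2D5_mem {T : Finset B} {r : A} : r ∈ NB s T ↔ ∃ b ∈ T, s r b ≠ 0 := by
  simp [NB]

lemma T2D5_mono {S T : Finset B} (h : S ⊆ T) : NB s S ⊆ NB s T := by
  intro r hr
  obtain ⟨b, hb, hrb⟩ := T2D5_mem.1 hr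
  exact T2D5_mem.2 ⟨b, h hb, hrb⟩

/-- Piece T2D5. Deficient sets avoiding an exit are closed under intersection. Proof. `NB s (S ∪ T) = NB s S ∪ NB s T`,
`NB s (S ∩ T) ⊆ NB s S ∩ NB s T`, so `|NB(S∩T)∩U| + |NB(S∪T)∩U| ≤ |NB S∩U| + |NB T∩U| ≤ |S| + |T| - 2`, and
`|NB(S∪T)∩U| ≥ |S∪T| - 1` by `d2` for `g`. -/
lemma St.def_inter (h : T2Ctx s x y) (σ : St s x y) {g : A} (hg : σ.Ex g) {S T : Finset B} (hS : S ⊆ σ.V)
    (hT : T ⊆ σ.V) (cS : (NB s S ∩ σ.U).card < S.card) (cT : (NB s T ∩ σ.U).card < T.card) (gS : g ∉ NB s S)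
    (gT : g ∉ NB s T) : (NB s (S ∩ T) ∩ σ.U).card < (S ∩ T).card := by
  have h1 := σ.d2 h (union_subset hS hT) hg (by
    intro hc
    rw [T2D5_mem] at hc
    obtain ⟨b, hb, hgb⟩ := hc
    rcases mem_union.1 hb with hb | hb
    · exact gS (T2D5_mem.2 ⟨b, hb, hgb⟩)
    · exact gT (T2D5_mem.2 ⟨b, hb, hgb⟩))
  have h2 : NB s (S ∪ T) ∩ σ.U = (NB s S ∩ σ.U) ∪ (NB s T ∩ σ.U) := by
    ext r
    simp only [mem_inter, mem_union, T2D5_mem]
    constructor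
    · rintro ⟨⟨b, hb | hb, hr⟩, hU⟩
      · exact Or.inl ⟨⟨b, hb, hr⟩, hU⟩
      · exact Or.inr ⟨⟨b, hb, hr⟩, hU⟩
    · rintro (⟨⟨b, hb, hr⟩, hU⟩ | ⟨⟨b, hb, hr⟩, hU⟩)
      · exact ⟨⟨b, Or.inl hb, hr⟩, hU⟩
      · exact ⟨⟨b, Or.inr hb, hr⟩, hU⟩
  have h3 : NB s (S ∩ T) ∩ σ.U ⊆ (NB s S ∩ σ.U) ∩ (NB s T ∩ σ.U) := by
    intro r hr
    rw [mem_inter] at hr
    rw [mem_inter, mem_inter, mem_inter]
    exact ⟨⟨T2D5_mono inter_subset_left hr.1, hr.2⟩, ⟨T2D5_mono inter_subset_right hr.1, hr.2⟩⟩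
  have h4 := card_le_card h3
  have h5 := card_union_add_card_inter (NB s S ∩ σ.U) (NB s T ∩ σ.U)
  have h6 := card_union_add_card_inter S T
  rw [← h2] at h5
  omega

/-- the smallest deficient set avoiding `g` -/
lemma T2D5_min (h : T2Ctx s x y) (σ : St s x y) {g : A}
    (hex : ∃ T ⊆ σ.V, (NB s T ∩ σ.U).card < T.card ∧ g ∉ NB s T) (hg : σ.Ex g) :
    ∃ T, T ⊆ σ.V ∧ (NB s T ∩ σ.U).card < T.card ∧ g ∉ NB s T ∧
      ∀ S ⊆ σ.V, (NB s S ∩ σ.U).card < S.card → g ∉ NB s S → T ⊆ S := by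
  classical
  let F : Finset (Finset B) := σ.V.powerset.filter fun T => (NB s T ∩ σ.U).card < T.card ∧ g ∉ NB s T
  have hF : ∀ T, T ∈ F ↔ T ⊆ σ.V ∧ (NB s T ∩ σ.U).card < T.card ∧ g ∉ NB s T := by
    intro T
    simp only [F, mem_filter, mem_powerset]
  have hne : F.Nonempty := by
    obtain ⟨T, hT, h1, h2⟩ := hex
    exact ⟨T, (hF T).2 ⟨hT, h1, h2⟩⟩
  obtain ⟨T0, hT0, hmin⟩ := F.exists_min_image (fun T => T.card) hne
  obtain ⟨a1, a2, a3⟩ := (hF T0).1 hT0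
  refine ⟨T0, a1, a2, a3, fun S hS cS gS => ?_⟩
  have h1 : T0 ∩ S ∈ F := by
    rw [hF]
    exact ⟨inter_subset_left.trans a1, σ.def_inter h hg a1 hS a2 cS a3 gS,
      fun hc => a3 (T2D5_mono inter_subset_left hc)⟩
  have h2 := eq_of_subset_of_card_le (inter_subset_left : T0 ∩ S ⊆ T0) (hmin _ h1)
  exact h2 ▸ inter_subset_right

lemma T2D5_dec (σ : St s x y) {f g : A} (hfg : f ≠ g) (hf : σ.Ex f) (hg : σ.Ex g)
    (hfU : f ∉ σ.U) (hgU : g ∉ σ.U) (hL : ¬ σ.Lk f g) (h : T2Ctx s x y) :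
    (∃ T ⊆ σ.V, (NB s T ∩ σ.U).card < T.card ∧ f ∉ NB s T) ∧
    (∃ T ⊆ σ.V, (NB s T ∩ σ.U).card < T.card ∧ g ∉ NB s T) := by
  obtain ⟨T, hT, h1, h2, h3⟩ := σ.d3 h hfg hf hg hfU hgU hL
  exact ⟨⟨T, hT, h1, h2⟩, ⟨T, hT, h1, h3⟩⟩

/-- Proof. Let `T0` be the deficient set avoiding `g` (`g ∉ NB s T0`) with the fewest elements (one exists by `d3`); by `def_inter` it is contained in all of
them. Same for `f`: `T0'`. By `d3` there is a deficient set avoiding both, so `f ∉ NB s T0`, `g ∉ NB s T0'` (`NB s` is monotone), hence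
`T0 ⊆ T0' ⊆ T0`. `card`: `≤` deficient, `≥` by `d2`. -/
theorem St.exists_Df (h : T2Ctx s x y) (σ : St s x y) {f g : A} (hfg : f ≠ g) (hf : σ.Ex f) (hg : σ.Ex g)
    (hfU : f ∉ σ.U) (hgU : g ∉ σ.U) (hL : ¬ σ.Lk f g) : ∃ T, σ.Df f g T := by
  obtain ⟨T0, hT0, c0, g0, m0⟩ := T2D5_min h σ (T2D5_dec σ hfg hf hg hfU hgU hL h).2 hg
  obtain ⟨T1, hT1, c1, f1, m1⟩ := T2D5_min h σ (T2D5_dec σ hfg hf hg hfU hgU hL h).1 hf
  obtain ⟨D, hD, cD, fD, gD⟩ := σ.d3 h hfg hf hg hfU hgU hL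
  have f0 : f ∉ NB s T0 := fun hc => fD (T2D5_mono (m0 D hD cD gD) hc)
  have g1 : g ∉ NB s T1 := fun hc => gD (T2D5_mono (m1 D hD cD fD) hc)
  have e1 : T0 ⊆ T1 := m0 T1 hT1 c1 g1
  refine ⟨T0, hT0, ?_, f0, g0, ?_⟩
  · have := σ.d2 h hT0 hg g0
    omega
  · intro S hS cS hor
    rcases hor with hor | hor
    · exact e1.trans (m1 S hS cS hor)
    · exact m0 S hS cS hor

lemma St.Df.symm {σ : St s x y} {f g : A} {T : Finset B} (h : σ.Df f g T) : σ.Df g f T := by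
  exact ⟨h.sub, h.card, h.ng, h.nf, fun S hS cS hor => h.min S hS cS hor.symm⟩

/-- An exit `e` that is not linkable with `g` is not adjacent to `T`: by `d3` there is a deficient `S` avoiding `e` and `g`, and `T ⊆ S` by `min`. -/
theorem St.Df.not_adj (h : T2Ctx s x y) {σ : St s x y} {f g e : A} {T : Finset B} (hD : σ.Df f g T) (hg : σ.Ex g)
    (hgU : g ∉ σ.U) (he : σ.Ex e) (heU : e ∉ σ.U) (hne : e ≠ g) (hL : ¬ σ.Lk e g) : e ∉ NB s T := by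
  obtain ⟨S, hS, cS, eS, gS⟩ := σ.d3 h hne he hg heU hgU hL
  exact fun hc => eS (T2D5_mono (hD.min S hS cS (Or.inr gS)) hc)

/-- Every column of `T` reaches a sink inside `T`. Proof. Let `T1` be the set of the columns `c ∈ T` that are sinks or have `σ.M c →* r'` by steps inside
`T` (`stepI`) to a row adjacent to a sink of `T`. If `r ∈ NB s T1`, `σ.O r` and `σ.N r ∈ T`, then `σ.N r ∈ T1`. So the rows of `NB s T1 ∩ U` are
partners of columns of `T1`, or they are among the rows of `NB s T ∩ U` that are no partners of columns of `T`; there are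
`(T.card - 1) - (T.card - |T ∩ snk|) = |T ∩ snk| - 1` such rows, and all sinks of `T` are in `T1`: `|NB s T1 ∩ U| ≤ |T1| - |T ∩ snk| + |T ∩ snk| - 1`.
(`T ∩ snk` is nonempty by `d1`.) By `min` `T ⊆ T1`. -/
theorem St.Df.inner (h : T2Ctx s x y) {σ : St s x y} {f g : A} {T : Finset B} (hD : σ.Df f g T) {r : A}
    (hr : r ∈ NB s T) : ∃ r', ReflTransGen (σ.stepI T) r r' ∧ ∃ c ∈ snk s x y, c ∈ T ∧ s r' c ≠ 0 := by
  classical
  let T1 : Finset B := T.filter fun c => c ∈ snk s x y ∨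
    ∃ r', ReflTransGen (σ.stepI T) (σ.M c) r' ∧ ∃ c' ∈ snk s x y, c' ∈ T ∧ s r' c' ≠ 0
  have hT1 : ∀ c, c ∈ T1 ↔ c ∈ T ∧ (c ∈ snk s x y ∨
    ∃ r', ReflTransGen (σ.stepI T) (σ.M c) r' ∧ ∃ c' ∈ snk s x y, c' ∈ T ∧ s r' c' ≠ 0) := by
    intro c
    simp only [T1, mem_filter]
  have hsub : T1 ⊆ T := fun c hc => ((hT1 c).1 hc).1
  have hreach : ∀ r, r ∈ NB s T1 →
      ∃ r', ReflTransGen (σ.stepI T) r r' ∧ ∃ c ∈ snk s x y, c ∈ T ∧ s r' c ≠ 0 := by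
    intro r hr
    obtain ⟨c1, hc1, hrc⟩ := T2D5_mem.1 hr
    obtain ⟨hcT, hc2⟩ := (hT1 c1).1 hc1
    by_cases hs : c1 ∈ snk s x y
    · exact ⟨r, ReflTransGen.refl, c1, hs, hcT, hrc⟩
    · rcases hc2 with hc2 | ⟨r', hr', c', hc', hcT', hrc'⟩
      · exact absurd hc2 hs
      · obtain ⟨hM, hN⟩ := σ.partner_mem hD.sub hcT hs
        have hMU := (σ.mem_U.1 (mem_inter.1 hM).2).1
        refine ⟨r', ReflTransGen.head ⟨⟨hMU, ?_⟩, ?_⟩ hr', c', hc', hcT', hrc'⟩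
        · rw [hN]; exact hrc
        · rw [hN]; exact hcT
  have hcl : ∀ r ∈ NB s T1 ∩ σ.U, σ.N r ∈ T → σ.N r ∈ T1 := by
    intro r hr hN
    rw [mem_inter] at hr
    rw [hT1]
    refine ⟨hN, Or.inr ?_⟩
    obtain ⟨-, -, hMN⟩ := σ.N_O (σ.mem_U.1 hr.2).1
    rw [hMN]
    exact hreach r hr.1
  have hnsnk : ∀ r ∈ σ.U, σ.N r ∉ snk s x y := by
    intro r hr hc
    have h1 := (σ.N_O (σ.mem_U.1 hr).1).1
    rw [σ.TO_iff] at h1
    exact (mem_snk.1 hc).2 h1.1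
  have hinj : ∀ r ∈ σ.U, ∀ r' ∈ σ.U, σ.N r = σ.N r' → r = r' := by
    intro r hr r' hr' he
    have h1 := (σ.N_O (σ.mem_U.1 hr).1).2.2
    have h2 := (σ.N_O (σ.mem_U.1 hr').1).2.2
    rw [← h1, ← h2, he]
  have n1 : ((NB s T1 ∩ σ.U).filter fun r => σ.N r ∈ T).card ≤ (T1 \ snk s x y).card := by
    apply Finset.card_le_card_of_injOn σ.N
    · intro r hr
      rw [mem_coe, mem_filter] at hr
      rw [mem_coe, mem_sdiff]
      exact ⟨hcl r hr.1 hr.2, hnsnk r (mem_inter.1 hr.1).2⟩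
    · intro r hr r' hr' he
      rw [mem_coe, mem_filter] at hr hr'
      exact hinj r (mem_inter.1 hr.1).2 r' (mem_inter.1 hr'.1).2 he
  have n2 : ((NB s T1 ∩ σ.U).filter fun r => σ.N r ∉ T).card ≤
      ((NB s T ∩ σ.U).filter fun r => σ.N r ∉ T).card := by
    apply card_le_card
    intro r hr
    rw [mem_filter, mem_inter] at hr ⊢
    exact ⟨⟨T2D5_mono hsub hr.1.1, hr.1.2⟩, hr.2⟩
  have n3 : (T \ snk s x y).card ≤ ((NB s T ∩ σ.U).filter fun r => σ.N r ∈ T).card := by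
    apply Finset.card_le_card_of_injOn σ.M
    · intro c hc
      rw [mem_coe, mem_sdiff] at hc
      obtain ⟨hM, hN⟩ := σ.partner_mem hD.sub hc.1 hc.2
      rw [mem_coe, mem_filter]
      exact ⟨hM, by rw [hN]; exact hc.1⟩
    · intro c hc c' hc' he
      rw [mem_coe, mem_sdiff] at hc hc'
      have h1 := (σ.partner_mem hD.sub hc.1 hc.2).2
      have h2 := (σ.partner_mem hD.sub hc'.1 hc'.2).2
      rw [← h1, ← h2, he]
  have n4 := card_filter_add_card_filter_not (s := NB s T1 ∩ σ.U) (fun r => σ.N r ∈ T)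
  have n5 := card_filter_add_card_filter_not (s := NB s T ∩ σ.U) (fun r => σ.N r ∈ T)
  have n6 := card_sdiff_add_card_inter T (snk s x y)
  have n7 := card_sdiff_add_card_inter T1 (snk s x y)
  have n8 : T1 ∩ snk s x y = T ∩ snk s x y := by
    ext c
    rw [mem_inter, mem_inter, hT1]
    constructor
    · rintro ⟨h1, h2⟩
      exact ⟨h1.1, h2⟩
    · rintro ⟨h1, h2⟩
      exact ⟨⟨h1, Or.inl h2⟩, h2⟩
  rw [n8] at n7
  have n9 := hD.card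
  have n10 := σ.d1 h hD.sub
  have hlt : (NB s T1 ∩ σ.U).card < T1.card := by omega
  have hTT := hD.min T1 (hsub.trans hD.sub) hlt (Or.inl fun hc => hD.nf (T2D5_mono hsub hc))
  exact hreach r (T2D5_mono hTT hr)

/-- The first time that a walk to a sink meets `T`. -/
theorem St.first_hit (σ : St s x y) (T : Finset B) {f : A} (hf : σ.Ex f) :
    ∃ r', ReflTransGen (σ.stepA T) f r' ∧ (r' ∈ NB s T ∨ ∃ c ∈ snk s x y, c ∉ T ∧ s r' c ≠ 0) := by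
  obtain ⟨c, hc, r0, hr0, hrc⟩ := hf
  induction hr0 using ReflTransGen.head_induction_on with
  | refl =>
    by_cases hcT : c ∈ T
    · exact ⟨r0, ReflTransGen.refl, Or.inl (T2D5_mem.2 ⟨c, hcT, hrc⟩)⟩
    · exact ⟨r0, ReflTransGen.refl, Or.inr ⟨c, hc, hcT, hrc⟩⟩
  | head h1 h2 ih =>
    rename_i r r1
    obtain ⟨r', hr', h3⟩ := ih
    by_cases hN : σ.N r1 ∈ T
    · exact ⟨r, ReflTransGen.refl, Or.inl (T2D5_mem.2 ⟨σ.N r1, hN, h1.2⟩)⟩
    · exact ⟨r', ReflTransGen.head ⟨h1, hN⟩ hr', h3⟩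

/-- Piece T2XCH. Exchange. Proof. Otherwise `d3` gives deficient `T1` avoiding `f, e` and `T2` avoiding `g, e`; `T1 ∩ T2` is deficient (`def_inter` for `e`)
and avoids `f` and `g` (`NB s` is monotone): against `d4`. -/
theorem St.exchange (h : T2Ctx s x y) (σ : St s x y) {f g e : A} (hfg : f ≠ g) (hef : e ≠ f) (heg : e ≠ g)
    (hf : σ.Ex f) (hg : σ.Ex g) (he : σ.Ex e) (hfU : f ∉ σ.U) (hgU : g ∉ σ.U) (heU : e ∉ σ.U) (hL : σ.Lk f g) :
    σ.Lk f e ∨ σ.Lk g e := by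
  by_contra hcon
  push Not at hcon
  obtain ⟨T1, hT1, c1, f1, e1⟩ := σ.d3 h (Ne.symm hef) hf he hfU heU hcon.1
  obtain ⟨T2, hT2, c2, g2, e2⟩ := σ.d3 h (Ne.symm heg) hg he hgU heU hcon.2
  have hi := σ.def_inter h he hT1 hT2 c1 c2 e1 e2
  exact σ.d4 h hfg hfU hgU (inter_subset_left.trans hT1) hi
    (fun hc => f1 (T2D5_mono inter_subset_left hc)) (fun hc => g2 (T2D5_mono inter_subset_right hc)) hL

end MCC
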