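import Pool.Agent.Lib_MP_cb5629.SPL
import Pool.Agent.Lib_MP_cb5629.Tools

/-!
# THEOREM II: states

`xy` is an edge, `snk s x y` are the two other neighbours `y1, y2` of `x` (the sinks), `snk (tr s) y x` the two other
neighbours `x1, x2` of `y` (the sources).  A state is a bad cycle `C` of `G - N(x) - N(y)`, written as two periodic sequences
`a : ℤ → A`, `b : ℤ → B` (cyclic order `b 0, a 0, b 1, a 1, ...`), with sign vectors `ξ` on the columns and `ρ` on the rows,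
together with a perfect matching `N : A → B`, `M : B → A` of `G - N(x) - N(y) - C`.  `off C` the graph is considered as a digraph on
the rows: `r → r'` if `r'` is off `C` and `r` is adjacent to the partner `N r'` of `r'`.
-/

set_option linter.unusedSectionVars false

namespace MCC

open Finset Relation

variable {A B : Type} [Fintype A] [Fintype B] [DecidableEq A] [DecidableEq B]

/-- the hypotheses on the graph -/
structure T2Ctx (s : A → B → ℤ) (x : A) (y : B) : Prop where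
  hc : Cubic s
  hb : Brace s
  hs : SNS s
  xy : s x y ≠ 0

theorem T2Ctx.tr {s : A → B → ℤ} {x : A} {y : B} (h : T2Ctx s x y) : T2Ctx (MCC.tr s) y x :=
  ⟨h.hc.tr, Brace.tr h.hc h.hb, SNS.tr h.hc h.hs, h.xy⟩

/-- the two neighbours of `x` other than `y` (sinks); `snk (tr s) y x` are the sources -/
def snk (s : A → B → ℤ) (x : A) (y : B) : Finset B := (nbA s x).erase y

/-- a state -/
structure St (s : A → B → ℤ) (x : A) (y : B) where
  k : ℤ
  a : ℤ → A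
  b : ℤ → B
  ξ : B → ℝ
  ρ : A → ℝ
  N : A → B
  M : B → A
  kpos : 0 < k
  pa : ∀ i, a (i + k) = a i
  pb : ∀ i, b (i + k) = b i
  ia : ∀ i j, i ≤ j → j < i + k → a i = a j → i = j
  ib : ∀ i j, i ≤ j → j < i + k → b i = b j → i = j
  ay : ∀ i, s (a i) y = 0
  bx : ∀ i, s x (b i) = 0
  ξ1 : ∀ c, ξ c = 1 ∨ ξ c = -1
  ρ1 : ∀ r, ρ r = 1 ∨ ρ r = -1
  e1 : ∀ i, ρ (a i) * s (a i) (b i) * ξ (b i) = 1
  e2 : ∀ i, ρ (a i) * s (a i) (b (i + 1)) * ξ (b (i + 1)) = -1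
  N1 : ∀ r, s r y = 0 → (∀ i, a i ≠ r) → s x (N r) = 0 ∧ (∀ i, b i ≠ N r) ∧ s r (N r) ≠ 0 ∧ M (N r) = r
  M1 : ∀ c, s x c = 0 → (∀ i, b i ≠ c) → s (M c) y = 0 ∧ (∀ i, a i ≠ M c) ∧ s (M c) c ≠ 0 ∧ N (M c) = c

variable {s : A → B → ℤ} {x : A} {y : B}

/-- the transposed state -/
def St.T (σ : St s x y) : St (tr s) y x where
  k := σ.k
  a i := σ.b (-i)
  b i := σ.a (-i)
  ξ := σ.ρ
  ρ := σ.ξ
  N := σ.M
  M := σ.N
  kpos := σ.kpos
  pa i := by rw [← σ.pb (-(i + σ.k))]; congr 1; ring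
  pb i := by rw [← σ.pa (-(i + σ.k))]; congr 1; ring
  ia i j h1 h2 h3 := by
    have := σ.ib (-j) (-i) (by omega) (by omega) h3.symm
    omega
  ib i j h1 h2 h3 := by
    have := σ.ia (-j) (-i) (by omega) (by omega) h3.symm
    omega
  ay i := σ.bx (-i)
  bx i := σ.ay (-i)
  ξ1 := σ.ρ1
  ρ1 := σ.ξ1
  e1 i := by
    have := σ.e1 (-i)
    rw [tr_apply]; linarith
  e2 i := by
    have := σ.e2 (-(i + 1))
    rw [show -(i + 1) + 1 = -i by ring] at this
    rw [tr_apply]; linarith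
  N1 c h1 h2 := by
    obtain ⟨g1, g2, g3, g4⟩ := σ.M1 c h1 (fun i => by have := h2 (-i); rwa [neg_neg] at this)
    exact ⟨g1, fun i => g2 (-i), g3, g4⟩
  M1 r h1 h2 := by
    obtain ⟨g1, g2, g3, g4⟩ := σ.N1 r h1 (fun i => by have := h2 (-i); rwa [neg_neg] at this)
    exact ⟨g1, fun i => g2 (-i), g3, g4⟩

/-- the mirror image: the cyclic order is reversed -/
def St.mir (σ : St s x y) : St s x y where
  k := σ.k
  a i := σ.a (-i)
  b i := σ.b (1 - i)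
  ξ := σ.ξ
  ρ r := -σ.ρ r
  N := σ.N
  M := σ.M
  kpos := σ.kpos
  pa i := by rw [← σ.pa (-(i + σ.k))]; congr 1; ring
  pb i := by rw [← σ.pb (1 - (i + σ.k))]; congr 1; ring
  ia i j h1 h2 h3 := by
    have := σ.ia (-j) (-i) (by omega) (by omega) h3.symm
    omega
  ib i j h1 h2 h3 := by
    have := σ.ib (1 - j) (1 - i) (by omega) (by omega) h3.symm
    omega
  ay i := σ.ay (-i)
  bx i := σ.bx (1 - i)
  ξ1 := σ.ξ1
  ρ1 r := by
    rcases σ.ρ1 r with h | h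
    · right; rw [h]
    · left; rw [h]; norm_num
  e1 i := by
    have := σ.e2 (-i)
    rw [show -i + 1 = 1 - i by ring] at this
    linarith
  e2 i := by
    have := σ.e1 (-i)
    rw [show 1 - (i + 1) = -i by ring]
    linarith
  N1 r h1 h2 := by
    obtain ⟨g1, g2, g3, g4⟩ := σ.N1 r h1 (fun i => by have := h2 (-i); rwa [neg_neg] at this)
    exact ⟨g1, fun i => g2 (1 - i), g3, g4⟩
  M1 c h1 h2 := by
    obtain ⟨g1, g2, g3, g4⟩ := σ.M1 c h1 (fun i => by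
      have := h2 (1 - i)
      rwa [show (1 : ℤ) - (1 - i) = i by ring] at this)
    exact ⟨g1, fun i => g2 (-i), g3, g4⟩

/-- the row `r` is off `C` (and not one of `x, x1, x2`) -/
def St.O (σ : St s x y) (r : A) : Prop := s r y = 0 ∧ ∀ i, σ.a i ≠ r

/-- the digraph on the rows -/
def St.step (σ : St s x y) (r r' : A) : Prop := σ.O r' ∧ s r (σ.N r') ≠ 0

/-- there is an alternating walk off `C` from the row `r` to the column `c` -/
def St.W (σ : St s x y) (r : A) (c : B) : Prop := ∃ r', ReflTransGen σ.step r r' ∧ s r' c ≠ 0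

/-- there is an alternating walk off `C` from the row `r` to a sink; `a i` is an EXIT if `σ.Ex (σ.a i)`, and `b i` is an ENTRY if
`σ.T.Ex (σ.b i)` -/
def St.Ex (σ : St s x y) (r : A) : Prop := ∃ c ∈ snk s x y, σ.W r c

open Classical in
/-- the rows off `C` from which a sink can be reached -/
noncomputable def St.U (σ : St s x y) : Finset A := univ.filter fun r => σ.O r ∧ σ.Ex r

/-- their partners and the two sinks; `σ.T.U` and `σ.T.V` are the columns `Z_B` and the rows `Z_A + x1 + x2` of the dual set `Z` -/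
noncomputable def St.V (σ : St s x y) : Finset B := σ.U.image σ.N ∪ snk s x y

/-- `f, g` are linkable: `U + f + g` can be matched with `V` -/
def St.Lk (σ : St s x y) (f g : A) : Prop :=
  ∃ κ : A → B, Set.InjOn κ (insert f (insert g σ.U) : Finset A) ∧
    ∀ r ∈ insert f (insert g σ.U), κ r ∈ σ.V ∧ s r (κ r) ≠ 0

/-- the value that the row `r` sees -/
def vl (s : A → B → ℤ) (r : A) (z : B → ℝ) : ℝ := ∑ c, (s r c : ℝ) * z c

/-- the position of the exit `r` in the linear order -/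
noncomputable def gam (s : A → B → ℤ) (ψ ω : B → ℝ) (r : A) : ℝ := vl s r ω / vl s r ψ

/-- The two side vectors: they live on `V` and have zero sum in the rows of `U`. -/
structure St.SV (σ : St s x y) (ψ ω : B → ℝ) : Prop where
  z1 : ∀ c, c ∉ σ.V → ψ c = 0
  z2 : ∀ c, c ∉ σ.V → ω c = 0
  u1 : ∀ r ∈ σ.U, vl s r ψ = 0
  u2 : ∀ r ∈ σ.U, vl s r ω = 0
  x1 : vl s x ψ = 0
  x2 : vl s x ω = 1
  pos : ∀ i, σ.Ex (σ.a i) → 0 < σ.ρ (σ.a i) * vl s (σ.a i) ψ

/-- `z` balances the row `r` within the set `X` of columns -/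
def BalOn (s : A → B → ℤ) (z : B → ℝ) (r : A) (X : Finset B) : Prop :=
  (∀ c ∈ X, (s r c : ℝ) * z c = 0) ∨ ((∃ c ∈ X, 0 < (s r c : ℝ) * z c) ∧ ∃ c ∈ X, (s r c : ℝ) * z c < 0)

open Classical in
/-- the exit rows; `σ.T.XR` are the entry columns -/
noncomputable def St.XR (σ : St s x y) : Finset A := univ.filter fun r => (∃ i, σ.a i = r) ∧ σ.Ex r

/-- steps that avoid the columns in `T` -/
def St.stepA (σ : St s x y) (T : Finset B) (r r' : A) : Prop := σ.step r r' ∧ σ.N r' ∉ T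

/-- steps inside `T` -/
def St.stepI (σ : St s x y) (T : Finset B) (r r' : A) : Prop := σ.step r r' ∧ σ.N r' ∈ T

/-- The smallest deficient set `T` of two exits `f, g` that are not linkable. -/
structure St.Df (σ : St s x y) (f g : A) (T : Finset B) : Prop where
  sub : T ⊆ σ.V
  card : (NB s T ∩ σ.U).card + 1 = T.card
  nf : f ∉ NB s T
  ng : g ∉ NB s T
  min : ∀ S ⊆ σ.V, (NB s S ∩ σ.U).card < S.card → f ∉ NB s S ∨ g ∉ NB s S → T ⊆ S

/-- `σ'` arises from `σ` by an ear `R` from the row `a m` to the column `b t`, the open arc `b (m+1), ..., a (t-1)` being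
omitted (its pairs `(b i, a i)` are now matched off the cycle). -/
structure St.Ear (σ σ' : St s x y) (m t : ℤ) (R : Finset A) : Prop where
  mt : m + 1 < t
  tm : t < m + σ.k
  k' : σ'.k = m + σ.k - t + 1 + R.card
  keepa : ∀ i, t ≤ i → i ≤ m + σ.k → σ'.a i = σ.a i
  keepb : ∀ i, t ≤ i → i ≤ m + σ.k → σ'.b i = σ.b i
  newa : ∀ i, m + σ.k < i → i < t + σ'.k → σ'.a i ∈ R
  newb : ∀ i, m + σ.k < i → i < t + σ'.k → σ'.b i = σ.N (σ'.a i)
  surj : ∀ r ∈ R, ∃ i, σ'.a i = r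
  offR : ∀ r ∈ R, σ.O r
  offN : ∀ r, σ.O r → r ∉ R → σ'.N r = σ.N r
  omitN : ∀ i, m < i → i < t → σ'.N (σ.a i) = σ.b i
  xi : ∀ c, (∀ r ∈ R, σ.N r ≠ c) → σ'.ξ c = σ.ξ c
  rho : ∀ r, r ∉ R → σ'.ρ r = σ.ρ r

/-- the position of the entry `b p` -/
noncomputable def St.del (σ : St s x y) (φ lam : A → ℝ) (p : ℤ) : ℝ := gam (tr s) φ lam (σ.b p)

/-- parallel entries `p1, p2 | p3, p4`; every interval contains an exit -/
structure St.Par (σ : St s x y) (φ lam : A → ℝ) (p1 p2 p3 p4 : ℤ) : Prop where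
  o1 : p1 < p2
  o2 : p2 < p3
  o3 : p3 < p4
  o4 : p4 < p1 + σ.k
  n1 : σ.T.Ex (σ.b p1)
  n2 : σ.T.Ex (σ.b p2)
  n3 : σ.T.Ex (σ.b p3)
  n4 : σ.T.Ex (σ.b p4)
  sv : σ.T.SV φ lam
  sep : (σ.del φ lam p1 < σ.del φ lam p3 ∧ σ.del φ lam p1 < σ.del φ lam p4 ∧ σ.del φ lam p2 < σ.del φ lam p3 ∧
      σ.del φ lam p2 < σ.del φ lam p4) ∨
    (σ.del φ lam p3 < σ.del φ lam p1 ∧ σ.del φ lam p3 < σ.del φ lam p2 ∧ σ.del φ lam p4 < σ.del φ lam p1 ∧
      σ.del φ lam p4 < σ.del φ lam p2)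
  x1 : ∃ j, p1 ≤ j ∧ j < p2 ∧ σ.Ex (σ.a j)
  x2 : ∃ j, p2 ≤ j ∧ j < p3 ∧ σ.Ex (σ.a j)
  x3 : ∃ j, p3 ≤ j ∧ j < p4 ∧ σ.Ex (σ.a j)
  x4 : ∃ j, p4 ≤ j ∧ j < p1 + σ.k ∧ σ.Ex (σ.a j)

/-- `Par` together with exits `jf, jg` in the first and third interval and their smallest deficient set. -/
structure St.Big (σ : St s x y) (φ lam : A → ℝ) (p1 p2 p3 p4 jf jg : ℤ) (T : Finset B) : Prop extends
    St.Par σ φ lam p1 p2 p3 p4 where
  f1 : p1 ≤ jf
  f2 : jf < p2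
  g1 : p3 ≤ jg
  g2 : jg < p4
  xf : σ.Ex (σ.a jf)
  xg : σ.Ex (σ.a jg)
  df : σ.Df (σ.a jf) (σ.a jg) T

/-- crossing entries: `p1, p3` on one side, `p2, p4` on the other; all rows of the cycle are exits -/
structure St.Crs (σ : St s x y) (φ lam : A → ℝ) (p1 p2 p3 p4 : ℤ) : Prop where
  o1 : p1 < p2
  o2 : p2 < p3
  o3 : p3 < p4
  o4 : p4 < p1 + σ.k
  n1 : σ.T.Ex (σ.b p1)
  n2 : σ.T.Ex (σ.b p2)
  n3 : σ.T.Ex (σ.b p3)
  n4 : σ.T.Ex (σ.b p4)
  sv : σ.T.SV φ lam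
  sep : (σ.del φ lam p1 < σ.del φ lam p2 ∧ σ.del φ lam p1 < σ.del φ lam p4 ∧ σ.del φ lam p3 < σ.del φ lam p2 ∧
      σ.del φ lam p3 < σ.del φ lam p4) ∨
    (σ.del φ lam p2 < σ.del φ lam p1 ∧ σ.del φ lam p2 < σ.del φ lam p3 ∧ σ.del φ lam p4 < σ.del φ lam p1 ∧
      σ.del φ lam p4 < σ.del φ lam p3)
  all : ∀ i, σ.Ex (σ.a i)

end MCC
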