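import Pool.Agent.Lib_MP_cb5629.T2Path

set_option linter.unusedSectionVars false

namespace MCC

open Finset Relation

variable {A B : Type} [Fintype A] [Fintype B] [DecidableEq A] [DecidableEq B]
variable {s : A → B → ℤ} {x : A} {y : B}

private lemma T2Ear_ext {ι α β : Type*} (S : ι → Prop) (u : ι → α) (v : ι → β) (w : α → β)
    (hinj : ∀ i i', S i → S i' → u i = u i' → i = i') :
    ∃ f : α → β, (∀ i, S i → f (u i) = v i) ∧ ∀ r, (∀ i, S i → u i ≠ r) → f r = w r := by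
  classical
  refine ⟨fun r => if h : ∃ i, S i ∧ u i = r then v h.choose else w r, ?_, ?_⟩
  · intro i hi
    have h : ∃ i', S i' ∧ u i' = u i := ⟨i, hi, rfl⟩
    have h1 : h.choose = i := hinj _ _ h.choose_spec.1 hi h.choose_spec.2
    simp only [dif_pos h]
    rw [h1]
  · intro r hr
    have h : ¬ ∃ i, S i ∧ u i = r := by
      rintro ⟨i, hi, hr'⟩
      exact hr i hi hr'
    simp only [dif_neg h]

private lemma T2Ear_sgn_mul {p q : ℝ} (hp : p = 1 ∨ p = -1) (hq : q = 1 ∨ q = -1) : p * q = 1 ∨ p * q = -1 := by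
  rcases hp with hp | hp <;> rcases hq with hq | hq <;> rw [hp, hq] <;> norm_num

private lemma T2Ear_sgn_neg {p : ℝ} (hp : p = 1 ∨ p = -1) : -p = 1 ∨ -p = -1 := by
  rcases hp with hp | hp <;> rw [hp] <;> norm_num

private lemma T2Ear_cast (hval : ∀ r c, s r c = 0 ∨ s r c = 1 ∨ s r c = -1) {r : A} {c : B} (h : s r c ≠ 0) :
    (s r c : ℝ) = 1 ∨ (s r c : ℝ) = -1 := by
  rcases hval r c with h1 | h1 | h1
  · exact absurd h1 h
  · left; rw [h1]; norm_num
  · right; rw [h1]; norm_num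

/-- periodic extension -/
private lemma T2Ear_per {α : Type*} (f : ℤ → α) (t k : ℤ) (hk : 0 < k) :
    ∃ g : ℤ → α, (∀ i, g (i + k) = g i) ∧ ∀ i, t ≤ i → i < t + k → g i = f i := by
  refine ⟨fun i => f (t + (i - t) % k), ?_, ?_⟩
  · intro i
    simp only
    rw [show i + k - t = (i - t) + k by ring, Int.add_emod_right]
  · intro i h1 h2
    simp only
    rw [Int.emod_eq_of_lt (by omega) (by omega)]
    congr 1
    ring

private lemma T2Ear_per_add {α : Type*} {g : ℤ → α} {k : ℤ} (hg : ∀ i, g (i + k) = g i) (i n : ℤ) :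
    g (i + n * k) = g i := by
  induction n using Int.induction_on with
  | zero => rw [zero_mul, add_zero]
  | succ n ih =>
    rw [← ih, show i + ((n : ℤ) + 1) * k = (i + (n : ℤ) * k) + k by ring, hg]
  | pred n ih =>
    rw [← ih, show i + (-(n : ℤ)) * k = (i + (-(n : ℤ) - 1) * k) + k by ring, hg]

private lemma T2Ear_win (p i : ℤ) {k : ℤ} (hk : 0 < k) : ∃ j n, p ≤ j ∧ j < p + k ∧ i = j + n * k := by
  refine ⟨p + (i - p) % k, (i - p) / k, ?_, ?_, ?_⟩
  · have := Int.emod_nonneg (i - p) hk.ne'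
    omega
  · have := Int.emod_lt_of_pos (i - p) hk
    omega
  · have := Int.emod_add_mul_ediv (i - p) k
    rw [mul_comm ((i - p) / k) k]
    omega

private lemma T2Ear_inj {α : Type*} {g : ℤ → α} {t k : ℤ} (hk : 0 < k) (hg : ∀ i, g (i + k) = g i)
    (hi : ∀ i j, t ≤ i → i < t + k → t ≤ j → j < t + k → g i = g j → i = j) :
    ∀ i j, i ≤ j → j < i + k → g i = g j → i = j := by
  intro i j h1 h2 h3
  obtain ⟨w1, n1, a1, a2, a3⟩ := T2Ear_win t i hk
  obtain ⟨w2, n2, b1, b2, b3⟩ := T2Ear_win t j hk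
  have h4 : w1 = w2 := by
    apply hi w1 w2 a1 a2 b1 b2
    rw [a3, b3, T2Ear_per_add hg, T2Ear_per_add hg] at h3
    exact h3
  rcases lt_trichotomy n1 n2 with h5 | h5 | h5
  · exfalso
    have h6 : k ≤ (n2 - n1) * k := le_mul_of_one_le_left hk.le (by omega)
    have h7 : (n2 - n1) * k = n2 * k - n1 * k := by ring
    omega
  · rw [a3, b3, h4, h5]
  · exfalso
    have h6 : k ≤ (n1 - n2) * k := le_mul_of_one_le_left hk.le (by omega)
    have h7 : (n1 - n2) * k = n1 * k - n2 * k := by ring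
    omega

/-- The signs along the ear. Proof. Downward recursion: `ρ' (q i) = - s (q i) (next column) * ξ' (next column)`, `ξ' (N (q i)) = ρ' (q i) * s (q i) (N (q i))`, where the next column is
`N (q (i+1))` for `i < j` and `b t` for `i = j`. (All values are `±1`; the rows `q 1, ..., q j` are distinct.) -/
theorem St.ear_signs (σ : St s x y) (hval : ∀ r c, s r c = 0 ∨ s r c = 1 ∨ s r c = -1) {t : ℤ} {j : ℕ} {q : ℕ → A}
    (hO : ∀ i, 1 ≤ i → i ≤ j → σ.O (q i)) (hinj : ∀ i i', 1 ≤ i → i ≤ j → 1 ≤ i' → i' ≤ j → q i = q i' → i = i')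
    (hst : ∀ i, 1 ≤ i → i < j → s (q i) (σ.N (q (i + 1))) ≠ 0) (hend : 1 ≤ j → s (q j) (σ.b t) ≠ 0) :
    ∃ (ξ' : B → ℝ) (ρ' : A → ℝ), (∀ c, ξ' c = 1 ∨ ξ' c = -1) ∧ (∀ r, ρ' r = 1 ∨ ρ' r = -1) ∧
      (∀ c, (∀ i, 1 ≤ i → i ≤ j → σ.N (q i) ≠ c) → ξ' c = σ.ξ c) ∧
      (∀ r, (∀ i, 1 ≤ i → i ≤ j → q i ≠ r) → ρ' r = σ.ρ r) ∧
      (∀ i, 1 ≤ i → i ≤ j → ρ' (q i) * s (q i) (σ.N (q i)) * ξ' (σ.N (q i)) = 1) ∧
      (∀ i, 1 ≤ i → i < j → ρ' (q i) * s (q i) (σ.N (q (i + 1))) * ξ' (σ.N (q (i + 1))) = -1) ∧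
      (1 ≤ j → ρ' (q j) * s (q j) (σ.b t) * ξ' (σ.b t) = -1) := by
  classical
  let col : ℕ → B := fun i => if i = j + 1 then σ.b t else σ.N (q i)
  have col1 : ∀ i, i ≤ j → col i = σ.N (q i) := by
    intro i hi
    have : i ≠ j + 1 := by omega
    simp only [col, if_neg this]
  have col2 : col (j + 1) = σ.b t := by simp only [col, if_pos rfl]
  have hs1 : ∀ i, 1 ≤ i → i ≤ j → ((s (q i) (col (i + 1)) : ℝ) = 1 ∨ (s (q i) (col (i + 1)) : ℝ) = -1) := by
    intro i h1 h2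
    apply T2Ear_cast hval
    rcases Nat.lt_or_ge i j with h3 | h3
    · rw [col1 (i + 1) h3]; exact hst i h1 h3
    · have : i = j := by omega
      rw [this, col2]; exact hend (by omega)
  have hs2 : ∀ i, 1 ≤ i → i ≤ j → ((s (q i) (col i) : ℝ) = 1 ∨ (s (q i) (col i) : ℝ) = -1) := by
    intro i h1 h2
    apply T2Ear_cast hval
    rw [col1 i h2]
    exact (σ.N_O (hO i h1 h2)).2.1
  let Y : ℕ → ℝ := fun d => Nat.rec (motive := fun _ => ℝ) (σ.ξ (σ.b t))
    (fun d yd => -((s (q (j - d)) (col (j - d + 1)) : ℝ) * yd) * s (q (j - d)) (col (j - d))) d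
  have hY0 : Y 0 = σ.ξ (σ.b t) := rfl
  have hYs : ∀ d, Y (d + 1) = -((s (q (j - d)) (col (j - d + 1)) : ℝ) * Y d) * s (q (j - d)) (col (j - d)) :=
    fun d => rfl
  have hY : ∀ d, d ≤ j → (Y d = 1 ∨ Y d = -1) := by
    intro d
    induction d with
    | zero => intro _; rw [hY0]; exact σ.ξ1 _
    | succ d ih =>
      intro hd
      rw [hYs]
      exact T2Ear_sgn_mul (T2Ear_sgn_neg (T2Ear_sgn_mul (hs1 _ (by omega) (by omega)) (ih (by omega))))
        (hs2 _ (by omega) (by omega))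
  let X : ℕ → ℝ := fun i => Y (j + 1 - i)
  have hXj : X (j + 1) = σ.ξ (σ.b t) := by
    simp only [X]
    rw [Nat.sub_self, hY0]
  have hX1 : ∀ i, 1 ≤ i → (X i = 1 ∨ X i = -1) := fun i hi => hY _ (by omega)
  have hXs : ∀ i, 1 ≤ i → i ≤ j → X i = -((s (q i) (col (i + 1)) : ℝ) * X (i + 1)) * s (q i) (col i) := by
    intro i h1 h2
    have e1 : j + 1 - i = (j - i) + 1 := by omega
    have e2 : j - (j - i) = i := by omega
    have e3 : j + 1 - (i + 1) = j - i := by omega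
    simp only [X]
    rw [e1, hYs, e2, e3]
  let Z : ℕ → ℝ := fun i => -((s (q i) (col (i + 1)) : ℝ) * X (i + 1))
  have hZ1 : ∀ i, 1 ≤ i → i ≤ j → (Z i = 1 ∨ Z i = -1) := fun i h1 h2 =>
    T2Ear_sgn_neg (T2Ear_sgn_mul (hs1 i h1 h2) (hX1 (i + 1) (by omega)))
  obtain ⟨ξ', x1, x2⟩ := T2Ear_ext (fun i => 1 ≤ i ∧ i ≤ j) (fun i => σ.N (q i)) X σ.ξ (by
    intro i i' hi hi' he
    apply hinj i i' hi.1 hi.2 hi'.1 hi'.2
    have he' : σ.N (q i) = σ.N (q i') := he
    rw [← (σ.N_O (hO i hi.1 hi.2)).2.2, ← (σ.N_O (hO i' hi'.1 hi'.2)).2.2, he'])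
  obtain ⟨ρ', y1, y2⟩ := T2Ear_ext (fun i => 1 ≤ i ∧ i ≤ j) q Z σ.ρ (by
    intro i i' hi hi' he
    exact hinj i i' hi.1 hi.2 hi'.1 hi'.2 he)
  have hcol : ∀ i, 1 ≤ i → i ≤ j + 1 → ξ' (col i) = X i := by
    intro i h1 h2
    rcases Nat.lt_or_ge i (j + 1) with h3 | h3
    · rw [col1 i (by omega)]
      exact x1 i ⟨h1, by omega⟩
    · have : i = j + 1 := by omega
      rw [this, col2, hXj]
      apply x2
      intro i' hi' he
      exact (σ.TO_iff.mp (σ.N_O (hO i' hi'.1 hi'.2)).1).2 t he.symm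
  have sq : ∀ {p : ℝ}, p = 1 ∨ p = -1 → p * p = 1 := by
    intro p hp
    rcases hp with hp | hp <;> rw [hp] <;> norm_num
  have f1 : ∀ i, 1 ≤ i → i ≤ j → ρ' (q i) * s (q i) (col i) * ξ' (col i) = 1 := by
    intro i h1 h2
    rw [y1 i ⟨h1, h2⟩, hcol i h1 (by omega), hXs i h1 h2]
    change Z i * _ * (Z i * _) = 1
    calc Z i * (s (q i) (col i) : ℝ) * (Z i * (s (q i) (col i) : ℝ))
        = (Z i * Z i) * ((s (q i) (col i) : ℝ) * (s (q i) (col i) : ℝ)) := by ring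
      _ = 1 := by rw [sq (hZ1 i h1 h2), sq (hs2 i h1 h2), one_mul]
  have f2 : ∀ i, 1 ≤ i → i ≤ j → ρ' (q i) * s (q i) (col (i + 1)) * ξ' (col (i + 1)) = -1 := by
    intro i h1 h2
    rw [y1 i ⟨h1, h2⟩, hcol (i + 1) (by omega) (by omega)]
    change -((s (q i) (col (i + 1)) : ℝ) * X (i + 1)) * (s (q i) (col (i + 1)) : ℝ) * X (i + 1) = -1
    calc -((s (q i) (col (i + 1)) : ℝ) * X (i + 1)) * (s (q i) (col (i + 1)) : ℝ) * X (i + 1)
        = -(((s (q i) (col (i + 1)) : ℝ) * (s (q i) (col (i + 1)) : ℝ)) * (X (i + 1) * X (i + 1))) := by ring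
      _ = -1 := by rw [sq (hs1 i h1 h2), sq (hX1 (i + 1) (by omega)), one_mul]
  refine ⟨ξ', ρ', ?_, ?_, ?_, ?_, ?_, ?_, ?_⟩
  · intro c
    by_cases hc : ∃ i, (1 ≤ i ∧ i ≤ j) ∧ σ.N (q i) = c
    · obtain ⟨i, hi, he⟩ := hc
      rw [← he]
      have := x1 i hi
      rw [this]
      exact hX1 i hi.1
    · rw [x2 c (fun i hi he => hc ⟨i, hi, he⟩)]
      exact σ.ξ1 c
  · intro r
    by_cases hc : ∃ i, (1 ≤ i ∧ i ≤ j) ∧ q i = r
    · obtain ⟨i, hi, he⟩ := hc
      rw [← he, y1 i hi]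
      exact hZ1 i hi.1 hi.2
    · rw [y2 r (fun i hi he => hc ⟨i, hi, he⟩)]
      exact σ.ρ1 r
  · intro c hc
    exact x2 c (fun i hi => hc i hi.1 hi.2)
  · intro r hr
    exact y2 r (fun i hi => hr i hi.1 hi.2)
  · intro i h1 h2
    have := f1 i h1 h2
    rwa [col1 i h2] at this
  · intro i h1 h2
    have := f2 i h1 (by omega)
    rwa [col1 (i + 1) (by omega)] at this
  · intro hj
    have := f2 j hj le_rfl
    rwa [col2] at this

/-- Piece T2EAR1. The new state, if the sign at the start of the ear is right. Construction: `k' = m + k - t + 1 + j`; for `t ≤ i ≤ m + k` the pair `(b i, a i)`, for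
`m + k < i < t + k'` the pair `(N (q (i - m - k)), q (i - m - k))`, continued periodically (`i ↦ t + (i - t) % k'`). `N'`: `N' (a i) = b i` for `m < i < t`, `N' r = σ.N r` otherwise; `M'` likewise.
`e2` at `i = m + k`: `hsg`; at the last pair: `ear_signs`; for `j = 0`: `hsg` is about `b t`. -/
theorem St.ear1 (σ : St s x y) {m t : ℤ} (h1 : m + 1 < t) (h2 : t < m + σ.k) {j : ℕ} {q : ℕ → A}
    (q0 : q 0 = σ.a m) (hO : ∀ i, 1 ≤ i → i ≤ j → σ.O (q i))
    (hinj : ∀ i i', 1 ≤ i → i ≤ j → 1 ≤ i' → i' ≤ j → q i = q i' → i = i')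
    (hst : ∀ i, i < j → s (q i) (σ.N (q (i + 1))) ≠ 0) (hend : s (q j) (σ.b t) ≠ 0) {ξ' : B → ℝ} {ρ' : A → ℝ}
    (g1 : ∀ c, ξ' c = 1 ∨ ξ' c = -1) (g2 : ∀ r, ρ' r = 1 ∨ ρ' r = -1)
    (g3 : ∀ c, (∀ i, 1 ≤ i → i ≤ j → σ.N (q i) ≠ c) → ξ' c = σ.ξ c)
    (g4 : ∀ r, (∀ i, 1 ≤ i → i ≤ j → q i ≠ r) → ρ' r = σ.ρ r)
    (g5 : ∀ i, 1 ≤ i → i ≤ j → ρ' (q i) * s (q i) (σ.N (q i)) * ξ' (σ.N (q i)) = 1)
    (g6 : ∀ i, 1 ≤ i → i < j → ρ' (q i) * s (q i) (σ.N (q (i + 1))) * ξ' (σ.N (q (i + 1))) = -1)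
    (g7 : 1 ≤ j → ρ' (q j) * s (q j) (σ.b t) * ξ' (σ.b t) = -1)
    (hsg1 : 1 ≤ j → σ.ρ (σ.a m) * s (σ.a m) (σ.N (q 1)) * ξ' (σ.N (q 1)) = -1)
    (hsg0 : j = 0 → σ.ρ (σ.a m) * s (σ.a m) (σ.b t) * σ.ξ (σ.b t) = -1) :
    ∃ σ' : St s x y, σ.Ear σ' m t ((Finset.Icc 1 j).image q) := by
  classical
  have hkk := σ.kpos
  have hk' : 0 < m + σ.k - t + 1 + (j : ℤ) := by omega
  obtain ⟨a', pa', wa⟩ := T2Ear_per (fun i => if i ≤ m + σ.k then σ.a i else q (i - m - σ.k).toNat) t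
    (m + σ.k - t + 1 + (j : ℤ)) hk'
  obtain ⟨b', pb', wb⟩ := T2Ear_per (fun i => if i ≤ m + σ.k then σ.b i else σ.N (q (i - m - σ.k).toNat)) t
    (m + σ.k - t + 1 + (j : ℤ)) hk'
  have ka : ∀ i, t ≤ i → i ≤ m + σ.k → a' i = σ.a i := by
    intro i g1 g2
    rw [wa i g1 (by omega)]
    simp only [if_pos g2]
  have kb : ∀ i, t ≤ i → i ≤ m + σ.k → b' i = σ.b i := by
    intro i g1 g2
    rw [wb i g1 (by omega)]
    simp only [if_pos g2]
  have na : ∀ i : ℕ, 1 ≤ i → i ≤ j → a' (m + σ.k + i) = q i := by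
    intro i g1 g2
    rw [wa _ (by omega) (by omega)]
    have e1 : ¬ (m + σ.k + (i : ℤ) ≤ m + σ.k) := by omega
    have e2 : (m + σ.k + (i : ℤ) - m - σ.k).toNat = i := by omega
    simp only [if_neg e1]
    rw [e2]
  have nb : ∀ i : ℕ, 1 ≤ i → i ≤ j → b' (m + σ.k + i) = σ.N (q i) := by
    intro i g1 g2
    rw [wb _ (by omega) (by omega)]
    have e1 : ¬ (m + σ.k + (i : ℤ) ≤ m + σ.k) := by omega
    have e2 : (m + σ.k + (i : ℤ) - m - σ.k).toNat = i := by omega
    simp only [if_neg e1]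
    rw [e2]
  -- classification of the window
  have cls : ∀ i, t ≤ i → i < t + (m + σ.k - t + 1 + (j : ℤ)) →
      i ≤ m + σ.k ∨ ∃ i' : ℕ, 1 ≤ i' ∧ i' ≤ j ∧ i = m + σ.k + i' := by
    intro i g1 g2
    by_cases g3 : i ≤ m + σ.k
    · exact Or.inl g3
    · exact Or.inr ⟨(i - m - σ.k).toNat, by omega, by omega, by omega⟩
  -- every index
  have all : ∀ i, ∃ w, a' i = a' w ∧ b' i = b' w ∧ b' (i + 1) = b' (w + 1) ∧ t ≤ w ∧
      w < t + (m + σ.k - t + 1 + (j : ℤ)) := by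
    intro i
    obtain ⟨w, n, w1, w2, w3⟩ := T2Ear_win t i hk'
    refine ⟨w, ?_, ?_, ?_, w1, w2⟩
    · rw [w3, T2Ear_per_add pa']
    · rw [w3, T2Ear_per_add pb']
    · rw [w3, show w + n * (m + σ.k - t + 1 + (j : ℤ)) + 1 = (w + 1) + n * (m + σ.k - t + 1 + (j : ℤ)) by ring,
        T2Ear_per_add pb']
  have qa : ∀ i : ℕ, 1 ≤ i → i ≤ j → ∀ i', σ.a i' ≠ q i := fun i g1 g2 => (hO i g1 g2).2
  have qb : ∀ i : ℕ, 1 ≤ i → i ≤ j → ∀ i', σ.b i' ≠ σ.N (q i) := fun i g1 g2 =>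
    (σ.TO_iff.mp (σ.N_O (hO i g1 g2)).1).2
  have Ninj : ∀ r r', σ.O r → σ.O r' → σ.N r = σ.N r' → r = r' := by
    intro r r' hr hr' he
    rw [← (σ.N_O hr).2.2, ← (σ.N_O hr').2.2, he]
  have Minj : ∀ c c', σ.T.O c → σ.T.O c' → σ.M c = σ.M c' → c = c' := by
    intro c c' hr hr' he
    rw [← (σ.M_O hr).2.2, ← (σ.M_O hr').2.2, he]
  have ia' : ∀ i i', t ≤ i → i < t + (m + σ.k - t + 1 + (j : ℤ)) → t ≤ i' →
      i' < t + (m + σ.k - t + 1 + (j : ℤ)) → a' i = a' i' → i = i' := by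
    intro i i' g1 g2 g3 g4 he
    rcases cls i g1 g2 with c1 | ⟨n, n1, n2, n3⟩ <;> rcases cls i' g3 g4 with c2 | ⟨n', n1', n2', n3'⟩
    · rw [ka i g1 c1, ka i' g3 c2] at he
      rcases le_total i i' with c3 | c3
      · exact σ.ia i i' c3 (by omega) he
      · exact (σ.ia i' i c3 (by omega) he.symm).symm
    · rw [ka i g1 c1, n3', na n' n1' n2'] at he
      exact absurd he (qa n' n1' n2' i)
    · rw [ka i' g3 c2, n3, na n n1 n2] at he
      exact absurd he.symm (qa n n1 n2 i')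
    · rw [n3, n3', na n n1 n2, na n' n1' n2'] at he
      rw [n3, n3', hinj n n' n1 n2 n1' n2' he]
  have ib' : ∀ i i', t ≤ i → i < t + (m + σ.k - t + 1 + (j : ℤ)) → t ≤ i' →
      i' < t + (m + σ.k - t + 1 + (j : ℤ)) → b' i = b' i' → i = i' := by
    intro i i' g1 g2 g3 g4 he
    rcases cls i g1 g2 with c1 | ⟨n, n1, n2, n3⟩ <;> rcases cls i' g3 g4 with c2 | ⟨n', n1', n2', n3'⟩
    · rw [kb i g1 c1, kb i' g3 c2] at he
      rcases le_total i i' with c3 | c3
      · exact σ.ib i i' c3 (by omega) he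
      · exact (σ.ib i' i c3 (by omega) he.symm).symm
    · rw [kb i g1 c1, n3', nb n' n1' n2'] at he
      exact absurd he (qb n' n1' n2' i)
    · rw [kb i' g3 c2, n3, nb n n1 n2] at he
      exact absurd he.symm (qb n n1 n2 i')
    · rw [n3, n3', nb n n1 n2, nb n' n1' n2'] at he
      rw [n3, n3', hinj n n' n1 n2 n1' n2' (Ninj _ _ (hO n n1 n2) (hO n' n1' n2') he)]
  -- the signs agree on the old part
  have rho' : ∀ i, ρ' (σ.a i) = σ.ρ (σ.a i) := fun i => g4 _ (fun i' u1 u2 he => qa i' u1 u2 i he.symm)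
  have xi' : ∀ i, ξ' (σ.b i) = σ.ξ (σ.b i) := fun i => g3 _ (fun i' u1 u2 he => qb i' u1 u2 i he.symm)
  have amk : σ.a (m + σ.k) = σ.a m := σ.pa m
  -- matchings
  obtain ⟨N', N1', N2'⟩ := T2Ear_ext (fun i => m < i ∧ i < t) σ.a σ.b σ.N (by
    intro i i' hi hi' he
    rcases le_total i i' with c3 | c3
    · exact σ.ia i i' c3 (by omega) he
    · exact (σ.ia i' i c3 (by omega) he.symm).symm)
  obtain ⟨M', M1', M2'⟩ := T2Ear_ext (fun i => m < i ∧ i < t) σ.b σ.a σ.M (by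
    intro i i' hi hi' he
    rcases le_total i i' with c3 | c3
    · exact σ.ib i i' c3 (by omega) he
    · exact (σ.ib i' i c3 (by omega) he.symm).symm)
  -- rows of the new cycle
  have rowc : ∀ i, (∃ w, t ≤ w ∧ w ≤ m + σ.k ∧ a' i = σ.a w ∧ b' i = σ.b w) ∨
      ∃ n : ℕ, 1 ≤ n ∧ n ≤ j ∧ a' i = q n ∧ b' i = σ.N (q n) := by
    intro i
    obtain ⟨w, w1, w2, _, w4, w5⟩ := all i
    rcases cls w w4 w5 with c1 | ⟨n, n1, n2, n3⟩
    · exact Or.inl ⟨w, w4, c1, by rw [w1, ka w w4 c1], by rw [w2, kb w w4 c1]⟩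
    · exact Or.inr ⟨n, n1, n2, by rw [w1, n3, na n n1 n2], by rw [w2, n3, nb n n1 n2]⟩
  let σ' : St s x y :=
    { k := m + σ.k - t + 1 + (j : ℤ)
      a := a'
      b := b'
      ξ := ξ'
      ρ := ρ'
      N := N'
      M := M'
      kpos := hk'
      pa := pa'
      pb := pb'
      ia := T2Ear_inj hk' pa' ia'
      ib := T2Ear_inj hk' pb' ib'
      ay := by
        intro i
        rcases rowc i with ⟨w, _, _, w3, _⟩ | ⟨n, n1, n2, n3, _⟩
        · rw [w3]; exact σ.ay w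
        · rw [n3]; exact (hO n n1 n2).1
      bx := by
        intro i
        rcases rowc i with ⟨w, _, _, _, w4⟩ | ⟨n, n1, n2, _, n4⟩
        · rw [w4]; exact σ.bx w
        · rw [n4]; exact (σ.TO_iff.mp (σ.N_O (hO n n1 n2)).1).1
      ξ1 := g1
      ρ1 := g2
      e1 := by
        intro i
        rcases rowc i with ⟨w, _, _, w3, w4⟩ | ⟨n, n1, n2, n3, n4⟩
        · rw [w3, w4, rho', xi']; exact σ.e1 w
        · rw [n3, n4]; exact g5 n n1 n2
      e2 := by
        intro i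
        obtain ⟨w, w1, _, w3, w4, w5⟩ := all i
        rw [w1, w3]
        rcases cls w w4 w5 with c1 | ⟨n, n1, n2, n3⟩
        · rcases lt_or_eq_of_le c1 with c2 | c2
          · rw [ka w w4 c1, kb (w + 1) (by omega) (by omega), rho', xi']; exact σ.e2 w
          · rcases Nat.eq_zero_or_pos j with c3 | c3
            · have e1 : m + σ.k + 1 = t + (m + σ.k - t + 1 + (j : ℤ)) := by omega
              rw [ka w w4 c1, c2, amk, e1, pb', kb t le_rfl (by omega), rho', xi']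
              exact hsg0 c3
            · have e1 : m + σ.k + 1 = m + σ.k + ((1 : ℕ) : ℤ) := by norm_num
              rw [ka w w4 c1, c2, amk, e1, nb 1 le_rfl c3, rho']
              exact hsg1 c3
        · rw [n3, na n n1 n2]
          rcases Nat.lt_or_ge n j with c2 | c2
          · have e1 : m + σ.k + (n : ℤ) + 1 = m + σ.k + ((n + 1 : ℕ) : ℤ) := by push_cast; ring
            rw [e1, nb (n + 1) (by omega) (by omega)]
            exact g6 n n1 c2
          · have e0 : n = j := by omega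
            have e1 : m + σ.k + (n : ℤ) + 1 = t + (m + σ.k - t + 1 + (j : ℤ)) := by omega
            rw [e1, pb', kb t le_rfl (by omega), e0]
            exact g7 (by omega)
      N1 := by
        intro r hr1 hr2
        by_cases hr : ∃ i, (m < i ∧ i < t) ∧ σ.a i = r
        · obtain ⟨i, hi, he⟩ := hr
          rw [← he, N1' i hi, M1' i hi]
          refine ⟨σ.bx i, ?_, σ.s_ab i, rfl⟩
          intro i'
          rcases rowc i' with ⟨w, u1, u2, _, u4⟩ | ⟨n, n1, n2, _, n4⟩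
          · rw [u4]
            intro hb
            have := σ.ib i w (by omega) (by omega) hb.symm
            omega
          · rw [n4]; exact (qb n n1 n2 i).symm
        · have hr3 : ∀ i, σ.a i ≠ r := by
            intro i he
            obtain ⟨w, v1, v2, v3⟩ := σ.a_window (m + 1) i
            rcases lt_or_ge w t with c1 | c1
            · exact hr ⟨w, ⟨by omega, c1⟩, by rw [v3, he]⟩
            · exact hr2 w (by rw [ka w c1 (by omega), v3, he])
          have hO' : σ.O r := ⟨hr1, hr3⟩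
          obtain ⟨u1, u2, u3⟩ := σ.N_O hO'
          have u1' := σ.TO_iff.mp u1
          rw [N2' r (fun i hi he => hr ⟨i, hi, he⟩), M2' (σ.N r) (fun i _ => u1'.2 i)]
          refine ⟨u1'.1, ?_, u2, u3⟩
          intro i'
          rcases rowc i' with ⟨w, _, _, _, v4⟩ | ⟨n, n1, n2, _, n4⟩
          · rw [v4]; exact u1'.2 w
          · rw [n4]
            intro he
            have := Ninj _ _ (hO n n1 n2) hO' he
            exact hr2 (m + σ.k + n) (by rw [na n n1 n2, this])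
      M1 := by
        intro c hc1 hc2
        by_cases hc : ∃ i, (m < i ∧ i < t) ∧ σ.b i = c
        · obtain ⟨i, hi, he⟩ := hc
          rw [← he, M1' i hi, N1' i hi]
          refine ⟨σ.ay i, ?_, σ.s_ab i, rfl⟩
          intro i'
          rcases rowc i' with ⟨w, u1, u2, u3, _⟩ | ⟨n, n1, n2, n3, _⟩
          · rw [u3]
            intro hb
            have := σ.ia i w (by omega) (by omega) hb.symm
            omega
          · rw [n3]; exact (qa n n1 n2 i).symm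
        · have hc3 : ∀ i, σ.b i ≠ c := by
            intro i he
            obtain ⟨w, v1, v2, v3⟩ := σ.b_window (m + 1) i
            rcases lt_or_ge w t with c1 | c1
            · exact hc ⟨w, ⟨by omega, c1⟩, by rw [v3, he]⟩
            · exact hc2 w (by rw [kb w c1 (by omega), v3, he])
          have hO' : σ.T.O c := σ.TO_iff.mpr ⟨hc1, hc3⟩
          obtain ⟨u1, u2, u3⟩ := σ.M_O hO'
          rw [M2' c (fun i hi he => hc ⟨i, hi, he⟩), N2' (σ.M c) (fun i _ => u1.2 i)]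
          refine ⟨u1.1, ?_, u2, u3⟩
          intro i'
          rcases rowc i' with ⟨w, _, _, v3, _⟩ | ⟨n, n1, n2, n3, _⟩
          · rw [v3]; exact u1.2 w
          · rw [n3]
            intro he
            apply hc2 (m + σ.k + n)
            rw [nb n n1 n2, he, u3] }
  have hcard : ((Finset.Icc 1 j).image q).card = j := by
    rw [card_image_of_injOn, Nat.card_Icc]
    · omega
    · intro i hi i' hi' he
      rw [mem_coe, mem_Icc] at hi hi'
      exact hinj i i' hi.1 hi.2 hi'.1 hi'.2 he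
  refine ⟨σ', ?_⟩
  constructor
  · exact h1
  · exact h2
  · rw [hcard]
  · exact ka
  · exact kb
  · intro i v1 v2
    rcases cls i (by omega) v2 with c1 | ⟨n, n1, n2, n3⟩
    · omega
    · change a' i ∈ _
      rw [n3, na n n1 n2]
      exact mem_image_of_mem q (mem_Icc.mpr ⟨n1, n2⟩)
  · intro i v1 v2
    rcases cls i (by omega) v2 with c1 | ⟨n, n1, n2, n3⟩
    · omega
    · change b' i = σ.N (a' i)
      rw [n3, na n n1 n2, nb n n1 n2]
  · intro r hr
    obtain ⟨n, hn, he⟩ := mem_image.mp hr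
    rw [mem_Icc] at hn
    exact ⟨m + σ.k + n, by change a' _ = r; rw [na n hn.1 hn.2, he]⟩
  · intro r hr
    obtain ⟨n, hn, he⟩ := mem_image.mp hr
    rw [mem_Icc] at hn
    rw [← he]
    exact hO n hn.1 hn.2
  · intro r hr _
    exact N2' r (fun i _ => hr.2 i)
  · intro i v1 v2
    exact N1' i ⟨v1, v2⟩
  · intro c hc
    apply g3
    intro i v1 v2
    exact hc (q i) (mem_image_of_mem q (mem_Icc.mpr ⟨v1, v2⟩))
  · intro r hr
    apply g4
    intro i v1 v2 he
    exact hr (he ▸ mem_image_of_mem q (mem_Icc.mpr ⟨v1, v2⟩))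

/-- Piece T2EAR. THE EAR RULE: an ear from `a m` to `b t` gives a new bad cycle that omits the clockwise arc, or one that omits the other arc (this is the first kind for the mirror image).
Proof. `ear_signs`; the sign `ρ (a m) * s (a m) c * ξ' c` at the first column `c` of the ear is `-1` (`ear1`) or `+1`; in the second case `ear1` for `σ.mir` (`σ.mir.ρ = - σ.ρ`, the other data
are the same, `σ.mir.a (-m-k) = σ.a (m + k) = σ.a m`, `σ.mir.b (1 - t) = σ.b t`; `ρ'` has to be replaced by `- ρ'` outside the ear, use the function `r ↦ ρ' r` on the ear and `- σ.ρ r` elsewhere). -/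
theorem St.ear (h : T2Ctx s x y) (σ : St s x y) {m t : ℤ} (h1 : m + 1 < t) (h2 : t < m + σ.k) {j : ℕ} {q : ℕ → A}
    (q0 : q 0 = σ.a m) (hO : ∀ i, 1 ≤ i → i ≤ j → σ.O (q i))
    (hinj : ∀ i i', 1 ≤ i → i ≤ j → 1 ≤ i' → i' ≤ j → q i = q i' → i = i')
    (hst : ∀ i, i < j → s (q i) (σ.N (q (i + 1))) ≠ 0) (hend : s (q j) (σ.b t) ≠ 0) :
    (∃ σ' : St s x y, σ.Ear σ' m t ((Finset.Icc 1 j).image q)) ∨
      ∃ σ' : St s x y, σ.mir.Ear σ' (-m - σ.k) (1 - t) ((Finset.Icc 1 j).image q) := by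
  classical
  obtain ⟨ξ', ρ', g1, g2, g3, g4, g5, g6, g7⟩ := σ.ear_signs h.hc.val (t := t) hO hinj
    (fun i _ hi => hst i hi) (fun _ => hend)
  have hstart : ∃ c : B, s (σ.a m) c ≠ 0 ∧ (1 ≤ j → c = σ.N (q 1)) ∧ (j = 0 → c = σ.b t) := by
    rcases Nat.eq_zero_or_pos j with hj | hj
    · refine ⟨σ.b t, ?_, fun h' => by omega, fun _ => rfl⟩
      rw [hj, q0] at hend
      exact hend
    · refine ⟨σ.N (q 1), ?_, fun _ => rfl, fun h' => by omega⟩
      have := hst 0 hj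
      rwa [q0] at this
  obtain ⟨c, hc0, hc1, hc2⟩ := hstart
  have hsg : σ.ρ (σ.a m) * s (σ.a m) c * ξ' c = 1 ∨ σ.ρ (σ.a m) * s (σ.a m) c * ξ' c = -1 :=
    T2Ear_sgn_mul (T2Ear_sgn_mul (σ.ρ1 _) (T2Ear_cast h.hc.val hc0)) (g1 c)
  have hxt : j = 0 → ξ' (σ.b t) = σ.ξ (σ.b t) := fun hj => g3 _ (fun i i1 i2 => by omega)
  rcases hsg with hsg | hsg
  · right
    have e1 : σ.mir.a (-m - σ.k) = σ.a m := by
      change σ.a (-(-m - σ.k)) = σ.a m
      rw [show -(-m - σ.k) = m + σ.k by ring, σ.pa]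
    have e2 : σ.mir.b (1 - t) = σ.b t := by
      change σ.b (1 - (1 - t)) = σ.b t
      congr 1
      ring
    have hO' : ∀ i, 1 ≤ i → i ≤ j → σ.mir.O (q i) := fun i i1 i2 =>
      ⟨(hO i i1 i2).1, fun i' => (hO i i1 i2).2 (-i')⟩
    let ρ'' : A → ℝ := fun r => if r ∈ (Finset.Icc 1 j).image q then ρ' r else -σ.ρ r
    have r1 : ∀ i, 1 ≤ i → i ≤ j → ρ'' (q i) = ρ' (q i) := by
      intro i i1 i2
      have : q i ∈ (Finset.Icc 1 j).image q := mem_image_of_mem q (mem_Icc.mpr ⟨i1, i2⟩)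
      simp only [ρ'', if_pos this]
    have r2 : ∀ r, (∀ i, 1 ≤ i → i ≤ j → q i ≠ r) → ρ'' r = σ.mir.ρ r := by
      intro r hr
      have : r ∉ (Finset.Icc 1 j).image q := by
        intro hm
        obtain ⟨n, hn, he⟩ := mem_image.mp hm
        rw [mem_Icc] at hn
        exact hr n hn.1 hn.2 he
      simp only [ρ'', if_neg this]
      rfl
    apply σ.mir.ear1 (m := -m - σ.k) (t := 1 - t) (by omega) (by change 1 - t < -m - σ.k + σ.k; omega)
      (q := q) (ξ' := ξ') (ρ' := ρ'')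
    · rw [q0, e1]
    · exact hO'
    · exact hinj
    · exact hst
    · rw [e2]; exact hend
    · exact g1
    · intro r
      by_cases hr : r ∈ (Finset.Icc 1 j).image q
      · simp only [ρ'', if_pos hr]; exact g2 r
      · simp only [ρ'', if_neg hr]; exact T2Ear_sgn_neg (σ.ρ1 r)
    · exact g3
    · exact r2
    · intro i i1 i2
      rw [r1 i i1 i2]; exact g5 i i1 i2
    · intro i i1 i2
      rw [r1 i i1 (by omega)]; exact g6 i i1 i2
    · intro hj
      rw [r1 j hj le_rfl, e2]; exact g7 hj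
    · intro hj
      rw [e1]
      change -σ.ρ (σ.a m) * s (σ.a m) (σ.N (q 1)) * ξ' (σ.N (q 1)) = -1
      rw [← hc1 hj]
      linarith
    · intro hj
      rw [e1, e2]
      change -σ.ρ (σ.a m) * s (σ.a m) (σ.b t) * σ.ξ (σ.b t) = -1
      rw [← hxt hj, ← hc2 hj]
      linarith
  · left
    apply σ.ear1 h1 h2 q0 hO hinj hst hend g1 g2 g3 g4 g5 g6 g7
    · intro hj
      rw [← hc1 hj]; exact hsg
    · intro hj
      rw [← hxt hj, ← hc2 hj]; exact hsg

/-- The form in which the ear rule is used: a walk from `a m` to `b t` in which all rows satisfy `P`. (`simple_path` for the relation `fun u v => σ.step u v ∧ P v`.) -/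
theorem St.ear_walk (h : T2Ctx s x y) (σ : St s x y) {m t : ℤ} (h1 : m + 1 < t) (h2 : t < m + σ.k) {P : A → Prop}
    {r' : A} (hw : ReflTransGen (fun u v => σ.step u v ∧ P v) (σ.a m) r') (hend : s r' (σ.b t) ≠ 0) :
    ∃ R : Finset A, (∀ r ∈ R, P r ∧ ReflTransGen (fun u v => σ.step u v ∧ P v) (σ.a m) r ∧
        ReflTransGen (fun u v => σ.step u v ∧ P v) r r') ∧
      ((∃ σ' : St s x y, σ.Ear σ' m t R) ∨ ∃ σ' : St s x y, σ.mir.Ear σ' (-m - σ.k) (1 - t) R) := by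
  classical
  obtain ⟨j, q, q0, qj, hq, hqi⟩ := simple_path hw
  have fwd : ∀ i, i ≤ j → ReflTransGen (fun u v => σ.step u v ∧ P v) (q 0) (q i) := by
    intro i
    induction i with
    | zero => intro _; exact ReflTransGen.refl
    | succ i ih => intro hi; exact (ih (by omega)).tail (hq i (by omega))
  have bwd : ∀ d, d ≤ j → ReflTransGen (fun u v => σ.step u v ∧ P v) (q (j - d)) (q j) := by
    intro d
    induction d with
    | zero => intro _; rw [Nat.sub_zero]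
    | succ d ih =>
      intro hd
      have h3 := hq (j - (d + 1)) (by omega)
      rw [show j - (d + 1) + 1 = j - d by omega] at h3
      exact (ih (by omega)).head h3
  refine ⟨(Finset.Icc 1 j).image q, ?_, ?_⟩
  · intro r hr
    obtain ⟨n, hn, he⟩ := mem_image.mp hr
    rw [mem_Icc] at hn
    rw [← he]
    refine ⟨?_, ?_, ?_⟩
    · have h3 := hq (n - 1) (by omega)
      rw [show n - 1 + 1 = n by omega] at h3
      exact h3.2
    · rw [← q0]; exact fwd n hn.2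
    · have h3 := bwd (j - n) (by omega)
      rw [show j - (j - n) = n by omega, qj] at h3
      exact h3
  · apply σ.ear h h1 h2 q0
    · intro i i1 i2
      have h3 := hq (i - 1) (by omega)
      rw [show i - 1 + 1 = i by omega] at h3
      exact h3.1.1
    · intro i i' _ i2 _ i4 he
      exact hqi i i' i2 i4 he
    · intro i hi
      exact (hq i hi).1.2
    · rw [qj]; exact hend

end MCC
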