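import Pool.Agent.Lib_MP_cb5629.T2Ind

set_option linter.unusedSectionVars false

namespace MCC

open Finset Relation

variable {A B : Type} [Fintype A] [Fintype B] [DecidableEq A] [DecidableEq B]
variable {s : A → B → ℤ} {x : A} {y : B}

private lemma T2S1_flip {ρ ξ : ℝ} {m : ℝ} (hρ : ρ = 1 ∨ ρ = -1) (hξ : ξ = 1 ∨ ξ = -1)
    (e : ρ * m * ξ = 1) (z : ℝ) : m * z = ρ * (ξ * z) := by
  rcases hρ with h | h <;> rcases hξ with h' | h' <;> subst h <;> subst h'
  · have : m = 1 := by linarith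
    rw [this]; ring
  · have : m = -1 := by linarith
    rw [this]; ring
  · have : m = -1 := by linarith
    rw [this]; ring
  · have : m = 1 := by linarith
    rw [this]; ring

private lemma T2S1_flip' {ρ ξ : ℝ} {m : ℝ} (hρ : ρ = 1 ∨ ρ = -1) (hξ : ξ = 1 ∨ ξ = -1)
    (e : ρ * m * ξ = -1) (z : ℝ) : m * z = -ρ * (ξ * z) := by
  have h := T2S1_flip (ρ := ρ) (ξ := ξ) (m := -m) hρ hξ (by linarith) z
  linarith

/-- the rows of the cycle see opposite signs: `t, t' > 0` -/
lemma St.bal_C (σ : St s x y) (i : ℤ) {z : B → ℝ} (h1 : 0 < σ.ξ (σ.b i) * z (σ.b i))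
    (h2 : 0 < σ.ξ (σ.b (i + 1)) * z (σ.b (i + 1))) {X : Finset B} (hX : σ.b i ∈ X) (hX' : σ.b (i + 1) ∈ X) :
    BalOn s z (σ.a i) X := by
  have e1 := σ.e1 i
  have e2 := σ.e2 i
  have k1 := T2S1_flip (σ.ρ1 (σ.a i)) (σ.ξ1 (σ.b i)) e1 (z (σ.b i))
  have k2 := T2S1_flip' (σ.ρ1 (σ.a i)) (σ.ξ1 (σ.b (i + 1))) e2 (z (σ.b (i + 1)))
  right
  rcases σ.ρ1 (σ.a i) with hr | hr
  · refine ⟨⟨σ.b i, hX, ?_⟩, ⟨σ.b (i + 1), hX', ?_⟩⟩
    · rw [k1, hr, one_mul]; exact h1
    · rw [k2, hr]; linarith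
  · refine ⟨⟨σ.b (i + 1), hX', ?_⟩, ⟨σ.b i, hX, ?_⟩⟩
    · rw [k2, hr]; linarith
    · rw [k1, hr]; linarith

private lemma T2S1_b_not_TU (σ : St s x y) (i : ℤ) : σ.b i ∉ σ.T.U := by
  have h := σ.T.a_not_U (-i)
  have e : σ.T.a (-i) = σ.b i := by
    change σ.b (- -i) = σ.b i
    rw [neg_neg]
  rwa [e] at h

private lemma T2S1_b_ne_y (h : T2Ctx s x y) (σ : St s x y) (i : ℤ) : σ.b i ≠ y := by
  intro e
  have h1 := σ.bx i
  rw [e] at h1
  exact h.xy h1

/-- `a n = a m` implies `b n = b m`, `b (n+1) = b (m+1)` -/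
private lemma T2S1_idx (σ : St s x y) {n m : ℤ} (e : σ.a n = σ.a m) :
    σ.b n = σ.b m ∧ σ.b (n + 1) = σ.b (m + 1) := by
  obtain ⟨j, t, h1, h2, h3⟩ := σ.window m n
  have h4 : σ.a n = σ.a j := by rw [h3, σ.a_add]
  have h5 : m = j := σ.ia m j h1 h2 (e.symm.trans h4)
  subst h5
  constructor
  · rw [h3, σ.b_add]
  · rw [h3, show m + t * σ.k + 1 = (m + 1) + t * σ.k by ring, σ.b_add]

/-- Main step of `s1`: a vector `z` on `insert (b i) (insert (b l) (insert y σ.T.U))` with zero sums in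
the rows of `Z` and positive signed values at `b i`, `b l` cannot exist. -/
private lemma T2S1_main (h : T2Ctx s x y) (σ : St s x y) {i l j : ℤ} (hi : σ.T.Ex (σ.b i))
    (hex : σ.Ex (σ.a j)) {z : B → ℝ}
    (hz : ∀ c, c ∉ insert (σ.b i) (insert (σ.b l) (insert y σ.T.U)) → z c = 0)
    (hr : ∀ r ∈ σ.T.V, vl s r z = 0) (hpi : 0 < σ.ξ (σ.b i) * z (σ.b i))
    (hpl : 0 < σ.ξ (σ.b l) * z (σ.b l)) : False := by
  classical
  obtain ⟨κ, kinj, kadj, kU, kZ, kC, kR⟩ := σ.pm h hi hex
  obtain ⟨ψ, ω, -, -, hω, -, hωU, -, hωx⟩ := σ.sv0 h hi hex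
  set K : Finset B := insert (σ.b i) (insert (σ.b l) (insert y σ.T.U)) with hK
  set z' : B → ℝ := fun c => if c ∈ K then z c else if ∃ n, σ.b n = c then σ.ξ c else
    (-(s x y : ℝ) * z y) * ω c with hz'
  have hKy : y ∈ K := by simp [hK]
  have hKi : σ.b i ∈ K := by simp [hK]
  have hKV : ∀ c ∈ K, c ∉ σ.V := by
    intro c hc
    rw [hK, mem_insert, mem_insert, mem_insert] at hc
    rcases hc with rfl | rfl | rfl | hc
    · exact σ.b_not_V i
    · exact σ.b_not_V l
    · exact σ.y_not_V h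
    · exact σ.f1_TU h hc
  have zK : ∀ c ∈ K, z' c = z c := fun c hc => by simp only [hz', if_pos hc]
  have zV : ∀ c ∈ σ.V, z' c = (-(s x y : ℝ) * z y) * ω c := by
    intro c hc
    have h1 : c ∉ K := fun h1 => hKV c h1 hc
    have h2 : ¬ ∃ n, σ.b n = c := by
      rintro ⟨n, rfl⟩
      exact σ.b_not_V n hc
    simp only [hz', if_neg h1, if_neg h2]
  have zb : ∀ n, 0 < σ.ξ (σ.b n) * z' (σ.b n) := by
    intro n
    by_cases h1 : σ.b n ∈ K
    · rw [zK _ h1]
      rw [hK, mem_insert, mem_insert, mem_insert] at h1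
      rcases h1 with h1 | h1 | h1 | h1
      · rw [h1]; exact hpi
      · rw [h1]; exact hpl
      · exact absurd h1 (T2S1_b_ne_y h σ n)
      · exact absurd h1 (T2S1_b_not_TU σ n)
    · have h2 : ∃ m, σ.b m = σ.b n := ⟨n, rfl⟩
      simp only [hz', if_neg h1, if_pos h2]
      rcases σ.ξ1 (σ.b n) with h3 | h3 <;> rw [h3] <;> norm_num
  set X : A → Finset B := fun r => if r ∈ σ.T.V then K else if r ∈ σ.U then σ.V else
    if r = x then insert y σ.V else
    if hn : ∃ n, σ.a n = r then insert (σ.b (Classical.choose hn)) (insert (σ.b (Classical.choose hn + 1)) σ.V)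
    else {κ r} with hXd
  have hxU := σ.x_not_U h
  have hxT : x ∉ σ.T.V := σ.T.y_not_V h.tr
  have haU : ∀ n, σ.a n ∉ σ.U := σ.a_not_U
  have haT : ∀ n, σ.a n ∉ σ.T.V := by
    intro n
    have h1 := σ.T.b_not_V (-n)
    have e : σ.T.b (-n) = σ.a n := by
      change σ.a (- -n) = σ.a n
      rw [neg_neg]
    rwa [e] at h1
  have hUT : ∀ r ∈ σ.U, r ∉ σ.T.V := fun r h1 h2 => σ.f1_U h h2 h1
  have key : z' = 0 := by
    refine spl_use h kinj kadj X ?_ z' ?_
    · intro r
      simp only [hXd]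
      split_ifs with h1 h2 h3 h4
      · have h5 := kZ r h1
        rw [mem_insert, mem_insert] at h5
        rw [hK, mem_insert, mem_insert, mem_insert]
        tauto
      · exact kU r (by simp [h2])
      · exact mem_insert_of_mem (kU r (by simp [h3]))
      · have h5 := Classical.choose_spec h4
        by_cases h6 : σ.a (Classical.choose h4) = σ.a j
        · have h7 := kU r (by rw [← h5, h6]; simp)
          exact mem_insert_of_mem (mem_insert_of_mem h7)
        · have h7 := kC _ h6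
          rw [h5] at h7
          rw [mem_insert, mem_insert]
          tauto
      · exact mem_singleton_self _
    · intro r
      simp only [hXd]
      split_ifs with h1 h2 h3 h4
      · refine balOn_of_sum ?_
        have h5 := hr r h1
        unfold vl at h5
        rw [← h5, ← Finset.sum_subset (Finset.subset_univ K)]
        · exact Finset.sum_congr rfl fun c hc => by rw [zK c hc]
        · intro c _ hc
          rw [hz c hc, mul_zero]
      · refine balOn_of_sum ?_
        have h5 := hωU r h2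
        unfold vl at h5
        have h6 : ∑ c ∈ σ.V, (s r c : ℝ) * z' c = (-(s x y : ℝ) * z y) * ∑ c, (s r c : ℝ) * ω c := by
          rw [← Finset.sum_subset (Finset.subset_univ σ.V) (fun c _ hc => by rw [hω c hc, mul_zero]),
            Finset.mul_sum]
          exact Finset.sum_congr rfl fun c hc => by rw [zV c hc]; ring
        rw [h6, h5, mul_zero]
      · subst h3
        refine balOn_of_sum ?_
        rw [Finset.sum_insert (σ.y_not_V h)]
        have h5 := hωx
        unfold vl at h5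
        have h6 : ∑ c ∈ σ.V, (s r c : ℝ) * z' c = (-(s r y : ℝ) * z y) * ∑ c, (s r c : ℝ) * ω c := by
          rw [← Finset.sum_subset (Finset.subset_univ σ.V) (fun c _ hc => by rw [hω c hc, mul_zero]),
            Finset.mul_sum]
          exact Finset.sum_congr rfl fun c hc => by rw [zV c hc]; ring
        rw [h6, h5, zK y hKy]
        ring
      · have h5 := Classical.choose_spec h4
        have h6 := σ.bal_C (Classical.choose h4) (z := z') (zb _) (zb _)
          (X := insert (σ.b (Classical.choose h4)) (insert (σ.b (Classical.choose h4 + 1)) σ.V))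
          (mem_insert_self _ _) (mem_insert_of_mem (mem_insert_self _ _))
        rwa [h5] at h6
      · have hO : σ.O r := by
          refine ⟨?_, fun n hn => h4 ⟨n, hn⟩⟩
          by_contra h5
          refine h1 (σ.T.mem_V.2 (Or.inr ?_))
          rw [mem_snk]
          exact ⟨h3, h5⟩
        have h5 := kR r hO h2 h1
        obtain ⟨g1, -, g3⟩ := σ.N_O hO
        have g4 := σ.TO_iff.1 g1
        rw [h5]
        refine balOn_single ?_
        have hNK : σ.N r ∉ K := by
          intro hc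
          rw [hK, mem_insert, mem_insert, mem_insert] at hc
          rcases hc with hc | hc | hc | hc
          · exact g4.2 i hc.symm
          · exact g4.2 l hc.symm
          · have h6 := g4.1
            rw [hc] at h6
            exact h.xy h6
          · exact h1 (σ.T.mem_V.2 (Or.inl ⟨σ.N r, hc, g3⟩))
        have hNb : ¬ ∃ n, σ.b n = σ.N r := fun ⟨n, hn⟩ => g4.2 n hn
        have hNV : σ.N r ∉ σ.V := by
          intro hc
          rcases σ.mem_V.1 hc with ⟨r', hr', e⟩ | hc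
          · have h6 := σ.N_O (σ.mem_U.1 hr').1
            have h7 : r' = r := by
              rw [← h6.2.2, e, g3]
            rw [h7] at hr'
            exact h2 hr'
          · exact (mem_snk.1 hc).2 g4.1
        simp only [hz', if_neg hNK, if_neg hNb, hω _ hNV, mul_zero]
  have h1 : z' (σ.b i) = 0 := by rw [key]; rfl
  have h2 := zb i
  rw [h1, mul_zero] at h2
  exact lt_irrefl _ h2

/-- Piece T2S1. The values `ξ (b i) * φ (b i)` (`φ (c) = vl (tr s) c φ`) have one sign for all entries.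

Proof. Suppose the product is negative; then `b i ≠ b l` and both values are `≠ 0`. `la_exists` for the rows `σ.T.V` (`|σ.T.U| + 2`) and the columns
`insert (b i) (insert (b l) (insert y σ.T.U))` (`|σ.T.U| + 3`): `z ≠ 0`. `vl_pair`: `0 = z (b i) φ(b i) + z (b l) φ(b l)` (`φ` kills `σ.T.U` and `y`). If
`z (b i) = 0` then `z (b l) = 0` and `z = 0` by `indr`. So both are nonzero and `ξ(b i) z(b i)`, `ξ(b l) z(b l)` have the same sign; replace `z` by `-z` if
necessary: both positive. Let `ψ, ω` be the vectors of `sv0` and define `z'`: `z` on `insert (b i) (insert (b l) (insert y σ.T.U))`, `σ.ξ` on the other columns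
`b n`, `- s x y * z y * ω` on `σ.V` (`s x y ^ 2 = 1`), `0` elsewhere (these sets are disjoint). `spl_use` for the matching `κ` of `pm` (entry `b i`, exit `a j`):
`X r = insert (b i) (insert (b l) (insert y σ.T.U))` for `r ∈ σ.T.V` (zero sum); `X r = σ.V` for `r ∈ σ.U` (zero sum); `X x = insert y σ.V` (sum
`s x y * z y + (- s x y * z y) = 0`); `X (a n) = insert (b n) (insert (b (n+1)) σ.V)` (`bal_C`); `X r = {κ r} = {σ.N r}` for the remaining rows (`z' = 0`
there). So `z' = 0`, but `z (b i) ≠ 0`. -/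
theorem St.s1 (h : T2Ctx s x y) (σ : St s x y) {φ : A → ℝ} (hφ : ∀ r, r ∉ σ.T.V → φ r = 0)
    (hu : ∀ c ∈ σ.T.U, vl (tr s) c φ = 0) (hy : vl (tr s) y φ = 0) {i l j : ℤ} (hi : σ.T.Ex (σ.b i))
    (hl : σ.T.Ex (σ.b l)) (hex : σ.Ex (σ.a j)) :
    0 ≤ (σ.ξ (σ.b i) * vl (tr s) (σ.b i) φ) * (σ.ξ (σ.b l) * vl (tr s) (σ.b l) φ) := by
  classical
  by_contra hneg
  push Not at hneg
  have hbl : σ.b i ≠ σ.b l := by
    intro e
    rw [← e] at hneg
    exact absurd (mul_self_nonneg _) (not_le.2 hneg)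
  have hiy := T2S1_b_ne_y h σ i
  have hly := T2S1_b_ne_y h σ l
  have hiU := T2S1_b_not_TU σ i
  have hlU := T2S1_b_not_TU σ l
  have hyU : y ∉ σ.T.U := σ.T.x_not_U h.tr
  have hcard : (σ.T.V).card < (insert (σ.b i) (insert (σ.b l) (insert y σ.T.U))).card := by
    rw [card_insert_of_notMem, card_insert_of_notMem, card_insert_of_notMem hyU, σ.T.card_V h.tr]
    · omega
    · rw [mem_insert]; tauto
    · rw [mem_insert, mem_insert]; tauto
  obtain ⟨z, hz0, hzK, hzr⟩ := la_exists s σ.T.V _ hcard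
  have hpair := vl_pair s φ z
  have hL : ∑ r, φ r * vl s r z = 0 := by
    refine Finset.sum_eq_zero fun r _ => ?_
    by_cases hr : r ∈ σ.T.V
    · rw [hzr r hr, mul_zero]
    · rw [hφ r hr, zero_mul]
  rw [hL] at hpair
  have hR : ∑ c, z c * vl (tr s) c φ = z (σ.b i) * vl (tr s) (σ.b i) φ + z (σ.b l) * vl (tr s) (σ.b l) φ := by
    rw [← Finset.sum_subset (Finset.subset_univ ({σ.b i, σ.b l} : Finset B)), Finset.sum_pair hbl]
    intro c _ hc
    rw [mem_insert, mem_singleton] at hc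
    push Not at hc
    by_cases hcy : c = y
    · rw [hcy, hy, mul_zero]
    · by_cases hcU : c ∈ σ.T.U
      · rw [hu c hcU, mul_zero]
      · rw [hzK c ?_, zero_mul]
        rw [mem_insert, mem_insert, mem_insert]
        tauto
  rw [hR] at hpair
  set pi : ℝ := vl (tr s) (σ.b i) φ with hpi
  set pl : ℝ := vl (tr s) (σ.b l) φ with hpl
  have hpi0 : pi ≠ 0 := by
    intro e
    rw [e] at hneg
    simp at hneg
  have hpl0 : pl ≠ 0 := by
    intro e
    rw [e] at hneg
    simp at hneg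
  have hzi : z (σ.b i) ≠ 0 := by
    intro e
    have e2 : z (σ.b l) = 0 := by
      rw [e, zero_mul, zero_add] at hpair
      rcases mul_eq_zero.1 hpair.symm with h1 | h1
      · exact h1
      · exact absurd h1 hpl0
    refine hz0 (σ.indr h hi hex (z := z) ?_ hzr)
    intro c hc
    by_cases h1 : c = σ.b i
    · rw [h1, e]
    · by_cases h2 : c = σ.b l
      · rw [h2, e2]
      · refine hzK c ?_
        rw [mem_insert, mem_insert]
        tauto
  have hsame : 0 < (σ.ξ (σ.b i) * z (σ.b i)) * (σ.ξ (σ.b l) * z (σ.b l)) := by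
    have e1 : z (σ.b l) * pl = -(z (σ.b i) * pi) := by linarith
    have h1 : 0 < (z (σ.b i) * pi) * (z (σ.b i) * pi) := by
      have h2 : z (σ.b i) * pi ≠ 0 := mul_ne_zero hzi hpi0
      exact mul_self_pos.2 h2
    have h3 : 0 < ((σ.ξ (σ.b i) * z (σ.b i)) * (σ.ξ (σ.b l) * z (σ.b l))) * (pi * pi * (pl * pl)) := by
      have h4 : ((σ.ξ (σ.b i) * z (σ.b i)) * (σ.ξ (σ.b l) * z (σ.b l))) * (pi * pi * (pl * pl)) =
          -((σ.ξ (σ.b i) * pi) * (σ.ξ (σ.b l) * pl)) * ((z (σ.b i) * pi) * -(z (σ.b l) * pl)) := by ring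
      rw [h4, e1, neg_neg]
      exact mul_pos (by linarith) h1
    have h5 : 0 < pi * pi * (pl * pl) := mul_pos (mul_self_pos.2 hpi0) (mul_self_pos.2 hpl0)
    exact (mul_pos_iff_of_pos_right h5).1 h3
  rcases lt_or_ge 0 (σ.ξ (σ.b i) * z (σ.b i)) with hp | hp
  · have hq : 0 < σ.ξ (σ.b l) * z (σ.b l) := (pos_iff_pos_of_mul_pos hsame).1 hp
    exact T2S1_main h σ hi hex hzK hzr hp hq
  · have hp' : σ.ξ (σ.b i) * z (σ.b i) < 0 := by
      rcases lt_or_eq_of_le hp with h1 | h1
      · exact h1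
      · rw [h1, zero_mul] at hsame
        exact absurd hsame (lt_irrefl _)
    have hq : σ.ξ (σ.b l) * z (σ.b l) < 0 := (neg_iff_neg_of_mul_pos hsame).1 hp'
    refine T2S1_main h σ (l := l) (z := fun c => -z c) hi hex ?_ ?_ ?_ ?_
    · intro c hc
      rw [hzK c hc, neg_zero]
    · intro r hr
      have h1 := hzr r hr
      unfold vl at h1 ⊢
      rw [← neg_eq_zero, ← Finset.sum_neg_distrib]
      rw [← h1]
      exact Finset.sum_congr rfl fun c _ => by ring
    · change 0 < σ.ξ (σ.b i) * -z (σ.b i)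
      linarith
    · change 0 < σ.ξ (σ.b l) * -z (σ.b l)
      linarith

/-- Piece T2SV. Existence of the side vectors. Proof. `sv0`; `vl s (a n) ψ ≠ 0` for every exit `a n` by `ind`; `s1` for `σ.T` (`T_T`; `σ.T.ξ = σ.ρ`, `σ.T.b n = σ.a (-n)`)
says that all `ρ (a n) * vl s (a n) ψ` have the same sign; replace `ψ` by `-ψ` if necessary. -/
theorem St.exists_SV (h : T2Ctx s x y) (σ : St s x y) {i j : ℤ} (hen : σ.T.Ex (σ.b i)) (hex : σ.Ex (σ.a j)) :
    ∃ ψ ω : B → ℝ, σ.SV ψ ω := by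
  obtain ⟨ψ, ω, h0, hψ, hω, hψU, hωU, hψx, hωx⟩ := σ.sv0 h hen hex
  have hne : ∀ n, σ.Ex (σ.a n) → vl s (σ.a n) ψ ≠ 0 := by
    intro n hn e
    exact h0 (σ.ind h hen hn hψ hψU hψx e)
  have hsg : ∀ n, σ.Ex (σ.a n) →
      0 ≤ (σ.ρ (σ.a n) * vl s (σ.a n) ψ) * (σ.ρ (σ.a j) * vl s (σ.a j) ψ) := by
    intro n hn
    have eT : ∀ m, σ.T.b (-m) = σ.a m := by
      intro m
      change σ.a (- -m) = σ.a m
      rw [neg_neg]
    have eT' : ∀ m, σ.T.a (-m) = σ.b m := by
      intro m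
      change σ.b (- -m) = σ.b m
      rw [neg_neg]
    have hTT : ∀ (r : A), σ.T.T.Ex r ↔ σ.Ex r := by
      intro r
      rw [σ.T_T]
      exact Iff.rfl
    have h1 := σ.T.s1 h.tr (φ := ψ) (i := -n) (l := -j) (j := -i) ?_ ?_ ?_ ?_ ?_ ?_
    · rw [eT, eT] at h1
      exact h1
    · intro c hc
      refine hψ c ?_
      rw [σ.T_T] at hc
      exact hc
    · intro r hr
      rw [σ.T_T] at hr
      exact hψU r hr
    · exact hψx
    · rw [eT]
      exact (hTT _).2 hn
    · rw [eT]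
      exact (hTT _).2 hex
    · rw [eT']
      exact hen
  have hρ : ∀ n, σ.ρ (σ.a n) ≠ 0 := by
    intro n e
    rcases σ.ρ1 (σ.a n) with h1 | h1 <;> rw [e] at h1 <;> norm_num at h1
  have hnz : ∀ n, σ.Ex (σ.a n) → σ.ρ (σ.a n) * vl s (σ.a n) ψ ≠ 0 :=
    fun n hn => mul_ne_zero (hρ n) (hne n hn)
  have hpos : ∀ n, σ.Ex (σ.a n) →
      0 < (σ.ρ (σ.a n) * vl s (σ.a n) ψ) * (σ.ρ (σ.a j) * vl s (σ.a j) ψ) := by
    intro n hn
    exact lt_of_le_of_ne (hsg n hn) (mul_ne_zero (hnz n hn) (hnz j hex)).symm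
  rcases lt_or_ge 0 (σ.ρ (σ.a j) * vl s (σ.a j) ψ) with hp | hp
  · refine ⟨ψ, ω, ⟨hψ, hω, hψU, hωU, hψx, hωx, ?_⟩⟩
    intro n hn
    exact (pos_iff_pos_of_mul_pos (hpos n hn)).2 hp
  · have hp' : σ.ρ (σ.a j) * vl s (σ.a j) ψ < 0 := lt_of_le_of_ne hp (hnz j hex)
    have hneg : ∀ r, vl s r (fun c => -ψ c) = -vl s r ψ := by
      intro r
      unfold vl
      rw [← Finset.sum_neg_distrib]
      exact Finset.sum_congr rfl fun c _ => by ring
    refine ⟨fun c => -ψ c, ω, ⟨?_, hω, ?_, hωU, ?_, hωx, ?_⟩⟩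
    · intro c hc
      rw [hψ c hc, neg_zero]
    · intro r hr
      rw [hneg, hψU r hr, neg_zero]
    · rw [hneg, hψx, neg_zero]
    · intro n hn
      have h1 := (neg_iff_neg_of_mul_pos (hpos n hn)).2 hp'
      rw [hneg]
      linarith

end MCC
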