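import Pool.Agent.Lib_MP_cb5629.T2Leg
import Pool.Agent.Lib_MP_cb5629.T2S1

set_option linter.unusedSectionVars false

namespace MCC

open Finset Relation

variable {A B : Type} [Fintype A] [Fintype B] [DecidableEq A] [DecidableEq B]
variable {s : A → B → ℤ} {x : A} {y : B}

private lemma T2Ext_pos (σ : St s x y) {φ lam : A → ℝ} (hφ : σ.T.SV φ lam) {i : ℤ}
    (hi : σ.T.Ex (σ.b i)) : 0 < σ.ξ (σ.b i) * vl (tr s) (σ.b i) φ := by
  have h1 : σ.T.Ex (σ.T.a (-i)) := by
    show σ.T.Ex (σ.b (- -i))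
    rwa [neg_neg]
  have h2 := hφ.pos (-i) h1
  change 0 < σ.ξ (σ.b (- -i)) * vl (tr s) (σ.b (- -i)) φ at h2
  rwa [neg_neg] at h2

private lemma T2Ext_b_not (σ : St s x y) (i : ℤ) : σ.b i ∉ σ.T.U := by
  have h1 := σ.T.a_not_U (-i)
  change σ.b (- -i) ∉ σ.T.U at h1
  rwa [neg_neg] at h1

/-- If `b i` is not reached from the source `r0`, then `μ = lam - del i * φ` vanishes outside `Rc r0`. Proof. `μ` vanishes outside `σ.T.V`; let `R2 = σ.T.V \ Rc r0`,
`μ2 r = μ r` for `r ∈ R2`, `0` otherwise. For `c ∈ σ.T.U \ Kc r0` and for `c = b i`: no row of `Rc r0` is adjacent to `c` (`Rc_adj`, `hni`), so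
`vl (tr s) c μ2 = vl (tr s) c μ = 0` (`u1, u2`; `lam(b i) = del i * φ(b i)`). `spl_use` for `tr s` with the matching `κ' : B → A` of `St.pm` for `σ.T` (its exit is
`b i`, its entry `a j`, `T_T`): `X c = R2` for `c ∈ insert (b i) (σ.T.U \ Kc r0)` (`κ' c ∈ σ.T.V` is adjacent to `c`, so it is in `R2`), `X c = {κ' c}` otherwise; by
`|R2| = |σ.T.U \ Kc r0| + 1` the map `κ'` sends these columns onto `R2`, so `μ2 (κ' c) = 0` for the others. -/
theorem St.ext1 (h : T2Ctx s x y) (σ : St s x y) {φ lam : A → ℝ} (hφ : σ.T.SV φ lam) {r0 : A}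
    (hr0 : r0 ∈ snk (tr s) y x) {i j : ℤ} (hi : σ.T.Ex (σ.b i)) (hj : σ.Ex (σ.a j)) (hni : ¬ σ.W r0 (σ.b i)) {r : A}
    (hr : r ∉ σ.Rc r0) : lam r - σ.del φ lam i * φ r = 0 := by
  classical
  have hpos := T2Ext_pos σ hφ hi
  have hne : vl (tr s) (σ.b i) φ ≠ 0 := fun h0 => by
    rw [h0, mul_zero] at hpos
    exact lt_irrefl _ hpos
  obtain ⟨d, hd⟩ : ∃ d, d = σ.del φ lam i := ⟨_, rfl⟩
  rw [← hd]
  let μ : A → ℝ := fun r => 1 * lam r + (-d) * φ r
  have hμU : ∀ c ∈ σ.T.U, vl (tr s) c μ = 0 := by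
    intro c hc
    show vl (tr s) c (fun r => 1 * lam r + (-d) * φ r) = 0
    rw [vl_lin, hφ.u2 c hc, hφ.u1 c hc]
    ring
  have hμb : vl (tr s) (σ.b i) μ = 0 := by
    show vl (tr s) (σ.b i) (fun r => 1 * lam r + (-d) * φ r) = 0
    rw [vl_lin, hd]
    unfold St.del gam
    field_simp
    ring
  have hμ0 : ∀ a, a ∉ σ.T.V → μ a = 0 := by
    intro a ha
    show 1 * lam a + (-d) * φ a = 0
    rw [hφ.z1 a ha, hφ.z2 a ha]
    ring
  obtain ⟨κ, hκi, hκe, hκV, -, -, -⟩ := St.pm h.tr σ.T (i := -j) (j := -i)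
    (by
      rw [σ.T_T]
      show σ.Ex (σ.a (- -j))
      rwa [neg_neg])
    (by
      show σ.T.Ex (σ.b (- -i))
      rwa [neg_neg])
  have hTa : σ.T.a (-i) = σ.b i := by
    show σ.b (- -i) = σ.b i
    rw [neg_neg]
  rw [hTa] at hκV
  obtain ⟨R2, hR2⟩ : ∃ R2, R2 = σ.T.V \ σ.Rc r0 := ⟨_, rfl⟩
  obtain ⟨S, hS⟩ : ∃ S, S = insert (σ.b i) (σ.T.U \ σ.Kc r0) := ⟨_, rfl⟩
  let μ2 : A → ℝ := fun a => if a ∈ R2 then μ a else 0
  have hSadj : ∀ c ∈ S, ∀ a ∈ σ.Rc r0, s a c = 0 := by
    intro c hc a ha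
    by_contra hne2
    rw [hS] at hc
    rcases mem_insert.1 hc with rfl | hc'
    · exact hni ⟨a, σ.mem_Rc.1 ha, hne2⟩
    · obtain ⟨h1, h2⟩ := mem_sdiff.1 hc'
      exact h2 (σ.Rc_adj h hr0 ha h1 hne2)
  have hSκ : ∀ c ∈ S, κ c ∈ R2 := by
    intro c hc
    rw [hR2, mem_sdiff]
    refine ⟨?_, fun hcon => ?_⟩
    · apply hκV
      rw [hS] at hc
      rcases mem_insert.1 hc with h1 | h1
      · rw [h1]; exact mem_insert_self _ _
      · exact mem_insert_of_mem (mem_insert_of_mem (mem_sdiff.1 h1).1)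
    · exact hκe c (hSadj c hc (κ c) hcon)
  have hcard : R2.card = S.card := by
    have h1 : σ.T.V.card = σ.T.U.card + 2 := St.card_V h.tr σ.T
    have h2 := σ.card_Rc h hr0
    have h3 : R2.card = σ.T.V.card - (σ.Rc r0).card := by
      rw [hR2]; exact card_sdiff_of_subset (σ.Rc_sub hr0)
    have h4 : S.card = (σ.T.U \ σ.Kc r0).card + 1 := by
      rw [hS]
      exact card_insert_of_notMem fun h5 => T2Ext_b_not σ i (mem_sdiff.1 h5).1
    have h5 : (σ.T.U \ σ.Kc r0).card = σ.T.U.card - (σ.Kc r0).card :=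
      card_sdiff_of_subset (σ.Kc_sub h hr0)
    have h6 : (σ.Kc r0).card ≤ σ.T.U.card := card_le_card (σ.Kc_sub h hr0)
    omega
  have himg : S.image κ = R2 := by
    apply Finset.eq_of_subset_of_card_le
    · intro a ha
      obtain ⟨c, hc, rfl⟩ := mem_image.1 ha
      exact hSκ c hc
    · rw [card_image_of_injective _ hκi, hcard]
  have hoff : ∀ c, c ∉ S → κ c ∉ R2 := by
    intro c hc hcon
    rw [← himg] at hcon
    obtain ⟨c', hc', he⟩ := mem_image.1 hcon
    rw [hκi he] at hc'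
    exact hc hc'
  have hvl : ∀ c ∈ S, vl (tr s) c μ2 = 0 := by
    intro c hc
    have h1 : vl (tr s) c μ2 = vl (tr s) c μ := by
      unfold vl
      apply Finset.sum_congr rfl
      intro a _
      by_cases ha : a ∈ R2
      · have : μ2 a = μ a := if_pos ha
        rw [this]
      · have h2 : μ2 a = 0 := if_neg ha
        rw [h2, mul_zero]
        by_cases hRc : a ∈ σ.Rc r0
        · have h3 := hSadj c hc a hRc
          rw [tr_apply, h3]
          simp
        · have h4 : a ∉ σ.T.V := fun h5 => ha (by rw [hR2]; exact mem_sdiff.2 ⟨h5, hRc⟩)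
          rw [hμ0 a h4, mul_zero]
    rw [h1]
    rw [hS] at hc
    rcases mem_insert.1 hc with rfl | hc'
    · exact hμb
    · exact hμU c (mem_sdiff.1 hc').1
  have hz : μ2 = 0 := by
    refine spl_use h.tr hκi hκe (fun c => if c ∈ S then R2 else {κ c}) ?_ μ2 ?_
    · intro c
      by_cases hc : c ∈ S
      · simp only [if_pos hc]
        exact hSκ c hc
      · simp only [if_neg hc, mem_singleton]
    · intro c
      by_cases hc : c ∈ S
      · simp only [if_pos hc]
        exact balOn_of_vl (hvl c hc) fun a ha => if_neg ha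
      · simp only [if_neg hc]
        exact balOn_single (if_neg (hoff c hc))
  have hfin : μ r = 0 := by
    by_cases hrV : r ∈ σ.T.V
    · have h1 : r ∈ R2 := by rw [hR2]; exact mem_sdiff.2 ⟨hrV, hr⟩
      have h2 := congrFun hz r
      have h3 : μ2 r = μ r := if_pos h1
      rw [h3] at h2
      exact h2
    · exact hμ0 r hrV
  have : 1 * lam r + (-d) * φ r = 0 := hfin
  linarith

/-- Piece T2EXT. Entries that are not reached from one of the sources are extreme.

Proof. Suppose the product is negative, so `b l ≠ b m`. `μ = lam - del i * φ`; `vl (tr s) (b l) μ = φ(b l) (del l - del i)`, `vl (tr s) (b m) μ = φ(b m) (del m - del i)`;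
as `0 < ξ φ` at both (`SV.pos`), `ξ(b l) μ(b l)` and `ξ(b m) μ(b m)` have opposite signs. `la_exists` for the rows `Rc r0` and the columns
`insert (b l) (insert (b m) (Kc r0))` (`card_Rc`): `z ≠ 0`. `vl_pair` with `μ` (it lives on `Rc r0` by `ext1` and kills `σ.T.U ⊇ Kc r0`): `z(b l) μ(b l) + z(b m) μ(b m) = 0`. Let
`κ` be the matching of `pm_leg`. If `z(b l) = 0` then `z(b m) = 0`, and `spl_use` with `X r = insert (b l) (Kc r0)` for `r ∈ Rc r0`, `X r = {κ r}` otherwise (`κ` maps `Rc r0` onto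
`insert (b l) (Kc r0)`) gives `z = 0`: contradiction. So both are nonzero, `ξ z` has the same sign at `b l` and `b m`; change the sign of `z`: both positive. `z'`: `z` on
`insert (b l) (insert (b m) (Kc r0))`, `ξ` on the other `b n`, `0` elsewhere (in particular on `V`, at `y`, on `σ.T.U \ Kc r0`). `spl_use`: `r ∈ Rc r0`:
`X = insert (b l) (insert (b m) (Kc r0))`, zero sum; the other source: `{y}`; the other rows of `Z`: `{σ.N r}`, `σ.N r ∉ Kc r0`; `U, x`: `X = V`; `a n`:
`insert (b n) (insert (b (n+1)) V)` (`bal_C`); the rest `{σ.N r}`. So `z' = 0`: contradiction. -/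
theorem St.ext (h : T2Ctx s x y) (σ : St s x y) {φ lam : A → ℝ} (hφ : σ.T.SV φ lam) {r0 : A}
    (hr0 : r0 ∈ snk (tr s) y x) {i l m j : ℤ} (hi : σ.T.Ex (σ.b i)) (hl : σ.T.Ex (σ.b l)) (hm : σ.T.Ex (σ.b m))
    (hj : σ.Ex (σ.a j)) (hni : ¬ σ.W r0 (σ.b i)) (hwl : σ.W r0 (σ.b l)) (hwm : σ.W r0 (σ.b m)) :
    0 ≤ (σ.del φ lam i - σ.del φ lam l) * (σ.del φ lam i - σ.del φ lam m) := by
  classical
  by_contra hcon
  push Not at hcon
  have hlm : σ.b l ≠ σ.b m := by
    intro he
    have h1 : σ.del φ lam l = σ.del φ lam m := by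
      unfold St.del
      rw [he]
    rw [h1] at hcon
    exact absurd hcon (not_lt.2 (mul_self_nonneg _))
  have hPl := T2Ext_pos σ hφ hl
  have hPm := T2Ext_pos σ hφ hm
  have hnel : vl (tr s) (σ.b l) φ ≠ 0 := fun h0 => by
    rw [h0, mul_zero] at hPl
    exact lt_irrefl _ hPl
  have hnem : vl (tr s) (σ.b m) φ ≠ 0 := fun h0 => by
    rw [h0, mul_zero] at hPm
    exact lt_irrefl _ hPm
  obtain ⟨d, hd⟩ : ∃ d, d = σ.del φ lam i := ⟨_, rfl⟩
  obtain ⟨dl, hdl⟩ : ∃ dl, dl = σ.del φ lam l := ⟨_, rfl⟩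
  obtain ⟨dm, hdm⟩ : ∃ dm, dm = σ.del φ lam m := ⟨_, rfl⟩
  rw [← hd, ← hdl, ← hdm] at hcon
  let μ : A → ℝ := fun r => 1 * lam r + (-d) * φ r
  have hμU : ∀ c ∈ σ.T.U, vl (tr s) c μ = 0 := by
    intro c hc
    show vl (tr s) c (fun r => 1 * lam r + (-d) * φ r) = 0
    rw [vl_lin, hφ.u2 c hc, hφ.u1 c hc]
    ring
  have hμ0 : ∀ a, a ∉ σ.Rc r0 → μ a = 0 := by
    intro a ha
    have h1 := σ.ext1 h hφ hr0 hi hj hni ha
    rw [← hd] at h1
    show 1 * lam a + (-d) * φ a = 0
    linarith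
  have hμl : vl (tr s) (σ.b l) μ = vl (tr s) (σ.b l) φ * (dl - d) := by
    show vl (tr s) (σ.b l) (fun r => 1 * lam r + (-d) * φ r) = _
    rw [vl_lin, hdl]
    unfold St.del gam
    field_simp
    ring
  have hμm : vl (tr s) (σ.b m) μ = vl (tr s) (σ.b m) φ * (dm - d) := by
    show vl (tr s) (σ.b m) (fun r => 1 * lam r + (-d) * φ r) = _
    rw [vl_lin, hdm]
    unfold St.del gam
    field_simp
    ring
  have hblK : σ.b l ∉ σ.Kc r0 := fun h1 => T2Ext_b_not σ l (σ.Kc_sub h hr0 h1)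
  have hbmK : σ.b m ∉ σ.Kc r0 := fun h1 => T2Ext_b_not σ m (σ.Kc_sub h hr0 h1)
  have hbm' : σ.b l ∉ insert (σ.b m) (σ.Kc r0) := by
    rw [mem_insert, not_or]
    exact ⟨hlm, hblK⟩
  obtain ⟨K, hK⟩ : ∃ K, K = insert (σ.b l) (insert (σ.b m) (σ.Kc r0)) := ⟨_, rfl⟩
  have hKc : K.card = (σ.Kc r0).card + 2 := by
    rw [hK, card_insert_of_notMem hbm', card_insert_of_notMem hbmK]
  have hRc := σ.card_Rc h hr0
  obtain ⟨z, hz0, hzK, hzR⟩ := la_exists s (σ.Rc r0) K (by omega)
  have hpair : z (σ.b l) * vl (tr s) (σ.b l) μ + z (σ.b m) * vl (tr s) (σ.b m) μ = 0 := by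
    have h1 := vl_pair s μ z
    have h2 : ∑ r, μ r * vl s r z = 0 := by
      apply Finset.sum_eq_zero
      intro r _
      by_cases hr : r ∈ σ.Rc r0
      · rw [hzR r hr, mul_zero]
      · rw [hμ0 r hr, zero_mul]
    have h3 : ∑ c, z c * vl (tr s) c μ = ∑ c ∈ K, z c * vl (tr s) c μ := by
      symm
      apply Finset.sum_subset (subset_univ _)
      intro c _ hc
      rw [hzK c hc, zero_mul]
    have h4 : ∑ c ∈ σ.Kc r0, z c * vl (tr s) c μ = 0 := by
      apply Finset.sum_eq_zero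
      intro c hc
      rw [hμU c (σ.Kc_sub h hr0 hc), mul_zero]
    rw [h2, h3, hK, Finset.sum_insert hbm', Finset.sum_insert hbmK, h4] at h1
    linarith
  rw [hμl, hμm] at hpair
  obtain ⟨κ, hκi, hκe, hκV, hκR, hκy, hκT, hκa, hκO⟩ := σ.pm_leg h hr0 hwl hj
  -- both values of z are nonzero
  have hzl : z (σ.b l) ≠ 0 := by
    intro hzl0
    have hzm0 : z (σ.b m) = 0 := by
      rw [hzl0, zero_mul, zero_add] at hpair
      rcases mul_eq_zero.1 hpair with h1 | h1
      · exact h1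
      · exfalso
        rcases mul_eq_zero.1 h1 with h2 | h2
        · exact hnem h2
        · have h3 : dm = d := by linarith
          rw [h3] at hcon
          simp at hcon
    have hsupp : ∀ c, c ∉ insert (σ.b l) (σ.Kc r0) → z c = 0 := by
      intro c hc
      by_cases hcm : c = σ.b m
      · rw [hcm]; exact hzm0
      · apply hzK
        rw [hK]
        intro hmem
        rcases mem_insert.1 hmem with h1 | h1
        · exact hc (by rw [h1]; exact mem_insert_self _ _)
        · rcases mem_insert.1 h1 with h2 | h2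
          · exact hcm h2
          · exact hc (mem_insert_of_mem h2)
    have himg : (σ.Rc r0).image κ = insert (σ.b l) (σ.Kc r0) := by
      apply Finset.eq_of_subset_of_card_le
      · intro c hc
        obtain ⟨r, hr, rfl⟩ := mem_image.1 hc
        exact hκR r hr
      · rw [card_image_of_injective _ hκi, card_insert_of_notMem hblK, hRc]
    apply hz0
    refine spl_use h hκi hκe (fun r => if r ∈ σ.Rc r0 then insert (σ.b l) (σ.Kc r0) else {κ r}) ?_ z ?_
    · intro r
      by_cases hr : r ∈ σ.Rc r0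
      · simp only [if_pos hr]
        exact hκR r hr
      · simp only [if_neg hr, mem_singleton]
    · intro r
      by_cases hr : r ∈ σ.Rc r0
      · simp only [if_pos hr]
        exact balOn_of_vl (hzR r hr) hsupp
      · simp only [if_neg hr]
        apply balOn_single
        apply hsupp
        rw [← himg]
        intro hmem
        obtain ⟨r', hr', he⟩ := mem_image.1 hmem
        rw [hκi he] at hr'
        exact hr hr'
  -- the signs
  have hsgn : 0 < (σ.ξ (σ.b l) * z (σ.b l)) * (σ.ξ (σ.b m) * z (σ.b m)) := by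
    have hξl : σ.ξ (σ.b l) * σ.ξ (σ.b l) = 1 := by
      rcases σ.ξ1 (σ.b l) with h1 | h1 <;> rw [h1] <;> norm_num
    have hξm : σ.ξ (σ.b m) * σ.ξ (σ.b m) = 1 := by
      rcases σ.ξ1 (σ.b m) with h1 | h1 <;> rw [h1] <;> norm_num
    obtain ⟨P, hP⟩ : ∃ P, P = σ.ξ (σ.b l) * vl (tr s) (σ.b l) φ := ⟨_, rfl⟩
    obtain ⟨Q, hQ⟩ : ∃ Q, Q = σ.ξ (σ.b m) * vl (tr s) (σ.b m) φ := ⟨_, rfl⟩
    obtain ⟨u, hu⟩ : ∃ u, u = σ.ξ (σ.b l) * z (σ.b l) := ⟨_, rfl⟩
    obtain ⟨v, hv⟩ : ∃ v, v = σ.ξ (σ.b m) * z (σ.b m) := ⟨_, rfl⟩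
    have hu0 : u ≠ 0 := by
      rw [hu]
      apply mul_ne_zero _ hzl
      rcases σ.ξ1 (σ.b l) with h1 | h1 <;> rw [h1] <;> norm_num
    rw [← hP] at hPl
    rw [← hQ] at hPm
    rw [← hu, ← hv]
    have e1 : u * P * (dl - d) + v * Q * (dm - d) = 0 := by
      have e2 : u * P = z (σ.b l) * vl (tr s) (σ.b l) φ := by
        rw [hu, hP]
        calc σ.ξ (σ.b l) * z (σ.b l) * (σ.ξ (σ.b l) * vl (tr s) (σ.b l) φ)
            = (σ.ξ (σ.b l) * σ.ξ (σ.b l)) * (z (σ.b l) * vl (tr s) (σ.b l) φ) := by ring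
          _ = _ := by rw [hξl, one_mul]
      have e3 : v * Q = z (σ.b m) * vl (tr s) (σ.b m) φ := by
        rw [hv, hQ]
        calc σ.ξ (σ.b m) * z (σ.b m) * (σ.ξ (σ.b m) * vl (tr s) (σ.b m) φ)
            = (σ.ξ (σ.b m) * σ.ξ (σ.b m)) * (z (σ.b m) * vl (tr s) (σ.b m) φ) := by ring
          _ = _ := by rw [hξm, one_mul]
      rw [e2, e3]
      linarith
    -- multiply by u * (dm - d)
    have hprod : (dl - d) * (dm - d) < 0 := by
      have : (d - dl) * (d - dm) = (dl - d) * (dm - d) := by ring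
      rwa [this] at hcon
    have hdmn : dm - d ≠ 0 := by
      intro h0
      rw [h0, mul_zero] at hprod
      exact lt_irrefl _ hprod
    have e4 : u * v * (Q * ((dm - d) * (dm - d))) = (u * u) * (P * (-((dl - d) * (dm - d)))) := by
      have e5 : v * Q * (dm - d) = -(u * P * (dl - d)) := by linarith
      calc u * v * (Q * ((dm - d) * (dm - d))) = u * (dm - d) * (v * Q * (dm - d)) := by ring
        _ = u * (dm - d) * (-(u * P * (dl - d))) := by rw [e5]
        _ = _ := by ring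
    have h6 : 0 < (u * u) * (P * (-((dl - d) * (dm - d)))) := by
      apply mul_pos (mul_self_pos.2 hu0)
      exact mul_pos hPl (by linarith)
    have h7 : 0 < Q * ((dm - d) * (dm - d)) := mul_pos hPm (mul_self_pos.2 hdmn)
    rw [← e4] at h6
    exact (pos_iff_pos_of_mul_pos h6).2 h7
  -- change of sign
  obtain ⟨z0, hz0K, hz0R, hz0l, hz0m⟩ : ∃ z0 : B → ℝ, (∀ c, c ∉ K → z0 c = 0) ∧
      (∀ r ∈ σ.Rc r0, vl s r z0 = 0) ∧ 0 < σ.ξ (σ.b l) * z0 (σ.b l) ∧
      0 < σ.ξ (σ.b m) * z0 (σ.b m) := by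
    rcases pos_and_pos_or_neg_and_neg_of_mul_pos hsgn with ⟨h1, h2⟩ | ⟨h1, h2⟩
    · exact ⟨z, hzK, hzR, h1, h2⟩
    · refine ⟨fun c => (-1) * z c + 0 * z c, ?_, ?_, ?_, ?_⟩
      · intro c hc
        simp only [hzK c hc]
        ring
      · intro r hr
        rw [vl_lin, hzR r hr]
        ring
      · have : σ.ξ (σ.b l) * ((-1) * z (σ.b l) + 0 * z (σ.b l)) = -(σ.ξ (σ.b l) * z (σ.b l)) := by
          ring
        rw [this]
        linarith
      · have : σ.ξ (σ.b m) * ((-1) * z (σ.b m) + 0 * z (σ.b m)) = -(σ.ξ (σ.b m) * z (σ.b m)) := by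
          ring
        rw [this]
        linarith
  let z' : B → ℝ := fun c => if c ∈ K then z0 c else if ∃ n, σ.b n = c then σ.ξ c else 0
  have hlK : σ.b l ∈ K := by rw [hK]; exact mem_insert_self _ _
  have hKb : ∀ n, σ.b n ∈ K → σ.b n = σ.b l ∨ σ.b n = σ.b m := by
    intro n hn
    rw [hK] at hn
    rcases mem_insert.1 hn with h1 | h1
    · exact Or.inl h1
    · rcases mem_insert.1 h1 with h2 | h2
      · exact Or.inr h2
      · exact absurd (σ.Kc_sub h hr0 h2) (T2Ext_b_not σ n)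
  have hz'b : ∀ n, 0 < σ.ξ (σ.b n) * z' (σ.b n) := by
    intro n
    by_cases hn : σ.b n ∈ K
    · have h1 : z' (σ.b n) = z0 (σ.b n) := if_pos hn
      rw [h1]
      rcases hKb n hn with h2 | h2
      · rw [h2]; exact hz0l
      · rw [h2]; exact hz0m
    · have h1 : z' (σ.b n) = σ.ξ (σ.b n) := by
        show (if σ.b n ∈ K then z0 (σ.b n) else if ∃ n', σ.b n' = σ.b n then σ.ξ (σ.b n) else 0) = _
        rw [if_neg hn, if_pos ⟨n, rfl⟩]
      rw [h1]
      rcases σ.ξ1 (σ.b n) with h2 | h2 <;> rw [h2] <;> norm_num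
  have hz'0 : ∀ c, c ∉ K → (∀ n, σ.b n ≠ c) → z' c = 0 := by
    intro c hc hb
    show (if c ∈ K then z0 c else if ∃ n', σ.b n' = c then σ.ξ c else 0) = 0
    rw [if_neg hc, if_neg]
    rintro ⟨n, hn⟩
    exact hb n hn
  have hKcases : ∀ c, c ∈ K → (∀ n, σ.b n ≠ c) → c ∈ σ.Kc r0 := by
    intro c hc hb
    rw [hK] at hc
    rcases mem_insert.1 hc with h1 | h1
    · exact absurd h1.symm (hb l)
    · rcases mem_insert.1 h1 with h2 | h2
      · exact absurd h2.symm (hb m)
      · exact h2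
  have hbV : ∀ c ∈ σ.V, ∀ n, σ.b n ≠ c := by
    rintro c hc n rfl
    exact σ.b_not_V n hc
  have hz'V : ∀ c ∈ σ.V, z' c = 0 := by
    intro c hc
    apply hz'0 c _ (hbV c hc)
    intro hcK
    exact σ.f1_TU h (σ.Kc_sub h hr0 (hKcases c hcK (hbV c hc))) hc
  -- the partner of an off-cycle row outside `Rc r0`
  have hRO : ∀ r, r ∈ σ.Rc r0 → r ≠ r0 → σ.O r := by
    intro r hr hne
    rcases ReflTransGen.cases_tail (σ.mem_Rc.1 hr) with h1 | ⟨r', -, h2⟩
    · exact absurd h1 hne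
    · exact h2.1
  have hz'N : ∀ r, σ.O r → r ∉ σ.Rc r0 → z' (σ.N r) = 0 := by
    intro r hO hr
    have h1 := σ.N_O hO
    have h2 := σ.TO_iff.1 h1.1
    apply hz'0 _ _ h2.2
    intro hcK
    have h3 := hKcases _ hcK h2.2
    obtain ⟨r', hr', he⟩ := mem_image.1 h3
    have hO' := hRO r' (mem_of_mem_erase hr') (ne_of_mem_erase hr')
    have h4 : r' = r := by
      rw [← (σ.N_O hO').2.2, he, h1.2.2]
    rw [← h4] at hr
    exact hr (mem_of_mem_erase hr')
  have hr0R : r0 ∈ σ.Rc r0 := σ.mem_Rc.2 ReflTransGen.refl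
  have hz'y : z' y = 0 := by
    have h1 : ∀ n, σ.b n ≠ y := by
      intro n hn
      have := σ.bx n
      rw [hn] at this
      exact h.xy this
    apply hz'0 y _ h1
    intro hcK
    have h2 := σ.Kc_sub h hr0 (hKcases y hcK h1)
    exact h.xy (σ.TO_iff.1 (σ.T.mem_U.1 h2).1).1
  -- the sets
  let X : A → Finset B := fun r => if r ∈ σ.Rc r0 then K else if r ∈ insert x σ.U then σ.V
    else if ∃ n, σ.a n = r then (univ.filter fun c => ∃ n, σ.a n = r ∧ (c = σ.b n ∨ c = σ.b (n + 1))) ∪ σ.V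
    else {κ r}
  have hfinal : z' = 0 := by
    refine spl_use h hκi hκe X ?_ z' ?_
    · intro r
      by_cases h1 : r ∈ σ.Rc r0
      · simp only [X, if_pos h1]
        rw [hK]
        rcases mem_insert.1 (hκR r h1) with h2 | h2
        · rw [h2]; exact mem_insert_self _ _
        · exact mem_insert_of_mem (mem_insert_of_mem h2)
      by_cases h2 : r ∈ insert x σ.U
      · simp only [X, if_neg h1, if_pos h2]
        exact hκV r (mem_insert_of_mem h2)
      by_cases h3 : ∃ n, σ.a n = r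
      · simp only [X, if_neg h1, if_neg h2, if_pos h3]
        obtain ⟨n, hn⟩ := h3
        by_cases h4 : σ.a n = σ.a j
        · apply mem_union_right
          apply hκV
          rw [← hn, h4]
          exact mem_insert_self _ _
        · apply mem_union_left
          simp only [mem_filter, mem_univ, true_and]
          refine ⟨n, hn, ?_⟩
          rw [← hn]
          exact hκa n h4
      · simp only [X, if_neg h1, if_neg h2, if_neg h3, mem_singleton]
    · intro r
      by_cases h1 : r ∈ σ.Rc r0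
      · simp only [X, if_pos h1]
        apply balOn_of_sum
        have h2 : ∑ c ∈ K, (s r c : ℝ) * z' c = ∑ c ∈ K, (s r c : ℝ) * z0 c := by
          apply Finset.sum_congr rfl
          intro c hc
          have : z' c = z0 c := if_pos hc
          rw [this]
        have h3 : ∑ c ∈ K, (s r c : ℝ) * z0 c = vl s r z0 := by
          unfold vl
          apply Finset.sum_subset (subset_univ _)
          intro c _ hc
          rw [hz0K c hc, mul_zero]
        rw [h2, h3, hz0R r h1]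
      by_cases h2 : r ∈ insert x σ.U
      · simp only [X, if_neg h1, if_pos h2]
        left
        intro c hc
        rw [hz'V c hc, mul_zero]
      by_cases h3 : ∃ n, σ.a n = r
      · obtain ⟨n, hn⟩ := h3
        have h3' : ∃ n, σ.a n = r := ⟨n, hn⟩
        simp only [X, if_neg h1, if_neg h2, if_pos h3']
        rw [← hn]
        apply σ.bal_C n (hz'b n) (hz'b (n + 1))
        · apply mem_union_left
          simp only [mem_filter, mem_univ, true_and]
          exact ⟨n, rfl, Or.inl rfl⟩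
        · apply mem_union_left
          simp only [mem_filter, mem_univ, true_and]
          exact ⟨n, rfl, Or.inr rfl⟩
      · simp only [X, if_neg h1, if_neg h2, if_neg h3]
        apply balOn_single
        have hrx : r ≠ x := fun he => h2 (by rw [he]; exact mem_insert_self _ _)
        have hrU : r ∉ σ.U := fun he => h2 (mem_insert_of_mem he)
        by_cases hry : s r y = 0
        · have hO : σ.O r := ⟨hry, fun n hn => h3 ⟨n, hn⟩⟩
          have hns : r ∉ snk (tr s) y x := by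
            intro h5
            have h6 := (mem_snk.1 h5).2
            rw [tr_apply] at h6
            exact h6 hry
          have hκN : κ r = σ.N r := by
            by_cases hrV : r ∈ σ.T.V
            · exact hκT r hrV h1 hns
            · exact hκO r hO hrU hrV
          rw [hκN]
          exact hz'N r hO h1
        · have hsr : r ∈ snk (tr s) y x := mem_snk.2 ⟨hrx, by rw [tr_apply]; exact hry⟩
          have hrr : r ≠ r0 := fun he => h1 (by rw [he]; exact hr0R)
          rw [hκy r hsr hrr]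
          exact hz'y
  have h1 := hz'b l
  rw [hfinal] at h1
  simp at h1

end MCC
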