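import Pool.Agent.Lib_MP_cb5629.T2Defs

set_option linter.unusedSectionVars false

namespace MCC

open Finset Relation

variable {A B : Type} [Fintype A] [Fintype B] [DecidableEq A] [DecidableEq B]
variable {s : A → B → ℤ} {x : A} {y : B}

/-! Piece T2SPL: the ways in which SNS is used. -/

/-- zero sum within `X` is balanced -/
lemma balOn_of_sum {z : B → ℝ} {r : A} {X : Finset B} (h : ∑ c ∈ X, (s r c : ℝ) * z c = 0) : BalOn s z r X := by
  by_cases h0 : ∀ c ∈ X, (s r c : ℝ) * z c = 0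
  · exact Or.inl h0
  · right
    push Not at h0
    obtain ⟨c, hc, hne⟩ := h0
    constructor
    · by_contra hcon
      push Not at hcon
      exact hne ((Finset.sum_eq_zero_iff_of_nonpos hcon).1 h c hc)
    · by_contra hcon
      push Not at hcon
      exact hne ((Finset.sum_eq_zero_iff_of_nonneg hcon).1 h c hc)

/-- zero sum, `z` vanishes on the neighbours outside `X` -/
lemma balOn_of_vl {z : B → ℝ} {r : A} {X : Finset B} (h : vl s r z = 0) (hz : ∀ c, c ∉ X → z c = 0) :
    BalOn s z r X := by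
  apply balOn_of_sum
  rw [← h]
  unfold vl
  apply Finset.sum_subset (Finset.subset_univ X)
  intro c _ hc
  rw [hz c hc, mul_zero]

lemma balOn_single {z : B → ℝ} {r : A} {c : B} (h : z c = 0) : BalOn s z r {c} := by
  left
  intro c' hc'
  rw [Finset.mem_singleton.1 hc', h, mul_zero]

/-- `κ` is a perfect matching, row `r` keeps only its edges to `X r ∋ κ r`; then a vector that balances all rows is zero.
Proof. `s' r c := if c ∈ X r then s r c else 0`; `pm_of_inj` gives the perfect matching, `sns_sub` that `s'` is SNS. -/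
theorem spl_use (h : T2Ctx s x y) {κ : A → B} (hκ : Function.Injective κ) (he : ∀ r, s r (κ r) ≠ 0) (X : A → Finset B)
    (hX : ∀ r, κ r ∈ X r) (z : B → ℝ) (hz : ∀ r, BalOn s z r (X r)) : z = 0 := by
  have hsub : ∀ a b, (if b ∈ X a then s a b else 0) = 0 ∨ (if b ∈ X a then s a b else 0) = s a b := by
    intro a b
    split_ifs
    · exact Or.inr rfl
    · exact Or.inl rfl
  have hpm : ∃ σ : A ≃ B, IsPM (fun a b => if b ∈ X a then s a b else 0) σ := by
    obtain ⟨σ, hσ, _⟩ := pm_of_inj (s := fun a b => if b ∈ X a then s a b else 0) h.hc.card_eq κ hκ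
      (fun a => by
        rw [if_pos (hX a)]
        exact he a)
    exact ⟨σ, hσ⟩
  have hs' : SNS (fun a b => if b ∈ X a then s a b else 0) := sns_sub h.hc.val h.hs hsub hpm
  apply hs'
  intro r
  have hval : ∀ b ∈ X r, (((if b ∈ X r then s r b else 0 : ℤ) : ℝ)) * z b = (s r b : ℝ) * z b := by
    intro b hb
    rw [if_pos hb]
  rcases hz r with h1 | ⟨⟨c, hc, h2⟩, c', hc', h3⟩
  · left
    intro b
    change (((if b ∈ X r then s r b else 0 : ℤ) : ℝ)) * z b = 0
    by_cases hb : b ∈ X r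
    · rw [hval b hb]
      exact h1 b hb
    · rw [if_neg hb]
      simp
  · right
    refine ⟨⟨c, ?_⟩, c', ?_⟩
    · change 0 < (((if c ∈ X r then s r c else 0 : ℤ) : ℝ)) * z c
      rw [hval c hc]
      exact h2
    · change (((if c' ∈ X r then s r c' else 0 : ℤ) : ℝ)) * z c' < 0
      rw [hval c' hc']
      exact h3

/-- fewer rows than columns: a nonzero real kernel vector (`LinearMap.ker_ne_bot_of_finrank_lt` for the map
`(K → ℝ) → (R → ℝ)`) -/
theorem la_exists (s : A → B → ℤ) (R : Finset A) (K : Finset B) (h : R.card < K.card) :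
    ∃ z : B → ℝ, z ≠ 0 ∧ (∀ c, c ∉ K → z c = 0) ∧ ∀ r ∈ R, vl s r z = 0 := by
  let M : Matrix R K ℝ := fun r c => (s r.1 c.1 : ℝ)
  have h1 : Module.finrank ℝ (R → ℝ) < Module.finrank ℝ (K → ℝ) := by
    rw [Module.finrank_fintype_fun_eq_card, Module.finrank_fintype_fun_eq_card, Fintype.card_coe, Fintype.card_coe]
    exact h
  have h2 : LinearMap.ker M.mulVecLin ≠ ⊥ := LinearMap.ker_ne_bot_of_finrank_lt h1
  rw [Submodule.ne_bot_iff] at h2
  obtain ⟨w, hw, hw0⟩ := h2
  rw [LinearMap.mem_ker, Matrix.mulVecLin_apply] at hw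
  refine ⟨fun c => if hc : c ∈ K then w ⟨c, hc⟩ else 0, ?_, ?_, ?_⟩
  · intro h3
    apply hw0
    funext c
    have h4 := congrFun h3 c.1
    simp only [c.2, dif_pos, Pi.zero_apply] at h4
    simpa using h4
  · intro c hc
    exact dif_neg hc
  · intro r hr
    have h3 := congrFun hw ⟨r, hr⟩
    change ∑ c : K, (s r c.1 : ℝ) * w c = 0 at h3
    have h5 : ∀ c : K, (fun c => if hc : c ∈ K then w ⟨c, hc⟩ else (0 : ℝ)) c.1 = w c := fun c => dif_pos c.2
    have h6 : ∀ c, c ∉ K → (fun c => if hc : c ∈ K then w ⟨c, hc⟩ else (0 : ℝ)) c = 0 := fun c hc => dif_neg hc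
    unfold vl
    rw [← Finset.sum_subset (Finset.subset_univ K) (by
      intro c _ hc
      rw [h6 c hc, mul_zero]), ← Finset.sum_attach]
    refine Eq.trans ?_ h3
    apply Finset.sum_congr rfl
    intro c _
    rw [h5 c]

/-- double summation -/
lemma vl_pair (s : A → B → ℤ) (u : A → ℝ) (z : B → ℝ) : ∑ r, u r * vl s r z = ∑ c, z c * vl (tr s) c u := by
  unfold vl
  simp only [Finset.mul_sum]
  rw [Finset.sum_comm]
  apply Finset.sum_congr rfl
  intro c _
  apply Finset.sum_congr rfl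
  intro r _
  rw [show (tr s) c r = s r c from rfl]
  ring

lemma vl_lin (s : A → B → ℤ) (r : A) (t τ : ℝ) (z w : B → ℝ) :
    vl s r (fun c => t * z c + τ * w c) = t * vl s r z + τ * vl s r w := by
  unfold vl
  rw [Finset.mul_sum, Finset.mul_sum, ← Finset.sum_add_distrib]
  apply Finset.sum_congr rfl
  intro c _
  ring

/-- the row `r` sees only `c` in the support of `z` -/
lemma vl_single {z : B → ℝ} {r : A} {c : B} (h : ∀ c', c' ≠ c → s r c' ≠ 0 → z c' = 0) :
    vl s r z = (s r c : ℝ) * z c := by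
  unfold vl
  apply Finset.sum_eq_single c
  · intro c' _ hc'
    by_cases h1 : s r c' = 0
    · rw [h1]
      simp
    · rw [h c' hc' h1, mul_zero]
  · intro hc
    exact absurd (Finset.mem_univ c) hc

/-- transposing a matching of `R` onto `K`, `|R| = |K|` (the type of rows has to be nonempty) -/
theorem match_tr [Nonempty A] {R : Finset A} {K : Finset B} (hc : R.card = K.card) {κ : A → B} (hi : Set.InjOn κ R)
    (hm : ∀ r ∈ R, κ r ∈ K ∧ s r (κ r) ≠ 0) :
    ∃ κ' : B → A, Set.InjOn κ' K ∧ (∀ c ∈ K, κ' c ∈ R ∧ tr s c (κ' c) ≠ 0) ∧ ∀ c ∈ K, κ (κ' c) = c := by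
  have h1 : R.image κ = K := by
    apply Finset.eq_of_subset_of_card_le
    · intro c hc'
      obtain ⟨r, hr, rfl⟩ := Finset.mem_image.1 hc'
      exact (hm r hr).1
    · rw [Finset.card_image_of_injOn hi, hc]
  have h2 : ∀ c, ∃ r, c ∈ K → r ∈ R ∧ κ r = c := by
    intro c
    by_cases hcK : c ∈ K
    · rw [← h1] at hcK
      obtain ⟨r, hr, hrc⟩ := Finset.mem_image.1 hcK
      exact ⟨r, fun _ => ⟨hr, hrc⟩⟩
    · exact ⟨Classical.arbitrary A, fun h => absurd h hcK⟩
  choose κ' hκ' using h2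
  refine ⟨κ', ?_, ?_, ?_⟩
  · intro c hcK c' hcK' hcc
    rw [← (hκ' c hcK).2, ← (hκ' c' hcK').2, hcc]
  · intro c hcK
    obtain ⟨h3, h4⟩ := hκ' c hcK
    refine ⟨h3, ?_⟩
    have h5 := (hm _ h3).2
    rw [h4] at h5
    exact h5
  · intro c hcK
    exact (hκ' c hcK).2

end MCC
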