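import Pool.Agent.Lib_MP_cb5629.T2B2
import Pool.Agent.Lib_MP_cb5629.T2Spl

set_option linter.unusedSectionVars false

namespace MCC

open Finset Relation

variable {A B : Type} [Fintype A] [Fintype B] [DecidableEq A] [DecidableEq B]
variable {s : A → B → ℤ} {x : A} {y : B}

/-- Piece T2F1. No sink can be reached from a source off the bad cycle.

Proof. Let `r0` be the source, `c0` a sink with `σ.W r0 c0`, `r0'` the other source, `c0'` the other sink. Let `R` be the set of all rows with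
`σ.O` and `r0`, `K` the set of all columns with `σ.T.O` and `c0`. Hall's theorem `hall_on` gives a matching `κ0` of `R` into `K`: let `S ⊆ R`. If
`r0 ∉ S` then `σ.N` maps `S` injectively to `NA s S ∩ K`. If `r0 ∈ S` then `NA s S ∩ K` contains the `|S| - 1` columns `σ.N r`, `r ∈ S - r0`; if
it contained nothing else, then along the walk from `r0` every row would be in `S` (a step `r → r'`: `σ.N r' ∈ NA s S ∩ K`, so
`r' ∈ S` as `σ.N` is injective on `O`), so the last row is in `S`, and it is adjacent to `c0 ∈ K`, which is not of the form `σ.N r`.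
Now `κ`: `r0' ↦ y`, `x ↦ c0'`, `a i ↦ b i` (well defined), `κ0` on `R`. These are all rows (`y` has exactly the neighbours `x, r0, r0'`), `κ` is injective
and consists of edges. Apply `spl_use` with `X (a i) = {b i, b (i+1)}`, `X r = {κ r}` for the other rows and `z c = σ.ξ c` if `c = b i` for some `i`, `0`
otherwise: row `a i` sees `ρ` and `-ρ` (`e1`, `e2`, `ρ = ±1`), the other rows see `0`. But `z (b 0) = ± 1`. -/
theorem St.f1 (h : T2Ctx s x y) (σ : St s x y) {r : A} (hr : r ∈ snk (tr s) y x) : ¬ σ.Ex r := by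
  classical
  rintro ⟨c0, hc0, r1, hw, hr1⟩
  -- the other sink and the other source
  obtain ⟨c0', hc0', hcne⟩ : ∃ c0' ∈ snk s x y, c0' ≠ c0 := by
    have h2 := card_snk h
    have h3 : 0 < ((snk s x y).erase c0).card := by
      rw [card_erase_of_mem hc0, h2]
      norm_num
    obtain ⟨c, hc⟩ := card_pos.1 h3
    exact ⟨c, mem_of_mem_erase hc, ne_of_mem_erase hc⟩
  obtain ⟨r0', hr0', hrne, hsnk⟩ : ∃ r0' ∈ snk (tr s) y x, r0' ≠ r ∧
      ∀ a ∈ snk (tr s) y x, a = r ∨ a = r0' := by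
    have h2 := card_snk h.tr
    have h3 : ((snk (tr s) y x).erase r).card = 1 := by
      rw [card_erase_of_mem hr, h2]
    obtain ⟨a, ha⟩ := card_eq_one.1 h3
    have ha' : a ∈ (snk (tr s) y x).erase r := by rw [ha]; exact mem_singleton_self a
    refine ⟨a, mem_of_mem_erase ha', ne_of_mem_erase ha', fun a' ha1 => ?_⟩
    by_cases h4 : a' = r
    · exact Or.inl h4
    · right
      have h5 : a' ∈ (snk (tr s) y x).erase r := mem_erase.2 ⟨h4, ha1⟩
      rw [ha] at h5
      exact mem_singleton.1 h5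
  have src : ∀ {a : A}, a ∈ snk (tr s) y x → a ≠ x ∧ s a y ≠ 0 := by
    intro a ha
    have h1 := mem_snk.1 ha
    rw [tr_apply] at h1
    exact h1
  have hc0m := mem_snk.1 hc0
  have hc0m' := mem_snk.1 hc0'
  have hrm := src hr
  have hrm' := src hr0'
  have hrO : ¬ σ.O r := fun h1 => hrm.2 h1.1
  -- rows and columns for the matching
  let R : Finset A := univ.filter fun a => σ.O a ∨ a = r
  let K : Finset B := univ.filter fun c => σ.T.O c ∨ c = c0
  have mR : ∀ {a : A}, a ∈ R ↔ σ.O a ∨ a = r := by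
    intro a
    simp only [R, mem_filter, mem_univ, true_and]
  have mK : ∀ {c : B}, c ∈ K ↔ σ.T.O c ∨ c = c0 := by
    intro c
    simp only [K, mem_filter, mem_univ, true_and]
  have Ninj : ∀ {a a' : A}, σ.O a → σ.O a' → σ.N a = σ.N a' → a = a' := by
    intro a a' ha ha' hE
    rw [← (σ.N_O ha).2.2, ← (σ.N_O ha').2.2, hE]
  haveI : Nonempty B := ⟨y⟩
  obtain ⟨κ0, hκi, hκm⟩ := hall_on (s := s) R K (by
    intro S hS
    have himg : ((S.erase r).image σ.N) ⊆ NA s S ∩ K := by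
      intro c hc
      rw [mem_image] at hc
      obtain ⟨a, ha, rfl⟩ := hc
      have haS := mem_of_mem_erase ha
      have haO : σ.O a := (mR.1 (hS haS)).resolve_right (ne_of_mem_erase ha)
      have h1 := σ.N_O haO
      exact mem_inter.2 ⟨mem_NA.2 ⟨a, haS, h1.2.1⟩, mK.2 (Or.inl h1.1)⟩
    have hcard : ((S.erase r).image σ.N).card = (S.erase r).card := by
      apply card_image_of_injOn
      intro a ha a' ha' hE
      rw [mem_coe] at ha ha'
      exact Ninj ((mR.1 (hS (mem_of_mem_erase ha))).resolve_right (ne_of_mem_erase ha))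
        ((mR.1 (hS (mem_of_mem_erase ha'))).resolve_right (ne_of_mem_erase ha')) hE
    have hle := card_le_card himg
    rw [hcard] at hle
    by_cases hrS : r ∈ S
    · by_contra hcon
      rw [not_le] at hcon
      rw [card_erase_of_mem hrS] at hle hcard
      have heq : (S.erase r).image σ.N = NA s S ∩ K := by
        apply Finset.eq_of_subset_of_card_le himg
        rw [hcard]
        omega
      have hreach : ∀ a, ReflTransGen σ.step r a → a ∈ S := by
        intro a ha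
        induction ha with
        | refl => exact hrS
        | @tail a1 a2 _ hst ih =>
          have h1 : σ.N a2 ∈ NA s S ∩ K :=
            mem_inter.2 ⟨mem_NA.2 ⟨a1, ih, hst.2⟩, mK.2 (Or.inl (σ.N_O hst.1).1)⟩
          rw [← heq, mem_image] at h1
          obtain ⟨a3, ha3, hE⟩ := h1
          have hO3 : σ.O a3 :=
            (mR.1 (hS (mem_of_mem_erase ha3))).resolve_right (ne_of_mem_erase ha3)
          rw [← Ninj hO3 hst.1 hE]
          exact mem_of_mem_erase ha3
      have h2 : c0 ∈ NA s S ∩ K :=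
        mem_inter.2 ⟨mem_NA.2 ⟨r1, hreach r1 hw, hr1⟩, mK.2 (Or.inr rfl)⟩
      rw [← heq, mem_image] at h2
      obtain ⟨a3, ha3, hE⟩ := h2
      have hO3 : σ.O a3 :=
        (mR.1 (hS (mem_of_mem_erase ha3))).resolve_right (ne_of_mem_erase ha3)
      have h3 := σ.TO_iff.1 (σ.N_O hO3).1
      rw [hE] at h3
      exact hc0m.2 h3.1
    · rwa [erase_eq_of_notMem hrS] at hle)
  -- columns and rows of the cycle
  have hab : ∀ i j, σ.b i = σ.b j → σ.a i = σ.a j := by
    intro i j hE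
    obtain ⟨i0, n, hi1, hi2, rfl⟩ := σ.window 0 i
    obtain ⟨j0, m, hj1, hj2, rfl⟩ := σ.window 0 j
    rw [σ.b_add, σ.b_add] at hE
    have h1 : i0 = j0 := by
      rcases le_total i0 j0 with hle | hle
      · exact σ.ib i0 j0 hle (by omega) hE
      · exact (σ.ib j0 i0 hle (by omega) hE.symm).symm
    rw [σ.a_add, σ.a_add, h1]
  have hκK : ∀ {a : A}, a ∈ R → (∀ i, σ.b i ≠ κ0 a) ∧ κ0 a ≠ y ∧ κ0 a ≠ c0' := by
    intro a ha
    rcases mK.1 (hκm a ha).1 with h1 | h1
    · have h2 := σ.TO_iff.1 h1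
      refine ⟨h2.2, fun hE => h.xy ?_, fun hE => hc0m'.2 ?_⟩
      · rw [← hE]; exact h2.1
      · rw [← hE]; exact h2.1
    · refine ⟨fun i hE => hc0m.2 ?_, ?_, ?_⟩
      · rw [← h1, ← hE]; exact σ.bx i
      · rw [h1]; exact hc0m.1
      · rw [h1]; exact hcne.symm
  let κ : A → B := fun a => if a = r0' then y else if a = x then c0' else
    if ha : ∃ i, σ.a i = a then σ.b ha.choose else κ0 a
  -- the four kinds of rows
  have kind : ∀ a, (a = r0' ∧ κ a = y) ∨ (a = x ∧ κ a = c0') ∨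
      (∃ i, σ.a i = a ∧ κ a = σ.b i) ∨ (a ∈ R ∧ (∀ i, σ.a i ≠ a) ∧ κ a = κ0 a) := by
    intro a
    by_cases h1 : a = r0'
    · left
      refine ⟨h1, ?_⟩
      simp only [κ, if_pos h1]
    by_cases h2 : a = x
    · right; left
      refine ⟨h2, ?_⟩
      simp only [κ, if_neg h1, if_pos h2]
    by_cases h3 : ∃ i, σ.a i = a
    · right; right; left
      refine ⟨h3.choose, h3.choose_spec, ?_⟩
      simp only [κ, if_neg h1, if_neg h2, dif_pos h3]
    · right; right; right
      refine ⟨?_, fun i hi => h3 ⟨i, hi⟩, ?_⟩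
      · by_cases h4 : s a y = 0
        · exact mR.2 (Or.inl ⟨h4, fun i hi => h3 ⟨i, hi⟩⟩)
        · have h5 : a ∈ snk (tr s) y x := mem_snk.2 ⟨h2, by rw [tr_apply]; exact h4⟩
          exact mR.2 (Or.inr ((hsnk a h5).resolve_right h1))
      · simp only [κ, if_neg h1, if_neg h2, dif_neg h3]
  have hinj : Function.Injective κ := by
    intro a a' hE
    rcases kind a with ⟨h1, h2⟩ | ⟨h1, h2⟩ | ⟨i, h1, h2⟩ | ⟨h1, h1', h2⟩ <;>
    rcases kind a' with ⟨g1, g2⟩ | ⟨g1, g2⟩ | ⟨j, g1, g2⟩ | ⟨g1, g1', g2⟩ <;>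
    rw [h2, g2] at hE
    · rw [h1, g1]
    · exact absurd hE.symm hc0m'.1
    · exact absurd (by rw [hE]; exact σ.bx j) h.xy
    · exact absurd hE.symm (hκK g1).2.1
    · exact absurd hE hc0m'.1
    · rw [h1, g1]
    · exact absurd (by rw [hE]; exact σ.bx j) hc0m'.2
    · exact absurd hE.symm (hκK g1).2.2
    · exact absurd (by rw [← hE]; exact σ.bx i) h.xy
    · exact absurd (by rw [← hE]; exact σ.bx i) hc0m'.2
    · rw [← h1, ← g1]
      exact hab i j hE
    · exact absurd hE ((hκK g1).1 i)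
    · exact absurd hE (hκK h1).2.1
    · exact absurd hE (hκK h1).2.2
    · exact absurd hE.symm ((hκK h1).1 j)
    · exact hκi h1 g1 hE
  have hedge : ∀ a, s a (κ a) ≠ 0 := by
    intro a
    rcases kind a with ⟨h1, h2⟩ | ⟨h1, h2⟩ | ⟨i, h1, h2⟩ | ⟨h1, h1', h2⟩
    · rw [h1] at h2 ⊢
      rw [h2]
      exact hrm'.2
    · rw [h1] at h2 ⊢
      rw [h2]
      exact hc0m'.2
    · rw [h2, ← h1]
      exact σ.s_ab i
    · rw [h2]
      exact (hκm a h1).2
  let X : A → Finset B := fun a => if ∃ i, σ.a i = a then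
    univ.filter fun c => ∃ i, σ.a i = a ∧ (c = σ.b i ∨ c = σ.b (i + 1)) else {κ a}
  let z : B → ℝ := fun c => if ∃ i, σ.b i = c then σ.ξ c else 0
  have zb : ∀ i, z (σ.b i) = σ.ξ (σ.b i) := fun i => if_pos ⟨i, rfl⟩
  have hz : z = 0 := by
    refine spl_use h hinj hedge X ?_ z ?_
    · intro a
      by_cases h3 : ∃ i, σ.a i = a
      · simp only [X, if_pos h3, mem_filter, mem_univ, true_and]
        rcases kind a with ⟨h1, h2⟩ | ⟨h1, h2⟩ | ⟨i, h1, h2⟩ | ⟨h1, h1', h2⟩
        · obtain ⟨i, hi⟩ := h3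
          exact absurd (by rw [← h1, ← hi]; exact σ.ay i) hrm'.2
        · obtain ⟨i, hi⟩ := h3
          exact absurd (by rw [hi, h1]) (σ.a_ne_x h i)
        · exact ⟨i, h1, Or.inl h2⟩
        · obtain ⟨i, hi⟩ := h3
          exact absurd hi (h1' i)
      · simp only [X, if_neg h3, mem_singleton]
    · intro a
      by_cases h3 : ∃ i, σ.a i = a
      · obtain ⟨i, hi⟩ := h3
        have hX1 : σ.b i ∈ X a := by
          simp only [X, if_pos (⟨i, hi⟩ : ∃ i, σ.a i = a), mem_filter, mem_univ, true_and]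
          exact ⟨i, hi, Or.inl rfl⟩
        have hX2 : σ.b (i + 1) ∈ X a := by
          simp only [X, if_pos (⟨i, hi⟩ : ∃ i, σ.a i = a), mem_filter, mem_univ, true_and]
          exact ⟨i, hi, Or.inr rfl⟩
        have e1 := σ.e1 i
        have e2 := σ.e2 i
        rw [hi] at e1 e2
        right
        rcases σ.ρ1 a with hρ | hρ
        · rw [hρ, one_mul] at e1 e2
          refine ⟨⟨σ.b i, hX1, ?_⟩, σ.b (i + 1), hX2, ?_⟩
          · rw [zb, e1]; norm_num
          · rw [zb, e2]; norm_num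
        · rw [hρ] at e1 e2
          refine ⟨⟨σ.b (i + 1), hX2, ?_⟩, σ.b i, hX1, ?_⟩
          · rw [zb]; linarith
          · rw [zb]; linarith
      · simp only [X, if_neg h3]
        apply balOn_single
        refine if_neg ?_
        rintro ⟨j, hj⟩
        rcases kind a with ⟨h1, h2⟩ | ⟨h1, h2⟩ | ⟨i, h1, h2⟩ | ⟨h1, h1', h2⟩
        · exact h.xy (by rw [← h2, ← hj]; exact σ.bx j)
        · exact hc0m'.2 (by rw [← h2, ← hj]; exact σ.bx j)
        · exact h3 ⟨i, h1⟩
        · rw [h2] at hj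
          exact (hκK h1).1 j hj
  have h0 := congrFun hz (σ.b 0)
  rw [zb, Pi.zero_apply] at h0
  rcases σ.ξ1 (σ.b 0) with h1 | h1
  · rw [h0] at h1; norm_num at h1
  · rw [h0] at h1; norm_num at h1

/-- `mem_TV`, `Ex_of_reach`, `f1` -/
theorem St.f1_V (h : T2Ctx s x y) (σ : St s x y) {r : A} (hr : r ∈ σ.T.V) : ¬ σ.Ex r := by
  intro hE
  obtain ⟨r0, h0, hreach⟩ := σ.mem_TV.1 hr
  exact σ.f1 h h0 (σ.Ex_of_reach hreach hE)

/-- `Ex_iff`, `f1_V` -/
theorem St.f1_s (h : T2Ctx s x y) (σ : St s x y) {r : A} (hr : r ∈ σ.T.V) {c : B} (hc : c ∈ σ.V) : s r c = 0 := by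
  by_contra hne
  exact σ.f1_V h hr (σ.Ex_iff.2 ⟨c, hc, hne⟩)

theorem St.f1_U (h : T2Ctx s x y) (σ : St s x y) {r : A} (hr : r ∈ σ.T.V) : r ∉ σ.U := by
  intro hU
  exact σ.f1_V h hr (σ.mem_U.1 hU).2

/-- a column of `Z` is not in `V`: otherwise it is `σ.N r` with `r ∈ σ.U` (a column of `σ.T.U` is no neighbour of `x`), so
`r = σ.M c ∈ σ.T.V` -/
theorem St.f1_TU (h : T2Ctx s x y) (σ : St s x y) {c : B} (hc : c ∈ σ.T.U) : c ∉ σ.V := by
  intro hV
  have hcO := σ.TO_iff.1 (σ.T.mem_U.1 hc).1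
  rcases σ.mem_V.1 hV with ⟨r, hr, hE⟩ | h1
  · have hO := (σ.mem_U.1 hr).1
    have hM : σ.T.N c = r := by
      show σ.M c = r
      rw [← hE]
      exact (σ.N_O hO).2.2
    exact σ.f1_U h (σ.T.mem_V.2 (Or.inl ⟨c, hc, hM⟩)) hr
  · exact (mem_snk.1 h1).2 hcO.1

end MCC
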