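import Pool.Agent.Lib_MP_cb5629.T2B2

set_option linter.unusedSectionVars false

namespace MCC

open Finset Relation

variable {A B : Type} [Fintype A] [Fintype B] [DecidableEq A] [DecidableEq B]
variable {s : A → B → ℤ} {x : A} {y : B}

/-! The mirror image: everything off the cycle is unchanged. -/

lemma St.mir_O (σ : St s x y) {r : A} : σ.mir.O r ↔ σ.O r := by
  unfold St.O
  refine and_congr_right fun _ => ⟨fun h i => ?_, fun h i => h (-i)⟩
  have := h (-i)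
  change σ.a (- -i) ≠ r at this
  rwa [neg_neg] at this

lemma St.mir_TO (σ : St s x y) {c : B} : σ.mir.T.O c ↔ σ.T.O c := by
  unfold St.O
  refine and_congr_right fun _ => ⟨fun h i => ?_, fun h i => ?_⟩
  · have := h (-i - 1)
    change σ.b (1 - -(-i - 1)) ≠ c at this
    change σ.b (-i) ≠ c
    rwa [show (1 : ℤ) - -(-i - 1) = -i by ring] at this
  · have := h (-i - 1)
    change σ.b (-(-i - 1)) ≠ c at this
    change σ.b (1 - -i) ≠ c
    rwa [show -(-i - 1) = (1 : ℤ) - -i by ring] at this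

lemma St.mir_step (σ : St s x y) : σ.mir.step = σ.step := by
  funext r r'
  exact propext (and_congr_left fun _ => σ.mir_O)

lemma St.mir_Tstep (σ : St s x y) : σ.mir.T.step = σ.T.step := by
  funext r r'
  exact propext (and_congr_left fun _ => σ.mir_TO)

lemma St.mir_W (σ : St s x y) {r : A} {c : B} : σ.mir.W r c ↔ σ.W r c := by
  unfold St.W
  rw [σ.mir_step]

lemma St.mir_Ex (σ : St s x y) {r : A} : σ.mir.Ex r ↔ σ.Ex r := by
  unfold St.Ex
  exact exists_congr fun c => and_congr_right fun _ => σ.mir_W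

lemma St.mir_TEx (σ : St s x y) {c : B} : σ.mir.T.Ex c ↔ σ.T.Ex c := by
  unfold St.Ex St.W
  rw [σ.mir_Tstep]

lemma St.mir_U (σ : St s x y) : σ.mir.U = σ.U := by
  ext r
  simp only [St.U, Finset.mem_filter, Finset.mem_univ, true_and]
  exact and_congr σ.mir_O σ.mir_Ex

lemma St.mir_V (σ : St s x y) : σ.mir.V = σ.V := by
  unfold St.V
  rw [σ.mir_U]
  rfl

lemma St.mir_TU (σ : St s x y) : σ.mir.T.U = σ.T.U := by
  ext r
  simp only [St.U, Finset.mem_filter, Finset.mem_univ, true_and]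
  exact and_congr σ.mir_TO σ.mir_TEx

lemma St.mir_TV (σ : St s x y) : σ.mir.T.V = σ.T.V := by
  unfold St.V
  rw [σ.mir_TU]
  rfl

lemma St.mir_XR (σ : St s x y) : σ.mir.XR = σ.XR := by
  ext r
  simp only [St.XR, Finset.mem_filter, Finset.mem_univ, true_and]
  refine and_congr ⟨?_, ?_⟩ σ.mir_Ex
  · rintro ⟨i, hi⟩
    exact ⟨-i, hi⟩
  · rintro ⟨i, hi⟩
    refine ⟨-i, ?_⟩
    change σ.a (- -i) = r
    rwa [neg_neg]

lemma St.mir_stepA (σ : St s x y) (T : Finset B) : σ.mir.stepA T = σ.stepA T := by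
  funext r r'
  unfold St.stepA
  rw [σ.mir_step]
  rfl

lemma St.mir_stepI (σ : St s x y) (T : Finset B) : σ.mir.stepI T = σ.stepI T := by
  funext r r'
  unfold St.stepI
  rw [σ.mir_step]
  rfl

lemma St.mir_Lk (σ : St s x y) {f g : A} : σ.mir.Lk f g ↔ σ.Lk f g := by
  unfold St.Lk
  rw [σ.mir_U, σ.mir_V]

lemma St.mir_Df (σ : St s x y) {f g : A} {T : Finset B} : σ.mir.Df f g T ↔ σ.Df f g T := by
  constructor
  · rintro ⟨h1, h2, h3, h4, h5⟩
    rw [σ.mir_V] at h1 h5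
    rw [σ.mir_U] at h2 h5
    exact ⟨h1, h2, h3, h4, h5⟩
  · rintro ⟨h1, h2, h3, h4, h5⟩
    rw [← σ.mir_V] at h1 h5
    rw [← σ.mir_U] at h2 h5
    exact ⟨h1, h2, h3, h4, h5⟩

private lemma T2Mir_dfSwap {σ : St s x y} {f g : A} {T : Finset B} (h : σ.Df f g T) :
    σ.Df g f T :=
  ⟨h.sub, h.card, h.ng, h.nf, fun S h1 h2 h3 => h.min S h1 h2 h3.symm⟩

/-- `σ.mir.T.ρ = σ.ξ = σ.T.ρ` -/
lemma St.mir_TSV (σ : St s x y) {φ lam : A → ℝ} (hφ : σ.T.SV φ lam) : σ.mir.T.SV φ lam := by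
  refine ⟨?_, ?_, ?_, ?_, hφ.x1, hφ.x2, fun i hi => ?_⟩
  · rw [σ.mir_TV]
    exact hφ.z1
  · rw [σ.mir_TV]
    exact hφ.z2
  · rw [σ.mir_TU]
    exact hφ.u1
  · rw [σ.mir_TU]
    exact hφ.u2
  · have e : σ.mir.T.a i = σ.T.a (-1 - i) := by
      change σ.b (1 - -i) = σ.b (-(-1 - i))
      congr 1
      ring
    rw [e] at hi ⊢
    exact hφ.pos (-1 - i) (σ.mir_TEx.1 hi)

lemma St.mir_del (σ : St s x y) (φ lam : A → ℝ) (p : ℤ) : σ.mir.del φ lam (1 - p) = σ.del φ lam p := by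
  unfold St.del
  congr 1
  change σ.b (1 - (1 - p)) = σ.b p
  congr 1
  ring

/-- Piece T2MIR. The mirror image and the rotation of parallel entries. The first and the third interval are exchanged by the mirror image. -/
theorem St.Big.mir (h : T2Ctx s x y) {σ : St s x y} {φ lam : A → ℝ} {p1 p2 p3 p4 jf jg : ℤ} {T : Finset B}
    (hB : σ.Big φ lam p1 p2 p3 p4 jf jg T) :
    σ.mir.Big φ lam (1 - p4) (1 - p3) (1 - p2) (1 - p1) (-jg) (-jf) T := by
  have hb : ∀ p, σ.mir.b (1 - p) = σ.b p := fun p => by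
    change σ.b (1 - (1 - p)) = σ.b p
    congr 1
    ring
  have ha : ∀ j, σ.mir.a (-j) = σ.a j := fun j => by
    change σ.a (- -j) = σ.a j
    rw [neg_neg]
  have hk : σ.mir.k = σ.k := rfl
  have hT : ∀ p, σ.T.Ex (σ.b p) → σ.mir.T.Ex (σ.mir.b (1 - p)) := fun p hp => by
    rw [hb]
    exact σ.mir_TEx.2 hp
  have hE : ∀ j, σ.Ex (σ.a j) → σ.mir.Ex (σ.mir.a (-j)) := fun j hj => by
    rw [ha]
    exact σ.mir_Ex.2 hj
  have h1 := hB.o1
  have h2 := hB.o2
  have h3 := hB.o3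
  have h4 := hB.o4
  have f1 := hB.f1
  have f2 := hB.f2
  have g1 := hB.g1
  have g2 := hB.g2
  refine { o1 := by omega, o2 := by omega, o3 := by omega, o4 := by rw [hk]; omega
           n1 := hT _ hB.n4, n2 := hT _ hB.n3, n3 := hT _ hB.n2, n4 := hT _ hB.n1
           sv := σ.mir_TSV hB.sv, sep := ?_, x1 := ?_, x2 := ?_, x3 := ?_, x4 := ?_
           f1 := by omega, f2 := by omega, g1 := by omega, g2 := by omega
           xf := hE _ hB.xg, xg := hE _ hB.xf, df := ?_ }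
  · rw [σ.mir_del, σ.mir_del, σ.mir_del, σ.mir_del]
    rcases hB.sep with ⟨a1, a2, a3, a4⟩ | ⟨a1, a2, a3, a4⟩
    · exact Or.inr ⟨a4, a3, a2, a1⟩
    · exact Or.inl ⟨a4, a3, a2, a1⟩
  · obtain ⟨j, j1, j2, j3⟩ := hB.x3
    exact ⟨-j, by omega, by omega, hE j j3⟩
  · obtain ⟨j, j1, j2, j3⟩ := hB.x2
    exact ⟨-j, by omega, by omega, hE j j3⟩
  · obtain ⟨j, j1, j2, j3⟩ := hB.x1
    exact ⟨-j, by omega, by omega, hE j j3⟩
  · obtain ⟨j, j1, j2, j3⟩ := hB.x4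
    refine ⟨-j + σ.k, by omega, by rw [hk]; omega, ?_⟩
    have := σ.mir.pa (-j)
    rw [hk] at this
    rw [this]
    exact hE j j3
  · rw [ha, ha]
    exact σ.mir_Df.2 (T2Mir_dfSwap hB.df)

theorem St.Par.rot {σ : St s x y} {φ lam : A → ℝ} {p1 p2 p3 p4 : ℤ}
    (hP : σ.Par φ lam p1 p2 p3 p4) : σ.Par φ lam p3 p4 (p1 + σ.k) (p2 + σ.k) := by
  have h1 := hP.o1
  have h2 := hP.o2
  have h3 := hP.o3
  have h4 := hP.o4
  have hd : ∀ p, σ.del φ lam (p + σ.k) = σ.del φ lam p := fun p => by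
    unfold St.del
    rw [σ.pb]
  refine { o1 := by omega, o2 := by omega, o3 := by omega, o4 := by omega
           n1 := hP.n3, n2 := hP.n4, n3 := by rw [σ.pb]; exact hP.n1
           n4 := by rw [σ.pb]; exact hP.n2
           sv := hP.sv, sep := ?_, x1 := hP.x3, x2 := hP.x4, x3 := ?_, x4 := ?_ }
  · rw [hd, hd]
    rcases hP.sep with ⟨a1, a2, a3, a4⟩ | ⟨a1, a2, a3, a4⟩
    · exact Or.inr ⟨a1, a2, a3, a4⟩
    · exact Or.inl ⟨a1, a2, a3, a4⟩
  · obtain ⟨j, j1, j2, j3⟩ := hP.x1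
    exact ⟨j + σ.k, by omega, by omega, by rw [σ.pa]; exact j3⟩
  · obtain ⟨j, j1, j2, j3⟩ := hP.x2
    exact ⟨j + σ.k, by omega, by omega, by rw [σ.pa]; exact j3⟩

theorem St.Big.rot {σ : St s x y} {φ lam : A → ℝ} {p1 p2 p3 p4 jf jg : ℤ} {T : Finset B}
    (hB : σ.Big φ lam p1 p2 p3 p4 jf jg T) :
    σ.Big φ lam p3 p4 (p1 + σ.k) (p2 + σ.k) jg (jf + σ.k) T := by
  have f1 := hB.f1
  have f2 := hB.f2
  have ha : σ.a (jf + σ.k) = σ.a jf := σ.pa jf
  exact { toPar := hB.toPar.rot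
          f1 := hB.g1, f2 := hB.g2, g1 := by omega, g2 := by omega
          xf := hB.xg, xg := by rw [ha]; exact hB.xf
          df := by rw [ha]; exact T2Mir_dfSwap hB.df }

/-- the rotation of crossing entries -/
theorem St.Crs.rot {σ : St s x y} {φ lam : A → ℝ} {p1 p2 p3 p4 : ℤ}
    (hC : σ.Crs φ lam p1 p2 p3 p4) : σ.Crs φ lam p2 p3 p4 (p1 + σ.k) := by
  have h1 := hC.o1
  have h2 := hC.o2
  have h3 := hC.o3
  have h4 := hC.o4
  have hd : ∀ p, σ.del φ lam (p + σ.k) = σ.del φ lam p := fun p => by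
    unfold St.del
    rw [σ.pb]
  refine { o1 := by omega, o2 := by omega, o3 := by omega, o4 := by omega
           n1 := hC.n2, n2 := hC.n3, n3 := hC.n4, n4 := by rw [σ.pb]; exact hC.n1
           sv := hC.sv, sep := ?_, all := hC.all }
  rw [hd]
  rcases hC.sep with ⟨a1, a2, a3, a4⟩ | ⟨a1, a2, a3, a4⟩
  · exact Or.inr ⟨a3, a4, a1, a2⟩
  · exact Or.inl ⟨a2, a1, a4, a3⟩

end MCC
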