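import Pool.Agent.Lib_MP_cb5629.T2Om
import Pool.Agent.Lib_MP_cb5629.T2Cnt
import Pool.Agent.Lib_MP_cb5629.T2Mir

set_option linter.unusedSectionVars false

namespace MCC

open Finset Relation

variable {A B : Type} [Fintype A] [Fintype B] [DecidableEq A] [DecidableEq B]
variable {s : A → B → ℤ} {x : A} {y : B}

private theorem T2Gap_avoid (σ : St s x y) {R : Finset A} (hR : ∀ r ∈ R, r ∉ σ.U) {r r' : A}
    (h : ReflTransGen σ.step r r') (hE : σ.Ex r') :
    ReflTransGen (fun u v => σ.step u v ∧ v ∉ R) r r' := by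
  induction h using ReflTransGen.head_induction_on with
  | refl => exact ReflTransGen.refl
  | @head r r1 h1 h2 ih =>
    refine ReflTransGen.head ⟨h1, fun hr1 => ?_⟩ ih
    exact hR r1 hr1 (σ.mem_U.2 ⟨h1.1, σ.Ex_of_reach h2 hE⟩)

private theorem T2Gap_Ex' {σ σ' : St s x y} {m t : ℤ} {R : Finset A} (hE : σ.Ear σ' m t R)
    (hR : ∀ r ∈ R, r ∉ σ.U) {r : A} (hr : σ.Ex r) : σ'.Ex r := by
  obtain ⟨c, hc, r', hw, hs⟩ := hr
  exact ⟨c, hc, r', hE.reach_of (T2Gap_avoid σ hR hw ⟨c, hc, r', ReflTransGen.refl, hs⟩), hs⟩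

/-- If the ear misses `U` then `U ⊆ U'`, and an exit row of the omitted arc is new in `U'`. Proof. Walks starting in `U` or at an exit and leading to a sink have all their later rows in `U`
(each of them reaches the sink), so they avoid `R`: `reach_of`. The rows of `U` are off `σ` and not in `R`, so off `σ'` (`O_iff`). -/
theorem St.Ear.U_lt {σ σ' : St s x y} {m t : ℤ} {R : Finset A} (hE : σ.Ear σ' m t R) (hR : ∀ r ∈ R, r ∉ σ.U) {j : ℤ}
    (h1 : m < j) (h2 : j < t) (hj : σ.Ex (σ.a j)) : σ.U.card < σ'.U.card := by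
  apply card_lt_card
  rw [ssubset_iff_of_subset]
  · refine ⟨σ.a j, σ'.mem_U.2 ⟨hE.O_iff.2 (Or.inr ⟨j, h1, h2, rfl⟩), T2Gap_Ex' hE hR hj⟩, σ.a_not_U j⟩
  · intro r hr
    obtain ⟨g1, g2⟩ := σ.mem_U.1 hr
    exact σ'.mem_U.2 ⟨hE.O_iff.2 (Or.inl ⟨g1, fun h => hR r h hr⟩), T2Gap_Ex' hE hR g2⟩

/-- A maximal run of non-exits `a n`, `i < n < j`, between exits `a i`, `a j`. (`card_XR`: there are at least three exit rows.) -/
theorem St.run (h : T2Ctx s x y) (σ : St s x y) {i0 : ℤ} (h0 : ¬ σ.Ex (σ.a i0)) :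
    ∃ i j, i < i0 ∧ i0 < j ∧ j < i + σ.k ∧ σ.Ex (σ.a i) ∧ σ.Ex (σ.a j) ∧ ∀ n, i < n → n < j → ¬ σ.Ex (σ.a n) := by
  have hXR := σ.card_XR h
  obtain ⟨r, hr⟩ : σ.XR.Nonempty := by rw [← card_pos]; omega
  obtain ⟨⟨e, he⟩, hEx⟩ := σ.mem_XR.1 hr
  have hEe : σ.Ex (σ.a e) := by rw [he]; exact hEx
  -- an exit to the right, an exit to the left
  obtain ⟨e1, g1, g2, g3⟩ := σ.a_window (i0 + 1) e
  obtain ⟨e2, g4, g5, g6⟩ := σ.a_window (i0 - σ.k) e
  have he1 : σ.Ex (σ.a e1) := by rw [g3]; exact hEe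
  have he2 : σ.Ex (σ.a e2) := by rw [g6]; exact hEe
  obtain ⟨j, ⟨hj1, hj2⟩, hj3⟩ := Int.exists_least_of_bdd (P := fun n => i0 < n ∧ σ.Ex (σ.a n))
    ⟨i0, fun z hz => hz.1.le⟩ ⟨e1, by omega, he1⟩
  obtain ⟨i, ⟨hi1, hi2⟩, hi3⟩ := Int.exists_greatest_of_bdd (P := fun n => n < i0 ∧ σ.Ex (σ.a n))
    ⟨i0, fun z hz => hz.1.le⟩ ⟨e2, by omega, he2⟩
  have hn : ∀ n, i < n → n < j → ¬ σ.Ex (σ.a n) := by
    intro n h1 h2 hE
    rcases lt_trichotomy n i0 with h3 | h3 | h3
    · have := hi3 n ⟨h3, hE⟩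
      omega
    · rw [h3] at hE; exact h0 hE
    · have := hj3 n ⟨h3, hE⟩
      omega
  refine ⟨i, j, hi1, hj1, ?_, hi2, hj2, hn⟩
  by_contra hlt
  have hsub : σ.XR ⊆ {σ.a i} := by
    intro r hr
    obtain ⟨⟨n, hn1⟩, hE⟩ := σ.mem_XR.1 hr
    obtain ⟨n', q1, q2, q3⟩ := σ.a_window i n
    rw [mem_singleton, ← hn1, ← q3]
    by_contra hne
    have : n' ≠ i := fun h => hne (by rw [h])
    apply hn n' (by omega) (by omega)
    rw [q3, hn1]
    exact hE
  have := card_le_card hsub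
  rw [card_singleton] at this
  omega

/-- The run has a connection to a column outside `b (i+1), ..., b j`. Proof. `F` = the rows `a n`, `i < n < j`; `D` = the rows `r` with `σ.O r` that are reachable from `F` (`ReflTransGen σ.step`);
no row of `D` is in `U` and no row of `F ∪ D` is adjacent to a sink (the `a n` are not exits), to `y` (`ay`, `O`). If no row of `F ∪ D` is adjacent to a `b t` with `j < t ≤ i + k`, then
`NA s (F ∪ D) ⊆ σ.N '' D ∪ {b (i+1), ..., b j}` (an off-cycle column adjacent to a row of `F ∪ D` is the partner of a row of `D`), so `|NA s (F ∪ D)| ≤ |D| + (j - i) = |F ∪ D| + 1`: contradiction to the brace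
property (`F ∪ D` misses `x`, the sources and the exits). -/
theorem St.run_out (h : T2Ctx s x y) (σ : St s x y) {i j : ℤ} (hij : i + 1 < j) (hj : j < i + σ.k) (hi : σ.Ex (σ.a i))
    (hj' : σ.Ex (σ.a j)) (hn : ∀ n, i < n → n < j → ¬ σ.Ex (σ.a n)) :
    ∃ m t r', i < m ∧ m < j ∧ j < t ∧ t ≤ i + σ.k ∧ ReflTransGen σ.step (σ.a m) r' ∧ s r' (σ.b t) ≠ 0 := by
  classical
  by_contra hcon
  push Not at hcon
  set F : Finset A := (Finset.Ioo i j).image σ.a with hF
  set D : Finset A := univ.filter (fun r => σ.O r ∧ ∃ m, i < m ∧ m < j ∧ ReflTransGen σ.step (σ.a m) r) with hD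
  have hFD : Disjoint F D := by
    rw [disjoint_left]
    intro r hr1 hr2
    obtain ⟨n, _, hn2⟩ := mem_image.1 hr1
    exact (mem_filter.1 hr2).2.1.2 n hn2
  have hFc : F.card = (j - i - 1).toNat := by
    rw [hF, card_image_of_injOn, Int.card_Ioo]
    intro n hn1 n' hn2 he
    rw [coe_Ioo, Set.mem_Ioo] at hn1 hn2
    rcases le_total n n' with h1 | h1
    · exact σ.ia n n' h1 (by omega) he
    · exact (σ.ia n' n h1 (by omega) he.symm).symm
  have hreach : ∀ r ∈ F ∪ D, ∃ m, i < m ∧ m < j ∧ ReflTransGen σ.step (σ.a m) r := by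
    intro r hr
    rcases mem_union.1 hr with h1 | h1
    · obtain ⟨n, hn1, hn2⟩ := mem_image.1 h1
      rw [mem_Ioo] at hn1
      exact ⟨n, hn1.1, hn1.2, by rw [hn2]⟩
    · exact (mem_filter.1 h1).2.2
  have hnE : ∀ r ∈ F ∪ D, ¬ σ.Ex r := by
    intro r hr hE
    obtain ⟨m, h1, h2, h3⟩ := hreach r hr
    exact hn m h1 h2 (σ.Ex_of_reach h3 hE)
  have hy : ∀ r ∈ F ∪ D, s r y = 0 := by
    intro r hr
    rcases mem_union.1 hr with h1 | h1
    · obtain ⟨n, _, hn2⟩ := mem_image.1 h1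
      rw [← hn2]; exact σ.ay n
    · exact (mem_filter.1 h1).2.1.1
  have hNA : NA s (F ∪ D) ⊆ D.image σ.N ∪ (Finset.Ioc i j).image σ.b := by
    intro c hc
    obtain ⟨r, hr, hrc⟩ := mem_NA.1 hc
    have hxc : s x c = 0 := by
      by_contra hne
      by_cases hcy : c = y
      · rw [hcy] at hrc; exact hrc (hy r hr)
      · exact hnE r hr ⟨c, mem_snk.2 ⟨hcy, hne⟩, r, ReflTransGen.refl, hrc⟩
    obtain ⟨m, h1, h2, h3⟩ := hreach r hr
    by_cases hb : ∃ t, σ.b t = c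
    · obtain ⟨t, ht⟩ := hb
      obtain ⟨t', q1, q2, q3⟩ := σ.b_window (i + 1) t
      rw [mem_union]
      right
      rw [mem_image]
      refine ⟨t', ?_, by rw [q3, ht]⟩
      rw [mem_Ioc]
      refine ⟨by omega, ?_⟩
      by_contra hlt
      have := hcon m t' r h1 h2 (by omega) (by omega) h3
      rw [q3, ht] at this
      exact hrc this
    · have hTO : σ.T.O c := σ.TO_iff.2 ⟨hxc, fun t ht => hb ⟨t, ht⟩⟩
      obtain ⟨g1, g2, g3⟩ := σ.M_O hTO
      rw [mem_union]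
      left
      rw [mem_image]
      refine ⟨σ.M c, ?_, g3⟩
      rw [hD, mem_filter]
      exact ⟨mem_univ _, g1, m, h1, h2, h3.tail ⟨g1, by rw [g3]; exact hrc⟩⟩
  have hc1 : (NA s (F ∪ D)).card ≤ D.card + (j - i).toNat := by
    refine (card_le_card hNA).trans ((card_union_le _ _).trans ?_)
    have e1 : (D.image σ.N).card ≤ D.card := card_image_le
    have e2 : ((Finset.Ioc i j).image σ.b).card ≤ (j - i).toNat := by
      refine card_image_le.trans ?_
      rw [Int.card_Ioc]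
    omega
  have hc2 : (F ∪ D).card = F.card + D.card := card_union_of_disjoint hFD
  have hne : (F ∪ D).Nonempty := by
    refine ⟨σ.a (i + 1), mem_union.2 (Or.inl (mem_image.2 ⟨i + 1, ?_, rfl⟩))⟩
    rw [mem_Ioo]; omega
  have hdis : Disjoint (F ∪ D) (insert x σ.XR) := by
    rw [disjoint_left]
    intro r hr hr'
    rcases mem_insert.1 hr' with h1 | h1
    · have := hy r hr
      rw [h1] at this
      exact h.xy this
    · exact hnE r hr (σ.mem_XR.1 h1).2
  have hXR := σ.card_XR h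
  have hxX : x ∉ σ.XR := by
    intro hx
    obtain ⟨⟨n, hn1⟩, -⟩ := σ.mem_XR.1 hx
    exact σ.a_ne_x h n hn1
  have hc3 : (F ∪ D).card + (σ.XR.card + 1) ≤ Fintype.card A := by
    rw [← card_insert_of_notMem hxX, ← card_union_of_disjoint hdis]
    exact card_le_univ _
  have hh := h.hb.hall (F ∪ D) hne (by omega)
  omega

/-- Piece T2GAP. If some row of the cycle is not an exit, there is a state with larger `U`. Proof. `run`, `run_out`. All rows reachable from `a m` are not in `U` (`Ex_of_reach`), so `ear_walk` with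
`P v := v ∉ σ.U` (`m + 1 < t < m + k`) gives an ear `R` off `U`: either `σ.Ear σ' m t R`, whose omitted arc contains the exit `a j` (`m < j < t`), or `σ.mir.Ear σ' (-m-k) (1-t) R`, whose omitted arc
contains `σ.mir.a (-i-k) = σ.a (i + k) = σ.a i` (`-m-k < -i-k < 1-t`). `U_lt` in both cases (`mir_U`, `mir_Ex`). -/
theorem St.gap (h : T2Ctx s x y) (σ : St s x y) {i0 : ℤ} (h0 : ¬ σ.Ex (σ.a i0)) :
    ∃ σ' : St s x y, σ.U.card < σ'.U.card := by
  obtain ⟨i, j, h1, h2, h3, h4, h5, h6⟩ := σ.run h h0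
  obtain ⟨m, t, r', g1, g2, g3, g4, g5, g6⟩ := σ.run_out h (by omega) h3 h4 h5 h6
  have hw : ∀ v, ReflTransGen σ.step (σ.a m) v →
      ReflTransGen (fun u v => σ.step u v ∧ v ∉ σ.U) (σ.a m) v := by
    intro v hv
    induction hv with
    | refl => exact ReflTransGen.refl
    | @tail u v hu huv ih =>
      refine ih.tail ⟨huv, fun hU => ?_⟩
      exact h6 m g1 g2 (σ.Ex_of_reach (hu.tail huv) (σ.mem_U.1 hU).2)
  obtain ⟨R, hR, hcase⟩ := σ.ear_walk h (m := m) (t := t) (by omega) (by omega) (P := fun v => v ∉ σ.U)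
    (hw r' g5) g6
  have hR' : ∀ r ∈ R, r ∉ σ.U := fun r hr => (hR r hr).1
  rcases hcase with ⟨σ', hE⟩ | ⟨σ', hE⟩
  · exact ⟨σ', hE.U_lt hR' g2 g3 h5⟩
  · refine ⟨σ', ?_⟩
    have hR'' : ∀ r ∈ R, r ∉ σ.mir.U := by
      intro r hr
      rw [St.mir_U]
      exact hR' r hr
    have key := hE.U_lt hR'' (j := -i - σ.k) (by omega) (by omega) (by
      rw [St.mir_Ex]
      change σ.Ex (σ.a (-(-i - σ.k)))
      rw [show -(-i - σ.k) = i + σ.k by ring, σ.pa]
      exact h4)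
    rwa [St.mir_U] at key

/-- There is a state all of whose cycle rows are exits (choose `|U|` maximal, `|U| ≤ |A|`). -/
theorem St.all_exits (h : T2Ctx s x y) (σ0 : St s x y) : ∃ σ : St s x y, ∀ i, σ.Ex (σ.a i) := by
  by_contra hcon
  push Not at hcon
  have key : ∀ n : ℕ, ∃ σ : St s x y, n ≤ σ.U.card := by
    intro n
    induction n with
    | zero => exact ⟨σ0, Nat.zero_le _⟩
    | succ n ih =>
      obtain ⟨σ, hσ⟩ := ih
      obtain ⟨i, hi⟩ := hcon σ
      obtain ⟨σ', hσ'⟩ := σ.gap h hi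
      exact ⟨σ', by omega⟩
  obtain ⟨σ, hσ⟩ := key (Fintype.card A + 1)
  have := card_le_univ σ.U
  omega

end MCC
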