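import Pool.Agent.Lib_MP_cb5629.T2Pm
import Pool.Agent.Lib_MP_cb5629.T2D

set_option linter.unusedSectionVars false

namespace MCC

open Finset Relation

variable {A B : Type} [Fintype A] [Fintype B] [DecidableEq A] [DecidableEq B]
variable {s : A → B → ℤ} {x : A} {y : B}

/-- the perfect matching `pm1` for an entry `b i` and an exit `a j` (any representatives): move `i` into the window `(j - k, j]` (`b_window`, `b_add`), `lkx` for `σ` and
`a j, x`, `lkx` for `σ.T` and `b i, y` (`T2Ctx.tr`), `match_tr`; `|insert (b i) (insert y σ.T.U)| = |σ.T.V|`. -/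
theorem St.pm (h : T2Ctx s x y) (σ : St s x y) {i j : ℤ} (hen : σ.T.Ex (σ.b i)) (hex : σ.Ex (σ.a j)) :
    ∃ κ : A → B, Function.Injective κ ∧ (∀ r, s r (κ r) ≠ 0) ∧ (∀ r ∈ insert (σ.a j) (insert x σ.U), κ r ∈ σ.V) ∧
      (∀ r ∈ σ.T.V, κ r ∈ insert (σ.b i) (insert y σ.T.U)) ∧
      (∀ l, σ.a l ≠ σ.a j → κ (σ.a l) = σ.b l ∨ κ (σ.a l) = σ.b (l + 1)) ∧
      ∀ r, σ.O r → r ∉ σ.U → r ∉ σ.T.V → κ r = σ.N r := by
  classical
  obtain ⟨i', h1, h2, h3⟩ := σ.b_window (j - σ.k + 1) i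
  obtain ⟨κU, iU, mU⟩ := σ.lkx h hex (σ.a_not_U j) (σ.a_ne_x h j)
  have hbi : σ.T.a (-i) = σ.b i := by
    show σ.b (- -i) = σ.b i
    rw [neg_neg]
  have h4 : σ.b i ∉ σ.T.U := by rw [← hbi]; exact σ.T.a_not_U (-i)
  have h5 : σ.b i ≠ y := by rw [← hbi]; exact σ.T.a_ne_x h.tr (-i)
  obtain ⟨κT, iT, mT⟩ := σ.T.lkx h.tr hen h4 h5
  have h6 : y ∉ σ.T.U := σ.T.x_not_U h.tr
  have hcard : (insert (σ.b i) (insert y σ.T.U)).card = σ.T.V.card := by
    rw [σ.T.card_V h.tr, card_insert_of_notMem, card_insert_of_notMem h6]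
    rw [mem_insert]
    push Not
    exact ⟨h5, h4⟩
  haveI : Nonempty B := ⟨y⟩
  obtain ⟨κZ, iZ, mZ, -⟩ := match_tr hcard iT mT
  obtain ⟨κ, g1, g2, g3, g4, g5, g6⟩ := σ.pm1 h (i := i') (j := j) (by omega) (by omega) iU mU iZ (by
    intro r hr
    rw [h3]
    exact mZ r hr)
  refine ⟨κ, g1, g2, ?_, ?_, g5, g6⟩
  · intro r hr
    rw [g3 r hr]
    exact (mU r hr).1
  · intro r hr
    rw [g4 r hr]
    exact (mZ r hr).1

private lemma T2Ind_cardI (h : T2Ctx s x y) (σ : St s x y) (j : ℤ) :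
    (insert (σ.a j) (insert x σ.U)).card = σ.U.card + 2 := by
  rw [card_insert_of_notMem, card_insert_of_notMem (σ.x_not_U h)]
  rw [mem_insert]
  push Not
  exact ⟨σ.a_ne_x h j, σ.a_not_U j⟩

/-- Piece T2Ind. A vector on `V` that has zero sum in the rows `U`, `x` and in one exit row vanishes. Proof. `pm`, `spl_use` with
`X r = σ.V` for `r ∈ insert (a j) (insert x U)` and `X r = {κ r}` otherwise: `κ` maps `insert (a j) (insert x U)` onto `V` (cardinalities), so for the other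
rows `κ r ∉ V` and `z (κ r) = 0`. -/
theorem St.ind (h : T2Ctx s x y) (σ : St s x y) {i j : ℤ} (hen : σ.T.Ex (σ.b i)) (hex : σ.Ex (σ.a j)) {z : B → ℝ}
    (hz : ∀ c, c ∉ σ.V → z c = 0) (hu : ∀ r ∈ σ.U, vl s r z = 0) (hx : vl s x z = 0) (hf : vl s (σ.a j) z = 0) :
    z = 0 := by
  classical
  obtain ⟨κ, g1, g2, g3, -, -, -⟩ := σ.pm h hen hex
  have himg : (insert (σ.a j) (insert x σ.U)).image κ = σ.V := by
    apply eq_of_subset_of_card_le
    · intro c hc
      obtain ⟨r, hr, rfl⟩ := mem_image.1 hc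
      exact g3 r hr
    · rw [card_image_of_injective _ g1, σ.card_V h, T2Ind_cardI h σ j]
  refine spl_use h g1 g2 (fun r => if r ∈ insert (σ.a j) (insert x σ.U) then σ.V else {κ r}) ?_ z ?_
  · intro r
    split_ifs with h1
    · exact g3 r h1
    · exact mem_singleton_self _
  · intro r
    split_ifs with h1
    · apply balOn_of_vl _ hz
      rw [mem_insert, mem_insert] at h1
      rcases h1 with rfl | rfl | h1
      · exact hf
      · exact hx
      · exact hu r h1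
    · apply balOn_single
      apply hz
      intro h2
      rw [← himg] at h2
      obtain ⟨r', hr', e⟩ := mem_image.1 h2
      exact h1 (g1 e ▸ hr')

/-- A vector on `σ.T.U + y` that has zero sum in the rows of `Z` vanishes. Proof. `pm`, `spl_use` with `X r = insert (b i) (insert y σ.T.U)` for
`r ∈ σ.T.V` (`z (b i) = 0`), `X r = {κ r}` otherwise; `κ` maps `σ.T.V` onto `insert (b i) (insert y σ.T.U)` (cardinalities, `card_V` for `σ.T`). -/
theorem St.indr (h : T2Ctx s x y) (σ : St s x y) {i j : ℤ} (hen : σ.T.Ex (σ.b i)) (hex : σ.Ex (σ.a j)) {z : B → ℝ}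
    (hz : ∀ c, c ∉ insert y σ.T.U → z c = 0) (hr : ∀ r ∈ σ.T.V, vl s r z = 0) : z = 0 := by
  classical
  obtain ⟨κ, g1, g2, -, g4, -, -⟩ := σ.pm h hen hex
  have hbi : σ.T.a (-i) = σ.b i := by
    show σ.b (- -i) = σ.b i
    rw [neg_neg]
  have himg : σ.T.V.image κ = insert (σ.b i) (insert y σ.T.U) := by
    apply eq_of_subset_of_card_le
    · intro c hc
      obtain ⟨r, hr, rfl⟩ := mem_image.1 hc
      exact g4 r hr
    · have h1 := T2Ind_cardI h.tr σ.T (-i)
      rw [hbi] at h1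
      rw [card_image_of_injective _ g1, σ.T.card_V h.tr, h1]
  refine spl_use h g1 g2 (fun r => if r ∈ σ.T.V then insert (σ.b i) (insert y σ.T.U) else {κ r}) ?_ z ?_
  · intro r
    split_ifs with h1
    · exact g4 r h1
    · exact mem_singleton_self _
  · intro r
    split_ifs with h1
    · apply balOn_of_vl (hr r h1)
      intro c hc
      apply hz
      intro h2
      exact hc (mem_insert_of_mem h2)
    · apply balOn_single
      apply hz
      intro h2
      have h3 : κ r ∈ insert (σ.b i) (insert y σ.T.U) := mem_insert_of_mem h2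
      rw [← himg] at h3
      obtain ⟨r', hr', e⟩ := mem_image.1 h3
      exact h1 (g1 e ▸ hr')

/-- Raw side vectors. Proof. `ψ`: `la_exists` for the rows `insert x U` and the columns `V` (`|U| + 1 < |U| + 2`). `ω`: `la_exists` for the rows
`insert (a j) U`: a vector `z ≠ 0` on `V`; if `vl s x z = 0` it would vanish by `ind`; scale. -/
theorem St.sv0 (h : T2Ctx s x y) (σ : St s x y) {i j : ℤ} (hen : σ.T.Ex (σ.b i)) (hex : σ.Ex (σ.a j)) :
    ∃ ψ ω : B → ℝ, ψ ≠ 0 ∧ (∀ c, c ∉ σ.V → ψ c = 0) ∧ (∀ c, c ∉ σ.V → ω c = 0) ∧ (∀ r ∈ σ.U, vl s r ψ = 0) ∧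
      (∀ r ∈ σ.U, vl s r ω = 0) ∧ vl s x ψ = 0 ∧ vl s x ω = 1 := by
  classical
  have hxU := σ.x_not_U h
  have hV := σ.card_V h
  obtain ⟨ψ, p1, p2, p3⟩ := la_exists s (insert x σ.U) σ.V (by
    rw [card_insert_of_notMem hxU, hV]
    omega)
  obtain ⟨z, z1, z2, z3⟩ := la_exists s (insert (σ.a j) σ.U) σ.V (by
    rw [card_insert_of_notMem (σ.a_not_U j), hV]
    omega)
  have hx : vl s x z ≠ 0 := by
    intro h0
    exact z1 (σ.ind h hen hex z2 (fun r hr => z3 r (mem_insert_of_mem hr)) h0 (z3 _ (mem_insert_self _ _)))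
  refine ⟨ψ, fun c => (vl s x z)⁻¹ * z c + 0 * z c, p1, p2, ?_, ?_, ?_, ?_, ?_⟩
  · intro c hc
    beta_reduce
    rw [z2 c hc]
    ring
  · intro r hr
    exact p3 r (mem_insert_of_mem hr)
  · intro r hr
    rw [vl_lin, z3 r (mem_insert_of_mem hr)]
    ring
  · exact p3 x (mem_insert_self _ _)
  · rw [vl_lin, inv_mul_cancel₀ hx]
    ring

end MCC
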