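import Pool.Agent.Lib_MP_cb5629.T2Pm

set_option linter.unusedSectionVars false

namespace MCC

open Finset Relation

variable {A B : Type} [Fintype A] [Fintype B] [DecidableEq A] [DecidableEq B]
variable {s : A → B → ℤ} {x : A} {y : B}

/-- Piece T2PM2. The perfect matching with two legs (to `b i`, `b l`), two exits `a j`, `a m` and the edge `xy`; `i ≤ j < l ≤ m < i + k`: `x ↦ y`, `κU` on
`U + a j + a m` (onto `V`), `κZ` on the rows of `Z` (onto `σ.T.U + b i + b l`), `a n ↦ b (n+1)` for `i ≤ n < j` and `l ≤ n < m`, `a n ↦ b n` for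
`j < n < l` and `m < n < i + k`, `σ.N` on the remaining rows. Same proof as `pm1`. -/
theorem St.pm2 (h : T2Ctx s x y) (σ : St s x y) {i j l m : ℤ} (hij : i ≤ j) (hjl : j < l) (hlm : l ≤ m)
    (hm : m < i + σ.k) {κU κZ : A → B}
    (iU : Set.InjOn κU (insert (σ.a j) (insert (σ.a m) σ.U) : Finset A))
    (mU : ∀ r ∈ insert (σ.a j) (insert (σ.a m) σ.U), κU r ∈ σ.V ∧ s r (κU r) ≠ 0)
    (iZ : Set.InjOn κZ (σ.T.V : Finset A))
    (mZ : ∀ r ∈ σ.T.V, κZ r ∈ insert (σ.b i) (insert (σ.b l) σ.T.U) ∧ s r (κZ r) ≠ 0) :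
    ∃ κ : A → B, Function.Injective κ ∧ (∀ r, s r (κ r) ≠ 0) ∧ κ x = y ∧
      (∀ r ∈ insert (σ.a j) (insert (σ.a m) σ.U), κ r = κU r) ∧ (∀ r ∈ σ.T.V, κ r = κZ r) ∧
      (∀ n, σ.a n ≠ σ.a j → σ.a n ≠ σ.a m → κ (σ.a n) = σ.b n ∨ κ (σ.a n) = σ.b (n + 1)) ∧
      ∀ r, σ.O r → r ∉ σ.U → r ∉ σ.T.V → κ r = σ.N r := by
  classical
  have Ninj : ∀ {a a' : A}, σ.O a → σ.O a' → σ.N a = σ.N a' → a = a' := by
    intro a a' ha ha' hE
    rw [← (σ.N_O ha).2.2, ← (σ.N_O ha').2.2, hE]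
  -- facts on rows
  have ZU : ∀ {a : A}, a ∈ σ.T.V → a ∉ insert (σ.a j) (insert (σ.a m) σ.U) ∧ (∀ n, σ.a n ≠ a) ∧ a ≠ x := by
    intro a ha
    by_cases hs : a ∈ snk (tr s) y x
    · have h1 := mem_snk.1 hs
      rw [tr_apply] at h1
      have h2 : ∀ n, σ.a n ≠ a := by
        intro n hn
        exact h1.2 (by rw [← hn]; exact σ.ay n)
      refine ⟨?_, h2, h1.1⟩
      rw [mem_insert, mem_insert]
      rintro (h3 | h3 | h3)
      · exact h2 j h3.symm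
      · exact h2 m h3.symm
      · exact σ.f1_U h ha h3
    · have h1 := (σ.TV_O ha hs).1
      refine ⟨?_, h1.2, ?_⟩
      · rw [mem_insert, mem_insert]
        rintro (h3 | h3 | h3)
        · exact h1.2 j h3.symm
        · exact h1.2 m h3.symm
        · exact σ.f1_U h ha h3
      · intro h3
        exact h.xy (by rw [← h3]; exact h1.1)
  have CU : ∀ {n : ℤ}, σ.a n ≠ σ.a j → σ.a n ≠ σ.a m → σ.a n ∉ insert (σ.a j) (insert (σ.a m) σ.U) := by
    intro n hn hn'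
    rw [mem_insert, mem_insert]
    rintro (h3 | h3 | h3)
    · exact hn h3
    · exact hn' h3
    · exact σ.a_not_U n h3
  have CZ : ∀ {n : ℤ}, σ.a n ∉ σ.T.V := fun {n} hn => (ZU hn).2.1 n rfl
  have OU : ∀ {a : A}, σ.O a → a ∉ σ.U → a ∉ insert (σ.a j) (insert (σ.a m) σ.U) := by
    intro a ha hU
    rw [mem_insert, mem_insert]
    rintro (h3 | h3 | h3)
    · exact ha.2 j h3.symm
    · exact ha.2 m h3.symm
    · exact hU h3
  have Ox : ∀ {a : A}, σ.O a → a ≠ x := by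
    intro a ha h3
    exact h.xy (by rw [← h3]; exact ha.1)
  have XU : x ∉ insert (σ.a j) (insert (σ.a m) σ.U) := by
    rw [mem_insert, mem_insert]
    rintro (h3 | h3 | h3)
    · exact σ.a_ne_x h j h3.symm
    · exact σ.a_ne_x h m h3.symm
    · exact σ.x_not_U h h3
  have XZ : x ∉ σ.T.V := fun hx => (ZU hx).2.2 rfl
  have rest : ∀ {a : A}, a ∉ insert (σ.a j) (insert (σ.a m) σ.U) → a ∉ σ.T.V → a ≠ x →
      (¬ ∃ n, i ≤ n ∧ n < i + σ.k ∧ σ.a n = a) → σ.O a ∧ a ∉ σ.U := by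
    intro a h1 h2 h2' h3
    rw [mem_insert, mem_insert, not_or, not_or] at h1
    refine ⟨⟨?_, ?_⟩, h1.2.2⟩
    · by_contra h4
      have h5 : a ∈ snk (tr s) y x := mem_snk.2 ⟨h2', by rw [tr_apply]; exact h4⟩
      exact h2 (σ.T.mem_V.2 (Or.inr h5))
    · intro n hn
      obtain ⟨n', g1, g2, g3⟩ := σ.a_window i n
      exact h3 ⟨n', g1, g2, g3.trans hn⟩
  -- facts on columns
  have bY : ∀ n, σ.b n ≠ y := fun n hn => h.xy (by rw [← hn]; exact σ.bx n)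
  have bTU : ∀ n, σ.b n ∉ σ.T.U := fun n hn =>
    (σ.TO_iff.1 (σ.T.mem_U.1 hn).1).2 n rfl
  have yTU : y ∉ σ.T.U := fun hy => h.xy (σ.TO_iff.1 (σ.T.mem_U.1 hy).1).1
  have NV : ∀ {a : A}, σ.O a → a ∉ σ.U → σ.N a ∉ σ.V := by
    intro a ha hU hV
    rcases σ.mem_V.1 hV with ⟨r, hr, hE⟩ | h1
    · exact hU (by rw [← Ninj (σ.mem_U.1 hr).1 ha hE]; exact hr)
    · exact (mem_snk.1 h1).2 (σ.TO_iff.1 (σ.N_O ha).1).1
  have NZ : ∀ {a : A}, σ.O a → a ∉ σ.T.V → σ.N a ∉ insert (σ.b i) (insert (σ.b l) σ.T.U) := by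
    intro a ha hZ
    have h1 := σ.TO_iff.1 (σ.N_O ha).1
    rw [mem_insert, mem_insert]
    rintro (h3 | h3 | h3)
    · exact h1.2 i h3.symm
    · exact h1.2 l h3.symm
    · refine hZ (σ.T.mem_V.2 (Or.inl ⟨σ.N a, h3, ?_⟩))
      exact (σ.N_O ha).2.2
  have Ny : ∀ {a : A}, σ.O a → σ.N a ≠ y := by
    intro a ha h3
    exact h.xy (by rw [← h3]; exact (σ.TO_iff.1 (σ.N_O ha).1).1)
  have ZV : ∀ {c : B}, c ∈ insert (σ.b i) (insert (σ.b l) σ.T.U) → c ∉ σ.V := by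
    intro c hc
    rw [mem_insert, mem_insert] at hc
    rcases hc with h3 | h3 | h3
    · rw [h3]; exact σ.b_not_V i
    · rw [h3]; exact σ.b_not_V l
    · exact σ.f1_TU h h3
  have yZ : y ∉ insert (σ.b i) (insert (σ.b l) σ.T.U) := by
    rw [mem_insert, mem_insert]
    rintro (h3 | h3 | h3)
    · exact bY i h3.symm
    · exact bY l h3.symm
    · exact yTU h3
  have bZ : ∀ {q : ℤ}, i < q → q < i + σ.k → q ≠ l → σ.b q ∉ insert (σ.b i) (insert (σ.b l) σ.T.U) := by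
    intro q h1 h2 h2'
    rw [mem_insert, mem_insert]
    rintro (h3 | h3 | h3)
    · have := σ.ib i q (by omega) h2 h3.symm
      omega
    · rcases le_total q l with hle | hle
      · exact h2' (σ.ib q l hle (by omega) h3)
      · exact h2' (σ.ib l q hle (by omega) h3.symm).symm
    · exact bTU q h3
  let P : ℤ → ℤ → Prop := fun n q => (n < j ∧ q = n + 1) ∨ (j < n ∧ n < l ∧ q = n) ∨
    (l ≤ n ∧ n < m ∧ q = n + 1) ∨ (m < n ∧ q = n)
  let κ : A → B := fun a => if a ∈ insert (σ.a j) (insert (σ.a m) σ.U) then κU a else if a ∈ σ.T.V then κZ a else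
    if a = x then y else
    if ha : ∃ n, i ≤ n ∧ n < i + σ.k ∧ σ.a n = a then
      (if ha.choose < j ∨ (l ≤ ha.choose ∧ ha.choose < m) then σ.b (ha.choose + 1) else σ.b ha.choose)
    else σ.N a
  have k1 : ∀ a ∈ insert (σ.a j) (insert (σ.a m) σ.U), κ a = κU a := fun a ha => by
    simp only [κ, if_pos ha]
  have k2 : ∀ a ∈ σ.T.V, κ a = κZ a := fun a ha => by
    simp only [κ, if_neg (ZU ha).1, if_pos ha]
  have kx : κ x = y := by
    simp only [κ, if_neg XU, if_neg XZ, if_true]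
  have k3 : ∀ {a : A}, a ∉ insert (σ.a j) (insert (σ.a m) σ.U) → a ∉ σ.T.V → a ≠ x →
      (∃ n, i ≤ n ∧ n < i + σ.k ∧ σ.a n = a) →
      ∃ n q, i ≤ n ∧ n < i + σ.k ∧ σ.a n = a ∧ κ a = σ.b q ∧ P n q := by
    intro a h1 h2 h2' h3
    obtain ⟨g1, g2, g3⟩ := h3.choose_spec
    have g4 : h3.choose ≠ j := by
      intro g5
      rw [g5] at g3
      exact h1 (mem_insert.2 (Or.inl g3.symm))
    have g4' : h3.choose ≠ m := by
      intro g5
      rw [g5] at g3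
      exact h1 (mem_insert.2 (Or.inr (mem_insert.2 (Or.inl g3.symm))))
    by_cases g5 : h3.choose < j ∨ (l ≤ h3.choose ∧ h3.choose < m)
    · refine ⟨h3.choose, h3.choose + 1, g1, g2, g3, by
        simp only [κ, if_neg h1, if_neg h2, if_neg h2', dif_pos h3, if_pos g5], ?_⟩
      rcases g5 with g5 | ⟨g5, g6⟩
      · exact Or.inl ⟨g5, rfl⟩
      · exact Or.inr (Or.inr (Or.inl ⟨g5, g6, rfl⟩))
    · refine ⟨h3.choose, h3.choose, g1, g2, g3, by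
        simp only [κ, if_neg h1, if_neg h2, if_neg h2', dif_pos h3, if_neg g5], ?_⟩
      by_cases g6 : h3.choose < l
      · exact Or.inr (Or.inl ⟨by omega, g6, rfl⟩)
      · exact Or.inr (Or.inr (Or.inr ⟨by omega, rfl⟩))
  have k4 : ∀ a, σ.O a → a ∉ σ.U → a ∉ σ.T.V → κ a = σ.N a := by
    intro a h1 h2 h3
    have h4 : ¬ ∃ n, i ≤ n ∧ n < i + σ.k ∧ σ.a n = a := by
      rintro ⟨n, _, _, g3⟩
      exact h1.2 n g3
    simp only [κ, if_neg (OU h1 h2), if_neg h3, if_neg (Ox h1), dif_neg h4]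
  have Pq : ∀ {n q : ℤ}, i ≤ n → n < i + σ.k → P n q → i < q ∧ q < i + σ.k ∧ q ≠ l := by
    intro n q h1 h2 h3
    rcases h3 with h3 | h3 | h3 | h3 <;> omega
  -- the five kinds of rows
  have kind : ∀ a, (a ∈ insert (σ.a j) (insert (σ.a m) σ.U) ∧ κ a = κU a) ∨ (a ∈ σ.T.V ∧ κ a = κZ a) ∨
      (a = x ∧ κ a = y) ∨
      (∃ n q, i ≤ n ∧ n < i + σ.k ∧ σ.a n = a ∧ κ a = σ.b q ∧ P n q) ∨
      (σ.O a ∧ a ∉ σ.U ∧ a ∉ σ.T.V ∧ κ a = σ.N a) := by
    intro a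
    by_cases h1 : a ∈ insert (σ.a j) (insert (σ.a m) σ.U)
    · exact Or.inl ⟨h1, k1 a h1⟩
    by_cases h2 : a ∈ σ.T.V
    · exact Or.inr (Or.inl ⟨h2, k2 a h2⟩)
    by_cases h2' : a = x
    · exact Or.inr (Or.inr (Or.inl ⟨h2', by rw [h2']; exact kx⟩))
    by_cases h3 : ∃ n, i ≤ n ∧ n < i + σ.k ∧ σ.a n = a
    · exact Or.inr (Or.inr (Or.inr (Or.inl (k3 h1 h2 h2' h3))))
    · obtain ⟨h4, h5⟩ := rest h1 h2 h2' h3
      exact Or.inr (Or.inr (Or.inr (Or.inr ⟨h4, h5, h2, k4 a h4 h5 h2⟩)))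
  refine ⟨κ, ?_, ?_, kx, k1, k2, ?_, k4⟩
  · intro a a' hE
    rcases kind a with ⟨h1, h2⟩ | ⟨h1, h2⟩ | ⟨h1, h2⟩ | ⟨n, q, h1, h1', h1a, h2, h3⟩ | ⟨h1, h1', h1a, h2⟩ <;>
    rcases kind a' with ⟨g1, g2⟩ | ⟨g1, g2⟩ | ⟨g1, g2⟩ | ⟨n', q', g1, g1', g1a, g2, g3⟩ | ⟨g1, g1', g1a, g2⟩ <;>
    rw [h2, g2] at hE
    · exact iU h1 g1 hE
    · exact absurd (mU a h1).1 (by rw [hE]; exact ZV (mZ a' g1).1)
    · exact absurd (mU a h1).1 (by rw [hE]; exact σ.y_not_V h)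
    · exact absurd (mU a h1).1 (by rw [hE]; exact σ.b_not_V q')
    · exact absurd (mU a h1).1 (by rw [hE]; exact NV g1 g1')
    · exact absurd (mU a' g1).1 (by rw [← hE]; exact ZV (mZ a h1).1)
    · exact iZ h1 g1 hE
    · exact absurd (mZ a h1).1 (by rw [hE]; exact yZ)
    · obtain ⟨w1, w2, w3⟩ := Pq g1 g1' g3
      exact absurd (mZ a h1).1 (by rw [hE]; exact bZ w1 w2 w3)
    · exact absurd (mZ a h1).1 (by rw [hE]; exact NZ g1 g1a)
    · exact absurd (mU a' g1).1 (by rw [← hE]; exact σ.y_not_V h)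
    · exact absurd (mZ a' g1).1 (by rw [← hE]; exact yZ)
    · rw [h1, g1]
    · exact absurd hE.symm (bY q')
    · exact absurd hE.symm (Ny g1)
    · exact absurd (mU a' g1).1 (by rw [← hE]; exact σ.b_not_V q)
    · obtain ⟨w1, w2, w3⟩ := Pq h1 h1' h3
      exact absurd (mZ a' g1).1 (by rw [← hE]; exact bZ w1 w2 w3)
    · exact absurd hE (bY q)
    · obtain ⟨w1, w2, w3⟩ := Pq h1 h1' h3
      obtain ⟨w1', w2', w3'⟩ := Pq g1 g1' g3
      have hm : q = q' := by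
        rcases le_total q q' with hle | hle
        · exact σ.ib q q' hle (by omega) hE
        · exact (σ.ib q' q hle (by omega) hE.symm).symm
      have hl : n = n' := by
        rcases h3 with h3 | h3 | h3 | h3 <;> rcases g3 with g3 | g3 | g3 | g3 <;> omega
      rw [← h1a, ← g1a, hl]
    · exact absurd hE ((σ.TO_iff.1 (σ.N_O g1).1).2 q)
    · exact absurd (mU a' g1).1 (by rw [← hE]; exact NV h1 h1')
    · exact absurd (mZ a' g1).1 (by rw [← hE]; exact NZ h1 h1a)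
    · exact absurd hE (Ny h1)
    · exact absurd hE.symm ((σ.TO_iff.1 (σ.N_O h1).1).2 q')
    · exact Ninj h1 g1 hE
  · intro a
    rcases kind a with ⟨h1, h2⟩ | ⟨h1, h2⟩ | ⟨h1, h2⟩ | ⟨n, q, h1, h1', h1a, h2, h3⟩ | ⟨h1, h1', h1a, h2⟩
    · rw [h2]; exact (mU a h1).2
    · rw [h2]; exact (mZ a h1).2
    · rw [h2, h1]; exact h.xy
    · rw [h2, ← h1a]
      rcases h3 with ⟨_, h3⟩ | ⟨_, _, h3⟩ | ⟨_, _, h3⟩ | ⟨_, h3⟩
      · rw [h3]; exact σ.s_ab' n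
      · rw [h3]; exact σ.s_ab n
      · rw [h3]; exact σ.s_ab' n
      · rw [h3]; exact σ.s_ab n
    · rw [h2]; exact (σ.N_O h1).2.1
  · intro n hn hn'
    obtain ⟨l1, t, g1, g2, g3⟩ := σ.window i n
    have ha : σ.a n = σ.a l1 := by rw [g3, σ.a_add]
    have hb : σ.b n = σ.b l1 := by rw [g3, σ.b_add]
    have hb' : σ.b (n + 1) = σ.b (l1 + 1) := by
      rw [g3, show l1 + t * σ.k + 1 = (l1 + 1) + t * σ.k by ring, σ.b_add]
    obtain ⟨l2, q, e1, e2, e3, e4, e5⟩ := k3 (CU hn hn') CZ (σ.a_ne_x h n) ⟨l1, g1, g2, ha.symm⟩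
    have hl2 : l2 = l1 := by
      rw [ha] at e3
      rcases le_total l2 l1 with hle | hle
      · exact σ.ia l2 l1 hle (by omega) e3
      · exact (σ.ia l1 l2 hle (by omega) e3.symm).symm
    rw [e4, hb, hb']
    rcases e5 with ⟨_, e5⟩ | ⟨_, _, e5⟩ | ⟨_, _, e5⟩ | ⟨_, e5⟩
    · right; rw [e5, hl2]
    · left; rw [e5, hl2]
    · right; rw [e5, hl2]
    · left; rw [e5, hl2]

end MCC
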