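import Pool.Agent.Lib_MP_cb5629.T2S1
import Pool.Agent.Lib_MP_cb5629.T2Pm2

set_option linter.unusedSectionVars false

namespace MCC

open Finset Relation

variable {A B : Type} [Fintype A] [Fintype B] [DecidableEq A] [DecidableEq B]
variable {s : A → B → ℤ} {x : A} {y : B}

private lemma T2Kz_Ta (σ : St s x y) (i : ℤ) : σ.T.a (-i) = σ.b i := by
  show σ.b (- -i) = σ.b i
  rw [neg_neg]

private lemma T2Kz_b_not_TU (σ : St s x y) (i : ℤ) : σ.b i ∉ σ.T.U := by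
  have h1 := σ.T.a_not_U (-i)
  rwa [T2Kz_Ta] at h1

private lemma T2Kz_b_ne_y (h : T2Ctx s x y) (σ : St s x y) (i : ℤ) : σ.b i ≠ y := by
  intro h1
  have h2 := σ.bx i
  rw [h1] at h2
  exact h.xy h2

private lemma T2Kz_pos (σ : St s x y) {φ lam : A → ℝ} (hφ : σ.T.SV φ lam) {i : ℤ} (hi : σ.T.Ex (σ.b i)) :
    0 < σ.ξ (σ.b i) * vl (tr s) (σ.b i) φ := by
  have h1 := hφ.pos (-i)
  rw [T2Kz_Ta] at h1
  exact h1 hi

private lemma T2Kz_cardK (h : T2Ctx s x y) (σ : St s x y) {i l : ℤ} (hne : σ.b i ≠ σ.b l) :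
    (insert (σ.b i) (insert (σ.b l) σ.T.U)).card = σ.T.V.card := by
  rw [St.card_V h.tr σ.T, card_insert_of_notMem, card_insert_of_notMem (T2Kz_b_not_TU σ l)]
  rw [mem_insert, not_or]
  exact ⟨hne, T2Kz_b_not_TU σ i⟩

private lemma T2Kz_card (h : T2Ctx s x y) (σ : St s x y) {i l : ℤ} (hne : σ.b i ≠ σ.b l) :
    σ.T.V.card < (insert (σ.b i) (insert (σ.b l) (insert y σ.T.U))).card := by
  have hy : y ∉ σ.T.U := St.x_not_U h.tr σ.T
  rw [St.card_V h.tr σ.T, card_insert_of_notMem, card_insert_of_notMem, card_insert_of_notMem hy]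
  · omega
  · rw [mem_insert, not_or]
    exact ⟨T2Kz_b_ne_y h σ l, T2Kz_b_not_TU σ l⟩
  · rw [mem_insert, mem_insert, not_or, not_or]
    exact ⟨hne, T2Kz_b_ne_y h σ i, T2Kz_b_not_TU σ i⟩

private lemma T2Kz_pair (h : T2Ctx s x y) (σ : St s x y) {i l : ℤ} (hne : σ.b i ≠ σ.b l) {z : B → ℝ} {u : A → ℝ}
    (hz : ∀ c, c ∉ insert (σ.b i) (insert (σ.b l) (insert y σ.T.U)) → z c = 0)
    (hr : ∀ r ∈ σ.T.V, vl s r z = 0) (hu : ∀ r, r ∉ σ.T.V → u r = 0) (hk : ∀ c ∈ σ.T.U, vl (tr s) c u = 0) :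
    z (σ.b i) * vl (tr s) (σ.b i) u + z (σ.b l) * vl (tr s) (σ.b l) u + z y * vl (tr s) y u = 0 := by
  have hy : y ∉ σ.T.U := St.x_not_U h.tr σ.T
  have h1 := vl_pair s u z
  have h2 : ∑ r, u r * vl s r z = 0 := by
    apply sum_eq_zero
    intro r _
    by_cases hrV : r ∈ σ.T.V
    · rw [hr r hrV, mul_zero]
    · rw [hu r hrV, zero_mul]
  rw [h2] at h1
  have h3 : ∑ c, z c * vl (tr s) c u
      = ∑ c ∈ insert (σ.b i) (insert (σ.b l) (insert y σ.T.U)), z c * vl (tr s) c u := by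
    symm
    apply sum_subset (subset_univ _)
    intro c _ hc
    rw [hz c hc, zero_mul]
  have h4 : ∑ c ∈ σ.T.U, z c * vl (tr s) c u = 0 := by
    apply sum_eq_zero
    intro c hc
    rw [hk c hc, mul_zero]
  rw [h3, sum_insert, sum_insert, sum_insert hy, h4] at h1
  · linarith
  · rw [mem_insert, not_or]
    exact ⟨T2Kz_b_ne_y h σ l, T2Kz_b_not_TU σ l⟩
  · rw [mem_insert, mem_insert, not_or, not_or]
    exact ⟨hne, T2Kz_b_ne_y h σ i, T2Kz_b_not_TU σ i⟩

/-- Piece T2KZ. The kernel vector for two entries. Proof. `z ≠ 0` from `la_exists` as in `s1`; `vl_pair` with `φ` and `lam`: `z(b i) φ(b i) + z(b l) φ(b l) = 0`,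
`z(b i) lam(b i) + z(b l) lam(b l) + z(y) = 0` (`lam(y) = 1`, `σ.T.SV`). `φ(b i), φ(b l) ≠ 0` (`pos`: `0 < ξ(b i) φ(b i)`), so `z(b i) ≠ 0` by `indr`; change
the sign of `z` so that `0 < ξ(b i) z(b i)`; then `ξ(b l) z(b l) < 0`. With `κ = φ(b i) z(b i) = (ξ(b i) φ(b i)) (ξ(b i) z(b i)) > 0`:
`z(y) = - (del i) κ + (del l) κ`, as `lam(b i) = del i * φ(b i)`. -/
theorem St.kz (h : T2Ctx s x y) (σ : St s x y) {φ lam : A → ℝ} (hφ : σ.T.SV φ lam) {i l j : ℤ}
    (hi : σ.T.Ex (σ.b i)) (hl : σ.T.Ex (σ.b l)) (hne : σ.b i ≠ σ.b l) (hex : σ.Ex (σ.a j)) :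
    ∃ (z : B → ℝ) (κ : ℝ), (∀ c, c ∉ insert (σ.b i) (insert (σ.b l) (insert y σ.T.U)) → z c = 0) ∧
      (∀ r ∈ σ.T.V, vl s r z = 0) ∧ 0 < σ.ξ (σ.b i) * z (σ.b i) ∧ σ.ξ (σ.b l) * z (σ.b l) < 0 ∧ 0 < κ ∧
      z y = (σ.del φ lam l - σ.del φ lam i) * κ := by
  have P1 := T2Kz_pos σ hφ hi
  have P2 := T2Kz_pos σ hφ hl
  have hxi : ∀ c, σ.ξ c * σ.ξ c = 1 := by
    intro c
    rcases σ.ξ1 c with h1 | h1 <;> rw [h1] <;> norm_num
  have hA1 : vl (tr s) (σ.b i) φ ≠ 0 := fun h0 => by rw [h0, mul_zero] at P1; exact lt_irrefl _ P1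
  have hA2 : vl (tr s) (σ.b l) φ ≠ 0 := fun h0 => by rw [h0, mul_zero] at P2; exact lt_irrefl _ P2
  -- a kernel vector with the right sign
  obtain ⟨z, hzK, hzr, hz1⟩ : ∃ z : B → ℝ,
      (∀ c, c ∉ insert (σ.b i) (insert (σ.b l) (insert y σ.T.U)) → z c = 0) ∧ (∀ r ∈ σ.T.V, vl s r z = 0) ∧
      0 < σ.ξ (σ.b i) * z (σ.b i) := by
    obtain ⟨z, hz0, hzK, hzr⟩ := la_exists s σ.T.V _ (T2Kz_card h σ hne)
    have e1 := T2Kz_pair h σ hne hzK hzr hφ.z1 hφ.u1
    rw [hφ.x1, mul_zero, add_zero] at e1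
    have hzi : z (σ.b i) ≠ 0 := by
      intro h0
      apply hz0
      rw [h0, zero_mul, zero_add] at e1
      have h1 : z (σ.b l) = 0 := (mul_eq_zero.1 e1).resolve_right hA2
      refine σ.indr h hi hex (z := z) ?_ hzr
      intro c hc
      by_cases hc1 : c = σ.b i
      · rw [hc1, h0]
      by_cases hc2 : c = σ.b l
      · rw [hc2, h1]
      apply hzK
      rw [mem_insert, mem_insert, not_or, not_or]
      exact ⟨hc1, hc2, hc⟩
    have hxz : σ.ξ (σ.b i) * z (σ.b i) ≠ 0 := by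
      apply mul_ne_zero _ hzi
      intro h0
      have := hxi (σ.b i)
      rw [h0] at this
      norm_num at this
    rcases lt_or_gt_of_ne hxz with hlt | hgt
    · refine ⟨fun c => -z c, ?_, ?_, ?_⟩
      · intro c hc
        simp only [hzK c hc, neg_zero]
      · intro r hr
        have h1 := hzr r hr
        unfold vl at h1 ⊢
        simp only [mul_neg, sum_neg_distrib, h1, neg_zero]
      · simp only [mul_neg]
        linarith
    · exact ⟨z, hzK, hzr, hgt⟩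
  have e1 := T2Kz_pair h σ hne hzK hzr hφ.z1 hφ.u1
  rw [hφ.x1, mul_zero, add_zero] at e1
  have e2 := T2Kz_pair h σ hne hzK hzr hφ.z2 hφ.u2
  rw [hφ.x2, mul_one] at e2
  have k1 : z (σ.b i) * vl (tr s) (σ.b i) φ
      = (σ.ξ (σ.b i) * z (σ.b i)) * (σ.ξ (σ.b i) * vl (tr s) (σ.b i) φ) := by
    have h1 := hxi (σ.b i)
    calc z (σ.b i) * vl (tr s) (σ.b i) φ = 1 * (z (σ.b i) * vl (tr s) (σ.b i) φ) := by rw [one_mul]
      _ = (σ.ξ (σ.b i) * σ.ξ (σ.b i)) * (z (σ.b i) * vl (tr s) (σ.b i) φ) := by rw [h1]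
      _ = _ := by ring
  have k2 : z (σ.b l) * vl (tr s) (σ.b l) φ
      = (σ.ξ (σ.b l) * z (σ.b l)) * (σ.ξ (σ.b l) * vl (tr s) (σ.b l) φ) := by
    have h1 := hxi (σ.b l)
    calc z (σ.b l) * vl (tr s) (σ.b l) φ = 1 * (z (σ.b l) * vl (tr s) (σ.b l) φ) := by rw [one_mul]
      _ = (σ.ξ (σ.b l) * σ.ξ (σ.b l)) * (z (σ.b l) * vl (tr s) (σ.b l) φ) := by rw [h1]
      _ = _ := by ring
  have hκ : 0 < z (σ.b i) * vl (tr s) (σ.b i) φ := by
    rw [k1]
    exact mul_pos hz1 P1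
  refine ⟨z, z (σ.b i) * vl (tr s) (σ.b i) φ, hzK, hzr, hz1, ?_, hκ, ?_⟩
  · have h1 : (σ.ξ (σ.b l) * z (σ.b l)) * (σ.ξ (σ.b l) * vl (tr s) (σ.b l) φ) < 0 := by
      rw [← k2]
      linarith
    by_contra h2
    have h3 := mul_nonneg (not_lt.1 h2) P2.le
    linarith
  · have d1 : vl (tr s) (σ.b i) lam = σ.del φ lam i * vl (tr s) (σ.b i) φ := by
      unfold St.del gam
      rw [div_mul_cancel₀ _ hA1]
    have d2 : vl (tr s) (σ.b l) lam = σ.del φ lam l * vl (tr s) (σ.b l) φ := by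
      unfold St.del gam
      rw [div_mul_cancel₀ _ hA2]
    rw [d1, d2] at e2
    have e3 : z (σ.b l) * vl (tr s) (σ.b l) φ = -(z (σ.b i) * vl (tr s) (σ.b i) φ) := by linarith
    have e4 : z (σ.b l) * (σ.del φ lam l * vl (tr s) (σ.b l) φ)
        = σ.del φ lam l * -(z (σ.b i) * vl (tr s) (σ.b i) φ) := by
      rw [← e3]
      ring
    rw [e4] at e2
    linear_combination e2

/-- Piece T2LK. If both pairs are linkable then the entries (and dually the exits) have different positions. Proof. Suppose `del i = del l`. `kz`: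
`z y = 0`. `pm2` with `κU` from `hU` and `κZ` from `hZ` (`match_tr`; `|insert (b i) (insert (b l) σ.T.U)| = |σ.T.V|`). `spl_use`:
`X r = insert (b i) (insert (b l) σ.T.U)` for `r ∈ σ.T.V` (zero sum), `X r = {κ r}` otherwise (`κ r` is not one of these columns, as `κ` maps `σ.T.V` onto them,
so `z (κ r) = 0`). So `z = 0`: contradiction. -/
theorem St.lk (h : T2Ctx s x y) (σ : St s x y) {φ lam : A → ℝ} (hφ : σ.T.SV φ lam) {i j l m : ℤ} (hij : i ≤ j)
    (hjl : j < l) (hlm : l ≤ m) (hm : m < i + σ.k) (hi : σ.T.Ex (σ.b i)) (hl : σ.T.Ex (σ.b l)) (hj : σ.Ex (σ.a j))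
    (hU : σ.Lk (σ.a j) (σ.a m)) (hZ : σ.T.Lk (σ.b i) (σ.b l)) : σ.del φ lam i ≠ σ.del φ lam l := by
  intro heq
  have hne : σ.b i ≠ σ.b l := by
    intro h1
    have h2 := σ.ib i l (by omega) (by omega) h1
    omega
  obtain ⟨z, κ0, hzK, hzr, hz1, hz2, hκ0, hy⟩ := σ.kz h hφ hi hl hne hj
  have hy0 : z y = 0 := by rw [hy, heq, sub_self, zero_mul]
  obtain ⟨κU, iU, mU⟩ := hU
  obtain ⟨κ1, i1, m1⟩ := hZ
  have hcard := T2Kz_cardK h σ hne
  haveI : Nonempty B := ⟨y⟩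
  obtain ⟨κZ, iZ, mZ, -⟩ := match_tr (s := tr s) hcard i1 m1
  obtain ⟨κ, hκi, hκe, -, -, hκV, -, -⟩ := σ.pm2 h hij hjl hlm hm iU mU iZ mZ
  have himg : σ.T.V.image κ = insert (σ.b i) (insert (σ.b l) σ.T.U) := by
    apply eq_of_subset_of_card_le
    · intro c hc
      obtain ⟨r, hr, rfl⟩ := mem_image.1 hc
      rw [hκV r hr]
      exact (mZ r hr).1
    · rw [card_image_of_injective _ hκi, hcard]
  have hz0 : z = 0 := by
    refine spl_use h hκi hκe (fun r => if r ∈ σ.T.V then insert (σ.b i) (insert (σ.b l) σ.T.U) else {κ r}) ?_ z ?_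
    · intro r
      by_cases hr : r ∈ σ.T.V
      · simp only [if_pos hr]
        rw [hκV r hr]
        exact (mZ r hr).1
      · simp only [if_neg hr]
        exact mem_singleton_self _
    · intro r
      by_cases hr : r ∈ σ.T.V
      · simp only [if_pos hr]
        apply balOn_of_vl (hzr r hr)
        intro c hc
        by_cases hcy : c = y
        · rw [hcy, hy0]
        apply hzK
        intro hc'
        apply hc
        simp only [mem_insert] at hc' ⊢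
        rcases hc' with h1 | h1 | h1 | h1
        · exact Or.inl h1
        · exact Or.inr (Or.inl h1)
        · exact absurd h1 hcy
        · exact Or.inr (Or.inr h1)
      · simp only [if_neg hr]
        apply balOn_single
        have hn : κ r ∉ insert (σ.b i) (insert (σ.b l) σ.T.U) := by
          intro h1
          rw [← himg] at h1
          obtain ⟨r', hr', he⟩ := mem_image.1 h1
          rw [hκi he] at hr'
          exact hr hr'
        by_cases hcy : κ r = y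
        · rw [hcy, hy0]
        apply hzK
        intro hc'
        apply hn
        simp only [mem_insert] at hc' ⊢
        rcases hc' with h1 | h1 | h1 | h1
        · exact Or.inl h1
        · exact Or.inr (Or.inl h1)
        · exact absurd h1 hcy
        · exact Or.inr (Or.inr h1)
  rw [hz0] at hz1
  simp at hz1

end MCC
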