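import Pool.Agent.Lib_MP_cb5629.T2Ind

set_option linter.unusedSectionVars false

namespace MCC

open Finset Relation

variable {A B : Type} [Fintype A] [Fintype B] [DecidableEq A] [DecidableEq B]
variable {s : A → B → ℤ} {x : A} {y : B}

open Classical in
/-- the rows reachable from `r0` (including `r0`) -/
noncomputable def St.Rc (σ : St s x y) (r0 : A) : Finset A := univ.filter fun r => ReflTransGen σ.step r0 r

lemma St.mem_Rc (σ : St s x y) {r0 r : A} : r ∈ σ.Rc r0 ↔ ReflTransGen σ.step r0 r := by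
  simp [St.Rc]

private lemma T2Leg_inj (σ : St s x y) {a a' : A} (ha : σ.O a) (ha' : σ.O a') (hE : σ.N a = σ.N a') : a = a' := by
  rw [← (σ.N_O ha).2.2, ← (σ.N_O ha').2.2, hE]

private lemma T2Leg_O (σ : St s x y) {r0 r : A} (hr : r ∈ σ.Rc r0) (hne : r ≠ r0) : σ.O r := by
  rcases ReflTransGen.cases_tail (σ.mem_Rc.1 hr) with h1 | ⟨r', -, h2, -⟩
  · exact absurd h1 hne
  · exact h2

/-- `mem_TV` -/
lemma St.Rc_sub (σ : St s x y) {r0 : A} (hr0 : r0 ∈ snk (tr s) y x) : σ.Rc r0 ⊆ σ.T.V := by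
  intro r hr
  exact σ.mem_TV.2 ⟨r0, hr0, σ.mem_Rc.1 hr⟩

/-- the partners of the rows of `Rc r0` other than `r0` -/
noncomputable def St.Kc (σ : St s x y) (r0 : A) : Finset B := ((σ.Rc r0).erase r0).image σ.N

/-- sources are not off-cycle rows, so `r0` is not reached by a step; `σ.N` is injective on the other rows -/
lemma St.card_Rc (h : T2Ctx s x y) (σ : St s x y) {r0 : A} (hr0 : r0 ∈ snk (tr s) y x) :
    (σ.Rc r0).card = (σ.Kc r0).card + 1 := by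
  have h1 : r0 ∈ σ.Rc r0 := σ.mem_Rc.2 ReflTransGen.refl
  rw [St.Kc, card_image_of_injOn, card_erase_of_mem h1]
  · have := card_pos.2 ⟨r0, h1⟩
    omega
  · intro r hr r' hr' he
    rw [mem_coe, mem_erase] at hr hr'
    exact T2Leg_inj σ (T2Leg_O σ hr.2 hr.1) (T2Leg_O σ hr'.2 hr'.1) he

lemma St.Kc_sub (h : T2Ctx s x y) (σ : St s x y) {r0 : A} (hr0 : r0 ∈ snk (tr s) y x) : σ.Kc r0 ⊆ σ.T.U := by
  intro c hc
  rw [St.Kc, mem_image] at hc
  obtain ⟨r, hr, rfl⟩ := hc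
  rw [mem_erase] at hr
  have h1 := T2Leg_O σ hr.2 hr.1
  refine (σ.TV_O (σ.Rc_sub hr0 hr.2) fun h2 => ?_).2
  exact (mem_snk.1 h2).2 h1.1

/-- A column of `σ.T.U` outside `Kc r0` is adjacent to no row of `Rc r0` (otherwise there is a step to its partner). -/
lemma St.Rc_adj (h : T2Ctx s x y) (σ : St s x y) {r0 r : A} (hr0 : r0 ∈ snk (tr s) y x) (hr : r ∈ σ.Rc r0) {c : B}
    (hc : c ∈ σ.T.U) (hrc : s r c ≠ 0) : c ∈ σ.Kc r0 := by
  obtain ⟨h1, -, h3⟩ := σ.M_O (σ.T.mem_U.1 hc).1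
  have h4 : σ.M c ∈ σ.Rc r0 := by
    refine σ.mem_Rc.2 ((σ.mem_Rc.1 hr).tail ⟨h1, ?_⟩)
    rw [h3]
    exact hrc
  rw [St.Kc, mem_image]
  refine ⟨σ.M c, mem_erase.2 ⟨fun he => ?_, h4⟩, h3⟩
  have h5 := (mem_snk.1 hr0).2
  rw [← he] at h5
  exact h5 h1.1

/-- The leg. Hall (`hall_on`, `RA = Rc r0`, `RB = insert (b l) (Kc r0)`): `S ⊆ Rc r0`; without `r0`: `σ.N`. With `r0`: the `|S| - 1` columns `σ.N r`, `r ∈ S - r0`, are in
`NA s S`; if nothing else of `RB` is, then every row reachable from `r0` is in `S` (a step `r → r'`, `r ∈ S`: `σ.N r' ∈ NA s S ∩ RB`, so `r' ∈ S`), so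
`b l ∈ NA s S`: contradiction. -/
theorem St.leg (h : T2Ctx s x y) (σ : St s x y) {r0 : A} (hr0 : r0 ∈ snk (tr s) y x) {l : ℤ} (hw : σ.W r0 (σ.b l)) :
    ∃ κ : A → B, Set.InjOn κ (σ.Rc r0 : Finset A) ∧
      ∀ r ∈ σ.Rc r0, κ r ∈ insert (σ.b l) (σ.Kc r0) ∧ s r (κ r) ≠ 0 := by
  have hB : Nonempty B := ⟨σ.b l⟩
  have key : ∀ r ∈ σ.Rc r0, r ≠ r0 → σ.O r ∧ σ.N r ∈ σ.Kc r0 := by
    intro r hr hne
    refine ⟨T2Leg_O σ hr hne, ?_⟩
    rw [St.Kc, mem_image]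
    exact ⟨r, mem_erase.2 ⟨hne, hr⟩, rfl⟩
  refine hall_on (σ.Rc r0) (insert (σ.b l) (σ.Kc r0)) fun S hS => ?_
  have hsub : (S.erase r0).image σ.N ⊆ NA s S ∩ insert (σ.b l) (σ.Kc r0) := by
    intro c hc
    rw [mem_image] at hc
    obtain ⟨r, hr, rfl⟩ := hc
    rw [mem_erase] at hr
    obtain ⟨h1, h2⟩ := key r (hS hr.2) hr.1
    rw [mem_inter, mem_NA, mem_insert]
    exact ⟨⟨r, hr.2, (σ.N_O h1).2.1⟩, Or.inr h2⟩
  have hcard : ((S.erase r0).image σ.N).card = (S.erase r0).card := by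
    apply card_image_of_injOn
    intro r hr r' hr' he
    rw [mem_coe, mem_erase] at hr hr'
    exact T2Leg_inj σ (key r (hS hr.2) hr.1).1 (key r' (hS hr'.2) hr'.1).1 he
  by_cases h0 : r0 ∈ S
  · by_contra hlt
    push Not at hlt
    have h1 := card_erase_of_mem h0
    have h1' := card_pos.2 ⟨r0, h0⟩
    have heq : (S.erase r0).image σ.N = NA s S ∩ insert (σ.b l) (σ.Kc r0) :=
      eq_of_subset_of_card_le hsub (by omega)
    have hall : ∀ r, ReflTransGen σ.step r0 r → r ∈ S := by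
      intro r hr
      induction hr with
      | refl => exact h0
      | @tail r r' hr hst ih =>
        have h2 : r' ∈ σ.Rc r0 := σ.mem_Rc.2 (hr.tail hst)
        by_cases hne : r' = r0
        · rw [hne]; exact h0
        · have h3 := (key r' h2 hne).2
          have h4 : σ.N r' ∈ NA s S ∩ insert (σ.b l) (σ.Kc r0) := by
            rw [mem_inter, mem_NA, mem_insert]
            exact ⟨⟨r, ih, hst.2⟩, Or.inr h3⟩
          rw [← heq, mem_image] at h4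
          obtain ⟨r2, h5, h6⟩ := h4
          rw [mem_erase] at h5
          have h7 := T2Leg_inj σ (key r2 (hS h5.2) h5.1).1 (key r' h2 hne).1 h6
          rw [← h7]
          exact h5.2
    obtain ⟨r', h2, h3⟩ := hw
    have h4 : σ.b l ∈ NA s S ∩ insert (σ.b l) (σ.Kc r0) := by
      rw [mem_inter, mem_NA, mem_insert]
      exact ⟨⟨r', hall r' h2, h3⟩, Or.inl rfl⟩
    rw [← heq, mem_image] at h4
    obtain ⟨r2, h5, h6⟩ := h4
    rw [mem_erase] at h5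
    have h7 := (σ.N_O (key r2 (hS h5.2) h5.1).1).1
    rw [St.TO_iff] at h7
    exact h7.2 l h6.symm
  · have h1 := erase_eq_of_notMem h0
    rw [h1] at hcard hsub
    rw [← hcard]
    exact card_le_card hsub

/-- Piece T2LEG. The perfect matching in which `Z` is matched by: `leg` on `Rc r0`, the other source `↦ y`, `σ.N` on the remaining rows of `Z`. Proof: `pm1` (after moving `l`
into the window `(j - k, j]`) with `κU` from `lkx`. -/
theorem St.pm_leg (h : T2Ctx s x y) (σ : St s x y) {r0 : A} (hr0 : r0 ∈ snk (tr s) y x) {l j : ℤ}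
    (hw : σ.W r0 (σ.b l)) (hex : σ.Ex (σ.a j)) :
    ∃ κ : A → B, Function.Injective κ ∧ (∀ r, s r (κ r) ≠ 0) ∧ (∀ r ∈ insert (σ.a j) (insert x σ.U), κ r ∈ σ.V) ∧
      (∀ r ∈ σ.Rc r0, κ r ∈ insert (σ.b l) (σ.Kc r0)) ∧ (∀ r ∈ snk (tr s) y x, r ≠ r0 → κ r = y) ∧
      (∀ r ∈ σ.T.V, r ∉ σ.Rc r0 → r ∉ snk (tr s) y x → κ r = σ.N r) ∧
      (∀ n, σ.a n ≠ σ.a j → κ (σ.a n) = σ.b n ∨ κ (σ.a n) = σ.b (n + 1)) ∧
      ∀ r, σ.O r → r ∉ σ.U → r ∉ σ.T.V → κ r = σ.N r := by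
  classical
  obtain ⟨κ1, i1, m1⟩ := σ.leg h hr0 hw
  obtain ⟨i, hi1, hi2, hi3⟩ := σ.b_window (j - σ.k + 1) l
  obtain ⟨κU, iU, mU⟩ := σ.lkx h hex (σ.a_not_U j) (σ.a_ne_x h j)
  have hyT : y ∉ σ.T.U := by
    intro h1
    have h2 := (σ.T.mem_U.1 h1).1
    rw [St.TO_iff] at h2
    exact h.xy h2.1
  have hby : ∀ n, σ.b n ≠ y := by
    intro n h1
    have h2 := σ.bx n
    rw [h1] at h2
    exact h.xy h2
  have hRy : ∀ r ∈ σ.Rc r0, κ1 r ≠ y := by
    intro r hr h1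
    have h2 := (m1 r hr).1
    rw [h1, mem_insert] at h2
    rcases h2 with h2 | h2
    · exact hby l h2.symm
    · exact hyT (σ.Kc_sub h hr0 h2)
  have hsR : ∀ r ∈ snk (tr s) y x, r ≠ r0 → r ∉ σ.Rc r0 := by
    intro r hr hne h1
    exact (mem_snk.1 hr).2 (T2Leg_O σ h1 hne).1
  have hsu : ∀ r ∈ snk (tr s) y x, ∀ r' ∈ snk (tr s) y x, r ≠ r0 → r' ≠ r0 → r = r' := by
    intro r hr r' hr' h1 h2
    have h3 : ((snk (tr s) y x).erase r0).card = 1 := by
      rw [card_erase_of_mem hr0, card_snk h.tr]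
    obtain ⟨d, hd⟩ := card_eq_one.1 h3
    have e1 : r ∈ (snk (tr s) y x).erase r0 := mem_erase.2 ⟨h1, hr⟩
    have e2 : r' ∈ (snk (tr s) y x).erase r0 := mem_erase.2 ⟨h2, hr'⟩
    rw [hd, mem_singleton] at e1 e2
    rw [e1, e2]
  have hNK : ∀ r, σ.O r → r ∉ σ.Rc r0 → σ.N r ∉ insert (σ.b l) (σ.Kc r0) := by
    intro r hr hrc h1
    rw [mem_insert] at h1
    rcases h1 with h1 | h1
    · have h2 := (σ.N_O hr).1
      rw [St.TO_iff] at h2
      exact h2.2 l h1.symm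
    · rw [St.Kc, mem_image] at h1
      obtain ⟨r2, h2, h3⟩ := h1
      rw [mem_erase] at h2
      have h4 := T2Leg_inj σ (T2Leg_O σ h2.2 h2.1) hr h3
      rw [h4] at h2
      exact hrc h2.2
  have hNy : ∀ r, σ.O r → σ.N r ≠ y := by
    intro r hr h1
    have h2 := (σ.N_O hr).1
    rw [St.TO_iff, h1] at h2
    exact h.xy h2.1
  let κZ : A → B := fun r => if r ∈ σ.Rc r0 then κ1 r else if r ∈ snk (tr s) y x then y else σ.N r
  have z1 : ∀ r ∈ σ.Rc r0, κZ r = κ1 r := fun r hr => if_pos hr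
  have z2 : ∀ r, r ∉ σ.Rc r0 → r ∈ snk (tr s) y x → κZ r = y := fun r hr hr' => by
    simp only [κZ, if_neg hr, if_pos hr']
  have z3 : ∀ r, r ∉ σ.Rc r0 → r ∉ snk (tr s) y x → κZ r = σ.N r := fun r hr hr' => by
    simp only [κZ, if_neg hr, if_neg hr']
  have hr0R : r0 ∈ σ.Rc r0 := σ.mem_Rc.2 ReflTransGen.refl
  have iZ : Set.InjOn κZ (σ.T.V : Finset A) := by
    intro r hr r' hr' he
    rw [mem_coe] at hr hr'
    by_cases c1 : r ∈ σ.Rc r0
    · rw [z1 r c1] at he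
      by_cases c1' : r' ∈ σ.Rc r0
      · rw [z1 r' c1'] at he
        exact i1 c1 c1' he
      · by_cases c2' : r' ∈ snk (tr s) y x
        · rw [z2 r' c1' c2'] at he
          exact absurd he (hRy r c1)
        · rw [z3 r' c1' c2'] at he
          exact absurd (he ▸ (m1 r c1).1) (hNK r' (σ.TV_O hr' c2').1 c1')
    · by_cases c2 : r ∈ snk (tr s) y x
      · rw [z2 r c1 c2] at he
        by_cases c1' : r' ∈ σ.Rc r0
        · rw [z1 r' c1'] at he
          exact absurd he.symm (hRy r' c1')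
        · by_cases c2' : r' ∈ snk (tr s) y x
          · exact hsu r c2 r' c2' (fun e => c1 (e ▸ hr0R)) fun e => c1' (e ▸ hr0R)
          · rw [z3 r' c1' c2'] at he
            exact absurd he.symm (hNy r' (σ.TV_O hr' c2').1)
      · rw [z3 r c1 c2] at he
        by_cases c1' : r' ∈ σ.Rc r0
        · rw [z1 r' c1'] at he
          exact absurd (he.symm ▸ (m1 r' c1').1) (hNK r (σ.TV_O hr c2).1 c1)
        · by_cases c2' : r' ∈ snk (tr s) y x
          · rw [z2 r' c1' c2'] at he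
            exact absurd he (hNy r (σ.TV_O hr c2).1)
          · rw [z3 r' c1' c2'] at he
            exact T2Leg_inj σ (σ.TV_O hr c2).1 (σ.TV_O hr' c2').1 he
  have mZ : ∀ r ∈ σ.T.V, κZ r ∈ insert (σ.b i) (insert y σ.T.U) ∧ s r (κZ r) ≠ 0 := by
    intro r hr
    by_cases c1 : r ∈ σ.Rc r0
    · rw [z1 r c1]
      refine ⟨?_, (m1 r c1).2⟩
      have h1 := (m1 r c1).1
      rw [mem_insert] at h1
      rw [mem_insert, mem_insert, hi3]
      rcases h1 with h1 | h1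
      · exact Or.inl h1
      · exact Or.inr (Or.inr (σ.Kc_sub h hr0 h1))
    · by_cases c2 : r ∈ snk (tr s) y x
      · rw [z2 r c1 c2, mem_insert, mem_insert]
        exact ⟨Or.inr (Or.inl rfl), (mem_snk.1 c2).2⟩
      · rw [z3 r c1 c2, mem_insert, mem_insert]
        obtain ⟨h1, h2⟩ := σ.TV_O hr c2
        exact ⟨Or.inr (Or.inr h2), (σ.N_O h1).2.1⟩
  obtain ⟨κ, g1, g2, g3, g4, g5, g6⟩ := σ.pm1 h (i := i) (j := j) (by omega) (by omega) iU mU iZ mZ
  refine ⟨κ, g1, g2, fun r hr => ?_, fun r hr => ?_, fun r hr hne => ?_, fun r hr h1 h2 => ?_, g5, g6⟩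
  · rw [g3 r hr]
    exact (mU r hr).1
  · rw [g4 r (σ.Rc_sub hr0 hr), z1 r hr]
    exact (m1 r hr).1
  · rw [g4 r (σ.T.mem_V.2 (Or.inr hr)), z2 r (hsR r hr hne) hr]
  · rw [g4 r hr, z3 r h1 h2]

end MCC
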