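import Pool.Agent.Lib_MP_cb5629.T2Ear
import Pool.Agent.Lib_MP_cb5629.T2F1

set_option linter.unusedSectionVars false

namespace MCC

open Finset Relation

variable {A B : Type} [Fintype A] [Fintype B] [DecidableEq A] [DecidableEq B]
variable {s : A → B → ℤ} {x : A} {y : B}

private lemma T2Om_cases {σ σ' : St s x y} {m t : ℤ} {R : Finset A} (hE : σ.Ear σ' m t R) (i : ℤ) :
    (∃ w, t ≤ w ∧ w ≤ m + σ.k ∧ σ'.a i = σ.a w ∧ σ'.b i = σ.b w) ∨ (σ'.a i ∈ R ∧ σ'.b i = σ.N (σ'.a i)) := by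
  obtain ⟨j, n, h1, h2, h3⟩ := σ'.window t i
  have ea : σ'.a i = σ'.a j := by rw [h3, σ'.a_add]
  have eb : σ'.b i = σ'.b j := by rw [h3, σ'.b_add]
  rcases le_or_gt j (m + σ.k) with h4 | h4
  · exact Or.inl ⟨j, h1, h4, by rw [ea, hE.keepa j h1 h4], by rw [eb, hE.keepb j h1 h4]⟩
  · right
    rw [ea, eb]
    exact ⟨hE.newa j h4 h2, hE.newb j h4 h2⟩

private lemma T2Om_N_ne {σ : St s x y} {r : A} (hr : σ.O r) (i : ℤ) : σ.N r ≠ σ.b i := fun he =>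
  (σ.TO_iff.mp (σ.N_O hr).1).2 i he.symm

/-- an entry is not the partner of a row of the ear -/
private lemma T2Om_noN {σ σ' : St s x y} {m t : ℤ} {R : Finset A} (hE : σ.Ear σ' m t R)
    (hZ : ∀ r ∈ R, r ∉ σ.T.V) {r : A} (hr : r ∈ R) : ¬ σ.T.Ex (σ.N r) := by
  intro hx
  obtain ⟨r', hr', h1⟩ := σ.T.Ex_iff.mp hx
  exact hZ r hr (σ.TV_step hr' ⟨hE.offR r hr, h1⟩)

/-- The rows off the new cycle: the old ones without the ear, and the rows of the omitted arc. (The rows of the new cycle are `a i`, `t ≤ i ≤ m + k`, and `R`.) -/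
theorem St.Ear.O_iff {σ σ' : St s x y} {m t : ℤ} {R : Finset A} (hE : σ.Ear σ' m t R) {r : A} :
    σ'.O r ↔ (σ.O r ∧ r ∉ R) ∨ ∃ i, m < i ∧ i < t ∧ σ.a i = r := by
  constructor
  · rintro ⟨h1, h2⟩
    by_cases hr : ∃ i, σ.a i = r
    · obtain ⟨i, hi⟩ := hr
      obtain ⟨j, g1, g2, g3⟩ := σ.a_window (m + 1) i
      rcases lt_or_ge j t with g4 | g4
      · exact Or.inr ⟨j, by omega, g4, by rw [g3, hi]⟩
      · exact absurd (by rw [hE.keepa j g4 (by omega), g3, hi]) (h2 j)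
    · left
      refine ⟨⟨h1, fun i hi => hr ⟨i, hi⟩⟩, fun hR => ?_⟩
      obtain ⟨i, hi⟩ := hE.surj r hR
      exact h2 i hi
  · rintro (⟨⟨h1, h2⟩, h3⟩ | ⟨i, h1, h2, h3⟩)
    · refine ⟨h1, fun i hi => ?_⟩
      rcases T2Om_cases hE i with ⟨w, _, _, g3, _⟩ | ⟨g1, _⟩
      · exact h2 w (by rw [← g3, hi])
      · rw [hi] at g1
        exact h3 g1
    · refine ⟨by rw [← h3]; exact σ.ay i, fun i' hi' => ?_⟩
      rcases T2Om_cases hE i' with ⟨w, g1, g2, g3, _⟩ | ⟨g1, _⟩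
      · have := σ.ia i w (by omega) (by omega) (by rw [h3, ← g3, hi'])
        omega
      · rw [hi', ← h3] at g1
        exact (hE.offR _ g1).2 i rfl

lemma St.Ear.step_of {σ σ' : St s x y} {m t : ℤ} {R : Finset A} (hE : σ.Ear σ' m t R) {u v : A} (h : σ.step u v)
    (hv : v ∉ R) : σ'.step u v := by
  exact ⟨hE.O_iff.mpr (Or.inl ⟨h.1, hv⟩), by rw [hE.offN v h.1 hv]; exact h.2⟩

lemma St.Ear.reach_of {σ σ' : St s x y} {m t : ℤ} {R : Finset A} (hE : σ.Ear σ' m t R) {u v : A}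
    (h : ReflTransGen (fun u v => σ.step u v ∧ v ∉ R) u v) : ReflTransGen σ'.step u v := by
  induction h with
  | refl => exact ReflTransGen.refl
  | tail _ h2 ih => exact ih.tail (hE.step_of h2.1 h2.2)

/-- a column `b i` of the omitted arc is now the partner of `a i` -/
lemma St.Ear.into {σ σ' : St s x y} {m t : ℤ} {R : Finset A} (hE : σ.Ear σ' m t R) {i : ℤ} (h1 : m < i) (h2 : i < t)
    {r : A} (hr : s r (σ.b i) ≠ 0) : σ'.step r (σ.a i) := by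
  exact ⟨hE.O_iff.mpr (Or.inr ⟨i, h1, h2, rfl⟩), by rw [hE.omitN i h1 h2]; exact hr⟩

/-- `a i → a (i+1) → ...` along the omitted arc -/
lemma St.Ear.arc {σ σ' : St s x y} {m t : ℤ} {R : Finset A} (hE : σ.Ear σ' m t R) {i i' : ℤ} (h1 : m < i) (h2 : i ≤ i')
    (h3 : i' < t) : ReflTransGen σ'.step (σ.a i) (σ.a i') := by
  obtain ⟨n, rfl⟩ : ∃ n : ℕ, i' = i + n := ⟨(i' - i).toNat, by omega⟩
  clear h2
  induction n with
  | zero => simp only [Nat.cast_zero, add_zero]; exact ReflTransGen.refl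
  | succ n ih =>
    have h4 : i + ((n + 1 : ℕ) : ℤ) = i + (n : ℤ) + 1 := by push_cast; ring
    rw [h4] at h3 ⊢
    refine (ih (by omega)).tail ?_
    exact hE.into (by omega) h3 (σ.s_ab' _)

/-- Walks of `σ` inside `σ.T.V` survive if the ear misses `σ.T.V`. -/
lemma St.Ear.reach_TV {σ σ' : St s x y} {m t : ℤ} {R : Finset A} (hE : σ.Ear σ' m t R) (hZ : ∀ r ∈ R, r ∉ σ.T.V)
    {r0 r : A} (hr0 : r0 ∈ σ.T.V) (h : ReflTransGen σ.step r0 r) : ReflTransGen σ'.step r0 r := by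
  have key : r ∈ σ.T.V ∧ ReflTransGen σ'.step r0 r := by
    induction h with
    | refl => exact ⟨hr0, ReflTransGen.refl⟩
    | tail _ h2 ih =>
      have h3 := σ.TV_step ih.1 h2
      exact ⟨h3, ih.2.tail (hE.step_of h2 (fun hR => hZ _ hR h3))⟩
  exact key.2

/-- Piece T2OM. OMITTED ARC: if the ear misses `σ.T.V`, an entry `b i` of the omitted arc cannot be followed (within the omitted arc) by a row `a i'` from which a sink
can be reached off the ear. Proof: the source reaches a row adjacent to `b i` inside `σ.T.V` (`W_T`, `mem_TV`, `reach_TV`), then `into`, `arc`, `reach_of`, the sink: `f1` for `σ'`. -/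
theorem St.Ear.om (h : T2Ctx s x y) {σ σ' : St s x y} {m t : ℤ} {R : Finset A} (hE : σ.Ear σ' m t R)
    (hZ : ∀ r ∈ R, r ∉ σ.T.V) {i i' : ℤ} (h1 : m < i) (h2 : i ≤ i') (h3 : i' < t) (hi : σ.T.Ex (σ.b i)) {r' : A}
    (hw : ReflTransGen (fun u v => σ.step u v ∧ v ∉ R) (σ.a i') r') {c : B} (hc : c ∈ snk s x y) (hr' : s r' c ≠ 0) :
    False := by
  obtain ⟨r0, hr0, hW⟩ := hi
  obtain ⟨r1, g1, g2⟩ := σ.W_T.mp hW
  have hr0V : r0 ∈ σ.T.V := σ.mem_TV.mpr ⟨r0, hr0, ReflTransGen.refl⟩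
  have w1 := hE.reach_TV hZ hr0V g1
  have w2 := w1.tail (hE.into h1 (by omega) g2)
  have w3 := (w2.trans (hE.arc h1 h2 h3)).trans (hE.reach_of hw)
  exact σ'.f1 h hr0 ⟨c, hc, r', w3, hr'⟩

/-- If the omitted arc contains no entry and the ear misses `σ.T.V`, the dual set is unchanged. Proof. `⊇`: `reach_TV`. `⊆`: a walk of `σ'` from a source stays in `σ.T.V`:
a step `u → v` with `u ∈ σ.T.V`: `v` is off `σ'`; `v = a i` in the omitted arc would give `s u (b i) ≠ 0`, so `b i` would be an entry of `σ` (`mem_TV`, `W_T`); so `σ.O v`, `σ.N v = σ'.N v`,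
`σ.step u v`, `TV_step`. -/
theorem St.Ear.TV_eq {σ σ' : St s x y} {m t : ℤ} {R : Finset A} (hE : σ.Ear σ' m t R)
    (hZ : ∀ r ∈ R, r ∉ σ.T.V) (hen : ∀ i, m < i → i < t → ¬ σ.T.Ex (σ.b i)) : σ'.T.V = σ.T.V := by
  ext r
  rw [σ'.mem_TV, σ.mem_TV]
  constructor
  · rintro ⟨r0, hr0, hw⟩
    refine ⟨r0, hr0, ?_⟩
    induction hw with
    | refl => exact ReflTransGen.refl
    | tail _ h2 ih =>
      rcases hE.O_iff.mp h2.1 with ⟨g1, g2⟩ | ⟨i, g1, g2, g3⟩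
      · refine ih.tail ⟨g1, ?_⟩
        have := h2.2
        rwa [hE.offN _ g1 g2] at this
      · exfalso
        have g4 := h2.2
        rw [← g3, hE.omitN i g1 g2] at g4
        exact hen i g1 g2 ⟨r0, hr0, σ.W_T.mpr ⟨_, ih, g4⟩⟩
  · rintro ⟨r0, hr0, hw⟩
    exact ⟨r0, hr0, hE.reach_TV hZ (σ.mem_TV.mpr ⟨r0, hr0, ReflTransGen.refl⟩) hw⟩

/-- `σ.T.U` is the image under `σ.N` of the rows of `σ.T.V` that are not sources (`TV_O`, `mem_TV`, `N_O`), the same for `σ'`; these rows are off `R` and off both cycles. -/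
theorem St.Ear.TU_eq {σ σ' : St s x y} {m t : ℤ} {R : Finset A} (hE : σ.Ear σ' m t R)
    (hZ : ∀ r ∈ R, r ∉ σ.T.V) (hen : ∀ i, m < i → i < t → ¬ σ.T.Ex (σ.b i)) : σ'.T.U = σ.T.U := by
  have hex : ∀ c, σ'.T.Ex c ↔ σ.T.Ex c := fun c => by
    rw [σ'.T.Ex_iff, σ.T.Ex_iff, hE.TV_eq hZ hen]
  ext c
  rw [σ'.T.mem_U, σ.T.mem_U, hex, σ'.TO_iff, σ.TO_iff]
  constructor
  · rintro ⟨⟨h1, h2⟩, h3⟩
    refine ⟨⟨h1, fun i hi => ?_⟩, h3⟩
    obtain ⟨j, g1, g2, g3⟩ := σ.b_window (m + 1) i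
    rcases lt_or_ge j t with g4 | g4
    · exact hen j (by omega) g4 (by rw [g3, hi]; exact h3)
    · exact h2 j (by rw [hE.keepb j g4 (by omega), g3, hi])
  · rintro ⟨⟨h1, h2⟩, h3⟩
    refine ⟨⟨h1, fun i hi => ?_⟩, h3⟩
    rcases T2Om_cases hE i with ⟨w, _, _, _, g4⟩ | ⟨g1, g2⟩
    · exact h2 w (by rw [← g4, hi])
    · exact T2Om_noN hE hZ g1 (by rw [← g2, hi]; exact h3)

/-- A column adjacent to a row of `σ.T.V`, off `V`... : entries stay entries. (`σ.T.Ex c` iff `c` is adjacent to a row of `σ.T.V`: `Ex_iff` for `σ.T`.) -/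
theorem St.Ear.TEx_iff {σ σ' : St s x y} {m t : ℤ} {R : Finset A} (hE : σ.Ear σ' m t R)
    (hZ : ∀ r ∈ R, r ∉ σ.T.V) (hen : ∀ i, m < i → i < t → ¬ σ.T.Ex (σ.b i)) {c : B} : σ'.T.Ex c ↔ σ.T.Ex c := by
  rw [σ'.T.Ex_iff, σ.T.Ex_iff, hE.TV_eq hZ hen]

/-- The side vectors of the dual side are unchanged. For `pos`: the entries of `σ'` are entries of `σ` (`TEx_iff`); an entry on the new cycle is not `σ.N r` with `r ∈ R`: if it were, the row
`r' ∈ σ.T.V` adjacent to it would satisfy `σ.step r' r`, so `r ∈ σ.T.V`; so it is `σ.b i`, `t ≤ i ≤ m + k` and `σ'.ξ = σ.ξ` there (`xi`: `σ.N r ≠ σ.b i`). -/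
theorem St.Ear.SV {σ σ' : St s x y} {m t : ℤ} {R : Finset A} (hE : σ.Ear σ' m t R)
    (hZ : ∀ r ∈ R, r ∉ σ.T.V) (hen : ∀ i, m < i → i < t → ¬ σ.T.Ex (σ.b i)) {φ lam : A → ℝ} (hφ : σ.T.SV φ lam) :
    σ'.T.SV φ lam := by
  have hV := hE.TV_eq hZ hen
  have hU := hE.TU_eq hZ hen
  constructor
  · intro c hc
    rw [hV] at hc
    exact hφ.z1 c hc
  · intro c hc
    rw [hV] at hc
    exact hφ.z2 c hc
  · intro r hr
    rw [hU] at hr
    exact hφ.u1 r hr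
  · intro r hr
    rw [hU] at hr
    exact hφ.u2 r hr
  · exact hφ.x1
  · exact hφ.x2
  · intro i hi
    have hi' : σ'.T.Ex (σ'.b (-i)) := hi
    change 0 < σ'.ξ (σ'.b (-i)) * vl (tr s) (σ'.b (-i)) φ
    rw [hE.TEx_iff hZ hen] at hi'
    rcases T2Om_cases hE (-i) with ⟨w, _, _, _, g4⟩ | ⟨g1, g2⟩
    · rw [g4] at hi' ⊢
      rw [hE.xi (σ.b w) (fun r hr => T2Om_N_ne (hE.offR r hr) w)]
      have h1 : σ.T.Ex (σ.T.a (-w)) := by
        change σ.T.Ex (σ.b (- -w))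
        rw [neg_neg]; exact hi'
      have h2 := hφ.pos (-w) h1
      change 0 < σ.ξ (σ.b (- -w)) * vl (tr s) (σ.b (- -w)) φ at h2
      rwa [neg_neg] at h2
    · rw [g2] at hi'
      exact absurd hi' (T2Om_noN hE hZ g1)

lemma St.Ear.del {σ σ' : St s x y} {m t : ℤ} {R : Finset A} (hE : σ.Ear σ' m t R) {φ lam : A → ℝ} {i : ℤ} (h1 : t ≤ i)
    (h2 : i ≤ m + σ.k) : σ'.del φ lam i = σ.del φ lam i := by
  unfold St.del; rw [hE.keepb i h1 h2]

end MCC
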