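import Pool.Agent.Lib_MP_cb5629.T2P2
import Pool.Agent.Lib_MP_cb5629.T2Om

set_option linter.unusedSectionVars false

namespace MCC

open Finset Relation

variable {A B : Type} [Fintype A] [Fintype B] [DecidableEq A] [DecidableEq B]
variable {s : A → B → ℤ} {x : A} {y : B}

/-- steps inside `T` avoid the rows of the ear -/
private lemma T2P3_off {σ : St s x y} {T : Finset B} {R : Finset A} (hT : ∀ r ∈ R, σ.N r ∉ T) {u v : A}
    (hw : ReflTransGen (σ.stepI T) u v) : ReflTransGen (fun u v => σ.step u v ∧ v ∉ R) u v :=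
  ReflTransGen.mono (r := σ.stepI T) (p := fun u v => σ.step u v ∧ v ∉ R)
    (fun _ v huv => ⟨huv.1, fun hv => hT v hv huv.2⟩) _ _ hw

/-- A walk avoiding `T` to the non-entry `b n` also avoids `σ.T.V` (a row of `σ.T.V` on it would make `b n` an entry; the start does not matter). -/
theorem St.walk_avoid (σ : St s x y) {T : Finset B} {u r' : A} {n : ℤ} (hn : ¬ σ.T.Ex (σ.b n))
    (hw : ReflTransGen (σ.stepA T) u r') (hr' : s r' (σ.b n) ≠ 0) :
    ReflTransGen (fun u v => σ.step u v ∧ (σ.N v ∉ T ∧ v ∉ σ.T.V)) u r' := by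
  have key : ∀ v w : A, v ∈ σ.T.V → ReflTransGen (σ.stepA T) v w → w ∈ σ.T.V := by
    intro v w hv hvw
    induction hvw with
    | refl => exact hv
    | tail _ h3 ih => exact σ.TV_step ih h3.1
  have hr : r' ∉ σ.T.V := fun hr => hn (σ.T.Ex_iff.mpr ⟨r', hr, hr'⟩)
  induction hw using ReflTransGen.head_induction_on with
  | refl => exact ReflTransGen.refl
  | @head u v h1 h2 ih =>
    exact ReflTransGen.head ⟨h1.1, h1.2, fun hv => hr (key _ _ hv h2)⟩ ih

/-- Piece T2P3. No walk avoiding `T` from a row outside the second interval to a column between two rows of the second interval that are adjacent to `T`. Proof. `b n` is not an entry (`noen`). `walk_avoid`, `ear_walk` for the ear from `a m` to `b (n + k) = b n` (`m + 1 < n + k < m + k`,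
`P v := σ.N v ∉ T ∧ v ∉ σ.T.V`). First kind: `om` with the entry `b (p2 + k)` and the row `a (e + k) = a e` (`m < p2 + k ≤ e + k < n + k`); `Df.inner` gives a walk from `a e` to a sink through rows `v` with `σ.N v ∈ T`, which are not in `R`. Second kind
(`σ.mir.Ear σ' (-m-k) (1-n-k) R`): `om` for `σ.mir` with the entry `b (p3 + k)` (mirrored index `1 - p3 - k`) and the row `a (e' + k) = a e'` (mirrored index `- e' - k`): `-m-k < 1-p3-k ≤ -e'-k < 1-n-k`; again `Df.inner`. (`mir_TEx`, `mir_step`, `mir_TV`.) -/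
theorem St.Big.noear (h : T2Ctx s x y) {σ : St s x y} {φ lam : A → ℝ} {p1 p2 p3 p4 jf jg : ℤ} {T : Finset B}
    (hB : σ.Big φ lam p1 p2 p3 p4 jf jg T) {e e' n m : ℤ} (h1 : p2 ≤ e) (h2 : e < n) (h3 : n ≤ e') (h4 : e' < p3)
    (he : σ.a e ∈ NB s T) (he' : σ.a e' ∈ NB s T) (hm1 : p3 ≤ m) (hm2 : m < p2 + σ.k) {r' : A}
    (hw : ReflTransGen (σ.stepA T) (σ.a m) r') (hr' : s r' (σ.b n) ≠ 0) : False := by
  have o1 := hB.o1
  have o2 := hB.o2
  have o3 := hB.o3
  have o4 := hB.o4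
  have hn := hB.noen h h1 h2 h3 h4 he he'
  have hw' := σ.walk_avoid hn hw hr'
  obtain ⟨R, hR, hE⟩ := σ.ear_walk h (m := m) (t := n + σ.k) (by omega) (by omega) hw'
    (by rw [σ.pb]; exact hr')
  have hZ : ∀ r ∈ R, r ∉ σ.T.V := fun r hr => (hR r hr).1.2
  have hT : ∀ r ∈ R, σ.N r ∉ T := fun r hr => (hR r hr).1.1
  rcases hE with ⟨σ', hE⟩ | ⟨σ', hE⟩
  · obtain ⟨r2, g1, c, g2, _, g4⟩ := hB.df.inner h he
    refine hE.om h hZ (i := p2 + σ.k) (i' := e + σ.k) (by omega) (by omega) (by omega)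
      (by rw [σ.pb]; exact hB.n2) (r' := r2) ?_ g2 g4
    rw [σ.pa]
    exact T2P3_off hT g1
  · obtain ⟨r2, g1, c, g2, _, g4⟩ := hB.df.inner h he'
    refine hE.om h (by rw [σ.mir_TV]; exact hZ) (i := 1 - p3 - σ.k) (i' := -e' - σ.k) (by omega) (by omega)
      (by omega) ?_ (r' := r2) ?_ g2 g4
    · rw [σ.mir_TEx]
      have e1 : σ.mir.b (1 - p3 - σ.k) = σ.b (p3 + σ.k) := by
        change σ.b (1 - (1 - p3 - σ.k)) = σ.b (p3 + σ.k)
        congr 1; ring
      rw [e1, σ.pb]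
      exact hB.n3
    · have e1 : σ.mir.a (-e' - σ.k) = σ.a (e' + σ.k) := by
        change σ.a (-(-e' - σ.k)) = σ.a (e' + σ.k)
        congr 1; ring
      rw [e1, σ.pa, σ.mir_step]
      exact T2P3_off hT g1

/-- An ear from a row `a m` of the second interval, left of `a e`, to `b n`. Proof. As before `noen`, `walk_avoid`, `ear_walk` (`m + 1 < n < m + k`). Second kind (`σ.mir.Ear σ' (-m-k) (1-n) R`): `om` for `σ.mir` with the entry `b p3` (mirrored index `1 - p3`)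
and the row `a e'` (mirrored index `-e'`): `-m-k < 1-p3 ≤ -e' < 1-n`; `Df.inner`: contradiction. First kind: the result; `ear_walk` also gives the walk from `r ∈ R` to `r'`. -/
theorem St.Big.lear (h : T2Ctx s x y) {σ : St s x y} {φ lam : A → ℝ} {p1 p2 p3 p4 jf jg : ℤ} {T : Finset B}
    (hB : σ.Big φ lam p1 p2 p3 p4 jf jg T) {e e' n m : ℤ} (h0 : p2 ≤ m) (h1 : m < e) (h2 : e < n) (h3 : n ≤ e')
    (h4 : e' < p3) (he : σ.a e ∈ NB s T) (he' : σ.a e' ∈ NB s T) {r' : A}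
    (hw : ReflTransGen (σ.stepA T) (σ.a m) r') (hr' : s r' (σ.b n) ≠ 0) :
    ∃ (σ' : St s x y) (R : Finset A), σ.Ear σ' m n R ∧ (∀ r ∈ R, σ.N r ∉ T) ∧ (∀ r ∈ R, r ∉ σ.T.V) ∧
      ∀ r ∈ R, ∃ r'', ReflTransGen (σ.stepA T) r r'' ∧ s r'' (σ.b n) ≠ 0 := by
  have o1 := hB.o1
  have o2 := hB.o2
  have o3 := hB.o3
  have o4 := hB.o4
  have hn := hB.noen h (by omega) h2 h3 h4 he he'
  have hw' := σ.walk_avoid hn hw hr'
  obtain ⟨R, hR, hE⟩ := σ.ear_walk h (m := m) (t := n) (by omega) (by omega) hw' hr'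
  have hZ : ∀ r ∈ R, r ∉ σ.T.V := fun r hr => (hR r hr).1.2
  have hT : ∀ r ∈ R, σ.N r ∉ T := fun r hr => (hR r hr).1.1
  rcases hE with ⟨σ', hE⟩ | ⟨σ', hE⟩
  · refine ⟨σ', R, hE, hT, hZ, fun r hr => ⟨r', ?_, hr'⟩⟩
    exact ReflTransGen.mono (r := fun u v => σ.step u v ∧ (σ.N v ∉ T ∧ v ∉ σ.T.V)) (p := σ.stepA T)
      (fun u v huv => ⟨huv.1, huv.2.1⟩) _ _ (hR r hr).2.2
  · exfalso
    obtain ⟨r2, g1, c, g2, _, g4⟩ := hB.df.inner h he'
    refine hE.om h (by rw [σ.mir_TV]; exact hZ) (i := 1 - p3) (i' := -e') (by omega) (by omega)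
      (by omega) ?_ (r' := r2) ?_ g2 g4
    · rw [σ.mir_TEx]
      have e1 : σ.mir.b (1 - p3) = σ.b p3 := by
        change σ.b (1 - (1 - p3)) = σ.b p3
        congr 1; ring
      rw [e1]
      exact hB.n3
    · have e1 : σ.mir.a (-e') = σ.a e' := by
        change σ.a (-(-e')) = σ.a e'
        congr 1; ring
      rw [e1, σ.mir_step]
      exact T2P3_off hT g1

end MCC
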