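import Pool.Agent.Lib_MP_cb5629.T2Sym
import Pool.Agent.Lib_MP_cb5629.T2Mir

set_option linter.unusedSectionVars false

namespace MCC

open Finset Relation

variable {A B : Type} [Fintype A] [Fintype B] [DecidableEq A] [DecidableEq B]
variable {s : A → B → ℤ} {x : A} {y : B}

/-- `j` is an index in the first or third interval of `p1 < p2 < p3 < p4 < p1 + k` -/
def Odd4 (p1 p2 p3 p4 j : ℤ) : Prop := (p1 ≤ j ∧ j < p2) ∨ (p3 ≤ j ∧ j < p4)

/-- `j` is an index in the second or fourth interval -/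
def Even4 (k p1 p2 p3 p4 j : ℤ) : Prop := (p2 ≤ j ∧ j < p3) ∨ (p4 ≤ j ∧ j < p1 + k)

private lemma T2X1_sq (h : T2Ctx s x y) : (s x y : ℝ) ≠ 0 := by
  exact_mod_cast h.xy

private lemma T2X1_delk (σ : St s x y) (φ lam : A → ℝ) (p : ℤ) :
    σ.del φ lam (p + σ.k) = σ.del φ lam p := by
  unfold St.del
  rw [σ.pb]

private lemma T2X1_gamk (σ : St s x y) (ψ ω : B → ℝ) (p : ℤ) :
    gam s ψ ω (σ.a (p + σ.k)) = gam s ψ ω (σ.a p) := by
  rw [σ.pa]

/-- cancel the positive factor -/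
private lemma T2X1_cancel {S d e t u : ℝ} (hu : 0 < u) (hd : d = t * u) (h : 0 ≤ S * d * e) :
    0 ≤ S * t * e := by
  rw [hd] at h
  have h1 : S * (t * u) * e = u * (S * t * e) := by ring
  rw [h1] at h
  exact nonneg_of_mul_nonneg_right h hu

private lemma T2X1_eq {S t u v : ℝ} (hS : S * t ≠ 0) (h1 : 0 ≤ S * t * (u - v))
    (h2 : 0 ≤ S * t * (v - u)) : u = v := by
  have h3 : S * t * (u - v) = 0 := by
    have : S * t * (v - u) = -(S * t * (u - v)) := by ring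
    linarith
  rcases mul_eq_zero.1 h3 with h4 | h4
  · exact absurd h4 hS
  · linarith

/-- there is a common sign -/
private lemma T2X1_sep {σ : St s x y} {φ lam : A → ℝ} {p1 p2 p3 p4 : ℤ}
    (hC : σ.Crs φ lam p1 p2 p3 p4) : ∃ t : ℝ, t ≠ 0 ∧
      (∃ u, 0 < u ∧ σ.del φ lam p1 - σ.del φ lam p2 = t * u) ∧
      (∃ u, 0 < u ∧ σ.del φ lam p1 - σ.del φ lam p4 = t * u) ∧
      (∃ u, 0 < u ∧ σ.del φ lam p3 - σ.del φ lam p2 = t * u) ∧
      ∃ u, 0 < u ∧ σ.del φ lam p3 - σ.del φ lam p4 = t * u := by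
  rcases hC.sep with ⟨a1, a2, a3, a4⟩ | ⟨a1, a2, a3, a4⟩
  · exact ⟨-1, by norm_num, ⟨σ.del φ lam p2 - σ.del φ lam p1, by linarith, by ring⟩,
      ⟨σ.del φ lam p4 - σ.del φ lam p1, by linarith, by ring⟩,
      ⟨σ.del φ lam p2 - σ.del φ lam p3, by linarith, by ring⟩,
      ⟨σ.del φ lam p4 - σ.del φ lam p3, by linarith, by ring⟩⟩
  · exact ⟨1, by norm_num, ⟨σ.del φ lam p1 - σ.del φ lam p2, by linarith, by ring⟩,
      ⟨σ.del φ lam p1 - σ.del φ lam p4, by linarith, by ring⟩,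
      ⟨σ.del φ lam p3 - σ.del φ lam p2, by linarith, by ring⟩,
      ⟨σ.del φ lam p3 - σ.del φ lam p4, by linarith, by ring⟩⟩

private lemma T2X1_mul {S c t : ℝ} (hc : c ≠ 0) (hS : S ≠ 0) (h1 : 0 ≤ S * t * c)
    (h2 : 0 ≤ S * t * (-c)) : t = 0 := by
  have h3 : S * t * c = 0 := by
    have : S * t * (-c) = -(S * t * c) := by ring
    linarith
  rcases mul_eq_zero.1 h3 with h4 | h4
  · rcases mul_eq_zero.1 h4 with h5 | h5
    · exact absurd h5 hS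
    · exact h5
  · exact absurd h4 hc

/-- Piece T2X1. Crossing entries: the exits of the first and third interval have the same position `c1`, those of the second and fourth the position `c2 ≠ c1`.

Proof. Let `τ = s x y * (del p1 - del p2)`, up to a positive factor this is also `s x y * (del p1 - del p4)`, `s x y * (del p3 - del p4)`, `s x y * (del p3 - del p2)`. The pair rule `pr` (with `g` the
position; `b (p + k) = b p`, `a (j + k) = a j`): entries `p1, p2`: `τ (g(I1) - g(I2 ∪ I3 ∪ I4)) ≥ 0`; `p1, p4`: `τ (g(I1 ∪ I2 ∪ I3) - g(I4)) ≥ 0`; `p3, p4` (window starting at `p3`): `τ (g(I3) - g(I4 ∪ I1 ∪ I2)) ≥ 0`;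
`p2, p3` (here the factor is `-τ`): `τ (g(I3 ∪ I4 ∪ I1) - g(I2)) ≥ 0`. So `g(I1) = g(I3)` (first and third) is a constant `c1` and `g(I2) = g(I4)` (second and fourth: `p1, p4` gives `g(I2)` vs `g(I4)`, `p2, p3` the converse) is a constant `c2`.
`c1 ≠ c2`: `b p1, b p2` are linkable (`cvT`), `lkarc` gives linkable exits `a j`, `a m` with `p1 ≤ j < p2 ≤ m < p1 + k`; `lkT`: their positions differ, the first is `c1`, so the second is not `c1`, so it is `c2`. -/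
theorem St.Crs.gm (h : T2Ctx s x y) {σ : St s x y} {φ lam : A → ℝ} {p1 p2 p3 p4 : ℤ}
    (hC : σ.Crs φ lam p1 p2 p3 p4) {ψ ω : B → ℝ} (hψ : σ.SV ψ ω) :
    ∃ c1 c2 : ℝ, c1 ≠ c2 ∧ (∀ j, Odd4 p1 p2 p3 p4 j → gam s ψ ω (σ.a j) = c1) ∧
      ∀ j, Even4 σ.k p1 p2 p3 p4 j → gam s ψ ω (σ.a j) = c2 := by
  have h1 := hC.o1
  have h2 := hC.o2
  have h3 := hC.o3
  have h4 := hC.o4
  obtain ⟨t, ht, ⟨u12, q12, e12⟩, ⟨u14, q14, e14⟩, ⟨u32, q32, e32⟩, ⟨u34, q34, e34⟩⟩ := T2X1_sep hC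
  have hS : (s x y : ℝ) * t ≠ 0 := mul_ne_zero (T2X1_sq h) ht
  -- the four pair rules
  have r12 : ∀ j m, p1 ≤ j → j < p2 → p2 ≤ m → m < p1 + σ.k →
      0 ≤ (s x y : ℝ) * t * (gam s ψ ω (σ.a j) - gam s ψ ω (σ.a m)) := fun j m a1 a2 a3 a4 =>
    T2X1_cancel q12 e12 (σ.pr h hψ hC.sv a1 a2 a3 a4 hC.n1 hC.n2 (hC.all j) (hC.all m))
  have r14 : ∀ j m, p1 ≤ j → j < p4 → p4 ≤ m → m < p1 + σ.k →
      0 ≤ (s x y : ℝ) * t * (gam s ψ ω (σ.a j) - gam s ψ ω (σ.a m)) := fun j m a1 a2 a3 a4 =>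
    T2X1_cancel q14 e14 (σ.pr h hψ hC.sv a1 a2 a3 a4 hC.n1 hC.n4 (hC.all j) (hC.all m))
  have r34 : ∀ j m, p3 ≤ j → j < p4 → p4 ≤ m → m < p3 + σ.k →
      0 ≤ (s x y : ℝ) * t * (gam s ψ ω (σ.a j) - gam s ψ ω (σ.a m)) := fun j m a1 a2 a3 a4 =>
    T2X1_cancel q34 e34 (σ.pr h hψ hC.sv a1 a2 a3 a4 hC.n3 hC.n4 (hC.all j) (hC.all m))
  have r23 : ∀ j m, p2 ≤ j → j < p3 → p3 ≤ m → m < p2 + σ.k →
      0 ≤ (s x y : ℝ) * t * (gam s ψ ω (σ.a m) - gam s ψ ω (σ.a j)) := by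
    intro j m a1 a2 a3 a4
    have h5 := σ.pr h hψ hC.sv a1 a2 a3 a4 hC.n2 hC.n3 (hC.all j) (hC.all m)
    have h6 : 0 ≤ (s x y : ℝ) * (σ.del φ lam p3 - σ.del φ lam p2) *
        (gam s ψ ω (σ.a m) - gam s ψ ω (σ.a j)) := by
      have h7 : (s x y : ℝ) * (σ.del φ lam p3 - σ.del φ lam p2) *
          (gam s ψ ω (σ.a m) - gam s ψ ω (σ.a j)) = (s x y : ℝ) * (σ.del φ lam p2 - σ.del φ lam p3) *
          (gam s ψ ω (σ.a j) - gam s ψ ω (σ.a m)) := by ring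
      rw [h7]
      exact h5
    exact T2X1_cancel q32 e32 h6
  have o13 : ∀ j j', p1 ≤ j → j < p2 → p3 ≤ j' → j' < p4 →
      gam s ψ ω (σ.a j) = gam s ψ ω (σ.a j') := by
    intro j j' a1 a2 a3 a4
    refine T2X1_eq hS (r12 j j' a1 a2 (by omega) (by omega)) ?_
    have h5 := r34 j' (j + σ.k) a3 a4 (by omega) (by omega)
    rw [T2X1_gamk] at h5
    exact h5
  have o24 : ∀ j j', p2 ≤ j → j < p3 → p4 ≤ j' → j' < p1 + σ.k →
      gam s ψ ω (σ.a j) = gam s ψ ω (σ.a j') := by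
    intro j j' a1 a2 a3 a4
    exact T2X1_eq hS (r14 j j' (by omega) (by omega) a3 a4) (r23 j j' a1 a2 (by omega) (by omega))
  have hodd : ∀ j, Odd4 p1 p2 p3 p4 j → gam s ψ ω (σ.a j) = gam s ψ ω (σ.a p1) := by
    rintro j (⟨a1, a2⟩ | ⟨a1, a2⟩)
    · rw [o13 j p3 a1 a2 le_rfl h3, o13 p1 p3 le_rfl h1 le_rfl h3]
    · rw [o13 p1 j le_rfl h1 a1 a2]
  have heven : ∀ j, Even4 σ.k p1 p2 p3 p4 j → gam s ψ ω (σ.a j) = gam s ψ ω (σ.a p2) := by
    rintro j (⟨a1, a2⟩ | ⟨a1, a2⟩)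
    · rw [o24 j p4 a1 a2 le_rfl h4, o24 p2 p4 le_rfl h2 le_rfl h4]
    · rw [o24 p2 j le_rfl h2 a1 a2]
  refine ⟨_, _, ?_, hodd, heven⟩
  have hdne : σ.del φ lam p1 ≠ σ.del φ lam p2 := by
    intro he
    rw [he, sub_self] at e12
    rcases mul_eq_zero.1 e12.symm with h5 | h5
    · exact ht h5
    · exact q12.ne' h5
  have hlk := σ.cvT h hC.sv (hC.all p1) hC.n1 hC.n2 hdne
  obtain ⟨j, m, g1, g2, g3, g4, g5, g6, g7⟩ := σ.lkarc h (i := p1) (l := p2) h1 (by omega)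
    ⟨p1, le_rfl, h1, hC.all p1⟩ ⟨p2, le_rfl, by omega, hC.all p2⟩
  have hne := σ.lkT h hψ g1 g2 g3 g4 hC.n1 hC.n2 g5 g6 g7 hlk
  rw [hodd j (Or.inl ⟨g1, g2⟩)] at hne
  rcases lt_or_ge m p3 with h5 | h5
  · rwa [heven m (Or.inl ⟨g3, h5⟩)] at hne
  · rcases lt_or_ge m p4 with h6 | h6
    · exact absurd (hodd m (Or.inr ⟨h5, h6⟩)).symm hne
    · rwa [heven m (Or.inr ⟨h6, g4⟩)] at hne

/-- Rows of the first and the third interval are not linkable. Proof. `exists_SV`, `gm`: same position. `b p1, b p2` are linkable (`cvT`: `del p1 ≠ del p2`), `p1 ≤ j < p2 ≤ m < p1 + k`: `lkT`. -/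
theorem St.Crs.nlk (h : T2Ctx s x y) {σ : St s x y} {φ lam : A → ℝ} {p1 p2 p3 p4 : ℤ}
    (hC : σ.Crs φ lam p1 p2 p3 p4) {j m : ℤ} (h1 : p1 ≤ j) (h2 : j < p2) (h3 : p3 ≤ m) (h4 : m < p4) :
    ¬ σ.Lk (σ.a j) (σ.a m) := by
  have o1 := hC.o1
  have o2 := hC.o2
  have o3 := hC.o3
  have o4 := hC.o4
  intro hL
  obtain ⟨ψ, ω, hψ⟩ := σ.exists_SV h hC.n1 (hC.all p1)
  obtain ⟨c1, c2, -, hodd, -⟩ := hC.gm h hψ
  have hdne : σ.del φ lam p1 ≠ σ.del φ lam p2 := by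
    rcases hC.sep with ⟨a1, -, -, -⟩ | ⟨a1, -, -, -⟩
    · exact a1.ne
    · exact a1.ne'
  have hlk := σ.cvT h hC.sv (hC.all p1) hC.n1 hC.n2 hdne
  have hne := σ.lkT h hψ (i := p1) (j := j) (l := p2) (m := m) h1 h2 (by omega) (by omega) hC.n1 hC.n2
    (hC.all j) (hC.all m) hL hlk
  exact hne ((hodd j (Or.inl ⟨h1, h2⟩)).trans (hodd m (Or.inr ⟨h3, h4⟩)).symm)

/-- No entry strictly inside an interval. Proof. Let `p1 < e < p2` be an entry. `pr` for `e, p3` (`[e, p3)` contains `e` of `I1` and `p2` of `I2`; `[p3, e + k)` contains `p3` of `I3`, `p4` of `I4` and `p1 + k` of `I1`):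
`(j, m) = (e, p4)`: sign of `c1 - c2`; `(p2, p3)`: sign of `c2 - c1`; so `del e = del p3`. `pr` for `e, p4`: `(e, p4)`: `c1 - c2`; `(p2, p1 + k)`: `c2 - c1`; so `del e = del p4`. But `del p3 ≠ del p4`. -/
theorem St.Crs.noen (h : T2Ctx s x y) {σ : St s x y} {φ lam : A → ℝ} {p1 p2 p3 p4 : ℤ}
    (hC : σ.Crs φ lam p1 p2 p3 p4) {e : ℤ} (h1 : p1 < e) (h2 : e < p2) : ¬ σ.T.Ex (σ.b e) := by
  have o1 := hC.o1
  have o2 := hC.o2
  have o3 := hC.o3
  have o4 := hC.o4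
  intro he
  obtain ⟨ψ, ω, hψ⟩ := σ.exists_SV h hC.n1 (hC.all p1)
  obtain ⟨c1, c2, hc, hodd, heven⟩ := hC.gm h hψ
  have ge : gam s ψ ω (σ.a e) = c1 := hodd e (Or.inl ⟨h1.le, h2⟩)
  have g1 : gam s ψ ω (σ.a (p1 + σ.k)) = c1 := by
    rw [T2X1_gamk]
    exact hodd p1 (Or.inl ⟨le_rfl, o1⟩)
  have g2 : gam s ψ ω (σ.a p2) = c2 := heven p2 (Or.inl ⟨le_rfl, o2⟩)
  have g3 : gam s ψ ω (σ.a p3) = c1 := hodd p3 (Or.inr ⟨le_rfl, o3⟩)
  have g4 : gam s ψ ω (σ.a p4) = c2 := heven p4 (Or.inr ⟨le_rfl, o4⟩)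
  have hcc : c1 - c2 ≠ 0 := sub_ne_zero.2 hc
  have a1 := σ.pr h hψ hC.sv (i := e) (j := e) (l := p3) (m := p4) le_rfl (by omega) (by omega) (by omega)
    he hC.n3 (hC.all _) (hC.all _)
  have a2 := σ.pr h hψ hC.sv (i := e) (j := p2) (l := p3) (m := p3) (by omega) (by omega) le_rfl (by omega)
    he hC.n3 (hC.all _) (hC.all _)
  have a3 := σ.pr h hψ hC.sv (i := e) (j := e) (l := p4) (m := p4) le_rfl (by omega) le_rfl (by omega)
    he hC.n4 (hC.all _) (hC.all _)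
  have a4 := σ.pr h hψ hC.sv (i := e) (j := p2) (l := p4) (m := p1 + σ.k) (by omega) (by omega) (by omega)
    (by omega) he hC.n4 (hC.all _) (hC.all _)
  rw [ge, g4] at a1
  rw [g2, g3] at a2
  rw [ge, g4] at a3
  rw [g2, g1] at a4
  have b1 := T2X1_mul hcc (T2X1_sq h) a1 (by rw [neg_sub]; exact a2)
  have b2 := T2X1_mul hcc (T2X1_sq h) a3 (by rw [neg_sub]; exact a4)
  rcases hC.sep with ⟨-, -, -, a5⟩ | ⟨-, -, -, a5⟩ <;> linarith

/-- `del p1 = del p3`: `pr` for `p1, p3` with `(j, m) = (p1, p4)` and `(p2, p3)`. -/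
theorem St.Crs.del13 (h : T2Ctx s x y) {σ : St s x y} {φ lam : A → ℝ} {p1 p2 p3 p4 : ℤ}
    (hC : σ.Crs φ lam p1 p2 p3 p4) : σ.del φ lam p1 = σ.del φ lam p3 := by
  have o1 := hC.o1
  have o2 := hC.o2
  have o3 := hC.o3
  have o4 := hC.o4
  obtain ⟨ψ, ω, hψ⟩ := σ.exists_SV h hC.n1 (hC.all p1)
  obtain ⟨c1, c2, hc, hodd, heven⟩ := hC.gm h hψ
  have g1 : gam s ψ ω (σ.a p1) = c1 := hodd p1 (Or.inl ⟨le_rfl, o1⟩)
  have g2 : gam s ψ ω (σ.a p2) = c2 := heven p2 (Or.inl ⟨le_rfl, o2⟩)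
  have g3 : gam s ψ ω (σ.a p3) = c1 := hodd p3 (Or.inr ⟨le_rfl, o3⟩)
  have g4 : gam s ψ ω (σ.a p4) = c2 := heven p4 (Or.inr ⟨le_rfl, o4⟩)
  have hcc : c1 - c2 ≠ 0 := sub_ne_zero.2 hc
  have a1 := σ.pr h hψ hC.sv (i := p1) (j := p1) (l := p3) (m := p4) le_rfl (by omega) (by omega) (by omega)
    hC.n1 hC.n3 (hC.all _) (hC.all _)
  have a2 := σ.pr h hψ hC.sv (i := p1) (j := p2) (l := p3) (m := p3) (by omega) (by omega) le_rfl (by omega)
    hC.n1 hC.n3 (hC.all _) (hC.all _)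
  rw [g1, g4] at a1
  rw [g2, g3] at a2
  have b1 := T2X1_mul hcc (T2X1_sq h) a1 (by rw [neg_sub]; exact a2)
  linarith

/-- The rows reachable from a row that is not adjacent to the smallest deficient set `T` are not adjacent to `T`, if `T` contains only one sink... In general: if `T ⊆ V`, `|NB T ∩ U| + 1 = |T|`,
and `T` contains exactly one sink, then the partners of the rows of `NB s T ∩ U` are in `T` (they are `|T| - 1` columns, and each of the `|T| - 1` non-sinks of `T` is the partner of a row of `NB s T ∩ U`, `partner_mem`). So a step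
`u → v` with `v ∈ NB s T` (then `v ∈ U`, `mem_U_of_adj`) gives `σ.N v ∈ T`, `u ∈ NB s T`. -/
theorem St.no_enter (h : T2Ctx s x y) (σ : St s x y) {T : Finset B} (hT : T ⊆ σ.V)
    (hc : (NB s T ∩ σ.U).card + 1 = T.card) (h1 : (T ∩ snk s x y).card ≤ 1) {f r : A} (hf : f ∉ NB s T)
    (hr : ReflTransGen σ.step f r) : r ∉ NB s T := by
  classical
  have hsub : ((T \ snk s x y).image σ.M) ⊆ NB s T ∩ σ.U := by
    intro r hr
    obtain ⟨c, hc, rfl⟩ := mem_image.1 hr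
    rw [mem_sdiff] at hc
    exact (σ.partner_mem hT hc.1 hc.2).1
  have hcard : ((T \ snk s x y).image σ.M).card = (T \ snk s x y).card := by
    apply card_image_of_injOn
    intro c hc c' hc' hcc
    have h1 := mem_sdiff.1 (mem_coe.1 hc)
    have h2 := mem_sdiff.1 (mem_coe.1 hc')
    rw [← (σ.partner_mem hT h1.1 h1.2).2, ← (σ.partner_mem hT h2.1 h2.2).2]
    exact congrArg σ.N hcc
  have hs := card_sdiff_add_card_inter T (snk s x y)
  have heq : (T \ snk s x y).image σ.M = NB s T ∩ σ.U := by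
    apply eq_of_subset_of_card_le hsub
    omega
  induction hr with
  | refl => exact hf
  | @tail r r1 _ hst ih =>
    intro hcontra
    obtain ⟨hO, hst2⟩ := hst
    obtain ⟨c, hcT, hc2⟩ := mem_NB.1 hcontra
    have h12 : r1 ∈ σ.U := σ.mem_U_of_adj hO (hT hcT) hc2
    have h13 : r1 ∈ (T \ snk s x y).image σ.M := by
      rw [heq]
      exact mem_inter.2 ⟨hcontra, h12⟩
    obtain ⟨c', hc', hc3⟩ := mem_image.1 h13
    rw [mem_sdiff] at hc'
    have h14 := (σ.partner_mem hT hc'.1 hc'.2).2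
    rw [hc3] at h14
    apply ih
    rw [mem_NB]
    exact ⟨σ.N r1, by rw [h14]; exact hc'.1, hst2⟩

/-- Piece T2X2. No row from which a sink can be reached is reachable from rows of both kinds. Proof. `T1` smallest deficient set of `a p1, a p3` (`nlk`, `exists_Df`; `a p1 ≠ a p3` by `ia`), `T2` that of `a p2, a p4` (`rot`). By `Df.not_adj` (`nlk` for all pairs) no row of
`I1 ∪ I3` is in `NB s T1`, no row of `I2 ∪ I4` is in `NB s T2`. `T1 ∩ T2 = ∅`: otherwise `NB s (T1 ∩ T2) ⊆ insert x (NB s (T1 ∩ T2) ∩ U)` (`NB_V`, every cycle row is in one of the four intervals), so by `brace_V`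
`|NB (T1 ∩ T2) ∩ U| ≥ |T1 ∩ T2| + 1`; submodularity: `|NB (T1 ∪ T2) ∩ U| ≤ |NB T1 ∩ U| + |NB T2 ∩ U| - |NB (T1 ∩ T2) ∩ U| ≤ |T1 ∪ T2| - 3`, contradiction to `d1` (`|snk| = 2`). By `d1` each `Ti` contains a sink, so exactly one
each, and every sink is in `T1` or `T2`. Let `r` be reachable from both and `σ.Ex r`: a walk `r → ... → r'`, `r'` adjacent to a sink, so `r' ∈ NB s T1` or `r' ∈ NB s T2`; but `r'` is reachable from `a j` and from `a m`: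
`no_enter` twice. -/
theorem St.Crs.x2 (h : T2Ctx s x y) {σ : St s x y} {φ lam : A → ℝ} {p1 p2 p3 p4 : ℤ}
    (hC : σ.Crs φ lam p1 p2 p3 p4) {j m : ℤ} (hj : Odd4 p1 p2 p3 p4 j) (hm : Even4 σ.k p1 p2 p3 p4 m) {r : A}
    (h1 : ReflTransGen σ.step (σ.a j) r) (h2 : ReflTransGen σ.step (σ.a m) r) : ¬ σ.Ex r := by
  classical
  have o1 := hC.o1
  have o2 := hC.o2
  have o3 := hC.o3
  have o4 := hC.o4
  have ane : ∀ i j, p1 ≤ i → i < j → j < p1 + σ.k → σ.a i ≠ σ.a j := by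
    intro i j a1 a2 a3 he
    have := σ.ia i j a2.le (by omega) he
    omega
  have hR := hC.rot
  obtain ⟨T1, hT1⟩ := σ.exists_Df h (ane p1 p3 le_rfl (by omega) (by omega)) (hC.all p1) (hC.all p3)
    (σ.a_not_U p1) (σ.a_not_U p3) (hC.nlk h le_rfl o1 le_rfl o3)
  obtain ⟨T2, hT2⟩ := σ.exists_Df h (ane p2 p4 (by omega) (by omega) (by omega)) (hC.all p2) (hC.all p4)
    (σ.a_not_U p2) (σ.a_not_U p4) (hR.nlk h le_rfl o2 le_rfl o4)
  have n1 : ∀ j, Odd4 p1 p2 p3 p4 j → σ.a j ∉ NB s T1 := by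
    rintro j (⟨a1, a2⟩ | ⟨a1, a2⟩)
    · exact hT1.not_adj h (hC.all p3) (σ.a_not_U p3) (hC.all j) (σ.a_not_U j)
        (ane j p3 a1 (by omega) (by omega)) (hC.nlk h a1 a2 le_rfl o3)
    · exact hT1.symm.not_adj h (hC.all p1) (σ.a_not_U p1) (hC.all j) (σ.a_not_U j)
        (ane p1 j le_rfl (by omega) (by omega)).symm (fun hL => hC.nlk h le_rfl o1 a1 a2 hL.symm)
  have n2 : ∀ j, Even4 σ.k p1 p2 p3 p4 j → σ.a j ∉ NB s T2 := by
    rintro j (⟨a1, a2⟩ | ⟨a1, a2⟩)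
    · exact hT2.not_adj h (hC.all p4) (σ.a_not_U p4) (hC.all j) (σ.a_not_U j)
        (ane j p4 (by omega) (by omega) (by omega)) (hR.nlk h a1 a2 le_rfl o4)
    · exact hT2.symm.not_adj h (hC.all p2) (σ.a_not_U p2) (hC.all j) (σ.a_not_U j)
        (ane p2 j (by omega) (by omega) (by omega)).symm (fun hL => hR.nlk h le_rfl o2 a1 a2 hL.symm)
  have hcov : ∀ i, ∃ j, σ.a j = σ.a i ∧ (Odd4 p1 p2 p3 p4 j ∨ Even4 σ.k p1 p2 p3 p4 j) := by
    intro i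
    obtain ⟨j, a1, a2, a3⟩ := σ.a_window p1 i
    refine ⟨j, a3, ?_⟩
    unfold Odd4 Even4
    omega
  have hmono : ∀ {S T : Finset B}, S ⊆ T → NB s S ⊆ NB s T := by
    intro S T hST r hr
    obtain ⟨c, hc, hrc⟩ := mem_NB.1 hr
    exact mem_NB.2 ⟨c, hST hc, hrc⟩
  have hsnk := card_snk h
  have hdisj : T1 ∩ T2 = ∅ := by
    by_contra hne
    have hne' : (T1 ∩ T2).Nonempty := nonempty_iff_ne_empty.2 hne
    have hV : T1 ∩ T2 ⊆ σ.V := inter_subset_left.trans hT1.sub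
    have a1 := σ.brace_V h hV hne'
    have a2 : NB s (T1 ∩ T2) ⊆ insert x (NB s (T1 ∩ T2) ∩ σ.U) := by
      intro r hr
      rw [mem_insert, mem_inter]
      rcases σ.NB_V h hV hr with a3 | a3 | a3
      · exact Or.inl a3
      · exact Or.inr ⟨hr, a3⟩
      · exfalso
        obtain ⟨⟨i, hi⟩, -⟩ := σ.mem_XR.1 a3
        obtain ⟨j, hj1, hj2 | hj2⟩ := hcov i
        · apply n1 j hj2
          rw [hj1, hi]
          exact hmono inter_subset_left hr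
        · apply n2 j hj2
          rw [hj1, hi]
          exact hmono inter_subset_right hr
    have a3 := card_le_card a2
    have a4 := card_insert_le x (NB s (T1 ∩ T2) ∩ σ.U)
    have a5 : NB s (T1 ∪ T2) ∩ σ.U = (NB s T1 ∩ σ.U) ∪ (NB s T2 ∩ σ.U) := by
      ext r
      simp only [mem_inter, mem_union, mem_NB]
      constructor
      · rintro ⟨⟨c, hc | hc, hrc⟩, hrU⟩
        · exact Or.inl ⟨⟨c, hc, hrc⟩, hrU⟩
        · exact Or.inr ⟨⟨c, hc, hrc⟩, hrU⟩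
      · rintro (⟨⟨c, hc, hrc⟩, hrU⟩ | ⟨⟨c, hc, hrc⟩, hrU⟩)
        · exact ⟨⟨c, Or.inl hc, hrc⟩, hrU⟩
        · exact ⟨⟨c, Or.inr hc, hrc⟩, hrU⟩
    have a6 : NB s (T1 ∩ T2) ∩ σ.U ⊆ (NB s T1 ∩ σ.U) ∩ (NB s T2 ∩ σ.U) := by
      intro r hr
      rw [mem_inter] at hr
      rw [mem_inter, mem_inter, mem_inter]
      exact ⟨⟨hmono inter_subset_left hr.1, hr.2⟩, ⟨hmono inter_subset_right hr.1, hr.2⟩⟩
    have a7 := card_le_card a6
    have a8 := card_union_add_card_inter (NB s T1 ∩ σ.U) (NB s T2 ∩ σ.U)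
    rw [← a5] at a8
    have a9 := card_union_add_card_inter T1 T2
    have a10 := σ.d1 h (union_subset hT1.sub hT2.sub)
    have a11 : ((T1 ∪ T2) ∩ snk s x y).card ≤ (snk s x y).card := card_le_card inter_subset_right
    have a12 := hT1.card
    have a13 := hT2.card
    omega
  have d1 := σ.d1 h hT1.sub
  have d2 := σ.d1 h hT2.sub
  have c1 := hT1.card
  have c2 := hT2.card
  have hu : ((T1 ∩ snk s x y) ∪ (T2 ∩ snk s x y)).card =
      (T1 ∩ snk s x y).card + (T2 ∩ snk s x y).card := by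
    apply card_union_of_disjoint
    rw [disjoint_left]
    intro c hc hc'
    have hc2 : c ∈ T1 ∩ T2 := mem_inter.2 ⟨(mem_inter.1 hc).1, (mem_inter.1 hc').1⟩
    rw [hdisj] at hc2
    exact absurd hc2 (notMem_empty c)
  have husub : (T1 ∩ snk s x y) ∪ (T2 ∩ snk s x y) ⊆ snk s x y :=
    union_subset inter_subset_right inter_subset_right
  have hule := card_le_card husub
  have huall : (T1 ∩ snk s x y) ∪ (T2 ∩ snk s x y) = snk s x y :=
    eq_of_subset_of_card_le husub (by omega)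
  rintro ⟨c, hc, r', hr', hrc⟩
  rw [← huall, mem_union] at hc
  rcases hc with hc | hc
  · exact σ.no_enter h hT1.sub c1 (by omega) (n1 j hj) (h1.trans hr')
      (mem_NB.2 ⟨c, (mem_inter.1 hc).1, hrc⟩)
  · exact σ.no_enter h hT2.sub c2 (by omega) (n2 m hm) (h2.trans hr')
      (mem_NB.2 ⟨c, (mem_inter.1 hc).1, hrc⟩)

end MCC
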