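import Pool.Agent.Lib_MP_cb5629.T2P4
import Pool.Agent.Lib_MP_cb5629.T2P3
import Pool.Agent.Lib_MP_cb5629.T2X1

set_option linter.unusedSectionVars false

namespace MCC

open Finset Relation

variable {A B : Type} [Fintype A] [Fintype B] [DecidableEq A] [DecidableEq B]
variable {s : A → B → ℤ} {x : A} {y : B}

/-- the part of the counting sets in one interval -/
private lemma T2P4b_int (σ : St s x y) (T : Finset B) (p q : ℤ) (hq : q ≤ p + σ.k) :
    ∃ (BI : Finset B) (AI : Finset A), (∀ c ∈ BI, ∃ n, σ.b n = c ∧ p < n ∧ n < q) ∧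
      (∀ m, p ≤ m → m < q → σ.a m ∈ NB s T → σ.a m ∈ AI) ∧
      ((AI = ∅ ∧ BI = ∅) ∨ ∃ e e', p ≤ e ∧ e ≤ e' ∧ e' < q ∧ σ.a e ∈ NB s T ∧ σ.a e' ∈ NB s T ∧
        AI.card ≤ BI.card + 1 ∧ (∀ c ∈ BI, ∃ n, σ.b n = c ∧ e < n ∧ n ≤ e') ∧
        ∀ m, e ≤ m → m ≤ e' → σ.a m ∈ AI) := by
  classical
  by_cases hne : ∃ e, p ≤ e ∧ e < q ∧ σ.a e ∈ NB s T
  · obtain ⟨e, e', h1, h2, h3, h4, h5, h6⟩ := σ.extremes T p q hne
    refine ⟨(Finset.Ioc e e').image σ.b, (Finset.Icc e e').image σ.a, ?_, ?_, Or.inr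
      ⟨e, e', h1, h2, h3, h4, h5, ?_, ?_, ?_⟩⟩
    · intro c hc
      obtain ⟨n, hn, rfl⟩ := Finset.mem_image.1 hc
      rw [Finset.mem_Ioc] at hn
      exact ⟨n, rfl, by omega, by omega⟩
    · intro m g1 g2 g3
      have := h6 m g1 g2 g3
      exact Finset.mem_image.2 ⟨m, Finset.mem_Icc.2 this, rfl⟩
    · have hinj : Set.InjOn σ.b (Finset.Ioc e e' : Set ℤ) := by
        intro i hi j hj hij
        simp only [Finset.coe_Ioc, Set.mem_Ioc] at hi hj
        rcases le_total i j with hle | hle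
        · exact σ.ib i j hle (by omega) hij
        · exact (σ.ib j i hle (by omega) hij.symm).symm
      rw [Finset.card_image_of_injOn hinj]
      refine Finset.card_image_le.trans ?_
      rw [Int.card_Icc, Int.card_Ioc]
      omega
    · intro c hc
      obtain ⟨n, hn, rfl⟩ := Finset.mem_image.1 hc
      rw [Finset.mem_Ioc] at hn
      exact ⟨n, rfl, hn.1, hn.2⟩
    · intro m g1 g2
      exact Finset.mem_image.2 ⟨m, Finset.mem_Icc.2 ⟨g1, g2⟩, rfl⟩
  · push Not at hne
    refine ⟨∅, ∅, ?_, ?_, Or.inl ⟨rfl, rfl⟩⟩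
    · intro c hc
      exact absurd hc (Finset.notMem_empty c)
    · intro m g1 g2 g3
      exact absurd g3 (hne m g1 g2)

private lemma T2P4b_sign {c ε u v : ℝ} (hε : ε = 1 ∨ ε = -1) (hu : 0 < ε * (u - c)) (hv : ε * (v - c) < 0)
    (h : 0 ≤ (c - u) * (c - v)) : False := by
  rcases hε with he | he
  · rw [he, one_mul] at hu hv
    have h1 : 0 < (u - c) * (c - v) := mul_pos hu (by linarith)
    have h2 : (c - u) * (c - v) = -((u - c) * (c - v)) := by ring
    linarith
  · rw [he] at hu hv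
    have h1 : 0 < (c - u) * (v - c) := mul_pos (by linarith) (by linarith)
    have h2 : (c - u) * (c - v) = -((c - u) * (v - c)) := by ring
    linarith

/-- Piece T2P4b. Proof. Suppose not. If there are rows adjacent to `T` in the second interval let `e ≤ e'` be the extreme ones (`extremes`), `B2 = {b n : e < n ≤ e'}`, `A2 = {a n : e ≤ n ≤ e'}`, `|A2| = |B2| + 1`; otherwise `A2 = B2 = ∅`. The same for the fourth interval `[p4, p1 + k)`: `A4, B4`.
`BJ = B2 ∪ B4`, `AJ = A2 ∪ A4` (disjoint). `b2`: `noen` (for `hB` and `hB.rot`); `a1`: `loc`; `a2`: `m` in the window `[p1, p1 + k)`; for `c ∈ B2`: `noear` excludes `m ∈ [p3, p2 + k)` (`p1 ≤ m < p2` is `p1 + k ≤ m + k < p2 + k`), so `p2 ≤ m < p3`, and `e ≤ m ≤ e'` since the first alternative fails; `c ∈ B4`: `noear` for `hB.rot`. `count1` gives `T2`;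
`T2` misses `y` and the four entries `b p1, ..., b p4` (they are not in `BJ`), so `|T2| + 4 ≤ n`; `T2 ≠ ∅`; the brace property of `tr s`: `|NB s T2| ≥ |T2| + 2`. If one of `A2, A4` is empty: `|AJ| ≤ |BJ| + 1`, contradiction. Otherwise `|NB s T2| = |T2| + 2`. If both sinks are in `T`: `CondT.tr` for `T2`
(`2 ≤ |T2|`, `y ∉ T2`, the sinks are in `T ⊆ T2`, the sources are not adjacent to `T2`): contradiction. Otherwise `T` contains exactly one sink `c0` (`d1`). `exists_SV`, `Big.gm`; let `l` be an index in the second, `m` one in the fourth interval with rows adjacent to `T`. `Df.inner`: `σ.W (a l) c0`, `σ.W (a m) c0`;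
`¬ σ.W (a jf) c0` by `no_enter` (`a jf ∉ NB s T`, a row adjacent to `c0 ∈ T` is in `NB s T`). `extT` with `i = jf`: `0 ≤ (c - g l) * (c - g m)`, but `g l - c` and `g m - c` have strictly opposite signs. (Entry needed for `extT`: `b p1`.) -/
theorem St.Big.count (h : T2Ctx s x y) (hT : CondT s x y) {σ : St s x y} {φ lam : A → ℝ} {p1 p2 p3 p4 jf jg : ℤ}
    {T : Finset B} (hB : σ.Big φ lam p1 p2 p3 p4 jf jg T) :
    (∃ e e' n m r', p2 ≤ e ∧ e < n ∧ n ≤ e' ∧ e' < p3 ∧ σ.a e ∈ NB s T ∧ σ.a e' ∈ NB s T ∧ p2 ≤ m ∧ m < p3 ∧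
      (m < e ∨ e' < m) ∧ ReflTransGen (σ.stepA T) (σ.a m) r' ∧ s r' (σ.b n) ≠ 0) ∨
    ∃ e e' n m r', p4 ≤ e ∧ e < n ∧ n ≤ e' ∧ e' < p1 + σ.k ∧ σ.a e ∈ NB s T ∧ σ.a e' ∈ NB s T ∧ p4 ≤ m ∧
      m < p1 + σ.k ∧ (m < e ∨ e' < m) ∧ ReflTransGen (σ.stepA T) (σ.a m) r' ∧ s r' (σ.b n) ≠ 0 := by
  classical
  by_contra hcon
  push Not at hcon
  obtain ⟨hn2, hn4⟩ := hcon
  have o1 := hB.o1
  have o2 := hB.o2
  have o3 := hB.o3
  have o4 := hB.o4
  have hR := hB.rot
  obtain ⟨B2, A2, b2a, b2b, b2c⟩ := T2P4b_int σ T p2 p3 (by omega)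
  obtain ⟨B4, A4, b4a, b4b, b4c⟩ := T2P4b_int σ T p4 (p1 + σ.k) (by omega)
  have hdisj : Disjoint B2 B4 := by
    rw [Finset.disjoint_left]
    intro c hc2 hc4
    obtain ⟨n, hn, g1, g2⟩ := b2a c hc2
    obtain ⟨n', hn', g3, g4⟩ := b4a c hc4
    have := σ.ib n n' (by omega) (by omega) (hn.trans hn'.symm)
    omega
  have b1 : ∀ c ∈ B2 ∪ B4, ∃ n, σ.b n = c := by
    intro c hc
    rcases Finset.mem_union.1 hc with hc | hc
    · obtain ⟨n, hn, -⟩ := b2a c hc
      exact ⟨n, hn⟩
    · obtain ⟨n, hn, -⟩ := b4a c hc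
      exact ⟨n, hn⟩
  have b2 : ∀ c ∈ B2 ∪ B4, ¬ σ.T.Ex c := by
    intro c hc
    rcases Finset.mem_union.1 hc with hc | hc
    · rcases b2c with ⟨-, he⟩ | ⟨e, e', k1, k2, k3, k4, k5, k6, k7, k8⟩
      · rw [he] at hc
        exact absurd hc (Finset.notMem_empty c)
      · obtain ⟨n, rfl, g1, g2⟩ := k7 c hc
        exact hB.noen h k1 g1 g2 k3 k4 k5
    · rcases b4c with ⟨-, he⟩ | ⟨e, e', k1, k2, k3, k4, k5, k6, k7, k8⟩
      · rw [he] at hc
        exact absurd hc (Finset.notMem_empty c)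
      · obtain ⟨n, rfl, g1, g2⟩ := k7 c hc
        exact hR.noen h k1 g1 g2 k3 k4 k5
  have a1 : ∀ m, σ.a m ∈ NB s T → σ.a m ∈ A2 ∪ A4 := by
    intro m hm
    obtain ⟨j, g1, g2, g3⟩ := σ.a_window p1 m
    rw [← g3] at hm ⊢
    rcases hB.loc h g1 g2 hm with ⟨g4, g5⟩ | ⟨g4, g5⟩
    · exact Finset.mem_union_left _ (b2b j g4 g5 hm)
    · exact Finset.mem_union_right _ (b4b j g4 g5 hm)
  have a2 : ∀ m r' c, c ∈ B2 ∪ B4 → ReflTransGen (σ.stepA T) (σ.a m) r' → s r' c ≠ 0 → σ.a m ∈ A2 ∪ A4 := by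
    intro m r' c hc hw hr'
    obtain ⟨j, g1, g2, g3⟩ := σ.a_window p1 m
    rw [← g3] at hw ⊢
    rcases Finset.mem_union.1 hc with hc | hc
    · rcases b2c with ⟨-, he⟩ | ⟨e, e', k1, k2, k3, k4, k5, k6, k7, k8⟩
      · rw [he] at hc
        exact absurd hc (Finset.notMem_empty c)
      · obtain ⟨n, rfl, g4, g5⟩ := k7 c hc
        rcases lt_or_ge j p2 with hj | hj
        · exfalso
          have hw' : ReflTransGen (σ.stepA T) (σ.a (j + σ.k)) r' := by rw [σ.pa]; exact hw
          exact hB.noear h k1 g4 g5 k3 k4 k5 (by omega) (by omega) hw' hr'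
        · rcases lt_or_ge j p3 with hj3 | hj3
          · by_cases hje : j < e ∨ e' < j
            · exact absurd (hn2 e e' n j r' k1 g4 g5 k3 k4 k5 hj hj3 hje hw) hr'
            · push Not at hje
              exact Finset.mem_union_left _ (k8 j hje.1 hje.2)
          · exact (hB.noear h k1 g4 g5 k3 k4 k5 hj3 (by omega) hw hr').elim
    · rcases b4c with ⟨-, he⟩ | ⟨e, e', k1, k2, k3, k4, k5, k6, k7, k8⟩
      · rw [he] at hc
        exact absurd hc (Finset.notMem_empty c)
      · obtain ⟨n, rfl, g4, g5⟩ := k7 c hc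
        rcases lt_or_ge j p4 with hj | hj
        · exfalso
          have hw' : ReflTransGen (σ.stepA T) (σ.a (j + σ.k)) r' := by rw [σ.pa]; exact hw
          exact hR.noear h k1 g4 g5 k3 k4 k5 (by omega) (by omega) hw' hr'
        · by_cases hje : j < e ∨ e' < j
          · exact absurd (hn4 e e' n j r' k1 g4 g5 k3 k4 k5 hj g2 hje hw) hr'
          · push Not at hje
            exact Finset.mem_union_right _ (k8 j hje.1 hje.2)
  obtain ⟨T2, t1, t2, t3, t4, t5⟩ := σ.count1 h hB.df.sub hB.df.card b1 b2 a1 a2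
  have hBJ : (B2 ∪ B4).card = B2.card + B4.card := Finset.card_union_of_disjoint hdisj
  have hAJ : (A2 ∪ A4).card ≤ A2.card + A4.card := Finset.card_union_le _ _
  -- the entries are not in T2
  have hp : ∀ i, i = p1 ∨ i = p2 ∨ i = p3 ∨ i = p4 → σ.b i ∉ T2 := by
    intro i hi hiT
    rcases Finset.mem_union.1 (t2 i hiT) with hc | hc
    · obtain ⟨n, hn, g1, g2⟩ := b2a _ hc
      rcases hi with hi | hi | hi | hi
      · have := σ.ib i n (by omega) (by omega) hn.symm
        omega
      · have := σ.ib i n (by omega) (by omega) hn.symm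
        omega
      · have := σ.ib n i (by omega) (by omega) hn
        omega
      · have := σ.ib n i (by omega) (by omega) hn
        omega
    · obtain ⟨n, hn, g1, g2⟩ := b4a _ hc
      rcases hi with hi | hi | hi | hi
      · have hn' : σ.b n = σ.b (i + σ.k) := by rw [σ.pb, hn]
        have := σ.ib n (i + σ.k) (by omega) (by omega) hn'
        omega
      · have := σ.ib i n (by omega) (by omega) hn.symm
        omega
      · have := σ.ib i n (by omega) (by omega) hn.symm
        omega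
      · have := σ.ib i n (by omega) (by omega) hn.symm
        omega
  have hcardT2 : T2.card + 4 ≤ Fintype.card B := by
    have hQ : (insert (σ.b p1) (insert (σ.b p2) (insert (σ.b p3) {σ.b p4})) : Finset B).card = 4 := by
      rw [Finset.card_insert_of_notMem, Finset.card_insert_of_notMem, Finset.card_insert_of_notMem,
        Finset.card_singleton]
      · rw [Finset.mem_singleton]
        intro he
        have := σ.ib _ _ (by omega) (by omega) he
        omega
      · simp only [Finset.mem_insert, Finset.mem_singleton]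
        rintro (he | he)
        · have := σ.ib _ _ (by omega) (by omega) he
          omega
        · have := σ.ib _ _ (by omega) (by omega) he
          omega
      · simp only [Finset.mem_insert, Finset.mem_singleton]
        rintro (he | he | he)
        · have := σ.ib _ _ (by omega) (by omega) he
          omega
        · have := σ.ib _ _ (by omega) (by omega) he
          omega
        · have := σ.ib _ _ (by omega) (by omega) he
          omega
    have hd : Disjoint T2 (insert (σ.b p1) (insert (σ.b p2) (insert (σ.b p3) {σ.b p4}))) := by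
      rw [Finset.disjoint_right]
      intro c hc
      simp only [Finset.mem_insert, Finset.mem_singleton] at hc
      rcases hc with rfl | rfl | rfl | rfl
      · exact hp _ (Or.inl rfl)
      · exact hp _ (Or.inr (Or.inl rfl))
      · exact hp _ (Or.inr (Or.inr (Or.inl rfl)))
      · exact hp _ (Or.inr (Or.inr (Or.inr rfl)))
    have := Finset.card_le_univ (T2 ∪ insert (σ.b p1) (insert (σ.b p2) (insert (σ.b p3) {σ.b p4})))
    rw [Finset.card_union_of_disjoint hd, hQ] at this
    exact this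
  have hTne : T2.Nonempty := by
    have h1 := hB.df.card
    have h2 := Finset.card_le_card t1
    rw [← Finset.card_pos]
    omega
  have hbr := h.tr.hb.hall T2 hTne (by omega)
  rw [NA_tr] at hbr
  rcases b2c with ⟨e2A, e2B⟩ | ⟨e, e', k1, k2, k3, k4, k5, k6, k7, k8⟩
  · have hA2 : A2.card = 0 := by rw [e2A]; rfl
    rcases b4c with ⟨e4A, e4B⟩ | ⟨e, e', k1, k2, k3, k4, k5, k6, k7, k8⟩
    · have hA4 : A4.card = 0 := by rw [e4A]; rfl
      omega
    · omega
  · rcases b4c with ⟨e4A, e4B⟩ | ⟨f, f', l1, l2, l3, l4, l5, l6, l7, l8⟩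
    · have hA4 : A4.card = 0 := by rw [e4A]; rfl
      omega
    · have heq : (NB s T2).card = T2.card + 2 := by omega
      have hsnk := card_snk h
      by_cases hboth : snk s x y ⊆ T
      · have h2 : 2 ≤ T2.card := by
          have := Finset.card_le_card (hboth.trans t1)
          omega
        refine CondT.tr h hT T2 h2 hcardT2 t3 ?_ ?_ (by rw [NA_tr]; exact heq)
        · intro c hc hcy
          rw [nbB_tr] at hc
          exact t1 (hboth (mem_snk.2 ⟨hcy, mem_nbA.1 hc⟩))
        · intro r hr hrx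
          rw [NA_tr]
          exact t4 r (mem_snk.2 ⟨hrx, mem_nbA.1 hr⟩)
      · have hle : (T ∩ snk s x y).card ≤ 1 := by
          by_contra hc
          push Not at hc
          apply hboth
          have h1 : T ∩ snk s x y = snk s x y :=
            Finset.eq_of_subset_of_card_le Finset.inter_subset_right (by omega)
          rw [← h1]
          exact Finset.inter_subset_left
        have hge : 1 ≤ (T ∩ snk s x y).card := by
          have h1 := σ.d1 h hB.df.sub
          have h2 := hB.df.card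
          omega
        obtain ⟨c0, hc0⟩ := Finset.card_pos.1 hge
        obtain ⟨hc0T, hc0s⟩ := Finset.mem_inter.1 hc0
        have huniq : ∀ c ∈ snk s x y, c ∈ T → c = c0 := by
          intro c hcs hcT
          exact Finset.card_le_one.1 hle c (Finset.mem_inter.2 ⟨hcT, hcs⟩) c0 hc0
        have hWin : ∀ r ∈ NB s T, σ.W r c0 := by
          intro r hr
          obtain ⟨r', w1, c, w2, w3, w4⟩ := hB.df.inner h hr
          rw [huniq c w2 w3] at w4
          exact ⟨r', ReflTransGen.mono (fun u v huv => huv.1) _ _ w1, w4⟩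
        have hnW : ¬ σ.W (σ.a jf) c0 := by
          rintro ⟨r', w1, w2⟩
          exact σ.no_enter h hB.df.sub hB.df.card hle hB.df.nf w1 (mem_NB.2 ⟨c0, hc0T, w2⟩)
        obtain ⟨ψ, ω, hψ⟩ := σ.exists_SV h hB.n1 hB.xf
        obtain ⟨c, ε, hε, m1, m2, m3, m4⟩ := hB.gm h hψ
        have hx := σ.extT h hψ hc0s (i := jf) (l := e) (m := f) (j := p1) hB.xf (hB.ex k4) (hB.ex l4) hB.n1 hnW
          (hWin _ k4) (hWin _ l4)
        rw [m1 jf hB.f1 hB.f2 hB.xf] at hx
        exact T2P4b_sign hε (m3 e k1 (by omega) k4) (m4 f l1 (by omega) l4) hx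

end MCC
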