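import Pool.Agent.Lib_MP_cb5629.T2P6

set_option linter.unusedSectionVars false

namespace MCC

open Finset Relation

variable {A B : Type} [Fintype A] [Fintype B] [DecidableEq A] [DecidableEq B]
variable {s : A → B → ℤ} {x : A} {y : B}
variable {σ σ' : St s x y} {φ lam : A → ℝ} {p1 p2 p3 p4 jf jg m e n e' : ℤ} {T : Finset B} {R : Finset A}

/-- Piece T2P7. The new state has parallel entries `p3, p4 | p1 + k, p2 + k` (`k` is the old length; these indices are in the window `[n, m + k]` where the sequences agree). Entries, side vectors, `del`: `Ear.TEx_iff`, `Ear.SV`, `Ear.del` with `noe`, `rV`. `o4`: `σ'.k = m + k - n + 1 + |R|`. Exits: `ex` for `jg`, the exit of the fourth interval, `jf + k`;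
in the fourth interval of `σ'`: the index `e' + σ'.k`, row `σ.a e'`, `inner`. -/
theorem St.LE.par (h : T2Ctx s x y) (hL : σ.LE σ' φ lam p1 p2 p3 p4 jf jg m e n e' T R) :
    σ'.Par φ lam p3 p4 (p1 + σ.k) (p2 + σ.k) := by
  have hB := hL.big
  have h1 := hL.h1
  have h2 := hL.h2
  have h3 := hL.h3
  have h4 := hL.h4
  have h5 := hL.h5
  have o1 := hB.o1
  have o2 := hB.o2
  have o3 := hB.o3
  have o4 := hB.o4
  have hk := hL.ear.k'
  have hR : (0 : ℤ) ≤ R.card := Int.natCast_nonneg _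
  have hen : ∀ i, m < i → i < n → ¬ σ.T.Ex (σ.b i) := fun i g1 g2 => hL.noe h g1 g2
  have hent : ∀ i, n ≤ i → i ≤ m + σ.k → σ.T.Ex (σ.b i) → σ'.T.Ex (σ'.b i) := by
    intro i g1 g2 g3
    rw [hL.ear.keepb i g1 g2]
    exact (hL.ear.TEx_iff hL.rV hen).2 g3
  have hexi : ∀ j, p3 ≤ j → j < p2 + σ.k → σ.Ex (σ.a j) → σ'.Ex (σ'.a j) := by
    intro j g1 g2 g3
    rw [hL.ear.keepa j (by omega) (by omega)]
    exact hL.ex h g1 g2 g3
  have d3 : σ'.del φ lam p3 = σ.del φ lam p3 := hL.ear.del (by omega) (by omega)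
  have d4 : σ'.del φ lam p4 = σ.del φ lam p4 := hL.ear.del (by omega) (by omega)
  have d1 : σ'.del φ lam (p1 + σ.k) = σ.del φ lam p1 := by
    rw [hL.ear.del (by omega) (by omega)]
    unfold St.del
    rw [σ.pb]
  have d2 : σ'.del φ lam (p2 + σ.k) = σ.del φ lam p2 := by
    rw [hL.ear.del (by omega) (by omega)]
    unfold St.del
    rw [σ.pb]
  refine ⟨o3, by omega, by omega, by omega, hent _ (by omega) (by omega) hB.n3, hent _ (by omega) (by omega) hB.n4,
    hent _ (by omega) (by omega) (by rw [σ.pb]; exact hB.n1), hent _ (by omega) (by omega) (by rw [σ.pb]; exact hB.n2),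
    hL.ear.SV hL.rV hen hB.sv, ?_, ?_, ?_, ?_, ?_⟩
  · rw [d1, d2, d3, d4]
    rcases hB.sep with ⟨a1, a2, a3, a4⟩ | ⟨a1, a2, a3, a4⟩
    · right
      exact ⟨a1, a2, a3, a4⟩
    · left
      exact ⟨a1, a2, a3, a4⟩
  · obtain ⟨j, g1, g2, g3⟩ := hB.x3
    exact ⟨j, g1, g2, hexi j g1 (by omega) g3⟩
  · obtain ⟨j, g1, g2, g3⟩ := hB.x4
    exact ⟨j, g1, g2, hexi j (by omega) (by omega) g3⟩
  · obtain ⟨j, g1, g2, g3⟩ := hB.x1
    exact ⟨j + σ.k, by omega, by omega, hexi _ (by omega) (by omega) (by rw [σ.pa]; exact g3)⟩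
  · refine ⟨e' + σ'.k, by omega, by omega, ?_⟩
    rw [σ'.pa, hL.ear.keepa e' (by omega) (by omega)]
    exact hL.inner h hL.he'

/-- The smallest deficient set grows. Proof. `par`, `Par.big` for `σ'` with `jg, jf + k` (rows `σ.a jg`, `σ.a jf`; `ex`), giving `T'`; `sub` (`Df.sub`, `Df.card`, `Df.ng`): `T ⊆ T'`; if `|T'| ≤ |T|` then `T' = T`, contradiction to `strict` and `Df.card`. -/
theorem St.LE.grow (h : T2Ctx s x y) (hL : σ.LE σ' φ lam p1 p2 p3 p4 jf jg m e n e' T R) :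
    ∃ T' : Finset B, σ'.Big φ lam p3 p4 (p1 + σ.k) (p2 + σ.k) jg (jf + σ.k) T' ∧ T.card < T'.card := by
  have hB := hL.big
  have h1 := hL.h1
  have h2 := hL.h2
  have h3 := hL.h3
  have h4 := hL.h4
  have h5 := hL.h5
  have o1 := hB.o1
  have o2 := hB.o2
  have o3 := hB.o3
  have o4 := hB.o4
  have f1 := hB.f1
  have f2 := hB.f2
  have g1 := hB.g1
  have g2 := hB.g2
  have ka : σ'.a jg = σ.a jg := hL.ear.keepa jg (by omega) (by omega)
  have kb : σ'.a (jf + σ.k) = σ.a jf := by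
    rw [hL.ear.keepa (jf + σ.k) (by omega) (by omega), σ.pa]
  obtain ⟨T', hB'⟩ := (hL.par h).big h (jf := jg) (jg := jf + σ.k) g1 g2 (by omega) (by omega)
    (by rw [ka]; exact hL.ex h g1 (by omega) hB.xg)
    (by
      rw [kb, ← σ.pa jf]
      exact hL.ex h (by omega) (by omega) (by rw [σ.pa]; exact hB.xf))
  have hc := hB'.df.card
  have hsub : T ⊆ T' := by
    refine hL.sub h hB'.df.sub (by omega) ?_
    rw [← kb]
    exact hB'.df.ng
  refine ⟨T', hB', ?_⟩
  by_contra hlt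
  have heq : T = T' := eq_of_subset_of_card_le hsub (by omega)
  have hs := hL.strict h
  rw [heq] at hs
  omega

end MCC
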