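import Pool.Agent.Lib_MP_cb5629.T2Sym

set_option linter.unusedSectionVars false

namespace MCC

open Finset Relation

variable {A B : Type} [Fintype A] [Fintype B] [DecidableEq A] [DecidableEq B]
variable {s : A → B → ℤ} {x : A} {y : B}

/-- Let `e1 < e2 ≤ ... ≤ en` be the elements of `E` sorted by `δ`, `n ≥ 4`. If `δ e2 < δ e(n-1)`: `{e1, e2}` and `{e(n-1), en}` are separated. Otherwise `e2, ..., e(n-1)` have the same value `d0`,
`δ e1 < d0` by `hA` for `c = en` and `d0 < δ en` by `hA` for `c = e1`. (Without sorting: take `l` with `δ l` minimal, `h ≠ l` with `δ h` maximal in `E.erase l`; in `E' = E \ {l, h}` take a minimal `l'`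
and a maximal `h'`; if `δ l' < δ h'`: `l, l' | h, h'`; otherwise `δ` is constant `= d0` on `E'`.) -/
theorem sepA {ι : Type*} [DecidableEq ι] (E : Finset ι) (hE : 4 ≤ E.card) (δ : ι → ℝ)
    (hA : ∀ c, ∃ f ∈ E, ∃ g ∈ E, f ≠ c ∧ g ≠ c ∧ δ f ≠ δ g) :
    (∃ l1 ∈ E, ∃ l2 ∈ E, ∃ h1 ∈ E, ∃ h2 ∈ E, l1 ≠ l2 ∧ h1 ≠ h2 ∧ δ l1 < δ h1 ∧ δ l1 < δ h2 ∧ δ l2 < δ h1 ∧
      δ l2 < δ h2) ∨
    ∃ l ∈ E, ∃ g ∈ E, ∃ d0 : ℝ, δ l < d0 ∧ d0 < δ g ∧ (∀ e ∈ E, e ≠ l → e ≠ g → δ e = d0) ∧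
      ∃ e1 ∈ E, ∃ e2 ∈ E, e1 ≠ e2 ∧ e1 ≠ l ∧ e1 ≠ g ∧ e2 ≠ l ∧ e2 ≠ g := by
  classical
  obtain ⟨l, hl, hlmin⟩ := E.exists_min_image δ (by rw [← Finset.card_pos]; omega)
  have c1 : (E.erase l).card + 1 = E.card := Finset.card_erase_add_one hl
  obtain ⟨h, hh, hhmax⟩ := (E.erase l).exists_max_image δ (by rw [← Finset.card_pos]; omega)
  have c2 : ((E.erase l).erase h).card + 1 = (E.erase l).card := Finset.card_erase_add_one hh
  obtain ⟨l', hl', hlmin'⟩ := ((E.erase l).erase h).exists_min_image δ (by rw [← Finset.card_pos]; omega)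
  obtain ⟨h', hh', hhmax'⟩ := ((E.erase l).erase h).exists_max_image δ (by rw [← Finset.card_pos]; omega)
  have hhE : h ∈ E := Finset.mem_of_mem_erase hh
  have hhl : h ≠ l := Finset.ne_of_mem_erase hh
  have m1 : ∀ {e}, e ∈ (E.erase l).erase h → e ∈ E ∧ e ≠ l ∧ e ≠ h := by
    intro e he
    rw [Finset.mem_erase, Finset.mem_erase] at he
    exact ⟨he.2.2, he.2.1, he.1⟩
  have m2 : ∀ {e}, e ∈ E → e ≠ l → e ≠ h → e ∈ (E.erase l).erase h := by
    intro e h1 h2 h3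
    rw [Finset.mem_erase, Finset.mem_erase]
    exact ⟨h3, h2, h1⟩
  have hll' : δ l ≤ δ l' := hlmin l' (m1 hl').1
  have hhh' : δ h' ≤ δ h := hhmax h' (Finset.mem_of_mem_erase hh')
  rcases lt_or_ge (δ l') (δ h') with hlt | hge
  · left
    refine ⟨l, hl, l', (m1 hl').1, h, hhE, h', (m1 hh').1, (m1 hl').2.1.symm, (m1 hh').2.2.symm, ?_, ?_, ?_, ?_⟩ <;>
      linarith
  · right
    have hconst : ∀ e ∈ E, e ≠ l → e ≠ h → δ e = δ l' := by
      intro e h1 h2 h3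
      have h4 := hlmin' e (m2 h1 h2 h3)
      have h5 := hhmax' e (m2 h1 h2 h3)
      linarith
    have hl1 : δ l < δ l' := by
      rcases lt_or_eq_of_le hll' with h1 | h1
      · exact h1
      exfalso
      obtain ⟨f, hf, g, hg, hfc, hgc, hfg⟩ := hA h
      have e1 : ∀ e ∈ E, e ≠ h → δ e = δ l' := by
        intro e he hne
        by_cases hel : e = l
        · rw [hel, h1]
        · exact hconst e he hel hne
      exact hfg ((e1 f hf hfc).trans (e1 g hg hgc).symm)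
    have hl2 : δ l' < δ h := by
      have h0 : δ l' ≤ δ h := hhmax l' (Finset.mem_of_mem_erase hl')
      rcases lt_or_eq_of_le h0 with h1 | h1
      · exact h1
      exfalso
      obtain ⟨f, hf, g, hg, hfc, hgc, hfg⟩ := hA l
      have e1 : ∀ e ∈ E, e ≠ l → δ e = δ l' := by
        intro e he hne
        by_cases hel : e = h
        · rw [hel, h1]
        · exact hconst e he hne hel
      exact hfg ((e1 f hf hfc).trans (e1 g hg hgc).symm)
    obtain ⟨e1, he1, e2, he2, h12⟩ := Finset.one_lt_card.1 (show 1 < ((E.erase l).erase h).card by omega)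
    exact ⟨l, hl, h, hhE, δ l', hl1, hl2, hconst, e1, (m1 he1).1, e2, (m1 he2).1, h12, (m1 he1).2.1, (m1 he1).2.2,
      (m1 he2).2.1, (m1 he2).2.2⟩

/-- The exceptional case cannot occur. Proof. `e1, e2` have the same `del`, so `¬ σ.T.Lk (b e1) (b e2)` (`del_ne_all`). Let `S` be the smallest deficient set, `σ.T.Df (b e1) (b e2) S` (`exists_Df` for `σ.T`,
`T2Ctx.tr`; `NB (tr s) = NA s`). An entry `b e ∈ NA s S` is `b l` or `b g` (`Df.not_adj` with `b e2`, resp. `e1, e2` themselves are not in `NA s S`: all other entries have the same `del` as `b e2`, so are not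
linkable with it). So `NA s S ⊆ insert y (insert (b l) (insert (b g) (NA s S ∩ σ.T.U)))` (`TV_adj`, `f1_s`), which has at most `|S| + 2` elements; by the brace property (`S ⊆ σ.T.V`
misses `x` and at least three exit rows, `card_XR`, `f1_V`; `|S| ≥ 1` by `Df.card`) equality holds and `y, b l, b g ∈ NA s S`. As `y ∈ NA s S` and the rows of `σ.T.V` off the sources are not adjacent to `y`
(`TV_O`), `S` contains a source `r1`. If `S` contains both sources, `CondT` (with `S`: `2 ≤ |S|`, `|S| + 4 ≤ n`, `x ∉ S`, no sink in `NA s S` by `f1_s`) gives a contradiction. So the other source is not in `S`; the rows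
of `S` other than `r1` are off the cycle and their partners are `|S| - 1` distinct elements of `NA s S ∩ σ.T.U`, which has `|S| - 1` elements. So `S` is closed under `σ.step` (`σ.N r' ∈ NA s S ∩ σ.T.U` is
`σ.N r''`, `r'' ∈ S`), so `¬ σ.W r1 (b e1)` (`b e1 ∉ NA s S`). By `Df.inner` for `σ.T` there are walks from `b l` and from `b g` to a source in `S`, i.e. to `r1`: `σ.W r1 (b l)`, `σ.W r1 (b g)`
(`W_T`). `ext` with `i = e1`: `0 ≤ (del e1 - del l) * (del e1 - del g)`: contradiction. -/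
theorem St.sepB (h : T2Ctx s x y) (hT : CondT s x y) (σ : St s x y) (hall : ∀ i, σ.Ex (σ.a i)) {φ lam : A → ℝ}
    (hφ : σ.T.SV φ lam) {l g e1 e2 : ℤ} {d0 : ℝ} (hl : σ.T.Ex (σ.b l)) (hg : σ.T.Ex (σ.b g)) (he1 : σ.T.Ex (σ.b e1))
    (he2 : σ.T.Ex (σ.b e2)) (hlt : σ.del φ lam l < d0) (hgt : d0 < σ.del φ lam g) (h12 : σ.b e1 ≠ σ.b e2)
    (hd1 : σ.del φ lam e1 = d0) (hd2 : σ.del φ lam e2 = d0)
    (hE : ∀ e, σ.T.Ex (σ.b e) → σ.b e ≠ σ.b l → σ.b e ≠ σ.b g → σ.del φ lam e = d0) : False := by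
  have hL : ¬ σ.T.Lk (σ.b e1) (σ.b e2) := fun hL =>
    σ.del_ne_all h hall hφ h12 he1 he2 hL (hd1.trans hd2.symm)
  have nU : ∀ i, σ.b i ∉ σ.T.U := by
    intro i
    have h1 := σ.T.a_not_U (-i)
    have h2 : σ.T.a (-i) = σ.b i := by
      show σ.b (- -i) = σ.b i
      rw [neg_neg]
    rwa [h2] at h1
  obtain ⟨S, hD⟩ := σ.T.exists_Df h.tr h12 he1 he2 (nU e1) (nU e2) hL
  have hNB : NB (MCC.tr s) S = NA s S := by
    ext c
    rw [mem_NB, mem_NA]
    rfl
  have hnf : σ.b e1 ∉ NA s S := by rw [← hNB]; exact hD.nf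
  have hng : σ.b e2 ∉ NA s S := by rw [← hNB]; exact hD.ng
  have hcard : (NA s S ∩ σ.T.U).card + 1 = S.card := by rw [← hNB]; exact hD.card
  have hSV : ∀ {r}, r ∈ S → r ∈ σ.T.V := fun hr => hD.sub hr
  -- entries in the neighbourhood of S
  have hent : ∀ e, σ.T.Ex (σ.b e) → σ.b e ∈ NA s S → σ.b e = σ.b l ∨ σ.b e = σ.b g := by
    intro e he hN
    by_contra hc
    rw [not_or] at hc
    have hde := hE e he hc.1 hc.2
    by_cases h2 : σ.b e = σ.b e2
    · exact hng (h2 ▸ hN)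
    · have hL2 : ¬ σ.T.Lk (σ.b e) (σ.b e2) := fun hL2 =>
        σ.del_ne_all h hall hφ h2 he he2 hL2 (hde.trans hd2.symm)
      have h3 := hD.not_adj h.tr he2 (nU e2) he (nU e) h2 hL2
      rw [hNB] at h3
      exact h3 hN
  have hsub : NA s S ⊆ insert y (insert (σ.b l) (insert (σ.b g) (NA s S ∩ σ.T.U))) := by
    intro c hc
    have hc' := hc
    rw [mem_NA] at hc
    obtain ⟨r, hr, hrc⟩ := hc
    rw [mem_insert, mem_insert, mem_insert, mem_inter]
    rcases σ.TV_adj (hSV hr) hrc with h5 | h5 | h5 | h5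
    · exact Or.inl h5
    · exact Or.inr (Or.inr (Or.inr ⟨hc', h5⟩))
    · obtain ⟨⟨i, hi⟩, h6⟩ := σ.T.mem_XR.1 h5
      have hi2 : σ.b (-i) = c := hi
      rw [← hi2] at h6 hc' ⊢
      rcases hent (-i) h6 hc' with h7 | h7
      · exact Or.inr (Or.inl h7)
      · exact Or.inr (Or.inr (Or.inl h7))
    · exact absurd (σ.f1_s h (hSV hr) (σ.mem_V.2 (Or.inr h5))) hrc
  -- the size of S
  have hxV : x ∉ σ.T.V := σ.T.y_not_V h.tr
  have hxS : x ∉ S := fun hx => hxV (hSV hx)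
  have hn4 : S.card + 4 ≤ Fintype.card A := by
    have hxX : x ∉ σ.XR := by
      intro hx
      obtain ⟨⟨i, hi⟩, -⟩ := σ.mem_XR.1 hx
      exact σ.a_ne_x h i hi
    have hdis : Disjoint S (insert x σ.XR) := by
      rw [disjoint_left]
      intro r hr hr2
      rw [mem_insert] at hr2
      rcases hr2 with rfl | hr2
      · exact hxS hr
      · exact σ.f1_V h (hSV hr) (σ.mem_XR.1 hr2).2
    have h1 := card_union_of_disjoint hdis
    have h2 := card_le_univ (S ∪ insert x σ.XR)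
    have h3 := card_insert_of_notMem hxX
    have h4 := σ.card_XR h
    omega
  have hSne : S.Nonempty := by
    rw [← card_pos]
    omega
  have hbr := h.hb.hall S hSne (by omega)
  have c1 := card_insert_le y (insert (σ.b l) (insert (σ.b g) (NA s S ∩ σ.T.U)))
  have c2 := card_insert_le (σ.b l) (insert (σ.b g) (NA s S ∩ σ.T.U))
  have c3 := card_insert_le (σ.b g) (NA s S ∩ σ.T.U)
  have heq : NA s S = insert y (insert (σ.b l) (insert (σ.b g) (NA s S ∩ σ.T.U))) :=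
    eq_of_subset_of_card_le hsub (by omega)
  have hcS : (NA s S).card = S.card + 2 := by
    have c4 := card_le_card hsub
    omega
  have hyN : y ∈ NA s S := by
    rw [heq]
    exact mem_insert_self _ _
  have hlN : σ.b l ∈ NA s S := by
    rw [heq]
    exact mem_insert_of_mem (mem_insert_self _ _)
  have hgN : σ.b g ∈ NA s S := by
    rw [heq]
    exact mem_insert_of_mem (mem_insert_of_mem (mem_insert_self _ _))
  -- a source in S
  obtain ⟨r1, hr1, hr1y⟩ := mem_NA.1 hyN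
  have hr1s : r1 ∈ snk (MCC.tr s) y x := by
    by_contra hc
    exact hr1y (σ.TV_O (hSV hr1) hc).1.1
  have hns : ∀ b ∈ nbA s x, b ≠ y → b ∉ NA s S := by
    intro b hb hne hN
    rw [mem_nbA] at hb
    rw [mem_NA] at hN
    obtain ⟨r, hr, hrb⟩ := hN
    exact hrb (σ.f1_s h (hSV hr) (σ.mem_V.2 (Or.inr (mem_snk.2 ⟨hne, hb⟩))))
  have hcs := card_snk h.tr
  have hex : ∃ r2 ∈ snk (MCC.tr s) y x, r2 ∉ S := by
    by_contra hc
    push Not at hc
    have h2 : 2 ≤ S.card := by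
      have := card_le_card (show snk (MCC.tr s) y x ⊆ S from fun r hr => hc r hr)
      omega
    exact hT S h2 hn4 hxS (fun a ha hne => by
      rw [mem_nbB] at ha
      exact hc a (mem_snk.2 ⟨hne, by rw [tr_apply]; exact ha⟩)) hns hcS
  obtain ⟨r2, hr2s, hr2⟩ := hex
  have honly : ∀ r ∈ snk (MCC.tr s) y x, r ∈ S → r = r1 := by
    intro r hr hrS
    by_contra hne
    have h12' : r1 ≠ r2 := fun hc => hr2 (hc ▸ hr1)
    have hrr2 : r ≠ r2 := fun hc => hr2 (hc ▸ hrS)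
    have h3 : ({r, r1, r2} : Finset A).card = 3 := by
      rw [card_insert_of_notMem, card_insert_of_notMem, card_singleton]
      · rw [mem_singleton]; exact h12'
      · rw [mem_insert, mem_singleton, not_or]
        exact ⟨hne, hrr2⟩
    have h4 : ({r, r1, r2} : Finset A) ⊆ snk (MCC.tr s) y x := by
      intro c hc
      rw [mem_insert, mem_insert, mem_singleton] at hc
      rcases hc with rfl | rfl | rfl
      · exact hr
      · exact hr1s
      · exact hr2s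
    have h5 := card_le_card h4
    omega
  -- S is closed under steps
  have hoff : ∀ r ∈ S.erase r1, σ.O r ∧ σ.N r ∈ σ.T.U := by
    intro r hr
    rw [mem_erase] at hr
    refine σ.TV_O (hSV hr.2) fun hc => hr.1 (honly r hc hr.2)
  have himg : (S.erase r1).image σ.N = NA s S ∩ σ.T.U := by
    apply eq_of_subset_of_card_le
    · intro c hc
      rw [mem_image] at hc
      obtain ⟨r, hr, rfl⟩ := hc
      obtain ⟨hO, hU⟩ := hoff r hr
      rw [mem_inter, mem_NA]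
      exact ⟨⟨r, mem_of_mem_erase hr, (σ.N_O hO).2.1⟩, hU⟩
    · rw [card_image_of_injOn]
      · have := card_erase_add_one hr1
        omega
      · intro r hr r' hr' he
        have h1 := (σ.N_O (hoff r hr).1).2.2
        have h2 := (σ.N_O (hoff r' hr').1).2.2
        have he' : σ.N r = σ.N r' := he
        rw [← h1, ← h2, he']
  have hstep : ∀ r ∈ S, ∀ r', σ.step r r' → r' ∈ S := by
    intro r hr r' hst
    have hV := σ.TV_step (hSV hr) hst
    have hns' : r' ∉ snk (MCC.tr s) y x := by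
      intro hc
      have h1 := (mem_snk.1 hc).2
      rw [tr_apply] at h1
      exact h1 hst.1.1
    have hU := (σ.TV_O hV hns').2
    have hm : σ.N r' ∈ NA s S ∩ σ.T.U := by
      rw [mem_inter, mem_NA]
      exact ⟨⟨r, hr, hst.2⟩, hU⟩
    rw [← himg, mem_image] at hm
    obtain ⟨r'', hr'', he⟩ := hm
    have h1 := (σ.N_O (hoff r'' hr'').1).2.2
    have h2 := (σ.N_O hst.1).2.2
    have h3 : r' = r'' := by rw [← h1, ← h2, he]
    rw [h3]
    exact mem_of_mem_erase hr''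
  have hreach : ∀ r, ReflTransGen σ.step r1 r → r ∈ S := by
    intro r hr
    induction hr with
    | refl => exact hr1
    | tail _ h2 ih => exact hstep _ ih _ h2
  have hni : ¬ σ.W r1 (σ.b e1) := by
    rintro ⟨r', h1, h2⟩
    exact hnf (mem_NA.2 ⟨r', hreach r' h1, h2⟩)
  have hW : ∀ c, c ∈ NA s S → σ.W r1 c := by
    intro c hc
    rw [← hNB] at hc
    obtain ⟨c', h1, r, hr, hrS, h2⟩ := hD.inner h.tr hc
    have h3 : r = r1 := honly r hr hrS
    rw [h3] at h2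
    rw [← σ.W_T]
    have h5 : ReflTransGen σ.T.step (c : B) c' := by
      clear h2 hc
      induction h1 with
      | refl => exact ReflTransGen.refl
      | tail _ h6 ih => exact ih.tail h6.1
    exact ⟨c', h5, h2⟩
  have hfin := σ.ext h hφ hr1s he1 hl hg (hall 0) hni (hW _ hlN) (hW _ hgN)
  rw [hd1] at hfin
  have h1 : 0 < d0 - σ.del φ lam l := by linarith
  have h2 : d0 - σ.del φ lam g < 0 := by linarith
  have h3 := mul_neg_of_pos_of_neg h1 h2
  linarith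

/-- Piece T2SEP. Two low and two high entries. Proof. `sepA` with `E = σ.T.XR`, `δ c = gam (tr s) φ lam c` (`card_TXR`); `hA c`: `lv` for `σ.T` with `f1 = c` gives two linkable entries different from `c`, which have
different `del` (`del_ne_all`; `mem_XR` gives their indices). The second alternative contradicts `sepB`. -/
theorem St.sep (h : T2Ctx s x y) (hT : CondT s x y) (σ : St s x y) (hall : ∀ i, σ.Ex (σ.a i)) {φ lam : A → ℝ}
    (hφ : σ.T.SV φ lam) :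
    ∃ l1 l2 g1 g2 : ℤ, σ.T.Ex (σ.b l1) ∧ σ.T.Ex (σ.b l2) ∧ σ.T.Ex (σ.b g1) ∧ σ.T.Ex (σ.b g2) ∧ σ.b l1 ≠ σ.b l2 ∧
      σ.b g1 ≠ σ.b g2 ∧ σ.del φ lam l1 < σ.del φ lam g1 ∧ σ.del φ lam l1 < σ.del φ lam g2 ∧
      σ.del φ lam l2 < σ.del φ lam g1 ∧ σ.del φ lam l2 < σ.del φ lam g2 := by
  have hidx : ∀ c ∈ σ.T.XR, ∃ i, σ.b i = c ∧ σ.T.Ex (σ.b i) := by
    intro c hc
    obtain ⟨⟨i, hi⟩, h6⟩ := σ.T.mem_XR.1 hc
    have hi2 : σ.b (-i) = c := hi
    exact ⟨-i, hi2, by rw [hi2]; exact h6⟩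
  have hA : ∀ c, ∃ f ∈ σ.T.XR, ∃ g ∈ σ.T.XR, f ≠ c ∧ g ≠ c ∧
      gam (MCC.tr s) φ lam f ≠ gam (MCC.tr s) φ lam g := by
    intro c
    obtain ⟨f, g, hf, hg, hfc, hgc, hfg, hL⟩ := σ.T.lv h.tr c
    refine ⟨f, hf, g, hg, hfc, hgc, ?_⟩
    obtain ⟨i, hi, hi2⟩ := hidx f hf
    obtain ⟨j, hj, hj2⟩ := hidx g hg
    rw [← hi, ← hj] at hfg hL ⊢
    exact σ.del_ne_all h hall hφ hfg hi2 hj2 hL
  rcases sepA σ.T.XR (σ.card_TXR h hT) (fun c => gam (MCC.tr s) φ lam c) hA with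
    ⟨l1, m1, l2, m2, g1, m3, g2, m4, hl, hg, h1, h2, h3, h4⟩ |
    ⟨l, ml, g, mg, d0, h1, h2, h3, e1, me1, e2, me2, h12, h5, h6, h7, h8⟩
  · obtain ⟨i1, hi1, hi1'⟩ := hidx l1 m1
    obtain ⟨i2, hi2, hi2'⟩ := hidx l2 m2
    obtain ⟨j1, hj1, hj1'⟩ := hidx g1 m3
    obtain ⟨j2, hj2, hj2'⟩ := hidx g2 m4
    refine ⟨i1, i2, j1, j2, hi1', hi2', hj1', hj2', ?_, ?_, ?_, ?_, ?_, ?_⟩
    · rw [hi1, hi2]; exact hl
    · rw [hj1, hj2]; exact hg
    · unfold St.del; rw [hi1, hj1]; exact h1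
    · unfold St.del; rw [hi1, hj2]; exact h2
    · unfold St.del; rw [hi2, hj1]; exact h3
    · unfold St.del; rw [hi2, hj2]; exact h4
  · exfalso
    obtain ⟨i1, hi1, hi1'⟩ := hidx l ml
    obtain ⟨i2, hi2, hi2'⟩ := hidx g mg
    obtain ⟨j1, hj1, hj1'⟩ := hidx e1 me1
    obtain ⟨j2, hj2, hj2'⟩ := hidx e2 me2
    refine σ.sepB h hT hall hφ (l := i1) (g := i2) (e1 := j1) (e2 := j2) (d0 := d0) hi1' hi2' hj1' hj2' ?_ ?_ ?_ ?_ ?_ ?_
    · unfold St.del; rw [hi1]; exact h1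
    · unfold St.del; rw [hi2]; exact h2
    · rw [hj1, hj2]; exact h12
    · unfold St.del; rw [hj1]; exact h3 e1 me1 h5 h6
    · unfold St.del; rw [hj2]; exact h3 e2 me2 h7 h8
    · intro e he hne1 hne2
      rw [hi1] at hne1
      rw [hi2] at hne2
      refine h3 (σ.b e) (σ.T.mem_XR.2 ⟨⟨-e, ?_⟩, he⟩) hne1 hne2
      show σ.b (- -e) = σ.b e
      rw [neg_neg]

/-- Piece T2CYC. The cyclic order of two low and two high entries. Proof. Move `l2, g1, g2` into the window `(l1, l1 + k)` (`b_window` with `p = l1 + 1`, `b l1` itself excluded; `del` and `T.Ex` depend only on `b`); they are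
distinct; let `g1 < g2`. `l1 < l2 < g1 < g2`: parallel; `l1 < g1 < l2 < g2`: crossing; `l1 < g1 < g2 < l2`: parallel with `(g1, g2, l2, l1 + k)`. All rows are exits. -/
theorem St.cyc (σ : St s x y) (hall : ∀ i, σ.Ex (σ.a i)) {φ lam : A → ℝ}
    (hφ : σ.T.SV φ lam) {l1 l2 g1 g2 : ℤ} (n1 : σ.T.Ex (σ.b l1)) (n2 : σ.T.Ex (σ.b l2)) (n3 : σ.T.Ex (σ.b g1))
    (n4 : σ.T.Ex (σ.b g2)) (hl : σ.b l1 ≠ σ.b l2) (hg : σ.b g1 ≠ σ.b g2) (h1 : σ.del φ lam l1 < σ.del φ lam g1)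
    (h2 : σ.del φ lam l1 < σ.del φ lam g2) (h3 : σ.del φ lam l2 < σ.del φ lam g1)
    (h4 : σ.del φ lam l2 < σ.del φ lam g2) :
    ∃ p1 p2 p3 p4 : ℤ, σ.Crs φ lam p1 p2 p3 p4 ∨ σ.Par φ lam p1 p2 p3 p4 := by
  obtain ⟨j2, a1, a2, a3⟩ := σ.b_window l1 l2
  obtain ⟨k1, b1, b2, b3⟩ := σ.b_window l1 g1
  obtain ⟨k2, c1, c2, c3⟩ := σ.b_window l1 g2
  have dl2 : σ.del φ lam j2 = σ.del φ lam l2 := by unfold St.del; rw [a3]
  have dg1 : σ.del φ lam k1 = σ.del φ lam g1 := by unfold St.del; rw [b3]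
  have dg2 : σ.del φ lam k2 = σ.del φ lam g2 := by unfold St.del; rw [c3]
  have a4 : j2 ≠ l1 := by
    rintro rfl
    exact hl a3
  have b4 : k1 ≠ l1 := by
    rintro rfl
    rw [dg1] at h1
    exact lt_irrefl _ h1
  have c4 : k2 ≠ l1 := by
    rintro rfl
    rw [dg2] at h2
    exact lt_irrefl _ h2
  have e1 : j2 ≠ k1 := by
    rintro rfl
    rw [← dl2, ← dg1] at h3
    exact lt_irrefl _ h3
  have e2 : j2 ≠ k2 := by
    rintro rfl
    rw [← dl2, ← dg2] at h4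
    exact lt_irrefl _ h4
  have e3 : k1 ≠ k2 := by
    rintro rfl
    exact hg (b3.symm.trans c3)
  have m2 : σ.T.Ex (σ.b j2) := by rw [a3]; exact n2
  have m3 : σ.T.Ex (σ.b k1) := by rw [b3]; exact n3
  have m4 : σ.T.Ex (σ.b k2) := by rw [c3]; exact n4
  rw [← dg1] at h1 h3
  rw [← dg2] at h2 h4
  rw [← dl2] at h3 h4
  -- the case `u < v` for the two high entries
  have key : ∀ u v : ℤ, l1 < u → u < l1 + σ.k → l1 < v → v < l1 + σ.k → j2 ≠ u → j2 ≠ v → u < v →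
      σ.T.Ex (σ.b u) → σ.T.Ex (σ.b v) → σ.del φ lam l1 < σ.del φ lam u → σ.del φ lam l1 < σ.del φ lam v →
      σ.del φ lam j2 < σ.del φ lam u → σ.del φ lam j2 < σ.del φ lam v →
      ∃ p1 p2 p3 p4 : ℤ, σ.Crs φ lam p1 p2 p3 p4 ∨ σ.Par φ lam p1 p2 p3 p4 := by
    intro u v hu1 hu2 hv1 hv2 hju hjv huv mu mv d1 d2 d3 d4
    rcases lt_or_gt_of_ne hju with hlt | hgt
    · refine ⟨l1, j2, u, v, Or.inr ⟨by omega, hlt, huv, hv2, n1, m2, mu, mv, hφ, Or.inl ⟨d1, d2, d3, d4⟩,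
        ⟨l1, le_refl _, by omega, hall _⟩, ⟨j2, le_refl _, hlt, hall _⟩, ⟨u, le_refl _, huv, hall _⟩,
        ⟨v, le_refl _, hv2, hall _⟩⟩⟩
    · rcases lt_or_gt_of_ne hjv with hlt2 | hgt2
      · exact ⟨l1, u, j2, v, Or.inl ⟨hu1, hgt, hlt2, hv2, n1, mu, m2, mv, hφ, Or.inl ⟨d1, d2, d3, d4⟩, hall⟩⟩
      · have hb : σ.b (l1 + σ.k) = σ.b l1 := σ.pb l1
        have hd : σ.del φ lam (l1 + σ.k) = σ.del φ lam l1 := by unfold St.del; rw [hb]
        refine ⟨u, v, j2, l1 + σ.k, Or.inr ⟨huv, hgt2, a2, by omega, mu, mv, m2, by rw [hb]; exact n1, hφ,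
          Or.inr ⟨d3, d4, by rw [hd]; exact d1, by rw [hd]; exact d2⟩,
          ⟨u, le_refl _, huv, hall _⟩, ⟨v, le_refl _, hgt2, hall _⟩, ⟨j2, le_refl _, a2, hall _⟩,
          ⟨l1 + σ.k, le_refl _, by omega, hall _⟩⟩⟩
  rcases lt_or_gt_of_ne e3 with h5 | h5
  · exact key k1 k2 (by omega) b2 (by omega) c2 e1 e2 h5 m3 m4 h1 h2 h3 h4
  · exact key k2 k1 (by omega) c2 (by omega) b2 e2 e1 h5 m4 m3 h2 h1 h4 h3

end MCC
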