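import Pool.Agent.Lib_MP_cb5629.T2X1
import Pool.Agent.Lib_MP_cb5629.T2Om

set_option linter.unusedSectionVars false

namespace MCC

open Finset Relation

variable {A B : Type} [Fintype A] [Fintype B] [DecidableEq A] [DecidableEq B]
variable {s : A → B → ℤ} {x : A} {y : B}

private lemma T2X3_avoid {σ : St s x y} {f g : A} {R : Finset A}
    (h2 : ∀ r, ReflTransGen σ.step f r → ReflTransGen σ.step g r → ¬ σ.Ex r)
    (hR : ∀ r ∈ R, ReflTransGen σ.step g r) (hf : σ.Ex f) :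
    ∃ r' c, c ∈ snk s x y ∧ ReflTransGen (fun u v => σ.step u v ∧ v ∉ R) f r' ∧ s r' c ≠ 0 := by
  obtain ⟨c, hc, r', hw, hr'⟩ := hf
  refine ⟨r', c, hc, ?_, hr'⟩
  have key : ∀ u, ReflTransGen σ.step u r' → ReflTransGen σ.step f u →
      ReflTransGen (fun u v => σ.step u v ∧ v ∉ R) u r' := by
    intro u hu
    induction hu using ReflTransGen.head_induction_on with
    | refl => intro _; exact ReflTransGen.refl
    | head h3 h4 ih =>
      intro h5
      have h6 := h5.tail h3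
      refine ReflTransGen.head ⟨h3, fun hv => ?_⟩ (ih h6)
      exact h2 _ h6 (hR _ hv) ⟨c, hc, r', h4, hr'⟩
  exact key f hw ReflTransGen.refl

private lemma T2X3_forget {σ : St s x y} {P : A → Prop} {u v : A}
    (h : ReflTransGen (fun u v => σ.step u v ∧ P v) u v) : ReflTransGen σ.step u v := by
  induction h with
  | refl => exact ReflTransGen.refl
  | tail _ h2 ih => exact ih.tail h2.1

private lemma T2X3_notTV {σ : St s x y} {c : B} (hc : ¬ σ.T.Ex c) {v r' : A}
    (hw : ReflTransGen σ.step v r') (hr' : s r' c ≠ 0) : v ∉ σ.T.V := by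
  intro hv
  obtain ⟨r0, hr0, hw0⟩ := σ.mem_TV.mp hv
  exact hc ⟨r0, hr0, σ.W_T.mpr ⟨r', hw0.trans hw, hr'⟩⟩

/-- No walk from a row outside the first interval to an inner column of the first interval. Proof. `b i` is not an entry (`noen`), so no row of the walk is in `σ.T.V` (`mem_TV`, `W_T`). `ear_walk` (with `P v := v ∉ σ.T.V`) for the ear from `a m`
to `b (i + k) = b i` (`m + 1 < i + k < m + k`) gives `R`: every `r ∈ R` is not in `σ.T.V` and is reachable from `a m`.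

First kind, `σ.Ear σ' m (i + k) R`. If `m` is in `I2 ∪ I4` (`Even4`): `om` with the entry `b (p1 + k)` and the row `a (p1 + k)`; if `p3 ≤ m < p4`: `om` with the entry `b p4` and the row `a p4`. In both cases the walk from this row to a sink
avoids `R`: a row of `R` on it would be reachable from this row and from `a m` and reach a sink, contradiction to `x2` (one of the two rows is odd, the other even; `a (p1 + k) = a p1`).

Second kind, `σ.mir.Ear σ' (-m-k) (1-i-k) R`; the omitted arc has the rows `σ.a n`, `i + k ≤ n < m + k` and the columns `σ.b n`, `i + k < n ≤ m + k`; in mirrored indices `σ.mir.b n' = σ.b (1 - n')`, `σ.mir.a n' = σ.a (-n')`, the entry `n'` comes before the row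
`n''` if `n' ≤ n''`. If `m` is even: `om` with the entry `b (p2 + k)` and the row `a (p2 - 1 + k)` (`n' = 1 - p2 - k`, the same `n''`); if `p3 ≤ m < p4`: the entry `b (p3 + k)` and the row `a (p3 - 1 + k)`, which is even. (`mir_TEx`, `mir_step`, `mir_TV`.) -/
theorem St.Crs.nowalk (h : T2Ctx s x y) {σ : St s x y} {φ lam : A → ℝ} {p1 p2 p3 p4 : ℤ}
    (hC : σ.Crs φ lam p1 p2 p3 p4) {i m : ℤ} (hi1 : p1 < i) (hi2 : i < p2) (hm1 : p2 ≤ m) (hm2 : m < p1 + σ.k)
    (hW : σ.W (σ.a m) (σ.b i)) : False := by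
  have o1 := hC.o1
  have o2 := hC.o2
  have o3 := hC.o3
  have o4 := hC.o4
  have hne := hC.noen h hi1 hi2
  obtain ⟨r', hw, hr'⟩ := hW
  have hw' : ReflTransGen (fun u v => σ.step u v ∧ v ∉ σ.T.V) (σ.a m) r' := by
    have key : ∀ u, ReflTransGen σ.step u r' →
        ReflTransGen (fun u v => σ.step u v ∧ v ∉ σ.T.V) u r' := by
      intro u hu
      induction hu using ReflTransGen.head_induction_on with
      | refl => exact ReflTransGen.refl
      | head h3 h4 ih => exact ReflTransGen.head ⟨h3, T2X3_notTV hne h4 hr'⟩ ih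
    exact key _ hw
  obtain ⟨R, hR, hE⟩ := σ.ear_walk h (m := m) (t := i + σ.k) (P := fun v => v ∉ σ.T.V) (by omega) (by omega) hw'
    (by rw [σ.pb]; exact hr')
  have hRg : ∀ r ∈ R, ReflTransGen σ.step (σ.a m) r := fun r hr => T2X3_forget (hR r hr).2.1
  have hRV : ∀ r ∈ R, r ∉ σ.T.V := fun r hr => (hR r hr).1
  have hcase : Even4 σ.k p1 p2 p3 p4 m ∨ (p3 ≤ m ∧ m < p4) := by
    unfold Even4
    omega
  rcases hE with ⟨σ', hE⟩ | ⟨σ', hE⟩
  · rcases hcase with hm | hm
    · obtain ⟨r2, c, hc, g1, g2⟩ := T2X3_avoid (f := σ.a (p1 + σ.k)) (g := σ.a m) (R := R)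
        (fun r h1 h2 => by
          rw [σ.pa] at h1
          exact hC.x2 h (j := p1) (m := m) (Or.inl ⟨le_rfl, o1⟩) hm h1 h2) hRg (hC.all _)
      exact hE.om h hRV (i := p1 + σ.k) (i' := p1 + σ.k) (by omega) le_rfl (by omega)
        (by rw [σ.pb]; exact hC.n1) g1 hc g2
    · obtain ⟨r2, c, hc, g1, g2⟩ := T2X3_avoid (f := σ.a p4) (g := σ.a m) (R := R)
        (fun r h1 h2 => hC.x2 h (j := m) (m := p4) (Or.inr hm) (Or.inr ⟨le_rfl, o4⟩) h2 h1) hRg (hC.all _)
      exact hE.om h hRV (i := p4) (i' := p4) (by omega) le_rfl (by omega) hC.n4 g1 hc g2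
  · have hRV' : ∀ r ∈ R, r ∉ σ.mir.T.V := by
      rw [σ.mir_TV]
      exact hRV
    rcases hcase with hm | hm
    · obtain ⟨r2, c, hc, g1, g2⟩ := T2X3_avoid (f := σ.a (p2 - 1)) (g := σ.a m) (R := R)
        (fun r h1 h2 => hC.x2 h (j := p2 - 1) (m := m) (Or.inl ⟨by omega, by omega⟩) hm h1 h2) hRg (hC.all _)
      have ea : σ.mir.a (1 - p2 - σ.k) = σ.a (p2 - 1) := by
        change σ.a (-(1 - p2 - σ.k)) = _
        rw [show -(1 - p2 - σ.k) = (p2 - 1) + σ.k by ring, σ.pa]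
      have eb : σ.mir.b (1 - p2 - σ.k) = σ.b p2 := by
        change σ.b (1 - (1 - p2 - σ.k)) = _
        rw [show 1 - (1 - p2 - σ.k) = p2 + σ.k by ring, σ.pb]
      refine hE.om h hRV' (i := 1 - p2 - σ.k) (i' := 1 - p2 - σ.k) (by omega) le_rfl (by omega)
        (by rw [eb, σ.mir_TEx]; exact hC.n2) (r' := r2) ?_ hc g2
      rw [ea, σ.mir_step]
      exact g1
    · obtain ⟨r2, c, hc, g1, g2⟩ := T2X3_avoid (f := σ.a (p3 - 1)) (g := σ.a m) (R := R)
        (fun r h1 h2 => hC.x2 h (j := m) (m := p3 - 1) (Or.inr hm) (Or.inl ⟨by omega, by omega⟩) h2 h1) hRg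
        (hC.all _)
      have ea : σ.mir.a (1 - p3 - σ.k) = σ.a (p3 - 1) := by
        change σ.a (-(1 - p3 - σ.k)) = _
        rw [show -(1 - p3 - σ.k) = (p3 - 1) + σ.k by ring, σ.pa]
      have eb : σ.mir.b (1 - p3 - σ.k) = σ.b p3 := by
        change σ.b (1 - (1 - p3 - σ.k)) = _
        rw [show 1 - (1 - p3 - σ.k) = p3 + σ.k by ring, σ.pb]
      refine hE.om h hRV' (i := 1 - p3 - σ.k) (i' := 1 - p3 - σ.k) (by omega) le_rfl (by omega)
        (by rw [eb, σ.mir_TEx]; exact hC.n3) (r' := r2) ?_ hc g2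
      rw [ea, σ.mir_step]
      exact g1

/-- Piece T2X3. The first interval has length one. Proof. Otherwise let `Q = {b i : p1 < i < p2}` (`p2 - p1 - 1 ≥ 1` columns), `A1` = the rows `r` with `σ.O r` and `σ.W r (b i)` for some `p1 < i < p2`, `T = Q ∪ σ.N '' A1`. A row adjacent to `T`: if it is off
the cycle it is in `A1`; it is not `x` (`bx`, `N1`), not a source (otherwise `b i` would be an entry, `noen`); if it is `a m` then `σ.W (a m) (b i)` for some inner `i`, so `p1 ≤ m < p2` modulo `k` by `nowalk`. So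
`|NB s T| ≤ |A1| + (p2 - p1) = |T| + 1`: contradiction to the brace property of `tr s` (`T ≠ ∅`, `T` misses `y`, the sinks and `b p1`). -/
theorem St.Crs.len (h : T2Ctx s x y) {σ : St s x y} {φ lam : A → ℝ} {p1 p2 p3 p4 : ℤ}
    (hC : σ.Crs φ lam p1 p2 p3 p4) : p2 = p1 + 1 := by
  classical
  have o1 := hC.o1
  have o2 := hC.o2
  have o3 := hC.o3
  have o4 := hC.o4
  by_contra hcon
  have hlong : p1 + 1 < p2 := by omega
  obtain ⟨Q, hQ⟩ : ∃ Q : Finset B, Q = (Finset.Ioo p1 p2).image σ.b := ⟨_, rfl⟩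
  obtain ⟨A1, hA1⟩ : ∃ A1 : Finset A, A1 = univ.filter fun r => σ.O r ∧ ∃ i, p1 < i ∧ i < p2 ∧ σ.W r (σ.b i) :=
    ⟨_, rfl⟩
  have mA1 : ∀ r, r ∈ A1 ↔ σ.O r ∧ ∃ i, p1 < i ∧ i < p2 ∧ σ.W r (σ.b i) := by
    intro r
    rw [hA1, mem_filter]
    simp only [mem_univ, true_and]
  have mQ : ∀ c, c ∈ Q ↔ ∃ i, p1 < i ∧ i < p2 ∧ σ.b i = c := by
    intro c
    rw [hQ, mem_image]
    constructor
    · rintro ⟨i, hi, he⟩
      rw [mem_Ioo] at hi
      exact ⟨i, hi.1, hi.2, he⟩
    · rintro ⟨i, h1, h2, he⟩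
      exact ⟨i, mem_Ioo.2 ⟨h1, h2⟩, he⟩
  obtain ⟨T, hT⟩ : ∃ T : Finset B, T = Q ∪ A1.image σ.N := ⟨_, rfl⟩
  have cQ : Q.card = (p2 - p1 - 1).toNat := by
    rw [hQ, card_image_of_injOn, Int.card_Ioo]
    intro i hi i' hi' he
    rw [mem_coe, mem_Ioo] at hi hi'
    rcases le_total i i' with c3 | c3
    · exact σ.ib i i' c3 (by omega) he
    · exact (σ.ib i' i c3 (by omega) he.symm).symm
  have cA : (A1.image σ.N).card = A1.card := by
    apply card_image_of_injOn
    intro r hr r' hr' he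
    rw [← (σ.N_O ((mA1 r).1 hr).1).2.2, ← (σ.N_O ((mA1 r').1 hr').1).2.2]
    exact congrArg σ.M he
  have hN : ∀ r ∈ A1, s x (σ.N r) = 0 ∧ ∀ i, σ.b i ≠ σ.N r := fun r hr =>
    σ.TO_iff.1 (σ.N_O ((mA1 r).1 hr).1).1
  have hdis : Disjoint Q (A1.image σ.N) := by
    rw [disjoint_left]
    intro c hc hc'
    obtain ⟨i, -, -, he⟩ := (mQ c).1 hc
    obtain ⟨r, hr, he'⟩ := mem_image.1 hc'
    exact (hN r hr).2 i (he.trans he'.symm)
  have cT : T.card = Q.card + A1.card := by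
    rw [hT, card_union_of_disjoint hdis, cA]
  have hTx : ∀ c ∈ T, s x c = 0 := by
    intro c hc
    rw [hT, mem_union] at hc
    rcases hc with hc | hc
    · obtain ⟨i, -, -, he⟩ := (mQ c).1 hc
      rw [← he]
      exact σ.bx i
    · obtain ⟨r, hr, he⟩ := mem_image.1 hc
      rw [← he]
      exact (hN r hr).1
  have hTW : ∀ r, ∀ c ∈ T, s r c ≠ 0 → ∃ i, p1 < i ∧ i < p2 ∧ σ.W r (σ.b i) := by
    intro r c hc hrc
    rw [hT, mem_union] at hc
    rcases hc with hc | hc
    · obtain ⟨i, h1, h2, he⟩ := (mQ c).1 hc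
      exact ⟨i, h1, h2, r, ReflTransGen.refl, by rw [he]; exact hrc⟩
    · obtain ⟨r1, hr1, he⟩ := mem_image.1 hc
      obtain ⟨hO, i, h1, h2, r2, h3, h4⟩ := (mA1 r1).1 hr1
      refine ⟨i, h1, h2, r2, ReflTransGen.head ⟨hO, ?_⟩ h3, h4⟩
      rw [he]
      exact hrc
  have hNB : NB s T ⊆ A1 ∪ (Finset.Ico p1 p2).image σ.a := by
    intro r hr
    obtain ⟨c, hc, hrc⟩ := mem_NB.1 hr
    obtain ⟨i, h1, h2, hW⟩ := hTW r c hc hrc
    rw [mem_union]
    by_cases hrx : r = x
    · rw [hrx] at hrc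
      exact absurd (hTx c hc) hrc
    by_cases hry : s r y = 0
    · by_cases hcyc : ∃ m, σ.a m = r
      · obtain ⟨m, hm⟩ := hcyc
        obtain ⟨m', g1, g2, g3⟩ := σ.a_window p1 m
        right
        rw [mem_image]
        refine ⟨m', mem_Ico.2 ⟨g1, ?_⟩, g3.trans hm⟩
        by_contra hge
        rw [not_lt] at hge
        rw [← hm, ← g3] at hW
        exact hC.nowalk h h1 h2 hge g2 hW
      · left
        exact (mA1 r).2 ⟨⟨hry, fun m hm => hcyc ⟨m, hm⟩⟩, i, h1, h2, hW⟩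
    · exfalso
      apply hC.noen h h1 h2
      exact ⟨r, mem_snk.2 ⟨hrx, by rw [tr_apply]; exact hry⟩, σ.W_T.mpr hW⟩
  have cI : ((Finset.Ico p1 p2).image σ.a).card ≤ (p2 - p1).toNat := by
    have h1 := card_image_le (s := Finset.Ico p1 p2) (f := σ.a)
    rw [Int.card_Ico] at h1
    exact h1
  have hle := card_le_card hNB
  have hle2 := card_union_le A1 ((Finset.Ico p1 p2).image σ.a)
  -- `T` misses `y` and `b p1`
  have hbT : σ.b p1 ∉ T := by
    intro hc
    rw [hT, mem_union] at hc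
    rcases hc with hc | hc
    · obtain ⟨i, h1, h2, he⟩ := (mQ _).1 hc
      have := σ.ib p1 i (by omega) (by omega) he.symm
      omega
    · obtain ⟨r, hr, he⟩ := mem_image.1 hc
      exact (hN r hr).2 p1 he.symm
  have hyT : y ∉ insert (σ.b p1) T := by
    intro hc
    rw [mem_insert] at hc
    rcases hc with hc | hc
    · have h1 := σ.bx p1
      rw [← hc] at h1
      exact h.xy h1
    · exact h.xy (hTx y hc)
  have hcB := card_le_univ (insert y (insert (σ.b p1) T))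
  rw [card_insert_of_notMem hyT, card_insert_of_notMem hbT] at hcB
  have hne : T.Nonempty := by
    rw [← card_pos]
    omega
  have hbr := (Brace.tr h.hc h.hb).hall T hne (by omega)
  rw [NA_tr] at hbr
  omega

end MCC
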