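import Pool.Agent.Lib_MP_cb5629.T2X4
import Pool.Agent.Lib_MP_cb5629.T2X3

set_option linter.unusedSectionVars false

namespace MCC

open Finset Relation

variable {A B : Type} [Fintype A] [Fintype B] [DecidableEq A] [DecidableEq B]
variable {s : A → B → ℤ} {x : A} {y : B}

/-- a row adjacent to `y` and to two distinct columns of the cycle is not adjacent to a third one -/
private lemma T2X5_src (h : T2Ctx s x y) {r : A} {c1 c2 c3 : B} (hy : s r y ≠ 0) (h1 : s r c1 ≠ 0) (h2 : s r c2 ≠ 0)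
    (h3 : s r c3 ≠ 0) (n1 : c1 ≠ y) (n2 : c2 ≠ y) (n3 : c3 ≠ y) (n12 : c1 ≠ c2) (n13 : c1 ≠ c3) (n23 : c2 ≠ c3) :
    False := by
  have hsub : insert y (insert c1 (insert c2 {c3})) ⊆ nbA s r := by
    intro c hc
    rw [mem_insert, mem_insert, mem_insert, mem_singleton] at hc
    rcases hc with rfl | rfl | rfl | rfl
    · exact mem_nbA.2 hy
    · exact mem_nbA.2 h1
    · exact mem_nbA.2 h2
    · exact mem_nbA.2 h3
  have hc := card_le_card hsub
  rw [h.hc.row r, card_insert_of_notMem, card_insert_of_notMem, card_insert_of_notMem, card_singleton] at hc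
  · omega
  · rw [mem_singleton]; exact n23
  · rw [mem_insert, mem_singleton]; tauto
  · rw [mem_insert, mem_insert, mem_singleton]
    rintro (e | e | e)
    · exact n1 e.symm
    · exact n2 e.symm
    · exact n3 e.symm

/-- the neighbours of a column of the cycle -/
private lemma T2X5_col (h : T2Ctx s x y) (σ : St s x y) (i : ℤ) {r0 : A} (hr : s r0 y ≠ 0) (hb : s r0 (σ.b i) ≠ 0)
    {r : A} (h1 : s r (σ.b i) ≠ 0) : r = r0 ∨ ∃ j, σ.a j = r := by
  by_contra hcon
  push Not at hcon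
  obtain ⟨h2, h3⟩ := hcon
  have e1 := σ.s_ab i
  have e2 := σ.s_ab' (i - 1)
  rw [show i - 1 + 1 = i by ring] at e2
  have e3 : σ.a (i - 1) ≠ σ.a i := by
    intro e
    have := σ.ia (i - 1) i (by omega) (by have := σ.two_le_k; omega) e
    omega
  have e4 : ∀ j, σ.a j ≠ r0 := by
    intro j e
    have := σ.ay j
    rw [e] at this
    exact hr this
  have hsub : insert r (insert r0 (insert (σ.a (i - 1)) {σ.a i})) ⊆ nbB s (σ.b i) := by
    intro c hc
    rw [mem_insert, mem_insert, mem_insert, mem_singleton] at hc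
    rcases hc with rfl | rfl | rfl | rfl
    · exact mem_nbB.2 h1
    · exact mem_nbB.2 hb
    · exact mem_nbB.2 e2
    · exact mem_nbB.2 e1
  have hc := card_le_card hsub
  rw [h.hc.col, card_insert_of_notMem, card_insert_of_notMem, card_insert_of_notMem, card_singleton] at hc
  · omega
  · rw [mem_singleton]; exact e3
  · rw [mem_insert, mem_singleton]
    rintro (e | e)
    · exact e4 _ e.symm
    · exact e4 _ e.symm
  · rw [mem_insert, mem_insert, mem_singleton]
    rintro (e | e | e)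
    · exact h2 e
    · exact h3 _ e.symm
    · exact h3 _ e.symm

/-- every index is one of four -/
private lemma T2X5_idx (σ : St s x y) (hk : σ.k = 4) (p i : ℤ) :
    (σ.a i = σ.a p ∧ σ.b i = σ.b p) ∨ (σ.a i = σ.a (p + 1) ∧ σ.b i = σ.b (p + 1)) ∨
      (σ.a i = σ.a (p + 2) ∧ σ.b i = σ.b (p + 2)) ∨ (σ.a i = σ.a (p + 3) ∧ σ.b i = σ.b (p + 3)) := by
  obtain ⟨j, n, h1, h2, h3⟩ := σ.window p i
  have ea : σ.a i = σ.a j := by rw [h3, σ.a_add]
  have eb : σ.b i = σ.b j := by rw [h3, σ.b_add]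
  rw [hk] at h2
  have h4 : j = p ∨ j = p + 1 ∨ j = p + 2 ∨ j = p + 3 := by omega
  rcases h4 with rfl | rfl | rfl | rfl
  · exact Or.inl ⟨ea, eb⟩
  · exact Or.inr (Or.inl ⟨ea, eb⟩)
  · exact Or.inr (Or.inr (Or.inl ⟨ea, eb⟩))
  · exact Or.inr (Or.inr (Or.inr ⟨ea, eb⟩))

/-- the four rows of the cycle are different, and so are the four columns -/
private lemma T2X5_ne (σ : St s x y) (hk : σ.k = 4) (p i j : ℤ) (h1 : p ≤ i) (h2 : i < j) (h3 : j < p + 4) :
    σ.a i ≠ σ.a j ∧ σ.b i ≠ σ.b j := by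
  constructor
  · intro e
    have := σ.ia i j (by omega) (by omega) e
    omega
  · intro e
    have := σ.ib i j (by omega) (by omega) e
    omega

/-- two sources, as seen from `σ` -/
private lemma T2X5_two (h : T2Ctx s x y) (hT : CondT s x y) (σ : St s x y) (hk : σ.k = 4) (p : ℤ)
    (hen : ∀ i, σ.T.Ex (σ.b i)) (l1 : ¬ σ.T.Lk (σ.b p) (σ.b (p + 2)))
    (l2 : ¬ σ.T.Lk (σ.b (p + 1)) (σ.b (p + 3))) :
    ∃ r0 r1 : A, r0 ∈ snk (tr s) y x ∧ r1 ∈ snk (tr s) y x ∧ s r0 (σ.b p) ≠ 0 ∧ s r0 (σ.b (p + 2)) ≠ 0 ∧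
      s r1 (σ.b (p + 1)) ≠ 0 ∧ s r1 (σ.b (p + 3)) ≠ 0 := by
  obtain ⟨r0, h0, g1, g2⟩ := σ.four h hT (l := p) (m := p + 2) (e1 := p + 1) (e2 := p + 3)
    (T2X5_ne σ hk p _ _ (by omega) (by omega) (by omega)).2 (hen _) (hen _)
    (fun e _ => by rcases T2X5_idx σ hk p e with h1 | h1 | h1 | h1 <;> rw [h1.2] <;> tauto) l2
  obtain ⟨r1, h1, g3, g4⟩ := σ.four h hT (l := p + 1) (m := p + 3) (e1 := p) (e2 := p + 2)
    (T2X5_ne σ hk p _ _ (by omega) (by omega) (by omega)).2 (hen _) (hen _)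
    (fun e _ => by rcases T2X5_idx σ hk p e with h1 | h1 | h1 | h1 <;> rw [h1.2] <;> tauto) l1
  exact ⟨r0, r1, h0, h1, g1, g2, g3, g4⟩

/-- Piece T2X5. The Heawood graph. Proof. `four` four times: for `σ` with `(l, m, e1, e2) = (p, p+2, p+1, p+3)` and `(p+1, p+3, p, p+2)`, and for `σ.T` (`T2Ctx.tr`, `CondT.tr`, `T_T`; `σ.T.b i = σ.a (-i)`) with the rows: sources `r0 ~ b p, b (p+2)`, `r1 ~ b (p+1), b (p+3)`, sinks
`c0 ~ a p, a (p+2)`, `c1 ~ a (p+1), a (p+3)`. (Every index is `p, p+1, p+2, p+3` modulo 4: `window`, `b_add`.) `TV_small` for `σ` and `σ.T`: `U = ∅`, `σ.T.U = ∅`. Let `D` be the set of rows `r` with `σ.O r`; the neighbours of `r ∈ D`: not `y`, not a sink (then `r ∈ U`),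
not `b i` (its three neighbours are `a (i-1), a i` and a source), so the partner `σ.N r'` of a row `r' ∈ D`. So `|NA s D| ≤ |D|` and `D = ∅` by the brace property (`D` misses `x` and `a 0`). So the rows are `x, r0, r1, a p, ..., a (p+3)`: `n = 7`. Common neighbours: `x, a i`: a sink; `x, r0`,
`x, r1`, `r0, r1`: `y`; `r0` and `a i`: `a i` is adjacent to `b i` and `b (i+1)`, one of them is `b p` or `b (p+2)`; the same for `r1`; `a i, a (i+1)`: `b (i+1)`; `a i, a (i+2)`: the sink. -/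
theorem St.heawood (h : T2Ctx s x y) (hT : CondT s x y) (σ : St s x y) (hk : σ.k = 4) (p : ℤ) (hex : ∀ i, σ.Ex (σ.a i))
    (hen : ∀ i, σ.T.Ex (σ.b i)) (l1 : ¬ σ.T.Lk (σ.b p) (σ.b (p + 2))) (l2 : ¬ σ.T.Lk (σ.b (p + 1)) (σ.b (p + 3)))
    (l3 : ¬ σ.Lk (σ.a p) (σ.a (p + 2))) (l4 : ¬ σ.Lk (σ.a (p + 1)) (σ.a (p + 3))) : Fano s := by
  classical
  obtain ⟨r0, r1, h0, h1, g1, g2, g3, g4⟩ := T2X5_two h hT σ hk p hen l1 l2
  have hTb : ∀ n, σ.T.b n = σ.a (-n) := fun n => rfl
  have hTT : ∀ (r : A), σ.T.T.Ex r ↔ σ.Ex r := by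
    intro r
    rw [σ.T_T]
    exact Iff.rfl
  have hTL : ∀ (r r' : A), σ.T.T.Lk r r' ↔ σ.Lk r r' := by
    intro r r'
    rw [σ.T_T]
    exact Iff.rfl
  obtain ⟨c1, c0, k1, k0, g5, g6, g7, g8⟩ := T2X5_two h.tr (CondT.tr h hT) σ.T hk (-(p + 3))
    (fun i => by rw [hTT, hTb]; exact hex _)
    (by
      rw [hTL, hTb, hTb, show -(-(p + 3)) = p + 3 by ring, show -(-(p + 3) + 2) = p + 1 by ring]
      exact fun hh => l4 hh.symm)
    (by
      rw [hTL, hTb, hTb, show -(-(p + 3) + 1) = p + 2 by ring, show -(-(p + 3) + 3) = p by ring]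
      exact fun hh => l3 hh.symm)
  have hV := σ.T.TV_small h.tr hk k1 k0 g5 g6 g7 g8
  rw [σ.T_T] at hV
  have hU : σ.U = ∅ := hV.2
  rw [hTb, tr_apply, show -(-(p + 3)) = p + 3 by ring] at g5
  rw [hTb, tr_apply, show -(-(p + 3) + 2) = p + 1 by ring] at g6
  rw [hTb, tr_apply, show -(-(p + 3) + 1) = p + 2 by ring] at g7
  rw [hTb, tr_apply, show -(-(p + 3) + 3) = p by ring] at g8
  rw [tr_tr] at k0 k1
  have hyr0 : s r0 y ≠ 0 := (mem_snk.1 h0).2
  have hyr1 : s r1 y ≠ 0 := (mem_snk.1 h1).2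
  have r0x : r0 ≠ x := (mem_snk.1 h0).1
  have r1x : r1 ≠ x := (mem_snk.1 h1).1
  have xc0 : s x c0 ≠ 0 := (mem_snk.1 k0).2
  have xc1 : s x c1 ≠ 0 := (mem_snk.1 k1).2
  have hby : ∀ i, σ.b i ≠ y := by
    intro i e
    have := σ.bx i
    rw [e] at this
    exact h.xy this
  have hsource : ∀ i, ∃ r', s r' y ≠ 0 ∧ s r' (σ.b i) ≠ 0 := by
    intro i
    rcases T2X5_idx σ hk p i with e | e | e | e <;> rw [e.2]
    · exact ⟨r0, hyr0, g1⟩
    · exact ⟨r1, hyr1, g3⟩
    · exact ⟨r0, hyr0, g2⟩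
    · exact ⟨r1, hyr1, g4⟩
  have hO : ∀ r, ¬ σ.O r := by
    obtain ⟨D, hD⟩ : ∃ D : Finset A, D = univ.filter fun r => σ.O r := ⟨_, rfl⟩
    have mD : ∀ r, r ∈ D ↔ σ.O r := by
      intro r
      rw [hD, mem_filter]
      simp only [mem_univ, true_and]
    have hNA : NA s D ⊆ D.image σ.N := by
      intro c hc
      obtain ⟨r, hr, hrc⟩ := mem_NA.1 hc
      have hOr := (mD r).1 hr
      have hsx : s x c = 0 := by
        by_contra hsx
        by_cases hcy : c = y
        · rw [hcy] at hrc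
          exact hrc hOr.1
        · have hs : c ∈ snk s x y := mem_snk.2 ⟨hcy, hsx⟩
          have := σ.mem_U_of_adj hOr (σ.mem_V.2 (Or.inr hs)) hrc
          rw [hU] at this
          exact absurd this (notMem_empty _)
      have hb : ∀ i, σ.b i ≠ c := by
        intro i hi
        rw [← hi] at hrc
        obtain ⟨r', e1, e2⟩ := hsource i
        rcases T2X5_col h σ i e1 e2 hrc with e | ⟨j, e⟩
        · rw [e] at hOr
          exact e1 hOr.1
        · exact hOr.2 j e
      have hTO : σ.T.O c := σ.TO_iff.2 ⟨hsx, hb⟩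
      obtain ⟨m1, -, m3⟩ := σ.M_O hTO
      exact mem_image.2 ⟨σ.M c, (mD _).2 m1, m3⟩
    intro r hr
    have hne : D.Nonempty := ⟨r, (mD r).2 hr⟩
    have ha0 : σ.a 0 ∉ D := fun hc => ((mD _).1 hc).2 0 rfl
    have hx : x ∉ insert (σ.a 0) D := by
      intro hc
      rw [mem_insert] at hc
      rcases hc with hc | hc
      · exact σ.a_ne_x h 0 hc.symm
      · exact h.xy ((mD _).1 hc).1
    have hcA := card_le_univ (insert x (insert (σ.a 0) D))
    rw [card_insert_of_notMem hx, card_insert_of_notMem ha0] at hcA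
    have hbr := h.hb.hall D hne (by omega)
    have h5 := card_le_card hNA
    have h6 := card_image_le (s := D) (f := σ.N)
    omega
  have n02 := T2X5_ne σ hk p p (p + 2) (by omega) (by omega) (by omega)
  have n01 := T2X5_ne σ hk p p (p + 1) (by omega) (by omega) (by omega)
  have n03 := T2X5_ne σ hk p p (p + 3) (by omega) (by omega) (by omega)
  have n12 := T2X5_ne σ hk p (p + 1) (p + 2) (by omega) (by omega) (by omega)
  have n13 := T2X5_ne σ hk p (p + 1) (p + 3) (by omega) (by omega) (by omega)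
  have n23 := T2X5_ne σ hk p (p + 2) (p + 3) (by omega) (by omega) (by omega)
  have r01 : r0 ≠ r1 := by
    intro e
    rw [← e] at g3
    exact T2X5_src h hyr0 g1 g2 g3 (hby _) (hby _) (hby _) n02.2 n01.2 n12.2.symm
  have hsrc : ∀ r, s r y ≠ 0 → r = x ∨ r = r0 ∨ r = r1 := by
    intro r hr
    by_cases hrx : r = x
    · exact Or.inl hrx
    · right
      have h5 : r ∈ snk (tr s) y x := mem_snk.2 ⟨hrx, hr⟩
      have h6 : ({r0, r1} : Finset A) = snk (tr s) y x := by
        apply eq_of_subset_of_card_le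
        · intro c hc
          rw [mem_insert, mem_singleton] at hc
          rcases hc with e | e <;> rw [e]
          · exact h0
          · exact h1
        · rw [card_snk h.tr, card_pair r01]
      rw [← h6, mem_insert, mem_singleton] at h5
      exact h5
  have hcl : ∀ r, r = x ∨ r = r0 ∨ r = r1 ∨ r = σ.a p ∨ r = σ.a (p + 1) ∨ r = σ.a (p + 2) ∨ r = σ.a (p + 3) := by
    intro r
    by_cases hr : s r y = 0
    · have hi : ∃ i, σ.a i = r := by
        by_contra hcon
        exact hO r ⟨hr, fun i hi => hcon ⟨i, hi⟩⟩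
      obtain ⟨i, hi⟩ := hi
      rcases T2X5_idx σ hk p i with e | e | e | e <;> rw [← hi, e.1] <;> simp
    · rcases hsrc r hr with e | e | e <;> rw [e] <;> simp
  have hra : ∀ {r : A} (i : ℤ), s r y ≠ 0 → r ≠ σ.a i := by
    intro r i hr e
    rw [e] at hr
    exact hr (σ.ay i)
  constructor
  · have hu : (univ : Finset A) = insert x (insert r0 (insert r1 (insert (σ.a p) (insert (σ.a (p + 1))
        (insert (σ.a (p + 2)) {σ.a (p + 3)}))))) := by
      ext r
      simp only [mem_univ, true_iff, mem_insert, mem_singleton]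
      exact hcl r
    have m1 : σ.a (p + 2) ∉ ({σ.a (p + 3)} : Finset A) := by
      rw [mem_singleton]
      exact n23.1
    have m2 : σ.a (p + 1) ∉ insert (σ.a (p + 2)) ({σ.a (p + 3)} : Finset A) := by
      rw [mem_insert, mem_singleton]
      rintro (e | e)
      · exact n12.1 e
      · exact n13.1 e
    have m3 : σ.a p ∉ insert (σ.a (p + 1)) (insert (σ.a (p + 2)) ({σ.a (p + 3)} : Finset A)) := by
      rw [mem_insert, mem_insert, mem_singleton]
      rintro (e | e | e)
      · exact n01.1 e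
      · exact n02.1 e
      · exact n03.1 e
    have m4 : r1 ∉ insert (σ.a p) (insert (σ.a (p + 1)) (insert (σ.a (p + 2)) ({σ.a (p + 3)} : Finset A))) := by
      rw [mem_insert, mem_insert, mem_insert, mem_singleton]
      rintro (e | e | e | e)
      · exact hra _ hyr1 e
      · exact hra _ hyr1 e
      · exact hra _ hyr1 e
      · exact hra _ hyr1 e
    have m5 : r0 ∉ insert r1 (insert (σ.a p) (insert (σ.a (p + 1)) (insert (σ.a (p + 2))
        ({σ.a (p + 3)} : Finset A)))) := by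
      rw [mem_insert, mem_insert, mem_insert, mem_insert, mem_singleton]
      rintro (e | e | e | e | e)
      · exact r01 e
      · exact hra _ hyr0 e
      · exact hra _ hyr0 e
      · exact hra _ hyr0 e
      · exact hra _ hyr0 e
    have m6 : x ∉ insert r0 (insert r1 (insert (σ.a p) (insert (σ.a (p + 1)) (insert (σ.a (p + 2))
        ({σ.a (p + 3)} : Finset A))))) := by
      rw [mem_insert, mem_insert, mem_insert, mem_insert, mem_insert, mem_singleton]
      rintro (e | e | e | e | e | e)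
      · exact r0x e.symm
      · exact r1x e.symm
      · exact hra _ h.xy e
      · exact hra _ h.xy e
      · exact hra _ h.xy e
      · exact hra _ h.xy e
    rw [← Finset.card_univ, hu, card_insert_of_notMem m6, card_insert_of_notMem m5, card_insert_of_notMem m4,
      card_insert_of_notMem m3, card_insert_of_notMem m2, card_insert_of_notMem m1, card_singleton]
  · have q1 : s x y ≠ 0 := h.xy
    have q2 := σ.s_ab p
    have q3 := σ.s_ab' p
    have q4 := σ.s_ab (p + 1)
    have q5 := σ.s_ab' (p + 1)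
    have q6 := σ.s_ab (p + 2)
    have q7 := σ.s_ab' (p + 2)
    have q8 := σ.s_ab (p + 3)
    have q9 := σ.s_ab' (p + 3)
    rw [show p + 1 + 1 = p + 2 by ring] at q5
    rw [show p + 2 + 1 = p + 3 by ring] at q7
    rw [show p + 3 + 1 = p + σ.k by rw [hk]; ring, σ.pb] at q9
    intro a a'
    rcases hcl a with e | e | e | e | e | e | e <;> rcases hcl a' with e' | e' | e' | e' | e' | e' | e' <;>
      rw [e, e'] <;>
      first
        | exact ⟨y, by assumption, by assumption⟩
        | exact ⟨c0, by assumption, by assumption⟩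
        | exact ⟨c1, by assumption, by assumption⟩
        | exact ⟨σ.b p, by assumption, by assumption⟩
        | exact ⟨σ.b (p + 1), by assumption, by assumption⟩
        | exact ⟨σ.b (p + 2), by assumption, by assumption⟩
        | exact ⟨σ.b (p + 3), by assumption, by assumption⟩

/-- The crossing case. Proof. `Crs.len` for `hC` and its three rotations: `p2 = p1 + 1`, `p3 = p1 + 2`, `p4 = p1 + 3`, `k = 4`; all `b i` are entries. `l1`: `del13` and `del_ne_all`; `l2`: the same for `hC.rot`; `l3, l4`: `nlk` for `hC`, `hC.rot`. `heawood`. -/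
theorem St.Crs.fano (h : T2Ctx s x y) (hT : CondT s x y) {σ : St s x y} {φ lam : A → ℝ} {p1 p2 p3 p4 : ℤ}
    (hC : σ.Crs φ lam p1 p2 p3 p4) : Fano s := by
  have e1 := hC.len h
  have e2 := hC.rot.len h
  have e3 := hC.rot.rot.len h
  have e4 := hC.rot.rot.rot.len h
  have hk : σ.k = 4 := by omega
  have f2 : p2 = p1 + 1 := by omega
  have f3 : p3 = p1 + 2 := by omega
  have f4 : p4 = p1 + 3 := by omega
  have t1 := hC.n1
  have t2 := hC.n2
  have t3 := hC.n3
  have t4 := hC.n4
  have d1 := hC.del13 h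
  have d2 := hC.rot.del13 h
  have l3 := hC.nlk h (j := p1) (m := p3) le_rfl (by omega) le_rfl (by omega)
  have l4 := hC.rot.nlk h (j := p2) (m := p4) le_rfl (by omega) le_rfl (by omega)
  rw [f2] at t2
  rw [f3] at t3
  rw [f4] at t4
  rw [f3] at d1
  rw [f2, f4] at d2
  rw [f3] at l3
  rw [f2, f4] at l4
  have hen : ∀ i, σ.T.Ex (σ.b i) := by
    intro i
    rcases T2X5_idx σ hk p1 i with e | e | e | e <;> rw [e.2] <;> assumption
  refine σ.heawood h hT hk p1 hC.all hen ?_ ?_ l3 l4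
  · intro hL
    exact σ.del_ne_all h hC.all hC.sv (T2X5_ne σ hk p1 _ _ (by omega) (by omega) (by omega)).2 (hen _) (hen _) hL d1
  · intro hL
    exact σ.del_ne_all h hC.all hC.sv (T2X5_ne σ hk p1 _ _ (by omega) (by omega) (by omega)).2 (hen _) (hen _) hL d2

end MCC
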