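import Pool.Agent.Lib_MP_cb5629.T2Start
import Pool.Agent.Lib_MP_cb5629.T2Gap
import Pool.Agent.Lib_MP_cb5629.T2Sep
import Pool.Agent.Lib_MP_cb5629.T2X5
import Pool.Agent.Lib_MP_cb5629.T2P4b
import Pool.Agent.Lib_MP_cb5629.T2P7

set_option linter.unusedSectionVars false

namespace MCC

open Finset Relation

variable {A B : Type} [Fintype A] [Fintype B] [DecidableEq A] [DecidableEq B]
variable {s : A → B → ℤ} {x : A} {y : B}

/-- An ear that starts on the left gives a larger deficient set. -/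
theorem St.Big.stepL (h : T2Ctx s x y) {σ : St s x y} {φ lam : A → ℝ} {p1 p2 p3 p4 jf jg : ℤ}
    {T : Finset B} (hB : σ.Big φ lam p1 p2 p3 p4 jf jg T) {e e' n m : ℤ} {r' : A} (h0 : p2 ≤ m) (h1 : m < e)
    (h2 : e < n) (h3 : n ≤ e') (h4 : e' < p3) (he : σ.a e ∈ NB s T) (he' : σ.a e' ∈ NB s T)
    (hw : ReflTransGen (σ.stepA T) (σ.a m) r') (hr' : s r' (σ.b n) ≠ 0) :
    ∃ (σ' : St s x y) (q1 q2 q3 q4 kf kg : ℤ) (T' : Finset B), σ'.Big φ lam q1 q2 q3 q4 kf kg T' ∧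
      T.card < T'.card := by
  obtain ⟨σ', R, hE, r1, r2, r3⟩ := hB.lear h h0 h1 h2 h3 h4 he he' hw hr'
  have hL : σ.LE σ' φ lam p1 p2 p3 p4 jf jg m e n e' T R := ⟨hB, h0, h1, h2, h3, h4, he, he', hE, r1, r2, r3⟩
  obtain ⟨T', hB', hlt⟩ := hL.grow h
  exact ⟨σ', _, _, _, _, _, _, T', hB', hlt⟩

/-- An ear within the second interval, to the left or to the right of the rows adjacent to `T`. -/
theorem St.Big.step2 (h : T2Ctx s x y) {σ : St s x y} {φ lam : A → ℝ} {p1 p2 p3 p4 jf jg : ℤ}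
    {T : Finset B} (hB : σ.Big φ lam p1 p2 p3 p4 jf jg T) {e e' n m : ℤ} {r' : A} (h0 : p2 ≤ e)
    (h2 : e < n) (h3 : n ≤ e') (h4 : e' < p3) (he : σ.a e ∈ NB s T) (he' : σ.a e' ∈ NB s T) (hm1 : p2 ≤ m) (hm2 : m < p3)
    (hm : m < e ∨ e' < m)
    (hw : ReflTransGen (σ.stepA T) (σ.a m) r') (hr' : s r' (σ.b n) ≠ 0) :
    ∃ (σ' : St s x y) (q1 q2 q3 q4 kf kg : ℤ) (T' : Finset B), σ'.Big φ lam q1 q2 q3 q4 kf kg T' ∧
      T.card < T'.card := by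
  rcases hm with hm | hm
  · exact hB.stepL h hm1 hm h2 h3 h4 he he' hw hr'
  · have hM := hB.mir h
    refine hM.stepL h (e := -e') (e' := -e) (n := 1 - n) (m := -m) (r' := r') (by omega) (by omega) (by omega)
      (by omega) (by omega) ?_ ?_ ?_ ?_
    · change σ.a (-(-e')) ∈ NB s T
      rwa [neg_neg]
    · change σ.a (-(-e)) ∈ NB s T
      rwa [neg_neg]
    · rw [σ.mir_stepA]
      change ReflTransGen (σ.stepA T) (σ.a (-(-m))) r'
      rwa [neg_neg]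
    · change s r' (σ.b (1 - (1 - n))) ≠ 0
      rwa [show (1 : ℤ) - (1 - n) = n by ring]

/-- From `count`, by mirror image and rotation, an ear that starts on the left. -/
theorem St.Big.step (h : T2Ctx s x y) (hT : CondT s x y) {σ : St s x y} {φ lam : A → ℝ} {p1 p2 p3 p4 jf jg : ℤ}
    {T : Finset B} (hB : σ.Big φ lam p1 p2 p3 p4 jf jg T) :
    ∃ (σ' : St s x y) (q1 q2 q3 q4 kf kg : ℤ) (T' : Finset B), σ'.Big φ lam q1 q2 q3 q4 kf kg T' ∧
      T.card < T'.card := by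
  rcases hB.count h hT with ⟨e, e', n, m, r', g1, g2, g3, g4, g5, g6, g7, g8, g9, g10, g11⟩ |
    ⟨e, e', n, m, r', g1, g2, g3, g4, g5, g6, g7, g8, g9, g10, g11⟩
  · exact hB.step2 h g1 g2 g3 g4 g5 g6 g7 g8 g9 g10 g11
  · exact hB.rot.step2 h g1 g2 g3 g4 g5 g6 g7 g8 g9 g10 g11

theorem St.Big.false (h : T2Ctx s x y) (hT : CondT s x y) : ∀ (N : ℕ) {σ : St s x y} {φ lam : A → ℝ}
    {p1 p2 p3 p4 jf jg : ℤ} {T : Finset B}, Fintype.card B - T.card ≤ N → ¬ σ.Big φ lam p1 p2 p3 p4 jf jg T := by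
  intro N
  induction N with
  | zero =>
    intro σ φ lam p1 p2 p3 p4 jf jg T hN hB
    obtain ⟨σ', q1, q2, q3, q4, kf, kg, T', hB', hlt⟩ := hB.step h hT
    have := Finset.card_le_univ T'
    omega
  | succ N ih =>
    intro σ φ lam p1 p2 p3 p4 jf jg T hN hB
    obtain ⟨σ', q1, q2, q3, q4, kf, kg, T', hB', hlt⟩ := hB.step h hT
    have := Finset.card_le_univ T'
    exact ih (by omega) hB'

theorem St.Par.false (h : T2Ctx s x y) (hT : CondT s x y) {σ : St s x y} {φ lam : A → ℝ} {p1 p2 p3 p4 : ℤ}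
    (hP : σ.Par φ lam p1 p2 p3 p4) : False := by
  obtain ⟨jf, f1, f2, xf⟩ := hP.x1
  obtain ⟨jg, g1, g2, xg⟩ := hP.x3
  obtain ⟨T, hB⟩ := hP.big h f1 f2 g1 g2 xf xg
  exact St.Big.false h hT _ le_rfl hB

/-- THEOREM II in terms of `T2Ctx`. -/
theorem t2main (h : T2Ctx s x y) (h2 : TypeII s x y) (hT : CondT s x y) : Fano s := by
  obtain ⟨σ0⟩ := start h.hc h2
  obtain ⟨σ, hall⟩ := σ0.all_exits h
  obtain ⟨i, hi⟩ := σ.exists_entry h hT
  obtain ⟨φ, lam, hφ⟩ : ∃ φ lam : A → ℝ, σ.T.SV φ lam := by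
    refine σ.T.exists_SV h.tr (i := 0) (j := -i) ?_ ?_
    · rw [σ.T_T]
      exact hall _
    · change σ.T.Ex (σ.b (-(-i)))
      rwa [neg_neg]
  obtain ⟨l1, l2, g1, g2, n1, n2, n3, n4, hl, hg, d1, d2, d3, d4⟩ := σ.sep h hT hall hφ
  obtain ⟨p1, p2, p3, p4, hC | hP⟩ := σ.cyc hall hφ n1 n2 n3 n4 hl hg d1 d2 d3 d4
  · exact hC.fano h hT
  · exact (hP.false h hT).elim

end MCC
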