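import Pool.Agent.Lib_MP_cb5629.T2Sym
import Pool.Agent.Lib_MP_cb5629.T2Mir

set_option linter.unusedSectionVars false

namespace MCC

open Finset Relation

variable {A B : Type} [Fintype A] [Fintype B] [DecidableEq A] [DecidableEq B]
variable {s : A → B → ℤ} {x : A} {y : B}

/-- Piece T2P1. Parallel entries: the exits of the first and the third interval have the same position `c`, those of the second interval are weakly on one side, those of the fourth on the other. Proof. The four numbers `s x y * (del pi - del pj)`, `i ∈ {1,2}`, `j ∈ {3,4}`, have the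
same sign, let `ε` be this sign. `pr` (`b (p + k) = b p`, `a (j + k) = a j`), `g` = position: `p1, p3`: `ε (g(I1 ∪ I2) - g(I3 ∪ I4)) ≥ 0`; `p1, p4`: `ε (g(I1 ∪ I2 ∪ I3) - g(I4)) ≥ 0`; `p2, p3`: `ε (g(I2) - g(I3 ∪ I4 ∪ I1)) ≥ 0`; `p2, p4`: `ε (g(I2 ∪ I3) - g(I4 ∪ I1)) ≥ 0`.
`g(I1)` and `g(I3)`: first and fourth. -/
theorem St.Par.gm (h : T2Ctx s x y) {σ : St s x y} {φ lam : A → ℝ} {p1 p2 p3 p4 : ℤ}
    (hP : σ.Par φ lam p1 p2 p3 p4) {ψ ω : B → ℝ} (hψ : σ.SV ψ ω) :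
    ∃ c ε : ℝ, (ε = 1 ∨ ε = -1) ∧
      (∀ j, p1 ≤ j → j < p2 → σ.Ex (σ.a j) → gam s ψ ω (σ.a j) = c) ∧
      (∀ j, p3 ≤ j → j < p4 → σ.Ex (σ.a j) → gam s ψ ω (σ.a j) = c) ∧
      (∀ j, p2 ≤ j → j < p3 → σ.Ex (σ.a j) → 0 ≤ ε * (gam s ψ ω (σ.a j) - c)) ∧
      ∀ j, p4 ≤ j → j < p1 + σ.k → σ.Ex (σ.a j) → ε * (gam s ψ ω (σ.a j) - c) ≤ 0 := by
  have o1 := hP.o1
  have o2 := hP.o2
  have o3 := hP.o3
  have o4 := hP.o4
  have hxy : (s x y : ℝ) ≠ 0 := by exact_mod_cast h.xy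
  -- the common sign
  obtain ⟨ε, hε, s13, s14, s23, s24⟩ : ∃ ε : ℝ, (ε = 1 ∨ ε = -1) ∧
      0 < ε * ((s x y : ℝ) * (σ.del φ lam p1 - σ.del φ lam p3)) ∧
      0 < ε * ((s x y : ℝ) * (σ.del φ lam p1 - σ.del φ lam p4)) ∧
      0 < ε * ((s x y : ℝ) * (σ.del φ lam p2 - σ.del φ lam p3)) ∧
      0 < ε * ((s x y : ℝ) * (σ.del φ lam p2 - σ.del φ lam p4)) := by
    rcases lt_or_gt_of_ne hxy with hneg | hpos
    · rcases hP.sep with ⟨a1, a2, a3, a4⟩ | ⟨a1, a2, a3, a4⟩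
      · refine ⟨1, Or.inl rfl, ?_, ?_, ?_, ?_⟩ <;> rw [one_mul] <;>
          exact mul_pos_of_neg_of_neg hneg (by linarith)
      · refine ⟨-1, Or.inr rfl, ?_, ?_, ?_, ?_⟩ <;> rw [neg_one_mul, ← neg_mul] <;>
          exact mul_pos (by linarith) (by linarith)
    · rcases hP.sep with ⟨a1, a2, a3, a4⟩ | ⟨a1, a2, a3, a4⟩
      · refine ⟨-1, Or.inr rfl, ?_, ?_, ?_, ?_⟩ <;> rw [neg_one_mul, ← neg_mul] <;>
          exact mul_pos_of_neg_of_neg (by linarith) (by linarith)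
      · refine ⟨1, Or.inl rfl, ?_, ?_, ?_, ?_⟩ <;> rw [one_mul] <;>
          exact mul_pos hpos (by linarith)
  have key : ∀ D d : ℝ, 0 < ε * D → 0 ≤ D * d → 0 ≤ ε * d := by
    intro D d h1 h2
    rcases hε with he | he
    · rw [he, one_mul] at h1 ⊢
      exact nonneg_of_mul_nonneg_right h2 h1
    · rw [he, neg_one_mul] at h1 ⊢
      have h3 : D < 0 := by linarith
      have h4 : 0 ≤ (-D) * (-d) := by rw [neg_mul_neg]; exact h2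
      exact nonneg_of_mul_nonneg_right h4 (by linarith)
  have e13 : ∀ j m, p1 ≤ j → j < p3 → p3 ≤ m → m < p1 + σ.k → σ.Ex (σ.a j) → σ.Ex (σ.a m) →
      0 ≤ ε * (gam s ψ ω (σ.a j) - gam s ψ ω (σ.a m)) := fun j m a1 a2 a3 a4 a5 a6 =>
    key _ _ s13 (σ.pr h hψ hP.sv a1 a2 a3 a4 hP.n1 hP.n3 a5 a6)
  have e14 : ∀ j m, p1 ≤ j → j < p4 → p4 ≤ m → m < p1 + σ.k → σ.Ex (σ.a j) → σ.Ex (σ.a m) →
      0 ≤ ε * (gam s ψ ω (σ.a j) - gam s ψ ω (σ.a m)) := fun j m a1 a2 a3 a4 a5 a6 =>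
    key _ _ s14 (σ.pr h hψ hP.sv a1 a2 a3 a4 hP.n1 hP.n4 a5 a6)
  have e23 : ∀ j m, p2 ≤ j → j < p3 → p3 ≤ m → m < p2 + σ.k → σ.Ex (σ.a j) → σ.Ex (σ.a m) →
      0 ≤ ε * (gam s ψ ω (σ.a j) - gam s ψ ω (σ.a m)) := fun j m a1 a2 a3 a4 a5 a6 =>
    key _ _ s23 (σ.pr h hψ hP.sv a1 a2 a3 a4 hP.n2 hP.n3 a5 a6)
  have e24 : ∀ j m, p2 ≤ j → j < p4 → p4 ≤ m → m < p2 + σ.k → σ.Ex (σ.a j) → σ.Ex (σ.a m) →
      0 ≤ ε * (gam s ψ ω (σ.a j) - gam s ψ ω (σ.a m)) := fun j m a1 a2 a3 a4 a5 a6 =>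
    key _ _ s24 (σ.pr h hψ hP.sv a1 a2 a3 a4 hP.n2 hP.n4 a5 a6)
  have e31 : ∀ j m, p1 ≤ j → j < p2 → p3 ≤ m → m < p4 → σ.Ex (σ.a j) → σ.Ex (σ.a m) →
      gam s ψ ω (σ.a j) = gam s ψ ω (σ.a m) := by
    intro j m a1 a2 a3 a4 a5 a6
    have h1 := e13 j m a1 (by omega) a3 (by omega) a5 a6
    have h2 := e24 m (j + σ.k) (by omega) a4 (by omega) (by omega) a6 (by rw [σ.pa]; exact a5)
    rw [σ.pa] at h2
    rcases hε with he | he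
    · rw [he, one_mul] at h1 h2
      linarith
    · rw [he, neg_one_mul] at h1 h2
      linarith
  obtain ⟨j1, b1, b2, b3⟩ := hP.x1
  obtain ⟨j3, c1, c2, c3⟩ := hP.x3
  refine ⟨gam s ψ ω (σ.a j1), ε, hε, ?_, ?_, ?_, ?_⟩
  · intro j a1 a2 a3
    rw [e31 j j3 a1 a2 c1 c2 a3 c3, e31 j1 j3 b1 b2 c1 c2 b3 c3]
  · intro j a1 a2 a3
    exact (e31 j1 j b1 b2 a1 a2 b3 a3).symm
  · intro j a1 a2 a3
    have h1 := e23 j j3 a1 a2 c1 (by omega) a3 c3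
    rwa [← e31 j1 j3 b1 b2 c1 c2 b3 c3] at h1
  · intro j a1 a2 a3
    have h1 := e14 j1 j b1 (by omega) a1 a2 b3 a3
    have h2 : ε * (gam s ψ ω (σ.a j) - gam s ψ ω (σ.a j1)) = -(ε * (gam s ψ ω (σ.a j1) - gam s ψ ω (σ.a j))) := by ring
    rw [h2]
    linarith

/-- Exits in the first and third interval are not linkable: `exists_SV`, `gm`; `b p1, b p3` are linkable (`cvT`), `p1 ≤ j < p3 ≤ m < p1 + k`: `lkT`. -/
theorem St.Par.nlk (h : T2Ctx s x y) {σ : St s x y} {φ lam : A → ℝ} {p1 p2 p3 p4 : ℤ}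
    (hP : σ.Par φ lam p1 p2 p3 p4) {j m : ℤ} (h1 : p1 ≤ j) (h2 : j < p2) (h3 : p3 ≤ m) (h4 : m < p4)
    (hj : σ.Ex (σ.a j)) (hm : σ.Ex (σ.a m)) : ¬ σ.Lk (σ.a j) (σ.a m) := by
  intro hL
  have o1 := hP.o1
  have o2 := hP.o2
  have o3 := hP.o3
  have o4 := hP.o4
  obtain ⟨ψ, ω, hψ⟩ := σ.exists_SV h hP.n1 hj
  obtain ⟨c, ε, -, g1, g3, -, -⟩ := hP.gm h hψ
  have hne : σ.del φ lam p1 ≠ σ.del φ lam p3 := by
    rcases hP.sep with ⟨a1, -, -, -⟩ | ⟨a1, -, -, -⟩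
    · exact ne_of_lt a1
    · exact ne_of_gt a1
  have hZ := σ.cvT h hP.sv hj hP.n1 hP.n3 hne
  refine σ.lkT h hψ h1 (by omega) h3 (by omega) hP.n1 hP.n3 hj hm hL hZ ?_
  rw [g1 j h1 h2 hj, g3 m h3 h4 hm]

/-- There are exits and deficient set (`exists_Df`; `a jf ≠ a jg` by `ia`). -/
theorem St.Par.big (h : T2Ctx s x y) {σ : St s x y} {φ lam : A → ℝ} {p1 p2 p3 p4 jf jg : ℤ}
    (hP : σ.Par φ lam p1 p2 p3 p4) (f1 : p1 ≤ jf) (f2 : jf < p2) (g1 : p3 ≤ jg) (g2 : jg < p4) (xf : σ.Ex (σ.a jf))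
    (xg : σ.Ex (σ.a jg)) : ∃ T, σ.Big φ lam p1 p2 p3 p4 jf jg T := by
  have o1 := hP.o1
  have o2 := hP.o2
  have o3 := hP.o3
  have o4 := hP.o4
  have hne : σ.a jf ≠ σ.a jg := by
    intro he
    have := σ.ia jf jg (by omega) (by omega) he
    omega
  obtain ⟨T, hT⟩ := σ.exists_Df h hne xf xg (σ.a_not_U jf) (σ.a_not_U jg) (hP.nlk h f1 f2 g1 g2 xf xg)
  exact ⟨T, { toPar := hP, f1 := f1, f2 := f2, g1 := g1, g2 := g2, xf := xf, xg := xg, df := hT }⟩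

/-- A cycle row adjacent to `T` is an exit (`T ⊆ V`, `Ex_iff`). -/
lemma St.Big.ex {σ : St s x y} {φ lam : A → ℝ} {p1 p2 p3 p4 jf jg : ℤ} {T : Finset B}
    (hB : σ.Big φ lam p1 p2 p3 p4 jf jg T) {r : A} (hr : r ∈ NB s T) : σ.Ex r := by
  obtain ⟨c, hc, hrc⟩ := mem_NB.1 hr
  exact σ.Ex_iff.2 ⟨c, hB.df.sub hc, hrc⟩

/-- Cycle rows adjacent to `T` are not in the first and third interval: `Df.not_adj` (and `Df.symm`) with `nlk`. -/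
theorem St.Big.loc (h : T2Ctx s x y) {σ : St s x y} {φ lam : A → ℝ} {p1 p2 p3 p4 jf jg : ℤ} {T : Finset B}
    (hB : σ.Big φ lam p1 p2 p3 p4 jf jg T) {e : ℤ} (h1 : p1 ≤ e) (h2 : e < p1 + σ.k) (he : σ.a e ∈ NB s T) :
    (p2 ≤ e ∧ e < p3) ∨ (p4 ≤ e ∧ e < p1 + σ.k) := by
  have o1 := hB.o1
  have o2 := hB.o2
  have o3 := hB.o3
  have o4 := hB.o4
  have f1 := hB.f1
  have f2 := hB.f2
  have g1 := hB.g1
  have g2 := hB.g2
  have hex : σ.Ex (σ.a e) := hB.ex he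
  rcases lt_or_ge e p2 with c1 | c1
  · exfalso
    have hne : σ.a e ≠ σ.a jg := by
      intro hh
      have := σ.ia e jg (by omega) (by omega) hh
      omega
    exact hB.df.not_adj h hB.xg (σ.a_not_U jg) hex (σ.a_not_U e) hne (hB.toPar.nlk h h1 c1 g1 g2 hex hB.xg) he
  rcases lt_or_ge e p3 with c2 | c2
  · exact Or.inl ⟨c1, c2⟩
  rcases lt_or_ge e p4 with c3 | c3
  · exfalso
    have hne : σ.a e ≠ σ.a jf := by
      intro hh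
      have := σ.ia jf e (by omega) (by omega) hh.symm
      omega
    exact hB.df.symm.not_adj h hB.xf (σ.a_not_U jf) hex (σ.a_not_U e) hne
      (fun hL => hB.toPar.nlk h f1 f2 c2 c3 hB.xf hex hL.symm) he
  · exact Or.inr ⟨c3, h2⟩

/-- At least two cycle rows are adjacent to `T`: `brace_V`, `NB_V`, `Df.card` (`|NB s T| ≥ |T| + 2`, `NB s T ⊆ insert x ((NB s T ∩ U) ∪ (NB s T ∩ XR))`). -/
theorem St.Big.two (h : T2Ctx s x y) {σ : St s x y} {φ lam : A → ℝ} {p1 p2 p3 p4 jf jg : ℤ} {T : Finset B}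
    (hB : σ.Big φ lam p1 p2 p3 p4 jf jg T) : 2 ≤ (NB s T ∩ σ.XR).card := by
  have h1 := hB.df.card
  have hne : T.Nonempty := by
    rw [← card_pos]
    omega
  have h2 := σ.brace_V h hB.df.sub hne
  have h3 : NB s T ⊆ insert x ((NB s T ∩ σ.U) ∪ (NB s T ∩ σ.XR)) := by
    intro r hr
    rw [mem_insert, mem_union, mem_inter, mem_inter]
    rcases σ.NB_V h hB.df.sub hr with g | g | g
    · exact Or.inl g
    · exact Or.inr (Or.inl ⟨hr, g⟩)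
    · exact Or.inr (Or.inr ⟨hr, g⟩)
  have h4 := card_le_card h3
  have h5 := card_insert_le x ((NB s T ∩ σ.U) ∪ (NB s T ∩ σ.XR))
  have h6 := card_union_le (NB s T ∩ σ.U) (NB s T ∩ σ.XR)
  omega

end MCC
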