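import Pool.Agent.Lib_MP_cb5629.T2P1

set_option linter.unusedSectionVars false

namespace MCC

open Finset Relation

variable {A B : Type} [Fintype A] [Fintype B] [DecidableEq A] [DecidableEq B]
variable {s : A → B → ℤ} {x : A} {y : B}

/-- a number that is weakly of both signs vanishes -/
private lemma T2P2_zero {D u v : ℝ} (huv : 0 < u * v) (h1 : 0 ≤ D * u) (h2 : 0 ≤ D * -v) : D = 0 := by
  rcases pos_and_pos_or_neg_and_neg_of_mul_pos huv with ⟨hu, hv⟩ | ⟨hu, hv⟩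
  · have g1 : 0 ≤ D := by
      by_contra hc
      push Not at hc
      have := mul_neg_of_neg_of_pos hc hu
      linarith
    have g2 : D ≤ 0 := by
      by_contra hc
      push Not at hc
      have := mul_neg_of_pos_of_neg hc (neg_neg_of_pos hv)
      linarith
    linarith
  · have g1 : D ≤ 0 := by
      by_contra hc
      push Not at hc
      have := mul_neg_of_pos_of_neg hc hu
      linarith
    have g2 : 0 ≤ D := by
      by_contra hc
      push Not at hc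
      have := mul_neg_of_neg_of_pos hc (neg_pos_of_neg hv)
      linarith
    linarith

private lemma T2P2_gamk (σ : St s x y) (ψ ω : B → ℝ) (j : ℤ) :
    gam s ψ ω (σ.a (j + σ.k)) = gam s ψ ω (σ.a j) := by
  rw [σ.pa]

private lemma T2P2_eps {ε t : ℝ} (hε : ε = 1 ∨ ε = -1) (ht : t ≠ 0) : ε * t ≠ 0 := by
  rcases hε with h | h
  · rw [h, one_mul]; exact ht
  · rw [h]
    intro hc
    apply ht
    linarith

private lemma T2P2_del14 {σ : St s x y} {φ lam : A → ℝ} {p1 p2 p3 p4 : ℤ}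
    (hP : σ.Par φ lam p1 p2 p3 p4) : σ.del φ lam p1 ≠ σ.del φ lam p4 ∧ σ.del φ lam p2 ≠ σ.del φ lam p3 := by
  rcases hP.sep with ⟨-, a2, a3, -⟩ | ⟨-, a2, a3, -⟩
  · exact ⟨a2.ne, a3.ne⟩
  · exact ⟨a3.ne', a2.ne'⟩

/-- Piece T2P2. Positions of the cycle rows adjacent to `T`: strictly on one side in the second interval, strictly on the other side in the fourth. Proof. `gm` gives `c, ε` and the weak inequalities. `e ∈ [p2, p3)` with `a e ∈ NB s T`: `σ.Lk (a e) (a jg)` (otherwise `Df.not_adj`), the entries `b p2, b p3`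
are linkable (`cvT`), `p2 ≤ e < p3 ≤ jg < p2 + k`: `lkT` gives `g(a e) ≠ g(a jg) = c`. `e ∈ [p4, p1 + k)`: `σ.Lk (a e) (a jf)` (`Df.symm`), the entries `b p4, b (p1 + k)`, `p4 ≤ e < p1 + k ≤ jf + k < p4 + k`: `lkT`. -/
theorem St.Big.gm (h : T2Ctx s x y) {σ : St s x y} {φ lam : A → ℝ} {p1 p2 p3 p4 jf jg : ℤ} {T : Finset B}
    (hB : σ.Big φ lam p1 p2 p3 p4 jf jg T) {ψ ω : B → ℝ} (hψ : σ.SV ψ ω) :
    ∃ c ε : ℝ, (ε = 1 ∨ ε = -1) ∧
      (∀ j, p1 ≤ j → j < p2 → σ.Ex (σ.a j) → gam s ψ ω (σ.a j) = c) ∧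
      (∀ j, p3 ≤ j → j < p4 → σ.Ex (σ.a j) → gam s ψ ω (σ.a j) = c) ∧
      (∀ j, p2 ≤ j → j < p3 → σ.a j ∈ NB s T → 0 < ε * (gam s ψ ω (σ.a j) - c)) ∧
      ∀ j, p4 ≤ j → j < p1 + σ.k → σ.a j ∈ NB s T → ε * (gam s ψ ω (σ.a j) - c) < 0 := by
  have o1 := hB.o1
  have o2 := hB.o2
  have o3 := hB.o3
  have o4 := hB.o4
  have f1 := hB.f1
  have f2 := hB.f2
  have g1 := hB.g1
  have g2 := hB.g2
  obtain ⟨c, ε, hε, w1, w3, w2, w4⟩ := hB.toPar.gm h hψ
  obtain ⟨d14, d23⟩ := T2P2_del14 hB.toPar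
  refine ⟨c, ε, hε, w1, w3, ?_, ?_⟩
  · intro e he1 he2 heT
    have hex := hB.ex heT
    have hne : σ.a e ≠ σ.a jg := by
      intro hc
      have := σ.ia e jg (by omega) (by omega) hc
      omega
    have hL : σ.Lk (σ.a e) (σ.a jg) := by
      by_contra hL
      exact hB.df.not_adj h hB.xg (σ.a_not_U jg) hex (σ.a_not_U e) hne hL heT
    have hZ : σ.T.Lk (σ.b p2) (σ.b p3) := σ.cvT h hB.sv hB.xf hB.n2 hB.n3 d23
    have h1 := σ.lkT h hψ (i := p2) (j := e) (l := p3) (m := jg) he1 he2 g1 (by omega) hB.n2 hB.n3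
      hex hB.xg hL hZ
    rw [w3 jg g1 g2 hB.xg] at h1
    exact lt_of_le_of_ne (w2 e he1 he2 hex) (Ne.symm (T2P2_eps hε (sub_ne_zero.2 h1)))
  · intro e he1 he2 heT
    have hex := hB.ex heT
    have hne : σ.a e ≠ σ.a jf := by
      intro hc
      have := σ.ia jf e (by omega) (by omega) hc.symm
      omega
    have hL : σ.Lk (σ.a e) (σ.a jf) := by
      by_contra hL
      exact hB.df.symm.not_adj h hB.xf (σ.a_not_U jf) hex (σ.a_not_U e) hne hL heT
    have hZ : σ.T.Lk (σ.b p4) (σ.b p1) := σ.cvT h hB.sv hB.xf hB.n4 hB.n1 d14.symm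
    have h1 := σ.lkT h hψ (i := p4) (j := e) (l := p1 + σ.k) (m := jf + σ.k) he1 he2 (by omega) (by omega)
      hB.n4 (by rw [σ.pb]; exact hB.n1) hex (by rw [σ.pa]; exact hB.xf) (by rw [σ.pa]; exact hL)
      (by rw [σ.pb]; exact hZ)
    rw [T2P2_gamk, w1 jf f1 f2 hB.xf] at h1
    exact lt_of_le_of_ne (w4 e he1 he2 hex) (T2P2_eps hε (sub_ne_zero.2 h1))

/-- No entry between two cycle rows of the second interval that are adjacent to `T`. Proof. `exists_SV`, `gm`. Suppose `b n` is an entry. `pr` for `p1, n` with `(j, m) = (jf, e')` and `(e, jg)`: `s x y (del p1 - del n) (c - g e') ≥ 0` and `s x y (del p1 - del n) (g e - c) ≥ 0`; `c - g e'` and `g e - c`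
have strictly opposite signs, so `del n = del p1`. `pr` for `n, p4` with `(j, m) = (jg, e + k)` and `(e', jf + k)`: `s x y (del n - del p4) (c - g e) ≥ 0` and `s x y (del n - del p4) (g e' - c) ≥ 0`; so `del n = del p4`. But `del p1 ≠ del p4`. -/
theorem St.Big.noen (h : T2Ctx s x y) {σ : St s x y} {φ lam : A → ℝ} {p1 p2 p3 p4 jf jg : ℤ} {T : Finset B}
    (hB : σ.Big φ lam p1 p2 p3 p4 jf jg T) {e e' n : ℤ} (h1 : p2 ≤ e) (h2 : e < n) (h3 : n ≤ e') (h4 : e' < p3)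
    (he : σ.a e ∈ NB s T) (he' : σ.a e' ∈ NB s T) : ¬ σ.T.Ex (σ.b n) := by
  have o1 := hB.o1
  have o2 := hB.o2
  have o3 := hB.o3
  have o4 := hB.o4
  have f1 := hB.f1
  have f2 := hB.f2
  have g1 := hB.g1
  have g2 := hB.g2
  intro hn
  obtain ⟨ψ, ω, hψ⟩ := σ.exists_SV h hB.n1 hB.xf
  obtain ⟨c, ε, hε, w1, w3, w2, w4⟩ := hB.gm h hψ
  obtain ⟨d14, d23⟩ := T2P2_del14 hB.toPar
  have hex := hB.ex he
  have hex' := hB.ex he'
  have u1 := w2 e h1 (by omega) he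
  have v1 := w2 e' (by omega) h4 he'
  have huv : 0 < (gam s ψ ω (σ.a e) - c) * (gam s ψ ω (σ.a e') - c) := by
    have h5 := mul_pos u1 v1
    rcases hε with hε | hε
    · rw [hε] at h5
      linarith
    · rw [hε] at h5
      have : -1 * (gam s ψ ω (σ.a e) - c) * (-1 * (gam s ψ ω (σ.a e') - c)) =
        (gam s ψ ω (σ.a e) - c) * (gam s ψ ω (σ.a e') - c) := by ring
      rwa [this] at h5
  have hsxy : (s x y : ℝ) ≠ 0 := by
    exact_mod_cast h.xy
  have a1 := σ.pr h hψ hB.sv (i := p1) (j := jf) (l := n) (m := e') f1 (by omega) h3 (by omega)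
    hB.n1 hn hB.xf hex'
  have a2 := σ.pr h hψ hB.sv (i := p1) (j := e) (l := n) (m := jg) (by omega) h2 (by omega) (by omega)
    hB.n1 hn hex hB.xg
  have a3 := σ.pr h hψ hB.sv (i := n) (j := jg) (l := p4) (m := e + σ.k) (by omega) g2 (by omega) (by omega)
    hn hB.n4 hB.xg (by rw [σ.pa]; exact hex)
  have a4 := σ.pr h hψ hB.sv (i := n) (j := e') (l := p4) (m := jf + σ.k) h3 (by omega) (by omega) (by omega)
    hn hB.n4 hex' (by rw [σ.pa]; exact hB.xf)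
  rw [w1 jf f1 f2 hB.xf] at a1
  rw [w3 jg g1 g2 hB.xg] at a2
  rw [T2P2_gamk, w3 jg g1 g2 hB.xg] at a3
  rw [T2P2_gamk, w1 jf f1 f2 hB.xf] at a4
  have b1 := T2P2_zero huv a2 (by rw [neg_sub]; exact a1)
  have b2 := T2P2_zero (u := gam s ψ ω (σ.a e') - c) (v := gam s ψ ω (σ.a e) - c)
    (by rw [mul_comm]; exact huv) a4 (by rw [neg_sub]; exact a3)
  have c1 := sub_eq_zero.1 ((mul_eq_zero.1 b1).resolve_left hsxy)
  have c2 := sub_eq_zero.1 ((mul_eq_zero.1 b2).resolve_left hsxy)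
  exact d14 (c1.trans c2)

end MCC
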