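import Pool.Agent.Lib_MP_cb5629.T2F1

set_option linter.unusedSectionVars false

namespace MCC

open Finset Relation

variable {A B : Type} [Fintype A] [Fintype B] [DecidableEq A] [DecidableEq B]
variable {s : A → B → ℤ} {x : A} {y : B}

/-- Piece T2P4 (counting). `BJ` a set of cycle columns that are not entries, `AJ` contains all cycle rows adjacent to `T` and all cycle rows with a walk avoiding `T` to a column of `BJ`. Proof. `Q` = the rows `r` with `σ.O r`, `σ.N r ∉ T` and a walk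
`ReflTransGen (σ.stepA T) r r'`, `s r' c ≠ 0`, `c ∈ BJ`; `T2 = T ∪ BJ ∪ σ.N '' Q` (disjoint union: `b_not_V`, `σ.N r` is off the cycle, `σ.N r ∉ T`; `σ.N` is injective on `O`-rows), `|T2| = |T| + |BJ| + |Q|`. Rows adjacent to `T2`: a row off the cycle (`σ.O r`) adjacent to
`T ⊆ V` is in `NB s T ∩ U` (`mem_U_of_adj`); a row with `σ.O r` adjacent to `BJ` or to `σ.N q`, `q ∈ Q`: if `σ.N r ∉ T` it is in `Q`, if `σ.N r ∈ T` it is in `NB s T ∩ U`; cycle rows are in `AJ` (`a1`, `a2`); `x`; a source is not adjacent to `T` (`f1_s`) and not to `BJ`, `σ.N '' Q`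
(otherwise `c ∈ BJ` would be an entry). So `|NB s T2| ≤ 1 + |NB s T ∩ U| + |AJ| + |Q| = |T| + |AJ| + |Q|`. -/
theorem St.count1 (h : T2Ctx s x y) (σ : St s x y) {T : Finset B} (hT : T ⊆ σ.V)
    (hc : (NB s T ∩ σ.U).card + 1 = T.card) {BJ : Finset B} {AJ : Finset A} (b1 : ∀ c ∈ BJ, ∃ n, σ.b n = c)
    (b2 : ∀ c ∈ BJ, ¬ σ.T.Ex c) (a1 : ∀ m, σ.a m ∈ NB s T → σ.a m ∈ AJ)
    (a2 : ∀ m r' c, c ∈ BJ → ReflTransGen (σ.stepA T) (σ.a m) r' → s r' c ≠ 0 → σ.a m ∈ AJ) :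
    ∃ T2 : Finset B, T ⊆ T2 ∧ (∀ n, σ.b n ∈ T2 → σ.b n ∈ BJ) ∧ y ∉ T2 ∧ (∀ r ∈ snk (tr s) y x, r ∉ NB s T2) ∧
      (NB s T2).card + BJ.card ≤ T2.card + AJ.card := by
  classical
  have Ninj : ∀ {a a' : A}, σ.O a → σ.O a' → σ.N a = σ.N a' → a = a' := by
    intro a a' ha ha' hE
    rw [← (σ.N_O ha).2.2, ← (σ.N_O ha').2.2, hE]
  have NO : ∀ {r : A}, σ.O r → s x (σ.N r) = 0 ∧ ∀ i, σ.b i ≠ σ.N r := fun hr =>
    σ.TO_iff.1 (σ.N_O hr).1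
  let Q : Finset A := univ.filter fun r => σ.O r ∧ σ.N r ∉ T ∧
    ∃ r' c, c ∈ BJ ∧ ReflTransGen (σ.stepA T) r r' ∧ s r' c ≠ 0
  have mQ : ∀ {r : A}, r ∈ Q ↔ σ.O r ∧ σ.N r ∉ T ∧
      ∃ r' c, c ∈ BJ ∧ ReflTransGen (σ.stepA T) r r' ∧ s r' c ≠ 0 := by
    intro r
    simp only [Q, mem_filter, mem_univ, true_and]
  have mT2 : ∀ {c : B}, c ∈ (T ∪ BJ) ∪ Q.image σ.N ↔ c ∈ T ∨ c ∈ BJ ∨ ∃ q ∈ Q, σ.N q = c := by
    intro c
    rw [mem_union, mem_union, mem_image, or_assoc]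
  -- walks to BJ
  have wk : ∀ {r : A} {c : B}, s r c ≠ 0 → (c ∈ BJ ∨ ∃ q ∈ Q, σ.N q = c) →
      ∃ r' c', c' ∈ BJ ∧ ReflTransGen (σ.stepA T) r r' ∧ s r' c' ≠ 0 := by
    intro r c hrc hc'
    rcases hc' with hc' | ⟨q, hq, rfl⟩
    · exact ⟨r, c, hc', ReflTransGen.refl, hrc⟩
    · obtain ⟨hO, hN, r', c', h1, h2, h3⟩ := mQ.1 hq
      exact ⟨r', c', h1, ReflTransGen.head ⟨⟨hO, hrc⟩, hN⟩ h2, h3⟩
  have src : ∀ r ∈ snk (tr s) y x, r ∉ NB s ((T ∪ BJ) ∪ Q.image σ.N) := by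
    intro r hr hcon
    obtain ⟨c, hcT, hrc⟩ := mem_NB.1 hcon
    rcases mT2.1 hcT with h1 | h1
    · exact hrc (σ.f1_s h (σ.mem_TV.2 ⟨r, hr, ReflTransGen.refl⟩) (hT h1))
    · obtain ⟨r', c', h2, h3, h4⟩ := wk hrc h1
      refine b2 c' h2 ⟨r, hr, σ.W_T.2 ⟨r', ?_, h4⟩⟩
      have hle : σ.stepA T ≤ σ.step := fun _ _ hs => hs.1
      exact Relation.ReflTransGen.mono hle _ _ h3
  have hsub : NB s ((T ∪ BJ) ∪ Q.image σ.N) ⊆ insert x (((NB s T ∩ σ.U) ∪ AJ) ∪ Q) := by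
    intro r hr
    obtain ⟨c, hcT, hrc⟩ := mem_NB.1 hr
    rw [mem_insert, mem_union, mem_union]
    by_cases hx : r = x
    · exact Or.inl hx
    right
    by_cases ha : ∃ m, σ.a m = r
    · obtain ⟨m, rfl⟩ := ha
      left; right
      rcases mT2.1 hcT with h1 | h1
      · exact a1 m (mem_NB.2 ⟨c, h1, hrc⟩)
      · obtain ⟨r', c', h2, h3, h4⟩ := wk hrc h1
        exact a2 m r' c' h2 h3 h4
    by_cases hy : s r y = 0
    · have hO : σ.O r := ⟨hy, fun i hi => ha ⟨i, hi⟩⟩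
      have key : ∀ {c : B}, c ∈ T → s r c ≠ 0 → r ∈ NB s T ∩ σ.U := fun hc1 hc2 =>
        mem_inter.2 ⟨mem_NB.2 ⟨_, hc1, hc2⟩, σ.mem_U_of_adj hO (hT hc1) hc2⟩
      rcases mT2.1 hcT with h1 | h1
      · exact Or.inl (Or.inl (key h1 hrc))
      · by_cases hN : σ.N r ∈ T
        · exact Or.inl (Or.inl (key hN (σ.N_O hO).2.1))
        · exact Or.inr (mQ.2 ⟨hO, hN, wk hrc h1⟩)
    · exact absurd hr (src r (mem_snk.2 ⟨hx, by rw [tr_apply]; exact hy⟩))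
  have hcard : ((T ∪ BJ) ∪ Q.image σ.N).card = T.card + BJ.card + Q.card := by
    rw [card_union_of_disjoint, card_union_of_disjoint, card_image_of_injOn]
    · intro r hr r' hr' he
      exact Ninj (mQ.1 hr).1 (mQ.1 hr').1 he
    · rw [Finset.disjoint_left]
      intro c h1 h2
      obtain ⟨n, rfl⟩ := b1 c h2
      exact σ.b_not_V n (hT h1)
    · rw [Finset.disjoint_left]
      intro c h1 h2
      obtain ⟨q, hq, rfl⟩ := mem_image.1 h2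
      obtain ⟨hO, hN, -⟩ := mQ.1 hq
      rcases mem_union.1 h1 with h3 | h3
      · exact hN h3
      · obtain ⟨n, hn⟩ := b1 _ h3
        exact (NO hO).2 n hn
  refine ⟨(T ∪ BJ) ∪ Q.image σ.N, fun c hc1 => mT2.2 (Or.inl hc1), ?_, ?_, src, ?_⟩
  · intro n hn
    rcases mT2.1 hn with h1 | h1 | ⟨q, hq, h1⟩
    · exact absurd (hT h1) (σ.b_not_V n)
    · exact h1
    · exact absurd h1.symm ((NO (mQ.1 hq).1).2 n)
  · intro hy
    rcases mT2.1 hy with h1 | h1 | ⟨q, hq, h1⟩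
    · exact σ.y_not_V h (hT h1)
    · obtain ⟨n, hn⟩ := b1 _ h1
      exact h.xy (by rw [← hn]; exact σ.bx n)
    · exact h.xy (by rw [← h1]; exact (NO (mQ.1 hq).1).1)
  · have h1 := card_le_card hsub
    have h2 := card_insert_le x (((NB s T ∩ σ.U) ∪ AJ) ∪ Q)
    have h3 := card_union_le ((NB s T ∩ σ.U) ∪ AJ) Q
    have h4 := card_union_le (NB s T ∩ σ.U) AJ
    rw [hcard]
    omega

/-- The rows adjacent to `T` in an interval `[p, q)`: the extreme ones. If there is one, `e ≤ e'`, all of them are in `[e, e']`. (`Finset.Ico p q` filtered, `min'`, `max'`.) -/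
theorem St.extremes (σ : St s x y) (T : Finset B) (p q : ℤ) (hne : ∃ e, p ≤ e ∧ e < q ∧ σ.a e ∈ NB s T) :
    ∃ e e', p ≤ e ∧ e ≤ e' ∧ e' < q ∧ σ.a e ∈ NB s T ∧ σ.a e' ∈ NB s T ∧
      ∀ i, p ≤ i → i < q → σ.a i ∈ NB s T → e ≤ i ∧ i ≤ e' := by
  classical
  obtain ⟨e0, h1, h2, h3⟩ := hne
  let F : Finset ℤ := (Finset.Ico p q).filter fun i => σ.a i ∈ NB s T
  have mF : ∀ {i : ℤ}, i ∈ F ↔ (p ≤ i ∧ i < q) ∧ σ.a i ∈ NB s T := by
    intro i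
    simp only [F, mem_filter, Finset.mem_Ico]
  have hF : F.Nonempty := ⟨e0, mF.2 ⟨⟨h1, h2⟩, h3⟩⟩
  have g1 := mF.1 (F.min'_mem hF)
  have g2 := mF.1 (F.max'_mem hF)
  refine ⟨F.min' hF, F.max' hF, g1.1.1, F.min'_le _ (F.max'_mem hF), g2.1.2, g1.2, g2.2, ?_⟩
  intro i hi1 hi2 hi3
  have hi : i ∈ F := mF.2 ⟨⟨hi1, hi2⟩, hi3⟩
  exact ⟨F.min'_le _ hi, F.le_max' _ hi⟩

end MCC
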