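import Pool.Agent.Lib_MP_cb5629.T2P3

set_option linter.unusedSectionVars false

namespace MCC

open Finset Relation

variable {A B : Type} [Fintype A] [Fintype B] [DecidableEq A] [DecidableEq B]
variable {s : A → B → ℤ} {x : A} {y : B}

/-- the situation after the ear of `Big.lear` -/
structure St.LE (σ σ' : St s x y) (φ lam : A → ℝ) (p1 p2 p3 p4 jf jg m e n e' : ℤ) (T : Finset B) (R : Finset A) :
    Prop where
  big : σ.Big φ lam p1 p2 p3 p4 jf jg T
  h1 : p2 ≤ m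
  h2 : m < e
  h3 : e < n
  h4 : n ≤ e'
  h5 : e' < p3
  he : σ.a e ∈ NB s T
  he' : σ.a e' ∈ NB s T
  ear : σ.Ear σ' m n R
  rN : ∀ r ∈ R, σ.N r ∉ T
  rV : ∀ r ∈ R, r ∉ σ.T.V
  rb : ∀ r ∈ R, ∃ r'', ReflTransGen (σ.stepA T) r r'' ∧ s r'' (σ.b n) ≠ 0

variable {σ σ' : St s x y} {φ lam : A → ℝ} {p1 p2 p3 p4 jf jg m e n e' : ℤ} {T : Finset B} {R : Finset A}

/-- Piece T2P5. A row adjacent to `T` still reaches a sink of `T` (`Df.inner`; rows `v` with `σ.N v ∈ T` are not in `R`; `Ear.reach_of`). -/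
theorem St.LE.inner (h : T2Ctx s x y) (hL : σ.LE σ' φ lam p1 p2 p3 p4 jf jg m e n e' T R) {r : A} (hr : r ∈ NB s T) :
    σ'.Ex r := by
  obtain ⟨r', w1, c, w2, w3, w4⟩ := hL.big.df.inner h hr
  refine ⟨c, w2, r', hL.ear.reach_of (ReflTransGen.mono ?_ _ _ w1), w4⟩
  intro u v huv
  exact ⟨huv.1, fun hv => hL.rN v hv huv.2⟩

/-- No entry in the omitted arc: `i ≤ e`: `om` with the row `a e` and `Df.inner`; `e < i`: `Big.noen`. -/
theorem St.LE.noe (h : T2Ctx s x y) (hL : σ.LE σ' φ lam p1 p2 p3 p4 jf jg m e n e' T R) {i : ℤ} (g1 : m < i)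
    (g2 : i < n) : ¬ σ.T.Ex (σ.b i) := by
  intro hi
  rcases le_or_gt i e with hie | hie
  · obtain ⟨r', w1, c, w2, w3, w4⟩ := hL.big.df.inner h hL.he
    refine hL.ear.om h hL.rV g1 hie hL.h3 hi (r' := r') (ReflTransGen.mono ?_ _ _ w1) w2 w4
    intro u v huv
    exact ⟨huv.1, fun hv => hL.rN v hv huv.2⟩
  · have h1 := hL.h1
    have h2 := hL.h2
    have h4 := hL.h4
    exact hL.big.noen h (by omega) hie (by omega) hL.h5 hL.he hL.he' hi

/-- Walks avoiding `T` from rows outside the second interval avoid `R`: otherwise `rb` gives a walk to `b n`, contradiction to `Big.noear`. -/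
theorem St.LE.walk (h : T2Ctx s x y) (hL : σ.LE σ' φ lam p1 p2 p3 p4 jf jg m e n e' T R) {j : ℤ} (g1 : p3 ≤ j)
    (g2 : j < p2 + σ.k) {r : A} (hw : ReflTransGen (σ.stepA T) (σ.a j) r) :
    ReflTransGen (fun u v => σ.stepA T u v ∧ v ∉ R) (σ.a j) r := by
  have h1 := hL.h1
  have h2 := hL.h2
  induction hw with
  | refl => exact ReflTransGen.refl
  | tail hab hbc ih =>
    refine ih.tail ⟨hbc, fun hc => ?_⟩
    obtain ⟨r'', w1, w2⟩ := hL.rb _ hc
    exact hL.big.noear h (by omega) hL.h3 hL.h4 hL.h5 hL.he hL.he' g1 g2 ((hab.tail hbc).trans w1) w2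

/-- Exits outside the second interval stay exits: `first_hit`, `walk`, `inner`. -/
theorem St.LE.ex (h : T2Ctx s x y) (hL : σ.LE σ' φ lam p1 p2 p3 p4 jf jg m e n e' T R) {j : ℤ} (g1 : p3 ≤ j)
    (g2 : j < p2 + σ.k) (hj : σ.Ex (σ.a j)) : σ'.Ex (σ.a j) := by
  obtain ⟨r', w1, w2⟩ := σ.first_hit T hj
  have w3 : ReflTransGen σ'.step (σ.a j) r' := by
    refine hL.ear.reach_of (ReflTransGen.mono ?_ _ _ (hL.walk h g1 g2 w1))
    intro u v huv
    exact ⟨huv.1.1, huv.2⟩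
  rcases w2 with w2 | ⟨c, hc, -, w2⟩
  · exact σ'.Ex_of_reach w3 (hL.inner h w2)
  · exact ⟨c, hc, r', w3, w2⟩

/-- The rows of `NB s T ∩ U` are not in the ear. Proof. `D0 = NB s T ∩ σ.U`, `|D0| + 1 = |T|`. Let `r ∈ D0 ∩ R`, so `σ.N r ∉ T`. The non-sinks of `T` are `σ.N` of distinct rows of `D0` (`partner_mem`), so `|D0| - 1 ≥ |T| - |T ∩ snk|`, `|T ∩ snk| = 2`: all sinks are in `T`,
and `r` is the only row of `D0` with `σ.N r ∉ T`. `first_hit` for `a jf = a (jf + k)`: a walk avoiding `T` to a row `r'` that is adjacent to `T` (there is no other sink), `r' ≠ a jf` (`Df.nf`), so `r' ∈ D0` (`mem_U_of_adj`) and `σ.N r' ∉ T`: `r' = r`. So `r ∈ R` is on a walk from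
`a (jf + k)`, contradiction to `walk` (or `rb` and `noear`). -/
theorem St.LE.D0_R (h : T2Ctx s x y) (hL : σ.LE σ' φ lam p1 p2 p3 p4 jf jg m e n e' T R) {r : A}
    (hr : r ∈ NB s T ∩ σ.U) : r ∉ R := by
  classical
  intro hrR
  have hNr := hL.rN r hrR
  have hB := hL.big
  have hT := hB.df.sub
  have hc := hB.df.card
  have himg : (T \ snk s x y).image σ.M ⊆ (NB s T ∩ σ.U).erase r := by
    intro v hv
    obtain ⟨c, hcT, rfl⟩ := Finset.mem_image.1 hv
    obtain ⟨c1, c2⟩ := Finset.mem_sdiff.1 hcT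
    obtain ⟨k1, k2⟩ := σ.partner_mem hT c1 c2
    refine Finset.mem_erase.2 ⟨?_, k1⟩
    intro he
    rw [he] at k2
    rw [k2] at hNr
    exact hNr c1
  have hcimg : ((T \ snk s x y).image σ.M).card = (T \ snk s x y).card := by
    apply Finset.card_image_of_injOn
    intro c hcT c' hcT' hcc
    obtain ⟨c1, c2⟩ := Finset.mem_sdiff.1 (Finset.mem_coe.1 hcT)
    obtain ⟨c1', c2'⟩ := Finset.mem_sdiff.1 (Finset.mem_coe.1 hcT')
    rw [← (σ.partner_mem hT c1 c2).2, ← (σ.partner_mem hT c1' c2').2, hcc]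
  have he1 := Finset.card_le_card himg
  rw [hcimg, Finset.card_erase_of_mem hr] at he1
  have hsplit : (T \ snk s x y).card + (T ∩ snk s x y).card = T.card :=
    Finset.card_sdiff_add_card_inter T (snk s x y)
  have hsnk := card_snk h
  have hle2 : (T ∩ snk s x y).card ≤ (snk s x y).card := Finset.card_le_card Finset.inter_subset_right
  have hpos : 0 < (NB s T ∩ σ.U).card := Finset.card_pos.2 ⟨r, hr⟩
  have hsub : snk s x y ⊆ T := by
    have h1 : T ∩ snk s x y = snk s x y :=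
      Finset.eq_of_subset_of_card_le Finset.inter_subset_right (by omega)
    rw [← h1]
    exact Finset.inter_subset_left
  have heq : (T \ snk s x y).image σ.M = (NB s T ∩ σ.U).erase r := by
    apply Finset.eq_of_subset_of_card_le himg
    rw [hcimg, Finset.card_erase_of_mem hr]
    omega
  have hone : ∀ r' ∈ NB s T ∩ σ.U, σ.N r' ∉ T → r' = r := by
    intro r' hr' hN
    by_contra hne
    have hm : r' ∈ (T \ snk s x y).image σ.M := by
      rw [heq]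
      exact Finset.mem_erase.2 ⟨hne, hr'⟩
    obtain ⟨c, hcT, rfl⟩ := Finset.mem_image.1 hm
    obtain ⟨c1, c2⟩ := Finset.mem_sdiff.1 hcT
    rw [(σ.partner_mem hT c1 c2).2] at hN
    exact hN c1
  obtain ⟨r', w1, w2⟩ := σ.first_hit T hB.xf
  have hr'T : r' ∈ NB s T := by
    rcases w2 with w2 | ⟨c, c1, c2, -⟩
    · exact w2
    · exact absurd (hsub c1) c2
  have o1 := hB.o1
  have o2 := hB.o2
  have o3 := hB.o3
  have o4 := hB.o4
  have f1 := hB.f1
  have f2 := hB.f2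
  have w3 : ReflTransGen (σ.stepA T) (σ.a (jf + σ.k)) r' := by rw [σ.pa]; exact w1
  have w4 := hL.walk h (by omega) (by omega) w3
  rw [σ.pa] at w4
  rcases ReflTransGen.cases_tail w4 with he | ⟨u, -, ⟨⟨v1, v2⟩, v3⟩⟩
  · rw [he] at hr'T
    exact hB.df.nf hr'T
  · apply v3
    obtain ⟨c, c1, c2⟩ := mem_NB.1 hr'T
    have hU : r' ∈ σ.U := σ.mem_U_of_adj v1.1 (hT c1) c2
    rw [hone r' (Finset.mem_inter.2 ⟨hr'T, hU⟩) v2]
    exact hrR

/-- `D0 ⊆ U'` -/
theorem St.LE.D0_U (h : T2Ctx s x y) (hL : σ.LE σ' φ lam p1 p2 p3 p4 jf jg m e n e' T R) :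
    NB s T ∩ σ.U ⊆ σ'.U := by
  intro r hr
  obtain ⟨h1, h2⟩ := Finset.mem_inter.1 hr
  exact σ'.mem_U.2 ⟨hL.ear.O_iff.2 (Or.inl ⟨(σ.mem_U.1 h2).1, hL.D0_R h hr⟩), hL.inner h h1⟩

/-- `T ⊆ V'` (`partner_mem`; the partner `r` of a non-sink of `T` is in `D0 ⊆ U'`, not in `R`, and `σ'.N r = σ.N r`). -/
theorem St.LE.T_V (h : T2Ctx s x y) (hL : σ.LE σ' φ lam p1 p2 p3 p4 jf jg m e n e' T R) : T ⊆ σ'.V := by
  intro c hc
  by_cases hs : c ∈ snk s x y
  · exact σ'.mem_V.2 (Or.inr hs)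
  · obtain ⟨h1, h2⟩ := σ.partner_mem hL.big.df.sub hc hs
    refine σ'.mem_V.2 (Or.inl ⟨σ.M c, hL.D0_U h h1, ?_⟩)
    rw [hL.ear.offN _ (σ.mem_U.1 (Finset.mem_inter.1 h1).2).1 (hL.D0_R h h1), h2]

/-- `T` is not deficient for `σ'`: `D0 ⊆ U'`, and `a e` is new in `U'` (omitted arc, `inner`), adjacent to `T`. -/
theorem St.LE.strict (h : T2Ctx s x y) (hL : σ.LE σ' φ lam p1 p2 p3 p4 jf jg m e n e' T R) :
    T.card ≤ (NB s T ∩ σ'.U).card := by
  classical
  have h1 : insert (σ.a e) (NB s T ∩ σ.U) ⊆ NB s T ∩ σ'.U := by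
    intro r hr
    rcases Finset.mem_insert.1 hr with rfl | hr
    · exact Finset.mem_inter.2 ⟨hL.he, σ'.mem_U.2 ⟨hL.ear.O_iff.2 (Or.inr ⟨e, hL.h2, hL.h3, rfl⟩),
        hL.inner h hL.he⟩⟩
    · exact Finset.mem_inter.2 ⟨(Finset.mem_inter.1 hr).1, hL.D0_U h hr⟩
  have h2 := Finset.card_le_card h1
  rw [Finset.card_insert_of_notMem (fun hm => σ.a_not_U e (Finset.mem_inter.1 hm).2), hL.big.df.card] at h2
  exact h2

end MCC
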