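import Pool.Agent.Lib_MP_cb5629.T2P5

set_option linter.unusedSectionVars false

namespace MCC

open Finset Relation

variable {A B : Type} [Fintype A] [Fintype B] [DecidableEq A] [DecidableEq B]
variable {s : A → B → ℤ} {x : A} {y : B}
variable {σ σ' : St s x y} {φ lam : A → ℝ} {p1 p2 p3 p4 jf jg m e n e' : ℤ} {T : Finset B} {R : Finset A}

/-- Piece T2P6. A deficient set of `σ'` missing `a jf` contains `T`.

Proof. `D0 = NB s T ∩ σ.U`, `|D0| + 1 = |T|`, `D0 ⊆ σ'.U`. Suppose `¬ T ⊆ T'`. By `Df.min` for `T' ∩ T`: (1) `|NB (T' ∩ T) ∩ σ.U| ≥ |T' ∩ T|` (`a jf ∉ NB (T' ∩ T)`). These rows are in `D0 ∩ NB T'`, so (2) `|NB T' ∩ (σ'.U \ D0)| ≤ |NB T' ∩ σ'.U| - |T' ∩ T| ≤ |T' \ T| - 1`.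
Let `Pr = (snk \ T) ∪ (σ.N '' D0 \ T)`; `|Pr| ≤ 1`: `|snk \ T| = 2 - |T ∩ snk|`, `T \ snk ⊆ σ.N '' D0` (`partner_mem`), so `|σ.N '' D0 \ T| ≤ |D0| - (|T| - |T ∩ snk|) = |T ∩ snk| - 1`. Every `c ∈ X' = (T' \ T) \ Pr` is not a sink, so `σ'.M c ∈ NB T' ∩ σ'.U` (`partner_mem` for `σ'`) and
`σ'.M c ∉ D0` (for `r ∈ D0`, `r ∉ R` and `σ'.N r = σ.N r ∈ T ∪ Pr`). So (3) `|X'| ≤ |NB T' ∩ (σ'.U \ D0)|`, and `|X'| ≥ |T' \ T| - 1`. With (2): equality everywhere; so (i) every row of `NB T' ∩ σ'.U` that is not in `D0` is `σ'.M c`, `c ∈ X'`, so its partner `σ'.N r` is in `T'`; (ii) `|T' \ T| = |X'| + 1`, so `Pr` has an element in `T'`,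
so `Pr ⊆ T'`. `first_hit` and `walk` for `a jf = a (jf + k)`: a walk `u → v` with `σ.N v ∉ T`, `v ∉ R` to a row `r'` with `r' ∈ NB s T` or adjacent to a sink not in `T`. By induction from the end all its rows are in `NB s T` or in `NB s T'`: the end: `snk \ T ⊆ Pr ⊆ T'`. Step `u → v`: if `v ∈ NB s T` then `v ∈ D0` (`mem_U_of_adj`), `σ.N v ∈ Pr ⊆ T'`, so `u ∈ NB s T'`.
If `v ∈ NB s T'` and `v ∉ NB s T`: `σ'.O v` (`O_iff`), `T' ⊆ σ'.V`, so `v ∈ σ'.U`, by (i) `σ.N v = σ'.N v ∈ T'`, `u ∈ NB s T'`. So `a jf ∈ NB s T` or `a jf ∈ NB s T'`: contradiction to `Df.nf` and `hf`. -/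
theorem St.LE.sub (h : T2Ctx s x y) (hL : σ.LE σ' φ lam p1 p2 p3 p4 jf jg m e n e' T R) {T' : Finset B}
    (hT : T' ⊆ σ'.V) (hc : (NB s T' ∩ σ'.U).card < T'.card) (hf : σ.a jf ∉ NB s T') : T ⊆ T' := by
  by_contra hnT
  have hD := hL.big.df
  have hcard := hD.card
  have hTV := hD.sub
  have hDU := hL.D0_U h
  have hDR : ∀ r ∈ NB s T ∩ σ.U, r ∉ R := fun r hr => hL.D0_R h hr
  set D0 := NB s T ∩ σ.U with hD0
  -- (1)
  have h1 : (T' ∩ T).card ≤ (NB s (T' ∩ T) ∩ σ.U).card := by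
    by_contra hlt
    push Not at hlt
    refine hnT ((hD.min (T' ∩ T) (inter_subset_right.trans hTV) hlt (Or.inl ?_)).trans
      inter_subset_left)
    exact fun hm => hf (T2D5_mono inter_subset_left hm)
  -- (2)
  set E := NB s T' ∩ (σ'.U \ D0) with hE
  have hI1 : NB s (T' ∩ T) ∩ σ.U ⊆ D0 :=
    inter_subset_inter (T2D5_mono inter_subset_right) Subset.rfl
  have hdisj : Disjoint (NB s (T' ∩ T) ∩ σ.U) E := by
    rw [Finset.disjoint_left]
    intro r hr hr'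
    exact (mem_sdiff.1 (mem_inter.1 hr').2).2 (hI1 hr)
  have hsub : (NB s (T' ∩ T) ∩ σ.U) ∪ E ⊆ NB s T' ∩ σ'.U := by
    intro r hr
    rcases mem_union.1 hr with hr | hr
    · exact mem_inter.2 ⟨T2D5_mono inter_subset_left (mem_inter.1 hr).1, hDU (hI1 hr)⟩
    · exact mem_inter.2 ⟨(mem_inter.1 hr).1, (mem_sdiff.1 (mem_inter.1 hr).2).1⟩
  have h2 := card_le_card hsub
  rw [card_union_of_disjoint hdisj] at h2
  have hsplit : (T' \ T).card + (T' ∩ T).card = T'.card := card_sdiff_add_card_inter T' T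
  have h3 : E.card + 1 ≤ (T' \ T).card := by omega
  -- the set Pr
  set Pr := (snk s x y \ T) ∪ (D0.image σ.N \ T) with hPr
  have hPrc : Pr.card ≤ 1 := by
    have c1 := card_union_le (snk s x y \ T) (D0.image σ.N \ T)
    have c2 : (snk s x y \ T).card + (snk s x y ∩ T).card = (snk s x y).card :=
      card_sdiff_add_card_inter _ _
    have c3 : (T \ snk s x y).card + (T ∩ snk s x y).card = T.card := card_sdiff_add_card_inter _ _
    have c4 : (D0.image σ.N \ T).card + (D0.image σ.N ∩ T).card = (D0.image σ.N).card :=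
      card_sdiff_add_card_inter _ _
    have c5 : T \ snk s x y ⊆ D0.image σ.N ∩ T := by
      intro c hcc
      obtain ⟨g1, g2⟩ := mem_sdiff.1 hcc
      obtain ⟨g3, g4⟩ := σ.partner_mem hTV g1 g2
      exact mem_inter.2 ⟨mem_image.2 ⟨_, g3, g4⟩, g1⟩
    have c6 := card_le_card c5
    have c7 : (D0.image σ.N).card ≤ D0.card := card_image_le
    have c8 := card_snk (s := s) (x := x) (y := y) h
    have c9 : (snk s x y ∩ T).card = (T ∩ snk s x y).card := by rw [inter_comm]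
    rw [← hPr] at c1
    omega
  set X' := (T' \ T) \ Pr with hX'
  have hXE : X'.image σ'.M ⊆ E := by
    intro r hr
    obtain ⟨c, hcX, rfl⟩ := mem_image.1 hr
    obtain ⟨g1, g2⟩ := mem_sdiff.1 hcX
    obtain ⟨g3, g4⟩ := mem_sdiff.1 g1
    have g5 : c ∉ snk s x y := fun g => g2 (mem_union.2 (Or.inl (mem_sdiff.2 ⟨g, g4⟩)))
    obtain ⟨g6, g7⟩ := σ'.partner_mem hT g3 g5
    refine mem_inter.2 ⟨(mem_inter.1 g6).1, mem_sdiff.2 ⟨(mem_inter.1 g6).2, fun g => ?_⟩⟩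
    have g8 : σ.O (σ'.M c) := (σ.mem_U.1 (mem_inter.1 g).2).1
    have g9 := hL.ear.offN _ g8 (hDR _ g)
    refine g2 (mem_union.2 (Or.inr (mem_sdiff.2 ⟨mem_image.2 ⟨_, g, ?_⟩, g4⟩)))
    rw [← g9, g7]
  have hXinj : Set.InjOn σ'.M (X' : Set B) := by
    intro c hcX c' hcX' he
    have aux : ∀ c, c ∈ X' → σ'.N (σ'.M c) = c := by
      intro c hcX
      obtain ⟨g1, g2⟩ := mem_sdiff.1 hcX
      obtain ⟨g3, g4⟩ := mem_sdiff.1 g1
      have g5 : c ∉ snk s x y := fun g => g2 (mem_union.2 (Or.inl (mem_sdiff.2 ⟨g, g4⟩)))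
      exact (σ'.partner_mem hT g3 g5).2
    rw [← aux c hcX, ← aux c' hcX', he]
  have hXc : (X'.image σ'.M).card = X'.card := card_image_of_injOn hXinj
  have h4 := card_le_card hXE
  have h5 : (T' \ T).card ≤ X'.card + ((T' \ T) ∩ Pr).card := by
    have := card_sdiff_add_card_inter (T' \ T) Pr
    rw [← hX'] at this
    omega
  have h6 : ((T' \ T) ∩ Pr).card ≤ Pr.card := card_le_card inter_subset_right
  -- (i)
  have hEq : X'.image σ'.M = E := eq_of_subset_of_card_le hXE (by omega)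
  have hi : ∀ r ∈ E, σ'.N r ∈ T' := by
    intro r hr
    rw [← hEq] at hr
    obtain ⟨c, hcX, rfl⟩ := mem_image.1 hr
    obtain ⟨g1, g2⟩ := mem_sdiff.1 hcX
    obtain ⟨g3, g4⟩ := mem_sdiff.1 g1
    have g5 : c ∉ snk s x y := fun g => g2 (mem_union.2 (Or.inl (mem_sdiff.2 ⟨g, g4⟩)))
    rw [(σ'.partner_mem hT g3 g5).2]
    exact g3
  -- (ii)
  have hPT : Pr ⊆ T' := by
    have h7 : 0 < ((T' \ T) ∩ Pr).card := by omega
    obtain ⟨c, hcc⟩ := card_pos.1 h7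
    obtain ⟨g1, g2⟩ := mem_inter.1 hcc
    intro c' hc'
    rw [card_le_one.1 hPrc c' hc' c g2]
    exact (mem_sdiff.1 g1).1
  -- the walk
  have o1 := hL.big.o1
  have o2 := hL.big.o2
  have o3 := hL.big.o3
  have o4 := hL.big.o4
  have f1 := hL.big.f1
  have f2 := hL.big.f2
  obtain ⟨r', hw, hend⟩ := σ.first_hit T hL.big.xf
  have hw' : ReflTransGen (fun u v => σ.stepA T u v ∧ v ∉ R) (σ.a jf) r' := by
    have g := hL.walk h (j := jf + σ.k) (r := r') (by omega) (by omega) (by rw [σ.pa]; exact hw)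
    rwa [σ.pa] at g
  have hfin : σ.a jf ∈ NB s T ∨ σ.a jf ∈ NB s T' := by
    clear hw
    revert hw'
    generalize σ.a jf = w0
    intro hw'
    induction hw' using ReflTransGen.head_induction_on with
    | refl =>
      rcases hend with g | ⟨c, g1, g2, g3⟩
      · exact Or.inl g
      · exact Or.inr (mem_NB.2 ⟨c, hPT (mem_union.2 (Or.inl (mem_sdiff.2 ⟨g1, g2⟩))), g3⟩)
    | @head u v huv _ ih =>
      obtain ⟨⟨⟨hO, hs⟩, hNT⟩, hvR⟩ := huv
      have key : σ.N v ∈ T' → u ∈ NB s T' := fun g => mem_NB.2 ⟨_, g, hs⟩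
      by_cases hvT : v ∈ NB s T
      · obtain ⟨c, g1, g2⟩ := mem_NB.1 hvT
        have hvD : v ∈ D0 := mem_inter.2 ⟨hvT, σ.mem_U_of_adj hO (hTV g1) g2⟩
        exact Or.inr (key (hPT (mem_union.2 (Or.inr (mem_sdiff.2 ⟨mem_image.2 ⟨v, hvD, rfl⟩, hNT⟩)))))
      · rcases ih with g | g
        · exact absurd g hvT
        · obtain ⟨c, g1, g2⟩ := mem_NB.1 g
          have hO' : σ'.O v := hL.ear.O_iff.2 (Or.inl ⟨hO, hvR⟩)
          have hvE : v ∈ E := mem_inter.2 ⟨g, mem_sdiff.2 ⟨σ'.mem_U_of_adj hO' (hT g1) g2,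
            fun g' => hvT (mem_inter.1 g').1⟩⟩
          refine Or.inr (key ?_)
          rw [← hL.ear.offN v hO hvR]
          exact hi v hvE
  rcases hfin with g | g
  · exact hD.nf g
  · exact hf g

end MCC
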