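import Pool.Agent.Lib_MP_cb5629.T2B2

set_option linter.unusedSectionVars false

namespace MCC

open Finset Relation

variable {A B : Type} [Fintype A] [Fintype B] [DecidableEq A] [DecidableEq B]
variable {s : A → B → ℤ} {x : A} {y : B}

private theorem T2Path_walk {α : Type*} {R : α → α → Prop} {u v : α} (h : ReflTransGen R u v) :
    ∃ (j : ℕ) (q : ℕ → α), q 0 = u ∧ q j = v ∧ (∀ i, i < j → R (q i) (q (i + 1))) := by
  induction h with
  | refl => exact ⟨0, fun _ => u, rfl, rfl, fun i hi => absurd hi (Nat.not_lt_zero i)⟩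
  | @tail b c _ hbc ih =>
    obtain ⟨j, q, h0, hj, hs⟩ := ih
    refine ⟨j + 1, fun i => if i ≤ j then q i else c, ?_, ?_, ?_⟩
    · simpa using h0
    · simp
    · intro i hi
      by_cases hij : i < j
      · have h1 : i ≤ j := le_of_lt hij
        have h2 : i + 1 ≤ j := hij
        simp only [h1, h2, if_true]
        exact hs i hij
      · have h1 : i = j := by omega
        subst h1
        have h2 : ¬ (i + 1 ≤ i) := by omega
        simp only [le_refl, if_true, h2, if_false]
        rw [hj]
        exact hbc

private theorem T2Path_cut {α : Type*} {R : α → α → Prop} {u v : α} (j : ℕ) (q : ℕ → α)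
    (h0 : q 0 = u) (hj : q j = v) (hs : ∀ i, i < j → R (q i) (q (i + 1)))
    (a b : ℕ) (hab : a < b) (hb : b ≤ j) (hq : q a = q b) :
    ∃ (j' : ℕ) (q' : ℕ → α), j' < j ∧ q' 0 = u ∧ q' j' = v ∧
      (∀ i, i < j' → R (q' i) (q' (i + 1))) := by
  refine ⟨j - (b - a), fun i => if i ≤ a then q i else q (i + (b - a)), by omega, ?_, ?_, ?_⟩
  · simpa using h0
  · by_cases h : j - (b - a) ≤ a
    · have h1 : b = j := by omega
      have h2 : j - (b - a) = a := by omega
      simp only [h2, le_refl, if_true]
      rw [hq, h1, hj]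
    · simp only [h, if_false]
      have h3 : j - (b - a) + (b - a) = j := by omega
      rw [h3, hj]
  · intro i hi
    by_cases h1 : i + 1 ≤ a
    · have h2 : i ≤ a := by omega
      simp only [h1, h2, if_true]
      exact hs i (by omega)
    · by_cases h2 : i ≤ a
      · have h3 : i = a := by omega
        subst h3
        simp only [le_refl, if_true, h1, if_false]
        have h4 : i + 1 + (b - i) = b + 1 := by omega
        rw [h4, hq]
        exact hs b (by omega)
      · simp only [h1, h2, if_false]
        have h4 : i + 1 + (b - a) = (i + (b - a)) + 1 := by omega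
        rw [h4]
        exact hs _ (by omega)

/-- Piece T2PATH. A shortest walk is a simple path. (Strong induction on the length: first get a walk `q : ℕ → α` of some length from `ReflTransGen`, take one of minimal length; a
repetition could be cut out.) -/
theorem simple_path {α : Type*} {R : α → α → Prop} {u v : α} (h : ReflTransGen R u v) :
    ∃ (j : ℕ) (q : ℕ → α), q 0 = u ∧ q j = v ∧ (∀ i, i < j → R (q i) (q (i + 1))) ∧
      ∀ i i', i ≤ j → i' ≤ j → q i = q i' → i = i' := by
  classical
  have hex : ∃ j : ℕ, ∃ q : ℕ → α, q 0 = u ∧ q j = v ∧ (∀ i, i < j → R (q i) (q (i + 1))) :=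
    T2Path_walk h
  obtain ⟨q, h0, hj, hs⟩ := Nat.find_spec hex
  refine ⟨Nat.find hex, q, h0, hj, hs, ?_⟩
  have key : ∀ a b : ℕ, a < b → b ≤ Nat.find hex → q a ≠ q b := by
    intro a b hab hb hq
    obtain ⟨j', q', hlt, h0', hj', hs'⟩ := T2Path_cut (Nat.find hex) q h0 hj hs a b hab hb hq
    exact Nat.find_min hex hlt ⟨q', h0', hj', hs'⟩
  intro i i' hi hi' heq
  rcases lt_trichotomy i i' with hlt | he | hgt
  · exact absurd heq (key i i' hlt hi')
  · exact he
  · exact absurd heq.symm (key i' i hgt hi)

end MCC
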