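import Pool.Agent.Lib_MP_cb5629.T2F1

set_option linter.unusedSectionVars false

namespace MCC

open Finset Relation

variable {A B : Type} [Fintype A] [Fintype B] [DecidableEq A] [DecidableEq B]
variable {s : A → B → ℤ} {x : A} {y : B}

/-- Piece T2PM. Union of two matchings. -/
lemma match_union {R1 R2 : Finset A} {K1 K2 : Finset B} (hR : Disjoint R1 R2) (hK : Disjoint K1 K2) {κ1 κ2 : A → B}
    (i1 : Set.InjOn κ1 R1) (m1 : ∀ r ∈ R1, κ1 r ∈ K1 ∧ s r (κ1 r) ≠ 0) (i2 : Set.InjOn κ2 R2)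
    (m2 : ∀ r ∈ R2, κ2 r ∈ K2 ∧ s r (κ2 r) ≠ 0) :
    ∃ κ : A → B, Set.InjOn κ (R1 ∪ R2 : Finset A) ∧ (∀ r ∈ R1 ∪ R2, κ r ∈ K1 ∪ K2 ∧ s r (κ r) ≠ 0) ∧
      (∀ r ∈ R1, κ r = κ1 r) ∧ ∀ r ∈ R2, κ r = κ2 r := by
  have e1 : ∀ r ∈ R1, (if r ∈ R1 then κ1 r else κ2 r) = κ1 r := fun r hr => if_pos hr
  have e2 : ∀ r ∈ R2, (if r ∈ R1 then κ1 r else κ2 r) = κ2 r := fun r hr =>
    if_neg fun hr1 => disjoint_left.1 hR hr1 hr
  refine ⟨fun r => if r ∈ R1 then κ1 r else κ2 r, ?_, ?_, e1, e2⟩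
  · intro r hr r' hr' hE
    rw [mem_coe, mem_union] at hr hr'
    change (if r ∈ R1 then κ1 r else κ2 r) = (if r' ∈ R1 then κ1 r' else κ2 r') at hE
    rcases hr with hr | hr <;> rcases hr' with hr' | hr'
    · rw [e1 r hr, e1 r' hr'] at hE
      exact i1 hr hr' hE
    · rw [e1 r hr, e2 r' hr'] at hE
      have h1 := (m1 r hr).1
      rw [hE] at h1
      exact absurd (m2 r' hr').1 (disjoint_left.1 hK h1)
    · rw [e2 r hr, e1 r' hr'] at hE
      have h1 := (m2 r hr).1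
      rw [hE] at h1
      exact absurd h1 (disjoint_left.1 hK (m1 r' hr').1)
    · rw [e2 r hr, e2 r' hr'] at hE
      exact i2 hr hr' hE
  · intro r hr
    change (if r ∈ R1 then κ1 r else κ2 r) ∈ K1 ∪ K2 ∧ s r (if r ∈ R1 then κ1 r else κ2 r) ≠ 0
    rcases mem_union.1 hr with hr | hr
    · rw [e1 r hr]
      exact ⟨mem_union_left _ (m1 r hr).1, (m1 r hr).2⟩
    · rw [e2 r hr]
      exact ⟨mem_union_right _ (m2 r hr).1, (m2 r hr).2⟩

/-- The perfect matching with one leg (to the entry `b i`) and one exit `a j`, `i ≤ j < i + k`: `κU` on `U + x + a j` (onto `V`), `κZ` on the rows of `Z`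
(onto `σ.T.U + y + b i`), `a l ↦ b (l+1)` for `i ≤ l < j`, `a l ↦ b l` for `j < l < i + k`, `σ.N` on the remaining rows. The row sets
`insert (a j) (insert x U)`, `σ.T.V`, the other `a l`, and the remaining rows with `σ.O` are disjoint and cover everything
(`f1_U`; the neighbours of `y` are `x` and the sources, which are in `σ.T.V`); the column sets `V`, `insert (b i) (insert y σ.T.U)`, the other `b l`,
and the rest are disjoint too (`f1_TU`). -/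
theorem St.pm1 (h : T2Ctx s x y) (σ : St s x y) {i j : ℤ} (hij : i ≤ j) (hj : j < i + σ.k) {κU κZ : A → B}
    (iU : Set.InjOn κU (insert (σ.a j) (insert x σ.U) : Finset A))
    (mU : ∀ r ∈ insert (σ.a j) (insert x σ.U), κU r ∈ σ.V ∧ s r (κU r) ≠ 0)
    (iZ : Set.InjOn κZ (σ.T.V : Finset A))
    (mZ : ∀ r ∈ σ.T.V, κZ r ∈ insert (σ.b i) (insert y σ.T.U) ∧ s r (κZ r) ≠ 0) :
    ∃ κ : A → B, Function.Injective κ ∧ (∀ r, s r (κ r) ≠ 0) ∧
      (∀ r ∈ insert (σ.a j) (insert x σ.U), κ r = κU r) ∧ (∀ r ∈ σ.T.V, κ r = κZ r) ∧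
      (∀ l, σ.a l ≠ σ.a j → κ (σ.a l) = σ.b l ∨ κ (σ.a l) = σ.b (l + 1)) ∧
      ∀ r, σ.O r → r ∉ σ.U → r ∉ σ.T.V → κ r = σ.N r := by
  classical
  have Ninj : ∀ {a a' : A}, σ.O a → σ.O a' → σ.N a = σ.N a' → a = a' := by
    intro a a' ha ha' hE
    rw [← (σ.N_O ha).2.2, ← (σ.N_O ha').2.2, hE]
  -- facts on rows
  have ZU : ∀ {a : A}, a ∈ σ.T.V → a ∉ insert (σ.a j) (insert x σ.U) ∧ ∀ l, σ.a l ≠ a := by
    intro a ha
    by_cases hs : a ∈ snk (tr s) y x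
    · have h1 := mem_snk.1 hs
      rw [tr_apply] at h1
      have h2 : ∀ l, σ.a l ≠ a := by
        intro l hl
        exact h1.2 (by rw [← hl]; exact σ.ay l)
      refine ⟨?_, h2⟩
      rw [mem_insert, mem_insert]
      rintro (h3 | h3 | h3)
      · exact h2 j h3.symm
      · exact h1.1 h3
      · exact σ.f1_U h ha h3
    · have h1 := (σ.TV_O ha hs).1
      refine ⟨?_, h1.2⟩
      rw [mem_insert, mem_insert]
      rintro (h3 | h3 | h3)
      · exact h1.2 j h3.symm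
      · exact h.xy (by rw [← h3]; exact h1.1)
      · exact σ.f1_U h ha h3
  have CU : ∀ {l : ℤ}, σ.a l ≠ σ.a j → σ.a l ∉ insert (σ.a j) (insert x σ.U) := by
    intro l hl
    rw [mem_insert, mem_insert]
    rintro (h3 | h3 | h3)
    · exact hl h3
    · exact σ.a_ne_x h l h3
    · exact σ.a_not_U l h3
  have CZ : ∀ {l : ℤ}, σ.a l ∉ σ.T.V := fun {l} hl => (ZU hl).2 l rfl
  have OU : ∀ {a : A}, σ.O a → a ∉ σ.U → a ∉ insert (σ.a j) (insert x σ.U) := by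
    intro a ha hU
    rw [mem_insert, mem_insert]
    rintro (h3 | h3 | h3)
    · exact ha.2 j h3.symm
    · exact h.xy (by rw [← h3]; exact ha.1)
    · exact hU h3
  have rest : ∀ {a : A}, a ∉ insert (σ.a j) (insert x σ.U) → a ∉ σ.T.V →
      (¬ ∃ l, i ≤ l ∧ l < i + σ.k ∧ σ.a l = a) → σ.O a ∧ a ∉ σ.U := by
    intro a h1 h2 h3
    rw [mem_insert, mem_insert, not_or, not_or] at h1
    refine ⟨⟨?_, ?_⟩, h1.2.2⟩
    · by_contra h4
      have h5 : a ∈ snk (tr s) y x := mem_snk.2 ⟨h1.2.1, by rw [tr_apply]; exact h4⟩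
      exact h2 (σ.T.mem_V.2 (Or.inr h5))
    · intro l hl
      obtain ⟨l', g1, g2, g3⟩ := σ.a_window i l
      exact h3 ⟨l', g1, g2, g3.trans hl⟩
  -- facts on columns
  have bY : ∀ l, σ.b l ≠ y := fun l hl => h.xy (by rw [← hl]; exact σ.bx l)
  have bTU : ∀ l, σ.b l ∉ σ.T.U := fun l hl =>
    (σ.TO_iff.1 (σ.T.mem_U.1 hl).1).2 l rfl
  have NV : ∀ {a : A}, σ.O a → a ∉ σ.U → σ.N a ∉ σ.V := by
    intro a ha hU hV
    rcases σ.mem_V.1 hV with ⟨r, hr, hE⟩ | h1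
    · exact hU (by rw [← Ninj (σ.mem_U.1 hr).1 ha hE]; exact hr)
    · exact (mem_snk.1 h1).2 (σ.TO_iff.1 (σ.N_O ha).1).1
  have NZ : ∀ {a : A}, σ.O a → a ∉ σ.T.V → σ.N a ∉ insert (σ.b i) (insert y σ.T.U) := by
    intro a ha hZ
    have h1 := σ.TO_iff.1 (σ.N_O ha).1
    rw [mem_insert, mem_insert]
    rintro (h3 | h3 | h3)
    · exact h1.2 i h3.symm
    · exact h.xy (by rw [← h3]; exact h1.1)
    · refine hZ (σ.T.mem_V.2 (Or.inl ⟨σ.N a, h3, ?_⟩))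
      exact (σ.N_O ha).2.2
  have ZV : ∀ {c : B}, c ∈ insert (σ.b i) (insert y σ.T.U) → c ∉ σ.V := by
    intro c hc
    rw [mem_insert, mem_insert] at hc
    rcases hc with h3 | h3 | h3
    · rw [h3]; exact σ.b_not_V i
    · rw [h3]; exact σ.y_not_V h
    · exact σ.f1_TU h h3
  have bZ : ∀ {m : ℤ}, i < m → m < i + σ.k → σ.b m ∉ insert (σ.b i) (insert y σ.T.U) := by
    intro m h1 h2
    rw [mem_insert, mem_insert]
    rintro (h3 | h3 | h3)
    · have := σ.ib i m (by omega) h2 h3.symm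
      omega
    · exact bY m h3
    · exact bTU m h3
  let κ : A → B := fun a => if a ∈ insert (σ.a j) (insert x σ.U) then κU a else if a ∈ σ.T.V then κZ a else
    if ha : ∃ l, i ≤ l ∧ l < i + σ.k ∧ σ.a l = a then (if ha.choose < j then σ.b (ha.choose + 1) else σ.b ha.choose)
    else σ.N a
  have k1 : ∀ a ∈ insert (σ.a j) (insert x σ.U), κ a = κU a := fun a ha => by
    simp only [κ, if_pos ha]
  have k2 : ∀ a ∈ σ.T.V, κ a = κZ a := fun a ha => by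
    simp only [κ, if_neg (ZU ha).1, if_pos ha]
  have k3 : ∀ {a : A}, a ∉ insert (σ.a j) (insert x σ.U) → a ∉ σ.T.V → (∃ l, i ≤ l ∧ l < i + σ.k ∧ σ.a l = a) →
      ∃ l m, i ≤ l ∧ l < i + σ.k ∧ σ.a l = a ∧ κ a = σ.b m ∧ ((l < j ∧ m = l + 1) ∨ (j < l ∧ m = l)) := by
    intro a h1 h2 h3
    obtain ⟨g1, g2, g3⟩ := h3.choose_spec
    have g4 : h3.choose ≠ j := by
      intro g5
      rw [g5] at g3
      exact h1 (mem_insert.2 (Or.inl g3.symm))
    by_cases g5 : h3.choose < j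
    · exact ⟨h3.choose, h3.choose + 1, g1, g2, g3, by simp only [κ, if_neg h1, if_neg h2, dif_pos h3, if_pos g5],
        Or.inl ⟨g5, rfl⟩⟩
    · exact ⟨h3.choose, h3.choose, g1, g2, g3, by simp only [κ, if_neg h1, if_neg h2, dif_pos h3, if_neg g5],
        Or.inr ⟨by omega, rfl⟩⟩
  have k4 : ∀ a, σ.O a → a ∉ σ.U → a ∉ σ.T.V → κ a = σ.N a := by
    intro a h1 h2 h3
    have h4 : ¬ ∃ l, i ≤ l ∧ l < i + σ.k ∧ σ.a l = a := by
      rintro ⟨l, _, _, g3⟩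
      exact h1.2 l g3
    simp only [κ, if_neg (OU h1 h2), if_neg h3, dif_neg h4]
  -- the four kinds of rows
  have kind : ∀ a, (a ∈ insert (σ.a j) (insert x σ.U) ∧ κ a = κU a) ∨ (a ∈ σ.T.V ∧ κ a = κZ a) ∨
      (∃ l m, i ≤ l ∧ l < i + σ.k ∧ σ.a l = a ∧ κ a = σ.b m ∧ ((l < j ∧ m = l + 1) ∨ (j < l ∧ m = l))) ∨
      (σ.O a ∧ a ∉ σ.U ∧ a ∉ σ.T.V ∧ κ a = σ.N a) := by
    intro a
    by_cases h1 : a ∈ insert (σ.a j) (insert x σ.U)
    · exact Or.inl ⟨h1, k1 a h1⟩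
    by_cases h2 : a ∈ σ.T.V
    · exact Or.inr (Or.inl ⟨h2, k2 a h2⟩)
    by_cases h3 : ∃ l, i ≤ l ∧ l < i + σ.k ∧ σ.a l = a
    · exact Or.inr (Or.inr (Or.inl (k3 h1 h2 h3)))
    · obtain ⟨h4, h5⟩ := rest h1 h2 h3
      exact Or.inr (Or.inr (Or.inr ⟨h4, h5, h2, k4 a h4 h5 h2⟩))
  refine ⟨κ, ?_, ?_, k1, k2, ?_, k4⟩
  · intro a a' hE
    rcases kind a with ⟨h1, h2⟩ | ⟨h1, h2⟩ | ⟨l, m, h1, h1', h1a, h2, h3⟩ | ⟨h1, h1', h1a, h2⟩ <;>
    rcases kind a' with ⟨g1, g2⟩ | ⟨g1, g2⟩ | ⟨l', m', g1, g1', g1a, g2, g3⟩ | ⟨g1, g1', g1a, g2⟩ <;>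
    rw [h2, g2] at hE
    · exact iU h1 g1 hE
    · exact absurd (mU a h1).1 (by rw [hE]; exact ZV (mZ a' g1).1)
    · exact absurd (mU a h1).1 (by rw [hE]; exact σ.b_not_V m')
    · exact absurd (mU a h1).1 (by rw [hE]; exact NV g1 g1')
    · exact absurd (mU a' g1).1 (by rw [← hE]; exact ZV (mZ a h1).1)
    · exact iZ h1 g1 hE
    · exact absurd (mZ a h1).1 (by rw [hE]; exact bZ (by omega) (by omega))
    · exact absurd (mZ a h1).1 (by rw [hE]; exact NZ g1 g1a)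
    · exact absurd (mU a' g1).1 (by rw [← hE]; exact σ.b_not_V m)
    · exact absurd (mZ a' g1).1 (by rw [← hE]; exact bZ (by omega) (by omega))
    · have hm : m = m' := by
        rcases le_total m m' with hle | hle
        · exact σ.ib m m' hle (by omega) hE
        · exact (σ.ib m' m hle (by omega) hE.symm).symm
      have hl : l = l' := by omega
      rw [← h1a, ← g1a, hl]
    · exact absurd hE ((σ.TO_iff.1 (σ.N_O g1).1).2 m)
    · exact absurd (mU a' g1).1 (by rw [← hE]; exact NV h1 h1')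
    · exact absurd (mZ a' g1).1 (by rw [← hE]; exact NZ h1 h1a)
    · exact absurd hE.symm ((σ.TO_iff.1 (σ.N_O h1).1).2 m')
    · exact Ninj h1 g1 hE
  · intro a
    rcases kind a with ⟨h1, h2⟩ | ⟨h1, h2⟩ | ⟨l, m, h1, h1', h1a, h2, h3⟩ | ⟨h1, h1', h1a, h2⟩
    · rw [h2]; exact (mU a h1).2
    · rw [h2]; exact (mZ a h1).2
    · rw [h2, ← h1a]
      rcases h3 with ⟨_, h3⟩ | ⟨_, h3⟩
      · rw [h3]; exact σ.s_ab' l
      · rw [h3]; exact σ.s_ab l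
    · rw [h2]; exact (σ.N_O h1).2.1
  · intro l hl
    obtain ⟨l1, n, g1, g2, g3⟩ := σ.window i l
    have ha : σ.a l = σ.a l1 := by rw [g3, σ.a_add]
    have hb : σ.b l = σ.b l1 := by rw [g3, σ.b_add]
    have hb' : σ.b (l + 1) = σ.b (l1 + 1) := by
      rw [g3, show l1 + n * σ.k + 1 = (l1 + 1) + n * σ.k by ring, σ.b_add]
    obtain ⟨l2, m, e1, e2, e3, e4, e5⟩ := k3 (CU hl) CZ ⟨l1, g1, g2, ha.symm⟩
    have hl2 : l2 = l1 := by
      rw [ha] at e3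
      rcases le_total l2 l1 with hle | hle
      · exact σ.ia l2 l1 hle (by omega) e3
      · exact (σ.ia l1 l2 hle (by omega) e3.symm).symm
    rw [e4, hb, hb']
    rcases e5 with ⟨_, e5⟩ | ⟨_, e5⟩
    · right; rw [e5, hl2]
    · left; rw [e5, hl2]

end MCC
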