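import Pool.Agent.Lib_MP_cb5629.T2Kz

set_option linter.unusedSectionVars false

namespace MCC

open Finset Relation

variable {A B : Type} [Fintype A] [Fintype B] [DecidableEq A] [DecidableEq B]
variable {s : A → B → ℤ} {x : A} {y : B}

/-- Piece T2PR. THE PAIR RULE. Cyclic order `b i, a j, b l, a m`.

Proof. Write `δ` for `del`, `γ` for `gam s ψ ω`. If `δ i = δ l` or `γ(a j) = γ(a m)` the claim is trivial; so `b i ≠ b l`. Suppose
`s x y * (δ i - δ l) * (γ(a j) - γ(a m)) < 0`. Let `z, κ` be as in `kz`, `α = ξ(b i) z(b i) > 0`, `β = - ξ(b l) z(b l) > 0`,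
`τ = - s x y * z y = s x y * (δ i - δ l) * κ` and `t = - τ (γ(a j) + γ(a m)) / 2`. Then `t + γ(a j) τ = τ (γ(a j) - γ(a m)) / 2 < 0` and `t + γ(a m) τ > 0`. Put
`ω' = t ψ + τ ω`: it lives on `V`, kills the rows `U`, `vl s x ω' = τ`, and `ρ(a j) vl s (a j) ω' = ρ(a j) vl s (a j) ψ * (t + γ(a j) τ) < 0`,
`ρ(a m) vl s (a m) ω' > 0` (`SV.pos`, `vl_lin`). Define `z'`: `z` on `insert y σ.T.U`; `- β ξ(c)` for `c = b n`, `j < n ≤ m`; `α ξ(c)` for `c = b n`, `m < n ≤ j + k`
(these two cases exclude each other and cover all `b n`; they agree with `z` at `b l` and `b i = b (i + k)`); `ω'` on `V`; `0` elsewhere. `spl_use` with the matching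
of `pm` (entry `b i`, exit `a j`): rows of `σ.T.V`: `X = insert (b i) (insert (b l) (insert y σ.T.U))`, zero sum. `U`: `X = V`, zero sum. `x`: `X = insert y V`,
`s x y * z y + τ = 0`. `a n`, `j < n < m` or `m < n < j + k`: `X = {b n, b (n+1)}` (plus `V`), `z'` is `ξ` times the same constant at both, so opposite signs by `e1, e2`.
`a j`: `b j` has `α`, `b (j+1)` has `-β`: `ρ s z' = α > 0` and `(-1)(-β) > 0`; and `ρ(a j) ∑_V < 0` gives a negative term. `a m`: `b m` has `-β`, `b (m+1)` has `α`: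
`-β < 0`, `-α < 0`, and `ρ(a m) ∑_V > 0` gives a positive term; `X = insert (b n) (insert (b (n+1)) V)`. The remaining rows: `X = {σ.N r}`, `z' = 0`. So `z' = 0`, a
contradiction at `b i`. -/
theorem St.pr (h : T2Ctx s x y) (σ : St s x y) {ψ ω : B → ℝ} (hψ : σ.SV ψ ω) {φ lam : A → ℝ} (hφ : σ.T.SV φ lam)
    {i j l m : ℤ} (hij : i ≤ j) (hjl : j < l) (hlm : l ≤ m) (hm : m < i + σ.k) (hi : σ.T.Ex (σ.b i))
    (hl : σ.T.Ex (σ.b l)) (hj : σ.Ex (σ.a j)) (hm' : σ.Ex (σ.a m)) :
    0 ≤ (s x y : ℝ) * (σ.del φ lam i - σ.del φ lam l) * (gam s ψ ω (σ.a j) - gam s ψ ω (σ.a m)) := by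
  classical
  by_contra hcon
  rw [not_le] at hcon
  have hne : σ.b i ≠ σ.b l := by
    intro he
    have h1 : σ.del φ lam i = σ.del φ lam l := by
      unfold St.del
      rw [he]
    rw [h1] at hcon
    simp at hcon
  obtain ⟨z, κ, hz0, hzV, hzi, hzl, hκ, hzy⟩ := σ.kz h hφ hi hl hne hj
  obtain ⟨μ, hμi, hμe, hμU, hμZ, hμC, hμO⟩ := σ.pm h hi hj
  have hsq : (s x y : ℝ) * (s x y : ℝ) = 1 := by
    rcases h.hc.val x y with h1 | h1 | h1
    · exact absurd h1 h.xy
    · rw [h1]; norm_num
    · rw [h1]; norm_num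
  have hξ : ∀ c, σ.ξ c * σ.ξ c = 1 := by
    intro c
    rcases σ.ξ1 c with h1 | h1
    · rw [h1]; norm_num
    · rw [h1]; norm_num
  have hρ : ∀ r, σ.ρ r * σ.ρ r = 1 := by
    intro c
    rcases σ.ρ1 c with h1 | h1
    · rw [h1]; norm_num
    · rw [h1]; norm_num
  have hs1 : ∀ n, (s (σ.a n) (σ.b n) : ℝ) * σ.ξ (σ.b n) = σ.ρ (σ.a n) := by
    intro n
    have h1 := σ.e1 n
    have h2 := hρ (σ.a n)
    calc (s (σ.a n) (σ.b n) : ℝ) * σ.ξ (σ.b n)
        = (σ.ρ (σ.a n) * σ.ρ (σ.a n)) * ((s (σ.a n) (σ.b n) : ℝ) * σ.ξ (σ.b n)) := by rw [h2, one_mul]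
      _ = σ.ρ (σ.a n) * (σ.ρ (σ.a n) * s (σ.a n) (σ.b n) * σ.ξ (σ.b n)) := by ring
      _ = σ.ρ (σ.a n) := by rw [h1, mul_one]
  have hs2 : ∀ n, (s (σ.a n) (σ.b (n + 1)) : ℝ) * σ.ξ (σ.b (n + 1)) = -σ.ρ (σ.a n) := by
    intro n
    have h1 := σ.e2 n
    have h2 := hρ (σ.a n)
    calc (s (σ.a n) (σ.b (n + 1)) : ℝ) * σ.ξ (σ.b (n + 1))
        = (σ.ρ (σ.a n) * σ.ρ (σ.a n)) * ((s (σ.a n) (σ.b (n + 1)) : ℝ) * σ.ξ (σ.b (n + 1))) := by
          rw [h2, one_mul]
      _ = σ.ρ (σ.a n) * (σ.ρ (σ.a n) * s (σ.a n) (σ.b (n + 1)) * σ.ξ (σ.b (n + 1))) := by ring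
      _ = -σ.ρ (σ.a n) := by rw [h1]; ring
  obtain ⟨α, hα⟩ : ∃ α : ℝ, α = σ.ξ (σ.b i) * z (σ.b i) := ⟨_, rfl⟩
  obtain ⟨β, hβ⟩ : ∃ β : ℝ, β = -(σ.ξ (σ.b l) * z (σ.b l)) := ⟨_, rfl⟩
  have hα0 : 0 < α := by rw [hα]; exact hzi
  have hβ0 : 0 < β := by rw [hβ]; linarith
  have hzbi : z (σ.b i) = α * σ.ξ (σ.b i) := by
    rw [hα]
    calc z (σ.b i) = (σ.ξ (σ.b i) * σ.ξ (σ.b i)) * z (σ.b i) := by rw [hξ, one_mul]
      _ = _ := by ring
  have hzbl : z (σ.b l) = -β * σ.ξ (σ.b l) := by
    rw [hβ]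
    calc z (σ.b l) = (σ.ξ (σ.b l) * σ.ξ (σ.b l)) * z (σ.b l) := by rw [hξ, one_mul]
      _ = _ := by ring
  obtain ⟨δi, hδi⟩ : ∃ d : ℝ, d = σ.del φ lam i := ⟨_, rfl⟩
  obtain ⟨δl, hδl⟩ : ∃ d : ℝ, d = σ.del φ lam l := ⟨_, rfl⟩
  obtain ⟨γj, hγj⟩ : ∃ d : ℝ, d = gam s ψ ω (σ.a j) := ⟨_, rfl⟩
  obtain ⟨γm, hγm⟩ : ∃ d : ℝ, d = gam s ψ ω (σ.a m) := ⟨_, rfl⟩
  rw [← hδi, ← hδl, ← hγj, ← hγm] at hcon
  rw [← hδi, ← hδl] at hzy
  obtain ⟨τ, hτ⟩ : ∃ τ : ℝ, τ = -((s x y : ℝ) * z y) := ⟨_, rfl⟩
  have hτ' : τ = (s x y : ℝ) * (δi - δl) * κ := by rw [hτ, hzy]; ring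
  have hτγ : τ * (γj - γm) < 0 := by
    have h1 : τ * (γj - γm) = κ * ((s x y : ℝ) * (δi - δl) * (γj - γm)) := by rw [hτ']; ring
    rw [h1]
    exact mul_neg_of_pos_of_neg hκ hcon
  obtain ⟨t, ht⟩ : ∃ t : ℝ, t = -(τ * (γj + γm)) / 2 := ⟨_, rfl⟩
  have htj : t + γj * τ < 0 := by
    have h1 : t + γj * τ = τ * (γj - γm) / 2 := by rw [ht]; ring
    rw [h1]
    linarith
  have htm : 0 < t + γm * τ := by
    have h1 : t + γm * τ = -(τ * (γj - γm)) / 2 := by rw [ht]; ring
    rw [h1]
    linarith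
  have hpj := hψ.pos j hj
  have hpm := hψ.pos m hm'
  have hvj : vl s (σ.a j) ω = γj * vl s (σ.a j) ψ := by
    rw [hγj]
    unfold gam
    rw [div_mul_cancel₀]
    intro h0
    rw [h0, mul_zero] at hpj
    exact lt_irrefl _ hpj
  have hvm : vl s (σ.a m) ω = γm * vl s (σ.a m) ψ := by
    rw [hγm]
    unfold gam
    rw [div_mul_cancel₀]
    intro h0
    rw [h0, mul_zero] at hpm
    exact lt_irrefl _ hpm
  obtain ⟨w, hw⟩ : ∃ w : B → ℝ, w = fun c => t * ψ c + τ * ω c := ⟨_, rfl⟩
  have hwl : ∀ r, vl s r w = t * vl s r ψ + τ * vl s r ω := by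
    intro r
    rw [hw]
    exact vl_lin s r t τ ψ ω
  have hwV : ∀ c, c ∉ σ.V → w c = 0 := by
    intro c hc
    rw [hw]
    simp only
    rw [hψ.z1 c hc, hψ.z2 c hc]
    ring
  have hwU : ∀ r ∈ σ.U, vl s r w = 0 := by
    intro r hr
    rw [hwl, hψ.u1 r hr, hψ.u2 r hr]
    ring
  have hwx : vl s x w = τ := by
    rw [hwl, hψ.x1, hψ.x2]
    ring
  have hwj : σ.ρ (σ.a j) * vl s (σ.a j) w < 0 := by
    have h1 : σ.ρ (σ.a j) * vl s (σ.a j) w = (σ.ρ (σ.a j) * vl s (σ.a j) ψ) * (t + γj * τ) := by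
      rw [hwl, hvj]
      ring
    rw [h1]
    exact mul_neg_of_pos_of_neg hpj htj
  have hwm : 0 < σ.ρ (σ.a m) * vl s (σ.a m) w := by
    have h1 : σ.ρ (σ.a m) * vl s (σ.a m) w = (σ.ρ (σ.a m) * vl s (σ.a m) ψ) * (t + γm * τ) := by
      rw [hwl, hvm]
      ring
    rw [h1]
    exact mul_pos hpm htm
  have hvlV : ∀ r, vl s r w = ∑ c ∈ σ.V, (s r c : ℝ) * w c := by
    intro r
    unfold vl
    symm
    refine Finset.sum_subset (Finset.subset_univ _) ?_
    intro c _ hc
    rw [hwV c hc, mul_zero]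
  -- disjointness
  have hbV : ∀ n, σ.b n ∉ σ.V := σ.b_not_V
  have hbU : ∀ n, σ.b n ∉ insert y σ.T.U := by
    intro n hn
    rw [mem_insert] at hn
    rcases hn with hn | hn
    · have h1 := σ.T.a_ne_x h.tr (-n)
      apply h1
      show σ.b (- -n) = y
      rw [neg_neg]
      exact hn
    · have h1 := σ.T.a_not_U (-n)
      apply h1
      show σ.b (- -n) ∈ σ.T.U
      rw [neg_neg]
      exact hn
  have hUV : ∀ c, c ∈ σ.V → c ∉ insert y σ.T.U := by
    intro c hc hc'
    rw [mem_insert] at hc'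
    rcases hc' with hc' | hc'
    · exact σ.y_not_V h (hc' ▸ hc)
    · exact σ.f1_TU h hc' hc
  obtain ⟨z', hz'⟩ : ∃ z' : B → ℝ, z' = fun c => if c ∈ insert y σ.T.U then z c else
      if c ∈ σ.V then w c else
      if ∃ n, j < n ∧ n ≤ m ∧ σ.b n = c then -β * σ.ξ c else
      if ∃ n, m < n ∧ n ≤ j + σ.k ∧ σ.b n = c then α * σ.ξ c else 0 := ⟨_, rfl⟩
  have hz'U : ∀ c ∈ insert y σ.T.U, z' c = z c := by
    intro c hc
    rw [hz']
    simp only
    rw [if_pos hc]
  have hz'V : ∀ c ∈ σ.V, z' c = w c := by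
    intro c hc
    rw [hz']
    simp only
    rw [if_neg (hUV c hc), if_pos hc]
  have hz'1 : ∀ n, j < n → n ≤ m → z' (σ.b n) = -β * σ.ξ (σ.b n) := by
    intro n h1 h2
    rw [hz']
    simp only
    rw [if_neg (hbU n), if_neg (hbV n), if_pos ⟨n, h1, h2, rfl⟩]
  have hz'2 : ∀ n, m < n → n ≤ j + σ.k → z' (σ.b n) = α * σ.ξ (σ.b n) := by
    intro n h1 h2
    rw [hz']
    simp only
    rw [if_neg (hbU n), if_neg (hbV n), if_neg, if_pos ⟨n, h1, h2, rfl⟩]
    rintro ⟨n', h3, h4, h5⟩
    have h6 := σ.ib n' n (by omega) (by omega) h5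
    omega
  have hz'0 : ∀ c, c ∉ insert y σ.T.U → c ∉ σ.V → (∀ n, σ.b n ≠ c) → z' c = 0 := by
    intro c h1 h2 h3
    rw [hz']
    simp only
    rw [if_neg h1, if_neg h2, if_neg, if_neg]
    · rintro ⟨n, -, -, h4⟩
      exact h3 n h4
    · rintro ⟨n, -, -, h4⟩
      exact h3 n h4
  have hz'i : z' (σ.b i) = z (σ.b i) := by
    have h1 := hz'2 (i + σ.k) (by omega) (by omega)
    rw [σ.pb] at h1
    rw [h1, hzbi]
  have hz'l : z' (σ.b l) = z (σ.b l) := by
    rw [hz'1 l hjl hlm, hzbl]
  have hz'j : z' (σ.b j) = α * σ.ξ (σ.b j) := by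
    have h1 := hz'2 (j + σ.k) (by omega) (by omega)
    rw [σ.pb] at h1
    exact h1
  -- the rows
  have key : ∀ r, ∃ X : Finset B, μ r ∈ X ∧ BalOn s z' r X := by
    intro r
    by_cases hrV : r ∈ σ.T.V
    · refine ⟨insert (σ.b i) (insert (σ.b l) (insert y σ.T.U)), ?_, ?_⟩
      · have h1 := hμZ r hrV
        rw [mem_insert] at h1
        rcases h1 with h1 | h1
        · rw [h1]
          exact mem_insert_self _ _
        · exact mem_insert_of_mem (mem_insert_of_mem h1)
      · have hag : ∀ c ∈ insert (σ.b i) (insert (σ.b l) (insert y σ.T.U)), z' c = z c := by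
          intro c hc
          rw [mem_insert, mem_insert] at hc
          rcases hc with hc | hc | hc
          · rw [hc, hz'i]
          · rw [hc, hz'l]
          · exact hz'U c hc
        apply balOn_of_sum
        have h1 : vl s r z = ∑ c ∈ insert (σ.b i) (insert (σ.b l) (insert y σ.T.U)), (s r c : ℝ) * z c := by
          unfold vl
          symm
          refine Finset.sum_subset (Finset.subset_univ _) ?_
          intro c _ hc
          rw [hz0 c hc, mul_zero]
        rw [← hzV r hrV, h1]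
        refine Finset.sum_congr rfl ?_
        intro c hc
        rw [hag c hc]
    · by_cases hrU : r ∈ σ.U
      · refine ⟨σ.V, hμU r (mem_insert_of_mem (mem_insert_of_mem hrU)), ?_⟩
        apply balOn_of_sum
        rw [← hwU r hrU, hvlV]
        refine Finset.sum_congr rfl ?_
        intro c hc
        rw [hz'V c hc]
      · by_cases hrx : r = x
        · refine ⟨insert y σ.V, ?_, ?_⟩
          · rw [hrx]
            exact mem_insert_of_mem (hμU x (mem_insert_of_mem (mem_insert_self _ _)))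
          · apply balOn_of_sum
            rw [Finset.sum_insert (σ.y_not_V h), hrx, hz'U y (mem_insert_self _ _)]
            have h1 : ∑ c ∈ σ.V, (s x c : ℝ) * z' c = vl s x w := by
              rw [hvlV]
              refine Finset.sum_congr rfl ?_
              intro c hc
              rw [hz'V c hc]
            rw [h1, hwx, hτ]
            ring
        · by_cases hrC : ∃ n, σ.a n = r
          · obtain ⟨n0, hn0⟩ := hrC
            obtain ⟨n, hn1, hn2, hn3⟩ := σ.a_window j n0
            have hrn : σ.a n = r := hn3.trans hn0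
            refine ⟨insert (σ.b n) (insert (σ.b (n + 1)) σ.V), ?_, ?_⟩
            · rcases eq_or_ne n j with hnj | hnj
              · have h1 := hμU (σ.a j) (mem_insert_self _ _)
                rw [← hrn, hnj]
                exact mem_insert_of_mem (mem_insert_of_mem h1)
              · have hna : σ.a n ≠ σ.a j := by
                  intro h1
                  exact hnj (σ.ia j n hn1 hn2 h1.symm).symm
                rcases hμC n hna with h1 | h1
                · rw [← hrn, h1]
                  exact mem_insert_self _ _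
                · rw [← hrn, h1]
                  exact mem_insert_of_mem (mem_insert_self _ _)
            · have hm1 : σ.b n ∈ insert (σ.b n) (insert (σ.b (n + 1)) σ.V) := mem_insert_self _ _
              have hm2 : σ.b (n + 1) ∈ insert (σ.b n) (insert (σ.b (n + 1)) σ.V) :=
                mem_insert_of_mem (mem_insert_self _ _)
              have hm3 : ∀ c ∈ σ.V, c ∈ insert (σ.b n) (insert (σ.b (n + 1)) σ.V) :=
                fun c hc => mem_insert_of_mem (mem_insert_of_mem hc)
              right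
              rw [← hrn]
              have hval : ∀ (c : B) (q : ℝ), z' c = q * σ.ξ c →
                  (s (σ.a n) c : ℝ) * z' c = q * ((s (σ.a n) c : ℝ) * σ.ξ c) := by
                intro c q hq
                rw [hq]
                ring
              rcases eq_or_ne n j with hnj | hnj
              · -- the row `a j`
                have v1 : (s (σ.a n) (σ.b n) : ℝ) * z' (σ.b n) = α * σ.ρ (σ.a n) := by
                  rw [hval _ α (by rw [hnj]; exact hz'j), hs1]
                obtain ⟨c, hc, hcn⟩ : ∃ c ∈ σ.V, σ.ρ (σ.a n) * ((s (σ.a n) c : ℝ) * w c) < 0 := by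
                  by_contra hno
                  push Not at hno
                  have h1 : 0 ≤ ∑ c ∈ σ.V, σ.ρ (σ.a n) * ((s (σ.a n) c : ℝ) * w c) :=
                    Finset.sum_nonneg hno
                  rw [← Finset.mul_sum, ← hvlV, hnj] at h1
                  exact absurd hwj (not_lt.2 h1)
                have v3 : z' c = w c := hz'V c hc
                rcases σ.ρ1 (σ.a n) with hr1 | hr1
                · refine ⟨⟨σ.b n, hm1, ?_⟩, ⟨c, hm3 c hc, ?_⟩⟩
                  · rw [v1, hr1]; linarith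
                  · rw [v3]; rw [hr1] at hcn; linarith
                · refine ⟨⟨c, hm3 c hc, ?_⟩, ⟨σ.b n, hm1, ?_⟩⟩
                  · rw [v3]; rw [hr1] at hcn; linarith
                  · rw [v1, hr1]; linarith
              · rcases eq_or_ne n m with hnm | hnm
                · -- the row `a m`
                  have v1 : (s (σ.a n) (σ.b n) : ℝ) * z' (σ.b n) = -β * σ.ρ (σ.a n) := by
                    rw [hval _ (-β) (hz'1 n (by omega) (by omega)), hs1]
                  obtain ⟨c, hc, hcn⟩ : ∃ c ∈ σ.V, 0 < σ.ρ (σ.a n) * ((s (σ.a n) c : ℝ) * w c) := by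
                    by_contra hno
                    push Not at hno
                    have h1 : ∑ c ∈ σ.V, σ.ρ (σ.a n) * ((s (σ.a n) c : ℝ) * w c) ≤ 0 :=
                      Finset.sum_nonpos hno
                    rw [← Finset.mul_sum, ← hvlV, hnm] at h1
                    exact absurd hwm (not_lt.2 h1)
                  have v3 : z' c = w c := hz'V c hc
                  rcases σ.ρ1 (σ.a n) with hr1 | hr1
                  · refine ⟨⟨c, hm3 c hc, ?_⟩, ⟨σ.b n, hm1, ?_⟩⟩
                    · rw [v3]; rw [hr1] at hcn; linarith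
                    · rw [v1, hr1]; linarith
                  · refine ⟨⟨σ.b n, hm1, ?_⟩, ⟨c, hm3 c hc, ?_⟩⟩
                    · rw [v1, hr1]; linarith
                    · rw [v3]; rw [hr1] at hcn; linarith
                · rcases lt_or_ge n m with hlt | hge
                  · -- `j < n < m`
                    have v1 : (s (σ.a n) (σ.b n) : ℝ) * z' (σ.b n) = -β * σ.ρ (σ.a n) := by
                      rw [hval _ (-β) (hz'1 n (by omega) (by omega)), hs1]
                    have v2 : (s (σ.a n) (σ.b (n + 1)) : ℝ) * z' (σ.b (n + 1)) =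
                        β * σ.ρ (σ.a n) := by
                      rw [hval _ (-β) (hz'1 (n + 1) (by omega) (by omega)), hs2]
                      ring
                    rcases σ.ρ1 (σ.a n) with hr1 | hr1
                    · refine ⟨⟨_, hm2, ?_⟩, ⟨_, hm1, ?_⟩⟩
                      · rw [v2, hr1]; linarith
                      · rw [v1, hr1]; linarith
                    · refine ⟨⟨_, hm1, ?_⟩, ⟨_, hm2, ?_⟩⟩
                      · rw [v1, hr1]; linarith
                      · rw [v2, hr1]; linarith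
                  · -- `m < n < j + k`
                    have v1 : (s (σ.a n) (σ.b n) : ℝ) * z' (σ.b n) = α * σ.ρ (σ.a n) := by
                      rw [hval _ α (hz'2 n (by omega) (by omega)), hs1]
                    have v2 : (s (σ.a n) (σ.b (n + 1)) : ℝ) * z' (σ.b (n + 1)) =
                        -(α * σ.ρ (σ.a n)) := by
                      rw [hval _ α (hz'2 (n + 1) (by omega) (by omega)), hs2]
                      ring
                    rcases σ.ρ1 (σ.a n) with hr1 | hr1
                    · refine ⟨⟨_, hm1, ?_⟩, ⟨_, hm2, ?_⟩⟩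
                      · rw [v1, hr1]; linarith
                      · rw [v2, hr1]; linarith
                    · refine ⟨⟨_, hm2, ?_⟩, ⟨_, hm1, ?_⟩⟩
                      · rw [v2, hr1]; linarith
                      · rw [v1, hr1]; linarith
          · -- the remaining rows
            have hry : s r y = 0 := by
              by_contra h1
              apply hrV
              rw [σ.T.mem_V]
              right
              rw [mem_snk]
              exact ⟨hrx, h1⟩
            have hO : σ.O r := ⟨hry, fun n hn => hrC ⟨n, hn⟩⟩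
            have hN := hμO r hO hrU hrV
            obtain ⟨hTO, hsN, hMN⟩ := σ.N_O hO
            rw [σ.TO_iff] at hTO
            refine ⟨{μ r}, mem_singleton_self _, ?_⟩
            apply balOn_single
            rw [hN]
            refine hz'0 _ ?_ ?_ hTO.2
            · rw [mem_insert]
              rintro (h1 | h1)
              · rw [h1] at hTO
                exact h.xy hTO.1
              · apply hrV
                rw [σ.T.mem_V]
                left
                exact ⟨_, h1, hMN⟩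
            · intro h1
              rw [σ.mem_V] at h1
              rcases h1 with ⟨r', hr', h2⟩ | h1
              · have h3 := (σ.N_O (σ.mem_U.1 hr').1).2.2
                rw [h2, hMN] at h3
                exact hrU (h3 ▸ hr')
              · exact (mem_snk.1 h1).2 hTO.1
  choose X hX1 hX2 using key
  have hz'z := spl_use h hμi hμe X hX1 z' hX2
  have h1 := congrFun hz'z (σ.b i)
  rw [hz'i] at h1
  rw [h1] at hzi
  simp at hzi

end MCC
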