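import Pool.Agent.Lib_MP_cb5629.T2Defs
import Mathlib.GroupTheory.Perm.Cycle.Factors

set_option linter.unusedSectionVars false

namespace MCC

open Finset Relation

variable {A B : Type} [Fintype A] [Fintype B] [DecidableEq A] [DecidableEq B]

private def T2Start_P (p : Equiv.Perm A) : Prop :=
  ∀ (f : A → ℤ) (_ : ∀ a, f a = 1 ∨ f a = -1) (_ : ∀ a, p a = a → f a = 1)
    (_ : (Equiv.Perm.sign p : ℤ) * ∏ a, f a = -1),
    ∃ (a0 : A) (k : ℕ), 0 < k ∧ (p ^ k) a0 = a0 ∧ (∀ i j, i < k → j < k → (p ^ i) a0 = (p ^ j) a0 → i = j) ∧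
      (-1 : ℤ) ^ k * ∏ i ∈ Finset.range k, f ((p ^ i) a0) = 1

private theorem T2Start_notfix (p : Equiv.Perm A) (f : A → ℤ) (h1 : ∀ a, p a = a → f a = 1) {a0 : A} {k : ℕ}
    (hk : 0 < k) (hi : ∀ i j, i < k → j < k → (p ^ i) a0 = (p ^ j) a0 → i = j)
    (hp : (-1 : ℤ) ^ k * ∏ i ∈ Finset.range k, f ((p ^ i) a0) = 1) : p a0 ≠ a0 := by
  intro h
  have hk1 : k = 1 := by
    by_contra hne
    have := hi 0 1 (by omega) (by omega) (by simpa using h.symm)
    omega
  subst hk1
  simp [h1 a0 h] at hp

private theorem T2Start_lift (p q : Equiv.Perm A) (f g : A → ℤ)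
    (hq : ∀ a, p a ≠ a → q a = p a) (hg : ∀ a, p a ≠ a → g a = f a)
    (h1 : ∀ a, p a = a → f a = 1)
    (h : ∃ (a0 : A) (k : ℕ), 0 < k ∧ (p ^ k) a0 = a0 ∧
      (∀ i j, i < k → j < k → (p ^ i) a0 = (p ^ j) a0 → i = j) ∧
      (-1 : ℤ) ^ k * ∏ i ∈ Finset.range k, f ((p ^ i) a0) = 1) :
    ∃ (a0 : A) (k : ℕ), 0 < k ∧ (q ^ k) a0 = a0 ∧
      (∀ i j, i < k → j < k → (q ^ i) a0 = (q ^ j) a0 → i = j) ∧
      (-1 : ℤ) ^ k * ∏ i ∈ Finset.range k, g ((q ^ i) a0) = 1 := by
  obtain ⟨a0, k, hk, hpk, hi, hp⟩ := h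
  have hne := T2Start_notfix p f h1 hk hi hp
  have hnei : ∀ i : ℕ, p ((p ^ i) a0) ≠ (p ^ i) a0 := by
    intro i h
    apply hne
    have : (p ^ i) (p a0) = (p ^ i) a0 := by
      rw [← Equiv.Perm.mul_apply, ← pow_succ, pow_succ', Equiv.Perm.mul_apply, h]
    exact (p ^ i).injective this
  have hqp : ∀ i : ℕ, (q ^ i) a0 = (p ^ i) a0 := by
    intro i
    induction i with
    | zero => rfl
    | succ n ih =>
      rw [pow_succ', pow_succ', Equiv.Perm.mul_apply, Equiv.Perm.mul_apply, ih, hq _ (hnei n)]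
  refine ⟨a0, k, hk, by rw [hqp, hpk], ?_, ?_⟩
  · intro i j h2 h3 h4
    rw [hqp, hqp] at h4
    exact hi i j h2 h3 h4
  · have hpr : ∏ i ∈ Finset.range k, g ((q ^ i) a0) = ∏ i ∈ Finset.range k, f ((p ^ i) a0) :=
      Finset.prod_congr rfl fun i _ => by rw [hqp, hg _ (hnei i)]
    rw [hpr]
    exact hp

/-- A permutation `p` and signs `f` (with `f = 1` on the fixed points) such that `sign p * ∏ f = -1` have a cycle on which `(-1)^k * ∏ f = 1`, `k` the length. Proof: `sign p` is the product of
`sign c = (-1)^(|supp c| - 1)` over the cycle factors `c` of `p`, `∏ f` is the product over `c` of the products over `supp c`; so for some factor `(-1)^(k-1) * ∏ f = -1`. (Or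
`Equiv.Perm.cycle_induction_on`.) -/
theorem bad_orbit (p : Equiv.Perm A) (f : A → ℤ) (hf : ∀ a, f a = 1 ∨ f a = -1) (h1 : ∀ a, p a = a → f a = 1)
    (h : (Equiv.Perm.sign p : ℤ) * ∏ a, f a = -1) :
    ∃ (a0 : A) (k : ℕ), 0 < k ∧ (p ^ k) a0 = a0 ∧ (∀ i j, i < k → j < k → (p ^ i) a0 = (p ^ j) a0 → i = j) ∧
      (-1 : ℤ) ^ k * ∏ i ∈ Finset.range k, f ((p ^ i) a0) = 1 := by
  have key : T2Start_P p := by
    refine Equiv.Perm.cycle_induction_on T2Start_P p ?_ ?_ ?_
    · intro f hf h1 h
      have : ∏ a, f a = 1 := Finset.prod_eq_one fun a _ => h1 a rfl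
      rw [this] at h
      simp at h
    · intro σ hσ f hf h1 h
      obtain ⟨a0, ha0, hc⟩ := hσ
      have hσ' : σ.IsCycle := ⟨a0, ha0, hc⟩
      have hord : orderOf σ = σ.support.card := hσ'.orderOf
      have hinj : ∀ i j, i < orderOf σ → j < orderOf σ → (σ ^ i) a0 = (σ ^ j) a0 → i = j := by
        intro i j h2 h3 h4
        have h5 : σ ^ i = σ ^ j := by
          rw [hσ'.pow_eq_pow_iff]
          exact ⟨a0, ha0, h4⟩
        exact pow_injOn_Iio_orderOf h2 h3 h5
      refine ⟨a0, orderOf σ, orderOf_pos σ, by rw [pow_orderOf_eq_one]; rfl, hinj, ?_⟩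
      have hprod : ∏ i ∈ Finset.range (orderOf σ), f ((σ ^ i) a0) = ∏ a, f a := by
        have e1 : ∏ i ∈ Finset.range (orderOf σ), f ((σ ^ i) a0) =
            ∏ a ∈ (Finset.range (orderOf σ)).image (fun i => (σ ^ i) a0), f a := by
          rw [Finset.prod_image]
          intro i h2 j h3 h4
          exact hinj i j (by simpa using h2) (by simpa using h3) h4
        rw [e1]
        apply Finset.prod_subset (Finset.subset_univ _)
        intro a _ ha
        apply h1
        by_contra hne
        apply ha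
        obtain ⟨i, hi, hi2⟩ := (hc hne).exists_pow_eq'
        exact Finset.mem_image.2 ⟨i, Finset.mem_range.2 hi, hi2⟩
      rw [hprod]
      rw [hσ'.sign] at h
      rw [hord]
      push_cast at h
      linarith
    · intro σ τ hd hσ ihσ ihτ f hf h1 h
      set f1 : A → ℤ := fun a => if σ a = a then 1 else f a with hf1
      set f2 : A → ℤ := fun a => if τ a = a then 1 else f a with hf2
      have hfix : ∀ a, σ a = a ∨ τ a = a := hd
      have hprod : ∏ a, f a = (∏ a, f1 a) * ∏ a, f2 a := by
        rw [← Finset.prod_mul_distrib]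
        refine Finset.prod_congr rfl fun a _ => ?_
        simp only [hf1, hf2]
        rcases hfix a with h2 | h2 <;> by_cases h3 : σ a = a <;> by_cases h4 : τ a = a <;>
          simp [h3, h4] <;> first | (exact absurd h2 h3) | (exact absurd h2 h4) | skip
        · apply h1; rw [Equiv.Perm.mul_apply, h4, h3]
        · apply h1; rw [Equiv.Perm.mul_apply, h4, h3]
      have hone : ∀ (S : Finset A) (g : A → ℤ), (∀ a, g a = 1 ∨ g a = -1) → ∏ a ∈ S, g a = 1 ∨ ∏ a ∈ S, g a = -1 := by
        intro S g hg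
        induction S using Finset.induction_on with
        | empty => left; simp
        | insert a S ha ih =>
          rw [Finset.prod_insert ha]
          rcases hg a with h2 | h2 <;> rcases ih with h3 | h3 <;> rw [h2, h3] <;> simp
      have hv1 : ∀ a, f1 a = 1 ∨ f1 a = -1 := by
        intro a; simp only [hf1]; split_ifs
        · left; rfl
        · exact hf a
      have hv2 : ∀ a, f2 a = 1 ∨ f2 a = -1 := by
        intro a; simp only [hf2]; split_ifs
        · left; rfl
        · exact hf a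
      have hs : ∀ p : Equiv.Perm A, (Equiv.Perm.sign p : ℤ) = 1 ∨ (Equiv.Perm.sign p : ℤ) = -1 := by
        intro p
        rcases Int.units_eq_one_or (Equiv.Perm.sign p) with h2 | h2 <;> rw [h2] <;> simp
      rw [hprod, Equiv.Perm.sign_mul] at h
      push_cast at h
      have hor : (Equiv.Perm.sign σ : ℤ) * ∏ a, f1 a = -1 ∨ (Equiv.Perm.sign τ : ℤ) * ∏ a, f2 a = -1 := by
        rcases hs σ with h2 | h2 <;> rcases hs τ with h3 | h3 <;> rcases hone univ f1 hv1 with h4 | h4 <;>
          rcases hone univ f2 hv2 with h5 | h5 <;> rw [h2, h3, h4, h5] at h <;> rw [h2, h3, h4, h5] <;> simp at h ⊢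
      rcases hor with h2 | h2
      · refine T2Start_lift σ (σ * τ) f1 f ?_ ?_ ?_ (ihσ f1 hv1 ?_ h2)
        · intro a ha
          rw [Equiv.Perm.mul_apply, (hfix a).resolve_left ha]
        · intro a ha
          simp [hf1, ha]
        · intro a ha
          simp [hf1, ha]
        · intro a ha
          simp [hf1, ha]
      · refine T2Start_lift τ (σ * τ) f2 f ?_ ?_ ?_ (ihτ f2 hv2 ?_ h2)
        · intro a ha
          rw [hd.commute.eq, Equiv.Perm.mul_apply, (hfix a).resolve_right ha]
        · intro a ha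
          simp [hf2, ha]
        · intro a ha
          simp [hf2, ha]
        · intro a ha
          simp [hf2, ha]
  exact key f hf h1 h

/-- Piece T2START. A type II edge gives a state. Proof. Let `σ, τ` be the two bijections of `TypeII`, `p = σ.trans τ.symm` (`τ (p a) = σ a`), `f a = 1` for `a ∈ nbB s y` and
`f a = s a (σ a) * s a (τ a)` otherwise (`= 1` if `p a = a`). `bad_orbit` gives `a0, k`. Put `a i = (p ^ i) a0` (`i : ℤ`, `zpow`), `b i = τ (a i)`, so `b (i + 1) = σ (a i)`; `N = τ`, `M = τ.symm`.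
No `a i` is in `nbB s y` (`p` is the identity on it and on such a row `k = 1`, `f = 1`, contradiction; so `a0` is not fixed and its orbit misses the fixed points); `σ, τ` map `nbB s y` bijectively onto
`nbA s x` (both have three elements), so `s x (b i) = 0`. Signs: `ξ (b i) = (-1)^i * ∏_{j < i} f (a j)` for `0 ≤ i < k`, `ξ = 1` elsewhere, `ρ (a i) = s (a i) (b i) * ξ (b i)`, `ρ = 1` elsewhere;
`e2` at `i = k - 1` is the sign condition of `bad_orbit`. -/
theorem start {s : A → B → ℤ} (hc : Cubic s) {x : A} {y : B} (h2 : TypeII s x y) : Nonempty (St s x y) := by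
  classical
  obtain ⟨hxy, σ, τ, hN, hE, hrel⟩ := h2
  set p : Equiv.Perm A := σ.trans τ.symm with hp
  have hτp : ∀ a, τ (p a) = σ a := by intro a; simp [hp]
  set f : A → ℤ := fun a => if a ∈ nbB s y then 1 else s a (σ a) * s a (τ a) with hf
  have hval : ∀ a b, s a b ≠ 0 → s a b = 1 ∨ s a b = -1 := by
    intro a b h
    rcases hc.val a b with h1 | h1 | h1
    · exact absurd h1 h
    · exact Or.inl h1
    · exact Or.inr h1
  have hsq : ∀ a b, s a b ≠ 0 → s a b * s a b = 1 := by
    intro a b h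
    rcases hval a b h with h1 | h1 <;> rw [h1] <;> norm_num
  have hfv : ∀ a, f a = 1 ∨ f a = -1 := by
    intro a
    simp only [hf]
    split_ifs with h
    · left; rfl
    · rcases hval _ _ (hE a h).1 with h1 | h1 <;> rcases hval _ _ (hE a h).2 with h2 | h2 <;> rw [h1, h2] <;> simp
  have hf1 : ∀ a, p a = a → f a = 1 := by
    intro a ha
    simp only [hf]
    split_ifs with h
    · rfl
    · have h3 : σ a = τ a := by rw [← hτp, ha]
      rw [h3]
      exact hsq _ _ (hE a h).2
  have hrel' : (Equiv.Perm.sign p : ℤ) * ∏ a, f a = -1 := by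
    rw [relSign] at hrel
    rw [← hrel]
    congr 1
    rw [← Finset.prod_subset (Finset.subset_univ (univ \ nbB s y))]
    · refine Finset.prod_congr rfl fun a ha => ?_
      have : a ∉ nbB s y := (Finset.mem_sdiff.1 ha).2
      simp only [hf, this, if_false]
    · intro a _ ha
      have : a ∈ nbB s y := by
        by_contra h
        exact ha (Finset.mem_sdiff.2 ⟨Finset.mem_univ _, h⟩)
      simp only [hf, this, if_true]
  obtain ⟨a0, k, hk, hpk, hinj, hbad⟩ := bad_orbit p f hfv hf1 hrel'
  have hne := T2Start_notfix p f hf1 hk hinj hbad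
  -- nbB and nbA
  have hmemA : ∀ c, c ∈ nbA s x ↔ s x c ≠ 0 := by intro c; simp [nbA]
  have hmemB : ∀ r, r ∈ nbB s y ↔ s r y ≠ 0 := by intro r; simp [nbB]
  have himg : (nbB s y).image τ = nbA s x := by
    apply Finset.eq_of_subset_of_card_le
    · intro c hc'
      obtain ⟨r, hr, rfl⟩ := Finset.mem_image.1 hc'
      rw [(hN r hr).1]
      exact (hN r hr).2
    · rw [Finset.card_image_of_injective _ τ.injective, hc.row, hc.col]
  have hiff : ∀ r, s x (τ r) = 0 ↔ s r y = 0 := by
    intro r
    have h3 : τ r ∈ nbA s x ↔ r ∈ nbB s y := by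
      rw [← himg, Finset.mem_image]
      constructor
      · rintro ⟨r', hr', h4⟩
        rwa [← τ.injective h4]
      · intro hr
        exact ⟨r, hr, rfl⟩
    rw [hmemA, hmemB] at h3
    exact not_iff_not.1 h3
  have hfixB : ∀ r, r ∈ nbB s y → p r = r := by
    intro r hr
    apply τ.injective
    rw [hτp, (hN r hr).1]
  set a : ℤ → A := fun i => (p ^ i) a0 with ha
  have ha1 : ∀ i, a (i + 1) = p (a i) := by
    intro i
    simp only [ha]
    rw [add_comm, zpow_add, zpow_one, Equiv.Perm.mul_apply]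
  have haper : ∀ i, a (i + k) = a i := by
    intro i
    simp only [ha]
    rw [zpow_add, Equiv.Perm.mul_apply, zpow_natCast, hpk]
  have haB : ∀ i, a i ∉ nbB s y := by
    intro i h
    have h3 := hfixB _ h
    apply hne
    simp only [ha] at h3
    have : (p ^ i) (p a0) = (p ^ i) a0 := by
      rw [← Equiv.Perm.mul_apply, ← zpow_add_one, add_comm, zpow_add, zpow_one, Equiv.Perm.mul_apply, h3]
    exact (p ^ i).injective this
  have hay : ∀ i, s (a i) y = 0 := by
    intro i
    by_contra h
    exact haB i ((hmemB _).2 h)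
  have hainj : ∀ i j : ℤ, i ≤ j → j < i + k → a i = a j → i = j := by
    intro i j h3 h4 h5
    obtain ⟨n, hn⟩ := Int.eq_ofNat_of_zero_le (sub_nonneg.2 h3)
    have hj : j = i + n := by omega
    subst hj
    have h6 : (p ^ n) a0 = (p ^ 0) a0 := by
      simp only [ha] at h5
      rw [zpow_add, Equiv.Perm.mul_apply, zpow_natCast] at h5
      exact ((p ^ i).injective h5).symm
    have := hinj n 0 (by omega) (by omega) h6
    omega
  set F : ℕ → ℤ := fun i => (-1) ^ i * ∏ j ∈ Finset.range i, f (a j) with hF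
  have hF0 : F 0 = 1 := by simp [hF]
  have hFk : F k = 1 := by
    simp only [hF, ha]
    simpa using hbad
  have hFs : ∀ i, F (i + 1) = - F i * f (a i) := by
    intro i
    simp only [hF]
    rw [Finset.prod_range_succ, pow_succ]
    ring
  have hFv : ∀ i, F i = 1 ∨ F i = -1 := by
    intro i
    induction i with
    | zero => left; exact hF0
    | succ n ih =>
      rw [hFs]
      rcases ih with h3 | h3 <;> rcases hfv (a n) with h4 | h4 <;> rw [h3, h4] <;> simp
  -- the sign vectors
  let ξ : B → ℝ := fun c => if h : ∃ i : ℕ, i < k ∧ τ (a i) = c then (F (Classical.choose h) : ℝ) else 1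
  have hξ : ∀ i : ℕ, i < k → ξ (τ (a i)) = F i := by
    intro i hi
    have hex : ∃ i' : ℕ, i' < k ∧ τ (a i') = τ (a i) := ⟨i, hi, rfl⟩
    have h3 : ξ (τ (a i)) = (F (Classical.choose hex) : ℝ) := by
      simp only [ξ]
      rw [dif_pos hex]
    rw [h3]
    have h4 := Classical.choose_spec hex
    have h5 : a (Classical.choose hex : ℕ) = a i := τ.injective h4.2
    have h6 : Classical.choose hex = i := by
      rcases le_total (Classical.choose hex) i with h7 | h7
      · have := hainj _ _ (by exact_mod_cast h7) (by omega) h5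
        exact_mod_cast this
      · have := hainj _ _ (by exact_mod_cast h7) (by omega) h5.symm
        exact_mod_cast this.symm
    rw [h6]
  have hξv : ∀ c, ξ c = 1 ∨ ξ c = -1 := by
    intro c
    simp only [ξ]
    split_ifs with h
    · rcases hFv (Classical.choose h) with h3 | h3 <;> rw [h3] <;> simp
    · left; rfl
  have hξs : ∀ i : ℤ, ξ (τ (a (i + 1))) = - ξ (τ (a i)) * f (a i) := by
    intro i
    have hk' : (k : ℤ) ≠ 0 := by omega
    have hmod : ∀ i : ℤ, a i = a (i % k) := by
      intro i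
      have h3 : ∀ (n : ℕ) (i : ℤ), a (i + n * k) = a i := by
        intro n
        induction n with
        | zero => intro i; simp
        | succ n ih =>
          intro i
          push_cast
          rw [show i + ((n : ℤ) + 1) * k = (i + n * k) + k by ring, haper, ih]
      have h4 := Int.emod_add_mul_ediv i k
      rcases le_total 0 (i / k) with h5 | h5
      · obtain ⟨n, hn⟩ := Int.eq_ofNat_of_zero_le h5
        rw [hn] at h4
        conv_lhs => rw [← h4]
        rw [mul_comm]
        exact h3 n _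
      · obtain ⟨n, hn⟩ := Int.eq_ofNat_of_zero_le (neg_nonneg.2 h5)
        have h6 : i % k = i + n * k := by
          have : i / k = -n := by omega
          rw [this] at h4
          linarith
        rw [h6, h3]
    have h0 := Int.emod_nonneg i hk'
    have h1 := Int.emod_lt_of_pos i (show (0 : ℤ) < k by omega)
    obtain ⟨n, hn⟩ := Int.eq_ofNat_of_zero_le h0
    have hnk : n < k := by omega
    have e1 : a i = a n := by rw [hmod i, hn]
    have e2 : a (i + 1) = a ((n : ℤ) + 1) := by rw [ha1, ha1, e1]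
    rw [e1, e2, hξ n hnk]
    rcases lt_or_ge (n + 1) k with h3 | h3
    · have := hξ (n + 1) h3
      push_cast at this
      rw [this, hFs]
      push_cast
      ring
    · have h4 : n + 1 = k := by omega
      have h5 : a ((n : ℤ) + 1) = a (0 : ℕ) := by
        have : (n : ℤ) + 1 = (0 : ℕ) + k := by omega
        rw [this, haper]
      rw [h5, hξ 0 hk, hF0]
      have h6 := hFs n
      rw [h4, hFk] at h6
      have h7 : ((1 : ℤ) : ℝ) = ((- F n * f (a n) : ℤ) : ℝ) := by rw [h6]
      push_cast at h7 ⊢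
      rw [h7]
  have hss : ∀ i, (s (a i) (τ (a i)) : ℝ) * s (a i) (τ (a i)) = 1 := by
    intro i
    exact_mod_cast hsq _ _ (hE _ (haB i)).2
  have hξξ : ∀ c, ξ c * ξ c = 1 := by
    intro c
    rcases hξv c with h | h <;> rw [h] <;> norm_num
  have hfa : ∀ i, (f (a i) : ℝ) = s (a i) (σ (a i)) * s (a i) (τ (a i)) := by
    intro i
    simp only [hf, haB i, if_false]
    push_cast
    ring
  have hff : ∀ i, (f (a i) : ℝ) * f (a i) = 1 := by
    intro i
    rcases hfv (a i) with h | h <;> rw [h] <;> norm_num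
  let ρ : A → ℝ := fun r => if ∃ i : ℤ, a i = r then (s r (τ r) : ℝ) * ξ (τ r) else 1
  have hρ : ∀ i, ρ (a i) = (s (a i) (τ (a i)) : ℝ) * ξ (τ (a i)) := by
    intro i
    simp only [ρ]
    rw [if_pos ⟨i, rfl⟩]
  refine ⟨
    { k := k
      a := a
      b := fun i => τ (a i)
      ξ := ξ
      ρ := ρ
      N := τ
      M := τ.symm
      kpos := Int.natCast_pos.2 hk
      pa := haper
      pb := fun i => congrArg τ (haper i)
      ia := hainj
      ib := fun i j h3 h4 h5 => hainj i j h3 h4 (τ.injective h5)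
      ay := hay
      bx := fun i => (hiff _).2 (hay i)
      ξ1 := hξv
      ρ1 := ?_
      e1 := ?_
      e2 := ?_
      N1 := ?_
      M1 := ?_ }⟩
  · intro r
    simp only [ρ]
    split_ifs with h
    · obtain ⟨i, rfl⟩ := h
      rcases hval _ _ (hE _ (haB i)).2 with h3 | h3 <;> rcases hξv (τ (a i)) with h4 | h4 <;> rw [h3, h4] <;>
        norm_num
    · left; rfl
  · intro i
    rw [hρ]
    calc (s (a i) (τ (a i)) : ℝ) * ξ (τ (a i)) * s (a i) (τ (a i)) * ξ (τ (a i))
        = ((s (a i) (τ (a i)) : ℝ) * s (a i) (τ (a i))) * (ξ (τ (a i)) * ξ (τ (a i))) := by ring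
      _ = 1 := by rw [hss, hξξ]; norm_num
  · intro i
    rw [hρ, hξs]
    have h3 : τ (a (i + 1)) = σ (a i) := by rw [ha1, hτp]
    simp only [h3]
    calc (s (a i) (τ (a i)) : ℝ) * ξ (τ (a i)) * s (a i) (σ (a i)) * (-ξ (τ (a i)) * f (a i))
        = - (ξ (τ (a i)) * ξ (τ (a i))) * ((s (a i) (σ (a i)) * s (a i) (τ (a i))) * f (a i)) := by ring
      _ = -1 := by rw [hξξ, ← hfa, hff]; norm_num
  · intro r h3 h4
    have hrB : r ∉ nbB s y := by rw [hmemB]; exact fun h => h h3
    refine ⟨(hiff r).2 h3, fun i h5 => h4 i (τ.injective h5), (hE r hrB).2, by simp⟩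
  · intro c h3 h4
    have h5 : s (τ.symm c) y = 0 := by
      rw [← hiff]; simpa using h3
    have hrB : τ.symm c ∉ nbB s y := by rw [hmemB]; exact fun h => h h5
    refine ⟨h5, fun i h6 => h4 i ?_, ?_, by simp⟩
    · show τ (a i) = c
      rw [h6]; simp
    · have := (hE _ hrB).2
      simpa using this

end MCC
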