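import Pool.Agent.Lib_MP_cb5629.T2Kz
import Pool.Agent.Lib_MP_cb5629.T2Pr
import Pool.Agent.Lib_MP_cb5629.T2Cv
import Pool.Agent.Lib_MP_cb5629.T2Ext
import Pool.Agent.Lib_MP_cb5629.T2Cnt
import Pool.Agent.Lib_MP_cb5629.T2D5

set_option linter.unusedSectionVars false

namespace MCC

open Finset Relation

variable {A B : Type} [Fintype A] [Fintype B] [DecidableEq A] [DecidableEq B]
variable {s : A → B → ℤ} {x : A} {y : B}

lemma St.Lk.symm {σ : St s x y} {f g : A} (h : σ.Lk f g) : σ.Lk g f := by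
  obtain ⟨κ, h1, h2⟩ := h
  rw [Finset.insert_comm] at h1 h2
  exact ⟨κ, h1, h2⟩

private lemma T2Sym_Ta (σ : St s x y) (i : ℤ) : σ.T.a (-i) = σ.b i := by
  show σ.b (- -i) = σ.b i
  rw [neg_neg]

private lemma T2Sym_Tb (σ : St s x y) (i : ℤ) : σ.T.b (-i) = σ.a i := by
  show σ.a (- -i) = σ.a i
  rw [neg_neg]

private lemma T2Sym_TSV (σ : St s x y) {ψ ω : B → ℝ} (hψ : σ.SV ψ ω) : σ.T.T.SV ψ ω := by
  rw [σ.T_T]
  exact hψ

private lemma T2Sym_TEx (σ : St s x y) {r : A} (hr : σ.Ex r) : σ.T.T.Ex r := by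
  rw [σ.T_T]
  exact hr

private lemma T2Sym_TLk (σ : St s x y) {f g : A} (hr : σ.Lk f g) : σ.T.T.Lk f g := by
  rw [σ.T_T]
  exact hr

private lemma T2Sym_Tdel (σ : St s x y) (ψ ω : B → ℝ) (i : ℤ) : σ.T.del ψ ω (-i) = gam s ψ ω (σ.a i) := by
  show gam s ψ ω (σ.a (- -i)) = _
  rw [neg_neg]

/-- `lk` for the transposed state: indices `i' = -m`, `j' = -l`, `l' = -j`, `m' = -i` (`St.T_T`) -/
theorem St.lkT (h : T2Ctx s x y) (σ : St s x y) {ψ ω : B → ℝ} (hψ : σ.SV ψ ω) {i j l m : ℤ} (hij : i ≤ j)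
    (hjl : j < l) (hlm : l ≤ m) (hm : m < i + σ.k) (hi : σ.T.Ex (σ.b i)) (hl : σ.T.Ex (σ.b l)) (hj : σ.Ex (σ.a j))
    (hm' : σ.Ex (σ.a m)) (hU : σ.Lk (σ.a j) (σ.a m)) (hZ : σ.T.Lk (σ.b i) (σ.b l)) :
    gam s ψ ω (σ.a j) ≠ gam s ψ ω (σ.a m) := by
  have h1 := σ.T.lk h.tr (T2Sym_TSV σ hψ) (i := -m) (j := -l) (l := -j) (m := -i) (by omega) (by omega) (by omega)
    (by show -i < -m + σ.k; omega) (by rw [T2Sym_Tb]; exact T2Sym_TEx σ hm') (by rw [T2Sym_Tb]; exact T2Sym_TEx σ hj)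
    (by rw [T2Sym_Ta]; exact hl) (by rw [T2Sym_Ta, T2Sym_Ta]; exact hZ.symm)
    (by rw [T2Sym_Tb, T2Sym_Tb]; exact T2Sym_TLk σ hU.symm)
  rw [T2Sym_Tdel, T2Sym_Tdel] at h1
  exact h1.symm

/-- `cv` for the transposed state -/
theorem St.cvT (h : T2Ctx s x y) (σ : St s x y) {φ lam : A → ℝ} (hφ : σ.T.SV φ lam) {i l j : ℤ} (hex : σ.Ex (σ.a j))
    (hi : σ.T.Ex (σ.b i)) (hl : σ.T.Ex (σ.b l)) (hne : σ.del φ lam i ≠ σ.del φ lam l) : σ.T.Lk (σ.b i) (σ.b l) := by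
  have h1 := σ.T.cv h.tr hφ (i := -j) (j := -i) (m := -l) (by rw [T2Sym_Tb]; exact T2Sym_TEx σ hex)
    (by rw [T2Sym_Ta]; exact hi) (by rw [T2Sym_Ta]; exact hl) (by rw [T2Sym_Ta, T2Sym_Ta]; exact hne)
  rwa [T2Sym_Ta, T2Sym_Ta] at h1

/-- `ext` for the transposed state: an exit that does not reach the sink `c0` is extreme. (`W_T`) -/
theorem St.extT (h : T2Ctx s x y) (σ : St s x y) {ψ ω : B → ℝ} (hψ : σ.SV ψ ω) {c0 : B} (hc0 : c0 ∈ snk s x y)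
    {i l m j : ℤ} (hi : σ.Ex (σ.a i)) (hl : σ.Ex (σ.a l)) (hm : σ.Ex (σ.a m)) (hj : σ.T.Ex (σ.b j))
    (hni : ¬ σ.W (σ.a i) c0) (hwl : σ.W (σ.a l) c0) (hwm : σ.W (σ.a m) c0) :
    0 ≤ (gam s ψ ω (σ.a i) - gam s ψ ω (σ.a l)) * (gam s ψ ω (σ.a i) - gam s ψ ω (σ.a m)) := by
  have h1 := σ.T.ext h.tr (T2Sym_TSV σ hψ) (r0 := c0) hc0 (i := -i) (l := -l) (m := -m) (j := -j)
    (by rw [T2Sym_Tb]; exact T2Sym_TEx σ hi) (by rw [T2Sym_Tb]; exact T2Sym_TEx σ hl)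
    (by rw [T2Sym_Tb]; exact T2Sym_TEx σ hm) (by rw [T2Sym_Ta]; exact hj)
    (by rw [T2Sym_Tb, σ.W_T]; exact hni) (by rw [T2Sym_Tb, σ.W_T]; exact hwl) (by rw [T2Sym_Tb, σ.W_T]; exact hwm)
  rwa [T2Sym_Tdel, T2Sym_Tdel, T2Sym_Tdel] at h1

/-- `card_TXR`, `mem_XR`: there is an entry -/
lemma St.exists_entry (h : T2Ctx s x y) (hT : CondT s x y) (σ : St s x y) : ∃ i, σ.T.Ex (σ.b i) := by
  have h1 := σ.card_TXR h hT
  obtain ⟨c, hc⟩ : σ.T.XR.Nonempty := by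
    rw [← card_pos]
    omega
  obtain ⟨⟨i, hi⟩, h2⟩ := σ.T.mem_XR.1 hc
  refine ⟨-i, ?_⟩
  have h3 : σ.b (-i) = c := hi
  rw [h3]
  exact h2

/-- Between any two places of the cycle that are separated by exits there are linkable exits. Proof. `lv` (with `f1 = x`) gives linkable exits `f, g`; put their indices into the window `[i, i + k)`. If
they are in different arcs: done (`Lk.symm`). Otherwise let `e` be the given exit of the other arc: `exchange`. -/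
theorem St.lkarc (h : T2Ctx s x y) (σ : St s x y) {i l : ℤ} (hil : i < l) (hli : l < i + σ.k)
    (h1 : ∃ j, i ≤ j ∧ j < l ∧ σ.Ex (σ.a j)) (h2 : ∃ j, l ≤ j ∧ j < i + σ.k ∧ σ.Ex (σ.a j)) :
    ∃ j m, i ≤ j ∧ j < l ∧ l ≤ m ∧ m < i + σ.k ∧ σ.Ex (σ.a j) ∧ σ.Ex (σ.a m) ∧ σ.Lk (σ.a j) (σ.a m) := by
  obtain ⟨f, g, hf, hg, -, -, hfg, hL⟩ := σ.lv h x
  obtain ⟨⟨i1, hi1⟩, hf2⟩ := σ.mem_XR.1 hf
  obtain ⟨⟨i2, hi2⟩, hg2⟩ := σ.mem_XR.1 hg
  obtain ⟨j, hj1, hj2, hj3⟩ := σ.a_window i i1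
  obtain ⟨m, hm1, hm2, hm3⟩ := σ.a_window i i2
  have ej : σ.a j = f := hj3.trans hi1
  have em : σ.a m = g := hm3.trans hi2
  rw [← ej] at hf2 hfg hL
  rw [← em] at hg2 hfg hL
  rcases lt_or_ge j l with hjl | hjl
  · rcases lt_or_ge m l with hml | hml
    · obtain ⟨n, hn1, hn2, hn3⟩ := h2
      have e1 : σ.a n ≠ σ.a j := by
        intro he
        have := σ.ia j n (by omega) (by omega) he.symm
        omega
      have e2 : σ.a n ≠ σ.a m := by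
        intro he
        have := σ.ia m n (by omega) (by omega) he.symm
        omega
      rcases σ.exchange h hfg e1 e2 hf2 hg2 hn3 (σ.a_not_U j) (σ.a_not_U m) (σ.a_not_U n) hL with hh | hh
      · exact ⟨j, n, hj1, hjl, hn1, hn2, hf2, hn3, hh⟩
      · exact ⟨m, n, hm1, hml, hn1, hn2, hg2, hn3, hh⟩
    · exact ⟨j, m, hj1, hjl, hml, hm2, hf2, hg2, hL⟩
  · rcases lt_or_ge m l with hml | hml
    · exact ⟨m, j, hm1, hml, hjl, hj2, hg2, hf2, hL.symm⟩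
    · obtain ⟨n, hn1, hn2, hn3⟩ := h1
      have e1 : σ.a n ≠ σ.a j := by
        intro he
        have := σ.ia n j (by omega) (by omega) he
        omega
      have e2 : σ.a n ≠ σ.a m := by
        intro he
        have := σ.ia n m (by omega) (by omega) he
        omega
      rcases σ.exchange h hfg e1 e2 hf2 hg2 hn3 (σ.a_not_U j) (σ.a_not_U m) (σ.a_not_U n) hL with hh | hh
      · exact ⟨n, j, hn1, hn2, hjl, hj2, hn3, hf2, hh.symm⟩
      · exact ⟨n, m, hn1, hn2, hml, hm2, hn3, hg2, hh.symm⟩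

/-- If there are exits in both arcs between two entries, then the entries are linkable iff `del` differs: this direction is `lk` with `lkarc`. -/
theorem St.del_ne (h : T2Ctx s x y) (σ : St s x y) {φ lam : A → ℝ} (hφ : σ.T.SV φ lam) {i l : ℤ} (hil : i < l)
    (hli : l < i + σ.k) (h1 : ∃ j, i ≤ j ∧ j < l ∧ σ.Ex (σ.a j)) (h2 : ∃ j, l ≤ j ∧ j < i + σ.k ∧ σ.Ex (σ.a j))
    (hi : σ.T.Ex (σ.b i)) (hl : σ.T.Ex (σ.b l)) (hZ : σ.T.Lk (σ.b i) (σ.b l)) : σ.del φ lam i ≠ σ.del φ lam l := by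
  obtain ⟨j, m, g1, g2, g3, g4, g5, -, g7⟩ := σ.lkarc h hil hli h1 h2
  exact σ.lk h hφ g1 g2 g3 g4 hi hl g5 g7 hZ

/-- The same when all rows of the cycle are exits, for arbitrary indices (`b i ≠ b l`; move `l` into the window `(i, i + k)`). -/
theorem St.del_ne_all (h : T2Ctx s x y) (σ : St s x y) (hall : ∀ i, σ.Ex (σ.a i)) {φ lam : A → ℝ} (hφ : σ.T.SV φ lam)
    {i l : ℤ} (hne : σ.b i ≠ σ.b l) (hi : σ.T.Ex (σ.b i)) (hl : σ.T.Ex (σ.b l)) (hZ : σ.T.Lk (σ.b i) (σ.b l)) :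
    σ.del φ lam i ≠ σ.del φ lam l := by
  obtain ⟨l', g1, g2, g3⟩ := σ.b_window i l
  have hlt : i < l' := by
    rcases eq_or_lt_of_le g1 with he | hlt
    · exfalso
      rw [← he] at g3
      exact hne g3
    · exact hlt
  have e1 : σ.del φ lam l' = σ.del φ lam l := by
    unfold St.del
    rw [g3]
  rw [← e1]
  rw [← g3] at hl hZ
  exact σ.del_ne h hφ hlt g2 ⟨i, le_refl i, hlt, hall i⟩ ⟨l', le_refl l', g2, hall l'⟩ hi hl hZ

/-- Piece T2SYM. Condition (T) is self-dual: for `T ⊆ B` take for `S` the complement of `NB s T`; `NA s S ⊆ Tᶜ`, so `|NA s S| ≤ |S| + 2`, equality by the brace property. -/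
theorem CondT.tr (h : T2Ctx s x y) (hT : CondT s x y) : CondT (MCC.tr s) y x := by
  classical
  intro T hT2 hT4 hyT hN hM hcard
  rw [NA_tr] at hcard
  have hAB := h.hc.card_eq
  obtain ⟨S, hS⟩ : ∃ S : Finset A, S = univ \ NB s T := ⟨_, rfl⟩
  have hScard : S.card + (NB s T).card = Fintype.card A := by
    rw [hS, card_sdiff_of_subset (subset_univ _), card_univ]
    have := card_le_univ (NB s T)
    omega
  have hxS : x ∉ S := by
    have h1 := card_snk h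
    obtain ⟨c, hc⟩ : (snk s x y).Nonempty := by
      rw [← card_pos]
      omega
    obtain ⟨hc1, hc2⟩ := mem_snk.1 hc
    have hcT : c ∈ T := hN c (by rw [nbB_tr, mem_nbA]; exact hc2) hc1
    rw [hS, mem_sdiff]
    rintro ⟨-, hx⟩
    exact hx (mem_NB.2 ⟨c, hcT, hc2⟩)
  have hsub : NA s S ⊆ univ \ T := by
    intro b hb
    obtain ⟨a, ha, hab⟩ := mem_NA.1 hb
    rw [mem_sdiff]
    refine ⟨mem_univ _, fun hbT => ?_⟩
    rw [hS, mem_sdiff] at ha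
    exact ha.2 (mem_NB.2 ⟨b, hbT, hab⟩)
  have hNS := card_le_card hsub
  rw [card_sdiff_of_subset (subset_univ _), card_univ] at hNS
  have hTle := card_le_univ T
  have hSne : S.Nonempty := by
    rw [← card_pos]
    omega
  have hbr := h.hb.hall S hSne (by omega)
  refine hT S (by omega) (by omega) hxS ?_ ?_ (by omega)
  · intro a ha hax
    rw [hS, mem_sdiff]
    refine ⟨mem_univ _, ?_⟩
    have h1 := hM a (by rw [nbA_tr]; exact ha) hax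
    rwa [NA_tr] at h1
  · intro b hb hby hbS
    have h1 := hsub hbS
    rw [mem_sdiff] at h1
    exact h1.2 (hN b (by rw [nbB_tr]; exact hb) hby)

end MCC
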