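import Pool.Agent.Lib_MP_cb5629.T2Cnt
import Pool.Agent.Lib_MP_cb5629.T2D5

set_option linter.unusedSectionVars false

namespace MCC

open Finset Relation

variable {A B : Type} [Fintype A] [Fintype B] [DecidableEq A] [DecidableEq B]
variable {s : A → B → ℤ} {x : A} {y : B}

/-- counting the edges from `S` -/
private lemma T2X4_count (hc : Cubic s) {S : Finset A} {K : Finset B} {c1 c2 c3 : B} {r1 r2 r3 : A}
    (hcard : K.card + 1 = S.card)
    (hsub : ∀ r ∈ S, ∀ c, s r c ≠ 0 → c = c1 ∨ c = c2 ∨ c = c3 ∨ c ∈ K)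
    (h1 : ∀ r ∈ S, s r c1 ≠ 0 → r = r1) (h2 : ∀ r ∈ S, s r c2 ≠ 0 → r = r2)
    (h3 : ∀ r ∈ S, s r c3 ≠ 0 → r = r3) : ∀ c ∈ K, ∀ r, s r c ≠ 0 → r ∈ S := by
  classical
  have hE := hc.card_edges S
  have hF := hc.tr.card_edges K
  set E : Finset (A × B) := univ.filter fun p => p.1 ∈ S ∧ s p.1 p.2 ≠ 0 with hEdef
  set F : Finset (A × B) := univ.filter fun p => p.2 ∈ K ∧ s p.1 p.2 ≠ 0 with hFdef
  have hFc : F.card = 3 * K.card := by
    rw [← hF]
    apply Finset.card_bij (fun p _ => (p.2, p.1))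
    · rintro ⟨a, b⟩ hm
      rw [hFdef, mem_filter] at hm
      rw [mem_filter]
      exact ⟨mem_univ _, hm.2⟩
    · rintro ⟨a, b⟩ _ ⟨a', b'⟩ _ hm
      simp only [Prod.mk.injEq] at hm ⊢
      exact ⟨hm.2, hm.1⟩
    · rintro ⟨b, a⟩ hm
      rw [mem_filter] at hm
      refine ⟨(a, b), ?_, rfl⟩
      rw [hFdef, mem_filter]
      exact ⟨mem_univ _, hm.2⟩
  have hsubE : E ⊆ {(r1, c1), (r2, c2), (r3, c3)} ∪ F.filter (fun p => p.1 ∈ S) := by
    rintro ⟨r, c⟩ hm
    rw [hEdef, mem_filter] at hm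
    obtain ⟨-, hr, hrc⟩ := hm
    have hr' : r ∈ S := hr
    have hrc' : s r c ≠ 0 := hrc
    rw [mem_union, mem_insert, mem_insert, mem_singleton, mem_filter, hFdef, mem_filter]
    rcases hsub r hr' c hrc' with h | h | h | h
    · left; left
      rw [h] at hrc' ⊢
      rw [h1 r hr' hrc']
    · left; right; left
      rw [h] at hrc' ⊢
      rw [h2 r hr' hrc']
    · left; right; right
      rw [h] at hrc' ⊢
      rw [h3 r hr' hrc']
    · right
      exact ⟨⟨mem_univ _, h, hrc'⟩, hr'⟩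
  have h4 := card_le_card hsubE
  have h5 := card_union_le ({(r1, c1), (r2, c2), (r3, c3)} : Finset (A × B)) (F.filter (fun p => p.1 ∈ S))
  have h6 : ({(r1, c1), (r2, c2), (r3, c3)} : Finset (A × B)).card ≤ 3 := card_le_three
  have h7 : F.filter (fun p => p.1 ∈ S) = F := by
    apply eq_of_subset_of_card_le (filter_subset _ _)
    omega
  intro c hcK r hrc
  have h8 : (r, c) ∈ F := by
    rw [hFdef, mem_filter]
    exact ⟨mem_univ _, hcK, hrc⟩
  rw [← h7, mem_filter] at h8
  exact h8.2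

/-- Piece T2X4. Four entries, two of them (`b e1`, `b e2`) not linkable: the other two have a common source. Proof. `S` = the smallest deficient set of `b e1, b e2` for `σ.T` (`exists_Df`; `NB (tr s) = NA s`), `K = NA s S ∩ σ.T.U`, `|K| + 1 = |S|`. By `TV_adj`, `f1_s`,
`hE` and `b e1, b e2 ∉ NA s S`: `NA s S ⊆ insert y (insert (b l) (insert (b m) K))`. The brace property (`S ⊆ σ.T.V`, misses `x` and an exit row... `card_XR`, `f1_V`) gives `|NA s S| ≥ |S| + 2`, so equality: `b l ≠ b m`, `y, b l, b m ∈ NA s S`.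
As `y ∈ NA s S`, `S` contains a source (`TV_O`: the other rows are not adjacent to `y`); not both, by `CondT` (`card_XR`: `|S| + 4 ≤ n`); so exactly one, `r0`. Count the edges from `S`: `3 |S|`; at most one to `y`, one to `b l`, one to `b m` (the two others go to the
cycle), so at least `3 |S| - 3 = 3 |K|` edges go to `K`: all neighbours of the columns of `K` are in `S`, `|NB s K| ≤ |S| = |K| + 1`. By the brace property for `tr s` `K = ∅`. So `S = {r0}`. -/
theorem St.four (h : T2Ctx s x y) (hT : CondT s x y) (σ : St s x y) {l m e1 e2 : ℤ} (h12 : σ.b e1 ≠ σ.b e2)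
    (he1 : σ.T.Ex (σ.b e1)) (he2 : σ.T.Ex (σ.b e2))
    (hE : ∀ e, σ.T.Ex (σ.b e) → σ.b e = σ.b l ∨ σ.b e = σ.b m ∨ σ.b e = σ.b e1 ∨ σ.b e = σ.b e2)
    (hL : ¬ σ.T.Lk (σ.b e1) (σ.b e2)) :
    ∃ r0 ∈ snk (tr s) y x, s r0 (σ.b l) ≠ 0 ∧ s r0 (σ.b m) ≠ 0 := by
  classical
  have hbU : ∀ e, σ.b e ∉ σ.T.U := by
    intro e
    have h1 := σ.T.a_not_U (-e)
    change σ.b (- -e) ∉ σ.T.U at h1
    rwa [neg_neg] at h1
  have haV : ∀ e, σ.a e ∉ σ.T.V := by
    intro e
    have h1 := σ.T.b_not_V (-e)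
    change σ.a (- -e) ∉ σ.T.V at h1
    rwa [neg_neg] at h1
  obtain ⟨S, hS⟩ := σ.T.exists_Df h.tr h12 he1 he2 (hbU e1) (hbU e2) hL
  have hNf : σ.b e1 ∉ NA s S := hS.nf
  have hNg : σ.b e2 ∉ NA s S := hS.ng
  have hKc : (NA s S ∩ σ.T.U).card + 1 = S.card := hS.card
  set K : Finset B := NA s S ∩ σ.T.U with hKdef
  -- the size of `S`
  have hxV : x ∉ σ.T.V := σ.T.y_not_V h.tr
  have hSn : S.card + 4 ≤ Fintype.card A := by
    have hxX : x ∉ σ.XR := by
      intro hx
      obtain ⟨⟨i, hi⟩, -⟩ := σ.mem_XR.1 hx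
      exact σ.a_ne_x h i hi
    have hdis : Disjoint σ.T.V (insert x σ.XR) := by
      rw [disjoint_left]
      intro r hr hr2
      rw [mem_insert] at hr2
      rcases hr2 with rfl | hr2
      · exact hxV hr
      · exact σ.f1_V h hr (σ.mem_XR.1 hr2).2
    have h1 := card_union_of_disjoint hdis
    have h2 := card_le_univ (σ.T.V ∪ insert x σ.XR)
    have h3 := card_insert_of_notMem hxX
    have h4 := σ.card_XR h
    have h5 := card_le_card hS.sub
    omega
  -- the neighbours of `S`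
  have hadj : ∀ r ∈ S, ∀ c, s r c ≠ 0 → c = y ∨ c = σ.b l ∨ c = σ.b m ∨ c ∈ K := by
    intro r hr c hc
    have hrV := hS.sub hr
    have hcN : c ∈ NA s S := mem_NA.2 ⟨r, hr, hc⟩
    rcases σ.TV_adj hrV hc with h1 | h1 | h1 | h1
    · exact Or.inl h1
    · exact Or.inr (Or.inr (Or.inr (mem_inter.2 ⟨hcN, h1⟩)))
    · obtain ⟨⟨i, hi⟩, hEx⟩ := σ.T.mem_XR.1 h1
      have hi' : σ.b (-i) = c := hi
      rw [← hi'] at hEx hcN ⊢
      rcases hE (-i) hEx with h2 | h2 | h2 | h2
      · exact Or.inr (Or.inl h2)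
      · exact Or.inr (Or.inr (Or.inl h2))
      · exact absurd (h2 ▸ hcN) hNf
      · exact absurd (h2 ▸ hcN) hNg
    · exact absurd (σ.f1_s h hrV (σ.mem_V.2 (Or.inr h1))) hc
  have hsub : NA s S ⊆ insert y (insert (σ.b l) (insert (σ.b m) K)) := by
    intro c hc
    obtain ⟨r, hr, hrc⟩ := mem_NA.1 hc
    rw [mem_insert, mem_insert, mem_insert]
    exact hadj r hr c hrc
  have hSne : S.Nonempty := by
    rw [← card_pos]
    omega
  have hhall := h.hb.hall S hSne (by omega)
  have c1 := card_insert_le y (insert (σ.b l) (insert (σ.b m) K))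
  have c2 := card_insert_le (σ.b l) (insert (σ.b m) K)
  have c3 := card_insert_le (σ.b m) K
  have c4 := card_le_card hsub
  have heq : NA s S = insert y (insert (σ.b l) (insert (σ.b m) K)) :=
    eq_of_subset_of_card_le hsub (by omega)
  have hyN : y ∈ NA s S := by
    rw [heq]
    exact mem_insert_self _ _
  have hlN : σ.b l ∈ NA s S := by
    rw [heq]
    exact mem_insert_of_mem (mem_insert_self _ _)
  have hmN : σ.b m ∈ NA s S := by
    rw [heq]
    exact mem_insert_of_mem (mem_insert_of_mem (mem_insert_self _ _))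
  have hsrc : ∀ r ∈ S, s r y ≠ 0 → r ∈ snk (tr s) y x := by
    intro r hr hry
    by_contra hn
    exact hry (σ.TV_O (hS.sub hr) hn).1.1
  -- exactly one source in `S`
  have hyu : ∀ r ∈ S, ∀ r' ∈ S, s r y ≠ 0 → s r' y ≠ 0 → r = r' := by
    intro r hr r' hr' hry hry'
    by_contra hne
    have hsn : snk (tr s) y x = {r, r'} := by
      symm
      apply eq_of_subset_of_card_le
      · intro q hq
        rw [mem_insert, mem_singleton] at hq
        rcases hq with rfl | rfl
        · exact hsrc _ hr hry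
        · exact hsrc _ hr' hry'
      · rw [card_snk h.tr, card_pair hne]
    refine hT S ?_ (by omega) (fun hx => hxV (hS.sub hx)) ?_ ?_ (by omega)
    · have h1 : ({r, r'} : Finset A) ⊆ S := by
        intro q hq
        rw [mem_insert, mem_singleton] at hq
        rcases hq with rfl | rfl
        · exact hr
        · exact hr'
      have h2 := card_le_card h1
      rwa [card_pair hne] at h2
    · intro q hq hqx
      rw [mem_nbB] at hq
      have h1 : q ∈ snk (tr s) y x := mem_snk.2 ⟨hqx, by rw [tr_apply]; exact hq⟩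
      rw [hsn, mem_insert, mem_singleton] at h1
      rcases h1 with rfl | rfl
      · exact hr
      · exact hr'
    · intro q hq hqy hN
      rw [mem_nbA] at hq
      obtain ⟨r2, hr2, hr2q⟩ := mem_NA.1 hN
      exact hr2q (σ.f1_s h (hS.sub hr2) (σ.mem_V.2 (Or.inr (mem_snk.2 ⟨hqy, hq⟩))))
  obtain ⟨r0, hr0S, hr0y⟩ := mem_NA.1 hyN
  -- exactly one row of `S` at each cycle column
  have hbu : ∀ e, σ.b e ∈ NA s S → ∃ r1, ∀ r ∈ S, s r (σ.b e) ≠ 0 → r = r1 := by
    intro e he
    obtain ⟨r1, hr1, hr1e⟩ := mem_NA.1 he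
    refine ⟨r1, fun r hr hre => ?_⟩
    obtain ⟨q, -, -, -, hq⟩ := σ.T.third h.tr (-e)
    have hq' : ∀ c', s c' (σ.b e) ≠ 0 → c' = σ.T.b (-e) ∨ c' = σ.T.b (-e + 1) ∨ c' = q := by
      intro c' hc'
      apply hq c'
      rw [tr_apply]
      change s c' (σ.b (- -e)) ≠ 0
      rwa [neg_neg]
    have hV : ∀ r ∈ S, s r (σ.b e) ≠ 0 → r = q := by
      intro r hr hre
      rcases hq' r hre with h1 | h1 | h1
      · exact absurd (h1 ▸ hS.sub hr) (σ.T.b_not_V _)
      · exact absurd (h1 ▸ hS.sub hr) (σ.T.b_not_V _)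
      · exact h1
    rw [hV r hr hre, hV r1 hr1 hr1e]
  obtain ⟨rl, hrl⟩ := hbu l hlN
  obtain ⟨rm, hrm⟩ := hbu m hmN
  have hclosed := T2X4_count h.hc (c1 := y) (c2 := σ.b l) (c3 := σ.b m) (r1 := r0) (r2 := rl) (r3 := rm)
    hKc hadj (fun r hr hry => hyu r hr r0 hr0S hry hr0y) hrl hrm
  have hK0 : K = ∅ := by
    by_contra hne
    have hne' : K.Nonempty := nonempty_iff_ne_empty.2 hne
    have h1 : NB s K ⊆ S := by
      intro r hr
      obtain ⟨c, hc, hrc⟩ := mem_NB.1 hr
      exact hclosed c hc r hrc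
    have h2 := card_le_card h1
    have h3 := h.hc.card_eq
    have h4 := (Brace.tr h.hc h.hb).hall K hne' (by omega)
    rw [NA_tr] at h4
    omega
  have hS1 : S.card = 1 := by
    rw [← hKc, hK0, card_empty]
  obtain ⟨r1, hr1⟩ := card_eq_one.1 hS1
  have hr01 : r0 = r1 := by
    rw [hr1, mem_singleton] at hr0S
    exact hr0S
  refine ⟨r0, hsrc r0 hr0S hr0y, ?_, ?_⟩
  · obtain ⟨r, hr, hrc⟩ := mem_NA.1 hlN
    rw [hr1, mem_singleton] at hr
    rw [hr01, ← hr]
    exact hrc
  · obtain ⟨r, hr, hrc⟩ := mem_NA.1 hmN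
    rw [hr1, mem_singleton] at hr
    rw [hr01, ← hr]
    exact hrc

/-- If the sources are adjacent to `b p, b (p+2)` and to `b (p+1), b (p+3)`, `k = 4`, then nothing is reached from them. Proof. `r0 ≠ r0'` (a row has three neighbours; `r0` is adjacent to `y, b p, b (p+2)`), so these are the two sources (`card_snk`), each of them
is adjacent to `y` and two cycle columns only; so there is no `σ.step` from a source (`σ.N r'` is off the cycle and `≠ y`); `mem_TV`, and `TV_O`. -/
theorem St.TV_small (h : T2Ctx s x y) (σ : St s x y) (hk : σ.k = 4) {p : ℤ} {r0 r1 : A} (h0 : r0 ∈ snk (tr s) y x)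
    (h1 : r1 ∈ snk (tr s) y x) (g1 : s r0 (σ.b p) ≠ 0) (g2 : s r0 (σ.b (p + 2)) ≠ 0) (g3 : s r1 (σ.b (p + 1)) ≠ 0)
    (g4 : s r1 (σ.b (p + 3)) ≠ 0) : σ.T.V = snk (tr s) y x ∧ σ.T.U = ∅ := by
  classical
  have hyb : ∀ i, y ≠ σ.b i := by
    intro i hE
    exact h.xy (by rw [hE]; exact σ.bx i)
  have hnb : ∀ i j, p ≤ i → i < j → j < i + 4 → σ.b i ≠ σ.b j := by
    intro i j _ h1 h2 hE
    have := σ.ib i j (by omega) (by omega) hE
    omega
  have hnbr : ∀ r i, r ∈ snk (tr s) y x → p ≤ i → s r (σ.b i) ≠ 0 → s r (σ.b (i + 2)) ≠ 0 →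
      nbA s r = {y, σ.b i, σ.b (i + 2)} := by
    intro r i hr hi h1 h2
    symm
    apply eq_of_subset_of_card_le
    · intro c hc
      rw [mem_insert, mem_insert, mem_singleton] at hc
      rw [mem_nbA]
      rcases hc with rfl | rfl | rfl
      · have := (mem_snk.1 hr).2
        rwa [tr_apply] at this
      · exact h1
      · exact h2
    · rw [h.hc.row r, card_insert_of_notMem, card_pair (hnb i (i + 2) hi (by omega) (by omega))]
      rw [mem_insert, mem_singleton]
      rintro (h3 | h3)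
      · exact hyb i h3
      · exact hyb (i + 2) h3
  have hn0 := hnbr r0 p h0 le_rfl g1 g2
  have hn1 := hnbr r1 (p + 1) h1 (by omega) g3 (by rw [show p + 1 + 2 = p + 3 by ring]; exact g4)
  have hne : r0 ≠ r1 := by
    intro hE
    have h2 : σ.b p ∈ nbA s r1 := by
      rw [← hE, mem_nbA]
      exact g1
    rw [hn1, mem_insert, mem_insert, mem_singleton] at h2
    rcases h2 with h2 | h2 | h2
    · exact hyb p h2.symm
    · exact hnb p (p + 1) le_rfl (by omega) (by omega) h2
    · exact hnb p (p + 1 + 2) le_rfl (by omega) (by omega) h2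
  have hsn : snk (tr s) y x = {r0, r1} := by
    symm
    apply eq_of_subset_of_card_le
    · intro q hq
      rw [mem_insert, mem_singleton] at hq
      rcases hq with rfl | rfl
      · exact h0
      · exact h1
    · rw [card_snk h.tr, card_pair hne]
  have hnostep : ∀ r ∈ snk (tr s) y x, ∀ r', ¬ σ.step r r' := by
    intro r hr r' hst
    obtain ⟨hO, hN⟩ := hst
    obtain ⟨k1, k2, -⟩ := σ.N1 r' hO.1 hO.2
    have hy : σ.N r' ≠ y := by
      intro hE
      rw [hE] at k1
      exact h.xy k1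
    have hm : σ.N r' ∈ nbA s r := mem_nbA.2 hN
    rw [hsn, mem_insert, mem_singleton] at hr
    rcases hr with rfl | rfl
    · rw [hn0, mem_insert, mem_insert, mem_singleton] at hm
      rcases hm with hm | hm | hm
      · exact hy hm
      · exact k2 _ hm.symm
      · exact k2 _ hm.symm
    · rw [hn1, mem_insert, mem_insert, mem_singleton] at hm
      rcases hm with hm | hm | hm
      · exact hy hm
      · exact k2 _ hm.symm
      · exact k2 _ hm.symm
  have hV : σ.T.V = snk (tr s) y x := by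
    ext r
    rw [σ.mem_TV]
    constructor
    · rintro ⟨q, hq, hw⟩
      rcases ReflTransGen.cases_head hw with h2 | ⟨q', hst, -⟩
      · rw [← h2]
        exact hq
      · exact absurd hst (hnostep q hq q')
    · intro hr
      exact ⟨r, hr, ReflTransGen.refl⟩
  refine ⟨hV, ?_⟩
  have h2 := σ.T.card_V h.tr
  rw [hV, card_snk h.tr] at h2
  rw [← card_eq_zero]
  omega

end MCC
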